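import Mathlib

/-!
# Hierarchical Yang-Mills theory: basic definitions

`G` is a compact group with a faithful unitary representation `rho` and a linear anti-automorphism
`sig` of the matrix algebra extending the inversion of `G`.
-/

open MeasureTheory Matrix Filter
open scoped Matrix.Norms.Frobenius Topology

namespace Pool.Agent.T2H04.HY

noncomputable section

/-- square complex matrices -/
abbrev Mt (m : Type) := Matrix m m ℂ

/-- A faithful unitary representation, with a linear anti-automorphism extending the inverse. -/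
structure RD (G : Type) [Group G] [TopologicalSpace G] (m : Type) [Fintype m] [DecidableEq m] where
  rho : G →* Mt m
  cont : Continuous rho
  inj : Function.Injective rho
  unit : ∀ g, rho g * (rho g)ᴴ = 1
  sig : Mt m →ₗ[ℂ] Mt m
  sig_mul : ∀ x y, sig (x * y) = sig y * sig x
  sig_rho : ∀ g, sig (rho g) = rho g⁻¹
  sig_tr : ∀ x, trace (sig x) = trace x

section

variable {G : Type} [Group G] [TopologicalSpace G] {m : Type} [Fintype m] [DecidableEq m]
  (L : RD G m)

/-- The Lie algebra as a set: all `X` with `exp (t X)` in the group for all real `t`. -/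
def lieSet : Set (Mt m) := {X | ∀ t : ℝ, ∃ g : G, L.rho g = NormedSpace.exp (t • X)}

/-- The Lie algebra, as a real subspace (it is proved in `Lie.lean` that the carrier of this span is
`lieSet L`). -/
def lieAlg : Submodule ℝ (Mt m) := Submodule.span ℝ (lieSet L)

/-- The complexified Lie algebra. -/
def gC : Submodule ℂ (Mt m) := Submodule.span ℂ (lieSet L)

/-- the skew-Hermitian part -/
def reP (Z : Mt m) : Mt m := (1 / 2 : ℂ) • (Z - Zᴴ)

/-- the skew-Hermitian matrix `H` with `Z = reP Z + i H` -/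
def imP (Z : Mt m) : Mt m := (-(Complex.I / 2)) • (Z + Zᴴ)

/-- the quadratic form `- tr Z²` -/
def Qf (Z : Mt m) : ℂ := -(trace (Z * Z))

/-- distance of a group element to `1` -/
def dis (y : G) : ℝ := ‖L.rho y - 1‖

/-- the domain of the complex chart -/
def dom (r τ : ℝ) : Set (gC L) := {Z | ‖reP (Z : Mt m)‖ < r ∧ ‖imP (Z : Mt m)‖ < τ}

/-- the group is connected with simple Lie algebra -/
structure Simple : Prop where
  conn : IsConnected (Set.univ : Set G)
  nonab : ∃ X ∈ lieSet L, ∃ Y ∈ lieSet L, X * Y ≠ Y * X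
  irred : ∀ V : Submodule ℝ (Mt m), V ≤ lieAlg L →
    (∀ X ∈ lieSet L, ∀ Y ∈ V, X * Y - Y * X ∈ V) → V = ⊥ ∨ V = lieAlg L

end

section

variable {G : Type} [Group G] [TopologicalSpace G] [MeasurableSpace G] {m : Type} [Fintype m]
  [DecidableEq m] (L : RD G m) (μ : Measure G)

/-- convolution of functions on the group -/
def cnv (f g : G → ℝ) (x : G) : ℝ := ∫ y, f y * g (y⁻¹ * x) ∂μ

/-- four fold convolution -/
def cnv4 (f : G → ℝ) : G → ℝ := cnv μ (cnv μ f f) (cnv μ f f)

/-- The Migdal-Kadanoff renormalisation group transformation, scale factor `2`, dimension `4`. -/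
def mk (f : G → ℝ) (x : G) : ℝ := (cnv4 μ f x) ^ 4 / ∫ y, (cnv4 μ f y) ^ 4 ∂μ

/-- convolution of the complexified functions -/
def ccv (F : Mt m → ℂ) (x : Mt m) : ℂ := ∫ y, F (L.rho y) * F (L.rho y⁻¹ * x) ∂μ

/-- The class of complexified plaquette functions: Gaussian with variance `t` up to a quartic error
near `1`, small away from `1`. -/
structure Cls (F : Mt m → ℂ) (t A r τ s b ε : ℝ) : Prop where
  diff : ContDiff ℂ 1 F
  conj : ∀ g x, F (L.rho g * x * L.rho g⁻¹) = F x
  inv : ∀ x, F (L.sig x) = F x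
  real : ∀ g, (F (L.rho g)).im = 0
  nonneg : ∀ g, 0 ≤ (F (L.rho g)).re
  pos : 0 < (F 1).re
  small : ∃ w : gC L → ℂ, DifferentiableOn ℂ w (dom L r τ) ∧
    (∀ Z ∈ dom L r τ, w (-Z) = w Z) ∧
    (∀ g : G, ∀ Z ∈ dom L r τ, ∀ Z' : gC L, (Z' : Mt m) = L.rho g * (Z : Mt m) * L.rho g⁻¹ →
      w Z' = w Z) ∧
    (∀ Z ∈ dom L r τ, imP (Z : Mt m) = 0 → (w Z).im = 0) ∧
    (∀ Z ∈ dom L r τ, ‖w Z‖ ≤ A * ‖Z‖ ^ 4) ∧
    ∀ Z ∈ dom L r τ, F (NormedSpace.exp (Z : Mt m)) =
      F 1 * Complex.exp (-(Qf (Z : Mt m) / (2 * t)) - w Z)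
  large : ∀ Z ∈ dom L r τ, ∀ y : G, s ≤ ‖NormedSpace.exp (reP (Z : Mt m)) * L.rho y - 1‖ →
    ‖F (NormedSpace.exp (Z : Mt m) * L.rho y)‖ ≤
      (F 1).re * Real.exp (-((b - (1 + ε) * ‖imP (Z : Mt m)‖ ^ 2) / (2 * t)))

end

end

end Pool.Agent.T2H04.HY
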