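import Mathlib
import Pool.Agent.T2H04.HY.Defs

/-!
# Compactness and continuity of the renormalisation group map
-/

open MeasureTheory Matrix Filter
open scoped Matrix.Norms.Frobenius Topology

namespace Pool.Agent.T2H04.HY

set_option linter.unusedSectionVars false

noncomputable section

variable {G : Type} [Group G] [TopologicalSpace G] [IsTopologicalGroup G] [CompactSpace G]
  [MeasurableSpace G] [BorelSpace G] (μ : Measure G) [μ.IsHaarMeasure] [IsProbabilityMeasure μ]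
  {m : Type} [Fintype m] [DecidableEq m] (L : RD G m)

/-- probability densities -/
structure PD (f : G → ℝ) : Prop where
  cont : Continuous f
  nonneg : ∀ x, 0 ≤ f x
  int : ∫ x, f x ∂μ = 1

theorem integrable_cont {h : G → ℝ} (hc : Continuous h) : Integrable h μ :=
  hc.integrable_of_hasCompactSupport (HasCompactSupport.of_compactSpace _)

theorem abs_int_sub_le (h h' : C(G, ℝ)) : |∫ y, h y ∂μ - ∫ y, h' y ∂μ| ≤ ‖h - h'‖ := by
  rw [← integral_sub (integrable_cont μ h.continuous) (integrable_cont μ h'.continuous),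
    ← Real.norm_eq_abs]
  have h1 := norm_integral_le_of_norm_le_const (μ := μ) (f := fun y => h y - h' y) (C := ‖h - h'‖)
    (Filter.Eventually.of_forall fun y => (h - h').norm_coe_le_norm y)
  rwa [probReal_univ, mul_one] at h1

theorem continuous_int : Continuous fun h : C(G, ℝ) => ∫ y, h y ∂μ := by
  refine LipschitzWith.continuous (K := 1) (LipschitzWith.of_dist_le_mul fun h h' => ?_)
  rw [Real.dist_eq, NNReal.coe_one, one_mul, dist_eq_norm]
  exact abs_int_sub_le μ h h'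

theorem continuous_cnv {f g : G → ℝ} (hf : Continuous f) (hg : Continuous g) :
    Continuous (cnv μ f g) := by
  let F : C(G × G, ℝ) := ⟨fun p => f p.2 * g (p.2⁻¹ * p.1), by fun_prop⟩
  exact (continuous_int μ).comp F.curry.continuous

theorem cnv_nonneg0 {f g : G → ℝ} (hf : ∀ x, 0 ≤ f x) (hg : ∀ x, 0 ≤ g x) (x : G) :
    0 ≤ cnv μ f g x := integral_nonneg fun y => mul_nonneg (hf y) (hg _)

theorem cnv_pos {f g : G → ℝ} (hf : Continuous f) (hg : Continuous g) (hf0 : ∀ x, 0 ≤ f x)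
    (hg0 : ∀ x, 0 ≤ g x) {x y : G} (hx : 0 < f x) (hy : 0 < g y) : 0 < cnv μ f g (x * y) := by
  refine Continuous.integral_pos_of_hasCompactSupport_nonneg_nonzero (x := x) (by fun_prop)
    (HasCompactSupport.of_compactSpace _) (fun z => mul_nonneg (hf0 z) (hg0 _)) ?_
  rw [inv_mul_cancel_left]
  positivity

theorem continuous_cnv4 {f : G → ℝ} (hf : Continuous f) : Continuous (cnv4 μ f) :=
  continuous_cnv μ (continuous_cnv μ hf hf) (continuous_cnv μ hf hf)

theorem norm_pos {f : G → ℝ} (hf : PD μ f) : 0 < ∫ y, (cnv4 μ f y) ^ 4 ∂μ := by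
  obtain ⟨x, hx⟩ : ∃ x, 0 < f x := by
    by_contra h
    push Not at h
    have h1 : f = fun _ => 0 := funext fun x => le_antisymm (h x) (hf.nonneg x)
    have h2 := hf.int
    rw [h1] at h2
    simp at h2
  have h1 : 0 < cnv μ f f (x * x) := cnv_pos μ hf.cont hf.cont hf.nonneg hf.nonneg hx hx
  have hc := continuous_cnv μ hf.cont hf.cont
  have hn := cnv_nonneg0 μ hf.nonneg hf.nonneg
  have h2 : 0 < cnv4 μ f (x * x * (x * x)) := cnv_pos μ hc hc hn hn h1 h1
  exact Continuous.integral_pos_of_hasCompactSupport_nonneg_nonzero (x := x * x * (x * x))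
    ((continuous_cnv4 μ hf.cont).pow 4) (HasCompactSupport.of_compactSpace _)
    (fun z => by positivity) (by positivity)

theorem pd_mk (f : G → ℝ) (hf : PD μ f) : PD μ (mk μ f) := by
  have hZ := norm_pos μ hf
  refine ⟨((continuous_cnv4 μ hf.cont).pow 4).div_const _, fun x => ?_, ?_⟩
  · unfold mk
    positivity
  · unfold mk
    rw [integral_div, div_self hZ.ne']

/-- convolution of continuous functions -/
def cvC (f g : C(G, ℝ)) : C(G, ℝ) := ⟨cnv μ f g, continuous_cnv μ f.continuous g.continuous⟩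

theorem cvC_sub_le (f g f' g' : C(G, ℝ)) :
    ‖cvC μ f g - cvC μ f' g'‖ ≤ ‖f - f'‖ * ‖g‖ + ‖f'‖ * ‖g - g'‖ := by
  rw [ContinuousMap.norm_le _ (by positivity)]
  intro x
  have hi : ∀ (f g : C(G, ℝ)), Integrable (fun y => f y * g (y⁻¹ * x)) μ := fun f g =>
    integrable_cont μ (by fun_prop)
  have h1 : (cvC μ f g - cvC μ f' g') x = ∫ y, (f y * g (y⁻¹ * x) - f' y * g' (y⁻¹ * x)) ∂μ := by
    rw [integral_sub (hi f g) (hi f' g')]
    rfl
  rw [h1]
  have h2 := norm_integral_le_of_norm_le_const (μ := μ)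
    (f := fun y => f y * g (y⁻¹ * x) - f' y * g' (y⁻¹ * x)) (C := ‖f - f'‖ * ‖g‖ + ‖f'‖ * ‖g - g'‖)
    (Filter.Eventually.of_forall fun y => by
      have e : f y * g (y⁻¹ * x) - f' y * g' (y⁻¹ * x) =
        (f - f') y * g (y⁻¹ * x) + f' y * (g - g') (y⁻¹ * x) := by
        simp only [ContinuousMap.sub_apply]; ring
      rw [e]
      refine (norm_add_le _ _).trans ?_
      rw [norm_mul, norm_mul]
      gcongr
      · exact (f - f').norm_coe_le_norm y
      · exact g.norm_coe_le_norm _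
      · exact f'.norm_coe_le_norm y
      · exact (g - g').norm_coe_le_norm _)
  rwa [probReal_univ, mul_one] at h2

theorem cvC_tendsto {f g : ℕ → C(G, ℝ)} {f' g' : C(G, ℝ)} (hf : Tendsto f atTop (𝓝 f'))
    (hg : Tendsto g atTop (𝓝 g')) :
    Tendsto (fun n => cvC μ (f n) (g n)) atTop (𝓝 (cvC μ f' g')) := by
  rw [tendsto_iff_norm_sub_tendsto_zero] at *
  have hg2 : Tendsto (fun n => ‖g n‖) atTop (𝓝 ‖g'‖) := (tendsto_iff_norm_sub_tendsto_zero.2 hg).norm
  have h1 : Tendsto (fun n => ‖f n - f'‖ * ‖g n‖ + ‖f'‖ * ‖g n - g'‖) atTop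
      (𝓝 (0 * ‖g'‖ + ‖f'‖ * 0)) := (hf.mul hg2).add (hg.const_mul _)
  rw [zero_mul, mul_zero, add_zero] at h1
  exact squeeze_zero (fun n => norm_nonneg _) (fun n => cvC_sub_le μ _ _ _ _) h1

/-- the renormalisation group map is continuous in the uniform topology -/
theorem mk_tendsto (f : ℕ → G → ℝ) (g : G → ℝ) (hf : ∀ n, PD μ (f n)) (hg : PD μ g)
    (h : TendstoUniformly f g atTop) : TendstoUniformly (fun n => mk μ (f n)) (mk μ g) atTop := by
  set F : ℕ → C(G, ℝ) := fun n => ⟨f n, (hf n).cont⟩ with hF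
  set F' : C(G, ℝ) := ⟨g, hg.cont⟩ with hF'
  have h0 : Tendsto F atTop (𝓝 F') := ContinuousMap.tendsto_iff_tendstoUniformly.2 h
  have h1 := cvC_tendsto μ h0 h0
  have h2 := cvC_tendsto μ h1 h1
  set P : ℕ → C(G, ℝ) := fun n => (cvC μ (cvC μ (F n) (F n)) (cvC μ (F n) (F n))) ^ 4 with hP
  set P' : C(G, ℝ) := (cvC μ (cvC μ F' F') (cvC μ F' F')) ^ 4 with hP'
  have h3 : Tendsto P atTop (𝓝 P') := h2.pow 4
  have h4 : Tendsto (fun n => ∫ y, P n y ∂μ) atTop (𝓝 (∫ y, P' y ∂μ)) :=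
    ((continuous_int μ).tendsto P').comp h3
  have hZ : ∫ y, P' y ∂μ ≠ 0 := (norm_pos μ hg).ne'
  have h5 : Tendsto (fun n => (∫ y, P n y ∂μ)⁻¹ • P n) atTop (𝓝 ((∫ y, P' y ∂μ)⁻¹ • P')) :=
    (h4.inv₀ hZ).smul h3
  have h6 := ContinuousMap.tendsto_iff_tendstoUniformly.1 h5
  intro u hu
  filter_upwards [h6 u hu] with n hn x
  have e1 : mk μ g x = ((∫ y, P' y ∂μ)⁻¹ • P') x := by
    show mk μ g x = (∫ y, (cnv4 μ g y) ^ 4 ∂μ)⁻¹ * (cnv4 μ g x) ^ 4
    unfold mk
    rw [div_eq_inv_mul]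
  have e2 : mk μ (f n) x = ((∫ y, P n y ∂μ)⁻¹ • P n) x := by
    show mk μ (f n) x = (∫ y, (cnv4 μ (f n) y) ^ 4 ∂μ)⁻¹ * (cnv4 μ (f n) x) ^ 4
    unfold mk
    rw [div_eq_inv_mul]
  rw [e1, e2]
  exact hn x

/-- the set of bounded Lipschitz functions -/
def BL (M Λ : ℝ) : Set C(G, ℝ) := {h | (∀ x, |h x| ≤ M) ∧
  ∀ x y : G, |h x - h y| ≤ Λ * ‖L.rho x - L.rho y‖}

omit [IsTopologicalGroup G] [MeasurableSpace G] [BorelSpace G] in
theorem cont_of_lip {Λ : ℝ} {h : G → ℝ} (hh : ∀ x y : G, |h x - h y| ≤ Λ * ‖L.rho x - L.rho y‖) :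
    Continuous h := by
  rw [continuous_iff_continuousAt]
  intro x
  rw [ContinuousAt, tendsto_iff_norm_sub_tendsto_zero]
  have hc : Continuous fun y => Λ * ‖L.rho y - L.rho x‖ := by
    have := L.cont
    fun_prop
  have h1 := hc.tendsto x
  rw [sub_self, norm_zero, mul_zero] at h1
  exact squeeze_zero (fun y => norm_nonneg _) (fun y => hh y x) h1

omit [IsTopologicalGroup G] [MeasurableSpace G] [BorelSpace G] in
theorem isCompact_BL (M Λ : ℝ) : IsCompact (BL L M Λ) := by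
  refine ArzelaAscoli.isCompact_of_equicontinuous _ ?_ ?_
  · have h1 : ContinuousMap.toFun '' (BL L M Λ) = {h : G → ℝ | (∀ x, |h x| ≤ M) ∧
        ∀ x y : G, |h x - h y| ≤ Λ * ‖L.rho x - L.rho y‖} := by
      ext h
      constructor
      · rintro ⟨h', hh', rfl⟩
        exact hh'
      · intro hh
        exact ⟨⟨h, cont_of_lip L hh.2⟩, hh, rfl⟩
    rw [h1]
    have h2 : IsCompact (Set.pi Set.univ fun _ : G => Set.Icc (-M) M) :=
      isCompact_univ_pi fun _ => isCompact_Icc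
    refine h2.of_isClosed_subset ?_ ?_
    · have e : {h : G → ℝ | (∀ x, |h x| ≤ M) ∧
        ∀ x y : G, |h x - h y| ≤ Λ * ‖L.rho x - L.rho y‖} =
        (⋂ x : G, {h : G → ℝ | |h x| ≤ M}) ∩
          ⋂ x : G, ⋂ y : G, {h : G → ℝ | |h x - h y| ≤ Λ * ‖L.rho x - L.rho y‖} := by
        ext h
        simp only [Set.mem_inter_iff, Set.mem_iInter]
        rfl
      rw [e]
      refine IsClosed.inter (isClosed_iInter fun x => ?_)
        (isClosed_iInter fun x => isClosed_iInter fun y => ?_)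
      · exact isClosed_le (by fun_prop) continuous_const
      · exact isClosed_le (by fun_prop) continuous_const
    · intro h hh x _
      exact abs_le.1 (hh.1 x)
  · intro x
    have hc : Continuous fun y => Λ * ‖L.rho x - L.rho y‖ := by
      have := L.cont
      fun_prop
    have h1 := hc.tendsto x
    rw [sub_self, norm_zero, mul_zero] at h1
    refine Metric.equicontinuousAt_of_continuity_modulus _ h1 _
      (Filter.Eventually.of_forall fun y h => ?_)
    rw [Real.dist_eq]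
    exact h.2.2 x y

/-- diagonal subsequence -/
theorem subseq (a : ℕ → ℕ → G → ℝ) (M Λ : ℕ → ℝ)
    (hM : ∀ k, ∀ᶠ i in atTop, (∀ x, |a i k x| ≤ M k) ∧
      ∀ x y : G, |a i k x - a i k y| ≤ Λ k * ‖L.rho x - L.rho y‖) :
    ∃ φ : ℕ → ℕ, StrictMono φ ∧ ∀ k, ∃ g : G → ℝ, Continuous g ∧
      (∀ x y : G, |g x - g y| ≤ Λ k * ‖L.rho x - L.rho y‖) ∧
      TendstoUniformly (fun i => a (φ i) k) g atTop := by
  have hM' : ∀ k, ∃ N, ∀ i, N ≤ i → (∀ x, |a i k x| ≤ M k) ∧
      ∀ x y : G, |a i k x - a i k y| ≤ Λ k * ‖L.rho x - L.rho y‖ := fun k =>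
    eventually_atTop.1 (hM k)
  choose N hN using hM'
  set b : ℕ → ℕ → C(G, ℝ) := fun i k =>
    ⟨a (max i (N k)) k, cont_of_lip L (hN k _ (le_max_right _ _)).2⟩ with hb
  have hbm : ∀ i, b i ∈ Set.pi Set.univ fun k => BL L (M k) (Λ k) := by
    intro i k _
    exact hN k _ (le_max_right _ _)
  have hcpt : IsCompact (Set.pi Set.univ fun k => BL L (M k) (Λ k)) :=
    isCompact_univ_pi fun k => isCompact_BL L (M k) (Λ k)
  obtain ⟨g, hg, φ, hφ, hlim⟩ := hcpt.isSeqCompact hbm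
  refine ⟨φ, hφ, fun k => ⟨g k, (g k).continuous, (hg k (Set.mem_univ _)).2, ?_⟩⟩
  have h1 : Tendsto (fun i => b (φ i) k) atTop (𝓝 (g k)) := (tendsto_pi_nhds.1 hlim) k
  have h2 := ContinuousMap.tendsto_iff_tendstoUniformly.1 h1
  intro u hu
  filter_upwards [h2 u hu, hφ.tendsto_atTop.eventually_ge_atTop (N k)] with i hi1 hi2 x
  have h3 := hi1 x
  have h4 : b (φ i) k x = a (φ i) k x := by
    show a (max (φ i) (N k)) k x = a (φ i) k x
    rw [max_eq_left hi2]
  rw [← h4]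
  exact h3

end

end Pool.Agent.T2H04.HY
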