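import Mathlib
import Pool.Agent.T2H04.HY.Cpt

/-!
# Assembly: definitions
-/

open MeasureTheory Matrix Filter
open scoped Matrix.Norms.Frobenius Topology

namespace Pool.Agent.T2H04.HY

set_option linter.unusedSectionVars false

noncomputable section

variable {G : Type} [Group G] [TopologicalSpace G] [IsTopologicalGroup G] [CompactSpace G]
  [MeasurableSpace G] [BorelSpace G] (μ : Measure G) [μ.IsHaarMeasure] [IsProbabilityMeasure μ]
  {m : Type} [Fintype m] [DecidableEq m] (L : RD G m)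

/-- Wilson's plaquette density at the coupling `t` (`t = 2 / β`) -/
def wil (t : ℝ) (g : G) : ℝ :=
  Real.exp ((trace (L.rho g)).re / t) / ∫ y, Real.exp ((trace (L.rho y)).re / t) ∂μ

/-- the running coupling (not normalised) -/
def g2 (f : G → ℝ) : ℝ := ∫ y, dis L y ^ 2 * f y ∂μ

/-- The outcome of the ultraviolet analysis: `Good f t A` says that the density `f` is close to a
Gaussian of variance `t`, with a quartic error of size `A`. -/
structure UV (Good : (G → ℝ) → ℝ → ℝ → Prop) (ts C ρs c a0 d0 : ℝ) (p : ℕ) : Prop where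
  ts_pos : 0 < ts
  C_pos : 0 < C
  ρs_pos : 0 < ρs
  c_pos : 0 < c
  a0_pos : 0 < a0
  d0_pos : 0 < d0
  init : ∀ t, 0 < t → t ≤ ts → Good (wil μ L t) t (1 / (20 * t))
  pos : ∀ f t A, Good f t A → 0 < t ∧ 0 ≤ A ∧ A * t ≤ 1 / 10
  pd : ∀ f t A, Good f t A → PD μ f
  cls : ∀ f t A, Good f t A → ∀ x y, f (y * x * y⁻¹) = f x
  inv : ∀ f t A, Good f t A → ∀ x, f x⁻¹ = f x
  step : ∀ f t A, Good f t A → t ≤ ts → ∃ t' A', Good (mk μ f) t' A' ∧
    |1 / t' - 1 / t + a0| ≤ C * (Real.sqrt t + A * t) ∧ A' ≤ A / 16 + C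
  bound : ∀ f t A, Good f t A → t ≤ 2 * ts → (∀ x, |f x| ≤ C / t ^ p) ∧
    ∀ x y : G, |f x - f y| ≤ C / t ^ p * ‖L.rho x - L.rho y‖
  near : ∀ f t A, Good f t A → t ≤ 2 * ts → ∀ y, dis L y < ρs → Real.exp (-(1 / t)) ≤ f y
  g2_lo : ∀ f t A, Good f t A → t ≤ 2 * ts → c * t ≤ g2 μ L f
  g2_hi : ∀ f t A, Good f t A → t ≤ 2 * ts → g2 μ L f ≤ C * t
  g2_as : ∀ f t A, Good f t A → t ≤ 2 * ts → |g2 μ L f - d0 * t| ≤ C * t * (Real.sqrt t + A * t)

end

end Pool.Agent.T2H04.HY
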