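import Mathlib
import Pool.Agent.T2H04.HY.Defs

/-!
# The Lie algebra
-/

open MeasureTheory Matrix Filter
open scoped Matrix.Norms.Frobenius Topology

namespace Pool.Agent.T2H04.HY

set_option linter.unusedSectionVars false

noncomputable section

variable {m : Type} [Fintype m] [DecidableEq m]

/-! ### skew-Hermitian decomposition -/

theorem reP_add_imP (Z : Mt m) : reP Z + Complex.I • imP Z = Z := by
  unfold reP imP
  rw [smul_smul]
  have : Complex.I * (-(Complex.I / 2)) = (1 / 2 : ℂ) := by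
    have := Complex.I_mul_I
    linear_combination (-(1 / 2 : ℂ)) * this
  rw [this, ← smul_add]
  have : Z - Zᴴ + (Z + Zᴴ) = (2 : ℂ) • Z := by rw [two_smul]; abel
  rw [this, smul_smul]
  norm_num

theorem reP_skew (Z : Mt m) : (reP Z)ᴴ = -reP Z := by
  unfold reP
  rw [conjTranspose_smul, conjTranspose_sub, conjTranspose_conjTranspose]
  simp only [Complex.star_def, map_div₀, map_one, Complex.conj_ofNat]
  rw [← smul_neg]
  congr 1
  abel

theorem imP_skew (Z : Mt m) : (imP Z)ᴴ = -imP Z := by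
  unfold imP
  rw [conjTranspose_smul, conjTranspose_add, conjTranspose_conjTranspose]
  simp only [Complex.star_def, map_div₀, map_neg, Complex.conj_I, Complex.conj_ofNat]
  rw [← neg_smul, add_comm Zᴴ Z]
  congr 1
  ring

theorem reP_add (Z W : Mt m) : reP (Z + W) = reP Z + reP W := by
  unfold reP
  rw [conjTranspose_add, ← smul_add]
  congr 1
  abel

theorem imP_add (Z W : Mt m) : imP (Z + W) = imP Z + imP W := by
  unfold imP
  rw [conjTranspose_add, ← smul_add]
  congr 1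
  abel

theorem reP_neg (Z : Mt m) : reP (-Z) = -reP Z := by
  unfold reP
  rw [conjTranspose_neg, ← smul_neg]
  congr 1
  abel

theorem imP_neg (Z : Mt m) : imP (-Z) = -imP Z := by
  unfold imP
  rw [conjTranspose_neg, ← smul_neg]
  congr 1
  abel

theorem reP_sub (Z W : Mt m) : reP (Z - W) = reP Z - reP W := by
  rw [sub_eq_add_neg, reP_add, reP_neg, sub_eq_add_neg]

theorem imP_sub (Z W : Mt m) : imP (Z - W) = imP Z - imP W := by
  rw [sub_eq_add_neg, imP_add, imP_neg, sub_eq_add_neg]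

theorem reP_smul (c : ℝ) (Z : Mt m) : reP ((c : ℂ) • Z) = (c : ℂ) • reP Z := by
  unfold reP
  rw [conjTranspose_smul, Complex.star_def, Complex.conj_ofReal, ← smul_sub, smul_comm]

theorem imP_smul (c : ℝ) (Z : Mt m) : imP ((c : ℂ) • Z) = (c : ℂ) • imP Z := by
  unfold imP
  rw [conjTranspose_smul, Complex.star_def, Complex.conj_ofReal, ← smul_add, smul_comm]

theorem reP_of_skew {X : Mt m} (h : Xᴴ = -X) : reP X = X := by
  unfold reP
  rw [h, sub_neg_eq_add, ← two_smul ℂ X, smul_smul]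
  norm_num

theorem imP_of_skew {X : Mt m} (h : Xᴴ = -X) : imP X = 0 := by
  unfold imP
  rw [h, add_neg_cancel, smul_zero]

/-- the Frobenius norm through the trace -/
theorem norm_sq_eq (Z : Mt m) : ‖Z‖ ^ 2 = (trace (Zᴴ * Z)).re := by
  rw [Matrix.frobenius_norm_def]
  rw [← Real.rpow_natCast, ← Real.rpow_mul (by positivity)]
  norm_num
  simp only [trace, diag, mul_apply, conjTranspose_apply]
  rw [Complex.re_sum, Finset.sum_comm]
  refine Finset.sum_congr rfl fun i _ => ?_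
  rw [Complex.re_sum]
  refine Finset.sum_congr rfl fun j _ => ?_
  rw [Complex.star_def, ← Complex.normSq_eq_conj_mul_self, Complex.ofReal_re, Complex.normSq_eq_norm_sq]

theorem trace_skew_real {X Y : Mt m} (hX : Xᴴ = -X) (hY : Yᴴ = -Y) : (trace (X * Y)).im = 0 := by
  have h : star (trace (X * Y)) = trace (X * Y) := by
    rw [← trace_conjTranspose, conjTranspose_mul, hX, hY, neg_mul_neg, trace_mul_comm]
  have := congrArg Complex.im h
  rw [Complex.star_def, Complex.conj_im] at this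
  linarith

/-- Pythagoras -/
theorem norm_sq_reP_imP (Z : Mt m) : ‖Z‖ ^ 2 = ‖reP Z‖ ^ 2 + ‖imP Z‖ ^ 2 := by
  set X := reP Z with hXd
  set H := imP Z with hHd
  have hX : Xᴴ = -X := reP_skew Z
  have hH : Hᴴ = -H := imP_skew Z
  have hZ : Z = X + Complex.I • H := (reP_add_imP Z).symm
  rw [norm_sq_eq, norm_sq_eq, norm_sq_eq]
  have h1 : Zᴴ = -X + Complex.I • H := by
    rw [hZ, conjTranspose_add, conjTranspose_smul, hX, hH, Complex.star_def, Complex.conj_I]
    simp
  have h2 : Zᴴ * Z = -(X * X) - H * H + (Complex.I • (H * X) - Complex.I • (X * H)) := by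
    rw [h1, hZ]
    simp only [add_mul, mul_add, smul_mul_assoc, mul_smul_comm, smul_smul, neg_mul,
      Complex.I_mul_I, neg_smul, one_smul, smul_add, smul_neg, mul_neg]
    abel
  have h3 : trace (Complex.I • (H * X) - Complex.I • (X * H)) = 0 := by
    rw [trace_sub, trace_smul, trace_smul, trace_mul_comm, sub_self]
  rw [h2, trace_add, h3, add_zero, hX, hH, trace_sub, neg_mul, neg_mul, trace_neg, trace_neg]
  simp only [Complex.sub_re, Complex.neg_re]
  ring

theorem norm_reP_le (Z : Mt m) : ‖reP Z‖ ≤ ‖Z‖ := by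
  have := norm_sq_reP_imP Z
  nlinarith [norm_nonneg Z, norm_nonneg (reP Z), sq_nonneg ‖imP Z‖, sq_nonneg ‖reP Z‖]

theorem norm_imP_le (Z : Mt m) : ‖imP Z‖ ≤ ‖Z‖ := by
  have := norm_sq_reP_imP Z
  nlinarith [norm_nonneg Z, norm_nonneg (imP Z), sq_nonneg ‖imP Z‖, sq_nonneg ‖reP Z‖]

theorem norm_le_reP_imP (Z : Mt m) : ‖Z‖ ≤ ‖reP Z‖ + ‖imP Z‖ := by
  conv_lhs => rw [← reP_add_imP Z]
  refine (norm_add_le _ _).trans ?_
  rw [norm_smul, Complex.norm_I, one_mul]

/-- real part of the quadratic form -/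
theorem Qf_re (Z : Mt m) : (Qf Z).re = ‖reP Z‖ ^ 2 - ‖imP Z‖ ^ 2 := by
  set X := reP Z with hXd
  set H := imP Z with hHd
  have hX : Xᴴ = -X := reP_skew Z
  have hH : Hᴴ = -H := imP_skew Z
  have hZ : Z = X + Complex.I • H := (reP_add_imP Z).symm
  have h2 : Z * Z = X * X - H * H + Complex.I • (X * H + H * X) := by
    conv_lhs => rw [hZ]
    simp only [add_mul, mul_add, smul_mul_assoc, mul_smul_comm, smul_smul,
      Complex.I_mul_I, neg_smul, one_smul, smul_add]
    abel
  unfold Qf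
  rw [h2, trace_add, trace_smul, trace_add, norm_sq_eq, norm_sq_eq, hX, hH]
  have e1 := trace_skew_real hX hH
  have e2 := trace_skew_real hH hX
  simp only [trace_sub, neg_mul, trace_neg, Complex.neg_re, Complex.add_re, Complex.sub_re,
    smul_eq_mul, Complex.mul_re, Complex.I_re, Complex.I_im, Complex.add_im, e1, e2]
  ring

theorem norm_Qf_le (Z : Mt m) : ‖Qf Z‖ ≤ ‖Z‖ ^ 2 := by
  unfold Qf
  rw [norm_neg]
  have h1 : trace (Z * Z) = ∑ i, ∑ j, Z i j * Z j i := by
    simp only [trace, diag, mul_apply]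
  rw [h1]
  have h2 : ‖Z‖ ^ 2 = ∑ i, ∑ j, ‖Z i j‖ ^ 2 := by
    rw [Matrix.frobenius_norm_def, ← Real.rpow_natCast, ← Real.rpow_mul (by positivity)]
    norm_num
  have h3 : ‖Z‖ ^ 2 = ∑ i, ∑ j, ‖Z j i‖ ^ 2 := by rw [h2, Finset.sum_comm]
  calc ‖∑ i, ∑ j, Z i j * Z j i‖ ≤ ∑ i, ∑ j, ‖Z i j * Z j i‖ :=
        (norm_sum_le _ _).trans (Finset.sum_le_sum fun i _ => norm_sum_le _ _)
    _ ≤ ∑ i, ∑ j, ((1 / 2) * ‖Z i j‖ ^ 2 + (1 / 2) * ‖Z j i‖ ^ 2) := by
        refine Finset.sum_le_sum fun i _ => Finset.sum_le_sum fun j _ => ?_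
        rw [norm_mul]
        nlinarith [sq_nonneg (‖Z i j‖ - ‖Z j i‖)]
    _ = ‖Z‖ ^ 2 := by
        simp only [Finset.sum_add_distrib, ← Finset.mul_sum]
        rw [← h2, ← h3]
        ring

end

end Pool.Agent.T2H04.HY
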