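import Mathlib
import Pool.Agent.T2H04.HY.Lie

/-!
# The Lie algebra of a compact matrix group
-/

open MeasureTheory Matrix Filter
open scoped Matrix.Norms.Frobenius Topology

namespace Pool.Agent.T2H04.HY

set_option linter.unusedSectionVars false

noncomputable section

variable {m : Type} [Fintype m] [DecidableEq m]

/-- bound of the norms of unitary matrices -/
def uB (m : Type) [Fintype m] : ℝ := (∑ _i : m, ∑ _j : m, (1 : ℝ)) ^ (1 / 2 : ℝ)

theorem uB_nonneg : 0 ≤ uB m :=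
  Real.rpow_nonneg (Finset.sum_nonneg fun _ _ => Finset.sum_nonneg fun _ _ => zero_le_one) _

theorem norm_unitary_le {p : Mt m} (hp : p * pᴴ = 1) : ‖p‖ ≤ uB m := by
  have hp' : p ∈ Matrix.unitaryGroup m ℂ := by
    rw [Matrix.mem_unitaryGroup_iff, star_eq_conjTranspose]; exact hp
  rw [Matrix.frobenius_norm_def]
  apply Real.rpow_le_rpow
  · exact Finset.sum_nonneg fun i _ => Finset.sum_nonneg fun j _ => by positivity
  · refine Finset.sum_le_sum fun i _ => Finset.sum_le_sum fun j _ => ?_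
    have h1 : ‖p i j‖ ≤ 1 := entry_norm_bound_of_unitary hp' i j
    exact Real.rpow_le_one (norm_nonneg _) h1 (by norm_num)
  · norm_num

theorem exp_neg_mul_exp (X : Mt m) : NormedSpace.exp (-X) * NormedSpace.exp X = 1 := by
  rw [Matrix.exp_neg]
  exact Matrix.nonsing_inv_mul _ ((Matrix.isUnit_iff_isUnit_det _).1 (Matrix.isUnit_exp _))

theorem exp_mul_exp_neg (X : Mt m) : NormedSpace.exp X * NormedSpace.exp (-X) = 1 := by
  rw [Matrix.exp_neg]
  exact Matrix.mul_nonsing_inv _ ((Matrix.isUnit_iff_isUnit_det _).1 (Matrix.isUnit_exp _))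

/-- the exponential of a skew-Hermitian matrix is unitary -/
theorem exp_unitary {A : Mt m} (hA : Aᴴ = -A) :
    NormedSpace.exp A * (NormedSpace.exp A)ᴴ = 1 := by
  rw [← Matrix.exp_conjTranspose, hA, exp_mul_exp_neg]

theorem smul_skew {A : Mt m} (hA : Aᴴ = -A) (s : ℝ) : (s • A)ᴴ = -(s • A) := by
  rw [conjTranspose_smul, hA, star_trivial, smul_neg]

theorem hasDerivAt_exp (A : Mt m) (s : ℝ) :
    HasDerivAt (fun u : ℝ => NormedSpace.exp (u • A)) (NormedSpace.exp (s • A) * A) s := by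
  have : CompleteSpace (Mt m) := FiniteDimensional.complete ℝ (Mt m)
  exact hasDerivAt_exp_smul_const A s

/-- elements of the Lie algebra of a unitary group are skew-Hermitian -/
theorem skew_of_exp {A : Mt m}
    (h : ∀ s : ℝ, NormedSpace.exp (s • A) * (NormedSpace.exp (s • A))ᴴ = 1) : Aᴴ = -A := by
  have h1 : ∀ s : ℝ, NormedSpace.exp (s • A) * NormedSpace.exp (s • Aᴴ) = 1 := by
    intro s
    have h2 := h s
    rw [← Matrix.exp_conjTranspose, conjTranspose_smul, star_trivial] at h2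
    exact h2
  have h3 := (hasDerivAt_exp A 0).mul (hasDerivAt_exp Aᴴ 0)
  have h4 : (fun s : ℝ => NormedSpace.exp (s • A) * NormedSpace.exp (s • Aᴴ)) = fun _ => 1 :=
    funext h1
  have h6 : HasDerivAt (fun s : ℝ => NormedSpace.exp (s • A) * NormedSpace.exp (s • Aᴴ)) 0 0 := by
    rw [h4]; exact hasDerivAt_const _ _
  have h5 := h3.unique h6
  simp only [zero_smul, NormedSpace.exp_zero, one_mul, mul_one] at h5
  exact eq_neg_of_add_eq_zero_right h5

theorem pow_sub_le (g h : Mt m) (C : ℝ) (hg : ∀ i : ℕ, ‖g ^ i‖ ≤ C) (hh : ∀ i : ℕ, ‖h ^ i‖ ≤ C)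
    (n : ℕ) : ∀ k : ℕ, ‖(g ^ n - h ^ n) * h ^ k‖ ≤ n * (C * C * ‖g - h‖) := by
  have hC : 0 ≤ C := (norm_nonneg _).trans (hg 0)
  induction n with
  | zero => intro k; simp
  | succ n ih =>
    intro k
    have e : (g ^ (n + 1) - h ^ (n + 1)) * h ^ k =
        g ^ n * (g - h) * h ^ k + (g ^ n - h ^ n) * h ^ (k + 1) := by
      rw [pow_succ, pow_succ, pow_succ' h k]
      noncomm_ring
    rw [e]
    refine (norm_add_le _ _).trans ?_
    have h1 : ‖g ^ n * (g - h) * h ^ k‖ ≤ C * ‖g - h‖ * C :=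
      (norm_mul_le _ _).trans (mul_le_mul ((norm_mul_le _ _).trans
        (mul_le_mul_of_nonneg_right (hg n) (norm_nonneg _))) (hh k) (norm_nonneg _)
        (mul_nonneg hC (norm_nonneg _)))
    have h2 := ih (k + 1)
    push_cast
    linarith

theorem exp_nat_mul (A : Mt m) (n : ℕ) (s : ℝ) :
    NormedSpace.exp (s • A) ^ n = NormedSpace.exp (((n : ℝ) * s) • A) := by
  rw [← Matrix.exp_nsmul, ← Nat.cast_smul_eq_nsmul ℝ, smul_smul]

/-- a weak form of the product formula -/
theorem add_mem_aux (S : Submonoid (Mt m)) (hcl : IsClosed (S : Set (Mt m)))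
    (hun : ∀ p ∈ S, p * pᴴ = 1) {A B : Mt m}
    (hA : ∀ s : ℝ, NormedSpace.exp (s • A) ∈ S) (hB : ∀ s : ℝ, NormedSpace.exp (s • B) ∈ S)
    (s : ℝ) : NormedSpace.exp (s • (A + B)) ∈ S := by
  have hA1 : Aᴴ = -A := skew_of_exp fun s => hun _ (hA s)
  have hB1 : Bᴴ = -B := skew_of_exp fun s => hun _ (hB s)
  have hAB : (A + B)ᴴ = -(A + B) := by rw [conjTranspose_add, hA1, hB1, neg_add]
  -- `φ(t) = exp(tA) exp(tB) - exp(t(A+B)) = o(t)`
  have h0 : HasDerivAt (fun t : ℝ => NormedSpace.exp (t • A) * NormedSpace.exp (t • B) -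
      NormedSpace.exp (t • (A + B))) 0 0 := by
    have h1 := ((hasDerivAt_exp A 0).mul (hasDerivAt_exp B 0)).sub (hasDerivAt_exp (A + B) 0)
    simp only [zero_smul, NormedSpace.exp_zero, one_mul, mul_one, sub_self] at h1
    exact h1
  have h1 := h0.tendsto_slope_zero
  simp only [zero_add, zero_smul, NormedSpace.exp_zero, one_mul, sub_self, sub_zero] at h1
  -- the sequence
  set g : ℕ → Mt m := fun k => NormedSpace.exp ((s / (k + 1)) • A) *
    NormedSpace.exp ((s / (k + 1)) • B) with hg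
  set h : ℕ → Mt m := fun k => NormedSpace.exp ((s / (k + 1)) • (A + B)) with hh
  have hgm : ∀ k i, g k ^ i ∈ S := fun k i => S.pow_mem (S.mul_mem (hA _) (hB _)) i
  have hlim : Tendsto (fun k : ℕ => g k ^ (k + 1)) atTop (𝓝 (NormedSpace.exp (s • (A + B)))) := by
    have e1 : ∀ k, h k ^ (k + 1) = NormedSpace.exp (s • (A + B)) := by
      intro k
      rw [hh, exp_nat_mul]
      congr 2
      push_cast
      field_simp
    refine tendsto_iff_norm_sub_tendsto_zero.2 ?_
    have e2 : ∀ k, ‖g k ^ (k + 1) - NormedSpace.exp (s • (A + B))‖ ≤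
        (uB m * uB m) * (((k : ℝ) + 1) * ‖g k - h k‖) := by
      intro k
      rw [← e1 k]
      have := pow_sub_le (g k) (h k) (uB m) (fun i => norm_unitary_le (hun _ (hgm k i)))
        (fun i => by
          rw [hh, exp_nat_mul]
          exact norm_unitary_le (exp_unitary (smul_skew hAB _))) (k + 1) 0
      rw [pow_zero, mul_one] at this
      refine this.trans (le_of_eq ?_)
      push_cast
      ring
    refine squeeze_zero (fun k => norm_nonneg _) e2 ?_
    rw [← mul_zero (uB m * uB m)]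
    refine Tendsto.const_mul _ ?_
    by_cases hs : s = 0
    · have : ∀ k : ℕ, ((k : ℝ) + 1) * ‖g k - h k‖ = 0 := by
        intro k
        simp [hg, hh, hs]
      simp only [this]
      exact tendsto_const_nhds
    · have t1 : Tendsto (fun k : ℕ => s / ((k : ℝ) + 1)) atTop (𝓝[≠] 0) := by
        rw [tendsto_nhdsWithin_iff]
        refine ⟨?_, Filter.Eventually.of_forall fun k => ?_⟩
        · have := (tendsto_one_div_add_atTop_nhds_zero_nat (𝕜 := ℝ)).const_mul s
          simpa [div_eq_mul_inv] using this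
        · have : (0 : ℝ) < (k : ℝ) + 1 := by positivity
          exact div_ne_zero hs this.ne'
      have t2 := (h1.comp t1).norm
      rw [norm_zero] at t2
      have t3 := t2.const_mul |s|
      rw [mul_zero] at t3
      refine t3.congr fun k => ?_
      have hk : (0 : ℝ) < (k : ℝ) + 1 := by positivity
      simp only [Function.comp_apply]
      rw [norm_smul, ← mul_assoc, norm_inv, Real.norm_eq_abs, abs_div, abs_of_pos hk]
      have : |s| ≠ 0 := abs_ne_zero.2 hs
      congr 1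
      field_simp
  exact hcl.mem_of_tendsto hlim (Filter.Eventually.of_forall fun k => hgm k (k + 1))

variable {G : Type} [Group G] [TopologicalSpace G] [CompactSpace G] (L : RD G m)

theorem rho_unit' (g : G) : (L.rho g)ᴴ * L.rho g = 1 := mul_eq_one_comm.1 (L.unit g)

theorem rho_inv (g : G) : L.rho g⁻¹ = (L.rho g)ᴴ := by
  have h1 : L.rho g⁻¹ * L.rho g = 1 := by rw [← map_mul, inv_mul_cancel, map_one]
  have h2 : L.rho g⁻¹ * L.rho g * (L.rho g)ᴴ = (L.rho g)ᴴ := by rw [h1, one_mul]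
  rw [mul_assoc, L.unit, mul_one] at h2
  exact h2

theorem rho_mul_inv (g : G) : L.rho g * L.rho g⁻¹ = 1 := by
  rw [← map_mul, mul_inv_cancel, map_one]

theorem rho_inv_mul (g : G) : L.rho g⁻¹ * L.rho g = 1 := by
  rw [← map_mul, inv_mul_cancel, map_one]

theorem closed_range : IsClosed ((MonoidHom.mrange L.rho : Submonoid (Mt m)) : Set (Mt m)) := by
  have : ((MonoidHom.mrange L.rho : Submonoid (Mt m)) : Set (Mt m)) = Set.range L.rho := by
    ext x; simp
  rw [this]
  exact (isCompact_range L.cont).isClosed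

theorem mem_lieSet_iff {X : Mt m} :
    X ∈ lieSet L ↔ ∀ t : ℝ, NormedSpace.exp (t • X) ∈ MonoidHom.mrange L.rho := by
  unfold lieSet
  simp only [Set.mem_ofPred_eq, MonoidHom.mem_mrange]

theorem lie_add {X Y : Mt m} (hX : X ∈ lieSet L) (hY : Y ∈ lieSet L) : X + Y ∈ lieSet L := by
  rw [mem_lieSet_iff] at *
  refine fun s => add_mem_aux _ (closed_range L) ?_ hX hY s
  rintro p ⟨g, rfl⟩
  exact L.unit g

theorem lie_smul (c : ℝ) {X : Mt m} (hX : X ∈ lieSet L) : c • X ∈ lieSet L := by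
  intro t
  obtain ⟨g, hg⟩ := hX (t * c)
  exact ⟨g, by rw [hg, smul_smul]⟩

theorem lie_zero : (0 : Mt m) ∈ lieSet L := fun t => ⟨1, by
  rw [smul_zero, NormedSpace.exp_zero, map_one]⟩

theorem lie_neg {X : Mt m} (hX : X ∈ lieSet L) : -X ∈ lieSet L := by
  have := lie_smul L (-1) hX
  rwa [neg_one_smul] at this

theorem lie_sub {X Y : Mt m} (hX : X ∈ lieSet L) (hY : Y ∈ lieSet L) : X - Y ∈ lieSet L := by
  rw [sub_eq_add_neg]; exact lie_add L hX (lie_neg L hY)

theorem mem_lieAlg {X : Mt m} : X ∈ lieAlg L ↔ X ∈ lieSet L := by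
  refine ⟨fun h => ?_, fun h => Submodule.subset_span h⟩
  refine Submodule.span_induction (p := fun X _ => X ∈ lieSet L) (fun x hx => hx) (lie_zero L)
    (fun x y _ _ hx hy => lie_add L hx hy) (fun c x _ hx => lie_smul L c hx) h

theorem lie_skew {X : Mt m} (hX : X ∈ lieSet L) : Xᴴ = -X := by
  refine skew_of_exp fun s => ?_
  obtain ⟨g, hg⟩ := hX s
  rw [← hg]
  exact L.unit g

theorem lie_exp {X : Mt m} (hX : X ∈ lieSet L) : ∃ g : G, L.rho g = NormedSpace.exp X := by
  have := hX 1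
  rwa [one_smul] at this

theorem lie_conj (g : G) {X : Mt m} (hX : X ∈ lieSet L) : L.rho g * X * L.rho g⁻¹ ∈ lieSet L := by
  intro t
  obtain ⟨h, hh⟩ := hX t
  refine ⟨g * h * g⁻¹, ?_⟩
  have hu : IsUnit (L.rho g) := ⟨⟨L.rho g, L.rho g⁻¹, rho_mul_inv L g, rho_inv_mul L g⟩, rfl⟩
  have hinv : (L.rho g)⁻¹ = L.rho g⁻¹ := Matrix.inv_eq_right_inv (rho_mul_inv L g)
  have h1 := Matrix.exp_conj (L.rho g) (t • X) hu
  rw [hinv, mul_smul_comm, smul_mul_assoc] at h1
  rw [h1, map_mul, map_mul, hh]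

/-- `sig` as a continuous linear map -/
def sigC : Mt m →L[ℂ] Mt m := LinearMap.toContinuousLinearMap L.sig

theorem sigC_apply (x : Mt m) : sigC L x = L.sig x := rfl

theorem sig_one : L.sig 1 = 1 := by
  have := L.sig_rho 1
  rwa [inv_one, map_one] at this

theorem lie_sig {X : Mt m} (hX : X ∈ lieSet L) : L.sig X = -X := by
  have h1 : HasDerivAt (fun u : ℝ => NormedSpace.exp (u • X)) X 0 := by
    simpa using hasDerivAt_exp X 0
  have h2 : HasDerivAt (fun u : ℝ => NormedSpace.exp (u • -X)) (-X) 0 := by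
    simpa using hasDerivAt_exp (-X) 0
  have h3 : HasDerivAt (fun u : ℝ => L.sig (NormedSpace.exp (u • X))) (L.sig X) 0 := by
    have h0 : HasFDerivAt (fun x : Mt m => L.sig x) ((sigC L).restrictScalars ℝ)
        (NormedSpace.exp ((0 : ℝ) • X)) := ((sigC L).restrictScalars ℝ).hasFDerivAt
    exact h0.comp_hasDerivAt (0 : ℝ) h1
  have h4 : (fun u : ℝ => L.sig (NormedSpace.exp (u • X))) = fun u : ℝ =>
      NormedSpace.exp (u • -X) := by
    funext u
    obtain ⟨g, hg⟩ := hX u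
    rw [← hg, L.sig_rho, smul_neg]
    have h5 : L.rho g⁻¹ = L.rho g⁻¹ * (NormedSpace.exp (u • X) * NormedSpace.exp (-(u • X))) := by
      rw [exp_mul_exp_neg, mul_one]
    rw [h5, ← mul_assoc, ← hg, rho_inv_mul, one_mul]
  rw [h4] at h3
  exact h3.unique h2

theorem mem_gC {Z : Mt m} :
    Z ∈ gC L ↔ ∃ X ∈ lieSet L, ∃ H ∈ lieSet L, Z = X + Complex.I • H := by
  constructor
  · intro h
    refine Submodule.span_induction
      (p := fun Z _ => ∃ X ∈ lieSet L, ∃ H ∈ lieSet L, Z = X + Complex.I • H)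
      (fun x hx => ⟨x, hx, 0, lie_zero L, by simp⟩) ⟨0, lie_zero L, 0, lie_zero L, by simp⟩ ?_ ?_ h
    · rintro x y _ _ ⟨X, hX, H, hH, rfl⟩ ⟨X', hX', H', hH', rfl⟩
      refine ⟨X + X', lie_add L hX hX', H + H', lie_add L hH hH', ?_⟩
      rw [smul_add]; abel
    · rintro c x _ ⟨X, hX, H, hH, rfl⟩
      refine ⟨c.re • X - c.im • H, lie_sub L (lie_smul L _ hX) (lie_smul L _ hH),
        c.im • X + c.re • H, lie_add L (lie_smul L _ hX) (lie_smul L _ hH), ?_⟩
      have hc : c = (c.re : ℂ) + c.im * Complex.I := (Complex.re_add_im c).symm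
      have e : ∀ (a : ℝ) (M : Mt m), a • M = (a : ℂ) • M := fun a M => (Complex.coe_smul a M).symm
      rw [e, e, e, e]
      conv_lhs => rw [hc]
      have hI := Complex.I_mul_I
      have h1 : ((c.re : ℂ) + c.im * Complex.I) * Complex.I = c.re * Complex.I - c.im := by
        linear_combination (c.im : ℂ) * hI
      simp only [smul_add, smul_smul]
      rw [h1, mul_comm Complex.I (c.im : ℂ), mul_comm Complex.I (c.re : ℂ), add_smul, sub_smul]
      abel
  · rintro ⟨X, hX, H, hH, rfl⟩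
    exact (gC L).add_mem (Submodule.subset_span hX)
      ((gC L).smul_mem _ (Submodule.subset_span hH))

theorem gC_of_lie {X : Mt m} (hX : X ∈ lieSet L) : X ∈ gC L := Submodule.subset_span hX

theorem reP_add_smul {X H : Mt m} (hX : Xᴴ = -X) (hH : Hᴴ = -H) :
    reP (X + Complex.I • H) = X := by
  unfold reP
  rw [conjTranspose_add, conjTranspose_smul, hX, hH, Complex.star_def, Complex.conj_I]
  have : X + Complex.I • H - (-X + -Complex.I • -H) = (2 : ℂ) • X := by
    rw [two_smul, neg_smul, smul_neg, neg_neg]; abel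
  rw [this, smul_smul]
  norm_num

theorem imP_add_smul {X H : Mt m} (hX : Xᴴ = -X) (hH : Hᴴ = -H) :
    imP (X + Complex.I • H) = H := by
  unfold imP
  rw [conjTranspose_add, conjTranspose_smul, hX, hH, Complex.star_def, Complex.conj_I]
  have : X + Complex.I • H + (-X + -Complex.I • -H) = (2 * Complex.I) • H := by
    rw [neg_smul, smul_neg, neg_neg, two_mul, add_smul]; abel
  rw [this, smul_smul]
  have h2 : -(Complex.I / 2) * (2 * Complex.I) = 1 := by
    have := Complex.I_mul_I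
    linear_combination -this
  rw [h2, one_smul]

theorem reP_mem {Z : Mt m} (hZ : Z ∈ gC L) : reP Z ∈ lieSet L := by
  obtain ⟨X, hX, H, hH, rfl⟩ := (mem_gC L).1 hZ
  rw [reP_add_smul (lie_skew L hX) (lie_skew L hH)]
  exact hX

theorem imP_mem {Z : Mt m} (hZ : Z ∈ gC L) : imP Z ∈ lieSet L := by
  obtain ⟨X, hX, H, hH, rfl⟩ := (mem_gC L).1 hZ
  rw [imP_add_smul (lie_skew L hX) (lie_skew L hH)]
  exact hH

theorem mem_lieSet_of_gC {Z : Mt m} (hZ : Z ∈ gC L) (h : imP Z = 0) : Z ∈ lieSet L := by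
  have := reP_add_imP Z
  rw [h, smul_zero, add_zero] at this
  rw [← this]
  exact reP_mem L hZ

theorem gC_conj (g : G) {Z : Mt m} (hZ : Z ∈ gC L) : L.rho g * Z * L.rho g⁻¹ ∈ gC L := by
  obtain ⟨X, hX, H, hH, rfl⟩ := (mem_gC L).1 hZ
  rw [mem_gC]
  refine ⟨_, lie_conj L g hX, _, lie_conj L g hH, ?_⟩
  rw [mul_add, add_mul, mul_smul_comm, smul_mul_assoc]

theorem gC_sig {Z : Mt m} (hZ : Z ∈ gC L) : L.sig Z = -Z := by
  obtain ⟨X, hX, H, hH, rfl⟩ := (mem_gC L).1 hZ
  rw [map_add, map_smul, lie_sig L hX, lie_sig L hH, smul_neg, neg_add]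

theorem sig_pow (x : Mt m) (n : ℕ) : L.sig (x ^ n) = (L.sig x) ^ n := by
  induction n with
  | zero => simp [sig_one]
  | succ n ih => rw [pow_succ, L.sig_mul, ih, pow_succ']

theorem sig_exp' (Z : Mt m) : L.sig (NormedSpace.exp Z) = NormedSpace.exp (L.sig Z) := by
  have h1 := NormedSpace.exp_series_hasSum_exp' (𝕂 := ℂ) Z
  have h2 := NormedSpace.exp_series_hasSum_exp' (𝕂 := ℂ) (L.sig Z)
  have h3 := (sigC L).hasSum h1
  have h4 : (fun n : ℕ => (sigC L) (((n.factorial : ℂ))⁻¹ • Z ^ n)) =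
      fun n : ℕ => ((n.factorial : ℂ))⁻¹ • L.sig Z ^ n := by
    funext n
    rw [map_smul, sigC_apply, sig_pow]
  rw [h4] at h3
  exact h3.unique h2

theorem sig_exp {Z : Mt m} (hZ : Z ∈ gC L) :
    L.sig (NormedSpace.exp Z) = NormedSpace.exp (-Z) := by
  rw [sig_exp', gC_sig L hZ]

end

end Pool.Agent.T2H04.HY
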