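import Mathlib
import Pool.Agent.T2H04.HY.LieG

/-!
# Complexified convolutions
-/

open MeasureTheory Matrix Filter
open scoped Matrix.Norms.Frobenius Topology

namespace Pool.Agent.T2H04.HY

set_option linter.unusedSectionVars false

noncomputable section

/-- A Haar probability measure is invariant under right multiplications. -/
theorem right_inv' {H : Type*} [Group H] [TopologicalSpace H] [IsTopologicalGroup H]
    [CompactSpace H] [MeasurableSpace H] [BorelSpace H] (μ : Measure H)
    [IsProbabilityMeasure μ] [μ.IsHaarMeasure] : μ.IsMulRightInvariant := by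
  refine ⟨fun g => ?_⟩
  have h1 : IsProbabilityMeasure (Measure.map (fun x => x * g) μ) :=
    Measure.isProbabilityMeasure_map (measurable_mul_const g).aemeasurable
  exact Measure.isHaarMeasure_eq_of_isProbabilityMeasure _ _

/-- A Haar probability measure is invariant under the inversion. -/
theorem inv_inv' {H : Type*} [Group H] [TopologicalSpace H] [IsTopologicalGroup H]
    [CompactSpace H] [MeasurableSpace H] [BorelSpace H] (μ : Measure H)
    [IsProbabilityMeasure μ] [μ.IsHaarMeasure] : μ.IsInvInvariant := by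
  have hr := right_inv' μ
  refine ⟨?_⟩
  have h1 : IsProbabilityMeasure μ.inv :=
    Measure.isProbabilityMeasure_map measurable_inv.aemeasurable
  have h2 : μ.inv.IsMulLeftInvariant := inferInstance
  have h3 : μ.inv.IsHaarMeasure :=
    Measure.isHaarMeasure_of_isCompact_nonempty_interior μ.inv Set.univ isCompact_univ
      (by simp) (by simp) (by simp)
  exact Measure.isHaarMeasure_eq_of_isProbabilityMeasure _ _

section param

variable {Y : Type*} [TopologicalSpace Y] [CompactSpace Y] [MeasurableSpace Y] [BorelSpace Y]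
  (ν : Measure Y) [IsProbabilityMeasure ν]

/-- Continuous functions on a compact space are integrable. -/
theorem intg {V : Type*} [NormedAddCommGroup V] [SecondCountableTopologyEither Y V] {f : Y → V}
    (hf : Continuous f) : Integrable f ν :=
  hf.integrable_of_hasCompactSupport (HasCompactSupport.of_compactSpace f)

theorem param_contDiff {E : Type*} [NormedAddCommGroup E] [NormedSpace ℂ E]
    [FiniteDimensional ℂ E] {Φ : E → Y → ℂ} {Φ' : E → Y → E →L[ℂ] ℂ}
    (hc : Continuous (Function.uncurry Φ)) (hc' : Continuous (Function.uncurry Φ'))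
    (hd : ∀ x y, HasFDerivAt (fun x => Φ x y) (Φ' x y) x) :
    ContDiff ℂ 1 (fun x => ∫ y, Φ x y ∂ν) := by
  have : ProperSpace E := FiniteDimensional.proper ℂ E
  have hsc : SecondCountableTopology (E →L[ℂ] ℂ) := inferInstance
  have key : ∀ x, HasFDerivAt (fun x => ∫ y, Φ x y ∂ν) (∫ y, Φ' x y ∂ν) x := by
    intro x0
    obtain ⟨M, hM⟩ : ∃ M, ∀ p ∈ (Metric.closedBall x0 1) ×ˢ (Set.univ : Set Y),
        ‖Function.uncurry Φ' p‖ ≤ M :=
      ((isCompact_closedBall x0 1).prod isCompact_univ).exists_bound_of_continuousOn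
        hc'.continuousOn
    refine hasFDerivAt_integral_of_dominated_of_fderiv_le (s := Metric.closedBall x0 1)
      (bound := fun _ => M) (Metric.closedBall_mem_nhds x0 one_pos) ?_ ?_ ?_ ?_ ?_ ?_
    · exact Filter.Eventually.of_forall fun x =>
        (intg ν (hc.comp (Continuous.prodMk_right x))).aestronglyMeasurable
    · exact intg ν (hc.comp (Continuous.prodMk_right x0))
    · exact (intg ν (hc'.comp (Continuous.prodMk_right x0))).aestronglyMeasurable
    · exact Filter.Eventually.of_forall fun y x hx => hM (x, y) ⟨hx, Set.mem_univ _⟩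
    · exact integrable_const _
    · exact Filter.Eventually.of_forall fun y x _ => hd x y
  rw [contDiff_one_iff_fderiv]
  refine ⟨fun x => (key x).differentiableAt, ?_⟩
  have h1 : fderiv ℂ (fun x => ∫ y, Φ x y ∂ν) = fun x => ∫ y, Φ' x y ∂ν :=
    funext fun x => (key x).fderiv
  rw [h1]
  have h2 := continuous_parametric_integral_of_continuous (μ := ν) hc' (isCompact_univ (X := Y))
  simpa using h2

end param

variable {G : Type} [Group G] [TopologicalSpace G] [IsTopologicalGroup G] [CompactSpace G]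
  [MeasurableSpace G] [BorelSpace G] (μ : Measure G) [μ.IsHaarMeasure] [IsProbabilityMeasure μ]
  {m : Type} [Fintype m] [DecidableEq m] (L : RD G m)

theorem exp_diff : Differentiable ℂ (NormedSpace.exp : Mt m → Mt m) := by
  have : CompleteSpace (Mt m) := FiniteDimensional.complete ℂ (Mt m)
  exact fun x => (NormedSpace.exp_analytic (𝕂 := ℂ) x).differentiableAt

theorem exp_cont : Continuous (NormedSpace.exp : Mt m → Mt m) := exp_diff.continuous

/-- the derivative of `x ↦ F (a * x * b)` -/
def mulLR (a b : Mt m) : Mt m →L[ℂ] Mt m :=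
  (ContinuousLinearMap.mulLeftRight ℂ (Mt m) a b)

theorem mulLR_apply (a b x : Mt m) : mulLR a b x = a * x * b := rfl

theorem hasFDerivAt_LR {F : Mt m → ℂ} (hF : ContDiff ℂ 1 F) (a b x : Mt m) :
    HasFDerivAt (fun x => F (a * x * b)) ((fderiv ℂ F (a * x * b)).comp (mulLR a b)) x :=
  ((hF.differentiable one_ne_zero) (a * x * b)).hasFDerivAt.comp x (mulLR a b).hasFDerivAt

theorem cont_mulLR {X : Type*} [TopologicalSpace X] {a b : X → Mt m} (ha : Continuous a)
    (hb : Continuous b) : Continuous fun p => mulLR (a p) (b p) := by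
  unfold mulLR
  exact ((ContinuousLinearMap.mulLeftRight ℂ (Mt m)).continuous.comp ha).clm_apply hb

/-- integrals `∫ c(y) F(a(y) x b(y)) dy` are continuously differentiable in `x` -/
theorem int_contDiff {F : Mt m → ℂ} (hF : ContDiff ℂ 1 F) {a b : G → Mt m} {c : G → ℂ}
    (ha : Continuous a) (hb : Continuous b) (hc : Continuous c) :
    ContDiff ℂ 1 (fun x => ∫ y, c y * F (a y * x * b y) ∂μ) := by
  have hF' : Continuous (fderiv ℂ F) := hF.continuous_fderiv one_ne_zero
  have e1 : Continuous fun p : Mt m × G => a p.2 * p.1 * b p.2 := by fun_prop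
  have e2 : Continuous fun p : Mt m × G => F (a p.2 * p.1 * b p.2) := hF.continuous.comp e1
  have e3 : Continuous fun p : Mt m × G => fderiv ℂ F (a p.2 * p.1 * b p.2) := hF'.comp e1
  have e4 : Continuous fun p : Mt m × G => mulLR (a p.2) (b p.2) :=
    cont_mulLR (ha.comp continuous_snd) (hb.comp continuous_snd)
  refine param_contDiff (E := Mt m) μ
    (Φ' := fun x y => c y • (fderiv ℂ F (a y * x * b y)).comp (mulLR (a y) (b y))) ?_ ?_ ?_
  · exact (hc.comp continuous_snd).mul e2
  · exact (hc.comp continuous_snd).smul (e3.clm_comp e4)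
  · intro x y
    exact (hasFDerivAt_LR hF (a y) (b y) x).const_mul (c y)

theorem rho_cont : Continuous L.rho := L.cont

theorem rhoinv_cont : Continuous fun y : G => L.rho y⁻¹ := L.cont.comp continuous_inv

theorem ccv_contDiff {F : Mt m → ℂ} (hF : ContDiff ℂ 1 F) : ContDiff ℂ 1 (ccv L μ F) := by
  have := int_contDiff μ hF (a := fun y => L.rho y⁻¹) (b := fun _ => 1)
    (c := fun y => F (L.rho y)) (rhoinv_cont L) continuous_const (hF.continuous.comp L.cont)
  unfold ccv
  simpa using this

/-- shift of the integration variable -/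
theorem int_shift (f : G → ℂ) (g : G) : ∫ y, f (g * y) ∂μ = ∫ y, f y ∂μ :=
  integral_mul_left_eq_self f g

theorem int_shift_right (f : G → ℂ) (g : G) : ∫ y, f (y * g) ∂μ = ∫ y, f y ∂μ := by
  have := right_inv' μ
  exact integral_mul_right_eq_self f g

theorem int_inv (f : G → ℂ) : ∫ y, f y⁻¹ ∂μ = ∫ y, f y ∂μ := by
  have := inv_inv' μ
  exact integral_inv_eq_self f μ

theorem ccv_conj {F : Mt m → ℂ} (hF : ∀ g x, F (L.rho g * x * L.rho g⁻¹) = F x) (g : G)
    (x : Mt m) : ccv L μ F (L.rho g * x * L.rho g⁻¹) = ccv L μ F x := by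
  unfold ccv
  rw [← int_shift μ _ g, ← int_shift_right μ _ g⁻¹]
  refine integral_congr_ae (Filter.Eventually.of_forall fun y => ?_)
  have h1 : L.rho (g * (y * g⁻¹)) = L.rho g * L.rho y * L.rho g⁻¹ := by
    simp only [map_mul, mul_assoc]
  have h2 : L.rho (g * (y * g⁻¹))⁻¹ * (L.rho g * x * L.rho g⁻¹) =
      L.rho g * (L.rho y⁻¹ * x) * L.rho g⁻¹ := by
    have : (g * (y * g⁻¹))⁻¹ = g * y⁻¹ * g⁻¹ := by group
    rw [this, map_mul, map_mul]
    calc L.rho g * L.rho y⁻¹ * L.rho g⁻¹ * (L.rho g * x * L.rho g⁻¹)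
        = L.rho g * L.rho y⁻¹ * (L.rho g⁻¹ * L.rho g) * x * L.rho g⁻¹ := by noncomm_ring
      _ = L.rho g * (L.rho y⁻¹ * x) * L.rho g⁻¹ := by rw [rho_inv_mul, mul_one]; noncomm_ring
  simp only [h1, h2, hF]

theorem ccv_inv {F : Mt m → ℂ} (hF : ∀ g x, F (L.rho g * x * L.rho g⁻¹) = F x)
    (hs : ∀ x, F (L.sig x) = F x) (x : Mt m) : ccv L μ F (L.sig x) = ccv L μ F x := by
  have h0 : ∀ y : G, F (L.rho y⁻¹) = F (L.rho y) := by
    intro y
    rw [← L.sig_rho, hs]
  have h1 : ccv L μ F (L.sig x) = ∫ y, F (L.rho y) * F (x * L.rho y) ∂μ := by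
    unfold ccv
    refine integral_congr_ae (Filter.Eventually.of_forall fun y => ?_)
    have : L.rho y⁻¹ * L.sig x = L.sig (x * L.rho y) := by rw [L.sig_mul, L.sig_rho]
    simp only [this, hs]
  have h2 : ccv L μ F x = ∫ y, F (L.rho y) * F (L.rho y * x) ∂μ := by
    unfold ccv
    rw [← int_inv μ]
    refine integral_congr_ae (Filter.Eventually.of_forall fun y => ?_)
    simp only [inv_inv, h0]
  rw [h1, h2]
  refine integral_congr_ae (Filter.Eventually.of_forall fun y => ?_)
  have h3 := hF y⁻¹ (L.rho y * x)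
  rw [inv_inv, ← mul_assoc, rho_inv_mul, one_mul] at h3
  simp only [h3]

/-- the restriction to the group -/
def res (F : Mt m → ℂ) (g : G) : ℝ := (F (L.rho g)).re

theorem ccv_rho {F : Mt m → ℂ} (hr : ∀ g, (F (L.rho g)).im = 0) (g : G) :
    ccv L μ F (L.rho g) = ((cnv μ (res L F) (res L F) g : ℝ) : ℂ) := by
  unfold ccv cnv
  rw [← integral_complex_ofReal]
  refine integral_congr_ae (Filter.Eventually.of_forall fun y => ?_)
  have h1 : ∀ y, F (L.rho y) = ((res L F y : ℝ) : ℂ) := fun y =>
    Complex.ext (by simp [res]) (by simp [hr])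
  have h2 : L.rho y⁻¹ * L.rho g = L.rho (y⁻¹ * g) := by rw [map_mul]
  simp only [h2, h1]
  push_cast
  rfl

theorem res_cont {F : Mt m → ℂ} (hF : ContDiff ℂ 1 F) : Continuous (res L F) :=
  Complex.continuous_re.comp (hF.continuous.comp L.cont)

theorem cnv_nonneg {f g : G → ℝ} (hf : ∀ x, 0 ≤ f x) (hg : ∀ x, 0 ≤ g x) (x : G) :
    0 ≤ cnv μ f g x := integral_nonneg fun y => mul_nonneg (hf y) (hg _)

theorem ccv_pos {F : Mt m → ℂ} (hF : ContDiff ℂ 1 F) (hs : ∀ x, F (L.sig x) = F x)
    (hr : ∀ g, (F (L.rho g)).im = 0) (hp : 0 < (F 1).re) : 0 < (ccv L μ F 1).re := by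
  have h1 := ccv_rho μ L hr 1
  rw [map_one] at h1
  rw [h1, Complex.ofReal_re]
  have hev : ∀ y : G, res L F y⁻¹ = res L F y := by
    intro y
    unfold res
    rw [← L.sig_rho, hs]
  have h2 : cnv μ (res L F) (res L F) 1 = ∫ y, (res L F y) ^ 2 ∂μ := by
    unfold cnv
    refine integral_congr_ae (Filter.Eventually.of_forall fun y => ?_)
    simp only [mul_one, hev]
    ring
  rw [h2]
  have hc : Continuous fun y => (res L F y) ^ 2 := (res_cont L hF).pow 2
  refine (hc.integral_pos_of_hasCompactSupport_nonneg_nonzero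
    (HasCompactSupport.of_compactSpace _) (fun y => sq_nonneg _) (x := 1) ?_)
  have : res L F 1 = (F 1).re := by unfold res; rw [map_one]
  rw [this]
  positivity

/-- Shift of the integration variable by an element of the complexified group. -/
theorem ccv_shift {F : Mt m → ℂ} (hF : ContDiff ℂ 1 F) {Z : Mt m} (hZ : Z ∈ gC L) (x : Mt m) :
    ∫ y, F (NormedSpace.exp Z * L.rho y) * F (L.rho y⁻¹ * x) ∂μ =
      ccv L μ F (NormedSpace.exp Z * x) := by
  obtain ⟨X, hX, H, hH, rfl⟩ := (mem_gC L).1 hZ
  set p : ℂ → Mt m := fun s => NormedSpace.exp (X + s • H) with hp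
  have hpd : Differentiable ℂ p := exp_diff.comp (by fun_prop)
  set A : ℂ → ℂ := fun s => ∫ y, F (p s * L.rho y) * F (L.rho y⁻¹ * x) ∂μ with hA
  set B : ℂ → ℂ := fun s => ccv L μ F (p s * x) with hB
  have hAd : Differentiable ℂ A := by
    have h1 := int_contDiff μ hF (a := fun _ => 1) (b := fun y => L.rho y)
      (c := fun y => F (L.rho y⁻¹ * x)) continuous_const L.cont
      (hF.continuous.comp ((rhoinv_cont L).mul continuous_const))
    have h2 : A = (fun w : Mt m => ∫ y, F (L.rho y⁻¹ * x) * F (1 * w * L.rho y) ∂μ) ∘ p := by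
      funext s
      simp only [hA, Function.comp, one_mul, mul_comm]
    rw [h2]
    exact (h1.differentiable one_ne_zero).comp hpd
  have hBd : Differentiable ℂ B :=
    ((ccv_contDiff μ L hF).differentiable one_ne_zero).comp (hpd.mul_const x)
  have hreal : ∀ s : ℝ, A s = B s := by
    intro s
    have h1 : X + (s : ℂ) • H ∈ lieSet L := by
      have := lie_add L hX (lie_smul L s hH)
      rwa [← Complex.coe_smul] at this
    obtain ⟨g, hg⟩ := lie_exp L h1
    have hps : p s = L.rho g := hg.symm
    simp only [hA, hB, hps]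
    unfold ccv
    rw [← int_shift μ (fun y => F (L.rho y) * F (L.rho y⁻¹ * (L.rho g * x))) g]
    refine integral_congr_ae (Filter.Eventually.of_forall fun y => ?_)
    have e1 : L.rho (g * y)⁻¹ * (L.rho g * x) = L.rho y⁻¹ * x := by
      rw [_root_.mul_inv_rev, map_mul, mul_assoc, ← mul_assoc (L.rho g⁻¹), rho_inv_mul, one_mul]
    simp only [e1, map_mul]
  have hAB : A = B := by
    refine AnalyticOnNhd.eq_of_frequently_eq (z₀ := 0)
      (fun z _ => (hAd.analyticAt z)) (fun z _ => (hBd.analyticAt z)) ?_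
    have h1 : Tendsto (fun s : ℝ => (s : ℂ)) (𝓝[≠] 0) (𝓝[≠] 0) := by
      rw [tendsto_nhdsWithin_iff]
      refine ⟨?_, ?_⟩
      · have : Tendsto (fun s : ℝ => (s : ℂ)) (𝓝 0) (𝓝 ((0 : ℝ) : ℂ)) :=
          Complex.continuous_ofReal.tendsto 0
        rw [Complex.ofReal_zero] at this
        exact this.mono_left nhdsWithin_le_nhds
      · filter_upwards [self_mem_nhdsWithin] with s hs
        simpa using hs
    refine h1.frequently ?_
    exact (Filter.Eventually.of_forall hreal).frequently
  exact congrFun hAB Complex.I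

end

end Pool.Agent.T2H04.HY
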