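import Mathlib
import Pool.Agent.T2H04.HY.Defs

/-!
# A local matrix logarithm
-/

open MeasureTheory Matrix Filter
open scoped Matrix.Norms.Frobenius Topology

namespace Pool.Agent.T2H04.HY

set_option linter.unusedSectionVars false

noncomputable section

variable {m : Type} [Fintype m] [DecidableEq m]

/-- A local logarithm. -/
structure LogData (m : Type) [Fintype m] [DecidableEq m] where
  lg : Mt m → Mt m
  R : ℝ
  R_pos : 0 < R
  lg_exp : ∀ Z : Mt m, ‖Z‖ < R → lg (NormedSpace.exp Z) = Z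
  exp_lg : ∀ x : Mt m, ‖x - 1‖ < R → NormedSpace.exp (lg x) = x
  diff : DifferentiableOn ℂ lg (Metric.ball 1 R)
  lip : ∀ ε > 0, ∃ δ > 0, ∀ x x' : Mt m, ‖x - 1‖ < δ → ‖x' - 1‖ < δ →
    ‖lg x - lg x' - (x - x')‖ ≤ ε * ‖x - x'‖

instance complete_Mt : CompleteSpace (Mt m) := FiniteDimensional.complete ℂ (Mt m)

theorem exp_strict : HasStrictFDerivAt (NormedSpace.exp : Mt m → Mt m)
    ((ContinuousLinearEquiv.refl ℂ (Mt m) : Mt m ≃L[ℂ] Mt m) : Mt m →L[ℂ] Mt m) 0 :=
  hasStrictFDerivAt_exp_zero (𝕂 := ℂ) (𝔸 := Mt m)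

theorem strict_lip {E F : Type*} [NormedAddCommGroup E] [NormedSpace ℂ E] [NormedAddCommGroup F]
    [NormedSpace ℂ F] {f : E → F} {f' : E →L[ℂ] F} {a : E} (h : HasStrictFDerivAt f f' a) :
    ∀ ε > 0, ∃ δ > 0, ∀ x x' : E, ‖x - a‖ < δ → ‖x' - a‖ < δ →
      ‖f x - f x' - f' (x - x')‖ ≤ ε * ‖x - x'‖ := by
  intro ε hε
  have h1 := h.isLittleO.def hε
  obtain ⟨δ, hδ, h2⟩ := Metric.eventually_nhds_iff.1 h1
  refine ⟨δ, hδ, fun x x' hx hx' => ?_⟩
  have := h2 (y := (x, x')) (by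
    rw [Prod.dist_eq, dist_eq_norm, dist_eq_norm]
    exact max_lt hx hx')
  exact this

/-- Existence of the logarithm (inverse function theorem for `NormedSpace.exp` at `0`). -/
theorem exists_log : Nonempty (LogData m) := by
  have hs := exp_strict (m := m)
  have hc : ContDiffAt ℂ 1 (NormedSpace.exp : Mt m → Mt m) 0 :=
    (NormedSpace.exp_analytic (𝕂 := ℂ) (0 : Mt m)).contDiffAt
  have h0 : NormedSpace.exp (0 : Mt m) = 1 := NormedSpace.exp_zero
  set lg : Mt m → Mt m := hs.localInverse NormedSpace.exp _ 0 with hlg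
  have e1 : ∀ᶠ Z in 𝓝 (0 : Mt m), lg (NormedSpace.exp Z) = Z := hs.eventually_left_inverse
  have e2 : ∀ᶠ x in 𝓝 (1 : Mt m), NormedSpace.exp (lg x) = x := by
    rw [← h0]; exact hs.eventually_right_inverse
  have hc' : ContDiffAt ℂ 1 lg 1 := by
    have := hc.to_localInverse (f' := ContinuousLinearEquiv.refl ℂ (Mt m)) hs.hasFDerivAt
      one_ne_zero
    rw [h0] at this
    exact this
  have e3 : ∀ᶠ x in 𝓝 (1 : Mt m), ContDiffAt ℂ 1 lg x := hc'.eventually (by decide)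
  have hl : HasStrictFDerivAt lg
      ((ContinuousLinearEquiv.refl ℂ (Mt m)).symm : Mt m →L[ℂ] Mt m) 1 := by
    rw [← h0]; exact hs.to_localInverse
  obtain ⟨r1, hr1, k1⟩ := Metric.eventually_nhds_iff.1 e1
  obtain ⟨r2, hr2, k2⟩ := Metric.eventually_nhds_iff.1 e2
  obtain ⟨r3, hr3, k3⟩ := Metric.eventually_nhds_iff.1 e3
  refine ⟨⟨lg, min r1 (min r2 r3), lt_min hr1 (lt_min hr2 hr3), ?_, ?_, ?_, ?_⟩⟩
  · intro Z hZ
    apply k1
    rw [dist_zero_right]
    exact hZ.trans_le (min_le_left _ _)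
  · intro x hx
    apply k2
    rw [dist_eq_norm]
    exact hx.trans_le ((min_le_right _ _).trans (min_le_left _ _))
  · intro x hx
    have h3 : ContDiffAt ℂ 1 lg x := k3 (by
      exact (Metric.mem_ball.1 hx).trans_le ((min_le_right _ _).trans (min_le_right _ _)))
    exact (h3.differentiableAt one_ne_zero).differentiableWithinAt
  · exact strict_lip hl

/-- The exponential is almost an isometry near `0`. -/
theorem exp_lip : ∀ ε > 0, ∃ δ > 0, ∀ Z Z' : Mt m, ‖Z‖ < δ → ‖Z'‖ < δ →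
    ‖NormedSpace.exp Z - NormedSpace.exp Z' - (Z - Z')‖ ≤ ε * ‖Z - Z'‖ := by
  intro ε hε
  obtain ⟨δ, hδ, h⟩ := strict_lip (exp_strict (m := m)) ε hε
  refine ⟨δ, hδ, fun Z Z' hZ hZ' => h Z Z' (by rwa [sub_zero]) (by rwa [sub_zero])⟩

/-- the logarithm is strictly differentiable at `1` -/
theorem LogData.strict (D : LogData m) :
    HasStrictFDerivAt D.lg (ContinuousLinearMap.id ℂ (Mt m)) 1 := by
  refine HasStrictFDerivAt.of_isLittleO ?_
  rw [Asymptotics.isLittleO_iff]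
  intro c hc
  obtain ⟨δ, hδ, h⟩ := D.lip c hc
  rw [Metric.eventually_nhds_iff]
  refine ⟨δ, hδ, fun p hp => ?_⟩
  rw [Prod.dist_eq] at hp
  refine h p.1 p.2 ?_ ?_
  · rw [← dist_eq_norm]; exact (le_max_left _ _).trans_lt hp
  · rw [← dist_eq_norm]; exact (le_max_right _ _).trans_lt hp

/-- abstract form of the Lipschitz estimate -/
theorem bch_strict {A : Type*} [NormedRing A] [NormedAlgebra ℂ A] [CompleteSpace A]
    (lg : A → A) (h : HasStrictFDerivAt lg (ContinuousLinearMap.id ℂ A) 1) :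
    HasStrictFDerivAt (fun p : A × A => lg (NormedSpace.exp p.1 * NormedSpace.exp p.2))
      (ContinuousLinearMap.fst ℂ A A + ContinuousLinearMap.snd ℂ A A) ((0, 0) : A × A) := by
  have hs : HasStrictFDerivAt (NormedSpace.exp : A → A) (1 : A →L[ℂ] A) 0 :=
    hasStrictFDerivAt_exp_zero (𝕂 := ℂ) (𝔸 := A)
  have h0 : NormedSpace.exp (0 : A) = 1 := NormedSpace.exp_zero
  have h1 : HasStrictFDerivAt (fun p : A × A => NormedSpace.exp p.1)
      (ContinuousLinearMap.fst ℂ A A) ((0, 0) : A × A) :=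
    (hs.comp ((0, 0) : A × A) (hasStrictFDerivAt_fst (𝕜 := ℂ) (p := ((0, 0) : A × A))))
  have h2 : HasStrictFDerivAt (fun p : A × A => NormedSpace.exp p.2)
      (ContinuousLinearMap.snd ℂ A A) ((0, 0) : A × A) :=
    (hs.comp ((0, 0) : A × A) (hasStrictFDerivAt_snd (𝕜 := ℂ) (p := ((0, 0) : A × A))))
  have h3 : HasStrictFDerivAt (fun p : A × A => NormedSpace.exp p.1 * NormedSpace.exp p.2)
      (ContinuousLinearMap.fst ℂ A A + ContinuousLinearMap.snd ℂ A A) ((0, 0) : A × A) := by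
    refine (h1.mul' h2).congr_fderiv ?_
    ext p
    · simp [h0]
    · simp [h0]
  have h5 : HasStrictFDerivAt lg (ContinuousLinearMap.id ℂ A)
      ((fun p : A × A => NormedSpace.exp p.1 * NormedSpace.exp p.2) (0, 0)) := by
    have : (fun p : A × A => NormedSpace.exp p.1 * NormedSpace.exp p.2) (0, 0) = 1 := by
      simp only [h0, mul_one]
    rw [this]
    exact h
  exact (h5.comp ((0, 0) : A × A) h3).congr_fderiv (ContinuousLinearMap.id_comp _)

/-- The logarithm of a product of exponentials is almost the sum, in a Lipschitz sense. -/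
theorem bch_lip (D : LogData m) : ∀ ε > 0, ∃ δ > 0, ∀ Z W Z' W' : Mt m, ‖Z‖ < δ → ‖W‖ < δ →
    ‖Z'‖ < δ → ‖W'‖ < δ →
    ‖(D.lg (NormedSpace.exp Z * NormedSpace.exp W) - Z - W) -
      (D.lg (NormedSpace.exp Z' * NormedSpace.exp W') - Z' - W')‖ ≤
      ε * (‖Z - Z'‖ + ‖W - W'‖) := by
  have h4 := bch_strict (A := Mt m) D.lg D.strict
  intro ε hε
  obtain ⟨δ, hδ, h⟩ := strict_lip h4 ε hε
  refine ⟨δ, hδ, fun Z W Z' W' hZ hW hZ' hW' => ?_⟩
  have h6 := h (Z, W) (Z', W') (by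
    rw [Prod.mk_zero_zero, sub_zero, Prod.norm_def]
    exact max_lt hZ hW) (by
    rw [Prod.mk_zero_zero, sub_zero, Prod.norm_def]
    exact max_lt hZ' hW')
  have e : (D.lg (NormedSpace.exp Z * NormedSpace.exp W) - Z - W) -
      (D.lg (NormedSpace.exp Z' * NormedSpace.exp W') - Z' - W') =
      D.lg (NormedSpace.exp Z * NormedSpace.exp W) -
      D.lg (NormedSpace.exp Z' * NormedSpace.exp W') - ((Z - Z') + (W - W')) := by
    abel
  rw [e]
  refine le_trans h6 ?_
  refine mul_le_mul_of_nonneg_left ?_ hε.le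
  rw [Prod.norm_def]
  exact max_le (le_add_of_nonneg_right (norm_nonneg _)) (le_add_of_nonneg_left (norm_nonneg _))

end

end Pool.Agent.T2H04.HY
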