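import Mathlib
import Pool.Agent.T2H04.HY.Log
import Pool.Agent.T2H04.HY.LieG

/-!
# The closed subgroup theorem and the geometry of the complexified group near `1`
-/

open MeasureTheory Matrix Filter
open scoped Matrix.Norms.Frobenius Topology

namespace Pool.Agent.T2H04.HY

set_option linter.unusedSectionVars false

noncomputable section

variable {G : Type} [Group G] [TopologicalSpace G] [IsTopologicalGroup G] [CompactSpace G]
  {m : Type} [Fintype m] [DecidableEq m] (L : RD G m)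

theorem exp_neg_mem {A : Mt m} (h : NormedSpace.exp A ∈ MonoidHom.mrange L.rho) :
    NormedSpace.exp (-A) ∈ MonoidHom.mrange L.rho := by
  obtain ⟨g, hg⟩ := h
  refine ⟨g⁻¹, ?_⟩
  have h1 : L.rho g⁻¹ = L.rho g⁻¹ * (NormedSpace.exp A * NormedSpace.exp (-A)) := by
    rw [exp_mul_exp_neg, mul_one]
  rw [h1, ← mul_assoc, ← hg, rho_inv_mul, one_mul]

theorem exp_nsmul_mem {A : Mt m} (h : NormedSpace.exp A ∈ MonoidHom.mrange L.rho) (k : ℕ) :
    NormedSpace.exp (k • A) ∈ MonoidHom.mrange L.rho := by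
  rw [Matrix.exp_nsmul]
  exact pow_mem h k

theorem exp_cont0 : Continuous (NormedSpace.exp : Mt m → Mt m) := NormedSpace.exp_continuous

/-- limits of directions of elements whose exponentials are in a closed submonoid -/
theorem limit_direction {A : Type*} [NormedRing A] [NormedAlgebra ℝ A] [FiniteDimensional ℝ A]
    (S : Submonoid A) (hS : IsClosed (S : Set A)) (M : Submodule ℝ A) (Y : ℕ → A)
    (hYM : ∀ n, Y n ∈ M) (hY0 : ∀ n, Y n ≠ 0) (hYt : Tendsto (fun n => ‖Y n‖) atTop (𝓝 0))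
    (hYr : ∀ n (k : ℕ), NormedSpace.exp (k • Y n) ∈ S) :
    ∃ w ∈ M, ‖w‖ = 1 ∧ ∀ t : ℝ, 0 ≤ t → NormedSpace.exp (t • w) ∈ S := by
  have hcomp : CompleteSpace A := FiniteDimensional.complete ℝ A
  have hYp : ∀ n, 0 < ‖Y n‖ := fun n => norm_pos_iff.2 (hY0 n)
  let v : ℕ → A := fun n => ‖Y n‖⁻¹ • Y n
  have hv : ∀ n, v n ∈ Metric.sphere (0 : A) 1 := by
    intro n
    rw [mem_sphere_zero_iff_norm]
    change ‖‖Y n‖⁻¹ • Y n‖ = 1
    rw [norm_smul, norm_inv, norm_norm, inv_mul_cancel₀ (hYp n).ne']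
  have hprop : ProperSpace A := FiniteDimensional.proper ℝ A
  obtain ⟨w, hw, φ, hφ, hlim⟩ := (isCompact_sphere (0 : A) 1).tendsto_subseq hv
  have hwM : w ∈ M := by
    refine (M.closed_of_finiteDimensional).mem_of_tendsto hlim (Eventually.of_forall fun n => ?_)
    exact M.smul_mem _ (hYM _)
  refine ⟨w, hwM, by rwa [mem_sphere_zero_iff_norm] at hw, ?_⟩
  intro t ht
  have h1 : Tendsto (fun n => (⌊t / ‖Y (φ n)‖⌋₊ : ℝ) • Y (φ n) - t • v (φ n)) atTop (𝓝 0) := by
    rw [tendsto_zero_iff_norm_tendsto_zero]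
    refine squeeze_zero (fun n => norm_nonneg _) (fun n => ?_) (hYt.comp hφ.tendsto_atTop)
    have hp := hYp (φ n)
    have e : (⌊t / ‖Y (φ n)‖⌋₊ : ℝ) • Y (φ n) - t • v (φ n) =
        ((⌊t / ‖Y (φ n)‖⌋₊ : ℝ) - t / ‖Y (φ n)‖) • Y (φ n) := by
      change _ - t • (‖Y (φ n)‖⁻¹ • Y (φ n)) = _
      rw [smul_smul, sub_smul, div_eq_mul_inv]
    rw [e, norm_smul]
    have h2 : |(⌊t / ‖Y (φ n)‖⌋₊ : ℝ) - t / ‖Y (φ n)‖| ≤ 1 := by
      have h3 := Nat.floor_le (div_nonneg ht hp.le)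
      have h4 := Nat.lt_floor_add_one (t / ‖Y (φ n)‖)
      rw [abs_le]
      constructor <;> linarith
    rw [Real.norm_eq_abs]
    change _ ≤ ‖Y (φ n)‖
    nlinarith [norm_nonneg (Y (φ n))]
  have h5 : Tendsto (fun n => (⌊t / ‖Y (φ n)‖⌋₊ : ℝ) • Y (φ n)) atTop (𝓝 (t • w)) := by
    have h6 := h1.add (hlim.const_smul t)
    rw [zero_add] at h6
    refine h6.congr fun n => ?_
    simp
  have hcont : Continuous (NormedSpace.exp : A → A) := by
    rw [continuous_iff_continuousAt]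
    exact fun x => (NormedSpace.exp_analytic (𝕂 := ℝ) x).continuousAt
  have h7 := hcont.continuousAt.tendsto.comp h5
  refine hS.mem_of_tendsto h7 (Eventually.of_forall fun n => ?_)
  change NormedSpace.exp ((⌊t / ‖Y (φ n)‖⌋₊ : ℝ) • Y (φ n)) ∈ S
  rw [Nat.cast_smul_eq_nsmul]
  exact hYr _ _

/-- no small elements of a complement of the Lie algebra are in the group -/
theorem compl_small (M : Submodule ℝ (Mt m)) (hM : lieAlg L ⊓ M = ⊥) :
    ∃ δ > 0, ∀ Y ∈ M, ‖Y‖ < δ → NormedSpace.exp Y ∈ MonoidHom.mrange L.rho → Y = 0 := by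
  by_contra hcon
  push Not at hcon
  choose Y hYM hYs hYr hY0 using fun n : ℕ => hcon (1 / ((n : ℝ) + 1)) (by positivity)
  have hYt : Tendsto (fun n => ‖Y n‖) atTop (𝓝 0) := by
    refine squeeze_zero (fun n => norm_nonneg _) (fun n => (hYs n).le) ?_
    exact tendsto_one_div_add_atTop_nhds_zero_nat
  obtain ⟨w, hwM, hw1, hpos⟩ := limit_direction (A := Mt m) (MonoidHom.mrange L.rho)
    (closed_range L) M Y hYM hY0 hYt (fun n k => exp_nsmul_mem L (hYr n) k)
  have hwl : w ∈ lieSet L := by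
    rw [mem_lieSet_iff]
    intro t
    rcases le_total 0 t with h | h
    · exact hpos t h
    · have h2 := exp_neg_mem L (hpos (-t) (by linarith))
      rwa [neg_smul, neg_neg] at h2
  have hw0 : w ∈ lieAlg L ⊓ M := ⟨(mem_lieAlg L).2 hwl, hwM⟩
  rw [hM, Submodule.mem_bot] at hw0
  rw [hw0, norm_zero] at hw1
  exact zero_ne_one hw1

/-- the product of the exponentials of two subspaces -/
theorem exp_exp_strict {A E F : Type*} [NormedRing A] [NormedAlgebra ℝ A] [CompleteSpace A]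
    [NormedAddCommGroup E] [NormedSpace ℝ E] [NormedAddCommGroup F] [NormedSpace ℝ F]
    (p : E →L[ℝ] A) (q : F →L[ℝ] A) :
    HasStrictFDerivAt (fun z : E × F => NormedSpace.exp (p z.1) * NormedSpace.exp (q z.2))
      (p ∘L ContinuousLinearMap.fst ℝ E F + q ∘L ContinuousLinearMap.snd ℝ E F)
      ((0, 0) : E × F) := by
  have hs : HasStrictFDerivAt (NormedSpace.exp : A → A) (1 : A →L[ℝ] A) 0 :=
    hasStrictFDerivAt_exp_zero (𝕂 := ℝ) (𝔸 := A)
  have h0 : NormedSpace.exp (0 : A) = 1 := NormedSpace.exp_zero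
  have h1 : HasStrictFDerivAt (fun z : E × F => NormedSpace.exp (p z.1))
      (p ∘L ContinuousLinearMap.fst ℝ E F) ((0, 0) : E × F) := by
    have a1 : HasStrictFDerivAt (fun z : E × F => p z.1) (p ∘L ContinuousLinearMap.fst ℝ E F)
      ((0, 0) : E × F) := (p ∘L ContinuousLinearMap.fst ℝ E F).hasStrictFDerivAt
    have a2 : HasStrictFDerivAt (NormedSpace.exp : A → A) (1 : A →L[ℝ] A)
        ((fun z : E × F => p z.1) ((0, 0) : E × F)) := by
      have : (fun z : E × F => p z.1) ((0, 0) : E × F) = 0 := map_zero p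
      rw [this]; exact hs
    exact HasStrictFDerivAt.comp ((0, 0) : E × F) a2 a1
  have h2 : HasStrictFDerivAt (fun z : E × F => NormedSpace.exp (q z.2))
      (q ∘L ContinuousLinearMap.snd ℝ E F) ((0, 0) : E × F) := by
    have a1 : HasStrictFDerivAt (fun z : E × F => q z.2) (q ∘L ContinuousLinearMap.snd ℝ E F)
      ((0, 0) : E × F) := (q ∘L ContinuousLinearMap.snd ℝ E F).hasStrictFDerivAt
    have a2 : HasStrictFDerivAt (NormedSpace.exp : A → A) (1 : A →L[ℝ] A)
        ((fun z : E × F => q z.2) ((0, 0) : E × F)) := by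
      have : (fun z : E × F => q z.2) ((0, 0) : E × F) = 0 := map_zero q
      rw [this]; exact hs
    exact HasStrictFDerivAt.comp ((0, 0) : E × F) a2 a1
  refine (h1.mul' h2).congr_fderiv ?_
  ext z
  · simp [h0]
  · simp [h0]

/-- products of exponentials of elements of complementary subspaces cover a neighbourhood -/
theorem exp_cover {A : Type*} [NormedRing A] [NormedAlgebra ℝ A] [FiniteDimensional ℝ A]
    (V M : Submodule ℝ A) (h : V ⊔ M = ⊤) (r : ℝ) (hr : 0 < r) :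
    ∃ δ > 0, ∀ x : A, ‖x - 1‖ < δ → ∃ X ∈ V, ∃ Y ∈ M, ‖X‖ < r ∧ ‖Y‖ < r ∧
      NormedSpace.exp X * NormedSpace.exp Y = x := by
  have hcomp : CompleteSpace A := FiniteDimensional.complete ℝ A
  have hst := exp_exp_strict (A := A) V.subtypeL M.subtypeL
  have hsur : (V.subtypeL ∘L ContinuousLinearMap.fst ℝ V M +
      M.subtypeL ∘L ContinuousLinearMap.snd ℝ V M).range = ⊤ := by
    rw [eq_top_iff]
    rintro x -
    have hx : x ∈ V ⊔ M := by rw [h]; trivial
    obtain ⟨a, ha, b, hb, rfl⟩ := Submodule.mem_sup.1 hx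
    exact ⟨(⟨a, ha⟩, ⟨b, hb⟩), rfl⟩
  have hmap := hst.map_nhds_eq_of_surj hsur
  have hU : Metric.ball ((0, 0) : V × M) r ∈ 𝓝 ((0, 0) : V × M) := Metric.ball_mem_nhds _ hr
  have h1 := Filter.image_mem_map (m := fun z : V × M =>
    NormedSpace.exp (V.subtypeL z.1) * NormedSpace.exp (M.subtypeL z.2)) hU
  rw [hmap] at h1
  have h2 : NormedSpace.exp (V.subtypeL (0 : V)) *
      NormedSpace.exp (M.subtypeL (0 : M)) = (1 : A) := by
    rw [map_zero, map_zero, NormedSpace.exp_zero, mul_one]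
  rw [h2] at h1
  obtain ⟨δ, hδ, hδ'⟩ := Metric.mem_nhds_iff.1 h1
  refine ⟨δ, hδ, fun x hx => ?_⟩
  obtain ⟨⟨X, Y⟩, hXY, hxy⟩ := hδ' (show x ∈ Metric.ball (1 : A) δ by
    rw [Metric.mem_ball, dist_eq_norm]; exact hx)
  rw [Metric.mem_ball, Prod.dist_eq, max_lt_iff] at hXY
  refine ⟨X, X.2, Y, Y.2, ?_, ?_, hxy⟩
  · have := hXY.1
    rwa [dist_zero_right] at this
  · have := hXY.2
    rwa [dist_zero_right] at this

/-- Closed subgroup theorem: the logarithm of a group element near `1` is in the Lie algebra. -/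
theorem lg_mem_lie (D : LogData m) :
    ∃ δ > 0, ∀ y : G, dis L y < δ → D.lg (L.rho y) ∈ lieSet L := by
  obtain ⟨M, hM⟩ := (lieAlg L).exists_isCompl
  obtain ⟨δ, hδ, hsm⟩ := compl_small L M hM.inf_eq_bot
  obtain ⟨r, hr, hcov⟩ := exp_cover (A := Mt m) (lieAlg L) M hM.sup_eq_top (min D.R δ)
    (lt_min D.R_pos hδ)
  refine ⟨r, hr, fun y hy => ?_⟩
  obtain ⟨X, hX, Y, hY, hXn, hYn, hXY⟩ := hcov (L.rho y) hy
  have hXl : X ∈ lieSet L := (mem_lieAlg L).1 hX
  have hXY : NormedSpace.exp X * NormedSpace.exp Y = L.rho y := hXY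
  have hY0 : Y = 0 := by
    refine hsm Y hY (hYn.trans_le (min_le_right _ _)) ?_
    obtain ⟨g, hg⟩ := lie_exp L (lie_neg L hXl)
    refine ⟨g * y, ?_⟩
    rw [map_mul, hg, ← hXY, ← mul_assoc, exp_neg_mul_exp, one_mul]
  rw [← hXY, hY0, NormedSpace.exp_zero, mul_one, D.lg_exp _ (hXn.trans_le (min_le_left _ _))]
  exact hXl

/-- a holomorphic function on a disc vanishing on the reals is zero -/
theorem zero_of_real {f : ℂ → ℂ} (hf : DifferentiableOn ℂ f (Metric.ball 0 2))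
    (h : ∀ s : ℝ, |s| < 2 → f s = 0) : ∀ z ∈ Metric.ball (0 : ℂ) 2, f z = 0 := by
  have ha : AnalyticOnNhd ℂ f (Metric.ball 0 2) := hf.analyticOnNhd Metric.isOpen_ball
  refine ha.eqOn_zero_of_preconnected_of_frequently_eq_zero (z₀ := 0)
    (convex_ball _ _).isPreconnected (Metric.mem_ball_self (by norm_num)) ?_
  have ht : Tendsto (fun n : ℕ => (((1 / ((n : ℝ) + 1) : ℝ)) : ℂ)) atTop (𝓝[≠] 0) := by
    rw [tendsto_nhdsWithin_iff]
    refine ⟨?_, Eventually.of_forall fun n => ?_⟩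
    · have := (Complex.continuous_ofReal.tendsto 0).comp
        (tendsto_one_div_add_atTop_nhds_zero_nat (𝕜 := ℝ))
      rw [Complex.ofReal_zero] at this
      exact this
    · rw [Set.mem_compl_iff, Set.mem_singleton_iff, Complex.ofReal_eq_zero]
      positivity
  refine ht.frequently (Eventually.frequently (Eventually.of_forall fun n => ?_))
  apply h
  rw [abs_of_pos (by positivity)]
  have : (1 : ℝ) / ((n : ℝ) + 1) ≤ 1 := by
    rw [div_le_one (by positivity)]
    have : (0 : ℝ) ≤ n := Nat.cast_nonneg n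
    linarith
  linarith

/-- analytic continuation from the reals -/
theorem continuation {A : Type*} [NormedRing A] [NormedAlgebra ℂ A] [CompleteSpace A]
    (lg : A → A) (R : ℝ) (hlg : DifferentiableOn ℂ lg (Metric.ball 1 R)) (φ : A →L[ℂ] ℂ)
    (X H X' H' : A)
    (hball : ∀ s u : ℂ, ‖s‖ < 2 → ‖u‖ < 2 →
      ‖NormedSpace.exp (X + s • H) * NormedSpace.exp (X' + u • H') - 1‖ < R)
    (hreal : ∀ s u : ℝ, |s| < 2 → |u| < 2 →
      φ (lg (NormedSpace.exp (X + (s : ℂ) • H) * NormedSpace.exp (X' + (u : ℂ) • H'))) = 0) :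
    φ (lg (NormedSpace.exp (X + Complex.I • H) * NormedSpace.exp (X' + Complex.I • H'))) = 0 := by
  have hexp : Differentiable ℂ (NormedSpace.exp : A → A) := fun x =>
    (NormedSpace.exp_analytic (𝕂 := ℂ) x).differentiableAt
  have hI : ‖Complex.I‖ < 2 := by rw [Complex.norm_I]; norm_num
  have h1 : ∀ u : ℝ, |u| < 2 → ∀ s : ℂ, ‖s‖ < 2 →
      φ (lg (NormedSpace.exp (X + s • H) * NormedSpace.exp (X' + (u : ℂ) • H'))) = 0 := by
    intro u hu s hs
    refine zero_of_real (f := fun s : ℂ =>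
      φ (lg (NormedSpace.exp (X + s • H) * NormedSpace.exp (X' + (u : ℂ) • H')))) ?_ ?_ s
      (by simpa using hs)
    · have hu' : ‖(u : ℂ)‖ < 2 := by rwa [Complex.norm_real]
      refine φ.differentiable.comp_differentiableOn (hlg.comp ?_ ?_)
      · refine Differentiable.differentiableOn ?_
        refine Differentiable.mul_const (hexp.comp ?_) _
        exact (differentiable_const _).add (differentiable_id.smul_const _)
      · intro z hz
        rw [Metric.mem_ball, dist_eq_norm]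
        exact hball z u (by simpa using hz) hu'
    · intro t ht
      exact hreal t u ht hu
  refine zero_of_real (f := fun u : ℂ =>
      φ (lg (NormedSpace.exp (X + Complex.I • H) * NormedSpace.exp (X' + u • H')))) ?_ ?_ Complex.I
      (by simp)
  · refine φ.differentiable.comp_differentiableOn (hlg.comp ?_ ?_)
    · refine Differentiable.differentiableOn ?_
      refine Differentiable.const_mul (hexp.comp ?_) _
      exact (differentiable_const _).add (differentiable_id.smul_const _)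
    · intro z hz
      rw [Metric.mem_ball, dist_eq_norm]
      exact hball _ z hI (by simpa using hz)
  · intro t ht
    exact h1 t ht _ hI

/-- products of exponentials of small elements are near `1` -/
theorem exp_mul_near {A : Type*} [NormedRing A] [NormedAlgebra ℂ A] [CompleteSpace A] (r : ℝ)
    (hr : 0 < r) : ∃ δ > 0, ∀ Z W : A, ‖Z‖ < δ → ‖W‖ < δ →
      ‖NormedSpace.exp Z * NormedSpace.exp W - 1‖ < r := by
  have hcont : Continuous (NormedSpace.exp : A → A) := by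
    rw [continuous_iff_continuousAt]
    exact fun x => (NormedSpace.exp_analytic (𝕂 := ℂ) x).continuousAt
  have h1 : Continuous (fun p : A × A => NormedSpace.exp p.1 * NormedSpace.exp p.2 - 1) := by
    fun_prop
  have h2 : Tendsto (fun p : A × A => ‖NormedSpace.exp p.1 * NormedSpace.exp p.2 - 1‖)
      (𝓝 (0, 0)) (𝓝 0) := by
    have := (h1.norm).tendsto ((0, 0) : A × A)
    simpa [NormedSpace.exp_zero] using this
  obtain ⟨δ, hδ, h⟩ := Metric.eventually_nhds_iff.1 (h2.eventually (gt_mem_nhds hr))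
  refine ⟨δ, hδ, fun Z W hZ hW => h (y := (Z, W)) ?_⟩
  rw [Prod.dist_eq, dist_zero_right, dist_zero_right]
  exact max_lt hZ hW

/-- The logarithm of a product of two exponentials of small elements of the complexified Lie
algebra is in the complexified Lie algebra (from `lg_mem_lie` by analytic continuation). -/
theorem lg_mem_gC (D : LogData m) : ∃ δ > 0, ∀ Z ∈ gC L, ∀ W ∈ gC L, ‖Z‖ < δ → ‖W‖ < δ →
    D.lg (NormedSpace.exp Z * NormedSpace.exp W) ∈ gC L := by
  obtain ⟨δ1, hδ1, h1⟩ := lg_mem_lie L D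
  obtain ⟨δ2, hδ2, h2⟩ := exp_mul_near (A := Mt m) (min D.R δ1) (lt_min D.R_pos hδ1)
  have h2 : ∀ Z W : Mt m, ‖Z‖ < δ2 → ‖W‖ < δ2 →
      ‖NormedSpace.exp Z * NormedSpace.exp W - 1‖ < min D.R δ1 := h2
  refine ⟨δ2 / 3, by positivity, fun Z hZ W hW hZn hWn => ?_⟩
  by_contra hcon
  obtain ⟨φ, hφ, hφ0⟩ := Submodule.exists_le_ker_of_notMem hcon
  apply hφ
  let φ' : Mt m →L[ℂ] ℂ := LinearMap.toContinuousLinearMap φ
  have hZ1 := reP_mem L hZ
  have hZ2 := imP_mem L hZ
  have hW1 := reP_mem L hW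
  have hW2 := imP_mem L hW
  have bd : ∀ (Z : Mt m), ‖Z‖ < δ2 / 3 → ∀ s : ℂ, ‖s‖ < 2 → ‖reP Z + s • imP Z‖ < δ2 := by
    intro Z hZ s hs
    refine (norm_add_le _ _).trans_lt ?_
    rw [norm_smul]
    have a1 := norm_reP_le Z
    have a2 := norm_imP_le Z
    nlinarith [norm_nonneg (imP Z), norm_nonneg s]
  have key := continuation (A := Mt m) D.lg D.R D.diff φ' (reP Z) (imP Z) (reP W) (imP W)
    (fun s u hs hu => (h2 _ _ (bd Z hZn s hs) (bd W hWn u hu)).trans_le (min_le_left _ _)) ?_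
  · rw [reP_add_imP, reP_add_imP] at key
    exact key
  · intro s u hs hu
    obtain ⟨g, hg⟩ := lie_exp L (lie_add L hZ1 (lie_smul L s hZ2))
    obtain ⟨g', hg'⟩ := lie_exp L (lie_add L hW1 (lie_smul L u hW2))
    have e1 : NormedSpace.exp (reP Z + (s : ℂ) • imP Z) = L.rho g := by
      rw [hg, Complex.coe_smul]
    have e2 : NormedSpace.exp (reP W + (u : ℂ) • imP W) = L.rho g' := by
      rw [hg', Complex.coe_smul]
    have e3 := h2 _ _ (bd Z hZn s (by rwa [Complex.norm_real]))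
      (bd W hWn u (by rwa [Complex.norm_real]))
    have e4 : D.lg (L.rho (g * g')) ∈ lieSet L := by
      apply h1
      unfold dis
      rw [map_mul, ← e1, ← e2]
      exact e3.trans_le (min_le_right _ _)
    have e5 : φ (D.lg (L.rho (g * g'))) = 0 := hφ0 (gC_of_lie L e4)
    rw [map_mul, ← e1, ← e2] at e5
    exact e5

/-- the logarithm of an element near `1` -/
theorem lg_near (D : LogData m) : ∀ ε > 0, ∃ δ > 0, ∀ x : Mt m, ‖x - 1‖ < δ →
    ‖x - 1‖ < D.R ∧ ‖D.lg x‖ ≤ (1 + ε) * ‖x - 1‖ ∧ (1 - ε) * ‖x - 1‖ ≤ ‖D.lg x‖ := by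
  intro ε hε
  obtain ⟨δ, hδ, h⟩ := D.lip ε hε
  refine ⟨min δ D.R, lt_min hδ D.R_pos, fun x hx => ⟨hx.trans_le (min_le_right _ _), ?_⟩⟩
  have h1 := h x 1 (hx.trans_le (min_le_left _ _)) (by rw [sub_self, norm_zero]; exact hδ)
  have h2 : D.lg 1 = 0 := by
    have := D.lg_exp 0 (by rw [norm_zero]; exact D.R_pos)
    rwa [NormedSpace.exp_zero] at this
  rw [h2, sub_zero] at h1
  constructor
  · have := norm_add_le (D.lg x - (x - 1)) (x - 1)
    rw [sub_add_cancel] at this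
    linarith
  · have := norm_sub_norm_le (x - 1) (x - 1 - D.lg x)
    rw [sub_sub_cancel] at this
    have e : ‖x - 1 - D.lg x‖ = ‖D.lg x - (x - 1)‖ := norm_sub_rev _ _
    rw [e] at this
    linarith

/-- Geometry near `1`: `exp Z * y` is the exponential of an element `Y` of the complexified Lie
algebra whose imaginary part is controlled by that of `Z`, and whose real part is controlled by the
distance of `exp (reP Z) * y` from `1`. -/
theorem geo (D : LogData m) : ∀ ε > 0, ∃ δ > 0, ∀ Z ∈ gC L, ‖Z‖ < δ → ∀ y : G,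
    ‖NormedSpace.exp (reP Z) * L.rho y - 1‖ < δ →
    ∃ Y ∈ gC L, NormedSpace.exp Z * L.rho y = NormedSpace.exp Y ∧
      ‖imP Y‖ ≤ (1 + ε) * ‖imP Z‖ ∧
      ‖reP Y‖ ≤ (1 + ε) * ‖NormedSpace.exp (reP Z) * L.rho y - 1‖ + ε * ‖imP Z‖ ∧
      (1 - ε) * ‖NormedSpace.exp (reP Z) * L.rho y - 1‖ ≤ ‖reP Y‖ + ε * ‖imP Z‖ := by
  intro ε hε
  obtain ⟨δ1, hδ1, h1⟩ := lg_mem_lie L D
  obtain ⟨δ2, hδ2, h2⟩ := lg_mem_gC L D
  obtain ⟨δ3, hδ3, h3⟩ := bch_lip D ε hε
  obtain ⟨δ4, hδ4, h4⟩ := lg_near D ε hε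
  obtain ⟨δ5, hδ5, h5⟩ := exp_mul_near (A := Mt m) D.R D.R_pos
  have h5 : ∀ Z W : Mt m, ‖Z‖ < δ5 → ‖W‖ < δ5 →
      ‖NormedSpace.exp Z * NormedSpace.exp W - 1‖ < D.R := h5
  -- `ρ y` is near `1`
  set c := min δ2 (min δ3 δ5) with hc
  have hcpos : 0 < c := lt_min hδ2 (lt_min hδ3 hδ5)
  obtain ⟨δ6, hδ6, h6⟩ := lg_near D 1 one_pos
  set r := min (min δ1 δ6) (c / 2) with hr
  have hrpos : 0 < r := lt_min (lt_min hδ1 hδ6) (by positivity)
  -- `exp (-X) * g` is near `1`
  obtain ⟨δ7, hδ7, h7⟩ : ∃ δ > 0, ∀ X g : Mt m, ‖X‖ < δ → ‖g - 1‖ < δ →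
      ‖NormedSpace.exp (-X) * g - 1‖ < r := by
    have hcont : Continuous (fun p : Mt m × Mt m => NormedSpace.exp (-p.1) * p.2 - 1) := by
      have := exp_cont0 (m := m)
      fun_prop
    have ht : Tendsto (fun p : Mt m × Mt m => ‖NormedSpace.exp (-p.1) * p.2 - 1‖)
        (𝓝 (0, 1)) (𝓝 0) := by
      have := (hcont.norm).tendsto ((0, 1) : Mt m × Mt m)
      simpa [NormedSpace.exp_zero] using this
    obtain ⟨δ, hδ, h⟩ := Metric.eventually_nhds_iff.1 (ht.eventually (gt_mem_nhds hrpos))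
    refine ⟨δ, hδ, fun X g hX hg => h (y := (X, g)) ?_⟩
    rw [Prod.dist_eq, dist_zero_right, dist_eq_norm]
    exact max_lt hX hg
  refine ⟨min (min δ1 δ4) (min c δ7), lt_min (lt_min hδ1 hδ4) (lt_min hcpos hδ7), ?_⟩
  intro Z hZ hZn y hy
  have hX := reP_mem L hZ
  have hH := imP_mem L hZ
  set X := reP Z with hXd
  set H := imP Z with hHd
  have hZc : ‖Z‖ < c := hZn.trans_le ((min_le_right _ _).trans (min_le_left _ _))
  have hXn : ‖X‖ ≤ ‖Z‖ := norm_reP_le Z
  -- the group element `g`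
  obtain ⟨gX, hgX⟩ := lie_exp L hX
  have hgx : L.rho (gX * y) = NormedSpace.exp X * L.rho y := by rw [map_mul, hgX]
  set g := NormedSpace.exp X * L.rho y with hg
  have hg1 : ‖g - 1‖ < δ1 := hy.trans_le ((min_le_left _ _).trans (min_le_left _ _))
  have hg4 : ‖g - 1‖ < δ4 := hy.trans_le ((min_le_left _ _).trans (min_le_right _ _))
  have heta : D.lg g ∈ lieSet L := by
    rw [← hgx]
    apply h1
    unfold dis
    rw [hgx]; exact hg1
  obtain ⟨k1, k2, k3⟩ := h4 g hg4
  -- `ρ y`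
  have hy' : L.rho y = NormedSpace.exp (-X) * g := by
    rw [hg, ← mul_assoc, exp_neg_mul_exp, one_mul]
  have hyr : ‖L.rho y - 1‖ < r := by
    rw [hy']
    exact h7 X g (hXn.trans_lt (hZn.trans_le ((min_le_right _ _).trans (min_le_right _ _))))
      (hy.trans_le ((min_le_right _ _).trans (min_le_right _ _)))
  have hzeta : D.lg (L.rho y) ∈ lieSet L := by
    apply h1
    exact hyr.trans_le ((min_le_left _ _).trans (min_le_left _ _))
  obtain ⟨l1, l2, -⟩ := h6 (L.rho y) (hyr.trans_le ((min_le_left _ _).trans (min_le_right _ _)))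
  set ζ := D.lg (L.rho y) with hζ
  have hζn : ‖ζ‖ < c := by
    have : r ≤ c / 2 := min_le_right _ _
    linarith
  have hζe : NormedSpace.exp ζ = L.rho y := D.exp_lg _ l1
  have hc2 : c ≤ δ2 := min_le_left _ _
  have hc3 : c ≤ δ3 := (min_le_right _ _).trans (min_le_left _ _)
  have hc5 : c ≤ δ5 := (min_le_right _ _).trans (min_le_right _ _)
  have hYm := h2 Z hZ ζ (gC_of_lie L hzeta) (hZc.trans_le hc2) (hζn.trans_le hc2)
  have hball := h5 Z ζ (hZc.trans_le hc5) (hζn.trans_le hc5)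
  set Y := D.lg (NormedSpace.exp Z * NormedSpace.exp ζ) with hY
  have hYe : NormedSpace.exp Y = NormedSpace.exp Z * L.rho y := by
    rw [hY, D.exp_lg _ hball, hζe]
  have hlip := h3 Z ζ X ζ (hZc.trans_le hc3) (hζn.trans_le hc3)
    (hXn.trans_lt (hZc.trans_le hc3)) (hζn.trans_le hc3)
  have hg' : NormedSpace.exp X * NormedSpace.exp ζ = g := by rw [hζe]
  have hZX : Z - X = Complex.I • H := by
    have := reP_add_imP Z
    rw [← hXd, ← hHd] at this
    rw [← this]; abel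
  rw [hg', sub_self, norm_zero, add_zero, hZX, norm_smul, Complex.norm_I, one_mul] at hlip
  set E := (Y - Z - ζ) - (D.lg g - X - ζ) with hE
  have hYE : Y = (D.lg g + Complex.I • H) + E := by
    rw [hE, ← hZX]; abel
  have hres := lie_skew L heta
  have hHs := lie_skew L hH
  refine ⟨Y, hYm, hYe.symm, ?_, ?_, ?_⟩
  · have e1 : imP Y = H + imP E := by
      rw [hYE, imP_add, imP_add_smul hres hHs]
    rw [e1]
    refine (norm_add_le _ _).trans ?_
    have := norm_imP_le E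
    linarith
  · have e1 : reP Y = D.lg g + reP E := by
      rw [hYE, reP_add, reP_add_smul hres hHs]
    rw [e1]
    refine (norm_add_le _ _).trans ?_
    have := norm_reP_le E
    linarith
  · have e1 : D.lg g = reP Y - reP E := by
      rw [hYE, reP_add, reP_add_smul hres hHs]; abel
    have e2 : ‖D.lg g‖ ≤ ‖reP Y‖ + ‖reP E‖ := by
      rw [e1]; exact norm_sub_le _ _
    have := norm_reP_le E
    linarith

/-- one step -/
def stepS (h : ℝ) : Set G := {u | ∃ X ∈ lieSet L, ‖X‖ ≤ h ∧ L.rho u = NormedSpace.exp X}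

theorem one_mem_stepS {h : ℝ} (hh : 0 < h) : (1 : G) ∈ stepS L h :=
  ⟨0, lie_zero L, by rw [norm_zero]; exact hh.le, by rw [map_one, NormedSpace.exp_zero]⟩

theorem inv_mem_stepS {h : ℝ} {u : G} (hu : u ∈ stepS L h) : u⁻¹ ∈ stepS L h := by
  obtain ⟨X, hX, hXn, hXe⟩ := hu
  refine ⟨-X, lie_neg L hX, by rwa [norm_neg], ?_⟩
  have h1 : L.rho u⁻¹ = L.rho u⁻¹ * (NormedSpace.exp X * NormedSpace.exp (-X)) := by
    rw [exp_mul_exp_neg, mul_one]
  rw [h1, ← mul_assoc, ← hXe, rho_inv_mul, one_mul]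

theorem stepS_nhds {h : ℝ} (hh : 0 < h) : ∃ U : Set G, IsOpen U ∧ (1 : G) ∈ U ∧ U ⊆ stepS L h := by
  obtain ⟨D⟩ := exists_log (m := m)
  obtain ⟨δ1, hδ1, h1⟩ := lg_mem_lie L D
  obtain ⟨δ2, hδ2, h2⟩ := lg_near D 1 one_pos
  refine ⟨{y | ‖L.rho y - 1‖ < min δ1 (min δ2 (h / 2))}, ?_, ?_, ?_⟩
  · have := L.cont
    exact isOpen_lt (by fun_prop) continuous_const
  · change ‖L.rho 1 - 1‖ < _
    rw [map_one, sub_self, norm_zero]
    exact lt_min hδ1 (lt_min hδ2 (by positivity))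
  · intro y hy
    have hy' : ‖L.rho y - 1‖ < min δ1 (min δ2 (h / 2)) := hy
    obtain ⟨k1, k2, -⟩ := h2 (L.rho y) (hy'.trans_le ((min_le_right _ _).trans (min_le_left _ _)))
    have hyh : ‖L.rho y - 1‖ < h / 2 := hy'.trans_le ((min_le_right _ _).trans (min_le_right _ _))
    refine ⟨D.lg (L.rho y), h1 y (hy'.trans_le (min_le_left _ _)), by linarith, ?_⟩
    exact (D.exp_lg _ k1).symm

/-- products of `n` steps -/
def wordS (h : ℝ) (n : ℕ) : Set G :=
  {g | ∃ l : List G, l.length = n ∧ (∀ u ∈ l, u ∈ stepS L h) ∧ l.prod = g}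

theorem wordS_succ {h : ℝ} (hh : 0 < h) (n : ℕ) : wordS L h n ⊆ wordS L h (n + 1) := by
  rintro _ ⟨l, hl, hu, rfl⟩
  refine ⟨1 :: l, by simp [hl], ?_, by simp⟩
  intro u hu'
  rcases List.mem_cons.1 hu' with rfl | h'
  · exact one_mem_stepS L hh
  · exact hu u h'

theorem wordS_mono {h : ℝ} (hh : 0 < h) : Monotone (wordS L h) :=
  monotone_nat_of_le_succ fun n => wordS_succ L hh n

theorem wordS_mul {h : ℝ} {n : ℕ} {g u : G} (hg : g ∈ wordS L h n) (hu : u ∈ stepS L h) :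
    g * u ∈ wordS L h (n + 1) := by
  obtain ⟨l, hl, hl', rfl⟩ := hg
  refine ⟨l ++ [u], by simp [hl], ?_, by simp⟩
  intro v hv
  rcases List.mem_append.1 hv with h' | h'
  · exact hl' v h'
  · rw [List.mem_singleton.1 h']; exact hu

theorem exists_wordS (hconn : IsConnected (Set.univ : Set G)) {h : ℝ} (hh : 0 < h) (g : G) :
    ∃ n, g ∈ wordS L h n := by
  obtain ⟨U, hU, h1U, hUs⟩ := stepS_nhds L hh
  have hpre : PreconnectedSpace G := ⟨hconn.isPreconnected⟩
  let K : Subgroup G := Subgroup.closure (stepS L h)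
  have hKo : IsOpen (K : Set G) := by
    refine Subgroup.isOpen_of_mem_nhds K (g := 1) ?_
    exact Filter.mem_of_superset (hU.mem_nhds h1U) (hUs.trans Subgroup.subset_closure)
  have hKc : IsClosed (K : Set G) := Subgroup.isClosed_of_isOpen K hKo
  have hK : (K : Set G) = Set.univ := IsClopen.eq_univ ⟨hKc, hKo⟩ ⟨1, K.one_mem⟩
  have hg : g ∈ K := by
    have : g ∈ (K : Set G) := by rw [hK]; trivial
    exact this
  have hg' : g ∈ Submonoid.closure (stepS L h ∪ (stepS L h)⁻¹) := by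
    rw [← Subgroup.closure_toSubmonoid]; exact hg
  have hinv : (stepS L h)⁻¹ = stepS L h := by
    ext u
    rw [Set.mem_inv]
    refine ⟨fun hu => ?_, fun hu => inv_mem_stepS L hu⟩
    have := inv_mem_stepS L hu
    rwa [inv_inv] at this
  rw [hinv, Set.union_self] at hg'
  obtain ⟨l, hl, hl'⟩ := Submonoid.exists_list_of_mem_closure hg'
  exact ⟨l.length, l, rfl, hl, hl'⟩

theorem wordS_univ (hconn : IsConnected (Set.univ : Set G)) {h : ℝ} (hh : 0 < h) :
    ∃ n, ∀ g : G, g ∈ wordS L h n := by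
  obtain ⟨U, hU, h1U, hUs⟩ := stepS_nhds L hh
  let V : ℕ → Set G := fun n => ⋃ a ∈ wordS L h n, (fun u => a⁻¹ * u) ⁻¹' U
  have hVo : ∀ n, IsOpen (V n) := fun n => isOpen_biUnion fun a _ =>
    hU.preimage (continuous_const_mul a⁻¹)
  have hVm : ∀ n k, n ≤ k → V n ⊆ V k := fun n k hnk =>
    Set.biUnion_subset_biUnion_left (wordS_mono L hh hnk)
  have hVc : (Set.univ : Set G) ⊆ ⋃ n, V n := by
    intro g _
    obtain ⟨n, hn⟩ := exists_wordS L hconn hh g
    refine Set.mem_iUnion.2 ⟨n, Set.mem_biUnion hn ?_⟩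
    change g⁻¹ * g ∈ U
    rwa [inv_mul_cancel]
  obtain ⟨t, ht⟩ := isCompact_univ.elim_finite_subcover V hVo hVc
  refine ⟨t.sup id + 1, fun g => ?_⟩
  obtain ⟨n, hn, hgn⟩ := Set.mem_iUnion₂.1 (ht (Set.mem_univ g))
  have hgn' := hVm n (t.sup id) (Finset.le_sup (f := id) hn) hgn
  obtain ⟨a, ha, hau⟩ := Set.mem_iUnion₂.1 hgn'
  have := wordS_mul L ha (hUs hau)
  rwa [mul_inv_cancel_left] at this

/-- A connected group is generated, in a bounded number of steps, by small exponentials. -/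
theorem gen (hconn : IsConnected (Set.univ : Set G)) (h : ℝ) (hh : 0 < h) :
    ∃ n : ℕ, ∀ y z : G, ∃ p : ℕ → G, p 0 = y ∧ p n = z ∧
      ∀ i, ∃ X ∈ lieSet L, ‖X‖ ≤ h ∧ L.rho (p (i + 1)) = NormedSpace.exp X * L.rho (p i) := by
  obtain ⟨n, hn⟩ := wordS_univ L hconn hh
  refine ⟨n, fun y z => ?_⟩
  obtain ⟨l, hl, hl', hprod⟩ := hn (z * y⁻¹)
  refine ⟨fun i => (l.drop (n - i)).prod * y, ?_, ?_, fun i => ?_⟩
  · simp [← hl]
  · simp [hprod]
  · rcases lt_or_ge i n with hin | hin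
    · have hlt : n - (i + 1) < l.length := by omega
      have e : l.drop (n - (i + 1)) = l[n - (i + 1)] :: l.drop (n - i) := by
        rw [List.drop_eq_getElem_cons hlt]
        congr 2
        omega
      obtain ⟨X, hX, hXn, hXe⟩ := hl' _ (List.getElem_mem hlt)
      refine ⟨X, hX, hXn, ?_⟩
      change L.rho ((l.drop (n - (i + 1))).prod * y) = NormedSpace.exp X *
        L.rho ((l.drop (n - i)).prod * y)
      rw [e, List.prod_cons, mul_assoc, map_mul, hXe]
    · refine ⟨0, lie_zero L, by rw [norm_zero]; exact hh.le, ?_⟩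
      change L.rho ((l.drop (n - (i + 1))).prod * y) = NormedSpace.exp 0 *
        L.rho ((l.drop (n - i)).prod * y)
      have e1 : n - (i + 1) = n - i := by omega
      rw [e1, NormedSpace.exp_zero, one_mul]

end

end Pool.Agent.T2H04.HY
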