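import Mathlib
import Pool.Agent.T2H04.HY.Geo

/-!
# Flow to strong coupling: semiconvexity
-/

open MeasureTheory Matrix Filter
open scoped Matrix.Norms.Frobenius Topology

namespace Pool.Agent.T2H04.HY

set_option linter.unusedSectionVars false

noncomputable section

variable {G : Type} [Group G] [TopologicalSpace G] [IsTopologicalGroup G] [CompactSpace G]
  [MeasurableSpace G] [BorelSpace G] (μ : Measure G) [μ.IsHaarMeasure] [IsProbabilityMeasure μ]
  {m : Type} [Fintype m] [DecidableEq m] (L : RD G m)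

/-- continuous positive class functions -/
structure PC (f : G → ℝ) : Prop where
  cont : Continuous f
  pos : ∀ x, 0 < f x
  cls : ∀ x y, f (y * x * y⁻¹) = f x

/-- Semiconvexity of `log f` along the left cosets of the one parameter subgroups. -/
def SC (f : G → ℝ) (κ : ℝ) : Prop :=
  ∀ X ∈ lieSet L, ∀ y yp ym : G, L.rho yp = NormedSpace.exp X * L.rho y →
    L.rho ym = NormedSpace.exp (-X) * L.rho y →
    -(κ * ‖X‖ ^ 2) ≤ Real.log (f yp) + Real.log (f ym) - 2 * Real.log (f y)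

/-! ### Preliminaries -/

theorem fw_int_cont {f : G → ℝ} (hf : Continuous f) : Integrable f μ :=
  hf.integrable_of_hasCompactSupport (HasCompactSupport.of_compactSpace f)

theorem fw_int_left (f : G → ℝ) (g : G) : ∫ y, f (g * y) ∂μ = ∫ y, f y ∂μ :=
  integral_mul_left_eq_self f g

theorem fw_int_right (f : G → ℝ) (g : G) : ∫ y, f (y * g) ∂μ = ∫ y, f y ∂μ := by
  have : μ.IsMulRightInvariant := by
    refine ⟨fun h => ?_⟩
    have : IsProbabilityMeasure (μ.map (· * h)) :=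
      Measure.isProbabilityMeasure_map (by fun_prop)
    exact Measure.isHaarMeasure_eq_of_isProbabilityMeasure _ _
  exact integral_mul_right_eq_self f g

theorem fw_int_pos {f : G → ℝ} (hf : Continuous f) (hp : ∀ x, 0 < f x) : 0 < ∫ y, f y ∂μ :=
  hf.integral_pos_of_hasCompactSupport_nonneg_nonzero (HasCompactSupport.of_compactSpace f)
    (fun x => (hp x).le) (x := 1) (hp 1).ne'

include L in
theorem fw_metr : TopologicalSpace.MetrizableSpace G := by
  have : TopologicalSpace.MetrizableSpace (Mt m) :=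
    inferInstanceAs (TopologicalSpace.MetrizableSpace (m → m → ℂ))
  exact (L.cont.isClosedEmbedding L.inj).isEmbedding.metrizableSpace

include L in
theorem fw_cnv_cont {f g : G → ℝ} (hf : Continuous f) (hg : Continuous g) :
    Continuous (cnv μ f g) := by
  have := fw_metr L
  have h := continuous_parametric_integral_of_continuous (μ := μ)
    (f := fun x y => f y * g (y⁻¹ * x)) (by fun_prop) isCompact_univ
  rw [Measure.restrict_univ] at h
  exact h

include L in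
theorem PC.cnv {f g : G → ℝ} (hf : PC f) (hg : PC g) : PC (cnv μ f g) where
  cont := fw_cnv_cont μ L hf.cont hg.cont
  pos := fun x => by
    have hc := hf.cont
    have hc' := hg.cont
    exact fw_int_pos μ (f := fun y => f y * g (y⁻¹ * x)) (by fun_prop)
      (fun y => mul_pos (hf.pos _) (hg.pos _))
  cls := fun x z => by
    unfold HY.cnv
    rw [← fw_int_left μ (fun y => f y * g (y⁻¹ * (z * x * z⁻¹))) z,
      ← fw_int_right μ (fun y => f y * g (y⁻¹ * x)) z]
    congr 1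
    funext y
    have h1 : f (z * y) = f (y * z) := by
      have := hf.cls (y * z) z
      rw [← this]; congr 1; group
    have h2 : g ((z * y)⁻¹ * (z * x * z⁻¹)) = g ((y * z)⁻¹ * x) := by
      have := hg.cls ((y * z)⁻¹ * x) z
      rw [← this]; congr 1; group
    rw [h1, h2]

include L in
theorem PC.cnv4 {f : G → ℝ} (hf : PC f) : PC (cnv4 μ f) :=
  (hf.cnv μ L hf).cnv μ L (hf.cnv μ L hf)

theorem PC.pow_div {f : G → ℝ} (hf : PC f) {c : ℝ} (hc : 0 < c) :
    PC (fun x => (f x) ^ 4 / c) where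
  cont := (hf.cont.pow 4).div_const c
  pos := fun x => div_pos (pow_pos (hf.pos x) 4) hc
  cls := fun x y => by rw [hf.cls]

include L in
theorem PC.mkk {f : G → ℝ} (hf : PC f) : PC (HY.mk μ f) :=
  (hf.cnv4 μ L).pow_div (fw_int_pos μ ((hf.cnv4 μ L).cont.pow 4)
    (fun x => pow_pos ((hf.cnv4 μ L).pos x) 4))

include L in
theorem fw_int_mk {f : G → ℝ} (hf : PC f) : ∫ x, mk μ f x ∂μ = 1 := by
  unfold HY.mk
  rw [integral_div]
  exact div_self (fw_int_pos μ ((hf.cnv4 μ L).cont.pow 4)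
    (fun x => pow_pos ((hf.cnv4 μ L).pos x) 4)).ne'

theorem fw_rho_inv {h : G} {Z : Mt m} (hh : L.rho h = NormedSpace.exp Z) :
    L.rho h⁻¹ = NormedSpace.exp (-Z) := by
  have h5 : L.rho h⁻¹ = L.rho h⁻¹ * (NormedSpace.exp Z * NormedSpace.exp (-Z)) := by
    rw [exp_mul_exp_neg, mul_one]
  rw [h5, ← mul_assoc, ← hh, rho_inv_mul, one_mul]

/-- half step -/
theorem fw_half {X : Mt m} (hX : X ∈ lieSet L) :
    ∃ h : G, L.rho h = NormedSpace.exp ((1 / 2 : ℝ) • X) ∧ L.rho (h * h) = NormedSpace.exp X ∧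
      L.rho (h⁻¹ * h⁻¹) = NormedSpace.exp (-X) := by
  obtain ⟨h, hh⟩ := lie_exp L (lie_smul L (1 / 2) hX)
  have h2 : L.rho (h * h) = NormedSpace.exp X := by
    rw [map_mul, hh, ← pow_two, exp_nat_mul]
    congr 1
    norm_num
  refine ⟨h, hh, h2, ?_⟩
  have := fw_rho_inv L h2
  rwa [_root_.mul_inv_rev] at this

/-- Jensen's inequality -/
theorem fw_jensen {a c : G → ℝ} (ha : Continuous a) (hc : Continuous c) (ha0 : ∀ y, 0 < a y)
    (hc0 : ∀ y, 0 < c y) :
    (∫ y, c y * (Real.log (a y) - Real.log (c y)) ∂μ) ≤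
      (∫ y, c y ∂μ) * (Real.log (∫ y, a y ∂μ) - Real.log (∫ y, c y ∂μ)) := by
  set A := ∫ y, a y ∂μ with hA
  set C := ∫ y, c y ∂μ with hC
  have hA0 : 0 < A := fw_int_pos μ ha ha0
  have hC0 : 0 < C := fw_int_pos μ hc hc0
  have hla : Continuous fun y => Real.log (a y) := ha.log fun y => (ha0 y).ne'
  have hlc : Continuous fun y => Real.log (c y) := hc.log fun y => (hc0 y).ne'
  have key : ∀ y, c y * (Real.log (a y) - Real.log (c y)) ≤
      c y * (Real.log A - Real.log C) + (a y * (C / A) - c y) := by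
    intro y
    have h1 : Real.log (a y * C / (c y * A)) ≤ a y * C / (c y * A) - 1 :=
      Real.log_le_sub_one_of_pos (div_pos (mul_pos (ha0 y) hC0) (mul_pos (hc0 y) hA0))
    rw [Real.log_div (mul_pos (ha0 y) hC0).ne' (mul_pos (hc0 y) hA0).ne',
      Real.log_mul (ha0 y).ne' hC0.ne', Real.log_mul (hc0 y).ne' hA0.ne'] at h1
    have h2 := mul_le_mul_of_nonneg_left h1 (hc0 y).le
    have h3 : c y * (a y * C / (c y * A) - 1) = a y * (C / A) - c y := by
      have := (hc0 y).ne'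
      field_simp
    rw [h3] at h2
    linarith
  have h4 := integral_mono (μ := μ) (fw_int_cont μ (by fun_prop)) (fw_int_cont μ (by fun_prop)) key
  have h5 : ∫ y, (c y * (Real.log A - Real.log C) + (a y * (C / A) - c y)) ∂μ =
      C * (Real.log A - Real.log C) := by
    rw [integral_add (fw_int_cont μ (by fun_prop)) (fw_int_cont μ (by fun_prop)),
      integral_sub (fw_int_cont μ (by fun_prop)) (fw_int_cont μ (by fun_prop)),
      integral_mul_const, integral_mul_const, ← hA, ← hC]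
    field_simp
    ring
  rw [h5] at h4
  exact h4

/-- Semiconvexity of a convolution, with the gain. -/
theorem fw_sc_cnv {f g : G → ℝ} (hf : PC f) (hg : PC g) {κf κg Ωf Ωg : ℝ}
    (hsf : SC L f κf) (hsg : SC L g κg)
    (hΩf : ∀ x y, Real.log (f x) - Real.log (f y) ≤ Ωf)
    (hΩg : ∀ x y, Real.log (g x) - Real.log (g y) ≤ Ωg) :
    SC L (cnv μ f g) ((κf + κg) / 4 * (1 - Real.exp (-(Ωf + Ωg)))) := by
  intro X hX x xp xm hp hm
  obtain ⟨h, hh, h2, h3⟩ := fw_half L hX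
  have exp' : xp = h * h * x := L.inj (by rw [hp, map_mul, h2])
  have exm' : xm = h⁻¹ * h⁻¹ * x := L.inj (by rw [hm, map_mul, h3])
  subst exp' exm'
  have cf := hf.cont
  have cg := hg.cont
  obtain ⟨φ, hφ⟩ : ∃ φ : G → ℝ, ∀ y, Real.log (f y) = φ y := ⟨_, fun _ => rfl⟩
  obtain ⟨ψ, hψ⟩ : ∃ ψ : G → ℝ, ∀ y, Real.log (g y) = ψ y := ⟨_, fun _ => rfl⟩
  have lf : Continuous φ := by
    have : φ = fun y => Real.log (f y) := funext fun y => (hφ y).symm
    rw [this]; exact cf.log fun y => (hf.pos y).ne'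
  have lg : Continuous ψ := by
    have : ψ = fun y => Real.log (g y) := funext fun y => (hψ y).symm
    rw [this]; exact cg.log fun y => (hg.pos y).ne'
  set a : G → ℝ := fun y => f (h * y) * g (y⁻¹ * (h * x)) with ha
  set b : G → ℝ := fun y => f (h⁻¹ * y) * g (y⁻¹ * (h⁻¹ * x)) with hb
  set c : G → ℝ := fun y => f y * g (y⁻¹ * x) with hc
  have eA : cnv μ f g (h * h * x) = ∫ y, a y ∂μ := by
    unfold cnv
    rw [← fw_int_left μ (fun y => f y * g (y⁻¹ * (h * h * x))) h]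
    congr 1
    funext y
    simp only [ha]
    congr 2
    group
  have eB : cnv μ f g (h⁻¹ * h⁻¹ * x) = ∫ y, b y ∂μ := by
    unfold cnv
    rw [← fw_int_left μ (fun y => f y * g (y⁻¹ * (h⁻¹ * h⁻¹ * x))) h⁻¹]
    congr 1
    funext y
    simp only [hb]
    congr 2
    group
  have eC : cnv μ f g x = ∫ y, c y ∂μ := rfl
  have ca : Continuous a := by simp only [ha]; fun_prop
  have cb : Continuous b := by simp only [hb]; fun_prop
  have cc : Continuous c := by simp only [hc]; fun_prop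
  have pa : ∀ y, 0 < a y := fun y => mul_pos (hf.pos _) (hg.pos _)
  have pb : ∀ y, 0 < b y := fun y => mul_pos (hf.pos _) (hg.pos _)
  have pc : ∀ y, 0 < c y := fun y => mul_pos (hf.pos _) (hg.pos _)
  set C := ∫ y, c y ∂μ with hC
  have hC0 : 0 < C := fw_int_pos μ cc pc
  -- the second differences
  set D1 : G → ℝ := fun y => φ (h * y) + φ (h⁻¹ * y) - 2 * φ y with hD1
  set D2 : G → ℝ := fun y => ψ (y⁻¹ * (h * x)) + ψ (y⁻¹ * (h⁻¹ * x)) - 2 * ψ (y⁻¹ * x) with hD2
  have cD1 : Continuous D1 := by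
    simp only [hD1]
    fun_prop
  have cD2 : Continuous D2 := by
    simp only [hD2]
    fun_prop
  have hX2 : ‖(1 / 2 : ℝ) • X‖ ^ 2 = ‖X‖ ^ 2 / 4 := by
    rw [norm_smul, mul_pow]; norm_num; ring
  have bD1 : ∀ y, -(κf * (‖X‖ ^ 2 / 4)) ≤ D1 y := by
    intro y
    have := hsf _ (lie_smul L (1 / 2) hX) y (h * y) (h⁻¹ * y) (by rw [map_mul, hh])
      (by rw [map_mul, fw_rho_inv L hh])
    rwa [hX2, hφ, hφ, hφ] at this
  have bD2 : ∀ y, -(κg * (‖X‖ ^ 2 / 4)) ≤ D2 y := by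
    intro y
    have := hsg _ (lie_smul L (1 / 2) hX) (x * y⁻¹) (h * (x * y⁻¹)) (h⁻¹ * (x * y⁻¹))
      (by rw [map_mul, hh]) (by rw [map_mul, fw_rho_inv L hh])
    rw [hX2] at this
    have e1 : g (h * (x * y⁻¹)) = g (y⁻¹ * (h * x)) := by
      rw [← hg.cls (y⁻¹ * (h * x)) y]; congr 1; group
    have e2 : g (h⁻¹ * (x * y⁻¹)) = g (y⁻¹ * (h⁻¹ * x)) := by
      rw [← hg.cls (y⁻¹ * (h⁻¹ * x)) y]; congr 1; group
    have e3 : g (x * y⁻¹) = g (y⁻¹ * x) := by
      rw [← hg.cls (y⁻¹ * x) y]; congr 1; group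
    rw [e1, e2, e3, hψ, hψ, hψ] at this
    exact this
  have iD1 : ∫ y, D1 y ∂μ = 0 := by
    have e1 := fw_int_left μ φ h
    have e2 := fw_int_left μ φ h⁻¹
    simp only [hD1]
    rw [integral_sub (fw_int_cont μ (by fun_prop)) (fw_int_cont μ (by fun_prop)),
      integral_add (fw_int_cont μ (by fun_prop)) (fw_int_cont μ (by fun_prop)),
      integral_const_mul, e1, e2]
    ring
  have iD2 : ∫ y, D2 y ∂μ = 0 := by
    have e1 : ∫ y, ψ (y⁻¹ * (h * x)) ∂μ = ∫ y, ψ (y⁻¹ * x) ∂μ := by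
      rw [← fw_int_left μ (fun y => ψ (y⁻¹ * (h * x))) h]
      congr 1; funext y; congr 1; group
    have e2 : ∫ y, ψ (y⁻¹ * (h⁻¹ * x)) ∂μ = ∫ y, ψ (y⁻¹ * x) ∂μ := by
      rw [← fw_int_left μ (fun y => ψ (y⁻¹ * (h⁻¹ * x))) h⁻¹]
      congr 1; funext y; congr 1; group
    simp only [hD2]
    rw [integral_sub (fw_int_cont μ (by fun_prop)) (fw_int_cont μ (by fun_prop)),
      integral_add (fw_int_cont μ (by fun_prop)) (fw_int_cont μ (by fun_prop)),
      integral_const_mul, e1, e2]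
    ring
  -- Jensen twice
  have j1 := fw_jensen μ ca cc pa pc
  have j2 := fw_jensen μ cb cc pb pc
  have la : Continuous fun y => Real.log (a y) := ca.log fun y => (pa y).ne'
  have lb : Continuous fun y => Real.log (b y) := cb.log fun y => (pb y).ne'
  have lc : Continuous fun y => Real.log (c y) := cc.log fun y => (pc y).ne'
  have esum : (∫ y, c y * (Real.log (a y) - Real.log (c y)) ∂μ) +
      (∫ y, c y * (Real.log (b y) - Real.log (c y)) ∂μ) = ∫ y, c y * (D1 y + D2 y) ∂μ := by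
    rw [← integral_add (fw_int_cont μ (by fun_prop)) (fw_int_cont μ (by fun_prop))]
    congr 1
    funext y
    have e1 : Real.log (a y) = Real.log (f (h * y)) + Real.log (g (y⁻¹ * (h * x))) :=
      Real.log_mul (hf.pos _).ne' (hg.pos _).ne'
    have e2 : Real.log (b y) = Real.log (f (h⁻¹ * y)) + Real.log (g (y⁻¹ * (h⁻¹ * x))) :=
      Real.log_mul (hf.pos _).ne' (hg.pos _).ne'
    have e3 : Real.log (c y) = Real.log (f y) + Real.log (g (y⁻¹ * x)) :=
      Real.log_mul (hf.pos _).ne' (hg.pos _).ne'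
    rw [e1, e2, e3]
    simp only [hD1, hD2, hφ, hψ]
    ring
  -- lower bound for the density
  set E := Real.exp (-(Ωf + Ωg)) with hE
  have hcl : ∀ y, C * E ≤ c y := by
    intro y
    have h5 : ∀ y', c y' ≤ Real.exp (Ωf + Ωg) * c y := by
      intro y'
      have h6 : Real.log (c y') ≤ (Ωf + Ωg) + Real.log (c y) := by
        have e3 : ∀ y, Real.log (c y) = Real.log (f y) + Real.log (g (y⁻¹ * x)) := fun y =>
          Real.log_mul (hf.pos _).ne' (hg.pos _).ne'
        rw [e3, e3]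
        have := hΩf y' y
        have := hΩg (y'⁻¹ * x) (y⁻¹ * x)
        linarith
      calc c y' = Real.exp (Real.log (c y')) := (Real.exp_log (pc y')).symm
        _ ≤ Real.exp ((Ωf + Ωg) + Real.log (c y)) := Real.exp_le_exp.2 h6
        _ = _ := by rw [Real.exp_add, Real.exp_log (pc y)]
    have h6 := integral_mono (μ := μ) (fw_int_cont μ cc) (fw_int_cont μ continuous_const) h5
    rw [integral_const, probReal_univ, one_smul] at h6
    have h7 := mul_le_mul_of_nonneg_right h6 (Real.exp_pos (-(Ωf + Ωg))).le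
    refine h7.trans (le_of_eq ?_)
    rw [mul_right_comm, ← Real.exp_add]
    simp
  set K := (κf + κg) * (‖X‖ ^ 2 / 4) with hK
  have hK1 : ∀ y, 0 ≤ D1 y + D2 y + K := by
    intro y
    have := bD1 y
    have := bD2 y
    rw [hK]
    linarith
  have hmain : C * E * K ≤ (∫ y, c y * (D1 y + D2 y) ∂μ) + C * K := by
    have h8 : ∀ y, C * E * (D1 y + D2 y + K) ≤ c y * (D1 y + D2 y) + c y * K := by
      intro y
      have := mul_le_mul_of_nonneg_right (hcl y) (hK1 y)
      linarith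
    have h9 := integral_mono (μ := μ) (fw_int_cont μ (by fun_prop)) (fw_int_cont μ (by fun_prop)) h8
    rw [integral_const_mul, integral_add (fw_int_cont μ (by fun_prop)) (fw_int_cont μ (by fun_prop)),
      integral_add (fw_int_cont μ cD1) (fw_int_cont μ cD2), iD1, iD2, integral_const,
      probReal_univ, one_smul, zero_add, zero_add,
      integral_add (fw_int_cont μ (by fun_prop)) (fw_int_cont μ (by fun_prop)),
      integral_mul_const] at h9
    exact h9
  rw [eA, eB, eC]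
  have h10 : C * -(K * (1 - E)) ≤ C * (Real.log (∫ y, a y ∂μ) + Real.log (∫ y, b y ∂μ) -
      2 * Real.log C) := by
    rw [← hC] at j1 j2
    have : C * -(K * (1 - E)) = C * E * K - C * K := by ring
    rw [this]
    linarith
  have h11 := le_of_mul_le_mul_left h10 hC0
  refine le_trans (le_of_eq ?_) h11
  rw [hK]
  ring

theorem fw_sc_pow {f : G → ℝ} (hf : PC f) {κ c : ℝ} (hc : 0 < c) (h : SC L f κ) :
    SC L (fun x => (f x) ^ 4 / c) (4 * κ) := by
  intro X hX y yp ym hp hm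
  have h1 := h X hX y yp ym hp hm
  have h2 : ∀ x, Real.log ((f x) ^ 4 / c) = 4 * Real.log (f x) - Real.log c := by
    intro x
    rw [Real.log_div (pow_pos (hf.pos x) 4).ne' hc.ne', Real.log_pow]
    norm_num
  simp only [h2]
  linarith

theorem SC.mono {f : G → ℝ} {κ κ' : ℝ} (h : SC L f κ) (hk : κ ≤ κ') : SC L f κ' := by
  intro X hX y yp ym hp hm
  have h1 := h X hX y yp ym hp hm
  have : κ * ‖X‖ ^ 2 ≤ κ' * ‖X‖ ^ 2 := mul_le_mul_of_nonneg_right hk (sq_nonneg _)
  linarith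

/-! ### The Wilson action -/

theorem fw_norm_mul_unitary (A : Mt m) {U : Mt m} (hU : U * Uᴴ = 1) : ‖A * U‖ = ‖A‖ := by
  have h : ‖A * U‖ ^ 2 = ‖A‖ ^ 2 := by
    rw [norm_sq_eq, norm_sq_eq, conjTranspose_mul, mul_assoc, trace_mul_comm, mul_assoc, mul_assoc,
      hU, mul_one]
  have := norm_nonneg (A * U)
  have := norm_nonneg A
  nlinarith

theorem fw_norm_unitary_mul (A : Mt m) {U : Mt m} (hU : U * Uᴴ = 1) : ‖U * A‖ = ‖A‖ := by
  have hU' : Uᴴ * U = 1 := mul_eq_one_comm.1 hU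
  have h : ‖U * A‖ ^ 2 = ‖A‖ ^ 2 := by
    rw [norm_sq_eq, norm_sq_eq, conjTranspose_mul, mul_assoc, ← mul_assoc Uᴴ U A, hU', one_mul]
  have := norm_nonneg (U * A)
  have := norm_nonneg A
  nlinarith

theorem fw_exp_sub_one {X : Mt m} (hX : Xᴴ = -X) : ‖NormedSpace.exp X - 1‖ ≤ ‖X‖ := by
  have h := norm_image_sub_le_of_norm_deriv_le_segment_01' (f := fun s : ℝ =>
    NormedSpace.exp (s • X)) (f' := fun s => NormedSpace.exp (s • X) * X) (C := ‖X‖)
    (fun s _ => (hasDerivAt_exp X s).hasDerivWithinAt)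
    (fun s _ => (fw_norm_unitary_mul X (exp_unitary (smul_skew hX s))).le)
  simpa using h

theorem fw_cs (A B : Mt m) : 2 * (trace (Aᴴ * B)).re ≤ ‖A‖ ^ 2 + ‖B‖ ^ 2 := by
  have h := sq_nonneg ‖A - B‖
  rw [norm_sq_eq] at h
  have e : (A - B)ᴴ * (A - B) = Aᴴ * A - Aᴴ * B - (Bᴴ * A) + Bᴴ * B := by
    rw [conjTranspose_sub]; noncomm_ring
  have e2 : (trace (Bᴴ * A)).re = (trace (Aᴴ * B)).re := by
    have : Bᴴ * A = (Aᴴ * B)ᴴ := by rw [conjTranspose_mul, conjTranspose_conjTranspose]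
    rw [this, trace_conjTranspose, Complex.star_def, Complex.conj_re]
  rw [e, trace_add, trace_sub, trace_sub, Complex.add_re, Complex.sub_re, Complex.sub_re, e2,
    ← norm_sq_eq, ← norm_sq_eq] at h
  linarith

/-- The Wilson action is semiconvex. -/
theorem sc_wilson (β : ℝ) (hβ : 0 ≤ β) :
    SC L (fun y => Real.exp (β * (trace (L.rho y)).re)) β := by
  intro X hX y yp ym hp hm
  simp only [Real.log_exp]
  rw [hp, hm]
  set U := L.rho y with hU
  have hUu : U * Uᴴ = 1 := L.unit y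
  set E := NormedSpace.exp X with hE
  have hXs : Xᴴ = -X := lie_skew L hX
  have hEm : NormedSpace.exp (-X) = Eᴴ := by rw [hE, ← Matrix.exp_conjTranspose, hXs]
  have hEu : Eᴴ * E = 1 := mul_eq_one_comm.1 (exp_unitary hXs)
  set W : Mt m := E - 1 with hW
  have hWn : ‖W‖ ≤ ‖X‖ := fw_exp_sub_one hXs
  have e1 : Wᴴ * (W * U) = (2 : ℂ) • U - E * U - Eᴴ * U := by
    rw [hW, conjTranspose_sub, conjTranspose_one]
    have : (Eᴴ - 1) * ((E - 1) * U) = (Eᴴ * E) * U - E * U - Eᴴ * U + U := by noncomm_ring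
    rw [this, hEu, one_mul, two_smul]
    abel
  have h1 := fw_cs W (W * U)
  rw [fw_norm_mul_unitary W hUu, e1] at h1
  simp only [trace_sub, trace_smul, Complex.sub_re, smul_eq_mul, Complex.mul_re, Complex.re_ofNat,
    Complex.im_ofNat, zero_mul, sub_zero] at h1
  rw [hEm]
  have h2 : ‖W‖ ^ 2 ≤ ‖X‖ ^ 2 := pow_le_pow_left₀ (norm_nonneg _) hWn 2
  have h3 : -(‖X‖ ^ 2) ≤ (trace (E * U)).re + (trace (Eᴴ * U)).re - 2 * (trace U).re := by
    linarith
  have h4 := mul_le_mul_of_nonneg_left h3 hβ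
  linarith

/-! ### Oscillation -/

/-- The oscillation of the logarithm is controlled by the semiconvexity constant. -/
theorem osc_le (hconn : IsConnected (Set.univ : Set G)) : ∃ c0 : ℝ, 0 < c0 ∧
    ∀ (f : G → ℝ) (κ : ℝ), PC f → 0 ≤ κ → SC L f κ →
      ∀ x y, |Real.log (f x) - Real.log (f y)| ≤ c0 * κ := by
  obtain ⟨n, hn⟩ := gen L hconn 1 one_pos
  refine ⟨2 ^ n, by positivity, fun f κ hf hκ hs => ?_⟩
  obtain ⟨y0, -, hy0⟩ := isCompact_univ.exists_isMaxOn ⟨(1 : G), trivial⟩ hf.cont.continuousOn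
  have hmax : ∀ x, Real.log (f x) ≤ Real.log (f y0) := fun x =>
    Real.log_le_log (hf.pos x) (hy0 (Set.mem_univ x))
  have hlow : ∀ x, Real.log (f y0) - Real.log (f x) ≤ (2 ^ n - 1) * κ := by
    intro x
    obtain ⟨p, hp0, hpn, hstep⟩ := hn y0 x
    have hind : ∀ i, Real.log (f y0) - Real.log (f (p i)) ≤ (2 ^ i - 1) * κ := by
      intro i
      induction i with
      | zero => rw [hp0]; simp
      | succ i ih =>
        obtain ⟨X, hX, hXn, hp⟩ := hstep i
        obtain ⟨g, hg⟩ := lie_exp L hX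
        have h1 := hs X hX (p i) (p (i + 1)) (g⁻¹ * p i) hp (by rw [map_mul, fw_rho_inv L hg])
        have h2 := hmax (g⁻¹ * p i)
        have h3 : κ * ‖X‖ ^ 2 ≤ κ * 1 :=
          mul_le_mul_of_nonneg_left (pow_le_one₀ (norm_nonneg _) hXn) hκ
        rw [pow_succ]
        linarith
    have := hind n
    rwa [hpn] at this
  intro x y
  rw [abs_le]
  have h1 := hmax x
  have h2 := hmax y
  have h3 := hlow x
  have h4 := hlow y
  constructor <;> linarith

/-! ### The flow -/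

/-- the map of the semiconvexity constants -/
def fwG (c0 κ : ℝ) : ℝ := κ * (1 - Real.exp (-(2 * c0 * κ))) *
  (1 - Real.exp (-(2 * c0 * (κ / 2 * (1 - Real.exp (-(2 * c0 * κ)))))))

theorem fw_om {t : ℝ} (ht : 0 ≤ t) : 0 ≤ 1 - Real.exp (-t) := by
  have : Real.exp (-t) ≤ 1 := Real.exp_le_one_iff.2 (by linarith)
  linarith

theorem fw_om1 (t : ℝ) : 1 - Real.exp (-t) ≤ 1 := by
  have := Real.exp_pos (-t)
  linarith

theorem fw_om2 (t : ℝ) : 1 - Real.exp (-t) ≤ t := by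
  have := Real.add_one_le_exp (-t)
  linarith

theorem fwG_nonneg {c0 κ : ℝ} (hc : 0 ≤ c0) (hκ : 0 ≤ κ) : 0 ≤ fwG c0 κ := by
  unfold fwG
  have h1 : 0 ≤ 1 - Real.exp (-(2 * c0 * κ)) := fw_om (by positivity)
  exact mul_nonneg (mul_nonneg hκ h1) (fw_om (by positivity))

theorem fwG_le {c0 κ κ0 : ℝ} (hc : 0 ≤ c0) (hκ : 0 ≤ κ) (hk : κ ≤ κ0) :
    fwG c0 κ ≤ κ * (1 - Real.exp (-(2 * c0 * κ0))) := by
  unfold fwG
  have h1 : 0 ≤ 1 - Real.exp (-(2 * c0 * κ)) := fw_om (by positivity)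
  have h2 : 1 - Real.exp (-(2 * c0 * κ)) ≤ 1 - Real.exp (-(2 * c0 * κ0)) := by
    have : Real.exp (-(2 * c0 * κ0)) ≤ Real.exp (-(2 * c0 * κ)) := by
      apply Real.exp_le_exp.2
      have := mul_le_mul_of_nonneg_left hk (by positivity : 0 ≤ 2 * c0)
      linarith
    linarith
  refine (mul_le_of_le_one_right (mul_nonneg hκ h1) (fw_om1 _)).trans ?_
  exact mul_le_mul_of_nonneg_left h2 hκ

theorem fwG_le4 {c0 κ : ℝ} (hc : 0 ≤ c0) (hκ : 0 ≤ κ) :
    fwG c0 κ ≤ 4 * c0 ^ 3 * κ ^ 4 := by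
  unfold fwG
  have h1 : 0 ≤ 1 - Real.exp (-(2 * c0 * κ)) := fw_om (by positivity)
  have h2 : 1 - Real.exp (-(2 * c0 * κ)) ≤ 2 * c0 * κ := fw_om2 _
  have h3 : κ * (1 - Real.exp (-(2 * c0 * κ))) ≤ κ * (2 * c0 * κ) :=
    mul_le_mul_of_nonneg_left h2 hκ
  have h4 : 1 - Real.exp (-(2 * c0 * (κ / 2 * (1 - Real.exp (-(2 * c0 * κ)))))) ≤
      2 * c0 * (κ / 2 * (2 * c0 * κ)) := by
    refine (fw_om2 _).trans ?_
    have : κ / 2 * (1 - Real.exp (-(2 * c0 * κ))) ≤ κ / 2 * (2 * c0 * κ) :=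
      mul_le_mul_of_nonneg_left h2 (by positivity)
    exact mul_le_mul_of_nonneg_left this (by positivity)
  have h5 : 0 ≤ 1 - Real.exp (-(2 * c0 * (κ / 2 * (1 - Real.exp (-(2 * c0 * κ)))))) :=
    fw_om (by positivity)
  refine (mul_le_mul h3 h4 h5 (by positivity)).trans (le_of_eq ?_)
  ring

/-- one step of the flow of the semiconvexity constant -/
theorem fw_step {c0 : ℝ} (hc0 : ∀ (f : G → ℝ) (κ : ℝ), PC f → 0 ≤ κ → SC L f κ →
      ∀ x y, |Real.log (f x) - Real.log (f y)| ≤ c0 * κ) (hc : 0 ≤ c0) {f : G → ℝ} {κ : ℝ}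
    (hf : PC f) (hκ : 0 ≤ κ) (hs : SC L f κ) : SC L (HY.mk μ f) (fwG c0 κ) := by
  have h1 : ∀ x y, Real.log (f x) - Real.log (f y) ≤ c0 * κ := fun x y =>
    (le_abs_self _).trans (hc0 f κ hf hκ hs x y)
  have h2 := fw_sc_cnv μ L hf hf hs hs h1 h1
  set κ2 := κ / 2 * (1 - Real.exp (-(2 * c0 * κ))) with hκ2
  have e2 : (κ + κ) / 4 * (1 - Real.exp (-(c0 * κ + c0 * κ))) = κ2 := by
    rw [hκ2]
    have : c0 * κ + c0 * κ = 2 * c0 * κ := by ring
    rw [this]; ring
  rw [e2] at h2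
  have hκ20 : 0 ≤ κ2 := mul_nonneg (by positivity) (fw_om (by positivity))
  have hf2 := hf.cnv μ L hf
  have h3 : ∀ x y, Real.log (cnv μ f f x) - Real.log (cnv μ f f y) ≤ c0 * κ2 := fun x y =>
    (le_abs_self _).trans (hc0 _ κ2 hf2 hκ20 h2 x y)
  have h4 := fw_sc_cnv μ L hf2 hf2 h2 h2 h3 h3
  have hf4 := hf.cnv4 μ L
  have hI : 0 < ∫ y, (cnv4 μ f y) ^ 4 ∂μ :=
    fw_int_pos μ (hf4.cont.pow 4) (fun x => pow_pos (hf4.pos x) 4)
  have h5 := fw_sc_pow L hf4 hI h4
  have e5 : 4 * ((κ2 + κ2) / 4 * (1 - Real.exp (-(c0 * κ2 + c0 * κ2)))) = fwG c0 κ := by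
    unfold fwG
    rw [← hκ2]
    have : c0 * κ2 + c0 * κ2 = 2 * c0 * κ2 := by ring
    rw [this]
    have : κ * (1 - Real.exp (-(2 * c0 * κ))) = 2 * κ2 := by rw [hκ2]; ring
    rw [this]
    ring
  rw [e5] at h5
  exact h5

/-- quartic recursions -/
theorem fw_quartic (k : ℕ → ℝ) (B a : ℝ) (hk0 : ∀ n, 0 ≤ k n) (hB : ∀ n, k n ≤ B)
    (hlim : Tendsto k atTop (𝓝 0)) (hrec : ∀ n, k (n + 1) ≤ a * k n ^ 4) :
    ∃ C σ : ℝ, 0 < C ∧ 0 < σ ∧ ∀ n, k n ≤ C * Real.exp (-(σ * 4 ^ n)) := by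
  set b := max a 1 with hb
  have hb1 : 1 ≤ b := le_max_right _ _
  have hba : a ≤ b := le_max_left _ _
  have hb0 : 0 < b := by linarith
  have hrec' : ∀ n, b * k (n + 1) ≤ (b * k n) ^ 4 := by
    intro n
    have h1 : k (n + 1) ≤ b * k n ^ 4 :=
      (hrec n).trans (mul_le_mul_of_nonneg_right hba (pow_nonneg (hk0 n) 4))
    have h2 : b * k (n + 1) ≤ b * (b * k n ^ 4) := mul_le_mul_of_nonneg_left h1 hb0.le
    have h3 : b ^ 2 ≤ b ^ 4 := pow_le_pow_right₀ hb1 (by norm_num)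
    have h4 := mul_le_mul_of_nonneg_right h3 (pow_nonneg (hk0 n) 4)
    rw [mul_pow]
    nlinarith
  have hlim' : Tendsto (fun n => b * k n) atTop (𝓝 0) := by
    have := hlim.const_mul b
    rwa [mul_zero] at this
  obtain ⟨N, hN⟩ := (hlim'.eventually (gt_mem_nhds (Real.exp_pos (-1)))).exists
  have hind : ∀ j, b * k (N + j) ≤ Real.exp (-(4 : ℝ) ^ j) := by
    intro j
    induction j with
    | zero => simpa using hN.le
    | succ j ih =>
      refine (hrec' (N + j)).trans ?_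
      have h1 : (b * k (N + j)) ^ 4 ≤ (Real.exp (-(4 : ℝ) ^ j)) ^ 4 :=
        pow_le_pow_left₀ (mul_nonneg hb0.le (hk0 _)) ih 4
      refine h1.trans (le_of_eq ?_)
      rw [← Real.exp_nat_mul]
      congr 1
      push_cast
      ring
  have hB0 : 0 ≤ B := (hk0 0).trans (hB 0)
  refine ⟨B * Real.exp 1 + 1, ((4 : ℝ) ^ N)⁻¹, by positivity, by positivity, fun n => ?_⟩
  rcases le_or_gt N n with h | h
  · obtain ⟨j, rfl⟩ := Nat.exists_eq_add_of_le h
    have h1 : ((4 : ℝ) ^ N)⁻¹ * 4 ^ (N + j) = 4 ^ j := by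
      rw [pow_add]; field_simp
    rw [h1]
    have h2 : k (N + j) ≤ b * k (N + j) := le_mul_of_one_le_left (hk0 _) hb1
    have h3 := hind j
    have h4 : 1 * Real.exp (-(4 : ℝ) ^ j) ≤ (B * Real.exp 1 + 1) * Real.exp (-(4 : ℝ) ^ j) :=
      mul_le_mul_of_nonneg_right (by nlinarith [Real.exp_pos 1]) (Real.exp_pos _).le
    linarith
  · have h1 : ((4 : ℝ) ^ N)⁻¹ * 4 ^ n ≤ 1 := by
      rw [inv_mul_le_iff₀ (by positivity), mul_one]
      exact pow_le_pow_right₀ (by norm_num) h.le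
    have h2 : Real.exp (-1) ≤ Real.exp (-(((4 : ℝ) ^ N)⁻¹ * 4 ^ n)) := Real.exp_le_exp.2 (by linarith)
    have h3 : B = B * Real.exp 1 * Real.exp (-1) := by
      rw [mul_assoc, ← Real.exp_add]; simp
    have h4 := hB n
    have h5 : B * Real.exp 1 * Real.exp (-1) ≤
        B * Real.exp 1 * Real.exp (-(((4 : ℝ) ^ N)⁻¹ * 4 ^ n)) :=
      mul_le_mul_of_nonneg_left h2 (by positivity)
    have h6 := Real.exp_pos (-(((4 : ℝ) ^ N)⁻¹ * 4 ^ n))
    linarith

/-- the sequence of semiconvexity constants -/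
def fwK (c0 κ : ℝ) : ℕ → ℝ
  | 0 => max κ 0
  | n + 1 => fwG c0 (fwK c0 κ n)

theorem fwK_nonneg {c0 κ : ℝ} (hc : 0 ≤ c0) (n : ℕ) : 0 ≤ fwK c0 κ n := by
  induction n with
  | zero => exact le_max_right _ _
  | succ n ih => exact fwG_nonneg hc ih

theorem fwK_le {c0 κ : ℝ} (hc : 0 ≤ c0) (n : ℕ) :
    fwK c0 κ n ≤ max κ 0 * (1 - Real.exp (-(2 * c0 * max κ 0))) ^ n := by
  have h0 : 0 ≤ max κ 0 := le_max_right _ _
  have hq : 0 ≤ 1 - Real.exp (-(2 * c0 * max κ 0)) := fw_om (by positivity)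
  have hq1 : 1 - Real.exp (-(2 * c0 * max κ 0)) ≤ 1 := fw_om1 _
  induction n with
  | zero => simp [fwK]
  | succ n ih =>
    have h1 : fwK c0 κ n ≤ max κ 0 := ih.trans (mul_le_of_le_one_right h0 (pow_le_one₀ hq hq1))
    refine (fwG_le hc (fwK_nonneg hc n) h1).trans ?_
    rw [pow_succ, ← mul_assoc]
    exact mul_le_mul_of_nonneg_right ih hq

theorem fwK_le0 {c0 κ : ℝ} (hc : 0 ≤ c0) (n : ℕ) : fwK c0 κ n ≤ max κ 0 :=
  (fwK_le hc n).trans (mul_le_of_le_one_right (le_max_right _ _)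
    (pow_le_one₀ (fw_om (mul_nonneg (by positivity) (le_max_right _ _))) (fw_om1 _)))

theorem fwK_lim {c0 κ : ℝ} (hc : 0 ≤ c0) : Tendsto (fwK c0 κ) atTop (𝓝 0) := by
  have h0 : 0 ≤ max κ 0 := le_max_right _ _
  have hq : 0 ≤ 1 - Real.exp (-(2 * c0 * max κ 0)) := fw_om (by positivity)
  have hq1 : 1 - Real.exp (-(2 * c0 * max κ 0)) < 1 := by
    have := Real.exp_pos (-(2 * c0 * max κ 0))
    linarith
  refine squeeze_zero (fun n => fwK_nonneg hc n) (fun n => fwK_le hc n) ?_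
  have := (tendsto_pow_atTop_nhds_zero_of_lt_one hq hq1).const_mul (max κ 0)
  rwa [mul_zero] at this

/-- The renormalisation group flow of a semiconvex function goes to the strong coupling fixed point
`1`, double exponentially fast. -/
theorem fwd (hconn : IsConnected (Set.univ : Set G)) (f : G → ℝ) (hf : PC f) (κ : ℝ)
    (hκ : SC L f κ) : ∃ C σ : ℝ, 0 < C ∧ 0 < σ ∧
      ∀ n : ℕ, 1 ≤ n → ∀ x, |(mk μ)^[n] f x - 1| ≤ C * Real.exp (-(σ * 4 ^ n)) := by
  obtain ⟨c0, hc0, hosc⟩ := osc_le L hconn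
  have hiter : ∀ n, PC ((mk μ)^[n] f) ∧ SC L ((mk μ)^[n] f) (fwK c0 κ n) := by
    intro n
    induction n with
    | zero => exact ⟨hf, hκ.mono L (le_max_left _ _)⟩
    | succ n ih =>
      rw [Function.iterate_succ_apply']
      exact ⟨ih.1.mkk μ L, fw_step μ L hosc hc0.le ih.1 (fwK_nonneg hc0.le n) ih.2⟩
  obtain ⟨C, σ, hC, hσ, hk⟩ := fw_quartic (fwK c0 κ) (max κ 0) (4 * c0 ^ 3)
    (fun n => fwK_nonneg hc0.le n) (fun n => fwK_le0 hc0.le n) (fwK_lim hc0.le)
    (fun n => fwG_le4 hc0.le (fwK_nonneg hc0.le n))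
  refine ⟨c0 * Real.exp (c0 * max κ 0) * C, σ, by positivity, hσ, fun n hn x => ?_⟩
  obtain ⟨j, rfl⟩ : ∃ j, n = j + 1 := ⟨n - 1, by omega⟩
  obtain ⟨hpc, hsc⟩ := hiter (j + 1)
  have hint : ∫ y, (mk μ)^[j + 1] f y ∂μ = 1 := by
    rw [Function.iterate_succ_apply']
    exact fw_int_mk μ L (hiter j).1
  set F := (mk μ)^[j + 1] f with hF
  set t := c0 * fwK c0 κ (j + 1) with ht
  have ht0 : 0 ≤ t := mul_nonneg hc0.le (fwK_nonneg hc0.le _)
  have hosc' := hosc F _ hpc (fwK_nonneg hc0.le _) hsc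
  have hle : ∀ y z, F y ≤ Real.exp t * F z := by
    intro y z
    have h1 := (abs_le.1 (hosc' y z)).2
    calc F y = Real.exp (Real.log (F y)) := (Real.exp_log (hpc.pos y)).symm
      _ ≤ Real.exp (t + Real.log (F z)) := Real.exp_le_exp.2 (by linarith)
      _ = _ := by rw [Real.exp_add, Real.exp_log (hpc.pos z)]
  have hup : F x ≤ Real.exp t := by
    have h1 := integral_mono (μ := μ) (fw_int_cont μ (continuous_const (y := F x)))
      (fw_int_cont μ (hpc.cont.const_mul (Real.exp t))) (fun z => hle x z)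
    simp only [integral_const_mul] at h1
    rw [integral_const, probReal_univ, one_smul, hint, mul_one] at h1
    exact h1
  have hlo : 1 ≤ Real.exp t * F x := by
    have h1 := integral_mono (μ := μ) (fw_int_cont μ hpc.cont)
      (fw_int_cont μ (continuous_const (y := Real.exp t * F x))) (fun z => hle z x)
    rw [integral_const, probReal_univ, one_smul, hint] at h1
    exact h1
  have h6 : 1 - Real.exp (-t) ≤ t := fw_om2 t
  have h7 : Real.exp t - 1 ≤ t * Real.exp t := by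
    have := mul_le_mul_of_nonneg_right h6 (Real.exp_pos t).le
    have e : Real.exp (-t) * Real.exp t = 1 := by rw [← Real.exp_add]; simp
    rw [sub_mul, e] at this
    linarith
  have h8 : 1 - F x ≤ t := by
    have : Real.exp (-t) ≤ F x := by
      have := mul_le_mul_of_nonneg_left hlo (Real.exp_pos (-t)).le
      rw [← mul_assoc, ← Real.exp_add] at this
      simpa using this
    linarith
  have h9 : t ≤ t * Real.exp t := le_mul_of_one_le_right ht0 (Real.one_le_exp ht0)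
  have h10 : |F x - 1| ≤ t * Real.exp t := by
    rw [abs_le]
    constructor <;> linarith
  refine h10.trans ?_
  have h11 : Real.exp t ≤ Real.exp (c0 * max κ 0) :=
    Real.exp_le_exp.2 (mul_le_mul_of_nonneg_left (fwK_le0 hc0.le _) hc0.le)
  have h12 : t ≤ c0 * (C * Real.exp (-(σ * 4 ^ (j + 1)))) :=
    mul_le_mul_of_nonneg_left (hk _) hc0.le
  have h13 := mul_le_mul h12 h11 (Real.exp_pos _).le (by positivity)
  refine h13.trans (le_of_eq ?_)
  ring

/-! ### One step makes a Lipschitz function semiconvex -/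

/-- One step makes a positive Lipschitz class function semiconvex. -/
theorem sc_mk (f : G → ℝ) (hf : PC f) (Λ : ℝ)
    (hΛ : ∀ x y : G, |f x - f y| ≤ Λ * ‖L.rho x - L.rho y‖) : ∃ κ, SC L (mk μ f) κ := by
  have cf := hf.cont
  -- make the constant nonnegative
  obtain ⟨Λ', hΛ0, hΛ'⟩ : ∃ Λ' : ℝ, 0 ≤ Λ' ∧ ∀ x y : G, |f x - f y| ≤ Λ' * ‖L.rho x - L.rho y‖ :=
    ⟨max Λ 0, le_max_right _ _, fun x y => (hΛ x y).trans
      (mul_le_mul_of_nonneg_right (le_max_left _ _) (norm_nonneg _))⟩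
  -- upper bound
  obtain ⟨yM, -, hyM⟩ := isCompact_univ.exists_isMaxOn ⟨(1 : G), trivial⟩ hf.cont.continuousOn
  set M := f yM with hM
  have hM0 : 0 < M := hf.pos _
  have hfM : ∀ x, f x ≤ M := fun x => hyM (Set.mem_univ x)
  set u := cnv μ f f with hu
  have hup : PC u := hf.cnv μ L hf
  obtain ⟨yc, -, hyc⟩ := isCompact_univ.exists_isMinOn ⟨(1 : G), trivial⟩ hup.cont.continuousOn
  set c := u yc with hc
  have hc0 : 0 < c := hup.pos _
  have huc : ∀ x, c ≤ u x := fun x => hyc (Set.mem_univ x)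
  have huM : ∀ x, u x ≤ M ^ 2 := by
    intro x
    have h1 := integral_mono (μ := μ) (f := fun y => f y * f (y⁻¹ * x)) (g := fun _ => M ^ 2)
      (fw_int_cont μ (by fun_prop)) (fw_int_cont μ continuous_const) (fun y => by
        have := mul_le_mul (hfM y) (hfM (y⁻¹ * x)) (hf.pos _).le hM0.le
        simpa [pow_two] using this)
    rw [integral_const, probReal_univ, one_smul] at h1
    exact h1
  have hsu : SC L u (2 * M ^ 2 * Λ' ^ 2 / c ^ 2) := by
    intro X hX x xp xm hp hm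
    obtain ⟨h, hh, h2, h3⟩ := fw_half L hX
    have exp' : xp = h * h * x := L.inj (by rw [hp, map_mul, h2])
    have exm' : xm = h⁻¹ * h⁻¹ * x := L.inj (by rw [hm, map_mul, h3])
    subst exp' exm'
    have hXs : Xᴴ = -X := lie_skew L hX
    have hX2s : ((1 / 2 : ℝ) • X)ᴴ = -((1 / 2 : ℝ) • X) := smul_skew hXs _
    -- Lipschitz bounds
    have hl : ∀ (g g' : G) (Z : Mt m), Zᴴ = -Z → L.rho g = NormedSpace.exp Z →
        L.rho g' = NormedSpace.exp (-Z) → ∀ y, |f (g * y) - f (g' * y)| ≤ Λ' * (2 * ‖Z‖) := by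
      intro g g' Z hZ hg hg' y
      refine (hΛ' _ _).trans (mul_le_mul_of_nonneg_left ?_ hΛ0)
      rw [map_mul, map_mul, ← sub_mul, fw_norm_mul_unitary _ (L.unit y), hg, hg']
      have e : NormedSpace.exp Z - NormedSpace.exp (-Z) =
          (NormedSpace.exp Z - 1) - (NormedSpace.exp (-Z) - 1) := by abel
      rw [e]
      refine (norm_sub_le _ _).trans ?_
      have h5 := fw_exp_sub_one hZ
      have h6 := fw_exp_sub_one (X := -Z) (by rw [conjTranspose_neg, hZ])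
      rw [norm_neg] at h6
      linarith
    have eh : Λ' * (2 * ‖(1 / 2 : ℝ) • X‖) = Λ' * ‖X‖ := by
      have e : ‖(1 / 2 : ℝ) • X‖ = ‖X‖ / 2 := by
        rw [norm_smul, Real.norm_eq_abs, abs_of_pos (by norm_num : (0 : ℝ) < 1 / 2)]
        ring
      rw [e]; ring
    have hb1 : ∀ y, |f (h * y) - f (h⁻¹ * y)| ≤ Λ' * ‖X‖ := by
      intro y
      have := hl h h⁻¹ _ hX2s hh (fw_rho_inv L hh) y
      rwa [eh] at this
    have ecl : ∀ (g y : G), f (y⁻¹ * (g * x)) = f (g * (x * y⁻¹)) := by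
      intro g y
      rw [← hf.cls (y⁻¹ * (g * x)) y]; congr 1; group
    have hb2 : ∀ y, |f (y⁻¹ * (h * x)) - f (y⁻¹ * (h⁻¹ * x))| ≤ Λ' * ‖X‖ := by
      intro y
      rw [ecl, ecl]
      exact hb1 _
    have hb3 : ∀ y, |f (y⁻¹ * (h * h * x)) - f (y⁻¹ * (h⁻¹ * h⁻¹ * x))| ≤ Λ' * (2 * ‖X‖) := by
      intro y
      rw [ecl, ecl]
      exact hl (h * h) (h⁻¹ * h⁻¹) X hXs h2 h3 _
    -- representations of `u`
    have eA : u (h * h * x) = ∫ y, f (h * y) * f (y⁻¹ * (h * x)) ∂μ := by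
      rw [hu]
      unfold cnv
      rw [← fw_int_left μ (fun y => f y * f (y⁻¹ * (h * h * x))) h]
      congr 1; funext y; congr 2; group
    have eB : u (h⁻¹ * h⁻¹ * x) = ∫ y, f (h⁻¹ * y) * f (y⁻¹ * (h⁻¹ * x)) ∂μ := by
      rw [hu]
      unfold cnv
      rw [← fw_int_left μ (fun y => f y * f (y⁻¹ * (h⁻¹ * h⁻¹ * x))) h⁻¹]
      congr 1; funext y; congr 2; group
    have eC : u x = ∫ y, f (h * y) * f (y⁻¹ * (h⁻¹ * x)) ∂μ := by
      rw [hu]
      unfold cnv
      rw [← fw_int_left μ (fun y => f y * f (y⁻¹ * x)) h]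
      congr 1; funext y; congr 2; group
    have eD : u x = ∫ y, f (h⁻¹ * y) * f (y⁻¹ * (h * x)) ∂μ := by
      rw [hu]
      unfold cnv
      rw [← fw_int_left μ (fun y => f y * f (y⁻¹ * x)) h⁻¹]
      congr 1; funext y; congr 2; group
    set up := u (h * h * x) with hupd
    set um := u (h⁻¹ * h⁻¹ * x) with humd
    set u0 := u x with hu0d
    have hsec : |up + um - 2 * u0| ≤ (Λ' * ‖X‖) ^ 2 := by
      have e1 : up + um - 2 * u0 = ∫ y, (f (h * y) - f (h⁻¹ * y)) *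
          (f (y⁻¹ * (h * x)) - f (y⁻¹ * (h⁻¹ * x))) ∂μ := by
        have e2 : ∀ y, (f (h * y) - f (h⁻¹ * y)) * (f (y⁻¹ * (h * x)) - f (y⁻¹ * (h⁻¹ * x))) =
            (f (h * y) * f (y⁻¹ * (h * x)) + f (h⁻¹ * y) * f (y⁻¹ * (h⁻¹ * x))) -
            (f (h * y) * f (y⁻¹ * (h⁻¹ * x)) + f (h⁻¹ * y) * f (y⁻¹ * (h * x))) := fun y => by ring
        simp only [e2]
        rw [integral_sub (fw_int_cont μ (by fun_prop)) (fw_int_cont μ (by fun_prop)),
          integral_add (fw_int_cont μ (by fun_prop)) (fw_int_cont μ (by fun_prop)),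
          integral_add (fw_int_cont μ (by fun_prop)) (fw_int_cont μ (by fun_prop)),
          ← eA, ← eB, ← eC, ← eD]
        ring
      rw [e1]
      have h5 : ∀ y, ‖(f (h * y) - f (h⁻¹ * y)) *
          (f (y⁻¹ * (h * x)) - f (y⁻¹ * (h⁻¹ * x)))‖ ≤ (Λ' * ‖X‖) ^ 2 := by
        intro y
        rw [norm_mul, pow_two]
        exact mul_le_mul (hb1 y) (hb2 y) (norm_nonneg _) (by positivity)
      have h6 := norm_integral_le_of_norm_le_const (μ := μ) (Filter.Eventually.of_forall h5)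
      rw [probReal_univ, mul_one] at h6
      exact h6
    have hfir : |up - um| ≤ 2 * M * Λ' * ‖X‖ := by
      have e1 : up - um = ∫ y, f y * (f (y⁻¹ * (h * h * x)) - f (y⁻¹ * (h⁻¹ * h⁻¹ * x))) ∂μ := by
        simp only [mul_sub]
        rw [integral_sub (fw_int_cont μ (by fun_prop)) (fw_int_cont μ (by fun_prop))]
        rfl
      rw [e1]
      have h5 : ∀ y, ‖f y * (f (y⁻¹ * (h * h * x)) - f (y⁻¹ * (h⁻¹ * h⁻¹ * x)))‖ ≤
          2 * M * Λ' * ‖X‖ := by
        intro y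
        rw [norm_mul, Real.norm_eq_abs, abs_of_pos (hf.pos y)]
        have := mul_le_mul (hfM y) (hb3 y) (abs_nonneg _) hM0.le
        refine this.trans (le_of_eq ?_)
        ring
      have h6 := norm_integral_le_of_norm_le_const (μ := μ) (Filter.Eventually.of_forall h5)
      rw [probReal_univ, mul_one] at h6
      exact h6
    have pup : 0 < up := hup.pos _
    have pum : 0 < um := hup.pos _
    have pu0 : 0 < u0 := hup.pos _
    have hq : u0 ^ 2 - up * um ≤ 2 * M ^ 2 * Λ' ^ 2 * ‖X‖ ^ 2 := by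
      have e1 : u0 ^ 2 - up * um = (2 * u0 - (up + um)) * (2 * u0 + (up + um)) / 4 +
          (up - um) ^ 2 / 4 := by ring
      have h5 : (up - um) ^ 2 ≤ (2 * M * Λ' * ‖X‖) ^ 2 := by
        rw [← sq_abs (up - um)]
        exact pow_le_pow_left₀ (abs_nonneg _) hfir 2
      have h6 : 2 * u0 - (up + um) ≤ (Λ' * ‖X‖) ^ 2 := by
        have := (abs_le.1 hsec).1
        linarith
      have h7 : 2 * u0 + (up + um) ≤ 4 * M ^ 2 := by
        have := huM (h * h * x)
        have := huM (h⁻¹ * h⁻¹ * x)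
        have := huM x
        linarith
      have h8 : (2 * u0 - (up + um)) * (2 * u0 + (up + um)) ≤ (Λ' * ‖X‖) ^ 2 * (4 * M ^ 2) :=
        mul_le_mul h6 h7 (by positivity) (by positivity)
      rw [e1]
      nlinarith
    have hlog : 2 * Real.log u0 - (Real.log up + Real.log um) ≤
        2 * M ^ 2 * Λ' ^ 2 * ‖X‖ ^ 2 / c ^ 2 := by
      have h5 : Real.log (u0 ^ 2 / (up * um)) ≤ u0 ^ 2 / (up * um) - 1 :=
        Real.log_le_sub_one_of_pos (by positivity)
      rw [Real.log_div (by positivity) (by positivity), Real.log_mul pup.ne' pum.ne',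
        Real.log_pow] at h5
      have h6 : u0 ^ 2 / (up * um) - 1 = (u0 ^ 2 - up * um) / (up * um) := by
        field_simp
      have h7 : (u0 ^ 2 - up * um) / (up * um) ≤ 2 * M ^ 2 * Λ' ^ 2 * ‖X‖ ^ 2 / c ^ 2 := by
        refine (div_le_div_of_nonneg_right hq (by positivity)).trans ?_
        apply div_le_div_of_nonneg_left (by positivity) (by positivity)
        rw [pow_two]
        exact mul_le_mul (huc _) (huc _) hc0.le pup.le
      push_cast at h5
      linarith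
    have e9 : 2 * M ^ 2 * Λ' ^ 2 / c ^ 2 * ‖X‖ ^ 2 = 2 * M ^ 2 * Λ' ^ 2 * ‖X‖ ^ 2 / c ^ 2 := by
      ring
    rw [e9]
    linarith
  -- the second convolution
  have hosc : ∀ x y, Real.log (u x) - Real.log (u y) ≤ Real.log (M ^ 2) - Real.log c := by
    intro x y
    have h1 := Real.log_le_log (hup.pos x) (huM x)
    have h2 := Real.log_le_log hc0 (huc y)
    linarith
  have h4 := fw_sc_cnv μ L hup hup hsu hsu hosc hosc
  have hf4 := hf.cnv4 μ L
  have hI : 0 < ∫ y, (cnv4 μ f y) ^ 4 ∂μ :=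
    fw_int_pos μ (hf4.cont.pow 4) (fun x => pow_pos (hf4.pos x) 4)
  exact ⟨_, fw_sc_pow L hf4 hI h4⟩

end

end Pool.Agent.T2H04.HY
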