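import Mathlib
import Pool.Agent.T2H04.HY.AsmDefs
import Pool.Agent.T2H04.HY.Ccv
import Pool.Agent.T2H04.HY.Fwd

/-!
# Assembly A: Wilson's density, iterates, continuity
-/

open MeasureTheory Matrix Filter
open scoped Matrix.Norms.Frobenius Topology

namespace Pool.Agent.T2H04.HY

set_option linter.unusedSectionVars false

noncomputable section

variable {G : Type} [Group G] [TopologicalSpace G] [IsTopologicalGroup G] [CompactSpace G]
  [MeasurableSpace G] [BorelSpace G] (μ : Measure G) [μ.IsHaarMeasure] [IsProbabilityMeasure μ]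
  {m : Type} [Fintype m] [DecidableEq m] (L : RD G m)

namespace Asm

/-- the real part of the trace -/
def rt (g : G) : ℝ := (trace (L.rho g)).re

theorem rt_cont : Continuous (rt L) := by
  unfold rt
  have := L.cont
  fun_prop

/-- the exponential of the Wilson action, as a continuous map -/
def expC (t : ℝ) : C(G, ℝ) := ⟨fun g => Real.exp (rt L g / t), by
  have := rt_cont L
  fun_prop⟩

theorem expC_apply (t : ℝ) (g : G) : expC L t g = Real.exp ((trace (L.rho g)).re / t) := rfl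

theorem den_pos (t : ℝ) : 0 < ∫ y, expC L t y ∂μ := by
  refine Continuous.integral_pos_of_hasCompactSupport_nonneg_nonzero (x := 1)
    (expC L t).continuous (HasCompactSupport.of_compactSpace _) (fun z => ?_) ?_
  · rw [expC_apply]; positivity
  · rw [expC_apply]; positivity

/-- Wilson's density as a continuous map -/
def wilC (t : ℝ) : C(G, ℝ) := (∫ y, expC L t y ∂μ)⁻¹ • expC L t

theorem wilC_apply (t : ℝ) (g : G) : wilC μ L t g = wil μ L t g := by
  show (∫ y, expC L t y ∂μ)⁻¹ * expC L t g = _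
  unfold wil
  rw [div_eq_inv_mul]
  rfl

theorem wil_cont (t : ℝ) : Continuous (wil μ L t) := by
  have h : wil μ L t = fun g => wilC μ L t g := funext fun g => (wilC_apply μ L t g).symm
  rw [h]
  exact (wilC μ L t).continuous

theorem wil_pos (t : ℝ) (g : G) : 0 < wil μ L t g := by
  have h := den_pos μ L t
  unfold wil
  exact div_pos (Real.exp_pos _) h

theorem wil_pd (t : ℝ) : PD μ (wil μ L t) := by
  refine ⟨wil_cont μ L t, fun x => (wil_pos μ L t x).le, ?_⟩
  unfold wil
  rw [integral_div]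
  exact div_self (den_pos μ L t).ne'

theorem trace_conj (x y : G) : trace (L.rho (y * x * y⁻¹)) = trace (L.rho x) := by
  rw [map_mul, map_mul, trace_mul_comm, ← mul_assoc, rho_inv_mul, one_mul]

theorem wil_cls (t : ℝ) (x y : G) : wil μ L t (y * x * y⁻¹) = wil μ L t x := by
  unfold wil
  rw [trace_conj]

theorem wil_pc (t : ℝ) : PC (wil μ L t) := ⟨wil_cont μ L t, wil_pos μ L t, wil_cls μ L t⟩

theorem log_wil (t : ℝ) (g : G) : Real.log (wil μ L t g) =
    Real.log (Real.exp (1 / t * (trace (L.rho g)).re)) - Real.log (∫ y, expC L t y ∂μ) := by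
  have h := den_pos μ L t
  have e : wil μ L t g = Real.exp (1 / t * (trace (L.rho g)).re) / ∫ y, expC L t y ∂μ := by
    unfold wil
    rw [one_div_mul_eq_div]
    rfl
  rw [e, Real.log_div (Real.exp_pos _).ne' h.ne']

theorem wil_sc (t : ℝ) (ht : 0 < t) : SC L (wil μ L t) (1 / t) := by
  intro X hX y yp ym hp hm
  have h := sc_wilson (G := G) L (1 / t) (by positivity) X hX y yp ym hp hm
  simp only [log_wil]
  linarith

/-- the iterates -/
def Fi (i : ℕ) (t : ℝ) : G → ℝ := (mk μ)^[i] (wil μ L t)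

theorem Fi_succ (i : ℕ) (t : ℝ) : Fi μ L (i + 1) t = mk μ (Fi μ L i t) := by
  unfold Fi
  rw [Function.iterate_succ_apply']

theorem Fi_zero (t : ℝ) : Fi μ L 0 t = wil μ L t := rfl

theorem Fi_pd (i : ℕ) (t : ℝ) : PD μ (Fi μ L i t) := by
  induction i with
  | zero => exact wil_pd μ L t
  | succ i ih => rw [Fi_succ]; exact pd_mk μ _ ih

/-- convolution preserves class functions -/
theorem cnv_cls {f g : G → ℝ} (hf : ∀ x y, f (y * x * y⁻¹) = f x)
    (hg : ∀ x y, g (y * x * y⁻¹) = g x) (x y : G) : cnv μ f g (y * x * y⁻¹) = cnv μ f g x := by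
  have := right_inv' μ
  unfold cnv
  rw [← integral_mul_left_eq_self _ y, ← integral_mul_right_eq_self _ y⁻¹]
  refine integral_congr_ae (Filter.Eventually.of_forall fun z => ?_)
  have e1 : y * (z * y⁻¹) = y * z * y⁻¹ := by group
  have e2 : (y * (z * y⁻¹))⁻¹ * (y * x * y⁻¹) = y * (z⁻¹ * x) * y⁻¹ := by group
  simp only [e2]
  rw [e1, hf, hg]

theorem mk_cls {f : G → ℝ} (hf : ∀ x y, f (y * x * y⁻¹) = f x) (x y : G) :
    mk μ f (y * x * y⁻¹) = mk μ f x := by
  unfold mk cnv4
  rw [cnv_cls μ (cnv_cls μ hf hf) (cnv_cls μ hf hf)]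

theorem Fi_cls (i : ℕ) (t : ℝ) (x y : G) : Fi μ L i t (y * x * y⁻¹) = Fi μ L i t x := by
  induction i generalizing x y with
  | zero => exact wil_cls μ L t x y
  | succ i ih => rw [Fi_succ]; exact mk_cls μ ih x y

theorem iter_tendsto {f : ℕ → G → ℝ} {g : G → ℝ} (hf : ∀ n, PD μ (f n)) (hg : PD μ g)
    (h : TendstoUniformly f g atTop) (i : ℕ) :
    TendstoUniformly (fun n => (mk μ)^[i] (f n)) ((mk μ)^[i] g) atTop := by
  have hpd : ∀ (i : ℕ) (f : G → ℝ), PD μ f → PD μ ((mk μ)^[i] f) := by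
    intro i
    induction i with
    | zero => intro f hf; exact hf
    | succ i ih =>
      intro f hf
      rw [Function.iterate_succ_apply']
      exact pd_mk μ _ (ih f hf)
  induction i with
  | zero => exact h
  | succ i ih =>
    simp only [Function.iterate_succ_apply']
    exact mk_tendsto μ _ _ (fun n => hpd i _ (hf n)) (hpd i _ hg) ih

theorem iter_pd {f : G → ℝ} (hf : PD μ f) (i : ℕ) : PD μ ((mk μ)^[i] f) := by
  induction i with
  | zero => exact hf
  | succ i ih =>
    rw [Function.iterate_succ_apply']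
    exact pd_mk μ _ ih

theorem iter_cls {f : G → ℝ} (hf : ∀ x y, f (y * x * y⁻¹) = f x) (i : ℕ) :
    ∀ x y, (mk μ)^[i] f (y * x * y⁻¹) = (mk μ)^[i] f x := by
  induction i with
  | zero => exact hf
  | succ i ih =>
    rw [Function.iterate_succ_apply']
    exact mk_cls μ ih

/-- continuity of the Wilson density in the coupling -/
theorem wil_tendsto {t : ℕ → ℝ} {t0 : ℝ} (ht0 : 0 < t0) (h : Tendsto t atTop (𝓝 t0)) :
    TendstoUniformly (fun j => wil μ L (t j)) (wil μ L t0) atTop := by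
  set E : C(Set.Ioi (0 : ℝ) × G, ℝ) := ⟨fun p => Real.exp (rt L p.2 / (p.1 : ℝ)), by
    have h1 := rt_cont L
    refine Real.continuous_exp.comp (Continuous.div (h1.comp continuous_snd)
      (continuous_subtype_val.comp continuous_fst) fun p => ?_)
    exact (ne_of_gt p.1.2)⟩ with hE
  have hEc : Continuous E.curry := E.curry.continuous
  -- replace `t j` by its truncation
  have hev : ∀ᶠ j in atTop, 0 < t j := h.eventually (lt_mem_nhds ht0)
  set t' : ℕ → Set.Ioi (0 : ℝ) := fun j => if hj : 0 < t j then ⟨t j, hj⟩ else ⟨t0, ht0⟩ with ht'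
  have h1 : Tendsto t' atTop (𝓝 ⟨t0, ht0⟩) := by
    rw [tendsto_subtype_rng]
    refine h.congr' ?_
    filter_upwards [hev] with j hj
    simp only [ht', dif_pos hj]
  have h2 : Tendsto (fun j => E.curry (t' j)) atTop (𝓝 (E.curry ⟨t0, ht0⟩)) :=
    (hEc.tendsto _).comp h1
  have h3 : Tendsto (fun j => ∫ y, E.curry (t' j) y ∂μ) atTop
      (𝓝 (∫ y, E.curry ⟨t0, ht0⟩ y ∂μ)) := ((continuous_int μ).tendsto _).comp h2
  have hne : ∫ y, E.curry ⟨t0, ht0⟩ y ∂μ ≠ 0 := (den_pos μ L t0).ne'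
  have h4 : Tendsto (fun j => (∫ y, E.curry (t' j) y ∂μ)⁻¹ • E.curry (t' j)) atTop
      (𝓝 ((∫ y, E.curry ⟨t0, ht0⟩ y ∂μ)⁻¹ • E.curry ⟨t0, ht0⟩)) := (h3.inv₀ hne).smul h2
  have h5 := ContinuousMap.tendsto_iff_tendstoUniformly.1 h4
  intro u hu
  filter_upwards [h5 u hu, hev] with j hj hj0 x
  have e1 : wil μ L t0 x = ((∫ y, E.curry ⟨t0, ht0⟩ y ∂μ)⁻¹ • E.curry ⟨t0, ht0⟩) x := by
    rw [← wilC_apply]
    rfl
  have e2 : wil μ L (t j) x = ((∫ y, E.curry (t' j) y ∂μ)⁻¹ • E.curry (t' j)) x := by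
    rw [← wilC_apply]
    have : t' j = ⟨t j, hj0⟩ := by simp only [ht', dif_pos hj0]
    rw [this]
    rfl
  rw [e1, e2]
  exact hj x

theorem Fi_tendsto (i : ℕ) {t : ℕ → ℝ} {t0 : ℝ} (ht0 : 0 < t0) (h : Tendsto t atTop (𝓝 t0)) :
    TendstoUniformly (fun j => Fi μ L i (t j)) (Fi μ L i t0) atTop :=
  iter_tendsto μ (fun j => wil_pd μ L (t j)) (wil_pd μ L t0) (wil_tendsto μ L ht0 h) i

theorem dis_cont' : Continuous (dis L) := (L.cont.sub continuous_const).norm

theorem g2_tendsto {f : ℕ → G → ℝ} {g : G → ℝ} (hf : ∀ n, Continuous (f n)) (hg : Continuous g)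
    (h : TendstoUniformly f g atTop) : Tendsto (fun n => g2 μ L (f n)) atTop (𝓝 (g2 μ L g)) := by
  set F : ℕ → C(G, ℝ) := fun n => ⟨f n, hf n⟩ with hF
  set F' : C(G, ℝ) := ⟨g, hg⟩ with hF'
  set D : C(G, ℝ) := ⟨fun y => dis L y ^ 2, (dis_cont' L).pow 2⟩ with hD
  have h0 : Tendsto F atTop (𝓝 F') := ContinuousMap.tendsto_iff_tendstoUniformly.2 h
  have h1 : Tendsto (fun n => D * F n) atTop (𝓝 (D * F')) := h0.const_mul D
  exact ((continuous_int μ).tendsto _).comp h1

theorem g2_contOn (i : ℕ) : ContinuousOn (fun t => g2 μ L (Fi μ L i t)) (Set.Ioi (0 : ℝ)) := by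
  rw [continuousOn_iff_continuous_domRestrict]
  refine SeqContinuous.continuous ?_
  intro t t0 h
  have h1 : Tendsto (fun j => ((t j : Set.Ioi (0 : ℝ)) : ℝ)) atTop (𝓝 (t0 : ℝ)) :=
    (continuous_subtype_val.tendsto t0).comp h
  exact g2_tendsto μ L (fun j => (Fi_pd μ L i _).cont) (Fi_pd μ L i _).cont
    (Fi_tendsto μ L i t0.2 h1)

/-- at a fixed coupling the iterates converge to the strong coupling fixed point -/
theorem Fi_to_one (hconn : IsConnected (Set.univ : Set G)) (t : ℝ) (ht : 0 < t) :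
    TendstoUniformly (fun n => Fi μ L n t) (fun _ => 1) atTop := by
  obtain ⟨C, σ, hC, hσ, h⟩ := fwd μ L hconn (wil μ L t) (wil_pc μ L t) (1 / t) (wil_sc μ L t ht)
  have h1 : Tendsto (fun n : ℕ => C * Real.exp (-(σ * 4 ^ n))) atTop (𝓝 0) := by
    rw [← mul_zero C]
    refine Tendsto.const_mul C (Real.tendsto_exp_neg_atTop_nhds_zero.comp ?_)
    exact (tendsto_pow_atTop_atTop_of_one_lt (by norm_num : (1 : ℝ) < 4)).const_mul_atTop hσ
  rw [Metric.tendstoUniformly_iff]
  intro ε hε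
  filter_upwards [h1.eventually (gt_mem_nhds hε), eventually_ge_atTop 1] with n hn hn1 x
  rw [dist_comm, Real.dist_eq]
  exact (h n hn1 x).trans_lt hn

theorem g2_to_one (hconn : IsConnected (Set.univ : Set G)) (t : ℝ) (ht : 0 < t) :
    Tendsto (fun n => g2 μ L (Fi μ L n t)) atTop (𝓝 (g2 μ L fun _ => 1)) :=
  g2_tendsto μ L (fun n => (Fi_pd μ L n t).cont) continuous_const (Fi_to_one μ L hconn t ht)

theorem g2_one_pos (hne : ∃ X ∈ lieSet L, X ≠ 0) : 0 < g2 μ L fun _ => 1 := by
  obtain ⟨X, hX, hXn⟩ := hne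
  -- some group element is different from `1`
  obtain ⟨g, hg⟩ : ∃ g : G, 0 < dis L g := by
    by_contra hcon
    push Not at hcon
    have h1 : ∀ s : ℝ, NormedSpace.exp (s • X) = 1 := by
      intro s
      obtain ⟨g, hg⟩ := hX s
      have h2 := hcon g
      unfold dis at h2
      have h3 : L.rho g - 1 = 0 := norm_le_zero_iff.1 h2
      rw [← hg]
      exact sub_eq_zero.1 h3
    have h2 := hasDerivAt_exp X 0
    have h3 : (fun u : ℝ => NormedSpace.exp (u • X)) = fun _ => 1 := funext h1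
    have h4 : HasDerivAt (fun u : ℝ => NormedSpace.exp (u • X)) 0 0 := by
      rw [h3]; exact hasDerivAt_const _ _
    have h5 := h2.unique h4
    simp only [zero_smul, NormedSpace.exp_zero, one_mul] at h5
    exact hXn h5
  unfold g2
  simp only [mul_one]
  exact Continuous.integral_pos_of_hasCompactSupport_nonneg_nonzero (x := g)
    ((dis_cont' L).pow 2) (HasCompactSupport.of_compactSpace _) (fun z => by positivity)
    (by positivity)

end Asm

end

end Pool.Agent.T2H04.HY
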