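import Mathlib
import Pool.Agent.T2H04.HY.Cpt
import Pool.Agent.T2H04.HY.Ccv

/-!
# The string tension is finite
-/

open MeasureTheory Matrix Filter
open scoped Matrix.Norms.Frobenius Topology

namespace Pool.Agent.T2H04.HY

set_option linter.unusedSectionVars false

noncomputable section

variable {G : Type} [Group G] [TopologicalSpace G] [IsTopologicalGroup G] [CompactSpace G]
  [MeasurableSpace G] [BorelSpace G] (μ : Measure G) [μ.IsHaarMeasure] [IsProbabilityMeasure μ]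
  {m : Type} [Fintype m] [DecidableEq m] (L : RD G m)

namespace Low

theorem cont_param {Y : Type} [TopologicalSpace Y] {F : Y → G → ℝ}
    (hF : Continuous (Function.uncurry F)) : Continuous fun y => ∫ x, F y x ∂μ := by
  let F' : C(Y × G, ℝ) := ⟨Function.uncurry F, hF⟩
  exact (continuous_int μ).comp F'.curry.continuous

theorem swap {F : G → G → ℝ} (hF : Continuous (Function.uncurry F)) :
    ∫ x, ∫ y, F x y ∂μ ∂μ = ∫ y, ∫ x, F x y ∂μ ∂μ :=
  integral_integral_swap_of_hasCompactSupport hF (HasCompactSupport.of_compactSpace _)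

theorem shl (f : G → ℝ) (g : G) : ∫ y, f (g * y) ∂μ = ∫ y, f y ∂μ :=
  integral_mul_left_eq_self f g

theorem cnv_sym {f : G → ℝ} (hf : ∀ x, f x⁻¹ = f x) (x : G) :
    cnv μ f f x⁻¹ = cnv μ f f x := by
  unfold cnv
  rw [← shl μ (fun y => f y * f (y⁻¹ * x⁻¹)) x⁻¹]
  refine integral_congr_ae (Filter.Eventually.of_forall fun y => ?_)
  simp only []
  have h1 : (x⁻¹ * y)⁻¹ * x⁻¹ = y⁻¹ := by group
  have h2 : f (x⁻¹ * y) = f (y⁻¹ * x) := by
    rw [← hf (x⁻¹ * y)]
    congr 1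
    group
  rw [h1, h2, hf y, mul_comm]

theorem int_cnv {f g : G → ℝ} (hf : Continuous f) (hg : Continuous g) :
    ∫ x, cnv μ f g x ∂μ = (∫ x, f x ∂μ) * ∫ x, g x ∂μ := by
  unfold cnv
  rw [swap μ (F := fun x y => f y * g (y⁻¹ * x)) (by unfold Function.uncurry; fun_prop)]
  have h1 : ∀ y, ∫ x, f y * g (y⁻¹ * x) ∂μ = f y * ∫ x, g x ∂μ := by
    intro y
    rw [integral_const_mul, shl μ g y⁻¹]
  simp only [h1]
  rw [integral_mul_const]

theorem gram_cnv {g : G → ℝ} (hs : ∀ x, g x⁻¹ = g x) (x y : G) :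
    cnv μ g g (x⁻¹ * y) = ∫ z, g (z⁻¹ * x) * g (z⁻¹ * y) ∂μ := by
  unfold cnv
  rw [← shl μ (fun z => g z * g (z⁻¹ * (x⁻¹ * y))) x⁻¹]
  refine integral_congr_ae (Filter.Eventually.of_forall fun z => ?_)
  simp only []
  have h1 : (x⁻¹ * z)⁻¹ * (x⁻¹ * y) = z⁻¹ * y := by group
  have h2 : g (x⁻¹ * z) = g (z⁻¹ * x) := by
    rw [← hs (x⁻¹ * z)]
    congr 1
    group
  rw [h1, h2]

/-- positive kernels -/
def Pos (K : G → G → ℝ) : Prop :=
  ∀ φ : G → ℝ, Continuous φ → 0 ≤ ∫ x, ∫ y, K x y * (φ x * φ y) ∂μ ∂μ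

theorem pos_one : Pos μ (fun _ _ : G => (1 : ℝ)) := by
  intro φ hφ
  have h1 : ∀ x, ∫ y, (1 : ℝ) * (φ x * φ y) ∂μ = φ x * ∫ y, φ y ∂μ := by
    intro x
    simp only [one_mul]
    rw [integral_const_mul]
  simp only [h1]
  rw [integral_mul_const]
  exact mul_self_nonneg _

theorem pos_mul {g : G → ℝ} (hg : Continuous g) (hs : ∀ x, g x⁻¹ = g x) {K : G → G → ℝ}
    (hKc : Continuous (Function.uncurry K)) (hK : Pos μ K) :
    Pos μ (fun x y => cnv μ g g (x⁻¹ * y) * K x y) := by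
  intro φ hφ
  have hKc' : Continuous fun p : G × G => K p.1 p.2 := hKc
  have e1 : ∀ x y, cnv μ g g (x⁻¹ * y) * K x y * (φ x * φ y) =
      ∫ z, g (z⁻¹ * x) * g (z⁻¹ * y) * (K x y * (φ x * φ y)) ∂μ := by
    intro x y
    rw [gram_cnv μ hs, integral_mul_const]
    ring
  simp only [e1]
  have e2 : ∀ x, ∫ y, ∫ z, g (z⁻¹ * x) * g (z⁻¹ * y) * (K x y * (φ x * φ y)) ∂μ ∂μ =
      ∫ z, ∫ y, g (z⁻¹ * x) * g (z⁻¹ * y) * (K x y * (φ x * φ y)) ∂μ ∂μ := by
    intro x
    refine swap μ (F := fun y z => g (z⁻¹ * x) * g (z⁻¹ * y) * (K x y * (φ x * φ y))) ?_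
    have h1 : Continuous fun p : G × G => K x p.1 :=
      hKc'.comp (by fun_prop : Continuous fun p : G × G => (x, p.1))
    unfold Function.uncurry
    fun_prop
  simp only [e2]
  rw [swap μ (F := fun x z => ∫ y, g (z⁻¹ * x) * g (z⁻¹ * y) * (K x y * (φ x * φ y)) ∂μ) (by
    refine cont_param μ (Y := G × G)
      (F := fun p y => g (p.2⁻¹ * p.1) * g (p.2⁻¹ * y) * (K p.1 y * (φ p.1 * φ y))) ?_
    have h1 : Continuous fun q : (G × G) × G => K q.1.1 q.2 :=
      hKc'.comp (by fun_prop : Continuous fun q : (G × G) × G => (q.1.1, q.2))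
    unfold Function.uncurry
    fun_prop)]
  refine integral_nonneg fun z => ?_
  have h1 := hK (fun x => g (z⁻¹ * x) * φ x) (by fun_prop)
  refine le_of_le_of_eq h1 ?_
  refine integral_congr_ae (Filter.Eventually.of_forall fun x => ?_)
  refine integral_congr_ae (Filter.Eventually.of_forall fun y => ?_)
  simp only []
  ring

section gram

variable {ι : Type} [Fintype ι] {e : ι → G → ℝ} {χ : G → ℝ}

theorem chi_cont (he : ∀ i, Continuous (e i)) (hχ : ∀ x y, ∑ i, e i x * e i y = χ (x⁻¹ * y)) :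
    Continuous χ := by
  have h1 : χ = fun y => ∑ i, e i 1 * e i y := by
    funext y
    rw [hχ, inv_one, one_mul]
  rw [h1]
  fun_prop

theorem pos_gram (he : ∀ i, Continuous (e i)) (hχ : ∀ x y, ∑ i, e i x * e i y = χ (x⁻¹ * y))
    {h : G → ℝ} (hc : Continuous h) (hK : Pos μ (fun x y => h (x⁻¹ * y))) :
    0 ≤ ∫ y, h y * χ y ∂μ := by
  have h1 : ∫ y, h y * χ y ∂μ = ∫ x, ∫ y, h (x⁻¹ * y) * χ (x⁻¹ * y) ∂μ ∂μ := by
    have h2 : ∀ x : G, ∫ y, h (x⁻¹ * y) * χ (x⁻¹ * y) ∂μ = ∫ y, h y * χ y ∂μ := fun x =>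
      shl μ (fun y => h y * χ y) x⁻¹
    simp only [h2]
    rw [integral_const, probReal_univ, one_smul]
  have h2 : ∀ x, ∫ y, h (x⁻¹ * y) * χ (x⁻¹ * y) ∂μ =
      ∑ i, ∫ y, h (x⁻¹ * y) * (e i x * e i y) ∂μ := by
    intro x
    rw [← integral_finsetSum _ fun i _ => integrable_cont μ (by have := he i; fun_prop)]
    refine integral_congr_ae (Filter.Eventually.of_forall fun y => ?_)
    simp only []
    rw [← hχ, Finset.mul_sum]
  rw [h1]
  simp only [h2]
  rw [integral_finsetSum _ fun i _ => integrable_cont μ (by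
    refine cont_param μ (F := fun x y => h (x⁻¹ * y) * (e i x * e i y)) ?_
    have := he i
    unfold Function.uncurry
    fun_prop)]
  exact Finset.sum_nonneg fun i _ => hK (e i) (he i)

theorem sq_le (he : ∀ i, Continuous (e i)) (hχ : ∀ x y, ∑ i, e i x * e i y = χ (x⁻¹ * y))
    (h1 : χ 1 = 1) {g : G → ℝ} (hg : Continuous g) (hs : ∀ x, g x⁻¹ = g x) :
    (∫ y, g y * χ y ∂μ) ^ 2 ≤ ∫ y, cnv μ g g y * χ y ∂μ := by
  have hinv := inv_inv' μ
  have hχc := chi_cont he hχ
  have e1 : ∫ y, g y * χ y ∂μ = ∑ i, e i 1 * ∫ y, g y * e i y ∂μ := by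
    have h2 : ∀ i, e i 1 * ∫ y, g y * e i y ∂μ = ∫ y, e i 1 * (g y * e i y) ∂μ := fun i => by
      rw [integral_const_mul]
    simp only [h2]
    rw [← integral_finsetSum _ fun i _ => integrable_cont μ (by have := he i; fun_prop)]
    refine integral_congr_ae (Filter.Eventually.of_forall fun y => ?_)
    simp only []
    have h3 := hχ 1 y
    rw [inv_one, one_mul] at h3
    rw [← h3, Finset.mul_sum]
    exact Finset.sum_congr rfl fun i _ => by ring
  have e2 : ∫ y, cnv μ g g y * χ y ∂μ = ∑ i, (∫ y, g y * e i y ∂μ) ^ 2 := by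
    have h2 : ∀ x, cnv μ g g x * χ x = ∫ y, g y * g (y⁻¹ * x) * χ x ∂μ := fun x => by
      unfold cnv
      rw [integral_mul_const]
    simp only [h2]
    rw [swap μ (F := fun x y => g y * g (y⁻¹ * x) * χ x) (by unfold Function.uncurry; fun_prop)]
    have h3 : ∀ y, ∫ x, g y * g (y⁻¹ * x) * χ x ∂μ =
        ∑ i, g y * e i y⁻¹ * ∫ x, g x * e i x ∂μ := by
      intro y
      rw [← shl μ (fun x => g y * g (y⁻¹ * x) * χ x) y]
      have h4 : ∀ i, g y * e i y⁻¹ * ∫ x, g x * e i x ∂μ =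
          ∫ x, g y * e i y⁻¹ * (g x * e i x) ∂μ := fun i => by rw [integral_const_mul]
      simp only [h4]
      rw [← integral_finsetSum _ fun i _ => integrable_cont μ (by have := he i; fun_prop)]
      refine integral_congr_ae (Filter.Eventually.of_forall fun x => ?_)
      simp only []
      have h5 := hχ y⁻¹ x
      rw [inv_inv] at h5
      rw [← h5, inv_mul_cancel_left, Finset.mul_sum]
      exact Finset.sum_congr rfl fun i _ => by ring
    simp only [h3]
    rw [integral_finsetSum _ fun i _ => integrable_cont μ (by have := he i; fun_prop)]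
    refine Finset.sum_congr rfl fun i _ => ?_
    rw [integral_mul_const, sq]
    congr 1
    rw [← integral_inv_eq_self (fun y => g y * e i y⁻¹) μ]
    refine integral_congr_ae (Filter.Eventually.of_forall fun y => ?_)
    simp only [inv_inv, hs]
  rw [e1, e2]
  have h2 := Finset.sum_mul_sq_le_sq_mul_sq Finset.univ (fun i => e i 1)
    (fun i => ∫ y, g y * e i y ∂μ)
  refine h2.trans (le_of_eq ?_)
  have h3 : ∑ i, e i 1 ^ 2 = 1 := by
    have h4 := hχ 1 1
    rw [inv_one, one_mul, h1] at h4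
    rw [← h4]
    exact Finset.sum_congr rfl fun i _ => by ring
  rw [h3, one_mul]

theorem chi_le (hχ : ∀ x y, ∑ i, e i x * e i y = χ (x⁻¹ * y)) (h1 : χ 1 = 1) (x : G) :
    |χ x| ≤ 1 := by
  have h2 := Finset.sum_mul_sq_le_sq_mul_sq Finset.univ (fun i => e i 1) (fun i => e i x)
  have h3 : ∀ z, ∑ i, e i z ^ 2 = 1 := by
    intro z
    have h4 := hχ z z
    rw [inv_mul_cancel, h1] at h4
    rw [← h4]
    exact Finset.sum_congr rfl fun i _ => by ring
  have h4 := hχ 1 x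
  rw [inv_one, one_mul] at h4
  rw [h3, h3, h4, mul_one] at h2
  exact abs_le_one_iff_mul_self_le_one.2 (by rw [← sq]; exact h2)

end gram

theorem pos_pow {g : G → ℝ} (hg : Continuous g) (hs : ∀ x, g x⁻¹ = g x) (r : ℕ) :
    Pos μ (fun x y => (cnv μ g g (x⁻¹ * y)) ^ r) := by
  have hc := continuous_cnv μ hg hg
  induction r with
  | zero =>
    simp only [pow_zero]
    exact pos_one μ
  | succ r ih =>
    have h1 := pos_mul μ hg hs (K := fun x y => (cnv μ g g (x⁻¹ * y)) ^ r)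
      (by unfold Function.uncurry; fun_prop) ih
    simp only [pow_succ']
    exact h1

theorem cnv_sub_one {f : G → ℝ} (hc : Continuous f) (hs : ∀ x, f x⁻¹ = f x)
    (hi : ∫ x, f x ∂μ = 1) (x : G) :
    cnv μ (fun y => f y - 1) (fun y => f y - 1) x = cnv μ f f x - 1 := by
  unfold cnv
  have h1 : ∀ y, (f y - 1) * (f (y⁻¹ * x) - 1) = f y * f (y⁻¹ * x) - f y - f (x⁻¹ * y) + 1 := by
    intro y
    have h2 : f (x⁻¹ * y) = f (y⁻¹ * x) := by
      rw [← hs (x⁻¹ * y)]
      congr 1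
      group
    rw [h2]
    ring
  simp only [h1]
  rw [integral_add (integrable_cont μ (by fun_prop)) (integrable_cont μ (by fun_prop)),
    integral_sub (integrable_cont μ (by fun_prop)) (integrable_cont μ (by fun_prop)),
    integral_sub (integrable_cont μ (by fun_prop)) (integrable_cont μ (by fun_prop)), shl, hi,
    integral_const, probReal_univ, one_smul]
  ring

theorem mk_sym {f : G → ℝ} (hs : ∀ x, f x⁻¹ = f x) (x : G) : mk μ f x⁻¹ = mk μ f x := by
  unfold mk cnv4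
  rw [cnv_sym μ (cnv_sym μ hs)]

theorem cnv_le {f g : G → ℝ} (hf : Continuous f) (hg : Continuous g) (hf0 : ∀ x, 0 ≤ f x)
    (hi : ∫ x, f x ∂μ = 1) {B : ℝ} (hB : ∀ x, g x ≤ B) (x : G) : cnv μ f g x ≤ B := by
  have h1 : cnv μ f g x ≤ ∫ y, f y * B ∂μ := by
    unfold cnv
    refine integral_mono (integrable_cont μ (by fun_prop)) (integrable_cont μ (by fun_prop))
      fun y => ?_
    exact mul_le_mul_of_nonneg_left (hB _) (hf0 y)
  rwa [integral_mul_const, hi, one_mul] at h1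

section gram

variable {ι : Type} [Fintype ι] {e : ι → G → ℝ} {χ : G → ℝ}

/-- **One step of the renormalisation group.** -/
theorem step (he : ∀ i, Continuous (e i)) (hχ : ∀ x y, ∑ i, e i x * e i y = χ (x⁻¹ * y))
    (h1 : χ 1 = 1) (h0 : ∫ y, χ y ∂μ = 0) {f : G → ℝ} (hf : PD μ f) (hs : ∀ x, f x⁻¹ = f x)
    {B : ℝ} (hB : ∀ x, f x ≤ B) :
    4 * (∫ y, f y * χ y ∂μ) ^ 4 ≤ B ^ 3 * ∫ y, mk μ f y * χ y ∂μ := by
  have hχc := chi_cont he hχ
  obtain ⟨h, hh⟩ : ∃ h, h = cnv μ f f := ⟨_, rfl⟩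
  obtain ⟨u, hu⟩ : ∃ u, u = cnv4 μ f := ⟨_, rfl⟩
  obtain ⟨w, hw⟩ : ∃ w : G → ℝ, w = fun y => f y - 1 := ⟨_, rfl⟩
  obtain ⟨g, hg⟩ : ∃ g, g = cnv μ w w := ⟨_, rfl⟩
  obtain ⟨v, hv⟩ : ∃ v, v = cnv μ g g := ⟨_, rfl⟩
  have hfc := hf.cont
  have hhc : Continuous h := by rw [hh]; exact continuous_cnv μ hfc hfc
  have huc : Continuous u := by rw [hu]; exact continuous_cnv4 μ hfc
  have hwc : Continuous w := by rw [hw]; fun_prop
  have hgc : Continuous g := by rw [hg]; exact continuous_cnv μ hwc hwc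
  have hvc : Continuous v := by rw [hv]; exact continuous_cnv μ hgc hgc
  have hhs : ∀ x, h x⁻¹ = h x := by rw [hh]; exact cnv_sym μ hs
  have hws : ∀ x, w x⁻¹ = w x := by
    intro x
    rw [hw]
    simp only [hs]
  have hgs : ∀ x, g x⁻¹ = g x := by rw [hg]; exact cnv_sym μ hws
  have hh0 : ∀ x, 0 ≤ h x := by
    rw [hh]
    exact cnv_nonneg μ hf.nonneg hf.nonneg
  have hhi : ∫ x, h x ∂μ = 1 := by
    rw [hh, int_cnv μ hfc hfc, hf.int, one_mul]
  have hgh : g = fun y => h y - 1 := by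
    funext x
    rw [hg, hw, hh]
    exact cnv_sub_one μ hfc hs hf.int x
  have huh : u = cnv μ h h := by rw [hu, hh]; rfl
  have huv : ∀ x, u x = 1 + v x := by
    intro x
    rw [hv, hgh, cnv_sub_one μ hhc hhs hhi, ← huh]
    ring
  have hu0 : ∀ x, 0 ≤ u x := by
    rw [huh]
    exact cnv_nonneg μ hh0 hh0
  have hui : ∫ x, u x ∂μ = 1 := by rw [huh, int_cnv μ hhc hhc, hhi, one_mul]
  have hhB : ∀ x, h x ≤ B := by
    rw [hh]
    exact cnv_le μ hfc hfc hf.nonneg hf.int hB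
  have huB : ∀ x, u x ≤ B := by
    rw [huh]
    exact cnv_le μ hhc hhc hh0 hhi hhB
  have hZ : 0 < ∫ y, u y ^ 4 ∂μ := by rw [hu]; exact norm_pos μ hf
  have hZB : ∫ y, u y ^ 4 ∂μ ≤ B ^ 3 := by
    have h2 : ∫ y, u y ^ 4 ∂μ ≤ ∫ y, B ^ 3 * u y ∂μ := by
      refine integral_mono (integrable_cont μ (by fun_prop)) (integrable_cont μ (by fun_prop))
        fun y => ?_
      simp only []
      have h3 : u y ^ 3 ≤ B ^ 3 := pow_le_pow_left₀ (hu0 y) (huB y) 3
      calc u y ^ 4 = u y ^ 3 * u y := by ring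
        _ ≤ B ^ 3 * u y := mul_le_mul_of_nonneg_right h3 (hu0 y)
    rwa [integral_const_mul, hui, mul_one] at h2
  have hmk : ∫ y, mk μ f y * χ y ∂μ = (∫ y, u y ^ 4 * χ y ∂μ) / ∫ y, u y ^ 4 ∂μ := by
    rw [← integral_div]
    refine integral_congr_ae (Filter.Eventually.of_forall fun y => ?_)
    simp only []
    unfold mk
    rw [← hu]
    ring
  -- the powers of `v`
  have hpow : ∀ r : ℕ, 0 ≤ ∫ y, v y ^ r * χ y ∂μ := by
    intro r
    refine pos_gram μ he hχ (by fun_prop) ?_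
    rw [hv]
    exact pos_pow μ hgc hgs r
  have hav : ∫ y, v y ^ 1 * χ y ∂μ = ∫ y, u y * χ y ∂μ := by
    have h2 : ∀ y, u y * χ y = χ y + v y ^ 1 * χ y := fun y => by rw [huv]; ring
    simp only [h2]
    rw [integral_add (integrable_cont μ (by fun_prop)) (integrable_cont μ (by fun_prop)), h0,
      zero_add]
  have hu4 : ∫ y, u y ^ 4 * χ y ∂μ = 4 * ∫ y, v y ^ 1 * χ y ∂μ + 6 * ∫ y, v y ^ 2 * χ y ∂μ +
      4 * ∫ y, v y ^ 3 * χ y ∂μ + ∫ y, v y ^ 4 * χ y ∂μ := by
    have h2 : ∀ y, u y ^ 4 * χ y = χ y + 4 * (v y ^ 1 * χ y) + 6 * (v y ^ 2 * χ y) +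
        4 * (v y ^ 3 * χ y) + v y ^ 4 * χ y := fun y => by rw [huv]; ring
    simp only [h2]
    rw [integral_add (integrable_cont μ (by fun_prop)) (integrable_cont μ (by fun_prop)),
      integral_add (integrable_cont μ (by fun_prop)) (integrable_cont μ (by fun_prop)),
      integral_add (integrable_cont μ (by fun_prop)) (integrable_cont μ (by fun_prop)),
      integral_add (integrable_cont μ (by fun_prop)) (integrable_cont μ (by fun_prop)), h0,
      integral_const_mul, integral_const_mul, integral_const_mul, zero_add]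
  -- the fourth power
  have ha1 : (∫ y, f y * χ y ∂μ) ^ 2 ≤ ∫ y, h y * χ y ∂μ := by
    rw [hh]
    exact sq_le μ he hχ h1 hfc hs
  have ha2 : (∫ y, h y * χ y ∂μ) ^ 2 ≤ ∫ y, u y * χ y ∂μ := by
    rw [huh]
    exact sq_le μ he hχ h1 hhc hhs
  have ha3 : (∫ y, f y * χ y ∂μ) ^ 4 ≤ ∫ y, u y * χ y ∂μ := by
    refine le_trans ?_ ha2
    calc (∫ y, f y * χ y ∂μ) ^ 4 = ((∫ y, f y * χ y ∂μ) ^ 2) ^ 2 := by ring
      _ ≤ (∫ y, h y * χ y ∂μ) ^ 2 := pow_le_pow_left₀ (sq_nonneg _) ha1 2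
  have h4 : 4 * (∫ y, f y * χ y ∂μ) ^ 4 ≤ ∫ y, u y ^ 4 * χ y ∂μ := by
    rw [hu4]
    have := hpow 2
    have := hpow 3
    have := hpow 4
    rw [hav]
    linarith
  refine h4.trans ?_
  rw [hmk, ← mul_div_assoc, le_div_iff₀ hZ, mul_comm]
  refine mul_le_mul_of_nonneg_right hZB (le_trans ?_ h4)
  positivity

end gram

/-- **A positive definite function** without invariants, close to `1` near the identity. -/
theorem exists_chi (hne : ∃ X ∈ lieSet L, X ≠ 0) :
    ∃ (e : ((m × m) ⊕ (m × m)) → G → ℝ) (χ : G → ℝ), (∀ i, Continuous (e i)) ∧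
      (∀ x y, ∑ i, e i x * e i y = χ (x⁻¹ * y)) ∧ χ 1 = 1 ∧ ∫ y, χ y ∂μ = 0 ∧
      ∀ y, 1 - dis L y ^ 2 / 2 ≤ χ y := by
  have hrc := L.cont
  have hri := right_inv' μ
  have hent : ∀ i j, Continuous fun y => L.rho y i j := fun i j => hrc.matrix_elem i j
  have hentI : ∀ (c : ℂ) i j, Integrable (fun y => c * L.rho y i j) μ := fun c i j =>
    intg μ (by have := hent i j; fun_prop)
  obtain ⟨P, hP⟩ : ∃ P : Mt m, ∀ i j, P i j = ∫ y, L.rho y i j ∂μ :=
    ⟨Matrix.of fun i j => ∫ y, L.rho y i j ∂μ, fun i j => rfl⟩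
  have hP1 : ∀ g, P * L.rho g = P := by
    intro g
    ext i j
    rw [mul_apply, hP i j]
    have h1 : ∀ k, P i k * L.rho g k j = ∫ y, L.rho g k j * L.rho y i k ∂μ := by
      intro k
      rw [hP, integral_const_mul, mul_comm]
    simp only [h1]
    rw [← integral_finsetSum _ fun k _ => hentI _ _ _]
    have h2 : ∀ y, ∑ k, L.rho g k j * L.rho y i k = L.rho (y * g) i j := by
      intro y
      rw [map_mul, mul_apply]
      exact Finset.sum_congr rfl fun k _ => mul_comm _ _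
    simp only [h2]
    exact integral_mul_right_eq_self (fun y => L.rho y i j) g
  have hP2 : P * P = P := by
    ext i j
    rw [mul_apply]
    have h1 : ∀ k, P i k * P k j = ∫ y, P i k * L.rho y k j ∂μ := by
      intro k
      rw [integral_const_mul, hP k j]
    simp only [h1]
    rw [← integral_finsetSum _ fun k _ => hentI _ _ _]
    have h2 : ∀ y, ∑ k, P i k * L.rho y k j = P i j := by
      intro y
      rw [← mul_apply, hP1]
    simp only [h2]
    rw [integral_const, probReal_univ, one_smul]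
  have hne1 : (1 : Mt m) - P ≠ 0 := by
    intro h0
    have h1 : P = 1 := (sub_eq_zero.1 h0).symm
    have h2 : ∀ g, L.rho g = 1 := fun g => by
      have := hP1 g
      rwa [h1, one_mul] at this
    obtain ⟨X, hX, hX0⟩ := hne
    apply hX0
    have h3 : (fun t : ℝ => NormedSpace.exp (t • X)) = fun _ => (1 : Mt m) := by
      funext t
      obtain ⟨g, hg⟩ := hX t
      rw [← hg, h2]
    have h4 : HasDerivAt (fun t : ℝ => NormedSpace.exp (t • X)) X 0 := by
      have := hasDerivAt_exp X (0 : ℝ)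
      rwa [zero_smul, NormedSpace.exp_zero, one_mul] at this
    rw [h3] at h4
    exact (h4.unique (hasDerivAt_const 0 _))
  have hn0 : 0 < ‖(1 : Mt m) - P‖ := norm_pos_iff.2 hne1
  obtain ⟨V, hV⟩ : ∃ V : Mt m, V = (‖(1 : Mt m) - P‖⁻¹ : ℂ) • (1 - P) := ⟨_, rfl⟩
  have hV1 : ‖V‖ = 1 := by
    rw [hV, norm_smul, norm_inv, Complex.norm_real, norm_norm, inv_mul_cancel₀ hn0.ne']
  have hPV : P * V = 0 := by
    rw [hV, Matrix.mul_smul, mul_sub, mul_one, hP2, sub_self, smul_zero]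
  have htr : ∀ A B : Mt m, (trace (Aᴴ * B)).re =
      ∑ i : m × m, ((A i.1 i.2).re * (B i.1 i.2).re + (A i.1 i.2).im * (B i.1 i.2).im) := by
    intro A B
    rw [Fintype.sum_prod_type_right]
    unfold trace
    rw [Complex.re_sum]
    refine Finset.sum_congr rfl fun j _ => ?_
    rw [diag_apply, mul_apply, Complex.re_sum]
    refine Finset.sum_congr rfl fun i _ => ?_
    rw [conjTranspose_apply, Complex.star_def, Complex.mul_re, Complex.conj_re, Complex.conj_im]
    ring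
  have hinvr : ∀ x, (L.rho x)ᴴ = L.rho x⁻¹ := by
    intro x
    have h1 := L.unit x
    have h2 : L.rho x⁻¹ * L.rho x = 1 := by rw [← map_mul, inv_mul_cancel, map_one]
    calc (L.rho x)ᴴ = (L.rho x⁻¹ * L.rho x) * (L.rho x)ᴴ := by rw [h2, one_mul]
      _ = L.rho x⁻¹ * (L.rho x * (L.rho x)ᴴ) := by rw [mul_assoc]
      _ = L.rho x⁻¹ := by rw [h1, mul_one]
  have hVV : (trace (Vᴴ * V)).re = 1 := by rw [← norm_sq_eq, hV1, one_pow]
  refine ⟨Sum.elim (fun i y => ((L.rho y * V) i.1 i.2).re) (fun i y => ((L.rho y * V) i.1 i.2).im),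
    fun y => (trace (Vᴴ * (L.rho y * V))).re, ?_, ?_, ?_, ?_, ?_⟩
  · have hc : Continuous fun y => L.rho y * V := by fun_prop
    have hc2 : ∀ i : m × m, Continuous fun y => (L.rho y * V) i.1 i.2 := fun i =>
      (continuous_apply_apply i.1 i.2).comp hc
    rintro (i | i)
    · exact Complex.continuous_re.comp (hc2 i)
    · exact Complex.continuous_im.comp (hc2 i)
  · intro x y
    rw [Fintype.sum_sum_type]
    simp only [Sum.elim_inl, Sum.elim_inr]
    rw [← Finset.sum_add_distrib, ← htr]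
    congr 2
    rw [conjTranspose_mul, hinvr, map_mul]
    simp only [mul_assoc]
  · simp only [map_one, one_mul]
    exact hVV
  · have h1 : ∀ A : Mt m, trace (Vᴴ * (A * V)) = ∑ i, ∑ j, (V * Vᴴ) i j * A j i := by
      intro A
      have h2 : trace (Vᴴ * (A * V)) = trace ((V * Vᴴ) * A) := by
        rw [← mul_assoc, trace_mul_comm, mul_assoc]
      rw [h2]
      unfold trace
      refine Finset.sum_congr rfl fun i _ => ?_
      rw [diag_apply, mul_apply]
    have h2 : ∫ y, trace (Vᴴ * (L.rho y * V)) ∂μ = trace (Vᴴ * (P * V)) := by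
      simp only [h1]
      rw [integral_finsetSum _ fun i _ => integrable_finsetSum _ fun j _ => hentI _ _ _]
      refine Finset.sum_congr rfl fun i _ => ?_
      rw [integral_finsetSum _ fun j _ => hentI _ _ _]
      refine Finset.sum_congr rfl fun j _ => ?_
      rw [integral_const_mul, hP]
    have h3 : Integrable (fun y => trace (Vᴴ * (L.rho y * V))) μ := by
      simp only [h1]
      exact integrable_finsetSum _ fun i _ => integrable_finsetSum _ fun j _ => hentI _ _ _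
    have h4 := Complex.reCLM.integral_comp_comm h3
    simp only [Complex.reCLM_apply] at h4
    rw [h4, h2, hPV, mul_zero, trace_zero, Complex.zero_re]
  · intro y
    have h1 : ‖L.rho y * V - V‖ ≤ dis L y := by
      have h2 : L.rho y * V - V = (L.rho y - 1) * V := by rw [sub_mul, one_mul]
      rw [h2]
      refine (norm_mul_le _ _).trans ?_
      rw [hV1, mul_one]
      exact le_rfl
    have h2 : ‖L.rho y * V - V‖ ^ 2 = 2 - 2 * (trace (Vᴴ * (L.rho y * V))).re := by
      rw [norm_sq_eq, conjTranspose_sub, sub_mul, mul_sub, mul_sub, trace_sub, trace_sub, trace_sub,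
        Complex.sub_re, Complex.sub_re, Complex.sub_re, hVV]
      have h3 : (trace ((L.rho y * V)ᴴ * (L.rho y * V))).re = 1 := by
        rw [conjTranspose_mul, hinvr]
        have : Vᴴ * L.rho y⁻¹ * (L.rho y * V) = Vᴴ * V := by
          rw [mul_assoc, ← mul_assoc (L.rho y⁻¹), ← map_mul, inv_mul_cancel, map_one, one_mul]
        rw [this, hVV]
      have h4 : (trace ((L.rho y * V)ᴴ * V)).re = (trace (Vᴴ * (L.rho y * V))).re := by
        rw [htr, htr]
        exact Finset.sum_congr rfl fun i _ => by ring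
      rw [h3, h4]
      ring
    have h3 : ‖L.rho y * V - V‖ ^ 2 ≤ dis L y ^ 2 := pow_le_pow_left₀ (norm_nonneg _) h1 2
    simp only []
    linarith

end Low

/-- Double exponential lower bound: the renormalised functions do not converge to `1` faster than
`exp (- σ 4 ^ k)`. -/
theorem lower (f : G → ℝ) (hf : PD μ f) (hcls : ∀ x y, f (y * x * y⁻¹) = f x)
    (hinv : ∀ x, f x⁻¹ = f x) (hne : ∃ X ∈ lieSet L, X ≠ 0)
    (hg : ∫ y, dis L y ^ 2 * f y ∂μ ≤ 1) (B : ℝ) (hB : ∀ k : ℕ, ∀ x, (mk μ)^[k] f x ≤ B) :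
    ∃ c σ : ℝ, 0 < c ∧ 0 < σ ∧ ∀ k : ℕ, ∃ x, c * Real.exp (-(σ * 4 ^ k)) ≤
      |(mk μ)^[k] f x - 1| := by
  obtain ⟨e, χ, he, hχ, h1, h0, hlow⟩ := Low.exists_chi μ L hne
  have hχc := Low.chi_cont he hχ
  have hpd : ∀ k, PD μ ((mk μ)^[k] f) ∧ ∀ x, (mk μ)^[k] f x⁻¹ = (mk μ)^[k] f x := by
    intro k
    induction k with
    | zero => exact ⟨hf, hinv⟩
    | succ k ih =>
      rw [Function.iterate_succ_apply']
      exact ⟨pd_mk μ _ ih.1, Low.mk_sym μ ih.2⟩
  obtain ⟨a, ha⟩ : ∃ a : ℕ → ℝ, a = fun k => ∫ y, (mk μ)^[k] f y * χ y ∂μ := ⟨_, rfl⟩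
  have hdisc : Continuous (dis L) := by
    unfold dis
    have := L.cont
    fun_prop
  have ha0 : 1 / 2 ≤ a 0 := by
    have h2 : ∫ y, (f y - dis L y ^ 2 * f y / 2) ∂μ ≤ a 0 := by
      rw [ha]
      have hfc := hf.cont
      refine integral_mono (integrable_cont μ (by fun_prop)) (integrable_cont μ ?_) fun y => ?_
      · simp only [Function.iterate_zero, id_eq]
        fun_prop
      · simp only [Function.iterate_zero, id_eq]
        have := mul_le_mul_of_nonneg_left (hlow y) (hf.nonneg y)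
        nlinarith
    have hfc := hf.cont
    rw [integral_sub (integrable_cont μ (by fun_prop)) (integrable_cont μ (by fun_prop)), hf.int,
      integral_div] at h2
    linarith
  have hB1 : 1 ≤ B := by
    have h2 : ∫ y, f y ∂μ ≤ ∫ _y, B ∂μ :=
      integral_mono (integrable_cont μ hf.cont) (integrable_cont μ continuous_const) fun y => hB 0 y
    rwa [hf.int, integral_const, probReal_univ, one_smul] at h2
  have hstep : ∀ k, 4 * a k ^ 4 ≤ B ^ 3 * a (k + 1) := by
    intro k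
    rw [ha]
    simp only [Function.iterate_succ_apply']
    exact Low.step μ he hχ h1 h0 (hpd k).1 (hpd k).2 (hB k)
  have hB3 : 0 < B ^ 3 := by positivity
  obtain ⟨D, hD⟩ : ∃ D, D = Real.log (B ^ 3) := ⟨_, rfl⟩
  have hD0 : 0 ≤ D := by
    rw [hD]
    exact Real.log_nonneg (one_le_pow₀ hB1)
  have hDe : Real.exp D = B ^ 3 := by rw [hD, Real.exp_log hB3]
  obtain ⟨σ, hσ⟩ : ∃ σ, σ = D / 3 + Real.log 2 := ⟨_, rfl⟩
  have hlog2 : 0 < Real.log 2 := Real.log_pos (by norm_num)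
  have hrec : ∀ k : ℕ, Real.exp (-(σ * 4 ^ k - D / 3)) ≤ a k := by
    intro k
    induction k with
    | zero =>
      have h2 : -(σ * 4 ^ 0 - D / 3) = -Real.log 2 := by rw [hσ]; ring
      rw [h2, Real.exp_neg, Real.exp_log (by norm_num)]
      linarith
    | succ k ih =>
      have h2 : Real.exp (-(σ * 4 ^ k - D / 3)) ^ 4 ≤ a k ^ 4 :=
        pow_le_pow_left₀ (Real.exp_pos _).le ih 4
      rw [← Real.exp_nat_mul] at h2
      have h3 := hstep k
      have h4 : B ^ 3 * Real.exp (-(σ * 4 ^ (k + 1) - D / 3)) =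
          Real.exp (((4 : ℕ) : ℝ) * -(σ * 4 ^ k - D / 3)) := by
        rw [← hDe, ← Real.exp_add]
        congr 1
        push_cast
        ring
      have h5 : 0 ≤ a k ^ 4 := by positivity
      have h6 : B ^ 3 * Real.exp (-(σ * 4 ^ (k + 1) - D / 3)) ≤ B ^ 3 * a (k + 1) := by
        rw [h4]
        linarith
      exact le_of_mul_le_mul_left h6 hB3
  refine ⟨1, σ, one_pos, by rw [hσ]; positivity, fun k => ?_⟩
  have hpk := (hpd k).1
  have hkc := hpk.cont
  obtain ⟨x, -, hx⟩ := isCompact_univ.exists_isMaxOn (Set.univ_nonempty (α := G))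
    (f := fun x => |(mk μ)^[k] f x - 1|) (by fun_prop : Continuous fun x =>
      |(mk μ)^[k] f x - 1|).continuousOn
  refine ⟨x, ?_⟩
  rw [one_mul]
  have h2 : Real.exp (-(σ * 4 ^ k)) ≤ a k := by
    refine le_trans (Real.exp_le_exp.2 ?_) (hrec k)
    linarith
  refine h2.trans ?_
  have h3 : a k = ∫ y, ((mk μ)^[k] f y - 1) * χ y ∂μ := by
    have h4 : ∀ y, ((mk μ)^[k] f y - 1) * χ y = (mk μ)^[k] f y * χ y - χ y := fun y => by ring
    simp only [h4]
    rw [integral_sub (integrable_cont μ (by fun_prop)) (integrable_cont μ (by fun_prop)), h0,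
      sub_zero, ha]
  rw [h3]
  have h4 : ∫ y, ((mk μ)^[k] f y - 1) * χ y ∂μ ≤ ∫ _y, |(mk μ)^[k] f x - 1| ∂μ := by
    refine integral_mono (integrable_cont μ (by fun_prop)) (integrable_cont μ continuous_const)
      fun y => ?_
    have h5 := hx (Set.mem_univ y)
    have h6 := Low.chi_le hχ h1 y
    calc ((mk μ)^[k] f y - 1) * χ y ≤ |((mk μ)^[k] f y - 1) * χ y| := le_abs_self _
      _ = |(mk μ)^[k] f y - 1| * |χ y| := abs_mul _ _
      _ ≤ |(mk μ)^[k] f y - 1| * 1 := mul_le_mul_of_nonneg_left h6 (abs_nonneg _)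
      _ ≤ |(mk μ)^[k] f x - 1| := by rw [mul_one]; exact h5
  rwa [integral_const, probReal_univ, one_smul] at h4

end

end Pool.Agent.T2H04.HY
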