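import Mathlib
import Pool.Agent.T2H04.HY.Low

/-!
# The `L²` norm along the renormalisation group: one step
-/

open MeasureTheory Matrix Filter
open scoped Matrix.Norms.Frobenius Topology

namespace Pool.Agent.T2H04.HY

set_option linter.unusedSectionVars false

noncomputable section

variable {G : Type} [Group G] [TopologicalSpace G] [IsTopologicalGroup G] [CompactSpace G]
  [MeasurableSpace G] [BorelSpace G] (μ : Measure G) [μ.IsHaarMeasure] [IsProbabilityMeasure μ]

namespace TenLim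

/-- the square of the `L²` norm -/
def M2 (h : G → ℝ) : ℝ := ∫ x, h x ^ 2 ∂μ

theorem M2_nonneg (h : G → ℝ) : 0 ≤ M2 μ h := integral_nonneg fun _ => sq_nonneg _

theorem cs {a b : G → ℝ} (ha : Continuous a) (hb : Continuous b) :
    (∫ x, a x * b x ∂μ) ^ 2 ≤ M2 μ a * M2 μ b := by
  have h1 : ∀ t : ℝ, 0 ≤ M2 μ b * (t * t) + (-2 * ∫ x, a x * b x ∂μ) * t + M2 μ a := by
    intro t
    have h2 : 0 ≤ ∫ x, (a x - t * b x) ^ 2 ∂μ := integral_nonneg fun _ => sq_nonneg _
    have h3 : ∀ x, (a x - t * b x) ^ 2 = a x ^ 2 - 2 * t * (a x * b x) + t * t * b x ^ 2 :=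
      fun x => by ring
    simp only [h3] at h2
    rw [integral_add (integrable_cont μ (by fun_prop)) (integrable_cont μ (by fun_prop)),
      integral_sub (integrable_cont μ (by fun_prop)) (integrable_cont μ (by fun_prop)),
      integral_const_mul, integral_const_mul] at h2
    unfold M2
    linarith
  have h2 := discrim_le_zero h1
  unfold discrim at h2
  nlinarith

theorem M2_pos {h : G → ℝ} (hc : Continuous h) {x : G} (hx : h x ≠ 0) : 0 < M2 μ h :=
  Continuous.integral_pos_of_hasCompactSupport_nonneg_nonzero (x := x) (by fun_prop)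
    (HasCompactSupport.of_compactSpace _) (fun z => sq_nonneg _) (by positivity)

theorem M2_shift {b : G → ℝ} (x : G) : ∫ y, b (y⁻¹ * x) ^ 2 ∂μ = M2 μ b := by
  have := right_inv' μ
  have := inv_inv' μ
  unfold M2
  rw [← integral_mul_right_eq_self (fun y => b y ^ 2) x,
    ← integral_inv_eq_self (fun y => b (y * x) ^ 2) μ]

theorem cnv_abs {a b : G → ℝ} (ha : Continuous a) (hb : Continuous b) (x : G) :
    cnv μ a b x ^ 2 ≤ M2 μ a * M2 μ b := by
  have h1 := cs μ ha (b := fun y => b (y⁻¹ * x)) (by fun_prop)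
  have h2 : M2 μ (fun y => b (y⁻¹ * x)) = M2 μ b := M2_shift μ x
  rw [h2] at h1
  exact h1

/-- self adjointness -/
theorem adj {h a b : G → ℝ} (hh : Continuous h) (ha : Continuous a) (hb : Continuous b)
    (hs : ∀ x, h x⁻¹ = h x) :
    ∫ x, a x * cnv μ h b x ∂μ = ∫ x, cnv μ h a x * b x ∂μ := by
  have := inv_inv' μ
  have e1 : ∀ x, a x * cnv μ h b x = ∫ y, a x * (h y * b (y⁻¹ * x)) ∂μ := by
    intro x
    unfold cnv
    rw [integral_const_mul]
  have e2 : ∀ x, cnv μ h a x * b x = ∫ y, h y * a (y⁻¹ * x) * b x ∂μ := by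
    intro x
    unfold cnv
    rw [integral_mul_const]
  simp only [e1, e2]
  rw [Low.swap μ (F := fun x y => a x * (h y * b (y⁻¹ * x)))
      (by unfold Function.uncurry; fun_prop),
    Low.swap μ (F := fun x y => h y * a (y⁻¹ * x) * b x) (by unfold Function.uncurry; fun_prop)]
  rw [← integral_inv_eq_self (fun y => ∫ x, h y * a (y⁻¹ * x) * b x ∂μ) μ]
  refine integral_congr_ae (Filter.Eventually.of_forall fun y => ?_)
  simp only []
  rw [← Low.shl μ (fun x => a x * (h y * b (y⁻¹ * x))) y]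
  refine integral_congr_ae (Filter.Eventually.of_forall fun x => ?_)
  simp only []
  rw [inv_mul_cancel_left, inv_inv, hs]
  ring

/-- associativity -/
theorem assoc {h k b : G → ℝ} (hh : Continuous h) (hk : Continuous k) (hb : Continuous b) (x : G) :
    cnv μ h (cnv μ k b) x = cnv μ (cnv μ h k) b x := by
  unfold cnv
  have e1 : ∀ y, h y * ∫ z, k z * b (z⁻¹ * (y⁻¹ * x)) ∂μ =
      ∫ z, h y * (k (y⁻¹ * z) * b (z⁻¹ * x)) ∂μ := by
    intro y
    rw [← integral_const_mul, ← Low.shl μ (fun z => h y * (k z * b (z⁻¹ * (y⁻¹ * x)))) y⁻¹]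
    refine integral_congr_ae (Filter.Eventually.of_forall fun z => ?_)
    simp only []
    congr 3
    group
  have e2 : ∀ z, (∫ y, h y * k (y⁻¹ * z) ∂μ) * b (z⁻¹ * x) =
      ∫ y, h y * (k (y⁻¹ * z) * b (z⁻¹ * x)) ∂μ := by
    intro z
    rw [← integral_mul_const]
    refine integral_congr_ae (Filter.Eventually.of_forall fun y => ?_)
    simp only []
    ring
  simp only [e1, e2]
  rw [Low.swap μ (F := fun y z => h y * (k (y⁻¹ * z) * b (z⁻¹ * x)))
    (by unfold Function.uncurry; fun_prop)]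

/-- log-convexity of the moments -/
theorem logconv {h : G → ℝ} (hh : Continuous h) (hs : ∀ x, h x⁻¹ = h x) :
    M2 μ (cnv μ h h) ^ 3 ≤ M2 μ h ^ 2 * M2 μ (cnv μ (cnv μ h h) (cnv μ h h)) := by
  obtain ⟨g, hg⟩ : ∃ g, g = cnv μ h h := ⟨_, rfl⟩
  have hgc : Continuous g := by rw [hg]; exact continuous_cnv μ hh hh
  have hhg : Continuous (cnv μ h g) := continuous_cnv μ hh hgc
  have hgg : Continuous (cnv μ g g) := continuous_cnv μ hgc hgc
  rw [← hg]
  -- M4² ≤ M2 M6
  have h1 : M2 μ g ^ 2 ≤ M2 μ h * M2 μ (cnv μ h g) := by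
    have e1 : M2 μ g = ∫ x, cnv μ h g x * h x ∂μ := by
      rw [← adj μ hh hgc hh hs, ← hg]
      unfold M2
      refine integral_congr_ae (Filter.Eventually.of_forall fun x => ?_)
      simp only []
      ring
    have h2 := cs μ hhg hh
    rw [← e1] at h2
    linarith
  have h2 : M2 μ (cnv μ h g) ^ 2 ≤ M2 μ g * M2 μ (cnv μ g g) := by
    have e1 : M2 μ (cnv μ h g) = ∫ x, cnv μ g g x * g x ∂μ := by
      have e2 : M2 μ (cnv μ h g) = ∫ x, cnv μ h g x * cnv μ h g x ∂μ := by
        unfold M2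
        refine integral_congr_ae (Filter.Eventually.of_forall fun x => ?_)
        simp only []
        ring
      rw [e2, adj μ hh hhg hgc hs]
      refine integral_congr_ae (Filter.Eventually.of_forall fun x => ?_)
      simp only []
      rw [assoc μ hh hh hgc, ← hg]
    have h3 := cs μ hgg hgc
    rw [← e1] at h3
    linarith
  have p2 := M2_nonneg μ h
  have p4 := M2_nonneg μ g
  have p6 := M2_nonneg μ (cnv μ h g)
  have p8 := M2_nonneg μ (cnv μ g g)
  rcases p4.eq_or_lt with h0 | h0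
  · rw [← h0]
    have : 0 ≤ M2 μ h ^ 2 * M2 μ (cnv μ g g) := by positivity
    linarith
  · have h3 : M2 μ g ^ 4 ≤ M2 μ h ^ 2 * (M2 μ g * M2 μ (cnv μ g g)) := by
      calc M2 μ g ^ 4 = (M2 μ g ^ 2) ^ 2 := by ring
        _ ≤ (M2 μ h * M2 μ (cnv μ h g)) ^ 2 := pow_le_pow_left₀ (sq_nonneg _) h1 2
        _ = M2 μ h ^ 2 * M2 μ (cnv μ h g) ^ 2 := by ring
        _ ≤ _ := mul_le_mul_of_nonneg_left h2 (by positivity)
    have h4 : M2 μ g * M2 μ g ^ 3 ≤ M2 μ g * (M2 μ h ^ 2 * M2 μ (cnv μ g g)) := by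
      calc M2 μ g * M2 μ g ^ 3 = M2 μ g ^ 4 := by ring
        _ ≤ _ := h3
        _ = _ := by ring
    exact le_of_mul_le_mul_left h4 h0

/-- the `L²` norm -/
def nn (h : G → ℝ) : ℝ := Real.sqrt (M2 μ h)

theorem nn_nonneg (h : G → ℝ) : 0 ≤ nn μ h := Real.sqrt_nonneg _

theorem nn_sq (h : G → ℝ) : nn μ h ^ 2 = M2 μ h := Real.sq_sqrt (M2_nonneg μ h)

theorem cs' {a b : G → ℝ} (ha : Continuous a) (hb : Continuous b) :
    |∫ x, a x * b x ∂μ| ≤ nn μ a * nn μ b := by
  refine abs_le_of_sq_le_sq ?_ (mul_nonneg (nn_nonneg _ _) (nn_nonneg _ _))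
  rw [mul_pow, nn_sq, nn_sq]
  exact cs μ ha hb

theorem cnv_le' {a b : G → ℝ} (ha : Continuous a) (hb : Continuous b) (x : G) :
    |cnv μ a b x| ≤ nn μ a * nn μ b := by
  refine abs_le_of_sq_le_sq ?_ (mul_nonneg (nn_nonneg _ _) (nn_nonneg _ _))
  rw [mul_pow, nn_sq, nn_sq]
  exact cnv_abs μ ha hb x

theorem nn_add {a b : G → ℝ} (ha : Continuous a) (hb : Continuous b) :
    nn μ (fun x => a x + b x) ≤ nn μ a + nn μ b := by
  refine Real.sqrt_le_iff.2 ⟨add_nonneg (nn_nonneg _ _) (nn_nonneg _ _), ?_⟩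
  have h1 : M2 μ (fun x => a x + b x) = M2 μ a + 2 * (∫ x, a x * b x ∂μ) + M2 μ b := by
    unfold M2
    have h2 : ∀ x, (a x + b x) ^ 2 = a x ^ 2 + 2 * (a x * b x) + b x ^ 2 := fun x => by ring
    simp only [h2]
    rw [integral_add (integrable_cont μ (by fun_prop)) (integrable_cont μ (by fun_prop)),
      integral_add (integrable_cont μ (by fun_prop)) (integrable_cont μ (by fun_prop)),
      integral_const_mul]
  have h2 := (abs_le.1 (cs' μ ha hb)).2
  have h3 := nn_sq μ a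
  have h4 := nn_sq μ b
  rw [h1]
  nlinarith

theorem nn_smul {a : G → ℝ} {c : ℝ} (hc : 0 ≤ c) : nn μ (fun x => c * a x) = c * nn μ a := by
  unfold nn
  have h1 : M2 μ (fun x => c * a x) = c ^ 2 * M2 μ a := by
    unfold M2
    have h2 : ∀ x, (c * a x) ^ 2 = c ^ 2 * a x ^ 2 := fun x => by ring
    simp only [h2]
    rw [integral_const_mul]
  rw [h1, Real.sqrt_mul (sq_nonneg _), Real.sqrt_sq hc]

theorem nn_neg {a : G → ℝ} : nn μ (fun x => -a x) = nn μ a := by
  unfold nn M2
  simp only [neg_sq]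

theorem nn_le_sup {a : G → ℝ} (ha : Continuous a) {c : ℝ} (hc : 0 ≤ c) (h : ∀ x, |a x| ≤ c) :
    nn μ a ≤ c := by
  refine Real.sqrt_le_iff.2 ⟨hc, ?_⟩
  have h1 : M2 μ a ≤ ∫ _x : G, c ^ 2 ∂μ := by
    refine integral_mono (integrable_cont μ (by fun_prop)) (integrable_cont μ continuous_const)
      fun x => ?_
    simp only []
    rw [← sq_abs]
    exact pow_le_pow_left₀ (abs_nonneg _) (h x) 2
  rwa [integral_const, probReal_univ, one_smul] at h1

theorem nn_sub_ge {a b : G → ℝ} (ha : Continuous a) (hb : Continuous b) :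
    nn μ a - nn μ b ≤ nn μ (fun x => a x + b x) := by
  have h1 := nn_add μ (a := fun x => a x + b x) (b := fun x => -b x) (by fun_prop) (by fun_prop)
  have h2 : (fun x => a x + b x + -b x) = a := funext fun x => by ring
  rw [h2, nn_neg] at h1
  linarith

end TenLim

end

end Pool.Agent.T2H04.HY
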