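import Mathlib
import Pool.Agent.T2H04.HY.TenLimA

/-!
# The `L²` norm along the renormalisation group: the participation ratio
-/

open MeasureTheory Matrix Filter
open scoped Matrix.Norms.Frobenius Topology

namespace Pool.Agent.T2H04.HY

set_option linter.unusedSectionVars false

noncomputable section

variable {G : Type} [Group G] [TopologicalSpace G] [IsTopologicalGroup G] [CompactSpace G]
  [MeasurableSpace G] [BorelSpace G] (μ : Measure G) [μ.IsHaarMeasure] [IsProbabilityMeasure μ]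

namespace TenLim

/-- the difference to the constant density -/
def dh (f : G → ℝ) : G → ℝ := fun y => f y - 1

/-- its square under convolution -/
def dg (f : G → ℝ) : G → ℝ := cnv μ (dh f) (dh f)

/-- its fourth power under convolution -/
def dH (f : G → ℝ) : G → ℝ := cnv μ (dg μ f) (dg μ f)

section one

variable {μ} {f : G → ℝ} (hf : PD μ f) (hs : ∀ x, f x⁻¹ = f x)

include hf in
theorem dh_cont : Continuous (dh f) := by
  have := hf.cont
  unfold dh
  fun_prop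

include hf in
theorem dg_cont : Continuous (dg μ f) := continuous_cnv μ (dh_cont hf) (dh_cont hf)

include hf in
theorem dH_cont : Continuous (dH μ f) := continuous_cnv μ (dg_cont hf) (dg_cont hf)

include hs in
theorem dh_sym (x : G) : dh f x⁻¹ = dh f x := by
  unfold dh
  rw [hs]

include hs in
theorem dg_sym (x : G) : dg μ f x⁻¹ = dg μ f x := Low.cnv_sym μ (dh_sym hs) x

include hs in
theorem dH_sym (x : G) : dH μ f x⁻¹ = dH μ f x := Low.cnv_sym μ (dg_sym hs) x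

include hf hs in
theorem cnv4_eq (x : G) : cnv4 μ f x = 1 + dH μ f x := by
  have hfc := hf.cont
  have h1 : dg μ f = fun y => cnv μ f f y - 1 := by
    funext y
    exact Low.cnv_sub_one μ hfc hs hf.int y
  have h2 : ∫ x, cnv μ f f x ∂μ = 1 := by
    rw [Low.int_cnv μ hfc hfc, hf.int, one_mul]
  unfold dH cnv4
  rw [h1, Low.cnv_sub_one μ (continuous_cnv μ hfc hfc) (Low.cnv_sym μ hs) h2 x]
  ring

include hf in
theorem int_dH : ∫ x, dH μ f x ∂μ = 0 := by
  have h1 : ∫ x, dh f x ∂μ = 0 := by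
    unfold dh
    rw [integral_sub (integrable_cont μ hf.cont) (integrable_cont μ continuous_const), hf.int,
      integral_const, probReal_univ, one_smul]
    ring
  unfold dH
  rw [Low.int_cnv μ (dg_cont hf) (dg_cont hf)]
  unfold dg
  rw [Low.int_cnv μ (dh_cont hf) (dh_cont hf), h1]
  ring

/-- convolution at the unit -/
theorem cnv_one_eq {k : G → ℝ} (hk : ∀ x, k x⁻¹ = k x) : cnv μ k k 1 = M2 μ k := by
  unfold cnv M2
  refine integral_congr_ae (Filter.Eventually.of_forall fun y => ?_)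
  simp only []
  rw [mul_one, hk]
  ring

/-- a function with positive norm has a convolution square with positive norm -/
theorem pos_sq {k : G → ℝ} (hc : Continuous k) (hk : ∀ x, k x⁻¹ = k x) (h : 0 < M2 μ k) :
    0 < M2 μ (cnv μ k k) :=
  M2_pos μ (continuous_cnv μ hc hc) (x := 1) (by rw [cnv_one_eq hk]; exact h.ne')

/-- The ratio decreases. -/
theorem ratio {k : G → ℝ} (hc : Continuous k) (hk : ∀ x, k x⁻¹ = k x) (h : 0 < M2 μ k) :
    M2 μ (cnv μ k k) / nn μ (cnv μ (cnv μ k k) (cnv μ k k)) ≤ M2 μ k / nn μ (cnv μ k k) := by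
  have hc2 := continuous_cnv μ hc hc
  have h2 := pos_sq hc hk h
  have h3 := pos_sq hc2 (Low.cnv_sym μ hk) h2
  have h4 : 0 < nn μ (cnv μ k k) := Real.sqrt_pos.2 h2
  have h5 : 0 < nn μ (cnv μ (cnv μ k k) (cnv μ k k)) := Real.sqrt_pos.2 h3
  have h6 := logconv μ hc hk
  rw [← nn_sq μ (cnv μ k k), ← nn_sq μ (cnv μ (cnv μ k k) (cnv μ k k))] at h6
  rw [div_le_div_iff₀ h5 h4, ← nn_sq μ (cnv μ k k)]
  have h7 : (nn μ (cnv μ k k) ^ 3) ^ 2 ≤
      (M2 μ k * nn μ (cnv μ (cnv μ k k) (cnv μ k k))) ^ 2 := by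
    calc (nn μ (cnv μ k k) ^ 3) ^ 2 = (nn μ (cnv μ k k) ^ 2) ^ 3 := by ring
      _ ≤ _ := h6
      _ = _ := by ring
  have h8 := le_of_sq_le_sq h7 (mul_nonneg (M2_nonneg _ _) (nn_nonneg _ _))
  calc nn μ (cnv μ k k) ^ 2 * nn μ (cnv μ k k) = nn μ (cnv μ k k) ^ 3 := by ring
    _ ≤ _ := h8

/-- the remainder -/
def dP (f : G → ℝ) (x : G) : ℝ := 6 * dH μ f x ^ 2 + 4 * dH μ f x ^ 3 + dH μ f x ^ 4

include hf in
theorem dP_cont : Continuous (dP (μ := μ) f) := by
  have := dH_cont hf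
  unfold dP
  fun_prop

include hf hs in
theorem Z_eq : ∫ y, (cnv4 μ f y) ^ 4 ∂μ = 1 + ∫ y, dP (μ := μ) f y ∂μ := by
  have hc := dH_cont hf
  have hP := dP_cont hf
  have h1 : ∀ y, (cnv4 μ f y) ^ 4 = 1 + 4 * dH μ f y + dP (μ := μ) f y := by
    intro y
    rw [cnv4_eq hf hs]
    unfold dP
    ring
  simp only [h1]
  rw [integral_add (integrable_cont μ (by fun_prop)) (integrable_cont μ (by fun_prop)),
    integral_add (integrable_cont μ (by fun_prop)) (integrable_cont μ (by fun_prop)),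
    integral_const_mul, int_dH hf, integral_const, probReal_univ, one_smul]
  ring

/-- `Z h'` -/
def dk (f : G → ℝ) (x : G) : ℝ := 4 * dH μ f x + (dP (μ := μ) f x - ∫ y, dP (μ := μ) f y ∂μ)

include hf in
theorem dk_cont : Continuous (dk (μ := μ) f) := by
  have := dH_cont hf
  have := dP_cont hf
  unfold dk
  fun_prop

theorem dP_ge (x : G) : 0 ≤ dP (μ := μ) f x := by
  unfold dP
  have : 6 * dH μ f x ^ 2 + 4 * dH μ f x ^ 3 + dH μ f x ^ 4 =
    dH μ f x ^ 2 * (2 + (2 + dH μ f x) ^ 2) := by ring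
  rw [this]
  positivity

include hf hs in
theorem mk_eq (x : G) :
    dh (mk μ f) x = (1 + ∫ y, dP (μ := μ) f y ∂μ)⁻¹ * dk (μ := μ) f x := by
  have h0 : 0 ≤ ∫ y, dP (μ := μ) f y ∂μ := integral_nonneg fun y => dP_ge y
  have h1 : (1 + ∫ y, dP (μ := μ) f y ∂μ) ≠ 0 := by positivity
  unfold dh mk
  rw [Z_eq hf hs, cnv4_eq hf hs]
  field_simp
  unfold dk dP
  ring

end one

section small

variable {μ} {f : G → ℝ} (hf : PD μ f) (hs : ∀ x, f x⁻¹ = f x)
  (hm : M2 μ (dh f) ≤ 1 / 32) (h0 : 0 < M2 μ (dh f))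

include hf in
theorem dg_le (x : G) : |dg μ f x| ≤ M2 μ (dh f) := by
  have h1 := cnv_le' μ (dh_cont hf) (dh_cont hf) x
  have h2 := nn_sq μ (dh f)
  rw [pow_two] at h2
  rwa [h2] at h1

include hf in
theorem ndg_le : nn μ (dg μ f) ≤ M2 μ (dh f) := nn_le_sup μ (dg_cont hf) (M2_nonneg _ _) (dg_le hf)

include hf in
theorem dH_le (x : G) : |dH μ f x| ≤ M2 μ (dg μ f) := by
  have h1 := cnv_le' μ (dg_cont hf) (dg_cont hf) x
  have h2 := nn_sq μ (dg μ f)
  rw [pow_two] at h2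
  rwa [h2] at h1

include hf in
theorem ndH_le : nn μ (dH μ f) ≤ M2 μ (dg μ f) := nn_le_sup μ (dH_cont hf) (M2_nonneg _ _) (dH_le hf)

include hf in
theorem eta_le : M2 μ (dg μ f) ≤ M2 μ (dh f) ^ 2 := by
  rw [← nn_sq μ (dg μ f)]
  exact pow_le_pow_left₀ (nn_nonneg _ _) (ndg_le hf) 2

include hf hm in
/-- **One step.** -/
theorem step_all (hs : ∀ x, f x⁻¹ = f x) (h0 : 0 < M2 μ (dh f)) :
    0 < M2 μ (dg μ f) ∧ 0 < M2 μ (dh (mk μ f)) ∧ 0 < M2 μ (dg μ (mk μ f)) ∧
      M2 μ (dh (mk μ f)) ≤ 17 * M2 μ (dh f) ^ 4 ∧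
      M2 μ (dg μ f) ^ 3 ≤ M2 μ (dh f) ^ 2 * M2 μ (dh (mk μ f)) ∧
      M2 μ (dh (mk μ f)) / nn μ (dg μ (mk μ f)) ≤
        M2 μ (dh f) / nn μ (dg μ f) * (1 + 27 * M2 μ (dh f) ^ 2) := by
  have hhc := dh_cont hf
  have hgc := dg_cont hf
  have hHc := dH_cont hf
  have hPc := dP_cont hf
  have hkc := dk_cont hf
  obtain ⟨u, hu⟩ : ∃ u, u = M2 μ (dh f) ^ 2 := ⟨_, rfl⟩
  obtain ⟨η, hη⟩ : ∃ η, η = M2 μ (dg μ f) := ⟨_, rfl⟩
  obtain ⟨c, hc⟩ : ∃ c, c = ∫ y, dP (μ := μ) f y ∂μ := ⟨_, rfl⟩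
  have hu0 : 0 ≤ u := by rw [hu]; positivity
  have hu1 : u ≤ 1 / 1024 := by
    rw [hu]
    calc M2 μ (dh f) ^ 2 ≤ (1 / 32) ^ 2 := pow_le_pow_left₀ (M2_nonneg _ _) hm 2
      _ = _ := by norm_num
  have hη0 : 0 ≤ η := by rw [hη]; exact M2_nonneg _ _
  have hηu : η ≤ u := by rw [hη, hu]; exact eta_le hf
  have hg0 : 0 < M2 μ (dg μ f) := pos_sq hhc (dh_sym hs) h0
  have hH0 : 0 < M2 μ (dH μ f) := pos_sq hgc (dg_sym hs) hg0
  obtain ⟨q, hq⟩ : ∃ q, q = cnv μ (dH μ f) (dH μ f) := ⟨_, rfl⟩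
  have hqc : Continuous q := by rw [hq]; exact continuous_cnv μ hHc hHc
  have hq0 : 0 < M2 μ q := by rw [hq]; exact pos_sq hHc (dH_sym hs) hH0
  have hnq : 0 < nn μ q := Real.sqrt_pos.2 hq0
  have hng : 0 < nn μ (dg μ f) := Real.sqrt_pos.2 hg0
  -- ratios
  have hr1 : M2 μ (dH μ f) / nn μ q ≤ M2 μ (dh f) / nn μ (dg μ f) := by
    have h1 := ratio hhc (dh_sym hs) h0
    have h2 := ratio hgc (dg_sym hs) hg0
    rw [hq]
    exact h2.trans h1
  have hr2 : M2 μ (dH μ f) ≤ M2 μ (dh f) / nn μ (dg μ f) * nn μ q := by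
    rwa [div_le_iff₀ hnq] at hr1
  have hr3 : η * (M2 μ (dh f) / nn μ (dg μ f)) ≤ u := by
    rw [hη, ← nn_sq μ (dg μ f), mul_div_assoc', div_le_iff₀ hng, hu]
    have h1 := ndg_le hf
    have h2 := M2_nonneg μ (dh f)
    have h3 := nn_nonneg μ (dg μ f)
    have h4 : nn μ (dg μ f) * M2 μ (dh f) ≤ M2 μ (dh f) * M2 μ (dh f) :=
      mul_le_mul_of_nonneg_right h1 h2
    have h5 := mul_le_mul_of_nonneg_right h4 h3
    linarith
  have hr4 : η * M2 μ (dH μ f) ≤ u * nn μ q := by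
    calc η * M2 μ (dH μ f) ≤ η * (M2 μ (dh f) / nn μ (dg μ f) * nn μ q) :=
          mul_le_mul_of_nonneg_left hr2 hη0
      _ = η * (M2 μ (dh f) / nn μ (dg μ f)) * nn μ q := by ring
      _ ≤ _ := mul_le_mul_of_nonneg_right hr3 hnq.le
  -- the remainder
  have hHη : ∀ x, |dH μ f x| ≤ η := fun x => by rw [hη]; exact dH_le hf x
  have hη1 : η ≤ 1 := by linarith
  have hP1 : ∀ x, dP (μ := μ) f x ≤ 11 * dH μ f x ^ 2 := by
    intro x
    obtain ⟨b, hb⟩ : ∃ b, b = dH μ f x := ⟨_, rfl⟩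
    have h1 := hHη x
    rw [← hb] at h1
    obtain ⟨h2, h3⟩ := abs_le.1 h1
    unfold dP
    rw [← hb]
    have h4 : 6 * b ^ 2 + 4 * b ^ 3 + b ^ 4 = b ^ 2 * (6 + 4 * b + b ^ 2) := by ring
    have h5 : 6 + 4 * b + b ^ 2 ≤ 11 := by nlinarith
    rw [h4]
    have := mul_le_mul_of_nonneg_left h5 (sq_nonneg b)
    linarith
  have hc0 : 0 ≤ c := by rw [hc]; exact integral_nonneg fun y => dP_ge y
  have hc1 : c ≤ 11 * M2 μ (dH μ f) := by
    rw [hc]
    have h1 : ∫ y, dP (μ := μ) f y ∂μ ≤ ∫ y, 11 * dH μ f y ^ 2 ∂μ :=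
      integral_mono (integrable_cont μ hPc) (integrable_cont μ (by fun_prop)) hP1
    rwa [integral_const_mul] at h1
  have hHu : M2 μ (dH μ f) ≤ u ^ 2 := by
    rw [← nn_sq μ (dH μ f)]
    refine pow_le_pow_left₀ (nn_nonneg _ _) ((ndH_le hf).trans ?_) 2
    rw [← hη]
    exact hηu
  obtain ⟨R, hR⟩ : ∃ R : G → ℝ, R = fun x => dP (μ := μ) f x - c := ⟨_, rfl⟩
  have hRc : Continuous R := by rw [hR]; fun_prop
  have hRn : nn μ R ≤ 11 * η * nn μ (dH μ f) := by
    have h1 : M2 μ R ≤ (11 * η) ^ 2 * M2 μ (dH μ f) := by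
      have h2 : M2 μ R = (∫ y, dP (μ := μ) f y ^ 2 ∂μ) - c ^ 2 := by
        unfold M2
        rw [hR]
        have h3 : ∀ x, (dP (μ := μ) f x - c) ^ 2 =
            dP (μ := μ) f x ^ 2 - 2 * c * dP (μ := μ) f x + c ^ 2 := fun x => by ring
        simp only [h3]
        rw [integral_add (integrable_cont μ (by fun_prop)) (integrable_cont μ (by fun_prop)),
          integral_sub (integrable_cont μ (by fun_prop)) (integrable_cont μ (by fun_prop)),
          integral_const_mul, ← hc, integral_const, probReal_univ, one_smul]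
        ring
      have h3 : ∫ y, dP (μ := μ) f y ^ 2 ∂μ ≤ ∫ y, (11 * η) ^ 2 * dH μ f y ^ 2 ∂μ := by
        refine integral_mono (integrable_cont μ (by fun_prop)) (integrable_cont μ (by fun_prop))
          fun x => ?_
        simp only []
        have h4 := hP1 x
        have h5 := dP_ge (μ := μ) (f := f) x
        have h6 : dP (μ := μ) f x ≤ 11 * η * |dH μ f x| := by
          refine h4.trans ?_
          rw [← sq_abs (dH μ f x)]
          have h7 := mul_le_mul_of_nonneg_right (hHη x) (abs_nonneg (dH μ f x))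
          have h8 : |dH μ f x| ^ 2 = |dH μ f x| * |dH μ f x| := by ring
          rw [h8]
          linarith
        calc dP (μ := μ) f x ^ 2 ≤ (11 * η * |dH μ f x|) ^ 2 := pow_le_pow_left₀ h5 h6 2
          _ = _ := by rw [mul_pow, sq_abs]
      rw [integral_const_mul] at h3
      have h4 : 0 ≤ c ^ 2 := sq_nonneg c
      rw [h2]
      unfold M2
      linarith
    have h2 : nn μ R ^ 2 ≤ (11 * η * nn μ (dH μ f)) ^ 2 := by
      rw [nn_sq, mul_pow, nn_sq]
      exact h1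
    exact le_of_sq_le_sq h2 (mul_nonneg (by positivity) (nn_nonneg _ _))
  have hkR : dk (μ := μ) f = fun x => 4 * dH μ f x + R x := by
    funext x
    rw [hR]
    unfold dk
    rw [← hc]
  have hn4 : nn μ (fun x => 4 * dH μ f x) = 4 * nn μ (dH μ f) := nn_smul μ (by norm_num)
  have hnH := nn_nonneg μ (dH μ f)
  have hk1 : nn μ (dk (μ := μ) f) ≤ (4 + 11 * η) * nn μ (dH μ f) := by
    rw [hkR]
    have h1 := nn_add μ (a := fun x => 4 * dH μ f x) (b := R) (by fun_prop) hRc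
    rw [hn4] at h1
    linarith
  have hk2 : (4 - 11 * η) * nn μ (dH μ f) ≤ nn μ (dk (μ := μ) f) := by
    rw [hkR]
    have h1 := nn_sub_ge μ (a := fun x => 4 * dH μ f x) (b := R) (by fun_prop) hRc
    rw [hn4] at h1
    linarith
  have hM0 := M2_nonneg μ (dH μ f)
  have hMk1 : M2 μ (dk (μ := μ) f) ≤ (16 + 209 * u) * M2 μ (dH μ f) := by
    rw [← nn_sq μ (dk (μ := μ) f), ← nn_sq μ (dH μ f)]
    have h1 := pow_le_pow_left₀ (nn_nonneg μ _) hk1 2
    rw [mul_pow] at h1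
    refine h1.trans (mul_le_mul_of_nonneg_right ?_ (sq_nonneg _))
    nlinarith
  have hMk2 : 15 * M2 μ (dH μ f) ≤ M2 μ (dk (μ := μ) f) := by
    rw [← nn_sq μ (dk (μ := μ) f), ← nn_sq μ (dH μ f)]
    have h3 : 0 ≤ (4 - 11 * η) * nn μ (dH μ f) := mul_nonneg (by linarith) hnH
    have h1 := pow_le_pow_left₀ h3 hk2 2
    rw [mul_pow] at h1
    refine le_trans (mul_le_mul_of_nonneg_right ?_ (sq_nonneg _)) h1
    nlinarith
  obtain ⟨w, hw⟩ : ∃ w, w = (1 + c)⁻¹ := ⟨_, rfl⟩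
  have hw0 : 0 < w := by rw [hw]; positivity
  have hw1 : w ≤ 1 := by
    rw [hw]
    exact inv_le_one_of_one_le₀ (by linarith)
  have hw2 : 1 / 2 ≤ w := by
    rw [hw, one_div]
    refine inv_anti₀ (by positivity) ?_
    nlinarith
  have hh' : dh (mk μ f) = fun x => w * dk (μ := μ) f x := by
    funext x
    rw [mk_eq hf hs, ← hc, hw]
  have hM' : M2 μ (dh (mk μ f)) = w ^ 2 * M2 μ (dk (μ := μ) f) := by
    rw [← nn_sq μ (dh (mk μ f)), ← nn_sq μ (dk (μ := μ) f), hh', nn_smul μ hw0.le, mul_pow]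
  have hg' : dg μ (mk μ f) = fun x => w ^ 2 * cnv μ (dk (μ := μ) f) (dk (μ := μ) f) x := by
    funext x
    unfold dg
    rw [hh']
    unfold cnv
    rw [← integral_const_mul]
    refine integral_congr_ae (Filter.Eventually.of_forall fun y => ?_)
    simp only []
    ring
  have hng' : nn μ (dg μ (mk μ f)) = w ^ 2 * nn μ (cnv μ (dk (μ := μ) f) (dk (μ := μ) f)) := by
    rw [hg', nn_smul μ (by positivity)]
  -- the convolution square
  obtain ⟨W, hW⟩ : ∃ W : G → ℝ, W = fun x => 4 * cnv μ (dH μ f) R x + 4 * cnv μ R (dH μ f) x +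
      cnv μ R R x := ⟨_, rfl⟩
  have hc1' := continuous_cnv μ hHc hRc
  have hc2' := continuous_cnv μ hRc hHc
  have hc3' := continuous_cnv μ hRc hRc
  have hWc : Continuous W := by rw [hW]; fun_prop
  have hkk : cnv μ (dk (μ := μ) f) (dk (μ := μ) f) = fun x => 16 * q x + W x := by
    funext x
    rw [hkR, hq, hW]
    unfold cnv
    simp only []
    rw [← integral_const_mul, ← integral_const_mul, ← integral_const_mul,
      ← integral_add (integrable_cont μ (by fun_prop)) (integrable_cont μ (by fun_prop)),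
      ← integral_add (integrable_cont μ (by fun_prop)) (integrable_cont μ (by fun_prop)),
      ← integral_add (integrable_cont μ (by fun_prop)) (integrable_cont μ (by fun_prop))]
    refine integral_congr_ae (Filter.Eventually.of_forall fun y => ?_)
    simp only []
    ring
  have hWn : nn μ W ≤ 209 * u * nn μ q := by
    have h1 : ∀ x, |W x| ≤ 209 * (η * M2 μ (dH μ f)) := by
      intro x
      have a1 := cnv_le' μ hHc hRc x
      have a2 := cnv_le' μ hRc hHc x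
      have a3 := cnv_le' μ hRc hRc x
      have b1 : nn μ (dH μ f) * nn μ R ≤ 11 * (η * M2 μ (dH μ f)) := by
        have := mul_le_mul_of_nonneg_left hRn hnH
        rw [← nn_sq μ (dH μ f)]
        linarith
      have b3 : nn μ R * nn μ R ≤ 121 * (η * M2 μ (dH μ f)) := by
        have h3 := mul_le_mul hRn hRn (nn_nonneg _ _) (mul_nonneg (by positivity) hnH)
        have h4 : 11 * η * nn μ (dH μ f) * (11 * η * nn μ (dH μ f)) =
            121 * η * (η * M2 μ (dH μ f)) := by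
          rw [← nn_sq μ (dH μ f)]; ring
        rw [h4] at h3
        have h5 : η * (η * M2 μ (dH μ f)) ≤ 1 * (η * M2 μ (dH μ f)) :=
          mul_le_mul_of_nonneg_right hη1 (by positivity)
        linarith
      rw [hW]
      simp only []
      have h2 : |4 * cnv μ (dH μ f) R x + 4 * cnv μ R (dH μ f) x + cnv μ R R x| ≤
          4 * |cnv μ (dH μ f) R x| + 4 * |cnv μ R (dH μ f) x| + |cnv μ R R x| := by
        refine (abs_add_le _ _).trans ?_
        have := abs_add_le (4 * cnv μ (dH μ f) R x) (4 * cnv μ R (dH μ f) x)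
        rw [abs_mul, abs_mul, abs_of_pos (by norm_num : (0 : ℝ) < 4)] at this
        linarith
      have b2 : nn μ R * nn μ (dH μ f) ≤ 11 * (η * M2 μ (dH μ f)) := by rwa [mul_comm]
      linarith
    have h2 := nn_le_sup μ hWc (by positivity) h1
    have h3 := mul_le_mul_of_nonneg_left hr4 (by norm_num : (0 : ℝ) ≤ 209)
    linarith
  have hkk1 : (16 - 209 * u) * nn μ q ≤ nn μ (cnv μ (dk (μ := μ) f) (dk (μ := μ) f)) := by
    rw [hkk]
    have h1 := nn_sub_ge μ (a := fun x => 16 * q x) (b := W) (by fun_prop) hWc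
    rw [nn_smul μ (by norm_num)] at h1
    linarith
  have hkk0 : 0 < nn μ (cnv μ (dk (μ := μ) f) (dk (μ := μ) f)) :=
    lt_of_lt_of_le (mul_pos (by linarith) hnq) hkk1
  have hng'0 : 0 < nn μ (dg μ (mk μ f)) := by rw [hng']; positivity
  refine ⟨hg0, ?_, ?_, ?_, ?_, ?_⟩
  · rw [hM']
    have : 0 < M2 μ (dk (μ := μ) f) := lt_of_lt_of_le (by positivity) hMk2
    positivity
  · rw [← nn_sq]
    positivity
  · rw [hM']
    have h1 : w ^ 2 ≤ 1 := pow_le_one₀ hw0.le hw1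
    have h2 : u ^ 2 = M2 μ (dh f) ^ 4 := by rw [hu]; ring
    have h3 : M2 μ (dk (μ := μ) f) ≤ 17 * M2 μ (dH μ f) := by
      refine hMk1.trans (mul_le_mul_of_nonneg_right (by linarith) hM0)
    have h4 : w ^ 2 * M2 μ (dk (μ := μ) f) ≤ 1 * M2 μ (dk (μ := μ) f) :=
      mul_le_mul_of_nonneg_right h1 (M2_nonneg _ _)
    rw [← h2]
    linarith
  · have h1 := logconv μ hhc (dh_sym hs)
    have h2 : M2 μ (dH μ f) ≤ M2 μ (dh (mk μ f)) := by
      rw [hM']
      have h3 : (1 / 2 : ℝ) ^ 2 ≤ w ^ 2 := pow_le_pow_left₀ (by norm_num) hw2 2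
      have h4 : (1 / 2 : ℝ) ^ 2 * (15 * M2 μ (dH μ f)) ≤ w ^ 2 * M2 μ (dk (μ := μ) f) :=
        mul_le_mul h3 hMk2 (by positivity) (by positivity)
      linarith
    have h3 : M2 μ (dg μ f) ^ 3 ≤ M2 μ (dh f) ^ 2 * M2 μ (dH μ f) := h1
    exact h3.trans (mul_le_mul_of_nonneg_left h2 (by positivity))
  · rw [← hu, hM', hng', mul_div_mul_left _ _ (by positivity : w ^ 2 ≠ 0), div_le_iff₀ hkk0]
    have hrat0 : 0 ≤ M2 μ (dh f) / nn μ (dg μ f) := by positivity
    calc M2 μ (dk (μ := μ) f) ≤ (16 + 209 * u) * M2 μ (dH μ f) := hMk1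
      _ ≤ (16 + 209 * u) * (M2 μ (dh f) / nn μ (dg μ f) * nn μ q) :=
          mul_le_mul_of_nonneg_left hr2 (by positivity)
      _ ≤ ((1 + 27 * u) * (16 - 209 * u)) * (M2 μ (dh f) / nn μ (dg μ f) * nn μ q) := by
          refine mul_le_mul_of_nonneg_right ?_ (by positivity)
          nlinarith
      _ = M2 μ (dh f) / nn μ (dg μ f) * (1 + 27 * u) * ((16 - 209 * u) * nn μ q) := by ring
      _ ≤ _ := mul_le_mul_of_nonneg_left hkk1 (by positivity)

end small

section positive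

variable {μ} {f : G → ℝ}

/-- the density never becomes constant -/
theorem pos_step (hf : PD μ f) (hs : ∀ x, f x⁻¹ = f x) (h0 : 0 < M2 μ (dh f)) :
    0 < M2 μ (dh (mk μ f)) := by
  by_contra hcon
  have h1 : M2 μ (dh (mk μ f)) = 0 := le_antisymm (not_lt.1 hcon) (M2_nonneg _ _)
  have hmk := pd_mk μ f hf
  have h2 : ∀ x, mk μ f x = 1 := by
    intro x
    by_contra h
    have h3 : dh (mk μ f) x ≠ 0 := by
      unfold dh
      exact sub_ne_zero.2 h
    have h4 := M2_pos μ (dh_cont hmk) h3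
    linarith
  have hg0 : 0 < M2 μ (dg μ f) := pos_sq (dh_cont hf) (dh_sym hs) h0
  have hZ := norm_pos μ hf
  have h3 : ∀ x, (cnv4 μ f x) ^ 4 = ∫ y, (cnv4 μ f y) ^ 4 ∂μ := by
    intro x
    have h4 := h2 x
    unfold mk at h4
    rwa [div_eq_one_iff_eq hZ.ne'] at h4
  have h4 : ∀ x, 0 ≤ cnv4 μ f x := fun x =>
    cnv_nonneg0 μ (cnv_nonneg0 μ hf.nonneg hf.nonneg) (cnv_nonneg0 μ hf.nonneg hf.nonneg) x
  have h5 : ∀ x, cnv4 μ f x = cnv4 μ f 1 := by
    intro x
    have h6 : (cnv4 μ f x) ^ 4 = (cnv4 μ f 1) ^ 4 := by rw [h3 x, h3 1]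
    exact (pow_left_inj₀ (h4 x) (h4 1) (by norm_num)).1 h6
  have h6 : ∀ x, dH μ f x = dH μ f 1 := by
    intro x
    have h7 := h5 x
    rw [cnv4_eq hf hs, cnv4_eq hf hs] at h7
    linarith
  have h7 := int_dH hf
  simp only [h6] at h7
  rw [integral_const, probReal_univ, one_smul] at h7
  have h8 : dH μ f 1 = M2 μ (dg μ f) := cnv_one_eq (dg_sym hs)
  rw [h8] at h7
  linarith

end positive

end TenLim

end

end Pool.Agent.T2H04.HY
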