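import Mathlib
import Pool.Agent.T2H04.HY.AsmA
import Pool.Agent.T2H04.HY.TenLimB

/-!
# The smallest string tension

`e2 f = ∫ (f - 1)²` is the largest expectation `(∫ χ f)²` over the class functions `χ` with
`∫ χ = 0`, `∫ χ² ≤ 1`. Its exponential rate of decay under the renormalisation group exists and is
continuous.
-/

open MeasureTheory Matrix Filter
open scoped Matrix.Norms.Frobenius Topology

namespace Pool.Agent.T2H04.HY

set_option linter.unusedSectionVars false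

noncomputable section

variable {G : Type} [Group G] [TopologicalSpace G] [IsTopologicalGroup G] [CompactSpace G]
  [MeasurableSpace G] [BorelSpace G] (μ : Measure G) [μ.IsHaarMeasure] [IsProbabilityMeasure μ]

/-- the square of the `L²` distance to the constant function -/
def e2 (f : G → ℝ) : ℝ := ∫ x, (f x - 1) ^ 2 ∂μ

namespace TenLim

theorem seq_lim {x : ℕ → ℝ} {D : ℝ} (hD : 0 ≤ D) (h : ∀ k, |x (k + 1) - 4 * x k| ≤ D) :
    ∃ s, Tendsto (fun k => x k / 4 ^ k) atTop (𝓝 s) ∧ ∀ k, |x k / 4 ^ k - s| ≤ D / 4 ^ k := by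
  have h1 : ∀ k, dist (x k / 4 ^ k) (x (k + 1) / 4 ^ (k + 1)) ≤ D / 4 * (1 / 4) ^ k := by
    intro k
    have e : x k / 4 ^ k - x (k + 1) / 4 ^ (k + 1) = -(x (k + 1) - 4 * x k) / 4 ^ (k + 1) := by
      rw [pow_succ]
      field_simp
      ring
    rw [Real.dist_eq, e, abs_div, abs_neg, abs_of_pos (by positivity : (0 : ℝ) < 4 ^ (k + 1))]
    have h2 := div_le_div_of_nonneg_right (h k) (by positivity : (0 : ℝ) ≤ 4 ^ (k + 1))
    refine h2.trans (le_of_eq ?_)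
    rw [pow_succ, one_div, inv_pow]
    field_simp
  have h2 := cauchySeq_of_le_geometric (1 / 4 : ℝ) (D / 4) (by norm_num) h1
  obtain ⟨s, hs⟩ := cauchySeq_tendsto_of_complete h2
  refine ⟨s, hs, fun k => ?_⟩
  have h3 := dist_le_of_le_geometric_of_tendsto (1 / 4 : ℝ) (D / 4) (by norm_num) h1 hs k
  rw [Real.dist_eq] at h3
  refine h3.trans ?_
  rw [one_div, inv_pow]
  have h4 : (0 : ℝ) < 4 ^ k := by positivity
  rw [div_le_div_iff₀ (by norm_num) h4]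
  field_simp
  nlinarith

variable {μ}

/-- the error bound -/
def DD (ρ : ℝ) : ℝ := Real.log 17 + 6 * |Real.log (2 * ρ)|

theorem DD_nonneg (ρ : ℝ) : 0 ≤ DD ρ := by
  unfold DD
  have : 0 ≤ Real.log 17 := Real.log_nonneg (by norm_num)
  positivity

/-- The properties of the iterates. -/
theorem iter_all {F : G → ℝ} (hF : PD μ F) (hs : ∀ x, F x⁻¹ = F x) (hm : M2 μ (dh F) ≤ 1 / 32)
    (h0 : 0 < M2 μ (dh F)) (k : ℕ) :
    PD μ ((mk μ)^[k] F) ∧ (∀ x, (mk μ)^[k] F x⁻¹ = (mk μ)^[k] F x) ∧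
      M2 μ (dh ((mk μ)^[k] F)) ≤ 1 / 32 ∧ 0 < M2 μ (dh ((mk μ)^[k] F)) ∧
      M2 μ (dh ((mk μ)^[k] F)) / nn μ (dg μ ((mk μ)^[k] F)) *
          (1 + 60 * M2 μ (dh ((mk μ)^[k] F)) ^ 2) ≤
        M2 μ (dh F) / nn μ (dg μ F) * (1 + 60 * M2 μ (dh F) ^ 2) := by
  induction k with
  | zero => exact ⟨hF, hs, hm, h0, le_rfl⟩
  | succ k ih =>
    rw [Function.iterate_succ_apply']
    obtain ⟨a1, a2, a3, a4, a5⟩ := ih
    obtain ⟨b1, b2, b3, b4, b5, b6⟩ := step_all a1 a3 a2 a4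
    obtain ⟨v, hv⟩ : ∃ v, v = M2 μ (dh ((mk μ)^[k] F)) := ⟨_, rfl⟩
    obtain ⟨v', hv'⟩ : ∃ v', v' = M2 μ (dh (mk μ ((mk μ)^[k] F))) := ⟨_, rfl⟩
    obtain ⟨r, hr⟩ : ∃ r, r = M2 μ (dh ((mk μ)^[k] F)) / nn μ (dg μ ((mk μ)^[k] F)) := ⟨_, rfl⟩
    obtain ⟨r', hr'⟩ : ∃ r', r' = M2 μ (dh (mk μ ((mk μ)^[k] F))) /
      nn μ (dg μ (mk μ ((mk μ)^[k] F))) := ⟨_, rfl⟩
    rw [← hv] at a3 a4
    rw [← hr, ← hv] at a5
    rw [← hv'] at b2
    rw [← hv, ← hv'] at b4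
    rw [← hr', ← hr, ← hv] at b6
    have hvv : v' ≤ v / 1000 := by
      have h1 : v ^ 4 ≤ (1 / 32) ^ 3 * v := by
        calc v ^ 4 = v ^ 3 * v := by ring
          _ ≤ _ := mul_le_mul_of_nonneg_right (pow_le_pow_left₀ a4.le a3 3) a4.le
      have h2 : 17 * ((1 / 32 : ℝ) ^ 3 * v) ≤ v / 1000 := by
        have : 17 * ((1 / 32 : ℝ) ^ 3 * v) = v * (17 / 32768) := by ring
        rw [this]
        nlinarith
      linarith
    have hr0 : 0 ≤ r := by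
      rw [hr]
      exact div_nonneg (M2_nonneg _ _) (nn_nonneg _ _)
    refine ⟨pd_mk μ _ a1, Low.mk_sym μ a2, ?_, ?_, ?_⟩
    · rw [← hv']; linarith
    · rw [← hv']; exact b2
    · rw [← hr', ← hv']
      refine le_trans ?_ a5
      have h1 : 1 + 60 * v' ^ 2 ≤ 1 + v ^ 2 := by
        have : v' ^ 2 ≤ (v / 1000) ^ 2 := pow_le_pow_left₀ b2.le hvv 2
        nlinarith [sq_nonneg v]
      calc r' * (1 + 60 * v' ^ 2) ≤ r * (1 + 27 * v ^ 2) * (1 + v ^ 2) :=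
            mul_le_mul b6 h1 (by positivity) (by positivity)
        _ = r * ((1 + 27 * v ^ 2) * (1 + v ^ 2)) := by ring
        _ ≤ r * (1 + 60 * v ^ 2) := by
            refine mul_le_mul_of_nonneg_left ?_ hr0
            have h2 : v ^ 2 ≤ (1 / 32) ^ 2 := pow_le_pow_left₀ a4.le a3 2
            nlinarith [sq_nonneg v]

/-- The limit. -/
theorem iter_lim {F : G → ℝ} (hF : PD μ F) (hs : ∀ x, F x⁻¹ = F x) (hm : M2 μ (dh F) ≤ 1 / 32)
    (h0 : 0 < M2 μ (dh F)) {ρ : ℝ} (hρ : M2 μ (dh F) / nn μ (dg μ F) ≤ ρ) :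
    ∃ σ : ℝ, 0 < σ ∧
      Tendsto (fun k : ℕ => -Real.log (M2 μ (dh ((mk μ)^[k] F))) / 4 ^ k) atTop (𝓝 σ) ∧
      ∀ k : ℕ, |-Real.log (M2 μ (dh ((mk μ)^[k] F))) / 4 ^ k - σ| ≤ DD ρ / 4 ^ k := by
  have hall := iter_all hF hs hm h0
  obtain ⟨v, hv⟩ : ∃ v : ℕ → ℝ, v = fun k => M2 μ (dh ((mk μ)^[k] F)) := ⟨_, rfl⟩
  have hvk : ∀ k, M2 μ (dh ((mk μ)^[k] F)) = v k := fun k => by rw [hv]
  have hv0 : ∀ k, 0 < v k := fun k => by rw [hv]; exact (hall k).2.2.2.1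
  have hv1 : ∀ k, v k ≤ 1 / 32 := fun k => by rw [hv]; exact (hall k).2.2.1
  -- upper bound for one step
  have hup : ∀ k, v (k + 1) ≤ 17 * v k ^ 4 := by
    intro k
    obtain ⟨a1, a2, a3, a4, a5⟩ := hall k
    obtain ⟨b1, b2, b3, b4, b5, b6⟩ := step_all a1 a3 a2 a4
    rw [hv]
    simp only []
    rw [Function.iterate_succ_apply']
    exact b4
  -- lower bound for one step
  have hlo : ∀ k, v k ^ 4 ≤ (2 * ρ) ^ 6 * v (k + 1) := by
    intro k
    obtain ⟨a1, a2, a3, a4, a5⟩ := hall k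
    obtain ⟨b1, b2, b3, b4, b5, b6⟩ := step_all a1 a3 a2 a4
    obtain ⟨c, hc⟩ : ∃ c, c = nn μ (dg μ ((mk μ)^[k] F)) := ⟨_, rfl⟩
    have hc0 : 0 < c := by rw [hc]; exact Real.sqrt_pos.2 b1
    have hc2 : M2 μ (dg μ ((mk μ)^[k] F)) = c ^ 2 := by rw [hc, nn_sq]
    rw [hc2, hvk] at b5
    rw [← hc, hvk] at a5
    have e : M2 μ (dh (mk μ ((mk μ)^[k] F))) = v (k + 1) := by
      rw [hv]
      simp only []
      rw [Function.iterate_succ_apply']
    rw [e] at b5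
    have hvp := hv0 k
    have hrk : v k / c ≤ 2 * ρ := by
      have h1 : v k / c ≤ v k / c * (1 + 60 * v k ^ 2) :=
        le_mul_of_one_le_right (by positivity) (by nlinarith [sq_nonneg (v k)])
      have h2 : M2 μ (dh F) / nn μ (dg μ F) * (1 + 60 * M2 μ (dh F) ^ 2) ≤
          ρ * (1 + 60 * M2 μ (dh F) ^ 2) := mul_le_mul_of_nonneg_right hρ (by positivity)
      have hρ0 : 0 ≤ ρ := le_trans (div_nonneg (M2_nonneg _ _) (nn_nonneg _ _)) hρ
      have h3 : M2 μ (dh F) ^ 2 ≤ (1 / 32) ^ 2 := pow_le_pow_left₀ (M2_nonneg _ _) hm 2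
      have h4 : ρ * (1 + 60 * M2 μ (dh F) ^ 2) ≤ ρ * 2 :=
        mul_le_mul_of_nonneg_left (by nlinarith) hρ0
      linarith
    have hvc : v k ≤ 2 * ρ * c := by rwa [div_le_iff₀ hc0] at hrk
    have h5 : v k ^ 6 ≤ (2 * ρ) ^ 6 * c ^ 6 := by
      have := pow_le_pow_left₀ hvp.le hvc 6
      rwa [mul_pow] at this
    have h6 : v k ^ 2 * v k ^ 4 ≤ v k ^ 2 * ((2 * ρ) ^ 6 * v (k + 1)) := by
      calc v k ^ 2 * v k ^ 4 = v k ^ 6 := by ring
        _ ≤ (2 * ρ) ^ 6 * c ^ 6 := h5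
        _ = (2 * ρ) ^ 6 * (c ^ 2) ^ 3 := by ring
        _ ≤ (2 * ρ) ^ 6 * (v k ^ 2 * v (k + 1)) := by
            refine mul_le_mul_of_nonneg_left b5 ?_
            have : (2 * ρ) ^ 6 = ((2 * ρ) ^ 3) ^ 2 := by ring
            rw [this]
            positivity
        _ = _ := by ring
    exact le_of_mul_le_mul_left h6 (by positivity)
  have hρ2 : 0 < (2 * ρ) ^ 6 := by
    have h1 := hlo 0
    have h2 : 0 < v 0 ^ 4 := pow_pos (hv0 0) 4
    have h3 : 0 < (2 * ρ) ^ 6 * v (0 + 1) := lt_of_lt_of_le h2 h1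
    exact pos_of_mul_pos_left h3 (hv0 _).le
  obtain ⟨x, hx⟩ : ∃ x : ℕ → ℝ, x = fun k => -Real.log (v k) := ⟨_, rfl⟩
  have hx1 : ∀ k, 4 * x k - Real.log 17 ≤ x (k + 1) := by
    intro k
    have h1 := Real.log_le_log (hv0 (k + 1)) (hup k)
    rw [Real.log_mul (by norm_num) (pow_pos (hv0 k) 4).ne', Real.log_pow] at h1
    rw [hx]
    simp only []
    push_cast at h1
    linarith
  have hx2 : ∀ k, x (k + 1) ≤ 4 * x k + 6 * |Real.log (2 * ρ)| := by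
    intro k
    have h1 := Real.log_le_log (pow_pos (hv0 k) 4) (hlo k)
    rw [Real.log_mul hρ2.ne' (hv0 _).ne', Real.log_pow, Real.log_pow] at h1
    have h2 := le_abs_self (Real.log (2 * ρ))
    rw [hx]
    simp only []
    push_cast at h1
    linarith
  have h17 : 0 ≤ Real.log 17 := Real.log_nonneg (by norm_num)
  have hab : ∀ k, |x (k + 1) - 4 * x k| ≤ DD ρ := by
    intro k
    have h1 := hx1 k
    have h2 := hx2 k
    have h3 := abs_nonneg (Real.log (2 * ρ))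
    unfold DD
    rw [abs_le]
    constructor <;> linarith
  obtain ⟨σ, hσ1, hσ2⟩ := seq_lim (DD_nonneg ρ) hab
  refine ⟨σ, ?_, ?_, ?_⟩
  · -- positivity
    have hy : ∀ k : ℕ, 4 ^ k * (x 0 - Real.log 17 / 3) ≤ x k - Real.log 17 / 3 := by
      intro k
      induction k with
      | zero => simp
      | succ k ih =>
        have h1 := hx1 k
        rw [pow_succ]
        linarith
    have hy0 : 0 < x 0 - Real.log 17 / 3 := by
      have h1 : Real.log 32 ≤ x 0 := by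
        have h2 := Real.log_le_log (hv0 0) (hv1 0)
        rw [one_div, Real.log_inv] at h2
        rw [hx]
        simp only []
        linarith
      have h2 : Real.log 17 ≤ Real.log 32 := Real.log_le_log (by norm_num) (by norm_num)
      have h3 : 0 < Real.log 17 := Real.log_pos (by norm_num)
      linarith
    have h1 : x 0 - Real.log 17 / 3 ≤ σ := by
      refine ge_of_tendsto hσ1 (Filter.Eventually.of_forall fun k => ?_)
      rw [le_div_iff₀ (by positivity)]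
      have := hy k
      linarith
    linarith
  · have h1 : (fun k : ℕ => -Real.log (M2 μ (dh ((mk μ)^[k] F))) / 4 ^ k) =
        fun k => x k / 4 ^ k := by
      funext k
      rw [hx, hvk]
    rw [h1]
    exact hσ1
  · intro k
    have h1 : -Real.log (M2 μ (dh ((mk μ)^[k] F))) / 4 ^ k = x k / 4 ^ k := by
      rw [hx, hvk]
    rw [h1]
    exact hσ2 k

/-- continuity of the norms -/
theorem M2_tendsto {f : ℕ → G → ℝ} {g : G → ℝ} (hf : ∀ n, Continuous (f n)) (hg : Continuous g)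
    (h : TendstoUniformly f g atTop) :
    Tendsto (fun n => M2 μ (dh (f n))) atTop (𝓝 (M2 μ (dh g))) ∧
      Tendsto (fun n => nn μ (dg μ (f n))) atTop (𝓝 (nn μ (dg μ g))) := by
  set F : ℕ → C(G, ℝ) := fun n => ⟨dh (f n), by have := hf n; unfold dh; fun_prop⟩ with hF
  set F' : C(G, ℝ) := ⟨dh g, by unfold dh; fun_prop⟩ with hF'
  have h0 : Tendsto F atTop (𝓝 F') := by
    refine ContinuousMap.tendsto_iff_tendstoUniformly.2 ?_
    rw [Metric.tendstoUniformly_iff] at h ⊢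
    intro ε hε
    filter_upwards [h ε hε] with n hn x
    have h1 := hn x
    rw [Real.dist_eq] at h1 ⊢
    have e : F' x - F n x = g x - f n x := by
      show dh g x - dh (f n) x = _
      unfold dh
      ring
    rw [e]
    exact h1
  have h1 : Tendsto (fun n => F n ^ 2) atTop (𝓝 (F' ^ 2)) := h0.pow 2
  have h2 : Tendsto (fun n => (cvC μ (F n) (F n)) ^ 2) atTop (𝓝 ((cvC μ F' F') ^ 2)) :=
    (cvC_tendsto μ h0 h0).pow 2
  refine ⟨((continuous_int μ).tendsto _).comp h1, ?_⟩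
  have h3 : Tendsto (fun n => M2 μ (dg μ (f n))) atTop (𝓝 (M2 μ (dg μ g))) :=
    ((continuous_int μ).tendsto _).comp h2
  exact (Real.continuous_sqrt.tendsto _).comp h3

end TenLim

open TenLim in
/-- The smallest string tension exists and is continuous under uniform convergence of the
densities. -/
theorem tmin_lim {f : ℕ → G → ℝ} {f0 : G → ℝ} (hf : ∀ j, PD μ (f j))
    (hs : ∀ j x, f j x⁻¹ = f j x) (hc : ∀ j x y, f j (y * x * y⁻¹) = f j x)
    (hf0 : PD μ f0) (hs0 : ∀ x, f0 x⁻¹ = f0 x) (hc0 : ∀ x y, f0 (y * x * y⁻¹) = f0 x)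
    (h1 : TendstoUniformly (fun k => (mk μ)^[k] f0) (fun _ => 1) atTop)
    (hne : ∃ x, f0 x ≠ 1) (h : TendstoUniformly f f0 atTop) :
    (∀ k, 0 < e2 μ ((mk μ)^[k] f0)) ∧
    ∃ s0 : ℝ, 0 < s0 ∧
      Tendsto (fun k : ℕ => -(Real.log (e2 μ ((mk μ)^[k] f0))) / (2 * 4 ^ k)) atTop (𝓝 s0) ∧
      ∃ s : ℕ → ℝ, (∀ᶠ j in atTop, 0 < s j ∧
        Tendsto (fun k : ℕ => -(Real.log (e2 μ ((mk μ)^[k] (f j)))) / (2 * 4 ^ k)) atTop
          (𝓝 (s j))) ∧
        Tendsto s atTop (𝓝 s0) := by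
  have he : ∀ f : G → ℝ, e2 μ f = M2 μ (dh f) := fun f => rfl
  simp only [he]
  have hpd : ∀ (f : G → ℝ), PD μ f → ∀ k, PD μ ((mk μ)^[k] f) := fun f hf k =>
    Asm.iter_pd μ hf k
  have hsy : ∀ (f : G → ℝ), (∀ x, f x⁻¹ = f x) → ∀ k x, (mk μ)^[k] f x⁻¹ = (mk μ)^[k] f x := by
    intro f hf k
    induction k with
    | zero => exact hf
    | succ k ih =>
      rw [Function.iterate_succ_apply']
      exact Low.mk_sym μ ih
  have hpos : ∀ k, 0 < M2 μ (dh ((mk μ)^[k] f0)) := by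
    intro k
    induction k with
    | zero =>
      obtain ⟨x, hx⟩ := hne
      exact M2_pos μ (dh_cont hf0) (x := x) (by unfold dh; exact sub_ne_zero.2 hx)
    | succ k ih =>
      rw [Function.iterate_succ_apply']
      exact pos_step (hpd f0 hf0 k) (hsy f0 hs0 k) ih
  refine ⟨hpos, ?_⟩
  -- the starting scale
  obtain ⟨q, hq⟩ : ∃ q, ∀ x, |(mk μ)^[q] f0 x - 1| ≤ 1 / 8 := by
    rw [Metric.tendstoUniformly_iff] at h1
    obtain ⟨q, hq⟩ := (h1 (1 / 8) (by norm_num)).exists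
    refine ⟨q, fun x => ?_⟩
    have := hq x
    rw [dist_comm, Real.dist_eq] at this
    exact this.le
  obtain ⟨F0, hF0⟩ : ∃ F0, F0 = (mk μ)^[q] f0 := ⟨_, rfl⟩
  obtain ⟨F, hF⟩ : ∃ F : ℕ → G → ℝ, F = fun j => (mk μ)^[q] (f j) := ⟨_, rfl⟩
  have hFpd : ∀ j, PD μ (F j) := fun j => by rw [hF]; exact hpd _ (hf j) q
  have hFsy : ∀ j x, F j x⁻¹ = F j x := fun j => by rw [hF]; exact hsy _ (hs j) q
  have hF0pd : PD μ F0 := by rw [hF0]; exact hpd _ hf0 q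
  have hF0sy : ∀ x, F0 x⁻¹ = F0 x := by rw [hF0]; exact hsy _ hs0 q
  have hFF : ∀ k, TendstoUniformly (fun j => (mk μ)^[k] (F j)) ((mk μ)^[k] F0) atTop := by
    intro k
    refine Asm.iter_tendsto μ hFpd hF0pd ?_ k
    rw [hF, hF0]
    exact Asm.iter_tendsto μ hf hf0 h q
  have hm0 : M2 μ (dh F0) ≤ 1 / 64 := by
    rw [← nn_sq]
    have h2 : nn μ (dh F0) ≤ 1 / 8 := nn_le_sup μ (dh_cont hF0pd) (by norm_num) (by
      rw [hF0]
      exact hq)
    calc nn μ (dh F0) ^ 2 ≤ (1 / 8) ^ 2 := pow_le_pow_left₀ (nn_nonneg _ _) h2 2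
      _ = _ := by norm_num
  have hp0 : 0 < M2 μ (dh F0) := by rw [hF0]; exact hpos q
  have hg0 : 0 < nn μ (dg μ F0) :=
    Real.sqrt_pos.2 (pos_sq (dh_cont hF0pd) (dh_sym hF0sy) hp0)
  obtain ⟨ρ, hρ⟩ : ∃ ρ, ρ = M2 μ (dh F0) / nn μ (dg μ F0) + 1 := ⟨_, rfl⟩
  obtain ⟨σ0, hσ0, hσ1, hσ2⟩ := iter_lim hF0pd hF0sy (by linarith) hp0
    (ρ := ρ) (by rw [hρ]; linarith)
  have hT := M2_tendsto (μ := μ) (fun j => (hFpd j).cont) hF0pd.cont (hFF 0)
  have hev : ∀ᶠ j in atTop, ∃ σ : ℝ, 0 < σ ∧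
      Tendsto (fun k : ℕ => -Real.log (M2 μ (dh ((mk μ)^[k] (F j)))) / 4 ^ k) atTop (𝓝 σ) ∧
      ∀ k : ℕ, |-Real.log (M2 μ (dh ((mk μ)^[k] (F j)))) / 4 ^ k - σ| ≤ DD ρ / 4 ^ k := by
    have e1 : ∀ᶠ j in atTop, M2 μ (dh (F j)) < 1 / 32 := hT.1.eventually (gt_mem_nhds (by linarith))
    have e2 : ∀ᶠ j in atTop, 0 < M2 μ (dh (F j)) := hT.1.eventually (lt_mem_nhds hp0)
    have e3 : ∀ᶠ j in atTop, M2 μ (dh (F j)) / nn μ (dg μ (F j)) < ρ :=
      (hT.1.div hT.2 hg0.ne').eventually (gt_mem_nhds (by rw [hρ]; linarith))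
    filter_upwards [e1, e2, e3] with j a1 a2 a3
    exact iter_lim (hFpd j) (hFsy j) a1.le a2 a3.le
  -- the limits
  obtain ⟨P, hP⟩ : ∃ P : ℕ → ℝ → Prop, P = fun j σ => 0 < σ ∧
      Tendsto (fun k : ℕ => -Real.log (M2 μ (dh ((mk μ)^[k] (F j)))) / 4 ^ k) atTop (𝓝 σ) ∧
      ∀ k : ℕ, |-Real.log (M2 μ (dh ((mk μ)^[k] (F j)))) / 4 ^ k - σ| ≤ DD ρ / 4 ^ k := ⟨_, rfl⟩
  have hev' : ∀ᶠ j in atTop, ∃ σ, P j σ := by rw [hP]; exact hev
  classical
  obtain ⟨σ, hσ⟩ : ∃ σ : ℕ → ℝ, ∀ j, (∃ s, P j s) → P j (σ j) := by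
    refine ⟨fun j => if hj : ∃ s, P j s then hj.choose else 0, fun j hj => ?_⟩
    simp only [dif_pos hj]
    exact hj.choose_spec
  have h4q : (0 : ℝ) < 2 * 4 ^ q := by positivity
  -- conversion
  have hconv : ∀ (f F : G → ℝ) (σ : ℝ), F = (mk μ)^[q] f →
      Tendsto (fun k : ℕ => -Real.log (M2 μ (dh ((mk μ)^[k] F))) / 4 ^ k) atTop (𝓝 σ) →
      Tendsto (fun k : ℕ => -Real.log (M2 μ (dh ((mk μ)^[k] f))) / (2 * 4 ^ k)) atTop
        (𝓝 (σ / (2 * 4 ^ q))) := by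
    intro f F σ hFf hl
    rw [← tendsto_add_atTop_iff_nat q]
    refine (hl.div_const (2 * 4 ^ q)).congr fun k => ?_
    rw [Function.iterate_add_apply, ← hFf, pow_add, div_div]
    congr 1
    ring
  refine ⟨σ0 / (2 * 4 ^ q), by positivity, hconv f0 F0 σ0 hF0 hσ1,
    fun j => σ j / (2 * 4 ^ q), ?_, ?_⟩
  · filter_upwards [hev'] with j hj
    have h2 := hσ j hj
    rw [hP] at h2
    exact ⟨div_pos h2.1 h4q, hconv (f j) (F j) (σ j) (by rw [hF]) h2.2.1⟩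
  · refine Tendsto.div_const ?_ _
    rw [Metric.tendsto_atTop]
    intro ε hε
    -- choose the scale
    have hD := DD_nonneg ρ
    obtain ⟨k, hk⟩ : ∃ k : ℕ, DD ρ / 4 ^ k < ε / 4 := by
      have h2 : Tendsto (fun k : ℕ => DD ρ / 4 ^ k) atTop (𝓝 0) := by
        have h3 := tendsto_pow_atTop_nhds_zero_of_lt_one (by norm_num : (0 : ℝ) ≤ 1 / 4)
          (by norm_num)
        have h4 := h3.const_mul (DD ρ)
        rw [mul_zero] at h4
        refine h4.congr fun k => ?_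
        rw [one_div, inv_pow, div_eq_mul_inv]
      exact (h2.eventually (gt_mem_nhds (by positivity))).exists
    have hTk := (M2_tendsto (μ := μ) (fun j => (hpd _ (hFpd j) k).cont) (hpd _ hF0pd k).cont
      (hFF k)).1
    have hposk : 0 < M2 μ (dh ((mk μ)^[k] F0)) := by
      rw [hF0, ← Function.iterate_add_apply]
      exact hpos _
    have hlog : Tendsto (fun j => -Real.log (M2 μ (dh ((mk μ)^[k] (F j)))) / 4 ^ k) atTop
        (𝓝 (-Real.log (M2 μ (dh ((mk μ)^[k] F0))) / 4 ^ k)) :=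
      ((hTk.log hposk.ne').neg).div_const _
    rw [Metric.tendsto_atTop] at hlog
    obtain ⟨N1, hN1⟩ := hlog (ε / 4) (by positivity)
    obtain ⟨N2, hN2⟩ := eventually_atTop.1 hev'
    refine ⟨max N1 N2, fun j hj => ?_⟩
    have a1 := hN1 j (le_trans (le_max_left _ _) hj)
    have a2 := hσ j (hN2 j (le_trans (le_max_right _ _) hj))
    rw [hP] at a2
    have a3 := a2.2.2 k
    have a4 := hσ2 k
    rw [Real.dist_eq] at a1 ⊢
    obtain ⟨b1, b2⟩ := abs_lt.1 a1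
    obtain ⟨b3, b4⟩ := abs_le.1 a3
    obtain ⟨b5, b6⟩ := abs_le.1 a4
    rw [abs_lt]
    constructor <;> linarith

end

end Pool.Agent.T2H04.HY
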