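import Mathlib
import Pool.Agent.T2H03.HX.Loop
import Pool.Agent.T2H04.HY.TenLim

/-!
# From the lattice gauge theories to the renormalisation group
-/

open MeasureTheory Matrix Filter
open scoped Topology
open Pool.Agent.T2H03

namespace Pool.Agent.T2H04.HY

set_option linter.unusedSectionVars false

noncomputable section

section

variable {G : Type} [Group G] [TopologicalSpace G] [IsTopologicalGroup G] [CompactSpace G]
  [SecondCountableTopology G] [MeasurableSpace G] [BorelSpace G] (μ : Measure G)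
  [IsProbabilityMeasure μ] [μ.IsHaarMeasure]

/-- The mean value of `φ` at the holonomy around the boundary of the box of side `2 ^ q`, for the
lattice gauge theory in this box with the plaquette function `w`. -/
def loopMean (w : G → ℝ) (q : ℕ) (φ : G → ℝ) : ℝ :=
  HX.ex μ (HX.Bx (0 + q)) w fun U => φ (HX.hol HX.sq (HX.blks HX.sq 0 q U) ())

/-- The largest mean value of a class function, orthogonal to the constant functions and of `L²`
norm at most one, at the holonomy around the boundary of the box of side `2 ^ q`. -/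
def maxLoop (w : G → ℝ) (q : ℕ) : ℝ :=
  sSup {r | ∃ χ : G → ℝ, Continuous χ ∧ (∀ x y, χ (y * x * y⁻¹) = χ x) ∧ ∫ x, χ x ∂μ = 0 ∧
    ∫ x, χ x ^ 2 ∂μ ≤ 1 ∧ r = loopMean μ w q χ}

/-- `s` is the string tension: the exponential rate of decay of `maxLoop` per area. -/
def Tension (w : G → ℝ) (s : ℝ) : Prop :=
  Tendsto (fun q : ℕ => -(Real.log (maxLoop μ w q)) / 4 ^ q) atTop (𝓝 s)

theorem loopMean_scale (w : G → ℝ) {c : ℝ} (hc : c ≠ 0) (q : ℕ) (φ : G → ℝ) :
    loopMean μ (fun x => c * w x) q φ = loopMean μ w q φ :=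
  HX.ex_scale μ _ w hc _

theorem loopMean_pd {w : G → ℝ} (hw : PD μ w) (hc : ∀ x y, w (y * x * y⁻¹) = w x)
    (q : ℕ) {φ : G → ℝ} (hφ : Continuous φ) :
    loopMean μ w q φ = ∫ x, φ x * (mk μ)^[q] w x ∂μ := by
  have h1 := HX.ex_refs μ HX.sq 0 q hw hc (A := fun U : HX.sq.E → G => φ (HX.hol HX.sq U ()))
    (hφ.comp (HX.hol_cont HX.sq ()))
  have hf : PD μ ((mk μ)^[q] w) := Asm.iter_pd μ hw q
  have h2 := HX.ex_sq μ hf.cont hφ
  rw [hf.int, div_one] at h2
  rw [← h2]
  exact h1

theorem integrable_mul' {f g : G → ℝ} (hf : Continuous f) (hg : Continuous g) :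
    Integrable (fun x => f x * g x) μ := integrable_cont μ (hf.mul hg)

/-- `maxLoop` is the `L²` distance to the constant function -/
theorem maxLoop_eq {w : G → ℝ} (hw : PD μ w) (hc : ∀ x y, w (y * x * y⁻¹) = w x) (q : ℕ)
    (h0 : 0 < e2 μ ((mk μ)^[q] w)) : maxLoop μ w q = Real.sqrt (e2 μ ((mk μ)^[q] w)) := by
  set f := (mk μ)^[q] w with hf
  have hpd : PD μ f := Asm.iter_pd μ hw q
  have hfc := hpd.cont
  have hcls : ∀ x y, f (y * x * y⁻¹) = f x := Asm.iter_cls μ hc q
  set E := e2 μ f with hE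
  have hs : 0 < Real.sqrt E := Real.sqrt_pos.2 h0
  -- the mean value for a function orthogonal to the constants
  have hm : ∀ χ : G → ℝ, Continuous χ → ∫ x, χ x ∂μ = 0 →
      loopMean μ w q χ = ∫ x, χ x * (f x - 1) ∂μ := by
    intro χ hχ hχ0
    rw [loopMean_pd μ hw hc q hχ]
    have h1 : ∫ x, χ x * (f x - 1) ∂μ = (∫ x, χ x * f x ∂μ) - ∫ x, χ x ∂μ := by
      rw [← integral_sub (integrable_cont μ (by fun_prop)) (integrable_cont μ hχ)]
      refine integral_congr_ae (Eventually.of_forall fun x => ?_)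
      simp only
      ring
    rw [h1, hχ0, sub_zero]
  have hle : ∀ χ : G → ℝ, Continuous χ → ∫ x, χ x ∂μ = 0 → ∫ x, χ x ^ 2 ∂μ ≤ 1 →
      loopMean μ w q χ ≤ Real.sqrt E := by
    intro χ hχ hχ0 hχ1
    rw [hm χ hχ hχ0]
    -- 2 s ∫ χ h ≤ s² ∫ χ² + ∫ h² 
    have h1 : 2 * Real.sqrt E * ∫ x, χ x * (f x - 1) ∂μ ≤
        Real.sqrt E ^ 2 * ∫ x, χ x ^ 2 ∂μ + E := by
      have h2 : Real.sqrt E ^ 2 * ∫ x, χ x ^ 2 ∂μ + E - 2 * Real.sqrt E * ∫ x, χ x * (f x - 1) ∂μ =
          ∫ x, (Real.sqrt E * χ x - (f x - 1)) ^ 2 ∂μ := by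
        have e1 : ∀ x, (Real.sqrt E * χ x - (f x - 1)) ^ 2 =
            (Real.sqrt E ^ 2 * χ x ^ 2 + (f x - 1) ^ 2) - 2 * Real.sqrt E * (χ x * (f x - 1)) :=
          fun x => by ring
        simp only [e1]
        rw [integral_sub (integrable_cont μ (by fun_prop)) (integrable_cont μ (by fun_prop)),
          integral_add (integrable_cont μ (by fun_prop)) (integrable_cont μ (by fun_prop)),
          integral_const_mul, integral_const_mul]
        rfl
      have h3 : 0 ≤ ∫ x, (Real.sqrt E * χ x - (f x - 1)) ^ 2 ∂μ :=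
        integral_nonneg fun x => sq_nonneg _
      linarith
    have h2 : Real.sqrt E ^ 2 = E := Real.sq_sqrt h0.le
    have h3 : Real.sqrt E ^ 2 * ∫ x, χ x ^ 2 ∂μ ≤ Real.sqrt E ^ 2 * 1 :=
      mul_le_mul_of_nonneg_left hχ1 (sq_nonneg _)
    have h4 : 2 * Real.sqrt E * ∫ x, χ x * (f x - 1) ∂μ ≤ 2 * Real.sqrt E * Real.sqrt E := by
      nlinarith
    exact le_of_mul_le_mul_left h4 (by positivity)
  unfold maxLoop
  refine IsGreatest.csSup_eq ⟨?_, ?_⟩
  · -- the maximum
    refine ⟨fun x => (f x - 1) / Real.sqrt E, by fun_prop, fun x y => by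
      simp only [hcls], ?_, ?_, ?_⟩
    · rw [integral_div, integral_sub (integrable_cont μ hfc) (integrable_const _), hpd.int,
        integral_const, probReal_univ, one_smul, sub_self, zero_div]
    · simp only [div_pow]
      rw [integral_div, Real.sq_sqrt h0.le]
      exact (div_self h0.ne').le
    · rw [hm _ (by fun_prop) (by
        rw [integral_div, integral_sub (integrable_cont μ hfc) (integrable_const _), hpd.int,
          integral_const, probReal_univ, one_smul, sub_self, zero_div])]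
      have e1 : ∀ x, (f x - 1) / Real.sqrt E * (f x - 1) = (f x - 1) ^ 2 / Real.sqrt E :=
        fun x => by ring
      simp only [e1]
      rw [integral_div]
      have e3 : ∫ x, (f x - 1) ^ 2 ∂μ = E := rfl
      rw [e3, eq_div_iff hs.ne', Real.mul_self_sqrt h0.le]
  · rintro r ⟨χ, hχ, -, hχ0, hχ1, rfl⟩
    exact hle χ hχ hχ0 hχ1

end

end

end Pool.Agent.T2H04.HY
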