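import Mathlib
import Pool.Agent.T2H04.HY.Defs

/-!
# General actions
-/

open MeasureTheory Matrix Filter
open scoped Matrix.Norms.Frobenius Topology

namespace Pool.Agent.T2H04.HY

set_option linter.unusedSectionVars false

noncomputable section

variable {G : Type} [Group G] [TopologicalSpace G] {m : Type} [Fintype m] [DecidableEq m]

/-- A lattice action: an entire function on the matrices whose restriction to the group is a
real class function with unique minimum `V 1 = 0`, and with the normalised Hessian. -/
structure Act (L : RD G m) (V : Mt m → ℂ) : Prop where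
  diff : ContDiff ℂ 1 V
  conj : ∀ g x, V (L.rho g * x * L.rho g⁻¹) = V x
  inv : ∀ x, V (L.sig x) = V x
  real : ∀ g, (V (L.rho g)).im = 0
  one : V 1 = 0
  pos : ∀ g, g ≠ 1 → 0 < (V (L.rho g)).re
  hess : ∀ Z : gC L, Tendsto (fun s : ℝ => V (NormedSpace.exp ((s : ℂ) • (Z : Mt m))) / (s : ℂ) ^ 2)
    (𝓝[≠] 0) (𝓝 (Qf (Z : Mt m) / 2))

/-- the complexified plaquette function of the action `V` -/
def At (V : Mt m → ℂ) (t : ℝ) (x : Mt m) : ℂ := Complex.exp (-(V x / t))

end

end Pool.Agent.T2H04.HY
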