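import Mathlib

/-!
# Schwarz lemmas for even holomorphic functions on balls of normed spaces
-/

open Filter
open scoped Topology

namespace Pool.Agent.T2H04.HY

set_option linter.unusedSectionVars false

noncomputable section

variable {E : Type*} [NormedAddCommGroup E] [NormedSpace ℂ E]

/-- The derivative of an even function vanishes at `0`. -/
theorem hasFDerivAt_even {f : E → ℂ} {R : ℝ} (hR : 0 < R)
    (hf : DifferentiableOn ℂ f (Metric.ball 0 R))
    (hev : ∀ z ∈ Metric.ball (0 : E) R, f (-z) = f z) : HasFDerivAt f (0 : E →L[ℂ] ℂ) 0 := by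
  have hd0 : DifferentiableAt ℂ f 0 := hf.differentiableAt (Metric.ball_mem_nhds _ hR)
  have h1 : HasFDerivAt f (fderiv ℂ f 0) 0 := hd0.hasFDerivAt
  have h1' : HasFDerivAt f (fderiv ℂ f 0) (-(0 : E)) := by rw [neg_zero]; exact h1
  have h2 : HasFDerivAt (fun z => f (-z)) ((fderiv ℂ f 0).comp (-(ContinuousLinearMap.id ℂ E))) 0 :=
    h1'.comp (0 : E) (hasFDerivAt_id (𝕜 := ℂ) (0 : E)).neg
  have h3 : HasFDerivAt f ((fderiv ℂ f 0).comp (-(ContinuousLinearMap.id ℂ E))) 0 := by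
    refine h2.congr_of_eventuallyEq ?_
    filter_upwards [Metric.ball_mem_nhds (0 : E) hR] with z hz
    exact (hev z hz).symm
  have h4 := h1.unique h3
  have h5 : fderiv ℂ f 0 = 0 := by
    ext v
    have h6 := congrArg (fun A : E →L[ℂ] ℂ => A v) h4
    simp only [ContinuousLinearMap.comp_apply, _root_.neg_apply,
      ContinuousLinearMap.id_apply, map_neg] at h6
    have h7 : (2 : ℂ) * fderiv ℂ f 0 v = 0 := by linear_combination h6
    simpa using h7
  rw [h5] at h1
  exact h1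

/-- Schwarz lemma of order two on a ball of a normed space. -/
theorem schwarz2 {f : E → ℂ} {R M : ℝ} (hR : 0 < R) (hf : DifferentiableOn ℂ f (Metric.ball 0 R))
    (hM : ∀ z ∈ Metric.ball (0 : E) R, ‖f z‖ ≤ M) (h0 : f 0 = 0)
    (hev : ∀ z ∈ Metric.ball (0 : E) R, f (-z) = f z) (z : E) (hz : z ∈ Metric.ball (0 : E) R) :
    ‖f z‖ ≤ M * (‖z‖ / R) ^ 2 := by
  have h1 := (hasFDerivAt_even hR hf hev).isLittleO
  have h2 : (fun w => f w - f 0) =o[𝓝 (0 : E)] (fun w => ‖w - 0‖ ^ 1) := by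
    have h3 := h1.norm_right
    simpa using h3
  have h3 := Complex.dist_le_mul_div_pow_of_mapsTo_ball_of_isLittleO (R₂ := M) hf
    (fun w hw => by rw [h0, mem_closedBall_zero_iff]; exact hM w hw) h2 hz
  rwa [h0, dist_zero_right, dist_zero_right] at h3

/-- Schwarz lemma of order two in one variable. -/
theorem schwarz2_one {f : ℂ → ℂ} {R M : ℝ} (hR : 0 < R) (hf : DifferentiableOn ℂ f (Metric.ball 0 R))
    (hM : ∀ z ∈ Metric.ball (0 : ℂ) R, ‖f z‖ ≤ M) (h0 : f 0 = 0)
    (hev : ∀ z ∈ Metric.ball (0 : ℂ) R, f (-z) = f z) (z : ℂ) (hz : z ∈ Metric.ball (0 : ℂ) R) :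
    ‖f z‖ ≤ M * (‖z‖ / R) ^ 2 :=
  schwarz2 hR hf hM h0 hev z hz

/-- One variable: the coefficient of order two. -/
theorem coef_one {f : ℂ → ℂ} {R M : ℝ} (hR : 0 < R) (hf : DifferentiableOn ℂ f (Metric.ball 0 R))
    (hM : ∀ z ∈ Metric.ball (0 : ℂ) R, ‖f z‖ ≤ M) (h0 : f 0 = 0)
    (hev : ∀ z ∈ Metric.ball (0 : ℂ) R, f (-z) = f z) :
    ∃ a : ℂ, Tendsto (fun z => f z / z ^ 2) (𝓝[≠] 0) (𝓝 a) ∧ ‖a‖ ≤ M / R ^ 2 ∧
      ∀ z ∈ Metric.ball (0 : ℂ) R, ‖f z - a * z ^ 2‖ ≤ 2 * M * (‖z‖ / R) ^ 4 := by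
  have hder : deriv f 0 = 0 := by
    have := (hasFDerivAt_even hR hf hev).hasDerivAt.deriv
    simpa using this
  set g := dslope f 0 with hg
  set h := dslope g 0 with hh
  have hball : Metric.ball (0 : ℂ) R ∈ 𝓝 (0 : ℂ) := Metric.ball_mem_nhds _ hR
  have hgd : DifferentiableOn ℂ g (Metric.ball 0 R) :=
    (Complex.differentiableOn_dslope hball).2 hf
  have hhd : DifferentiableOn ℂ h (Metric.ball 0 R) :=
    (Complex.differentiableOn_dslope hball).2 hgd
  have hg0 : g 0 = 0 := by rw [hg, dslope_same, hder]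
  have hfg : ∀ z, f z = z * g z := by
    intro z
    have := sub_smul_dslope f 0 z
    rw [sub_zero, h0, sub_zero, smul_eq_mul] at this
    exact this.symm
  have hgh : ∀ z, g z = z * h z := by
    intro z
    have := sub_smul_dslope g 0 z
    rw [sub_zero, hg0, sub_zero, smul_eq_mul] at this
    exact this.symm
  have hfh : ∀ z, f z = z ^ 2 * h z := by
    intro z; rw [hfg, hgh]; ring
  have hhev : ∀ z ∈ Metric.ball (0 : ℂ) R, h (-z) = h z := by
    intro z hz
    by_cases hz0 : z = 0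
    · rw [hz0, neg_zero]
    · have e := hev z hz
      rw [hfh, hfh z, neg_sq] at e
      exact mul_left_cancel₀ (pow_ne_zero 2 hz0) e
  have hhc : ContinuousAt h 0 := (hhd.differentiableAt hball).continuousAt
  have hlim : Tendsto (fun z => f z / z ^ 2) (𝓝[≠] 0) (𝓝 (h 0)) := by
    refine (hhc.tendsto.mono_left nhdsWithin_le_nhds).congr' ?_
    filter_upwards [self_mem_nhdsWithin] with z hz
    have hz0 : z ≠ 0 := hz
    rw [hfh]
    field_simp
  have hM0 : 0 ≤ M := (norm_nonneg _).trans (hM 0 (Metric.mem_ball_self hR))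
  have hbd : ‖h 0‖ ≤ M / R ^ 2 := by
    refine le_of_tendsto hlim.norm ?_
    filter_upwards [self_mem_nhdsWithin, mem_nhdsWithin_of_mem_nhds hball] with z hz hzb
    have hz0 : z ≠ 0 := hz
    have h1 := schwarz2_one hR hf hM h0 hev z hzb
    rw [norm_div, norm_pow, div_le_iff₀ (by positivity)]
    refine h1.trans (le_of_eq ?_)
    field_simp
  refine ⟨h 0, hlim, hbd, ?_⟩
  intro z hz
  have hlo : (fun w => h w - h 0) =o[𝓝 (0 : ℂ)] (fun w => w) := by
    have := (hasFDerivAt_even hR hhd hhev).isLittleO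
    simpa using this
  have hlo2 : (fun w => (f w - h 0 * w ^ 2) - (f 0 - h 0 * 0 ^ 2)) =o[𝓝 (0 : ℂ)]
      (fun w => ‖w - 0‖ ^ 3) := by
    have h1 : (fun w : ℂ => w ^ 2 * (h w - h 0)) =o[𝓝 (0 : ℂ)] (fun w => w ^ 2 * w) :=
      (Asymptotics.isBigO_refl (fun w : ℂ => w ^ 2) _).mul_isLittleO hlo
    have h2 := h1.norm_right
    refine (h2.congr_left ?_).congr_right ?_
    · intro w
      rw [hfh w, h0]
      ring
    · intro w
      rw [norm_mul, norm_pow, sub_zero]
      ring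
  have h3 := Complex.dist_le_mul_div_pow_of_mapsTo_ball_of_isLittleO (R₂ := 2 * M)
    (f := fun w => f w - h 0 * w ^ 2) (c := 0) (z := z) (R₁ := R) (n := 3)
    (hf.sub (by fun_prop)) (fun w hw => by
      rw [Metric.mem_closedBall, dist_eq_norm]
      simp only [h0]
      have hw' : ‖w‖ < R := mem_ball_zero_iff.1 hw
      have e1 : ‖h 0 * w ^ 2‖ ≤ M := by
        rw [norm_mul, norm_pow]
        calc ‖h 0‖ * ‖w‖ ^ 2 ≤ M / R ^ 2 * R ^ 2 := by
              apply mul_le_mul hbd _ (by positivity) (by positivity)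
              gcongr
          _ = M := by field_simp
      calc ‖f w - h 0 * w ^ 2 - (0 - h 0 * 0 ^ 2)‖ = ‖f w - h 0 * w ^ 2‖ := by
            congr 1; ring
        _ ≤ ‖f w‖ + ‖h 0 * w ^ 2‖ := norm_sub_le _ _
        _ ≤ 2 * M := by linarith [hM w hw]) hlo2 hz
  rw [dist_eq_norm, dist_zero_right] at h3
  simp only [h0] at h3
  calc ‖f z - h 0 * z ^ 2‖ = ‖f z - h 0 * z ^ 2 - (0 - h 0 * 0 ^ 2)‖ := by congr 1; ring
    _ ≤ _ := h3

/-- An entire function of growth at most two is a quadratic polynomial. -/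
theorem entire_quad {g : ℂ → ℂ} (hg : Differentiable ℂ g) {C : ℝ}
    (hC : ∀ s, ‖g s‖ ≤ C * (1 + ‖s‖) ^ 2) : ∃ b c : ℂ, ∀ s, g s = g 0 + s * b + s ^ 2 * c := by
  have hC0 : 0 ≤ C := by
    have := hC 0
    rw [norm_zero, add_zero, one_pow, mul_one] at this
    exact (norm_nonneg _).trans this
  set g1 := dslope g 0 with hg1
  set g2 := dslope g1 0 with hg2
  have hg1d : Differentiable ℂ g1 := by
    rw [← differentiableOn_univ]
    exact (Complex.differentiableOn_dslope univ_mem).2 hg.differentiableOn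
  have hg2d : Differentiable ℂ g2 := by
    rw [← differentiableOn_univ]
    exact (Complex.differentiableOn_dslope univ_mem).2 hg1d.differentiableOn
  have e1 : ∀ s, g s = g 0 + s * g1 s := by
    intro s
    have := sub_smul_dslope g 0 s
    rw [sub_zero, smul_eq_mul] at this
    rw [this]; ring
  have e2 : ∀ s, g1 s = g1 0 + s * g2 s := by
    intro s
    have := sub_smul_dslope g1 0 s
    rw [sub_zero, smul_eq_mul] at this
    rw [this]; ring
  have hbdd : Bornology.IsBounded (Set.range g2) := by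
    obtain ⟨B, hB⟩ := (isCompact_closedBall (0 : ℂ) 1).exists_bound_of_continuousOn
      hg2d.continuous.continuousOn
    rw [isBounded_iff_forall_norm_le]
    refine ⟨max B (4 * C + ‖g 0‖ + ‖g1 0‖), ?_⟩
    rintro _ ⟨s, rfl⟩
    by_cases hs : ‖s‖ ≤ 1
    · exact (hB s (mem_closedBall_zero_iff.2 hs)).trans (le_max_left _ _)
    · rw [not_le] at hs
      refine le_trans ?_ (le_max_right _ _)
      have hs0 : 0 < ‖s‖ := by linarith
      have e3 : s ^ 2 * g2 s = g s - g 0 - s * g1 0 := by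
        rw [e1 s, e2 s]; ring
      have e4 : ‖s‖ ^ 2 * ‖g2 s‖ ≤ C * (1 + ‖s‖) ^ 2 + ‖g 0‖ + ‖s‖ * ‖g1 0‖ := by
        rw [← norm_pow, ← norm_mul, e3, ← norm_mul]
        refine (norm_sub_le _ _).trans (add_le_add_left ((norm_sub_le _ _).trans
          (add_le_add_left (hC s) _)) _)
      have e5 : C * (1 + ‖s‖) ^ 2 ≤ 4 * C * ‖s‖ ^ 2 := by nlinarith [mul_nonneg hC0 hs0.le]
      have e6 : ‖g 0‖ ≤ ‖g 0‖ * ‖s‖ ^ 2 :=
        le_mul_of_one_le_right (norm_nonneg _) (one_le_pow₀ hs.le)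
      have e7 : ‖s‖ * ‖g1 0‖ ≤ ‖g1 0‖ * ‖s‖ ^ 2 := by nlinarith [norm_nonneg (g1 0), mul_nonneg (norm_nonneg (g1 0)) hs0.le]
      have e8 : ‖s‖ ^ 2 * ‖g2 s‖ ≤ ‖s‖ ^ 2 * (4 * C + ‖g 0‖ + ‖g1 0‖) := by nlinarith
      exact le_of_mul_le_mul_left e8 (by positivity)
  refine ⟨g1 0, g2 0, fun s => ?_⟩
  have := hg2d.apply_eq_apply_of_bounded hbdd s 0
  rw [e1 s, e2 s, this]
  ring

/-- The coefficients of order two along all lines. -/
theorem exists_Q {f : E → ℂ} {R M : ℝ} (hR : 0 < R)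
    (hf : DifferentiableOn ℂ f (Metric.ball 0 R)) (hM : ∀ z ∈ Metric.ball (0 : E) R, ‖f z‖ ≤ M)
    (h0 : f 0 = 0) (hev : ∀ z ∈ Metric.ball (0 : E) R, f (-z) = f z) (z : E) :
    ∃ a : ℂ, Tendsto (fun ζ : ℂ => f (ζ • z) / ζ ^ 2) (𝓝[≠] 0) (𝓝 a) ∧
      ‖a‖ ≤ M * (‖z‖ / R) ^ 2 ∧
      ∀ ζ : ℂ, ‖ζ • z‖ < R → ‖f (ζ • z) - a * ζ ^ 2‖ ≤ 2 * M * (‖ζ • z‖ / R) ^ 4 := by
  by_cases hz : z = 0
  · refine ⟨0, ?_, by simp [hz], ?_⟩
    · simp only [hz, smul_zero, h0, zero_div]
      exact tendsto_const_nhds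
    · intro ζ _
      simp [hz, h0]
  have hz0 : 0 < ‖z‖ := norm_pos_iff.2 hz
  have hmaps : Set.MapsTo (fun ζ : ℂ => ζ • z) (Metric.ball 0 (R / ‖z‖)) (Metric.ball 0 R) := by
    intro ζ hζ
    rw [mem_ball_zero_iff] at hζ ⊢
    rw [norm_smul]
    exact (lt_div_iff₀ hz0).1 hζ
  obtain ⟨a, ha1, ha2, ha3⟩ := coef_one (f := fun ζ : ℂ => f (ζ • z)) (R := R / ‖z‖) (M := M)
    (by positivity) (hf.comp (by fun_prop) hmaps) (fun ζ hζ => hM _ (hmaps hζ)) (by simp [h0])
    (fun ζ hζ => by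
      have := hev _ (hmaps hζ)
      simp only at this
      rw [neg_smul, this])
  refine ⟨a, ha1, ha2.trans (le_of_eq ?_), ?_⟩
  · rw [div_pow, div_pow]; field_simp
  · intro ζ hζ
    rw [norm_smul] at hζ
    have := ha3 ζ (mem_ball_zero_iff.2 ((lt_div_iff₀ hz0).2 hζ))
    refine this.trans (le_of_eq ?_)
    rw [norm_smul]
    congr 2
    field_simp

/-- Expansion of an even holomorphic function: quadratic part plus a quartic remainder. `q` is a
symmetric complex bilinear form, obtained from the second derivative at `0`. -/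
theorem schwarz4 [FiniteDimensional ℂ E] {f : E → ℂ} {R M : ℝ} (hR : 0 < R)
    (hf : DifferentiableOn ℂ f (Metric.ball 0 R)) (hM : ∀ z ∈ Metric.ball (0 : E) R, ‖f z‖ ≤ M)
    (h0 : f 0 = 0) (hev : ∀ z ∈ Metric.ball (0 : E) R, f (-z) = f z) :
    ∃ q : E →ₗ[ℂ] E →ₗ[ℂ] ℂ, (∀ x y, q x y = q y x) ∧
      (∀ z, ‖q z z‖ ≤ M * (‖z‖ / R) ^ 2) ∧
      (∀ z ∈ Metric.ball (0 : E) R, ‖f z - q z z‖ ≤ 2 * M * (‖z‖ / R) ^ 4) ∧
      (∀ z, Tendsto (fun s : ℝ => f (((s : ℝ) : ℂ) • z) / (s : ℂ) ^ 2) (𝓝[≠] 0) (𝓝 (q z z))) := by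
  have hM0 : 0 ≤ M := (norm_nonneg _).trans (hM 0 (Metric.mem_ball_self hR))
  choose Q hQ1 hQ2 hQ3 using exists_Q hR hf hM h0 hev
  have hQ0 : Q 0 = 0 := by
    have := hQ2 0
    rw [norm_zero, zero_div, zero_pow two_ne_zero, mul_zero] at this
    exact norm_le_zero_iff.1 this
  -- homogeneity
  have hom : ∀ (c : ℂ) (z : E), Q (c • z) = c ^ 2 * Q z := by
    intro c z
    by_cases hc : c = 0
    · rw [hc, zero_smul, hQ0]; ring
    · have h1 := hQ1 (c • z)
      have h2 : Tendsto (fun ζ : ℂ => ζ * c) (𝓝[≠] 0) (𝓝[≠] 0) := by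
        rw [tendsto_nhdsWithin_iff]
        constructor
        · have : Tendsto (fun ζ : ℂ => ζ * c) (𝓝 0) (𝓝 (0 * c)) :=
            (continuous_id.mul continuous_const).tendsto 0
          rw [zero_mul] at this
          exact this.mono_left nhdsWithin_le_nhds
        · filter_upwards [self_mem_nhdsWithin] with ζ hζ
          exact mul_ne_zero hζ hc
      have h3 := ((hQ1 z).comp h2).const_mul (c ^ 2)
      refine tendsto_nhds_unique h1 (h3.congr' ?_)
      filter_upwards [self_mem_nhdsWithin] with ζ hζ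
      have hζ0 : ζ ≠ 0 := hζ
      simp only [Function.comp_apply]
      rw [smul_smul]
      field_simp
  -- uniform approximation
  have happ : ∀ r : ℝ, 0 < r → TendstoUniformlyOn
      (fun (n : ℕ) (z : E) => f (((1 / ((n : ℝ) + 1) : ℝ) : ℂ) • z) / ((1 / ((n : ℝ) + 1) : ℝ) : ℂ) ^ 2)
      Q atTop (Metric.ball 0 r) := by
    intro r hr
    rw [Metric.tendstoUniformlyOn_iff]
    intro ε hε
    have t1 : Tendsto (fun n : ℕ => 1 / ((n : ℝ) + 1)) atTop (𝓝 0) :=
      tendsto_one_div_add_atTop_nhds_zero_nat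
    have t2 : Tendsto (fun n : ℕ => 1 / ((n : ℝ) + 1) * r) atTop (𝓝 0) := by
      simpa using t1.mul_const r
    have t3 : Tendsto (fun n : ℕ => 2 * M * (r / R) ^ 4 * (1 / ((n : ℝ) + 1)) ^ 2) atTop (𝓝 0) := by
      simpa using (t1.pow 2).const_mul (2 * M * (r / R) ^ 4)
    filter_upwards [t2.eventually_lt_const hR, t3.eventually_lt_const hε] with n hn1 hn2 z hz
    set δ : ℝ := 1 / ((n : ℝ) + 1) with hδ
    have hδ0 : 0 < δ := by positivity
    have hδc : (δ : ℂ) ≠ 0 := by exact_mod_cast hδ0.ne'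
    have hzr : ‖z‖ < r := mem_ball_zero_iff.1 hz
    have hnz : ‖(δ : ℂ) • z‖ = δ * ‖z‖ := by
      rw [norm_smul, Complex.norm_real, Real.norm_eq_abs, abs_of_pos hδ0]
    have h1 := hQ3 z (δ : ℂ) (by rw [hnz]; nlinarith)
    rw [dist_eq_norm]
    have e1 : Q z - f ((δ : ℂ) • z) / (δ : ℂ) ^ 2 =
        -((f ((δ : ℂ) • z) - Q z * (δ : ℂ) ^ 2) / (δ : ℂ) ^ 2) := by
      field_simp
      ring
    rw [e1, norm_neg, norm_div, norm_pow, Complex.norm_real, Real.norm_eq_abs, abs_of_pos hδ0,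
      div_lt_iff₀ (by positivity)]
    refine h1.trans_lt ?_
    rw [hnz]
    have e2 : 2 * M * (δ * ‖z‖ / R) ^ 4 ≤ (2 * M * (r / R) ^ 4 * δ ^ 2) * δ ^ 2 := by
      have : (δ * ‖z‖ / R) ^ 4 ≤ (δ * r / R) ^ 4 := by gcongr
      calc 2 * M * (δ * ‖z‖ / R) ^ 4 ≤ 2 * M * (δ * r / R) ^ 4 := by gcongr
        _ = _ := by ring
    refine e2.trans_lt ?_
    exact mul_lt_mul_of_pos_right hn2 (by positivity)
  have hev' : ∀ r : ℝ, ∀ᶠ n : ℕ in atTop, (1 / ((n : ℝ) + 1)) * r < R := by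
    intro r
    have t1 : Tendsto (fun n : ℕ => 1 / ((n : ℝ) + 1)) atTop (𝓝 0) :=
      tendsto_one_div_add_atTop_nhds_zero_nat
    have t2 : Tendsto (fun n : ℕ => 1 / ((n : ℝ) + 1) * r) atTop (𝓝 0) := by
      simpa using t1.mul_const r
    exact t2.eventually_lt_const hR
  have hmaps : ∀ (r : ℝ) (n : ℕ), (1 / ((n : ℝ) + 1)) * r < R →
      Set.MapsTo (fun z : E => ((1 / ((n : ℝ) + 1) : ℝ) : ℂ) • z) (Metric.ball 0 r)
        (Metric.ball 0 R) := by
    intro r n hn z hz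
    have hzr : ‖z‖ < r := mem_ball_zero_iff.1 hz
    have hδ0 : 0 < 1 / ((n : ℝ) + 1) := by positivity
    rw [mem_ball_zero_iff, norm_smul, Complex.norm_real, Real.norm_eq_abs, abs_of_pos hδ0]
    nlinarith
  have hQc : Continuous Q := by
    rw [continuous_iff_continuousAt]
    intro z
    have hr : 0 < ‖z‖ + 1 := by positivity
    have h1 : ContinuousOn Q (Metric.ball 0 (‖z‖ + 1)) := by
      refine (happ _ hr).continuousOn (Filter.Eventually.frequently ?_)
      filter_upwards [hev' (‖z‖ + 1)] with n hn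
      exact (hf.continuousOn.comp (by fun_prop) (hmaps _ n hn)).div_const _
    exact h1.continuousAt (Metric.isOpen_ball.mem_nhds (mem_ball_zero_iff.2 (by linarith)))
  have hQe : ∀ z w : E, Differentiable ℂ fun s : ℂ => Q (s • z + w) := by
    intro z w s
    have hr : 0 < ‖s‖ + 1 := by positivity
    set r : ℝ := (‖s‖ + 1) * ‖z‖ + ‖w‖ + 1 with hrd
    have hrp : 0 < r := by positivity
    have hm : Set.MapsTo (fun s : ℂ => s • z + w) (Metric.ball 0 (‖s‖ + 1)) (Metric.ball 0 r) := by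
      intro u hu
      rw [mem_ball_zero_iff] at hu ⊢
      refine (norm_add_le _ _).trans_lt ?_
      rw [norm_smul, hrd]
      nlinarith [norm_nonneg z, mul_le_mul_of_nonneg_right hu.le (norm_nonneg z)]
    have h1 : TendstoUniformlyOn (fun (n : ℕ) (s : ℂ) =>
        f (((1 / ((n : ℝ) + 1) : ℝ) : ℂ) • (s • z + w)) / ((1 / ((n : ℝ) + 1) : ℝ) : ℂ) ^ 2)
        (fun s : ℂ => Q (s • z + w)) atTop (Metric.ball 0 (‖s‖ + 1)) :=
      ((happ r hrp).comp (fun s : ℂ => s • z + w)).mono hm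
    have h2 : DifferentiableOn ℂ (fun s : ℂ => Q (s • z + w)) (Metric.ball 0 (‖s‖ + 1)) := by
      refine h1.tendstoLocallyUniformlyOn.differentiableOn ?_ Metric.isOpen_ball
      filter_upwards [hev' r] with n hn
      exact (hf.comp (f := fun s : ℂ => ((1 / ((n : ℝ) + 1) : ℝ) : ℂ) • (s • z + w))
        (by fun_prop) ((hmaps _ n hn).comp hm)).div_const _
    exact h2.differentiableAt (Metric.isOpen_ball.mem_nhds (mem_ball_zero_iff.2 (by linarith)))
  set B : E → E → ℂ := fun z w => Q (z + w) - Q z - Q w with hB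
  have key : ∀ (s : ℂ) (z w : E), Q (s • z + w) = Q w + s * B z w + s ^ 2 * Q z := by
    intro s z w
    obtain ⟨b, c, hbc⟩ := entire_quad (hQe z w) (C := M / R ^ 2 * (‖z‖ + ‖w‖) ^ 2) (by
      intro s
      refine (hQ2 _).trans ?_
      have h1 : ‖s • z + w‖ ≤ (‖z‖ + ‖w‖) * (1 + ‖s‖) := by
        refine (norm_add_le _ _).trans ?_
        rw [norm_smul]
        nlinarith [norm_nonneg z, norm_nonneg w, norm_nonneg s,
          mul_nonneg (norm_nonneg w) (norm_nonneg s)]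
      calc M * (‖s • z + w‖ / R) ^ 2 ≤ M * ((‖z‖ + ‖w‖) * (1 + ‖s‖) / R) ^ 2 := by gcongr
        _ = _ := by ring)
    simp only [zero_smul, zero_add] at hbc
    have hc : c = Q z := by
      have t1 : Tendsto (fun u : ℂ => u ^ 2 * Q w + u * b + c) (𝓝[≠] 0) (𝓝 c) := by
        have : Tendsto (fun u : ℂ => u ^ 2 * Q w + u * b + c) (𝓝 0) (𝓝 (0 ^ 2 * Q w + 0 * b + c)) :=
          Continuous.tendsto (by fun_prop) 0
        have h2 : (0 : ℂ) ^ 2 * Q w + 0 * b + c = c := by ring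
        rw [h2] at this
        exact this.mono_left nhdsWithin_le_nhds
      have t2 : Tendsto (fun u : ℂ => Q (z + u • w)) (𝓝[≠] 0) (𝓝 (Q z)) := by
        have : Tendsto (fun u : ℂ => Q (z + u • w)) (𝓝 0) (𝓝 (Q (z + (0 : ℂ) • w))) :=
          Continuous.tendsto (by fun_prop) 0
        rw [zero_smul, add_zero] at this
        exact this.mono_left nhdsWithin_le_nhds
      refine tendsto_nhds_unique t1 (t2.congr' ?_)
      filter_upwards [self_mem_nhdsWithin] with u hu
      have hu0 : u ≠ 0 := hu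
      have e1 : z + u • w = u • (u⁻¹ • z + w) := by
        rw [smul_add, smul_smul, mul_inv_cancel₀ hu0, one_smul]
      rw [e1, hom, hbc]
      field_simp
    have hb : B z w = b := by
      have := hbc 1
      rw [one_smul, hc] at this
      simp only [hB]
      rw [this]; ring
    rw [hbc, hc, hb]
  have hsym : ∀ x y, B x y = B y x := by
    intro x y
    simp only [hB]
    rw [add_comm x y]; ring
  have hsm : ∀ (s : ℂ) (x y : E), B (s • x) y = s * B x y := by
    intro s x y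
    have := key s x y
    have h2 : B (s • x) y = Q (s • x + y) - Q (s • x) - Q y := rfl
    rw [h2, this, hom]; ring
  have hBc : ∀ z w w' : E, Continuous fun u : ℂ => B z (u • w + w') := by
    intro z w w'
    simp only [hB]
    fun_prop
  have hadd : ∀ x y z : E, B x (y + z) = B x y + B x z := by
    intro w' z w
    -- `B z (w + s w')`
    have e1 : ∀ s : ℂ, B z (s • w' + w) = B z w + s * (B w' (z + w) - B w' w) := by
      intro s
      have h2 : B z (s • w' + w) = Q (s • w' + (z + w)) - Q z - Q (s • w' + w) := by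
        simp only [hB]
        congr 3
        abel
      have h3 : B z w = Q (z + w) - Q z - Q w := rfl
      rw [h2, key, key, h3]
      ring
    have e2 : ∀ u : ℂ, u ≠ 0 → B z (u • w + w') = u * B z w + (B w' (z + w) - B w' w) := by
      intro u hu
      have h4 : u • w + w' = u • (u⁻¹ • w' + w) := by
        rw [smul_add, smul_smul, mul_inv_cancel₀ hu, one_smul, add_comm]
      rw [h4, hsym, hsm, hsym, e1]
      field_simp
    have t1 : Tendsto (fun u : ℂ => B z (u • w + w')) (𝓝[≠] 0) (𝓝 (B z w')) := by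
      have := (hBc z w w').tendsto 0
      rw [zero_smul, zero_add] at this
      exact this.mono_left nhdsWithin_le_nhds
    have t2 : Tendsto (fun u : ℂ => u * B z w + (B w' (z + w) - B w' w)) (𝓝[≠] 0)
        (𝓝 (B w' (z + w) - B w' w)) := by
      have : Tendsto (fun u : ℂ => u * B z w + (B w' (z + w) - B w' w)) (𝓝 0)
          (𝓝 (0 * B z w + (B w' (z + w) - B w' w))) := Continuous.tendsto (by fun_prop) 0
      rw [zero_mul, zero_add] at this
      exact this.mono_left nhdsWithin_le_nhds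
    have h5 := tendsto_nhds_unique t1 (t2.congr' (by
      filter_upwards [self_mem_nhdsWithin] with u hu
      exact (e2 u hu).symm))
    rw [hsym w' z, h5]
    ring
  have hqq : ∀ z, (1 / 2 : ℂ) * B z z = Q z := by
    intro z
    have h2 : B z z = Q (z + z) - Q z - Q z := rfl
    rw [h2, ← two_smul ℂ z, hom]
    ring
  refine ⟨LinearMap.mk₂ ℂ (fun x y => (1 / 2 : ℂ) * B x y) ?_ ?_ ?_ ?_, ?_, ?_, ?_, ?_⟩
  · intro x y z
    rw [hsym, hadd, hsym z x, hsym z y]; ring
  · intro c x y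
    rw [hsm, smul_eq_mul]; ring
  · intro x y z
    rw [hadd]; ring
  · intro c x y
    rw [hsym, hsm, hsym y x, smul_eq_mul]; ring
  · intro x y
    simp only [LinearMap.mk₂_apply]
    rw [hsym]
  · intro z
    simp only [LinearMap.mk₂_apply]
    rw [hqq]
    exact hQ2 z
  · intro z hz
    simp only [LinearMap.mk₂_apply]
    rw [hqq]
    have := hQ3 z 1 (by rw [one_smul]; exact mem_ball_zero_iff.1 hz)
    simpa using this
  · intro z
    simp only [LinearMap.mk₂_apply]
    rw [hqq]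
    refine (hQ1 z).comp ?_
    rw [tendsto_nhdsWithin_iff]
    constructor
    · have : Tendsto (fun s : ℝ => (s : ℂ)) (𝓝 0) (𝓝 ((0 : ℝ) : ℂ)) :=
        Complex.continuous_ofReal.tendsto 0
      rw [Complex.ofReal_zero] at this
      exact this.mono_left nhdsWithin_le_nhds
    · filter_upwards [self_mem_nhdsWithin] with s hs
      exact Complex.ofReal_ne_zero.2 hs

end

end Pool.Agent.T2H04.HY
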