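import Mathlib
import Pool.Agent.T2H04.HY.Ccv
import Pool.Agent.T2H04.HY.Geo

/-!
# The chart near `1` and second differences
-/

open MeasureTheory Matrix Filter
open scoped Matrix.Norms.Frobenius Topology

namespace Pool.Agent.T2H04.HY

set_option linter.unusedSectionVars false

noncomputable section

variable {G : Type} [Group G] [TopologicalSpace G] [IsTopologicalGroup G] [CompactSpace G]
  {m : Type} [Fintype m] [DecidableEq m] (L : RD G m)

theorem exists_prj : ∃ P : Mt m →L[ℂ] gC L, ∀ Z : gC L, P (Z : Mt m) = Z := by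
  obtain ⟨f, hf⟩ := (gC L).subtype.exists_leftInverse_of_injective
    (LinearMap.ker_eq_bot.2 (Submodule.injective_subtype _))
  refine ⟨LinearMap.toContinuousLinearMap f, fun Z => ?_⟩
  have := LinearMap.congr_fun hf Z
  simpa using this

/-- a projection to the complexified Lie algebra -/
def prj : Mt m →L[ℂ] gC L := Classical.choose (exists_prj L)

theorem prj_coe (Z : gC L) : prj L (Z : Mt m) = Z := Classical.choose_spec (exists_prj L) Z

theorem coe_prj {Z : Mt m} (hZ : Z ∈ gC L) : ((prj L Z : gC L) : Mt m) = Z := by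
  have := prj_coe L ⟨Z, hZ⟩
  exact congrArg Subtype.val this

/-- the logarithm of the product of the exponentials -/
def bc (D : LogData m) (Z W : gC L) : gC L :=
  prj L (D.lg (NormedSpace.exp (Z : Mt m) * NormedSpace.exp (W : Mt m)))

/-- all geometric facts at the scale `δ` with the precision `ε` -/
structure Chart (D : LogData m) (ε δ : ℝ) : Prop where
  pos : 0 < δ
  le_R : δ ≤ D.R
  mem : ∀ Z ∈ gC L, ∀ W ∈ gC L, ‖Z‖ < δ → ‖W‖ < δ →
    D.lg (NormedSpace.exp Z * NormedSpace.exp W) ∈ gC L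
  near : ∀ Z W : Mt m, ‖Z‖ < δ → ‖W‖ < δ → ‖NormedSpace.exp Z * NormedSpace.exp W - 1‖ < D.R
  bl : ∀ Z W Z' W' : Mt m, ‖Z‖ < δ → ‖W‖ < δ → ‖Z'‖ < δ → ‖W'‖ < δ →
    ‖(D.lg (NormedSpace.exp Z * NormedSpace.exp W) - Z - W) -
      (D.lg (NormedSpace.exp Z' * NormedSpace.exp W') - Z' - W')‖ ≤ ε * (‖Z - Z'‖ + ‖W - W'‖)
  el : ∀ Z Z' : Mt m, ‖Z‖ < δ → ‖Z'‖ < δ →
    ‖NormedSpace.exp Z - NormedSpace.exp Z' - (Z - Z')‖ ≤ ε * ‖Z - Z'‖
  lgm : ∀ y : G, dis L y < δ → D.lg (L.rho y) ∈ lieSet L ∧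
    NormedSpace.exp (D.lg (L.rho y)) = L.rho y ∧
    ‖D.lg (L.rho y)‖ ≤ (1 + ε) * dis L y ∧ dis L y ≤ (1 + ε) * ‖D.lg (L.rho y)‖
  geo : ∀ Z ∈ gC L, ‖Z‖ < δ → ∀ y : G, ‖NormedSpace.exp (reP Z) * L.rho y - 1‖ < δ →
    ∃ Y ∈ gC L, NormedSpace.exp Z * L.rho y = NormedSpace.exp Y ∧
      ‖imP Y‖ ≤ (1 + ε) * ‖imP Z‖ ∧
      ‖reP Y‖ ≤ (1 + ε) * ‖NormedSpace.exp (reP Z) * L.rho y - 1‖ + ε * ‖imP Z‖ ∧
      (1 - ε) * ‖NormedSpace.exp (reP Z) * L.rho y - 1‖ ≤ ‖reP Y‖ + ε * ‖imP Z‖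

variable {L} in
theorem Chart.mono {D : LogData m} {ε δ δ' : ℝ} (h : Chart L D ε δ) (h0 : 0 < δ') (h1 : δ' ≤ δ) :
    Chart L D ε δ' where
  pos := h0
  le_R := h1.trans h.le_R
  mem Z hZ W hW h2 h3 := h.mem Z hZ W hW (h2.trans_le h1) (h3.trans_le h1)
  near Z W h2 h3 := h.near Z W (h2.trans_le h1) (h3.trans_le h1)
  bl Z W Z' W' h2 h3 h4 h5 := h.bl Z W Z' W' (h2.trans_le h1) (h3.trans_le h1) (h4.trans_le h1)
    (h5.trans_le h1)
  el Z Z' h2 h3 := h.el Z Z' (h2.trans_le h1) (h3.trans_le h1)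
  lgm y h2 := h.lgm y (h2.trans_le h1)
  geo Z hZ h2 y h3 := h.geo Z hZ (h2.trans_le h1) y (h3.trans_le h1)

theorem exists_chart (D : LogData m) (ε : ℝ) (hε : 0 < ε) : ∃ δ, Chart L D ε δ := by
  obtain ⟨δ1, h1, hmem⟩ := lg_mem_gC L D
  obtain ⟨δ2, h2, hbl⟩ := bch_lip D ε hε
  obtain ⟨δ3, h3, hel⟩ := exp_lip (m := m) ε hε
  obtain ⟨δ4, h4, hlg⟩ := lg_mem_lie L D
  obtain ⟨δ5, h5, hgeo⟩ := geo L D ε hε
  -- `lg` is almost an isometry
  obtain ⟨δ6, h6, hlip⟩ := D.lip (ε / (1 + ε)) (by positivity)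
  have hcont : Continuous fun p : Mt m × Mt m =>
      NormedSpace.exp p.1 * NormedSpace.exp p.2 - 1 :=
    ((exp_cont.comp continuous_fst).mul (exp_cont.comp continuous_snd)).sub continuous_const
  have hz : NormedSpace.exp ((0, 0) : Mt m × Mt m).1 * NormedSpace.exp ((0, 0) : Mt m × Mt m).2 - 1 =
      0 := by
    simp [NormedSpace.exp_zero]
  obtain ⟨δ7, h7, hnear⟩ := Metric.continuousAt_iff.1 (hcont.continuousAt (x := (0, 0))) D.R D.R_pos
  rw [hz] at hnear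
  have hlg1 : D.lg 1 = 0 := by
    have := D.lg_exp 0 (by rw [norm_zero]; exact D.R_pos)
    rwa [NormedSpace.exp_zero] at this
  set δ := min D.R (min δ1 (min δ2 (min δ3 (min δ4 (min δ5 (min δ6 δ7)))))) with hδ
  have d0 : δ ≤ D.R := min_le_left _ _
  have e1 : δ ≤ min δ1 (min δ2 (min δ3 (min δ4 (min δ5 (min δ6 δ7))))) := min_le_right _ _
  have d1 : δ ≤ δ1 := e1.trans (min_le_left _ _)
  have e2 := e1.trans (min_le_right _ _)
  have d2 : δ ≤ δ2 := e2.trans (min_le_left _ _)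
  have e3 := e2.trans (min_le_right _ _)
  have d3 : δ ≤ δ3 := e3.trans (min_le_left _ _)
  have e4 := e3.trans (min_le_right _ _)
  have d4 : δ ≤ δ4 := e4.trans (min_le_left _ _)
  have e5 := e4.trans (min_le_right _ _)
  have d5 : δ ≤ δ5 := e5.trans (min_le_left _ _)
  have e6 := e5.trans (min_le_right _ _)
  have d6 : δ ≤ δ6 := e6.trans (min_le_left _ _)
  have d7 : δ ≤ δ7 := e6.trans (min_le_right _ _)
  refine ⟨δ, ?_, d0, ?_, ?_, ?_, ?_, ?_, ?_⟩
  · rw [hδ]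
    have := D.R_pos
    positivity
  · intro Z hZ W hW hZ1 hW1
    exact hmem Z hZ W hW (hZ1.trans_le d1) (hW1.trans_le d1)
  · intro Z W hZ1 hW1
    have := @hnear (Z, W) (by
      rw [Prod.dist_eq, dist_zero_right, dist_zero_right]
      exact max_lt (hZ1.trans_le d7) (hW1.trans_le d7))
    rwa [dist_zero_right] at this
  · intro Z W Z' W' a b c d
    exact hbl Z W Z' W' (a.trans_le d2) (b.trans_le d2) (c.trans_le d2) (d.trans_le d2)
  · intro Z Z' a b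
    exact hel Z Z' (a.trans_le d3) (b.trans_le d3)
  · intro y hy
    have hy6 : ‖L.rho y - 1‖ < δ6 := lt_of_lt_of_le hy d6
    have hl := hlip (L.rho y) 1 hy6 (by rw [sub_self, norm_zero]; exact h6)
    rw [hlg1, sub_zero] at hl
    have hdis : dis L y = ‖L.rho y - 1‖ := rfl
    have hd0 : 0 ≤ dis L y := norm_nonneg _
    rw [← hdis] at hl
    have hε' : ε / (1 + ε) ≤ ε := by
      rw [div_le_iff₀ (by positivity)]; nlinarith
    refine ⟨hlg y (hy.trans_le d4), D.exp_lg _ (lt_of_lt_of_le hy d0), ?_, ?_⟩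
    · have : ‖D.lg (L.rho y)‖ ≤ ‖D.lg (L.rho y) - (L.rho y - 1)‖ + ‖L.rho y - 1‖ := by
        have := norm_add_le (D.lg (L.rho y) - (L.rho y - 1)) (L.rho y - 1)
        rwa [sub_add_cancel] at this
      rw [← hdis] at this
      nlinarith [mul_le_mul_of_nonneg_right hε' hd0]
    · have : dis L y ≤ ‖D.lg (L.rho y)‖ + ‖D.lg (L.rho y) - (L.rho y - 1)‖ := by
        have := norm_sub_le (D.lg (L.rho y)) (D.lg (L.rho y) - (L.rho y - 1))
        rwa [sub_sub_cancel] at this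
      have h9 : dis L y * (1 - ε / (1 + ε)) ≤ ‖D.lg (L.rho y)‖ := by nlinarith
      have h10 : 1 - ε / (1 + ε) = 1 / (1 + ε) := by field_simp; ring
      rw [h10, mul_one_div, div_le_iff₀ (by positivity)] at h9
      linarith
  · intro Z hZ a y b
    exact hgeo Z hZ (a.trans_le d5) y (b.trans_le d5)

end

end Pool.Agent.T2H04.HY
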