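import Mathlib
import Pool.Agent.T2H04.HY.Chart

/-!
# The basic bound of a function of the class
-/

open MeasureTheory Matrix Filter
open scoped Matrix.Norms.Frobenius Topology

namespace Pool.Agent.T2H04.HY

set_option linter.unusedSectionVars false

noncomputable section

variable {G : Type} [Group G] [TopologicalSpace G] [IsTopologicalGroup G] [CompactSpace G]
  {m : Type} [Fintype m] [DecidableEq m] {L : RD G m}

theorem cls_F1 {F : Mt m → ℂ} {t A r τ s b ε : ℝ} (cl : Cls L F t A r τ s b ε) :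
    F 1 = (((F 1).re : ℝ) : ℂ) := by
  have := cl.real 1
  rw [map_one] at this
  exact Complex.ext (by simp) (by simp [this])

theorem cls_normF1 {F : Mt m → ℂ} {t A r τ s b ε : ℝ} (cl : Cls L F t A r τ s b ε) :
    ‖F 1‖ = (F 1).re := by
  rw [cls_F1 cl, Complex.norm_real, Real.norm_eq_abs, abs_of_pos]
  · simp
  · simpa using cl.pos

theorem norm_cexp_form (Q w : ℂ) (t : ℝ) :
    ‖Complex.exp (-(Q / (2 * t)) - w)‖ = Real.exp (-(Q.re / (2 * t)) - w.re) := by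
  rw [Complex.norm_exp]
  congr 1
  rw [Complex.sub_re, Complex.neg_re]
  have : (2 * (t : ℂ)) = ((2 * t : ℝ) : ℂ) := by push_cast; ring
  rw [this, Complex.div_ofReal_re]

/-- arithmetic behind the bound -/
theorem near_arith {a h p q κ εg : ℝ} (ha : 0 ≤ a) (hh : 0 ≤ h) (hp0 : 0 ≤ p) (hq0 : 0 ≤ q)
    (hκ0 : 0 ≤ κ) (hκ : κ ≤ 1 / 100000) (he0 : 0 ≤ εg) (he : εg ≤ 1 / 1000000)
    (hq : q ≤ (1 + εg) * h) (hpa : (1 - εg) * a ≤ p + εg * h) :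
    (1 - 1 / 10000) * a ^ 2 - (1 + 1 / 10000) * h ^ 2 ≤
      (1 - κ) * p ^ 2 - (1 + κ) * q ^ 2 := by
  have hq2 : q ^ 2 ≤ (1 + εg) ^ 2 * h ^ 2 := by
    have := pow_le_pow_left₀ hq0 hq 2
    rwa [mul_pow] at this
  have hp2 : (1 - 3 * εg) * a ^ 2 - εg * h ^ 2 ≤ p ^ 2 := by
    have h1 : ((1 - εg) * a) ^ 2 ≤ (p + εg * h) ^ 2 :=
      pow_le_pow_left₀ (mul_nonneg (by linarith) ha) hpa 2
    have h2 : (p + εg * h) ^ 2 ≤ (1 + εg) * p ^ 2 + (εg + εg ^ 2) * h ^ 2 := by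
      nlinarith [mul_nonneg he0 (sq_nonneg (p - h))]
    have h3 : (1 - εg) ^ 2 * a ^ 2 ≤ (1 + εg) * p ^ 2 + (εg + εg ^ 2) * h ^ 2 := by
      rw [← mul_pow]; exact h1.trans h2
    have h4 : (1 + εg) * ((1 - 3 * εg) * a ^ 2 - εg * h ^ 2) ≤ (1 + εg) * p ^ 2 := by
      nlinarith [mul_nonneg (mul_nonneg he0 he0) (sq_nonneg a), sq_nonneg a, sq_nonneg h]
    exact le_of_mul_le_mul_left h4 (by linarith)
  have e1 : (1 + κ) * q ^ 2 ≤ (1 + κ) * ((1 + εg) ^ 2 * h ^ 2) :=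
    mul_le_mul_of_nonneg_left hq2 (by linarith)
  have e2 : (1 - κ) * ((1 - 3 * εg) * a ^ 2 - εg * h ^ 2) ≤ (1 - κ) * p ^ 2 :=
    mul_le_mul_of_nonneg_left hp2 (by linarith)
  have c1 : (1 + κ) * (1 + εg) ^ 2 + (1 - κ) * εg ≤ 1 + 1 / 10000 := by nlinarith
  have c2 : 1 - 1 / 10000 ≤ (1 - κ) * (1 - 3 * εg) := by nlinarith
  have c3 := mul_le_mul_of_nonneg_right c1 (sq_nonneg h)
  have c4 := mul_le_mul_of_nonneg_right c2 (sq_nonneg a)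
  nlinarith

theorem near_arith2 {a h p q εg A t r τ b W : ℝ} (ha : 0 ≤ a) (hh : 0 ≤ h) (hp0 : 0 ≤ p)
    (hq0 : 0 ≤ q) (he0 : 0 ≤ εg) (he : εg ≤ 1 / 1000000) (hq : q ≤ (1 + εg) * h)
    (hpa : (1 - εg) * a ≤ p + εg * h) (ht : 0 < t) (hAt : A * t ≤ 1 / 10)
    (hr0 : 0 < r) (hr : r ≤ 1 / 1000) (hτ0 : 0 < τ) (hτ : τ ≤ r) (hpr : p < r) (hqτ : q < τ)
    (hw' : -W ≤ A * (p ^ 2 + q ^ 2) ^ 2) :
    -((p ^ 2 - q ^ 2) / (2 * t)) - W ≤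
      -((min b ((1 - 1 / 10000) * a ^ 2) - (1 + 1 / 10000) * h ^ 2) / (2 * t)) := by
  obtain ⟨κ, hκ⟩ : ∃ κ, κ = (r ^ 2 + τ ^ 2) / 5 := ⟨_, rfl⟩
  have hpq : p ^ 2 + q ^ 2 ≤ 5 * κ := by
    rw [hκ]
    have := pow_le_pow_left₀ hp0 hpr.le 2
    have := pow_le_pow_left₀ hq0 hqτ.le 2
    linarith
  have hκ1 : κ ≤ 1 / 100000 := by
    rw [hκ]
    have := pow_le_pow_left₀ hr0.le hr 2
    have := pow_le_pow_left₀ hτ0.le (hτ.trans hr) 2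
    linarith
  have hκ0 : 0 ≤ κ := by rw [hκ]; positivity
  have hmain := near_arith ha hh hp0 hq0 hκ0 hκ1 he0 he hq hpa
  have hpq0 : 0 ≤ p ^ 2 + q ^ 2 := by positivity
  have h5 : A * (p ^ 2 + q ^ 2) ^ 2 * (2 * t) ≤ κ * (p ^ 2 + q ^ 2) := by
    have h6 : (p ^ 2 + q ^ 2) ^ 2 ≤ 5 * κ * (p ^ 2 + q ^ 2) := by nlinarith
    have h7 : A * (p ^ 2 + q ^ 2) ^ 2 * (2 * t) = (A * t) * (2 * (p ^ 2 + q ^ 2) ^ 2) := by ring
    rw [h7]
    have h8 : (A * t) * (2 * (p ^ 2 + q ^ 2) ^ 2) ≤ 1 / 10 * (2 * (p ^ 2 + q ^ 2) ^ 2) :=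
      mul_le_mul_of_nonneg_right hAt (by positivity)
    linarith
  have h9 : min b ((1 - 1 / 10000) * a ^ 2) ≤ (1 - 1 / 10000) * a ^ 2 := min_le_right _ _
  have h10 : min b ((1 - 1 / 10000) * a ^ 2) - (1 + 1 / 10000) * h ^ 2 ≤
      (p ^ 2 - q ^ 2) - A * (p ^ 2 + q ^ 2) ^ 2 * (2 * t) := by linarith
  have h11 : -((p ^ 2 - q ^ 2) / (2 * t)) - W ≤
      -(((p ^ 2 - q ^ 2) - A * (p ^ 2 + q ^ 2) ^ 2 * (2 * t)) / (2 * t)) := by
    have e : ∀ x y : ℝ, (x - y * (2 * t)) / (2 * t) = x / (2 * t) - y := by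
      intro x y; field_simp
    rw [e]
    linarith
  refine h11.trans ?_
  rw [neg_le_neg_iff]
  exact div_le_div_of_nonneg_right h10 (by positivity)

theorem ubound {D : LogData m} {εg δ : ℝ} (ch : Chart L D εg δ) (he0 : 0 ≤ εg)
    (he : εg ≤ 1 / 1000000) {F : Mt m → ℂ} {t A r τ s b : ℝ}
    (cl : Cls L F t A r τ s b (1 / 10000)) (ht : 0 < t) (hA : 0 ≤ A) (hAt : A * t ≤ 1 / 10)
    (hr0 : 0 < r) (hr : r ≤ 1 / 1000) (hτ0 : 0 < τ) (hτ : τ ≤ r) (hδ : 2 * r ≤ δ)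
    (hs : s * (1 + εg) + εg * τ ≤ r)
    (Z : gC L) (h1 : ‖reP (Z : Mt m)‖ < r) (h2 : ‖imP (Z : Mt m)‖ < τ / 2) (y : G) :
    ‖F (NormedSpace.exp (Z : Mt m) * L.rho y)‖ ≤ (F 1).re * Real.exp
      (-((min b ((1 - 1 / 10000) * ‖NormedSpace.exp (reP (Z : Mt m)) * L.rho y - 1‖ ^ 2) -
        (1 + 1 / 10000) * ‖imP (Z : Mt m)‖ ^ 2) / (2 * t))) := by
  set a := ‖NormedSpace.exp (reP (Z : Mt m)) * L.rho y - 1‖ with had
  set h := ‖imP (Z : Mt m)‖ with hhd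
  have ha0 : 0 ≤ a := norm_nonneg _
  have hh0 : 0 ≤ h := norm_nonneg _
  by_cases hfar : s ≤ a
  · have hZ : Z ∈ dom L r τ := ⟨h1, lt_of_lt_of_le h2 (by linarith)⟩
    refine (cl.large Z hZ y hfar).trans ?_
    refine mul_le_mul_of_nonneg_left (Real.exp_le_exp.2 ?_) cl.pos.le
    rw [neg_le_neg_iff]
    refine div_le_div_of_nonneg_right ?_ (by positivity)
    have := min_le_left b ((1 - 1 / 10000) * a ^ 2)
    linarith
  · rw [not_le] at hfar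
    have hZn : ‖(Z : Mt m)‖ < δ := by
      have := norm_le_reP_imP (Z : Mt m)
      linarith
    have haδ : a < δ := by
      have h3 : s ≤ r := by
        have : 0 ≤ s := ha0.trans hfar.le
        nlinarith [mul_nonneg this he0, mul_nonneg he0 hτ0.le]
      linarith
    obtain ⟨Y, hY, hYe, hq, hp, hpa⟩ := ch.geo Z Z.2 hZn y haδ
    set p := ‖reP Y‖ with hpd
    set q := ‖imP Y‖ with hqd
    have hp0 : 0 ≤ p := norm_nonneg _
    have hq0 : 0 ≤ q := norm_nonneg _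
    have hpr : p < r := by
      have : (1 + εg) * a < (1 + εg) * s := mul_lt_mul_of_pos_left hfar (by linarith)
      have h4 : εg * h ≤ εg * τ := mul_le_mul_of_nonneg_left (by linarith) he0
      nlinarith
    have hqτ : q < τ := by nlinarith
    obtain ⟨w, -, -, -, -, hwA, hwF⟩ := cl.small
    have hYd : (⟨Y, hY⟩ : gC L) ∈ dom L r τ := ⟨hpr, hqτ⟩
    have hF := hwF ⟨Y, hY⟩ hYd
    have hw := hwA ⟨Y, hY⟩ hYd
    simp only at hF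
    rw [hYe, hF, norm_mul, cls_normF1 cl, norm_cexp_form]
    refine mul_le_mul_of_nonneg_left (Real.exp_le_exp.2 ?_) cl.pos.le
    have hnY : ‖(⟨Y, hY⟩ : gC L)‖ ^ 2 = p ^ 2 + q ^ 2 := norm_sq_reP_imP Y
    have hw' : -(w ⟨Y, hY⟩).re ≤ A * (p ^ 2 + q ^ 2) ^ 2 := by
      have e1 : -(w ⟨Y, hY⟩).re ≤ ‖w ⟨Y, hY⟩‖ :=
        (neg_le_abs _).trans (Complex.abs_re_le_norm _)
      have e2 : ‖(⟨Y, hY⟩ : gC L)‖ ^ 4 = (p ^ 2 + q ^ 2) ^ 2 := by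
        rw [← hnY]; ring
      rw [e2] at hw
      exact e1.trans hw
    have hQ : (Qf Y).re = p ^ 2 - q ^ 2 := Qf_re Y
    rw [hQ]
    exact near_arith2 ha0 hh0 hp0 hq0 he0 he hq hpa ht hAt hr0 hr hτ0 hτ hpr hqτ hw'

end

end Pool.Agent.T2H04.HY
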