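import Mathlib
import Pool.Agent.T2H04.HY.ActDefs
import Pool.Agent.T2H04.HY.Cx
import Pool.Agent.T2H04.HY.Ub

/-!
# General actions are in the class
-/

open MeasureTheory Matrix Filter
open scoped Matrix.Norms.Frobenius Topology

namespace Pool.Agent.T2H04.HY

set_option linter.unusedSectionVars false

noncomputable section

variable {G : Type} [Group G] [TopologicalSpace G] [IsTopologicalGroup G] [CompactSpace G]
  {m : Type} [Fintype m] [DecidableEq m] (L : RD G m)

theorem act_exp_diff {V : Mt m → ℂ} (hV : Act L V) :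
    Differentiable ℂ (fun Z : gC L => V (NormedSpace.exp (Z : Mt m))) := by
  have h2 : Differentiable ℂ (fun Z : gC L => (Z : Mt m)) := (gC L).subtypeL.differentiable
  have h3 : Differentiable ℂ V := hV.diff.differentiable (by norm_num)
  exact h3.comp (exp_diff.comp h2)

theorem Qf_gC_diff : Differentiable ℂ (fun Z : gC L => Qf (Z : Mt m)) := by
  have h1 : Differentiable ℂ (fun x : Mt m => trace x) :=
    (LinearMap.toContinuousLinearMap (Matrix.traceLinearMap m ℂ ℂ)).differentiable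
  have h2 : Differentiable ℂ (fun Z : gC L => (Z : Mt m)) := (gC L).subtypeL.differentiable
  exact (h1.comp (h2.mul h2)).neg

theorem gC_div {f : gC L → ℂ} (hf : Differentiable ℂ f) (c : ℂ) :
    Differentiable ℂ (fun Z => f Z / c) := by
  intro Z
  have h7 := (hf Z).mul_const (c⁻¹)
  simp only [← div_eq_mul_inv] at h7
  exact h7

theorem act_rem_diff {V : Mt m → ℂ} (hV : Act L V) :
    Differentiable ℂ (fun Z : gC L => V (NormedSpace.exp (Z : Mt m)) - Qf (Z : Mt m) / 2) :=
  (act_exp_diff L hV).sub (gC_div L (Qf_gC_diff L) 2)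

theorem act_neg {V : Mt m → ℂ} (hV : Act L V) {Z : Mt m} (hZ : Z ∈ gC L) :
    V (NormedSpace.exp (-Z)) = V (NormedSpace.exp Z) := by
  rw [← sig_exp L hZ, hV.inv]

/-- the quartic remainder of an action -/
theorem act_quart {V : Mt m → ℂ} (hV : Act L V) : ∃ C δ : ℝ, 0 < C ∧ 0 < δ ∧ ∀ Z : gC L, ‖Z‖ < δ →
    ‖V (NormedSpace.exp (Z : Mt m)) - Qf (Z : Mt m) / 2‖ ≤ C * ‖Z‖ ^ 4 := by
  set f : gC L → ℂ := fun Z => V (NormedSpace.exp (Z : Mt m)) - Qf (Z : Mt m) / 2 with hf
  have hfd : Differentiable ℂ f := act_rem_diff L hV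
  obtain ⟨M, hM⟩ := (isCompact_closedBall (0 : gC L) 1).exists_bound_of_continuousOn
    hfd.continuous.continuousOn
  have h0 : f 0 = 0 := by
    simp only [hf, ZeroMemClass.coe_zero, NormedSpace.exp_zero, hV.one]
    simp [Qf]
  have hev : ∀ z : gC L, f (-z) = f z := by
    intro z
    simp only [hf, NegMemClass.coe_neg]
    rw [act_neg L hV z.2]
    unfold Qf
    rw [neg_mul_neg]
  obtain ⟨q, -, -, hq4, hql⟩ := schwarz4 (f := f) (R := 1) (M := M) one_pos hfd.differentiableOn
    (fun z hz => hM z (Metric.ball_subset_closedBall hz)) h0 (fun z _ => hev z)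
  have hq0 : ∀ Z, q Z Z = 0 := by
    intro Z
    refine tendsto_nhds_unique (hql Z) ?_
    have h1 := (hV.hess Z).sub (tendsto_const_nhds (x := Qf (Z : Mt m) / 2))
    rw [sub_self] at h1
    refine h1.congr' ?_
    filter_upwards [self_mem_nhdsWithin] with s hs
    have hs0 : (s : ℂ) ≠ 0 := Complex.ofReal_ne_zero.2 hs
    simp only [hf, Submodule.coe_smul]
    have e : Qf ((s : ℂ) • (Z : Mt m)) = (s : ℂ) ^ 2 * Qf (Z : Mt m) := by
      unfold Qf
      rw [smul_mul_smul_comm, trace_smul, smul_eq_mul]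
      ring
    rw [e]
    field_simp
  have hM0 : 0 ≤ M := (norm_nonneg _).trans (hM 0 (Metric.mem_closedBall_self zero_le_one))
  refine ⟨2 * M + 1, 1, by positivity, one_pos, fun Z hZ => ?_⟩
  have h1 := hq4 Z (mem_ball_zero_iff.2 hZ)
  rw [hq0, sub_zero, div_one] at h1
  refine h1.trans ?_
  have : 0 ≤ ‖Z‖ ^ 4 := by positivity
  linarith

/-- lower bound of the action away from `1` -/
theorem act_far {V : Mt m → ℂ} (hV : Act L V) {a1 : ℝ} (ha1 : 0 < a1) :
    ∃ c1 : ℝ, 0 < c1 ∧ ∀ g : G, a1 ≤ dis L g → c1 ≤ (V (L.rho g)).re := by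
  have hVc : Continuous V := hV.diff.continuous
  have hc : Continuous fun g : G => (V (L.rho g)).re :=
    Complex.continuous_re.comp (hVc.comp L.cont)
  have hK : IsCompact {g : G | a1 ≤ dis L g} := by
    refine IsClosed.isCompact (isClosed_le continuous_const ?_)
    exact (L.cont.sub continuous_const).norm
  by_cases hne : ({g : G | a1 ≤ dis L g}).Nonempty
  · obtain ⟨g0, hg0, hmin⟩ := hK.exists_isMinOn hne hc.continuousOn
    refine ⟨(V (L.rho g0)).re, hV.pos g0 ?_, fun g hg => hmin hg⟩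
    rintro rfl
    have : dis L (1 : G) = 0 := by unfold dis; simp
    have h3 : a1 ≤ dis L (1 : G) := hg0
    linarith
  · exact ⟨1, one_pos, fun g hg => (hne ⟨g, hg⟩).elim⟩

/-- uniform continuity along the group -/
theorem act_unif {V : Mt m → ℂ} (hV : Act L V) {c : ℝ} (hc : 0 < c) :
    ∃ ρ : ℝ, 0 < ρ ∧ ∀ Z : Mt m, ‖Z‖ < ρ → ∀ y : G,
      ‖V (NormedSpace.exp Z * L.rho y) - V (NormedSpace.exp (reP Z) * L.rho y)‖ < c := by
  have hVc : Continuous V := hV.diff.continuous
  have hre : Continuous (reP : Mt m → Mt m) := by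
    have h1 : Continuous (fun Z : Mt m => Zᴴ) :=
      Continuous.matrix_conjTranspose (continuous_id (X := Mt m))
    have h2 : Continuous (fun Z : Mt m => Z - Zᴴ) := Continuous.sub continuous_id h1
    exact Continuous.const_smul h2 (1 / 2 : ℂ)
  have hcont : Continuous fun p : Mt m × G =>
      ‖V (NormedSpace.exp p.1 * L.rho p.2) - V (NormedSpace.exp (reP p.1) * L.rho p.2)‖ :=
    ((hVc.comp ((exp_cont.comp continuous_fst).mul (L.cont.comp continuous_snd))).sub
      (hVc.comp ((exp_cont.comp (hre.comp continuous_fst)).mul (L.cont.comp continuous_snd)))).norm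
  have h1 : ∀ᶠ Z : Mt m in 𝓝 0, ∀ y ∈ (Set.univ : Set G),
      ‖V (NormedSpace.exp Z * L.rho y) - V (NormedSpace.exp (reP Z) * L.rho y)‖ < c := by
    refine isCompact_univ.eventually_forall_of_forall_eventually fun y _ => ?_
    have h2 := hcont.tendsto ((0 : Mt m), y)
    have h3 : reP (0 : Mt m) = 0 := by unfold reP; simp
    simp only [h3, sub_self, norm_zero] at h2
    exact h2.eventually_lt_const hc
  obtain ⟨ρ, hρ, h4⟩ := Metric.eventually_nhds_iff.1 h1
  exact ⟨ρ, hρ, fun Z hZ y => h4 (by rwa [dist_zero_right]) y (Set.mem_univ _)⟩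

/-- An action with a small quartic remainder is in the class. -/
theorem act_cls (D : LogData m) {V : Mt m → ℂ} (hV : Act L V) {δ : ℝ} (hδ : 0 < δ)
    (hq : ∀ Z : gC L, ‖Z‖ < δ →
      ‖V (NormedSpace.exp (Z : Mt m)) - Qf (Z : Mt m) / 2‖ ≤ 1 / 20 * ‖Z‖ ^ 4) :
    ∃ r1 : ℝ, 0 < r1 ∧ ∀ r0 : ℝ, 0 < r0 → r0 ≤ r1 →
    ∀ t : ℝ, 0 < t → Cls L (At V t) t (1 / (20 * t)) r0 (r0 / 4) (95 / 100 * r0)
      (84 / 100 * r0 ^ 2) (1 / 10000) := by
  obtain ⟨δc, ch⟩ := exists_chart L D (1 / 1000000) (by norm_num)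
  have hδc := ch.pos
  obtain ⟨a1, ha1⟩ : ∃ a1, a1 = min δc (min δ (1 / 1000)) / 4 := ⟨_, rfl⟩
  have ha1p : 0 < a1 := by rw [ha1]; positivity
  have ha1c : a1 ≤ δc / 4 := by
    rw [ha1]; have := min_le_left δc (min δ (1 / 1000)); linarith
  have ha1d : a1 ≤ δ / 4 := by
    rw [ha1]
    have := (min_le_right δc (min δ (1 / 1000))).trans (min_le_left _ _); linarith
  have ha1s : a1 ≤ 1 / 4000 := by
    rw [ha1]
    have := (min_le_right δc (min δ (1 / 1000))).trans (min_le_right _ _); linarith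
  obtain ⟨c1, hc1, hfar⟩ := act_far L hV ha1p
  obtain ⟨ρ, hρ, hun⟩ := act_unif L hV (half_pos hc1)
  refine ⟨min (min (a1 / 2) (ρ / 2)) (min c1 1), by positivity, ?_⟩
  intro r0 h0 hr1 t ht
  have hr2 : r0 ≤ a1 / 2 := hr1.trans ((min_le_left _ _).trans (min_le_left _ _))
  have hr3 : r0 ≤ ρ / 2 := hr1.trans ((min_le_left _ _).trans (min_le_right _ _))
  have hr4 : r0 ≤ c1 := hr1.trans ((min_le_right _ _).trans (min_le_left _ _))
  have hr5 : r0 ≤ 1 := hr1.trans ((min_le_right _ _).trans (min_le_right _ _))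
  have htc : (t : ℂ) ≠ 0 := by exact_mod_cast ht.ne'
  have hnorm : ∀ Z ∈ dom L r0 (r0 / 4), ‖Z‖ < 5 / 4 * r0 := by
    intro Z hZ
    have := norm_le_reP_imP (Z : Mt m)
    have h1 := hZ.1
    have h2 := hZ.2
    have h3 : ‖Z‖ = ‖(Z : Mt m)‖ := rfl
    linarith
  have hreal : ∀ g : G, V (L.rho g) / t = (((V (L.rho g)).re / t : ℝ) : ℂ) := by
    intro g
    apply Complex.ext
    · simp
    · simp [hV.real g]
  have hone : At V t 1 = 1 := by
    unfold At
    rw [hV.one, zero_div, neg_zero, Complex.exp_zero]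
  refine ⟨?_, ?_, ?_, ?_, ?_, ?_, ?_, ?_⟩
  · exact Complex.contDiff_exp.comp (hV.diff.div_const _).neg
  · intro g x
    unfold At
    rw [hV.conj]
  · intro x
    unfold At
    rw [hV.inv]
  · intro g
    unfold At
    rw [hreal, ← Complex.ofReal_neg, ← Complex.ofReal_exp, Complex.ofReal_im]
  · intro g
    unfold At
    rw [hreal, ← Complex.ofReal_neg, ← Complex.ofReal_exp, Complex.ofReal_re]
    exact (Real.exp_pos _).le
  · rw [hone]
    exact one_pos
  · -- small fields
    refine ⟨fun Z => (V (NormedSpace.exp (Z : Mt m)) - Qf (Z : Mt m) / 2) / t, ?_, ?_, ?_, ?_, ?_,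
      ?_⟩
    · exact (gC_div L (act_rem_diff L hV) _).differentiableOn
    · intro Z _
      simp only [NegMemClass.coe_neg]
      rw [act_neg L hV Z.2]
      unfold Qf
      rw [neg_mul_neg]
    · intro g Z _ Z' hZ'
      have hu : IsUnit (L.rho g) := ⟨⟨L.rho g, L.rho g⁻¹, rho_mul_inv L g, rho_inv_mul L g⟩, rfl⟩
      have hinv : (L.rho g)⁻¹ = L.rho g⁻¹ := Matrix.inv_eq_right_inv (rho_mul_inv L g)
      have e1 := Matrix.exp_conj (L.rho g) (Z : Mt m) hu
      rw [hinv, ← hZ'] at e1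
      have e2 : V (NormedSpace.exp (Z' : Mt m)) = V (NormedSpace.exp (Z : Mt m)) := by
        rw [e1, hV.conj]
      have e3 : Qf (Z' : Mt m) = Qf (Z : Mt m) := by
        unfold Qf
        rw [hZ']
        have : L.rho g * (Z : Mt m) * L.rho g⁻¹ * (L.rho g * (Z : Mt m) * L.rho g⁻¹) =
            L.rho g * ((Z : Mt m) * (L.rho g⁻¹ * L.rho g) * (Z : Mt m)) * L.rho g⁻¹ := by
          noncomm_ring
        rw [this, rho_inv_mul, mul_one, trace_mul_comm, ← mul_assoc, rho_inv_mul, one_mul]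
      simp only
      rw [e2, e3]
    · intro Z _ hZi
      have hl := mem_lieSet_of_gC L Z.2 hZi
      obtain ⟨g, hg⟩ := lie_exp L hl
      have h1 := hV.real g
      rw [hg] at h1
      have hs := lie_skew L hl
      have h2 := trace_skew_real hs hs
      have h3 : (Qf (Z : Mt m)).im = 0 := by
        unfold Qf
        rw [Complex.neg_im, h2, neg_zero]
      have e1 : V (NormedSpace.exp (Z : Mt m)) =
          (((V (NormedSpace.exp (Z : Mt m))).re : ℝ) : ℂ) := Complex.ext rfl (by simp [h1])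
      have e2 : Qf (Z : Mt m) = (((Qf (Z : Mt m)).re : ℝ) : ℂ) := Complex.ext rfl (by simp [h3])
      simp only
      rw [e1, e2]
      norm_cast
    · intro Z hZ
      have h1 := hnorm Z hZ
      have hb := hq Z (by linarith)
      simp only
      rw [norm_div, Complex.norm_real, Real.norm_eq_abs, abs_of_pos ht, div_le_iff₀ ht]
      refine hb.trans (le_of_eq ?_)
      field_simp
    · intro Z _
      rw [hone, one_mul]
      unfold At
      congr 1
      field_simp
      ring
  · -- large fields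
    intro Z hZ y hs
    have hZn := hnorm Z hZ
    have h3 : ‖Z‖ = ‖(Z : Mt m)‖ := rfl
    rw [hone, Complex.one_re, one_mul]
    unfold At
    rw [Complex.norm_exp]
    apply Real.exp_le_exp.2
    rw [Complex.neg_re, Complex.div_ofReal_re, neg_le_neg_iff]
    set a := ‖NormedSpace.exp (reP (Z : Mt m)) * L.rho y - 1‖ with ha
    set h := ‖imP (Z : Mt m)‖ with hh
    have hh0 : 0 ≤ h := norm_nonneg _
    have hha : 0 ≤ a := norm_nonneg _
    have hh4 : h < r0 / 4 := hZ.2
    have key : (84 / 100 * r0 ^ 2 - (1 + 1 / 10000) * h ^ 2) / 2 ≤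
        (V (NormedSpace.exp (Z : Mt m) * L.rho y)).re := by
      by_cases hca : a < a1
      · obtain ⟨Y, hY, hYe, hqq, hp, hpa⟩ := ch.geo Z Z.2 (by rw [← h3]; linarith) y (by
          rw [← ha]; linarith)
        rw [← ha] at hp hpa
        rw [← hh] at hp hpa hqq
        set p := ‖reP Y‖ with hpd
        set q := ‖imP Y‖ with hqd
        have hp0 : 0 ≤ p := norm_nonneg _
        have hq0 : 0 ≤ q := norm_nonneg _
        have hpb : p ≤ 2 * a1 := by nlinarith
        have hqb : q ≤ a1 := by nlinarith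
        have hYn : ‖Y‖ < δ := by
          have := norm_le_reP_imP Y
          linarith
        have hb := hq ⟨Y, hY⟩ hYn
        have hnY : ‖(⟨Y, hY⟩ : gC L)‖ ^ 2 = p ^ 2 + q ^ 2 := norm_sq_reP_imP Y
        have hnY4 : ‖(⟨Y, hY⟩ : gC L)‖ ^ 4 = (p ^ 2 + q ^ 2) ^ 2 := by
          rw [← hnY]; ring
        rw [hnY4] at hb
        simp only at hb
        have hre := (neg_le_abs _).trans ((Complex.abs_re_le_norm
          (V (NormedSpace.exp Y) - Qf Y / 2)).trans hb)
        have hQ : (Qf Y / 2).re = (p ^ 2 - q ^ 2) / 2 := by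
          have : (Qf Y).re = p ^ 2 - q ^ 2 := Qf_re Y
          rw [← this]
          have e2 : (Qf Y / 2) = (Qf Y) / ((2 : ℝ) : ℂ) := by norm_num
          rw [e2, Complex.div_ofReal_re]
        rw [Complex.sub_re, hQ] at hre
        rw [hYe]
        obtain ⟨κ, hκ⟩ : ∃ κ, κ = (p ^ 2 + q ^ 2) / 10 := ⟨_, rfl⟩
        have hκ0 : 0 ≤ κ := by rw [hκ]; positivity
        have hκ1 : κ ≤ 1 / 100000 := by
          have e1 : p ^ 2 ≤ (1 / 2000) ^ 2 := pow_le_pow_left₀ hp0 (by linarith) 2
          have e2 : q ^ 2 ≤ (1 / 2000) ^ 2 := pow_le_pow_left₀ hq0 (by linarith) 2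
          rw [hκ]
          norm_num at e1 e2 ⊢
          linarith
        have hm := near_arith hha hh0 hp0 hq0 hκ0 hκ1 (by norm_num) (by norm_num) hqq hpa
        have e3 : 1 / 20 * (p ^ 2 + q ^ 2) ^ 2 = κ / 2 * (p ^ 2 + q ^ 2) := by
          rw [hκ]; ring
        rw [e3] at hre
        have e4 : (95 / 100 * r0) ^ 2 ≤ a ^ 2 := pow_le_pow_left₀ (by positivity) hs 2
        nlinarith
      · rw [not_lt] at hca
        obtain ⟨k, hk⟩ := lie_exp L (reP_mem L Z.2)
        have e1 : NormedSpace.exp (reP (Z : Mt m)) * L.rho y = L.rho (k * y) := by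
          rw [map_mul, hk]
        have h4 := hfar (k * y) (by
          unfold dis
          rw [← e1]
          exact hca)
        have h5 := hun Z (by rw [← h3]; linarith) y
        rw [e1] at h5
        have h6 := ((neg_le_abs _).trans (Complex.abs_re_le_norm _)).trans_lt h5
        rw [Complex.sub_re] at h6
        have h7 : r0 ^ 2 ≤ r0 := by nlinarith
        nlinarith [sq_nonneg h]
    have e5 : (84 / 100 * r0 ^ 2 - (1 + 1 / 10000) * h ^ 2) / (2 * t) =
        ((84 / 100 * r0 ^ 2 - (1 + 1 / 10000) * h ^ 2) / 2) / t := by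
      field_simp
    rw [e5]
    exact div_le_div_of_nonneg_right key ht.le

end

end Pool.Agent.T2H04.HY
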