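import Mathlib

/-!
# Compact Lie groups and lattice actions: the definitions used in the main theorem
-/

open MeasureTheory Matrix Filter
open scoped Matrix.Norms.Frobenius Topology

namespace Pool.Agent.T2H04.HY

noncomputable section

/-- A faithful continuous unitary representation of the group `G`. The compact groups with such a
representation are the compact Lie groups. -/
structure URep (G : Type) [Group G] [TopologicalSpace G] (N : ℕ) where
  rho : G →* Matrix (Fin N) (Fin N) ℂ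
  cont : Continuous rho
  inj : Function.Injective rho
  unit : ∀ g, rho g * (rho g)ᴴ = 1

variable {G : Type} [Group G] [TopologicalSpace G] {N : ℕ}

/-- the Lie algebra of `G`, as a set of matrices -/
def lieN (R : URep G N) : Set (Matrix (Fin N) (Fin N) ℂ) :=
  {X | ∀ t : ℝ, ∃ g : G, R.rho g = NormedSpace.exp (t • X)}

/-- `G` is connected, its Lie algebra is simple, and `X` is an orthonormal basis of the Lie
algebra for the inner product `Re tr (Xᴴ Y)`. -/
structure SG (R : URep G N) (n : ℕ) (X : Fin n → Matrix (Fin N) (Fin N) ℂ) : Prop where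
  conn : ConnectedSpace G
  nonab : ∃ X ∈ lieN R, ∃ Y ∈ lieN R, X * Y ≠ Y * X
  irred : ∀ V : Submodule ℝ (Matrix (Fin N) (Fin N) ℂ), (V : Set _) ⊆ lieN R →
    (∀ X ∈ lieN R, ∀ Y ∈ V, X * Y - Y * X ∈ V) → V = ⊥ ∨ (V : Set _) = lieN R
  mem : ∀ a, X a ∈ lieN R
  orth : ∀ a b, (trace ((X a)ᴴ * X b)).re = if a = b then 1 else 0
  span : ∀ Y ∈ lieN R, Y ∈ Submodule.span ℝ (Set.range X)

/-- The quadratic Casimir constant of the adjoint representation: `∑_a [X_a, [X_a, Y]] = -CA Y`. -/
def CA {n : ℕ} (X : Fin n → Matrix (Fin N) (Fin N) ℂ) : ℝ :=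
  (∑ a, ∑ b, ‖X a * X b - X b * X a‖ ^ 2) / n

/-- Wilson's action -/
def wa (R : URep G N) (x : G) : ℝ := (trace (1 - R.rho x)).re

/-- A polynomial action: a real polynomial class function in the matrix entries and their conjugates
with unique minimum `V 1 = 0` and with the Hessian of Wilson's action at `x = 1`. -/
structure PolAct (R : URep G N) (V : G → ℝ) : Prop where
  poly : ∃ p : MvPolynomial ((Fin N × Fin N) ⊕ (Fin N × Fin N)) ℂ, ∀ g : G,
    (V g : ℂ) = MvPolynomial.eval (Sum.elim (fun ij => R.rho g ij.1 ij.2)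
      (fun ij => star (R.rho g ij.1 ij.2))) p
  cls : ∀ x y, V (y * x * y⁻¹) = V x
  inv : ∀ x, V x⁻¹ = V x
  one : V 1 = 0
  pos : ∀ x, x ≠ 1 → 0 < V x
  hess : ∀ X ∈ lieN R, ∀ γ : ℝ → G, (∀ s, R.rho (γ s) = NormedSpace.exp (s • X)) →
    Tendsto (fun s : ℝ => V (γ s) / s ^ 2) (𝓝[≠] 0) (𝓝 (‖X‖ ^ 2 / 2))

/-- `V4` is the quartic part of the action `V` at `1`:
`V (exp (s Y)) = s² ‖Y‖² / 2 + s⁴ V4 Y + o(s⁴)` for `Y` in the Lie algebra. -/
def Quartic (R : URep G N) (V : G → ℝ) (V4 : Matrix (Fin N) (Fin N) ℂ → ℝ) : Prop :=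
  ∀ Y ∈ lieN R, ∀ γ : ℝ → G, (∀ s, R.rho (γ s) = NormedSpace.exp (s • Y)) →
    Tendsto (fun s : ℝ => (V (γ s) - s ^ 2 * ‖Y‖ ^ 2 / 2) / s ^ 4) (𝓝[≠] 0) (𝓝 (V4 Y))

/-- The shift of the bare coupling due to the quartic part `V4` of the action: `β + shift X V4` is the
bare coupling with the one loop correction. -/
def shift {n : ℕ} (X : Fin n → Matrix (Fin N) (Fin N) ℂ) (V4 : Matrix (Fin N) (Fin N) ℂ → ℝ) : ℝ :=
  4 / (5 * n) * ∑ a, ∑ b, (V4 (X a + X b) + V4 (X a - X b) - 2 * V4 (X a) - 2 * V4 (X b))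

/-- The number of the renormalisation group steps from the bare coupling `1 / β` to the scale `1`,
in the two loop approximation; `ca` is the Casimir constant of the group and `δ` is the shift. -/
def tau (ca δ β : ℝ) : ℝ := 8 / ca * (β + δ) - 4 / 15 * Real.log β

end

end Pool.Agent.T2H04.HY
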