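import Mathlib
import Pool.Agent.T2H04.HY.LieG
import Pool.Agent.T2H04.HY.GDefs

/-!
# The realification of a matrix group
-/

open MeasureTheory Matrix Filter
open scoped Matrix.Norms.Frobenius Topology

namespace Pool.Agent.T2H04.HY

set_option linter.unusedSectionVars false

noncomputable section

variable {N : ℕ}

namespace Blk

theorem map_star_mul (A B : Matrix (Fin N) (Fin N) ℂ) :
    (A * B).map star = A.map star * B.map star := by
  ext i j
  simp only [map_apply, mul_apply, star_sum, star_mul']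

theorem map_star_one : (1 : Matrix (Fin N) (Fin N) ℂ).map star = 1 := by
  ext i j
  by_cases h : i = j
  · subst h; simp
  · simp [h]

theorem map_star_add (A B : Matrix (Fin N) (Fin N) ℂ) :
    (A + B).map star = A.map star + B.map star := by
  ext i j
  simp

theorem map_star_zero : (0 : Matrix (Fin N) (Fin N) ℂ).map star = 0 := by
  ext i j
  simp

/-- `Y ↦ Y ⊕ conj Y`, as a homomorphism of rings -/
def PhiR (N : ℕ) : Matrix (Fin N) (Fin N) ℂ →+* Matrix (Fin N ⊕ Fin N) (Fin N ⊕ Fin N) ℂ where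
  toFun Y := Matrix.fromBlocks Y 0 0 (Y.map star)
  map_one' := by rw [map_star_one, fromBlocks_one]
  map_mul' A B := by
    rw [fromBlocks_multiply, map_star_mul]
    simp
  map_zero' := by rw [map_star_zero, fromBlocks_zero]
  map_add' A B := by
    rw [fromBlocks_add, map_star_add]
    simp

theorem PhiR_apply (Y : Matrix (Fin N) (Fin N) ℂ) :
    PhiR N Y = Matrix.fromBlocks Y 0 0 (Y.map star) := rfl

theorem PhiR_inj : Function.Injective (PhiR N) := by
  intro A B h
  rw [PhiR_apply, PhiR_apply, fromBlocks_inj] at h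
  exact h.1

theorem PhiR_smul (r : ℝ) (Y : Matrix (Fin N) (Fin N) ℂ) : PhiR N (r • Y) = r • PhiR N Y := by
  have h : (r • Y).map star = r • Y.map star := by
    ext i j
    simp [star_smul]
  rw [PhiR_apply, PhiR_apply, fromBlocks_smul, h]
  simp

/-- `Y ↦ Y ⊕ conj Y`, as a linear map -/
def PhiL (N : ℕ) : Matrix (Fin N) (Fin N) ℂ →ₗ[ℝ] Matrix (Fin N ⊕ Fin N) (Fin N ⊕ Fin N) ℂ where
  toFun Y := PhiR N Y
  map_add' A B := map_add _ _ _
  map_smul' r A := PhiR_smul r A

theorem PhiR_ct (Y : Matrix (Fin N) (Fin N) ℂ) : (PhiR N Y)ᴴ = PhiR N Yᴴ := by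
  rw [PhiR_apply, PhiR_apply, fromBlocks_conjTranspose, conjTranspose_zero]
  congr 1

theorem PhiR_tr (Y : Matrix (Fin N) (Fin N) ℂ) :
    (trace (PhiR N Y)).re = 2 * (trace Y).re := by
  rw [PhiR_apply]
  unfold trace
  rw [Fintype.sum_sum_type, Complex.add_re, Complex.re_sum, Complex.re_sum, Complex.re_sum, two_mul]
  congr 1

theorem PhiR_norm (Y : Matrix (Fin N) (Fin N) ℂ) : ‖PhiR N Y‖ ^ 2 = 2 * ‖Y‖ ^ 2 := by
  rw [norm_sq_eq, norm_sq_eq, PhiR_ct, ← map_mul, PhiR_tr]

theorem PhiR_cont : Continuous (PhiR N) := by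
  have h : Continuous (PhiL N) := LinearMap.continuous_of_finiteDimensional _
  exact h

theorem PhiR_exp (Y : Matrix (Fin N) (Fin N) ℂ) :
    PhiR N (NormedSpace.exp Y) = NormedSpace.exp (PhiR N Y) := by
  have : CompleteSpace (Matrix (Fin N) (Fin N) ℂ) :=
    FiniteDimensional.complete ℝ (Matrix (Fin N) (Fin N) ℂ)
  exact NormedSpace.map_exp (PhiR N) PhiR_cont Y

/-- the exchange of the two blocks -/
def J (N : ℕ) : Matrix (Fin N ⊕ Fin N) (Fin N ⊕ Fin N) ℂ := Matrix.fromBlocks 0 1 1 0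

theorem J_mul : J N * J N = 1 := by
  unfold J
  rw [fromBlocks_multiply]
  simp [fromBlocks_one]

section rep

variable {G : Type} [Group G] [TopologicalSpace G] (R : URep G N)

theorem mt_mul (g h : G) : R.rho (g * h) = R.rho g * R.rho h := map_mul _ _ _

theorem mt_one : R.rho (1 : G) = 1 := map_one _

theorem mt_unit (g : G) : R.rho g * (R.rho g)ᴴ = 1 := R.unit g

theorem mt_inv (g : G) : R.rho g⁻¹ = (R.rho g)ᴴ := by
  have h1 : R.rho g⁻¹ * R.rho g = 1 := by rw [← map_mul, inv_mul_cancel, map_one]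
  calc R.rho g⁻¹ = R.rho g⁻¹ * (R.rho g * (R.rho g)ᴴ) := by rw [R.unit, mul_one]
    _ = (R.rho g)ᴴ := by rw [← mul_assoc, h1, one_mul]

theorem mt_inj {g h : G} (hgh : R.rho g = R.rho h) : g = h := R.inj hgh

theorem mt_cont : Continuous fun g : G => R.rho g := R.cont

end rep

end Blk

open Blk

variable {G : Type} [Group G] [TopologicalSpace G] [IsTopologicalGroup G] [CompactSpace G]

/-- The representation `g ↦ g ⊕ conj g`, with the anti-automorphism `x ↦ J xᵀ J`, `J` the exchange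
of the two blocks. -/
def blk (R : URep G N) : RD G (Fin N ⊕ Fin N) where
  rho :=
    { toFun := fun g => PhiR N (R.rho g)
      map_one' := by rw [mt_one R, map_one]
      map_mul' := fun g h => by rw [mt_mul, map_mul] }
  cont := PhiR_cont.comp R.cont
  inj := fun g h hgh => R.inj (PhiR_inj hgh)
  unit := fun g => by
    change PhiR N (R.rho g) * (PhiR N (R.rho g))ᴴ = 1
    rw [PhiR_ct, ← map_mul, mt_unit, map_one]
  sig :=
    { toFun := fun x => J N * xᵀ * J N
      map_add' := fun x y => by rw [transpose_add, mul_add, add_mul]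
      map_smul' := fun c x => by
        rw [transpose_smul, Matrix.mul_smul, Matrix.smul_mul, RingHom.id_apply] }
  sig_mul := fun x y => by
    change J N * (x * y)ᵀ * J N = J N * yᵀ * J N * (J N * xᵀ * J N)
    rw [transpose_mul]
    calc J N * (yᵀ * xᵀ) * J N = J N * yᵀ * (1 * (xᵀ * J N)) := by noncomm_ring
      _ = J N * yᵀ * J N * (J N * xᵀ * J N) := by rw [← J_mul]; noncomm_ring
  sig_rho := fun g => by
    change J N * (PhiR N (R.rho g))ᵀ * J N = PhiR N (R.rho g⁻¹)
    rw [mt_inv, PhiR_apply, PhiR_apply, fromBlocks_transpose, Blk.J, fromBlocks_multiply,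
      fromBlocks_multiply]
    simp only [zero_mul, one_mul, mul_zero, mul_one, zero_add, add_zero, transpose_zero]
    congr 1
    ext i j
    simp
  sig_tr := fun x => by
    change trace (J N * xᵀ * J N) = trace x
    rw [trace_mul_comm, ← mul_assoc, J_mul, one_mul, trace_transpose]

variable (R : URep G N)

theorem blk_rho (g : G) : (blk R).rho g = Matrix.fromBlocks (R.rho g) 0 0 ((R.rho g).map star) := rfl

theorem blk_rho' (g : G) : (blk R).rho g = PhiR N (R.rho g) := rfl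

theorem blk_trace (g : G) : (trace ((blk R).rho g)).re = 2 * (trace (R.rho g)).re := PhiR_tr _

theorem blk_dis (g : G) : dis (blk R) g ^ 2 = 2 * ‖R.rho g - 1‖ ^ 2 := by
  unfold dis
  rw [blk_rho', ← map_one (PhiR N), ← map_sub, PhiR_norm]

theorem mem_lie_phi {Y : Matrix (Fin N) (Fin N) ℂ} :
    PhiR N Y ∈ lieSet (blk R) ↔ Y ∈ lieN R := by
  refine forall_congr' fun t => exists_congr fun g => ?_
  rw [blk_rho', ← PhiR_smul, ← PhiR_exp]
  exact PhiR_inj.eq_iff

theorem blk_lie (X : Matrix (Fin N ⊕ Fin N) (Fin N ⊕ Fin N) ℂ) :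
    X ∈ lieSet (blk R) ↔ ∃ Y ∈ lieN R, X = Matrix.fromBlocks Y 0 0 (Y.map star) := by
  constructor
  · intro hX
    let toB : Matrix (Fin N ⊕ Fin N) (Fin N ⊕ Fin N) ℂ →ₗ[ℝ] Matrix (Fin N) (Fin N) ℂ :=
      { toFun := fun x => x.toBlocks₁₁
        map_add' := fun x y => rfl
        map_smul' := fun r x => rfl }
    let κ : Matrix (Fin N ⊕ Fin N) (Fin N ⊕ Fin N) ℂ →ₗ[ℝ]
      Matrix (Fin N ⊕ Fin N) (Fin N ⊕ Fin N) ℂ := LinearMap.id - (PhiL N).comp toB
    have hκ : ∀ Y, κ (PhiR N Y) = 0 := by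
      intro Y
      change PhiR N Y - PhiR N (PhiR N Y).toBlocks₁₁ = 0
      rw [PhiR_apply Y, toBlocks_fromBlocks₁₁, PhiR_apply, sub_self]
    have h1 := (LinearMap.toContinuousLinearMap κ).hasFDerivAt.comp_hasDerivAt (0 : ℝ)
      (hasDerivAt_exp X 0)
    have h2 : (⇑(LinearMap.toContinuousLinearMap κ) ∘ fun u : ℝ => NormedSpace.exp (u • X)) =
        fun _ => 0 := by
      funext u
      obtain ⟨g, hg⟩ := hX u
      change κ (NormedSpace.exp (u • X)) = 0
      rw [← hg, blk_rho', hκ]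
    rw [h2] at h1
    have h3 := h1.unique (hasDerivAt_const 0 _)
    rw [zero_smul, NormedSpace.exp_zero, one_mul] at h3
    have h4 : X = PhiR N X.toBlocks₁₁ := by
      have h5 : X - PhiR N X.toBlocks₁₁ = 0 := h3
      exact sub_eq_zero.1 h5
    refine ⟨X.toBlocks₁₁, ?_, h4⟩
    rw [← mem_lie_phi, ← h4]
    exact hX
  · rintro ⟨Y, hY, rfl⟩
    exact (mem_lie_phi R).2 hY

theorem blk_simple (hconn : ConnectedSpace G)
    (hnon : ∃ X ∈ lieN R, ∃ Y ∈ lieN R, X * Y ≠ Y * X)
    (hirr : ∀ V : Submodule ℝ (Matrix (Fin N) (Fin N) ℂ), (V : Set _) ⊆ lieN R →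
      (∀ X ∈ lieN R, ∀ Y ∈ V, X * Y - Y * X ∈ V) → V = ⊥ ∨ (V : Set _) = lieN R) :
    Simple (blk R) := by
  refine ⟨?_, ?_, ?_⟩
  · exact isConnected_univ
  · obtain ⟨X, hX, Y, hY, hne⟩ := hnon
    refine ⟨PhiR N X, (mem_lie_phi R).2 hX, PhiR N Y, (mem_lie_phi R).2 hY, fun h => hne ?_⟩
    rw [← map_mul, ← map_mul] at h
    exact PhiR_inj h
  · intro V hV hbr
    have hmem : ∀ v ∈ V, ∃ Y ∈ lieN R, v = PhiR N Y := by
      intro v hv
      exact (blk_lie R v).1 ((mem_lieAlg (blk R)).1 (hV hv))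
    rcases hirr (V.comap (PhiL N)) (by
      intro Y hY
      have h1 : PhiR N Y ∈ V := hY
      exact (mem_lie_phi R).1 ((mem_lieAlg (blk R)).1 (hV h1))) (by
      intro X hX Y hY
      have h1 : PhiR N Y ∈ V := hY
      have h2 := hbr _ ((mem_lie_phi R).2 hX) _ h1
      change PhiR N (X * Y - Y * X) ∈ V
      rw [map_sub, map_mul, map_mul]
      exact h2) with h | h
    · left
      rw [eq_bot_iff]
      intro v hv
      obtain ⟨Y, -, rfl⟩ := hmem v hv
      have h1 : Y ∈ V.comap (PhiL N) := hv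
      rw [h, Submodule.mem_bot] at h1
      rw [h1, map_zero]
      exact Submodule.zero_mem _
    · right
      refine le_antisymm hV fun v hv => ?_
      obtain ⟨Y, hY, rfl⟩ := (blk_lie R v).1 ((mem_lieAlg (blk R)).1 hv)
      rw [← h] at hY
      exact hY

/-- Orthonormal bases: the dimension and the Casimir number. -/
theorem blk_basis {n : ℕ} (X : Fin n → Matrix (Fin N) (Fin N) ℂ)
    (hX : ∀ a, X a ∈ lieN R) (orth : ∀ a b, (trace ((X a)ᴴ * X b)).re = if a = b then 1 else 0)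
    (full : ∀ Y ∈ lieN R, Y ∈ Submodule.span ℝ (Set.range X)) :
    Module.finrank ℝ (lieAlg (blk R)) = n ∧
    ∃ E : Fin n → Matrix (Fin N ⊕ Fin N) (Fin N ⊕ Fin N) ℂ, (∀ a, E a ∈ lieSet (blk R)) ∧
      (∀ a b, (trace ((E a)ᴴ * E b)).re = if a = b then 1 else 0) ∧
      (∀ Y ∈ lieSet (blk R), Y ∈ Submodule.span ℝ (Set.range E)) ∧
      ∑ a, ∑ b, ‖E a * E b - E b * E a‖ ^ 2 =
        1 / 2 * ∑ a, ∑ b, ‖X a * X b - X b * X a‖ ^ 2 := by
  have hs2 : (0 : ℝ) < Real.sqrt 2 := Real.sqrt_pos.2 (by norm_num)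
  have hss : (Real.sqrt 2)⁻¹ * (Real.sqrt 2)⁻¹ = 1 / 2 := by
    rw [← mul_inv, Real.mul_self_sqrt (by norm_num)]
    norm_num
  obtain ⟨E, hE⟩ : ∃ E : Fin n → Matrix (Fin N ⊕ Fin N) (Fin N ⊕ Fin N) ℂ,
    ∀ a, E a = (Real.sqrt 2)⁻¹ • PhiR N (X a) := ⟨_, fun a => rfl⟩
  have hEl : ∀ a, E a ∈ lieSet (blk R) := fun a => by
    rw [hE]
    exact lie_smul _ _ ((mem_lie_phi R).2 (hX a))
  have horth : ∀ a b, (trace ((E a)ᴴ * E b)).re = if a = b then 1 else 0 := by
    intro a b
    rw [hE, hE, conjTranspose_smul, star_trivial, Matrix.smul_mul, Matrix.mul_smul, smul_smul, hss,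
      trace_smul, Complex.smul_re, PhiR_ct, ← map_mul, PhiR_tr, orth]
    split_ifs <;> simp
  have hfull : ∀ Y ∈ lieSet (blk R), Y ∈ Submodule.span ℝ (Set.range E) := by
    intro Y hY
    obtain ⟨Y', hY', rfl⟩ := (blk_lie R Y).1 hY
    have h1 : ∀ Z ∈ Submodule.span ℝ (Set.range X), PhiR N Z ∈ Submodule.span ℝ (Set.range E) := by
      intro Z hZ
      induction hZ using Submodule.span_induction with
      | mem Z hZ =>
        obtain ⟨a, rfl⟩ := hZ
        have h2 : PhiR N (X a) = Real.sqrt 2 • E a := by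
          rw [hE, smul_smul, mul_inv_cancel₀ hs2.ne', one_smul]
        rw [h2]
        exact Submodule.smul_mem _ _ (Submodule.subset_span ⟨a, rfl⟩)
      | zero => rw [map_zero]; exact Submodule.zero_mem _
      | add Z W _ _ hZ hW => rw [map_add]; exact Submodule.add_mem _ hZ hW
      | smul r Z _ hZ => rw [PhiR_smul]; exact Submodule.smul_mem _ _ hZ
    exact h1 Y' (full Y' hY')
  refine ⟨?_, E, hEl, horth, hfull, ?_⟩
  · have hspan : lieAlg (blk R) = Submodule.span ℝ (Set.range E) := by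
      refine le_antisymm (fun Y hY => hfull Y ((mem_lieAlg (blk R)).1 hY)) ?_
      rw [Submodule.span_le]
      rintro _ ⟨a, rfl⟩
      exact (mem_lieAlg (blk R)).2 (hEl a)
    have hli : LinearIndependent ℝ E := by
      rw [Fintype.linearIndependent_iff]
      intro c hc b
      have h1 : (trace ((E b)ᴴ * ∑ a, c a • E a)).re = c b := by
        rw [Finset.mul_sum, trace_sum, Complex.re_sum]
        simp only [Matrix.mul_smul, trace_smul, Complex.smul_re, horth]
        simp
      rw [← h1, hc, mul_zero, trace_zero, Complex.zero_re]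
    rw [hspan, finrank_span_eq_card hli, Fintype.card_fin]
  · rw [Finset.mul_sum]
    refine Finset.sum_congr rfl fun a _ => ?_
    rw [Finset.mul_sum]
    refine Finset.sum_congr rfl fun b _ => ?_
    have h1 : E a * E b - E b * E a = (1 / 2 : ℝ) • PhiR N (X a * X b - X b * X a) := by
      rw [hE, hE, Matrix.smul_mul, Matrix.mul_smul, smul_smul, hss, Matrix.smul_mul,
        Matrix.mul_smul, smul_smul, hss, ← smul_sub, map_sub, map_mul, map_mul]
    rw [h1, norm_smul, mul_pow, PhiR_norm, Real.norm_eq_abs, abs_of_pos (by norm_num)]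
    ring

end

end Pool.Agent.T2H04.HY
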