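import Mathlib
import Pool.Agent.T2H04.HY.ActDefs
import Pool.Agent.T2H04.HY.LieG

/-!
# The sum of `k` copies of a representation
-/

open MeasureTheory Matrix Filter
open scoped Matrix.Norms.Frobenius Topology Kronecker

namespace Pool.Agent.T2H04.HY

set_option linter.unusedSectionVars false

noncomputable section

variable {G : Type} [Group G] [TopologicalSpace G] [IsTopologicalGroup G] [CompactSpace G]
  {m : Type} [Fintype m] [DecidableEq m] (L : RD G m) (k : ℕ)

namespace KS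

/-- `Y ↦ 1 ⊗ Y`, as a homomorphism of rings -/
def KR (m : Type) [Fintype m] [DecidableEq m] (k : ℕ) : Mt m →+* Mt (Fin k × m) where
  toFun Y := (1 : Matrix (Fin k) (Fin k) ℂ) ⊗ₖ Y
  map_one' := one_kronecker_one
  map_mul' A B := by
    rw [← mul_kronecker_mul, one_mul]
  map_zero' := kronecker_zero _
  map_add' A B := kronecker_add _ _ _

variable {k}

theorem KR_apply (Y : Mt m) : KR m k Y = (1 : Matrix (Fin k) (Fin k) ℂ) ⊗ₖ Y := rfl

theorem KR_entry (Y : Mt m) (p q : Fin k × m) :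
    KR m k Y p q = if p.1 = q.1 then Y p.2 q.2 else 0 := by
  rw [KR_apply, kronecker_apply, Matrix.one_apply]
  split_ifs <;> simp

/-- block `(i, j)` -/
def bk (i j : Fin k) : Mt (Fin k × m) →ₗ[ℂ] Mt m where
  toFun x := Matrix.of fun a b => x (i, a) (j, b)
  map_add' _ _ := rfl
  map_smul' _ _ := rfl

theorem bk_apply (i j : Fin k) (x : Mt (Fin k × m)) (a b : m) : bk i j x a b = x (i, a) (j, b) := rfl

theorem bk_def (i j : Fin k) (x : Mt (Fin k × m)) :
    bk i j x = Matrix.of fun a b => x (i, a) (j, b) := rfl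

theorem bk_KR (i j : Fin k) (Y : Mt m) : bk i j (KR m k Y) = if i = j then Y else 0 := by
  ext a b
  rw [bk_apply, KR_entry]
  split_ifs <;> simp

theorem bk_mul (i j : Fin k) (x y : Mt (Fin k × m)) :
    bk i j (x * y) = ∑ l, bk i l x * bk l j y := by
  ext a b
  rw [bk_apply, Matrix.mul_apply, Fintype.sum_prod_type, Matrix.sum_apply]
  refine Finset.sum_congr rfl fun l _ => ?_
  rw [Matrix.mul_apply]
  rfl

theorem bk_ext {x y : Mt (Fin k × m)} (h : ∀ i j, bk i j x = bk i j y) : x = y := by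
  ext ⟨i, a⟩ ⟨j, b⟩
  have := congrFun (congrFun (h i j) a) b
  exact this

theorem bk_trace (x : Mt (Fin k × m)) : trace x = ∑ i, trace (bk i i x) := by
  unfold trace
  rw [Fintype.sum_prod_type]
  rfl

theorem KR_inj [NeZero k] : Function.Injective (KR m k) := by
  intro A B h
  have h1 := congrArg (bk (0 : Fin k) 0) h
  rw [bk_KR, bk_KR, if_pos rfl, if_pos rfl] at h1
  exact h1

theorem KR_smul (c : ℂ) (Y : Mt m) : KR m k (c • Y) = c • KR m k Y := kronecker_smul _ _ _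

theorem KR_rsmul (c : ℝ) (Y : Mt m) : KR m k (c • Y) = c • KR m k Y := kronecker_smul _ _ _

/-- `Y ↦ 1 ⊗ Y`, as a linear map -/
def KL (m : Type) [Fintype m] [DecidableEq m] (k : ℕ) : Mt m →ₗ[ℂ] Mt (Fin k × m) where
  toFun Y := KR m k Y
  map_add' _ _ := map_add _ _ _
  map_smul' r A := KR_smul r A

theorem KR_ct (Y : Mt m) : (KR m k Y)ᴴ = KR m k Yᴴ := by
  rw [KR_apply, KR_apply, conjTranspose_kronecker, conjTranspose_one]

theorem KR_tr (Y : Mt m) : trace (KR m k Y) = k * trace Y := by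
  rw [KR_apply, trace_kronecker, trace_one, Fintype.card_fin]

theorem KR_norm (Y : Mt m) : ‖KR m k Y‖ ^ 2 = k * ‖Y‖ ^ 2 := by
  rw [norm_sq_eq, norm_sq_eq, KR_ct, ← map_mul, KR_tr]
  rw [← Complex.ofReal_natCast, Complex.re_ofReal_mul]

theorem KR_cont : Continuous (KR m k) := by
  have h : Continuous (KL m k) := LinearMap.continuous_of_finiteDimensional _
  exact h

theorem KR_exp (Y : Mt m) : KR m k (NormedSpace.exp Y) = NormedSpace.exp (KR m k Y) := by
  have : CompleteSpace (Mt m) := FiniteDimensional.complete ℝ (Mt m)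
  exact NormedSpace.map_exp (KR m k) KR_cont Y

theorem KR_Qf (Y : Mt m) : Qf (KR m k Y) = k * Qf Y := by
  unfold Qf
  rw [← map_mul, KR_tr, mul_neg]

/-- the anti-automorphism -/
def sg (L : RD G m) (k : ℕ) : Mt (Fin k × m) →ₗ[ℂ] Mt (Fin k × m) where
  toFun x := Matrix.of fun p q => L.sig (bk q.1 p.1 x) p.2 q.2
  map_add' x y := by
    ext p q
    simp only [Matrix.of_apply, map_add, Matrix.add_apply]
  map_smul' c x := by
    ext p q
    simp only [Matrix.of_apply, map_smul, Matrix.smul_apply, RingHom.id_apply]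

theorem bk_sg (i j : Fin k) (x : Mt (Fin k × m)) : bk i j (sg L k x) = L.sig (bk j i x) := rfl

end KS

open KS

/-- the sum of `k` copies; `sig` acts on the blocks by `(sig x) i j = sig (x j i)` -/
def ksum [NeZero k] : RD G (Fin k × m) where
  rho :=
    { toFun := fun g => (1 : Matrix (Fin k) (Fin k) ℂ) ⊗ₖ L.rho g
      map_one' := by
        rw [map_one]
        exact one_kronecker_one
      map_mul' := fun g h => by
        rw [map_mul]
        exact map_mul (KR m k) _ _ }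
  cont := KR_cont.comp L.cont
  inj := fun g h hgh => L.inj (KR_inj (k := k) hgh)
  unit := fun g => by
    change KR m k (L.rho g) * (KR m k (L.rho g))ᴴ = 1
    rw [KR_ct, ← map_mul, L.unit, map_one]
  sig :=
    { toFun := fun x => Matrix.of fun p q =>
        L.sig (Matrix.of fun a b => x (q.1, a) (p.1, b)) p.2 q.2
      map_add' := (sg L k).map_add
      map_smul' := (sg L k).map_smul }
  sig_mul := fun x y => by
    change sg L k (x * y) = sg L k y * sg L k x
    refine bk_ext fun i j => ?_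
    rw [bk_sg, bk_mul, bk_mul, map_sum]
    refine Finset.sum_congr rfl fun l _ => ?_
    rw [L.sig_mul, bk_sg, bk_sg]
  sig_rho := fun g => by
    change sg L k (KR m k (L.rho g)) = KR m k (L.rho g⁻¹)
    refine bk_ext fun i j => ?_
    rw [bk_sg, bk_KR, bk_KR]
    by_cases h : i = j
    · rw [if_pos h, if_pos h.symm, L.sig_rho]
    · rw [if_neg h, if_neg (Ne.symm h), map_zero]
  sig_tr := fun x => by
    change trace (sg L k x) = trace x
    rw [bk_trace, bk_trace]
    refine Finset.sum_congr rfl fun i _ => ?_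
    rw [bk_sg, L.sig_tr]

variable [NeZero k]

theorem ks_rho (g : G) : (ksum L k).rho g = (1 : Matrix (Fin k) (Fin k) ℂ) ⊗ₖ L.rho g := rfl

theorem KS.ks_rho' (g : G) : (ksum L k).rho g = KR m k (L.rho g) := rfl

theorem ks_trace (g : G) : trace ((ksum L k).rho g) = k * trace (L.rho g) := KR_tr _

theorem ks_dis (g : G) : dis (ksum L k) g ^ 2 = k * dis L g ^ 2 := by
  unfold dis
  rw [ks_rho', ← map_one (KR m k), ← map_sub, KR_norm]

theorem KS.mem_lie {Y : Mt m} : KR m k Y ∈ lieSet (ksum L k) ↔ Y ∈ lieSet L := by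
  refine forall_congr' fun t => exists_congr fun g => ?_
  rw [ks_rho', ← KR_rsmul, ← KR_exp]
  exact KR_inj.eq_iff

theorem ks_lie (X : Mt (Fin k × m)) : X ∈ lieSet (ksum L k) ↔
    ∃ Y ∈ lieSet L, X = (1 : Matrix (Fin k) (Fin k) ℂ) ⊗ₖ Y := by
  constructor
  · intro hX
    let κ : Mt (Fin k × m) →ₗ[ℝ] Mt (Fin k × m) :=
      (LinearMap.id - (KL m k).comp (bk (0 : Fin k) 0)).restrictScalars ℝ
    have hκ' : ∀ x, κ x = x - KR m k (bk 0 0 x) := fun x => rfl
    have hκ : ∀ Y, κ (KR m k Y) = 0 := by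
      intro Y
      rw [hκ', bk_KR, if_pos rfl, sub_self]
    have h1 := (LinearMap.toContinuousLinearMap κ).hasFDerivAt.comp_hasDerivAt (0 : ℝ)
      (hasDerivAt_exp X 0)
    have h2 : (⇑(LinearMap.toContinuousLinearMap κ) ∘ fun u : ℝ => NormedSpace.exp (u • X)) =
        fun _ => 0 := by
      funext u
      obtain ⟨g, hg⟩ := hX u
      change κ (NormedSpace.exp (u • X)) = 0
      rw [← hg, ks_rho', hκ]
    rw [h2] at h1
    have h3 := h1.unique (hasDerivAt_const 0 _)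
    rw [zero_smul, NormedSpace.exp_zero, one_mul] at h3
    have h4 : X = KR m k (bk 0 0 X) := by
      have h5 : X - KR m k (bk 0 0 X) = 0 := h3
      exact sub_eq_zero.1 h5
    refine ⟨bk 0 0 X, ?_, h4⟩
    rw [← mem_lie L k, ← h4]
    exact hX
  · rintro ⟨Y, hY, rfl⟩
    exact (mem_lie L k).2 hY

theorem ks_simple (hs : Simple L) : Simple (ksum L k) := by
  refine ⟨hs.conn, ?_, ?_⟩
  · obtain ⟨X, hX, Y, hY, hne⟩ := hs.nonab
    refine ⟨KR m k X, (mem_lie L k).2 hX, KR m k Y, (mem_lie L k).2 hY, fun h => hne ?_⟩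
    rw [← map_mul, ← map_mul] at h
    exact KR_inj h
  · intro V hV hbr
    have hmem : ∀ v ∈ V, ∃ Y ∈ lieSet L, v = KR m k Y := by
      intro v hv
      exact (ks_lie L k v).1 ((mem_lieAlg (ksum L k)).1 (hV hv))
    rcases hs.irred (V.comap ((KL m k).restrictScalars ℝ)) (by
      intro Y hY
      have h1 : KR m k Y ∈ V := hY
      exact (mem_lieAlg L).2 ((mem_lie L k).1 ((mem_lieAlg (ksum L k)).1 (hV h1)))) (by
      intro X hX Y hY
      have h1 : KR m k Y ∈ V := hY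
      have h2 := hbr _ ((mem_lie L k).2 hX) _ h1
      change KR m k (X * Y - Y * X) ∈ V
      rw [map_sub, map_mul, map_mul]
      exact h2) with h | h
    · left
      rw [eq_bot_iff]
      intro v hv
      obtain ⟨Y, -, rfl⟩ := hmem v hv
      have h1 : Y ∈ V.comap ((KL m k).restrictScalars ℝ) := hv
      rw [h, Submodule.mem_bot] at h1
      rw [h1, map_zero]
      exact Submodule.zero_mem _
    · right
      refine le_antisymm hV fun v hv => ?_
      obtain ⟨Y, hY, rfl⟩ := (ks_lie L k v).1 ((mem_lieAlg (ksum L k)).1 hv)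
      have hY' : Y ∈ lieAlg L := (mem_lieAlg L).2 hY
      rw [← h] at hY'
      exact hY'

/-- orthonormal bases -/
theorem ks_basis {n : ℕ} (E : Fin n → Mt m) (hE : ∀ a, E a ∈ lieSet L)
    (orth : ∀ a b, (trace ((E a)ᴴ * E b)).re = if a = b then 1 else 0)
    (full : ∀ Y ∈ lieSet L, Y ∈ Submodule.span ℝ (Set.range E)) :
    ∃ E' : Fin n → Mt (Fin k × m), (∀ a, E' a ∈ lieSet (ksum L k)) ∧
      (∀ a b, (trace ((E' a)ᴴ * E' b)).re = if a = b then 1 else 0) ∧
      (∀ Y ∈ lieSet (ksum L k), Y ∈ Submodule.span ℝ (Set.range E')) ∧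
      k * ∑ a, ∑ b, ‖E' a * E' b - E' b * E' a‖ ^ 2 =
        ∑ a, ∑ b, ‖E a * E b - E b * E a‖ ^ 2 := by
  have hk : (0 : ℝ) < k := by
    have := Nat.pos_of_ne_zero (NeZero.ne k)
    exact_mod_cast this
  have hs : (0 : ℝ) < Real.sqrt k := Real.sqrt_pos.2 hk
  have hss : (Real.sqrt k)⁻¹ * (Real.sqrt k)⁻¹ = 1 / k := by
    rw [← mul_inv, Real.mul_self_sqrt hk.le, one_div]
  obtain ⟨E', hE'⟩ : ∃ E' : Fin n → Mt (Fin k × m), ∀ a, E' a = (Real.sqrt k)⁻¹ • KR m k (E a) :=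
    ⟨_, fun a => rfl⟩
  refine ⟨E', fun a => ?_, fun a b => ?_, ?_, ?_⟩
  · rw [hE']
    exact lie_smul _ _ ((mem_lie L k).2 (hE a))
  · rw [hE', hE', conjTranspose_smul, star_trivial, Matrix.smul_mul, Matrix.mul_smul, smul_smul,
      hss, trace_smul, Complex.smul_re, KR_ct, ← map_mul, KR_tr, ← Complex.ofReal_natCast,
      Complex.re_ofReal_mul, orth]
    split_ifs
    · rw [smul_eq_mul]; field_simp
    · simp
  · intro Y hY
    obtain ⟨Y', hY', rfl⟩ := (ks_lie L k Y).1 hY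
    have h1 : ∀ Z ∈ Submodule.span ℝ (Set.range E), KR m k Z ∈ Submodule.span ℝ (Set.range E') := by
      intro Z hZ
      induction hZ using Submodule.span_induction with
      | mem Z hZ =>
        obtain ⟨a, rfl⟩ := hZ
        have h2 : KR m k (E a) = Real.sqrt k • E' a := by
          rw [hE', smul_smul, mul_inv_cancel₀ hs.ne', one_smul]
        rw [h2]
        exact Submodule.smul_mem _ _ (Submodule.subset_span ⟨a, rfl⟩)
      | zero => rw [map_zero]; exact Submodule.zero_mem _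
      | add Z W _ _ hZ hW => rw [map_add]; exact Submodule.add_mem _ hZ hW
      | smul r Z _ hZ => rw [KR_rsmul]; exact Submodule.smul_mem _ _ hZ
    exact h1 Y' (full Y' hY')
  · rw [Finset.mul_sum]
    refine Finset.sum_congr rfl fun a _ => ?_
    rw [Finset.mul_sum]
    refine Finset.sum_congr rfl fun b _ => ?_
    have h1 : E' a * E' b - E' b * E' a = (1 / k : ℝ) • KR m k (E a * E b - E b * E a) := by
      rw [hE', hE', Matrix.smul_mul, Matrix.mul_smul, smul_smul, hss, Matrix.smul_mul,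
        Matrix.mul_smul, smul_smul, hss, ← smul_sub, map_sub, map_mul, map_mul]
    rw [h1, norm_smul, mul_pow, KR_norm, Real.norm_eq_abs, abs_of_pos (by positivity)]
    field_simp

/-- the action on the sum of `k` copies -/
def kAct (V : Mt m → ℂ) (x : Mt (Fin k × m)) : ℂ := ∑ i : Fin k, V (Matrix.of fun a b => x (i, a) (i, b))

theorem KS.kAct_bk (V : Mt m → ℂ) (x : Mt (Fin k × m)) : kAct k V x = ∑ i : Fin k, V (bk i i x) := rfl

theorem KS.kAct_KR (V : Mt m → ℂ) (Y : Mt m) : kAct k V (KR m k Y) = k * V Y := by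
  rw [kAct_bk]
  simp only [bk_KR, if_true, Finset.sum_const, Finset.card_univ, Fintype.card_fin, nsmul_eq_mul]

theorem kAct_rho (V : Mt m → ℂ) (g : G) :
    kAct k V ((ksum L k).rho g) = k * V (L.rho g) := kAct_KR k V _

/-- the complexified Lie algebra of the sum -/
theorem KS.mem_gC_ks {Z : Mt (Fin k × m)} (hZ : Z ∈ gC (ksum L k)) :
    ∃ Y ∈ gC L, Z = KR m k Y := by
  unfold gC at hZ
  induction hZ using Submodule.span_induction with
  | mem Z hZ =>
    obtain ⟨Y, hY, h⟩ := (ks_lie L k Z).1 hZ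
    exact ⟨Y, gC_of_lie L hY, h⟩
  | zero => exact ⟨0, Submodule.zero_mem _, (map_zero _).symm⟩
  | add Z W _ _ hZ hW =>
    obtain ⟨Y, hY, rfl⟩ := hZ
    obtain ⟨Y', hY', rfl⟩ := hW
    exact ⟨Y + Y', Submodule.add_mem _ hY hY', (map_add _ _ _).symm⟩
  | smul c Z _ hZ =>
    obtain ⟨Y, hY, rfl⟩ := hZ
    exact ⟨c • Y, Submodule.smul_mem _ _ hY, (KR_smul _ _).symm⟩

theorem ks_act {V : Mt m → ℂ} (hV : Act L V) : Act (ksum L k) (kAct k V) := by
  have hk : (0 : ℝ) < k := by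
    have := Nat.pos_of_ne_zero (NeZero.ne k)
    exact_mod_cast this
  refine ⟨?_, ?_, ?_, ?_, ?_, ?_, ?_⟩
  · have h : kAct k V = fun x => ∑ i : Fin k, V (bk i i x) := rfl
    rw [h]
    refine ContDiff.sum fun i _ => ?_
    have h1 : ContDiff ℂ 1 (LinearMap.toContinuousLinearMap (bk (m := m) i i)) :=
      ContinuousLinearMap.contDiff _
    exact hV.diff.comp h1
  · intro g x
    rw [kAct_bk, kAct_bk]
    refine Finset.sum_congr rfl fun i _ => ?_
    have h : bk i i ((ksum L k).rho g * x * (ksum L k).rho g⁻¹) =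
        L.rho g * bk i i x * L.rho g⁻¹ := by
      rw [ks_rho', ks_rho', bk_mul]
      have h1 : ∀ l, bk i l (KR m k (L.rho g) * x) = L.rho g * bk i l x := by
        intro l
        rw [bk_mul]
        simp only [bk_KR, ite_mul, zero_mul, Finset.sum_ite_eq, Finset.mem_univ, if_true]
      simp only [h1, bk_KR, mul_ite, mul_zero, Finset.sum_ite_eq', Finset.mem_univ, if_true]
    rw [h, hV.conj]
  · intro x
    change kAct k V (sg L k x) = kAct k V x
    rw [kAct_bk, kAct_bk]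
    refine Finset.sum_congr rfl fun i _ => ?_
    rw [bk_sg, hV.inv]
  · intro g
    rw [kAct_rho, ← Complex.ofReal_natCast, Complex.im_ofReal_mul, hV.real, mul_zero]
  · rw [← map_one (KR m k), kAct_KR, hV.one, mul_zero]
  · intro g hg
    rw [kAct_rho, ← Complex.ofReal_natCast, Complex.re_ofReal_mul]
    exact mul_pos hk (hV.pos g hg)
  · rintro ⟨Z, hZ⟩
    obtain ⟨Y, hY, rfl⟩ := mem_gC_ks L k hZ
    have h1 := (hV.hess ⟨Y, hY⟩).const_mul (k : ℂ)
    have e1 : ∀ s : ℝ, kAct k V (NormedSpace.exp ((s : ℂ) • KR m k Y)) / (s : ℂ) ^ 2 =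
        (k : ℂ) * (V (NormedSpace.exp ((s : ℂ) • Y)) / (s : ℂ) ^ 2) := by
      intro s
      rw [← KR_smul, ← KR_exp, kAct_KR, mul_div_assoc]
    have e2 : Qf (KR m k Y) / 2 = (k : ℂ) * (Qf Y / 2) := by
      rw [KR_Qf, mul_div_assoc]
    simp only [e1, e2]
    exact h1

/-- The quartic remainder becomes small for large `k`. -/
theorem ks_quart {V : Mt m → ℂ} {C δ : ℝ} (hC : ∀ Z : gC L, ‖Z‖ < δ →
    ‖V (NormedSpace.exp (Z : Mt m)) - Qf (Z : Mt m) / 2‖ ≤ C * ‖Z‖ ^ 4) :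
    ∀ Z : gC (ksum L k), ‖Z‖ < δ →
      ‖kAct k V (NormedSpace.exp (Z : Mt (Fin k × m))) - Qf (Z : Mt (Fin k × m)) / 2‖ ≤
        C / k * ‖Z‖ ^ 4 := by
  have hk1 : (1 : ℝ) ≤ k := by
    have := Nat.one_le_iff_ne_zero.2 (NeZero.ne k)
    exact_mod_cast this
  have hk : (0 : ℝ) < k := by linarith
  rintro ⟨Z, hZ⟩ hn
  obtain ⟨Y, hY, rfl⟩ := mem_gC_ks L k hZ
  have hn' : ‖KR m k Y‖ < δ := hn
  have h0 := KR_norm (k := k) Y
  have hle : ‖Y‖ ≤ ‖KR m k Y‖ := by
    have h2 : ‖Y‖ ^ 2 ≤ ‖KR m k Y‖ ^ 2 := by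
      rw [h0]
      nlinarith [sq_nonneg ‖Y‖]
    exact le_of_sq_le_sq h2 (norm_nonneg _)
  have h3 := hC ⟨Y, hY⟩ (lt_of_le_of_lt hle hn')
  change ‖kAct k V (NormedSpace.exp (KR m k Y)) - Qf (KR m k Y) / 2‖ ≤ C / k * ‖KR m k Y‖ ^ 4
  have h4 : ‖V (NormedSpace.exp Y) - Qf Y / 2‖ ≤ C * ‖Y‖ ^ 4 := h3
  have e1 : kAct k V (NormedSpace.exp (KR m k Y)) - Qf (KR m k Y) / 2 =
      (k : ℂ) * (V (NormedSpace.exp Y) - Qf Y / 2) := by
    rw [← KR_exp, kAct_KR, KR_Qf]
    ring
  rw [e1, norm_mul, Complex.norm_natCast]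
  have e2 : ‖KR m k Y‖ ^ 4 = (k : ℝ) ^ 2 * ‖Y‖ ^ 4 := by
    calc ‖KR m k Y‖ ^ 4 = (‖KR m k Y‖ ^ 2) ^ 2 := by ring
      _ = (k : ℝ) ^ 2 * ‖Y‖ ^ 4 := by rw [h0]; ring
  rw [e2]
  calc (k : ℝ) * ‖V (NormedSpace.exp Y) - Qf Y / 2‖ ≤ k * (C * ‖Y‖ ^ 4) :=
        mul_le_mul_of_nonneg_left h4 hk.le
    _ = C / k * ((k : ℝ) ^ 2 * ‖Y‖ ^ 4) := by field_simp

end

end Pool.Agent.T2H04.HY
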