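import Mathlib
import Pool.Agent.T2H04.HY.LieG

/-!
# Bounds of the plaquette functions on the complexified group
-/

open MeasureTheory Matrix Filter
open scoped Matrix.Norms.Frobenius Topology

namespace Pool.Agent.T2H04.HY

set_option linter.unusedSectionVars false

noncomputable section

variable {G : Type} [Group G] [TopologicalSpace G] [IsTopologicalGroup G] [CompactSpace G]
  {m : Type} [Fintype m] [DecidableEq m] {L : RD G m}

theorem norm_unit_mul {u : Mt m} (hu : u * uᴴ = 1) (x : Mt m) : ‖u * x‖ = ‖x‖ := by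
  have hu' : uᴴ * u = 1 := mul_eq_one_comm.1 hu
  have : ‖u * x‖ ^ 2 = ‖x‖ ^ 2 := by
    rw [norm_sq_eq, norm_sq_eq, conjTranspose_mul]
    have : xᴴ * uᴴ * (u * x) = xᴴ * (uᴴ * u) * x := by noncomm_ring
    rw [this, hu', mul_one]
  exact (sq_eq_sq₀ (norm_nonneg _) (norm_nonneg _)).1 this

theorem norm_mul_unit {u : Mt m} (hu : u * uᴴ = 1) (x : Mt m) : ‖x * u‖ = ‖x‖ := by
  have : ‖x * u‖ ^ 2 = ‖x‖ ^ 2 := by
    rw [norm_sq_eq, norm_sq_eq, conjTranspose_mul]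
    have : trace (uᴴ * xᴴ * (x * u)) = trace (xᴴ * x) := by
      calc trace (uᴴ * xᴴ * (x * u)) = trace (uᴴ * (xᴴ * (x * u))) := by rw [mul_assoc]
        _ = trace (xᴴ * (x * u) * uᴴ) := trace_mul_comm _ _
        _ = trace (xᴴ * x * (u * uᴴ)) := by congr 1; noncomm_ring
        _ = trace (xᴴ * x) := by rw [hu, mul_one]
    rw [this]
  exact (sq_eq_sq₀ (norm_nonneg _) (norm_nonneg _)).1 this

theorem norm_rho_mul (g : G) (x : Mt m) : ‖L.rho g * x‖ = ‖x‖ := norm_unit_mul (L.unit g) x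

theorem norm_mul_rho (g : G) (x : Mt m) : ‖x * L.rho g‖ = ‖x‖ := norm_mul_unit (L.unit g) x

theorem re_trace_star (x : Mt m) : (trace xᴴ).re = (trace x).re := by
  rw [trace_conjTranspose, Complex.star_def, Complex.conj_re]

/-- the identity behind the parallelogram inequality -/
theorem par_eq {a y : Mt m} (ha : a * aᴴ = 1) (hy : y * yᴴ = 1) :
    ‖a * y - 1‖ ^ 2 + ‖a * yᴴ - 1‖ ^ 2 =
      2 * ‖a - 1‖ ^ 2 + 2 * ‖y - 1‖ ^ 2 - ‖(1 - y) * (1 - a)ᴴ‖ ^ 2 := by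
  have ha' : aᴴ * a = 1 := mul_eq_one_comm.1 ha
  have hy' : yᴴ * y = 1 := mul_eq_one_comm.1 hy
  have key : ∀ u : Mt m, u * uᴴ = 1 → ‖u - 1‖ ^ 2 = (trace (1 + 1 - u - uᴴ)).re := by
    intro u hu
    have hu' : uᴴ * u = 1 := mul_eq_one_comm.1 hu
    rw [norm_sq_eq, conjTranspose_sub, conjTranspose_one]
    have : (uᴴ - 1) * (u - 1) = 1 + 1 - u - uᴴ := by
      have : (uᴴ - 1) * (u - 1) = uᴴ * u - uᴴ - u + 1 := by noncomm_ring
      rw [this, hu']; abel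
    rw [this]
  have h1 : (a * y) * (a * y)ᴴ = 1 := by
    rw [conjTranspose_mul]
    have : a * y * (yᴴ * aᴴ) = a * (y * yᴴ) * aᴴ := by noncomm_ring
    rw [this, hy, mul_one, ha]
  have h2 : (a * yᴴ) * (a * yᴴ)ᴴ = 1 := by
    rw [conjTranspose_mul, conjTranspose_conjTranspose]
    have : a * yᴴ * (y * aᴴ) = a * (yᴴ * y) * aᴴ := by noncomm_ring
    rw [this, hy', mul_one, ha]
  rw [key _ h1, key _ h2, key _ ha, key _ hy, norm_sq_eq]
  have h3 : (trace (((1 - y) * (1 - a)ᴴ)ᴴ * ((1 - y) * (1 - a)ᴴ))).re =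
      (trace ((1 + 1 - a - aᴴ) * (1 + 1 - y - yᴴ))).re := by
    rw [conjTranspose_mul, conjTranspose_conjTranspose, conjTranspose_sub, conjTranspose_sub,
      conjTranspose_one]
    have e1 : (1 - a) * (1 - yᴴ) * ((1 - y) * (1 - aᴴ)) =
        (1 - a) * ((1 - yᴴ) * (1 - y) * (1 - aᴴ)) := by noncomm_ring
    rw [e1, trace_mul_comm]
    have e2 : (1 - yᴴ) * (1 - y) * (1 - aᴴ) * (1 - a) =
        ((1 - yᴴ) * (1 - y)) * ((1 - aᴴ) * (1 - a)) := by noncomm_ring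
    rw [e2, trace_mul_comm]
    have e3 : (1 - aᴴ) * (1 - a) = 1 + 1 - a - aᴴ := by
      have : (1 - aᴴ) * (1 - a) = 1 - a - aᴴ + aᴴ * a := by noncomm_ring
      rw [this, ha']; abel
    have e4 : (1 - yᴴ) * (1 - y) = 1 + 1 - y - yᴴ := by
      have : (1 - yᴴ) * (1 - y) = 1 - y - yᴴ + yᴴ * y := by noncomm_ring
      rw [this, hy']; abel
    rw [e3, e4]
  rw [h3]
  have h4 : (1 + 1 - a - aᴴ) * (1 + 1 - y - yᴴ) =
      1 + 1 + 1 + 1 - y - y - yᴴ - yᴴ - a - a - aᴴ - aᴴ +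
        a * y + a * yᴴ + aᴴ * y + aᴴ * yᴴ := by noncomm_ring
  have h5 : (trace (aᴴ * y)).re = (trace (a * yᴴ)).re := by
    rw [← re_trace_star (aᴴ * y), conjTranspose_mul, conjTranspose_conjTranspose, trace_mul_comm]
  have h6 : (trace (aᴴ * yᴴ)).re = (trace (a * y)).re := by
    rw [← re_trace_star (aᴴ * yᴴ), conjTranspose_mul, conjTranspose_conjTranspose,
      conjTranspose_conjTranspose, trace_mul_comm]
  have h7 : (trace (a * y)ᴴ).re = (trace (a * y)).re := re_trace_star _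
  have h8 : (trace (a * yᴴ)ᴴ).re = (trace (a * yᴴ)).re := re_trace_star _
  have h9 : (trace aᴴ).re = (trace a).re := re_trace_star _
  have h10 : (trace yᴴ).re = (trace y).re := re_trace_star _
  rw [h4]
  simp only [trace_sub, trace_add, Complex.sub_re, Complex.add_re, h5, h6, h7, h8, h9, h10]
  ring

theorem par_ge {a : Mt m} (ha : a * aᴴ = 1) (ha1 : ‖a - 1‖ ≤ 1) (y : G) :
    2 * ‖a - 1‖ ^ 2 + dis L y ^ 2 ≤ ‖a * L.rho y - 1‖ ^ 2 + ‖a * L.rho y⁻¹ - 1‖ ^ 2 := by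
  rw [rho_inv, par_eq ha (L.unit y)]
  have h1 : ‖(1 - L.rho y) * (1 - a)ᴴ‖ ≤ dis L y * ‖a - 1‖ := by
    refine (norm_mul_le _ _).trans ?_
    have e1 : ‖(1 - a)ᴴ‖ = ‖a - 1‖ := by
      have : ‖(1 - a)ᴴ‖ = ‖1 - a‖ := by
        have : ‖(1 - a)ᴴ‖ ^ 2 = ‖1 - a‖ ^ 2 := by
          rw [norm_sq_eq, norm_sq_eq, conjTranspose_conjTranspose, trace_mul_comm]
        exact (sq_eq_sq₀ (norm_nonneg _) (norm_nonneg _)).1 this
      rw [this, norm_sub_rev]
    have e2 : ‖1 - L.rho y‖ = dis L y := by rw [norm_sub_rev]; rfl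
    rw [e1, e2]
  have h2 : ‖(1 - L.rho y) * (1 - a)ᴴ‖ ^ 2 ≤ dis L y ^ 2 := by
    have h3 : dis L y * ‖a - 1‖ ≤ dis L y := by
      have : 0 ≤ dis L y := norm_nonneg _
      nlinarith
    exact pow_le_pow_left₀ (norm_nonneg _) (h1.trans h3) 2
  have h3 : ‖L.rho y - 1‖ = dis L y := rfl
  rw [h3]
  linarith

/-- triangle inequality in the group -/
theorem tri {a : Mt m} (ha : a * aᴴ = 1) (k z : G) :
    ‖a * a * L.rho k - 1‖ ≤ ‖a * L.rho z - 1‖ + ‖a * L.rho (k * z⁻¹) - 1‖ := by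
  have ha' : aᴴ * a = 1 := mul_eq_one_comm.1 ha
  have haH : aᴴ * aᴴᴴ = 1 := by rw [conjTranspose_conjTranspose]; exact ha'
  have e : a * a * L.rho k - 1 = a * (a * L.rho (k * z⁻¹) - 1) * aᴴ * (a * L.rho z) +
      (a * L.rho z - 1) := by
    have h1 : L.rho (k * z⁻¹) * L.rho z = L.rho k := by rw [← map_mul]; simp
    calc a * a * L.rho k - 1 = a * a * (L.rho (k * z⁻¹) * L.rho z) - 1 := by rw [h1]
      _ = a * a * L.rho (k * z⁻¹) * (1 * L.rho z) - a * (1 * L.rho z) + (a * L.rho z - 1) := by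
          noncomm_ring
      _ = a * a * L.rho (k * z⁻¹) * (aᴴ * a * L.rho z) - a * (aᴴ * a * L.rho z) +
            (a * L.rho z - 1) := by rw [ha']
      _ = _ := by noncomm_ring
  rw [e]
  refine (norm_add_le _ _).trans ?_
  rw [← mul_assoc, norm_mul_rho z, norm_mul_unit ha, norm_mul_unit haH, norm_unit_mul ha,
    add_comm]

end

end Pool.Agent.T2H04.HY
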