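import Mathlib
import Pool.Agent.T2H04.HY.Chart
import Pool.Agent.T2H04.HY.Cx

/-!
# Second differences of functions on the complexified Lie algebra
-/

open MeasureTheory Matrix Filter
open scoped Matrix.Norms.Frobenius Topology

namespace Pool.Agent.T2H04.HY

set_option linter.unusedSectionVars false

noncomputable section

variable {G : Type} [Group G] [TopologicalSpace G] [IsTopologicalGroup G] [CompactSpace G]
  {m : Type} [Fintype m] [DecidableEq m] {L : RD G m}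

section bc

variable {D : LogData m} {ε δ : ℝ} (ch : Chart L D ε δ)

include ch

theorem coe_bc {Z W : gC L} (hZ : ‖Z‖ < δ) (hW : ‖W‖ < δ) : ((bc L D Z W : gC L) : Mt m) =
    D.lg (NormedSpace.exp (Z : Mt m) * NormedSpace.exp (W : Mt m)) :=
  coe_prj L (ch.mem _ Z.2 _ W.2 hZ hW)

theorem exp_bc {Z W : gC L} (hZ : ‖Z‖ < δ) (hW : ‖W‖ < δ) :
    NormedSpace.exp ((bc L D Z W : gC L) : Mt m) =
      NormedSpace.exp (Z : Mt m) * NormedSpace.exp (W : Mt m) := by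
  rw [coe_bc ch hZ hW]
  exact D.exp_lg _ (ch.near _ _ hZ hW)

theorem bc_eq {Z W Y : gC L} (hZ : ‖Z‖ < δ) (hW : ‖W‖ < δ) (hY : ‖Y‖ < δ)
    (h : NormedSpace.exp (Z : Mt m) * NormedSpace.exp (W : Mt m) = NormedSpace.exp (Y : Mt m)) :
    bc L D Z W = Y := by
  apply Subtype.ext
  rw [coe_bc ch hZ hW, h]
  exact D.lg_exp _ (lt_of_lt_of_le hY ch.le_R)

theorem bc_sub_le {Z W Z' W' : gC L} (hZ : ‖Z‖ < δ) (hW : ‖W‖ < δ) (hZ' : ‖Z'‖ < δ)
    (hW' : ‖W'‖ < δ) :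
    ‖(bc L D Z W - Z - W) - (bc L D Z' W' - Z' - W')‖ ≤ ε * (‖Z - Z'‖ + ‖W - W'‖) := by
  have h := ch.bl Z W Z' W' hZ hW hZ' hW'
  rw [← coe_bc ch hZ hW, ← coe_bc ch hZ' hW'] at h
  exact h

theorem bc_zero_right {Z : gC L} (hZ : ‖Z‖ < δ) : bc L D Z 0 = Z :=
  bc_eq ch hZ (by rw [norm_zero]; exact ch.pos) hZ (by
    rw [ZeroMemClass.coe_zero, NormedSpace.exp_zero, mul_one])

theorem bc_zero_left {W : gC L} (hW : ‖W‖ < δ) : bc L D 0 W = W :=
  bc_eq ch (by rw [norm_zero]; exact ch.pos) hW hW (by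
    rw [ZeroMemClass.coe_zero, NormedSpace.exp_zero, one_mul])

theorem bc_sub_right {Z W : gC L} (hZ : ‖Z‖ < δ) (hW : ‖W‖ < δ) :
    ‖bc L D Z W - Z - W‖ ≤ ε * ‖W‖ := by
  have h := bc_sub_le ch hZ hW hZ (W' := 0) (by rw [norm_zero]; exact ch.pos)
  rw [bc_zero_right ch hZ, sub_self Z, sub_zero (0 : gC L), sub_zero (bc L D Z W - Z - W),
    sub_zero W, norm_zero, zero_add] at h
  exact h

theorem bc_sub_left {Z W : gC L} (hZ : ‖Z‖ < δ) (hW : ‖W‖ < δ) :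
    ‖bc L D Z W - Z - W‖ ≤ ε * ‖Z‖ := by
  have h := bc_sub_le ch hZ hW (Z' := 0) (W' := W) (by rw [norm_zero]; exact ch.pos) hW
  rw [bc_zero_left ch hW, sub_zero W, sub_self W, sub_zero (bc L D Z W - Z - W),
    sub_zero Z, norm_zero, add_zero] at h
  exact h

theorem bc_diff_left {W : gC L} (hW : ‖W‖ < δ) :
    DifferentiableOn ℂ (fun Z : gC L => bc L D Z W) (Metric.ball 0 δ) := by
  intro Z hZ
  rw [mem_ball_zero_iff] at hZ
  have h1 : DifferentiableAt ℂ D.lg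
      (NormedSpace.exp (Z : Mt m) * NormedSpace.exp (W : Mt m)) :=
    (D.diff _ (by rw [Metric.mem_ball, dist_eq_norm]; exact ch.near _ _ hZ hW)).differentiableAt
      (Metric.isOpen_ball.mem_nhds (by rw [Metric.mem_ball, dist_eq_norm]; exact ch.near _ _ hZ hW))
  have h2 : DifferentiableAt ℂ (fun Z : gC L =>
      NormedSpace.exp (Z : Mt m) * NormedSpace.exp (W : Mt m)) Z :=
    ((exp_diff _).comp Z (gC L).subtypeL.differentiableAt).mul_const _
  exact ((prj L).differentiableAt.comp Z (h1.comp Z h2)).differentiableWithinAt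

theorem bc_diff_right {Z : gC L} (hZ : ‖Z‖ < δ) :
    DifferentiableOn ℂ (fun W : gC L => bc L D Z W) (Metric.ball 0 δ) := by
  intro W hW
  rw [mem_ball_zero_iff] at hW
  have h1 : DifferentiableAt ℂ D.lg
      (NormedSpace.exp (Z : Mt m) * NormedSpace.exp (W : Mt m)) :=
    (D.diff _ (by rw [Metric.mem_ball, dist_eq_norm]; exact ch.near _ _ hZ hW)).differentiableAt
      (Metric.isOpen_ball.mem_nhds (by rw [Metric.mem_ball, dist_eq_norm]; exact ch.near _ _ hZ hW))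
  have h2 : DifferentiableAt ℂ (fun W : gC L =>
      NormedSpace.exp (Z : Mt m) * NormedSpace.exp (W : Mt m)) W :=
    ((exp_diff _).comp W (gC L).subtypeL.differentiableAt).const_mul _
  exact ((prj L).differentiableAt.comp W (h1.comp W h2)).differentiableWithinAt

/-- evenness: `bc (-Z) η` is conjugate to `-bc Z (-η)` -/
theorem bc_neg {Z η : gC L} (hZ : ‖Z‖ < δ) (hη : ‖η‖ < δ) {g : G}
    (hg : L.rho g = NormedSpace.exp (-(η : Mt m))) (hb : ‖bc L D Z (-η)‖ < δ)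
    (hb' : ‖bc L D (-Z) η‖ < δ) :
    ((-(bc L D (-Z) η) : gC L) : Mt m) = L.rho g * ((bc L D Z (-η) : gC L) : Mt m) * L.rho g⁻¹ := by
  have hg' : L.rho g⁻¹ = NormedSpace.exp (η : Mt m) := by
    have h2 : L.rho g⁻¹ * (L.rho g * NormedSpace.exp (η : Mt m)) = L.rho g⁻¹ := by
      rw [hg, exp_neg_mul_exp, mul_one]
    rw [← mul_assoc, rho_inv_mul, one_mul] at h2
    exact h2.symm
  have hu : IsUnit (L.rho g) := ⟨⟨L.rho g, L.rho g⁻¹, rho_mul_inv L g, rho_inv_mul L g⟩, rfl⟩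
  have hinv : (L.rho g)⁻¹ = L.rho g⁻¹ := Matrix.inv_eq_right_inv (rho_mul_inv L g)
  set Y : gC L := ⟨L.rho g * ((bc L D Z (-η) : gC L) : Mt m) * L.rho g⁻¹,
    gC_conj L g (bc L D Z (-η)).2⟩ with hY
  have hYn : ‖Y‖ < δ := by
    have : ‖Y‖ = ‖bc L D Z (-η)‖ := by
      show ‖L.rho g * ((bc L D Z (-η) : gC L) : Mt m) * L.rho g⁻¹‖ = ‖((bc L D Z (-η) : gC L) : Mt m)‖
      have h3 : ∀ x : Mt m, ‖L.rho g * x * L.rho g⁻¹‖ = ‖x‖ := by
        intro x
        have : ‖L.rho g * x * L.rho g⁻¹‖ ^ 2 = ‖x‖ ^ 2 := by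
          rw [norm_sq_eq, norm_sq_eq, rho_inv, conjTranspose_mul, conjTranspose_mul,
            conjTranspose_conjTranspose]
          congr 1
          calc trace (L.rho g * (xᴴ * (L.rho g)ᴴ) * (L.rho g * x * (L.rho g)ᴴ))
              = trace (L.rho g * (xᴴ * ((L.rho g)ᴴ * L.rho g) * x * (L.rho g)ᴴ)) := by
                congr 1; noncomm_ring
            _ = trace ((xᴴ * x * (L.rho g)ᴴ) * L.rho g) := by
                rw [rho_unit', trace_mul_comm]; simp only [mul_one]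
            _ = trace (xᴴ * x) := by rw [mul_assoc, rho_unit', mul_one]
        exact (sq_eq_sq₀ (norm_nonneg _) (norm_nonneg _)).1 this
      exact h3 _
    rw [this]; exact hb
  have h4 : NormedSpace.exp (Y : Mt m) = NormedSpace.exp ((-(bc L D (-Z) η) : gC L) : Mt m) := by
    have e1 := Matrix.exp_conj (L.rho g) ((bc L D Z (-η) : gC L) : Mt m) hu
    rw [hinv, exp_bc ch hZ (by rwa [norm_neg])] at e1
    rw [hY]
    show NormedSpace.exp (L.rho g * ((bc L D Z (-η) : gC L) : Mt m) * L.rho g⁻¹) = _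
    rw [e1, hg', NegMemClass.coe_neg, mul_assoc, mul_assoc, exp_neg_mul_exp, mul_one]
    have e2 : NormedSpace.exp ((bc L D (-Z) η : gC L) : Mt m) *
        (L.rho g * NormedSpace.exp (Z : Mt m)) = 1 := by
      rw [exp_bc ch (by rwa [norm_neg]) hη, NegMemClass.coe_neg, hg, mul_assoc,
        ← mul_assoc (NormedSpace.exp (η : Mt m)), exp_mul_exp_neg, one_mul, exp_neg_mul_exp]
    have e3 : NormedSpace.exp (-((bc L D (-Z) η : gC L) : Mt m)) *
        (NormedSpace.exp ((bc L D (-Z) η : gC L) : Mt m) * (L.rho g * NormedSpace.exp (Z : Mt m))) =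
        L.rho g * NormedSpace.exp (Z : Mt m) := by
      rw [← mul_assoc, exp_neg_mul_exp, one_mul]
    rw [e2, mul_one] at e3
    rw [NegMemClass.coe_neg, e3]
  have h5 : D.lg (NormedSpace.exp (Y : Mt m)) = (Y : Mt m) :=
    D.lg_exp _ (lt_of_lt_of_le hYn ch.le_R)
  have h6 := D.lg_exp ((-(bc L D (-Z) η) : gC L) : Mt m) (by
    have : ‖((-(bc L D (-Z) η) : gC L) : Mt m)‖ = ‖bc L D (-Z) η‖ := by
      rw [NegMemClass.coe_neg, norm_neg]; rfl
    rw [this]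
    exact lt_of_lt_of_le hb' ch.le_R)
  rw [← h4] at h6
  rw [← h6, h5]

end bc

/-- second difference -/
def sdf (D : LogData m) (V : gC L → ℂ) (Z W : gC L) : ℂ :=
  V (bc L D ((1 / 2 : ℂ) • Z) W) + V (bc L D ((1 / 2 : ℂ) • Z) (-W)) - 2 * V ((1 / 2 : ℂ) • Z) -
    2 * V W

theorem real_exp {η : gC L} (h : imP (η : Mt m) = 0) :
    ∃ g : G, L.rho g = NormedSpace.exp (-(η : Mt m)) :=
  lie_exp L (lie_neg L (mem_lieSet_of_gC L η.2 h))

/-- Double Schwarz lemma. -/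
theorem sdf_le {D : LogData m} {ε δ : ℝ} (ch : Chart L D ε δ) {V : gC L → ℂ} {U Zs : Set (gC L)}
    {M ρ1 ρ2 : ℝ} (hU : IsOpen U) (hV : DifferentiableOn ℂ V U) (hb : ∀ Z ∈ U, ‖V Z‖ ≤ M)
    (hev : ∀ Z ∈ U, V (-Z) = V Z)
    (hinv : ∀ g : G, ∀ Z ∈ U, ∀ Z' : gC L, (Z' : Mt m) = L.rho g * (Z : Mt m) * L.rho g⁻¹ →
      V Z' = V Z) (h0 : V 0 = 0) (hρ1 : 0 < ρ1) (hρ2 : 0 < ρ2)
    (hball : Metric.ball 0 ρ2 ⊆ Zs) (hZδ : ∀ Z ∈ Zs, ‖Z‖ < δ) (hρ1δ : ρ1 ≤ δ)
    (hUδ : ∀ Z ∈ U, ‖Z‖ < δ) (hneg : ∀ Z ∈ U, -Z ∈ U)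
    (hin : ∀ Z ∈ Zs, (1 / 2 : ℂ) • Z ∈ U ∧ ∀ W : gC L, ‖W‖ < ρ1 →
      bc L D ((1 / 2 : ℂ) • Z) W ∈ U ∧ W ∈ U) :
    ∀ Z ∈ Zs, ∀ η : gC L, imP (η : Mt m) = 0 → ‖η‖ < ρ1 →
      ‖sdf D V Z η‖ ≤ 6 * M * (‖η‖ / ρ1) ^ 2 * (‖Z‖ / ρ2) ^ 2 := by
  have hhalf : ∀ Z : gC L, ‖(1 / 2 : ℂ) • Z‖ = ‖Z‖ / 2 := by
    intro Z
    have h2 : ‖(1 / 2 : ℂ)‖ = 1 / 2 := by simp
    rw [norm_smul, h2]; ring
  have hhalfδ : ∀ Z ∈ Zs, ‖(1 / 2 : ℂ) • Z‖ < δ := by
    intro Z hZ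
    rw [hhalf]
    have := hZδ Z hZ
    have := norm_nonneg Z
    linarith
  have hM : 0 ≤ M := by
    have h1 : (0 : gC L) ∈ Zs := hball (by rw [mem_ball_zero_iff, norm_zero]; exact hρ2)
    have h2 := (hin 0 h1).1
    exact (norm_nonneg _).trans (hb _ h2)
  -- basic bound
  have hbd : ∀ Z ∈ Zs, ∀ W : gC L, ‖W‖ < ρ1 → ‖sdf D V Z W‖ ≤ 6 * M := by
    intro Z hZ W hW
    obtain ⟨a, b⟩ := hin Z hZ
    obtain ⟨b1, b2⟩ := b W hW
    obtain ⟨b3, -⟩ := b (-W) (by rwa [norm_neg])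
    have n1 := hb _ b1
    have n2 := hb _ b3
    have n3 := hb _ a
    have n4 := hb _ b2
    unfold sdf
    calc _ ≤ ‖V (bc L D ((1 / 2 : ℂ) • Z) W)‖ + ‖V (bc L D ((1 / 2 : ℂ) • Z) (-W))‖ +
          ‖2 * V ((1 / 2 : ℂ) • Z)‖ + ‖2 * V W‖ :=
          (norm_sub_le _ _).trans (add_le_add ((norm_sub_le _ _).trans (add_le_add
            (norm_add_le _ _) le_rfl)) le_rfl)
      _ ≤ 6 * M := by
          have h2 : ‖(2 : ℂ)‖ = 2 := by simp
          rw [norm_mul, norm_mul, h2]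
          linarith
  -- Schwarz in the second variable
  have step1 : ∀ Z ∈ Zs, ∀ W : gC L, ‖W‖ < ρ1 → ‖sdf D V Z W‖ ≤ 6 * M * (‖W‖ / ρ1) ^ 2 := by
    intro Z hZ W hW
    refine schwarz2 (f := fun W => sdf D V Z W) hρ1 ?_ ?_ ?_ ?_ W (by rwa [mem_ball_zero_iff])
    · intro W hW
      rw [mem_ball_zero_iff] at hW
      obtain ⟨a, b⟩ := hin Z hZ
      obtain ⟨b1, b2⟩ := b W hW
      obtain ⟨b3, -⟩ := b (-W) (by rwa [norm_neg])
      have hVat : ∀ Y ∈ U, DifferentiableAt ℂ V Y := fun Y hY =>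
        (hV Y hY).differentiableAt (hU.mem_nhds hY)
      have c1 : DifferentiableAt ℂ (fun W : gC L => bc L D ((1 / 2 : ℂ) • Z) W) W :=
        (bc_diff_right ch (hhalfδ Z hZ)).differentiableAt
          (Metric.isOpen_ball.mem_nhds (by rw [mem_ball_zero_iff]; exact hW.trans_le hρ1δ))
      have c2 : DifferentiableAt ℂ (fun W : gC L => bc L D ((1 / 2 : ℂ) • Z) (-W)) W := by
        have h1 : DifferentiableAt ℂ (fun W : gC L => bc L D ((1 / 2 : ℂ) • Z) W) (-W) :=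
          (bc_diff_right ch (hhalfδ Z hZ)).differentiableAt
            (Metric.isOpen_ball.mem_nhds (by
              rw [mem_ball_zero_iff, norm_neg]; exact hW.trans_le hρ1δ))
        exact DifferentiableAt.comp (g := fun W : gC L => bc L D ((1 / 2 : ℂ) • Z) W)
          (f := fun W : gC L => -W) W h1 differentiableAt_fun_id.neg
      have d1 := (hVat _ b1).comp W c1
      have d2 := (hVat _ b3).comp W c2
      have d3 := (hVat _ b2)
      exact (((d1.add d2).sub_const _).sub (d3.const_mul 2)).differentiableWithinAt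
    · intro W hW
      exact hbd Z hZ W (by rwa [mem_ball_zero_iff] at hW)
    · show sdf D V Z 0 = 0
      unfold sdf
      rw [neg_zero, bc_zero_right ch (hhalfδ Z hZ), h0]
      ring
    · intro W hW
      rw [mem_ball_zero_iff] at hW
      show sdf D V Z (-W) = sdf D V Z W
      unfold sdf
      rw [neg_neg, hev W ((hin Z hZ).2 W hW).2]
      ring
  intro Z hZ η hη hη1
  have hnn : 0 ≤ 6 * M * (‖η‖ / ρ1) ^ 2 := by positivity
  by_cases hZ2 : ‖Z‖ < ρ2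
  · refine schwarz2 (f := fun Z => sdf D V Z η) hρ2 ?_ ?_ ?_ ?_ Z (by rwa [mem_ball_zero_iff])
    · intro Z hZ'
      have hZ := hball hZ'
      obtain ⟨a, b⟩ := hin Z hZ
      obtain ⟨b1, b2⟩ := b η hη1
      obtain ⟨b3, -⟩ := b (-η) (by rwa [norm_neg])
      have hVat : ∀ Y ∈ U, DifferentiableAt ℂ V Y := fun Y hY =>
        (hV Y hY).differentiableAt (hU.mem_nhds hY)
      have hh : DifferentiableAt ℂ (fun Z : gC L => (1 / 2 : ℂ) • Z) Z := by fun_prop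
      have c1 : ∀ η' : gC L, ‖η'‖ < δ →
          DifferentiableAt ℂ (fun Z : gC L => bc L D ((1 / 2 : ℂ) • Z) η') Z := by
        intro η' hη'
        have h1 : DifferentiableAt ℂ (fun Z : gC L => bc L D Z η') ((1 / 2 : ℂ) • Z) :=
          (bc_diff_left ch hη').differentiableAt
            (Metric.isOpen_ball.mem_nhds (by rw [mem_ball_zero_iff]; exact hhalfδ Z hZ))
        exact h1.comp Z hh
      have d1 := (hVat _ b1).comp Z (c1 η (hη1.trans_le hρ1δ))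
      have d2 := (hVat _ b3).comp Z (c1 (-η) (by rw [norm_neg]; exact hη1.trans_le hρ1δ))
      have d3 := (hVat _ a).comp Z hh
      exact (((d1.add d2).sub (d3.const_mul 2)).sub_const _).differentiableWithinAt
    · intro Z hZ'
      exact step1 Z (hball hZ') η hη1
    · show sdf D V 0 η = 0
      have h00 : (0 : gC L) ∈ Zs := hball (by rw [mem_ball_zero_iff, norm_zero]; exact hρ2)
      have hηU := ((hin 0 h00).2 η hη1).2
      unfold sdf
      rw [smul_zero, bc_zero_left ch (hη1.trans_le hρ1δ),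
        bc_zero_left ch (by rw [norm_neg]; exact hη1.trans_le hρ1δ), h0, hev η hηU]
      ring
    · intro Z hZ'
      have hZ := hball hZ'
      have hZ'' : -Z ∈ Metric.ball (0 : gC L) ρ2 := by
        rw [mem_ball_zero_iff] at *
        rwa [norm_neg]
      have hnZ := hball hZ''
      show sdf D V (-Z) η = sdf D V Z η
      unfold sdf
      rw [smul_neg]
      obtain ⟨a, b⟩ := hin Z hZ
      obtain ⟨a', b'⟩ := hin (-Z) hnZ
      rw [smul_neg] at a' b'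
      have hηn : ‖-η‖ < ρ1 := by rwa [norm_neg]
      obtain ⟨b1, b2⟩ := b η hη1
      obtain ⟨b3, -⟩ := b (-η) hηn
      obtain ⟨b4, -⟩ := b' η hη1
      obtain ⟨b5, -⟩ := b' (-η) hηn
      obtain ⟨g, hg⟩ := real_exp hη
      have hη' : imP ((-η : gC L) : Mt m) = 0 := by
        rw [NegMemClass.coe_neg, imP_neg, hη, neg_zero]
      obtain ⟨g', hg'⟩ := real_exp hη'
      have k1 := bc_neg ch (hhalfδ Z hZ) (hη1.trans_le hρ1δ) hg (hUδ _ b3) (hUδ _ b4)
      have k2 := bc_neg ch (hhalfδ Z hZ) (hηn.trans_le hρ1δ) hg'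
        (by rw [neg_neg]; exact hUδ _ b1) (hUδ _ b5)
      rw [neg_neg] at k2
      have l1 : V (bc L D (-((1 / 2 : ℂ) • Z)) η) = V (bc L D ((1 / 2 : ℂ) • Z) (-η)) := by
        rw [← hev _ b4]
        exact hinv g _ b3 _ k1
      have l2 : V (bc L D (-((1 / 2 : ℂ) • Z)) (-η)) = V (bc L D ((1 / 2 : ℂ) • Z) η) := by
        rw [← hev _ b5]
        exact hinv g' _ b1 _ k2
      rw [l1, l2, hev _ a]
      ring
  · have h1 : 1 ≤ (‖Z‖ / ρ2) ^ 2 := by
      have : 1 ≤ ‖Z‖ / ρ2 := by rw [le_div_iff₀ hρ2]; linarith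
      nlinarith
    have h2 := step1 Z hZ η hη1
    calc _ ≤ 6 * M * (‖η‖ / ρ1) ^ 2 := h2
      _ ≤ 6 * M * (‖η‖ / ρ1) ^ 2 * (‖Z‖ / ρ2) ^ 2 := by nlinarith

end

end Pool.Agent.T2H04.HY
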