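import Mathlib
import Pool.Agent.T2H04.HY.SD

/-!
# The convolution step: small and large field estimates
-/

open MeasureTheory Matrix Filter
open scoped Matrix.Norms.Frobenius Topology

namespace Pool.Agent.T2H04.HY

set_option linter.unusedSectionVars false

noncomputable section

variable {G : Type} [Group G] [TopologicalSpace G] [IsTopologicalGroup G] [CompactSpace G]
  {m : Type} [Fintype m] [DecidableEq m] {L : RD G m}

/-- the conditions on the parameters of the convolution step -/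
structure Par (L : RD G m) (D : LogData m) (εg δ r0 r s b r' : ℝ) : Prop where
  ch : Chart L D εg δ
  e0 : 0 ≤ εg
  e1 : εg ≤ 1 / 1000000
  r0_pos : 0 < r0
  r0_le : r0 ≤ 1 / 2000
  r0_δ : 100 * r0 ≤ δ
  r_lo : r0 ≤ r
  r_hi : r ≤ 6 / 5 * r0
  r'_lo : r0 ≤ r'
  r'_hi : r' ≤ 6 / 5 * r0
  h1 : s * (1 + εg) + εg * (r0 / 4) ≤ r
  h2 : r' / 2 + r0 / 4 ≤ r
  h3 : r' ^ 2 / 2 + r0 ^ 2 / 20 ≤ b

/-! ### sizes -/

theorem coe_half (Z : gC L) : (((1 / 2 : ℂ) • Z : gC L) : Mt m) = (1 / 2 : ℂ) • (Z : Mt m) := rfl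

theorem reP_half (Z : Mt m) : reP ((1 / 2 : ℂ) • Z) = (1 / 2 : ℂ) • reP Z := by
  have := reP_smul (1 / 2) Z
  push_cast at this
  exact this

theorem imP_half (Z : Mt m) : imP ((1 / 2 : ℂ) • Z) = (1 / 2 : ℂ) • imP Z := by
  have := imP_smul (1 / 2) Z
  push_cast at this
  exact this

theorem norm_half (Z : Mt m) : ‖(1 / 2 : ℂ) • Z‖ = ‖Z‖ / 2 := by
  have h2 : ‖(1 / 2 : ℂ)‖ = 1 / 2 := by simp
  rw [norm_smul, h2]; ring

theorem norm_half' (Z : gC L) : ‖(1 / 2 : ℂ) • Z‖ = ‖Z‖ / 2 := norm_half (Z : Mt m)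

theorem continuous_reP : Continuous (reP : Mt m → Mt m) := by
  have h : Continuous fun Z : Mt m => Zᴴ := continuous_star
  exact Continuous.const_smul (continuous_id.sub h) (1 / 2 : ℂ)

theorem continuous_imP : Continuous (imP : Mt m → Mt m) := by
  have h : Continuous fun Z : Mt m => Zᴴ := continuous_star
  exact Continuous.const_smul (continuous_id.add h) (-(Complex.I / 2))

theorem isOpen_dom (L : RD G m) (r τ : ℝ) : IsOpen (dom L r τ) := by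
  have h1 : Continuous fun Z : gC L => ‖reP (Z : Mt m)‖ :=
    (continuous_reP.comp continuous_subtype_val).norm
  have h2 : Continuous fun Z : gC L => ‖imP (Z : Mt m)‖ :=
    (continuous_imP.comp continuous_subtype_val).norm
  exact (isOpen_lt h1 continuous_const).inter (isOpen_lt h2 continuous_const)

theorem dom_neg {r τ : ℝ} {Z : gC L} (hZ : Z ∈ dom L r τ) : -Z ∈ dom L r τ := by
  refine ⟨?_, ?_⟩
  · rw [NegMemClass.coe_neg, reP_neg, norm_neg]; exact hZ.1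
  · rw [NegMemClass.coe_neg, imP_neg, norm_neg]; exact hZ.2

theorem norm_sq_gC (Z : gC L) : ‖Z‖ ^ 2 = ‖reP (Z : Mt m)‖ ^ 2 + ‖imP (Z : Mt m)‖ ^ 2 :=
  norm_sq_reP_imP (Z : Mt m)

theorem norm_lt_dom {r τ c : ℝ} {Z : gC L} (hZ : Z ∈ dom L r τ) (hc : 0 ≤ c)
    (h : r ^ 2 + τ ^ 2 ≤ c ^ 2) : ‖Z‖ < c := by
  have h1 := norm_sq_gC Z
  have h2 : ‖reP (Z : Mt m)‖ ^ 2 < r ^ 2 := pow_lt_pow_left₀ hZ.1 (norm_nonneg _) two_ne_zero
  have h3 : ‖imP (Z : Mt m)‖ ^ 2 < τ ^ 2 := pow_lt_pow_left₀ hZ.2 (norm_nonneg _) two_ne_zero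
  exact lt_of_pow_lt_pow_left₀ 2 hc (by linarith)

theorem ball_sub_dom {r τ ρ : ℝ} (h1 : ρ ≤ r) (h2 : ρ ≤ τ) :
    Metric.ball (0 : gC L) ρ ⊆ dom L r τ := by
  intro Z hZ
  rw [mem_ball_zero_iff] at hZ
  have hZ' : ‖(Z : Mt m)‖ < ρ := hZ
  exact ⟨(norm_reP_le _).trans_lt (hZ'.trans_le h1), (norm_imP_le _).trans_lt (hZ'.trans_le h2)⟩

theorem zero_mem_dom {r τ : ℝ} (h1 : 0 < r) (h2 : 0 < τ) : (0 : gC L) ∈ dom L r τ := by
  refine ⟨?_, ?_⟩
  · have : ‖reP ((0 : gC L) : Mt m)‖ ≤ ‖((0 : gC L) : Mt m)‖ := norm_reP_le _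
    have h3 : ‖((0 : gC L) : Mt m)‖ = 0 := by rw [ZeroMemClass.coe_zero, norm_zero]
    linarith
  · have : ‖imP ((0 : gC L) : Mt m)‖ ≤ ‖((0 : gC L) : Mt m)‖ := norm_imP_le _
    have h3 : ‖((0 : gC L) : Mt m)‖ = 0 := by rw [ZeroMemClass.coe_zero, norm_zero]
    linarith

theorem Qf_half (Z : Mt m) : Qf ((1 / 2 : ℂ) • Z) = Qf Z / 4 := by
  unfold Qf
  rw [smul_mul_assoc, mul_smul_comm, smul_smul, trace_smul, smul_eq_mul]
  ring

theorem Qf_neg (Z : Mt m) : Qf (-Z) = Qf Z := by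
  unfold Qf
  rw [neg_mul_neg]

theorem Qf_conj (g : G) (Z : Mt m) : Qf (L.rho g * Z * L.rho g⁻¹) = Qf Z := by
  unfold Qf
  congr 1
  calc trace (L.rho g * Z * L.rho g⁻¹ * (L.rho g * Z * L.rho g⁻¹))
      = trace (L.rho g * (Z * (L.rho g⁻¹ * L.rho g) * Z * L.rho g⁻¹)) := by
        congr 1; noncomm_ring
    _ = trace (Z * (L.rho g⁻¹ * L.rho g) * Z * L.rho g⁻¹ * L.rho g) := trace_mul_comm _ _
    _ = trace (Z * Z * (L.rho g⁻¹ * L.rho g)) := by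
        rw [rho_inv_mul, mul_one, mul_assoc, rho_inv_mul]
    _ = trace (Z * Z) := by rw [rho_inv_mul, mul_one]

theorem Qf_diff : Differentiable ℂ fun Z : gC L => Qf (Z : Mt m) := by
  have h1 : Differentiable ℂ fun Z : gC L => (Z : Mt m) * (Z : Mt m) :=
    (gC L).subtypeL.differentiable.mul (gC L).subtypeL.differentiable
  have h2 : Differentiable ℂ fun x : Mt m => trace x :=
    (LinearMap.toContinuousLinearMap (Matrix.traceLinearMap m ℂ ℂ)).differentiable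
  exact (h2.comp h1).neg

theorem arith_384 (x y d : ℝ) (hd : 0 < d) :
    6 * d ^ 2 * (y / (d / 4)) ^ 2 * (x / (d / 2)) ^ 2 = 384 / d ^ 2 * x ^ 2 * y ^ 2 := by
  field_simp
  ring

/-- second difference of the quadratic form -/
theorem sdf_Q_le {D : LogData m} {εg δ : ℝ} (ch : Chart L D εg δ) (e0 : 0 ≤ εg)
    (e1 : εg ≤ 1 / 1000000) (Z η : gC L) (hZ : ‖Z‖ < δ / 2) (hη : imP (η : Mt m) = 0)
    (hη1 : ‖η‖ < δ / 4) :
    ‖sdf D (fun Z : gC L => Qf (Z : Mt m)) Z η‖ ≤ 384 / δ ^ 2 * ‖Z‖ ^ 2 * ‖η‖ ^ 2 := by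
  have hδ := ch.pos
  have key := sdf_le ch (V := fun Z : gC L => Qf (Z : Mt m)) (U := Metric.ball 0 δ)
    (Zs := Metric.ball 0 (δ / 2)) (M := δ ^ 2) (ρ1 := δ / 4) (ρ2 := δ / 2) Metric.isOpen_ball
    Qf_diff.differentiableOn ?_ ?_ ?_ ?_ (by positivity) (by positivity) (subset_refl _) ?_
    (by linarith) ?_ ?_ ?_ Z (by rwa [mem_ball_zero_iff]) η hη hη1
  · exact key.trans (le_of_eq (arith_384 _ _ _ hδ))
  · intro Z hZ
    rw [mem_ball_zero_iff] at hZ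
    have h1 : ‖Qf (Z : Mt m)‖ ≤ ‖Z‖ ^ 2 := norm_Qf_le (Z : Mt m)
    exact h1.trans (pow_le_pow_left₀ (norm_nonneg _) hZ.le 2)
  · intro Z _
    show Qf ((-Z : gC L) : Mt m) = Qf (Z : Mt m)
    rw [NegMemClass.coe_neg, Qf_neg]
  · intro g Z _ Z' h
    show Qf (Z' : Mt m) = Qf (Z : Mt m)
    rw [h, Qf_conj]
  · show Qf ((0 : gC L) : Mt m) = 0
    rw [ZeroMemClass.coe_zero]
    unfold Qf
    rw [mul_zero, trace_zero, neg_zero]
  · intro Z hZ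
    rw [mem_ball_zero_iff] at hZ
    linarith
  · intro Z hZ
    rwa [mem_ball_zero_iff] at hZ
  · intro Z hZ
    rw [mem_ball_zero_iff] at *
    rwa [norm_neg]
  · intro Z hZ
    rw [mem_ball_zero_iff] at hZ
    have hZ2 : ‖(1 / 2 : ℂ) • Z‖ < δ / 4 := by rw [norm_half']; linarith
    refine ⟨by rw [mem_ball_zero_iff]; linarith, fun W hW => ⟨?_, by
      rw [mem_ball_zero_iff]; linarith⟩⟩
    rw [mem_ball_zero_iff]
    have h1 := bc_sub_right ch (Z := (1 / 2 : ℂ) • Z) (W := W) (by linarith) (by linarith)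
    have h2 : ‖bc L D ((1 / 2 : ℂ) • Z) W‖ ≤ ‖bc L D ((1 / 2 : ℂ) • Z) W - (1 / 2 : ℂ) • Z - W‖ +
        ‖(1 / 2 : ℂ) • Z‖ + ‖W‖ := by
      have e : bc L D ((1 / 2 : ℂ) • Z) W = (bc L D ((1 / 2 : ℂ) • Z) W - (1 / 2 : ℂ) • Z - W) +
          (1 / 2 : ℂ) • Z + W := by abel
      conv_lhs => rw [e]
      exact (norm_add_le _ _).trans (add_le_add (norm_add_le _ _) le_rfl)
    have h3 : εg * ‖W‖ ≤ 1 / 1000000 * ‖W‖ := mul_le_mul_of_nonneg_right e1 (norm_nonneg _)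
    linarith

/-- products of small real elements with the half of a point of the domain -/
theorem bc_mem_dom {D : LogData m} {εg δ r τ r' τ' ρ : ℝ} (ch : Chart L D εg δ) (e0 : 0 ≤ εg)
    (Z W : gC L) (hZ : Z ∈ dom L r' τ') (hW : ‖W‖ < ρ) (hδ : r' + τ' ≤ δ) (hδ2 : ρ ≤ δ)
    (h1 : r' / 2 + (1 + εg) * ρ ≤ r) (h2 : τ' / 2 + (1 + εg) * ρ ≤ τ) (hr' : 0 < r') (hτ' : 0 < τ') :
    bc L D ((1 / 2 : ℂ) • Z) W ∈ dom L r τ := by
  have hZn : ‖(Z : Mt m)‖ < r' + τ' := (norm_le_reP_imP _).trans_lt (add_lt_add hZ.1 hZ.2)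
  have hZ2 : ‖(1 / 2 : ℂ) • Z‖ < δ := by
    rw [norm_half']
    have : ‖Z‖ < r' + τ' := hZn
    have := norm_nonneg Z
    linarith
  have hb := bc_sub_right ch hZ2 (hW.trans_le hδ2)
  set E : Mt m := ((bc L D ((1 / 2 : ℂ) • Z) W : gC L) : Mt m) - (1 / 2 : ℂ) • (Z : Mt m) - (W : Mt m)
    with hE
  have hEn : ‖E‖ ≤ εg * ‖W‖ := hb
  have hW' : ‖(W : Mt m)‖ < ρ := hW
  have hWn : ‖(W : Mt m)‖ = ‖W‖ := rfl
  have hsum : ((bc L D ((1 / 2 : ℂ) • Z) W : gC L) : Mt m) = E + (1 / 2 : ℂ) • (Z : Mt m) + (W : Mt m) := by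
    rw [hE]; abel
  have hEW : ‖E‖ ≤ εg * ρ := hEn.trans (mul_le_mul_of_nonneg_left hW.le e0)
  refine ⟨?_, ?_⟩
  · rw [hsum, reP_add, reP_add, reP_half]
    refine (norm_add_le _ _).trans_lt ?_
    have a1 := norm_add_le (reP E) ((1 / 2 : ℂ) • reP (Z : Mt m))
    rw [norm_half] at a1
    have a2 := norm_reP_le E
    have a3 := norm_reP_le (W : Mt m)
    have a4 := hZ.1
    nlinarith
  · rw [hsum, imP_add, imP_add, imP_half]
    refine (norm_add_le _ _).trans_lt ?_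
    have a1 := norm_add_le (imP E) ((1 / 2 : ℂ) • imP (Z : Mt m))
    rw [norm_half] at a1
    have a2 := norm_imP_le E
    have a3 := norm_imP_le (W : Mt m)
    have a4 := hZ.2
    nlinarith

end

end Pool.Agent.T2H04.HY
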