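import Mathlib
import Pool.Agent.T2H04.HY.Conv1
import Pool.Agent.T2H04.HY.Ub

/-!
# The convolution step: pointwise estimates of the integrand
-/

open MeasureTheory Matrix Filter
open scoped Matrix.Norms.Frobenius Topology

namespace Pool.Agent.T2H04.HY

set_option linter.unusedSectionVars false

noncomputable section

variable {G : Type} [Group G] [TopologicalSpace G] [IsTopologicalGroup G] [CompactSpace G]
  {m : Type} [Fintype m] [DecidableEq m] {L : RD G m}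

/-- the small field representation -/
structure SFw (L : RD G m) (F : Mt m → ℂ) (t A r τ : ℝ) (w : gC L → ℂ) : Prop where
  diff : DifferentiableOn ℂ w (dom L r τ)
  even : ∀ Z ∈ dom L r τ, w (-Z) = w Z
  ad : ∀ g : G, ∀ Z ∈ dom L r τ, ∀ Z' : gC L, (Z' : Mt m) = L.rho g * (Z : Mt m) * L.rho g⁻¹ →
    w Z' = w Z
  real : ∀ Z ∈ dom L r τ, imP (Z : Mt m) = 0 → (w Z).im = 0
  le : ∀ Z ∈ dom L r τ, ‖w Z‖ ≤ A * ‖Z‖ ^ 4
  eq : ∀ Z ∈ dom L r τ, F (NormedSpace.exp (Z : Mt m)) =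
    F 1 * Complex.exp (-(Qf (Z : Mt m) / (2 * t)) - w Z)

theorem Cls.sf {F : Mt m → ℂ} {t A r τ s b ε : ℝ} (cl : Cls L F t A r τ s b ε) :
    ∃ w, SFw L F t A r τ w := by
  obtain ⟨w, h1, h2, h3, h4, h5, h6⟩ := cl.small
  exact ⟨w, h1, h2, h3, h4, h5, h6⟩

theorem SFw.zero {F : Mt m → ℂ} {t A r τ : ℝ} {w : gC L → ℂ} (hw : SFw L F t A r τ w)
    (hr : 0 < r) (hτ : 0 < τ) : w 0 = 0 := by
  have := hw.le 0 (zero_mem_dom hr hτ)
  rw [norm_zero] at this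
  norm_num at this
  exact this

/-- second difference of the quartic part -/
theorem sdf_w_le {D : LogData m} {εg δ r0 r s b r' : ℝ} (P : Par L D εg δ r0 r s b r')
    {F : Mt m → ℂ} {t A : ℝ} {w : gC L → ℂ} (hw : SFw L F t A r (r0 / 4) w) (hA : 0 ≤ A)
    (Z η : gC L) (hZ : Z ∈ dom L r' (r0 / 4)) (hη : imP (η : Mt m) = 0) (hη1 : ‖η‖ < r0 / 16) :
    ‖sdf D w Z η‖ ≤ 73728 * A * ‖Z‖ ^ 2 * ‖η‖ ^ 2 := by
  have hr0 := P.r0_pos
  have hrl := P.r_lo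
  have hrh := P.r_hi
  have hrl' := P.r'_lo
  have hrh' := P.r'_hi
  have hδ := P.r0_δ
  have h2 := P.h2
  have he0 := P.e0
  have he1 := P.e1
  have hnd : ∀ Z ∈ dom L r (r0 / 4), ‖Z‖ < 5 / 4 * r0 := fun Z hZ =>
    norm_lt_dom hZ (by positivity) (by nlinarith)
  have hnd' : ∀ Z ∈ dom L r' (r0 / 4), ‖Z‖ < 5 / 4 * r0 := fun Z hZ =>
    norm_lt_dom hZ (by positivity) (by nlinarith)
  have key := sdf_le P.ch (V := w) (U := dom L r (r0 / 4)) (Zs := dom L r' (r0 / 4))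
    (M := 3 * A * r0 ^ 4) (ρ1 := r0 / 16) (ρ2 := r0 / 4) (isOpen_dom L _ _) hw.diff ?_ hw.even
    hw.ad (hw.zero (by linarith) (by positivity)) (by positivity) (by positivity)
    (ball_sub_dom (by linarith) le_rfl) (fun Z hZ => (hnd' Z hZ).trans_le (by linarith))
    (by linarith) (fun Z hZ => (hnd Z hZ).trans_le (by linarith)) (fun Z hZ => dom_neg hZ) ?_
    Z hZ η hη hη1
  · refine key.trans (le_of_eq ?_)
    have : ∀ x y c : ℝ, 0 < c → 6 * (3 * A * c ^ 4) * (y / (c / 16)) ^ 2 * (x / (c / 4)) ^ 2 =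
        73728 * A * x ^ 2 * y ^ 2 := by
      intro x y c hc
      field_simp
      ring
    exact this _ _ _ hr0
  · intro Z hZ
    refine (hw.le Z hZ).trans ?_
    have h1 : ‖Z‖ ^ 4 ≤ (5 / 4 * r0) ^ 4 := pow_le_pow_left₀ (norm_nonneg _) (hnd Z hZ).le 4
    have h3 : (5 / 4 * r0) ^ 4 ≤ 3 * r0 ^ 4 := by
      have : 0 ≤ r0 ^ 4 := by positivity
      nlinarith
    calc A * ‖Z‖ ^ 4 ≤ A * (3 * r0 ^ 4) := mul_le_mul_of_nonneg_left (h1.trans h3) hA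
      _ = 3 * A * r0 ^ 4 := by ring
  · intro Z hZ
    refine ⟨?_, fun W hW => ⟨?_, ?_⟩⟩
    · refine ⟨?_, ?_⟩
      · rw [coe_half, reP_half, norm_half]
        have := hZ.1
        linarith
      · rw [coe_half, imP_half, norm_half]
        have := hZ.2
        linarith
    · exact bc_mem_dom P.ch he0 Z W hZ hW (by linarith) (by linarith) (by nlinarith)
        (by nlinarith) (by linarith) (by positivity)
    · exact ball_sub_dom (ρ := r0 / 16) (by linarith) (by linarith)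
        (by rwa [mem_ball_zero_iff])

theorem cexp_sub_one_le (z : ℂ) : ‖Complex.exp z - 1‖ ≤ ‖z‖ * Real.exp ‖z‖ := by
  have := Complex.norm_exp_sub_sum_le_norm_mul_exp z 1
  simpa using this

/-- arithmetic of the inner estimate -/
theorem inner_arith {t A n2 d2 Z2 W δ K S r0 : ℝ} (ht : 0 < t) (hAt : A * t ≤ 1 / 10)
    (hn : 0 ≤ n2) (hd : 0 ≤ d2) (h1 : n2 ≤ 101 / 100 * d2) (h2 : d2 ≤ 101 / 100 * n2)
    (hZ : 0 ≤ Z2) (hr0 : 0 < r0) (hr1 : r0 ≤ 1 / 2000)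
    (hn2 : n2 ≤ (r0 / 16) ^ 2) (hW : -W ≤ A * n2 ^ 2) (hδ : 100 * r0 ≤ δ)
    (hZ2 : Z2 ≤ 2 * r0 ^ 2) (hK : K = 192 / δ ^ 2 + 7400) (hS0 : 0 ≤ S)
    (hS : S ≤ K * Z2 * (n2 / t)) :
    Real.exp (2 * (-(n2 / (2 * t)) - W)) * (S * Real.exp S) ≤
      101 / 100 * K * Z2 * (d2 / t) * Real.exp (-(d2 / (2 * t))) := by
  have hδ0 : 0 < δ := by linarith
  have hK0 : 0 < K := by rw [hK]; positivity
  have hKZ : K * Z2 ≤ 1 / 10 := by
    have e1 : K * Z2 ≤ K * (2 * r0 ^ 2) := mul_le_mul_of_nonneg_left hZ2 hK0.le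
    have e2 : 192 / δ ^ 2 * (2 * r0 ^ 2) ≤ 384 / 10000 := by
      rw [div_mul_eq_mul_div, div_le_div_iff₀ (by positivity) (by norm_num)]
      have : (100 * r0) ^ 2 ≤ δ ^ 2 := pow_le_pow_left₀ (by positivity) hδ 2
      nlinarith
    have e3 : r0 ^ 2 ≤ (1 / 2000) ^ 2 := pow_le_pow_left₀ hr0.le hr1 2
    have e4 : K * (2 * r0 ^ 2) = 192 / δ ^ 2 * (2 * r0 ^ 2) + 7400 * (2 * r0 ^ 2) := by
      rw [hK]; ring
    linarith
  have hu : 0 ≤ n2 / t := by positivity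
  have hS1 : S ≤ 1 / 10 * (n2 / t) := hS.trans (mul_le_mul_of_nonneg_right hKZ hu)
  have hW2 : A * n2 ^ 2 ≤ 1 / 1000 * (n2 / t) := by
    have e1 : A * n2 ^ 2 = (A * t) * n2 * (n2 / t) := by field_simp
    have e3 : (r0 / 16) ^ 2 ≤ (1 / 2000 / 16) ^ 2 :=
      pow_le_pow_left₀ (by positivity) (by linarith) 2
    have e2 : (A * t) * n2 ≤ 1 / 1000 := by
      have : n2 ≤ 1 / 1000 := by
        refine hn2.trans (e3.trans (by norm_num))
      by_cases hA : 0 ≤ A * t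
      · nlinarith
      · nlinarith
    rw [e1]
    exact mul_le_mul_of_nonneg_right e2 hu
  have hhalf : n2 / (2 * t) = (n2 / t) / 2 := by field_simp
  have hhalf2 : d2 / (2 * t) = (d2 / t) / 2 := by field_simp
  have hd2 : d2 / t ≤ 101 / 100 * (n2 / t) := by
    rw [← mul_div_assoc]; exact div_le_div_of_nonneg_right h2 ht.le
  have hexp : Real.exp (2 * (-(n2 / (2 * t)) - W)) * Real.exp S ≤
      Real.exp (-(d2 / (2 * t))) := by
    rw [← Real.exp_add]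
    apply Real.exp_le_exp.2
    rw [hhalf, hhalf2]
    linarith
  have hn' : n2 / t ≤ 101 / 100 * (d2 / t) := by
    rw [← mul_div_assoc]; exact div_le_div_of_nonneg_right h1 ht.le
  have hKZ0 : 0 ≤ K * Z2 := by positivity
  calc Real.exp (2 * (-(n2 / (2 * t)) - W)) * (S * Real.exp S)
      = S * (Real.exp (2 * (-(n2 / (2 * t)) - W)) * Real.exp S) := by ring
    _ ≤ S * Real.exp (-(d2 / (2 * t))) := mul_le_mul_of_nonneg_left hexp hS0
    _ ≤ (K * Z2 * (101 / 100 * (d2 / t))) * Real.exp (-(d2 / (2 * t))) :=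
        mul_le_mul_of_nonneg_right (hS.trans (mul_le_mul_of_nonneg_left hn' hKZ0))
          (Real.exp_pos _).le
    _ = 101 / 100 * K * Z2 * (d2 / t) * Real.exp (-(d2 / (2 * t))) := by ring

/-- the small field part of the integrand -/
theorem inner {D : LogData m} {εg δ r0 r s b r' : ℝ} (P : Par L D εg δ r0 r s b r')
    {F : Mt m → ℂ} {t A : ℝ} (cl : Cls L F t A r (r0 / 4) s b (1 / 10000)) {w : gC L → ℂ}
    (hw : SFw L F t A r (r0 / 4) w) (ht : 0 < t) (hA : 0 ≤ A) (hAt : A * t ≤ 1 / 10)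
    (Z : gC L) (hZ : Z ∈ dom L r' (r0 / 4)) (y : G) (hy : dis L y < r0 / 20) :
    ‖F (NormedSpace.exp ((1 / 2 : ℂ) • (Z : Mt m)) * L.rho y) *
        F (NormedSpace.exp ((1 / 2 : ℂ) • (Z : Mt m)) * L.rho y⁻¹) *
        Complex.exp (2 * (Qf ((1 / 2 : ℂ) • (Z : Mt m)) / (2 * t) + w ((1 / 2 : ℂ) • Z))) -
      F (L.rho y) * F (L.rho y)‖ ≤
      (F 1).re ^ 2 * (101 / 100 * (192 / δ ^ 2 + 7400) * ‖Z‖ ^ 2 * (dis L y ^ 2 / t) *
        Real.exp (-(dis L y ^ 2 / (2 * t)))) := by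
  have hr0 := P.r0_pos
  have hr01 := P.r0_le
  have hrl := P.r_lo
  have hrh := P.r_hi
  have hrl' := P.r'_lo
  have hrh' := P.r'_hi
  have hδ := P.r0_δ
  have h2 := P.h2
  have he0 := P.e0
  have he1 := P.e1
  obtain ⟨hη, hηe, hη1, hη2⟩ := P.ch.lgm y (by linarith)
  set η : gC L := ⟨D.lg (L.rho y), gC_of_lie L hη⟩ with hηd
  have hηc : (η : Mt m) = D.lg (L.rho y) := rfl
  have hηn : ‖η‖ = ‖D.lg (L.rho y)‖ := rfl
  have hηim : imP (η : Mt m) = 0 := imP_of_skew (lie_skew L hη)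
  have hd0 : 0 ≤ dis L y := norm_nonneg _
  have hη16 : ‖η‖ < r0 / 16 := by
    rw [hηn]; nlinarith
  have hbc : ∀ η' : gC L, ‖η'‖ < r0 / 16 → bc L D ((1 / 2 : ℂ) • Z) η' ∈ dom L r (r0 / 4) :=
    fun η' h => bc_mem_dom P.ch he0 Z η' hZ h (by linarith) (by linarith) (by nlinarith)
      (by nlinarith) (by linarith) (by positivity)
  have hZn : ‖Z‖ < 5 / 4 * r0 := norm_lt_dom hZ (by positivity) (by nlinarith)
  have hZ2 : ‖(1 / 2 : ℂ) • Z‖ < δ := by rw [norm_half']; linarith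
  have hηδ : ‖η‖ < δ := by linarith
  have hnη : ‖-η‖ < r0 / 16 := by rwa [norm_neg]
  have hηdom : η ∈ dom L r (r0 / 4) := ball_sub_dom (ρ := r0 / 16) (by linarith) (by linarith)
    (by rwa [mem_ball_zero_iff])
  -- exponentials
  have ey : L.rho y = NormedSpace.exp (η : Mt m) := hηe.symm
  have ey' : L.rho y⁻¹ = NormedSpace.exp ((-η : gC L) : Mt m) := by
    have h3 : L.rho y⁻¹ * (L.rho y * NormedSpace.exp (-(η : Mt m))) = L.rho y⁻¹ := by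
      rw [ey, exp_mul_exp_neg, mul_one]
    rw [← mul_assoc, rho_inv_mul, one_mul] at h3
    rw [NegMemClass.coe_neg]
    exact h3.symm
  have e1 : NormedSpace.exp ((1 / 2 : ℂ) • (Z : Mt m)) * L.rho y =
      NormedSpace.exp ((bc L D ((1 / 2 : ℂ) • Z) η : gC L) : Mt m) := by
    rw [exp_bc P.ch hZ2 hηδ, ey]; rfl
  have e2 : NormedSpace.exp ((1 / 2 : ℂ) • (Z : Mt m)) * L.rho y⁻¹ =
      NormedSpace.exp ((bc L D ((1 / 2 : ℂ) • Z) (-η) : gC L) : Mt m) := by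
    rw [exp_bc P.ch hZ2 (by rwa [norm_neg]), ey']; rfl
  rw [e1, e2, hw.eq _ (hbc η hη16), hw.eq _ (hbc (-η) hnη), ey, hw.eq η hηdom]
  -- the second difference
  set S : ℂ := sdf D (fun Z : gC L => Qf (Z : Mt m)) Z η / (2 * t) + sdf D w Z η with hS
  have hSn : ‖S‖ ≤ (192 / δ ^ 2 + 7400) * ‖Z‖ ^ 2 * (‖η‖ ^ 2 / t) := by
    have a1 := sdf_Q_le P.ch he0 he1 Z η (by linarith) hηim (by linarith)
    have a2 := sdf_w_le P hw hA Z η hZ hηim hη16
    have a3 : ‖sdf D (fun Z : gC L => Qf (Z : Mt m)) Z η / (2 * t)‖ =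
        ‖sdf D (fun Z : gC L => Qf (Z : Mt m)) Z η‖ / (2 * t) := by
      rw [norm_div]
      congr 1
      rw [norm_mul, Complex.norm_real, Real.norm_eq_abs, abs_of_pos ht]
      simp
    have a4 : ‖sdf D (fun Z : gC L => Qf (Z : Mt m)) Z η‖ / (2 * t) ≤
        384 / δ ^ 2 * ‖Z‖ ^ 2 * ‖η‖ ^ 2 / (2 * t) :=
      div_le_div_of_nonneg_right a1 (by positivity)
    have a5 : 384 / δ ^ 2 * ‖Z‖ ^ 2 * ‖η‖ ^ 2 / (2 * t) =
        192 / δ ^ 2 * ‖Z‖ ^ 2 * (‖η‖ ^ 2 / t) := by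
      have : ∀ x y z : ℝ, 384 / z * x * y / (2 * t) = 192 / z * x * (y / t) := by
        intro x y z; ring
      exact this _ _ _
    have a6 : 73728 * A * ‖Z‖ ^ 2 * ‖η‖ ^ 2 ≤ 7400 * ‖Z‖ ^ 2 * (‖η‖ ^ 2 / t) := by
      have b1 : ∀ x y : ℝ, 0 ≤ x → 0 ≤ y → 73728 * A * x * y ≤ 7400 * x * (y / t) := by
        intro x y hx hy
        rw [mul_div_assoc', le_div_iff₀ ht]
        have : 0 ≤ x * y := by positivity
        nlinarith
      exact b1 _ _ (by positivity) (by positivity)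
    rw [hS]
    refine (norm_add_le _ _).trans ?_
    rw [a3]
    have : (192 / δ ^ 2 + 7400) * ‖Z‖ ^ 2 * (‖η‖ ^ 2 / t) =
        192 / δ ^ 2 * ‖Z‖ ^ 2 * (‖η‖ ^ 2 / t) + 7400 * ‖Z‖ ^ 2 * (‖η‖ ^ 2 / t) := by ring
    rw [this]
    linarith
  have hfac : F 1 * Complex.exp (-(Qf ((bc L D ((1 / 2 : ℂ) • Z) η : gC L) : Mt m) / (2 * t)) -
        w (bc L D ((1 / 2 : ℂ) • Z) η)) *
      (F 1 * Complex.exp (-(Qf ((bc L D ((1 / 2 : ℂ) • Z) (-η) : gC L) : Mt m) / (2 * t)) -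
        w (bc L D ((1 / 2 : ℂ) • Z) (-η)))) *
      Complex.exp (2 * (Qf ((1 / 2 : ℂ) • (Z : Mt m)) / (2 * t) + w ((1 / 2 : ℂ) • Z))) -
      F 1 * Complex.exp (-(Qf (η : Mt m) / (2 * t)) - w η) *
        (F 1 * Complex.exp (-(Qf (η : Mt m) / (2 * t)) - w η)) =
      F 1 ^ 2 * (Complex.exp (-(Qf (η : Mt m) / (2 * t)) - w η) ^ 2 *
        (Complex.exp (-S) - 1)) := by
    have b1 : Complex.exp (-(Qf ((bc L D ((1 / 2 : ℂ) • Z) η : gC L) : Mt m) / (2 * t)) -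
        w (bc L D ((1 / 2 : ℂ) • Z) η)) *
        Complex.exp (-(Qf ((bc L D ((1 / 2 : ℂ) • Z) (-η) : gC L) : Mt m) / (2 * t)) -
        w (bc L D ((1 / 2 : ℂ) • Z) (-η))) *
        Complex.exp (2 * (Qf ((1 / 2 : ℂ) • (Z : Mt m)) / (2 * t) + w ((1 / 2 : ℂ) • Z))) =
        Complex.exp (-(Qf (η : Mt m) / (2 * t)) - w η) ^ 2 * Complex.exp (-S) := by
      rw [← Complex.exp_add, ← Complex.exp_add, ← Complex.exp_nat_mul, ← Complex.exp_add]
      congr 1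
      rw [hS]
      simp only [sdf, coe_half]
      push_cast
      ring
    linear_combination (F 1) ^ 2 * b1
  rw [hfac, norm_mul, norm_pow, cls_normF1 cl]
  refine mul_le_mul_of_nonneg_left ?_ (by positivity)
  rw [norm_mul, norm_pow, norm_cexp_form]
  have hexp := cexp_sub_one_le (-S)
  rw [norm_neg] at hexp
  have hQre : (Qf (η : Mt m)).re = ‖η‖ ^ 2 := by
    rw [Qf_re, hηim, norm_zero]
    have : reP (η : Mt m) = (η : Mt m) := reP_of_skew (lie_skew L hη)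
    rw [this]
    have : ‖(η : Mt m)‖ = ‖η‖ := rfl
    rw [this]
    ring
  rw [hQre, ← Real.exp_nat_mul]
  have hWle : -(w η).re ≤ A * (‖η‖ ^ 2) ^ 2 := by
    have b1 : -(w η).re ≤ ‖w η‖ := (neg_le_abs _).trans (Complex.abs_re_le_norm _)
    have b2 := hw.le η hηdom
    have b3 : (‖η‖ ^ 2) ^ 2 = ‖η‖ ^ 4 := by ring
    rw [b3]
    exact b1.trans b2
  have hηlo : ‖η‖ ^ 2 ≤ 101 / 100 * dis L y ^ 2 := by
    have : ‖η‖ ^ 2 ≤ ((1 + εg) * dis L y) ^ 2 := pow_le_pow_left₀ (norm_nonneg _) hη1 2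
    have h3 : (1 + εg) ^ 2 ≤ 101 / 100 := by nlinarith
    rw [mul_pow] at this
    nlinarith [sq_nonneg (dis L y)]
  have hηhi : dis L y ^ 2 ≤ 101 / 100 * ‖η‖ ^ 2 := by
    have : dis L y ^ 2 ≤ ((1 + εg) * ‖η‖) ^ 2 := pow_le_pow_left₀ hd0 hη2 2
    have h3 : (1 + εg) ^ 2 ≤ 101 / 100 := by nlinarith
    rw [mul_pow] at this
    nlinarith [sq_nonneg ‖η‖]
  have hfin := inner_arith (Z2 := ‖Z‖ ^ 2) ht hAt (sq_nonneg ‖η‖) (sq_nonneg (dis L y)) hηlo hηhi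
    (sq_nonneg _) hr0 hr01 (pow_le_pow_left₀ (norm_nonneg _) hη16.le 2) hWle hδ
    (by
      have := pow_le_pow_left₀ (norm_nonneg _) hZn.le 2
      nlinarith) rfl (norm_nonneg S) hSn
  refine le_trans ?_ hfin
  have hcast : ((2 : ℕ) : ℝ) = 2 := by norm_num
  rw [hcast]
  exact mul_le_mul_of_nonneg_left hexp (Real.exp_pos _).le

end

end Pool.Agent.T2H04.HY
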