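import Mathlib
import Pool.Agent.T2H04.HY.Bnd
import Pool.Agent.T2H04.HY.Conv2

/-!
# The convolution step: large field part of the integrand
-/

open MeasureTheory Matrix Filter
open scoped Matrix.Norms.Frobenius Topology

namespace Pool.Agent.T2H04.HY

set_option linter.unusedSectionVars false

noncomputable section

variable {G : Type} [Group G] [TopologicalSpace G] [IsTopologicalGroup G] [CompactSpace G]
  {m : Type} [Fintype m] [DecidableEq m] {L : RD G m}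

theorem min_add_min {b x y : ℝ} (hb : 0 ≤ b) (hx : 0 ≤ x) (hy : 0 ≤ y) :
    min b (x + y) ≤ min b x + min b y := by
  rcases le_total b x with h1 | h1
  · rw [min_eq_left h1]
    have : 0 ≤ min b y := le_min hb hy
    exact (min_le_left _ _).trans (by linarith)
  · rw [min_eq_right h1]
    rcases le_total b y with h2 | h2
    · rw [min_eq_left h2]
      exact (min_le_left _ _).trans (by linarith)
    · rw [min_eq_right h2]
      exact min_le_right _ _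

/-- arithmetic of the outer estimate -/
theorem outer_arith {t A x2 h2 a1 a2 q d2 b r0 W : ℝ} (ht : 0 < t) (hAt : A * t ≤ 1 / 10)
    (hA : 0 ≤ A) (hr0 : 0 < r0) (hr1 : r0 ≤ 1 / 2000) (hx0 : 0 ≤ x2) (hh0 : 0 ≤ h2)
    (hx : x2 ≤ 36 / 25 * r0 ^ 2) (hh : h2 ≤ 1 / 16 * r0 ^ 2) (hb : x2 / 2 + r0 ^ 2 / 20 ≤ b)
    (ha1 : 0 ≤ a1) (ha2 : 0 ≤ a2) (hpar : 2 * q + d2 ≤ a1 + a2)
    (hq : (1 - 1 / 100000) * (x2 / 4) ≤ q) (hd : r0 ^ 2 / 400 ≤ d2)
    (hW : W ≤ A * ((x2 + h2) / 4) ^ 2) :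
    -((min b ((1 - 1 / 10000) * a1) - (1 + 1 / 10000) * (h2 / 4)) / (2 * t)) +
      -((min b ((1 - 1 / 10000) * a2) - (1 + 1 / 10000) * (h2 / 4)) / (2 * t)) +
      2 * (((x2 - h2) / 4) / (2 * t) + W) ≤ -(r0 ^ 2 / (1000 * t)) := by
  have hb0 : 0 ≤ b := by
    have : 0 ≤ r0 ^ 2 := sq_nonneg _
    linarith
  have hm := min_add_min hb0 (x := (1 - 1 / 10000) * a1) (y := (1 - 1 / 10000) * a2)
    (by positivity) (by positivity)
  have hr2 : r0 ^ 2 ≤ 1 / 4000000 := by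
    have := pow_le_pow_left₀ hr0.le hr1 2
    norm_num at this ⊢
    linarith
  have hr20 : 0 < r0 ^ 2 := by positivity
  have hlow : x2 / 2 + h2 * 0 + r0 ^ 2 * (22 / 10000) ≤
      min b ((1 - 1 / 10000) * a1 + (1 - 1 / 10000) * a2) := by
    refine le_min (by nlinarith) ?_
    nlinarith
  have hW2 : W * (2 * t) ≤ r0 ^ 2 / 100000 := by
    have e1 : ((x2 + h2) / 4) ^ 2 ≤ (r0 ^ 2 * (1 / 2)) ^ 2 :=
      pow_le_pow_left₀ (by positivity) (by linarith) 2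
    have e2 : W ≤ A * (r0 ^ 2 * (1 / 2)) ^ 2 := hW.trans (mul_le_mul_of_nonneg_left e1 hA)
    have e3 : W * (2 * t) ≤ A * (r0 ^ 2 * (1 / 2)) ^ 2 * (2 * t) :=
      mul_le_mul_of_nonneg_right e2 (by positivity)
    have e4 : A * (r0 ^ 2 * (1 / 2)) ^ 2 * (2 * t) = (A * t) * (r0 ^ 2 * r0 ^ 2 / 2) := by ring
    have e5 : (A * t) * (r0 ^ 2 * r0 ^ 2 / 2) ≤ 1 / 10 * (r0 ^ 2 * r0 ^ 2 / 2) :=
      mul_le_mul_of_nonneg_right hAt (by positivity)
    nlinarith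
  have key : (-(min b ((1 - 1 / 10000) * a1) - (1 + 1 / 10000) * (h2 / 4)) +
      -(min b ((1 - 1 / 10000) * a2) - (1 + 1 / 10000) * (h2 / 4)) +
      (2 * ((x2 - h2) / 4) + 2 * (W * (2 * t)))) ≤ -(r0 ^ 2 / 500) := by
    nlinarith
  have e : -((min b ((1 - 1 / 10000) * a1) - (1 + 1 / 10000) * (h2 / 4)) / (2 * t)) +
      -((min b ((1 - 1 / 10000) * a2) - (1 + 1 / 10000) * (h2 / 4)) / (2 * t)) +
      2 * (((x2 - h2) / 4) / (2 * t) + W) =
      (-(min b ((1 - 1 / 10000) * a1) - (1 + 1 / 10000) * (h2 / 4)) +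
      -(min b ((1 - 1 / 10000) * a2) - (1 + 1 / 10000) * (h2 / 4)) +
      (2 * ((x2 - h2) / 4) + 2 * (W * (2 * t)))) / (2 * t) := by
    field_simp
    try ring
  rw [e]
  have e2 : -(r0 ^ 2 / (1000 * t)) = (-(r0 ^ 2 / 500)) / (2 * t) := by
    field_simp
    try ring
  rw [e2]
  exact div_le_div_of_nonneg_right key (by positivity)

/-- the large field part of the integrand -/
theorem outer {D : LogData m} {εg δ r0 r s b r' : ℝ} (P : Par L D εg δ r0 r s b r')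
    {F : Mt m → ℂ} {t A : ℝ} (cl : Cls L F t A r (r0 / 4) s b (1 / 10000)) {w : gC L → ℂ}
    (hw : SFw L F t A r (r0 / 4) w) (ht : 0 < t) (hA : 0 ≤ A) (hAt : A * t ≤ 1 / 10)
    (Z : gC L) (hZ : Z ∈ dom L r' (r0 / 4)) (y : G) (hy : r0 / 20 ≤ dis L y) :
    ‖F (NormedSpace.exp ((1 / 2 : ℂ) • (Z : Mt m)) * L.rho y) *
        F (NormedSpace.exp ((1 / 2 : ℂ) • (Z : Mt m)) * L.rho y⁻¹) *
        Complex.exp (2 * (Qf ((1 / 2 : ℂ) • (Z : Mt m)) / (2 * t) + w ((1 / 2 : ℂ) • Z)))‖ ≤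
      (F 1).re ^ 2 * Real.exp (-(r0 ^ 2 / (1000 * t))) := by
  have hr0 := P.r0_pos
  have hr01 := P.r0_le
  have hrl := P.r_lo
  have hrh := P.r_hi
  have hrl' := P.r'_lo
  have hrh' := P.r'_hi
  have hδ := P.r0_δ
  have h2 := P.h2
  have he0 := P.e0
  have he1 := P.e1
  set x := ‖reP (Z : Mt m)‖ with hx
  set h := ‖imP (Z : Mt m)‖ with hh
  have hx0 : 0 ≤ x := norm_nonneg _
  have hh0 : 0 ≤ h := norm_nonneg _
  have hxr : x < r' := hZ.1
  have hhr : h < r0 / 4 := hZ.2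
  have ex : ‖reP ((((1 / 2 : ℂ) • Z : gC L)) : Mt m)‖ = x / 2 := by
    rw [coe_half, reP_half, norm_half]
  have eh : ‖imP ((((1 / 2 : ℂ) • Z : gC L)) : Mt m)‖ = h / 2 := by
    rw [coe_half, imP_half, norm_half]
  have U := fun y => ubound P.ch he0 he1 cl ht hA hAt (by linarith) (by linarith) (by linarith)
    (by linarith) (by linarith) P.h1 ((1 / 2 : ℂ) • Z) (by rw [ex]; linarith)
    (by rw [eh]; linarith) y
  have U1 := U y
  have U2 := U y⁻¹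
  rw [eh] at U1 U2
  set a : Mt m := NormedSpace.exp (reP ((((1 / 2 : ℂ) • Z : gC L)) : Mt m)) with ha
  have hskew := reP_skew ((((1 / 2 : ℂ) • Z : gC L)) : Mt m)
  have hau : a * aᴴ = 1 := exp_unitary hskew
  have hel := P.ch.el (reP ((((1 / 2 : ℂ) • Z : gC L)) : Mt m)) 0 (by rw [ex]; linarith)
    (by rw [norm_zero]; linarith)
  rw [NormedSpace.exp_zero, sub_zero, ← ha, ex] at hel
  have ha1 : ‖a - 1‖ ≤ 1 := by
    have := norm_add_le (a - 1 - reP ((((1 / 2 : ℂ) • Z : gC L)) : Mt m))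
      (reP ((((1 / 2 : ℂ) • Z : gC L)) : Mt m))
    rw [sub_add_cancel, ex] at this
    nlinarith
  have ha2 : (1 - εg) * (x / 2) ≤ ‖a - 1‖ := by
    have := norm_sub_le (a - 1) (a - 1 - reP ((((1 / 2 : ℂ) • Z : gC L)) : Mt m))
    rw [sub_sub_cancel, ex] at this
    nlinarith
  have hpar := par_ge (L := L) hau ha1 y
  rw [norm_mul, norm_mul]
  have hVn : ‖Complex.exp (2 * (Qf ((1 / 2 : ℂ) • (Z : Mt m)) / (2 * t) + w ((1 / 2 : ℂ) • Z)))‖ =
      Real.exp (2 * (((x ^ 2 - h ^ 2) / 4) / (2 * t) + (w ((1 / 2 : ℂ) • Z)).re)) := by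
    rw [Complex.norm_exp]
    congr 1
    have e1 : (2 * (t : ℂ)) = ((2 * t : ℝ) : ℂ) := by push_cast; ring
    have e2 : (Qf ((1 / 2 : ℂ) • (Z : Mt m))).re = (x ^ 2 - h ^ 2) / 4 := by
      rw [Qf_re, reP_half, imP_half, norm_half, norm_half]
      ring
    have e3 : ∀ z : ℂ, (2 * z).re = 2 * z.re := by intro z; simp
    rw [e3, Complex.add_re, e1, Complex.div_ofReal_re, e2]
  rw [hVn]
  have hdomhalf : ((1 / 2 : ℂ) • Z : gC L) ∈ dom L r (r0 / 4) :=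
    ⟨by rw [ex]; linarith, by rw [eh]; linarith⟩
  have hWle : (w ((1 / 2 : ℂ) • Z)).re ≤ A * ((x ^ 2 + h ^ 2) / 4) ^ 2 := by
    have b1 : (w ((1 / 2 : ℂ) • Z)).re ≤ ‖w ((1 / 2 : ℂ) • Z)‖ := Complex.re_le_norm _
    have b2 := hw.le _ hdomhalf
    have b3 : ‖(1 / 2 : ℂ) • Z‖ ^ 4 = ((x ^ 2 + h ^ 2) / 4) ^ 2 := by
      have := norm_sq_gC ((1 / 2 : ℂ) • Z)
      rw [ex, eh] at this
      have e4 : ‖(1 / 2 : ℂ) • Z‖ ^ 4 = (‖(1 / 2 : ℂ) • Z‖ ^ 2) ^ 2 := by ring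
      rw [e4, this]
      ring
    rw [b3] at b2
    exact b1.trans b2
  have hd0 : 0 ≤ dis L y := norm_nonneg _
  have hfin := outer_arith (t := t) (A := A) (x2 := x ^ 2) (h2 := h ^ 2)
    (a1 := ‖a * L.rho y - 1‖ ^ 2) (a2 := ‖a * L.rho y⁻¹ - 1‖ ^ 2) (q := ‖a - 1‖ ^ 2)
    (d2 := dis L y ^ 2) (b := b) (r0 := r0) (W := (w ((1 / 2 : ℂ) • Z)).re) ht hAt hA hr0 hr01
    (sq_nonneg _) (sq_nonneg _)
    (by
      have := pow_le_pow_left₀ hx0 (hxr.le.trans hrh') 2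
      nlinarith)
    (by
      have := pow_le_pow_left₀ hh0 hhr.le 2
      nlinarith)
    (by
      have := pow_le_pow_left₀ hx0 hxr.le 2
      have := P.h3
      linarith) (sq_nonneg _) (sq_nonneg _) hpar
    (by
      have h3 : ((1 - εg) * (x / 2)) ^ 2 ≤ ‖a - 1‖ ^ 2 :=
        pow_le_pow_left₀ (mul_nonneg (by linarith) (by linarith)) ha2 2
      have h4 : (1 - 1 / 100000) ≤ (1 - εg) ^ 2 := by nlinarith
      have h5 : ((1 - εg) * (x / 2)) ^ 2 = (1 - εg) ^ 2 * (x ^ 2 / 4) := by ring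
      rw [h5] at h3
      exact (mul_le_mul_of_nonneg_right h4 (by positivity)).trans h3)
    (by
      have := pow_le_pow_left₀ (by positivity) hy 2
      linarith [this, (by ring : (r0 / 20) ^ 2 = r0 ^ 2 / 400)]) hWle
  have hF1 := cl.pos.le
  have U1' : ‖F (NormedSpace.exp ((1 / 2 : ℂ) • (Z : Mt m)) * L.rho y)‖ ≤ (F 1).re * Real.exp
      (-((min b ((1 - 1 / 10000) * ‖a * L.rho y - 1‖ ^ 2) -
        (1 + 1 / 10000) * (h ^ 2 / 4)) / (2 * t))) := by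
    have : (h / 2) ^ 2 = h ^ 2 / 4 := by ring
    rw [this] at U1
    exact U1
  have U2' : ‖F (NormedSpace.exp ((1 / 2 : ℂ) • (Z : Mt m)) * L.rho y⁻¹)‖ ≤ (F 1).re * Real.exp
      (-((min b ((1 - 1 / 10000) * ‖a * L.rho y⁻¹ - 1‖ ^ 2) -
        (1 + 1 / 10000) * (h ^ 2 / 4)) / (2 * t))) := by
    have : (h / 2) ^ 2 = h ^ 2 / 4 := by ring
    rw [this] at U2
    exact U2
  calc _ ≤ (F 1).re * Real.exp (-((min b ((1 - 1 / 10000) * ‖a * L.rho y - 1‖ ^ 2) -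
        (1 + 1 / 10000) * (h ^ 2 / 4)) / (2 * t))) *
        ((F 1).re * Real.exp (-((min b ((1 - 1 / 10000) * ‖a * L.rho y⁻¹ - 1‖ ^ 2) -
        (1 + 1 / 10000) * (h ^ 2 / 4)) / (2 * t)))) *
        Real.exp (2 * (((x ^ 2 - h ^ 2) / 4) / (2 * t) + (w ((1 / 2 : ℂ) • Z)).re)) :=
        mul_le_mul_of_nonneg_right (mul_le_mul U1' U2' (norm_nonneg _)
          (mul_nonneg hF1 (Real.exp_pos _).le)) (Real.exp_pos _).le
    _ = (F 1).re ^ 2 * Real.exp (-((min b ((1 - 1 / 10000) * ‖a * L.rho y - 1‖ ^ 2) -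
        (1 + 1 / 10000) * (h ^ 2 / 4)) / (2 * t)) +
        -((min b ((1 - 1 / 10000) * ‖a * L.rho y⁻¹ - 1‖ ^ 2) -
        (1 + 1 / 10000) * (h ^ 2 / 4)) / (2 * t)) +
        2 * (((x ^ 2 - h ^ 2) / 4) / (2 * t) + (w ((1 / 2 : ℂ) • Z)).re)) := by
        rw [Real.exp_add, Real.exp_add]; ring
    _ ≤ _ := mul_le_mul_of_nonneg_left (Real.exp_le_exp.2 hfin) (by positivity)

/-- `F` itself is small away from `1` -/
theorem outer0 {D : LogData m} {εg δ r0 r s b r' : ℝ} (P : Par L D εg δ r0 r s b r')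
    {F : Mt m → ℂ} {t A : ℝ} (cl : Cls L F t A r (r0 / 4) s b (1 / 10000))
    (ht : 0 < t) (hA : 0 ≤ A) (hAt : A * t ≤ 1 / 10) (y : G) :
    ‖F (L.rho y)‖ ≤ (F 1).re * Real.exp
      (-(min b ((1 - 1 / 10000) * dis L y ^ 2) / (2 * t))) := by
  have hr0 := P.r0_pos
  have hr01 := P.r0_le
  have hrl := P.r_lo
  have hrh := P.r_hi
  have hδ := P.r0_δ
  have he0 := P.e0
  have he1 := P.e1
  have z1 : ((0 : gC L) : Mt m) = 0 := ZeroMemClass.coe_zero _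
  have z2 : reP (0 : Mt m) = 0 := by
    have := norm_reP_le (0 : Mt m)
    rw [norm_zero] at this
    exact norm_le_zero_iff.1 this
  have z3 : imP (0 : Mt m) = 0 := by
    have := norm_imP_le (0 : Mt m)
    rw [norm_zero] at this
    exact norm_le_zero_iff.1 this
  have U := ubound P.ch he0 he1 cl ht hA hAt (by linarith) (by linarith) (by linarith)
    (by linarith) (by linarith) P.h1 0 (by rw [z1, z2, norm_zero]; linarith)
    (by rw [z1, z3, norm_zero]; linarith) y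
  rw [z1, z2, z3, NormedSpace.exp_zero, one_mul, norm_zero] at U
  have e : ‖L.rho y - 1‖ = dis L y := rfl
  rw [e] at U
  simpa using U

theorem outer1 {D : LogData m} {εg δ r0 r s b r' : ℝ} (P : Par L D εg δ r0 r s b r')
    {F : Mt m → ℂ} {t A : ℝ} (cl : Cls L F t A r (r0 / 4) s b (1 / 10000))
    (ht : 0 < t) (hA : 0 ≤ A) (hAt : A * t ≤ 1 / 10) (y : G) (hy : r0 / 20 ≤ dis L y) :
    ‖F (L.rho y) * F (L.rho y)‖ ≤ (F 1).re ^ 2 * Real.exp (-(r0 ^ 2 / (1000 * t))) := by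
  have hr0 := P.r0_pos
  have h3 := P.h3
  have h := outer0 P cl ht hA hAt y
  have hmin : r0 ^ 2 / 500 ≤ min b ((1 - 1 / 10000) * dis L y ^ 2) := by
    have h4 := pow_le_pow_left₀ (by positivity) hy 2
    refine le_min ?_ ?_
    · nlinarith [sq_nonneg r', sq_nonneg r0]
    · nlinarith [sq_nonneg r0, sq_nonneg (dis L y)]
  have h5 : ‖F (L.rho y)‖ ≤ (F 1).re * Real.exp (-(r0 ^ 2 / 500 / (2 * t))) := by
    refine h.trans (mul_le_mul_of_nonneg_left (Real.exp_le_exp.2 ?_) cl.pos.le)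
    rw [neg_le_neg_iff]
    exact div_le_div_of_nonneg_right hmin (by positivity)
  rw [norm_mul]
  calc ‖F (L.rho y)‖ * ‖F (L.rho y)‖ ≤ ((F 1).re * Real.exp (-(r0 ^ 2 / 500 / (2 * t)))) *
        ((F 1).re * Real.exp (-(r0 ^ 2 / 500 / (2 * t)))) :=
        mul_le_mul h5 h5 (norm_nonneg _) (mul_nonneg cl.pos.le (Real.exp_pos _).le)
    _ = (F 1).re ^ 2 * Real.exp (-(r0 ^ 2 / 500 / (2 * t)) + -(r0 ^ 2 / 500 / (2 * t))) := by
        rw [Real.exp_add]; ring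
    _ ≤ _ := by
        refine mul_le_mul_of_nonneg_left (Real.exp_le_exp.2 ?_) (by positivity)
        have : -(r0 ^ 2 / 500 / (2 * t)) + -(r0 ^ 2 / 500 / (2 * t)) = -(r0 ^ 2 / (500 * t)) := by
          field_simp
          ring
        rw [this, neg_le_neg_iff]
        apply div_le_div_of_nonneg_left (by positivity) (by positivity)
        linarith

end

end Pool.Agent.T2H04.HY
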