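import Mathlib
import Pool.Agent.T2H04.HY.LieG

/-!
# Haar measure of balls and Gaussian integrals
-/

open MeasureTheory Matrix Filter
open scoped Matrix.Norms.Frobenius Topology

namespace Pool.Agent.T2H04.HY

set_option linter.unusedSectionVars false

noncomputable section

namespace HaarAux

variable {m : Type} [Fintype m] [DecidableEq m]

/-- left multiplication by a unitary matrix is isometric -/
theorem norm_unit_mul {U : Mt m} (hU : Uᴴ * U = 1) (A : Mt m) : ‖U * A‖ = ‖A‖ := by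
  have h : ‖U * A‖ ^ 2 = ‖A‖ ^ 2 := by
    rw [norm_sq_eq, norm_sq_eq, conjTranspose_mul, Matrix.mul_assoc, ← Matrix.mul_assoc Uᴴ, hU,
      Matrix.one_mul]
  exact (sq_eq_sq₀ (norm_nonneg _) (norm_nonneg _)).1 h

variable {G : Type} [Group G] [TopologicalSpace G] [CompactSpace G] (L : RD G m)

theorem dis_inv_mul (x y : G) : dis L (x⁻¹ * y) = ‖L.rho y - L.rho x‖ := by
  unfold dis
  have : L.rho (x⁻¹ * y) - 1 = L.rho x⁻¹ * (L.rho y - L.rho x) := by
    rw [mul_sub, ← map_mul, ← map_mul, inv_mul_cancel, map_one]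
  rw [this, norm_unit_mul]
  rw [rho_inv, conjTranspose_conjTranspose, L.unit]

theorem dis_cont : Continuous (dis L) := (L.cont.sub continuous_const).norm

theorem dis_nonneg (y : G) : 0 ≤ dis L y := norm_nonneg _

theorem dis_one : dis L (1 : G) = 0 := by
  unfold dis
  rw [map_one, sub_self, norm_zero]

theorem dis_le (y : G) : dis L y ≤ uB m + ‖(1 : Mt m)‖ := by
  unfold dis
  exact (norm_sub_le _ _).trans (add_le_add (norm_unitary_le (L.unit y)) le_rfl)

end HaarAux

open HaarAux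

variable {G : Type} [Group G] [TopologicalSpace G] [IsTopologicalGroup G] [CompactSpace G]
  [MeasurableSpace G] [BorelSpace G] (μ : Measure G) [μ.IsHaarMeasure] [IsProbabilityMeasure μ]
  {m : Type} [Fintype m] [DecidableEq m] (L : RD G m)

/-- the ball of radius `s` about `1` -/
def bal (s : ℝ) : Set G := {y | dis L y < s}

theorem isOpen_bal (s : ℝ) : IsOpen (bal L s) := isOpen_lt (dis_cont L) continuous_const

theorem bal_mono {s t : ℝ} (h : s ≤ t) : bal L s ⊆ bal L t := fun _ hy => lt_of_lt_of_le hy h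

/-- the measure of the ball of radius `s` about `x` -/
theorem measure_translate (x : G) (s : ℝ) :
    μ.real {y | ‖L.rho y - L.rho x‖ < s} = μ.real (bal L s) := by
  have h : {y : G | ‖L.rho y - L.rho x‖ < s} = (fun y => x⁻¹ * y) ⁻¹' (bal L s) := by
    ext y
    show ‖L.rho y - L.rho x‖ < s ↔ dis L (x⁻¹ * y) < s
    rw [dis_inv_mul]
  rw [h, measureReal_def, measure_preimage_mul, measureReal_def]

/-- Doubling (cover the unit ball of the matrix space by finitely many balls of radius `1/8`, scale,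
and use the invariance of the measure). -/
theorem doubling : ∃ K : ℝ, 1 ≤ K ∧ ∀ s : ℝ, 0 < s → μ.real (bal L (2 * s)) ≤ K * μ.real (bal L s) := by
  classical
  have : ProperSpace (Mt m) := FiniteDimensional.proper ℂ (Mt m)
  obtain ⟨T, -, hTfin, hT⟩ := (isCompact_closedBall (0 : Mt m) 1).finite_cover_balls
    (e := 1 / 8) (by norm_num)
  lift T to Finset (Mt m) using hTfin
  refine ⟨max 1 (T.card : ℝ), le_max_left _ _, fun s hs => ?_⟩
  set A : Mt m → Set G := fun t => {y | ‖((2 * s)⁻¹ : ℝ) • (L.rho y - 1) - t‖ < 1 / 8} with hAd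
  have hcov : bal L (2 * s) ⊆ ⋃ t ∈ T, A t := by
    intro y hy
    have hy' : ‖L.rho y - 1‖ < 2 * s := hy
    have h1 : ((2 * s)⁻¹ : ℝ) • (L.rho y - 1) ∈ Metric.closedBall (0 : Mt m) 1 := by
      rw [mem_closedBall_zero_iff, norm_smul, Real.norm_of_nonneg (by positivity)]
      rw [inv_mul_le_iff₀ (by positivity)]
      linarith
    have h2 := hT h1
    simp only [Set.mem_iUnion, Metric.mem_ball, dist_eq_norm, Finset.mem_coe] at h2
    obtain ⟨t, ht, h3⟩ := h2
    exact Set.mem_iUnion₂.2 ⟨t, ht, h3⟩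
  have hA : ∀ t, μ.real (A t) ≤ μ.real (bal L s) := by
    intro t
    by_cases hne : (A t).Nonempty
    · obtain ⟨y0, hy0⟩ := hne
      have hsub : A t ⊆ {y | ‖L.rho y - L.rho y0‖ < s} := by
        intro y hy
        have e1 : ‖((2 * s)⁻¹ : ℝ) • (L.rho y - 1) - t‖ < 1 / 8 := hy
        have e2 : ‖((2 * s)⁻¹ : ℝ) • (L.rho y0 - 1) - t‖ < 1 / 8 := hy0
        show ‖L.rho y - L.rho y0‖ < s
        have e3 : L.rho y - L.rho y0 = (2 * s) • ((((2 * s)⁻¹ : ℝ) • (L.rho y - 1) - t) -
            (((2 * s)⁻¹ : ℝ) • (L.rho y0 - 1) - t)) := by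
          rw [sub_sub_sub_cancel_right, ← smul_sub, smul_smul, mul_inv_cancel₀ (by positivity),
            one_smul, sub_sub_sub_cancel_right]
        rw [e3, norm_smul, Real.norm_of_nonneg (by positivity)]
        have e4 := norm_sub_le (((2 * s)⁻¹ : ℝ) • (L.rho y - 1) - t)
          (((2 * s)⁻¹ : ℝ) • (L.rho y0 - 1) - t)
        have e5 : ‖((((2 * s)⁻¹ : ℝ) • (L.rho y - 1) - t) -
            (((2 * s)⁻¹ : ℝ) • (L.rho y0 - 1) - t))‖ < 1 / 4 := by linarith
        nlinarith
      exact (measureReal_mono hsub).trans (measure_translate μ L y0 s).le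
    · rw [Set.not_nonempty_iff_eq_empty.1 hne, measureReal_empty]
      exact measureReal_nonneg
  calc μ.real (bal L (2 * s)) ≤ μ.real (⋃ t ∈ T, A t) := measureReal_mono hcov (measure_ne_top _ _)
    _ ≤ ∑ t ∈ T, μ.real (A t) := measureReal_biUnion_finset_le T A
    _ ≤ ∑ _t ∈ T, μ.real (bal L s) := Finset.sum_le_sum fun t _ => hA t
    _ = T.card * μ.real (bal L s) := by rw [Finset.sum_const, nsmul_eq_mul]
    _ ≤ max 1 (T.card : ℝ) * μ.real (bal L s) :=
        mul_le_mul_of_nonneg_right (le_max_right _ _) measureReal_nonneg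

theorem bal_pos (s : ℝ) (hs : 0 < s) : 0 < μ.real (bal L s) := by
  have h1 : (1 : G) ∈ bal L s := by
    show dis L 1 < s
    rw [dis_one]; exact hs
  have h2 : 0 < μ (bal L s) := (isOpen_bal L s).measure_pos μ ⟨1, h1⟩
  exact ENNReal.toReal_pos h2.ne' (measure_ne_top _ _)

theorem doubling_pow {K : ℝ} (hK : 1 ≤ K)
    (hd : ∀ s : ℝ, 0 < s → μ.real (bal L (2 * s)) ≤ K * μ.real (bal L s)) (n : ℕ) :
    ∀ s : ℝ, 0 < s → μ.real (bal L (2 ^ n * s)) ≤ K ^ n * μ.real (bal L s) := by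
  induction n with
  | zero => intro s hs; simp
  | succ n ih =>
    intro s hs
    have h1 := hd (2 ^ n * s) (by positivity)
    rw [← mul_assoc, ← pow_succ'] at h1
    refine h1.trans ?_
    rw [pow_succ', mul_assoc]
    exact mul_le_mul_of_nonneg_left (ih s hs) (by linarith)

theorem exists_bal_univ (r : ℝ) (hr : 0 < r) : ∃ N : ℕ, ∀ y : G, dis L y < 2 ^ N * r := by
  obtain ⟨N, hN⟩ := pow_unbounded_of_one_lt ((uB m + ‖(1 : Mt m)‖) / r) (one_lt_two (α := ℝ))
  refine ⟨N, fun y => (dis_le L y).trans_lt ?_⟩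
  rwa [div_lt_iff₀ hr] at hN

/-- polynomial lower bound -/
theorem bal_lower : ∃ c : ℝ, 0 < c ∧ ∃ p : ℕ, ∀ s : ℝ, 0 < s → s ≤ 1 → c * s ^ p ≤ μ.real (bal L s) := by
  obtain ⟨K, hK, hd⟩ := doubling μ L
  obtain ⟨N, hN⟩ := exists_bal_univ L 1 one_pos
  obtain ⟨p, hp⟩ := pow_unbounded_of_one_lt K (one_lt_two (α := ℝ))
  have hK0 : 0 < K := by linarith
  refine ⟨(K ^ (N + 1))⁻¹, by positivity, p, fun s hs hs1 => ?_⟩
  obtain ⟨n, hn1, hn2⟩ := exists_nat_pow_near_of_lt_one hs hs1 (y := (1 / 2 : ℝ)) (by norm_num)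
    (by norm_num)
  have h1 := doubling_pow μ L hK hd (N + (n + 1)) ((1 / 2) ^ (n + 1)) (by positivity)
  have h2 : (2 : ℝ) ^ (N + (n + 1)) * (1 / 2) ^ (n + 1) = 2 ^ N * 1 := by
    rw [pow_add, mul_assoc, ← mul_pow]; norm_num
  rw [h2] at h1
  have h3 : bal L (2 ^ N * 1) = Set.univ := Set.eq_univ_of_forall hN
  rw [h3, probReal_univ] at h1
  have h4 : μ.real (bal L ((1 / 2) ^ (n + 1))) ≤ μ.real (bal L s) :=
    measureReal_mono (bal_mono L hn1.le)
  have h5 : 1 ≤ K ^ (N + (n + 1)) * μ.real (bal L s) :=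
    h1.trans (mul_le_mul_of_nonneg_left h4 (by positivity))
  have h6 : K ^ n * s ^ p ≤ 1 := by
    have e1 : K ^ n ≤ (2 ^ p) ^ n := pow_le_pow_left₀ hK0.le hp.le n
    have e2 : s ^ p ≤ ((1 / 2) ^ n) ^ p := pow_le_pow_left₀ hs.le hn2 p
    calc K ^ n * s ^ p ≤ (2 ^ p) ^ n * ((1 / 2) ^ n) ^ p :=
          mul_le_mul e1 e2 (by positivity) (by positivity)
      _ = 1 := by
          rw [← pow_mul, ← pow_mul, mul_comm n p, ← mul_pow]; norm_num
  rw [inv_mul_le_iff₀ (by positivity)]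
  have h7 : K ^ (N + (n + 1)) = K ^ n * K ^ (N + 1) := by rw [← pow_add]; congr 1; ring
  rw [h7] at h5
  have h8 : 0 < s ^ p := by positivity
  calc s ^ p = s ^ p * 1 := (mul_one _).symm
    _ ≤ s ^ p * (K ^ n * K ^ (N + 1) * μ.real (bal L s)) := mul_le_mul_of_nonneg_left h5 h8.le
    _ = (K ^ n * s ^ p) * (K ^ (N + 1) * μ.real (bal L s)) := by ring
    _ ≤ 1 * (K ^ (N + 1) * μ.real (bal L s)) :=
        mul_le_mul_of_nonneg_right h6 (mul_nonneg (by positivity) measureReal_nonneg)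
    _ = _ := one_mul _

/-- the weights of the dyadic shells -/
def wt (b : ℝ) (n : ℕ) : ℝ := if n = 0 then 1 else Real.exp (-(b * 4 ^ (n - 1)))

theorem wt_nonneg (b : ℝ) (n : ℕ) : 0 ≤ wt b n := by
  unfold wt; split_ifs <;> positivity

theorem wt_summable {b K : ℝ} (hb : 0 < b) (hK : 1 ≤ K) : Summable fun n => wt b n * K ^ n := by
  rw [← summable_nat_add_iff 1]
  have hK0 : 0 < K := by linarith
  have h : ∀ n : ℕ, wt b (n + 1) * K ^ (n + 1) = Real.exp (-(b * 4 ^ n)) * K ^ (n + 1) := by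
    intro n; simp [wt]
  simp only [h]
  refine summable_of_ratio_test_tendsto_lt_one (l := 0) one_pos
    (Eventually.of_forall fun n => by positivity) ?_
  have h2 : ∀ n : ℕ, ‖Real.exp (-(b * 4 ^ (n + 1))) * K ^ (n + 1 + 1)‖ /
      ‖Real.exp (-(b * 4 ^ n)) * K ^ (n + 1)‖ = K * Real.exp (-(3 * b * 4 ^ n)) := by
    intro n
    rw [Real.norm_of_nonneg (by positivity), Real.norm_of_nonneg (by positivity)]
    rw [div_eq_iff (by positivity)]
    have : Real.exp (-(b * 4 ^ (n + 1))) = Real.exp (-(3 * b * 4 ^ n)) *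
        Real.exp (-(b * 4 ^ n)) := by
      rw [← Real.exp_add]; congr 1; ring
    rw [this]; ring
  simp only [h2]
  rw [← mul_zero K]
  refine Tendsto.const_mul K (Real.tendsto_exp_neg_atTop_nhds_zero.comp ?_)
  exact (tendsto_pow_atTop_atTop_of_one_lt (by norm_num : (1 : ℝ) < 4)).const_mul_atTop
    (by positivity)

theorem gauss_le (b : ℝ) (hb : 0 < b) : ∃ C : ℝ, 0 < C ∧ ∀ t : ℝ, 0 < t →
    ∫ y, Real.exp (-(b * (dis L y ^ 2 / t))) ∂μ ≤ C * μ.real (bal L (Real.sqrt t)) := by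
  obtain ⟨K, hK, hd⟩ := doubling μ L
  have hK0 : 0 < K := by linarith
  have hsum := wt_summable hb hK
  have hnn : ∀ n, 0 ≤ wt b n * K ^ n := fun n => mul_nonneg (wt_nonneg b n) (by positivity)
  refine ⟨∑' n, wt b n * K ^ n, hsum.tsum_pos hnn 0 (by simp [wt]), fun t ht => ?_⟩
  have hst : 0 < Real.sqrt t := Real.sqrt_pos.2 ht
  obtain ⟨N, hN⟩ := exists_bal_univ L (Real.sqrt t) hst
  set B : ℕ → Set G := fun n => bal L (2 ^ n * Real.sqrt t) with hB
  have hpt : ∀ y, Real.exp (-(b * (dis L y ^ 2 / t))) ≤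
      ∑ n ∈ Finset.range (N + 1), (B n).indicator (fun _ => wt b n) y := by
    intro y
    have hterm : ∀ n ∈ Finset.range (N + 1), 0 ≤ (B n).indicator (fun _ => wt b n) y := by
      intro n _
      exact Set.indicator_nonneg (fun _ _ => wt_nonneg b n) _
    by_cases hy : dis L y < Real.sqrt t
    · have h0 : (B 0).indicator (fun _ => wt b 0) y = 1 := by
        rw [Set.indicator_of_mem]
        · simp [wt]
        · show dis L y < 2 ^ 0 * Real.sqrt t
          simpa using hy
      refine le_trans ?_ (Finset.single_le_sum hterm (Finset.mem_range.2 (Nat.succ_pos N)))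
      rw [h0]
      refine Real.exp_le_one_iff.2 ?_
      have : 0 ≤ b * (dis L y ^ 2 / t) := by positivity
      linarith
    · push Not at hy
      have h1 : 1 ≤ dis L y / Real.sqrt t := by rwa [le_div_iff₀ hst, one_mul]
      obtain ⟨n, hn1, hn2⟩ := exists_nat_pow_near h1 (one_lt_two (α := ℝ))
      rw [le_div_iff₀ hst] at hn1
      rw [div_lt_iff₀ hst] at hn2
      have hnN : n < N := by
        have : (2 : ℝ) ^ n * Real.sqrt t < 2 ^ N * Real.sqrt t := hn1.trans_lt (hN y)
        have h3 := lt_of_mul_lt_mul_right this hst.le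
        exact (pow_lt_pow_iff_right₀ (one_lt_two (α := ℝ))).1 h3
      have h0 : (B (n + 1)).indicator (fun _ => wt b (n + 1)) y = Real.exp (-(b * 4 ^ n)) := by
        rw [Set.indicator_of_mem]
        · simp [wt]
        · exact hn2
      refine le_trans ?_ (Finset.single_le_sum hterm
        (Finset.mem_range.2 (Nat.succ_lt_succ hnN)))
      rw [h0]
      refine Real.exp_le_exp.2 (neg_le_neg (mul_le_mul_of_nonneg_left ?_ hb.le))
      rw [le_div_iff₀ ht]
      have h5 : (2 ^ n * Real.sqrt t) ^ 2 ≤ dis L y ^ 2 := pow_le_pow_left₀ (by positivity) hn1 2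
      have h6 : (2 ^ n * Real.sqrt t) ^ 2 = 4 ^ n * t := by
        rw [mul_pow, Real.sq_sqrt ht.le, ← pow_mul, mul_comm n 2, pow_mul]; norm_num
      linarith
  have hmeas : ∀ n, MeasurableSet (B n) := fun n => (isOpen_bal L _).measurableSet
  have hint : ∀ n ∈ Finset.range (N + 1), Integrable ((B n).indicator (fun _ => wt b n)) μ :=
    fun n _ => (integrable_const _).indicator (hmeas n)
  have hcont : Continuous fun y : G => Real.exp (-(b * (dis L y ^ 2 / t))) := by
    have := dis_cont L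
    fun_prop
  have hI : Integrable (fun y : G => Real.exp (-(b * (dis L y ^ 2 / t)))) μ := by
    refine Integrable.of_bound hcont.aestronglyMeasurable 1 (Eventually.of_forall fun y => ?_)
    rw [Real.norm_of_nonneg (by positivity)]
    refine Real.exp_le_one_iff.2 ?_
    have : 0 ≤ b * (dis L y ^ 2 / t) := by positivity
    linarith
  calc ∫ y, Real.exp (-(b * (dis L y ^ 2 / t))) ∂μ
      ≤ ∫ y, ∑ n ∈ Finset.range (N + 1), (B n).indicator (fun _ => wt b n) y ∂μ :=
        integral_mono hI (integrable_finsetSum _ hint) hpt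
    _ = ∑ n ∈ Finset.range (N + 1), ∫ y, (B n).indicator (fun _ => wt b n) y ∂μ :=
        integral_finsetSum _ hint
    _ = ∑ n ∈ Finset.range (N + 1), wt b n * μ.real (B n) := by
        refine Finset.sum_congr rfl fun n _ => ?_
        rw [integral_indicator (hmeas n), setIntegral_const, smul_eq_mul, mul_comm]
    _ ≤ ∑ n ∈ Finset.range (N + 1), wt b n * (K ^ n * μ.real (bal L (Real.sqrt t))) :=
        Finset.sum_le_sum fun n _ =>
          mul_le_mul_of_nonneg_left (doubling_pow μ L hK hd n _ hst) (wt_nonneg b n)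
    _ = (∑ n ∈ Finset.range (N + 1), wt b n * K ^ n) * μ.real (bal L (Real.sqrt t)) := by
        rw [Finset.sum_mul]
        exact Finset.sum_congr rfl fun n _ => by ring
    _ ≤ (∑' n, wt b n * K ^ n) * μ.real (bal L (Real.sqrt t)) :=
        mul_le_mul_of_nonneg_right (hsum.sum_le_tsum _ fun n _ => hnn n) measureReal_nonneg

/-- Gaussian moments -/
theorem gauss_moment (a : ℝ) (ha : 0 < a) : ∃ C : ℝ, 0 < C ∧ ∀ t : ℝ, 0 < t →
    ∫ y, (1 + dis L y ^ 2 / t + (dis L y ^ 2 / t) ^ 2) * Real.exp (-(a * dis L y ^ 2 / t)) ∂μ ≤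
      C * μ.real (bal L (Real.sqrt t)) := by
  obtain ⟨C, hC, h⟩ := gauss_le μ L (a / 2) (by positivity)
  set D : ℝ := 1 + 2 / a + 8 / a ^ 2 with hD
  have hD0 : 0 < D := by positivity
  refine ⟨D * C, by positivity, fun t ht => ?_⟩
  have hcont1 : Continuous fun y : G => (1 + dis L y ^ 2 / t + (dis L y ^ 2 / t) ^ 2) *
      Real.exp (-(a * dis L y ^ 2 / t)) := by
    have := dis_cont L
    fun_prop
  have hcont2 : Continuous fun y : G => D * Real.exp (-(a / 2 * (dis L y ^ 2 / t))) := by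
    have := dis_cont L
    fun_prop
  have hpt : ∀ y : G, (1 + dis L y ^ 2 / t + (dis L y ^ 2 / t) ^ 2) *
      Real.exp (-(a * dis L y ^ 2 / t)) ≤ D * Real.exp (-(a / 2 * (dis L y ^ 2 / t))) := by
    intro y
    set u : ℝ := dis L y ^ 2 / t with hu
    have hu0 : 0 ≤ u := by positivity
    have e1 : a * dis L y ^ 2 / t = a * u := by rw [hu]; ring
    rw [e1]
    have e2 : Real.exp (-(a / 2 * u)) = Real.exp (a / 2 * u) * Real.exp (-(a * u)) := by
      rw [← Real.exp_add]; congr 1; ring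
    rw [e2, ← mul_assoc]
    refine mul_le_mul_of_nonneg_right ?_ (Real.exp_pos _).le
    have e3 := Real.quadratic_le_exp_of_nonneg (x := a / 2 * u) (by positivity)
    refine le_trans ?_ (mul_le_mul_of_nonneg_left e3 hD0.le)
    have e4 : u = (2 / a) * (a / 2 * u) := by field_simp
    have e5 : u ^ 2 = (8 / a ^ 2) * ((a / 2 * u) ^ 2 / 2) := by field_simp; ring
    have e6 : 0 ≤ a / 2 * u := by positivity
    have e7 : 0 ≤ (a / 2 * u) ^ 2 / 2 := by positivity
    have e8 : 0 ≤ 2 / a := by positivity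
    have e9 : 0 ≤ 8 / a ^ 2 := by positivity
    set x : ℝ := a / 2 * u
    set z : ℝ := x ^ 2 / 2
    rw [e5, e4, hD]
    nlinarith [mul_nonneg e8 e6, mul_nonneg e8 e7, mul_nonneg e9 e6, mul_nonneg e9 e7]
  have hI2 : Integrable (fun y : G => D * Real.exp (-(a / 2 * (dis L y ^ 2 / t)))) μ := by
    refine Integrable.of_bound hcont2.aestronglyMeasurable D (Eventually.of_forall fun y => ?_)
    rw [Real.norm_of_nonneg (by positivity)]
    have h1 : Real.exp (-(a / 2 * (dis L y ^ 2 / t))) ≤ 1 := by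
      refine Real.exp_le_one_iff.2 ?_
      have : 0 ≤ a / 2 * (dis L y ^ 2 / t) := by positivity
      linarith
    nlinarith
  have hI1 : Integrable (fun y : G => (1 + dis L y ^ 2 / t + (dis L y ^ 2 / t) ^ 2) *
      Real.exp (-(a * dis L y ^ 2 / t))) μ := by
    refine Integrable.mono' hI2 hcont1.aestronglyMeasurable (Eventually.of_forall fun y => ?_)
    rw [Real.norm_of_nonneg (by positivity)]
    exact hpt y
  calc ∫ y, (1 + dis L y ^ 2 / t + (dis L y ^ 2 / t) ^ 2) *
        Real.exp (-(a * dis L y ^ 2 / t)) ∂μ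
      ≤ ∫ y, D * Real.exp (-(a / 2 * (dis L y ^ 2 / t))) ∂μ := integral_mono hI1 hI2 hpt
    _ = D * ∫ y, Real.exp (-(a / 2 * (dis L y ^ 2 / t))) ∂μ := integral_const_mul _ _
    _ ≤ D * (C * μ.real (bal L (Real.sqrt t))) := mul_le_mul_of_nonneg_left (h t ht) hD0.le
    _ = _ := by ring

/-- Small balls are small, if the Lie algebra is not zero. -/
theorem bal_small (hne : ∃ X ∈ lieSet L, X ≠ 0) (ε : ℝ) (hε : 0 < ε) : ∃ c : ℝ, 0 < c ∧ c < 1 ∧
    ∀ s : ℝ, 0 < s → s ≤ 1 → μ.real (bal L (c * s)) ≤ ε * μ.real (bal L s) := by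
  classical
  obtain ⟨X0, hX0, hX0n⟩ := hne
  -- normalise
  obtain ⟨X, hX, hXn⟩ : ∃ X ∈ lieSet L, ‖X‖ = 1 := by
    refine ⟨(‖X0‖⁻¹ : ℝ) • X0, lie_smul L _ hX0, ?_⟩
    rw [norm_smul, Real.norm_of_nonneg (by positivity), inv_mul_cancel₀ (norm_ne_zero_iff.2 hX0n)]
  -- the exponential near `0`
  obtain ⟨δ, hδ, hexp⟩ : ∃ δ > 0, ∀ t : ℝ, |t| < δ →
      ‖NormedSpace.exp (t • X) - 1 - t • X‖ ≤ 1 / 2 * |t| := by
    have h1 := hasDerivAt_iff_isLittleO.1 (hasDerivAt_exp X 0)
    have h2 := h1.def (by norm_num : (0 : ℝ) < 1 / 2)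
    rw [Metric.eventually_nhds_iff] at h2
    obtain ⟨δ, hδ, h3⟩ := h2
    refine ⟨δ, hδ, fun t ht => ?_⟩
    have h4 := h3 (y := t) (by rwa [Real.dist_eq, sub_zero])
    simp only [sub_zero, zero_smul, NormedSpace.exp_zero, one_mul, Real.norm_eq_abs] at h4
    exact h4
  have hlow : ∀ t : ℝ, |t| < δ → |t| / 2 ≤ ‖NormedSpace.exp (t • X) - 1‖ := by
    intro t ht
    have h1 := hexp t ht
    have h2 : ‖t • X‖ = |t| := by rw [norm_smul, hXn, mul_one, Real.norm_eq_abs]
    have h3 := norm_sub_norm_le (t • X) (t • X - (NormedSpace.exp (t • X) - 1))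
    rw [sub_sub_cancel, norm_sub_rev (t • X) (NormedSpace.exp (t • X) - 1), h2] at h3
    linarith
  have hupp : ∀ t : ℝ, |t| < δ → ‖NormedSpace.exp (t • X) - 1‖ ≤ 3 / 2 * |t| := by
    intro t ht
    have h1 := hexp t ht
    have h2 : ‖t • X‖ = |t| := by rw [norm_smul, hXn, mul_one, Real.norm_eq_abs]
    have h3 := norm_add_le (NormedSpace.exp (t • X) - 1 - t • X) (t • X)
    rw [sub_add_cancel, h2] at h3
    linarith
  obtain ⟨N, hN⟩ := exists_nat_gt (1 / ε)
  have hN0 : 0 < (N : ℝ) := lt_trans (by positivity) hN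
  have hN1 : (1 : ℝ) ≤ N := by exact_mod_cast (Nat.cast_pos.1 hN0 : 0 < N)
  set t1 : ℝ := min (δ / 2) (1 / 6) with ht1
  have ht1p : 0 < t1 := lt_min (by positivity) (by norm_num)
  have ht1a : t1 < δ := (min_le_left _ _).trans_lt (by linarith)
  have ht1b : t1 ≤ 1 / 6 := min_le_right _ _
  refine ⟨t1 / (4 * N), by positivity, ?_, fun s hs hs1 => ?_⟩
  · rw [div_lt_one (by positivity)]
    linarith
  set c : ℝ := t1 / (4 * N) with hc
  set h : ℝ := s * t1 / N with hh
  have hhp : 0 < h := by positivity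
  have hc1 : c * s = h / 4 := by rw [hc, hh]; field_simp
  have hhN : (N : ℝ) * h = s * t1 := by rw [hh]; field_simp
  choose g hg using fun j : ℕ => hX ((j : ℝ) * h)
  -- the translates
  set S : ℕ → Set G := fun j => {y | ‖L.rho y - L.rho (g j)‖ < c * s} with hS
  have hSmeas : ∀ j, MeasurableSet (S j) := fun j =>
    (isOpen_lt (L.cont.sub continuous_const).norm continuous_const).measurableSet
  have hjh : ∀ j : ℕ, j < N → |(j : ℝ) * h| < δ := by
    intro j hj
    rw [abs_of_nonneg (by positivity)]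
    have : (j : ℝ) * h ≤ N * h := mul_le_mul_of_nonneg_right (by exact_mod_cast hj.le) hhp.le
    nlinarith
  have hsep : ∀ i j : ℕ, i < j → j < N → h / 2 ≤ ‖L.rho (g j) - L.rho (g i)‖ := by
    intro i j hij hj
    have e1 : NormedSpace.exp (((j : ℝ) * h) • X) = NormedSpace.exp (((i : ℝ) * h) • X) *
        NormedSpace.exp (((j - i : ℕ) * h) • X) := by
      rw [← Matrix.exp_add_of_commute]
      · rw [← add_smul]
        congr 2
        rw [Nat.cast_sub hij.le]
        ring
      · exact (Commute.refl X).smul_left _ |>.smul_right _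
    have e2 : L.rho (g j) - L.rho (g i) = L.rho (g i) *
        (NormedSpace.exp (((j - i : ℕ) * h) • X) - 1) := by
      rw [hg j, e1, ← hg i, mul_sub, mul_one]
    rw [e2, norm_unit_mul (rho_unit' L (g i))]
    have e3 := hlow (((j - i : ℕ) : ℝ) * h) (hjh _ (lt_of_le_of_lt (Nat.sub_le j i) hj))
    refine le_trans ?_ e3
    rw [abs_of_nonneg (by positivity)]
    have e4 : (1 : ℝ) ≤ ((j - i : ℕ) : ℝ) := by exact_mod_cast Nat.sub_pos_of_lt hij
    nlinarith
  have hdisj : Set.PairwiseDisjoint (↑(Finset.range N)) S := by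
    have key : ∀ i j : ℕ, i < j → j < N → Disjoint (S i) (S j) := by
      intro i j hij hj
      rw [Set.disjoint_left]
      intro y h1 h2
      have h1' : ‖L.rho y - L.rho (g i)‖ < c * s := h1
      have h2' : ‖L.rho y - L.rho (g j)‖ < c * s := h2
      have h3 := hsep i j hij hj
      have h4 : L.rho (g j) - L.rho (g i) = (L.rho y - L.rho (g i)) - (L.rho y - L.rho (g j)) := by
        abel
      rw [h4] at h3
      have h5 := norm_sub_le (L.rho y - L.rho (g i)) (L.rho y - L.rho (g j))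
      rw [hc1] at h1' h2'
      linarith
    intro i hi j hj hij
    rw [Finset.coe_range, Set.mem_Iio] at hi hj
    rcases lt_or_gt_of_ne hij with h1 | h1
    · exact key i j h1 hj
    · exact (key j i h1 hi).symm
  have hsub : (⋃ j ∈ Finset.range N, S j) ⊆ bal L s := by
    intro y hy
    obtain ⟨j, hj, hy⟩ := Set.mem_iUnion₂.1 hy
    have hy' : ‖L.rho y - L.rho (g j)‖ < c * s := hy
    show ‖L.rho y - 1‖ < s
    have hjN : j < N := Finset.mem_range.1 hj
    have e1 : ‖L.rho (g j) - 1‖ ≤ 3 / 2 * |(j : ℝ) * h| := by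
      rw [hg j]; exact hupp _ (hjh j hjN)
    rw [abs_of_nonneg (by positivity)] at e1
    have e2 : (j : ℝ) * h ≤ N * h := mul_le_mul_of_nonneg_right (by exact_mod_cast hjN.le) hhp.le
    have e3 := norm_add_le (L.rho y - L.rho (g j)) (L.rho (g j) - 1)
    rw [sub_add_sub_cancel] at e3
    have e4 : s * t1 ≤ s / 6 := by nlinarith
    have e5 : h ≤ s * t1 := by
      rw [hh, div_le_iff₀ hN0]
      nlinarith [mul_pos hs ht1p]
    rw [hc1] at hy'
    linarith
  have hfin : (N : ℝ) * μ.real (bal L (c * s)) ≤ μ.real (bal L s) := by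
    calc (N : ℝ) * μ.real (bal L (c * s)) = ∑ _j ∈ Finset.range N, μ.real (bal L (c * s)) := by
          rw [Finset.sum_const, Finset.card_range, nsmul_eq_mul]
      _ = ∑ j ∈ Finset.range N, μ.real (S j) :=
          Finset.sum_congr rfl fun j _ => (measure_translate μ L (g j) (c * s)).symm
      _ = μ.real (⋃ j ∈ Finset.range N, S j) :=
          (measureReal_biUnion_finset hdisj fun j _ => hSmeas j).symm
      _ ≤ μ.real (bal L s) := measureReal_mono hsub
  have hNε : 1 ≤ ε * N := by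
    rw [div_lt_iff₀ hε] at hN
    linarith
  calc μ.real (bal L (c * s)) = 1 * μ.real (bal L (c * s)) := (one_mul _).symm
    _ ≤ (ε * N) * μ.real (bal L (c * s)) := mul_le_mul_of_nonneg_right hNε measureReal_nonneg
    _ = ε * (N * μ.real (bal L (c * s))) := by ring
    _ ≤ ε * μ.real (bal L s) := mul_le_mul_of_nonneg_left hfin hε.le

end

end Pool.Agent.T2H04.HY
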