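import Mathlib
import Pool.Agent.T2H04.HY.Conv3
import Pool.Agent.T2H04.HY.Haar

/-!
# The convolution step: the integrated estimate
-/

open MeasureTheory Matrix Filter
open scoped Matrix.Norms.Frobenius Topology

namespace Pool.Agent.T2H04.HY

set_option linter.unusedSectionVars false

noncomputable section

variable {G : Type} [Group G] [TopologicalSpace G] [IsTopologicalGroup G] [CompactSpace G]
  [MeasurableSpace G] [BorelSpace G] (μ : Measure G) [μ.IsHaarMeasure] [IsProbabilityMeasure μ]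
  {m : Type} [Fintype m] [DecidableEq m] {L : RD G m}

/-- symmetric form of the convolution -/
theorem ccv_sym {F : Mt m → ℂ} (hF : ContDiff ℂ 1 F)
    (hc : ∀ g x, F (L.rho g * x * L.rho g⁻¹) = F x) (Z : gC L) (k : G) :
    ccv L μ F (NormedSpace.exp (Z : Mt m) * L.rho k) =
      ∫ y, F (NormedSpace.exp ((1 / 2 : ℂ) • (Z : Mt m)) * L.rho y) *
        F (NormedSpace.exp ((1 / 2 : ℂ) • (Z : Mt m)) * L.rho (k * y⁻¹)) ∂μ := by
  have h1 := ccv_shift μ L hF ((1 / 2 : ℂ) • Z : gC L).2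
    (NormedSpace.exp ((1 / 2 : ℂ) • (Z : Mt m)) * L.rho k)
  rw [coe_half] at h1
  have h2 : NormedSpace.exp ((1 / 2 : ℂ) • (Z : Mt m)) *
      (NormedSpace.exp ((1 / 2 : ℂ) • (Z : Mt m)) * L.rho k) =
      NormedSpace.exp (Z : Mt m) * L.rho k := by
    rw [← mul_assoc, ← Matrix.exp_add_of_commute _ _ (Commute.refl _), ← add_smul]
    norm_num
  rw [h2] at h1
  rw [← h1]
  refine integral_congr_ae (Filter.Eventually.of_forall fun y => ?_)
  have h3 := hc y (L.rho y⁻¹ * (NormedSpace.exp ((1 / 2 : ℂ) • (Z : Mt m)) * L.rho k))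
  have h4 : L.rho y * (L.rho y⁻¹ * (NormedSpace.exp ((1 / 2 : ℂ) • (Z : Mt m)) * L.rho k)) *
      L.rho y⁻¹ = NormedSpace.exp ((1 / 2 : ℂ) • (Z : Mt m)) * L.rho (k * y⁻¹) := by
    rw [← mul_assoc, rho_mul_inv, one_mul, mul_assoc, map_mul]
  rw [h4] at h3
  simp only [h3]

theorem res_sq {F : Mt m → ℂ} (hr : ∀ g, (F (L.rho g)).im = 0) (y : G) :
    res L F y ^ 2 = ‖F (L.rho y)‖ ^ 2 := by
  have h1 : F (L.rho y) = ((res L F y : ℝ) : ℂ) :=
    Complex.ext (by simp [res]) (by simp [hr])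
  rw [h1, Complex.norm_real, Real.norm_eq_abs, sq_abs]

/-- lower bound of `F` near `1` -/
theorem F_lower {D : LogData m} {εg δ r0 r s b r' : ℝ} (P : Par L D εg δ r0 r s b r')
    {F : Mt m → ℂ} {t A : ℝ} (cl : Cls L F t A r (r0 / 4) s b (1 / 10000)) {w : gC L → ℂ}
    (hw : SFw L F t A r (r0 / 4) w) (ht : 0 < t) (hA : 0 ≤ A) (hAt : A * t ≤ 1 / 10) (y : G)
    (hy : dis L y < r0 / 20) :
    (F 1).re * Real.exp (-(51 / 100 * (dis L y ^ 2 / t))) ≤ ‖F (L.rho y)‖ := by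
  have hr0 := P.r0_pos
  have hr01 := P.r0_le
  have hrl := P.r_lo
  have hδ := P.r0_δ
  have he0 := P.e0
  have he1 := P.e1
  obtain ⟨hη, hηe, hη1, hη2⟩ := P.ch.lgm y (by linarith)
  set η : gC L := ⟨D.lg (L.rho y), gC_of_lie L hη⟩ with hηd
  have hηn : ‖η‖ = ‖D.lg (L.rho y)‖ := rfl
  have hηim : imP (η : Mt m) = 0 := imP_of_skew (lie_skew L hη)
  have hd0 : 0 ≤ dis L y := norm_nonneg _
  have hη16 : ‖η‖ < r0 / 16 := by rw [hηn]; nlinarith
  have hηdom : η ∈ dom L r (r0 / 4) := ball_sub_dom (ρ := r0 / 16) (by linarith) (by linarith)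
    (by rwa [mem_ball_zero_iff])
  have ey : L.rho y = NormedSpace.exp (η : Mt m) := hηe.symm
  rw [ey, hw.eq η hηdom, norm_mul, cls_normF1 cl, norm_cexp_form]
  refine mul_le_mul_of_nonneg_left (Real.exp_le_exp.2 ?_) cl.pos.le
  have hQre : (Qf (η : Mt m)).re = ‖η‖ ^ 2 := by
    rw [Qf_re, hηim, norm_zero]
    have : reP (η : Mt m) = (η : Mt m) := reP_of_skew (lie_skew L hη)
    rw [this]
    have : ‖(η : Mt m)‖ = ‖η‖ := rfl
    rw [this]
    ring
  rw [hQre]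
  have hWle : (w η).re ≤ A * (‖η‖ ^ 2) ^ 2 := by
    have b1 : (w η).re ≤ ‖w η‖ := Complex.re_le_norm _
    have b2 := hw.le η hηdom
    have b3 : (‖η‖ ^ 2) ^ 2 = ‖η‖ ^ 4 := by ring
    rw [b3]
    exact b1.trans b2
  have hηlo : ‖η‖ ^ 2 ≤ (1 + 1 / 1000) * dis L y ^ 2 := by
    have : ‖η‖ ^ 2 ≤ ((1 + εg) * dis L y) ^ 2 := pow_le_pow_left₀ (norm_nonneg _) hη1 2
    have h3 : (1 + εg) ^ 2 ≤ 1 + 1 / 1000 := by nlinarith
    rw [mul_pow] at this
    nlinarith [sq_nonneg (dis L y)]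
  have hn16 : ‖η‖ ^ 2 ≤ (r0 / 16) ^ 2 := pow_le_pow_left₀ (norm_nonneg _) hη16.le 2
  have harith : ∀ n2 d2 W : ℝ, 0 ≤ n2 → 0 ≤ d2 → n2 ≤ (1 + 1 / 1000) * d2 → n2 ≤ (r0 / 16) ^ 2 →
      W ≤ A * n2 ^ 2 → -(51 / 100 * (d2 / t)) ≤ -(n2 / (2 * t)) - W := by
    intro n2 d2 W h1 h2 h3 h4 h5
    have e1 : A * n2 ^ 2 = (A * t) * n2 * (n2 / t) := by field_simp
    have e3 : (r0 / 16) ^ 2 ≤ (1 / 2000 / 16) ^ 2 :=
      pow_le_pow_left₀ (by positivity) (by linarith) 2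
    have e2 : (A * t) * n2 ≤ 1 / 1000 := by
      have : n2 ≤ 1 / 1000 := h4.trans (e3.trans (by norm_num))
      have : 0 ≤ A * t := by positivity
      nlinarith
    have e4 : A * n2 ^ 2 ≤ 1 / 1000 * (n2 / t) := by
      rw [e1]; exact mul_le_mul_of_nonneg_right e2 (by positivity)
    have e5 : n2 / (2 * t) = (n2 / t) / 2 := by field_simp
    have e6 : n2 / t ≤ (1 + 1 / 1000) * (d2 / t) := by
      rw [← mul_div_assoc]; exact div_le_div_of_nonneg_right h3 ht.le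
    have e7 : 0 ≤ d2 / t := by positivity
    rw [e5]
    linarith
  exact harith _ _ _ (sq_nonneg _) (sq_nonneg _) hηlo hn16 hWle

/-- lower bound of the convolution at `1` -/
theorem ccv_one_lower {D : LogData m} {εg δ r0 r s b r' : ℝ} (P : Par L D εg δ r0 r s b r')
    {F : Mt m → ℂ} {t A : ℝ} (cl : Cls L F t A r (r0 / 4) s b (1 / 10000)) {w : gC L → ℂ}
    (hw : SFw L F t A r (r0 / 4) w) (ht : 0 < t) (hA : 0 ≤ A) (hAt : A * t ≤ 1 / 10)
    (hts : Real.sqrt t < r0 / 20) :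
    (F 1).re ^ 2 * Real.exp (-(51 / 50)) * μ.real (bal L (Real.sqrt t)) ≤ (ccv L μ F 1).re := by
  have h1 := ccv_rho μ L cl.real 1
  rw [map_one] at h1
  rw [h1, Complex.ofReal_re]
  have hev : ∀ y : G, res L F y⁻¹ = res L F y := by
    intro y
    unfold res
    rw [← L.sig_rho, cl.inv]
  have h2 : cnv μ (res L F) (res L F) 1 = ∫ y, (res L F y) ^ 2 ∂μ := by
    unfold cnv
    refine integral_congr_ae (Filter.Eventually.of_forall fun y => ?_)
    simp only [mul_one, hev]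
    ring
  rw [h2]
  have hc : Continuous fun y => (res L F y) ^ 2 := (res_cont L cl.diff).pow 2
  have hdc : Continuous (dis L) := (L.cont.sub continuous_const).norm
  have hms : MeasurableSet (bal L (Real.sqrt t)) := (isOpen_lt hdc continuous_const).measurableSet
  have h3 : ∫ y in bal L (Real.sqrt t), (res L F y) ^ 2 ∂μ ≤ ∫ y, (res L F y) ^ 2 ∂μ :=
    setIntegral_le_integral (intg μ hc) (Filter.Eventually.of_forall fun y => sq_nonneg _)
  have h4 : ∫ y in bal L (Real.sqrt t), ((F 1).re ^ 2 * Real.exp (-(51 / 50))) ∂μ ≤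
      ∫ y in bal L (Real.sqrt t), (res L F y) ^ 2 ∂μ := by
    refine setIntegral_mono_on (integrable_const _).integrableOn (intg μ hc).integrableOn hms ?_
    intro y hy
    have hy' : dis L y < Real.sqrt t := hy
    have h5 := F_lower P cl hw ht hA hAt y (hy'.trans hts)
    rw [res_sq cl.real]
    have hd0 : 0 ≤ dis L y := norm_nonneg _
    have h6 : dis L y ^ 2 / t ≤ 1 := by
      rw [div_le_one ht]
      have := pow_le_pow_left₀ hd0 hy'.le 2
      rwa [Real.sq_sqrt ht.le] at this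
    have h7 : (F 1).re * Real.exp (-(51 / 100)) ≤ ‖F (L.rho y)‖ := by
      refine le_trans (mul_le_mul_of_nonneg_left (Real.exp_le_exp.2 ?_) cl.pos.le) h5
      linarith
    have h8 := pow_le_pow_left₀ (mul_nonneg cl.pos.le (Real.exp_pos _).le) h7 2
    refine le_trans (le_of_eq ?_) h8
    rw [mul_pow, ← Real.exp_nat_mul]
    congr 2
    norm_num
  rw [setIntegral_const, smul_eq_mul] at h4
  linarith [h3, h4]

/-- the normalising exponential -/
def ev (t : ℝ) (w : gC L → ℂ) (Z : gC L) : ℂ :=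
  Complex.exp (2 * (Qf ((1 / 2 : ℂ) • (Z : Mt m)) / (2 * t) + w ((1 / 2 : ℂ) • Z)))

/-- the integrated estimate -/
theorem calE_bound {D : LogData m} {εg δ r0 r s b r' : ℝ} (P : Par L D εg δ r0 r s b r') {Cm : ℝ}
    (hCm : ∀ t : ℝ, 0 < t → ∫ y, (1 + dis L y ^ 2 / t + (dis L y ^ 2 / t) ^ 2) *
      Real.exp (-(1 / 2 * dis L y ^ 2 / t)) ∂μ ≤ Cm * μ.real (bal L (Real.sqrt t)))
    {F : Mt m → ℂ} {t A : ℝ} (cl : Cls L F t A r (r0 / 4) s b (1 / 10000)) {w : gC L → ℂ}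
    (hw : SFw L F t A r (r0 / 4) w) (ht : 0 < t) (hA : 0 ≤ A) (hAt : A * t ≤ 1 / 10)
    (Z : gC L) (hZ : Z ∈ dom L r' (r0 / 4)) :
    ‖ccv L μ F (NormedSpace.exp (Z : Mt m)) * ev t w Z - ccv L μ F 1‖ ≤
      (F 1).re ^ 2 * (101 / 100 * (192 / δ ^ 2 + 7400) * ‖Z‖ ^ 2 *
        (Cm * μ.real (bal L (Real.sqrt t))) + 2 * Real.exp (-(r0 ^ 2 / (1000 * t)))) := by
  have h1 := ccv_sym μ cl.diff cl.conj Z 1
  rw [map_one, mul_one] at h1
  have h2 : ccv L μ F 1 = ∫ y, F (L.rho y) * F (L.rho y) ∂μ := by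
    unfold ccv
    refine integral_congr_ae (Filter.Eventually.of_forall fun y => ?_)
    have : F (L.rho y⁻¹) = F (L.rho y) := by rw [← L.sig_rho, cl.inv]
    simp only [mul_one, this]
  have hcF := cl.diff.continuous
  have hc1 : Continuous fun y : G => F (NormedSpace.exp ((1 / 2 : ℂ) • (Z : Mt m)) * L.rho y) *
      F (NormedSpace.exp ((1 / 2 : ℂ) • (Z : Mt m)) * L.rho (1 * y⁻¹)) := by
    refine (hcF.comp (continuous_const.mul L.cont)).mul (hcF.comp (continuous_const.mul ?_))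
    exact L.cont.comp (continuous_const.mul continuous_inv)
  have hc2 : Continuous fun y : G => F (L.rho y) * F (L.rho y) :=
    (hcF.comp L.cont).mul (hcF.comp L.cont)
  rw [h1, h2, ← integral_mul_const, ← integral_sub ((intg μ hc1).mul_const _) (intg μ hc2)]
  have hdc : Continuous (dis L) := (L.cont.sub continuous_const).norm
  set g : G → ℝ := fun y => (F 1).re ^ 2 * (101 / 100 * (192 / δ ^ 2 + 7400) * ‖Z‖ ^ 2 *
    (dis L y ^ 2 / t * Real.exp (-(dis L y ^ 2 / (2 * t)))) +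
      2 * Real.exp (-(r0 ^ 2 / (1000 * t)))) with hg
  have hK : 0 ≤ 101 / 100 * (192 / δ ^ 2 + 7400) * ‖Z‖ ^ 2 := by positivity
  have hpt : ∀ y, ‖F (NormedSpace.exp ((1 / 2 : ℂ) • (Z : Mt m)) * L.rho y) *
      F (NormedSpace.exp ((1 / 2 : ℂ) • (Z : Mt m)) * L.rho (1 * y⁻¹)) * ev t w Z -
      F (L.rho y) * F (L.rho y)‖ ≤ g y := by
    intro y
    rw [one_mul]
    have hF2 : 0 ≤ (F 1).re ^ 2 := sq_nonneg _
    rcases lt_or_ge (dis L y) (r0 / 20) with hy | hy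
    · refine (inner P cl hw ht hA hAt Z hZ y hy).trans ?_
      rw [hg]
      refine mul_le_mul_of_nonneg_left ?_ hF2
      have e1 : 0 ≤ Real.exp (-(r0 ^ 2 / (1000 * t))) := (Real.exp_pos _).le
      rw [mul_assoc]
      linarith
    · refine (norm_sub_le _ _).trans ?_
      have o1 := outer P cl hw ht hA hAt Z hZ y hy
      have o2 := outer1 P cl ht hA hAt y hy
      have e2 : 0 ≤ 101 / 100 * (192 / δ ^ 2 + 7400) * ‖Z‖ ^ 2 *
          (dis L y ^ 2 / t * Real.exp (-(dis L y ^ 2 / (2 * t)))) := by positivity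
      calc _ ≤ (F 1).re ^ 2 * Real.exp (-(r0 ^ 2 / (1000 * t))) +
            (F 1).re ^ 2 * Real.exp (-(r0 ^ 2 / (1000 * t))) := add_le_add o1 o2
        _ = (F 1).re ^ 2 * (2 * Real.exp (-(r0 ^ 2 / (1000 * t)))) := by ring
        _ ≤ g y := by
            rw [hg]
            exact mul_le_mul_of_nonneg_left (by linarith) hF2
  have hgc : Continuous g := by
    rw [hg]
    fun_prop
  refine (norm_integral_le_of_norm_le (intg μ hgc) (Filter.Eventually.of_forall hpt)).trans ?_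
  have hc3 : Continuous fun y => dis L y ^ 2 / t * Real.exp (-(dis L y ^ 2 / (2 * t))) := by
    fun_prop
  have hint : ∫ y, g y ∂μ = (F 1).re ^ 2 * (101 / 100 * (192 / δ ^ 2 + 7400) * ‖Z‖ ^ 2 *
      (∫ y, dis L y ^ 2 / t * Real.exp (-(dis L y ^ 2 / (2 * t))) ∂μ) +
      2 * Real.exp (-(r0 ^ 2 / (1000 * t)))) := by
    rw [hg, integral_const_mul, integral_add ((intg μ hc3).const_mul _) (integrable_const _),
      integral_const_mul, integral_const, probReal_univ, one_smul]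
  rw [hint]
  refine mul_le_mul_of_nonneg_left (add_le_add (mul_le_mul_of_nonneg_left ?_ hK) le_rfl)
    (sq_nonneg _)
  refine le_trans (integral_mono (intg μ hc3) (intg μ (by fun_prop)) fun y => ?_) (hCm t ht)
  have e1 : 1 / 2 * dis L y ^ 2 / t = dis L y ^ 2 / (2 * t) := by field_simp
  show dis L y ^ 2 / t * Real.exp (-(dis L y ^ 2 / (2 * t))) ≤
    (1 + dis L y ^ 2 / t + (dis L y ^ 2 / t) ^ 2) * Real.exp (-(1 / 2 * dis L y ^ 2 / t))
  rw [e1]
  refine mul_le_mul_of_nonneg_right ?_ (Real.exp_pos _).le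
  have : 0 ≤ (dis L y ^ 2 / t) ^ 2 := sq_nonneg _
  linarith

end

end Pool.Agent.T2H04.HY
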