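import Mathlib
import Pool.Agent.T2H04.HY.Bnd
import Pool.Agent.T2H04.HY.Fwd

/-!
# Covariance: scalar product, integration by parts
-/

open MeasureTheory Matrix Filter
open scoped Matrix.Norms.Frobenius Topology

namespace Pool.Agent.T2H04.HY

set_option linter.unusedSectionVars false

noncomputable section

variable {G : Type} [Group G] [TopologicalSpace G] [IsTopologicalGroup G] [CompactSpace G]
  [MeasurableSpace G] [BorelSpace G] (μ : Measure G) [μ.IsHaarMeasure] [IsProbabilityMeasure μ]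
  {m : Type} [Fintype m] [DecidableEq m] (L : RD G m)

/-- the real scalar product `Re tr (X^* Y)` -/
def ipr (X Y : Mt m) : ℝ := (trace (Xᴴ * Y)).re

theorem ipr_add (X Y Z : Mt m) : ipr X (Y + Z) = ipr X Y + ipr X Z := by
  unfold ipr; rw [mul_add, trace_add, Complex.add_re]

theorem ipr_sub (X Y Z : Mt m) : ipr X (Y - Z) = ipr X Y - ipr X Z := by
  unfold ipr; rw [mul_sub, trace_sub, Complex.sub_re]

theorem ipr_smul (X : Mt m) (c : ℝ) (Y : Mt m) : ipr X (c • Y) = c * ipr X Y := by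
  unfold ipr
  rw [mul_smul_comm, trace_smul, Complex.smul_re, smul_eq_mul]

theorem ipr_comm (X Y : Mt m) : ipr X Y = ipr Y X := by
  unfold ipr
  have : Yᴴ * X = (Xᴴ * Y)ᴴ := by rw [conjTranspose_mul, conjTranspose_conjTranspose]
  rw [this, re_trace_star]

theorem ipr_self (X : Mt m) : ipr X X = ‖X‖ ^ 2 := (norm_sq_eq X).symm

theorem ipr_one {X : Mt m} (hX : Xᴴ = -X) : ipr X 1 = 0 := by
  unfold ipr
  have h := re_trace_star X
  rw [mul_one]
  rw [hX, trace_neg, Complex.neg_re] at h ⊢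
  linarith

theorem ipr_le (X Y : Mt m) : ipr X Y ≤ ‖X‖ * ‖Y‖ := by
  have h := fw_cs ((‖Y‖ : ℝ) • X) ((‖X‖ : ℝ) • Y)
  have e1 : (((‖Y‖ : ℝ) • X)ᴴ * ((‖X‖ : ℝ) • Y)).trace.re = ‖Y‖ * ‖X‖ * ipr X Y := by
    unfold ipr
    rw [conjTranspose_smul, star_trivial, smul_mul_assoc, mul_smul_comm, trace_smul, trace_smul,
      Complex.smul_re, Complex.smul_re, smul_eq_mul, smul_eq_mul, mul_assoc]
  rw [e1, norm_smul, norm_smul, norm_norm, norm_norm] at h
  have hX := norm_nonneg X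
  have hY := norm_nonneg Y
  rcases eq_or_lt_of_le hX with h0 | h0
  · have : X = 0 := norm_eq_zero.1 h0.symm
    subst this
    simp [ipr]
  rcases eq_or_lt_of_le hY with h1 | h1
  · have : Y = 0 := norm_eq_zero.1 h1.symm
    subst this
    simp [ipr]
  have h2 : (‖Y‖ * ‖X‖) * ipr X Y ≤ (‖Y‖ * ‖X‖) * (‖X‖ * ‖Y‖) := by nlinarith
  exact le_of_mul_le_mul_left h2 (by positivity)

theorem ipr_abs_le (X Y : Mt m) : |ipr X Y| ≤ ‖X‖ * ‖Y‖ := by
  rw [abs_le]
  refine ⟨?_, ipr_le X Y⟩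
  have h := ipr_le X (-Y)
  have e : ipr X (-Y) = -ipr X Y := by
    have := ipr_smul X (-1) Y
    rw [neg_one_smul] at this
    linarith
  rw [e, norm_neg] at h
  linarith

theorem ipr_trace {η : Mt m} (hη : ηᴴ = -η) (V : Mt m) : (trace (η * V)).re = -ipr η V := by
  unfold ipr
  rw [hη, neg_mul, trace_neg, Complex.neg_re, neg_neg]

/-- the scalar product with a fixed matrix -/
def iprL (X : Mt m) : Mt m →L[ℝ] ℝ :=
  LinearMap.toContinuousLinearMap
    { toFun := ipr X, map_add' := ipr_add X, map_smul' := fun c Y => ipr_smul X c Y }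

theorem iprL_apply (X Y : Mt m) : iprL X Y = ipr X Y := rfl

/-- the moved point -/
def mvx (X : Mt m) (s : ℝ) (y : G) : Mt m := NormedSpace.exp (s • X) * L.rho y

/-- its derivative -/
def mvd (X : Mt m) (s : ℝ) (y : G) : Mt m := NormedSpace.exp (s • X) * X * L.rho y

/-- the integrand -/
def mvH (F : Mt m → ℂ) (X : Mt m) (q : ℕ) (s : ℝ) (y : G) : ℝ :=
  ipr X (mvx L X s y) * ((F (mvx L X s y)).re) ^ q

/-- its derivative -/
def mvH' (F : Mt m → ℂ) (X : Mt m) (q : ℕ) (s : ℝ) (y : G) : ℝ :=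
  ipr X (mvd L X s y) * ((F (mvx L X s y)).re) ^ q +
    ipr X (mvx L X s y) * ((q : ℝ) * ((F (mvx L X s y)).re) ^ (q - 1) *
      (fderiv ℂ F (mvx L X s y) (mvd L X s y)).re)

theorem mv_cexp (X : Mt m) : Continuous fun s : ℝ => NormedSpace.exp (s • X) :=
  continuous_iff_continuousAt.2 fun s => (hasDerivAt_exp X s).continuousAt

theorem mvx_cont (X : Mt m) : Continuous fun p : ℝ × G => mvx L X p.1 p.2 :=
  ((mv_cexp X).comp continuous_fst).mul (L.cont.comp continuous_snd)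

theorem mvd_cont (X : Mt m) : Continuous fun p : ℝ × G => mvd L X p.1 p.2 :=
  (((mv_cexp X).comp continuous_fst).mul continuous_const).mul (L.cont.comp continuous_snd)

theorem mvF_cont {F : Mt m → ℂ} (hF : ContDiff ℂ 1 F) (X : Mt m) :
    Continuous fun p : ℝ × G => (F (mvx L X p.1 p.2)).re :=
  Complex.continuous_re.comp (hF.continuous.comp (mvx_cont L X))

theorem mvD_cont {F : Mt m → ℂ} (hF : ContDiff ℂ 1 F) (X : Mt m) :
    Continuous fun p : ℝ × G => (fderiv ℂ F (mvx L X p.1 p.2) (mvd L X p.1 p.2)).re :=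
  Complex.continuous_re.comp
    (((hF.continuous_fderiv one_ne_zero).comp (mvx_cont L X)).clm_apply (mvd_cont L X))

theorem mvi_cont (X : Mt m) : Continuous fun p : ℝ × G => ipr X (mvx L X p.1 p.2) :=
  (iprL X).continuous.comp (mvx_cont L X)

theorem mvi'_cont (X : Mt m) : Continuous fun p : ℝ × G => ipr X (mvd L X p.1 p.2) :=
  (iprL X).continuous.comp (mvd_cont L X)

theorem mvH_cont {F : Mt m → ℂ} (hF : ContDiff ℂ 1 F) (X : Mt m) (q : ℕ) :
    Continuous fun p : ℝ × G => mvH L F X q p.1 p.2 :=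
  (mvi_cont L X).mul ((mvF_cont L hF X).pow q)

theorem mvH'_cont {F : Mt m → ℂ} (hF : ContDiff ℂ 1 F) (X : Mt m) (q : ℕ) :
    Continuous fun p : ℝ × G => mvH' L F X q p.1 p.2 :=
  ((mvi'_cont L X).mul ((mvF_cont L hF X).pow q)).add ((mvi_cont L X).mul
    ((continuous_const.mul ((mvF_cont L hF X).pow (q - 1))).mul (mvD_cont L hF X)))

theorem mvx_deriv (X : Mt m) (s : ℝ) (y : G) :
    HasDerivAt (fun s => mvx L X s y) (mvd L X s y) s := (hasDerivAt_exp X s).mul_const (L.rho y)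

theorem mvi_deriv (X : Mt m) (s : ℝ) (y : G) :
    HasDerivAt (fun s => ipr X (mvx L X s y)) (ipr X (mvd L X s y)) s :=
  (iprL X).hasFDerivAt.comp_hasDerivAt s (mvx_deriv L X s y)

theorem mvF_deriv {F : Mt m → ℂ} (hF : ContDiff ℂ 1 F) (X : Mt m) (s : ℝ) (y : G) :
    HasDerivAt (fun s => (F (mvx L X s y)).re)
      (fderiv ℂ F (mvx L X s y) (mvd L X s y)).re s := by
  have h4 : HasFDerivAt F ((fderiv ℂ F (mvx L X s y)).restrictScalars ℝ) (mvx L X s y) :=
    (((hF.differentiable one_ne_zero) _).hasFDerivAt).restrictScalars ℝ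
  have h3 := h4.comp_hasDerivAt s (mvx_deriv L X s y)
  exact Complex.reCLM.hasFDerivAt.comp_hasDerivAt s h3

end

end Pool.Agent.T2H04.HY
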