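import Mathlib
import Pool.Agent.T2H04.HY.Ccv
import Pool.Agent.T2H04.HY.CovA

/-!
# Covariance: integration by parts
-/

open MeasureTheory Matrix Filter
open scoped Matrix.Norms.Frobenius Topology

namespace Pool.Agent.T2H04.HY

set_option linter.unusedSectionVars false

noncomputable section

variable {G : Type} [Group G] [TopologicalSpace G] [IsTopologicalGroup G] [CompactSpace G]
  [MeasurableSpace G] [BorelSpace G] (μ : Measure G) [μ.IsHaarMeasure] [IsProbabilityMeasure μ]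
  {m : Type} [Fintype m] [DecidableEq m] (L : RD G m)

theorem mvH_deriv {F : Mt m → ℂ} (hF : ContDiff ℂ 1 F) (X : Mt m) (q : ℕ) (s : ℝ) (y : G) :
    HasDerivAt (fun s => mvH L F X q s y) (mvH' L F X q s y) s := by
  have h5 := (mvF_deriv L hF X s y).pow q
  have h6 := (mvi_deriv L X s y).mul h5
  exact h6

theorem mvH_zero (F : Mt m → ℂ) (X : Mt m) (q : ℕ) {g : G} {s : ℝ}
    (hg : L.rho g = NormedSpace.exp (s • X)) (y : G) :
    mvH L F X q s y = mvH L F X q 0 (g * y) := by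
  have e : mvx L X s y = mvx L X 0 (g * y) := by
    unfold mvx
    rw [zero_smul, NormedSpace.exp_zero, one_mul, map_mul, hg]
  unfold mvH
  rw [e]

theorem mvH_inv (F : Mt m → ℂ) {X : Mt m} (hX : X ∈ lieSet L) (q : ℕ) (s : ℝ) :
    ∫ y, mvH L F X q s y ∂μ = ∫ y, mvH L F X q 0 y ∂μ := by
  obtain ⟨g, hg⟩ := hX s
  simp only [mvH_zero L F X q hg]
  exact fw_int_left μ (mvH L F X q 0) g

theorem mvH'_bound {F : Mt m → ℂ} (hF : ContDiff ℂ 1 F) (X : Mt m) (q : ℕ) :
    ∃ M : ℝ, ∀ y : G, ∀ s ∈ Metric.ball (0 : ℝ) 1, ‖mvH' L F X q s y‖ ≤ M := by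
  have hK : IsCompact ((Set.Icc (-1 : ℝ) 1) ×ˢ (Set.univ : Set G)) :=
    isCompact_Icc.prod isCompact_univ
  obtain ⟨M, hM⟩ := hK.exists_bound_of_continuousOn (mvH'_cont L hF X q).continuousOn
  refine ⟨M, fun y s hs => ?_⟩
  have h1 : s ∈ Set.Icc (-1 : ℝ) 1 := by
    rw [Metric.mem_ball, dist_zero_right, Real.norm_eq_abs, abs_lt] at hs
    exact ⟨hs.1.le, hs.2.le⟩
  exact hM (s, y) (Set.mk_mem_prod h1 (Set.mem_univ y))

theorem mvH_cont1 {F : Mt m → ℂ} (hF : ContDiff ℂ 1 F) (X : Mt m) (q : ℕ) (s : ℝ) :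
    Continuous (mvH L F X q s) := by
  have h1 : Continuous fun y : G => (s, y) := Continuous.prodMk_right s
  have h2 := (mvH_cont L hF X q).comp h1
  simpa only [Function.comp_def] using h2

theorem mvH'_cont1 {F : Mt m → ℂ} (hF : ContDiff ℂ 1 F) (X : Mt m) (q : ℕ) (s : ℝ) :
    Continuous (mvH' L F X q s) := by
  have h1 : Continuous fun y : G => (s, y) := Continuous.prodMk_right s
  have h2 := (mvH'_cont L hF X q).comp h1
  simpa only [Function.comp_def] using h2

theorem mv_hd {F : Mt m → ℂ} (hF : ContDiff ℂ 1 F) (X : Mt m) (q : ℕ) :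
    HasDerivAt (fun s => ∫ y, mvH L F X q s y ∂μ) (∫ y, mvH' L F X q 0 y ∂μ) 0 := by
  obtain ⟨M, hbound⟩ := mvH'_bound L hF X q
  have hcs := mvH_cont1 L hF X q
  have hcs' := mvH'_cont1 L hF X q
  have h1 : ∀ᶠ s in nhds (0 : ℝ), AEStronglyMeasurable (mvH L F X q s) μ :=
    Eventually.of_forall fun s => (hcs s).aestronglyMeasurable
  have h2 : Integrable (mvH L F X q 0) μ := fw_int_cont μ (hcs 0)
  have h3 : AEStronglyMeasurable (mvH' L F X q 0) μ := (hcs' 0).aestronglyMeasurable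
  have h4 : ∀ᵐ y ∂μ, ∀ s ∈ Metric.ball (0 : ℝ) 1, ‖mvH' L F X q s y‖ ≤ (fun _ => M) y :=
    Eventually.of_forall fun y => hbound y
  have h5 : Integrable (fun _ : G => M) μ := integrable_const M
  have h6 : ∀ᵐ y ∂μ, ∀ s ∈ Metric.ball (0 : ℝ) 1,
      HasDerivAt (fun s => mvH L F X q s y) (mvH' L F X q s y) s :=
    Eventually.of_forall fun y s _ => mvH_deriv L hF X q s y
  exact (hasDerivAt_integral_of_dominated_loc_of_deriv_le (Metric.ball_mem_nhds _ one_pos)
    h1 h2 h3 h4 h5 h6).2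

theorem mv_main {F : Mt m → ℂ} (hF : ContDiff ℂ 1 F) {X : Mt m} (hX : X ∈ lieSet L) (q : ℕ) :
    ∫ y, mvH' L F X q 0 y ∂μ = 0 := by
  have h7 : HasDerivAt (fun s => ∫ y, mvH L F X q s y ∂μ) 0 0 := by
    have : (fun s => ∫ y, mvH L F X q s y ∂μ) = fun _ => ∫ y, mvH L F X q 0 y ∂μ :=
      funext (mvH_inv μ L F hX q)
    rw [this]
    exact hasDerivAt_const _ _
  exact (mv_hd μ L hF X q).unique h7

/-- the derivative of `F` at the point `y` in the direction `X` -/
def dfy (F : Mt m → ℂ) (X : Mt m) (y : G) : ℝ := (fderiv ℂ F (L.rho y) (X * L.rho y)).re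

/-- integration by parts -/
theorem ibp {F : Mt m → ℂ} (hF : ContDiff ℂ 1 F) {X : Mt m} (hX : X ∈ lieSet L) (q : ℕ) :
    ∫ y, (ipr X (X * L.rho y) * (res L F y) ^ q + ipr X (L.rho y) *
      ((q : ℝ) * (res L F y) ^ (q - 1) * dfy L F X y)) ∂μ = 0 := by
  have h := mv_main μ L hF hX q
  have e9 : ∀ y, mvH' L F X q 0 y = ipr X (X * L.rho y) * (res L F y) ^ q + ipr X (L.rho y) *
      ((q : ℝ) * (res L F y) ^ (q - 1) * dfy L F X y) := by
    intro y
    have e1 : mvx L X 0 y = L.rho y := by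
      unfold mvx; rw [zero_smul, NormedSpace.exp_zero, one_mul]
    have e2 : mvd L X 0 y = X * L.rho y := by
      unfold mvd; rw [zero_smul, NormedSpace.exp_zero, one_mul]
    unfold mvH' dfy res
    rw [e1, e2]
  simp only [e9] at h
  exact h

theorem dfy_cont {F : Mt m → ℂ} (hF : ContDiff ℂ 1 F) (X : Mt m) : Continuous (dfy L F X) := by
  unfold dfy
  exact Complex.continuous_re.comp (((hF.continuous_fderiv one_ne_zero).comp L.cont).clm_apply
    (continuous_const.mul L.cont))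

end

end Pool.Agent.T2H04.HY
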