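import Mathlib
import Pool.Agent.T2H04.HY.CovA
import Pool.Agent.T2H04.HY.SD

/-!
# Covariance: pointwise estimates
-/

open MeasureTheory Matrix Filter
open scoped Matrix.Norms.Frobenius Topology

namespace Pool.Agent.T2H04.HY

set_option linter.unusedSectionVars false

noncomputable section

variable {G : Type} [Group G] [TopologicalSpace G] [IsTopologicalGroup G] [CompactSpace G]
  [MeasurableSpace G] [BorelSpace G]
  {m : Type} [Fintype m] [DecidableEq m] {L : RD G m}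

theorem cv_exp2 {η : Mt m} (hη : ηᴴ = -η) : ‖NormedSpace.exp η - 1 - η‖ ≤ ‖η‖ ^ 2 := by
  have hd : ∀ s : ℝ, HasDerivAt (fun s : ℝ => NormedSpace.exp (s • η) - s • η)
      (NormedSpace.exp (s • η) * η - η) s := by
    intro s
    have h1 : HasDerivAt (fun s : ℝ => s • η) ((1 : ℝ) • η) s :=
      (hasDerivAt_id s).smul_const η
    rw [one_smul] at h1
    exact (hasDerivAt_exp η s).sub h1
  have h := norm_image_sub_le_of_norm_deriv_le_segment_01' (f := fun s : ℝ =>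
    NormedSpace.exp (s • η) - s • η) (f' := fun s => NormedSpace.exp (s • η) * η - η)
    (C := ‖η‖ ^ 2) (fun s _ => (hd s).hasDerivWithinAt) (by
      intro s hs
      have e : NormedSpace.exp (s • η) * η - η = (NormedSpace.exp (s • η) - 1) * η := by
        rw [sub_mul, one_mul]
      rw [e, pow_two]
      refine (norm_mul_le _ _).trans (mul_le_mul_of_nonneg_right ?_ (norm_nonneg _))
      refine (fw_exp_sub_one (smul_skew hη s)).trans ?_
      rw [norm_smul, Real.norm_eq_abs, abs_of_nonneg hs.1]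
      exact mul_le_of_le_one_left (norm_nonneg _) hs.2.le)
  have e2 : NormedSpace.exp η - 1 - η =
      (NormedSpace.exp ((1 : ℝ) • η) - (1 : ℝ) • η) -
        (NormedSpace.exp ((0 : ℝ) • η) - (0 : ℝ) • η) := by
    rw [one_smul, zero_smul, NormedSpace.exp_zero]
    abel
  rw [e2]
  exact h

section

variable {D : LogData m} {εg δ : ℝ} (ch : Chart L D εg δ)

include ch

theorem bc_schwarz {Z W : gC L} (hZ : ‖Z‖ < δ) (hW : ‖W‖ < δ) :
    ‖bc L D Z W - Z - W‖ ≤ εg * ‖Z‖ / δ * ‖W‖ := by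
  have h := Complex.dist_le_div_mul_dist_of_mapsTo_ball (f := fun W : gC L => bc L D Z W - Z - W)
    (c := 0) (R₁ := δ) (R₂ := εg * ‖Z‖) (z := W)
    (((bc_diff_right ch hZ).sub (differentiableOn_const _)).sub differentiableOn_id) (by
      intro W' hW'
      rw [mem_ball_zero_iff] at hW'
      rw [bc_zero_right ch hZ, sub_self, sub_zero, Metric.mem_closedBall, dist_zero_right]
      exact bc_sub_left ch hZ hW') (by rwa [mem_ball_zero_iff])
  rw [bc_zero_right ch hZ, sub_self, sub_zero, dist_zero_right, dist_zero_right] at h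
  exact h

end

/-- the trace as a continuous linear map -/
def trC (m : Type) [Fintype m] : Mt m →L[ℂ] ℂ :=
  LinearMap.toContinuousLinearMap (Matrix.traceLinearMap m ℂ ℂ)

theorem trC_apply (Z : Mt m) : trC m Z = trace Z := rfl

theorem Qf_deriv {Y : ℂ → Mt m} {V : Mt m} {s : ℂ} (h : HasDerivAt Y V s) :
    HasDerivAt (fun s => Qf (Y s)) (-(2 * trace (Y s * V))) s := by
  have h1 := (trC m).hasFDerivAt.comp_hasDerivAt s (h.mul h)
  have h2 := h1.neg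
  have e : -(2 * trace (Y s * V)) = -(trC m (V * Y s + Y s * V)) := by
    rw [trC_apply, trace_add, trace_mul_comm V (Y s)]
    ring
  rw [e]
  exact h2

theorem gC_norm (Z : gC L) : ‖Z‖ = ‖(Z : Mt m)‖ := rfl

theorem gC_norm_smul (s : ℂ) (Z : gC L) : ‖s • Z‖ = ‖s‖ * ‖(Z : Mt m)‖ := by
  rw [norm_smul]; rfl

/-- `F` along the complex curve through `y` -/
theorem curve_deriv {F : Mt m → ℂ} (hF : ContDiff ℂ 1 F) (X x : Mt m) :
    HasDerivAt (fun s : ℂ => F (NormedSpace.exp (s • X) * x)) (fderiv ℂ F x (X * x)) 0 := by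
  have h1 : HasDerivAt (fun s : ℂ => NormedSpace.exp (s • X)) (NormedSpace.exp ((0 : ℂ) • X) * X)
      0 := by
    have : CompleteSpace (Mt m) := FiniteDimensional.complete ℝ (Mt m)
    exact hasDerivAt_exp_smul_const X (0 : ℂ)
  have h2 := h1.mul_const x
  rw [zero_smul, NormedSpace.exp_zero, one_mul] at h2
  have h3 : HasFDerivAt F (fderiv ℂ F x) (NormedSpace.exp ((0 : ℂ) • X) * x) := by
    rw [zero_smul, NormedSpace.exp_zero, one_mul]
    exact ((hF.differentiable one_ne_zero) x).hasFDerivAt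
  exact h3.comp_hasDerivAt (0 : ℂ) h2

theorem res_coe {F : Mt m → ℂ} (hr : ∀ g, (F (L.rho g)).im = 0) (y : G) :
    F (L.rho y) = ((res L F y : ℝ) : ℂ) :=
  Complex.ext (by simp [res]) (by simp [hr])

theorem ipr_rho_le {X : Mt m} (hX : X ∈ lieSet L) (y : G) :
    |ipr X (L.rho y)| ≤ ‖X‖ * dis L y := by
  have e : ipr X (L.rho y) = ipr X (L.rho y - 1) := by
    rw [ipr_sub, ipr_one (lie_skew L hX), sub_zero]
  rw [e]
  exact ipr_abs_le _ _


theorem coe_deriv {Y : ℂ → gC L} {V : gC L} {s : ℂ} (h : HasDerivAt Y V s) :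
    HasDerivAt (fun s => ((Y s : gC L) : Mt m)) (V : Mt m) s :=
  (gC L).subtypeL.hasFDerivAt.comp_hasDerivAt s h

/-- the logarithm of the curve `exp (s X) exp η` -/
theorem curve_log {D : LogData m} {εg δ : ℝ} (ch : Chart L D εg δ) (he0 : 0 ≤ εg)
    (he : εg ≤ 1 / 1000000) {r : ℝ} (hr0 : 0 < r) (hδ : 2 * r ≤ δ) {X η : gC L}
    (hXp : 0 < ‖X‖) (hηp : 0 < ‖η‖) (hηr : ‖η‖ ≤ 51 / 100 * r) (himη : imP (η : Mt m) = 0)
    {ρs : ℝ} (hρs : ρs = ‖η‖ / (10 * ‖X‖)) :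
    ∃ (Y : ℂ → gC L) (V : gC L), DifferentiableOn ℂ Y (Metric.ball 0 (2 * ρs)) ∧
      (∀ s ∈ Metric.ball (0 : ℂ) (2 * ρs), Y s ∈ dom L r (r / 4)) ∧
      (∀ s ∈ Metric.ball (0 : ℂ) (2 * ρs), ‖s‖ ≤ ρs → ‖Y s‖ ≤ 111 / 100 * ‖η‖) ∧
      Y 0 = η ∧ HasDerivAt Y V 0 ∧ ‖V - X‖ ≤ 1 / δ * ‖X‖ * ‖η‖ ∧
      ∀ s ∈ Metric.ball (0 : ℂ) (2 * ρs), NormedSpace.exp ((Y s : gC L) : Mt m) =
        NormedSpace.exp (s • (X : Mt m)) * NormedSpace.exp (η : Mt m) := by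
  have hδ0 : 0 < δ := ch.pos
  have hηδ : ‖η‖ < δ := by linarith
  have hρ0 : 0 < ρs := by rw [hρs]; positivity
  have hρX : ρs * ‖X‖ = ‖η‖ / 10 := by rw [hρs]; field_simp
  obtain ⟨Y, hY⟩ : ∃ Y : ℂ → gC L, ∀ s, Y s = bc L D (s • X) η := ⟨_, fun _ => rfl⟩
  have hsn : ∀ s : ℂ, ‖s • X‖ = ‖s‖ * ‖X‖ := fun s => norm_smul s X
  have hsδ : ∀ s ∈ Metric.ball (0 : ℂ) (2 * ρs), ‖s • X‖ < δ := by
    intro s hs
    rw [mem_ball_zero_iff] at hs
    rw [hsn]
    have : ‖s‖ * ‖X‖ < 2 * ρs * ‖X‖ := mul_lt_mul_of_pos_right hs hXp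
    nlinarith
  have hYdiff : DifferentiableOn ℂ Y (Metric.ball 0 (2 * ρs)) := by
    have hYf : Y = (fun Z : gC L => bc L D Z η) ∘ (fun s : ℂ => s • X) := funext hY
    rw [hYf]
    refine (bc_diff_left ch hηδ).comp ((differentiable_id.smul_const X).differentiableOn) ?_
    intro s hs
    rw [mem_ball_zero_iff]
    exact hsδ s hs
  have hYn : ∀ s ∈ Metric.ball (0 : ℂ) (2 * ρs), ‖Y s - η‖ ≤ (1 + εg) * (‖s‖ * ‖X‖) := by
    intro s hs
    have h1 := bc_sub_left ch (hsδ s hs) hηδ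
    rw [← hY] at h1
    have h2 : ‖Y s - η‖ ≤ ‖Y s - s • X - η‖ + ‖s • X‖ := by
      have e : Y s - η = (Y s - s • X - η) + s • X := by abel
      rw [e]; exact norm_add_le _ _
    rw [hsn] at h1 h2
    linarith
  have hYim : ∀ s ∈ Metric.ball (0 : ℂ) (2 * ρs), ‖imP ((Y s : gC L) : Mt m)‖ ≤ ‖Y s - η‖ := by
    intro s hs
    have e : imP ((Y s : gC L) : Mt m) = imP (((Y s : gC L) : Mt m) - (η : Mt m)) := by
      rw [imP_sub, himη, sub_zero]
    rw [e]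
    exact norm_imP_le _
  have hYdom : ∀ s ∈ Metric.ball (0 : ℂ) (2 * ρs), Y s ∈ dom L r (r / 4) := by
    intro s hs
    have h1 := hYn s hs
    have h2 := hYim s hs
    have hs' := hs
    rw [mem_ball_zero_iff] at hs'
    have h3 : ‖s‖ * ‖X‖ < 2 * ρs * ‖X‖ := mul_lt_mul_of_pos_right hs' hXp
    have h4 : ‖Y s - η‖ < 21 / 100 * ‖η‖ := by nlinarith
    have h5 : ‖((Y s : gC L) : Mt m)‖ ≤ ‖Y s - η‖ + ‖η‖ := by
      have e : Y s = (Y s - η) + η := by abel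
      have h6 : ‖Y s‖ ≤ ‖Y s - η‖ + ‖η‖ := by
        conv_lhs => rw [e]
        exact norm_add_le _ _
      exact h6
    refine ⟨?_, ?_⟩
    · have := norm_reP_le ((Y s : gC L) : Mt m)
      nlinarith
    · nlinarith
  have h0mem : (0 : ℂ) ∈ Metric.ball (0 : ℂ) (2 * ρs) := Metric.mem_ball_self (by positivity)
  have hnh : Metric.ball (0 : ℂ) (2 * ρs) ∈ nhds (0 : ℂ) :=
    Metric.isOpen_ball.mem_nhds h0mem
  have hY0 : Y 0 = η := by
    rw [hY, zero_smul]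
    exact bc_zero_left ch hηδ
  obtain ⟨V, hV⟩ : ∃ V : gC L, HasDerivAt Y V 0 :=
    ⟨_, ((hYdiff 0 h0mem).differentiableAt hnh).hasDerivAt⟩
  have hVn : ‖V - X‖ ≤ 1 / δ * ‖X‖ * ‖η‖ := by
    have h1 : HasDerivAt (fun s => Y s - s • X) (V - (1 : ℂ) • X) 0 :=
      hV.sub ((hasDerivAt_id (0 : ℂ)).smul_const X)
    rw [one_smul] at h1
    refine h1.le_of_lip' (by positivity) ?_
    filter_upwards [hnh] with s hs
    rw [hY0, zero_smul, sub_zero, sub_zero]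
    have h2 := bc_schwarz ch (hsδ s hs) hηδ
    rw [← hY] at h2
    refine h2.trans ?_
    rw [hsn]
    have h4 : εg * (‖s‖ * ‖X‖) / δ * ‖η‖ = εg * (1 / δ * ‖X‖ * ‖η‖ * ‖s‖) := by ring
    rw [h4]
    exact mul_le_of_le_one_left (by positivity) (by linarith)
  refine ⟨Y, V, hYdiff, hYdom, ?_, hY0, hV, hVn, ?_⟩
  · intro s hs hsr
    have h2 := hYn s hs
    have h5 : ‖Y s‖ ≤ ‖Y s - η‖ + ‖η‖ := by
      have e : Y s = (Y s - η) + η := by abel
      conv_lhs => rw [e]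
      exact norm_add_le _ _
    have h6 : ‖s‖ * ‖X‖ ≤ ρs * ‖X‖ := mul_le_mul_of_nonneg_right hsr hXp.le
    rw [hρX] at h6
    nlinarith
  · intro s hs
    have h1 := exp_bc ch (hsδ s hs) hηδ
    rw [← hY] at h1
    exact h1

/-- bound of the derivative of the remainder along the curve -/
theorem curve_w {A r ρs : ℝ} (hA : 0 ≤ A) {X η : gC L}
    (hXp : 0 < ‖X‖) (hηp : 0 < ‖η‖) (hρs : ρs = ‖η‖ / (10 * ‖X‖)) {Y : ℂ → gC L}
    (hYdiff : DifferentiableOn ℂ Y (Metric.ball 0 (2 * ρs)))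
    (hYdom : ∀ s ∈ Metric.ball (0 : ℂ) (2 * ρs), Y s ∈ dom L r (r / 4))
    (hYn : ∀ s ∈ Metric.ball (0 : ℂ) (2 * ρs), ‖s‖ ≤ ρs → ‖Y s‖ ≤ 111 / 100 * ‖η‖)
    {w : gC L → ℂ} (hwd : DifferentiableOn ℂ w (dom L r (r / 4)))
    (hwA : ∀ Z ∈ dom L r (r / 4), ‖w Z‖ ≤ A * ‖Z‖ ^ 4) :
    ∃ W' : ℂ, HasDerivAt (fun s => w (Y s)) W' 0 ∧ ‖W'‖ ≤ 16 * A * ‖η‖ ^ 3 * ‖X‖ := by
  have hρ0 : 0 < ρs := by rw [hρs]; positivity
  have hWdiff : DifferentiableOn ℂ (fun s => w (Y s)) (Metric.ball 0 (2 * ρs)) :=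
    hwd.comp hYdiff hYdom
  have h0mem : (0 : ℂ) ∈ Metric.ball (0 : ℂ) (2 * ρs) := Metric.mem_ball_self (by positivity)
  have hnh : Metric.ball (0 : ℂ) (2 * ρs) ∈ nhds (0 : ℂ) :=
    Metric.isOpen_ball.mem_nhds h0mem
  have hsub : Metric.closedBall (0 : ℂ) ρs ⊆ Metric.ball 0 (2 * ρs) :=
    Metric.closedBall_subset_ball (by linarith)
  refine ⟨_, ((hWdiff 0 h0mem).differentiableAt hnh).hasDerivAt, ?_⟩
  have h1 := Complex.norm_deriv_le_of_forall_mem_sphere_norm_le (f := fun s => w (Y s)) (c := 0)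
    (R := ρs) (C := 16 / 10 * A * ‖η‖ ^ 4) hρ0 (hWdiff.diffContOnCl_ball hsub) (by
      intro s hs
      have hsb : s ∈ Metric.ball (0 : ℂ) (2 * ρs) := hsub (Metric.sphere_subset_closedBall hs)
      have hsr : ‖s‖ = ρs := by simpa using hs
      refine (hwA _ (hYdom s hsb)).trans ?_
      have h3 := hYn s hsb hsr.le
      have h4 : ‖Y s‖ ^ 4 ≤ (111 / 100 * ‖η‖) ^ 4 := pow_le_pow_left₀ (norm_nonneg _) h3 4
      have h5 : (111 / 100 * ‖η‖) ^ 4 ≤ 16 / 10 * ‖η‖ ^ 4 := by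
        rw [mul_pow]
        exact mul_le_mul_of_nonneg_right (by norm_num) (by positivity)
      calc A * ‖Y s‖ ^ 4 ≤ A * (16 / 10 * ‖η‖ ^ 4) :=
            mul_le_mul_of_nonneg_left (h4.trans h5) hA
        _ = 16 / 10 * A * ‖η‖ ^ 4 := by ring)
  refine h1.trans (le_of_eq ?_)
  rw [hρs]
  field_simp

end

end Pool.Agent.T2H04.HY
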