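import Mathlib
import Pool.Agent.T2H04.HY.CovB
import Pool.Agent.T2H04.HY.CovC

/-!
# Covariance: pointwise estimates
-/

open MeasureTheory Matrix Filter
open scoped Matrix.Norms.Frobenius Topology

namespace Pool.Agent.T2H04.HY

set_option linter.unusedSectionVars false

noncomputable section

variable {G : Type} [Group G] [TopologicalSpace G] [IsTopologicalGroup G] [CompactSpace G]
  [MeasurableSpace G] [BorelSpace G]
  {m : Type} [Fintype m] [DecidableEq m] {L : RD G m}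

/-- the logarithmic derivative along the curve -/
theorem curve_id {F : Mt m → ℂ} (hF : ContDiff ℂ 1 F) {t : ℝ} (ht : 0 < t) {X η : gC L}
    {x : Mt m} {Y : ℂ → gC L} {V : gC L} {R : ℝ} (hR : 0 < R)
    (hY0 : Y 0 = η) (hV : HasDerivAt Y V 0) {w : gC L → ℂ} {W' : ℂ}
    (hW : HasDerivAt (fun s => w (Y s)) W' 0) {c : ℂ}
    (heq : ∀ s ∈ Metric.ball (0 : ℂ) R, F (NormedSpace.exp (s • (X : Mt m)) * x) =
      c * Complex.exp (-(Qf ((Y s : gC L) : Mt m) / (2 * t)) - w (Y s))) :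
    fderiv ℂ F x ((X : Mt m) * x) = F x * (trace ((η : Mt m) * (V : Mt m)) / t - W') := by
  have hnh : Metric.ball (0 : ℂ) R ∈ nhds (0 : ℂ) := Metric.ball_mem_nhds _ hR
  have h0mem : (0 : ℂ) ∈ Metric.ball (0 : ℂ) R := Metric.mem_ball_self hR
  have hQ := Qf_deriv (coe_deriv hV)
  rw [hY0] at hQ
  have hψ := (((hQ.div_const (2 * (t : ℂ))).neg.sub hW).cexp).const_mul c
  have hφ := curve_deriv hF (X : Mt m) x
  have hφψ := hψ.congr_of_eventuallyEq (f₁ := fun s : ℂ =>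
      F (NormedSpace.exp (s • (X : Mt m)) * x)) (by
      filter_upwards [hnh] with s hs
      exact heq s hs)
  have hu := hφ.unique hφψ
  have h00 := heq 0 h0mem
  rw [zero_smul, NormedSpace.exp_zero, one_mul, hY0] at h00
  rw [hu, h00]
  have ht' : (t : ℂ) ≠ 0 := by exact_mod_cast ht.ne'
  simp only [Pi.neg_apply, Pi.sub_apply, hY0]
  have e : -(-(2 * trace ((η : Mt m) * (V : Mt m))) / (2 * (t : ℂ))) - W' =
      trace ((η : Mt m) * (V : Mt m)) / t - W' := by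
    field_simp
  rw [e, mul_assoc]

theorem smul_coe' (s : ℂ) (X : gC L) : ((s • X : gC L) : Mt m) = s • (X : Mt m) := rfl

/-- the estimate near `1`, away from `1` -/
theorem near_core {D : LogData m} {εg δ : ℝ} (ch : Chart L D εg δ) (he0 : 0 ≤ εg)
    (he : εg ≤ 1 / 1000000) {F : Mt m → ℂ} {t A r : ℝ}
    (cl : Cls L F t A r (r / 4) (95 / 100 * r) (84 / 100 * r ^ 2) (1 / 10000)) (ht : 0 < t)
    (hA : 0 ≤ A) (hr0 : 0 < r) (hδ : 2 * r ≤ δ) {X : Mt m} (hX : X ∈ lieSet L)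
    (hXp : 0 < ‖X‖) {y : G} (hy : dis L y < r / 2) (hdp : 0 < dis L y) :
    |ipr X (L.rho y) * res L F y + t * dfy L F X y| ≤
      res L F y * (‖X‖ * ((4 + 8 / δ) * dis L y ^ 2 + 128 * (t * A) * dis L y ^ 3)) := by
  have hδ0 : 0 < δ := ch.pos
  have hres : 0 ≤ res L F y := cl.nonneg y
  have hyδ : dis L y < δ := by linarith
  obtain ⟨hη, hηe, hη1, hη2⟩ := ch.lgm y hyδ
  obtain ⟨η, hηd⟩ : ∃ η, η = D.lg (L.rho y) := ⟨_, rfl⟩
  rw [← hηd] at hη hηe hη1 hη2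
  have hηs : ηᴴ = -η := lie_skew L hη
  have hXs : Xᴴ = -X := lie_skew L hX
  obtain ⟨ηc, hηc⟩ : ∃ ηc : gC L, (ηc : Mt m) = η := ⟨⟨η, gC_of_lie L hη⟩, rfl⟩
  obtain ⟨Xc, hXc⟩ : ∃ Xc : gC L, (Xc : Mt m) = X := ⟨⟨X, gC_of_lie L hX⟩, rfl⟩
  have hnη : ‖ηc‖ = ‖η‖ := by rw [← hηc]; rfl
  have hnX : ‖Xc‖ = ‖X‖ := by rw [← hXc]; rfl
  have hηp : 0 < ‖η‖ := by
    by_contra h
    have h0 : ‖η‖ = 0 := le_antisymm (not_lt.1 h) (norm_nonneg _)
    rw [h0, mul_zero] at hη2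
    linarith
  have hηr : ‖η‖ ≤ 51 / 100 * r := by nlinarith
  have hη2d : ‖η‖ ≤ 2 * dis L y := by nlinarith
  have himη : imP (ηc : Mt m) = 0 := by rw [hηc]; exact imP_of_skew hηs
  obtain ⟨Y, V, hYdiff, hYdom, hYn, hY0, hV, hVn, hYe⟩ := curve_log ch he0 he hr0 hδ (X := Xc)
    (η := ηc) (by rwa [hnX]) (by rwa [hnη]) (by rwa [hnη]) himη rfl
  obtain ⟨w, hwd, -, -, -, hwA, hwF⟩ := cl.small
  obtain ⟨W', hW, hWn⟩ := curve_w hA (by rwa [hnX]) (by rwa [hnη]) rfl hYdiff hYdom hYn hwd hwA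
  have hR : 0 < 2 * (‖ηc‖ / (10 * ‖Xc‖)) := by rw [hnη, hnX]; positivity
  have hid := curve_id cl.diff ht (X := Xc) (η := ηc) (x := L.rho y) (c := F 1) hR hY0 hV hW (by
    intro s hs
    rw [← hwF _ (hYdom s hs), hYe s hs, hηc, hηe])
  rw [res_coe cl.real, hηc, hXc] at hid
  have hdf : t * dfy L F X y = res L F y * (-ipr η (V : Mt m) - t * W'.re) := by
    unfold dfy
    rw [hid, Complex.re_ofReal_mul, Complex.sub_re, Complex.div_ofReal_re, ipr_trace hηs]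
    field_simp
  have hVm : ‖(V : Mt m) - X‖ ≤ 1 / δ * ‖X‖ * ‖η‖ := by
    rw [hnη, hnX] at hVn
    rw [← hXc] at hVn ⊢
    exact hVn
  rw [hnη, hnX] at hWn
  have hl : |ipr X (L.rho y) - ipr η (V : Mt m)| ≤ ‖X‖ * ‖η‖ ^ 2 + 1 / δ * ‖X‖ * ‖η‖ ^ 2 := by
    have e1 : ipr X (L.rho y) - ipr η (V : Mt m) =
        ipr X (NormedSpace.exp η - 1 - η) - ipr η ((V : Mt m) - X) := by
      rw [ipr_sub, ipr_sub, ipr_sub, ipr_one hXs, hηe, ipr_comm X η]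
      ring
    rw [e1]
    refine (abs_sub _ _).trans (add_le_add ?_ ?_)
    · exact (ipr_abs_le _ _).trans (mul_le_mul_of_nonneg_left (cv_exp2 hηs) (norm_nonneg _))
    · refine (ipr_abs_le _ _).trans ?_
      calc ‖η‖ * ‖(V : Mt m) - X‖ ≤ ‖η‖ * (1 / δ * ‖X‖ * ‖η‖) :=
            mul_le_mul_of_nonneg_left hVm (norm_nonneg _)
        _ = _ := by ring
  rw [hdf]
  have e3 : ipr X (L.rho y) * res L F y + res L F y * (-ipr η (V : Mt m) - t * W'.re) =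
      res L F y * ((ipr X (L.rho y) - ipr η (V : Mt m)) - t * W'.re) := by ring
  rw [e3, abs_mul, abs_of_nonneg hres]
  refine mul_le_mul_of_nonneg_left ?_ hres
  have h5 : |ipr X (L.rho y) - ipr η (V : Mt m) - t * W'.re| ≤
      ‖X‖ * ‖η‖ ^ 2 + 1 / δ * ‖X‖ * ‖η‖ ^ 2 + t * (16 * A * ‖η‖ ^ 3 * ‖X‖) := by
    refine (abs_sub _ _).trans (add_le_add hl ?_)
    rw [abs_mul, abs_of_pos ht]
    exact mul_le_mul_of_nonneg_left ((Complex.abs_re_le_norm _).trans hWn) ht.le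
  refine h5.trans ?_
  have h6 : ‖η‖ ^ 2 ≤ 4 * dis L y ^ 2 := by
    have := pow_le_pow_left₀ hηp.le hη2d 2
    rw [mul_pow] at this; linarith
  have h7 : ‖η‖ ^ 3 ≤ 8 * dis L y ^ 3 := by
    have := pow_le_pow_left₀ hηp.le hη2d 3
    rw [mul_pow] at this; linarith
  have i1 : ‖X‖ * ‖η‖ ^ 2 ≤ ‖X‖ * (4 * dis L y ^ 2) := mul_le_mul_of_nonneg_left h6 hXp.le
  have i2 : 1 / δ * ‖X‖ * ‖η‖ ^ 2 ≤ 1 / δ * ‖X‖ * (4 * dis L y ^ 2) :=
    mul_le_mul_of_nonneg_left h6 (by positivity)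
  have i3 : t * (16 * A * ‖η‖ ^ 3 * ‖X‖) ≤ t * (16 * A * (8 * dis L y ^ 3) * ‖X‖) := by
    refine mul_le_mul_of_nonneg_left ?_ ht.le
    refine mul_le_mul_of_nonneg_right ?_ hXp.le
    exact mul_le_mul_of_nonneg_left h7 (by positivity)
  have i4 : 0 ≤ ‖X‖ * (4 / δ * dis L y ^ 2) := by positivity
  have e : ‖X‖ * ((4 + 8 / δ) * dis L y ^ 2 + 128 * (t * A) * dis L y ^ 3) =
      ‖X‖ * (4 * dis L y ^ 2) + 1 / δ * ‖X‖ * (4 * dis L y ^ 2) +
      t * (16 * A * (8 * dis L y ^ 3) * ‖X‖) + ‖X‖ * (4 / δ * dis L y ^ 2) := by ring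
  rw [e]
  linarith

/-- the estimate near `1` -/
theorem near_est {D : LogData m} {εg δ : ℝ} (ch : Chart L D εg δ) (he0 : 0 ≤ εg)
    (he : εg ≤ 1 / 1000000) {F : Mt m → ℂ} {t A r : ℝ}
    (cl : Cls L F t A r (r / 4) (95 / 100 * r) (84 / 100 * r ^ 2) (1 / 10000)) (ht : 0 < t)
    (hA : 0 ≤ A) (hr0 : 0 < r) (hδ : 2 * r ≤ δ) {X : Mt m} (hX : X ∈ lieSet L)
    {y : G} (hy : dis L y < r / 2) :
    |ipr X (L.rho y) * (ipr X (L.rho y) * res L F y + t * dfy L F X y)| ≤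
      ‖X‖ ^ 2 * dis L y * res L F y *
        ((4 + 8 / δ) * dis L y ^ 2 + 128 * (t * A) * dis L y ^ 3) := by
  have hδ0 : 0 < δ := ch.pos
  have hres : 0 ≤ res L F y := cl.nonneg y
  have hdis0 : 0 ≤ dis L y := norm_nonneg _
  have hrhs : 0 ≤ ‖X‖ ^ 2 * dis L y * res L F y *
        ((4 + 8 / δ) * dis L y ^ 2 + 128 * (t * A) * dis L y ^ 3) := by positivity
  by_cases hX0 : X = 0
  · subst hX0
    have : ipr (0 : Mt m) (L.rho y) = 0 := by simp [ipr]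
    rw [this, zero_mul, abs_zero]
    exact hrhs
  by_cases hd0 : dis L y = 0
  · have h1 := ipr_rho_le hX y
    rw [hd0, mul_zero] at h1
    have : ipr X (L.rho y) = 0 := abs_eq_zero.1 (le_antisymm h1 (abs_nonneg _))
    rw [this, zero_mul, abs_zero]
    exact hrhs
  have hXp : 0 < ‖X‖ := norm_pos_iff.2 hX0
  have hdp : 0 < dis L y := lt_of_le_of_ne hdis0 (Ne.symm hd0)
  have h := near_core ch he0 he cl ht hA hr0 hδ hX hXp hy hdp
  rw [abs_mul]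
  calc |ipr X (L.rho y)| * |ipr X (L.rho y) * res L F y + t * dfy L F X y|
      ≤ (‖X‖ * dis L y) * (res L F y *
        (‖X‖ * ((4 + 8 / δ) * dis L y ^ 2 + 128 * (t * A) * dis L y ^ 3))) :=
        mul_le_mul (ipr_rho_le hX y) h (abs_nonneg _) (by positivity)
    _ = _ := by ring

end

end Pool.Agent.T2H04.HY
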