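import Mathlib
import Pool.Agent.T2H04.HY.CovD
import Pool.Agent.T2H04.HY.Ub

/-!
# Covariance: far region, upper and lower bounds
-/

open MeasureTheory Matrix Filter
open scoped Matrix.Norms.Frobenius Topology

namespace Pool.Agent.T2H04.HY

set_option linter.unusedSectionVars false

noncomputable section

variable {G : Type} [Group G] [TopologicalSpace G] [IsTopologicalGroup G] [CompactSpace G]
  [MeasurableSpace G] [BorelSpace G]
  {m : Type} [Fintype m] [DecidableEq m] {L : RD G m}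

/-- arithmetic: the exponent -/
theorem cv_arith {r M a d a' h : ℝ} (hr : 0 < r) (hM : 0 < M) (hd : 0 ≤ d) (hdM : d ≤ M)
    (ha : a = min (8 / 10 * r ^ 2 / M ^ 2) (7 / 10) / 2) (ha' : 7 / 8 * d ≤ a')
    (hh1 : 256 * h ≤ r ^ 2) (hh2 : 64 * h ≤ d ^ 2) :
    2 * a * d ^ 2 ≤ min (84 / 100 * r ^ 2) ((1 - 1 / 10000) * a' ^ 2) - (1 + 1 / 10000) * h := by
  have h1 : 2 * a ≤ 8 / 10 * r ^ 2 / M ^ 2 := by
    rw [ha]; have := min_le_left (8 / 10 * r ^ 2 / M ^ 2) (7 / 10 : ℝ); linarith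
  have h2 : 2 * a ≤ 7 / 10 := by
    rw [ha]; have := min_le_right (8 / 10 * r ^ 2 / M ^ 2) (7 / 10 : ℝ); linarith
  have hd2 : d ^ 2 ≤ M ^ 2 := pow_le_pow_left₀ hd hdM 2
  have h3 : 2 * a * d ^ 2 ≤ 8 / 10 * r ^ 2 := by
    calc 2 * a * d ^ 2 ≤ (8 / 10 * r ^ 2 / M ^ 2) * d ^ 2 :=
          mul_le_mul_of_nonneg_right h1 (sq_nonneg _)
      _ ≤ (8 / 10 * r ^ 2 / M ^ 2) * M ^ 2 := mul_le_mul_of_nonneg_left hd2 (by positivity)
      _ = 8 / 10 * r ^ 2 := by field_simp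
  have h4 : 2 * a * d ^ 2 ≤ 7 / 10 * d ^ 2 := mul_le_mul_of_nonneg_right h2 (sq_nonneg _)
  have h5 : (7 / 8 * d) ^ 2 ≤ a' ^ 2 := pow_le_pow_left₀ (by positivity) ha' 2
  rw [le_sub_iff_add_le, le_min_iff]
  constructor
  · nlinarith [sq_nonneg r]
  · nlinarith [sq_nonneg d]

section

variable {D : LogData m} {εg δ : ℝ} (ch : Chart L D εg δ) (he0 : 0 ≤ εg)
    (he : εg ≤ 1 / 1000000) {F : Mt m → ℂ} {t A r M a : ℝ}
    (cl : Cls L F t A r (r / 4) (95 / 100 * r) (84 / 100 * r ^ 2) (1 / 10000)) (ht : 0 < t)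
    (hA : 0 ≤ A) (hAt : A * t ≤ 1 / 10) (hr0 : 0 < r) (hr : r ≤ 1 / 1000) (hδ : 2 * r ≤ δ)
    (hM : 0 < M) (ha : a = min (8 / 10 * r ^ 2 / M ^ 2) (7 / 10) / 2)

include ch he0 he cl ht hA hAt hr0 hr hδ hM ha

theorem cv_ub (Z : gC L) (hZ : ‖(Z : Mt m)‖ ≤ r / 16) {y : G} (hy : dis L y ≤ M)
    (hZy : 8 * ‖(Z : Mt m)‖ ≤ dis L y) :
    ‖F (NormedSpace.exp (Z : Mt m) * L.rho y)‖ ≤
      (F 1).re * Real.exp (-(a * dis L y ^ 2 / t)) := by
  have hdis0 : 0 ≤ dis L y := norm_nonneg _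
  have h := ubound ch he0 he cl ht hA hAt hr0 hr (by positivity) (by linarith) hδ
    (by nlinarith) Z (by have := norm_reP_le (Z : Mt m); linarith)
    (by have := norm_imP_le (Z : Mt m); linarith) y
  refine h.trans (mul_le_mul_of_nonneg_left (Real.exp_le_exp.2 ?_) cl.pos.le)
  rw [neg_le_neg_iff]
  have ha' : 7 / 8 * dis L y ≤ ‖NormedSpace.exp (reP (Z : Mt m)) * L.rho y - 1‖ := by
    have e1 : dis L y ≤ ‖NormedSpace.exp (reP (Z : Mt m)) * L.rho y - 1‖ +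
        ‖(NormedSpace.exp (reP (Z : Mt m)) - 1) * L.rho y‖ := by
      have e : L.rho y - 1 = (NormedSpace.exp (reP (Z : Mt m)) * L.rho y - 1) -
          (NormedSpace.exp (reP (Z : Mt m)) - 1) * L.rho y := by
        rw [sub_mul, one_mul]; abel
      unfold dis
      rw [e]
      exact norm_sub_le _ _
    rw [norm_mul_rho] at e1
    have e2 := fw_exp_sub_one (reP_skew (Z : Mt m))
    have e3 := norm_reP_le (Z : Mt m)
    linarith
  have hi := norm_imP_le (Z : Mt m)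
  have hi2 : ‖imP (Z : Mt m)‖ ^ 2 ≤ ‖(Z : Mt m)‖ ^ 2 := pow_le_pow_left₀ (norm_nonneg _) hi 2
  have hz2 : ‖(Z : Mt m)‖ ^ 2 ≤ (r / 16) ^ 2 := pow_le_pow_left₀ (norm_nonneg _) hZ 2
  have hz3 : (8 * ‖(Z : Mt m)‖) ^ 2 ≤ dis L y ^ 2 := pow_le_pow_left₀ (by positivity) hZy 2
  have h3 := cv_arith hr0 hM hdis0 hy ha ha' (h := ‖imP (Z : Mt m)‖ ^ 2) (by nlinarith)
    (by nlinarith)
  rw [le_div_iff₀ (by positivity)]
  have e4 : a * dis L y ^ 2 / t * (2 * t) = 2 * a * dis L y ^ 2 := by field_simp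
  rw [e4]
  exact h3

theorem cv_res_le {y : G} (hy : dis L y ≤ M) :
    res L F y ≤ (F 1).re * Real.exp (-(a * dis L y ^ 2 / t)) := by
  have h := cv_ub ch he0 he cl ht hA hAt hr0 hr hδ hM ha (0 : gC L)
    (by rw [ZeroMemClass.coe_zero, norm_zero]; positivity) hy
    (by rw [ZeroMemClass.coe_zero, norm_zero, mul_zero]; exact norm_nonneg _)
  rw [ZeroMemClass.coe_zero, NormedSpace.exp_zero, one_mul] at h
  exact (Complex.re_le_norm _).trans h

theorem cv_far {X : Mt m} (hX : X ∈ lieSet L) {y : G} (hy : dis L y ≤ M)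
    (hy2 : r / 2 ≤ dis L y) :
    |dfy L F X y| ≤ 16 / r * ‖X‖ * ((F 1).re * Real.exp (-(a * dis L y ^ 2 / t))) := by
  by_cases hX0 : X = 0
  · subst hX0
    unfold dfy
    rw [zero_mul, map_zero]
    simp
  have hXp : 0 < ‖X‖ := norm_pos_iff.2 hX0
  obtain ⟨Xc, hXc⟩ : ∃ Xc : gC L, (Xc : Mt m) = X := ⟨⟨X, gC_of_lie L hX⟩, rfl⟩
  have hφ := curve_deriv cl.diff X (L.rho y)
  have hdiff : Differentiable ℂ (fun s : ℂ => F (NormedSpace.exp (s • X) * L.rho y)) := by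
    intro s
    have h1 : HasDerivAt (fun s : ℂ => NormedSpace.exp (s • X)) (NormedSpace.exp (s • X) * X)
        s := by
      have : CompleteSpace (Mt m) := FiniteDimensional.complete ℝ (Mt m)
      exact hasDerivAt_exp_smul_const X s
    have h2 := h1.mul_const (L.rho y)
    have h3 : HasFDerivAt F (fderiv ℂ F (NormedSpace.exp (s • X) * L.rho y))
        (NormedSpace.exp (s • X) * L.rho y) :=
      ((cl.diff.differentiable one_ne_zero) _).hasFDerivAt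
    exact (h3.comp_hasDerivAt s h2).differentiableAt
  have hR : 0 < r / (16 * ‖X‖) := by positivity
  have h1 := Complex.norm_deriv_le_of_forall_mem_sphere_norm_le
    (f := fun s : ℂ => F (NormedSpace.exp (s • X) * L.rho y)) (c := 0)
    (R := r / (16 * ‖X‖)) (C := (F 1).re * Real.exp (-(a * dis L y ^ 2 / t))) hR
    hdiff.diffContOnCl (by
      intro s hs
      have hsr : ‖s‖ = r / (16 * ‖X‖) := by simpa using hs
      have hn : ‖((s • Xc : gC L) : Mt m)‖ = r / 16 := by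
        rw [smul_coe', hXc, norm_smul, hsr]; field_simp
      have h2 := cv_ub ch he0 he cl ht hA hAt hr0 hr hδ hM ha (s • Xc) (by rw [hn]) hy
        (by rw [hn]; linarith)
      rw [smul_coe', hXc] at h2
      exact h2)
  rw [hφ.deriv] at h1
  have h2 : |dfy L F X y| ≤ ‖fderiv ℂ F (L.rho y) (X * L.rho y)‖ := Complex.abs_re_le_norm _
  refine h2.trans (h1.trans (le_of_eq ?_))
  field_simp

theorem cv_res_ge {y : G} (hy : dis L y < r / 2) (hyt : dis L y ^ 2 ≤ t) (ht1 : t ≤ 1) :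
    (F 1).re * Real.exp (-1) ≤ res L F y := by
  obtain ⟨hη, hηe, hη1, -⟩ := ch.lgm y (by linarith)
  obtain ⟨η, hηd⟩ : ∃ η, η = D.lg (L.rho y) := ⟨_, rfl⟩
  rw [← hηd] at hη hηe hη1
  have hηs : ηᴴ = -η := lie_skew L hη
  obtain ⟨ηc, hηc⟩ : ∃ ηc : gC L, (ηc : Mt m) = η := ⟨⟨η, gC_of_lie L hη⟩, rfl⟩
  have hnη : ‖ηc‖ = ‖η‖ := by rw [← hηc]; rfl
  have hdis0 : 0 ≤ dis L y := norm_nonneg _
  have hη2 : ‖η‖ ≤ 11 / 10 * dis L y := by nlinarith
  have hdom : ηc ∈ dom L r (r / 4) := by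
    constructor
    · rw [hηc, reP_of_skew hηs]; linarith
    · rw [hηc, imP_of_skew hηs, norm_zero]; positivity
  obtain ⟨w, -, -, -, -, hwA, hwF⟩ := cl.small
  have h1 := hwF ηc hdom
  rw [hηc, hηe] at h1
  have hres0 : 0 ≤ res L F y := cl.nonneg y
  have h2 : res L F y = ‖F (L.rho y)‖ := by
    rw [res_coe cl.real, Complex.norm_real, Real.norm_eq_abs, abs_of_nonneg hres0]
  rw [h2, h1, norm_mul, cls_normF1 cl, norm_cexp_form]
  refine mul_le_mul_of_nonneg_left (Real.exp_le_exp.2 ?_) cl.pos.le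
  have hQ : (Qf η).re = ‖η‖ ^ 2 := by
    rw [Qf_re, reP_of_skew hηs, imP_of_skew hηs, norm_zero]; ring
  rw [hQ]
  have hw := hwA ηc hdom
  rw [hnη] at hw
  have hwr : (w ηc).re ≤ A * ‖η‖ ^ 4 := (Complex.re_le_norm _).trans hw
  have h3 : ‖η‖ ^ 2 ≤ 121 / 100 * t := by
    have := pow_le_pow_left₀ (norm_nonneg _) hη2 2
    rw [mul_pow] at this
    linarith
  have h4 : ‖η‖ ^ 4 ≤ 3 / 2 * t ^ 2 := by
    have := pow_le_pow_left₀ (sq_nonneg ‖η‖) h3 2
    nlinarith [sq_nonneg t]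
  have h5 : ‖η‖ ^ 2 / (2 * t) ≤ 121 / 200 := by
    rw [div_le_iff₀ (by positivity)]; linarith
  have h6 : A * ‖η‖ ^ 4 ≤ 3 / 20 := by
    have i1 : A * ‖η‖ ^ 4 ≤ A * (3 / 2 * t ^ 2) := mul_le_mul_of_nonneg_left h4 hA
    have i2 : A * (3 / 2 * t ^ 2) = (A * t) * (3 / 2 * t) := by ring
    have i3 : (A * t) * (3 / 2 * t) ≤ 1 / 10 * (3 / 2 * 1) :=
      mul_le_mul hAt (by linarith) (by positivity) (by norm_num)
    linarith
  linarith

end

end

end Pool.Agent.T2H04.HY
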