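import Mathlib
import Pool.Agent.T2H04.HY.Conv1
import Pool.Agent.T2H04.HY.CovE
import Pool.Agent.T2H04.HY.Haar

/-!
# Covariance of the logarithm under `F ^ q`, by integration by parts
-/

open MeasureTheory Matrix Filter
open scoped Matrix.Norms.Frobenius Topology

namespace Pool.Agent.T2H04.HY

set_option linter.unusedSectionVars false

noncomputable section

variable {G : Type} [Group G] [TopologicalSpace G] [IsTopologicalGroup G] [CompactSpace G]
  [MeasurableSpace G] [BorelSpace G] (μ : Measure G) [μ.IsHaarMeasure] [IsProbabilityMeasure μ]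
  {m : Type} [Fintype m] [DecidableEq m] (L : RD G m)

/-- the integrand of the error -/
def cvJ (F : Mt m → ℂ) (t : ℝ) (q : ℕ) (X : Mt m) (y : G) : ℝ :=
  (res L F y) ^ (q - 1) * (ipr X (L.rho y) * (ipr X (L.rho y) * res L F y + t * dfy L F X y)) +
    t / q * ((ipr X (X * L.rho y) - ‖X‖ ^ 2) * (res L F y) ^ q)

theorem ipr_cont (X : Mt m) : Continuous (ipr X) := (iprL X).continuous

theorem cvJ_cont {F : Mt m → ℂ} (hF : ContDiff ℂ 1 F) (t : ℝ) (q : ℕ) (X : Mt m) :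
    Continuous (cvJ L F t q X) := by
  have h1 := res_cont (L := L) hF
  have h2 := dfy_cont L hF X
  have h3 : Continuous fun y => ipr X (L.rho y) := (ipr_cont X).comp L.cont
  have h4 : Continuous fun y => ipr X (X * L.rho y) :=
    (ipr_cont X).comp (continuous_const.mul L.cont)
  unfold cvJ
  exact ((h1.pow _).mul (h3.mul ((h3.mul h1).add (continuous_const.mul h2)))).add
    (continuous_const.mul ((h4.sub continuous_const).mul (h1.pow _)))

theorem cvJ_int {F : Mt m → ℂ} (hF : ContDiff ℂ 1 F) (t : ℝ) {q : ℕ} (hq : 1 ≤ q) {X : Mt m}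
    (hX : X ∈ lieSet L) :
    ∫ y, ipr X (L.rho y) ^ 2 * (res L F y) ^ q ∂μ -
      t / q * ‖X‖ ^ 2 * ∫ y, (res L F y) ^ q ∂μ = ∫ y, cvJ L F t q X y ∂μ := by
  have h1 := res_cont (L := L) hF
  have h2 := dfy_cont L hF X
  have h3 : Continuous fun y => ipr X (L.rho y) := (ipr_cont X).comp L.cont
  have h4 : Continuous fun y => ipr X (X * L.rho y) :=
    (ipr_cont X).comp (continuous_const.mul L.cont)
  have hibp := ibp μ L hF hX q
  have hq0 : (q : ℝ) ≠ 0 := by
    have : (0 : ℝ) < q := by exact_mod_cast hq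
    exact this.ne'
  have e : ∀ y, cvJ L F t q X y = (ipr X (L.rho y) ^ 2 * (res L F y) ^ q -
      t / q * ‖X‖ ^ 2 * (res L F y) ^ q) + t / q * (ipr X (X * L.rho y) * (res L F y) ^ q +
        ipr X (L.rho y) * ((q : ℝ) * (res L F y) ^ (q - 1) * dfy L F X y)) := by
    intro y
    unfold cvJ
    have e1 : (res L F y) ^ q = (res L F y) ^ (q - 1) * res L F y := by
      rw [← pow_succ, Nat.sub_add_cancel hq]
    rw [e1]
    field_simp
    ring
  have i1 : Integrable (fun y => ipr X (L.rho y) ^ 2 * (res L F y) ^ q) μ :=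
    fw_int_cont μ ((h3.pow 2).mul (h1.pow q))
  have i2 : Integrable (fun y => t / q * ‖X‖ ^ 2 * (res L F y) ^ q) μ :=
    fw_int_cont μ (continuous_const.mul (h1.pow q))
  have i3 : Integrable (fun y => t / q * (ipr X (X * L.rho y) * (res L F y) ^ q +
        ipr X (L.rho y) * ((q : ℝ) * (res L F y) ^ (q - 1) * dfy L F X y))) μ :=
    fw_int_cont μ (continuous_const.mul ((h4.mul (h1.pow q)).add
      (h3.mul ((continuous_const.mul (h1.pow _)).mul h2))))
  have i12 : Integrable (fun y => ipr X (L.rho y) ^ 2 * (res L F y) ^ q -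
      t / q * ‖X‖ ^ 2 * (res L F y) ^ q) μ := i1.sub i2
  simp only [e]
  rw [integral_add i12 i3, integral_sub i1 i2, integral_const_mul, integral_const_mul,
    hibp, mul_zero, add_zero]

/-- arithmetic of the moments -/
theorem cv_mom {d t v : ℝ} (hd : 0 ≤ d) (ht : 0 < t) (hv : v = d / Real.sqrt t) :
    d = Real.sqrt t * v ∧ d ^ 2 / t = v ^ 2 ∧ 0 ≤ v := by
  have hs : 0 < Real.sqrt t := Real.sqrt_pos.2 ht
  refine ⟨by rw [hv]; field_simp, ?_, by rw [hv]; positivity⟩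
  rw [hv, div_pow, Real.sq_sqrt ht.le]

theorem cv_v1 {v : ℝ} : v ≤ 1 + v ^ 2 + (v ^ 2) ^ 2 := by nlinarith [sq_nonneg (v - 1), sq_nonneg v]

theorem cv_v2 {v : ℝ} : v ^ 2 ≤ 1 + v ^ 2 + (v ^ 2) ^ 2 := by nlinarith [sq_nonneg (v ^ 2)]

theorem cv_v3 {v : ℝ} : v ^ 3 ≤ 1 + v ^ 2 + (v ^ 2) ^ 2 := by
  nlinarith [sq_nonneg (v ^ 2 - v), sq_nonneg v]

theorem cv_v4 {v : ℝ} : v ^ 4 ≤ 1 + v ^ 2 + (v ^ 2) ^ 2 := by nlinarith [sq_nonneg v]

/-- pointwise bound of the error -/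
theorem cvJ_le {D : LogData m} {εg δ : ℝ} (ch : Chart L D εg δ) (he0 : 0 ≤ εg)
    (he : εg ≤ 1 / 1000000) {F : Mt m → ℂ} {t A r M a : ℝ}
    (cl : Cls L F t A r (r / 4) (95 / 100 * r) (84 / 100 * r ^ 2) (1 / 10000)) (ht : 0 < t)
    (ht1 : t ≤ 1) (hA : 0 ≤ A) (hAt : A * t ≤ 1 / 10) (hr0 : 0 < r) (hr : r ≤ 1 / 1000)
    (hδ : 2 * r ≤ δ) (hM : 0 < M) (ha : a = min (8 / 10 * r ^ 2 / M ^ 2) (7 / 10) / 2)
    {q : ℕ} (hq : 1 ≤ q) {X : Mt m} (hX : X ∈ lieSet L) {y : G} (hy : dis L y ≤ M) :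
    |cvJ L F t q X y| ≤ (4 + 8 / δ + 128 + 2 / r + 32 / r ^ 2 + 1) * (‖X‖ ^ 2 *
      (t * (Real.sqrt t + A * t)) * (F 1).re ^ q) *
      ((1 + dis L y ^ 2 / t + (dis L y ^ 2 / t) ^ 2) * Real.exp (-(a * dis L y ^ 2 / t))) := by
  have hδ0 : 0 < δ := ch.pos
  have hP : 0 < (F 1).re := cl.pos
  have hres : 0 ≤ res L F y := cl.nonneg y
  have hd0 : 0 ≤ dis L y := norm_nonneg _
  have hXn : 0 ≤ ‖X‖ := norm_nonneg _
  have ha0 : 0 < a := by rw [ha]; positivity
  obtain ⟨P, hPd⟩ : ∃ P, P = (F 1).re := ⟨_, rfl⟩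
  obtain ⟨f, hfd⟩ : ∃ f, f = res L F y := ⟨_, rfl⟩
  obtain ⟨d, hdd⟩ : ∃ d, d = dis L y := ⟨_, rfl⟩
  obtain ⟨E, hEd⟩ : ∃ E, E = Real.exp (-(a * dis L y ^ 2 / t)) := ⟨_, rfl⟩
  obtain ⟨s, hsd⟩ : ∃ s, s = Real.sqrt t := ⟨_, rfl⟩
  have hs0 : 0 < s := by rw [hsd]; exact Real.sqrt_pos.2 ht
  have hs2 : s * s = t := by rw [hsd]; exact Real.mul_self_sqrt ht.le
  have hts : t ≤ s := by nlinarith
  have hE0 : 0 < E := by rw [hEd]; exact Real.exp_pos _
  have hE1 : E ≤ 1 := by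
    rw [hEd]
    exact Real.exp_le_one_iff.2 (by
      have : 0 ≤ a * dis L y ^ 2 / t := by positivity
      linarith)
  obtain ⟨v, hvd⟩ : ∃ v, v = d / s := ⟨_, rfl⟩
  obtain ⟨hm1, hm2, hv0⟩ := cv_mom (d := d) (v := v) (by rw [hdd]; exact hd0) ht (by rw [hvd, hsd])
  rw [← hsd] at hm1
  have hfE : f ≤ P * E := by
    rw [hfd, hPd, hEd]
    exact cv_res_le ch he0 he cl ht hA hAt hr0 hr hδ hM ha hy
  rw [← hfd] at hres
  rw [← hPd] at hP
  have hfP : f ≤ P := hfE.trans (mul_le_of_le_one_right hP.le hE1)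
  have hfq1 : f ^ (q - 1) ≤ P ^ (q - 1) := pow_le_pow_left₀ hres hfP _
  have hfq10 : 0 ≤ f ^ (q - 1) := pow_nonneg hres _
  have eq1 : ∀ z : ℝ, z ^ (q - 1) * z = z ^ q := fun z => by
    rw [← pow_succ, Nat.sub_add_cancel hq]
  have hfq : f ^ q ≤ P ^ q * E := by
    rw [← eq1 f, ← eq1 P, mul_assoc]
    exact mul_le_mul hfq1 hfE hres (by positivity)
  have hfq0 : 0 ≤ f ^ q := pow_nonneg hres _
  obtain ⟨W, hWd⟩ : ∃ W, W = 1 + v ^ 2 + (v ^ 2) ^ 2 := ⟨_, rfl⟩
  have hW0 : 0 ≤ W := by rw [hWd]; positivity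
  have hAt0 : 0 ≤ A * t := by positivity
  have hd1 : d = s * v := hm1
  have hd2 : d ^ 2 = t * v ^ 2 := by rw [hd1, mul_pow, pow_two s, hs2]
  have hd3 : d ^ 3 = t * s * v ^ 3 := by
    rw [hd1, mul_pow, ← hs2]; ring
  have hd4 : d ^ 4 = t * t * v ^ 4 := by
    rw [hd1, mul_pow, ← hs2]; ring
  have b1 : v ≤ W := by rw [hWd]; exact cv_v1
  have b2 : v ^ 2 ≤ W := by rw [hWd]; exact cv_v2
  have b3 : v ^ 3 ≤ W := by rw [hWd]; exact cv_v3
  have b4 : v ^ 4 ≤ W := by rw [hWd]; exact cv_v4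
  -- the second part
  have hsec : |t / q * ((ipr X (X * L.rho y) - ‖X‖ ^ 2) * (res L F y) ^ q)| ≤
      1 * (‖X‖ ^ 2 * (t * (s + A * t)) * P ^ q) * (W * E) := by
    have e1 : ipr X (X * L.rho y) - ‖X‖ ^ 2 = ipr X (X * (L.rho y - 1)) := by
      rw [mul_sub, mul_one, ipr_sub, ipr_self]
    have e2 : |ipr X (X * (L.rho y - 1))| ≤ ‖X‖ ^ 2 * d := by
      refine (ipr_abs_le _ _).trans ?_
      rw [pow_two, mul_assoc, hdd]
      exact mul_le_mul_of_nonneg_left (norm_mul_le _ _) hXn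
    have hq1 : (1 : ℝ) ≤ q := by exact_mod_cast hq
    have e3 : t / q ≤ t := div_le_self ht.le hq1
    have e4 : 0 ≤ t / q := by positivity
    rw [e1, ← hfd, abs_mul, abs_mul, abs_of_nonneg e4, abs_of_nonneg hfq0]
    calc t / q * (|ipr X (X * (L.rho y - 1))| * f ^ q)
        ≤ t * ((‖X‖ ^ 2 * d) * (P ^ q * E)) :=
          mul_le_mul e3 (mul_le_mul e2 hfq hfq0 (by rw [hdd]; positivity)) (by positivity) ht.le
      _ = (‖X‖ ^ 2 * P ^ q * E) * (t * s * v) := by rw [hd1]; ring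
      _ ≤ (‖X‖ ^ 2 * P ^ q * E) * (t * (s + A * t) * W) := by
          refine mul_le_mul_of_nonneg_left ?_ (by positivity)
          exact mul_le_mul (mul_le_mul_of_nonneg_left (by linarith) ht.le) b1 hv0 (by positivity)
      _ = _ := by ring
  -- the first part
  have hfst : |(res L F y) ^ (q - 1) * (ipr X (L.rho y) * (ipr X (L.rho y) * res L F y +
      t * dfy L F X y))| ≤
      (4 + 8 / δ + 128 + 2 / r + 32 / r ^ 2) * (‖X‖ ^ 2 * (t * (s + A * t)) * P ^ q) *
        (W * E) := by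
    rcases lt_or_ge (dis L y) (r / 2) with hn | hfar
    · have h1 := near_est ch he0 he cl ht hA hr0 hδ hX hn
      rw [← hfd, ← hdd] at h1
      rw [← hfd, abs_mul, abs_of_nonneg hfq10]
      calc f ^ (q - 1) * |ipr X (L.rho y) * (ipr X (L.rho y) * f + t * dfy L F X y)|
          ≤ f ^ (q - 1) * (‖X‖ ^ 2 * d * f * ((4 + 8 / δ) * d ^ 2 + 128 * (t * A) * d ^ 3)) :=
            mul_le_mul_of_nonneg_left h1 hfq10
        _ = ‖X‖ ^ 2 * (f ^ (q - 1) * f) * ((4 + 8 / δ) * d ^ 3 + 128 * (t * A) * d ^ 4) := by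
            ring
        _ = (‖X‖ ^ 2 * f ^ q) * ((4 + 8 / δ) * d ^ 3 + 128 * (t * A) * d ^ 4) := by rw [eq1]
        _ ≤ (‖X‖ ^ 2 * (P ^ q * E)) *
            ((4 + 8 / δ + 128 + 2 / r + 32 / r ^ 2) * (t * (s + A * t)) * W) := by
            refine mul_le_mul (mul_le_mul_of_nonneg_left hfq (by positivity)) ?_
              (by rw [hdd]; positivity) (by positivity)
            rw [hd3, hd4]
            have c1 : (4 + 8 / δ) * (t * s * v ^ 3) ≤ (4 + 8 / δ) * (t * (s + A * t) * W) := by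
              refine mul_le_mul_of_nonneg_left ?_ (by positivity)
              exact mul_le_mul (mul_le_mul_of_nonneg_left (by linarith) ht.le) b3
                (by positivity) (by positivity)
            have c2 : 128 * (t * A) * (t * t * v ^ 4) ≤ 128 * (t * (s + A * t) * W) := by
              have e5 : 128 * (t * A) * (t * t * v ^ 4) = 128 * (t * (A * t) * (t * v ^ 4)) := by
                ring
              rw [e5]
              refine mul_le_mul_of_nonneg_left ?_ (by norm_num)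
              refine mul_le_mul (mul_le_mul_of_nonneg_left (by linarith) ht.le) ?_
                (by positivity) (by positivity)
              exact (mul_le_of_le_one_left (by positivity) ht1).trans b4
            have c3 : 0 ≤ (2 / r + 32 / r ^ 2) * (t * (s + A * t) * W) := by positivity
            have e6 : (4 + 8 / δ + 128 + 2 / r + 32 / r ^ 2) * (t * (s + A * t)) * W =
                (4 + 8 / δ) * (t * (s + A * t) * W) + 128 * (t * (s + A * t) * W) +
                (2 / r + 32 / r ^ 2) * (t * (s + A * t) * W) := by ring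
            rw [e6]
            linarith
        _ = _ := by ring
    · have h1 := cv_far ch he0 he cl ht hA hAt hr0 hr hδ hM ha hX hy hfar
      have h2 := ipr_rho_le hX y
      rw [← hEd, ← hPd] at h1
      rw [← hdd] at h2 hfar
      have hd0' : 0 ≤ d := by rw [hdd]; exact hd0
      rw [← hfd, abs_mul, abs_of_nonneg hfq10, abs_mul]
      have hone : 1 ≤ 2 / r * d := by
        rw [div_mul_eq_mul_div, le_div_iff₀ hr0]; linarith
      have h3 : |ipr X (L.rho y) * f + t * dfy L F X y| ≤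
          ‖X‖ * d * f + t * (16 / r * ‖X‖ * (P * E)) := by
        refine (abs_add_le _ _).trans (add_le_add ?_ ?_)
        · rw [abs_mul, abs_of_nonneg hres]
          exact mul_le_mul_of_nonneg_right h2 hres
        · rw [abs_mul, abs_of_pos ht]
          exact mul_le_mul_of_nonneg_left h1 ht.le
      calc f ^ (q - 1) * (|ipr X (L.rho y)| * |ipr X (L.rho y) * f + t * dfy L F X y|)
          ≤ f ^ (q - 1) * ((‖X‖ * d) * (‖X‖ * d * f + t * (16 / r * ‖X‖ * (P * E)))) :=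
            mul_le_mul_of_nonneg_left (mul_le_mul h2 h3 (abs_nonneg _) (by positivity)) hfq10
        _ = ‖X‖ ^ 2 * (d ^ 2 * (f ^ (q - 1) * f) + 16 / r * t * d * (f ^ (q - 1) * (P * E))) := by
            ring
        _ ≤ ‖X‖ ^ 2 * (d ^ 2 * (P ^ q * E) + 16 / r * t * d * (P ^ (q - 1) * (P * E))) := by
            refine mul_le_mul_of_nonneg_left ?_ (by positivity)
            refine add_le_add ?_ ?_
            · rw [eq1]; exact mul_le_mul_of_nonneg_left hfq (by positivity)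
            · exact mul_le_mul_of_nonneg_left
                (mul_le_mul_of_nonneg_right hfq1 (by positivity)) (by positivity)
        _ = ‖X‖ ^ 2 * (P ^ q * E) * (d ^ 2 * 1 + 16 / r * t * d * 1) := by
            rw [← mul_assoc (P ^ (q - 1)), eq1]; ring
        _ ≤ ‖X‖ ^ 2 * (P ^ q * E) * (d ^ 2 * (2 / r * d) + 16 / r * t * d * (2 / r * d)) := by
            refine mul_le_mul_of_nonneg_left ?_ (by positivity)
            exact add_le_add (mul_le_mul_of_nonneg_left hone (by positivity))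
              (mul_le_mul_of_nonneg_left hone (by positivity))
        _ = ‖X‖ ^ 2 * (P ^ q * E) * (2 / r * d ^ 3 + 32 / r ^ 2 * (t * d ^ 2)) := by
            field_simp
            ring
        _ ≤ (‖X‖ ^ 2 * (P ^ q * E)) *
            ((4 + 8 / δ + 128 + 2 / r + 32 / r ^ 2) * (t * (s + A * t)) * W) := by
            refine mul_le_mul_of_nonneg_left ?_ (by positivity)
            rw [hd3, hd2]
            have c1 : 2 / r * (t * s * v ^ 3) ≤ 2 / r * (t * (s + A * t) * W) := by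
              refine mul_le_mul_of_nonneg_left ?_ (by positivity)
              exact mul_le_mul (mul_le_mul_of_nonneg_left (by linarith) ht.le) b3
                (by positivity) (by positivity)
            have c2 : 32 / r ^ 2 * (t * (t * v ^ 2)) ≤ 32 / r ^ 2 * (t * (s + A * t) * W) := by
              refine mul_le_mul_of_nonneg_left ?_ (by positivity)
              rw [← mul_assoc]
              exact mul_le_mul (mul_le_mul_of_nonneg_left (by linarith) ht.le) b2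
                (by positivity) (by positivity)
            have c3 : 0 ≤ (4 + 8 / δ + 128) * (t * (s + A * t) * W) := by positivity
            have e6 : (4 + 8 / δ + 128 + 2 / r + 32 / r ^ 2) * (t * (s + A * t)) * W =
                2 / r * (t * (s + A * t) * W) + 32 / r ^ 2 * (t * (s + A * t) * W) +
                (4 + 8 / δ + 128) * (t * (s + A * t) * W) := by ring
            rw [e6]
            linarith
        _ = _ := by ring
  have hWe : 1 + dis L y ^ 2 / t + (dis L y ^ 2 / t) ^ 2 = W := by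
    rw [← hdd, hm2, hWd]
  rw [hWe, ← hEd, ← hsd, ← hPd]
  unfold cvJ
  refine (abs_add_le _ _).trans ((add_le_add hfst hsec).trans (le_of_eq ?_))
  ring

/-- lower bound of the normalisation -/
theorem cv_low {D : LogData m} {εg δ : ℝ} (ch : Chart L D εg δ) (he0 : 0 ≤ εg)
    (he : εg ≤ 1 / 1000000) {F : Mt m → ℂ} {t A r M a : ℝ}
    (cl : Cls L F t A r (r / 4) (95 / 100 * r) (84 / 100 * r ^ 2) (1 / 10000)) (ht : 0 < t)
    (ht1 : t ≤ 1) (htr : 16 * t ≤ r ^ 2) (hA : 0 ≤ A) (hAt : A * t ≤ 1 / 10) (hr0 : 0 < r)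
    (hr : r ≤ 1 / 1000) (hδ : 2 * r ≤ δ) (hM : 0 < M)
    (ha : a = min (8 / 10 * r ^ 2 / M ^ 2) (7 / 10) / 2) (q : ℕ) :
    (F 1).re ^ q * μ.real (bal L (Real.sqrt t)) ≤
      Real.exp q * ∫ y, (res L F y) ^ q ∂μ := by
  have h1 := res_cont (L := L) cl.diff
  have hP : 0 < (F 1).re := cl.pos
  have hsr : Real.sqrt t ≤ r / 4 := by
    rw [Real.sqrt_le_left (by positivity)]
    nlinarith
  have hpt : ∀ y, (bal L (Real.sqrt t)).indicator (fun _ => ((F 1).re * Real.exp (-1)) ^ q) y ≤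
      (res L F y) ^ q := by
    intro y
    by_cases hy : y ∈ bal L (Real.sqrt t)
    · rw [Set.indicator_of_mem hy]
      have hy' : dis L y < Real.sqrt t := hy
      refine pow_le_pow_left₀ (by positivity) ?_ q
      refine cv_res_ge ch he0 he cl ht hA hAt hr0 hr hδ hM ha (by linarith) ?_ ht1
      have := pow_le_pow_left₀ (HaarAux.dis_nonneg L y) hy'.le 2
      rwa [Real.sq_sqrt ht.le] at this
    · rw [Set.indicator_of_notMem hy]
      exact pow_nonneg (cl.nonneg y) q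
  have hms : MeasurableSet (bal L (Real.sqrt t)) := (isOpen_bal L _).measurableSet
  have h2 := integral_mono (μ := μ) ((integrable_const _).indicator hms)
    (fw_int_cont μ (h1.pow q)) hpt
  rw [integral_indicator_const _ hms, smul_eq_mul, mul_pow, ← Real.exp_nat_mul] at h2
  have h3 := mul_le_mul_of_nonneg_left h2 (Real.exp_pos (q : ℝ)).le
  refine le_trans (le_of_eq ?_) h3
  have e : Real.exp (q : ℝ) * Real.exp ((q : ℝ) * -1) = 1 := by
    rw [← Real.exp_add]; simp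
  calc (F 1).re ^ q * μ.real (bal L (Real.sqrt t))
      = (Real.exp (q : ℝ) * Real.exp ((q : ℝ) * -1)) *
        ((F 1).re ^ q * μ.real (bal L (Real.sqrt t))) := by rw [e, one_mul]
    _ = _ := by ring

/-- Covariance: under the density proportional to `F ^ q`, `q = 1, 2`, the coordinate
`⟨X, log y⟩ ≈ Re tr (X^* y)` has variance `t |X|² / q` up to a relative error `√t + A t`. -/
theorem covar_small (D : LogData m) (q : ℕ) (hq : 1 ≤ q) : ∃ r1 : ℝ, 0 < r1 ∧ ∀ r0 : ℝ, 0 < r0 → r0 ≤ r1 →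
    ∃ C ts : ℝ, 0 < C ∧ 0 < ts ∧ ∀ (F : Mt m → ℂ) (t A : ℝ), 0 < t → t ≤ ts → 0 ≤ A →
      A * t ≤ 1 / 10 →
      Cls L F t A r0 (r0 / 4) (95 / 100 * r0) (84 / 100 * r0 ^ 2) (1 / 10000) →
      ∀ X ∈ lieSet L,
        |∫ y, ipr X (L.rho y) ^ 2 * (res L F y) ^ q ∂μ -
            t / q * ‖X‖ ^ 2 * ∫ y, (res L F y) ^ q ∂μ| ≤
          C * t * (Real.sqrt t + A * t) * ‖X‖ ^ 2 * ∫ y, (res L F y) ^ q ∂μ := by
  obtain ⟨δ, ch⟩ := exists_chart L D (1 / 1000000) (by norm_num)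
  have hδ0 : 0 < δ := ch.pos
  refine ⟨min (δ / 2) (1 / 1000), by positivity, fun r hr0 hr => ?_⟩
  have hδ : 2 * r ≤ δ := by have := hr.trans (min_le_left _ _); linarith
  have hr1 : r ≤ 1 / 1000 := hr.trans (min_le_right _ _)
  obtain ⟨M, hMd⟩ : ∃ M : ℝ, M = uB m + ‖(1 : Mt m)‖ + 1 := ⟨_, rfl⟩
  have hM : 0 < M := by
    have := uB_nonneg (m := m)
    have := norm_nonneg (1 : Mt m)
    linarith
  have hdM : ∀ y, dis L y ≤ M := fun y => (HaarAux.dis_le L y).trans (by linarith)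
  obtain ⟨a, had⟩ : ∃ a : ℝ, a = min (8 / 10 * r ^ 2 / M ^ 2) (7 / 10) / 2 := ⟨_, rfl⟩
  have ha0 : 0 < a := by rw [had]; positivity
  obtain ⟨Cg, hCg, hG⟩ := gauss_moment μ L a ha0
  obtain ⟨K, hKd⟩ : ∃ K : ℝ, K = 4 + 8 / δ + 128 + 2 / r + 32 / r ^ 2 + 1 := ⟨_, rfl⟩
  have hK : 0 < K := by rw [hKd]; positivity
  refine ⟨K * Cg * Real.exp q, min 1 (r ^ 2 / 16), by positivity, by positivity,
    fun F t A ht hts hA hAt cl X hX => ?_⟩
  have ht1 : t ≤ 1 := hts.trans (min_le_left _ _)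
  have htr : 16 * t ≤ r ^ 2 := by have := hts.trans (min_le_right _ _); linarith
  have he0 : (0 : ℝ) ≤ 1 / 1000000 := by norm_num
  rw [cvJ_int μ L cl.diff t hq hX]
  have hP : 0 < (F 1).re := cl.pos
  have hlow := cv_low μ L ch he0 le_rfl cl ht ht1 htr hA hAt hr0 hr1 hδ hM had q
  have hpt : ∀ y, |cvJ L F t q X y| ≤ K * (‖X‖ ^ 2 *
      (t * (Real.sqrt t + A * t)) * (F 1).re ^ q) *
      ((1 + dis L y ^ 2 / t + (dis L y ^ 2 / t) ^ 2) * Real.exp (-(a * dis L y ^ 2 / t))) := by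
    intro y
    rw [hKd]
    exact cvJ_le L ch he0 le_rfl cl ht ht1 hA hAt hr0 hr1 hδ hM had hq hX (hdM y)
  have hdc := HaarAux.dis_cont L
  have h1 : |∫ y, cvJ L F t q X y ∂μ| ≤ ∫ y, |cvJ L F t q X y| ∂μ := abs_integral_le_integral_abs
  have hcJ := cvJ_cont L cl.diff t q X
  have hcG : Continuous fun y => K * (‖X‖ ^ 2 *
      (t * (Real.sqrt t + A * t)) * (F 1).re ^ q) *
      ((1 + dis L y ^ 2 / t + (dis L y ^ 2 / t) ^ 2) * Real.exp (-(a * dis L y ^ 2 / t))) := by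
    fun_prop
  have h2 := integral_mono (μ := μ) (fw_int_cont μ hcJ.abs) (fw_int_cont μ hcG) hpt
  rw [integral_const_mul] at h2
  have h3 := hG t ht
  have hs0 : 0 ≤ Real.sqrt t := Real.sqrt_nonneg t
  have hAt0 : 0 ≤ A * t := by positivity
  calc |∫ y, cvJ L F t q X y ∂μ|
      ≤ K * (‖X‖ ^ 2 * (t * (Real.sqrt t + A * t)) * (F 1).re ^ q) *
        (Cg * μ.real (bal L (Real.sqrt t))) :=
        (h1.trans h2).trans (mul_le_mul_of_nonneg_left h3 (by positivity))
    _ = (K * Cg * (‖X‖ ^ 2 * (t * (Real.sqrt t + A * t)))) *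
        ((F 1).re ^ q * μ.real (bal L (Real.sqrt t))) := by ring
    _ ≤ (K * Cg * (‖X‖ ^ 2 * (t * (Real.sqrt t + A * t)))) *
        (Real.exp q * ∫ y, (res L F y) ^ q ∂μ) :=
        mul_le_mul_of_nonneg_left hlow (by positivity)
    _ = _ := by ring

/-- the class with the parameters of a convolution step is contained in the class with small
standard parameters -/
theorem Cls.shrink {D : LogData m} {εg δ r0 r s b r' : ℝ} (P : Par L D εg δ r0 r s b r')
    {F : Mt m → ℂ} {t A ρ : ℝ} (ht : 0 < t) (hA : 0 ≤ A) (hAt : A * t ≤ 1 / 10) (hρ0 : 0 < ρ)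
    (hρ : ρ ≤ r0 / 2) (cl : Cls L F t A r (r0 / 4) s b (1 / 10000)) :
    Cls L F t A ρ (ρ / 4) (95 / 100 * ρ) (84 / 100 * ρ ^ 2) (1 / 10000) := by
  have hr0 := P.r0_pos
  have hr01 := P.r0_le
  have hrl := P.r_lo
  have hrh := P.r_hi
  have hδ := P.r0_δ
  have hr'l := P.r'_lo
  have hsub : dom L ρ (ρ / 4) ⊆ dom L r (r0 / 4) := fun Z hZ =>
    ⟨hZ.1.trans_le (by linarith), hZ.2.trans_le (by linarith)⟩
  obtain ⟨w, w1, w2, w3, w4, w5, w6⟩ := cl.small
  refine ⟨cl.diff, cl.conj, cl.inv, cl.real, cl.nonneg, cl.pos,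
    ⟨w, w1.mono hsub, fun Z hZ => w2 Z (hsub hZ), fun g Z hZ => w3 g Z (hsub hZ),
      fun Z hZ => w4 Z (hsub hZ), fun Z hZ => w5 Z (hsub hZ), fun Z hZ => w6 Z (hsub hZ)⟩, ?_⟩
  intro Z hZ y hy
  have U := ubound P.ch P.e0 P.e1 cl ht hA hAt (by linarith) (by linarith) (by linarith)
    (by linarith) (by linarith) P.h1 Z (hZ.1.trans_le (by linarith))
    (hZ.2.trans_le (by linarith)) y
  refine U.trans (mul_le_mul_of_nonneg_left (Real.exp_le_exp.2 ?_) cl.pos.le)
  rw [neg_le_neg_iff]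
  refine div_le_div_of_nonneg_right ?_ (by positivity)
  have h1 : 84 / 100 * ρ ^ 2 ≤ min b ((1 - 1 / 10000) *
      ‖NormedSpace.exp (reP (Z : Mt m)) * L.rho y - 1‖ ^ 2) := by
    refine le_min ?_ ?_
    · have h2 := pow_le_pow_left₀ hρ0.le hρ 2
      have h3 := pow_le_pow_left₀ hr0.le hr'l 2
      have h4 := P.h3
      nlinarith [sq_nonneg r0]
    · have h2 := pow_le_pow_left₀ (by positivity) hy 2
      nlinarith [sq_nonneg ρ]
  linarith

/-- Covariance: under the density proportional to `F ^ q`, `q = 1, 2`, the coordinate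
`⟨X, log y⟩ ≈ Re tr (X^* y)` has variance `t |X|² / q` up to a relative error `√t + A t`. -/
theorem covar {D : LogData m} {εg δ r0 r s b r' : ℝ} (P : Par L D εg δ r0 r s b r') (q : ℕ)
    (hq : 1 ≤ q) :
    ∃ C ts : ℝ, 0 < C ∧ 0 < ts ∧ ∀ (F : Mt m → ℂ) (t A : ℝ), 0 < t → t ≤ ts → 0 ≤ A →
      A * t ≤ 1 / 10 → Cls L F t A r (r0 / 4) s b (1 / 10000) →
      ∀ X ∈ lieSet L,
        |∫ y, ipr X (L.rho y) ^ 2 * (res L F y) ^ q ∂μ -
            t / q * ‖X‖ ^ 2 * ∫ y, (res L F y) ^ q ∂μ| ≤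
          C * t * (Real.sqrt t + A * t) * ‖X‖ ^ 2 * ∫ y, (res L F y) ^ q ∂μ := by
  obtain ⟨r1, hr1, H⟩ := covar_small μ L D q hq
  have hr0 := P.r0_pos
  have hρ0 : 0 < min (r0 / 2) r1 := lt_min (by positivity) hr1
  obtain ⟨C, ts, hC, hts, H2⟩ := H (min (r0 / 2) r1) hρ0 (min_le_right _ _)
  exact ⟨C, ts, hC, hts, fun F t A ht ht1 hA hAt cl X hX =>
    H2 F t A ht ht1 hA hAt (cl.shrink L P ht hA hAt hρ0 (min_le_left _ _)) X hX⟩

end

end Pool.Agent.T2H04.HY
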