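import Mathlib
import Pool.Agent.T2H04.HY.Cov
import Pool.Agent.T2H04.HY.Conv4
import Pool.Agent.T2H04.HY.Cpt

/-!
# Observables of the densities of the class
-/

open MeasureTheory Matrix Filter
open scoped Matrix.Norms.Frobenius Topology

namespace Pool.Agent.T2H04.HY

set_option linter.unusedSectionVars false

noncomputable section

variable {G : Type} [Group G] [TopologicalSpace G] [IsTopologicalGroup G] [CompactSpace G]
  [MeasurableSpace G] [BorelSpace G] (μ : Measure G) [μ.IsHaarMeasure] [IsProbabilityMeasure μ]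
  {m : Type} [Fintype m] [DecidableEq m] (L : RD G m)

/-- the normalised restriction to the group -/
def nres (F : Mt m → ℂ) (g : G) : ℝ := res L F g / ∫ y, res L F y ∂μ

namespace Obs

open HaarAux

/-- exponentials are small -/
theorem exp_small (b : ℝ) (hb : 0 < b) (k : ℕ) : ∃ C : ℝ, 0 < C ∧ ∀ t : ℝ, 0 < t →
    Real.exp (-(b / (2 * t))) ≤ C * t ^ k := by
  refine ⟨k.factorial * (2 / b) ^ k, by positivity, fun t ht => ?_⟩
  have hx : 0 ≤ b / (2 * t) := by positivity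
  have h1 := Real.pow_div_factorial_le_exp _ hx k
  rw [Real.exp_neg, inv_le_comm₀ (Real.exp_pos _) (by positivity)]
  refine le_trans (le_of_eq ?_) h1
  rw [div_pow, div_pow, mul_pow]
  field_simp

/-- moments of the bound -/
theorem moments (b : ℝ) (hb : 0 < b) : ∃ C : ℝ, 0 < C ∧ ∀ t : ℝ, 0 < t → t ≤ 1 → ∀ j : ℕ, j ≤ 2 →
    ∫ y, dis L y ^ (2 * j) * Real.exp (-(min b ((1 - 1 / 10000) * dis L y ^ 2) / (2 * t))) ∂μ ≤
      C * t ^ j * μ.real (bal L (Real.sqrt t)) := by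
  obtain ⟨C1, hC1, h1⟩ := gauss_moment μ L (1 / 4) (by norm_num)
  obtain ⟨c, hc, p, hp⟩ := bal_lower μ L
  obtain ⟨C2, hC2, h2⟩ := exp_small b hb (p + 2)
  obtain ⟨K, hK1, hK⟩ : ∃ K : ℝ, 1 ≤ K ∧ ∀ y : G, dis L y ≤ K :=
    ⟨max 1 (uB m + ‖(1 : Mt m)‖), le_max_left _ _, fun y => (dis_le L y).trans (le_max_right _ _)⟩
  refine ⟨C1 + K ^ 4 * (C2 / c), by positivity, fun t ht ht1 j hj => ?_⟩
  have hdc := dis_cont L
  have hpt : ∀ y, dis L y ^ (2 * j) *
      Real.exp (-(min b ((1 - 1 / 10000) * dis L y ^ 2) / (2 * t))) ≤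
      t ^ j * ((1 + dis L y ^ 2 / t + (dis L y ^ 2 / t) ^ 2) *
        Real.exp (-(1 / 4 * dis L y ^ 2 / t))) + K ^ 4 * Real.exp (-(b / (2 * t))) := by
    intro y
    have hd0 := dis_nonneg L y
    obtain ⟨u, hu⟩ : ∃ u, u = dis L y ^ 2 / t := ⟨_, rfl⟩
    have hu0 : 0 ≤ u := by rw [hu]; positivity
    have hd2 : dis L y ^ 2 = t * u := by rw [hu]; field_simp
    have hdj : dis L y ^ (2 * j) = t ^ j * u ^ j := by rw [pow_mul, hd2, mul_pow]
    have huj : u ^ j ≤ 1 + u + u ^ 2 := by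
      interval_cases j
      · nlinarith
      · nlinarith
      · nlinarith
    have hKj : dis L y ^ (2 * j) ≤ K ^ 4 :=
      (pow_le_pow_left₀ hd0 (hK y) _).trans (pow_le_pow_right₀ hK1 (by omega))
    rcases le_total b ((1 - 1 / 10000) * dis L y ^ 2) with hb1 | hb1
    · rw [min_eq_left hb1]
      have e1 : 0 ≤ t ^ j * ((1 + dis L y ^ 2 / t + (dis L y ^ 2 / t) ^ 2) *
        Real.exp (-(1 / 4 * dis L y ^ 2 / t))) := by positivity
      have e2 := mul_le_mul_of_nonneg_right hKj (Real.exp_pos (-(b / (2 * t)))).le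
      linarith
    · rw [min_eq_right hb1]
      have h3 : Real.exp (-((1 - 1 / 10000) * dis L y ^ 2 / (2 * t))) ≤
          Real.exp (-(1 / 4 * dis L y ^ 2 / t)) := by
        apply Real.exp_le_exp.2
        rw [neg_le_neg_iff, div_le_div_iff₀ ht (by positivity)]
        nlinarith [mul_nonneg (sq_nonneg (dis L y)) ht.le]
      have e2 : 0 ≤ K ^ 4 * Real.exp (-(b / (2 * t))) := by positivity
      have e3 : dis L y ^ (2 * j) * Real.exp (-((1 - 1 / 10000) * dis L y ^ 2 / (2 * t))) ≤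
          t ^ j * ((1 + u + u ^ 2) * Real.exp (-(1 / 4 * dis L y ^ 2 / t))) := by
        rw [hdj, mul_assoc]
        exact mul_le_mul_of_nonneg_left (mul_le_mul huj h3 (Real.exp_pos _).le (by positivity))
          (by positivity)
      rw [hu] at e3
      linarith
  have hc1 : Continuous fun y : G => dis L y ^ (2 * j) *
      Real.exp (-(min b ((1 - 1 / 10000) * dis L y ^ 2) / (2 * t))) := by fun_prop
  have hc2 : Continuous fun y : G => (1 + dis L y ^ 2 / t + (dis L y ^ 2 / t) ^ 2) *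
        Real.exp (-(1 / 4 * dis L y ^ 2 / t)) := by fun_prop
  have h3 : ∫ y, dis L y ^ (2 * j) *
      Real.exp (-(min b ((1 - 1 / 10000) * dis L y ^ 2) / (2 * t))) ∂μ ≤
      ∫ y, (t ^ j * ((1 + dis L y ^ 2 / t + (dis L y ^ 2 / t) ^ 2) *
        Real.exp (-(1 / 4 * dis L y ^ 2 / t))) + K ^ 4 * Real.exp (-(b / (2 * t)))) ∂μ :=
    integral_mono (intg μ hc1) (intg μ ((hc2.const_mul _).add_const _)) hpt
  rw [integral_add ((intg μ hc2).const_mul _) (integrable_const _), integral_const_mul,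
    integral_const, probReal_univ, one_smul] at h3
  have h4 := mul_le_mul_of_nonneg_left (h1 t ht) (pow_nonneg ht.le j)
  have hst : 0 < Real.sqrt t := Real.sqrt_pos.2 ht
  have hst1 : Real.sqrt t ≤ 1 := by rw [← Real.sqrt_one]; exact Real.sqrt_le_sqrt ht1
  have hts : t ≤ Real.sqrt t := by
    have := Real.mul_self_sqrt ht.le
    nlinarith
  have h5 := hp _ hst hst1
  have h6 : Real.exp (-(b / (2 * t))) ≤ C2 / c * (t ^ j * μ.real (bal L (Real.sqrt t))) := by
    refine (h2 t ht).trans ?_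
    have e1 : t ^ (p + 2) ≤ t ^ j * Real.sqrt t ^ p := by
      rw [pow_add, mul_comm]
      exact mul_le_mul (pow_le_pow_of_le_one ht.le ht1 hj) (pow_le_pow_left₀ ht.le hts p)
        (by positivity) (by positivity)
    have e2 : Real.sqrt t ^ p ≤ μ.real (bal L (Real.sqrt t)) / c := by
      rw [le_div_iff₀ hc, mul_comm]; exact h5
    calc C2 * t ^ (p + 2) ≤ C2 * (t ^ j * (μ.real (bal L (Real.sqrt t)) / c)) :=
          mul_le_mul_of_nonneg_left (e1.trans (mul_le_mul_of_nonneg_left e2 (by positivity))) hC2.le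
      _ = C2 / c * (t ^ j * μ.real (bal L (Real.sqrt t))) := by ring
  have h7 := mul_le_mul_of_nonneg_left h6 (pow_nonneg (zero_le_one.trans hK1) 4)
  calc _ ≤ t ^ j * (C1 * μ.real (bal L (Real.sqrt t))) +
        K ^ 4 * (C2 / c * (t ^ j * μ.real (bal L (Real.sqrt t)))) := by linarith
    _ = _ := by ring

variable {L}

theorem res_nonneg {F : Mt m → ℂ} {t A r τ s b ε : ℝ} (cl : Cls L F t A r τ s b ε) (y : G) :
    0 ≤ res L F y := cl.nonneg y

theorem res_eq_norm {F : Mt m → ℂ} {t A r τ s b ε : ℝ} (cl : Cls L F t A r τ s b ε) (y : G) :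
    res L F y = ‖F (L.rho y)‖ := by
  have h1 := res_sq cl.real y
  have h2 := res_nonneg cl y
  exact (sq_eq_sq₀ h2 (norm_nonneg _)).1 h1

section

variable {D : LogData m} {εg δ r0 r s b r' : ℝ} (P : Par L D εg δ r0 r s b r')
  {F : Mt m → ℂ} {t A : ℝ} (cl : Cls L F t A r (r0 / 4) s b (1 / 10000))
  (ht : 0 < t) (hA : 0 ≤ A) (hAt : A * t ≤ 1 / 10)

include P

theorem b_pos : 0 < b := by
  have := P.h3
  have := P.r0_pos
  nlinarith [sq_nonneg r', mul_pos this this]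

include cl ht hA hAt

theorem res_le (y : G) : res L F y ≤ (F 1).re * Real.exp
      (-(min b ((1 - 1 / 10000) * dis L y ^ 2) / (2 * t))) := by
  rw [res_eq_norm cl]
  exact outer0 P cl ht hA hAt y

theorem res_le' (y : G) : res L F y ≤ (F 1).re := by
  refine (res_le P cl ht hA hAt y).trans ?_
  have h1 : 0 ≤ min b ((1 - 1 / 10000) * dis L y ^ 2) := le_min (b_pos P).le (by positivity)
  have h2 : Real.exp (-(min b ((1 - 1 / 10000) * dis L y ^ 2) / (2 * t))) ≤ 1 := by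
    rw [Real.exp_le_one_iff, neg_nonpos]
    positivity
  have := cl.pos
  nlinarith

theorem res_lower (y : G) (hy : dis L y < r0 / 20) :
    (F 1).re * Real.exp (-(51 / 100 * (dis L y ^ 2 / t))) ≤ res L F y := by
  obtain ⟨w, hw⟩ := cl.sf
  rw [res_eq_norm cl]
  exact F_lower P cl hw ht hA hAt y hy

theorem res_lower' (hts : Real.sqrt t < r0 / 20) (y : G) (hy : dis L y < Real.sqrt t) :
    (F 1).re * Real.exp (-(51 / 100)) ≤ res L F y := by
  refine le_trans (mul_le_mul_of_nonneg_left (Real.exp_le_exp.2 ?_) cl.pos.le)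
    (res_lower P cl ht hA hAt y (hy.trans hts))
  have hd0 : 0 ≤ dis L y := norm_nonneg _
  have h6 : dis L y ^ 2 / t ≤ 1 := by
    rw [div_le_one ht]
    have := pow_le_pow_left₀ hd0 hy.le 2
    rwa [Real.sq_sqrt ht.le] at this
  linarith

theorem Z_lower (hts : Real.sqrt t < r0 / 20) :
    (F 1).re * Real.exp (-(51 / 100)) * μ.real (bal L (Real.sqrt t)) ≤ ∫ y, res L F y ∂μ := by
  have hc : Continuous (res L F) := res_cont L cl.diff
  have hms : MeasurableSet (bal L (Real.sqrt t)) := (isOpen_bal L _).measurableSet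
  have h3 : ∫ y in bal L (Real.sqrt t), res L F y ∂μ ≤ ∫ y, res L F y ∂μ :=
    setIntegral_le_integral (intg μ hc) (Filter.Eventually.of_forall fun y => res_nonneg cl y)
  have h4 : ∫ y in bal L (Real.sqrt t), ((F 1).re * Real.exp (-(51 / 100))) ∂μ ≤
      ∫ y in bal L (Real.sqrt t), res L F y ∂μ :=
    setIntegral_mono_on (integrable_const _).integrableOn (intg μ hc).integrableOn hms
      fun y hy => res_lower' P cl ht hA hAt hts y hy
  rw [setIntegral_const, smul_eq_mul] at h4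
  linarith

theorem Z_pos (hts : Real.sqrt t < r0 / 20) : 0 < ∫ y, res L F y ∂μ := by
  have h1 := Z_lower μ P cl ht hA hAt hts
  have h2 := bal_pos μ L (Real.sqrt t) (Real.sqrt_pos.2 ht)
  have h3 := cl.pos
  have h4 : 0 < (F 1).re * Real.exp (-(51 / 100)) * μ.real (bal L (Real.sqrt t)) := by positivity
  linarith

theorem mom_le {Cm : ℝ} (hCm : ∀ t : ℝ, 0 < t → t ≤ 1 → ∀ j : ℕ, j ≤ 2 →
    ∫ y, dis L y ^ (2 * j) * Real.exp (-(min b ((1 - 1 / 10000) * dis L y ^ 2) / (2 * t))) ∂μ ≤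
      Cm * t ^ j * μ.real (bal L (Real.sqrt t))) (ht1 : t ≤ 1) (j : ℕ) (hj : j ≤ 2) :
    ∫ y, dis L y ^ (2 * j) * res L F y ∂μ ≤
      (F 1).re * (Cm * t ^ j * μ.real (bal L (Real.sqrt t))) := by
  have hdc := dis_cont L
  have hc : Continuous (res L F) := res_cont L cl.diff
  have hc1 : Continuous fun y : G => dis L y ^ (2 * j) *
      Real.exp (-(min b ((1 - 1 / 10000) * dis L y ^ 2) / (2 * t))) := by fun_prop
  have hc2 : Continuous fun y : G => dis L y ^ (2 * j) * res L F y := by fun_prop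
  have h1 : ∫ y, dis L y ^ (2 * j) * res L F y ∂μ ≤ ∫ y, (F 1).re * (dis L y ^ (2 * j) *
      Real.exp (-(min b ((1 - 1 / 10000) * dis L y ^ 2) / (2 * t)))) ∂μ := by
    refine integral_mono (intg μ hc2) (intg μ (hc1.const_mul _)) fun y => ?_
    have h2 := mul_le_mul_of_nonneg_left (res_le P cl ht hA hAt y)
      (pow_nonneg (dis_nonneg L y) (2 * j))
    calc dis L y ^ (2 * j) * res L F y ≤ _ := h2
      _ = _ := by ring
  rw [integral_const_mul] at h1
  exact h1.trans (mul_le_mul_of_nonneg_left (hCm t ht ht1 j hj) cl.pos.le)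

/-- the derivative along the group, by Cauchy's estimate -/
theorem lip_exp (hts : Real.sqrt t < r0 / 20) {X : Mt m} (hX : X ∈ lieSet L) (y : G) :
    ‖F (NormedSpace.exp X * L.rho y) - F (L.rho y)‖ ≤
      (F 1).re * Real.exp 1 / Real.sqrt t * ‖X‖ := by
  have hr0 := P.r0_pos
  have hr01 := P.r0_le
  have hrl := P.r_lo
  have hrh := P.r_hi
  have hδ := P.r0_δ
  have he0 := P.e0
  have he1 := P.e1
  have hM := cl.pos
  have hst : 0 < Real.sqrt t := Real.sqrt_pos.2 ht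
  have hXs := lie_skew L hX
  by_cases hX0 : X = 0
  · rw [hX0, NormedSpace.exp_zero, one_mul, sub_self, norm_zero, norm_zero, mul_zero]
  have hXn : 0 < ‖X‖ := norm_pos_iff.2 hX0
  obtain ⟨φ, hφ⟩ : ∃ φ : ℂ → ℂ, ∀ ζ, φ ζ = F (NormedSpace.exp (ζ • X) * L.rho y) :=
    ⟨_, fun _ => rfl⟩
  have hφd : Differentiable ℂ φ := by
    have h1 : φ = fun ζ => F (NormedSpace.exp (ζ • X) * L.rho y) := funext hφ
    rw [h1]
    have h2 : Differentiable ℂ fun ζ : ℂ => ζ • X := differentiable_id.smul_const X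
    have h3 : Differentiable ℂ fun ζ : ℂ => NormedSpace.exp (ζ • X) := exp_diff.comp h2
    have h4 : Differentiable ℂ fun ζ : ℂ => NormedSpace.exp (ζ • X) * L.rho y := h3.mul_const _
    exact (cl.diff.differentiable one_ne_zero).comp h4
  -- the bound on the strip
  have hbd : ∀ (u : ℝ) (ζ : ℂ), ‖ζ‖ = Real.sqrt t / ‖X‖ → ‖φ (u + ζ)‖ ≤ (F 1).re * Real.exp 1 := by
    intro u ζ hζ
    obtain ⟨g, hg⟩ := hX u
    have hζX : ‖ζ‖ * ‖X‖ = Real.sqrt t := by rw [hζ]; field_simp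
    have e1 : NormedSpace.exp (((u : ℂ) + ζ) • X) * L.rho y =
        NormedSpace.exp (ζ • X) * L.rho (g * y) := by
      have hcom : Commute (ζ • X) ((u : ℂ) • X) :=
        ((Commute.refl X).smul_left ζ).smul_right (u : ℂ)
      have h1 : NormedSpace.exp (((u : ℂ) + ζ) • X) =
          NormedSpace.exp (ζ • X) * NormedSpace.exp ((u : ℂ) • X) := by
        rw [← Matrix.exp_add_of_commute _ _ hcom, ← add_smul, add_comm]
      have h2 : (u : ℂ) • X = u • X := rfl
      rw [h1, h2, ← hg, map_mul, mul_assoc]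
    rw [hφ, e1]
    have hmem : ζ • X ∈ gC L := (gC L).smul_mem ζ (gC_of_lie L hX)
    have hdec : ζ • X = (ζ.re • X) + Complex.I • (ζ.im • X) := by
      have h1 : ζ.re • X = (ζ.re : ℂ) • X := rfl
      have h2 : ζ.im • X = (ζ.im : ℂ) • X := rfl
      rw [h1, h2, smul_smul, ← add_smul]
      congr 1
      rw [mul_comm]
      exact (Complex.re_add_im ζ).symm
    have hre : reP (ζ • X) = ζ.re • X := by
      rw [hdec]
      exact reP_add_smul (smul_skew hXs _) (smul_skew hXs _)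
    have him : imP (ζ • X) = ζ.im • X := by
      rw [hdec]
      exact imP_add_smul (smul_skew hXs _) (smul_skew hXs _)
    have hren : ‖reP (ζ • X)‖ ≤ Real.sqrt t := by
      rw [hre, norm_smul, Real.norm_eq_abs, ← hζX]
      exact mul_le_mul_of_nonneg_right (Complex.abs_re_le_norm ζ) (norm_nonneg _)
    have himn : ‖imP (ζ • X)‖ ≤ Real.sqrt t := by
      rw [him, norm_smul, Real.norm_eq_abs, ← hζX]
      exact mul_le_mul_of_nonneg_right (Complex.abs_im_le_norm ζ) (norm_nonneg _)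
    have U := ubound P.ch he0 he1 cl ht hA hAt (by linarith) (by linarith) (by linarith)
      (by linarith) (by linarith) P.h1 ⟨ζ • X, hmem⟩ (by
        show ‖reP (ζ • X)‖ < r
        linarith) (by
        show ‖imP (ζ • X)‖ < r0 / 4 / 2
        linarith) (g * y)
    refine U.trans (mul_le_mul_of_nonneg_left (Real.exp_le_exp.2 ?_) hM.le)
    have h2 : 0 ≤ min b ((1 - 1 / 10000) *
        ‖NormedSpace.exp (reP ((⟨ζ • X, hmem⟩ : gC L) : Mt m)) * L.rho (g * y) - 1‖ ^ 2) :=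
      le_min (b_pos P).le (by positivity)
    have h3 : ‖imP ((⟨ζ • X, hmem⟩ : gC L) : Mt m)‖ ^ 2 ≤ t := by
      have h4 := pow_le_pow_left₀ (norm_nonneg _) himn 2
      rwa [Real.sq_sqrt ht.le] at h4
    rw [← neg_div, div_le_iff₀ (by positivity)]
    linarith
  -- the derivative
  have hder : ∀ u : ℝ, ‖deriv φ u‖ ≤ (F 1).re * Real.exp 1 / Real.sqrt t * ‖X‖ := by
    intro u
    have hR : 0 < Real.sqrt t / ‖X‖ := by positivity
    have h1 := Complex.norm_deriv_le_of_forall_mem_sphere_norm_le (c := (u : ℂ))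
      (C := (F 1).re * Real.exp 1) hR hφd.diffContOnCl (fun z hz => by
        have h2 : z = (u : ℂ) + (z - u) := by ring
        rw [h2]
        refine hbd u (z - u) ?_
        rwa [mem_sphere_iff_norm] at hz)
    refine h1.trans (le_of_eq ?_)
    field_simp
  have hmv := norm_image_sub_le_of_norm_deriv_le_segment_01' (f := fun u : ℝ => φ u)
    (f' := fun u : ℝ => deriv φ u) (C := (F 1).re * Real.exp 1 / Real.sqrt t * ‖X‖)
    (fun u _ => ((hφd u).hasDerivAt.comp_ofReal).hasDerivWithinAt) (fun u _ => hder u)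
  simp only [hφ, Complex.ofReal_one, Complex.ofReal_zero, one_smul, zero_smul,
    NormedSpace.exp_zero, one_mul] at hmv
  exact hmv

/-- Lipschitz bound -/
theorem res_lip (hts : Real.sqrt t < r0 / 20) (ht1 : t ≤ 1) (x y : G) :
    |res L F x - res L F y| ≤
      (F 1).re * (2 * Real.exp 1 + 1 / δ) / Real.sqrt t * ‖L.rho x - L.rho y‖ := by
  have hr0 := P.r0_pos
  have hδ := P.r0_δ
  have he1 := P.e1
  have hM := cl.pos
  have hδ0 : 0 < δ := by linarith
  have hst : 0 < Real.sqrt t := Real.sqrt_pos.2 ht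
  have hst1 : Real.sqrt t ≤ 1 := by rw [← Real.sqrt_one]; exact Real.sqrt_le_sqrt ht1
  have hdis : dis L (x * y⁻¹) = ‖L.rho x - L.rho y‖ := by
    have h1 : ‖(L.rho (x * y⁻¹) - 1) * L.rho y‖ = ‖L.rho (x * y⁻¹) - 1‖ := norm_mul_rho y _
    have h2 : (L.rho (x * y⁻¹) - 1) * L.rho y = L.rho x - L.rho y := by
      rw [sub_mul, one_mul, ← map_mul, inv_mul_cancel_right]
    unfold dis
    rw [← h1, h2]
  rw [← hdis]
  obtain ⟨d, hd⟩ : ∃ d, d = dis L (x * y⁻¹) := ⟨_, rfl⟩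
  rw [← hd]
  have hd0 : 0 ≤ d := by rw [hd]; exact norm_nonneg _
  have hK : 0 ≤ (F 1).re / Real.sqrt t * d := by positivity
  have e0 : (F 1).re * (2 * Real.exp 1 + 1 / δ) / Real.sqrt t * d =
      2 * Real.exp 1 * ((F 1).re / Real.sqrt t * d) + 1 / δ * ((F 1).re / Real.sqrt t * d) := by
    ring
  rw [e0]
  have p1 : 0 ≤ 2 * Real.exp 1 * ((F 1).re / Real.sqrt t * d) := by positivity
  have p2 : 0 ≤ 1 / δ * ((F 1).re / Real.sqrt t * d) := by positivity
  by_cases hy : d < δ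
  · obtain ⟨hX, hXe, hXn, -⟩ := P.ch.lgm (x * y⁻¹) (by rw [← hd]; exact hy)
    have h1 := lip_exp P cl ht hA hAt hts hX y
    rw [hXe, ← map_mul, inv_mul_cancel_right] at h1
    have h2 : |res L F x - res L F y| ≤ ‖F (L.rho x) - F (L.rho y)‖ := by
      have h3 := Complex.abs_re_le_norm (F (L.rho x) - F (L.rho y))
      rwa [Complex.sub_re] at h3
    have h4 : ‖D.lg (L.rho (x * y⁻¹))‖ ≤ 2 * d := by
      rw [← hd] at hXn
      nlinarith
    have h5 : 0 ≤ (F 1).re * Real.exp 1 / Real.sqrt t := by positivity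
    have h6 := mul_le_mul_of_nonneg_left h4 h5
    have h7 : (F 1).re * Real.exp 1 / Real.sqrt t * (2 * d) =
        2 * Real.exp 1 * ((F 1).re / Real.sqrt t * d) := by ring
    linarith
  · rw [not_lt] at hy
    have h1 := res_le' P cl ht hA hAt x
    have h2 := res_le' P cl ht hA hAt y
    have h3 := res_nonneg cl x
    have h4 := res_nonneg cl y
    have h5 : |res L F x - res L F y| ≤ (F 1).re := by
      rw [abs_le]
      constructor <;> linarith
    have h6 : (F 1).re ≤ 1 / δ * ((F 1).re / Real.sqrt t * d) := by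
      have e1 : 1 / δ * ((F 1).re / Real.sqrt t * d) = (F 1).re * ((d / δ) * (1 / Real.sqrt t)) := by
        field_simp
      rw [e1]
      have e2 : 1 ≤ d / δ := by rwa [one_le_div hδ0]
      have e3 : 1 ≤ 1 / Real.sqrt t := by rwa [one_le_div hst]
      have e4 : 1 ≤ d / δ * (1 / Real.sqrt t) := one_le_mul_of_one_le_of_one_le e2 e3
      nlinarith
    linarith

end

end Obs

open HaarAux in
/-- bounds of the densities of the class -/
theorem obs {D : LogData m} {εg δ r0 r s b r' : ℝ} (P : Par L D εg δ r0 r s b r')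
    (hne : ∃ X ∈ lieSet L, X ≠ 0) :
    ∃ (C c ts : ℝ) (p : ℕ), 0 < C ∧ 0 < c ∧ 0 < ts ∧ ∀ (F : Mt m → ℂ) (t A : ℝ), 0 < t → t ≤ ts →
      0 ≤ A → A * t ≤ 1 / 10 → Cls L F t A r (r0 / 4) s b (1 / 10000) →
      PD μ (nres μ L F) ∧ (∀ x y, nres μ L F (y * x * y⁻¹) = nres μ L F x) ∧
      (∀ x, nres μ L F x⁻¹ = nres μ L F x) ∧ (∀ x, |nres μ L F x| ≤ C / t ^ p) ∧
      (∀ x y : G, |nres μ L F x - nres μ L F y| ≤ C / t ^ p * ‖L.rho x - L.rho y‖) ∧
      (∀ y, dis L y < r0 / 20 → Real.exp (-(1 / t)) ≤ nres μ L F y) ∧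
      c * t ≤ ∫ y, dis L y ^ 2 * nres μ L F y ∂μ ∧
      ∫ y, dis L y ^ 2 * nres μ L F y ∂μ ≤ C * t := by
  classical
  obtain ⟨Cm, hCm0, hCm⟩ := Obs.moments μ L b (Obs.b_pos P)
  obtain ⟨c0, hc0, p, hp⟩ := bal_lower μ L
  obtain ⟨κ, hκ0, hκ1, hκ⟩ := bal_small μ L hne (1 / 2) (by norm_num)
  have hr0 := P.r0_pos
  have hr01 := P.r0_le
  have hδ := P.r0_δ
  have hδ0 : 0 < δ := by linarith
  obtain ⟨E, hE⟩ : ∃ E, E = Real.exp (51 / 100) := ⟨_, rfl⟩
  have hE0 : 0 < E := by rw [hE]; exact Real.exp_pos _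
  have hEinv : Real.exp (-(51 / 100)) = E⁻¹ := by rw [hE, Real.exp_neg]
  obtain ⟨C1, hC1⟩ : ∃ C1, C1 = 2 * Real.exp 1 + 1 / δ := ⟨_, rfl⟩
  have hC10 : 0 < C1 := by rw [hC1]; positivity
  refine ⟨E / c0 + C1 * E / c0 + Cm * E, κ ^ 2 / (2 * E * Cm), (r0 / 40) ^ 2, p + 1,
    by positivity, by positivity, by positivity, ?_⟩
  intro F t A ht hts hA hAt cl
  have hst : 0 < Real.sqrt t := Real.sqrt_pos.2 ht
  have hstr : Real.sqrt t < r0 / 20 := by
    have h1 : Real.sqrt t ≤ r0 / 40 := by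
      rw [← Real.sqrt_sq (show (0 : ℝ) ≤ r0 / 40 by positivity)]
      exact Real.sqrt_le_sqrt hts
    linarith
  have hst1 : Real.sqrt t ≤ 1 := by linarith
  have hsq : Real.sqrt t * Real.sqrt t = t := Real.mul_self_sqrt ht.le
  have htst : t ≤ Real.sqrt t := by nlinarith
  have ht1 : t ≤ 1 := htst.trans hst1
  have hdc := dis_cont L
  have hrc : Continuous (res L F) := res_cont L cl.diff
  obtain ⟨M, hM⟩ : ∃ M, M = (F 1).re := ⟨_, rfl⟩
  obtain ⟨Z, hZ⟩ : ∃ Z, Z = ∫ y, res L F y ∂μ := ⟨_, rfl⟩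
  obtain ⟨B, hB⟩ : ∃ B, B = μ.real (bal L (Real.sqrt t)) := ⟨_, rfl⟩
  have hM0 : 0 < M := by rw [hM]; exact cl.pos
  have hB0 : 0 < B := by rw [hB]; exact bal_pos μ L _ hst
  have hBlow : c0 * Real.sqrt t ^ p ≤ B := by rw [hB]; exact hp _ hst hst1
  have hZlow : M * E⁻¹ * B ≤ Z := by
    rw [hM, ← hEinv, hB, hZ]
    exact Obs.Z_lower μ P cl ht hA hAt hstr
  have hZ0 : 0 < Z := by
    have : 0 < M * E⁻¹ * B := by positivity
    linarith
  have hresM : ∀ y, res L F y ≤ M := fun y => by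
    rw [hM]; exact Obs.res_le' P cl ht hA hAt y
  have hres0 : ∀ y, 0 ≤ res L F y := fun y => Obs.res_nonneg cl y
  have hZM : Z ≤ M := by
    have h1 : ∫ y, res L F y ∂μ ≤ ∫ _ : G, M ∂μ := integral_mono (intg μ hrc)
      (integrable_const _) hresM
    rw [integral_const, probReal_univ, one_smul] at h1
    rw [hZ]; exact h1
  have hmom := fun j hj => Obs.mom_le μ P cl ht hA hAt hCm ht1 j hj
  have hZup : Z ≤ M * (Cm * B) := by
    have h1 := hmom 0 (by norm_num)
    simp only [mul_zero, pow_zero, one_mul, mul_one] at h1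
    rw [hZ, hM, hB]; exact h1
  have hMZ : M / Z ≤ E / (c0 * Real.sqrt t ^ p) := by
    rw [div_le_div_iff₀ hZ0 (by positivity)]
    have h1 : M * (c0 * Real.sqrt t ^ p) ≤ M * B := mul_le_mul_of_nonneg_left hBlow hM0.le
    have h2 : M * B = E * (M * E⁻¹ * B) := by field_simp
    have h3 := mul_le_mul_of_nonneg_left hZlow hE0.le
    linarith
  have hpw : t ^ (p + 1) ≤ Real.sqrt t ^ p := by
    have h1 : t ^ p ≤ Real.sqrt t ^ p := pow_le_pow_left₀ ht.le htst p
    have h2 : t ^ (p + 1) ≤ t ^ p := by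
      rw [pow_succ]
      exact mul_le_of_le_one_right (by positivity) ht1
    exact h2.trans h1
  have hpw' : t ^ (p + 1) ≤ Real.sqrt t ^ (p + 1) := pow_le_pow_left₀ ht.le htst _
  have hnres : ∀ x, nres μ L F x = res L F x / Z := fun x => by unfold nres; rw [hZ]
  have hint : ∫ y, dis L y ^ 2 * nres μ L F y ∂μ = (∫ y, dis L y ^ 2 * res L F y ∂μ) / Z := by
    rw [← integral_div]
    refine integral_congr_ae (Filter.Eventually.of_forall fun y => ?_)
    simp only [hnres]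
    ring
  refine ⟨⟨?_, ?_, ?_⟩, ?_, ?_, ?_, ?_, ?_, ?_, ?_⟩
  · have h1 : nres μ L F = fun x => res L F x / Z := funext hnres
    rw [h1]
    exact hrc.div_const _
  · intro x
    rw [hnres]
    exact div_nonneg (hres0 x) hZ0.le
  · have h1 : (fun x => nres μ L F x) = fun x => res L F x / Z := funext hnres
    rw [h1, integral_div, ← hZ, div_self hZ0.ne']
  · intro x y
    rw [hnres, hnres]
    congr 1
    unfold res
    rw [map_mul, map_mul, cl.conj]
  · intro x
    rw [hnres, hnres]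
    congr 1
    unfold res
    rw [← L.sig_rho, cl.inv]
  · intro x
    rw [hnres, abs_of_nonneg (div_nonneg (hres0 x) hZ0.le)]
    have h1 : res L F x / Z ≤ M / Z := div_le_div_of_nonneg_right (hresM x) hZ0.le
    have h2 : E / (c0 * Real.sqrt t ^ p) ≤ E / (c0 * t ^ (p + 1)) :=
      div_le_div_of_nonneg_left hE0.le (by positivity) (mul_le_mul_of_nonneg_left hpw hc0.le)
    have h3 : E / (c0 * t ^ (p + 1)) = E / c0 / t ^ (p + 1) := by rw [div_div]
    have h4 : E / c0 / t ^ (p + 1) ≤ (E / c0 + C1 * E / c0 + Cm * E) / t ^ (p + 1) := by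
      refine div_le_div_of_nonneg_right ?_ (by positivity)
      have : 0 ≤ C1 * E / c0 := by positivity
      have : 0 ≤ Cm * E := by positivity
      linarith
    linarith
  · intro x y
    rw [hnres, hnres, ← sub_div, abs_div, abs_of_pos hZ0]
    have h1 := Obs.res_lip P cl ht hA hAt hstr ht1 x y
    rw [← hM, ← hC1] at h1
    obtain ⟨d, hd⟩ : ∃ d, d = ‖L.rho x - L.rho y‖ := ⟨_, rfl⟩
    have hd0 : 0 ≤ d := by rw [hd]; exact norm_nonneg _
    rw [← hd] at h1 ⊢
    have h2 : |res L F x - res L F y| / Z ≤ M / Z * (C1 / Real.sqrt t * d) := by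
      rw [div_le_iff₀ hZ0]
      refine h1.trans (le_of_eq ?_)
      field_simp
    have h3 : M / Z * (C1 / Real.sqrt t * d) ≤
        E / (c0 * Real.sqrt t ^ p) * (C1 / Real.sqrt t * d) :=
      mul_le_mul_of_nonneg_right hMZ (by positivity)
    have h4 : E / (c0 * Real.sqrt t ^ p) * (C1 / Real.sqrt t * d) =
        C1 * E / c0 / Real.sqrt t ^ (p + 1) * d := by
      rw [pow_succ]
      field_simp
    have h5 : C1 * E / c0 / Real.sqrt t ^ (p + 1) ≤ C1 * E / c0 / t ^ (p + 1) :=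
      div_le_div_of_nonneg_left (by positivity) (by positivity) hpw'
    have h6 : C1 * E / c0 / t ^ (p + 1) ≤ (E / c0 + C1 * E / c0 + Cm * E) / t ^ (p + 1) := by
      refine div_le_div_of_nonneg_right ?_ (by positivity)
      have : 0 ≤ E / c0 := by positivity
      have : 0 ≤ Cm * E := by positivity
      linarith
    have h7 := mul_le_mul_of_nonneg_right (h5.trans h6) hd0
    linarith
  · intro y hy
    rw [hnres, le_div_iff₀ hZ0]
    have h1 := Obs.res_lower P cl ht hA hAt y hy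
    rw [← hM] at h1
    have h2 : Real.exp (-(1 / t)) ≤ Real.exp (-(51 / 100 * (dis L y ^ 2 / t))) := by
      apply Real.exp_le_exp.2
      rw [neg_le_neg_iff, ← mul_div_assoc]
      refine div_le_div_of_nonneg_right ?_ ht.le
      have h3 : dis L y < 1 := by linarith
      have h4 : dis L y ^ 2 ≤ 1 := by
        have := dis_nonneg L y
        nlinarith
      linarith
    calc Real.exp (-(1 / t)) * Z ≤ Real.exp (-(1 / t)) * M :=
          mul_le_mul_of_nonneg_left hZM (Real.exp_pos _).le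
      _ ≤ Real.exp (-(51 / 100 * (dis L y ^ 2 / t))) * M :=
          mul_le_mul_of_nonneg_right h2 hM0.le
      _ ≤ res L F y := by rw [mul_comm]; exact h1
  · rw [hint, le_div_iff₀ hZ0]
    obtain ⟨S, hS⟩ : ∃ S, S = bal L (Real.sqrt t) \ bal L (κ * Real.sqrt t) := ⟨_, rfl⟩
    have hSm : MeasurableSet S := by
      rw [hS]
      exact (isOpen_bal L _).measurableSet.diff (isOpen_bal L _).measurableSet
    have hc2 : Continuous fun y => dis L y ^ 2 * res L F y := by fun_prop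
    have h1 : ∫ y in S, dis L y ^ 2 * res L F y ∂μ ≤ ∫ y, dis L y ^ 2 * res L F y ∂μ :=
      setIntegral_le_integral (intg μ hc2)
        (Filter.Eventually.of_forall fun y => mul_nonneg (sq_nonneg _) (hres0 y))
    have h2 : ∫ y in S, (κ ^ 2 * t * (M * E⁻¹)) ∂μ ≤ ∫ y in S, dis L y ^ 2 * res L F y ∂μ := by
      refine setIntegral_mono_on (integrable_const _).integrableOn (intg μ hc2).integrableOn hSm ?_
      intro y hy
      rw [hS] at hy
      have hy1 : dis L y < Real.sqrt t := hy.1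
      have hy2 : κ * Real.sqrt t ≤ dis L y := not_lt.1 hy.2
      have h3 := Obs.res_lower' P cl ht hA hAt hstr y hy1
      rw [← hM, hEinv] at h3
      have h4 : κ ^ 2 * t ≤ dis L y ^ 2 := by
        have h5 := pow_le_pow_left₀ (by positivity) hy2 2
        rwa [mul_pow, Real.sq_sqrt ht.le] at h5
      exact mul_le_mul h4 h3 (by positivity) (sq_nonneg _)
    rw [setIntegral_const, smul_eq_mul] at h2
    have h3 : 1 / 2 * B ≤ μ.real S := by
      have h4 : μ.real (bal L (Real.sqrt t)) ≤ μ.real S + μ.real (bal L (κ * Real.sqrt t)) := by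
        have h5 : bal L (Real.sqrt t) ⊆ S ∪ bal L (κ * Real.sqrt t) := by
          intro y hy
          by_cases hy' : y ∈ bal L (κ * Real.sqrt t)
          · exact Or.inr hy'
          · left
            rw [hS]
            exact ⟨hy, hy'⟩
        exact (measureReal_mono h5).trans (measureReal_union_le _ _)
      have h5 := hκ _ hst hst1
      rw [← hB] at h4 h5
      linarith
    have h4 : κ ^ 2 / (2 * E * Cm) * t * Z ≤ 1 / 2 * B * (κ ^ 2 * t * (M * E⁻¹)) := by
      calc κ ^ 2 / (2 * E * Cm) * t * Z ≤ κ ^ 2 / (2 * E * Cm) * t * (M * (Cm * B)) :=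
            mul_le_mul_of_nonneg_left hZup (by positivity)
        _ = 1 / 2 * B * (κ ^ 2 * t * (M * E⁻¹)) := by field_simp
    have h5 := mul_le_mul_of_nonneg_right h3 (show 0 ≤ κ ^ 2 * t * (M * E⁻¹) by positivity)
    linarith
  · rw [hint, div_le_iff₀ hZ0]
    have h1 := hmom 1 (by norm_num)
    rw [mul_one, pow_one, ← hM, ← hB] at h1
    have h2 : M * (Cm * t * B) = Cm * E * t * (M * E⁻¹ * B) := by field_simp
    have h3 := mul_le_mul_of_nonneg_left hZlow (show 0 ≤ Cm * E * t by positivity)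
    have h4 : Cm * E * t * Z ≤ (E / c0 + C1 * E / c0 + Cm * E) * t * Z := by
      refine mul_le_mul_of_nonneg_right (mul_le_mul_of_nonneg_right ?_ ht.le) hZ0.le
      have : 0 ≤ E / c0 := by positivity
      have : 0 ≤ C1 * E / c0 := by positivity
      linarith
    linarith

namespace Obs

open HaarAux

theorem ipr_self (X : Mt m) : ipr X X = ‖X‖ ^ 2 := (norm_sq_eq X).symm

theorem ipr_comm (X Y : Mt m) : ipr X Y = ipr Y X := by
  unfold ipr
  have : Xᴴ * Y = (Yᴴ * X)ᴴ := by rw [conjTranspose_mul, conjTranspose_conjTranspose]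
  rw [this, trace_conjTranspose, Complex.star_def, Complex.conj_re]

theorem ipr_add (X Y Z : Mt m) : ipr X (Y + Z) = ipr X Y + ipr X Z := by
  unfold ipr
  rw [mul_add, trace_add, Complex.add_re]

theorem ipr_smul (c : ℝ) (X Y : Mt m) : ipr X (c • Y) = c * ipr X Y := by
  unfold ipr
  rw [mul_smul_comm, trace_smul, Complex.smul_re, smul_eq_mul]

theorem ipr_sum {ι : Type*} (s : Finset ι) (W : Mt m) (f : ι → Mt m) :
    ipr W (∑ a ∈ s, f a) = ∑ a ∈ s, ipr W (f a) := by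
  unfold ipr
  rw [Matrix.mul_sum, trace_sum, Complex.re_sum]

theorem norm_sub_sq' (W S : Mt m) : ‖W - S‖ ^ 2 = ‖W‖ ^ 2 - 2 * ipr W S + ‖S‖ ^ 2 := by
  rw [← ipr_self, ← ipr_self, ← ipr_self]
  have h1 : W - S = W + (-1 : ℝ) • S := by rw [neg_one_smul, sub_eq_add_neg]
  rw [h1, ipr_add, ipr_smul, ipr_comm _ W, ipr_comm _ S, ipr_add, ipr_smul, ipr_add, ipr_smul,
    ipr_comm S W]
  ring

/-- an orthonormal basis of the Lie algebra -/
theorem exists_onb : ∃ X : Fin (Module.finrank ℝ (lieAlg L)) → Mt m, (∀ a, X a ∈ lieSet L) ∧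
    (∀ a, ‖X a‖ = 1) ∧ (∀ a a', a ≠ a' → ipr (X a) (X a') = 0) ∧
    ∀ Y ∈ lieSet L, ∃ c : Fin (Module.finrank ℝ (lieAlg L)) → ℝ, Y = ∑ a, c a • X a := by
  classical
  have : FiniteDimensional ℝ (Mt m) := FiniteDimensional.complexToReal (Mt m)
  have : FiniteDimensional ℝ (lieAlg L) := FiniteDimensional.finiteDimensional_submodule _
  let B : LinearMap.BilinForm ℝ (lieAlg L) := LinearMap.mk₂ ℝ
    (fun X Y => ipr (X : Mt m) (Y : Mt m))
    (fun X Y Z => by
      rw [ipr_comm, Submodule.coe_add, ipr_add, ipr_comm _ (X : Mt m), ipr_comm _ (Y : Mt m)])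
    (fun c X Y => by
      rw [ipr_comm, Submodule.coe_smul, ipr_smul, ipr_comm _ (X : Mt m), smul_eq_mul])
    (fun X Y Z => by rw [Submodule.coe_add, ipr_add])
    (fun c X Y => by rw [Submodule.coe_smul, ipr_smul, smul_eq_mul])
  have hB : LinearMap.IsSymm B := ⟨fun X Y => ipr_comm _ _⟩
  have : Invertible (2 : ℝ) := invertibleOfNonzero two_ne_zero
  obtain ⟨v, hv⟩ := LinearMap.BilinForm.exists_orthogonal_basis (B := B) hB
  have hvn : ∀ a, ((v a : lieAlg L) : Mt m) ≠ 0 := fun a h => v.ne_zero a (Subtype.ext h)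
  have hvp : ∀ a, 0 < ‖((v a : lieAlg L) : Mt m)‖ := fun a => norm_pos_iff.2 (hvn a)
  refine ⟨fun a => (‖((v a : lieAlg L) : Mt m)‖⁻¹ : ℝ) • ((v a : lieAlg L) : Mt m),
    fun a => ?_, fun a => ?_, fun a a' h => ?_, fun Y hY => ?_⟩
  · exact lie_smul L _ ((mem_lieAlg L).1 (v a).2)
  · rw [norm_smul, norm_inv, norm_norm, inv_mul_cancel₀ (hvp a).ne']
  · have h1 : ipr ((v a : lieAlg L) : Mt m) ((v a' : lieAlg L) : Mt m) = 0 :=
      hv h
    rw [ipr_smul, ipr_comm, ipr_smul, ipr_comm, h1, mul_zero, mul_zero]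
  · refine ⟨fun a => v.repr ⟨Y, (mem_lieAlg L).2 hY⟩ a * ‖((v a : lieAlg L) : Mt m)‖, ?_⟩
    have h1 := v.sum_repr ⟨Y, (mem_lieAlg L).2 hY⟩
    have h2 := congrArg (Subtype.val) h1
    rw [Submodule.coe_sum] at h2
    refine h2.symm.trans (Finset.sum_congr rfl fun a _ => ?_)
    simp only [Submodule.coe_smul]
    rw [smul_smul, mul_assoc, mul_inv_cancel₀ (hvp a).ne', mul_one]

variable {L}

/-- the distance to the span of an orthonormal family -/
theorem onb_sq {ι : Type*} [Fintype ι] [DecidableEq ι] {X : ι → Mt m} (h1 : ∀ a, ‖X a‖ = 1)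
    (h2 : ∀ a a', a ≠ a' → ipr (X a) (X a') = 0) (W : Mt m) (c : ι → ℝ) :
    ‖W - ∑ a, c a • X a‖ ^ 2 =
      ‖W‖ ^ 2 - ∑ a, ipr (X a) W ^ 2 + ∑ a, (c a - ipr (X a) W) ^ 2 := by
  have h3 : ipr W (∑ a, c a • X a) = ∑ a, c a * ipr (X a) W := by
    rw [ipr_sum]
    refine Finset.sum_congr rfl fun a _ => ?_
    rw [ipr_smul, ipr_comm]
  have h4 : ‖∑ a, c a • X a‖ ^ 2 = ∑ a, c a ^ 2 := by
    rw [← ipr_self, ipr_sum]
    refine Finset.sum_congr rfl fun a _ => ?_
    rw [ipr_smul, ipr_comm, ipr_sum, Finset.sum_eq_single a]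
    · rw [ipr_smul, ipr_self, h1]
      ring
    · intro a' _ ha'
      rw [ipr_smul, h2 a a' (Ne.symm ha'), mul_zero]
    · intro h
      exact absurd (Finset.mem_univ _) h
  rw [norm_sub_sq', h3, h4, Finset.mul_sum]
  have h5 : ∑ a, (c a - ipr (X a) W) ^ 2 =
      ∑ a, c a ^ 2 - ∑ a, 2 * (c a * ipr (X a) W) + ∑ a, ipr (X a) W ^ 2 := by
    rw [← Finset.sum_sub_distrib, ← Finset.sum_add_distrib]
    refine Finset.sum_congr rfl fun a _ => ?_
    ring
  rw [h5]
  ring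

theorem exp_quad {X : Mt m} (hX : Xᴴ = -X) : ‖NormedSpace.exp X - 1 - X‖ ≤ ‖X‖ ^ 2 := by
  have h1 : ∀ s : ℝ, 0 ≤ s → s ≤ 1 → ‖NormedSpace.exp (s • X) - 1‖ ≤ ‖X‖ := by
    intro s hs0 hs1
    have hXs := smul_skew hX s
    have h := norm_image_sub_le_of_norm_deriv_le_segment_01' (f := fun u : ℝ =>
      NormedSpace.exp (u • (s • X))) (f' := fun u => NormedSpace.exp (u • (s • X)) * (s • X))
      (C := ‖s • X‖) (fun u _ => (hasDerivAt_exp (s • X) u).hasDerivWithinAt)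
      (fun u _ => (norm_unit_mul (exp_unitary (smul_skew hXs u)) (s • X)).le)
    simp only [one_smul, zero_smul, NormedSpace.exp_zero] at h
    refine h.trans ?_
    rw [norm_smul, Real.norm_eq_abs, abs_of_nonneg hs0]
    exact mul_le_of_le_one_left (norm_nonneg _) hs1
  have h2 := norm_image_sub_le_of_norm_deriv_le_segment_01' (f := fun u : ℝ =>
      NormedSpace.exp (u • X) - u • X) (f' := fun u => NormedSpace.exp (u • X) * X - (1 : ℝ) • X)
      (C := ‖X‖ ^ 2) (fun u _ => ((hasDerivAt_exp X u).sub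
        ((hasDerivAt_id u).smul_const X)).hasDerivWithinAt) (fun u hu => by
        have e1 : NormedSpace.exp (u • X) * X - (1 : ℝ) • X = (NormedSpace.exp (u • X) - 1) * X := by
          rw [sub_mul, one_mul, one_smul]
        rw [e1, sq]
        exact (norm_mul_le _ _).trans (mul_le_mul_of_nonneg_right (h1 u hu.1 hu.2.le)
          (norm_nonneg _)))
  simp only [one_smul, zero_smul, NormedSpace.exp_zero, sub_zero] at h2
  have e2 : NormedSpace.exp X - 1 - X = NormedSpace.exp X - X - 1 := by abel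
  rw [e2]
  exact h2

theorem ipr_one {X : Mt m} (hX : Xᴴ = -X) : ipr X 1 = 0 := by
  unfold ipr
  rw [mul_one, hX, trace_neg, Complex.neg_re]
  have h1 : (trace Xᴴ).re = (trace X).re := re_trace_star X
  rw [hX, trace_neg, Complex.neg_re] at h1
  linarith

/-- the projection of a group element to the Lie algebra -/
theorem proj_le {D : LogData m} {εg δ r0 r s b r' : ℝ} (P : Par L D εg δ r0 r s b r')
    {ι : Type*} [Fintype ι] [DecidableEq ι] {X : ι → Mt m} (h0 : ∀ a, X a ∈ lieSet L)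
    (h1 : ∀ a, ‖X a‖ = 1) (h2 : ∀ a a', a ≠ a' → ipr (X a) (X a') = 0)
    (h3 : ∀ Y ∈ lieSet L, ∃ c : ι → ℝ, Y = ∑ a, c a • X a) (y : G) :
    |dis L y ^ 2 - ∑ a, ipr (X a) (L.rho y) ^ 2| ≤ (2 + 1 / δ ^ 2) * dis L y ^ 4 := by
  have hr0 := P.r0_pos
  have hδ := P.r0_δ
  have he0 := P.e0
  have he1 := P.e1
  have hδ0 : 0 < δ := by linarith
  have hd0 := dis_nonneg L y
  obtain ⟨W, hW⟩ : ∃ W, W = L.rho y - 1 := ⟨_, rfl⟩
  have hWn : ‖W‖ = dis L y := by rw [hW]; rfl
  have hip : ∀ a, ipr (X a) (L.rho y) = ipr (X a) W := by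
    intro a
    have e1 : L.rho y = W + 1 := by rw [hW, sub_add_cancel]
    rw [e1, ipr_add, ipr_one (lie_skew L (h0 a)), add_zero]
  simp only [hip]
  rw [← hWn]
  have hlow : 0 ≤ ‖W‖ ^ 2 - ∑ a, ipr (X a) W ^ 2 := by
    have h4 := onb_sq h1 h2 W (fun a => ipr (X a) W)
    simp only [sub_self, ne_eq, OfNat.ofNat_ne_zero, not_false_eq_true, zero_pow,
      Finset.sum_const_zero, add_zero] at h4
    rw [← h4]
    positivity
  rw [abs_of_nonneg hlow]
  by_cases hy : dis L y < δ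
  · obtain ⟨hη, hηe, hηn, -⟩ := P.ch.lgm y hy
    obtain ⟨c, hc⟩ := h3 _ hη
    have h4 := onb_sq h1 h2 W c
    rw [← hc] at h4
    have h5 : 0 ≤ ∑ a, (c a - ipr (X a) W) ^ 2 := Finset.sum_nonneg fun a _ => sq_nonneg _
    have h6 : ‖W - D.lg (L.rho y)‖ ≤ ‖D.lg (L.rho y)‖ ^ 2 := by
      rw [hW]
      have := exp_quad (lie_skew L hη)
      rwa [hηe] at this
    have h7 : ‖D.lg (L.rho y)‖ ^ 2 ≤ (1 + εg) ^ 2 * ‖W‖ ^ 2 := by
      rw [← mul_pow, hWn]
      exact pow_le_pow_left₀ (norm_nonneg _) hηn 2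
    have h8 : ‖W - D.lg (L.rho y)‖ ^ 2 ≤ ((1 + εg) ^ 2 * ‖W‖ ^ 2) ^ 2 :=
      pow_le_pow_left₀ (norm_nonneg _) (h6.trans h7) 2
    have h9 : ((1 + εg) ^ 2 * ‖W‖ ^ 2) ^ 2 = (1 + εg) ^ 4 * ‖W‖ ^ 4 := by ring
    have h10 : (1 + εg) ^ 4 ≤ 2 := by
      have e1 : 1 + εg ≤ 1 + 1 / 1000000 := by linarith
      have e2 := pow_le_pow_left₀ (by linarith) e1 4
      refine e2.trans ?_
      norm_num
    have h11 : 0 ≤ 1 / δ ^ 2 * ‖W‖ ^ 4 := by positivity
    have h12 := mul_le_mul_of_nonneg_right h10 (show 0 ≤ ‖W‖ ^ 4 by positivity)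
    rw [add_mul]
    linarith
  · rw [not_lt, ← hWn] at hy
    have h4 : 0 ≤ ∑ a, ipr (X a) W ^ 2 := Finset.sum_nonneg fun a _ => sq_nonneg _
    have h5 : ‖W‖ ^ 2 ≤ 1 / δ ^ 2 * ‖W‖ ^ 4 := by
      have e1 : 1 / δ ^ 2 * ‖W‖ ^ 4 = ‖W‖ ^ 2 * (‖W‖ / δ) ^ 2 := by
        field_simp
      rw [e1]
      have e2 : 1 ≤ (‖W‖ / δ) ^ 2 := one_le_pow₀ (by rwa [one_le_div hδ0])
      exact le_mul_of_one_le_right (sq_nonneg _) e2
    have h6 : 0 ≤ 2 * ‖W‖ ^ 4 := by positivity
    rw [add_mul]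
    linarith

end Obs

open HaarAux in
/-- the running coupling is the dimension times `t` to leading order -/
theorem obs_as {D : LogData m} {εg δ r0 r s b r' : ℝ} (P : Par L D εg δ r0 r s b r') :
    ∃ C ts : ℝ, 0 < C ∧ 0 < ts ∧ ∀ (F : Mt m → ℂ) (t A : ℝ), 0 < t → t ≤ ts →
      0 ≤ A → A * t ≤ 1 / 10 → Cls L F t A r (r0 / 4) s b (1 / 10000) →
      |∫ y, dis L y ^ 2 * nres μ L F y ∂μ - Module.finrank ℝ (lieAlg L) * t| ≤
        C * t * (Real.sqrt t + A * t) := by
  classical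
  obtain ⟨Cm, hCm0, hCm⟩ := Obs.moments μ L b (Obs.b_pos P)
  obtain ⟨C1, ts1, hC1, hts1, hcov⟩ := covar μ L P 1 le_rfl
  obtain ⟨X, hX0, hX1, hX2, hX3⟩ := Obs.exists_onb L
  have hr0 := P.r0_pos
  have hr01 := P.r0_le
  have hδ := P.r0_δ
  have hδ0 : 0 < δ := by linarith
  obtain ⟨E, hE⟩ : ∃ E, E = Real.exp (51 / 100) := ⟨_, rfl⟩
  have hE0 : 0 < E := by rw [hE]; exact Real.exp_pos _
  have hEinv : Real.exp (-(51 / 100)) = E⁻¹ := by rw [hE, Real.exp_neg]
  obtain ⟨d, hd⟩ : ∃ d, d = Module.finrank ℝ (lieAlg L) := ⟨_, rfl⟩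
  refine ⟨d * C1 + (2 + 1 / δ ^ 2) * (Cm * E), min ts1 ((r0 / 40) ^ 2), by positivity,
    by positivity, ?_⟩
  intro F t A ht hts hA hAt cl
  have hst : 0 < Real.sqrt t := Real.sqrt_pos.2 ht
  have hstr : Real.sqrt t < r0 / 20 := by
    have h1 : Real.sqrt t ≤ r0 / 40 := by
      rw [← Real.sqrt_sq (show (0 : ℝ) ≤ r0 / 40 by positivity)]
      exact Real.sqrt_le_sqrt (hts.trans (min_le_right _ _))
    linarith
  have hst1 : Real.sqrt t ≤ 1 := by linarith
  have hsq : Real.sqrt t * Real.sqrt t = t := Real.mul_self_sqrt ht.le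
  have htst : t ≤ Real.sqrt t := by nlinarith
  have ht1 : t ≤ 1 := htst.trans hst1
  have hdc := dis_cont L
  have hrc : Continuous (res L F) := res_cont L cl.diff
  obtain ⟨M, hM⟩ : ∃ M, M = (F 1).re := ⟨_, rfl⟩
  obtain ⟨Z, hZ⟩ : ∃ Z, Z = ∫ y, res L F y ∂μ := ⟨_, rfl⟩
  obtain ⟨B, hB⟩ : ∃ B, B = μ.real (bal L (Real.sqrt t)) := ⟨_, rfl⟩
  have hM0 : 0 < M := by rw [hM]; exact cl.pos
  have hB0 : 0 < B := by rw [hB]; exact bal_pos μ L _ hst
  have hZlow : M * E⁻¹ * B ≤ Z := by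
    rw [hM, ← hEinv, hB, hZ]
    exact Obs.Z_lower μ P cl ht hA hAt hstr
  have hZ0 : 0 < Z := by
    have : 0 < M * E⁻¹ * B := by positivity
    linarith
  have hres0 : ∀ y, 0 ≤ res L F y := fun y => Obs.res_nonneg cl y
  have hint : ∫ y, dis L y ^ 2 * nres μ L F y ∂μ = (∫ y, dis L y ^ 2 * res L F y ∂μ) / Z := by
    rw [← integral_div]
    refine integral_congr_ae (Filter.Eventually.of_forall fun y => ?_)
    simp only [nres, hZ]
    ring
  have hcip : ∀ a, Continuous fun y => ipr (X a) (L.rho y) ^ 2 * res L F y := by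
    intro a
    have h1 : Continuous fun y => ipr (X a) (L.rho y) := by
      unfold ipr
      exact Complex.continuous_re.comp ((continuous_const.matrix_mul L.cont).matrix_trace)
    exact (h1.pow 2).mul hrc
  have hc2 : Continuous fun y => dis L y ^ 2 * res L F y := by fun_prop
  have hc4 : Continuous fun y => dis L y ^ 4 * res L F y := by fun_prop
  -- the projection
  have hA1 : |∫ y, dis L y ^ 2 * res L F y ∂μ - ∑ a, ∫ y, ipr (X a) (L.rho y) ^ 2 * res L F y ∂μ| ≤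
      (2 + 1 / δ ^ 2) * (Cm * E) * t ^ 2 * Z := by
    rw [← integral_finsetSum _ fun a _ => intg μ (hcip a), ← integral_sub (intg μ hc2)
      (intg μ (continuous_finsetSum _ fun a _ => hcip a)), ← Real.norm_eq_abs]
    have h1 := norm_integral_le_of_norm_le (μ := μ)
      (f := fun y => dis L y ^ 2 * res L F y - ∑ a, ipr (X a) (L.rho y) ^ 2 * res L F y)
      (g := fun y => (2 + 1 / δ ^ 2) * (dis L y ^ 4 * res L F y)) (intg μ (hc4.const_mul _))
      (Filter.Eventually.of_forall fun y => by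
        rw [← Finset.sum_mul, ← sub_mul, norm_mul, Real.norm_eq_abs, Real.norm_eq_abs,
          abs_of_nonneg (hres0 y), ← mul_assoc]
        exact mul_le_mul_of_nonneg_right (Obs.proj_le P hX0 hX1 hX2 hX3 y) (hres0 y))
    refine h1.trans ?_
    rw [integral_const_mul]
    have h2 := Obs.mom_le μ P cl ht hA hAt hCm ht1 2 le_rfl
    rw [← hM, ← hB] at h2
    have h3 : M * (Cm * t ^ 2 * B) = Cm * E * t ^ 2 * (M * E⁻¹ * B) := by field_simp
    have h4 := mul_le_mul_of_nonneg_left hZlow (show 0 ≤ Cm * E * t ^ 2 by positivity)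
    have h5 : ∫ y, dis L y ^ 4 * res L F y ∂μ ≤ Cm * E * t ^ 2 * Z := by
      have h6 : (2 * 2 : ℕ) = 4 := by norm_num
      rw [h6] at h2
      linarith
    calc (2 + 1 / δ ^ 2) * ∫ y, dis L y ^ 4 * res L F y ∂μ ≤
          (2 + 1 / δ ^ 2) * (Cm * E * t ^ 2 * Z) := mul_le_mul_of_nonneg_left h5 (by positivity)
      _ = _ := by ring
  -- the covariances
  have hA2 : |∑ a, ∫ y, ipr (X a) (L.rho y) ^ 2 * res L F y ∂μ - d * t * Z| ≤
      d * (C1 * t * (Real.sqrt t + A * t) * Z) := by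
    have h1 : ∀ a, |∫ y, ipr (X a) (L.rho y) ^ 2 * res L F y ∂μ - t * Z| ≤
        C1 * t * (Real.sqrt t + A * t) * Z := by
      intro a
      have h2 := hcov F t A ht (hts.trans (min_le_left _ _)) hA hAt cl (X a) (hX0 a)
      simp only [pow_one, Nat.cast_one, div_one, hX1, one_pow, mul_one] at h2
      rw [← hZ] at h2
      exact h2
    have h2 : ∑ a, ∫ y, ipr (X a) (L.rho y) ^ 2 * res L F y ∂μ - d * t * Z =
        ∑ a, (∫ y, ipr (X a) (L.rho y) ^ 2 * res L F y ∂μ - t * Z) := by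
      rw [Finset.sum_sub_distrib, Finset.sum_const, Finset.card_univ, Fintype.card_fin,
        nsmul_eq_mul, hd]
      ring
    rw [h2]
    refine (Finset.abs_sum_le_sum_abs _ _).trans ((Finset.sum_le_sum fun a _ => h1 a).trans ?_)
    rw [Finset.sum_const, Finset.card_univ, Fintype.card_fin, nsmul_eq_mul, hd]
  rw [hint, ← hd]
  have h3 : (∫ y, dis L y ^ 2 * res L F y ∂μ) / Z - d * t =
      (∫ y, dis L y ^ 2 * res L F y ∂μ - d * t * Z) / Z := by
    field_simp
  rw [h3, abs_div, abs_of_pos hZ0, div_le_iff₀ hZ0]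
  have h4 : |∫ y, dis L y ^ 2 * res L F y ∂μ - d * t * Z| ≤
      (2 + 1 / δ ^ 2) * (Cm * E) * t ^ 2 * Z + d * (C1 * t * (Real.sqrt t + A * t) * Z) := by
    have h5 := abs_add_le
      (∫ y, dis L y ^ 2 * res L F y ∂μ - ∑ a, ∫ y, ipr (X a) (L.rho y) ^ 2 * res L F y ∂μ)
      (∑ a, ∫ y, ipr (X a) (L.rho y) ^ 2 * res L F y ∂μ - d * t * Z)
    rw [sub_add_sub_cancel] at h5
    linarith
  refine h4.trans ?_
  have h5 : t ^ 2 ≤ t * (Real.sqrt t + A * t) := by
    have : 0 ≤ A * t := by positivity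
    nlinarith
  have h6 := mul_le_mul_of_nonneg_left h5 (show 0 ≤ (2 + 1 / δ ^ 2) * (Cm * E) * Z by positivity)
  nlinarith

end

end Pool.Agent.T2H04.HY
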