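import Mathlib
import Pool.Agent.T2H04.HY.AsmA
import Pool.Agent.T2H04.HY.Low

/-!
# The string tension
-/

open MeasureTheory Matrix Filter
open scoped Matrix.Norms.Frobenius Topology

namespace Pool.Agent.T2H04.HY

set_option linter.unusedSectionVars false

noncomputable section

variable {G : Type} [Group G] [TopologicalSpace G] [IsTopologicalGroup G] [CompactSpace G]
  [MeasurableSpace G] [BorelSpace G] (μ : Measure G) [μ.IsHaarMeasure] [IsProbabilityMeasure μ]
  {m : Type} [Fintype m] [DecidableEq m] (L : RD G m)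

/-- the Wilson loop (the constant function `1` is the density at infinite coupling; its
contribution vanishes if the representation has no invariant vector) -/
def wl (f : G → ℝ) : ℝ := ∫ y, (trace (L.rho y)).re * (f y - 1) ∂μ

namespace Tens

theorem rt_cont : Continuous fun y : G => (trace (L.rho y)).re := Asm.rt_cont L

/-- mean value of the trace -/
def p0 : ℝ := ∫ y, (trace (L.rho y)).re ∂μ

theorem wl_eq {f : G → ℝ} (hf : PD μ f) :
    wl μ L f = (∫ y, (trace (L.rho y)).re * f y ∂μ) - p0 μ L := by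
  have hc := hf.cont
  have hr := rt_cont L
  unfold wl p0
  rw [← integral_sub (integrable_cont μ (by fun_prop)) (integrable_cont μ hr)]
  refine integral_congr_ae (Filter.Eventually.of_forall fun y => ?_)
  simp only []
  ring

theorem dis_sq (y : G) : dis L y ^ 2 = 2 * (Fintype.card m : ℝ) - 2 * (trace (L.rho y)).re := by
  unfold dis
  have h1 := L.unit y
  have h2 : (L.rho y)ᴴ * L.rho y = 1 := mul_eq_one_comm.1 h1
  rw [norm_sq_eq, conjTranspose_sub, conjTranspose_one]
  have h3 : ((L.rho y)ᴴ - 1) * (L.rho y - 1) = 1 + 1 - L.rho y - (L.rho y)ᴴ := by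
    have : ((L.rho y)ᴴ - 1) * (L.rho y - 1) = (L.rho y)ᴴ * L.rho y - (L.rho y)ᴴ - L.rho y + 1 := by
      noncomm_ring
    rw [this, h2]; abel
  have h4 : (trace (L.rho y)ᴴ).re = (trace (L.rho y)).re := by
    rw [trace_conjTranspose, Complex.star_def, Complex.conj_re]
  rw [h3]
  simp only [trace_sub, trace_add, Complex.sub_re, Complex.add_re, h4, trace_one,
    Complex.natCast_re]
  ring

theorem rt_one : (trace (L.rho 1)).re = (Fintype.card m : ℝ) := by
  rw [map_one, trace_one, Complex.natCast_re]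

theorem rt_le (y : G) : (trace (L.rho y)).re ≤ (Fintype.card m : ℝ) := by
  have h1 := dis_sq L y
  have h2 : 0 ≤ dis L y ^ 2 := sq_nonneg _
  linarith

theorem gap_pos (hne : ∃ X ∈ lieSet L, X ≠ 0) : 0 < (Fintype.card m : ℝ) - p0 μ L := by
  have h1 := Asm.g2_one_pos μ L hne
  unfold g2 at h1
  have h2 : ∫ y, dis L y ^ 2 * 1 ∂μ = 2 * ((Fintype.card m : ℝ) - p0 μ L) := by
    have e : ∀ y, dis L y ^ 2 * 1 = 2 * (Fintype.card m : ℝ) - 2 * (trace (L.rho y)).re := fun y => by
      rw [mul_one, dis_sq]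
    simp only [e]
    have hr := rt_cont L
    rw [integral_sub (integrable_cont μ (by fun_prop)) (integrable_cont μ (by fun_prop)),
      integral_const, probReal_univ, one_smul, integral_const_mul]
    unfold p0
    ring
  rw [h2] at h1
  linarith

theorem gap_nonneg : 0 ≤ (Fintype.card m : ℝ) - p0 μ L := by
  have h1 : p0 μ L ≤ ∫ _y : G, (Fintype.card m : ℝ) ∂μ :=
    integral_mono (integrable_cont μ (rt_cont L)) (integrable_cont μ continuous_const)
      fun y => rt_le L y
  rw [integral_const, probReal_univ, one_smul] at h1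
  linarith

/-- **the normalised trace** minus its mean is a positive definite function. -/
theorem chi_tr (hgap : 0 < (Fintype.card m : ℝ) - p0 μ L) :
    ∃ (e : ((m × m) ⊕ (m × m)) → G → ℝ), (∀ i, Continuous (e i)) ∧
      (∀ x y, ∑ i, e i x * e i y = ((trace (L.rho (x⁻¹ * y))).re - p0 μ L) /
        ((Fintype.card m : ℝ) - p0 μ L)) := by
  have hrc := L.cont
  have hri := right_inv' μ
  have hii := inv_inv' μ
  have hent : ∀ i j, Continuous fun y => L.rho y i j := fun i j => hrc.matrix_elem i j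
  have hentI : ∀ (c : ℂ) i j, Integrable (fun y => c * L.rho y i j) μ := fun c i j =>
    intg μ (by have := hent i j; fun_prop)
  obtain ⟨P, hP⟩ : ∃ P : Mt m, ∀ i j, P i j = ∫ y, L.rho y i j ∂μ :=
    ⟨Matrix.of fun i j => ∫ y, L.rho y i j ∂μ, fun i j => rfl⟩
  have hinvr : ∀ x, (L.rho x)ᴴ = L.rho x⁻¹ := fun x => (rho_inv L x).symm
  have hP1 : ∀ g, P * L.rho g = P := by
    intro g
    ext i j
    rw [mul_apply, hP i j]
    have h1 : ∀ k, P i k * L.rho g k j = ∫ y, L.rho g k j * L.rho y i k ∂μ := by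
      intro k
      rw [hP, integral_const_mul, mul_comm]
    simp only [h1]
    rw [← integral_finsetSum _ fun k _ => hentI _ _ _]
    have h2 : ∀ y, ∑ k, L.rho g k j * L.rho y i k = L.rho (y * g) i j := by
      intro y
      rw [map_mul, mul_apply]
      exact Finset.sum_congr rfl fun k _ => mul_comm _ _
    simp only [h2]
    exact integral_mul_right_eq_self (fun y => L.rho y i j) g
  have hP2 : P * P = P := by
    ext i j
    rw [mul_apply]
    have h1 : ∀ k, P i k * P k j = ∫ y, P i k * L.rho y k j ∂μ := by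
      intro k
      rw [integral_const_mul, hP k j]
    simp only [h1]
    rw [← integral_finsetSum _ fun k _ => hentI _ _ _]
    have h2 : ∀ y, ∑ k, P i k * L.rho y k j = P i j := by
      intro y
      rw [← mul_apply, hP1]
    simp only [h2]
    rw [integral_const, probReal_univ, one_smul]
  have hPH : Pᴴ = P := by
    ext i j
    rw [conjTranspose_apply, hP j i, hP i j, Complex.star_def, ← integral_conj,
      ← integral_inv_eq_self (fun y => L.rho y i j) μ]
    refine integral_congr_ae (Filter.Eventually.of_forall fun y => ?_)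
    simp only []
    rw [← hinvr, conjTranspose_apply, Complex.star_def]
  have hPt : (trace P).re = p0 μ L := by
    have e1 : (trace P).re = ∑ i, ∫ y, (L.rho y i i).re ∂μ := by
      unfold trace
      rw [Complex.re_sum]
      refine Finset.sum_congr rfl fun i _ => ?_
      rw [diag_apply, hP]
      have h3 : Integrable (fun y => L.rho y i i) μ := intg μ (hent i i)
      exact (Complex.reCLM.integral_comp_comm h3).symm
    have e2 : p0 μ L = ∫ y, ∑ i, (L.rho y i i).re ∂μ := by
      unfold p0 trace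
      simp only [Complex.re_sum, diag_apply]
    have h4 : ∀ i ∈ Finset.univ, Integrable (fun y => (L.rho y i i).re) μ := fun i _ =>
      integrable_cont μ (Complex.continuous_re.comp (hent i i))
    rw [e1, e2, integral_finsetSum _ h4]
  have htr : ∀ A B : Mt m, (trace (Aᴴ * B)).re =
      ∑ i : m × m, ((A i.1 i.2).re * (B i.1 i.2).re + (A i.1 i.2).im * (B i.1 i.2).im) := by
    intro A B
    rw [Fintype.sum_prod_type_right]
    unfold trace
    rw [Complex.re_sum]
    refine Finset.sum_congr rfl fun j _ => ?_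
    rw [diag_apply, mul_apply, Complex.re_sum]
    refine Finset.sum_congr rfl fun i _ => ?_
    rw [conjTranspose_apply, Complex.star_def, Complex.mul_re, Complex.conj_re, Complex.conj_im]
    ring
  obtain ⟨gp, hgp⟩ : ∃ gp : ℝ, gp = (Fintype.card m : ℝ) - p0 μ L := ⟨_, rfl⟩
  rw [← hgp] at hgap ⊢
  obtain ⟨c, hc⟩ : ∃ c : ℝ, c = Real.sqrt (1 / gp) := ⟨_, rfl⟩
  have hc2 : c ^ 2 = 1 / gp := by rw [hc, Real.sq_sqrt (by positivity)]
  obtain ⟨V, hV⟩ : ∃ V : Mt m, V = (c : ℂ) • (1 - P) := ⟨_, rfl⟩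
  have hVV : V * Vᴴ = ((1 / gp : ℝ) : ℂ) • (1 - P) := by
    rw [hV, conjTranspose_smul, conjTranspose_sub, conjTranspose_one, hPH, Complex.star_def,
      Complex.conj_ofReal, Matrix.smul_mul, Matrix.mul_smul, smul_smul, ← Complex.ofReal_mul,
      ← pow_two, hc2]
    congr 1
    have : (1 - P) * (1 - P) = 1 - P - P + P * P := by noncomm_ring
    rw [this, hP2]
    abel
  refine ⟨Sum.elim (fun i y => ((L.rho y * V) i.1 i.2).re) (fun i y => ((L.rho y * V) i.1 i.2).im),
    ?_, ?_⟩
  · have hc : Continuous fun y => L.rho y * V := by fun_prop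
    have hc2 : ∀ i : m × m, Continuous fun y => (L.rho y * V) i.1 i.2 := fun i =>
      (continuous_apply_apply i.1 i.2).comp hc
    rintro (i | i)
    · exact Complex.continuous_re.comp (hc2 i)
    · exact Complex.continuous_im.comp (hc2 i)
  · intro x y
    rw [Fintype.sum_sum_type]
    simp only [Sum.elim_inl, Sum.elim_inr]
    rw [← Finset.sum_add_distrib, ← htr, conjTranspose_mul, hinvr]
    have e : trace (Vᴴ * L.rho x⁻¹ * (L.rho y * V)) =
        ((1 / gp : ℝ) : ℂ) * (trace (L.rho (x⁻¹ * y)) - trace P) := by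
      calc trace (Vᴴ * L.rho x⁻¹ * (L.rho y * V)) = trace (Vᴴ * (L.rho (x⁻¹ * y) * V)) := by
            rw [map_mul]; simp only [mul_assoc]
        _ = trace ((L.rho (x⁻¹ * y) * V) * Vᴴ) := trace_mul_comm _ _
        _ = trace ((V * Vᴴ) * L.rho (x⁻¹ * y)) := by rw [mul_assoc, trace_mul_comm]
        _ = _ := by
            rw [hVV, smul_mul_assoc, trace_smul, smul_eq_mul, sub_mul, one_mul, hP1, trace_sub]
    rw [e, Complex.re_ofReal_mul, Complex.sub_re, hPt]
    ring

/-- uniform version of `fwd` -/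
theorem fwd_unif (hconn : IsConnected (Set.univ : Set G)) (κ : ℝ) : ∃ C σ : ℝ, 0 < C ∧ 0 < σ ∧
    ∀ f : G → ℝ, PC f → SC L f κ →
      ∀ n : ℕ, 1 ≤ n → ∀ x, |(mk μ)^[n] f x - 1| ≤ C * Real.exp (-(σ * 4 ^ n)) := by
  obtain ⟨c0, hc0, hosc⟩ := osc_le L hconn
  obtain ⟨C, σ, hC, hσ, hk⟩ := fw_quartic (fwK c0 κ) (max κ 0) (4 * c0 ^ 3)
    (fun n => fwK_nonneg hc0.le n) (fun n => fwK_le0 hc0.le n) (fwK_lim hc0.le)
    (fun n => fwG_le4 hc0.le (fwK_nonneg hc0.le n))
  refine ⟨c0 * Real.exp (c0 * max κ 0) * C, σ, by positivity, hσ, fun f hf hκ n hn x => ?_⟩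
  have hiter : ∀ n, PC ((mk μ)^[n] f) ∧ SC L ((mk μ)^[n] f) (fwK c0 κ n) := by
    intro n
    induction n with
    | zero => exact ⟨hf, hκ.mono L (le_max_left _ _)⟩
    | succ n ih =>
      rw [Function.iterate_succ_apply']
      exact ⟨ih.1.mkk μ L, fw_step μ L hosc hc0.le ih.1 (fwK_nonneg hc0.le n) ih.2⟩
  obtain ⟨j, rfl⟩ : ∃ j, n = j + 1 := ⟨n - 1, by omega⟩
  obtain ⟨hpc, hsc⟩ := hiter (j + 1)
  have hint : ∫ y, (mk μ)^[j + 1] f y ∂μ = 1 := by
    rw [Function.iterate_succ_apply']
    exact fw_int_mk μ L (hiter j).1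
  set F := (mk μ)^[j + 1] f with hF
  set t := c0 * fwK c0 κ (j + 1) with ht
  have ht0 : 0 ≤ t := mul_nonneg hc0.le (fwK_nonneg hc0.le _)
  have hosc' := hosc F _ hpc (fwK_nonneg hc0.le _) hsc
  have hle : ∀ y z, F y ≤ Real.exp t * F z := by
    intro y z
    have h1 := (abs_le.1 (hosc' y z)).2
    calc F y = Real.exp (Real.log (F y)) := (Real.exp_log (hpc.pos y)).symm
      _ ≤ Real.exp (t + Real.log (F z)) := Real.exp_le_exp.2 (by linarith)
      _ = _ := by rw [Real.exp_add, Real.exp_log (hpc.pos z)]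
  have hup : F x ≤ Real.exp t := by
    have h1 := integral_mono (μ := μ) (fw_int_cont μ (continuous_const (y := F x)))
      (fw_int_cont μ (hpc.cont.const_mul (Real.exp t))) (fun z => hle x z)
    simp only [integral_const_mul] at h1
    rw [integral_const, probReal_univ, one_smul, hint, mul_one] at h1
    exact h1
  have hlo : 1 ≤ Real.exp t * F x := by
    have h1 := integral_mono (μ := μ) (fw_int_cont μ hpc.cont)
      (fw_int_cont μ (continuous_const (y := Real.exp t * F x))) (fun z => hle z x)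
    rw [integral_const, probReal_univ, one_smul, hint] at h1
    exact h1
  have h6 : 1 - Real.exp (-t) ≤ t := fw_om2 t
  have h7 : Real.exp t - 1 ≤ t * Real.exp t := by
    have := mul_le_mul_of_nonneg_right h6 (Real.exp_pos t).le
    have e : Real.exp (-t) * Real.exp t = 1 := by rw [← Real.exp_add]; simp
    rw [sub_mul, e] at this
    linarith
  have h8 : 1 - F x ≤ t := by
    have : Real.exp (-t) ≤ F x := by
      have := mul_le_mul_of_nonneg_left hlo (Real.exp_pos (-t)).le
      rw [← mul_assoc, ← Real.exp_add] at this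
      simpa using this
    linarith
  have h9 : t ≤ t * Real.exp t := le_mul_of_one_le_right ht0 (Real.one_le_exp ht0)
  have h10 : |F x - 1| ≤ t * Real.exp t := by
    rw [abs_le]
    constructor <;> linarith
  refine h10.trans ?_
  have h11 : Real.exp t ≤ Real.exp (c0 * max κ 0) :=
    Real.exp_le_exp.2 (mul_le_mul_of_nonneg_left (fwK_le0 hc0.le _) hc0.le)
  have h12 : t ≤ c0 * (C * Real.exp (-(σ * 4 ^ (j + 1)))) :=
    mul_le_mul_of_nonneg_left (hk _) hc0.le
  have h13 := mul_le_mul h12 h11 (Real.exp_pos _).le (by positivity)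
  refine h13.trans (le_of_eq ?_)
  ring

end Tens

/-- One step for the Wilson loop. -/
theorem wl_step : ∃ K : ℝ, 1 ≤ K ∧ ∀ (f : G → ℝ), PD μ f → (∀ x, f x⁻¹ = f x) → ∀ B : ℝ,
    (∀ x, f x ≤ B) → 4 * wl μ L f ^ 4 ≤ K * B ^ 3 * wl μ L (mk μ f) := by
  obtain ⟨gp, hgp⟩ : ∃ gp : ℝ, gp = (Fintype.card m : ℝ) - Tens.p0 μ L := ⟨_, rfl⟩
  have hgp0 : 0 ≤ gp := by rw [hgp]; exact Tens.gap_nonneg μ L
  refine ⟨max 1 (gp ^ 3), le_max_left _ _, fun f hf hs B hB => ?_⟩
  have hmk := pd_mk μ f hf
  have hr := Tens.rt_cont L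
  rcases hgp0.eq_or_lt with h0 | h0
  · -- the trivial case
    have h1 : ∀ g : G → ℝ, PD μ g → wl μ L g ≤ 0 := by
      intro g hg
      have hc := hg.cont
      rw [Tens.wl_eq μ L hg]
      have h2 : ∫ y, (trace (L.rho y)).re * g y ∂μ ≤ ∫ y, (Fintype.card m : ℝ) * g y ∂μ :=
        integral_mono (integrable_cont μ (by fun_prop)) (integrable_cont μ (by fun_prop))
          fun y => mul_le_mul_of_nonneg_right (Tens.rt_le L y) (hg.nonneg y)
      rw [integral_const_mul, hg.int, mul_one] at h2
      linarith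
    have h2 : ∀ g : G → ℝ, PD μ g → 0 ≤ wl μ L g := by
      intro g hg
      have hc := hg.cont
      -- the trace is constant
      have h3 : ∀ y, (trace (L.rho y)).re = (Fintype.card m : ℝ) := by
        by_contra hcon
        push Not at hcon
        obtain ⟨y, hy⟩ := hcon
        have h4 : 0 < ∫ y, ((Fintype.card m : ℝ) - (trace (L.rho y)).re) ∂μ :=
          Continuous.integral_pos_of_hasCompactSupport_nonneg_nonzero (x := y)
            (by fun_prop) (HasCompactSupport.of_compactSpace _)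
            (fun z => by have := Tens.rt_le L z; simp only [Pi.zero_apply]; linarith)
            (by
              intro h5
              apply hy
              linarith)
        rw [integral_sub (integrable_cont μ continuous_const) (integrable_cont μ hr),
          integral_const, probReal_univ, one_smul] at h4
        have : (Fintype.card m : ℝ) - Tens.p0 μ L = 0 := by rw [← hgp, ← h0]
        unfold Tens.p0 at this
        linarith
      rw [Tens.wl_eq μ L hg]
      unfold Tens.p0
      simp only [h3]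
      rw [integral_const_mul, hg.int, integral_const, probReal_univ, one_smul]
      simp
    have h3 : wl μ L f = 0 := le_antisymm (h1 f hf) (h2 f hf)
    have h4 : wl μ L (mk μ f) = 0 := le_antisymm (h1 _ hmk) (h2 _ hmk)
    rw [h3, h4]
    simp
  · obtain ⟨e, he, hχ⟩ := Tens.chi_tr μ L (by rw [← hgp]; exact h0)
    rw [← hgp] at hχ
    have hw : ∀ g : G → ℝ, PD μ g → ∫ y, g y * (((trace (L.rho y)).re - Tens.p0 μ L) / gp) ∂μ =
        wl μ L g / gp := by
      intro g hg
      have hc := hg.cont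
      rw [Tens.wl_eq μ L hg]
      have e1 : ∀ y, g y * (((trace (L.rho y)).re - Tens.p0 μ L) / gp) =
          ((trace (L.rho y)).re * g y - Tens.p0 μ L * g y) / gp := fun y => by ring
      simp only [e1]
      rw [integral_div, integral_sub (integrable_cont μ (by fun_prop))
        (integrable_cont μ (by fun_prop)), integral_const_mul, hg.int, mul_one]
    have h1 := Low.step μ (χ := fun y => ((trace (L.rho y)).re - Tens.p0 μ L) / gp) he hχ
      (by
        show ((trace (L.rho 1)).re - Tens.p0 μ L) / gp = 1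
        rw [Tens.rt_one, ← hgp, div_self h0.ne'])
      (by
        rw [integral_div, integral_sub (integrable_cont μ hr) (integrable_cont μ continuous_const),
          integral_const, probReal_univ, one_smul]
        unfold Tens.p0
        simp) hf hs hB
    rw [hw f hf, hw _ hmk] at h1
    have hB1 : 1 ≤ B := by
      have h2 : ∫ y, f y ∂μ ≤ ∫ _y, B ∂μ :=
        integral_mono (integrable_cont μ hf.cont) (integrable_cont μ continuous_const) fun y => hB y
      rwa [hf.int, integral_const, probReal_univ, one_smul] at h2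
    have h2 : 4 * wl μ L f ^ 4 ≤ gp ^ 3 * (B ^ 3 * wl μ L (mk μ f)) := by
      have h3 := mul_le_mul_of_nonneg_left h1 (by positivity : 0 ≤ gp ^ 4)
      have e1 : gp ^ 4 * (4 * (wl μ L f / gp) ^ 4) = 4 * wl μ L f ^ 4 := by
        field_simp
      have e2 : gp ^ 4 * (B ^ 3 * (wl μ L (mk μ f) / gp)) = gp ^ 3 * (B ^ 3 * wl μ L (mk μ f)) := by
        field_simp
      rwa [e1, e2] at h3
    have h3 : 0 ≤ B ^ 3 * wl μ L (mk μ f) := by
      have h4 : 0 ≤ gp ^ 3 * (B ^ 3 * wl μ L (mk μ f)) := le_trans (by positivity) h2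
      exact nonneg_of_mul_nonneg_right h4 (by positivity)
    rw [mul_assoc]
    exact h2.trans (mul_le_mul_of_nonneg_right (le_max_right _ _) h3)

/-- The Wilson loop of Wilson's density is positive. -/
theorem wl_wil_pos (hne : ∃ X ∈ lieSet L, X ≠ 0) (t : ℝ) (ht : 0 < t) :
    0 < wl μ L (wil μ L t) := by
  have hgap := Tens.gap_pos μ L hne
  have hr := Tens.rt_cont L
  have hpd := Asm.wil_pd μ L t
  have hc := hpd.cont
  obtain ⟨p, hp⟩ : ∃ p, p = Tens.p0 μ L := ⟨_, rfl⟩
  rw [← hp] at hgap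
  obtain ⟨Z, hZ⟩ : ∃ Z, Z = ∫ y, Real.exp ((trace (L.rho y)).re / t) ∂μ := ⟨_, rfl⟩
  have hZ0 : 0 < Z := by rw [hZ]; exact Asm.den_pos μ L t
  have e0 : ∫ y, ((trace (L.rho y)).re - p) ∂μ = 0 := by
    rw [integral_sub (integrable_cont μ hr) (integrable_cont μ continuous_const),
      integral_const, probReal_univ, one_smul, hp]
    unfold Tens.p0
    simp
  have e1 : wl μ L (wil μ L t) = (∫ y, ((trace (L.rho y)).re - p) *
      (Real.exp ((trace (L.rho y)).re / t) - Real.exp (p / t)) ∂μ) / Z := by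
    rw [Tens.wl_eq μ L hpd, ← hp]
    have e2 : ∀ y, ((trace (L.rho y)).re - p) *
        (Real.exp ((trace (L.rho y)).re / t) - Real.exp (p / t)) =
        ((trace (L.rho y)).re - p) * Real.exp ((trace (L.rho y)).re / t) -
        ((trace (L.rho y)).re - p) * Real.exp (p / t) := fun y => by ring
    simp only [e2]
    rw [integral_sub (integrable_cont μ (by fun_prop)) (integrable_cont μ (by fun_prop)),
      integral_mul_const, e0, zero_mul, sub_zero]
    have e3 : ∀ y, ((trace (L.rho y)).re - p) * Real.exp ((trace (L.rho y)).re / t) =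
        (trace (L.rho y)).re * Real.exp ((trace (L.rho y)).re / t) -
        p * Real.exp ((trace (L.rho y)).re / t) := fun y => by ring
    simp only [e3]
    rw [integral_sub (integrable_cont μ (by fun_prop)) (integrable_cont μ (by fun_prop)),
      integral_const_mul, ← hZ, sub_div, mul_div_cancel_right₀ _ hZ0.ne', ← integral_div]
    congr 1
    refine integral_congr_ae (Filter.Eventually.of_forall fun y => ?_)
    simp only []
    unfold wil
    rw [← hZ]
    ring
  rw [e1]
  refine div_pos ?_ hZ0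
  refine Continuous.integral_pos_of_hasCompactSupport_nonneg_nonzero (x := 1)
    (by fun_prop) (HasCompactSupport.of_compactSpace _) (fun y => ?_) ?_
  · simp only [Pi.zero_apply]
    rcases le_total p (trace (L.rho y)).re with h | h
    · refine mul_nonneg (by linarith) ?_
      have : Real.exp (p / t) ≤ Real.exp ((trace (L.rho y)).re / t) :=
        Real.exp_le_exp.2 (div_le_div_of_nonneg_right h ht.le)
      linarith
    · refine mul_nonneg_of_nonpos_of_nonpos (by linarith) ?_
      have : Real.exp ((trace (L.rho y)).re / t) ≤ Real.exp (p / t) :=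
        Real.exp_le_exp.2 (div_le_div_of_nonneg_right h ht.le)
      linarith
  · simp only [Tens.rt_one]
    refine (mul_pos hgap ?_).ne'
    have : Real.exp (p / t) < Real.exp ((Fintype.card m : ℝ) / t) :=
      Real.exp_lt_exp.2 (div_lt_div_of_pos_right (by linarith) ht)
    linarith

/-- The Wilson loop is not small if the running coupling `g2` is less than a constant. -/
theorem wl_lower (hne : ∃ X ∈ lieSet L, X ≠ 0) : ∃ κ0 w0 : ℝ, 0 < κ0 ∧ 0 < w0 ∧
    ∀ f : G → ℝ, PD μ f → g2 μ L f ≤ κ0 → w0 ≤ wl μ L f := by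
  have hgap := Tens.gap_pos μ L hne
  have hr := Tens.rt_cont L
  refine ⟨(Fintype.card m : ℝ) - Tens.p0 μ L, ((Fintype.card m : ℝ) - Tens.p0 μ L) / 2, hgap,
    by positivity, fun f hf hg => ?_⟩
  have hc := hf.cont
  rw [Tens.wl_eq μ L hf]
  have e : g2 μ L f = 2 * (Fintype.card m : ℝ) - 2 * ∫ y, (trace (L.rho y)).re * f y ∂μ := by
    unfold g2
    have e1 : ∀ y, dis L y ^ 2 * f y = 2 * (Fintype.card m : ℝ) * f y -
        2 * ((trace (L.rho y)).re * f y) := fun y => by rw [Tens.dis_sq]; ring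
    simp only [e1]
    rw [integral_sub (integrable_cont μ (by fun_prop)) (integrable_cont μ (by fun_prop)),
      integral_const_mul, integral_const_mul, hf.int, mul_one]
  rw [e] at hg
  linarith

/-- The string tension exists, with bounds which depend only on the semiconvexity constant `κ`, the
upper bound `B` and the lower bound `w0` of the Wilson loop. -/
theorem tension (hconn : IsConnected (Set.univ : Set G)) (κ B w0 : ℝ) (hw0 : 0 < w0) :
    ∃ σ1 σ2 : ℝ, 0 < σ1 ∧ σ1 ≤ σ2 ∧ ∀ f : G → ℝ, PD μ f → PC f → (∀ x, f x⁻¹ = f x) →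
      SC L f κ → (∀ x, f x ≤ B) → w0 ≤ wl μ L f →
      (∀ k, 0 < wl μ L ((mk μ)^[k] f)) ∧
      ∃ σ : ℝ, σ1 ≤ σ ∧ σ ≤ σ2 ∧
        Tendsto (fun k : ℕ => -(Real.log (wl μ L ((mk μ)^[k] f))) / 4 ^ k) atTop (𝓝 σ) := by
  obtain ⟨K, hK, hstep⟩ := wl_step μ L
  obtain ⟨C, σ1, hC, hσ1, hfw⟩ := Tens.fwd_unif μ L hconn κ
  -- a bound of the trace
  obtain ⟨M0, hM0⟩ := isCompact_univ.exists_bound_of_continuousOn
    (Tens.rt_cont (G := G) L).continuousOn
  obtain ⟨M, hM⟩ : ∃ M : ℝ, M = max M0 1 := ⟨_, rfl⟩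
  have hM1 : 1 ≤ M := by rw [hM]; exact le_max_right _ _
  have hMb : ∀ y : G, |(trace (L.rho y)).re| ≤ M := fun y => by
    rw [hM]; exact (hM0 y (Set.mem_univ y)).trans (le_max_left _ _)
  obtain ⟨B', hB'⟩ : ∃ B' : ℝ, B' = max B (1 + C) := ⟨_, rfl⟩
  have hB1 : 1 ≤ B' := by rw [hB']; exact le_trans (by linarith) (le_max_right _ _)
  obtain ⟨D, hD⟩ : ∃ D : ℝ, D = Real.log (K * B' ^ 3) := ⟨_, rfl⟩
  have hKB : 1 ≤ K * B' ^ 3 := one_le_mul_of_one_le_of_one_le hK (one_le_pow₀ hB1)
  have hD0 : 0 ≤ D := by rw [hD]; exact Real.log_nonneg hKB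
  refine ⟨σ1, max σ1 (-Real.log w0 + D / 3), hσ1, le_max_left _ _, ?_⟩
  intro f hpd hpc hs hsc hB hw
  obtain ⟨w, hwd⟩ : ∃ w : ℕ → ℝ, w = fun k => wl μ L ((mk μ)^[k] f) := ⟨_, rfl⟩
  have hpdk : ∀ k, PD μ ((mk μ)^[k] f) ∧ ∀ x, (mk μ)^[k] f x⁻¹ = (mk μ)^[k] f x := by
    intro k
    induction k with
    | zero => exact ⟨hpd, hs⟩
    | succ k ih =>
      rw [Function.iterate_succ_apply']
      exact ⟨pd_mk μ _ ih.1, Low.mk_sym μ ih.2⟩
  have hBk : ∀ k x, (mk μ)^[k] f x ≤ B' := by
    intro k x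
    rcases Nat.eq_zero_or_pos k with rfl | hk
    · rw [hB']; exact (hB x).trans (le_max_left _ _)
    · have h1 := hfw f hpc hsc k hk x
      have h2 : C * Real.exp (-(σ1 * 4 ^ k)) ≤ C * 1 := by
        refine mul_le_mul_of_nonneg_left (Real.exp_le_one_iff.2 ?_) hC.le
        have : 0 < σ1 * 4 ^ k := by positivity
        linarith
      have h3 := (abs_le.1 h1).2
      rw [hB']
      refine le_trans ?_ (le_max_right _ _)
      linarith
  have hst : ∀ k, 4 * w k ^ 4 ≤ K * B' ^ 3 * w (k + 1) := by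
    intro k
    rw [hwd]
    simp only [Function.iterate_succ_apply']
    exact hstep _ (hpdk k).1 (hpdk k).2 B' (hBk k)
  have hwp : ∀ k, 0 < w k := by
    intro k
    induction k with
    | zero => rw [hwd]; exact lt_of_lt_of_le hw0 hw
    | succ k ih =>
      have h1 : 0 < K * B' ^ 3 * w (k + 1) := lt_of_lt_of_le (by positivity) (hst k)
      exact (pos_iff_pos_of_mul_pos h1).1 (by positivity)
  have hup : ∀ k, 1 ≤ k → w k ≤ M * C * Real.exp (-(σ1 * 4 ^ k)) := by
    intro k hk
    have hc := (hpdk k).1.cont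
    have hr := Tens.rt_cont L
    have h1 : w k ≤ ∫ _y, M * (C * Real.exp (-(σ1 * 4 ^ k))) ∂μ := by
      rw [hwd]
      unfold wl
      refine integral_mono (integrable_cont μ (by fun_prop)) (integrable_cont μ continuous_const)
        fun y => ?_
      have h2 := hfw f hpc hsc k hk y
      calc (trace (L.rho y)).re * ((mk μ)^[k] f y - 1)
          ≤ |(trace (L.rho y)).re * ((mk μ)^[k] f y - 1)| := le_abs_self _
        _ = |(trace (L.rho y)).re| * |(mk μ)^[k] f y - 1| := abs_mul _ _
        _ ≤ M * (C * Real.exp (-(σ1 * 4 ^ k))) :=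
            mul_le_mul (hMb y) h2 (abs_nonneg _) (by linarith)
    rw [integral_const, probReal_univ, one_smul] at h1
    linarith
  obtain ⟨a, ha⟩ : ∃ a : ℕ → ℝ, a = fun k => -(Real.log (w k)) / 4 ^ k := ⟨_, rfl⟩
  obtain ⟨b, hb⟩ : ∃ b : ℕ → ℝ, b = fun k => a k + D / (3 * 4 ^ k) := ⟨_, rfl⟩
  have hanti : Antitone b := by
    refine antitone_nat_of_succ_le fun k => ?_
    have h1 := Real.log_le_log (by have := hwp k; positivity) (hst k)
    rw [Real.log_mul (by norm_num) (by have := hwp k; positivity), Real.log_pow,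
      Real.log_mul (by positivity) (hwp (k + 1)).ne', ← hD] at h1
    have h2 : 0 < Real.log 4 := Real.log_pos (by norm_num)
    have h3 : -(Real.log (w (k + 1))) ≤ 4 * -(Real.log (w k)) + D := by
      push_cast at h1
      linarith
    rw [hb, ha]
    simp only []
    have h4 : (0 : ℝ) < 4 ^ k := by positivity
    rw [pow_succ]
    have e1 : -(Real.log (w (k + 1))) / (4 ^ k * 4) + D / (3 * (4 ^ k * 4)) =
        (-(Real.log (w (k + 1))) * 3 + D) / (12 * 4 ^ k) := by
      field_simp
      ring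
    have e2 : -(Real.log (w k)) / 4 ^ k + D / (3 * 4 ^ k) =
        (-(Real.log (w k)) * 12 + 4 * D) / (12 * 4 ^ k) := by
      field_simp
      ring
    rw [e1, e2]
    exact div_le_div_of_nonneg_right (by linarith) (by positivity)
  have hlim4 : Tendsto (fun k : ℕ => (1 : ℝ) / 4 ^ k) atTop (𝓝 0) := by
    have := tendsto_pow_atTop_nhds_zero_of_lt_one (by norm_num : (0 : ℝ) ≤ 1 / 4)
      (by norm_num : (1 / 4 : ℝ) < 1)
    refine this.congr fun k => ?_
    rw [_root_.one_div_pow]
  obtain ⟨E, hE⟩ : ∃ E : ℝ, E = Real.log (M * C) := ⟨_, rfl⟩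
  have halo : ∀ k, 1 ≤ k → σ1 - E * (1 / 4 ^ k) ≤ a k := by
    intro k hk
    have h1 := Real.log_le_log (hwp k) (hup k hk)
    rw [Real.log_mul (by positivity) (Real.exp_pos _).ne', Real.log_exp, ← hE] at h1
    rw [ha]
    simp only []
    have h4 : (0 : ℝ) < 4 ^ k := by positivity
    have e1 : σ1 - E * (1 / 4 ^ k) = (σ1 * 4 ^ k - E) / 4 ^ k := by field_simp
    rw [e1]
    exact div_le_div_of_nonneg_right (by linarith) h4.le
  have hbl : ∀ k, 1 ≤ k → σ1 - |E| ≤ b k := by
    intro k hk
    have h1 := halo k hk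
    have h2 : E * (1 / 4 ^ k) ≤ |E| * 1 := by
      refine mul_le_mul (le_abs_self _) ?_ (by positivity) (abs_nonneg _)
      rw [div_le_one (by positivity)]
      exact one_le_pow₀ (by norm_num)
    have h3 : 0 ≤ D / (3 * 4 ^ k) := by positivity
    rw [hb]
    simp only []
    linarith
  have hbdd : BddBelow (Set.range b) := by
    refine ⟨min (b 0) (σ1 - |E|), ?_⟩
    rintro _ ⟨k, rfl⟩
    rcases Nat.eq_zero_or_pos k with rfl | hk
    · exact min_le_left _ _
    · exact (min_le_right _ _).trans (hbl k hk)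
  have htb : Tendsto b atTop (𝓝 (⨅ k, b k)) := tendsto_atTop_ciInf hanti hbdd
  obtain ⟨σ, hσ⟩ : ∃ σ, σ = ⨅ k, b k := ⟨_, rfl⟩
  rw [← hσ] at htb
  have hta : Tendsto a atTop (𝓝 σ) := by
    have h1 : Tendsto (fun k : ℕ => D / 3 * ((1 : ℝ) / 4 ^ k)) atTop (𝓝 0) := by
      rw [← mul_zero (D / 3)]
      exact hlim4.const_mul _
    have h2 := htb.sub h1
    rw [sub_zero] at h2
    refine h2.congr fun k => ?_
    rw [hb]
    simp only []
    have h4 : (0 : ℝ) < 4 ^ k := by positivity
    field_simp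
    ring
  refine ⟨fun k => ?_, σ, ?_, ?_, ?_⟩
  · have := hwp k
    rw [hwd] at this
    exact this
  · have h1 : Tendsto (fun k : ℕ => σ1 - E * ((1 : ℝ) / 4 ^ k)) atTop (𝓝 σ1) := by
      have := (hlim4.const_mul E).const_sub σ1
      rwa [mul_zero, sub_zero] at this
    exact le_of_tendsto_of_tendsto h1 hta (by
      filter_upwards [eventually_ge_atTop 1] with k hk
      exact halo k hk)
  · refine le_trans ?_ (le_max_right _ _)
    have h1 : σ ≤ b 0 := by rw [hσ]; exact ciInf_le hbdd 0
    refine h1.trans ?_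
    rw [hb, ha]
    simp only [pow_zero, mul_one, div_one]
    have h2 : Real.log w0 ≤ Real.log (w 0) := by
      refine Real.log_le_log hw0 ?_
      rw [hwd]
      exact hw
    linarith
  · have := hta
    rw [ha, hwd] at this
    exact this

end

end Pool.Agent.T2H04.HY
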