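import Mathlib
import Pool.Agent.T2H04.HY.Blk
import Pool.Agent.T2H04.HY.KSum
import Pool.Agent.T2H04.HY.Obs
import Pool.Agent.T2H04.HY.Tens

/-!
# The densities in the notation of the main theorem
-/

open MeasureTheory Matrix Filter
open scoped Matrix.Norms.Frobenius Topology

namespace Pool.Agent.T2H04.HY

set_option linter.unusedSectionVars false

noncomputable section

variable {G : Type} [Group G] [TopologicalSpace G] [IsTopologicalGroup G] [CompactSpace G]
  [MeasurableSpace G] [BorelSpace G] (μ : Measure G) [μ.IsHaarMeasure] [IsProbabilityMeasure μ]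
  {N : ℕ} (R : URep G N)

/-- the normalised Boltzmann factor of the action `V` -/
def bw (V : G → ℝ) (β : ℝ) (x : G) : ℝ :=
  Real.exp (-(β * V x)) / ∫ y, Real.exp (-(β * V y)) ∂μ

/-- the renormalised coupling -/
def gsq (n : ℕ) (f : G → ℝ) : ℝ := 2 / n * ∫ x, wa R x * f x ∂μ

/-- the truncated Wilson loop -/
def wlp (f : G → ℝ) : ℝ := (∫ x, (trace (R.rho x)).re * f x ∂μ) - ∫ x, (trace (R.rho x)).re ∂μ

theorem wa_eq (x : G) : wa R x = N - (trace (R.rho x)).re := by
  unfold wa
  simp [trace_sub, trace_one]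

theorem wa_norm (x : G) : wa R x = ‖R.rho x - 1‖ ^ 2 / 2 := by
  have hu := Blk.mt_unit R x
  have hu' : (R.rho x)ᴴ * R.rho x = 1 := mul_eq_one_comm.1 hu
  rw [wa_eq, norm_sq_eq, conjTranspose_sub, conjTranspose_one]
  have h1 : ((R.rho x)ᴴ - 1) * (R.rho x - 1) = 1 + 1 - R.rho x - (R.rho x)ᴴ := by
    have : ((R.rho x)ᴴ - 1) * (R.rho x - 1) = (R.rho x)ᴴ * R.rho x - (R.rho x)ᴴ - R.rho x + 1 := by noncomm_ring
    rw [this, hu']; abel
  have h2 : (trace (R.rho x)ᴴ).re = (trace (R.rho x)).re := by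
    rw [trace_conjTranspose, Complex.star_def, Complex.conj_re]
  rw [h1]
  simp only [trace_sub, trace_add, Complex.sub_re, Complex.add_re, h2, trace_one,
    Complex.natCast_re, Fintype.card_fin]
  ring

theorem tr_cont : Continuous fun x : G => (trace (R.rho x)).re :=
  Complex.continuous_re.comp (R.cont.matrix_trace)

theorem wa_cont : Continuous (wa R) := by
  have h : (wa R) = fun x => N - (trace (R.rho x)).re := funext (wa_eq R)
  rw [h]
  exact continuous_const.sub (tr_cont R)

theorem dis_blk (x : G) : dis (blk R) x ^ 2 = 4 * wa R x := by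
  rw [blk_dis, wa_norm]; ring

theorem g2_blk {n : ℕ} (hn : 0 < n) (f : G → ℝ) : g2 μ (blk R) f = 2 * n * gsq μ R n f := by
  have hn' : (n : ℝ) ≠ 0 := by positivity
  unfold g2 gsq
  simp only [dis_blk, mul_assoc]
  rw [integral_const_mul]
  field_simp
  ring

theorem g2_ks {n : ℕ} (hn : 0 < n) (k : ℕ) [NeZero k] (f : G → ℝ) :
    g2 μ (ksum (blk R) k) f = 2 * n * k * gsq μ R n f := by
  have h : g2 μ (ksum (blk R) k) f = k * g2 μ (blk R) f := by
    unfold g2
    simp only [ks_dis, mul_assoc]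
    rw [integral_const_mul]
  rw [h, g2_blk μ R hn]
  ring

theorem bw_shift (V : G → ℝ) (β c : ℝ) (x : G) :
    Real.exp (-(β * V x) + c) / ∫ y, Real.exp (-(β * V y) + c) ∂μ = bw μ V β x := by
  unfold bw
  simp only [Real.exp_add]
  rw [integral_mul_const, mul_div_mul_right _ _ (Real.exp_ne_zero c)]

theorem wil_ks (k : ℕ) [NeZero k] (t : ℝ) :
    wil μ (ksum (blk R) k) t = bw μ (wa R) (2 * k / t) := by
  funext x
  have e : ∀ y : G, (trace ((ksum (blk R) k).rho y)).re / t =
      -(2 * k / t * wa R y) + 2 * k / t * N := by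
    intro y
    rw [ks_trace, ← Complex.ofReal_natCast, Complex.re_ofReal_mul, blk_trace, wa_eq]
    ring
  unfold wil
  simp only [e]
  exact bw_shift μ _ _ _ _

theorem wil_blk (t : ℝ) : wil μ (blk R) t = bw μ (wa R) (2 / t) := by
  funext x
  have e : ∀ y : G, (trace ((blk R).rho y)).re / t = -(2 / t * wa R y) + 2 / t * N := by
    intro y
    rw [blk_trace, wa_eq]
    ring
  unfold wil
  simp only [e]
  exact bw_shift μ _ _ _ _

theorem nres_ks {V : G → ℝ} {V' : Mt (Fin N ⊕ Fin N) → ℂ} (hr : ∀ g, (V' ((blk R).rho g)).im = 0)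
    (hV : ∀ g : G, (V' ((blk R).rho g)).re = 2 * V g) (k : ℕ) [NeZero k] (t : ℝ) :
    nres μ (ksum (blk R) k) (At (kAct k V') t) = bw μ V (2 * k / t) := by
  have e : ∀ y : G, res (ksum (blk R) k) (At (kAct k V') t) y = Real.exp (-(2 * k / t * V y)) := by
    intro y
    unfold res At
    rw [kAct_rho]
    have h1 : V' ((blk R).rho y) = ((2 * V y : ℝ) : ℂ) := by
      apply Complex.ext
      · rw [hV, Complex.ofReal_re]
      · rw [hr, Complex.ofReal_im]
    rw [h1]
    have h2 : -(((k : ℕ) : ℂ) * ((2 * V y : ℝ) : ℂ) / (t : ℂ)) = ((-(2 * k / t * V y) : ℝ) : ℂ) := by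
      push_cast
      ring
    rw [h2, ← Complex.ofReal_exp, Complex.ofReal_re]
  funext x
  unfold nres bw
  simp only [e]

theorem wl_blk {f : G → ℝ} (hf : PD μ f) : wl μ (blk R) f = 2 * wlp μ R f := by
  have hc := hf.cont
  have hr := tr_cont R
  rw [Tens.wl_eq μ _ hf]
  unfold wlp Tens.p0
  simp only [blk_trace, mul_assoc]
  rw [integral_const_mul, integral_const_mul]
  ring

end

end Pool.Agent.T2H04.HY
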