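import Mathlib
import Pool.Agent.T2H04.HY.ActDefs
import Pool.Agent.T2H04.HY.Blk
import Pool.Agent.T2H04.HY.Bnd
import Pool.Agent.T2H04.HY.Ccv
import Pool.Agent.T2H04.HY.Cx

/-!
# Polynomial actions on a matrix group
-/

open MeasureTheory Matrix Filter
open scoped Matrix.Norms.Frobenius Topology

namespace Pool.Agent.T2H04.HY

set_option linter.unusedSectionVars false

noncomputable section

variable {N : ℕ}

namespace Pol

/-- the coordinates used by the polynomials -/
def crd (x : Mt (Fin N ⊕ Fin N)) : (Fin N × Fin N) ⊕ (Fin N × Fin N) → ℂ :=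
  Sum.elim (fun ij => x (Sum.inl ij.1) (Sum.inl ij.2)) (fun ij => x (Sum.inr ij.1) (Sum.inr ij.2))

theorem crd_diff (k : (Fin N × Fin N) ⊕ (Fin N × Fin N)) :
    ContDiff ℂ 1 (fun x : Mt (Fin N ⊕ Fin N) => crd x k) := by
  have key : ∀ i j : Fin N ⊕ Fin N, ContDiff ℂ 1 (fun x : Mt (Fin N ⊕ Fin N) => x i j) := by
    intro i j
    let l : Mt (Fin N ⊕ Fin N) →ₗ[ℂ] ℂ :=
      { toFun := fun x => x i j
        map_add' := fun x y => rfl
        map_smul' := fun c x => rfl }
    exact (LinearMap.toContinuousLinearMap l).contDiff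
  rcases k with k | k
  · exact key _ _
  · exact key _ _

theorem eval_diff (p : MvPolynomial ((Fin N × Fin N) ⊕ (Fin N × Fin N)) ℂ) :
    ContDiff ℂ 1 (fun x : Mt (Fin N ⊕ Fin N) => MvPolynomial.eval (crd x) p) := by
  induction p using MvPolynomial.induction_on with
  | C a =>
    simp only [MvPolynomial.eval_C]
    exact contDiff_const
  | add p q hp hq =>
    simp only [map_add]
    exact hp.add hq
  | mul_X p k hp =>
    simp only [map_mul, MvPolynomial.eval_X]
    exact hp.mul (crd_diff k)

section quad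

variable {G : Type} [Group G] [TopologicalSpace G] [CompactSpace G]
  {m : Type} [Fintype m] [DecidableEq m] (L : RD G m)

/-- The Hessian condition need only be checked on the Lie algebra. -/
theorem hess_ext {V : Mt m → ℂ} (hd : ContDiff ℂ 1 V) (hinv : ∀ x, V (L.sig x) = V x)
    (hone : V 1 = 0)
    (hreal : ∀ X ∈ lieSet L, Tendsto (fun s : ℝ => V (NormedSpace.exp ((s : ℂ) • X)) / (s : ℂ) ^ 2)
      (𝓝[≠] 0) (𝓝 (Qf X / 2))) (Z : gC L) :
    Tendsto (fun s : ℝ => V (NormedSpace.exp ((s : ℂ) • (Z : Mt m))) / (s : ℂ) ^ 2)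
      (𝓝[≠] 0) (𝓝 (Qf (Z : Mt m) / 2)) := by
  have hfd : Differentiable ℂ (fun Z : gC L => V (NormedSpace.exp (Z : Mt m))) := by
    have h1 : Differentiable ℂ (fun Z : gC L => (Z : Mt m)) :=
      (gC L).subtypeL.differentiable
    exact (hd.differentiable one_ne_zero).comp (exp_diff.comp h1)
  have : ProperSpace (gC L) := FiniteDimensional.proper ℂ _
  obtain ⟨M, hM⟩ := (isCompact_closedBall (0 : gC L) 1).exists_bound_of_continuousOn
    hfd.continuous.continuousOn
  obtain ⟨q, hsym, -, -, hlim⟩ := schwarz4 (f := fun Z : gC L => V (NormedSpace.exp (Z : Mt m)))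
    (R := 1) (M := M) one_pos hfd.differentiableOn
    (fun z hz => hM z (Metric.ball_subset_closedBall hz))
    (by simp [hone]) (by
      intro z _
      have := sig_exp L z.2
      rw [Submodule.coe_neg, ← this, hinv])
  have hq : ∀ X : gC L, (X : Mt m) ∈ lieSet L → q X X = Qf (X : Mt m) / 2 := by
    intro X hX
    exact tendsto_nhds_unique (hlim X) (hreal _ hX)
  obtain ⟨X, hX, H, hH, hZ⟩ := (mem_gC L).1 Z.2
  set X' : gC L := ⟨X, gC_of_lie L hX⟩ with hX'
  set H' : gC L := ⟨H, gC_of_lie L hH⟩ with hH'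
  have hZ' : Z = X' + Complex.I • H' := Subtype.ext hZ
  have e1 := hq X' hX
  have e2 := hq H' hH
  have e3 := hq (X' + H') (lie_add L hX hH)
  have e4 : q Z Z = Qf (Z : Mt m) / 2 := by
    have h1 : q (X' + H') (X' + H') = q X' X' + 2 * q X' H' + q H' H' := by
      simp only [map_add, LinearMap.add_apply, hsym H' X']
      ring
    have h2 : q Z Z = q X' X' + 2 * Complex.I * q X' H' - q H' H' := by
      rw [hZ']
      simp only [map_add, LinearMap.add_apply, map_smul, LinearMap.smul_apply, smul_eq_mul,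
        hsym H' X']
      linear_combination (q H' H') * Complex.I_mul_I
    have h3 : Qf ((X' + H' : gC L) : Mt m) = Qf X + Qf H - 2 * trace (X * H) := by
      unfold Qf
      simp only [hX', hH', Submodule.coe_add, add_mul, mul_add, trace_add, trace_mul_comm H X]
      ring
    have h4 : Qf (Z : Mt m) = Qf X - Qf H - 2 * Complex.I * trace (X * H) := by
      unfold Qf
      rw [hZ]
      simp only [add_mul, mul_add, trace_add, trace_mul_comm H X, Matrix.smul_mul, Matrix.mul_smul,
        trace_smul, smul_eq_mul]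
      linear_combination (-trace (H * H)) * Complex.I_mul_I
    have e1' : q X' X' = Qf X / 2 := e1
    have e2' : q H' H' = Qf H / 2 := e2
    rw [h3, h1] at e3
    rw [h2, h4, e1', e2']
    rw [e1', e2'] at e3
    linear_combination Complex.I * e3
  rw [← e4]
  exact hlim Z

end quad

end Pol

open Pol

/-- Extension of a polynomial action to an entire function on the matrices of the representation
`g ⊕ conj g`. -/
theorem pol_act {G : Type} [Group G] [TopologicalSpace G] [IsTopologicalGroup G] [CompactSpace G]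
    [MeasurableSpace G] [BorelSpace G] (R : URep G N)
    (μ : Measure G) [μ.IsHaarMeasure] [IsProbabilityMeasure μ] (V : G → ℝ) (hV : PolAct R V) :
    ∃ V' : Mt (Fin N ⊕ Fin N) → ℂ, Act (blk R) V' ∧ ∀ g : G, (V' ((blk R).rho g)).re = 2 * V g := by
  obtain ⟨p, hp⟩ := hV.poly
  set L := blk R with hL
  set P : Mt (Fin N ⊕ Fin N) → ℂ := fun x => MvPolynomial.eval (crd x) p with hPdef
  have hPd : ContDiff ℂ 1 P := eval_diff p
  have hP : ∀ g : G, P (L.rho g) = (V g : ℂ) := by
    intro g
    rw [hp g, hPdef, hL]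
    simp only
    congr 2
  set V1 : Mt (Fin N ⊕ Fin N) → ℂ := fun x => ∫ g, P (L.rho g * x * L.rho g⁻¹) ∂μ with hV1
  have hV1d : ContDiff ℂ 1 V1 := by
    have := int_contDiff μ hPd (a := fun y => L.rho y) (b := fun y => L.rho y⁻¹)
      (c := fun _ => 1) L.cont (rhoinv_cont L) continuous_const
    simpa using this
  have hV1c : ∀ g x, V1 (L.rho g * x * L.rho g⁻¹) = V1 x := by
    intro g x
    rw [hV1]
    simp only
    rw [← int_shift_right μ (fun y => P (L.rho y * x * L.rho y⁻¹)) g]
    refine integral_congr_ae (Filter.Eventually.of_forall fun y => ?_)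
    simp only
    congr 1
    rw [_root_.mul_inv_rev, map_mul, map_mul]
    noncomm_ring
  have hV1r : ∀ g, V1 (L.rho g) = (V g : ℂ) := by
    intro g
    rw [hV1]
    simp only
    have : ∀ y : G, P (L.rho y * L.rho g * L.rho y⁻¹) = (V g : ℂ) := by
      intro y
      rw [← map_mul, ← map_mul, hP, hV.cls]
    simp only [this]
    simp
  have hsig2 : ∀ x, L.sig (L.sig x) = x := by
    intro x
    change Blk.J N * (Blk.J N * xᵀ * Blk.J N)ᵀ * Blk.J N = x
    have hJt : (Blk.J N)ᵀ = Blk.J N := by
      unfold Blk.J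
      rw [fromBlocks_transpose]
      simp
    rw [transpose_mul, transpose_mul, hJt, transpose_transpose]
    calc Blk.J N * (Blk.J N * (x * Blk.J N)) * Blk.J N
        = (Blk.J N * Blk.J N) * x * (Blk.J N * Blk.J N) := by noncomm_ring
      _ = x := by rw [Blk.J_mul, one_mul, mul_one]
  set V2 : Mt (Fin N ⊕ Fin N) → ℂ := fun x => V1 x + V1 (L.sig x) with hV2
  have hV2d : ContDiff ℂ 1 V2 := hV1d.add (hV1d.comp (sigC L).contDiff)
  have hV2r : ∀ g, V2 (L.rho g) = ((2 * V g : ℝ) : ℂ) := by
    intro g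
    rw [hV2]
    simp only
    rw [L.sig_rho, hV1r, hV1r, hV.inv]
    push_cast
    ring
  have hinv : ∀ x, V2 (L.sig x) = V2 x := by
    intro x
    rw [hV2]
    simp only
    rw [hsig2, add_comm]
  have hone : V2 1 = 0 := by
    have := hV2r 1
    rw [map_one, hV.one] at this
    rw [this]
    simp
  refine ⟨V2, ⟨hV2d, ?_, hinv, ?_, hone, ?_, ?_⟩, ?_⟩
  · intro g x
    rw [hV2]
    simp only
    rw [hV1c, L.sig_mul, L.sig_mul, L.sig_rho, L.sig_rho, inv_inv, ← mul_assoc, hV1c]
  · intro g
    rw [hV2r, Complex.ofReal_im]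
  · intro g hg
    rw [hV2r, Complex.ofReal_re]
    have := hV.pos g hg
    linarith
  · refine hess_ext L hV2d hinv hone ?_
    intro X hX
    obtain ⟨Y, hY, hXY⟩ := (blk_lie R X).1 hX
    obtain ⟨γ, hγ⟩ := Classical.axiom_of_choice hY
    have h1 := hV.hess Y hY γ hγ
    have h2 : ∀ s : ℝ, NormedSpace.exp ((s : ℂ) • X) = L.rho (γ s) := by
      intro s
      rw [hL, blk_rho', hγ, Blk.PhiR_exp, Blk.PhiR_smul, Complex.coe_smul, hXY]
      rfl
    have h3 : Qf X / 2 = ((2 * (‖Y‖ ^ 2 / 2) : ℝ) : ℂ) := by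
      have h4 : ‖X‖ ^ 2 = 2 * ‖Y‖ ^ 2 := by
        rw [hXY]
        exact Blk.PhiR_norm Y
      have h5 : Qf X = ((‖X‖ ^ 2 : ℝ) : ℂ) := by
        have h6 := lie_skew L hX
        apply Complex.ext
        · rw [Complex.ofReal_re, norm_sq_eq, h6]
          unfold Qf
          rw [neg_mul, trace_neg]
        · rw [Complex.ofReal_im]
          unfold Qf
          have h7 : trace (X * X) = star (trace (X * X)) := by
            rw [← trace_conjTranspose, conjTranspose_mul, h6, neg_mul_neg]
          have h8 := congrArg Complex.im h7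
          rw [Complex.star_def, Complex.conj_im] at h8
          rw [Complex.neg_im]
          linarith
      rw [h5, h4]
      push_cast
      ring
    rw [h3]
    have h4 := (h1.const_mul 2).ofReal
    refine h4.congr fun s => ?_
    rw [h2, hV2r]
    push_cast
    ring
  · intro g
    rw [hV2r, Complex.ofReal_re]

/-- Wilson's action is a polynomial action. -/
theorem wilson_polAct {G : Type} [Group G] [TopologicalSpace G] (R : URep G N) :
    PolAct R (fun x => (trace (1 - R.rho x)).re) := by
  have hnorm : ∀ g : G, (trace (1 - R.rho g)).re = ‖R.rho g - 1‖ ^ 2 / 2 := by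
    intro g
    have hu := Blk.mt_unit R g
    have hu' : (R.rho g)ᴴ * R.rho g = 1 := mul_eq_one_comm.1 hu
    rw [norm_sq_eq, conjTranspose_sub, conjTranspose_one]
    have h1 : ((R.rho g)ᴴ - 1) * (R.rho g - 1) = 1 + 1 - R.rho g - (R.rho g)ᴴ := by
      have : ((R.rho g)ᴴ - 1) * (R.rho g - 1) = (R.rho g)ᴴ * R.rho g - (R.rho g)ᴴ - R.rho g + 1 := by noncomm_ring
      rw [this, hu']; abel
    rw [h1]
    simp only [trace_sub, trace_add, Complex.sub_re, Complex.add_re, re_trace_star]
    ring
  refine ⟨?_, ?_, ?_, ?_, ?_, ?_⟩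
  · refine ⟨MvPolynomial.C (N : ℂ) - MvPolynomial.C (1 / 2 : ℂ) *
      (∑ i : Fin N, (MvPolynomial.X (Sum.inl (i, i)) + MvPolynomial.X (Sum.inr (i, i)))), ?_⟩
    intro g
    simp only [map_sub, map_mul, map_sum, map_add, MvPolynomial.eval_C, MvPolynomial.eval_X,
      Sum.elim_inl, Sum.elim_inr]
    have h1 : ∀ z : ℂ, z + star z = ((2 * z.re : ℝ) : ℂ) := fun z => by
      rw [Complex.star_def, Complex.add_conj]
    simp only [h1]
    rw [trace_sub, Complex.sub_re, trace_one, Fintype.card_fin, Complex.natCast_re, trace,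
      Complex.re_sum]
    push_cast
    rw [← Finset.mul_sum]
    simp only [diag_apply]
    ring
  · intro x y
    rw [Blk.mt_mul, Blk.mt_mul, Blk.mt_inv, trace_sub, trace_sub, mul_assoc, trace_mul_comm (R.rho y),
      mul_assoc, mul_eq_one_comm.1 (Blk.mt_unit R y), mul_one]
  · intro x
    rw [Blk.mt_inv, trace_sub, trace_sub, Complex.sub_re, Complex.sub_re, re_trace_star]
  · rw [Blk.mt_one, sub_self, trace_zero, Complex.zero_re]
  · intro x hx
    rw [hnorm]
    have : R.rho x - 1 ≠ 0 := by
      intro h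
      apply hx
      apply R.inj
      rw [Blk.mt_one]
      exact sub_eq_zero.1 h
    have := norm_pos_iff.2 this
    positivity
  · intro X hX γ hγ
    have h1 := (hasDerivAt_exp X 0).tendsto_slope_zero
    simp only [zero_add, zero_smul, NormedSpace.exp_zero, one_mul] at h1
    have h2 := (h1.norm.pow 2).div_const 2
    refine h2.congr fun s => ?_
    rw [hnorm, hγ, norm_smul, mul_pow, norm_inv, Real.norm_eq_abs, inv_pow, sq_abs]
    ring

end

end Pool.Agent.T2H04.HY
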