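import Mathlib
import Pool.Agent.T2H04.HY.AsmA

/-!
# Assembly B: chains of couplings and the selection of the bare coupling
-/

open MeasureTheory Matrix Filter
open scoped Matrix.Norms.Frobenius Topology

namespace Pool.Agent.T2H04.HY

set_option linter.unusedSectionVars false

noncomputable section

variable {G : Type} [Group G] [TopologicalSpace G] [IsTopologicalGroup G] [CompactSpace G]
  [MeasurableSpace G] [BorelSpace G] (μ : Measure G) [μ.IsHaarMeasure] [IsProbabilityMeasure μ]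
  {m : Type} [Fintype m] [DecidableEq m] (L : RD G m)

namespace Asm

/-- the bound for the change of `1 / t` in one step -/
def Cd (ts C a0 : ℝ) : ℝ := a0 + C * (Real.sqrt (2 * ts) + 1 / 10)

/-- a chain of couplings and errors along the iteration -/
structure Chain (Good : (G → ℝ) → ℝ → ℝ → Prop) (ts C a0 t : ℝ) (n : ℕ) (τ α : ℕ → ℝ) : Prop where
  zero : τ 0 = t
  zero' : α 0 = 1 / (20 * t)
  good : ∀ i ≤ n, Good (Fi μ L i t) (τ i) (α i)
  step : ∀ i < n, |1 / τ (i + 1) - 1 / τ i + a0| ≤ C * (Real.sqrt (τ i) + α i * τ i)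
  err : ∀ i < n, α (i + 1) ≤ α i / 16 + C
  small : ∀ i ≤ n, τ i ≤ 2 * ts

/-- smallness of the renormalised coupling -/
structure SmK (ts C c a0 κ : ℝ) : Prop where
  pos : 0 < κ
  le : κ ≤ c * ts
  inv : 1 / (2 * ts) ≤ c / κ - Cd ts C a0

variable {μ L} {Good : (G → ℝ) → ℝ → ℝ → Prop} {ts C ρs c a0 d0 : ℝ} {p : ℕ}

theorem exists_chain (uv : UV μ L Good ts C ρs c a0 d0 p) {κ : ℝ} (hκ : SmK ts C c a0 κ) {t : ℝ}
    (ht : 0 < t) (hts : t ≤ ts) (n : ℕ) (h : ∀ i < n, g2 μ L (Fi μ L i t) ≤ κ) :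
    ∃ τ α, Chain μ L Good ts C a0 t n τ α := by
  have hts0 := uv.ts_pos
  have hC0 := uv.C_pos
  have hc0 := uv.c_pos
  induction n with
  | zero =>
    refine ⟨fun _ => t, fun _ => 1 / (20 * t), rfl, rfl, ?_, ?_, ?_, ?_⟩
    · intro i hi
      obtain rfl : i = 0 := Nat.le_zero.1 hi
      exact uv.init t ht hts
    · intro i hi; exact absurd hi (Nat.not_lt_zero i)
    · intro i hi; exact absurd hi (Nat.not_lt_zero i)
    · intro i _; linarith
  | succ n ih =>
    obtain ⟨τ, α, ch⟩ := ih fun i hi => h i (Nat.lt_succ_of_lt hi)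
    have hg := ch.good n le_rfl
    have hp := uv.pos _ _ _ hg
    have h1 := uv.g2_lo _ _ _ hg (ch.small n le_rfl)
    have h2 := h n (Nat.lt_succ_self n)
    have h3 : c * τ n ≤ κ := h1.trans h2
    have h4 : τ n ≤ ts := by
      have := hκ.le
      nlinarith
    obtain ⟨t', A', hg', hs, he⟩ := uv.step _ _ _ hg h4
    have hp' := uv.pos _ _ _ hg'
    have hκ0 := hκ.pos
    have h5 : c / κ ≤ 1 / τ n := by
      rw [div_le_div_iff₀ hκ0 hp.1]
      linarith
    have h6 : 1 / (2 * ts) ≤ 1 / t' := by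
      have e1 := (abs_le.1 hs).1
      have e2 : Real.sqrt (τ n) ≤ Real.sqrt (2 * ts) := Real.sqrt_le_sqrt (by linarith)
      have e3 : C * (Real.sqrt (τ n) + α n * τ n) ≤ C * (Real.sqrt (2 * ts) + 1 / 10) :=
        mul_le_mul_of_nonneg_left (add_le_add e2 hp.2.2) hC0.le
      have e4 := hκ.inv
      unfold Cd at e4
      linarith
    have h7 : t' ≤ 2 * ts := (one_div_le_one_div (by positivity) hp'.1).1 h6
    refine ⟨Function.update τ (n + 1) t', Function.update α (n + 1) A', ?_, ?_, ?_, ?_, ?_, ?_⟩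
    · rw [Function.update_of_ne (Nat.succ_ne_zero n).symm]; exact ch.zero
    · rw [Function.update_of_ne (Nat.succ_ne_zero n).symm]; exact ch.zero'
    · intro i hi
      rcases Nat.lt_or_ge n i with hlt | hge
      · obtain rfl : i = n + 1 := by omega
        rw [Function.update_self, Function.update_self, Fi_succ]
        exact hg'
      · rw [Function.update_of_ne (by omega), Function.update_of_ne (by omega)]
        exact ch.good i hge
    · intro i hi
      rcases Nat.lt_or_ge i n with hlt | hge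
      · rw [Function.update_of_ne (by omega), Function.update_of_ne (by omega),
          Function.update_of_ne (by omega)]
        exact ch.step i hlt
      · obtain rfl : i = n := by omega
        rw [Function.update_self, Function.update_of_ne (by omega),
          Function.update_of_ne (by omega)]
        exact hs
    · intro i hi
      rcases Nat.lt_or_ge i n with hlt | hge
      · rw [Function.update_of_ne (by omega), Function.update_of_ne (by omega)]
        exact ch.err i hlt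
      · obtain rfl : i = n := by omega
        rw [Function.update_self, Function.update_of_ne (by omega)]
        exact he
    · intro i hi
      rcases Nat.lt_or_ge n i with hlt | hge
      · obtain rfl : i = n + 1 := by omega
        rw [Function.update_self]
        exact h7
      · rw [Function.update_of_ne (by omega)]
        exact ch.small i hge

theorem Chain.pos (uv : UV μ L Good ts C ρs c a0 d0 p) {t : ℝ} {n : ℕ} {τ α : ℕ → ℝ}
    (ch : Chain μ L Good ts C a0 t n τ α) {i : ℕ} (hi : i ≤ n) :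
    0 < τ i ∧ 0 ≤ α i ∧ α i * τ i ≤ 1 / 10 := uv.pos _ _ _ (ch.good i hi)

theorem Chain.abs_le (uv : UV μ L Good ts C ρs c a0 d0 p) {t : ℝ} {n : ℕ} {τ α : ℕ → ℝ}
    (ch : Chain μ L Good ts C a0 t n τ α) {i : ℕ} (hi : i < n) :
    |1 / τ (i + 1) - 1 / τ i| ≤ Cd ts C a0 := by
  have h1 := ch.step i hi
  have hp := ch.pos uv hi.le
  have e2 : Real.sqrt (τ i) ≤ Real.sqrt (2 * ts) := Real.sqrt_le_sqrt (ch.small i hi.le)
  have e3 : C * (Real.sqrt (τ i) + α i * τ i) ≤ C * (Real.sqrt (2 * ts) + 1 / 10) :=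
    mul_le_mul_of_nonneg_left (add_le_add e2 hp.2.2) uv.C_pos.le
  have e5 : 1 / τ (i + 1) - 1 / τ i = (1 / τ (i + 1) - 1 / τ i + a0) - a0 := by ring
  rw [e5]
  refine (abs_sub _ _).trans ?_
  rw [abs_of_pos uv.a0_pos]
  unfold Cd
  linarith

theorem Cd_pos (uv : UV μ L Good ts C ρs c a0 d0 p) : 0 < Cd ts C a0 := by
  have := uv.a0_pos
  have := uv.C_pos
  unfold Cd
  positivity

theorem Chain.back (uv : UV μ L Good ts C ρs c a0 d0 p) {t : ℝ} {n : ℕ} {τ α : ℕ → ℝ}
    (ch : Chain μ L Good ts C a0 t n τ α) (k : ℕ) (hk : k ≤ n) :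
    1 / τ (n - k) ≤ 1 / τ n + Cd ts C a0 * k := by
  induction k with
  | zero => simp
  | succ k ih =>
    have h1 := ih (by omega)
    have h2 := ch.abs_le uv (i := n - (k + 1)) (by omega)
    rw [show n - (k + 1) + 1 = n - k by omega] at h2
    have h3 := (_root_.abs_le.1 h2).1
    push_cast
    linarith

theorem Chain.fwd (uv : UV μ L Good ts C ρs c a0 d0 p) {t : ℝ} {n : ℕ} {τ α : ℕ → ℝ}
    (ch : Chain μ L Good ts C a0 t n τ α) : 1 / t ≤ 1 / τ n + Cd ts C a0 * n := by
  have := ch.back uv n le_rfl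
  rwa [Nat.sub_self, ch.zero] at this

theorem Chain.err_le (uv : UV μ L Good ts C ρs c a0 d0 p) {t : ℝ} {n : ℕ} {τ α : ℕ → ℝ}
    (ch : Chain μ L Good ts C a0 t n τ α) (i : ℕ) (hi : i ≤ n) :
    α i ≤ 1 / (20 * t) / 16 ^ i + 2 * C := by
  have hC := uv.C_pos
  induction i with
  | zero => rw [ch.zero']; simp; linarith
  | succ i ih =>
    have h1 := ih (by omega)
    have h2 := ch.err i (by omega)
    rw [pow_succ, ← div_div]
    linarith

theorem tiny (uv : UV μ L Good ts C ρs c a0 d0 p) {κ : ℝ} (hκ : SmK ts C c a0 κ) (n : ℕ) :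
    ∃ δ > 0, ∀ t, 0 < t → t < δ → t ≤ ts → ∀ i ≤ n, g2 μ L (Fi μ L i t) < κ := by
  have hC := uv.C_pos
  have hκ0 := hκ.pos
  have hCd := Cd_pos uv
  refine ⟨1 / (Cd ts C a0 * n + C / κ), by positivity, fun t ht htδ hts i => ?_⟩
  have h0 : Cd ts C a0 * n + C / κ < 1 / t := by
    rwa [lt_div_iff₀ (by positivity), mul_comm, ← lt_div_iff₀ ht] at htδ
  induction i using Nat.strong_induction_on with
  | _ i ih =>
    intro hi
    obtain ⟨τ, α, ch⟩ := exists_chain uv hκ ht hts i fun i' hi' => (ih i' hi' (by omega)).le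
    have h1 := ch.fwd uv
    have h2 : Cd ts C a0 * i ≤ Cd ts C a0 * n :=
      mul_le_mul_of_nonneg_left (by exact_mod_cast hi) hCd.le
    have h3 : C / κ < 1 / τ i := by linarith
    have hp := ch.pos uv (le_refl i)
    have h4 := uv.g2_hi _ _ _ (ch.good i le_rfl) (ch.small i le_rfl)
    rw [div_lt_div_iff₀ hκ0 hp.1] at h3
    linarith

theorem select (uv : UV μ L Good ts C ρs c a0 d0 p) (hconn : IsConnected (Set.univ : Set G)) {κ : ℝ}
    (hκ : SmK ts C c a0 κ) (hκ1 : κ < g2 μ L fun _ => 1) :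
    ∀ᶠ n in atTop, ∃ t, 0 < t ∧ t ≤ ts ∧ (∀ i ≤ n, g2 μ L (Fi μ L i t) ≤ κ) ∧
      ∃ i ≤ n, g2 μ L (Fi μ L i t) = κ := by
  have hts0 := uv.ts_pos
  filter_upwards [(g2_to_one μ L hconn ts hts0).eventually (lt_mem_nhds hκ1)] with n hn
  obtain ⟨δ, hδ, h⟩ := tiny uv hκ n
  set a : ℝ := min (δ / 2) ts with ha
  have ha0 : 0 < a := lt_min (by positivity) hts0
  have haδ : a < δ := (min_le_left _ _).trans_lt (by linarith)
  have hats : a ≤ ts := min_le_right _ _
  set H : ℝ → ℝ := fun t => (Finset.range (n + 1)).sup' ⟨0, by simp⟩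
    (fun i => g2 μ L (Fi μ L i t)) with hH
  have hHc : ContinuousOn H (Set.Icc a ts) := by
    refine ContinuousOn.finset_sup'_apply _ fun i _ => ?_
    exact (g2_contOn μ L i).mono fun x hx => lt_of_lt_of_le ha0 hx.1
  have h1 : H a ≤ κ := Finset.sup'_le _ _ fun i hi =>
    (h a ha0 haδ hats i (Nat.lt_succ_iff.1 (Finset.mem_range.1 hi))).le
  have h2 : κ ≤ H ts := hn.le.trans (Finset.le_sup' (fun i => g2 μ L (Fi μ L i ts))
    (Finset.mem_range.2 (Nat.lt_succ_self n)))
  obtain ⟨t, ht, hHt⟩ := intermediate_value_Icc hats hHc ⟨h1, h2⟩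
  refine ⟨t, lt_of_lt_of_le ha0 ht.1, ht.2, fun i hi => ?_, ?_⟩
  · rw [← hHt]
    exact Finset.le_sup' (fun i => g2 μ L (Fi μ L i t)) (Finset.mem_range.2 (Nat.lt_succ_of_le hi))
  · obtain ⟨i, hi, hi2⟩ := Finset.exists_mem_eq_sup' (s := Finset.range (n + 1)) ⟨0, by simp⟩
      (fun i => g2 μ L (Fi μ L i t))
    exact ⟨i, Nat.lt_succ_iff.1 (Finset.mem_range.1 hi), hi2.symm.trans hHt⟩

theorem T_to_zero (hconn : IsConnected (Set.univ : Set G)) {κ : ℝ} (hκ1 : κ < g2 μ L fun _ => 1)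
    {T : ℕ → ℝ} (hT : ∀ n, 0 < T n ∧ T n ≤ ts) {M : ℕ → ℕ} (hM : Tendsto M atTop atTop)
    (hT2 : ∀ n, ∀ i ≤ M n, g2 μ L (Fi μ L i (T n)) ≤ κ) :
    Tendsto T atTop (𝓝 0) := by
  have key : ∀ ε > 0, ∀ᶠ n in atTop, T n < ε := by
    intro ε hε
    by_contra hcon
    have h1 : ∃ᶠ n in atTop, ε ≤ T n := by
      intro h2
      apply hcon
      filter_upwards [h2] with n hn
      exact not_le.1 hn
    obtain ⟨φ, hφ, h2⟩ := extraction_of_frequently_atTop h1
    obtain ⟨a, ha, ψ, hψ, h3⟩ := isCompact_Icc.tendsto_subseq (x := fun n => T (φ n))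
      (s := Set.Icc ε ts) fun n => ⟨h2 n, (hT _).2⟩
    have ha0 : 0 < a := lt_of_lt_of_le hε ha.1
    have h4 : ∀ i, g2 μ L (Fi μ L i a) ≤ κ := by
      intro i
      have h5 := g2_tendsto μ L (fun j => (Fi_pd μ L i (T (φ (ψ j)))).cont)
        (Fi_pd μ L i a).cont (Fi_tendsto μ L i ha0 h3)
      refine le_of_tendsto h5 ?_
      have h6 : Tendsto (fun j => M (φ (ψ j))) atTop atTop :=
        hM.comp (hφ.tendsto_atTop.comp hψ.tendsto_atTop)
      filter_upwards [h6.eventually_ge_atTop i] with j hj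
      exact hT2 _ i hj
    have h7 := (g2_to_one μ L hconn a ha0).eventually (lt_mem_nhds hκ1)
    obtain ⟨n, hn⟩ := h7.exists
    exact absurd (h4 n) (not_le.2 hn)
  rw [Metric.tendsto_nhds]
  intro ε hε
  filter_upwards [key ε hε] with n hn
  rw [Real.dist_eq, sub_zero, abs_of_pos (hT n).1]
  exact hn

/-- the sequences of bare couplings and scales -/
theorem exists_seq (uv : UV μ L Good ts C ρs c a0 d0 p) (hconn : IsConnected (Set.univ : Set G))
    {κ : ℝ} (hκ : SmK ts C c a0 κ) (hκ1 : κ < g2 μ L fun _ => 1) :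
    ∃ (t : ℕ → ℝ) (N : ℕ → ℕ), (∀ j, 0 < t j ∧ t j ≤ ts) ∧ Tendsto t atTop (𝓝 0) ∧
      Tendsto N atTop atTop ∧ (∀ j, ∀ i ≤ N j, g2 μ L (Fi μ L i (t j)) ≤ κ) ∧
      ∀ j, g2 μ L (Fi μ L (N j) (t j)) = κ := by
  obtain ⟨n0, hn0⟩ := eventually_atTop.1 (select uv hconn hκ hκ1)
  choose T hT using fun j : ℕ => hn0 (n0 + j) (Nat.le_add_right _ _)
  have hT1 : ∀ j, 0 < T j ∧ T j ≤ ts := fun j => ⟨(hT j).1, (hT j).2.1⟩
  choose I hI using fun j => (hT j).2.2.2
  have hM : Tendsto (fun j : ℕ => n0 + j) atTop atTop := tendsto_atTop_mono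
    (fun j => Nat.le_add_left j n0) tendsto_id
  have hT0 : Tendsto T atTop (𝓝 0) := T_to_zero hconn hκ1 hT1 hM fun j i hi => (hT j).2.2.1 i hi
  have hCd := Cd_pos uv
  have hC := uv.C_pos
  have hκ0 := hκ.pos
  refine ⟨T, I, hT1, hT0, ?_, fun j i hi => (hT j).2.2.1 i (hi.trans (hI j).1),
    fun j => (hI j).2⟩
  have h1 : ∀ j, (1 / T j - C / κ) / Cd ts C a0 ≤ I j := by
    intro j
    obtain ⟨τ, α, ch⟩ := exists_chain uv hκ (hT1 j).1 (hT1 j).2 (I j) fun i hi =>
      (hT j).2.2.1 i (hi.le.trans (hI j).1)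
    have h2 := ch.fwd uv
    have hp := ch.pos uv (le_refl (I j))
    have h4 := uv.g2_hi _ _ _ (ch.good (I j) le_rfl) (ch.small (I j) le_rfl)
    rw [(hI j).2] at h4
    have h5 : 1 / τ (I j) ≤ C / κ := by
      rw [div_le_div_iff₀ hp.1 hκ0]
      linarith
    rw [div_le_iff₀ hCd]
    linarith
  have h2 : Tendsto (fun j => (1 / T j - C / κ) / Cd ts C a0) atTop atTop := by
    have h3 : Tendsto (fun j => (T j)⁻¹) atTop atTop := by
      refine Filter.Tendsto.inv_tendsto_nhdsGT_zero ?_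
      rw [tendsto_nhdsWithin_iff]
      exact ⟨hT0, Eventually.of_forall fun j => (hT1 j).1⟩
    refine Tendsto.atTop_div_const hCd ?_
    simp only [one_div]
    exact tendsto_atTop_add_const_right _ _ h3
  exact tendsto_natCast_atTop_iff.1 (tendsto_atTop_mono h1 h2)

end Asm

end

end Pool.Agent.T2H04.HY
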