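import Mathlib
import Pool.Agent.T2H04.HY.AsmB

/-!
# Assembly C: uniform estimates along the chains, asymptotic freedom
-/

open MeasureTheory Matrix Filter
open scoped Matrix.Norms.Frobenius Topology

namespace Pool.Agent.T2H04.HY

set_option linter.unusedSectionVars false

noncomputable section

variable {G : Type} [Group G] [TopologicalSpace G] [IsTopologicalGroup G] [CompactSpace G]
  [MeasurableSpace G] [BorelSpace G] {μ : Measure G} [μ.IsHaarMeasure] [IsProbabilityMeasure μ]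
  {m : Type} [Fintype m] [DecidableEq m] {L : RD G m}

namespace Asm

variable {Good : (G → ℝ) → ℝ → ℝ → Prop} {ts C ρs c a0 d0 : ℝ} {p : ℕ}

/-- the bound for `1 / τ` at `k` steps before the end -/
def Sk (ts C a0 κ : ℝ) (k : ℕ) : ℝ := C / κ + Cd ts C a0 * k

/-- a chain which ends at the coupling `κ` -/
structure End (μ : Measure G) (L : RD G m) (Good : (G → ℝ) → ℝ → ℝ → Prop) (ts C a0 κ t : ℝ)
    (n : ℕ) (τ α : ℕ → ℝ) : Prop where
  chain : Chain μ L Good ts C a0 t n τ α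
  le : ∀ i ≤ n, g2 μ L (Fi μ L i t) ≤ κ
  eq : g2 μ L (Fi μ L n t) = κ

theorem exists_end (uv : UV μ L Good ts C ρs c a0 d0 p) {κ : ℝ} (hκ : SmK ts C c a0 κ) {t : ℝ}
    (ht : 0 < t) (hts : t ≤ ts) {n : ℕ} (h : ∀ i ≤ n, g2 μ L (Fi μ L i t) ≤ κ)
    (he : g2 μ L (Fi μ L n t) = κ) : ∃ τ α, End μ L Good ts C a0 κ t n τ α := by
  obtain ⟨τ, α, ch⟩ := exists_chain uv hκ ht hts n fun i hi => h i hi.le
  exact ⟨τ, α, ch, h, he⟩

variable {κ t : ℝ} {n : ℕ} {τ α : ℕ → ℝ}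

theorem End.last (uv : UV μ L Good ts C ρs c a0 d0 p) (hκ : SmK ts C c a0 κ)
    (e : End μ L Good ts C a0 κ t n τ α) : 1 / τ n ≤ C / κ := by
  have hp := e.chain.pos uv (le_refl n)
  have h4 := uv.g2_hi _ _ _ (e.chain.good n le_rfl) (e.chain.small n le_rfl)
  rw [e.eq] at h4
  rw [div_le_div_iff₀ hp.1 hκ.pos]
  linarith

theorem End.small (uv : UV μ L Good ts C ρs c a0 d0 p)
    (e : End μ L Good ts C a0 κ t n τ α) {i : ℕ} (hi : i ≤ n) : τ i ≤ κ / c := by
  have h4 := uv.g2_lo _ _ _ (e.chain.good i hi) (e.chain.small i hi)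
  rw [le_div_iff₀ uv.c_pos]
  have := e.le i hi
  linarith

theorem End.back (uv : UV μ L Good ts C ρs c a0 d0 p) (hκ : SmK ts C c a0 κ)
    (e : End μ L Good ts C a0 κ t n τ α) {k : ℕ} (hk : k ≤ n) :
    1 / τ (n - k) ≤ Sk ts C a0 κ k := by
  have h1 := e.chain.back uv k hk
  have h2 := e.last uv hκ
  unfold Sk
  linarith

theorem End.data (uv : UV μ L Good ts C ρs c a0 d0 p) (hκ : SmK ts C c a0 κ)
    (e : End μ L Good ts C a0 κ t n τ α) {k : ℕ} (hk : k ≤ n) :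
    (∀ x, |Fi μ L (n - k) t x| ≤ C * Sk ts C a0 κ k ^ p) ∧
    (∀ x y : G, |Fi μ L (n - k) t x - Fi μ L (n - k) t y| ≤
      C * Sk ts C a0 κ k ^ p * ‖L.rho x - L.rho y‖) ∧
    (∀ y, dis L y < ρs → Real.exp (-(Sk ts C a0 κ k)) ≤ Fi μ L (n - k) t y) ∧
    ∀ x, Fi μ L (n - k) t x⁻¹ = Fi μ L (n - k) t x := by
  have hp := (e.chain.pos uv (i := n - k) (Nat.sub_le _ _)).1
  have hg := e.chain.good (n - k) (Nat.sub_le _ _)
  have hs := e.chain.small (n - k) (Nat.sub_le _ _)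
  have hb := e.back uv hκ hk
  have hC := uv.C_pos
  have h1 : C / τ (n - k) ^ p ≤ C * Sk ts C a0 κ k ^ p := by
    have : C / τ (n - k) ^ p = C * (1 / τ (n - k)) ^ p := by rw [one_div, inv_pow, div_eq_mul_inv]
    rw [this]
    exact mul_le_mul_of_nonneg_left (pow_le_pow_left₀ (by positivity) hb p) hC.le
  refine ⟨fun x => ((uv.bound _ _ _ hg hs).1 x).trans h1, fun x y => ?_, fun y hy => ?_,
    uv.inv _ _ _ hg⟩
  · exact ((uv.bound _ _ _ hg hs).2 x y).trans (mul_le_mul_of_nonneg_right h1 (norm_nonneg _))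
  · exact (Real.exp_le_exp.2 (neg_le_neg hb)).trans (uv.near _ _ _ hg hs y hy)

/-! ### asymptotic freedom -/

/-- the error terms -/
def bb (C A a0 : ℝ) (l : ℕ) : ℝ :=
  C * (Real.sqrt (2 / (a0 * (l + 1))) + A * (2 / (a0 * (l + 1))))

theorem af_real {a0 C A ρ S0 : ℝ} (ha0 : 0 < a0) (hC : 0 ≤ C) (hA : 0 ≤ A) (σ : ℕ → ℝ) (K : ℕ)
    (hpos : ∀ k ≤ K, 0 < σ k) (hρ : ∀ k ≤ K, 1 / σ k ≤ ρ)
    (hsmall : C * (Real.sqrt ρ + A * ρ) ≤ a0 / 2)
    (hstep : ∀ k < K, |σ (k + 1) - σ k - a0| ≤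
      C * (Real.sqrt (1 / σ (k + 1)) + A * (1 / σ (k + 1)))) (h0 : σ 0 ≤ S0) :
    ∀ k ≤ K, k * (a0 / 2) ≤ σ k ∧ |σ k - k * a0| ≤ S0 + ∑ l ∈ Finset.range k, bb C A a0 l := by
  intro k
  induction k with
  | zero =>
    intro hk
    have h1 := hpos 0 hk
    refine ⟨by simpa using h1.le, ?_⟩
    simp only [Nat.cast_zero, zero_mul, sub_zero, Finset.range_zero, Finset.sum_empty, add_zero]
    rwa [abs_of_pos h1]
  | succ k ih =>
    intro hk
    obtain ⟨h1, h2⟩ := ih (by omega)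
    have h3 := hstep k (by omega)
    have hp := hpos (k + 1) hk
    have h4 : C * (Real.sqrt (1 / σ (k + 1)) + A * (1 / σ (k + 1))) ≤ a0 / 2 := by
      refine le_trans (mul_le_mul_of_nonneg_left (add_le_add (Real.sqrt_le_sqrt (hρ _ hk))
        (mul_le_mul_of_nonneg_left (hρ _ hk) hA)) hC) hsmall
    have h5 : ((k + 1 : ℕ) : ℝ) * (a0 / 2) ≤ σ (k + 1) := by
      have := (abs_le.1 (h3.trans h4)).1
      push_cast
      linarith
    refine ⟨h5, ?_⟩
    have hk0 : (0 : ℝ) < ((k + 1 : ℕ) : ℝ) := by positivity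
    have h6 : 1 / σ (k + 1) ≤ 2 / (a0 * (k + 1)) := by
      rw [div_le_div_iff₀ hp (by positivity)]
      push_cast at h5
      linarith
    have h7 : C * (Real.sqrt (1 / σ (k + 1)) + A * (1 / σ (k + 1))) ≤ bb C A a0 k := by
      unfold bb
      exact mul_le_mul_of_nonneg_left (add_le_add (Real.sqrt_le_sqrt h6)
        (mul_le_mul_of_nonneg_left h6 hA)) hC
    rw [Finset.sum_range_succ]
    have h8 : σ (k + 1) - ((k + 1 : ℕ) : ℝ) * a0 = (σ k - k * a0) + (σ (k + 1) - σ k - a0) := by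
      push_cast; ring
    rw [h8]
    refine (abs_add_le _ _).trans ?_
    linarith

/-- the final error -/
def ee (C A a0 d0 S0 : ℝ) (k : ℕ) : ℝ :=
  C * (2 / a0) * (Real.sqrt (2 / (a0 * k)) + A * (2 / (a0 * k))) +
    d0 * (2 / a0 ^ 2) * (S0 * (k : ℝ)⁻¹ + (k : ℝ)⁻¹ * ∑ l ∈ Finset.range k, bb C A a0 l)

theorem ee_tendsto (C A a0 d0 S0 : ℝ) (ha0 : 0 < a0) :
    Tendsto (ee C A a0 d0 S0) atTop (𝓝 0) := by
  have h1 : Tendsto (fun k : ℕ => 2 / (a0 * (k : ℝ))) atTop (𝓝 0) :=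
    tendsto_const_nhds.div_atTop (tendsto_natCast_atTop_atTop.const_mul_atTop ha0)
  have h1' : Tendsto (fun k : ℕ => Real.sqrt (2 / (a0 * (k : ℝ)))) atTop (𝓝 0) := by
    have := (Real.continuous_sqrt.tendsto 0).comp h1
    rwa [Real.sqrt_zero] at this
  have h2 : Tendsto (bb C A a0) atTop (𝓝 0) := by
    have e1 : Tendsto (fun k : ℕ => 2 / (a0 * ((k : ℝ) + 1))) atTop (𝓝 0) := by
      refine tendsto_const_nhds.div_atTop (Tendsto.const_mul_atTop ha0 ?_)
      exact tendsto_atTop_add_const_right _ _ tendsto_natCast_atTop_atTop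
    have e2 : Tendsto (fun k : ℕ => Real.sqrt (2 / (a0 * ((k : ℝ) + 1)))) atTop (𝓝 0) := by
      have := (Real.continuous_sqrt.tendsto 0).comp e1
      rwa [Real.sqrt_zero] at this
    have e3 := (e2.add (e1.const_mul A)).const_mul C
    rw [mul_zero, add_zero, mul_zero] at e3
    exact e3
  have h3 := h2.cesaro
  have h4 : Tendsto (fun k : ℕ => S0 * ((k : ℝ)⁻¹)) atTop (𝓝 (S0 * 0)) :=
    (tendsto_inv_atTop_zero.comp tendsto_natCast_atTop_atTop).const_mul S0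
  have h5 := ((h1'.add (h1.const_mul A)).const_mul (C * (2 / a0))).add
    ((h4.add h3).const_mul (d0 * (2 / a0 ^ 2)))
  simp only [mul_zero, add_zero] at h5
  exact h5

theorem End.af (uv : UV μ L Good ts C ρs c a0 d0 p) (hκ : SmK ts C c a0 κ) {A : ℝ} (hA : 0 ≤ A)
    (hsm : C * (Real.sqrt (κ / c) + A * (κ / c)) ≤ a0 / 2)
    (e : End μ L Good ts C a0 κ t n τ α) {k : ℕ} (hk1 : 1 ≤ k) (hk : k ≤ n)
    (hα : ∀ i, n - k ≤ i → i ≤ n → α i ≤ A) :
    |k * g2 μ L (Fi μ L (n - k) t) - d0 / a0| ≤ ee C A a0 d0 (C / κ) k := by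
  have hC := uv.C_pos
  have ha0 := uv.a0_pos
  have hd0 := uv.d0_pos
  set σ : ℕ → ℝ := fun l => 1 / τ (n - l) with hσ
  have hτ : ∀ l, 0 < τ (n - l) := fun l => (e.chain.pos uv (i := n - l) (Nat.sub_le _ _)).1
  have hinv : ∀ l, 1 / σ l = τ (n - l) := fun l => by simp only [hσ, one_div_one_div]
  have hkey := af_real (S0 := C / κ) (ρ := κ / c) ha0 hC.le hA σ k (fun l _ => one_div_pos.2 (hτ l))
    (fun l _ => by rw [hinv]; exact e.small uv (Nat.sub_le _ _)) hsm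
    (fun l hl => by
      rw [hinv]
      have h1 := e.chain.step (n - (l + 1)) (by omega)
      rw [show n - (l + 1) + 1 = n - l by omega] at h1
      have h2 : σ (l + 1) - σ l - a0 = -(1 / τ (n - l) - 1 / τ (n - (l + 1)) + a0) := by
        simp only [hσ]; ring
      rw [h2, abs_neg]
      refine h1.trans (mul_le_mul_of_nonneg_left (add_le_add le_rfl
        (mul_le_mul_of_nonneg_right (hα _ (by omega) (by omega)) (hτ _).le)) hC.le))
    (by simp only [hσ, Nat.sub_zero]; exact e.last uv hκ)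
  obtain ⟨h1, h2⟩ := hkey k le_rfl
  have hk0 : (0 : ℝ) < k := by exact_mod_cast hk1
  have hσk : 0 < σ k := one_div_pos.2 (hτ k)
  set g := g2 μ L (Fi μ L (n - k) t) with hg
  set T := τ (n - k) with hT
  have hT0 : 0 < T := hτ k
  have hTσ : T = 1 / σ k := (hinv k).symm
  have h3 : T ≤ 2 / (a0 * k) := by
    rw [hTσ, div_le_div_iff₀ hσk (by positivity)]
    linarith
  have h4 : k * T ≤ 2 / a0 := by
    calc k * T ≤ k * (2 / (a0 * k)) := mul_le_mul_of_nonneg_left h3 hk0.le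
      _ = 2 / a0 := by field_simp
  have h5 := uv.g2_as _ _ _ (e.chain.good (n - k) (Nat.sub_le _ _))
    (e.chain.small (n - k) (Nat.sub_le _ _))
  have h6 : |g - d0 * T| ≤ C * T * (Real.sqrt (2 / (a0 * k)) + A * (2 / (a0 * k))) := by
    refine h5.trans (mul_le_mul_of_nonneg_left (add_le_add (Real.sqrt_le_sqrt h3)
      (mul_le_mul (hα _ le_rfl (Nat.sub_le _ _)) h3 hT0.le hA)) (by positivity))
  have h7 : |k * g - d0 * (k * T)| ≤
      C * (2 / a0) * (Real.sqrt (2 / (a0 * k)) + A * (2 / (a0 * k))) := by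
    have e1 : k * g - d0 * (k * T) = k * (g - d0 * T) := by ring
    rw [e1, abs_mul, abs_of_pos hk0]
    have hB : 0 ≤ Real.sqrt (2 / (a0 * k)) + A * (2 / (a0 * k)) := by positivity
    calc (k : ℝ) * |g - d0 * T| ≤ k * (C * T * (Real.sqrt (2 / (a0 * k)) + A * (2 / (a0 * k)))) :=
          mul_le_mul_of_nonneg_left h6 hk0.le
      _ = C * (k * T) * (Real.sqrt (2 / (a0 * k)) + A * (2 / (a0 * k))) := by ring
      _ ≤ C * (2 / a0) * (Real.sqrt (2 / (a0 * k)) + A * (2 / (a0 * k))) :=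
          mul_le_mul_of_nonneg_right (mul_le_mul_of_nonneg_left h4 hC.le) hB
  have h8 : |d0 * (k * T) - d0 / a0| ≤ d0 * (2 / a0 ^ 2) *
      (C / κ * (k : ℝ)⁻¹ + (k : ℝ)⁻¹ * ∑ l ∈ Finset.range k, bb C A a0 l) := by
    have e1 : d0 * (k * T) - d0 / a0 = -(d0 * ((σ k - k * a0) / (σ k * a0))) := by
      rw [hTσ]
      field_simp
      ring
    rw [e1, abs_neg, abs_mul, abs_of_pos hd0, abs_div, abs_of_pos (mul_pos hσk ha0)]
    have e2 : d0 * (2 / a0 ^ 2) *
        (C / κ * (k : ℝ)⁻¹ + (k : ℝ)⁻¹ * ∑ l ∈ Finset.range k, bb C A a0 l) =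
        d0 * ((C / κ + ∑ l ∈ Finset.range k, bb C A a0 l) / (k * (a0 / 2) * a0)) := by
      field_simp
    rw [e2]
    refine mul_le_mul_of_nonneg_left ?_ hd0.le
    exact div_le_div₀ ((abs_nonneg _).trans h2) h2 (by positivity)
      (mul_le_mul_of_nonneg_right h1 ha0.le)
  have h9 : k * g - d0 / a0 = (k * g - d0 * (k * T)) + (d0 * (k * T) - d0 / a0) := by ring
  rw [h9]
  refine (abs_add_le _ _).trans ?_
  unfold ee
  exact add_le_add h7 h8

/-- the errors are bounded near the end of the chain -/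
theorem err_ev (uv : UV μ L Good ts C ρs c a0 d0 p) (hκ : SmK ts C c a0 κ) {t : ℕ → ℝ}
    {N : ℕ → ℕ} (hN : Tendsto N atTop atTop) {τ α : ℕ → ℕ → ℝ}
    (he : ∀ j, End μ L Good ts C a0 κ (t j) (N j) (τ j) (α j)) (k : ℕ) :
    ∀ᶠ j in atTop, k ≤ N j ∧ ∀ i, N j - k ≤ i → i ≤ N j → α j i ≤ 2 * C + 1 := by
  have h1 : Tendsto (fun n : ℕ => (C / κ + Cd ts C a0 * n) / (16 : ℝ) ^ n) atTop (𝓝 0) := by
    have e1 := tendsto_pow_const_div_const_pow_of_one_lt 1 (by norm_num : (1 : ℝ) < 16)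
    have e0 := tendsto_pow_const_div_const_pow_of_one_lt 0 (by norm_num : (1 : ℝ) < 16)
    have e2 := (e0.const_mul (C / κ)).add (e1.const_mul (Cd ts C a0))
    rw [mul_zero, mul_zero, add_zero] at e2
    refine e2.congr fun n => ?_
    rw [pow_zero, pow_one]
    ring
  have h2 := (h1.comp hN).eventually (gt_mem_nhds (show (0 : ℝ) < 1 / 16 ^ k by positivity))
  filter_upwards [h2, hN.eventually_ge_atTop k] with j hj hkN
  refine ⟨hkN, fun i hi1 hi2 => ?_⟩
  have h3 := (he j).chain.err_le uv i hi2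
  have h4 := (he j).chain.fwd uv
  have h5 := (he j).last uv hκ
  simp only [Function.comp_apply] at hj
  have hT : 0 < t j := by
    rw [← (he j).chain.zero]
    exact ((he j).chain.pos uv (Nat.zero_le _)).1
  have h6 : 1 / (20 * t j) / 16 ^ i ≤ 1 := by
    rw [div_le_one (by positivity)]
    rw [div_lt_div_iff₀ (by positivity) (by positivity)] at hj
    have h7 : (16 : ℝ) ^ N j ≤ 16 ^ i * 16 ^ k := by
      rw [← pow_add]
      exact pow_le_pow_right₀ (by norm_num) (by omega)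
    have h8 : 1 / (20 * t j) ≤ 1 / t j := one_div_le_one_div_of_le hT (by linarith)
    have h9 : (0 : ℝ) < 16 ^ k := by positivity
    have h10 : (C / κ + Cd ts C a0 * (N j : ℝ)) * 16 ^ k < 16 ^ i * 16 ^ k := by linarith
    have h11 := lt_of_mul_lt_mul_right h10 h9.le
    linarith
  linarith

end Asm

end

end Pool.Agent.T2H04.HY
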