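import Mathlib
import Pool.Agent.T2H04.HY.AsmC

/-!
# Assembly E: the number of steps
-/

open MeasureTheory Matrix Filter
open scoped Matrix.Norms.Frobenius Topology

namespace Pool.Agent.T2H04.HY

set_option linter.unusedSectionVars false

noncomputable section

variable {G : Type} [Group G] [TopologicalSpace G] [IsTopologicalGroup G] [CompactSpace G]
  [MeasurableSpace G] [BorelSpace G] {μ : Measure G} [μ.IsHaarMeasure] [IsProbabilityMeasure μ]
  {m : Type} [Fintype m] [DecidableEq m] {L : RD G m}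

namespace Asm

variable {Good : (G → ℝ) → ℝ → ℝ → Prop} {ts C ρs c a0 d0 : ℝ} {p : ℕ}

theorem Chain.two (uv : UV μ L Good ts C ρs c a0 d0 p) {t : ℝ} {n : ℕ} {τ α : ℕ → ℝ}
    (ch : Chain μ L Good ts C a0 t n τ α) (i : ℕ) (hi : i ≤ n) :
    |1 / τ i - 1 / t| ≤ Cd ts C a0 * i := by
  induction i with
  | zero => rw [ch.zero]; simp
  | succ i ih =>
    have h1 := ih (by omega)
    have h2 := ch.abs_le uv (i := i) (by omega)
    have e : 1 / τ (i + 1) - 1 / t = (1 / τ (i + 1) - 1 / τ i) + (1 / τ i - 1 / t) := by ring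
    rw [e]
    refine (abs_add_le _ _).trans ?_
    push_cast
    linarith

theorem bb_nonneg {C A a0 : ℝ} (hC : 0 ≤ C) (hA : 0 ≤ A) (ha0 : 0 < a0) (l : ℕ) :
    0 ≤ bb C A a0 l := by
  unfold bb
  positivity

theorem bb_sum_tendsto (C A a0 : ℝ) (ha0 : 0 < a0) :
    Tendsto (fun k : ℕ => (k : ℝ)⁻¹ * ∑ l ∈ Finset.range k, bb C A a0 l) atTop (𝓝 0) := by
  have h2 : Tendsto (bb C A a0) atTop (𝓝 0) := by
    have e1 : Tendsto (fun k : ℕ => 2 / (a0 * ((k : ℝ) + 1))) atTop (𝓝 0) := by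
      refine tendsto_const_nhds.div_atTop (Tendsto.const_mul_atTop ha0 ?_)
      exact tendsto_atTop_add_const_right _ _ tendsto_natCast_atTop_atTop
    have e2 : Tendsto (fun k : ℕ => Real.sqrt (2 / (a0 * ((k : ℝ) + 1)))) atTop (𝓝 0) := by
      have := (Real.continuous_sqrt.tendsto 0).comp e1
      rwa [Real.sqrt_zero] at this
    have e3 := (e2.add (e1.const_mul A)).const_mul C
    rw [mul_zero, add_zero, mul_zero] at e3
    exact e3
  exact h2.cesaro

/-- the number of steps of a chain -/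
theorem Chain.count (uv : UV μ L Good ts C ρs c a0 d0 p) {κ t : ℝ} {n : ℕ} {τ α : ℕ → ℝ}
    (ch : Chain μ L Good ts C a0 t n τ α) (hle : ∀ i ≤ n, g2 μ L (Fi μ L i t) ≤ κ)
    (hsm : C * (Real.sqrt (κ / c) + (2 * C + 1) * (κ / c)) ≤ a0 / 2) {S0 : ℝ}
    (hS0 : 1 / τ n ≤ S0) (i0 : ℕ) (hi0 : 1 / (20 * t) ≤ 16 ^ i0) :
    |1 / t - n * a0| ≤ (Cd ts C a0 + a0) * i0 + S0 +
      ∑ l ∈ Finset.range n, bb C (2 * C + 1) a0 l := by
  have hC := uv.C_pos
  have ha0 := uv.a0_pos
  have hCd := Cd_pos uv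
  have hτ : ∀ l, 0 < τ (n - l) := fun l => (ch.pos uv (i := n - l) (Nat.sub_le _ _)).1
  have hsum0 : 0 ≤ ∑ l ∈ Finset.range n, bb C (2 * C + 1) a0 l :=
    Finset.sum_nonneg fun l _ => bb_nonneg hC.le (by positivity) ha0 l
  have ht : 0 < t := by
    rw [← ch.zero]
    exact (ch.pos uv (Nat.zero_le _)).1
  rcases le_or_gt i0 n with h | h
  · set σ : ℕ → ℝ := fun l => 1 / τ (n - l) with hσ
    have hinv : ∀ l, 1 / σ l = τ (n - l) := fun l => by simp only [hσ, one_div_one_div]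
    have hα : ∀ i, i0 ≤ i → i ≤ n → α i ≤ 2 * C + 1 := by
      intro i h1 h2
      have h3 := ch.err_le uv i h2
      have h4 : 1 / (20 * t) / 16 ^ i ≤ 1 := by
        rw [div_le_one (by positivity)]
        exact hi0.trans (pow_le_pow_right₀ (by norm_num) h1)
      linarith
    have hkey := af_real (S0 := S0) (ρ := κ / c) (A := 2 * C + 1) ha0 hC.le (by positivity) σ
      (n - i0) (fun l _ => one_div_pos.2 (hτ l))
      (fun l _ => by
        rw [hinv]
        have h4 := uv.g2_lo _ _ _ (ch.good (n - l) (Nat.sub_le _ _))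
          (ch.small (n - l) (Nat.sub_le _ _))
        rw [le_div_iff₀ uv.c_pos]
        have := hle (n - l) (Nat.sub_le _ _)
        linarith) hsm
      (fun l hl => by
        rw [hinv]
        have h1 := ch.step (n - (l + 1)) (by omega)
        rw [show n - (l + 1) + 1 = n - l by omega] at h1
        have h2 : σ (l + 1) - σ l - a0 = -(1 / τ (n - l) - 1 / τ (n - (l + 1)) + a0) := by
          simp only [hσ]; ring
        rw [h2, abs_neg]
        refine h1.trans (mul_le_mul_of_nonneg_left (add_le_add le_rfl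
          (mul_le_mul_of_nonneg_right (hα _ (by omega) (by omega)) (hτ _).le)) hC.le))
      (by simp only [hσ, Nat.sub_zero]; exact hS0)
    obtain ⟨-, h2⟩ := hkey (n - i0) le_rfl
    have e1 : σ (n - i0) = 1 / τ i0 := by
      simp only [hσ]
      rw [Nat.sub_sub_self h]
    rw [e1, Nat.cast_sub h] at h2
    have h3 := ch.two uv i0 h
    have h4 : ∑ l ∈ Finset.range (n - i0), bb C (2 * C + 1) a0 l ≤
        ∑ l ∈ Finset.range n, bb C (2 * C + 1) a0 l :=
      Finset.sum_le_sum_of_subset_of_nonneg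
        (Finset.range_subset_range.2 (Nat.sub_le _ _))
        fun l _ _ => bb_nonneg hC.le (by positivity) ha0 l
    have hi : (0 : ℝ) ≤ i0 := Nat.cast_nonneg _
    rw [_root_.abs_le] at h2 h3 ⊢
    constructor <;> nlinarith
  · have h1 := ch.fwd uv
    have h2 : (n : ℝ) ≤ i0 := by exact_mod_cast h.le
    have h3 : (0 : ℝ) ≤ n := Nat.cast_nonneg _
    have h4 : 0 < 1 / t := by positivity
    have h5 : 0 < 1 / τ n := by
      have := hτ 0
      rw [Nat.sub_zero] at this
      positivity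
    have h6 : Cd ts C a0 * n ≤ Cd ts C a0 * i0 := mul_le_mul_of_nonneg_left h2 hCd.le
    have h7 : a0 * n ≤ a0 * i0 := mul_le_mul_of_nonneg_left h2 ha0.le
    have h8 : 0 ≤ a0 * n := by positivity
    have h9 : 0 ≤ Cd ts C a0 * n := by positivity
    rw [_root_.abs_le]
    constructor <;> nlinarith

theorem pow16 {t : ℝ} (ht : 0 < t) : 1 / (20 * t) ≤ 16 ^ ⌈Real.log (1 / t)⌉₊ := by
  have h1 : 1 / (20 * t) ≤ 1 / t := one_div_le_one_div_of_le ht (by linarith)
  refine h1.trans ?_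
  have h2 : 1 / t ≤ Real.exp ⌈Real.log (1 / t)⌉₊ := by
    have h3 : 0 < 1 / t := by positivity
    calc 1 / t = Real.exp (Real.log (1 / t)) := (Real.exp_log h3).symm
      _ ≤ _ := Real.exp_le_exp.2 (Nat.le_ceil _)
  refine h2.trans ?_
  have h3 : Real.exp ⌈Real.log (1 / t)⌉₊ = Real.exp 1 ^ ⌈Real.log (1 / t)⌉₊ := by
    rw [← Real.exp_nat_mul, mul_one]
  rw [h3]
  exact pow_le_pow_left₀ (Real.exp_pos _).le (by
    have := Real.exp_one_lt_d9
    linarith) _

/-- the asymptotic number of steps -/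
theorem asym {ι : Type} {l : Filter ι} {t : ι → ℝ} {n : ι → ℕ} {a0 D S0 : ℝ} {E : ℕ → ℝ}
    (ha0 : 0 < a0) (hD : 0 < D) (ht : ∀ᶠ j in l, 0 < t j) (ht0 : Tendsto t l (𝓝 0))
    (hE : Tendsto (fun k : ℕ => (k : ℝ)⁻¹ * E k) atTop (𝓝 0))
    (h1 : ∀ᶠ j in l, 1 / t j ≤ S0 + D * n j)
    (h2 : ∀ᶠ j in l, |1 / t j - n j * a0| ≤ D * ⌈Real.log (1 / t j)⌉₊ + S0 + E (n j)) :
    Tendsto (fun j => (n j : ℝ) * t j) l (𝓝 (1 / a0)) := by
  have hti : Tendsto (fun j => 1 / t j) l atTop := by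
    simp only [one_div]
    refine Filter.Tendsto.inv_tendsto_nhdsGT_zero ?_
    rw [tendsto_nhdsWithin_iff]
    exact ⟨ht0, ht⟩
  have hn : Tendsto n l atTop := by
    have h3 : Tendsto (fun j => (1 / t j + -S0) / D) l atTop :=
      Tendsto.atTop_div_const hD (tendsto_atTop_add_const_right _ _ hti)
    have h4 : Tendsto (fun j => ((n j : ℕ) : ℝ)) l atTop := by
      refine tendsto_atTop_mono' l ?_ h3
      filter_upwards [h1] with j hj
      rw [div_le_iff₀ hD]
      linarith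
    exact tendsto_natCast_atTop_iff.1 h4
  obtain ⟨r, hr⟩ : ∃ r : ι → ℝ, r = fun j => D * |t j * Real.log (t j)| + (D + |S0|) * t j :=
    ⟨_, rfl⟩
  have hr0 : Tendsto r l (𝓝 0) := by
    have h3 : Tendsto (fun j => t j * Real.log (t j)) l (𝓝 0) := by
      have h4 := (Real.continuous_mul_log.tendsto 0).comp ht0
      rw [zero_mul] at h4
      exact h4
    have h5 := (h3.abs.const_mul D).add (ht0.const_mul (D + |S0|))
    rw [hr]
    simpa using h5
  obtain ⟨e, he⟩ : ∃ e : ι → ℝ, e = fun j => ((n j : ℕ) : ℝ)⁻¹ * E (n j) := ⟨_, rfl⟩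
  have he0 : Tendsto e l (𝓝 0) := by
    rw [he]
    exact hE.comp hn
  obtain ⟨x, hx⟩ : ∃ x : ι → ℝ, x = fun j => ((n j : ℝ) * t j)⁻¹ := ⟨_, rfl⟩
  have hxl : Tendsto x l (𝓝 a0) := by
    rw [tendsto_iff_norm_sub_tendsto_zero]
    have h3 : Tendsto (fun j => 2 * r j * (a0 + e j) + e j) l (𝓝 0) := by
      have h4 := ((hr0.const_mul 2).mul (he0.const_add a0)).add he0
      simpa using h4
    refine squeeze_zero' (Eventually.of_forall fun j => norm_nonneg _) ?_ h3
    filter_upwards [ht, h2, hn.eventually_ge_atTop 1, hr0.eventually (gt_mem_nhds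
      (by norm_num : (0 : ℝ) < 1 / 2))] with j htj h2j hnj hrj
    have hn0 : (0 : ℝ) < n j := by exact_mod_cast hnj
    have hceil : ((⌈Real.log (1 / t j)⌉₊ : ℕ) : ℝ) ≤ |Real.log (t j)| + 1 := by
      have h4 : Real.log (1 / t j) ≤ |Real.log (t j)| := by
        rw [one_div, Real.log_inv]
        exact neg_le_abs _
      have h5 : ((⌈Real.log (1 / t j)⌉₊ : ℕ) : ℝ) ≤ ((⌈|Real.log (t j)|⌉₊ : ℕ) : ℝ) := by
        exact_mod_cast Nat.ceil_mono h4
      exact h5.trans (Nat.ceil_lt_add_one (abs_nonneg _)).le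
    have hR : D * ((⌈Real.log (1 / t j)⌉₊ : ℕ) : ℝ) + S0 ≤ 1 / t j * r j := by
      have e1 : 1 / t j * r j = D * |Real.log (t j)| + (D + |S0|) := by
        rw [hr]
        simp only []
        rw [abs_mul, abs_of_pos htj]
        field_simp
      rw [e1]
      have h4 := mul_le_mul_of_nonneg_left hceil hD.le
      have h5 := le_abs_self S0
      linarith
    have hr00 : 0 ≤ r j := by
      rw [hr]
      have := abs_nonneg S0
      positivity
    have hx0 : 0 < x j := by rw [hx]; positivity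
    have e1 : x j - a0 = (1 / t j - n j * a0) / n j := by
      rw [hx]
      field_simp
    have h4 : |x j - a0| ≤ r j * x j + e j := by
      rw [e1, abs_div, abs_of_pos hn0, div_le_iff₀ hn0]
      have e2 : (r j * x j + e j) * n j = 1 / t j * r j + E (n j) := by
        rw [hx, he]
        field_simp
      rw [e2]
      linarith
    have h5 : x j ≤ 2 * (a0 + e j) := by
      have h6 := (abs_le.1 h4).2
      nlinarith
    rw [Real.norm_eq_abs]
    refine h4.trans ?_
    have h6 := mul_le_mul_of_nonneg_left h5 hr00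
    linarith
  have h3 := hxl.inv₀ ha0.ne'
  rw [one_div]
  refine h3.congr fun j => ?_
  rw [hx]
  simp only [inv_inv]

end Asm

end

end Pool.Agent.T2H04.HY
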