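import Mathlib
import Pool.Agent.T2H04.HY.LieG

/-!
# Schur's lemma for invariant quadratic forms
-/

open MeasureTheory Matrix Filter
open scoped Matrix.Norms.Frobenius Topology

namespace Pool.Agent.T2H04.HY

set_option linter.unusedSectionVars false

noncomputable section

variable {G : Type} [Group G] [TopologicalSpace G] [IsTopologicalGroup G] [CompactSpace G]
  {m : Type} [Fintype m] [DecidableEq m] (L : RD G m)

/-- the inclusion of the Lie algebra in the complexified Lie algebra -/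
def iot : lieAlg L →ₗ[ℝ] gC L where
  toFun X := ⟨X.1, gC_of_lie L ((mem_lieAlg L).1 X.2)⟩
  map_add' _ _ := rfl
  map_smul' _ _ := rfl

theorem iot_coe (X : lieAlg L) : ((iot L X : gC L) : Mt m) = (X : Mt m) := rfl

/-- the scalar product -/
def ip (X Y : Mt m) : ℝ := -(trace (X * Y)).re

theorem ip_add (X X' Y : Mt m) : ip (X + X') Y = ip X Y + ip X' Y := by
  unfold ip
  rw [add_mul, trace_add, Complex.add_re]; ring

theorem ip_smul (c : ℝ) (X Y : Mt m) : ip (c • X) Y = c * ip X Y := by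
  unfold ip
  rw [smul_mul_assoc, trace_smul, Complex.real_smul, Complex.re_ofReal_mul]; ring

theorem ip_comm (X Y : Mt m) : ip X Y = ip Y X := by
  unfold ip
  rw [trace_mul_comm]

theorem ip_self {X : Mt m} (hX : Xᴴ = -X) : ip X X = ‖X‖ ^ 2 := by
  rw [norm_sq_eq, hX, neg_mul, trace_neg, Complex.neg_re]
  rfl

theorem ip_conj (g : G) (X Y : Mt m) :
    ip (L.rho g * X * L.rho g⁻¹) Y = ip X (L.rho g⁻¹ * Y * L.rho g) := by
  unfold ip
  have : trace (L.rho g * X * L.rho g⁻¹ * Y) = trace (X * (L.rho g⁻¹ * Y * L.rho g)) := by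
    rw [mul_assoc, mul_assoc, trace_mul_comm, mul_assoc, mul_assoc]
  rw [this]

/-- the conjugation on the Lie algebra -/
def Adj (g : G) (X : lieAlg L) : lieAlg L :=
  ⟨L.rho g * X.1 * L.rho g⁻¹, (mem_lieAlg L).2 (lie_conj L g ((mem_lieAlg L).1 X.2))⟩

theorem Adj_inv (g : G) (X : lieAlg L) : Adj L g (Adj L g⁻¹ X) = X := by
  apply Subtype.ext
  show L.rho g * (L.rho g⁻¹ * X.1 * L.rho g⁻¹⁻¹) * L.rho g⁻¹ = X.1
  rw [inv_inv, mul_assoc, mul_assoc, mul_assoc, ← mul_assoc (L.rho g), rho_mul_inv, one_mul,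
    mul_one]

/-- An invariant complex bilinear form on the complexified Lie algebra, real on the Lie algebra, is
a real multiple of `Qf` if the Lie algebra is simple. -/
theorem schur (hs : Simple L) (q : gC L →ₗ[ℂ] gC L →ₗ[ℂ] ℂ) (hsym : ∀ x y, q x y = q y x)
    (hinv : ∀ g : G, ∀ Z Z' : gC L, (Z' : Mt m) = L.rho g * (Z : Mt m) * L.rho g⁻¹ →
      q Z' Z' = q Z Z)
    (hreal : ∀ Z : gC L, imP (Z : Mt m) = 0 → (q Z Z).im = 0) :
    ∃ a : ℝ, ∀ Z : gC L, q Z Z = (a : ℂ) * Qf (Z : Mt m) := by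
  have hsk : ∀ X : lieAlg L, (X : Mt m)ᴴ = -(X : Mt m) := fun X => lie_skew L ((mem_lieAlg L).1 X.2)
  -- reality
  have hre1 : ∀ X : lieAlg L, (q (iot L X) (iot L X)).im = 0 := by
    intro X
    exact hreal _ (by rw [iot_coe]; exact imP_of_skew (hsk X))
  have hexp : ∀ x y : gC L, q (x + y) (x + y) = q x x + 2 * q x y + q y y := by
    intro x y
    rw [map_add (q (x + y)), map_add q, LinearMap.add_apply, LinearMap.add_apply, hsym y x]
    ring
  have hre2 : ∀ X Y : lieAlg L, (q (iot L X) (iot L Y)).im = 0 := by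
    intro X Y
    have h1 := hre1 (X + Y)
    rw [map_add, hexp] at h1
    simp only [Complex.add_im, Complex.mul_im, hre1] at h1
    norm_num at h1
    exact h1
  set b : lieAlg L → lieAlg L → ℝ := fun X Y => (q (iot L X) (iot L Y)).re with hb
  have hbc : ∀ X Y, q (iot L X) (iot L Y) = (b X Y : ℂ) := by
    intro X Y
    apply Complex.ext
    · rw [Complex.ofReal_re]
    · rw [Complex.ofReal_im, hre2]
  have hbadd : ∀ X X' Y, b (X + X') Y = b X Y + b X' Y := by
    intro X X' Y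
    simp only [hb]
    rw [map_add, map_add, LinearMap.add_apply, Complex.add_re]
  have hbsmul : ∀ (c : ℝ) X Y, b (c • X) Y = c * b X Y := by
    intro c X Y
    simp only [hb]
    have : iot L (c • X) = (c : ℂ) • iot L X := by
      apply Subtype.ext
      show (c • (X : Mt m)) = (c : ℂ) • (X : Mt m)
      exact (Complex.coe_smul c _).symm
    rw [this, map_smul, LinearMap.smul_apply, smul_eq_mul, Complex.re_ofReal_mul]
  have hbsym : ∀ X Y, b X Y = b Y X := by
    intro X Y
    simp only [hb]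
    rw [hsym]
  have hbinv : ∀ g X Y, b (Adj L g X) (Adj L g Y) = b X Y := by
    intro g X Y
    have h1 : ∀ X, b (Adj L g X) (Adj L g X) = b X X := by
      intro X
      simp only [hb]
      rw [hinv g (iot L X) (iot L (Adj L g X)) rfl]
    have h2 := h1 (X + Y)
    have h3 : Adj L g (X + Y) = Adj L g X + Adj L g Y := by
      apply Subtype.ext
      show L.rho g * ((X : Mt m) + (Y : Mt m)) * L.rho g⁻¹ = L.rho g * (X : Mt m) * L.rho g⁻¹ +
        L.rho g * (Y : Mt m) * L.rho g⁻¹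
      rw [mul_add, add_mul]
    have h4 : ∀ U V, b (U + V) (U + V) = b U U + 2 * b U V + b V V := by
      intro U V
      rw [hbadd, hbsym U, hbsym V, hbadd, hbadd, hbsym V U]
      ring
    rw [h3, h4, h4, h1, h1] at h2
    linarith
  -- the maximiser
  have hcont : Continuous fun X : lieAlg L => b X X := by
    set β : lieAlg L →ₗ[ℝ] lieAlg L →ₗ[ℝ] ℝ := LinearMap.mk₂ ℝ b hbadd hbsmul
      (fun X Y Y' => by rw [hbsym, hbadd, hbsym Y, hbsym Y'])
      (fun c X Y => by rw [hbsym, hbsmul, hbsym Y, smul_eq_mul]) with hβ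
    have h1 : (fun X : lieAlg L => b X X) = fun X => β.toContinuousBilinearMap X X := by
      funext X
      rw [LinearMap.toContinuousBilinearMap_apply, hβ, LinearMap.mk₂_apply]
    rw [h1]
    fun_prop
  obtain ⟨W, hW, hWn⟩ : ∃ W ∈ lieSet L, W ≠ 0 := by
    obtain ⟨X, hX, Y, hY, hXY⟩ := hs.nonab
    refine ⟨X, hX, ?_⟩
    rintro rfl
    exact hXY (by simp)
  obtain ⟨X0, hX0, hmax⟩ := (isCompact_sphere (0 : lieAlg L) 1).exists_isMaxOn
    (by
      have hWn' : ‖W‖ ≠ 0 := norm_ne_zero_iff.2 hWn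
      refine ⟨(‖W‖⁻¹ : ℝ) • ⟨W, (mem_lieAlg L).2 hW⟩, ?_⟩
      rw [mem_sphere_zero_iff_norm, norm_smul]
      show ‖(‖W‖⁻¹ : ℝ)‖ * ‖W‖ = 1
      rw [norm_inv, norm_norm, inv_mul_cancel₀ hWn']) hcont.continuousOn
  have hX0n : ‖X0‖ = 1 := mem_sphere_zero_iff_norm.1 hX0
  set a := b X0 X0 with ha
  have hle : ∀ Y : lieAlg L, b Y Y ≤ a * ‖Y‖ ^ 2 := by
    intro Y
    by_cases hY : Y = 0
    · have : b (0 : lieAlg L) 0 = 0 := by
        have := hbsmul 0 0 0
        rwa [zero_smul, zero_mul] at this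
      rw [hY, this, norm_zero]
      simp
    · have hYn : ‖Y‖ ≠ 0 := norm_ne_zero_iff.2 hY
      have h1 := hmax (a := (‖Y‖⁻¹ : ℝ) • Y) (by
        rw [mem_sphere_zero_iff_norm, norm_smul, norm_inv, norm_norm, inv_mul_cancel₀ hYn])
      simp only [Set.mem_ofPred_eq] at h1
      rw [hbsmul, hbsym, hbsmul, ← ha] at h1
      have hpos : 0 < ‖Y‖ := norm_pos_iff.2 hY
      have h2 : ‖Y‖⁻¹ * (‖Y‖⁻¹ * b Y Y) = b Y Y / ‖Y‖ ^ 2 := by field_simp
      rw [h2, div_le_iff₀ (by positivity)] at h1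
      exact h1
  have hnorm : ∀ X : lieAlg L, ‖X‖ ^ 2 = ip (X : Mt m) (X : Mt m) := fun X => (ip_self (hsk X)).symm
  have hcrit : ∀ Y : lieAlg L, b X0 Y = a * ip (X0 : Mt m) (Y : Mt m) := by
    intro Y
    set d := b X0 Y - a * ip (X0 : Mt m) (Y : Mt m) with hd
    set e := a * ‖Y‖ ^ 2 - b Y Y with he
    have h1 : ∀ t : ℝ, 2 * t * d ≤ t ^ 2 * e := by
      intro t
      have h2 := hle (X0 + t • Y)
      have h3 : b (X0 + t • Y) (X0 + t • Y) = a + 2 * t * b X0 Y + t ^ 2 * b Y Y := by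
        rw [hbadd, hbsmul, hbsym X0, hbsym Y, hbadd, hbadd, hbsmul, hbsmul, ← ha, hbsym Y X0]
        ring
      have h4 : ‖X0 + t • Y‖ ^ 2 = 1 + 2 * t * ip (X0 : Mt m) (Y : Mt m) + t ^ 2 * ‖Y‖ ^ 2 := by
        have h5 : ip (X0 : Mt m) (X0 : Mt m) = 1 := by rw [← hnorm, hX0n]; norm_num
        rw [hnorm, hnorm Y]
        show ip ((X0 : Mt m) + t • (Y : Mt m)) ((X0 : Mt m) + t • (Y : Mt m)) = _
        rw [ip_add, ip_smul, ip_comm (X0 : Mt m), ip_comm (Y : Mt m), ip_add, ip_add, ip_smul,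
          ip_smul, h5, ip_comm (Y : Mt m) (X0 : Mt m)]
        ring
      rw [h3, h4] at h2
      rw [hd, he]
      linarith
    have h2 : d = 0 := by
      by_contra hne
      have h3 := h1 (d / (|e| + 1))
      have he1 : e ≤ |e| := le_abs_self e
      have hpos : 0 < |e| + 1 := by positivity
      have h4 : 2 * (d / (|e| + 1)) * d = 2 * d ^ 2 / (|e| + 1) := by ring
      have h5 : (d / (|e| + 1)) ^ 2 * e = d ^ 2 * e / (|e| + 1) ^ 2 := by rw [div_pow]; ring
      rw [h4, h5, div_le_div_iff₀ hpos (by positivity)] at h3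
      have h6 : 0 < d ^ 2 := by positivity
      have h7 : 2 * d ^ 2 * (|e| + 1) ^ 2 = (d ^ 2 * (|e| + 1)) * (2 * (|e| + 1)) := by ring
      have h8 : d ^ 2 * e * (|e| + 1) = (d ^ 2 * (|e| + 1)) * e := by ring
      rw [h7, h8] at h3
      have h9 : 2 * (|e| + 1) ≤ e := le_of_mul_le_mul_left h3 (by positivity)
      linarith [abs_nonneg e]
    linarith
  -- the eigenspace
  let V' : Submodule ℝ (lieAlg L) :=
    { carrier := {X | ∀ Y : lieAlg L, b X Y = a * ip (X : Mt m) (Y : Mt m)}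
      zero_mem' := by
        intro Y
        have h1 : b 0 Y = 0 := by
          have := hbsmul 0 0 Y
          rwa [zero_smul, zero_mul] at this
        rw [h1]
        show 0 = a * ip (0 : Mt m) (Y : Mt m)
        unfold ip
        simp
      add_mem' := by
        intro X X' hX hX' Y
        rw [hbadd, hX Y, hX' Y]
        show _ = a * ip ((X : Mt m) + (X' : Mt m)) (Y : Mt m)
        rw [ip_add]; ring
      smul_mem' := by
        intro c X hX Y
        rw [hbsmul, hX Y]
        show _ = a * ip (c • (X : Mt m)) (Y : Mt m)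
        rw [ip_smul]; ring }
  have hV'mem : ∀ X : lieAlg L, X ∈ V' ↔ ∀ Y : lieAlg L, b X Y = a * ip (X : Mt m) (Y : Mt m) :=
    fun X => Iff.rfl
  let V : Submodule ℝ (Mt m) := V'.map (lieAlg L).subtype
  have hVmem : ∀ X : lieAlg L, (X : Mt m) ∈ V ↔ X ∈ V' := by
    intro X
    constructor
    · rintro ⟨X', hX', h⟩
      have : X' = X := Subtype.ext h
      rw [← this]; exact hX'
    · intro h
      exact ⟨X, h, rfl⟩
  have hVle : V ≤ lieAlg L := Submodule.map_subtype_le _ _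
  have hVad : ∀ g : G, ∀ X : lieAlg L, X ∈ V' → Adj L g X ∈ V' := by
    intro g X hX Y
    have h1 : b (Adj L g X) Y = b X (Adj L g⁻¹ Y) := by
      have := hbinv g X (Adj L g⁻¹ Y)
      rw [Adj_inv] at this
      exact this
    rw [h1, hX]
    congr 1
    show ip (X : Mt m) (L.rho g⁻¹ * (Y : Mt m) * L.rho g⁻¹⁻¹) =
      ip (L.rho g * (X : Mt m) * L.rho g⁻¹) (Y : Mt m)
    rw [ip_conj, inv_inv]
  have hVne : V ≠ ⊥ := by
    intro h
    have h1 : (X0 : Mt m) ∈ V := (hVmem X0).2 hcrit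
    rw [h, Submodule.mem_bot] at h1
    have h2 : X0 = 0 := Subtype.ext h1
    rw [h2, norm_zero] at hX0n
    exact zero_ne_one hX0n
  have hVbr : ∀ X ∈ lieSet L, ∀ Y ∈ V, X * Y - Y * X ∈ V := by
    intro X hX Y hY
    have hcl : IsClosed (V : Set (Mt m)) := Submodule.closed_of_finiteDimensional V
    have h1 : HasDerivAt (fun t : ℝ => NormedSpace.exp (t • X) * Y * NormedSpace.exp (t • -X))
        (X * Y - Y * X) 0 := by
      have h2 := ((hasDerivAt_exp X 0).mul_const Y).mul (hasDerivAt_exp (-X) 0)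
      simp only [zero_smul, NormedSpace.exp_zero, one_mul, mul_one] at h2
      rw [mul_neg, ← sub_eq_add_neg] at h2
      exact h2
    have h2 := h1.tendsto_slope_zero
    simp only [zero_add, zero_smul, NormedSpace.exp_zero, one_mul, mul_one] at h2
    refine hcl.mem_of_tendsto h2 (Filter.Eventually.of_forall fun t => ?_)
    refine V.smul_mem _ (V.sub_mem ?_ hY)
    obtain ⟨g, hg⟩ := hX t
    have hginv : L.rho g⁻¹ = NormedSpace.exp (t • -X) := by
      have h5 : L.rho g⁻¹ = L.rho g⁻¹ * (NormedSpace.exp (t • X) * NormedSpace.exp (-(t • X))) := by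
        rw [exp_mul_exp_neg, mul_one]
      rw [h5, ← mul_assoc, ← hg, rho_inv_mul, one_mul, smul_neg]
    rw [← hg, ← hginv]
    have hYl : Y ∈ lieAlg L := hVle hY
    exact (hVmem (Adj L g ⟨Y, hYl⟩)).2 (hVad g _ ((hVmem ⟨Y, hYl⟩).1 hY))
  have hVtop : V = lieAlg L := (hs.irred V hVle hVbr).resolve_left hVne
  have hall : ∀ X Y : lieAlg L, b X Y = a * ip (X : Mt m) (Y : Mt m) := by
    intro X Y
    have h1 : (X : Mt m) ∈ V := by rw [hVtop]; exact X.2
    exact (hVmem X).1 h1 Y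
  refine ⟨a, fun Z => ?_⟩
  set X : lieAlg L := ⟨reP (Z : Mt m), (mem_lieAlg L).2 (reP_mem L Z.2)⟩ with hXd
  set H : lieAlg L := ⟨imP (Z : Mt m), (mem_lieAlg L).2 (imP_mem L Z.2)⟩ with hHd
  have hZ : Z = iot L X + Complex.I • iot L H := by
    apply Subtype.ext
    exact (reP_add_imP (Z : Mt m)).symm
  have hip : ∀ U V : lieAlg L, (ip (U : Mt m) (V : Mt m) : ℂ) = -trace ((U : Mt m) * (V : Mt m)) := by
    intro U V
    unfold ip
    apply Complex.ext
    · simp
    · simp [trace_skew_real (hsk U) (hsk V)]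
  have hQ : Qf (Z : Mt m) = -trace ((X : Mt m) * (X : Mt m)) + trace ((H : Mt m) * (H : Mt m)) -
      2 * Complex.I * trace ((X : Mt m) * (H : Mt m)) := by
    have h1 : (Z : Mt m) = (X : Mt m) + Complex.I • (H : Mt m) := (reP_add_imP (Z : Mt m)).symm
    unfold Qf
    rw [h1]
    simp only [add_mul, mul_add, smul_mul_assoc, mul_smul_comm, smul_smul, Complex.I_mul_I,
      neg_smul, one_smul, trace_add, trace_smul, trace_neg, smul_eq_mul]
    rw [trace_mul_comm (H : Mt m) (X : Mt m)]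
    have := Complex.I_mul_I
    linear_combination (-(trace ((H : Mt m) * (H : Mt m)))) * this
  have hq : q Z Z = q (iot L X) (iot L X) + 2 * Complex.I * q (iot L X) (iot L H) -
      q (iot L H) (iot L H) := by
    conv_lhs => rw [hZ]
    have e1 : ∀ x : gC L, q x (Complex.I • iot L H) = Complex.I * q x (iot L H) := fun x => by
      rw [map_smul, smul_eq_mul]
    have e2 : ∀ x : gC L, q (Complex.I • iot L H) x = Complex.I * q (iot L H) x := fun x => by
      rw [map_smul, LinearMap.smul_apply, smul_eq_mul]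
    rw [hexp, e1, e1, e2]
    have := Complex.I_mul_I
    linear_combination (q (iot L H) (iot L H)) * this
  rw [hq, hQ, hbc, hbc, hbc, hall, hall, hall]
  push_cast
  rw [hip, hip, hip]
  ring

end

end Pool.Agent.T2H04.HY
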