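import Mathlib
import Pool.Agent.T2H04.HY.Schur

/-!
# The Casimir constant of a simple group
-/

open MeasureTheory Matrix Filter
open scoped Matrix.Norms.Frobenius Topology

namespace Pool.Agent.T2H04.HY

set_option linter.unusedSectionVars false

noncomputable section

variable {G : Type} [Group G] [TopologicalSpace G] [IsTopologicalGroup G] [CompactSpace G]
  {m : Type} [Fintype m] [DecidableEq m] {L : RD G m}

namespace Cas

theorem ip_sum {ι : Type*} (s : Finset ι) (f : ι → Mt m) (Y : Mt m) :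
    ip (∑ i ∈ s, f i) Y = ∑ i ∈ s, ip (f i) Y := by
  unfold ip
  rw [Finset.sum_mul, trace_sum, Complex.re_sum, Finset.sum_neg_distrib]

theorem ip_orth {n : ℕ} {E : Fin n → Mt m} (hE : ∀ a, E a ∈ lieSet L)
    (orth : ∀ a b, (trace ((E a)ᴴ * E b)).re = if a = b then 1 else 0) (a b : Fin n) :
    ip (E a) (E b) = if a = b then 1 else 0 := by
  rw [← orth a b, lie_skew L (hE a), neg_mul, trace_neg, Complex.neg_re]
  rfl

/-- expansion in the basis -/
theorem expand {n : ℕ} {E : Fin n → Mt m} (hE : ∀ a, E a ∈ lieSet L)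
    (orth : ∀ a b, (trace ((E a)ᴴ * E b)).re = if a = b then 1 else 0)
    (full : ∀ Y ∈ lieSet L, Y ∈ Submodule.span ℝ (Set.range E)) {Y : Mt m} (hY : Y ∈ lieSet L) :
    Y = ∑ b, ip (E b) Y • E b := by
  obtain ⟨c, hc⟩ := (Submodule.mem_span_range_iff_exists_fun ℝ).1 (full Y hY)
  have h : ∀ b, ip (E b) Y = c b := by
    intro b
    rw [← hc, ip_comm, ip_sum]
    simp only [ip_smul, ip_orth hE orth, mul_ite, mul_one, mul_zero, Finset.sum_ite_eq',
      Finset.mem_univ, if_true]
  conv_lhs => rw [← hc]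
  exact Finset.sum_congr rfl fun b _ => by rw [h b]

theorem indep {n : ℕ} {E : Fin n → Mt m} (hE : ∀ a, E a ∈ lieSet L)
    (orth : ∀ a b, (trace ((E a)ᴴ * E b)).re = if a = b then 1 else 0) :
    LinearIndependent ℝ E := by
  rw [Fintype.linearIndependent_iff]
  intro c hc b
  have h1 : ip (∑ i, c i • E i) (E b) = 0 := by
    rw [hc]
    unfold ip
    simp
  rw [ip_sum] at h1
  simpa only [ip_smul, ip_orth hE orth, mul_ite, mul_one, mul_zero, Finset.sum_ite_eq',
    Finset.mem_univ, if_true, Finset.sum_ite_eq] using h1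

/-- the commutator -/
def br (X Y : Mt m) : Mt m := X * Y - Y * X

theorem br_add_left (X X' Y : Mt m) : br (X + X') Y = br X Y + br X' Y := by
  unfold br
  rw [add_mul, mul_add]; abel

theorem br_add_right (X Y Y' : Mt m) : br X (Y + Y') = br X Y + br X Y' := by
  unfold br
  rw [add_mul, mul_add]; abel

theorem br_smul_left (c : ℝ) (X Y : Mt m) : br (c • X) Y = c • br X Y := by
  unfold br
  rw [smul_mul_assoc, mul_smul_comm, smul_sub]

theorem br_csmul_right (c : ℂ) (X Y : Mt m) : br X (c • Y) = c • br X Y := by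
  unfold br
  rw [smul_mul_assoc, mul_smul_comm, smul_sub]

theorem br_sum_left {ι : Type*} (s : Finset ι) (f : ι → Mt m) (Y : Mt m) :
    br (∑ i ∈ s, f i) Y = ∑ i ∈ s, br (f i) Y := by
  unfold br
  rw [Finset.sum_mul, Finset.mul_sum, Finset.sum_sub_distrib]

theorem br_skew {X Y : Mt m} (hX : Xᴴ = -X) (hY : Yᴴ = -Y) : (br X Y)ᴴ = -br X Y := by
  unfold br
  rw [conjTranspose_sub, conjTranspose_mul, conjTranspose_mul, hX, hY]
  simp only [neg_mul_neg]
  abel

/-- the Casimir form -/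
def qf {n : ℕ} (E : Fin n → Mt m) (Z W : Mt m) : ℂ := -∑ a, trace (br (E a) Z * br (E a) W)

theorem qf_symm {n : ℕ} (E : Fin n → Mt m) (Z W : Mt m) : qf E Z W = qf E W Z := by
  unfold qf
  congr 1
  exact Finset.sum_congr rfl fun a _ => trace_mul_comm _ _

theorem qf_add {n : ℕ} (E : Fin n → Mt m) (Z Z' W : Mt m) :
    qf E (Z + Z') W = qf E Z W + qf E Z' W := by
  unfold qf
  simp only [br_add_right, add_mul, trace_add, Finset.sum_add_distrib, neg_add]

theorem qf_smul {n : ℕ} (E : Fin n → Mt m) (c : ℂ) (Z W : Mt m) :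
    qf E (c • Z) W = c * qf E Z W := by
  unfold qf
  simp only [br_csmul_right, smul_mul_assoc, trace_smul, smul_eq_mul, ← Finset.mul_sum, mul_neg]

theorem qf_expand {n : ℕ} (E F : Fin n → Mt m) (O : Matrix (Fin n) (Fin n) ℝ)
    (hF : ∀ a, F a = ∑ b, O a b • E b) (hO : Oᵀ * O = 1) (Z W : Mt m) : qf F Z W = qf E Z W := by
  unfold qf
  congr 1
  have h1 : ∀ a, trace (br (F a) Z * br (F a) W) =
      ∑ b, ∑ c, ((O a b * O a c : ℝ) : ℂ) * trace (br (E b) Z * br (E c) W) := by
    intro a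
    rw [hF a, br_sum_left, br_sum_left, Finset.sum_mul_sum, trace_sum]
    refine Finset.sum_congr rfl fun b _ => ?_
    rw [trace_sum]
    refine Finset.sum_congr rfl fun c _ => ?_
    rw [br_smul_left, br_smul_left, smul_mul_smul_comm, trace_smul, Complex.real_smul]
  simp only [h1]
  rw [Finset.sum_comm]
  have h2 : ∀ b, ∑ a, ∑ c, ((O a b * O a c : ℝ) : ℂ) * trace (br (E b) Z * br (E c) W) =
      trace (br (E b) Z * br (E b) W) := by
    intro b
    rw [Finset.sum_comm]
    have h3 : ∀ c, ∑ a, ((O a b * O a c : ℝ) : ℂ) * trace (br (E b) Z * br (E c) W) =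
        if b = c then trace (br (E b) Z * br (E b) W) else 0 := by
      intro c
      rw [← Finset.sum_mul, ← Complex.ofReal_sum]
      have h4 : ∑ a, O a b * O a c = if b = c then 1 else 0 := by
        have := congrFun (congrFun hO b) c
        rw [Matrix.mul_apply, Matrix.one_apply] at this
        simpa only [transpose_apply] using this
      rw [h4]
      split_ifs with h
      · rw [h]; simp
      · simp
    simp only [h3, Finset.sum_ite_eq, Finset.mem_univ, if_true]
  exact Finset.sum_congr rfl fun b _ => h2 b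

theorem br_conj (g : G) (X Z : Mt m) :
    br X (L.rho g * Z * L.rho g⁻¹) = L.rho g * br (L.rho g⁻¹ * X * L.rho g) Z * L.rho g⁻¹ := by
  unfold br
  have h1 := rho_mul_inv L g
  have e1 : L.rho g * ((L.rho g⁻¹ * X * L.rho g) * Z - Z * (L.rho g⁻¹ * X * L.rho g)) * L.rho g⁻¹ =
      (L.rho g * L.rho g⁻¹) * X * (L.rho g * Z * L.rho g⁻¹) -
        (L.rho g * Z * L.rho g⁻¹) * X * (L.rho g * L.rho g⁻¹) := by noncomm_ring
  rw [e1, h1, one_mul, mul_one]

theorem trace_conj (g : G) (A B : Mt m) :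
    trace ((L.rho g * A * L.rho g⁻¹) * (L.rho g * B * L.rho g⁻¹)) = trace (A * B) := by
  have h1 : (L.rho g * A * L.rho g⁻¹) * (L.rho g * B * L.rho g⁻¹) =
      L.rho g * (A * (L.rho g⁻¹ * L.rho g) * B) * L.rho g⁻¹ := by noncomm_ring
  rw [h1, rho_inv_mul, mul_one, mul_assoc, trace_mul_comm, mul_assoc, rho_inv_mul, mul_one]

theorem qf_inv {n : ℕ} {E : Fin n → Mt m} (hE : ∀ a, E a ∈ lieSet L)
    (orth : ∀ a b, (trace ((E a)ᴴ * E b)).re = if a = b then 1 else 0)
    (full : ∀ Y ∈ lieSet L, Y ∈ Submodule.span ℝ (Set.range E)) (g : G) (Z W : Mt m) :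
    qf E (L.rho g * Z * L.rho g⁻¹) (L.rho g * W * L.rho g⁻¹) = qf E Z W := by
  set F : Fin n → Mt m := fun a => L.rho g⁻¹ * E a * L.rho g with hFd
  have hF : ∀ a, F a ∈ lieSet L := by
    intro a
    have := lie_conj L g⁻¹ (hE a)
    rwa [inv_inv] at this
  have h1 : qf E (L.rho g * Z * L.rho g⁻¹) (L.rho g * W * L.rho g⁻¹) = qf F Z W := by
    unfold qf
    congr 1
    refine Finset.sum_congr rfl fun a _ => ?_
    rw [br_conj, br_conj, trace_conj]
  rw [h1]
  have hx : ∀ a, F a = ∑ b, ip (E b) (F a) • E b := fun a => expand hE orth full (hF a)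
  have hFo : ∀ a b, ip (F a) (F b) = if a = b then 1 else 0 := by
    intro a b
    rw [← ip_orth hE orth a b]
    unfold ip
    congr 2
    have := trace_conj (L := L) g⁻¹ (E a) (E b)
    rwa [inv_inv] at this
  set O : Matrix (Fin n) (Fin n) ℝ := fun a b => ip (E b) (F a) with hO
  refine qf_expand E F O hx ?_ Z W
  rw [mul_eq_one_comm]
  ext a c
  rw [Matrix.mul_apply, Matrix.one_apply, ← hFo a c]
  conv_rhs => rw [hx a, ip_sum]
  refine Finset.sum_congr rfl fun b _ => ?_
  rw [ip_smul]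
  rfl

end Cas

open Cas

/-- The Casimir constant: `∑ |[E a, X]|² = cas |X|²` for an orthonormal basis `E` of the Lie
algebra, by Schur's lemma. -/
theorem cas_exists (hs : Simple L) {n : ℕ} (E : Fin n → Mt m) (hE : ∀ a, E a ∈ lieSet L)
    (orth : ∀ a b, (trace ((E a)ᴴ * E b)).re = if a = b then 1 else 0)
    (full : ∀ Y ∈ lieSet L, Y ∈ Submodule.span ℝ (Set.range E)) :
    ∃ cas : ℝ, 0 < cas ∧ (∀ X ∈ lieSet L, ∑ a, ‖E a * X - X * E a‖ ^ 2 = cas * ‖X‖ ^ 2) ∧
      cas * n = ∑ a, ∑ b, ‖E a * E b - E b * E a‖ ^ 2 := by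
  let q : gC L →ₗ[ℂ] gC L →ₗ[ℂ] ℂ := LinearMap.mk₂ ℂ (fun Z W => qf E (Z : Mt m) (W : Mt m))
    (fun Z Z' W => qf_add E _ _ _)
    (fun c Z W => qf_smul E c _ _)
    (fun Z W W' => by
      show qf E (Z : Mt m) ((W : Mt m) + (W' : Mt m)) = _
      rw [qf_symm, qf_add, qf_symm E _ (Z : Mt m), qf_symm E (W' : Mt m)])
    (fun c Z W => by
      show qf E (Z : Mt m) (c • (W : Mt m)) = _
      rw [qf_symm, qf_smul, qf_symm E _ (Z : Mt m), smul_eq_mul])
  have hq : ∀ Z W : gC L, q Z W = qf E (Z : Mt m) (W : Mt m) := fun Z W => rfl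
  have hre : ∀ X ∈ lieSet L, (qf E X X).re = ∑ a, ‖E a * X - X * E a‖ ^ 2 := by
    intro X hX
    unfold qf
    rw [Complex.neg_re, Complex.re_sum, ← Finset.sum_neg_distrib]
    refine Finset.sum_congr rfl fun a _ => ?_
    exact ip_self (br_skew (lie_skew L (hE a)) (lie_skew L hX))
  have him : ∀ X ∈ lieSet L, (qf E X X).im = 0 := by
    intro X hX
    unfold qf
    rw [Complex.neg_im, Complex.im_sum, neg_eq_zero]
    refine Finset.sum_eq_zero fun a _ => ?_
    have h := br_skew (lie_skew L (hE a)) (lie_skew L hX)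
    exact trace_skew_real h h
  obtain ⟨c, hc⟩ := schur L hs q (fun Z W => by rw [hq, hq, qf_symm])
    (fun g Z Z' h => by rw [hq, hq, h, qf_inv hE orth full])
    (fun Z hZ => by
      rw [hq]
      exact him _ (mem_lieSet_of_gC L Z.2 hZ))
  have hmain : ∀ X ∈ lieSet L, ∑ a, ‖E a * X - X * E a‖ ^ 2 = c * ‖X‖ ^ 2 := by
    intro X hX
    have h1 := hc ⟨X, gC_of_lie L hX⟩
    rw [hq] at h1
    have h2 := congrArg Complex.re h1
    rw [hre X hX, Complex.re_ofReal_mul] at h2
    rw [h2]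
    congr 1
    exact ip_self (lie_skew L hX)
  refine ⟨c, ?_, hmain, ?_⟩
  · obtain ⟨X, hX, Y, hY, hXY⟩ := hs.nonab
    by_contra hcn
    push Not at hcn
    have h1 := hmain Y hY
    have h2 : ∑ a, ‖E a * Y - Y * E a‖ ^ 2 = 0 := by
      apply le_antisymm
      · rw [h1]
        exact mul_nonpos_of_nonpos_of_nonneg hcn (by positivity)
      · exact Finset.sum_nonneg fun a _ => by positivity
    have h3 : ∀ a, br (E a) Y = 0 := by
      intro a
      have := (Finset.sum_eq_zero_iff_of_nonneg (fun a _ => by positivity)).1 h2 a (Finset.mem_univ a)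
      exact norm_eq_zero.1 (pow_eq_zero_iff two_ne_zero |>.1 this)
    apply hXY
    have h4 : br X Y = 0 := by
      rw [expand hE orth full hX, br_sum_left]
      refine Finset.sum_eq_zero fun b _ => ?_
      rw [br_smul_left, h3, smul_zero]
    exact sub_eq_zero.1 h4
  · have h1 : ∀ b, ‖E b‖ ^ 2 = 1 := by
      intro b
      have := orth b b
      rw [if_pos rfl] at this
      rw [norm_sq_eq, this]
    rw [Finset.sum_comm]
    simp only [hmain _ (hE _), h1, mul_one, Finset.sum_const, Finset.card_univ, Fintype.card_fin,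
      nsmul_eq_mul]
    ring

theorem finrank_lieAlg {n : ℕ} (E : Fin n → Mt m) (hE : ∀ a, E a ∈ lieSet L)
    (orth : ∀ a b, (trace ((E a)ᴴ * E b)).re = if a = b then 1 else 0)
    (full : ∀ Y ∈ lieSet L, Y ∈ Submodule.span ℝ (Set.range E)) :
    Module.finrank ℝ (lieAlg L) = n := by
  have h1 : lieAlg L = Submodule.span ℝ (Set.range E) := by
    apply le_antisymm
    · exact Submodule.span_le.2 full
    · refine Submodule.span_le.2 ?_
      rintro _ ⟨a, rfl⟩
      exact (mem_lieAlg L).2 (hE a)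
  rw [h1, finrank_span_eq_card (indep hE orth), Fintype.card_fin]

end

end Pool.Agent.T2H04.HY
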