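import Mathlib
import Pool.Agent.T2H04.HY.SD

/-!
# The one loop coefficient: second order expansion of the quadratic form of a product
-/

open MeasureTheory Matrix Filter
open scoped Matrix.Norms.Frobenius Topology

namespace Pool.Agent.T2H04.HY

set_option linter.unusedSectionVars false

noncomputable section

variable {m : Type} [Fintype m] [DecidableEq m]

/-- the derivative of a power, under the trace -/
theorem coef_pow_deriv {g : ℂ → Mt m} {g' : Mt m} {x : ℂ} (hg : HasDerivAt g g' x) (k : ℕ) :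
    ∃ G : Mt m, HasDerivAt (fun h => g h ^ (k + 1)) G x ∧
      ∀ P : Mt m, P * g x = g x * P → trace (P * G) = (k + 1 : ℂ) * trace (P * g x ^ k * g') := by
  induction k with
  | zero =>
    refine ⟨g', by simpa using hg, fun P _ => by simp⟩
  | succ k ih =>
    obtain ⟨G, hG, hP⟩ := ih
    refine ⟨G * g x + g x ^ (k + 1) * g', ?_, ?_⟩
    · have := hG.mul hg
      refine this.congr_of_eventuallyEq (Eventually.of_forall fun h => ?_)
      show g h ^ (k + 1 + 1) = g h ^ (k + 1) * g h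
      rw [pow_succ]
    · intro P hc
      have h1 : trace (P * (G * g x)) = trace (g x * P * G) := by
        rw [← mul_assoc, trace_mul_comm, ← mul_assoc]
      have h2 : g x * P * g x = g x * (g x * P) := by rw [mul_assoc, hc]
      rw [mul_add, trace_add, h1, hP _ h2, ← hc]
      have h3 : P * g x * g x ^ k * g' = P * g x ^ (k + 1) * g' := by
        rw [mul_assoc P, ← pow_succ']
      rw [h3, ← mul_assoc]
      push_cast
      ring

theorem coef_fderiv_cont : Continuous fun Z : Mt m =>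
    fderiv ℂ (NormedSpace.exp : Mt m → Mt m) Z := by
  have h : ContDiff ℂ 1 (NormedSpace.exp : Mt m → Mt m) :=
    contDiff_iff_contDiffAt.2 fun x => (NormedSpace.exp_analytic (𝕂 := ℂ) x).contDiffAt
  exact h.continuous_fderiv one_ne_zero

theorem coef_fderiv_zero : fderiv ℂ (NormedSpace.exp : Mt m → Mt m) 0 =
    ContinuousLinearMap.id ℂ (Mt m) := by
  have := (exp_strict (m := m)).hasFDerivAt.fderiv
  rw [this]
  rfl

theorem coef_curve (Z V : Mt m) : HasDerivAt (fun h : ℂ => NormedSpace.exp (Z + h • V))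
    (fderiv ℂ (NormedSpace.exp : Mt m → Mt m) Z V) 0 := by
  have h1 : HasDerivAt (fun h : ℂ => Z + h • V) V 0 := by
    have h := ((hasDerivAt_id (0 : ℂ)).smul_const V).const_add Z
    rw [one_smul] at h
    exact h
  have h2 : HasFDerivAt (NormedSpace.exp : Mt m → Mt m) (fderiv ℂ NormedSpace.exp Z)
      (Z + (0 : ℂ) • V) := by
    rw [zero_smul, add_zero]
    exact (exp_diff Z).hasFDerivAt
  exact h2.comp_hasDerivAt 0 h1

/-- **the derivative of the exponential under the trace** -/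
theorem trace_fderiv_exp (Z V P : Mt m) (hP : P * Z = Z * P) :
    trace (P * (fderiv ℂ (NormedSpace.exp : Mt m → Mt m) Z V)) =
      trace (P * NormedSpace.exp Z * V) := by
  have key : ∀ k : ℕ, trace (P * (fderiv ℂ (NormedSpace.exp : Mt m → Mt m) Z V)) =
      trace (P * NormedSpace.exp (((k : ℂ) / (k + 1)) • Z) *
        fderiv ℂ (NormedSpace.exp : Mt m → Mt m) ((1 / (k + 1 : ℂ)) • Z) V) := by
    intro k
    have hk : ((k : ℂ) + 1) ≠ 0 := by exact_mod_cast Nat.succ_ne_zero k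
    set c : ℂ := 1 / (k + 1 : ℂ) with hc
    have hg := coef_curve (c • Z) (c • V)
    obtain ⟨G, hG, hGP⟩ := coef_pow_deriv hg k
    have e1 : (fun h : ℂ => NormedSpace.exp (c • Z + h • c • V) ^ (k + 1)) =
        fun h : ℂ => NormedSpace.exp (Z + h • V) := by
      funext h
      rw [← Matrix.exp_nsmul]
      congr 1
      rw [smul_add, ← Nat.cast_smul_eq_nsmul ℂ, ← Nat.cast_smul_eq_nsmul ℂ, smul_smul,
        smul_comm h c V, smul_smul]
      have : ((k + 1 : ℕ) : ℂ) * c = 1 := by rw [hc]; push_cast; field_simp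
      rw [this, one_smul, one_smul]
    rw [e1] at hG
    have e2 := hG.unique (coef_curve Z V)
    have hcomm : P * NormedSpace.exp (c • Z + (0 : ℂ) • c • V) =
        NormedSpace.exp (c • Z + (0 : ℂ) • c • V) * P := by
      rw [zero_smul, add_zero]
      have : Commute P (c • Z) := (show Commute P Z from hP).smul_right c
      exact this.exp_right
    have e3 := hGP P hcomm
    rw [e2] at e3
    rw [e3, zero_smul, add_zero, map_smul, mul_smul_comm, trace_smul, smul_eq_mul, ← mul_assoc]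
    have : ((k : ℂ) + 1) * c = 1 := by rw [hc]; field_simp
    rw [this, one_mul]
    congr 3
    rw [← Matrix.exp_nsmul]
    congr 1
    rw [← Nat.cast_smul_eq_nsmul ℂ, smul_smul, hc]
    congr 1
    ring
  have hlim : Tendsto (fun k : ℕ => trace (P * NormedSpace.exp (((k : ℂ) / (k + 1)) • Z) *
        fderiv ℂ (NormedSpace.exp : Mt m → Mt m) ((1 / (k + 1 : ℂ)) • Z) V)) atTop
      (𝓝 (trace (P * NormedSpace.exp Z * V))) := by
    have h1 : Tendsto (fun k : ℕ => (1 / (k + 1 : ℂ))) atTop (𝓝 0) :=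
      tendsto_one_div_add_atTop_nhds_zero_nat
    have h2 : Tendsto (fun k : ℕ => ((k : ℂ) / (k + 1))) atTop (𝓝 1) := by
      have : (fun k : ℕ => ((k : ℂ) / (k + 1))) = fun k : ℕ => 1 - 1 / (k + 1 : ℂ) := by
        funext k
        have hk : ((k : ℂ) + 1) ≠ 0 := by exact_mod_cast Nat.succ_ne_zero k
        field_simp
        ring
      rw [this]
      simpa using h1.const_sub 1
    have h3 : Continuous fun p : ℂ × ℂ => trace (P * NormedSpace.exp (p.1 • Z) *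
        fderiv ℂ (NormedSpace.exp : Mt m → Mt m) (p.2 • Z) V) := by
      have c1 : Continuous fun p : ℂ × ℂ => fderiv ℂ (NormedSpace.exp : Mt m → Mt m) (p.2 • Z) V :=
        (coef_fderiv_cont.comp (continuous_snd.smul continuous_const)).clm_apply continuous_const
      have c2 : Continuous fun p : ℂ × ℂ => P * NormedSpace.exp (p.1 • Z) :=
        continuous_const.mul (exp_cont.comp (continuous_fst.smul continuous_const))
      exact (c2.mul c1).matrix_trace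
    have h4 := (h3.tendsto ((1 : ℂ), (0 : ℂ))).comp (h2.prodMk_nhds h1)
    simp only [one_smul, zero_smul, coef_fderiv_zero] at h4
    exact h4
  have hc : Tendsto (fun _ : ℕ => trace (P * (fderiv ℂ (NormedSpace.exp : Mt m → Mt m) Z V))) atTop
      (𝓝 (trace (P * NormedSpace.exp Z * V))) := by
    refine hlim.congr fun k => (key k).symm
  exact tendsto_nhds_unique tendsto_const_nhds hc

/-- second order Taylor expansion -/
theorem coef_taylor {q p : ℂ → ℂ} {p1 : ℂ} {r : ℝ} (hr : 0 < r)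
    (hq : ∀ s : ℂ, ‖s‖ < r → HasDerivAt q (p s) s) (hp : HasDerivAt p p1 0) :
    Tendsto (fun s : ℂ => (q s - q 0 - p 0 * s) / s ^ 2) (𝓝[≠] 0) (𝓝 (p1 / 2)) := by
  rw [Metric.tendsto_nhdsWithin_nhds]
  intro ε hε
  have h1 := (hasDerivAt_iff_isLittleO_nhds_zero.1 hp).def (show (0 : ℝ) < ε / 2 by positivity)
  obtain ⟨ρ, hρ, h2⟩ := Metric.eventually_nhds_iff.1 h1
  refine ⟨min r ρ, lt_min hr hρ, fun {s} hs hsr => ?_⟩
  have hs0 : s ≠ 0 := hs
  rw [dist_zero_right] at hsr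
  have hsn : 0 < ‖s‖ := norm_pos_iff.2 hs0
  have hder : ∀ z ∈ Metric.closedBall (0 : ℂ) ‖s‖,
      HasDerivWithinAt (fun z => q z - q 0 - p 0 * z - p1 / 2 * z ^ 2) (p z - p 0 - p1 * z)
        (Metric.closedBall (0 : ℂ) ‖s‖) z := by
    intro z hz
    rw [mem_closedBall_zero_iff] at hz
    have hz' : ‖z‖ < r := lt_of_le_of_lt hz (hsr.trans_le (min_le_left _ _))
    have d1 := (((hq z hz').sub_const (q 0)).sub ((hasDerivAt_id z).const_mul (p 0))).sub
      (((hasDerivAt_id z).pow 2).const_mul (p1 / 2))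
    refine (d1.congr_deriv ?_).hasDerivWithinAt
    simp only [id]
    ring
  have hbd : ∀ z ∈ Metric.closedBall (0 : ℂ) ‖s‖, ‖p z - p 0 - p1 * z‖ ≤ ε / 2 * ‖s‖ := by
    intro z hz
    rw [mem_closedBall_zero_iff] at hz
    have hz' : ‖z‖ < ρ := lt_of_le_of_lt hz (hsr.trans_le (min_le_right _ _))
    have := h2 (y := z) (by rwa [dist_zero_right])
    rw [zero_add, smul_eq_mul, mul_comm z p1] at this
    exact this.trans (mul_le_mul_of_nonneg_left hz (by positivity))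
  have h3 := (convex_closedBall (0 : ℂ) ‖s‖).norm_image_sub_le_of_norm_hasDerivWithin_le hder hbd
    (x := 0) (y := s) (by simp) (by simp)
  simp only [sub_self, mul_zero, sub_zero, ne_eq, OfNat.ofNat_ne_zero, not_false_eq_true,
    zero_pow] at h3
  rw [dist_eq_norm]
  have e : (q s - q 0 - p 0 * s) / s ^ 2 - p1 / 2 =
      (q s - q 0 - p 0 * s - p1 / 2 * s ^ 2) / s ^ 2 := by
    field_simp
  rw [e, norm_div, norm_pow, div_lt_iff₀ (by positivity)]
  calc _ ≤ ε / 2 * ‖s‖ * ‖s‖ := h3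
    _ < ε * ‖s‖ ^ 2 := by nlinarith [mul_pos hsn hsn]

section curve

variable {G : Type} [Group G] [TopologicalSpace G] [IsTopologicalGroup G] [CompactSpace G]
  {L : RD G m} {D : LogData m} {ε δ : ℝ}

/-- the curve `log (exp (s A) exp η)` -/
def cvy (L : RD G m) (D : LogData m) (A η : gC L) (s : ℂ) : Mt m := ((bc L D (s • A) η : gC L) : Mt m)

theorem cvy_norm (A : gC L) {s : ℂ} (hs : ‖s‖ < δ / (‖A‖ + 1)) : ‖s • A‖ < δ := by
  have h1 : (0 : ℝ) < ‖A‖ + 1 := by positivity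
  rw [lt_div_iff₀ h1] at hs
  rw [norm_smul]
  nlinarith [norm_nonneg s]

theorem cvy_zero (ch : Chart L D ε δ) (A : gC L) {η : gC L} (hη : ‖η‖ < δ) :
    cvy L D A η 0 = (η : Mt m) := by
  unfold cvy
  rw [zero_smul, bc_zero_left ch hη]

theorem cvy_exp (ch : Chart L D ε δ) (A : gC L) {η : gC L} (hη : ‖η‖ < δ) {s : ℂ}
    (hs : ‖s‖ < δ / (‖A‖ + 1)) : NormedSpace.exp (cvy L D A η s) =
      NormedSpace.exp (s • (A : Mt m)) * NormedSpace.exp (η : Mt m) :=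
  exp_bc ch (cvy_norm A hs) hη

theorem cvy_diff (ch : Chart L D ε δ) (A : gC L) {η : gC L} (hη : ‖η‖ < δ) {s : ℂ}
    (hs : ‖s‖ < δ / (‖A‖ + 1)) : HasDerivAt (cvy L D A η) (deriv (cvy L D A η) s) s := by
  have h1 : DifferentiableAt ℂ (fun Z : gC L => bc L D Z η) (s • A) :=
    (bc_diff_left ch hη).differentiableAt
      (Metric.isOpen_ball.mem_nhds (by rw [mem_ball_zero_iff]; exact cvy_norm A hs))
  have h2 : DifferentiableAt ℂ (fun s : ℂ => s • A) s := by fun_prop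
  have h3 : DifferentiableAt ℂ (fun s : ℂ => bc L D (s • A) η) s :=
    DifferentiableAt.comp (g := fun Z : gC L => bc L D Z η) (f := fun s : ℂ => s • A) s h1 h2
  have h4 : DifferentiableAt ℂ (cvy L D A η) s :=
    ((gC L).subtypeL.differentiableAt).comp s h3
  exact h4.hasDerivAt

/-- the equation of the derivative -/
theorem cvy_eq (ch : Chart L D ε δ) (A : gC L) {η : gC L} (hη : ‖η‖ < δ) {s : ℂ}
    (hs : ‖s‖ < δ / (‖A‖ + 1)) :
    fderiv ℂ (NormedSpace.exp : Mt m → Mt m) (cvy L D A η s) (deriv (cvy L D A η) s) =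
      (A : Mt m) * NormedSpace.exp (cvy L D A η s) := by
  have h1 : HasDerivAt (fun s => NormedSpace.exp (cvy L D A η s))
      (fderiv ℂ (NormedSpace.exp : Mt m → Mt m) (cvy L D A η s) (deriv (cvy L D A η) s)) s :=
    (exp_diff _).hasFDerivAt.comp_hasDerivAt s (cvy_diff ch A hη hs)
  have h2 : HasDerivAt (fun s : ℂ => NormedSpace.exp (s • (A : Mt m)) * NormedSpace.exp (η : Mt m))
      ((A : Mt m) * NormedSpace.exp (s • (A : Mt m)) * NormedSpace.exp (η : Mt m)) s :=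
    (hasDerivAt_exp_smul_const' (𝕂 := ℂ) (A : Mt m) s).mul_const _
  have h3 : (fun s => NormedSpace.exp (cvy L D A η s)) =ᶠ[𝓝 s]
      fun s : ℂ => NormedSpace.exp (s • (A : Mt m)) * NormedSpace.exp (η : Mt m) := by
    have : ∀ᶠ t : ℂ in 𝓝 s, ‖t‖ < δ / (‖A‖ + 1) :=
      (continuous_norm.tendsto s).eventually_lt_const hs
    exact this.mono fun t ht => cvy_exp ch A hη ht
  have h4 := h1.unique (h2.congr_of_eventuallyEq h3)
  rw [h4, cvy_exp ch A hη hs, mul_assoc]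

/-- **the radial component of the derivative** (Gauss lemma) -/
theorem cvy_gauss (ch : Chart L D ε δ) (A : gC L) {η : gC L} (hη : ‖η‖ < δ) {s : ℂ}
    (hs : ‖s‖ < δ / (‖A‖ + 1)) :
    trace (cvy L D A η s * deriv (cvy L D A η) s) = trace (cvy L D A η s * (A : Mt m)) := by
  set y := cvy L D A η s with hy
  set y' := deriv (cvy L D A η) s with hy'
  have hc : (y * NormedSpace.exp (-y)) * y = y * (y * NormedSpace.exp (-y)) := by
    have h1 : Commute y (NormedSpace.exp (-y)) := ((Commute.refl y).neg_right).exp_right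
    rw [mul_assoc, ← h1.eq]
  have h1 := trace_fderiv_exp y y' (y * NormedSpace.exp (-y)) hc
  have h2 := cvy_eq ch A hη hs
  rw [← hy, ← hy'] at h2
  rw [h2] at h1
  have e1 : y * NormedSpace.exp (-y) * NormedSpace.exp y * y' = y * y' := by
    rw [mul_assoc y, exp_neg_mul_exp, mul_one]
  have e2 : trace (y * NormedSpace.exp (-y) * ((A : Mt m) * NormedSpace.exp y)) =
      trace (y * (A : Mt m)) := by
    rw [← mul_assoc, trace_mul_comm, ← mul_assoc, ← mul_assoc]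
    have h3 : Commute y (NormedSpace.exp y) := (Commute.refl y).exp_right
    rw [← h3.eq, mul_assoc y, exp_mul_exp_neg, mul_one]
  rw [e1, e2] at h1
  exact h1.symm

theorem cvy_q_deriv (ch : Chart L D ε δ) (A : gC L) {η : gC L} (hη : ‖η‖ < δ) {s : ℂ}
    (hs : ‖s‖ < δ / (‖A‖ + 1)) :
    HasDerivAt (fun s => Qf (cvy L D A η s)) (-2 * trace (cvy L D A η s * (A : Mt m))) s := by
  have h1 := cvy_diff ch A hη hs
  have h2 := h1.mul h1
  have h3 : HasDerivAt (fun s => trace (cvy L D A η s * cvy L D A η s))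
      (trace (deriv (cvy L D A η) s * cvy L D A η s + cvy L D A η s * deriv (cvy L D A η) s)) s := by
    have := (LinearMap.toContinuousLinearMap (Matrix.traceLinearMap m ℂ ℂ)).hasFDerivAt
      (x := cvy L D A η s * cvy L D A η s) |>.comp_hasDerivAt s h2
    exact this
  refine (h3.neg).congr_deriv ?_
  rw [trace_add, trace_mul_comm (deriv (cvy L D A η) s), cvy_gauss ch A hη hs]
  ring

/-- the second order expansion of the quadratic form along the curve -/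
theorem cvy_taylor (ch : Chart L D ε δ) (A : gC L) {η : gC L} (hη : ‖η‖ < δ) :
    Tendsto (fun s : ℂ => (Qf (cvy L D A η s) - Qf (η : Mt m) -
      (-2 * trace ((η : Mt m) * (A : Mt m))) * s) / s ^ 2) (𝓝[≠] 0)
      (𝓝 (-trace (deriv (cvy L D A η) 0 * (A : Mt m)))) := by
  have hδ : 0 < δ / (‖A‖ + 1) := div_pos ch.pos (by positivity)
  have h0 : ‖(0 : ℂ)‖ < δ / (‖A‖ + 1) := by rw [norm_zero]; exact hδ
  have h1 := cvy_diff ch A hη h0
  have h2 := (h1.mul_const (A : Mt m))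
  have h3 : HasDerivAt (fun s => -2 * trace (cvy L D A η s * (A : Mt m)))
      (-2 * trace (deriv (cvy L D A η) 0 * (A : Mt m))) 0 := by
    have := (LinearMap.toContinuousLinearMap (Matrix.traceLinearMap m ℂ ℂ)).hasFDerivAt
      (x := cvy L D A η 0 * (A : Mt m)) |>.comp_hasDerivAt 0 h2
    exact this.const_mul (-2)
  have h4 := coef_taylor (q := fun s => Qf (cvy L D A η s))
    (p := fun s => -2 * trace (cvy L D A η s * (A : Mt m))) hδ
    (fun s hs => cvy_q_deriv ch A hη hs) h3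
  rw [cvy_zero ch A hη] at h4
  convert h4 using 2
  ring

end curve

/-! ### expansion of the derivative of the exponential -/

theorem coef_norm_pow_mul (Z V : Mt m) (n : ℕ) : ‖Z ^ n * V‖ ≤ ‖Z‖ ^ n * ‖V‖ := by
  induction n with
  | zero => simp
  | succ n ih =>
    rw [pow_succ', mul_assoc]
    calc ‖Z * (Z ^ n * V)‖ ≤ ‖Z‖ * ‖Z ^ n * V‖ := norm_mul_le _ _
      _ ≤ ‖Z‖ * (‖Z‖ ^ n * ‖V‖) := mul_le_mul_of_nonneg_left ih (norm_nonneg _)
      _ = ‖Z‖ ^ (n + 1) * ‖V‖ := by ring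

theorem coef_pow_sub (Z W : Mt m) {r : ℝ} (hZ : ‖Z‖ ≤ r) (hW : ‖W‖ ≤ r) (n : ℕ) :
    ‖Z ^ (n + 1) - W ^ (n + 1)‖ ≤ (n + 1) * r ^ n * ‖Z - W‖ := by
  have hr : 0 ≤ r := (norm_nonneg _).trans hZ
  induction n with
  | zero => simp
  | succ n ih =>
    have e : Z ^ (n + 1 + 1) - W ^ (n + 1 + 1) =
        Z ^ (n + 1) * (Z - W) + (Z ^ (n + 1) - W ^ (n + 1)) * W := by
      rw [pow_succ Z (n + 1), pow_succ W (n + 1)]
      noncomm_ring
    rw [e]
    calc _ ≤ ‖Z ^ (n + 1) * (Z - W)‖ + ‖(Z ^ (n + 1) - W ^ (n + 1)) * W‖ := norm_add_le _ _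
      _ ≤ r ^ (n + 1) * ‖Z - W‖ + ((n + 1) * r ^ n * ‖Z - W‖) * r := by
          refine add_le_add ((coef_norm_pow_mul _ _ _).trans ?_) ((norm_mul_le _ _).trans ?_)
          · exact mul_le_mul_of_nonneg_right (pow_le_pow_left₀ (norm_nonneg _) hZ _) (norm_nonneg _)
          · exact mul_le_mul ih hW (norm_nonneg _) (by positivity)
      _ = _ := by push_cast; ring

/-- the remainder of order four of the exponential -/
def expE (Z : Mt m) : Mt m :=
  NormedSpace.exp Z - (1 + Z + (1 / 2 : ℂ) • (Z * Z) + (1 / 6 : ℂ) • (Z * Z * Z))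

theorem expE_eq (Z : Mt m) : HasSum (fun n : ℕ => ((n + 4).factorial⁻¹ : ℂ) • Z ^ (n + 4))
    (expE Z) := by
  have h1 : HasSum (fun n : ℕ => (n.factorial⁻¹ : ℂ) • Z ^ n) (NormedSpace.exp Z) := by
    have := NormedSpace.exp_series_hasSum_exp' (𝕂 := ℂ) Z
    exact this
  have h2 := (hasSum_nat_add_iff' (f := fun n : ℕ => (n.factorial⁻¹ : ℂ) • Z ^ n) 4).2 h1
  have h3 : expE Z = NormedSpace.exp Z -
      ∑ i ∈ Finset.range 4, (i.factorial⁻¹ : ℂ) • Z ^ i := by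
    unfold expE
    simp only [Finset.sum_range_succ, Finset.sum_range_zero, zero_add, Nat.factorial, pow_zero,
      pow_succ, one_mul]
    norm_num
  rw [h3]
  exact h2

theorem expE_lip (Z W : Mt m) {r : ℝ} (hr1 : r ≤ 1) (hZ : ‖Z‖ ≤ r) (hW : ‖W‖ ≤ r) :
    ‖expE Z - expE W‖ ≤ 3 * r ^ 3 * ‖Z - W‖ := by
  have hr : 0 ≤ r := (norm_nonneg _).trans hZ
  have h1 := (expE_eq Z).sub (expE_eq W)
  have h2 : ∀ n : ℕ, ‖((n + 4).factorial⁻¹ : ℂ) • Z ^ (n + 4) - ((n + 4).factorial⁻¹ : ℂ) • W ^ (n + 4)‖ ≤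
      (n.factorial : ℝ)⁻¹ * (r ^ 3 * ‖Z - W‖) := by
    intro n
    rw [← smul_sub, norm_smul, norm_inv, Complex.norm_natCast]
    have h3 := coef_pow_sub Z W hZ hW (n + 3)
    have h4 : ((n + 4).factorial : ℝ)⁻¹ * (((n + 3 : ℕ) + 1 : ℝ) * r ^ (n + 3) * ‖Z - W‖) =
        ((n + 3).factorial : ℝ)⁻¹ * (r ^ (n + 3) * ‖Z - W‖) := by
      have : ((n + 4).factorial : ℝ) = ((n + 3 : ℕ) + 1 : ℝ) * ((n + 3).factorial : ℝ) := by
        rw [show n + 4 = (n + 3) + 1 from rfl, Nat.factorial_succ]; push_cast; ring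
      rw [this]
      have e1 : (0 : ℝ) < ((n + 3 : ℕ) + 1 : ℝ) := by positivity
      have e2 : (0 : ℝ) < ((n + 3).factorial : ℝ) := by positivity
      field_simp
    calc _ ≤ ((n + 4).factorial : ℝ)⁻¹ * (((n + 3 : ℕ) + 1 : ℝ) * r ^ (n + 3) * ‖Z - W‖) :=
          mul_le_mul_of_nonneg_left h3 (by positivity)
      _ = ((n + 3).factorial : ℝ)⁻¹ * (r ^ (n + 3) * ‖Z - W‖) := h4
      _ ≤ (n.factorial : ℝ)⁻¹ * (r ^ 3 * ‖Z - W‖) := by
          refine mul_le_mul ?_ ?_ (by positivity) (by positivity)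
          · refine inv_anti₀ (by positivity) ?_
            exact_mod_cast Nat.factorial_le (by omega)
          · refine mul_le_mul_of_nonneg_right ?_ (norm_nonneg _)
            exact pow_le_pow_of_le_one hr hr1 (by omega)
  have h5 : HasSum (fun n : ℕ => (n.factorial : ℝ)⁻¹ * (r ^ 3 * ‖Z - W‖))
      (Real.exp 1 * (r ^ 3 * ‖Z - W‖)) := by
    refine HasSum.mul_right _ ?_
    have := NormedSpace.exp_series_hasSum_exp' (𝕂 := ℝ) (1 : ℝ)
    rw [← Real.exp_eq_exp_ℝ] at this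
    simpa using this
  have h6 := h1.norm_le_of_bounded h5 h2
  calc _ ≤ Real.exp 1 * (r ^ 3 * ‖Z - W‖) := h6
    _ ≤ 3 * (r ^ 3 * ‖Z - W‖) := mul_le_mul_of_nonneg_right (by
        have := Real.exp_one_lt_d9; linarith) (by positivity)
    _ = _ := by ring

theorem expE_zero : expE (0 : Mt m) = 0 := by
  unfold expE
  simp

/-- the third order Taylor polynomial of the derivative of the exponential -/
def expT (η V : Mt m) : Mt m :=
  V + (1 / 2 : ℂ) • (η * V + V * η) + (1 / 6 : ℂ) • (η * η * V + η * V * η + V * η * η)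

theorem expT_deriv (η V : Mt m) : HasDerivAt (fun h : ℂ => expE (η + h • V))
    (fderiv ℂ (NormedSpace.exp : Mt m → Mt m) η V - expT η V) 0 := by
  have h1 := coef_curve η V
  have h2 : HasDerivAt (fun h : ℂ => η + h • V) V 0 := by
    have h := ((hasDerivAt_id (0 : ℂ)).smul_const V).const_add η
    rw [one_smul] at h
    exact h
  have h3 := h2.mul h2
  have h4 := h3.mul h2
  have h5 := ((h2.const_add 1).add (h3.const_smul (1 / 2 : ℂ))).add (h4.const_smul (1 / 6 : ℂ))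
  have h6 := h1.sub h5
  refine h6.congr_deriv ?_
  unfold expT
  simp only [zero_smul, add_zero, Pi.mul_apply]
  congr 1
  rw [add_comm (V * η) (η * V)]
  congr 2
  simp only [add_mul, mul_assoc]
  abel

theorem expT_le {η : Mt m} (hη : 2 * ‖η‖ ≤ 1) (V : Mt m) :
    ‖fderiv ℂ (NormedSpace.exp : Mt m → Mt m) η V - expT η V‖ ≤ 24 * ‖η‖ ^ 3 * ‖V‖ := by
  by_cases h0 : η = 0
  · subst h0
    rw [coef_fderiv_zero]
    unfold expT
    simp
  · have hp : 0 < ‖η‖ := norm_pos_iff.2 h0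
    refine (expT_deriv η V).le_of_lip' (by positivity) ?_
    have h1 : ∀ᶠ h : ℂ in 𝓝 0, ‖η + h • V‖ < 2 * ‖η‖ := by
      have : Tendsto (fun h : ℂ => ‖η + h • V‖) (𝓝 0) (𝓝 ‖η‖) := by
        have h2 : Continuous fun h : ℂ => ‖η + h • V‖ := by fun_prop
        have := h2.tendsto 0
        simpa using this
      exact this.eventually_lt_const (by linarith)
    filter_upwards [h1] with h hh
    have := expE_lip (η + h • V) η hη hh.le (by linarith)
    rw [zero_smul, add_zero, sub_zero]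
    refine this.trans (le_of_eq ?_)
    rw [add_sub_cancel_left, norm_smul]
    ring

theorem coef_norm3 (a b c : Mt m) : ‖a * b * c‖ ≤ ‖a‖ * ‖b‖ * ‖c‖ :=
  (norm_mul_le _ _).trans (mul_le_mul_of_nonneg_right (norm_mul_le _ _) (norm_nonneg _))

theorem expT_sub_le {η : Mt m} (V : Mt m) :
    ‖expT η V - V‖ ≤ (‖η‖ + ‖η‖ ^ 2 / 2) * ‖V‖ := by
  unfold expT
  have e : V + (1 / 2 : ℂ) • (η * V + V * η) + (1 / 6 : ℂ) • (η * η * V + η * V * η + V * η * η) - V =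
      (1 / 2 : ℂ) • (η * V + V * η) + (1 / 6 : ℂ) • (η * η * V + η * V * η + V * η * η) := by abel
  rw [e]
  have n2 : ‖(1 / 2 : ℂ)‖ = 1 / 2 := by simp
  have n6 : ‖(1 / 6 : ℂ)‖ = 1 / 6 := by simp
  have a1 := norm_mul_le η V
  have a2 := norm_mul_le V η
  have a3 := coef_norm3 η η V
  have a4 := coef_norm3 η V η
  have a5 := coef_norm3 V η η
  calc _ ≤ ‖(1 / 2 : ℂ) • (η * V + V * η)‖ +
        ‖(1 / 6 : ℂ) • (η * η * V + η * V * η + V * η * η)‖ := norm_add_le _ _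
    _ ≤ 1 / 2 * (‖η * V‖ + ‖V * η‖) +
        1 / 6 * (‖η * η * V‖ + ‖η * V * η‖ + ‖V * η * η‖) := by
        rw [norm_smul, norm_smul, n2, n6]
        refine add_le_add (mul_le_mul_of_nonneg_left (norm_add_le _ _) (by norm_num))
          (mul_le_mul_of_nonneg_left ((norm_add_le _ _).trans (add_le_add (norm_add_le _ _) le_rfl))
            (by norm_num))
    _ ≤ 1 / 2 * (‖η‖ * ‖V‖ + ‖V‖ * ‖η‖) +
        1 / 6 * (‖η‖ * ‖η‖ * ‖V‖ + ‖η‖ * ‖V‖ * ‖η‖ + ‖V‖ * ‖η‖ * ‖η‖) := by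
        gcongr
    _ = _ := by ring

/-- the derivative of the exponential near `0` is almost the identity -/
theorem exp_deriv_inv {η : Mt m} (hη : 8 * ‖η‖ ≤ 1) (V : Mt m) :
    ‖V‖ ≤ 2 * ‖fderiv ℂ (NormedSpace.exp : Mt m → Mt m) η V‖ := by
  have h0 := norm_nonneg η
  have hV := norm_nonneg V
  have h1 := expT_le (by linarith : 2 * ‖η‖ ≤ 1) V
  have h2 := expT_sub_le (η := η) V
  have h3 : ‖fderiv ℂ (NormedSpace.exp : Mt m → Mt m) η V - V‖ ≤ 1 / 2 * ‖V‖ := by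
    have e : fderiv ℂ (NormedSpace.exp : Mt m → Mt m) η V - V =
        (fderiv ℂ (NormedSpace.exp : Mt m → Mt m) η V - expT η V) + (expT η V - V) := by abel
    rw [e]
    refine (norm_add_le _ _).trans ((add_le_add h1 h2).trans ?_)
    rw [← add_mul]
    refine mul_le_mul_of_nonneg_right ?_ hV
    have h4 : ‖η‖ ≤ 1 / 8 := by linarith
    have h5 : ‖η‖ ^ 2 ≤ 1 / 64 := by nlinarith
    have h6 : ‖η‖ ^ 3 ≤ 1 / 512 := by
      have : ‖η‖ ^ 3 = ‖η‖ ^ 2 * ‖η‖ := by ring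
      rw [this]
      nlinarith [sq_nonneg ‖η‖]
    linarith
  have h4 : ‖V‖ ≤ ‖fderiv ℂ (NormedSpace.exp : Mt m → Mt m) η V‖ +
      ‖fderiv ℂ (NormedSpace.exp : Mt m → Mt m) η V - V‖ := by
    have := norm_sub_le (fderiv ℂ (NormedSpace.exp : Mt m → Mt m) η V)
      (fderiv ℂ (NormedSpace.exp : Mt m → Mt m) η V - V)
    rwa [sub_sub_cancel] at this
  linarith

/-- first order term -/
def bB1 (η A : Mt m) : Mt m := (-(1 / 2) : ℂ) • (η * A - A * η)

/-- second order term -/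
def bB2 (η A : Mt m) : Mt m := (1 / 12 : ℂ) • (η * η * A - (2 : ℂ) • (η * A * η) + A * η * η)

theorem expT_V0 (η A : Mt m) : expT η (A + bB1 η A + bB2 η A) =
    A + A * η + (1 / 2 : ℂ) • (A * η * η) +
      ((1 / 2 : ℂ) • (η * bB2 η A + bB2 η A * η) +
        (1 / 6 : ℂ) • (η * η * bB1 η A + η * bB1 η A * η + bB1 η A * η * η) +
        (1 / 6 : ℂ) • (η * η * bB2 η A + η * bB2 η A * η + bB2 η A * η * η)) := by
  unfold expT bB1 bB2
  simp only [mul_add, add_mul, mul_sub, sub_mul, smul_mul_assoc, mul_smul_comm, smul_add, smul_sub,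
    smul_smul, mul_assoc]
  module

theorem norm_bB1 (η A : Mt m) : ‖bB1 η A‖ ≤ ‖η‖ * ‖A‖ := by
  unfold bB1
  rw [norm_smul]
  have n2 : ‖(-(1 / 2) : ℂ)‖ = 1 / 2 := by rw [norm_neg]; simp
  rw [n2]
  have a1 := norm_mul_le η A
  have a2 := norm_mul_le A η
  have := norm_sub_le (η * A) (A * η)
  nlinarith

theorem norm_bB2 (η A : Mt m) : ‖bB2 η A‖ ≤ ‖η‖ ^ 2 * ‖A‖ / 3 := by
  unfold bB2
  rw [norm_smul]
  have n2 : ‖(1 / 12 : ℂ)‖ = 1 / 12 := by simp
  have n3 : ‖(2 : ℂ)‖ = 2 := by simp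
  rw [n2]
  have a1 := coef_norm3 η η A
  have a2 := coef_norm3 η A η
  have a3 := coef_norm3 A η η
  have h : ‖η * η * A - (2 : ℂ) • (η * A * η) + A * η * η‖ ≤
      ‖η * η * A‖ + 2 * ‖η * A * η‖ + ‖A * η * η‖ := by
    refine (norm_add_le _ _).trans (add_le_add ((norm_sub_le _ _).trans (add_le_add le_rfl ?_)) le_rfl)
    rw [norm_smul, n3]
  nlinarith

theorem norm_X3 {η : Mt m} (hη : ‖η‖ ≤ 1) (A : Mt m) :
    ‖(1 / 2 : ℂ) • (η * bB2 η A + bB2 η A * η) +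
        (1 / 6 : ℂ) • (η * η * bB1 η A + η * bB1 η A * η + bB1 η A * η * η) +
        (1 / 6 : ℂ) • (η * η * bB2 η A + η * bB2 η A * η + bB2 η A * η * η)‖ ≤
      ‖η‖ ^ 3 * ‖A‖ := by
  have n2 : ‖(1 / 2 : ℂ)‖ = 1 / 2 := by simp
  have n6 : ‖(1 / 6 : ℂ)‖ = 1 / 6 := by simp
  have h0 := norm_nonneg η
  have hA := norm_nonneg A
  have b1 := norm_bB1 η A
  have b2 := norm_bB2 η A
  set x := ‖η‖ with hx
  set B1 := bB1 η A
  set B2 := bB2 η A
  have t1 : ‖(1 / 2 : ℂ) • (η * B2 + B2 * η)‖ ≤ x * ‖B2‖ := by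
    rw [norm_smul, n2]
    have := norm_add_le (η * B2) (B2 * η)
    have a1 := norm_mul_le η B2
    have a2 := norm_mul_le B2 η
    rw [← hx] at a1 a2
    linarith
  have t2 : ∀ B : Mt m, ‖(1 / 6 : ℂ) • (η * η * B + η * B * η + B * η * η)‖ ≤ x ^ 2 * ‖B‖ / 2 := by
    intro B
    rw [norm_smul, n6]
    have := norm_add_le (η * η * B + η * B * η) (B * η * η)
    have := norm_add_le (η * η * B) (η * B * η)
    have a1 := coef_norm3 η η B
    have a2 := coef_norm3 η B η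
    have a3 := coef_norm3 B η η
    rw [← hx] at a1 a2 a3
    nlinarith
  have t3 := t2 B1
  have t4 := t2 B2
  have s1 : x * ‖B2‖ ≤ x * (x ^ 2 * ‖A‖ / 3) := mul_le_mul_of_nonneg_left b2 h0
  have s2 : x ^ 2 * ‖B1‖ / 2 ≤ x ^ 2 * (x * ‖A‖) / 2 := by
    have := mul_le_mul_of_nonneg_left b1 (sq_nonneg x)
    linarith
  have s3 : x ^ 2 * ‖B2‖ / 2 ≤ x ^ 2 * (x ^ 2 * ‖A‖ / 3) / 2 := by
    have := mul_le_mul_of_nonneg_left b2 (sq_nonneg x)
    linarith
  have s4 : x ^ 2 * (x ^ 2 * ‖A‖ / 3) / 2 ≤ x ^ 3 * ‖A‖ / 6 := by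
    have : x ^ 4 * ‖A‖ ≤ x ^ 3 * ‖A‖ := by
      refine mul_le_mul_of_nonneg_right ?_ hA
      exact pow_le_pow_of_le_one h0 hη (by norm_num)
    nlinarith
  calc _ ≤ ‖(1 / 2 : ℂ) • (η * B2 + B2 * η)‖ +
        ‖(1 / 6 : ℂ) • (η * η * B1 + η * B1 * η + B1 * η * η)‖ +
        ‖(1 / 6 : ℂ) • (η * η * B2 + η * B2 * η + B2 * η * η)‖ :=
        (norm_add_le _ _).trans (add_le_add (norm_add_le _ _) le_rfl)
    _ ≤ x * (x ^ 2 * ‖A‖ / 3) + x ^ 2 * (x * ‖A‖) / 2 + x ^ 3 * ‖A‖ / 6 := by linarith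
    _ = x ^ 3 * ‖A‖ := by ring

theorem exp_rem3 {η : Mt m} (hη : ‖η‖ ≤ 1) (A : Mt m) :
    ‖A * NormedSpace.exp η - (A + A * η + (1 / 2 : ℂ) • (A * η * η))‖ ≤ 4 * ‖η‖ ^ 3 * ‖A‖ := by
  have h0 := norm_nonneg η
  have h1 := expE_lip η 0 hη le_rfl (by rw [norm_zero]; exact h0)
  rw [expE_zero, sub_zero, sub_zero] at h1
  have e : A * NormedSpace.exp η - (A + A * η + (1 / 2 : ℂ) • (A * η * η)) =
      A * expE η + (1 / 6 : ℂ) • (A * (η * η * η)) := by
    unfold expE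
    simp only [mul_add, mul_sub, mul_smul_comm, mul_one, mul_assoc]
    abel
  rw [e]
  have n6 : ‖(1 / 6 : ℂ)‖ = 1 / 6 := by simp
  have h2 : ‖A * expE η‖ ≤ ‖A‖ * (3 * ‖η‖ ^ 3 * ‖η‖) :=
    (norm_mul_le _ _).trans (mul_le_mul_of_nonneg_left h1 (norm_nonneg _))
  have h3 : ‖A * (η * η * η)‖ ≤ ‖A‖ * ‖η‖ ^ 3 := by
    refine (norm_mul_le _ _).trans (mul_le_mul_of_nonneg_left ?_ (norm_nonneg _))
    refine (coef_norm3 _ _ _).trans (le_of_eq (by ring))
  have h4 : ‖A‖ * (3 * ‖η‖ ^ 3 * ‖η‖) ≤ 3 * (‖η‖ ^ 3 * ‖A‖) := by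
    have : ‖η‖ ^ 3 * ‖η‖ ≤ ‖η‖ ^ 3 := mul_le_of_le_one_right (by positivity) hη
    nlinarith [norm_nonneg A]
  calc _ ≤ ‖A * expE η‖ + ‖(1 / 6 : ℂ) • (A * (η * η * η))‖ := norm_add_le _ _
    _ ≤ 3 * (‖η‖ ^ 3 * ‖A‖) + 1 / 6 * (‖A‖ * ‖η‖ ^ 3) := by
        rw [norm_smul, n6]
        refine add_le_add (h2.trans h4) (mul_le_mul_of_nonneg_left h3 (by norm_num))
    _ ≤ 4 * ‖η‖ ^ 3 * ‖A‖ := by
        have : 0 ≤ ‖η‖ ^ 3 * ‖A‖ := by positivity
        nlinarith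

/-- **the expansion of the logarithmic derivative** -/
theorem log_deriv_expand {η : Mt m} (hη : 8 * ‖η‖ ≤ 1) {A Y : Mt m}
    (hY : fderiv ℂ (NormedSpace.exp : Mt m → Mt m) η Y = A * NormedSpace.exp η) :
    ‖Y - (A + bB1 η A + bB2 η A)‖ ≤ 160 * ‖η‖ ^ 3 * ‖A‖ := by
  have h0 := norm_nonneg η
  have hA := norm_nonneg A
  have hη1 : ‖η‖ ≤ 1 := by linarith
  set V := A + bB1 η A + bB2 η A with hV
  have h1 := exp_deriv_inv hη (Y - V)
  rw [map_sub, hY] at h1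
  have h2 := exp_rem3 hη1 A
  have h3 := norm_X3 hη1 A
  have h4 := expT_le (by linarith : 2 * ‖η‖ ≤ 1) V
  have hVn : ‖V‖ ≤ 2 * ‖A‖ := by
    have b1 := norm_bB1 η A
    have b2 := norm_bB2 η A
    have c1 := norm_add_le (A + bB1 η A) (bB2 η A)
    have c2 := norm_add_le A (bB1 η A)
    have c3 : ‖η‖ * ‖A‖ ≤ 1 / 8 * ‖A‖ := mul_le_mul_of_nonneg_right (by linarith) hA
    have c4 : ‖η‖ ^ 2 * ‖A‖ ≤ 1 * ‖A‖ := mul_le_mul_of_nonneg_right (by nlinarith) hA
    linarith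
  have e : A * NormedSpace.exp η - fderiv ℂ (NormedSpace.exp : Mt m → Mt m) η V =
      (A * NormedSpace.exp η - (A + A * η + (1 / 2 : ℂ) • (A * η * η))) -
      ((1 / 2 : ℂ) • (η * bB2 η A + bB2 η A * η) +
        (1 / 6 : ℂ) • (η * η * bB1 η A + η * bB1 η A * η + bB1 η A * η * η) +
        (1 / 6 : ℂ) • (η * η * bB2 η A + η * bB2 η A * η + bB2 η A * η * η)) -
      (fderiv ℂ (NormedSpace.exp : Mt m → Mt m) η V - expT η V) := by
    have := expT_V0 η A
    rw [← hV] at this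
    rw [this]
    abel
  rw [e] at h1
  have h5 := norm_sub_le ((A * NormedSpace.exp η - (A + A * η + (1 / 2 : ℂ) • (A * η * η))) -
      ((1 / 2 : ℂ) • (η * bB2 η A + bB2 η A * η) +
        (1 / 6 : ℂ) • (η * η * bB1 η A + η * bB1 η A * η + bB1 η A * η * η) +
        (1 / 6 : ℂ) • (η * η * bB2 η A + η * bB2 η A * η + bB2 η A * η * η)))
      (fderiv ℂ (NormedSpace.exp : Mt m → Mt m) η V - expT η V)
  have h6 := norm_sub_le (A * NormedSpace.exp η - (A + A * η + (1 / 2 : ℂ) • (A * η * η)))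
      ((1 / 2 : ℂ) • (η * bB2 η A + bB2 η A * η) +
        (1 / 6 : ℂ) • (η * η * bB1 η A + η * bB1 η A * η + bB1 η A * η * η) +
        (1 / 6 : ℂ) • (η * η * bB2 η A + η * bB2 η A * η + bB2 η A * η * η))
  have h7 : 24 * ‖η‖ ^ 3 * ‖V‖ ≤ 24 * ‖η‖ ^ 3 * (2 * ‖A‖) :=
    mul_le_mul_of_nonneg_left hVn (by positivity)
  have h8 : 0 ≤ ‖η‖ ^ 3 * ‖A‖ := by positivity
  nlinarith

theorem norm_trace_mul_le (U V : Mt m) : ‖trace (U * V)‖ ≤ ‖U‖ * ‖V‖ := by
  have hU : ∀ U : Mt m, ‖U‖ = √(∑ p : m × m, ‖U p.1 p.2‖ ^ 2) := by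
    intro U
    rw [Matrix.frobenius_norm_def, ← Real.sqrt_eq_rpow, Fintype.sum_prod_type]
    congr 1
    norm_num
  have hV : ‖V‖ = √(∑ p : m × m, ‖V p.2 p.1‖ ^ 2) := by
    rw [hU V]
    congr 1
    rw [Fintype.sum_prod_type, Fintype.sum_prod_type, Finset.sum_comm]
  rw [hU U, hV]
  have h1 : trace (U * V) = ∑ p : m × m, U p.1 p.2 * V p.2 p.1 := by
    rw [Fintype.sum_prod_type]
    simp only [trace, diag, mul_apply]
  rw [h1]
  refine (norm_sum_le _ _).trans ?_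
  have h2 : ∀ p : m × m, ‖U p.1 p.2 * V p.2 p.1‖ = ‖U p.1 p.2‖ * ‖V p.2 p.1‖ := fun p => norm_mul _ _
  simp only [h2]
  exact Real.sum_mul_le_sqrt_mul_sqrt _ _ _

section final

variable {G : Type} [Group G] [TopologicalSpace G] [IsTopologicalGroup G] [CompactSpace G]
  (L : RD G m)

theorem coef_Qf_smul (s : ℂ) (Z : Mt m) : Qf (s • Z) = s ^ 2 * Qf Z := by
  unfold Qf
  rw [smul_mul_smul_comm, trace_smul, smul_eq_mul]
  ring

theorem coef_Qf_neg (Z : Mt m) : Qf (-Z) = Qf Z := by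
  unfold Qf
  rw [neg_mul_neg]

theorem coef_Qf_real {Z : Mt m} (hZ : Zᴴ = -Z) : (Qf Z).im = 0 := by
  unfold Qf
  rw [Complex.neg_im, trace_skew_real hZ hZ, neg_zero]

theorem coef_alg {s u v w x y : ℂ} (hs : s ≠ 0) :
    (u - w - -2 * y * s) / s ^ 2 + (v - w - -2 * -y * s) / s ^ 2 - 2 * x =
      (u + v - 2 * (s ^ 2 * x) - 2 * w) / s ^ 2 := by
  field_simp
  ring

variable {L} in
theorem coef_lim {D : LogData m} (X : gC L) {η : gC L} {A : gC L} (hA : (1 / 2 : ℂ) • X = A) {l1 l2 : ℂ}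
    (h1 : Tendsto (fun s : ℂ => (Qf (cvy L D A η s) - Qf (η : Mt m) -
      (-2 * trace ((η : Mt m) * (A : Mt m))) * s) / s ^ 2) (𝓝[≠] 0)
      (𝓝 l1))
    (h2 : Tendsto (fun s : ℂ => (Qf (cvy L D A (-η) s) - Qf ((-η : gC L) : Mt m) -
      (-2 * trace (((-η : gC L) : Mt m) * (A : Mt m))) * s) / s ^ 2) (𝓝[≠] 0)
      (𝓝 l2)) :
    Tendsto (fun s : ℂ => sdf D (fun Z : gC L => Qf (Z : Mt m)) (s • X) η / s ^ 2) (𝓝[≠] 0)
      (𝓝 (l1 + l2 - 2 * Qf (A : Mt m))) := by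
  have h3 := (h1.add h2).sub_const (2 * Qf (A : Mt m))
  refine h3.congr' ?_
  filter_upwards [self_mem_nhdsWithin] with s hs
  have hs0 : s ≠ 0 := hs
  have e1 : (1 / 2 : ℂ) • (s • X) = s • A := by rw [← hA]; exact smul_comm _ _ _
  have e2 : Qf ((s • A : gC L) : Mt m) = s ^ 2 * Qf (A : Mt m) := by
    rw [Submodule.coe_smul, coef_Qf_smul]
  have e3 : Qf ((-η : gC L) : Mt m) = Qf (η : Mt m) := by
    rw [NegMemClass.coe_neg, coef_Qf_neg]
  have e4 : trace (((-η : gC L) : Mt m) * (A : Mt m)) = -trace ((η : Mt m) * (A : Mt m)) := by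
    rw [NegMemClass.coe_neg, neg_mul, trace_neg]
  have e5 : sdf D (fun Z : gC L => Qf (Z : Mt m)) (s • X) η =
      (Qf (cvy L D A η s) + Qf (cvy L D A (-η) s) - 2 * Qf ((s • A : gC L) : Mt m) -
    2 * Qf (η : Mt m)) := by
    unfold sdf
    rw [e1]
    rfl
  rw [e5, e2, e3, e4]
  exact coef_alg hs0

variable {L} in
theorem coef_skew {D : LogData m} {ε δ : ℝ} (ch : Chart L D ε δ) {A η : gC L}
    (hA : imP (A : Mt m) = 0) (hη : imP (η : Mt m) = 0) (hA1 : ‖A‖ < δ) (hη1 : ‖η‖ < δ)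
    (hn : ‖NormedSpace.exp (A : Mt m) * NormedSpace.exp (η : Mt m) - 1‖ < δ) :
    ((bc L D A η : gC L) : Mt m)ᴴ = -((bc L D A η : gC L) : Mt m) := by
  obtain ⟨g1, h1⟩ := lie_exp L (mem_lieSet_of_gC L A.2 hA)
  obtain ⟨g2, h2⟩ := lie_exp L (mem_lieSet_of_gC L η.2 hη)
  have h3 : L.rho (g1 * g2) = NormedSpace.exp (A : Mt m) * NormedSpace.exp (η : Mt m) := by
    rw [map_mul, h1, h2]
  have h4 := (ch.lgm (g1 * g2) (by unfold dis; rw [h3]; exact hn)).1
  rw [h3, ← coe_bc ch hA1 hη1] at h4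
  exact lie_skew L h4

variable {L} in
/-- the limit is real -/
theorem coef_lim_real {D : LogData m} {ε δ : ℝ} (ch : Chart L D ε δ) {X η : gC L}
    (hX : imP (X : Mt m) = 0) (hη : imP (η : Mt m) = 0) (hη1 : ‖η‖ < δ)
    (hn : ‖NormedSpace.exp (η : Mt m) - 1‖ < δ) (hn' : ‖NormedSpace.exp (-(η : Mt m)) - 1‖ < δ)
    {l : ℂ} (hl : Tendsto (fun s : ℝ =>
      sdf D (fun Z : gC L => Qf (Z : Mt m)) ((s : ℂ) • X) η / (s : ℂ) ^ 2) (𝓝[≠] 0) (𝓝 l)) :
    l.im = 0 := by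
  have h1 := (Complex.continuous_im.tendsto l).comp hl
  refine tendsto_nhds_unique h1 (tendsto_const_nhds.congr' ?_)
  have c1 : ∀ᶠ s : ℝ in 𝓝 0, ‖NormedSpace.exp ((((s : ℂ) • ((1 / 2 : ℂ) • X) : gC L) : Mt m)) *
      NormedSpace.exp (η : Mt m) - 1‖ < δ := by
    have hc : Continuous fun s : ℝ => ‖NormedSpace.exp ((((s : ℂ) • ((1 / 2 : ℂ) • X) : gC L) : Mt m)) *
      NormedSpace.exp (η : Mt m) - 1‖ := by
      have : Continuous fun s : ℝ => (((s : ℂ) • ((1 / 2 : ℂ) • X) : gC L) : Mt m) := by fun_prop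
      exact (((exp_cont.comp this).mul continuous_const).sub continuous_const).norm
    have := hc.tendsto 0
    refine this.eventually_lt_const ?_
    simpa using hn
  have c2 : ∀ᶠ s : ℝ in 𝓝 0, ‖NormedSpace.exp ((((s : ℂ) • ((1 / 2 : ℂ) • X) : gC L) : Mt m)) *
      NormedSpace.exp (((-η : gC L) : Mt m)) - 1‖ < δ := by
    have hc : Continuous fun s : ℝ => ‖NormedSpace.exp ((((s : ℂ) • ((1 / 2 : ℂ) • X) : gC L) : Mt m)) *
      NormedSpace.exp (((-η : gC L) : Mt m)) - 1‖ := by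
      have : Continuous fun s : ℝ => (((s : ℂ) • ((1 / 2 : ℂ) • X) : gC L) : Mt m) := by fun_prop
      exact (((exp_cont.comp this).mul continuous_const).sub continuous_const).norm
    have := hc.tendsto 0
    refine this.eventually_lt_const ?_
    simpa using hn'
  have c3 : ∀ᶠ s : ℝ in 𝓝 0, ‖(s : ℂ) • ((1 / 2 : ℂ) • X)‖ < δ := by
    have hc : Continuous fun s : ℝ => ‖(s : ℂ) • ((1 / 2 : ℂ) • X)‖ := by fun_prop
    have := hc.tendsto 0
    refine this.eventually_lt_const ?_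
    simpa using ch.pos
  filter_upwards [nhdsWithin_le_nhds c1, nhdsWithin_le_nhds c2, nhdsWithin_le_nhds c3] with s s1 s2 s3
  have hXs : (X : Mt m)ᴴ = -(X : Mt m) := lie_skew L (mem_lieSet_of_gC L X.2 hX)
  have hηs : (η : Mt m)ᴴ = -(η : Mt m) := lie_skew L (mem_lieSet_of_gC L η.2 hη)
  have hA : imP ((((s : ℂ) • ((1 / 2 : ℂ) • X) : gC L) : Mt m)) = 0 := by
    show imP ((s : ℂ) • ((1 / 2 : ℂ) • (X : Mt m))) = 0
    rw [imP_smul]
    have : ((1 / 2 : ℂ)) = (((1 / 2 : ℝ)) : ℂ) := by push_cast; ring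
    rw [this, imP_smul, hX, smul_zero, smul_zero]
  have hAs : ((((s : ℂ) • ((1 / 2 : ℂ) • X) : gC L) : Mt m))ᴴ =
      -((((s : ℂ) • ((1 / 2 : ℂ) • X) : gC L) : Mt m)) := lie_skew L (mem_lieSet_of_gC L
        (((s : ℂ) • ((1 / 2 : ℂ) • X) : gC L)).2 hA)
  have hη' : imP (((-η : gC L) : Mt m)) = 0 := by
    rw [NegMemClass.coe_neg, imP_neg, hη, neg_zero]
  have b1 := coef_skew ch hA hη s3 hη1 s1
  have b2 := coef_skew ch hA hη' s3 (by rwa [norm_neg]) s2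
  show 0 = (sdf D (fun Z : gC L => Qf (Z : Mt m)) ((s : ℂ) • X) η / (s : ℂ) ^ 2).im
  rw [show ((s : ℂ) ^ 2) = ((s ^ 2 : ℝ) : ℂ) by push_cast; ring, Complex.div_ofReal_im]
  have e1 : (1 / 2 : ℂ) • ((s : ℂ) • X) = (s : ℂ) • ((1 / 2 : ℂ) • X) := smul_comm _ _ _
  unfold sdf
  rw [e1]
  have q1 := coef_Qf_real b1
  have q2 := coef_Qf_real b2
  have q3 := coef_Qf_real hAs
  have q4 := coef_Qf_real hηs
  simp only [Complex.sub_im, Complex.add_im, Complex.mul_im, q1, q2, q3, q4]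
  norm_num

theorem coef_norm_comm {A H : Mt m} (hA : Aᴴ = -A) (hH : Hᴴ = -H) :
    (trace (bB2 H A * A)).re = 1 / 12 * ‖A * H - H * A‖ ^ 2 := by
  rw [norm_sq_eq]
  have h1 : (A * H - H * A)ᴴ = -(A * H - H * A) := by
    rw [conjTranspose_sub, conjTranspose_mul, conjTranspose_mul, hA, hH]
    noncomm_ring
  rw [h1]
  have t1 : trace (A * (H * (A * H))) = trace (H * (A * (H * A))) := by
    rw [trace_mul_comm]; simp only [mul_assoc]
  have t2 : trace (A * (H * (H * A))) = trace (H * (H * (A * A))) := by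
    rw [trace_mul_comm]; simp only [mul_assoc]
  have t3 : trace (H * (A * (A * H))) = trace (H * (H * (A * A))) := by
    rw [← t2, trace_mul_comm, mul_assoc, trace_mul_comm]; simp only [mul_assoc]
  unfold bB2
  simp only [neg_mul, sub_mul, mul_sub, add_mul, smul_mul_assoc, trace_neg, trace_sub, trace_add,
    trace_smul, smul_eq_mul, mul_assoc, t1, t2, t3, Complex.neg_re, Complex.sub_re, Complex.add_re]
  have e1 : ∀ z : ℂ, ((1 / 12 : ℂ) * z).re = 1 / 12 * z.re := by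
    intro z
    have : (1 / 12 : ℂ) = ((1 / 12 : ℝ) : ℂ) := by push_cast; ring
    rw [this, Complex.re_ofReal_mul]
  have e2 : ∀ z : ℂ, ((2 : ℂ) * z).re = 2 * z.re := by
    intro z
    have : (2 : ℂ) = ((2 : ℝ) : ℂ) := by push_cast; ring
    rw [this, Complex.re_ofReal_mul]
  rw [e1]
  simp only [Complex.sub_re, Complex.add_re, e2]
  ring


theorem coef_final_aux {A H Y1 Y2 : Mt m} (hA : Aᴴ = -A) (hH : Hᴴ = -H) {r : ℝ}
    (h1 : ‖Y1 - (A + bB1 H A + bB2 H A)‖ ≤ r) (h2 : ‖Y2 - (A + bB1 (-H) A + bB2 (-H) A)‖ ≤ r) :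
    |(-trace (Y1 * A) + -trace (Y2 * A) - 2 * Qf A).re + 1 / 6 * ‖A * H - H * A‖ ^ 2| ≤
      2 * r * ‖A‖ := by
  have e1 : bB1 (-H) A = -bB1 H A := by
    unfold bB1
    rw [neg_mul, mul_neg, ← smul_neg]
    congr 1
    abel
  have e2 : bB2 (-H) A = bB2 H A := by
    unfold bB2
    simp only [neg_mul, mul_neg, neg_neg]
  rw [e1, e2] at h2
  set E1 := Y1 - (A + bB1 H A + bB2 H A) with hE1
  set E2 := Y2 - (A + -bB1 H A + bB2 H A) with hE2
  have e3 : -trace (Y1 * A) + -trace (Y2 * A) - 2 * Qf A =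
      -(trace (E1 * A) + trace (E2 * A)) - 2 * trace (bB2 H A * A) := by
    have y1 : Y1 = E1 + (A + bB1 H A + bB2 H A) := by rw [hE1]; abel
    have y2 : Y2 = E2 + (A + -bB1 H A + bB2 H A) := by rw [hE2]; abel
    rw [y1, y2]
    unfold Qf
    simp only [add_mul, neg_mul, trace_add, trace_neg]
    ring
  have h3 := coef_norm_comm hA hH
  have e4 : (2 * trace (bB2 H A * A)).re = 2 * (trace (bB2 H A * A)).re := by
    have : (2 : ℂ) = ((2 : ℝ) : ℂ) := by push_cast; ring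
    rw [this, Complex.re_ofReal_mul]
  have e5 : (-trace (Y1 * A) + -trace (Y2 * A) - 2 * Qf A).re + 1 / 6 * ‖A * H - H * A‖ ^ 2 =
      -((trace (E1 * A)).re + (trace (E2 * A)).re) := by
    rw [e3, Complex.sub_re, Complex.neg_re, Complex.add_re, e4, h3]
    ring
  rw [e5, abs_neg]
  have n1 : |(trace (E1 * A)).re| ≤ r * ‖A‖ :=
    (Complex.abs_re_le_norm _).trans ((norm_trace_mul_le _ _).trans
      (mul_le_mul_of_nonneg_right h1 (norm_nonneg _)))
  have n2 : |(trace (E2 * A)).re| ≤ r * ‖A‖ :=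
    (Complex.abs_re_le_norm _).trans ((norm_trace_mul_le _ _).trans
      (mul_le_mul_of_nonneg_right h2 (norm_nonneg _)))
  calc _ ≤ |(trace (E1 * A)).re| + |(trace (E2 * A)).re| := abs_add_le _ _
    _ ≤ 2 * r * ‖A‖ := by linarith

/-- Second order coefficient of the second difference of the quadratic form: with
`A = X / 2`, `Q (log (exp (s A) exp η)) = Q η + 2 s ⟨A, η⟩ + s² (|A|² - |[A, η]|² / 12 + O(|η|³)) + …`. -/
theorem sdf_Qf_coeff {D : LogData m} {ε δ : ℝ} (ch : Chart L D ε δ) :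
    ∃ C δ' : ℝ, 0 < C ∧ 0 < δ' ∧ ∀ X η : gC L, imP (X : Mt m) = 0 → imP (η : Mt m) = 0 →
      ‖η‖ < δ' → ∃ c : ℝ,
        Tendsto (fun s : ℝ => sdf D (fun Z : gC L => Qf (Z : Mt m)) ((s : ℂ) • X) η / (s : ℂ) ^ 2)
          (𝓝[≠] 0) (𝓝 (c : ℂ)) ∧
        |c + 1 / 24 * ‖(X : Mt m) * (η : Mt m) - (η : Mt m) * (X : Mt m)‖ ^ 2| ≤
          C * ‖X‖ ^ 2 * ‖η‖ ^ 3 := by
  have hc : Continuous fun Z : Mt m => ‖NormedSpace.exp Z - 1‖ :=
    (exp_cont.sub continuous_const).norm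
  have hc0 : ∀ᶠ Z : Mt m in 𝓝 0, ‖NormedSpace.exp Z - 1‖ < δ := by
    refine (hc.tendsto 0).eventually_lt_const ?_
    rw [NormedSpace.exp_zero, sub_self, norm_zero]
    exact ch.pos
  obtain ⟨ρ, hρ, hρ1⟩ := Metric.eventually_nhds_iff.1 hc0
  refine ⟨80, min δ (min (1 / 8) ρ), by norm_num, lt_min ch.pos (lt_min (by norm_num) hρ),
    fun X η hX hη hη1 => ?_⟩
  have b1 : ‖η‖ < δ := hη1.trans_le (min_le_left _ _)
  have b1' : ‖-η‖ < δ := by rwa [norm_neg]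
  have b2 : ‖η‖ < 1 / 8 := hη1.trans_le ((min_le_right _ _).trans (min_le_left _ _))
  have b3 : ‖η‖ < ρ := hη1.trans_le ((min_le_right _ _).trans (min_le_right _ _))
  have b4 : ‖NormedSpace.exp (η : Mt m) - 1‖ < δ := hρ1 (by rw [dist_zero_right]; exact b3)
  have b5 : ‖NormedSpace.exp (-(η : Mt m)) - 1‖ < δ :=
    hρ1 (by rw [dist_zero_right, norm_neg]; exact b3)
  generalize hA : ((1 / 2 : ℂ) • X : gC L) = A
  set l : ℂ := -trace (deriv (cvy L D A η) 0 * (A : Mt m)) +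
    -trace (deriv (cvy L D A (-η)) 0 * (A : Mt m)) - 2 * Qf (A : Mt m) with hl
  have hlim : Tendsto (fun s : ℂ => sdf D (fun Z : gC L => Qf (Z : Mt m)) (s • X) η / s ^ 2) (𝓝[≠] 0)
      (𝓝 l) := coef_lim X hA (cvy_taylor ch A b1) (cvy_taylor ch A b1')
  have hofr : Tendsto (fun s : ℝ => (s : ℂ)) (𝓝[≠] 0) (𝓝[≠] 0) := by
    refine tendsto_nhdsWithin_iff.2 ⟨?_, ?_⟩
    · have := (Complex.continuous_ofReal.tendsto 0)
      rw [Complex.ofReal_zero] at this
      exact this.mono_left nhdsWithin_le_nhds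
    · filter_upwards [self_mem_nhdsWithin] with s hs
      exact Complex.ofReal_ne_zero.2 hs
  have hlim' : Tendsto (fun s : ℝ =>
      sdf D (fun Z : gC L => Qf (Z : Mt m)) ((s : ℂ) • X) η / (s : ℂ) ^ 2) (𝓝[≠] 0) (𝓝 l) :=
    hlim.comp hofr
  have him : l.im = 0 := coef_lim_real ch hX hη b1 b4 b5 hlim'
  have hlr : ((l.re : ℝ) : ℂ) = l := Complex.ext (by simp) (by simp [him])
  refine ⟨l.re, by rw [hlr]; exact hlim', ?_⟩
  have hXs : (X : Mt m)ᴴ = -(X : Mt m) := lie_skew L (mem_lieSet_of_gC L X.2 hX)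
  have hηs : (η : Mt m)ᴴ = -(η : Mt m) := lie_skew L (mem_lieSet_of_gC L η.2 hη)
  have hAX : (A : Mt m) = (1 / 2 : ℂ) • (X : Mt m) := by rw [← hA]; rfl
  have hAs : (A : Mt m)ᴴ = -(A : Mt m) := by
    rw [hAX, conjTranspose_smul, hXs, smul_neg]
    simp
  have h00 : ‖(0 : ℂ)‖ < δ / (‖A‖ + 1) := by
    rw [norm_zero]; exact div_pos ch.pos (by positivity)
  have k1 := cvy_eq ch A b1 h00
  have k2 := cvy_eq ch A b1' h00
  rw [cvy_zero ch A b1] at k1
  rw [cvy_zero ch A b1'] at k2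
  have m1 : 8 * ‖(η : Mt m)‖ ≤ 1 := by
    have : ‖(η : Mt m)‖ = ‖η‖ := rfl
    rw [this]; linarith
  have k3 := log_deriv_expand m1 k1
  have m2 : 8 * ‖((-η : gC L) : Mt m)‖ ≤ 1 := by
    rw [NegMemClass.coe_neg, norm_neg]; exact m1
  have k4 := log_deriv_expand m2 k2
  rw [NegMemClass.coe_neg, norm_neg] at k4
  have k5 := coef_final_aux hAs hηs k3 k4
  rw [← hl] at k5
  have n1 : ‖(A : Mt m)‖ = ‖X‖ / 2 := by
    rw [hAX, norm_smul]
    have h2 : ‖(1 / 2 : ℂ)‖ = 1 / 2 := by simp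
    rw [h2]
    show 1 / 2 * ‖X‖ = _
    ring
  have n2 : ‖(A : Mt m) * (η : Mt m) - (η : Mt m) * (A : Mt m)‖ =
      ‖(X : Mt m) * (η : Mt m) - (η : Mt m) * (X : Mt m)‖ / 2 := by
    rw [hAX, smul_mul_assoc, mul_smul_comm, ← smul_sub, norm_smul]
    have h2 : ‖(1 / 2 : ℂ)‖ = 1 / 2 := by simp
    rw [h2]
    ring
  have n3 : ‖(η : Mt m)‖ = ‖η‖ := rfl
  rw [n1, n2, n3] at k5
  have e1 : 1 / 6 * (‖(X : Mt m) * (η : Mt m) - (η : Mt m) * (X : Mt m)‖ / 2) ^ 2 =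
      1 / 24 * ‖(X : Mt m) * (η : Mt m) - (η : Mt m) * (X : Mt m)‖ ^ 2 := by ring
  rw [e1] at k5
  refine k5.trans (le_of_eq ?_)
  ring

end final

end

end Pool.Agent.T2H04.HY
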