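import Mathlib
import Pool.Agent.T2H04.HY.Conv4

/-!
# The convolution step
-/

open MeasureTheory Matrix Filter
open scoped Matrix.Norms.Frobenius Topology

namespace Pool.Agent.T2H04.HY

set_option linter.unusedSectionVars false

noncomputable section

variable {G : Type} [Group G] [TopologicalSpace G] [IsTopologicalGroup G] [CompactSpace G]
  [MeasurableSpace G] [BorelSpace G] (μ : Measure G) [μ.IsHaarMeasure] [IsProbabilityMeasure μ]
  {m : Type} [Fintype m] [DecidableEq m] {L : RD G m}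

theorem large_arith {b a1 a2 s' h2 t : ℝ} (hb : 0 ≤ b) (ha1 : 0 ≤ a1) (ha2 : 0 ≤ a2)
    (hs' : 0 ≤ s') (hs : s' ≤ a1 + a2) (ht : 0 < t) :
    -((min b ((1 - 1 / 10000) * a1 ^ 2) - (1 + 1 / 10000) * (h2 / 4)) / (2 * t)) +
      -((min b ((1 - 1 / 10000) * a2 ^ 2) - (1 + 1 / 10000) * (h2 / 4)) / (2 * t)) ≤
      -((min (2 * b) ((1 - 1 / 10000) * s' ^ 2) - (1 + 1 / 10000) * h2) / (4 * t)) := by
  have hm := min_add_min hb (x := (1 - 1 / 10000) * a1 ^ 2) (y := (1 - 1 / 10000) * a2 ^ 2)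
    (by positivity) (by positivity)
  have h1 : s' ^ 2 ≤ (a1 + a2) ^ 2 := pow_le_pow_left₀ hs' hs 2
  have h2' : (a1 + a2) ^ 2 ≤ 2 * (a1 ^ 2 + a2 ^ 2) := by nlinarith [sq_nonneg (a1 - a2)]
  have h3 : min (2 * b) ((1 - 1 / 10000) * s' ^ 2) ≤
      2 * min b ((1 - 1 / 10000) * a1 ^ 2 + (1 - 1 / 10000) * a2 ^ 2) := by
    rcases min_choice b ((1 - 1 / 10000) * a1 ^ 2 + (1 - 1 / 10000) * a2 ^ 2) with h | h
    · rw [h]; exact min_le_left _ _
    · rw [h]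
      refine (min_le_right _ _).trans ?_
      nlinarith
  have e : -((min b ((1 - 1 / 10000) * a1 ^ 2) - (1 + 1 / 10000) * (h2 / 4)) / (2 * t)) +
      -((min b ((1 - 1 / 10000) * a2 ^ 2) - (1 + 1 / 10000) * (h2 / 4)) / (2 * t)) =
      -((2 * (min b ((1 - 1 / 10000) * a1 ^ 2) + min b ((1 - 1 / 10000) * a2 ^ 2)) -
        (1 + 1 / 10000) * h2) / (4 * t)) := by
    field_simp
    ring
  rw [e, neg_le_neg_iff]
  exact div_le_div_of_nonneg_right (by linarith) (by positivity)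

/-- large field bound of the convolution -/
theorem conv_large {D : LogData m} {εg δ r0 r s b r' : ℝ} (P : Par L D εg δ r0 r s b r')
    {F : Mt m → ℂ} {t A : ℝ} (cl : Cls L F t A r (r0 / 4) s b (1 / 10000))
    (ht : 0 < t) (hA : 0 ≤ A) (hAt : A * t ≤ 1 / 10) {s' : ℝ} (hs'0 : 0 ≤ s')
    (Z : gC L) (hZ : Z ∈ dom L r' (r0 / 4)) (k : G)
    (hk : s' ≤ ‖NormedSpace.exp (reP (Z : Mt m)) * L.rho k - 1‖) :
    ‖ccv L μ F (NormedSpace.exp (Z : Mt m) * L.rho k)‖ ≤ (F 1).re ^ 2 *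
      Real.exp (-((min (2 * b) ((1 - 1 / 10000) * s' ^ 2) -
        (1 + 1 / 10000) * ‖imP (Z : Mt m)‖ ^ 2) / (4 * t))) := by
  have hr0 := P.r0_pos
  have hr01 := P.r0_le
  have hrl := P.r_lo
  have hrh := P.r_hi
  have hrl' := P.r'_lo
  have hrh' := P.r'_hi
  have hδ := P.r0_δ
  have h2 := P.h2
  have he0 := P.e0
  have he1 := P.e1
  have hb : 0 ≤ b := by
    have := P.h3
    have : 0 ≤ r' ^ 2 := sq_nonneg _
    have : 0 ≤ r0 ^ 2 := sq_nonneg _
    linarith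
  rw [ccv_sym μ cl.diff cl.conj Z k]
  set h := ‖imP (Z : Mt m)‖ with hh
  have ex : ‖reP ((((1 / 2 : ℂ) • Z : gC L)) : Mt m)‖ = ‖reP (Z : Mt m)‖ / 2 := by
    rw [coe_half, reP_half, norm_half]
  have eh : ‖imP ((((1 / 2 : ℂ) • Z : gC L)) : Mt m)‖ = h / 2 := by
    rw [coe_half, imP_half, norm_half]
  have hxr := hZ.1
  have hhr : h < r0 / 4 := hZ.2
  have hx0 : 0 ≤ ‖reP (Z : Mt m)‖ := norm_nonneg _
  have hh0 : 0 ≤ h := norm_nonneg _
  have U := fun y => ubound P.ch he0 he1 cl ht hA hAt (by linarith) (by linarith) (by linarith)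
    (by linarith) (by linarith) P.h1 ((1 / 2 : ℂ) • Z) (by rw [ex]; linarith)
    (by rw [eh]; linarith) y
  rw [eh] at U
  set a : Mt m := NormedSpace.exp (reP ((((1 / 2 : ℂ) • Z : gC L)) : Mt m)) with ha
  have hau : a * aᴴ = 1 := exp_unitary (reP_skew _)
  have haa : a * a = NormedSpace.exp (reP (Z : Mt m)) := by
    rw [ha, coe_half, reP_half, ← Matrix.exp_add_of_commute _ _ (Commute.refl _), ← add_smul]
    norm_num
  have hF1 := cl.pos.le
  have hpt : ∀ y : G, ‖F (NormedSpace.exp ((1 / 2 : ℂ) • (Z : Mt m)) * L.rho y) *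
      F (NormedSpace.exp ((1 / 2 : ℂ) • (Z : Mt m)) * L.rho (k * y⁻¹))‖ ≤ (F 1).re ^ 2 *
      Real.exp (-((min (2 * b) ((1 - 1 / 10000) * s' ^ 2) - (1 + 1 / 10000) * h ^ 2) /
        (4 * t))) := by
    intro y
    have U1 := U y
    have U2 := U (k * y⁻¹)
    have h4 : (h / 2) ^ 2 = h ^ 2 / 4 := by ring
    rw [h4] at U1 U2
    have htri := tri (L := L) hau k y
    rw [haa] at htri
    have hla := large_arith (h2 := h ^ 2) hb (norm_nonneg (a * L.rho y - 1))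
      (norm_nonneg (a * L.rho (k * y⁻¹) - 1)) hs'0 (hk.trans htri) ht
    rw [norm_mul]
    calc _ ≤ (F 1).re * Real.exp (-((min b ((1 - 1 / 10000) * ‖a * L.rho y - 1‖ ^ 2) -
            (1 + 1 / 10000) * (h ^ 2 / 4)) / (2 * t))) *
            ((F 1).re * Real.exp (-((min b ((1 - 1 / 10000) * ‖a * L.rho (k * y⁻¹) - 1‖ ^ 2) -
            (1 + 1 / 10000) * (h ^ 2 / 4)) / (2 * t)))) :=
          mul_le_mul U1 U2 (norm_nonneg _) (mul_nonneg hF1 (Real.exp_pos _).le)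
      _ = (F 1).re ^ 2 * Real.exp (-((min b ((1 - 1 / 10000) * ‖a * L.rho y - 1‖ ^ 2) -
            (1 + 1 / 10000) * (h ^ 2 / 4)) / (2 * t)) +
            -((min b ((1 - 1 / 10000) * ‖a * L.rho (k * y⁻¹) - 1‖ ^ 2) -
            (1 + 1 / 10000) * (h ^ 2 / 4)) / (2 * t))) := by
          rw [Real.exp_add]; ring
      _ ≤ _ := mul_le_mul_of_nonneg_left (Real.exp_le_exp.2 hla) (by positivity)
  refine (norm_integral_le_of_norm_le (integrable_const _)
    (Filter.Eventually.of_forall hpt)).trans ?_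
  rw [integral_const]
  simp

/-- the conditions on `t` -/
structure TC (μ : Measure G) (L : RD G m) (r0 t : ℝ) : Prop where
  pos : 0 < t
  t1 : Real.exp (-(r0 ^ 2 / (400 * t))) ≤ Real.exp (-50) * μ.real (bal L (Real.sqrt t))
  t2 : 24 * Real.exp (-(r0 ^ 2 / (1000 * t))) ≤ μ.real (bal L (Real.sqrt t))
  t3 : 1000 * t ≤ r0 ^ 2

/-- the normalised complex convolution -/
def calE (F : Mt m → ℂ) (t : ℝ) (w : gC L → ℂ) (Z : gC L) : ℂ :=
  ccv L μ F (NormedSpace.exp (Z : Mt m)) * ev t w Z / ccv L μ F 1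

variable {μ}

theorem calE_le {D : LogData m} {εg δ r0 r s b r' : ℝ} (P : Par L D εg δ r0 r s b r') {Cm : ℝ}
    (hCm : ∀ t : ℝ, 0 < t → ∫ y, (1 + dis L y ^ 2 / t + (dis L y ^ 2 / t) ^ 2) *
      Real.exp (-(1 / 2 * dis L y ^ 2 / t)) ∂μ ≤ Cm * μ.real (bal L (Real.sqrt t)))
    (hCm0 : 0 ≤ Cm) (hR : 32 * (192 / δ ^ 2 + 7400) * Cm * r0 ^ 2 ≤ 1)
    {F : Mt m → ℂ} {t A : ℝ} (cl : Cls L F t A r (r0 / 4) s b (1 / 10000)) {w : gC L → ℂ}
    (hw : SFw L F t A r (r0 / 4) w) (T : TC μ L r0 t) (hA : 0 ≤ A) (hAt : A * t ≤ 1 / 10)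
    (Z : gC L) (hZ : Z ∈ dom L r' (r0 / 4)) : ‖calE μ F t w Z - 1‖ ≤ 1 / 2 := by
  have ht := T.pos
  have hr0 := P.r0_pos
  have hrh' := P.r'_hi
  have hrl' := P.r'_lo
  have hF1 := cl.pos
  have hmu := bal_pos μ L (Real.sqrt t) (Real.sqrt_pos.2 ht)
  have hts : Real.sqrt t < r0 / 20 := by
    rw [Real.sqrt_lt' (by positivity)]
    have := T.t3
    have h2 : 0 < r0 ^ 2 := by positivity
    nlinarith
  have hlow := ccv_one_lower μ P cl hw ht hA hAt hts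
  have hpos : 0 < (ccv L μ F 1).re := ccv_pos μ L cl.diff cl.inv cl.real cl.pos
  have hc1 : ccv L μ F 1 = (((ccv L μ F 1).re : ℝ) : ℂ) := by
    have := ccv_rho μ L cl.real 1
    rw [map_one] at this
    rw [this, Complex.ofReal_re]
  have hne : ccv L μ F 1 ≠ 0 := by
    intro h
    rw [h] at hpos
    simp at hpos
  have hnorm : ‖ccv L μ F 1‖ = (ccv L μ F 1).re := by
    conv_lhs => rw [hc1]
    rw [Complex.norm_real, Real.norm_eq_abs, abs_of_pos hpos]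
  have hb := calE_bound μ P hCm cl hw ht hA hAt Z hZ
  have e : calE μ F t w Z - 1 =
      (ccv L μ F (NormedSpace.exp (Z : Mt m)) * ev t w Z - ccv L μ F 1) / ccv L μ F 1 := by
    unfold calE
    field_simp
  rw [e, norm_div, hnorm, div_le_iff₀ hpos]
  refine hb.trans ?_
  have hZn : ‖Z‖ < 5 / 4 * r0 := norm_lt_dom hZ (by positivity) (by nlinarith)
  have hZ2 : ‖Z‖ ^ 2 ≤ 2 * r0 ^ 2 := by
    have := pow_le_pow_left₀ (norm_nonneg _) hZn.le 2
    nlinarith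
  have hexp : (1 / 3 : ℝ) ≤ Real.exp (-(51 / 50)) := by
    rw [Real.exp_neg, ← one_div, div_le_div_iff₀ (by norm_num) (Real.exp_pos _), one_mul, one_mul]
    have h1 : Real.exp (51 / 50) ≤ 3 := by
      have e1 : Real.exp (51 / 50) = Real.exp 1 * Real.exp (1 / 50) := by
        rw [← Real.exp_add]; norm_num
      have e2 : Real.exp (1 / 50) ≤ 1 + 2 * (1 / 50) := by
        have := Real.exp_bound' (x := 1 / 50) (by norm_num) (by norm_num) (n := 2) (by norm_num)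
        refine this.trans ?_
        norm_num [Finset.sum_range_succ]
      have e3 := Real.exp_one_lt_d9
      rw [e1]
      have := Real.exp_pos (1 / 50)
      nlinarith
    linarith
  have harith : ∀ K M c Z2 E f X : ℝ, 0 ≤ K → 0 ≤ M → 0 < c → 32 * K * c * r0 ^ 2 ≤ 1 → 0 ≤ f →
      Z2 ≤ 2 * r0 ^ 2 → 24 * E ≤ M → 1 / 3 * M * f ≤ X →
      f * (101 / 100 * K * Z2 * (c * M) + 2 * E) ≤ 1 / 2 * X := by
    intro K M c Z2 E f X hK hM hc h1 hf hZ2 hE hX
    have a1 : 101 / 100 * K * Z2 * (c * M) ≤ 101 / 100 * K * (2 * r0 ^ 2) * (c * M) := by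
      have : 0 ≤ 101 / 100 * K * (c * M) := by positivity
      nlinarith
    have a2 : 101 / 100 * K * (2 * r0 ^ 2) * (c * M) = 101 / 1600 * (32 * K * c * r0 ^ 2) * M := by
      ring
    have a3 : 101 / 1600 * (32 * K * c * r0 ^ 2) * M ≤ 101 / 1600 * M := by nlinarith
    have a4 : 101 / 100 * K * Z2 * (c * M) + 2 * E ≤ 1 / 6 * M := by linarith
    calc f * (101 / 100 * K * Z2 * (c * M) + 2 * E) ≤ f * (1 / 6 * M) :=
          mul_le_mul_of_nonneg_left a4 hf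
      _ = 1 / 2 * (1 / 3 * M * f) := by ring
      _ ≤ 1 / 2 * X := by linarith
  rcases eq_or_lt_of_le hCm0 with hC | hC
  · have a0 : (F 1).re ^ 2 * (101 / 100 * (192 / δ ^ 2 + 7400) * ‖Z‖ ^ 2 *
        (Cm * μ.real (bal L (Real.sqrt t))) + 2 * Real.exp (-(r0 ^ 2 / (1000 * t)))) =
        (F 1).re ^ 2 * (2 * Real.exp (-(r0 ^ 2 / (1000 * t)))) := by
      rw [← hC]; ring
    rw [a0]
    have a1 := T.t2
    have hF2 : 0 ≤ (F 1).re ^ 2 := sq_nonneg _
    have a2 : 1 / 3 * μ.real (bal L (Real.sqrt t)) * (F 1).re ^ 2 ≤ (ccv L μ F 1).re := by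
      refine le_trans ?_ hlow
      calc 1 / 3 * μ.real (bal L (Real.sqrt t)) * (F 1).re ^ 2 =
            (F 1).re ^ 2 * (1 / 3) * μ.real (bal L (Real.sqrt t)) := by ring
        _ ≤ _ := mul_le_mul_of_nonneg_right (mul_le_mul_of_nonneg_left hexp hF2) hmu.le
    have a3 : (F 1).re ^ 2 * (2 * Real.exp (-(r0 ^ 2 / (1000 * t)))) ≤
        (F 1).re ^ 2 * (1 / 12 * μ.real (bal L (Real.sqrt t))) :=
      mul_le_mul_of_nonneg_left (by linarith) hF2
    have a4 : 0 ≤ (F 1).re ^ 2 * μ.real (bal L (Real.sqrt t)) := by positivity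
    nlinarith
  · refine harith (192 / δ ^ 2 + 7400) (μ.real (bal L (Real.sqrt t))) Cm (‖Z‖ ^ 2)
      (Real.exp (-(r0 ^ 2 / (1000 * t)))) ((F 1).re ^ 2) _ (by positivity) hmu.le hC hR
      (sq_nonneg _) hZ2 T.t2 ?_
    refine le_trans ?_ hlow
    calc 1 / 3 * μ.real (bal L (Real.sqrt t)) * (F 1).re ^ 2 =
          (F 1).re ^ 2 * (1 / 3) * μ.real (bal L (Real.sqrt t)) := by ring
      _ ≤ _ := mul_le_mul_of_nonneg_right (mul_le_mul_of_nonneg_left hexp (sq_nonneg _)) hmu.le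

end

end Pool.Agent.T2H04.HY
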