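import Mathlib
import Pool.Agent.T2H04.HY.Conv5
import Pool.Agent.T2H04.HY.Schur

/-!
# The convolution step: the class is mapped to the class
-/

open MeasureTheory Matrix Filter
open scoped Matrix.Norms.Frobenius Topology

namespace Pool.Agent.T2H04.HY

set_option linter.unusedSectionVars false

noncomputable section

variable {G : Type} [Group G] [TopologicalSpace G] [IsTopologicalGroup G] [CompactSpace G]
  [MeasurableSpace G] [BorelSpace G] {μ : Measure G} [μ.IsHaarMeasure] [IsProbabilityMeasure μ]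
  {m : Type} [Fintype m] [DecidableEq m] {L : RD G m}

theorem ccv_one_pos {F : Mt m → ℂ} {t A r τ s b ε : ℝ} (cl : Cls L F t A r τ s b ε) :
    0 < (ccv L μ F 1).re := ccv_pos μ L cl.diff cl.inv cl.real cl.pos

theorem ccv_one_eq {F : Mt m → ℂ} {t A r τ s b ε : ℝ} (cl : Cls L F t A r τ s b ε) :
    ccv L μ F 1 = (((ccv L μ F 1).re : ℝ) : ℂ) := by
  have := ccv_rho μ L cl.real 1
  rw [map_one] at this
  rw [this, Complex.ofReal_re]

theorem ccv_one_ne {F : Mt m → ℂ} {t A r τ s b ε : ℝ} (cl : Cls L F t A r τ s b ε) :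
    ccv L μ F 1 ≠ 0 := by
  intro h
  have := ccv_one_pos (μ := μ) cl
  rw [h] at this
  simp at this

theorem half_diff (Z : gC L) : DifferentiableAt ℂ (fun Z : gC L => (1 / 2 : ℂ) • Z) Z := by
  fun_prop

section E

variable {F : Mt m → ℂ} {t A r r0 r' s b : ℝ}
  (cl : Cls L F t A r (r0 / 4) s b (1 / 10000)) {w : gC L → ℂ}
  (hw : SFw L F t A r (r0 / 4) w) (hr : r' / 2 ≤ r) (hr0 : 0 < r0) (hr' : 0 < r')

include hr hr0 in
theorem half_mem {Z : gC L} (hZ : Z ∈ dom L r' (r0 / 4)) :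
    ((1 / 2 : ℂ) • Z : gC L) ∈ dom L r (r0 / 4) := by
  have h1 := hZ.1
  have h2 := hZ.2
  refine ⟨?_, ?_⟩
  · rw [coe_half, reP_half, norm_half]; linarith
  · rw [coe_half, imP_half, norm_half]; linarith

include cl hw hr hr0 in
theorem calE_diff : DifferentiableOn ℂ (calE μ F t w) (dom L r' (r0 / 4)) := by
  intro Z hZ
  have h1 : DifferentiableAt ℂ (fun Z : gC L => ccv L μ F (NormedSpace.exp (Z : Mt m))) Z := by
    have a1 := (ccv_contDiff μ L cl.diff).differentiable one_ne_zero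
    exact (a1 _).comp Z ((exp_diff _).comp Z (gC L).subtypeL.differentiableAt)
  have h2 : DifferentiableAt ℂ (fun Z : gC L => w ((1 / 2 : ℂ) • Z)) Z := by
    have b1 := (hw.diff _ (half_mem hr hr0 hZ)).differentiableAt
      ((isOpen_dom L _ _).mem_nhds (half_mem hr hr0 hZ))
    exact DifferentiableAt.comp (g := w) (f := fun Z : gC L => (1 / 2 : ℂ) • Z) Z b1
      (half_diff Z)
  have h3 : DifferentiableAt ℂ (fun Z : gC L => Qf ((1 / 2 : ℂ) • (Z : Mt m))) Z := by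
    have b1 := (Qf_diff (L := L) ((1 / 2 : ℂ) • Z))
    exact DifferentiableAt.comp (g := fun Z : gC L => Qf (Z : Mt m))
      (f := fun Z : gC L => (1 / 2 : ℂ) • Z) Z b1 (half_diff Z)
  have e4 : ev t w = fun Z : gC L => Complex.exp (2 * (Qf ((1 / 2 : ℂ) • (Z : Mt m)) *
      (2 * (t : ℂ))⁻¹ + w ((1 / 2 : ℂ) • Z))) := by
    funext Z
    unfold ev
    rw [div_eq_mul_inv]
  have h4 : DifferentiableAt ℂ (ev t w) Z := by
    rw [e4]
    exact (((h3.mul_const _).add h2).const_mul 2).cexp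
  have e5 : calE μ F t w = fun Z : gC L => ccv L μ F (NormedSpace.exp (Z : Mt m)) * ev t w Z *
      (ccv L μ F 1)⁻¹ := by
    funext Z
    unfold calE
    rw [div_eq_mul_inv]
  rw [e5]
  exact ((h1.mul h4).mul_const _).differentiableWithinAt

include cl hw hr hr0 in
theorem calE_neg {Z : gC L} (hZ : Z ∈ dom L r' (r0 / 4)) :
    calE μ F t w (-Z) = calE μ F t w Z := by
  have h1 : ccv L μ F (NormedSpace.exp ((-Z : gC L) : Mt m)) =
      ccv L μ F (NormedSpace.exp (Z : Mt m)) := by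
    rw [← ccv_inv μ L cl.conj cl.inv (NormedSpace.exp (Z : Mt m)), sig_exp L Z.2]
    rfl
  have h2 : ev t w (-Z) = ev t w Z := by
    unfold ev
    rw [NegMemClass.coe_neg, smul_neg, Qf_neg, smul_neg, hw.even _ (half_mem hr hr0 hZ)]
  unfold calE
  rw [h1, h2]

include cl hw hr hr0 in
theorem calE_ad {Z : gC L} (hZ : Z ∈ dom L r' (r0 / 4)) (g : G) (Z' : gC L)
    (h : (Z' : Mt m) = L.rho g * (Z : Mt m) * L.rho g⁻¹) :
    calE μ F t w Z' = calE μ F t w Z := by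
  have hu : IsUnit (L.rho g) := ⟨⟨L.rho g, L.rho g⁻¹, rho_mul_inv L g, rho_inv_mul L g⟩, rfl⟩
  have hinv : (L.rho g)⁻¹ = L.rho g⁻¹ := Matrix.inv_eq_right_inv (rho_mul_inv L g)
  have h1 : ccv L μ F (NormedSpace.exp (Z' : Mt m)) = ccv L μ F (NormedSpace.exp (Z : Mt m)) := by
    have e1 := Matrix.exp_conj (L.rho g) (Z : Mt m) hu
    rw [hinv] at e1
    rw [h, e1, ccv_conj μ L cl.conj]
  have e2 : (1 / 2 : ℂ) • (Z' : Mt m) = L.rho g * ((1 / 2 : ℂ) • (Z : Mt m)) * L.rho g⁻¹ := by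
    rw [h, mul_smul_comm, smul_mul_assoc]
  have h2 : ev t w Z' = ev t w Z := by
    unfold ev
    rw [e2, Qf_conj, hw.ad g ((1 / 2 : ℂ) • Z) (half_mem hr hr0 hZ) ((1 / 2 : ℂ) • Z') e2]
  unfold calE
  rw [h1, h2]

theorem Qf_im_of_real {Z : Mt m} (h : imP Z = 0) : (Qf Z).im = 0 := by
  have hZ : Z = reP Z := by
    have := reP_add_imP Z
    rw [h, smul_zero, add_zero] at this
    exact this.symm
  have hs : Zᴴ = -Z := by rw [hZ]; exact reP_skew _
  unfold Qf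
  rw [Complex.neg_im, trace_skew_real hs hs, neg_zero]

include cl hw hr hr0 in
theorem calE_real {Z : gC L} (hZ : Z ∈ dom L r' (r0 / 4)) (h : imP (Z : Mt m) = 0) :
    (calE μ F t w Z).im = 0 := by
  obtain ⟨g, hg⟩ := lie_exp L (mem_lieSet_of_gC L Z.2 h)
  have him : imP ((((1 / 2 : ℂ) • Z : gC L)) : Mt m) = 0 := by
    rw [coe_half, imP_half, h, smul_zero]
  have h1 : ccv L μ F (NormedSpace.exp (Z : Mt m)) =
      ((cnv μ (res L F) (res L F) g : ℝ) : ℂ) := by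
    rw [← hg, ccv_rho μ L cl.real]
  have h2 : (ev t w Z) = ((Real.exp (2 * ((Qf ((1 / 2 : ℂ) • (Z : Mt m))).re / (2 * t) +
      (w ((1 / 2 : ℂ) • Z)).re)) : ℝ) : ℂ) := by
    have a1 : Qf ((1 / 2 : ℂ) • (Z : Mt m)) = (((Qf ((1 / 2 : ℂ) • (Z : Mt m))).re : ℝ) : ℂ) :=
      Complex.ext (by simp) (by
        rw [Complex.ofReal_im]
        exact Qf_im_of_real him)
    have a2 : w ((1 / 2 : ℂ) • Z) = (((w ((1 / 2 : ℂ) • Z)).re : ℝ) : ℂ) :=
      Complex.ext (by simp) (by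
        rw [Complex.ofReal_im]
        exact hw.real _ (half_mem hr hr0 hZ) him)
    unfold ev
    conv_lhs => rw [a1, a2]
    push_cast
    rfl
  unfold calE
  rw [h1, h2, ccv_one_eq cl, ← Complex.ofReal_mul, ← Complex.ofReal_div, Complex.ofReal_im]

include cl hw hr hr0 hr' in
theorem calE_zero : calE μ F t w 0 = 1 := by
  have hr1 : 0 < r := by linarith
  have hz : ((1 / 2 : ℂ) • (0 : gC L)) = 0 := smul_zero _
  have hz2 : ((0 : gC L) : Mt m) = 0 := ZeroMemClass.coe_zero _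
  have h2 : ev t w (0 : gC L) = 1 := by
    unfold ev
    have : Qf ((1 / 2 : ℂ) • (0 : Mt m)) = 0 := by
      unfold Qf; rw [smul_zero, mul_zero, trace_zero, neg_zero]
    rw [hz2, hz, this, hw.zero hr1 (by positivity), zero_div, add_zero, mul_zero,
      Complex.exp_zero]
  unfold calE
  rw [h2, hz2, NormedSpace.exp_zero, mul_one, div_self (ccv_one_ne cl)]

end E

theorem slit_of_near {z : ℂ} (h : ‖z - 1‖ ≤ 1 / 2) : z ∈ Complex.slitPlane := by
  left
  have h1 : |(z - 1).re| ≤ 1 / 2 := (Complex.abs_re_le_norm _).trans h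
  rw [Complex.sub_re, Complex.one_re] at h1
  have := (abs_le.1 h1).1
  linarith

theorem norm_log_le {z : ℂ} (h : ‖z - 1‖ ≤ 1 / 2) : ‖Complex.log z‖ ≤ 1 := by
  have h1 := Complex.norm_log_one_add_half_le_self (z := z - 1) h
  have e : 1 + (z - 1) = z := by ring
  rw [e] at h1
  linarith

theorem log_real_of_near {z : ℂ} (h : ‖z - 1‖ ≤ 1 / 2) (hz : z.im = 0) :
    (Complex.log z).im = 0 := by
  have h1 : |(z - 1).re| ≤ 1 / 2 := (Complex.abs_re_le_norm _).trans h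
  rw [Complex.sub_re, Complex.one_re] at h1
  have h2 := (abs_le.1 h1).1
  have h3 : z = ((z.re : ℝ) : ℂ) := Complex.ext (by simp) (by simp [hz])
  rw [h3, Complex.log_im]
  exact Complex.arg_ofReal_of_nonneg (by linarith)

/-- The convolution step, with the explicit small field representation. -/
theorem conv_cls' (hs : Simple L) {D : LogData m} {εg δ r0 r s b r' : ℝ}
    (P : Par L D εg δ r0 r s b r') {Cm : ℝ}
    (hCm : ∀ t : ℝ, 0 < t → ∫ y, (1 + dis L y ^ 2 / t + (dis L y ^ 2 / t) ^ 2) *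
      Real.exp (-(1 / 2 * dis L y ^ 2 / t)) ∂μ ≤ Cm * μ.real (bal L (Real.sqrt t)))
    (hCm0 : 0 ≤ Cm) (hR : 32 * (192 / δ ^ 2 + 7400) * Cm * r0 ^ 2 ≤ 1)
    {F : Mt m → ℂ} {t A : ℝ} (cl : Cls L F t A r (r0 / 4) s b (1 / 10000)) {w : gC L → ℂ}
    (hw : SFw L F t A r (r0 / 4) w) (T : TC μ L r0 t) (hA : 0 ≤ A) (hAt : A * t ≤ 1 / 10)
    {s' b' : ℝ} (hs'0 : 0 ≤ s') (hb'0 : 0 ≤ b') (h4 : b' + r0 ^ 2 / 100 ≤ 2 * b)
    (h5 : b' + r0 ^ 2 / 100 ≤ (1 - 1 / 10000) * s' ^ 2) (h6 : b' ≤ 2 * r0 ^ 2) :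
    ∃ a : ℝ, |a| ≤ 16 / r0 ^ 2 ∧
      (∀ Z : gC L, Tendsto (fun s : ℝ => Complex.log (calE μ F t w ((s : ℂ) • Z)) / (s : ℂ) ^ 2)
        (𝓝[≠] 0) (𝓝 ((a : ℂ) * Qf (Z : Mt m)))) ∧
      Cls L (ccv L μ F) (1 / (1 / (2 * t) - 2 * a)) (A / 8 + 512 / r0 ^ 4) r' (r0 / 4) s' b'
        (1 / 10000) ∧
      SFw L (ccv L μ F) (1 / (1 / (2 * t) - 2 * a)) (A / 8 + 512 / r0 ^ 4) r' (r0 / 4)
        (fun Z => 2 * w ((1 / 2 : ℂ) • Z) -
          (Complex.log (calE μ F t w Z) - a * Qf (Z : Mt m))) := by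
  have hr0 := P.r0_pos
  have hr01 := P.r0_le
  have hrl := P.r_lo
  have hrh := P.r_hi
  have hrl' := P.r'_lo
  have hrh' := P.r'_hi
  have hr2 : r' / 2 ≤ r := by linarith
  have hr'0 : 0 < r' := by linarith
  have ht := T.pos
  have hE := fun Z hZ => calE_le P hCm hCm0 hR cl hw T hA hAt Z hZ
  set ℓ : gC L → ℂ := fun Z => Complex.log (calE μ F t w Z) with hℓ
  have hℓd : DifferentiableOn ℂ ℓ (dom L r' (r0 / 4)) :=
    (calE_diff cl hw hr2 hr0).clog fun Z hZ => slit_of_near (hE Z hZ)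
  have hℓ1 : ∀ Z ∈ dom L r' (r0 / 4), ‖ℓ Z‖ ≤ 1 := fun Z hZ => norm_log_le (hE Z hZ)
  have hℓ0 : ℓ 0 = 0 := by
    show Complex.log (calE μ F t w 0) = 0
    rw [calE_zero cl hw hr2 hr0 hr'0, Complex.log_one]
  have hℓe : ∀ Z ∈ dom L r' (r0 / 4), ℓ (-Z) = ℓ Z := by
    intro Z hZ
    show Complex.log (calE μ F t w (-Z)) = Complex.log (calE μ F t w Z)
    rw [calE_neg cl hw hr2 hr0 hZ]
  have hball : Metric.ball (0 : gC L) (r0 / 4) ⊆ dom L r' (r0 / 4) :=
    ball_sub_dom (by linarith) le_rfl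
  obtain ⟨q, hqs, hqb, hqr, hqt⟩ := schwarz4 (f := ℓ) (R := r0 / 4) (M := 1) (by positivity)
    (hℓd.mono hball) (fun Z hZ => hℓ1 Z (hball hZ)) hℓ0 (fun Z hZ => hℓe Z (hball hZ))
  -- scaling goes to `0`
  have hsm : ∀ Z : gC L, ∀ᶠ s : ℝ in 𝓝[≠] 0, ((s : ℂ) • Z : gC L) ∈ dom L r' (r0 / 4) := by
    intro Z
    have h1 : Tendsto (fun s : ℝ => (s : ℂ) • Z) (𝓝[≠] 0) (𝓝 0) := by
      have h2 : Continuous fun s : ℝ => (s : ℂ) • Z :=
        Complex.continuous_ofReal.smul continuous_const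
      have h3 := h2.tendsto 0
      rw [Complex.ofReal_zero, zero_smul] at h3
      exact h3.mono_left nhdsWithin_le_nhds
    exact h1 ((isOpen_dom L _ _).mem_nhds (zero_mem_dom hr'0 (by positivity)))
  obtain ⟨a, ha⟩ := schur L hs q hqs (by
      intro g Z Z' h
      refine tendsto_nhds_unique (hqt Z') ((hqt Z).congr' ?_)
      filter_upwards [hsm Z] with s hs
      congr 1
      show Complex.log (calE μ F t w ((s : ℂ) • Z)) = Complex.log (calE μ F t w ((s : ℂ) • Z'))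
      rw [calE_ad cl hw hr2 hr0 hs g ((s : ℂ) • Z') (by
        show (s : ℂ) • (Z' : Mt m) = L.rho g * ((s : ℂ) • (Z : Mt m)) * L.rho g⁻¹
        rw [h, mul_smul_comm, smul_mul_assoc])]) (by
      intro Z h
      have h1 : Tendsto (fun s : ℝ => (ℓ ((s : ℂ) • Z) / (s : ℂ) ^ 2).im) (𝓝[≠] 0)
          (𝓝 ((q Z Z).im)) := (Complex.continuous_im.tendsto _).comp (hqt Z)
      refine tendsto_nhds_unique h1 (tendsto_const_nhds.congr' ?_)
      filter_upwards [hsm Z] with s hs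
      have h2 : imP ((((s : ℂ) • Z : gC L)) : Mt m) = 0 := by
        show imP ((s : ℂ) • (Z : Mt m)) = 0
        rw [imP_smul, h, smul_zero]
      have h3 : (ℓ ((s : ℂ) • Z)).im = 0 :=
        log_real_of_near (hE _ hs) (calE_real cl hw hr2 hr0 hs h2)
      have h4 : ((s : ℂ) ^ 2) = ((s ^ 2 : ℝ) : ℂ) := by push_cast; rfl
      rw [h4, Complex.div_ofReal_im, h3, zero_div])
  have haabs : |a| ≤ 16 / r0 ^ 2 := by
    obtain ⟨X, hX, Y, -, hXY⟩ := hs.nonab
    have hX0 : X ≠ 0 := by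
      rintro rfl
      simp at hXY
    set Z : gC L := ⟨X, gC_of_lie L hX⟩ with hZ
    have h1 := hqb Z
    rw [ha Z, norm_mul, Complex.norm_real, Real.norm_eq_abs, one_mul] at h1
    have h2 : ‖Qf (Z : Mt m)‖ = ‖Z‖ ^ 2 := by
      have h3 : imP (Z : Mt m) = 0 := imP_of_skew (lie_skew L hX)
      have h4 : Qf (Z : Mt m) = (((Qf (Z : Mt m)).re : ℝ) : ℂ) :=
        Complex.ext (by simp) (by rw [Complex.ofReal_im]; exact Qf_im_of_real h3)
      have h5 : (Qf (Z : Mt m)).re = ‖Z‖ ^ 2 := by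
        rw [Qf_re, h3, norm_zero, norm_sq_gC Z, h3, norm_zero]
        ring
      rw [h4, h5, Complex.norm_real, Real.norm_eq_abs, abs_of_nonneg (sq_nonneg _)]
    rw [h2] at h1
    have hZ0 : 0 < ‖Z‖ := norm_pos_iff.2 (by
      intro h
      exact hX0 (congrArg Subtype.val h))
    have h6 : ∀ x z c : ℝ, 0 < z → 0 < c → x * z ^ 2 ≤ (z / (c / 4)) ^ 2 → x ≤ 16 / c ^ 2 := by
      intro x z c hz hc h
      have e : (z / (c / 4)) ^ 2 = 16 / c ^ 2 * z ^ 2 := by field_simp; norm_num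
      rw [e] at h
      exact le_of_mul_le_mul_right h (by positivity)
    exact h6 _ _ _ hZ0 hr0 h1
  refine ⟨a, haabs, fun Z => by rw [← ha Z]; exact hqt Z, ?_⟩
  -- the new class
  have ht2pos : 0 < 1 / (2 * t) - 2 * a := by
    have h1 : 500 / r0 ^ 2 ≤ 1 / (2 * t) := by
      rw [div_le_div_iff₀ (by positivity) (by positivity)]
      have := T.t3
      linarith
    have h2 : 2 * a ≤ 32 / r0 ^ 2 := by
      have := (le_abs_self a).trans haabs
      have e : 32 / r0 ^ 2 = 2 * (16 / r0 ^ 2) := by ring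
      linarith
    have h3 : 32 / r0 ^ 2 < 500 / r0 ^ 2 := div_lt_div_of_pos_right (by norm_num) (by positivity)
    linarith
  have hone := ccv_one_pos (μ := μ) cl
  have hne := ccv_one_ne (μ := μ) cl
  have hcast : ∀ Q : ℂ, Q / (2 * ((1 / (1 / (2 * t) - 2 * a) : ℝ) : ℂ)) =
      Q / (4 * t) - a * Q := by
    intro Q
    have h1 : (1 / (2 * (t : ℂ)) - 2 * a) ≠ 0 := by
      have : (1 / (2 * (t : ℂ)) - 2 * a) = ((1 / (2 * t) - 2 * a : ℝ) : ℂ) := by push_cast; rfl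
      rw [this]
      exact Complex.ofReal_ne_zero.2 ht2pos.ne'
    have h2 : (t : ℂ) ≠ 0 := Complex.ofReal_ne_zero.2 ht.ne'
    have e1 : (2 * ((1 / (1 / (2 * t) - 2 * a) : ℝ) : ℂ)) = 2 / (1 / (2 * (t : ℂ)) - 2 * a) := by
      push_cast
      ring
    rw [e1, div_div_eq_mul_div]
    field_simp
    ring
  have hsf : SFw L (ccv L μ F) (1 / (1 / (2 * t) - 2 * a)) (A / 8 + 512 / r0 ^ 4) r' (r0 / 4)
      (fun Z => 2 * w ((1 / 2 : ℂ) • Z) - (ℓ Z - a * Qf (Z : Mt m))) := by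
    refine ⟨?_, ?_, ?_, ?_, ?_, ?_⟩
    · intro Z hZ
      have h2 : DifferentiableAt ℂ (fun Z : gC L => w ((1 / 2 : ℂ) • Z)) Z := by
        have b1 := (hw.diff _ (half_mem hr2 hr0 hZ)).differentiableAt
          ((isOpen_dom L _ _).mem_nhds (half_mem hr2 hr0 hZ))
        exact DifferentiableAt.comp (g := w) (f := fun Z : gC L => (1 / 2 : ℂ) • Z) Z b1
          (half_diff Z)
      exact ((h2.differentiableWithinAt.const_mul 2).sub ((hℓd Z hZ).sub
        ((Qf_diff (L := L) Z).differentiableWithinAt.const_mul _)))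
    · intro Z hZ
      show 2 * w ((1 / 2 : ℂ) • (-Z)) - (ℓ (-Z) - a * Qf ((-Z : gC L) : Mt m)) =
        2 * w ((1 / 2 : ℂ) • Z) - (ℓ Z - a * Qf (Z : Mt m))
      rw [smul_neg, hw.even _ (half_mem hr2 hr0 hZ), hℓe Z hZ, NegMemClass.coe_neg, Qf_neg]
    · intro g Z hZ Z' h
      have e2 : (1 / 2 : ℂ) • (Z' : Mt m) = L.rho g * ((1 / 2 : ℂ) • (Z : Mt m)) * L.rho g⁻¹ := by
        rw [h, mul_smul_comm, smul_mul_assoc]
      show 2 * w ((1 / 2 : ℂ) • Z') - (Complex.log (calE μ F t w Z') - a * Qf (Z' : Mt m)) =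
        2 * w ((1 / 2 : ℂ) • Z) - (Complex.log (calE μ F t w Z) - a * Qf (Z : Mt m))
      rw [hw.ad g _ (half_mem hr2 hr0 hZ) ((1 / 2 : ℂ) • Z') e2,
        calE_ad cl hw hr2 hr0 hZ g Z' h, h, Qf_conj]
    · intro Z hZ h
      have him : imP ((((1 / 2 : ℂ) • Z : gC L)) : Mt m) = 0 := by
        rw [coe_half, imP_half, h, smul_zero]
      have a1 := hw.real _ (half_mem hr2 hr0 hZ) him
      have a2 : (ℓ Z).im = 0 := log_real_of_near (hE Z hZ) (calE_real cl hw hr2 hr0 hZ h)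
      have a3 := Qf_im_of_real h
      show (2 * w ((1 / 2 : ℂ) • Z) - (ℓ Z - a * Qf (Z : Mt m))).im = 0
      have c2 : ((2 : ℂ)).im = 0 := by simp
      rw [Complex.sub_im, Complex.sub_im, Complex.mul_im, Complex.mul_im, a1, a2, a3, c2,
        Complex.ofReal_im]
      ring
    · intro Z hZ
      have a1 : ‖2 * w ((1 / 2 : ℂ) • Z)‖ ≤ A / 8 * ‖Z‖ ^ 4 := by
        have b1 := hw.le _ (half_mem hr2 hr0 hZ)
        rw [norm_half'] at b1
        have b2 : ‖(2 : ℂ)‖ = 2 := by simp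
        rw [norm_mul, b2]
        have b3 : A * (‖Z‖ / 2) ^ 4 = A / 16 * ‖Z‖ ^ 4 := by ring
        rw [b3] at b1
        linarith
      have a2 : ‖ℓ Z - a * Qf (Z : Mt m)‖ ≤ 512 / r0 ^ 4 * ‖Z‖ ^ 4 := by
        have e : 512 / r0 ^ 4 * ‖Z‖ ^ 4 = 2 * 1 * (‖Z‖ / (r0 / 4)) ^ 4 := by
          have : ∀ z c : ℝ, 0 < c → 512 / c ^ 4 * z ^ 4 = 2 * 1 * (z / (c / 4)) ^ 4 := by
            intro z c hc
            rw [div_pow, div_pow]
            field_simp
            ring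
          exact this _ _ hr0
        rw [e, ← ha Z]
        by_cases hZb : Z ∈ Metric.ball (0 : gC L) (r0 / 4)
        · exact hqr Z hZb
        · have h7 : 1 ≤ ‖Z‖ / (r0 / 4) := by
            rw [mem_ball_zero_iff, not_lt] at hZb
            rw [le_div_iff₀ (by positivity)]
            linarith
          have h8 := hℓ1 Z hZ
          have h9 := hqb Z
          have h10 : 1 ≤ (‖Z‖ / (r0 / 4)) ^ 2 := by nlinarith
          have h11 : (‖Z‖ / (r0 / 4)) ^ 4 = (‖Z‖ / (r0 / 4)) ^ 2 * (‖Z‖ / (r0 / 4)) ^ 2 := by ring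
          refine (norm_sub_le _ _).trans ?_
          rw [h11]
          nlinarith
      calc ‖2 * w ((1 / 2 : ℂ) • Z) - (ℓ Z - a * Qf (Z : Mt m))‖ ≤
            ‖2 * w ((1 / 2 : ℂ) • Z)‖ + ‖ℓ Z - a * Qf (Z : Mt m)‖ := norm_sub_le _ _
        _ ≤ A / 8 * ‖Z‖ ^ 4 + 512 / r0 ^ 4 * ‖Z‖ ^ 4 := add_le_add a1 a2
        _ = (A / 8 + 512 / r0 ^ 4) * ‖Z‖ ^ 4 := by ring
    · intro Z hZ
      have b1 : Complex.exp (ℓ Z) = calE μ F t w Z := by
        refine Complex.exp_log ?_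
        intro h
        have := hE Z hZ
        rw [h, zero_sub, norm_neg, norm_one] at this
        linarith
      have b2 : ccv L μ F (NormedSpace.exp (Z : Mt m)) =
          ccv L μ F 1 * (Complex.exp (ℓ Z) * (ev t w Z)⁻¹) := by
        rw [b1]
        unfold calE
        have : ev t w Z ≠ 0 := Complex.exp_ne_zero _
        field_simp
      rw [b2]
      congr 1
      have b3 : (ev t w Z)⁻¹ = Complex.exp (-(2 * (Qf ((1 / 2 : ℂ) • (Z : Mt m)) / (2 * t) +
          w ((1 / 2 : ℂ) • Z)))) := by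
        unfold ev
        rw [Complex.exp_neg]
      rw [b3, ← Complex.exp_add]
      congr 1
      rw [hcast, Qf_half]
      have ht0 : (t : ℂ) ≠ 0 := Complex.ofReal_ne_zero.2 ht.ne'
      field_simp
      ring
  refine ⟨
    { diff := ccv_contDiff μ L cl.diff
      conj := fun g x => ccv_conj μ L cl.conj g x
      inv := fun x => ccv_inv μ L cl.conj cl.inv x
      real := fun g => by rw [ccv_rho μ L cl.real, Complex.ofReal_im]
      nonneg := fun g => by
        rw [ccv_rho μ L cl.real, Complex.ofReal_re]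
        exact cnv_nonneg μ (fun x => cl.nonneg x) (fun x => cl.nonneg x) g
      pos := hone
      small := ⟨_, hsf.diff, hsf.even, hsf.ad, hsf.real, hsf.le, hsf.eq⟩
      large := ?_ }, hsf⟩
  · intro Z hZ k hk
    have h1 := conv_large μ P cl ht hA hAt hs'0 Z hZ k hk
    refine h1.trans ?_
    have hts : Real.sqrt t < r0 / 20 := by
      rw [Real.sqrt_lt' (by positivity)]
      have := T.t3
      have h2 : 0 < r0 ^ 2 := by positivity
      nlinarith
    have hlow := ccv_one_lower μ P cl hw ht hA hAt hts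
    have hmu := bal_pos μ L (Real.sqrt t) (Real.sqrt_pos.2 ht)
    set X := (1 + 1 / 10000) * ‖imP (Z : Mt m)‖ ^ 2 with hXd
    have hX0 : 0 ≤ X := by positivity
    have hX1 : X ≤ r0 ^ 2 / 15 := by
      have := pow_le_pow_left₀ (norm_nonneg _) hZ.2.le 2
      rw [hXd]
      nlinarith [sq_nonneg r0]
    have e1 : (b' - X) / (2 * (1 / (1 / (2 * t) - 2 * a))) = (b' - X) / (4 * t) - a * (b' - X) := by
      rw [mul_one_div, div_div_eq_mul_div]
      field_simp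
      ring
    rw [e1]
    have hmin : b' + r0 ^ 2 / 100 ≤ min (2 * b) ((1 - 1 / 10000) * s' ^ 2) := le_min h4 h5
    have hexp : -((min (2 * b) ((1 - 1 / 10000) * s' ^ 2) - X) / (4 * t)) ≤
        -(r0 ^ 2 / (400 * t)) + 32 + -((b' - X) / (4 * t) - a * (b' - X)) := by
      have c1 : a * (b' - X) ≥ -32 := by
        have d1 : |a * (b' - X)| ≤ 16 / r0 ^ 2 * (2 * r0 ^ 2) := by
          rw [abs_mul]
          refine mul_le_mul haabs ?_ (abs_nonneg _) (by positivity)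
          rw [abs_le]
          constructor <;> nlinarith [sq_nonneg r0]
        have d2 : 16 / r0 ^ 2 * (2 * r0 ^ 2) = 32 := by field_simp; norm_num
        rw [d2] at d1
        exact (abs_le.1 d1).1
      have c2 : (min (2 * b) ((1 - 1 / 10000) * s' ^ 2) - X) / (4 * t) ≥
          (b' + r0 ^ 2 / 100 - X) / (4 * t) :=
        div_le_div_of_nonneg_right (by linarith) (by positivity)
      have c3 : (b' + r0 ^ 2 / 100 - X) / (4 * t) = (b' - X) / (4 * t) + r0 ^ 2 / (400 * t) := by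
        field_simp
        ring
      linarith
    have hF2 : 0 ≤ (F 1).re ^ 2 := sq_nonneg _
    calc (F 1).re ^ 2 * Real.exp (-((min (2 * b) ((1 - 1 / 10000) * s' ^ 2) - X) / (4 * t)))
        ≤ (F 1).re ^ 2 * Real.exp (-(r0 ^ 2 / (400 * t)) + 32 +
            -((b' - X) / (4 * t) - a * (b' - X))) :=
          mul_le_mul_of_nonneg_left (Real.exp_le_exp.2 hexp) hF2
      _ = ((F 1).re ^ 2 * (Real.exp (-(r0 ^ 2 / (400 * t))) * Real.exp 32)) *
            Real.exp (-((b' - X) / (4 * t) - a * (b' - X))) := by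
          rw [Real.exp_add, Real.exp_add]; ring
      _ ≤ (ccv L μ F 1).re * Real.exp (-((b' - X) / (4 * t) - a * (b' - X))) := by
          refine mul_le_mul_of_nonneg_right (le_trans ?_ hlow) (Real.exp_pos _).le
          rw [mul_assoc ((F 1).re ^ 2)]
          refine mul_le_mul_of_nonneg_left ?_ hF2
          have c4 := T.t1
          have c5 : Real.exp (-50) * Real.exp 32 ≤ Real.exp (-(51 / 50)) := by
            rw [← Real.exp_add]
            exact Real.exp_le_exp.2 (by norm_num)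
          calc Real.exp (-(r0 ^ 2 / (400 * t))) * Real.exp 32
              ≤ (Real.exp (-50) * μ.real (bal L (Real.sqrt t))) * Real.exp 32 :=
                mul_le_mul_of_nonneg_right c4 (Real.exp_pos _).le
            _ = (Real.exp (-50) * Real.exp 32) * μ.real (bal L (Real.sqrt t)) := by ring
            _ ≤ _ := mul_le_mul_of_nonneg_right c5 hmu.le

/-- **The convolution step.** -/
theorem conv_cls (hs : Simple L) {D : LogData m} {εg δ r0 r s b r' : ℝ}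
    (P : Par L D εg δ r0 r s b r') {Cm : ℝ}
    (hCm : ∀ t : ℝ, 0 < t → ∫ y, (1 + dis L y ^ 2 / t + (dis L y ^ 2 / t) ^ 2) *
      Real.exp (-(1 / 2 * dis L y ^ 2 / t)) ∂μ ≤ Cm * μ.real (bal L (Real.sqrt t)))
    (hCm0 : 0 ≤ Cm) (hR : 32 * (192 / δ ^ 2 + 7400) * Cm * r0 ^ 2 ≤ 1)
    {F : Mt m → ℂ} {t A : ℝ} (cl : Cls L F t A r (r0 / 4) s b (1 / 10000)) {w : gC L → ℂ}
    (hw : SFw L F t A r (r0 / 4) w) (T : TC μ L r0 t) (hA : 0 ≤ A) (hAt : A * t ≤ 1 / 10)
    {s' b' : ℝ} (hs'0 : 0 ≤ s') (hb'0 : 0 ≤ b') (h4 : b' + r0 ^ 2 / 100 ≤ 2 * b)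
    (h5 : b' + r0 ^ 2 / 100 ≤ (1 - 1 / 10000) * s' ^ 2) (h6 : b' ≤ 2 * r0 ^ 2) :
    ∃ a : ℝ, |a| ≤ 16 / r0 ^ 2 ∧
      (∀ Z : gC L, Tendsto (fun s : ℝ => Complex.log (calE μ F t w ((s : ℂ) • Z)) / (s : ℂ) ^ 2)
        (𝓝[≠] 0) (𝓝 ((a : ℂ) * Qf (Z : Mt m)))) ∧
      Cls L (ccv L μ F) (1 / (1 / (2 * t) - 2 * a)) (A / 8 + 512 / r0 ^ 4) r' (r0 / 4) s' b'
        (1 / 10000) := by
  obtain ⟨a, h1, h2, h3, -⟩ := conv_cls' hs P hCm hCm0 hR cl hw T hA hAt hs'0 hb'0 h4 h5 h6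
  exact ⟨a, h1, h2, h3⟩

end

end Pool.Agent.T2H04.HY
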