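import Mathlib
import Pool.Agent.T2H04.HY.Chart
import Pool.Agent.T2H04.HY.CovA
import Pool.Agent.T2H04.HY.Haar

/-!
# The one loop coefficient: preliminaries
-/

open MeasureTheory Matrix Filter
open scoped Matrix.Norms.Frobenius Topology

namespace Pool.Agent.T2H04.HY.Dri

set_option linter.unusedSectionVars false

noncomputable section

/-! ### the real scalar product -/

section ip

variable {m : Type} [Fintype m] [DecidableEq m]

theorem ipr_add (X Y Z : Mt m) : ipr X (Y + Z) = ipr X Y + ipr X Z := by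
  unfold ipr
  rw [mul_add, trace_add, Complex.add_re]

theorem ipr_smul (c : ℝ) (X Y : Mt m) : ipr X (c • Y) = c * ipr X Y := by
  unfold ipr
  rw [mul_smul_comm, trace_smul, Complex.real_smul, Complex.re_ofReal_mul]

theorem ipr_comm (X Y : Mt m) : ipr X Y = ipr Y X := by
  unfold ipr
  have h : (Xᴴ * Y)ᴴ = Yᴴ * X := by rw [conjTranspose_mul, conjTranspose_conjTranspose]
  rw [← h, trace_conjTranspose]
  simp

theorem ipr_zero (X : Mt m) : ipr X 0 = 0 := by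
  unfold ipr
  rw [mul_zero, trace_zero, Complex.zero_re]

theorem ipr_neg (X Y : Mt m) : ipr X (-Y) = -ipr X Y := by
  unfold ipr
  rw [mul_neg, trace_neg, Complex.neg_re]

theorem ipr_sub (X Y Z : Mt m) : ipr X (Y - Z) = ipr X Y - ipr X Z := by
  rw [sub_eq_add_neg, ipr_add, ipr_neg, sub_eq_add_neg]

theorem ipr_self (X : Mt m) : ipr X X = ‖X‖ ^ 2 := (norm_sq_eq X).symm

theorem ipr_sum {ι : Type*} (s : Finset ι) (X : Mt m) (Y : ι → Mt m) :
    ipr X (∑ i ∈ s, Y i) = ∑ i ∈ s, ipr X (Y i) := by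
  classical
  induction s using Finset.induction_on with
  | empty => simp [ipr_zero]
  | insert a s ha ih => rw [Finset.sum_insert ha, Finset.sum_insert ha, ipr_add, ih]

theorem abs_ipr_le (X Y : Mt m) : |ipr X Y| ≤ ‖X‖ * ‖Y‖ := by
  have key : ∀ c : ℝ, 0 ≤ ‖X‖ ^ 2 + 2 * c * ipr X Y + c ^ 2 * ‖Y‖ ^ 2 := by
    intro c
    have h1 : ipr (X + c • Y) (X + c • Y) = ‖X‖ ^ 2 + 2 * c * ipr X Y + c ^ 2 * ‖Y‖ ^ 2 := by
      rw [ipr_add, ipr_smul, ipr_comm (X + c • Y) X, ipr_comm (X + c • Y) Y, ipr_add, ipr_add,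
        ipr_smul, ipr_smul, ipr_self, ipr_self, ipr_comm Y X]
      ring
    rw [← h1, ipr_self]
    positivity
  have hX := norm_nonneg X
  have hY := norm_nonneg Y
  rcases eq_or_lt_of_le hY with h | h
  · have hY0 : Y = 0 := norm_eq_zero.1 h.symm
    rw [hY0, ipr_zero, abs_zero, norm_zero, mul_zero]
  · have h1 := key (-(ipr X Y) / ‖Y‖ ^ 2)
    have h2 : ‖X‖ ^ 2 + 2 * (-(ipr X Y) / ‖Y‖ ^ 2) * ipr X Y +
        (-(ipr X Y) / ‖Y‖ ^ 2) ^ 2 * ‖Y‖ ^ 2 = (‖X‖ ^ 2 * ‖Y‖ ^ 2 - ipr X Y ^ 2) / ‖Y‖ ^ 2 := by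
      field_simp
      ring
    rw [h2, le_div_iff₀ (by positivity), zero_mul] at h1
    refine abs_le_of_sq_le_sq ?_ (by positivity)
    rw [mul_pow]
    linarith

theorem ipr_one_skew {Y : Mt m} (hY : Yᴴ = -Y) : ipr Y 1 = 0 := by
  have h1 : ipr Y 1 = (trace (Yᴴ)).re := by unfold ipr; rw [mul_one]
  have h2 : (trace Yᴴ).re = (trace Y).re := re_trace_star Y
  have h3 : (trace Yᴴ).re = -(trace Y).re := by rw [hY, trace_neg, Complex.neg_re]
  rw [h1]
  linarith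

theorem ipr_sq_skew {Y η : Mt m} (hY : Yᴴ = -Y) (hη : ηᴴ = -η) : ipr Y (η * η) = 0 := by
  have h1 : ipr Y (η * η) = -(trace (Y * (η * η))).re := by
    unfold ipr; rw [hY, neg_mul, trace_neg, Complex.neg_re]
  have h2 : (trace (Y * (η * η))ᴴ).re = (trace (Y * (η * η))).re := re_trace_star _
  have h3 : (trace (Y * (η * η))ᴴ).re = -(trace (Y * (η * η))).re := by
    rw [conjTranspose_mul, conjTranspose_mul, hY, hη, neg_mul_neg, mul_neg, trace_neg,
      Complex.neg_re, trace_mul_comm]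
  rw [h1]
  linarith

theorem ipr_ad {E X η : Mt m} (hE : Eᴴ = -E) (hX : Xᴴ = -X) :
    ipr E (X * η - η * X) = ipr (E * X - X * E) η := by
  unfold ipr
  have h1 : (E * X - X * E)ᴴ = -(E * X - X * E) := by
    rw [conjTranspose_sub, conjTranspose_mul, conjTranspose_mul, hE, hX]
    noncomm_ring
  rw [h1, hE, neg_mul, neg_mul, trace_neg, trace_neg]
  congr 2
  rw [mul_sub, sub_mul, trace_sub, trace_sub]
  congr 1
  · rw [mul_assoc]
  · rw [mul_assoc X E η, trace_mul_comm X (E * η), mul_assoc]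

/-- Parseval -/
theorem parseval {n : ℕ} {E : Fin n → Mt m}
    (orth : ∀ a b, (trace ((E a)ᴴ * E b)).re = if a = b then 1 else 0) {Z : Mt m}
    (hZ : Z ∈ Submodule.span ℝ (Set.range E)) : ‖Z‖ ^ 2 = ∑ a, ipr (E a) Z ^ 2 := by
  obtain ⟨c, hc⟩ := (Submodule.mem_span_range_iff_exists_fun ℝ).1 hZ
  have h1 : ∀ a, ipr (E a) Z = c a := by
    intro a
    rw [← hc, ipr_sum]
    have : ∀ b, ipr (E a) (c b • E b) = if a = b then c b else 0 := by
      intro b
      rw [ipr_smul]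
      unfold ipr
      rw [orth]
      split_ifs <;> simp
    simp only [this, Finset.sum_ite_eq, Finset.mem_univ, if_true]
  have h2 : ipr Z Z = ∑ a, c a * ipr Z (E a) := by
    conv_lhs => rw [← hc]
    rw [ipr_comm, ipr_comm]
    conv_lhs => rw [hc]
    conv_lhs => arg 2; rw [← hc]
    rw [ipr_sum]
    exact Finset.sum_congr rfl fun a _ => ipr_smul _ _ _
  rw [← ipr_self, h2]
  refine Finset.sum_congr rfl fun a _ => ?_
  rw [ipr_comm, h1]
  ring

/-- Taylor expansion of the exponential -/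
theorem exp_taylor (η : Mt m) (hη : ‖η‖ ≤ 1) :
    ‖NormedSpace.exp η - 1 - η - (1 / 2 : ℝ) • (η * η)‖ ≤ ‖η‖ ^ 3 := by
  have hs : HasSum (fun n : ℕ => ((n.factorial : ℝ)⁻¹) • η ^ n) (NormedSpace.exp η) :=
    NormedSpace.exp_series_hasSum_exp' η
  have hs3 := (hasSum_nat_add_iff' 3).2 hs
  have e3 : ∑ i ∈ Finset.range 3, ((i.factorial : ℝ)⁻¹) • η ^ i = 1 + η + (1 / 2 : ℝ) • (η * η) := by
    simp [Finset.sum_range_succ, Nat.factorial, pow_two]
  rw [e3] at hs3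
  have e4 : NormedSpace.exp η - (1 + η + (1 / 2 : ℝ) • (η * η)) =
      NormedSpace.exp η - 1 - η - (1 / 2 : ℝ) • (η * η) := by abel
  rw [e4] at hs3
  rw [← hs3.tsum_eq]
  have hg : HasSum (fun n : ℕ => ‖η‖ ^ 3 * (1 / 2 * (1 / 2 : ℝ) ^ n)) (‖η‖ ^ 3 * (1 / 2 * 2)) :=
    (hasSum_geometric_two.mul_left (1 / 2)).mul_left _
  have h1 : ‖η‖ ^ 3 * (1 / 2 * 2) = ‖η‖ ^ 3 := by ring
  rw [h1] at hg
  refine tsum_of_norm_bounded hg fun n => ?_
  rw [norm_smul, norm_inv, Real.norm_natCast]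
  have h2 : ‖η ^ (n + 3)‖ ≤ ‖η‖ ^ 3 := by
    refine (norm_pow_le' η (by omega)).trans ?_
    rw [pow_add]
    have : ‖η‖ ^ n ≤ 1 := pow_le_one₀ (norm_nonneg _) hη
    have h3 : 0 ≤ ‖η‖ ^ 3 := by positivity
    nlinarith
  have h3 : (((n + 3).factorial : ℝ))⁻¹ ≤ 1 / 2 * (1 / 2 : ℝ) ^ n := by
    have h4 : ∀ n : ℕ, 2 ^ (n + 1) ≤ (n + 3).factorial := by
      intro n
      induction n with
      | zero => decide
      | succ n ih =>
        rw [show n + 1 + 3 = (n + 3) + 1 from rfl, Nat.factorial_succ, pow_succ]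
        nlinarith
    have h5 : (2 : ℝ) ^ (n + 1) ≤ ((n + 3).factorial : ℝ) := by exact_mod_cast h4 n
    have h6 : 1 / 2 * (1 / 2 : ℝ) ^ n = ((2 : ℝ) ^ (n + 1))⁻¹ := by
      rw [pow_succ, one_div, inv_pow, mul_inv]; ring
    rw [h6]
    exact inv_anti₀ (by positivity) h5
  calc (((n + 3).factorial : ℝ))⁻¹ * ‖η ^ (n + 3)‖ ≤ (1 / 2 * (1 / 2 : ℝ) ^ n) * ‖η‖ ^ 3 :=
        mul_le_mul h3 h2 (norm_nonneg _) (by positivity)
    _ = _ := by ring

theorem ipr_exp {Y η : Mt m} (hY : Yᴴ = -Y) (hη : ηᴴ = -η) (h1 : ‖η‖ ≤ 1) :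
    |ipr Y (NormedSpace.exp η) - ipr Y η| ≤ ‖Y‖ * ‖η‖ ^ 3 := by
  have e : ipr Y (NormedSpace.exp η) - ipr Y η =
      ipr Y (NormedSpace.exp η - 1 - η - (1 / 2 : ℝ) • (η * η)) := by
    rw [ipr_sub, ipr_sub, ipr_sub, ipr_smul, ipr_one_skew hY, ipr_sq_skew hY hη]
    ring
  rw [e]
  exact (abs_ipr_le _ _).trans (mul_le_mul_of_nonneg_left (exp_taylor η h1) (norm_nonneg _))

theorem ipr_exp_sq {Y η : Mt m} (hY : Yᴴ = -Y) (hη : ηᴴ = -η) (h1 : ‖η‖ ≤ 1) :
    |ipr Y η ^ 2 - ipr Y (NormedSpace.exp η) ^ 2| ≤ 3 * ‖Y‖ ^ 2 * ‖η‖ ^ 4 := by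
  have h2 := ipr_exp hY hη h1
  have h3 := abs_ipr_le Y η
  have hY0 := norm_nonneg Y
  have hη0 := norm_nonneg η
  have e : ipr Y η ^ 2 - ipr Y (NormedSpace.exp η) ^ 2 =
      -((ipr Y (NormedSpace.exp η) - ipr Y η) *
        (2 * ipr Y η + (ipr Y (NormedSpace.exp η) - ipr Y η))) := by ring
  rw [e, abs_neg, abs_mul]
  have h4 : |2 * ipr Y η + (ipr Y (NormedSpace.exp η) - ipr Y η)| ≤ 3 * (‖Y‖ * ‖η‖) := by
    refine (abs_add_le _ _).trans ?_
    rw [abs_mul, abs_two]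
    have : ‖η‖ ^ 3 ≤ ‖η‖ := by
      have : ‖η‖ ^ 3 = ‖η‖ * (‖η‖ * ‖η‖) := by ring
      rw [this]
      have : ‖η‖ * ‖η‖ ≤ 1 := by nlinarith
      nlinarith
    nlinarith [mul_le_mul_of_nonneg_left this hY0]
  calc |ipr Y (NormedSpace.exp η) - ipr Y η| *
        |2 * ipr Y η + (ipr Y (NormedSpace.exp η) - ipr Y η)|
      ≤ (‖Y‖ * ‖η‖ ^ 3) * (3 * (‖Y‖ * ‖η‖)) := mul_le_mul h2 h4 (abs_nonneg _) (by positivity)
    _ = 3 * ‖Y‖ ^ 2 * ‖η‖ ^ 4 := by ring

end ip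

/-! ### the group -/

section grp

variable {G : Type} [Group G] [TopologicalSpace G] [IsTopologicalGroup G] [CompactSpace G]
  {m : Type} [Fintype m] [DecidableEq m] (L : RD G m)

/-- the Lie algebra is closed under the bracket -/
theorem lie_brk {X Y : Mt m} (hX : X ∈ lieSet L) (hY : Y ∈ lieSet L) :
    X * Y - Y * X ∈ lieSet L := by
  have hcl : IsClosed (lieAlg L : Set (Mt m)) := Submodule.closed_of_finiteDimensional (lieAlg L)
  have h1 : HasDerivAt (fun t : ℝ => NormedSpace.exp (t • X) * Y * NormedSpace.exp (t • -X))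
      (X * Y - Y * X) 0 := by
    have h2 := ((hasDerivAt_exp X 0).mul_const Y).mul (hasDerivAt_exp (-X) 0)
    simp only [zero_smul, NormedSpace.exp_zero, one_mul, mul_one] at h2
    rw [mul_neg, ← sub_eq_add_neg] at h2
    exact h2
  have h2 := h1.tendsto_slope_zero
  simp only [zero_add, zero_smul, NormedSpace.exp_zero, one_mul, mul_one] at h2
  refine (mem_lieAlg L).1 (hcl.mem_of_tendsto h2 (Filter.Eventually.of_forall fun t => ?_))
  refine (lieAlg L).smul_mem _ ((lieAlg L).sub_mem ?_ ((mem_lieAlg L).2 hY))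
  obtain ⟨g, hg⟩ := hX t
  have hginv : L.rho g⁻¹ = NormedSpace.exp (t • -X) := by
    have h5 : L.rho g⁻¹ = L.rho g⁻¹ * (NormedSpace.exp (t • X) * NormedSpace.exp (-(t • X))) := by
      rw [exp_mul_exp_neg, mul_one]
    rw [h5, ← mul_assoc, ← hg, rho_inv_mul, one_mul, smul_neg]
  rw [← hg, ← hginv]
  exact (mem_lieAlg L).2 (lie_conj L g hY)

/-- the logarithm of a group element near `1` -/
def et (D : LogData m) (y : G) : gC L := prj L (D.lg (L.rho y))

variable {L} {D : LogData m} {ε δ : ℝ} (ch : Chart L D ε δ)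

include ch in
theorem et_coe {y : G} (hy : dis L y < δ) : ((et L D y : gC L) : Mt m) = D.lg (L.rho y) :=
  coe_prj L (gC_of_lie L (ch.lgm y hy).1)

include ch in
theorem et_lie {y : G} (hy : dis L y < δ) : ((et L D y : gC L) : Mt m) ∈ lieSet L := by
  rw [et_coe ch hy]
  exact (ch.lgm y hy).1

include ch in
theorem et_im {y : G} (hy : dis L y < δ) : imP ((et L D y : gC L) : Mt m) = 0 :=
  imP_of_skew (lie_skew L (et_lie ch hy))

include ch in
theorem et_exp {y : G} (hy : dis L y < δ) :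
    NormedSpace.exp ((et L D y : gC L) : Mt m) = L.rho y := by
  rw [et_coe ch hy]
  exact (ch.lgm y hy).2.1

include ch in
theorem et_norm {y : G} (hy : dis L y < δ) : ‖et L D y‖ ≤ (1 + ε) * dis L y := by
  have h1 : ‖et L D y‖ = ‖((et L D y : gC L) : Mt m)‖ := rfl
  rw [h1, et_coe ch hy]
  exact (ch.lgm y hy).2.2.1

include ch in
theorem et_norm' {y : G} (hy : dis L y < δ) : dis L y ≤ (1 + ε) * ‖et L D y‖ := by
  have h1 : ‖et L D y‖ = ‖((et L D y : gC L) : Mt m)‖ := rfl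
  rw [h1, et_coe ch hy]
  exact (ch.lgm y hy).2.2.2

theorem et_cont (D : LogData m) : ContinuousOn (et L D) {y : G | dis L y < D.R} := by
  have h1 : ContinuousOn (fun y : G => D.lg (L.rho y)) {y : G | dis L y < D.R} := by
    refine D.diff.continuousOn.comp L.cont.continuousOn ?_
    intro y hy
    rw [Metric.mem_ball, dist_eq_norm]
    exact hy
  exact (prj L).continuous.comp_continuousOn h1

end grp

/-! ### tails -/

theorem exp_neg_le_pow (c : ℝ) (hc : 0 < c) (n : ℕ) : ∃ C : ℝ, 0 < C ∧ ∀ t : ℝ, 0 < t →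
    Real.exp (-(c / t)) ≤ C * t ^ n := by
  refine ⟨n.factorial / c ^ n, by positivity, fun t ht => ?_⟩
  have h1 : (c / t) ^ n / n.factorial ≤ Real.exp (c / t) :=
    Real.pow_div_factorial_le_exp _ (by positivity) n
  rw [Real.exp_neg]
  have h2 : (0 : ℝ) < (c / t) ^ n / n.factorial := by positivity
  calc (Real.exp (c / t))⁻¹ ≤ ((c / t) ^ n / n.factorial)⁻¹ := inv_anti₀ h2 h1
    _ = n.factorial / c ^ n * t ^ n := by
        rw [div_pow]
        field_simp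

section tail

variable {G : Type} [Group G] [TopologicalSpace G] [IsTopologicalGroup G] [CompactSpace G]
  [MeasurableSpace G] [BorelSpace G] (μ : Measure G) [μ.IsHaarMeasure] [IsProbabilityMeasure μ]
  {m : Type} [Fintype m] [DecidableEq m] (L : RD G m)

theorem tail_le (c : ℝ) (hc : 0 < c) : ∃ C : ℝ, 0 < C ∧ ∀ t : ℝ, 0 < t → t ≤ 1 →
    Real.exp (-(c / t)) ≤ C * t ^ 3 * μ.real (bal L (Real.sqrt t)) := by
  obtain ⟨cb, hcb, p, hb⟩ := bal_lower μ L
  obtain ⟨C, hC, h⟩ := exp_neg_le_pow c hc (p + 3)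
  refine ⟨C / cb, by positivity, fun t ht ht1 => ?_⟩
  have h1 := hb (Real.sqrt t) (Real.sqrt_pos.2 ht) (Real.sqrt_le_one.2 ht1)
  have h2 : t ≤ Real.sqrt t := by
    have h3 : Real.sqrt t * Real.sqrt t = t := Real.mul_self_sqrt ht.le
    have h4 : Real.sqrt t ≤ 1 := Real.sqrt_le_one.2 ht1
    nlinarith [Real.sqrt_nonneg t]
  have h3 : t ^ p ≤ Real.sqrt t ^ p := pow_le_pow_left₀ ht.le h2 p
  calc Real.exp (-(c / t)) ≤ C * t ^ (p + 3) := h t ht
    _ = C / cb * t ^ 3 * (cb * t ^ p) := by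
        rw [pow_add]; field_simp
    _ ≤ C / cb * t ^ 3 * (cb * Real.sqrt t ^ p) := by
        refine mul_le_mul_of_nonneg_left (mul_le_mul_of_nonneg_left h3 hcb.le) (by positivity)
    _ ≤ _ := mul_le_mul_of_nonneg_left h1 (by positivity)

end tail

end

end Pool.Agent.T2H04.HY.Dri
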