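import Mathlib
import Pool.Agent.T2H04.HY.Conv6
import Pool.Agent.T2H04.HY.Dri1

/-!
# The one loop coefficient: pointwise estimates
-/

open MeasureTheory Matrix Filter
open scoped Matrix.Norms.Frobenius Topology

namespace Pool.Agent.T2H04.HY.Dri

set_option linter.unusedSectionVars false

noncomputable section

variable {G : Type} [Group G] [TopologicalSpace G] [IsTopologicalGroup G] [CompactSpace G]
  [MeasurableSpace G] [BorelSpace G] {μ : Measure G} [μ.IsHaarMeasure] [IsProbabilityMeasure μ]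
  {m : Type} [Fintype m] [DecidableEq m] {L : RD G m}

/-- the integrand -/
def phi (L : RD G m) (F : Mt m → ℂ) (t : ℝ) (w : gC L → ℂ) (Z : gC L) (y : G) : ℂ :=
  F (NormedSpace.exp ((1 / 2 : ℂ) • (Z : Mt m)) * L.rho y) *
    F (NormedSpace.exp ((1 / 2 : ℂ) • (Z : Mt m)) * L.rho y⁻¹) * ev t w Z -
      F (L.rho y) * F (L.rho y)

theorem phi_cont {F : Mt m → ℂ} (hF : Continuous F) (t : ℝ) (w : gC L → ℂ) (Z : gC L) :
    Continuous (phi L F t w Z) := by
  unfold phi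
  refine Continuous.sub (Continuous.mul (Continuous.mul ?_ ?_) continuous_const) ?_
  · exact hF.comp (continuous_const.mul L.cont)
  · exact hF.comp (continuous_const.mul (L.cont.comp continuous_inv))
  · exact (hF.comp L.cont).mul (hF.comp L.cont)

theorem calE_int {F : Mt m → ℂ} {t A r r0 s b : ℝ} {w : gC L → ℂ}
    (cl : Cls L F t A r (r0 / 4) s b (1 / 10000)) (Z : gC L) :
    (calE μ F t w Z - 1) * ccv L μ F 1 = ∫ y, phi L F t w Z y ∂μ := by
  have h1 := ccv_sym μ cl.diff cl.conj Z 1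
  rw [map_one, mul_one] at h1
  have h2 : ccv L μ F 1 = ∫ y, F (L.rho y) * F (L.rho y) ∂μ := by
    unfold ccv
    refine integral_congr_ae (Filter.Eventually.of_forall fun y => ?_)
    have : F (L.rho y⁻¹) = F (L.rho y) := by rw [← L.sig_rho, cl.inv]
    simp only [mul_one, this]
  have hcF := cl.diff.continuous
  have hc1 : Continuous fun y : G => F (NormedSpace.exp ((1 / 2 : ℂ) • (Z : Mt m)) * L.rho y) *
      F (NormedSpace.exp ((1 / 2 : ℂ) • (Z : Mt m)) * L.rho (1 * y⁻¹)) := by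
    refine (hcF.comp (continuous_const.mul L.cont)).mul (hcF.comp (continuous_const.mul ?_))
    exact L.cont.comp (continuous_const.mul continuous_inv)
  have hc2 : Continuous fun y : G => F (L.rho y) * F (L.rho y) :=
    (hcF.comp L.cont).mul (hcF.comp L.cont)
  have hne := ccv_one_ne (μ := μ) cl
  have e1 : (calE μ F t w Z - 1) * ccv L μ F 1 =
      ccv L μ F (NormedSpace.exp (Z : Mt m)) * ev t w Z - ccv L μ F 1 := by
    unfold calE
    field_simp
  rw [e1, h1, h2, ← integral_mul_const, ← integral_sub ((intg μ hc1).mul_const _) (intg μ hc2)]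
  refine integral_congr_ae (Filter.Eventually.of_forall fun y => ?_)
  simp only [one_mul, phi]

/-- the exponent -/
def Sx (D : LogData m) (t : ℝ) (w : gC L → ℂ) (Z η : gC L) : ℂ :=
  sdf D (fun Z : gC L => Qf (Z : Mt m)) Z η / (2 * t) + sdf D w Z η

section near

variable {D : LogData m} {εg δ r0 r s b r' : ℝ} (P : Par L D εg δ r0 r s b r')
    {F : Mt m → ℂ} {t A : ℝ} (cl : Cls L F t A r (r0 / 4) s b (1 / 10000)) {w : gC L → ℂ}
    (hw : SFw L F t A r (r0 / 4) w) (ht : 0 < t) (hA : 0 ≤ A) (hAt : A * t ≤ 1 / 10)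

include P in
theorem et_lt {y : G} (hy : dis L y < r0 / 20) : ‖et L D y‖ < r0 / 16 := by
  have hr0 := P.r0_pos
  have hδ := P.r0_δ
  have he1 := P.e1
  have he0 := P.e0
  have h1 := et_norm P.ch (y := y) (by linarith)
  have hd0 : 0 ≤ dis L y := norm_nonneg _
  nlinarith

include P cl hw in
/-- the integrand near `1` -/
theorem inner_eq (Z : gC L) (hZ : Z ∈ dom L r' (r0 / 4)) (y : G) (hy : dis L y < r0 / 20) :
    phi L F t w Z y = F (L.rho y) * F (L.rho y) * (Complex.exp (-Sx D t w Z (et L D y)) - 1) := by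
  have hr0 := P.r0_pos
  have hr01 := P.r0_le
  have hrl := P.r_lo
  have hrh := P.r_hi
  have hrl' := P.r'_lo
  have hrh' := P.r'_hi
  have hδ := P.r0_δ
  have h2 := P.h2
  have he0 := P.e0
  have he1 := P.e1
  have hyδ : dis L y < δ := by linarith
  set η := et L D y with hηd
  have hη16 : ‖η‖ < r0 / 16 := et_lt P hy
  have hbc : ∀ η' : gC L, ‖η'‖ < r0 / 16 → bc L D ((1 / 2 : ℂ) • Z) η' ∈ dom L r (r0 / 4) :=
    fun η' h => bc_mem_dom P.ch he0 Z η' hZ h (by linarith) (by linarith) (by nlinarith)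
      (by nlinarith) (by linarith) (by positivity)
  have hZn : ‖Z‖ < 5 / 4 * r0 := norm_lt_dom hZ (by positivity) (by nlinarith)
  have hZ2 : ‖(1 / 2 : ℂ) • Z‖ < δ := by rw [norm_half']; linarith
  have hηδ : ‖η‖ < δ := by linarith
  have hnη : ‖-η‖ < r0 / 16 := by rwa [norm_neg]
  have hηdom : η ∈ dom L r (r0 / 4) := ball_sub_dom (ρ := r0 / 16) (by linarith) (by linarith)
    (by rwa [mem_ball_zero_iff])
  -- exponentials
  have ey : L.rho y = NormedSpace.exp (η : Mt m) := (et_exp P.ch hyδ).symm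
  have ey' : L.rho y⁻¹ = NormedSpace.exp ((-η : gC L) : Mt m) := by
    have h3 : L.rho y⁻¹ * (L.rho y * NormedSpace.exp (-(η : Mt m))) = L.rho y⁻¹ := by
      rw [ey, exp_mul_exp_neg, mul_one]
    rw [← mul_assoc, rho_inv_mul, one_mul] at h3
    rw [NegMemClass.coe_neg]
    exact h3.symm
  have e1 : NormedSpace.exp ((1 / 2 : ℂ) • (Z : Mt m)) * L.rho y =
      NormedSpace.exp ((bc L D ((1 / 2 : ℂ) • Z) η : gC L) : Mt m) := by
    rw [exp_bc P.ch hZ2 hηδ, ey]; rfl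
  have e2 : NormedSpace.exp ((1 / 2 : ℂ) • (Z : Mt m)) * L.rho y⁻¹ =
      NormedSpace.exp ((bc L D ((1 / 2 : ℂ) • Z) (-η) : gC L) : Mt m) := by
    rw [exp_bc P.ch hZ2 (by rwa [norm_neg]), ey']; rfl
  unfold phi
  rw [e1, e2, hw.eq _ (hbc η hη16), hw.eq _ (hbc (-η) hnη), ey, hw.eq η hηdom]
  have b1 : Complex.exp (-(Qf ((bc L D ((1 / 2 : ℂ) • Z) η : gC L) : Mt m) / (2 * t)) -
        w (bc L D ((1 / 2 : ℂ) • Z) η)) *
        Complex.exp (-(Qf ((bc L D ((1 / 2 : ℂ) • Z) (-η) : gC L) : Mt m) / (2 * t)) -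
        w (bc L D ((1 / 2 : ℂ) • Z) (-η))) * ev t w Z =
        Complex.exp (-(Qf (η : Mt m) / (2 * t)) - w η) ^ 2 * Complex.exp (-Sx D t w Z η) := by
    unfold ev Sx
    rw [← Complex.exp_add, ← Complex.exp_add, ← Complex.exp_nat_mul, ← Complex.exp_add]
    congr 1
    simp only [sdf, coe_half]
    push_cast
    ring
  linear_combination (F 1) ^ 2 * b1

include P hw ht hA hAt in
theorem Sx_le (Z : gC L) (hZ : Z ∈ dom L r' (r0 / 4)) (y : G) (hy : dis L y < r0 / 20) :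
    ‖Sx D t w Z (et L D y)‖ ≤ (192 / δ ^ 2 + 7400) * ‖Z‖ ^ 2 * (‖et L D y‖ ^ 2 / t) := by
  have hr0 := P.r0_pos
  have hr01 := P.r0_le
  have hrl := P.r_lo
  have hrh := P.r_hi
  have hrl' := P.r'_lo
  have hrh' := P.r'_hi
  have hδ := P.r0_δ
  have he0 := P.e0
  have he1 := P.e1
  have hyδ : dis L y < δ := by linarith
  set η := et L D y with hηd
  have hη16 : ‖η‖ < r0 / 16 := et_lt P hy
  have hηim : imP (η : Mt m) = 0 := et_im P.ch hyδ
  have hZn : ‖Z‖ < 5 / 4 * r0 := norm_lt_dom hZ (by positivity) (by nlinarith)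
  have a1 := sdf_Q_le P.ch he0 he1 Z η (by linarith) hηim (by linarith)
  have a2 := sdf_w_le P hw hA Z η hZ hηim hη16
  have a3 : ‖sdf D (fun Z : gC L => Qf (Z : Mt m)) Z η / (2 * t)‖ =
      ‖sdf D (fun Z : gC L => Qf (Z : Mt m)) Z η‖ / (2 * t) := by
    rw [norm_div]
    congr 1
    rw [norm_mul, Complex.norm_real, Real.norm_eq_abs, abs_of_pos ht]
    simp
  have a4 : ‖sdf D (fun Z : gC L => Qf (Z : Mt m)) Z η‖ / (2 * t) ≤
      384 / δ ^ 2 * ‖Z‖ ^ 2 * ‖η‖ ^ 2 / (2 * t) :=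
    div_le_div_of_nonneg_right a1 (by positivity)
  have a5 : 384 / δ ^ 2 * ‖Z‖ ^ 2 * ‖η‖ ^ 2 / (2 * t) =
      192 / δ ^ 2 * ‖Z‖ ^ 2 * (‖η‖ ^ 2 / t) := by
    have : ∀ x y z : ℝ, 384 / z * x * y / (2 * t) = 192 / z * x * (y / t) := by
      intro x y z; ring
    exact this _ _ _
  have a6 : 73728 * A * ‖Z‖ ^ 2 * ‖η‖ ^ 2 ≤ 7400 * ‖Z‖ ^ 2 * (‖η‖ ^ 2 / t) := by
    have b1 : ∀ x y : ℝ, 0 ≤ x → 0 ≤ y → 73728 * A * x * y ≤ 7400 * x * (y / t) := by
      intro x y hx hy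
      rw [mul_div_assoc', le_div_iff₀ ht]
      have : 0 ≤ x * y := by positivity
      nlinarith
    exact b1 _ _ (by positivity) (by positivity)
  unfold Sx
  refine (norm_add_le _ _).trans ?_
  rw [a3]
  have : (192 / δ ^ 2 + 7400) * ‖Z‖ ^ 2 * (‖η‖ ^ 2 / t) =
      192 / δ ^ 2 * ‖Z‖ ^ 2 * (‖η‖ ^ 2 / t) + 7400 * ‖Z‖ ^ 2 * (‖η‖ ^ 2 / t) := by ring
  rw [this]
  linarith

include P cl hw ht hA hAt in
/-- the integrand near `1`, first order in the quadratic form -/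
theorem inner2 (Z : gC L) (hZ : Z ∈ dom L r' (r0 / 4)) (y : G) (hy : dis L y < r0 / 20) :
    ‖phi L F t w Z y + F (L.rho y) * F (L.rho y) *
        (sdf D (fun Z : gC L => Qf (Z : Mt m)) Z (et L D y) / (2 * t))‖ ≤
      ‖F (L.rho y)‖ ^ 2 * (‖Sx D t w Z (et L D y)‖ ^ 2 * Real.exp ‖Sx D t w Z (et L D y)‖ +
        73728 * A * ‖Z‖ ^ 2 * ‖et L D y‖ ^ 2) := by
  have hr0 := P.r0_pos
  have hδ := P.r0_δ
  have hyδ : dis L y < δ := by linarith
  have a2 := sdf_w_le P hw hA Z (et L D y) hZ (et_im P.ch hyδ) (et_lt P hy)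
  rw [inner_eq P cl hw Z hZ y hy]
  set S := Sx D t w Z (et L D y) with hS
  have e : F (L.rho y) * F (L.rho y) * (Complex.exp (-S) - 1) + F (L.rho y) * F (L.rho y) *
        (sdf D (fun Z : gC L => Qf (Z : Mt m)) Z (et L D y) / (2 * t)) =
      F (L.rho y) * F (L.rho y) * ((Complex.exp (-S) - 1 - (-S)) - sdf D w Z (et L D y)) := by
    rw [hS]
    unfold Sx
    ring
  rw [e, norm_mul, norm_mul, ← pow_two]
  refine mul_le_mul_of_nonneg_left ?_ (by positivity)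
  refine (norm_sub_le _ _).trans (add_le_add ?_ a2)
  have h1 := Complex.norm_exp_sub_sum_le_norm_mul_exp (-S) 2
  rw [Finset.sum_range_succ, Finset.sum_range_one] at h1
  simp only [pow_zero, Nat.factorial_zero, Nat.cast_one, div_one, pow_one, Nat.factorial_one,
    norm_neg] at h1
  have e2 : Complex.exp (-S) - 1 - -S = Complex.exp (-S) - (1 + -S) := by ring
  rw [e2]
  exact h1

include P cl ht hA hAt in
theorem F_sq_le {y : G} {ρ : ℝ} (hρ0 : 0 ≤ ρ) (hρ : ρ ≤ r0 / 20) (hy : ρ ≤ dis L y) :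
    ‖F (L.rho y)‖ ^ 2 ≤ (F 1).re ^ 2 * Real.exp (-(1 / 2 * ρ ^ 2 / t)) := by
  have hr0 := P.r0_pos
  have hrl' := P.r'_lo
  have h3 := P.h3
  have h := outer0 P cl ht hA hAt y
  have hmin : ρ ^ 2 / 2 ≤ min b ((1 - 1 / 10000) * dis L y ^ 2) := by
    have h4 := pow_le_pow_left₀ hρ0 hy 2
    have h5 := pow_le_pow_left₀ hρ0 hρ 2
    have h6 := pow_le_pow_left₀ hr0.le hrl' 2
    refine le_min ?_ ?_
    · nlinarith [sq_nonneg r']
    · nlinarith [sq_nonneg ρ]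
  have h5 : ‖F (L.rho y)‖ ≤ (F 1).re * Real.exp (-(ρ ^ 2 / 2 / (2 * t))) := by
    refine h.trans (mul_le_mul_of_nonneg_left (Real.exp_le_exp.2 ?_) cl.pos.le)
    rw [neg_le_neg_iff]
    exact div_le_div_of_nonneg_right hmin (by positivity)
  have h6 := pow_le_pow_left₀ (norm_nonneg _) h5 2
  refine h6.trans (le_of_eq ?_)
  rw [mul_pow, ← Real.exp_nat_mul]
  congr 2
  push_cast
  field_simp

include P cl ht hA hAt in
theorem F_sq_le' {y : G} (hy : dis L y < r0 / 20) :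
    ‖F (L.rho y)‖ ^ 2 ≤ (F 1).re ^ 2 * Real.exp (-(1 / 2 * dis L y ^ 2 / t)) :=
  F_sq_le P cl ht hA hAt (norm_nonneg _) hy.le le_rfl

end near

/-! ### far away -/

section far

variable {D : LogData m} {εg δ r0 r s b r' : ℝ} (P : Par L D εg δ r0 r s b r')
    {F : Mt m → ℂ} {t A : ℝ} (cl : Cls L F t A r (r0 / 4) s b (1 / 10000)) {w : gC L → ℂ}
    (hw : SFw L F t A r (r0 / 4) w) (ht : 0 < t) (hA : 0 ≤ A) (hAt : A * t ≤ 1 / 10)

include P cl hw in
theorem phi_diff (y : G) : DifferentiableOn ℂ (fun Z => phi L F t w Z y) (dom L r' (r0 / 4)) := by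
  have hr0 := P.r0_pos
  have h2 := P.h2
  have hr : r' / 2 ≤ r := by linarith
  intro Z hZ
  have hexp : DifferentiableAt ℂ (fun Z : gC L => NormedSpace.exp ((1 / 2 : ℂ) • (Z : Mt m))) Z :=
    DifferentiableAt.comp (g := NormedSpace.exp) (f := fun Z : gC L => (1 / 2 : ℂ) • (Z : Mt m)) Z
      (exp_diff _) ((gC L).subtypeL.differentiableAt.const_smul (1 / 2 : ℂ))
  have hF : ∀ g : G, DifferentiableAt ℂ
      (fun Z : gC L => F (NormedSpace.exp ((1 / 2 : ℂ) • (Z : Mt m)) * L.rho g)) Z := fun g =>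
    ((cl.diff.differentiable one_ne_zero) _).comp Z (hexp.mul_const _)
  have h2 : DifferentiableAt ℂ (fun Z : gC L => w ((1 / 2 : ℂ) • Z)) Z := by
    have b1 := (hw.diff _ (half_mem hr hr0 hZ)).differentiableAt
      ((isOpen_dom L _ _).mem_nhds (half_mem hr hr0 hZ))
    exact DifferentiableAt.comp (g := w) (f := fun Z : gC L => (1 / 2 : ℂ) • Z) Z b1
      (half_diff Z)
  have h3 : DifferentiableAt ℂ (fun Z : gC L => Qf ((1 / 2 : ℂ) • (Z : Mt m))) Z := by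
    have b1 := (Qf_diff (L := L) ((1 / 2 : ℂ) • Z))
    exact DifferentiableAt.comp (g := fun Z : gC L => Qf (Z : Mt m))
      (f := fun Z : gC L => (1 / 2 : ℂ) • Z) Z b1 (half_diff Z)
  have e4 : ev t w = fun Z : gC L => Complex.exp (2 * (Qf ((1 / 2 : ℂ) • (Z : Mt m)) *
      (2 * (t : ℂ))⁻¹ + w ((1 / 2 : ℂ) • Z))) := by
    funext Z
    unfold ev
    rw [div_eq_mul_inv]
  have h4 : DifferentiableAt ℂ (ev t w) Z := by
    rw [e4]
    exact (((h3.mul_const _).add h2).const_mul 2).cexp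
  exact ((((hF y).mul (hF y⁻¹)).mul h4).sub_const _).differentiableWithinAt

include P cl hw in
theorem phi_neg {Z : gC L} (hZ : Z ∈ dom L r' (r0 / 4)) (y : G) :
    phi L F t w (-Z) y = phi L F t w Z y := by
  have hr0 := P.r0_pos
  have h2 := P.h2
  have hr : r' / 2 ≤ r := by linarith
  have h3 : ev t w (-Z) = ev t w Z := by
    unfold ev
    rw [NegMemClass.coe_neg, smul_neg, Qf_neg, smul_neg, hw.even _ (half_mem hr hr0 hZ)]
  have h4 : ∀ g : G, F (NormedSpace.exp ((1 / 2 : ℂ) • ((-Z : gC L) : Mt m)) * L.rho g) =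
      F (NormedSpace.exp ((1 / 2 : ℂ) • (Z : Mt m)) * L.rho g⁻¹) := by
    intro g
    have a1 : (1 / 2 : ℂ) • (Z : Mt m) ∈ gC L := ((1 / 2 : ℂ) • Z : gC L).2
    have a2 : (1 / 2 : ℂ) • ((-Z : gC L) : Mt m) = -((1 / 2 : ℂ) • (Z : Mt m)) := by
      rw [NegMemClass.coe_neg, smul_neg]
    have a3 : L.sig (NormedSpace.exp (-((1 / 2 : ℂ) • (Z : Mt m)))) =
        NormedSpace.exp ((1 / 2 : ℂ) • (Z : Mt m)) := by
      have := sig_exp L ((gC L).neg_mem a1)
      rw [neg_neg] at this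
      exact this
    rw [a2, ← cl.inv, L.sig_mul, L.sig_rho, a3]
    have a4 := cl.conj g (L.rho g⁻¹ * NormedSpace.exp ((1 / 2 : ℂ) • (Z : Mt m)))
    rw [← a4, ← mul_assoc, rho_mul_inv, one_mul]
  unfold phi
  rw [h4, h4, inv_inv, h3]
  ring

include P cl hw in
theorem phi_zero (y : G) : phi L F t w 0 y = 0 := by
  have hr0 := P.r0_pos
  have hrl := P.r_lo
  have hz : ((1 / 2 : ℂ) • (0 : gC L)) = 0 := smul_zero _
  have hz2 : ((0 : gC L) : Mt m) = 0 := ZeroMemClass.coe_zero _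
  have h2 : ev t w (0 : gC L) = 1 := by
    unfold ev
    have : Qf ((1 / 2 : ℂ) • (0 : Mt m)) = 0 := by
      unfold Qf; rw [smul_zero, mul_zero, trace_zero, neg_zero]
    rw [hz2, hz, this, hw.zero (by linarith) (by positivity), zero_div, add_zero, mul_zero,
      Complex.exp_zero]
  have h3 : F (L.rho y⁻¹) = F (L.rho y) := by rw [← L.sig_rho, cl.inv]
  unfold phi
  rw [h2, hz2, smul_zero, NormedSpace.exp_zero, one_mul, one_mul, h3]
  ring

include P cl hw ht hA hAt in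
/-- the large field part is of second order -/
theorem outer2 (Z : gC L) (hZ : ‖Z‖ < r0 / 4) (y : G) (hy : r0 / 20 ≤ dis L y) :
    ‖phi L F t w Z y‖ ≤
      2 * (F 1).re ^ 2 * Real.exp (-(r0 ^ 2 / (1000 * t))) * (‖Z‖ / (r0 / 4)) ^ 2 := by
  have hr0 := P.r0_pos
  have hrl' := P.r'_lo
  have hball : Metric.ball (0 : gC L) (r0 / 4) ⊆ dom L r' (r0 / 4) :=
    ball_sub_dom (by linarith) le_rfl
  refine schwarz2 (f := fun Z => phi L F t w Z y) (by positivity)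
    ((phi_diff P cl hw y).mono hball) ?_ (phi_zero P cl hw y)
    (fun Z hZ => phi_neg P cl hw (hball hZ) y) Z (by rwa [mem_ball_zero_iff])
  intro Z hZ
  have o1 := outer P cl hw ht hA hAt Z (hball hZ) y hy
  have o2 := outer1 P cl ht hA hAt y hy
  refine (norm_sub_le _ _).trans ?_
  calc _ ≤ (F 1).re ^ 2 * Real.exp (-(r0 ^ 2 / (1000 * t))) +
        (F 1).re ^ 2 * Real.exp (-(r0 ^ 2 / (1000 * t))) := add_le_add o1 o2
    _ = _ := by ring

theorem u_exp_le (u : ℝ) : u * Real.exp (-(u / 2)) ≤ 4 * Real.exp (-(u / 4)) := by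
  have h1 : u / 4 ≤ Real.exp (u / 4) := by
    have := Real.add_one_le_exp (u / 4)
    linarith
  have h2 : Real.exp (-(u / 2)) = Real.exp (-(u / 4)) * Real.exp (-(u / 4)) := by
    rw [← Real.exp_add]; congr 1; ring
  have h3 : Real.exp (u / 4) * Real.exp (-(u / 4)) = 1 := by
    rw [← Real.exp_add]; simp
  have h4 := Real.exp_pos (-(u / 4))
  have h5 : u / 4 * Real.exp (-(u / 4)) ≤ 1 := by
    rw [← h3]; exact mul_le_mul_of_nonneg_right h1 h4.le
  rw [h2]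
  nlinarith

include P cl hw ht hA hAt in
/-- everything at distance at least `ρ` is of second order and exponentially small -/
theorem far (Z : gC L) (hZ : ‖Z‖ < r0 / 4) {ρ : ℝ} (hρ : 0 < ρ) (hρ1 : ρ ≤ r0 / 20) (y : G)
    (hy : ρ ≤ dis L y) :
    ‖phi L F t w Z y‖ ≤ (F 1).re ^ 2 * ((32 / r0 ^ 2 + 5 * (192 / δ ^ 2 + 7400)) * ‖Z‖ ^ 2 *
      Real.exp (-(ρ ^ 2 / 1000 / t))) := by
  have hr0 := P.r0_pos
  have hrl' := P.r'_lo
  have hball : Metric.ball (0 : gC L) (r0 / 4) ⊆ dom L r' (r0 / 4) :=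
    ball_sub_dom (by linarith) le_rfl
  have hF2 : 0 ≤ (F 1).re ^ 2 := sq_nonneg _
  have hρ2 : ρ ^ 2 ≤ (r0 / 20) ^ 2 := pow_le_pow_left₀ hρ.le hρ1 2
  have hE := Real.exp_pos (-(ρ ^ 2 / 1000 / t))
  rcases lt_or_ge (dis L y) (r0 / 20) with h | h
  · have h1 := inner P cl hw ht hA hAt Z (hball (by rwa [mem_ball_zero_iff])) y h
    refine h1.trans (mul_le_mul_of_nonneg_left ?_ hF2)
    have e1 : dis L y ^ 2 / (2 * t) = dis L y ^ 2 / t / 2 := by field_simp
    rw [e1]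
    have h2 := u_exp_le (dis L y ^ 2 / t)
    have h3 : Real.exp (-(dis L y ^ 2 / t / 4)) ≤ Real.exp (-(ρ ^ 2 / 1000 / t)) := by
      apply Real.exp_le_exp.2
      rw [neg_le_neg_iff, div_div, div_div, div_le_div_iff₀ (by positivity) (by positivity)]
      have h4 := pow_le_pow_left₀ hρ.le hy 2
      nlinarith [sq_nonneg ρ, mul_nonneg (sq_nonneg ρ) ht.le, mul_le_mul_of_nonneg_right h4 ht.le]
    have hK : 0 ≤ (192 / δ ^ 2 + 7400) * ‖Z‖ ^ 2 := by positivity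
    calc 101 / 100 * (192 / δ ^ 2 + 7400) * ‖Z‖ ^ 2 * (dis L y ^ 2 / t) *
          Real.exp (-(dis L y ^ 2 / t / 2)) =
          101 / 100 * ((192 / δ ^ 2 + 7400) * ‖Z‖ ^ 2) * (dis L y ^ 2 / t *
          Real.exp (-(dis L y ^ 2 / t / 2))) := by ring
      _ ≤ 101 / 100 * ((192 / δ ^ 2 + 7400) * ‖Z‖ ^ 2) *
          (4 * Real.exp (-(dis L y ^ 2 / t / 4))) :=
          mul_le_mul_of_nonneg_left h2 (by positivity)
      _ ≤ 101 / 100 * ((192 / δ ^ 2 + 7400) * ‖Z‖ ^ 2) *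
          (4 * Real.exp (-(ρ ^ 2 / 1000 / t))) :=
          mul_le_mul_of_nonneg_left (by linarith) (by positivity)
      _ = 404 / 100 * (((192 / δ ^ 2 + 7400) * ‖Z‖ ^ 2) * Real.exp (-(ρ ^ 2 / 1000 / t))) := by
          ring
      _ ≤ 5 * (((192 / δ ^ 2 + 7400) * ‖Z‖ ^ 2) * Real.exp (-(ρ ^ 2 / 1000 / t))) :=
          mul_le_mul_of_nonneg_right (by norm_num) (by positivity)
      _ ≤ 32 / r0 ^ 2 * ‖Z‖ ^ 2 * Real.exp (-(ρ ^ 2 / 1000 / t)) +
          5 * (((192 / δ ^ 2 + 7400) * ‖Z‖ ^ 2) * Real.exp (-(ρ ^ 2 / 1000 / t))) :=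
          le_add_of_nonneg_left (by positivity)
      _ = _ := by ring
  · have h1 := outer2 P cl hw ht hA hAt Z hZ y h
    refine h1.trans ?_
    have h2 : Real.exp (-(r0 ^ 2 / (1000 * t))) ≤ Real.exp (-(ρ ^ 2 / 1000 / t)) := by
      apply Real.exp_le_exp.2
      rw [neg_le_neg_iff, div_div]
      exact div_le_div_of_nonneg_right (by nlinarith [sq_nonneg r0]) (by positivity)
    have e2 : 2 * (F 1).re ^ 2 * Real.exp (-(r0 ^ 2 / (1000 * t))) * (‖Z‖ / (r0 / 4)) ^ 2 =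
        (F 1).re ^ 2 * (32 / r0 ^ 2 * ‖Z‖ ^ 2 * Real.exp (-(r0 ^ 2 / (1000 * t)))) := by
      have : ∀ f e z c : ℝ, 0 < c → 2 * f * e * (z / (c / 4)) ^ 2 =
          f * (32 / c ^ 2 * z ^ 2 * e) := by
        intro f e z c hc
        field_simp
        ring
      exact this _ _ _ _ hr0
    rw [e2]
    refine mul_le_mul_of_nonneg_left ?_ hF2
    calc 32 / r0 ^ 2 * ‖Z‖ ^ 2 * Real.exp (-(r0 ^ 2 / (1000 * t)))
        ≤ 32 / r0 ^ 2 * ‖Z‖ ^ 2 * Real.exp (-(ρ ^ 2 / 1000 / t)) :=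
          mul_le_mul_of_nonneg_left h2 (by positivity)
      _ ≤ _ := by
          have : 0 ≤ 5 * (192 / δ ^ 2 + 7400) * ‖Z‖ ^ 2 * Real.exp (-(ρ ^ 2 / 1000 / t)) := by
            positivity
          nlinarith

end far

end

end Pool.Agent.T2H04.HY.Dri
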