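import Mathlib
import Pool.Agent.T2H04.HY.Dri2

/-!
# The one loop coefficient: integrated estimates
-/

open MeasureTheory Matrix Filter
open scoped Matrix.Norms.Frobenius Topology

namespace Pool.Agent.T2H04.HY.Dri

set_option linter.unusedSectionVars false

noncomputable section

variable {G : Type} [Group G] [TopologicalSpace G] [IsTopologicalGroup G] [CompactSpace G]
  [MeasurableSpace G] [BorelSpace G] {μ : Measure G} [μ.IsHaarMeasure] [IsProbabilityMeasure μ]
  {m : Type} [Fintype m] [DecidableEq m] {L : RD G m}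

/-- the Gaussian weight -/
def Wt (L : RD G m) (t : ℝ) (y : G) : ℝ :=
  (1 + dis L y ^ 2 / t + (dis L y ^ 2 / t) ^ 2) * Real.exp (-(1 / 2 * dis L y ^ 2 / t))

theorem Wt_cont (t : ℝ) : Continuous (Wt L t) := by
  unfold Wt
  have h : Continuous (dis L) := (L.cont.sub continuous_const).norm
  fun_prop

theorem Wt_nonneg {t : ℝ} (ht : 0 < t) (y : G) : 0 ≤ Wt L t y := by
  unfold Wt
  positivity

theorem mast {Cm t : ℝ} (hCm : ∫ y, Wt L t y ∂μ ≤ Cm * μ.real (bal L (Real.sqrt t))) (ht : 0 < t)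
    {S : Set G} {E : Type*} [NormedAddCommGroup E] [NormedSpace ℝ E]
    {f : G → E} {κ κ' : ℝ} (hS : MeasurableSet S) (hκ : 0 ≤ κ) (hκ' : 0 ≤ κ')
    (h : ∀ y ∈ S, ‖f y‖ ≤ κ * Wt L t y + κ') :
    ‖∫ y in S, f y ∂μ‖ ≤ κ * (Cm * μ.real (bal L (Real.sqrt t))) + κ' := by
  have hc : Continuous fun y => κ * Wt L t y + κ' := ((Wt_cont t).const_mul κ).add continuous_const
  have hi : Integrable (fun y => κ * Wt L t y + κ') μ := intg μ hc
  have h1 : ‖∫ y in S, f y ∂μ‖ ≤ ∫ y in S, (κ * Wt L t y + κ') ∂μ :=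
    norm_integral_le_of_norm_le hi.integrableOn
      ((ae_restrict_iff' hS).2 (Filter.Eventually.of_forall h))
  have h2 : ∫ y in S, (κ * Wt L t y + κ') ∂μ ≤ ∫ y, (κ * Wt L t y + κ') ∂μ :=
    setIntegral_le_integral hi (Filter.Eventually.of_forall fun y => by
      have := Wt_nonneg (L := L) ht y
      show 0 ≤ κ * Wt L t y + κ'
      positivity)
  have h3 : ∫ y, (κ * Wt L t y + κ') ∂μ = κ * ∫ y, Wt L t y ∂μ + κ' := by
    rw [integral_add ((intg μ (Wt_cont t)).const_mul κ) (integrable_const _), integral_const_mul,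
      integral_const]
    simp
  rw [h3] at h2
  refine h1.trans (h2.trans ?_)
  have := mul_le_mul_of_nonneg_left hCm hκ
  linarith

theorem intg_on {E : Type*} [NormedAddCommGroup E] [SecondCountableTopologyEither G E]
    {S : Set G} (hS : MeasurableSet S) {f : G → E}
    (hf : ContinuousOn f S) (M : ℝ) (hM : ∀ y ∈ S, ‖f y‖ ≤ M) : IntegrableOn f S μ :=
  Integrable.mono' (integrable_const M) (hf.aestronglyMeasurable hS)
    ((ae_restrict_iff' hS).2 (Filter.Eventually.of_forall hM))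

theorem cube_arith {t d η : ℝ} (ht : 0 < t) (hη0 : 0 ≤ η) (h4 : η ^ 2 ≤ 101 / 100 * d ^ 2) :
    η ^ 3 ≤ t * Real.sqrt t * (1 + d ^ 2 / t + (d ^ 2 / t) ^ 2) := by
  set u := d ^ 2 / t with hu
  have hu0 : 0 ≤ u := by positivity
  have ht2 : Real.sqrt t * Real.sqrt t = t := Real.mul_self_sqrt ht.le
  have hst := Real.sqrt_pos.2 ht
  have h5 : d ^ 2 = t * u := by rw [hu]; field_simp
  have h6 : η ≤ Real.sqrt t * ((1 + u) * (3 / 5)) := by
    apply le_of_sq_le_sq _ (by positivity)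
    calc η ^ 2 ≤ 101 / 100 * (t * u) := by rw [← h5]; exact h4
      _ ≤ t * ((1 + u) * (3 / 5)) ^ 2 := by
          have : 101 / 100 * u ≤ ((1 + u) * (3 / 5)) ^ 2 := by nlinarith [sq_nonneg (u - 1)]
          nlinarith
      _ = (Real.sqrt t * Real.sqrt t) * ((1 + u) * (3 / 5)) ^ 2 := by rw [ht2]
      _ = (Real.sqrt t * ((1 + u) * (3 / 5))) ^ 2 := by ring
  calc η ^ 3 = η ^ 2 * η := by ring
    _ ≤ (101 / 100 * (t * u)) * (Real.sqrt t * ((1 + u) * (3 / 5))) :=
        mul_le_mul (by rw [← h5]; exact h4) h6 hη0 (by positivity)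
    _ = t * Real.sqrt t * (606 / 1000 * (u * (1 + u))) := by ring
    _ ≤ t * Real.sqrt t * (1 + u + u ^ 2) := by
        refine mul_le_mul_of_nonneg_left ?_ (by positivity)
        nlinarith

section Q

variable {D : LogData m} {εg δ r0 r s b r' : ℝ} (P : Par L D εg δ r0 r s b r')
    {F : Mt m → ℂ} {t A : ℝ} (cl : Cls L F t A r (r0 / 4) s b (1 / 10000)) {w : gC L → ℂ}
    (hw : SFw L F t A r (r0 / 4) w) (ht : 0 < t) (hA : 0 ≤ A) (hAt : A * t ≤ 1 / 10)

/-- second difference of the quadratic form along the logarithm -/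
def qq (D : LogData m) (Z : gC L) (y : G) : ℂ :=
  sdf D (fun Z : gC L => Qf (Z : Mt m)) Z (et L D y)

/-- the square of the bracket -/
def br (D : LogData m) (X : gC L) (y : G) : ℝ :=
  ‖(X : Mt m) * ((et L D y : gC L) : Mt m) - ((et L D y : gC L) : Mt m) * (X : Mt m)‖ ^ 2

include P in
theorem et_contOn {ρ : ℝ} (hρ : ρ ≤ r0 / 20) : ContinuousOn (et L D) (bal L ρ : Set G) := by
  have hr0 := P.r0_pos
  have hδ := P.r0_δ
  have hR := P.ch.le_R
  refine (et_cont D).mono ?_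
  intro y hy
  have : dis L y < ρ := hy
  show dis L y < D.R
  linarith

include P in
theorem br_cont {ρ : ℝ} (hρ : ρ ≤ r0 / 20) (X : gC L) : ContinuousOn (br D X) (bal L ρ : Set G) := by
  have h1 : ContinuousOn (fun y : G => ((et L D y : gC L) : Mt m)) (bal L ρ) :=
    continuous_subtype_val.comp_continuousOn (et_contOn P hρ)
  unfold br
  exact (((continuousOn_const.mul h1).sub (h1.mul continuousOn_const)).norm).pow 2

include P in
theorem qq_cont {ρ : ℝ} (hρ : ρ ≤ r0 / 20) (Z : gC L) (hZ : ‖Z‖ < δ) :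
    ContinuousOn (qq D Z) (bal L ρ : Set G) := by
  have hr0 := P.r0_pos
  have hδ := P.r0_δ
  have he := et_contOn P hρ
  have hZ2 : ‖(1 / 2 : ℂ) • Z‖ < δ := by
    rw [norm_half']
    have := norm_nonneg Z
    linarith
  have hb : ContinuousOn (fun W : gC L => bc L D ((1 / 2 : ℂ) • Z) W) (Metric.ball 0 δ) :=
    (bc_diff_right P.ch hZ2).continuousOn
  have hq : Continuous fun Z : gC L => Qf (Z : Mt m) := Qf_diff.continuous
  have hm1 : Set.MapsTo (et L D) (bal L ρ : Set G) (Metric.ball 0 δ) := by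
    intro y hy
    have h1 : dis L y < ρ := hy
    have := et_lt P (y := y) (by linarith)
    rw [mem_ball_zero_iff]
    linarith
  have hm2 : Set.MapsTo (fun y => -et L D y) (bal L ρ : Set G) (Metric.ball 0 δ) := by
    intro y hy
    have := hm1 hy
    rw [mem_ball_zero_iff] at *
    rwa [norm_neg]
  have h1 : ContinuousOn (fun y : G => bc L D ((1 / 2 : ℂ) • Z) (et L D y)) (bal L ρ) :=
    hb.comp he hm1
  have h2 : ContinuousOn (fun y : G => bc L D ((1 / 2 : ℂ) • Z) (-et L D y)) (bal L ρ) :=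
    hb.comp he.neg hm2
  unfold qq sdf
  exact (((hq.comp_continuousOn h1).add (hq.comp_continuousOn h2)).sub continuousOn_const).sub
    (continuousOn_const.mul (hq.comp_continuousOn he))

include P in
theorem et_le_one {y : G} (hy : dis L y < r0 / 20) : ‖et L D y‖ ≤ 1 := by
  have h1 := et_lt P hy
  have := P.r0_le
  linarith

include P in
theorem et_sq_le {y : G} (hy : dis L y < r0 / 20) :
    ‖et L D y‖ ^ 2 ≤ 101 / 100 * dis L y ^ 2 := by
  have hr0 := P.r0_pos
  have hδ := P.r0_δ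
  have he1 := P.e1
  have he0 := P.e0
  have h1 := et_norm P.ch (y := y) (by linarith)
  have h2 := pow_le_pow_left₀ (norm_nonneg _) h1 2
  have h3 : (1 + εg) ^ 2 ≤ 101 / 100 := by nlinarith
  rw [mul_pow] at h2
  nlinarith [sq_nonneg (dis L y)]

include P in
theorem qq_le {y : G} (hy : dis L y < r0 / 20) (Z : gC L) (hZ : ‖Z‖ < r0 / 4) :
    ‖qq D Z y‖ ≤ 384 / δ ^ 2 * ‖Z‖ ^ 2 := by
  have hr0 := P.r0_pos
  have hδ := P.r0_δ
  have hyδ : dis L y < δ := by linarith
  have h1 := sdf_Q_le P.ch P.e0 P.e1 Z (et L D y) (by linarith) (et_im P.ch hyδ)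
    (by have := et_lt P hy; linarith)
  refine h1.trans ?_
  have h2 : ‖et L D y‖ ^ 2 ≤ 1 := pow_le_one₀ (norm_nonneg _) (et_le_one P hy)
  have h3 : 0 ≤ 384 / δ ^ 2 * ‖Z‖ ^ 2 := by positivity
  calc _ ≤ 384 / δ ^ 2 * ‖Z‖ ^ 2 * 1 := mul_le_mul_of_nonneg_left h2 h3
    _ = _ := mul_one _

include P in
theorem br_le {y : G} (hy : dis L y < r0 / 20) (X : gC L) : br D X y ≤ 4 * ‖X‖ ^ 2 := by
  have h1 := et_le_one P hy
  have hX : ‖(X : Mt m)‖ = ‖X‖ := rfl
  have he : ‖((et L D y : gC L) : Mt m)‖ = ‖et L D y‖ := rfl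
  have h2 : ‖(X : Mt m) * ((et L D y : gC L) : Mt m) - ((et L D y : gC L) : Mt m) * (X : Mt m)‖ ≤
      2 * ‖X‖ := by
    refine (norm_sub_le _ _).trans ?_
    have a1 := norm_mul_le (X : Mt m) ((et L D y : gC L) : Mt m)
    have a2 := norm_mul_le ((et L D y : gC L) : Mt m) (X : Mt m)
    rw [hX, he] at a1 a2
    nlinarith [norm_nonneg X, norm_nonneg (et L D y)]
  have h3 := pow_le_pow_left₀ (norm_nonneg _) h2 2
  unfold br
  calc _ ≤ (2 * ‖X‖) ^ 2 := h3
    _ = _ := by ring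

include cl in
theorem FF_eq (y : G) : F (L.rho y) * F (L.rho y) = ((res L F y ^ 2 : ℝ) : ℂ) := by
  have h1 : F (L.rho y) = ((res L F y : ℝ) : ℂ) :=
    Complex.ext (by simp [res]) (by simp [cl.real])
  rw [h1]
  push_cast
  ring

include cl in
theorem norm_FF (y : G) : ‖F (L.rho y) * F (L.rho y)‖ = res L F y ^ 2 := by
  rw [FF_eq cl, Complex.norm_real, Real.norm_eq_abs, abs_of_nonneg (sq_nonneg _)]

include P cl ht hA hAt in
theorem res_le (y : G) : res L F y ^ 2 ≤ (F 1).re ^ 2 := by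
  rw [res_sq cl.real]
  have hr0 := P.r0_pos
  have h := F_sq_le P cl ht hA hAt (ρ := 0) le_rfl (by positivity) (y := y) (norm_nonneg _)
  have e : -(1 / 2 * (0 : ℝ) ^ 2 / t) = 0 := by simp
  rw [e, Real.exp_zero, mul_one] at h
  exact h

include P cl ht hA hAt in
theorem res_le' {y : G} (hy : dis L y < r0 / 20) :
    res L F y ^ 2 ≤ (F 1).re ^ 2 * Real.exp (-(1 / 2 * dis L y ^ 2 / t)) := by
  rw [res_sq cl.real]
  exact F_sq_le' P cl ht hA hAt hy

include P cl ht hA hAt in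
/-- the limit of the quadratic part -/
theorem lim_q {C δ' : ℝ} (hcoef : ∀ X η : gC L, imP (X : Mt m) = 0 → imP (η : Mt m) = 0 →
      ‖η‖ < δ' → ∃ c : ℝ,
        Tendsto (fun s : ℝ => sdf D (fun Z : gC L => Qf (Z : Mt m)) ((s : ℂ) • X) η / (s : ℂ) ^ 2)
          (𝓝[≠] 0) (𝓝 (c : ℂ)) ∧
        |c + 1 / 24 * ‖(X : Mt m) * (η : Mt m) - (η : Mt m) * (X : Mt m)‖ ^ 2| ≤
          C * ‖X‖ ^ 2 * ‖η‖ ^ 3) {ρ : ℝ} (hρ0 : ρ ≤ r0 / 20) (hρ' : 2 * ρ ≤ δ')
    (X : gC L) (hX : imP (X : Mt m) = 0) {Cm : ℝ}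
    (hCm : ∫ y, Wt L t y ∂μ ≤ Cm * μ.real (bal L (Real.sqrt t))) (hC : 0 ≤ C) :
    ∃ D0 : ℂ, ‖D0‖ ≤ (F 1).re ^ 2 * (C * ‖X‖ ^ 2 * (t * Real.sqrt t)) *
        (Cm * μ.real (bal L (Real.sqrt t))) ∧
      Tendsto (fun s : ℝ => ∫ y in bal L ρ, F (L.rho y) * F (L.rho y) *
        (qq D ((s : ℂ) • X) y / (s : ℂ) ^ 2 + ((1 / 24 * br D X y : ℝ) : ℂ)) ∂μ)
        (𝓝[≠] 0) (𝓝 D0) := by
  have hr0 := P.r0_pos
  have hδ := P.r0_δ
  have hB : MeasurableSet (bal L ρ : Set G) := (isOpen_bal L ρ).measurableSet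
  have hlt : ∀ y ∈ (bal L ρ : Set G), dis L y < r0 / 20 := fun y hy => lt_of_lt_of_le hy hρ0
  have hlt' : ∀ y ∈ (bal L ρ : Set G), ‖et L D y‖ < δ' := by
    intro y hy
    have h1 := et_norm P.ch (y := y) (by have := hlt y hy; linarith)
    have he1 := P.e1
    have he0 := P.e0
    have h2 : dis L y < ρ := hy
    have h3 : 0 ≤ dis L y := norm_nonneg _
    nlinarith
  choose! c hc1 hc2 using fun y (hy : y ∈ (bal L ρ : Set G)) => hcoef X (et L D y) hX
    (et_im P.ch (by have := hlt y hy; linarith)) (hlt' y hy)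
  refine ⟨∫ y in bal L ρ, F (L.rho y) * F (L.rho y) *
    ((c y : ℂ) + ((1 / 24 * br D X y : ℝ) : ℂ)) ∂μ, ?_, ?_⟩
  · have key := mast (μ := μ) (L := L) (f := fun y => F (L.rho y) * F (L.rho y) *
      ((c y : ℂ) + ((1 / 24 * br D X y : ℝ) : ℂ)))
      (κ := (F 1).re ^ 2 * (C * ‖X‖ ^ 2 * (t * Real.sqrt t))) (κ' := 0) hCm ht hB
      (by positivity) le_rfl ?_
    · rw [add_zero] at key
      exact key
    intro y hy
    rw [add_zero]
    have h1 := hc2 y hy
    have e1 : ((c y : ℂ) + ((1 / 24 * br D X y : ℝ) : ℂ)) = ((c y + 1 / 24 * br D X y : ℝ) : ℂ) := by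
      push_cast; rfl
    rw [norm_mul, norm_FF cl, e1, Complex.norm_real, Real.norm_eq_abs]
    have h2 : |c y + 1 / 24 * br D X y| ≤ C * ‖X‖ ^ 2 * ‖et L D y‖ ^ 3 := h1
    have h3 := res_le' P cl ht hA hAt (hlt y hy)
    have h4 := et_sq_le P (hlt y hy)
    have h7 := cube_arith ht (norm_nonneg (et L D y)) h4
    have hu0 : 0 ≤ dis L y ^ 2 / t := by positivity
    have h8 : C * ‖X‖ ^ 2 * ‖et L D y‖ ^ 3 ≤
        C * ‖X‖ ^ 2 * (t * Real.sqrt t * (1 + dis L y ^ 2 / t + (dis L y ^ 2 / t) ^ 2)) :=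
      mul_le_mul_of_nonneg_left h7 (by positivity)
    calc res L F y ^ 2 * |c y + 1 / 24 * br D X y|
        ≤ ((F 1).re ^ 2 * Real.exp (-(1 / 2 * dis L y ^ 2 / t))) *
          (C * ‖X‖ ^ 2 * (t * Real.sqrt t * (1 + dis L y ^ 2 / t + (dis L y ^ 2 / t) ^ 2))) :=
          mul_le_mul h3 (h2.trans h8) (abs_nonneg _) (by positivity)
      _ = (F 1).re ^ 2 * (C * ‖X‖ ^ 2 * (t * Real.sqrt t)) * Wt L t y := by
          unfold Wt
          ring
  · -- dominated convergence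
    have hsm : ∀ᶠ s : ℝ in 𝓝[≠] 0, ‖(s : ℂ) • X‖ < r0 / 4 ∧ s ≠ 0 := by
      have h1 : Tendsto (fun s : ℝ => ‖(s : ℂ) • X‖) (𝓝[≠] 0) (𝓝 0) := by
        have h2 : Continuous fun s : ℝ => ‖(s : ℂ) • X‖ :=
          (Complex.continuous_ofReal.smul continuous_const).norm
        have h3 := h2.tendsto 0
        rw [Complex.ofReal_zero, zero_smul, norm_zero] at h3
        exact h3.mono_left nhdsWithin_le_nhds
      have h2 : ∀ᶠ s : ℝ in 𝓝[≠] 0, ‖(s : ℂ) • X‖ < r0 / 4 :=
        h1.eventually (gt_mem_nhds (by positivity))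
      exact h2.and self_mem_nhdsWithin
    refine tendsto_integral_filter_of_dominated_convergence
      (bound := fun _ => (F 1).re ^ 2 * (384 / δ ^ 2 * ‖X‖ ^ 2 + 4 * ‖X‖ ^ 2)) ?_ ?_ ?_ ?_
    · filter_upwards [hsm] with s hs
      refine ContinuousOn.aestronglyMeasurable ?_ hB
      have h1 : ContinuousOn (fun y : G => F (L.rho y) * F (L.rho y)) (bal L ρ) :=
        ((cl.diff.continuous.comp L.cont).mul (cl.diff.continuous.comp L.cont)).continuousOn
      have h2 := qq_cont P hρ0 ((s : ℂ) • X) (by linarith [hs.1])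
      have h3 := br_cont P hρ0 X
      refine h1.mul ((h2.div_const _).add ?_)
      exact Complex.continuous_ofReal.comp_continuousOn (continuousOn_const.mul h3)
    · filter_upwards [hsm] with s hs
      refine (ae_restrict_iff' hB).2 (Filter.Eventually.of_forall fun y hy => ?_)
      rw [norm_mul, norm_FF cl]
      have h1 := res_le P cl ht hA hAt y
      refine mul_le_mul h1 ?_ (norm_nonneg _) (sq_nonneg _)
      refine (norm_add_le _ _).trans (add_le_add ?_ ?_)
      · have h2 := qq_le P (hlt y hy) ((s : ℂ) • X) hs.1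
        rw [norm_div, norm_pow, Complex.norm_real, Real.norm_eq_abs, sq_abs]
        rw [norm_smul, Complex.norm_real, Real.norm_eq_abs, mul_pow, sq_abs] at h2
        have hs2 : 0 < s ^ 2 := by have := hs.2; positivity
        rw [div_le_iff₀ hs2]
        linarith
      · rw [Complex.norm_real, Real.norm_eq_abs]
        have h2 := br_le P (hlt y hy) X
        have h3 : 0 ≤ br D X y := sq_nonneg _
        rw [abs_of_nonneg (by positivity)]
        linarith
    · exact integrable_const _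
    · refine (ae_restrict_iff' hB).2 (Filter.Eventually.of_forall fun y hy => ?_)
      exact ((hc1 y hy).add_const _).const_mul _

end Q

end

end Pool.Agent.T2H04.HY.Dri
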