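import Mathlib
import Pool.Agent.T2H04.HY.Dri3

/-!
# The one loop coefficient: the two main estimates
-/

open MeasureTheory Matrix Filter
open scoped Matrix.Norms.Frobenius Topology

namespace Pool.Agent.T2H04.HY.Dri

set_option linter.unusedSectionVars false

noncomputable section

variable {G : Type} [Group G] [TopologicalSpace G] [IsTopologicalGroup G] [CompactSpace G]
  [MeasurableSpace G] [BorelSpace G] {μ : Measure G} [μ.IsHaarMeasure] [IsProbabilityMeasure μ]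
  {m : Type} [Fintype m] [DecidableEq m] {L : RD G m}

section

variable {D : LogData m} {εg δ r0 r s b r' : ℝ} (P : Par L D εg δ r0 r s b r')
    {F : Mt m → ℂ} {t A : ℝ} (cl : Cls L F t A r (r0 / 4) s b (1 / 10000)) {w : gC L → ℂ}
    (hw : SFw L F t A r (r0 / 4) w) (ht : 0 < t) (hA : 0 ≤ A) (hAt : A * t ≤ 1 / 10)

theorem near_arithA {f e S Z2 η2 d2 : ℝ} {K A t : ℝ} (ht : 0 < t) (hA : 0 ≤ A) (hK : 0 ≤ K)
    (hf : 0 ≤ f) (he : 0 ≤ e) (he1 : e ≤ 1) (hS0 : 0 ≤ S) (hZ2 : 0 ≤ Z2) (hZ21 : Z2 ≤ 1)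
    (hη21 : η2 ≤ 1) (hη : η2 ≤ 101 / 100 * d2) (hd : 0 ≤ d2)
    (hS : S ≤ K * Z2 * (η2 / t)) :
    f * e * (S ^ 2 * Real.exp S + 73728 * A * Z2 * η2) ≤
      f * (80000 * (A * t) * Z2) * ((1 + d2 / t + (d2 / t) ^ 2) * e) +
        f * ((K * Z2 / t) ^ 2 * Real.exp (K / t)) := by
  have h1 : S ≤ K * Z2 / t := by
    refine hS.trans ?_
    calc K * Z2 * (η2 / t) ≤ K * Z2 * (1 / t) :=
          mul_le_mul_of_nonneg_left (div_le_div_of_nonneg_right hη21 ht.le) (by positivity)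
      _ = K * Z2 / t := by ring
  have h2 : S ≤ K / t := by
    refine h1.trans ?_
    refine div_le_div_of_nonneg_right ?_ ht.le
    nlinarith
  have h3 : S ^ 2 * Real.exp S ≤ (K * Z2 / t) ^ 2 * Real.exp (K / t) :=
    mul_le_mul (pow_le_pow_left₀ hS0 h1 2) (Real.exp_le_exp.2 h2) (Real.exp_pos _).le
      (by positivity)
  have h4 : 73728 * A * Z2 * η2 ≤ 80000 * (A * t) * Z2 * (1 + d2 / t + (d2 / t) ^ 2) := by
    have e1 : d2 = t * (d2 / t) := by field_simp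
    have h5 : 0 ≤ A * Z2 := by positivity
    have h6 : A * Z2 * η2 ≤ A * Z2 * (101 / 100 * d2) := mul_le_mul_of_nonneg_left hη h5
    have h7 : A * Z2 * d2 = (A * t) * Z2 * (d2 / t) := by
      conv_lhs => rw [e1]
      ring
    have h8 : 0 ≤ (A * t) * Z2 := by positivity
    have h9 : 0 ≤ d2 / t := by positivity
    have h10 : (A * t) * Z2 * (d2 / t) ≤ (A * t) * Z2 * (1 + d2 / t + (d2 / t) ^ 2) :=
      mul_le_mul_of_nonneg_left (by nlinarith [sq_nonneg (d2 / t)]) h8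
    have h11 : 0 ≤ (A * t) * Z2 * (1 + d2 / t + (d2 / t) ^ 2) := by positivity
    nlinarith
  have hfe : 0 ≤ f * e := by positivity
  calc f * e * (S ^ 2 * Real.exp S + 73728 * A * Z2 * η2)
      ≤ f * e * ((K * Z2 / t) ^ 2 * Real.exp (K / t) +
        80000 * (A * t) * Z2 * (1 + d2 / t + (d2 / t) ^ 2)) :=
        mul_le_mul_of_nonneg_left (add_le_add h3 h4) hfe
    _ = f * (80000 * (A * t) * Z2) * ((1 + d2 / t + (d2 / t) ^ 2) * e) +
        e * (f * ((K * Z2 / t) ^ 2 * Real.exp (K / t))) := by ring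
    _ ≤ _ := by
        have h12 : 0 ≤ f * ((K * Z2 / t) ^ 2 * Real.exp (K / t)) := by positivity
        nlinarith

include P cl hw ht hA hAt in
/-- the estimate for a fixed small `s` -/
theorem stepA {ρ : ℝ} (hρ : 0 < ρ) (hρ0 : ρ ≤ r0 / 20) (X : gC L) {Cm : ℝ}
    (hCm : ∫ y, Wt L t y ∂μ ≤ Cm * μ.real (bal L (Real.sqrt t))) {s' : ℝ} (hs : s' ≠ 0)
    (hs1 : |s'| * ‖X‖ < r0 / 4) :
    ‖(calE μ F t w ((s' : ℂ) • X) - 1) / (s' : ℂ) ^ 2 * ccv L μ F 1 +
      (∫ y in bal L ρ, F (L.rho y) * F (L.rho y) *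
        (qq D ((s' : ℂ) • X) y / (s' : ℂ) ^ 2) ∂μ) / (2 * t)‖ ≤
      (F 1).re ^ 2 * (80000 * (A * t) * ‖X‖ ^ 2) * (Cm * μ.real (bal L (Real.sqrt t))) +
        s' ^ 2 * ((F 1).re ^ 2 * (((192 / δ ^ 2 + 7400) * ‖X‖ ^ 2 / t) ^ 2 *
          Real.exp ((192 / δ ^ 2 + 7400) / t))) +
        (F 1).re ^ 2 * ((32 / r0 ^ 2 + 5 * (192 / δ ^ 2 + 7400)) * ‖X‖ ^ 2 *
          Real.exp (-(ρ ^ 2 / 1000 / t))) := by
  have hr0 := P.r0_pos
  have hr01 := P.r0_le
  have hrl' := P.r'_lo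
  have hδ := P.r0_δ
  have hB : MeasurableSet (bal L ρ : Set G) := (isOpen_bal L ρ).measurableSet
  have hlt : ∀ y ∈ (bal L ρ : Set G), dis L y < r0 / 20 := fun y hy => lt_of_lt_of_le hy hρ0
  set Z : gC L := (s' : ℂ) • X with hZd
  have hZn : ‖Z‖ = |s'| * ‖X‖ := by
    rw [hZd, norm_smul, Complex.norm_real, Real.norm_eq_abs]
  have hZ4 : ‖Z‖ < r0 / 4 := by rw [hZn]; exact hs1
  have hball : Metric.ball (0 : gC L) (r0 / 4) ⊆ dom L r' (r0 / 4) :=
    ball_sub_dom (by linarith) le_rfl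
  have hZdom : Z ∈ dom L r' (r0 / 4) := hball (by rwa [mem_ball_zero_iff])
  have hZ2 : ‖Z‖ ^ 2 = s' ^ 2 * ‖X‖ ^ 2 := by rw [hZn, mul_pow, sq_abs]
  have hs2 : 0 < s' ^ 2 := by positivity
  have hsc : ‖(s' : ℂ) ^ 2‖ = s' ^ 2 := by
    rw [norm_pow, Complex.norm_real, Real.norm_eq_abs, sq_abs]
  have hsne : (s' : ℂ) ^ 2 ≠ 0 := pow_ne_zero 2 (Complex.ofReal_ne_zero.2 hs)
  -- splitting
  have hphi : Integrable (phi L F t w Z) μ := intg μ (phi_cont cl.diff.continuous t w Z)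
  have hq : IntegrableOn (fun y : G => F (L.rho y) * F (L.rho y) * (qq D Z y / (2 * t)))
      (bal L ρ) μ := by
    refine intg_on hB ?_ ((F 1).re ^ 2 * (384 / δ ^ 2 * ‖Z‖ ^ 2 / (2 * t))) ?_
    · have h1 : ContinuousOn (fun y : G => F (L.rho y) * F (L.rho y)) (bal L ρ) :=
        ((cl.diff.continuous.comp L.cont).mul (cl.diff.continuous.comp L.cont)).continuousOn
      exact h1.mul ((qq_cont P hρ0 Z (by linarith)).div_const _)
    · intro y hy
      rw [norm_mul, norm_FF cl]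
      refine mul_le_mul (res_le P cl ht hA hAt y) ?_ (norm_nonneg _) (sq_nonneg _)
      have a3 : ‖qq D Z y / (2 * t)‖ = ‖qq D Z y‖ / (2 * t) := by
        rw [norm_div]
        congr 1
        rw [norm_mul, Complex.norm_real, Real.norm_eq_abs, abs_of_pos ht]
        simp
      rw [a3]
      exact div_le_div_of_nonneg_right (qq_le P (hlt y hy) Z hZ4) (by positivity)
  have e1 : (calE μ F t w Z - 1) / (s' : ℂ) ^ 2 * ccv L μ F 1 +
      (∫ y in bal L ρ, F (L.rho y) * F (L.rho y) * (qq D Z y / (s' : ℂ) ^ 2) ∂μ) / (2 * t) =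
      (∫ y in bal L ρ, (phi L F t w Z y + F (L.rho y) * F (L.rho y) * (qq D Z y / (2 * t))) ∂μ +
        ∫ y in (bal L ρ)ᶜ, phi L F t w Z y ∂μ) / (s' : ℂ) ^ 2 := by
    have a1 := calE_int (μ := μ) (w := w) cl Z
    have a2 : ∫ y, phi L F t w Z y ∂μ = ∫ y in bal L ρ, phi L F t w Z y ∂μ +
        ∫ y in (bal L ρ)ᶜ, phi L F t w Z y ∂μ := (integral_add_compl hB hphi).symm
    have a3 : ∫ y in bal L ρ, (phi L F t w Z y +
        F (L.rho y) * F (L.rho y) * (qq D Z y / (2 * t))) ∂μ =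
        ∫ y in bal L ρ, phi L F t w Z y ∂μ +
        ∫ y in bal L ρ, F (L.rho y) * F (L.rho y) * (qq D Z y / (2 * t)) ∂μ :=
      integral_add hphi.integrableOn hq
    have a4 : (∫ y in bal L ρ, F (L.rho y) * F (L.rho y) * (qq D Z y / (s' : ℂ) ^ 2) ∂μ) /
        (2 * t) = (∫ y in bal L ρ, F (L.rho y) * F (L.rho y) * (qq D Z y / (2 * t)) ∂μ) /
        (s' : ℂ) ^ 2 := by
      rw [← integral_div, ← integral_div]
      refine integral_congr_ae (Filter.Eventually.of_forall fun y => ?_)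
      show F (L.rho y) * F (L.rho y) * (qq D Z y / (s' : ℂ) ^ 2) / (2 * (t : ℂ)) =
        F (L.rho y) * F (L.rho y) * (qq D Z y / (2 * t)) / (s' : ℂ) ^ 2
      ring
    rw [a3, a4, div_mul_eq_mul_div, a1, a2, ← add_div]
    congr 1
    ring
  rw [e1, norm_div, hsc, div_le_iff₀ hs2]
  refine (norm_add_le _ _).trans ?_
  -- the two parts
  have k1 := mast (μ := μ) (L := L) (S := bal L ρ)
    (f := fun y => phi L F t w Z y + F (L.rho y) * F (L.rho y) * (qq D Z y / (2 * t)))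
    (κ := (F 1).re ^ 2 * (80000 * (A * t) * ‖Z‖ ^ 2))
    (κ' := (F 1).re ^ 2 * (((192 / δ ^ 2 + 7400) * ‖Z‖ ^ 2 / t) ^ 2 *
          Real.exp ((192 / δ ^ 2 + 7400) / t))) hCm ht hB (by positivity) (by positivity) (by
      intro y hy
      have b1 := inner2 P cl hw ht hA hAt Z hZdom y (hlt y hy)
      refine b1.trans ?_
      have b2 := F_sq_le' P cl ht hA hAt (hlt y hy)
      have b3 := Sx_le P hw ht hA hAt Z hZdom y (hlt y hy)
      have b4 := et_sq_le P (hlt y hy)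
      have b5 : ‖et L D y‖ ^ 2 ≤ 1 := pow_le_one₀ (norm_nonneg _) (et_le_one P (hlt y hy))
      have b6 : ‖Z‖ ^ 2 ≤ 1 := pow_le_one₀ (norm_nonneg _) (by linarith)
      have b7 : Real.exp (-(1 / 2 * dis L y ^ 2 / t)) ≤ 1 := by
        rw [Real.exp_le_one_iff]
        have : 0 ≤ 1 / 2 * dis L y ^ 2 / t := by positivity
        linarith
      have b8 := near_arithA (f := (F 1).re ^ 2) (e := Real.exp (-(1 / 2 * dis L y ^ 2 / t)))
        (S := ‖Sx D t w Z (et L D y)‖) (Z2 := ‖Z‖ ^ 2) (η2 := ‖et L D y‖ ^ 2)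
        (d2 := dis L y ^ 2) (K := 192 / δ ^ 2 + 7400) ht hA (by positivity) (sq_nonneg _)
        (Real.exp_pos _).le b7 (norm_nonneg _) (sq_nonneg _) b6 b5 b4
        (sq_nonneg _) b3
      exact (mul_le_mul_of_nonneg_right b2 (by positivity)).trans b8)
  have k2 := mast (μ := μ) (L := L) (S := (bal L ρ)ᶜ) (f := fun y => phi L F t w Z y)
    (κ := 0) (κ' := (F 1).re ^ 2 * ((32 / r0 ^ 2 + 5 * (192 / δ ^ 2 + 7400)) * ‖Z‖ ^ 2 *
      Real.exp (-(ρ ^ 2 / 1000 / t)))) hCm ht hB.compl le_rfl (by positivity) (by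
      intro y hy
      rw [zero_mul, zero_add]
      have hy' : ρ ≤ dis L y := not_lt.1 hy
      exact far P cl hw ht hA hAt Z hZ4 hρ hρ0 y hy')
  refine (add_le_add k1 k2).trans (le_of_eq ?_)
  rw [hZ2]
  ring

theorem four_arith {t d η : ℝ} (ht : 0 < t) (h4 : η ^ 2 ≤ 101 / 100 * d ^ 2) :
    3 * η ^ 4 ≤ 4 * t ^ 2 * (1 + d ^ 2 / t + (d ^ 2 / t) ^ 2) := by
  set u := d ^ 2 / t with hu
  have hu0 : 0 ≤ u := by positivity
  have h5 : d ^ 2 = t * u := by rw [hu]; field_simp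
  have h6 : (η ^ 2) ^ 2 ≤ (101 / 100 * (t * u)) ^ 2 := by
    rw [← h5]
    exact pow_le_pow_left₀ (sq_nonneg _) h4 2
  have h7 : η ^ 4 = (η ^ 2) ^ 2 := by ring
  rw [h7]
  have h8 : 0 ≤ t ^ 2 * u ^ 2 := by positivity
  have h9 : 0 ≤ t ^ 2 * (1 + u) := by positivity
  nlinarith

include P cl ht hA hAt in
/-- the covariance in the ball -/
theorem stepB {ρ : ℝ} (hρ : 0 < ρ) (hρ0 : ρ ≤ r0 / 20) {Y : Mt m} (hY : Y ∈ lieSet L) {Cm : ℝ}
    (hCm : ∫ y, Wt L t y ∂μ ≤ Cm * μ.real (bal L (Real.sqrt t))) :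
    |∫ y in bal L ρ, ipr Y ((et L D y : gC L) : Mt m) ^ 2 * res L F y ^ 2 ∂μ -
        ∫ y, ipr Y (L.rho y) ^ 2 * res L F y ^ 2 ∂μ| ≤
      (F 1).re ^ 2 * (4 * ‖Y‖ ^ 2 * t ^ 2) * (Cm * μ.real (bal L (Real.sqrt t))) +
        (F 1).re ^ 2 * ((uB m + ‖(1 : Mt m)‖) ^ 2 * ‖Y‖ ^ 2 *
          Real.exp (-(ρ ^ 2 / 1000 / t))) := by
  have hr0 := P.r0_pos
  have hδ := P.r0_δ
  have hB : MeasurableSet (bal L ρ : Set G) := (isOpen_bal L ρ).measurableSet
  have hlt : ∀ y ∈ (bal L ρ : Set G), dis L y < r0 / 20 := fun y hy => lt_of_lt_of_le hy hρ0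
  have hYs := lie_skew L hY
  have hcI : Continuous fun y : G => ipr Y (L.rho y) := by
    unfold ipr
    exact Complex.continuous_re.comp ((continuous_const.mul L.cont).matrix_trace)
  have hc1 : Continuous fun y : G => ipr Y (L.rho y) ^ 2 * res L F y ^ 2 :=
    (hcI.pow 2).mul ((res_cont L cl.diff).pow 2)
  have hi1 : Integrable (fun y : G => ipr Y (L.rho y) ^ 2 * res L F y ^ 2) μ := intg μ hc1
  have hi2 : IntegrableOn (fun y : G => ipr Y ((et L D y : gC L) : Mt m) ^ 2 * res L F y ^ 2)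
      (bal L ρ) μ := by
    refine intg_on hB ?_ (‖Y‖ ^ 2 * (F 1).re ^ 2) ?_
    · have h1 : ContinuousOn (fun y : G => ((et L D y : gC L) : Mt m)) (bal L ρ) :=
        continuous_subtype_val.comp_continuousOn (et_contOn P hρ0)
      have h2 : Continuous fun x : Mt m => ipr Y x := by
        unfold ipr
        exact Complex.continuous_re.comp ((continuous_const.mul continuous_id).matrix_trace)
      exact ((h2.comp_continuousOn h1).pow 2).mul ((res_cont L cl.diff).pow 2).continuousOn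
    · intro y hy
      rw [norm_mul, norm_pow, norm_pow, Real.norm_eq_abs, Real.norm_eq_abs, sq_abs (res L F y)]
      refine mul_le_mul ?_ (res_le P cl ht hA hAt y) (sq_nonneg _) (by positivity)
      have h1 := abs_ipr_le Y ((et L D y : gC L) : Mt m)
      have h2 : ‖((et L D y : gC L) : Mt m)‖ ≤ 1 := et_le_one P (hlt y hy)
      refine pow_le_pow_left₀ (abs_nonneg _) (h1.trans ?_) 2
      nlinarith [norm_nonneg Y]
  have e1 : ∫ y in bal L ρ, ipr Y ((et L D y : gC L) : Mt m) ^ 2 * res L F y ^ 2 ∂μ -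
        ∫ y, ipr Y (L.rho y) ^ 2 * res L F y ^ 2 ∂μ =
      ∫ y in bal L ρ, (ipr Y ((et L D y : gC L) : Mt m) ^ 2 * res L F y ^ 2 -
        ipr Y (L.rho y) ^ 2 * res L F y ^ 2) ∂μ -
      ∫ y in (bal L ρ)ᶜ, ipr Y (L.rho y) ^ 2 * res L F y ^ 2 ∂μ := by
    rw [integral_sub hi2 hi1.integrableOn, ← integral_add_compl hB hi1]
    ring
  rw [e1, ← Real.norm_eq_abs]
  refine (norm_sub_le _ _).trans ?_
  have hY0 := norm_nonneg Y
  have k1 := mast (μ := μ) (L := L) (S := bal L ρ)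
    (f := fun y => ipr Y ((et L D y : gC L) : Mt m) ^ 2 * res L F y ^ 2 -
        ipr Y (L.rho y) ^ 2 * res L F y ^ 2)
    (κ := (F 1).re ^ 2 * (4 * ‖Y‖ ^ 2 * t ^ 2)) (κ' := 0) hCm ht hB (by positivity) le_rfl (by
      intro y hy
      have hyd : dis L y < δ := by have := hlt y hy; linarith
      have hηs := lie_skew L (et_lie P.ch hyd)
      have h1 := ipr_exp_sq (Y := Y) (η := ((et L D y : gC L) : Mt m)) hYs hηs
        (et_le_one P (hlt y hy))
      rw [et_exp P.ch hyd] at h1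
      have h2 := res_le' P cl ht hA hAt (hlt y hy)
      have h3 := et_sq_le P (hlt y hy)
      have h4 := four_arith (t := t) (d := dis L y) (η := ‖et L D y‖) ht h3
      rw [← sub_mul, norm_mul, Real.norm_eq_abs, Real.norm_eq_abs, abs_of_nonneg
        (sq_nonneg (res L F y)), add_zero]
      have hη : ‖((et L D y : gC L) : Mt m)‖ = ‖et L D y‖ := rfl
      rw [hη] at h1
      have h5 : 3 * ‖Y‖ ^ 2 * ‖et L D y‖ ^ 4 ≤
          ‖Y‖ ^ 2 * (4 * t ^ 2 * (1 + dis L y ^ 2 / t + (dis L y ^ 2 / t) ^ 2)) := by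
        have := mul_le_mul_of_nonneg_left h4 (sq_nonneg ‖Y‖)
        linarith
      calc |ipr Y ((et L D y : gC L) : Mt m) ^ 2 - ipr Y (L.rho y) ^ 2| * res L F y ^ 2
          ≤ (‖Y‖ ^ 2 * (4 * t ^ 2 * (1 + dis L y ^ 2 / t + (dis L y ^ 2 / t) ^ 2))) *
            ((F 1).re ^ 2 * Real.exp (-(1 / 2 * dis L y ^ 2 / t))) :=
            mul_le_mul (h1.trans h5) h2 (sq_nonneg _) (by positivity)
        _ = (F 1).re ^ 2 * (4 * ‖Y‖ ^ 2 * t ^ 2) * Wt L t y := by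
            unfold Wt
            ring)
  have k2 := mast (μ := μ) (L := L) (S := (bal L ρ)ᶜ)
    (f := fun y => ipr Y (L.rho y) ^ 2 * res L F y ^ 2)
    (κ := 0) (κ' := (F 1).re ^ 2 * ((uB m + ‖(1 : Mt m)‖) ^ 2 * ‖Y‖ ^ 2 *
          Real.exp (-(ρ ^ 2 / 1000 / t)))) hCm ht hB.compl le_rfl (by positivity) (by
      intro y hy
      rw [zero_mul, zero_add]
      have hy' : ρ ≤ dis L y := not_lt.1 hy
      have h1 := F_sq_le P cl ht hA hAt hρ.le hρ0 hy'
      rw [← res_sq cl.real] at h1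
      have h2 : |ipr Y (L.rho y)| ≤ ‖Y‖ * (uB m + ‖(1 : Mt m)‖) := by
        have a1 : ipr Y (L.rho y) = ipr Y (L.rho y - 1) := by
          rw [ipr_sub, ipr_one_skew hYs, sub_zero]
        rw [a1]
        refine (abs_ipr_le _ _).trans (mul_le_mul_of_nonneg_left ?_ hY0)
        exact HaarAux.dis_le L y
      have h3 : ipr Y (L.rho y) ^ 2 ≤ (uB m + ‖(1 : Mt m)‖) ^ 2 * ‖Y‖ ^ 2 := by
        have := pow_le_pow_left₀ (abs_nonneg _) h2 2
        rw [sq_abs] at this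
        refine this.trans (le_of_eq (by ring))
      have h4 : Real.exp (-(1 / 2 * ρ ^ 2 / t)) ≤ Real.exp (-(ρ ^ 2 / 1000 / t)) := by
        apply Real.exp_le_exp.2
        rw [neg_le_neg_iff]
        refine div_le_div_of_nonneg_right ?_ ht.le
        nlinarith [sq_nonneg ρ]
      rw [norm_mul, Real.norm_eq_abs, Real.norm_eq_abs, abs_of_nonneg (sq_nonneg (res L F y)),
        abs_of_nonneg (sq_nonneg (ipr Y (L.rho y)))]
      calc ipr Y (L.rho y) ^ 2 * res L F y ^ 2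
          ≤ ((uB m + ‖(1 : Mt m)‖) ^ 2 * ‖Y‖ ^ 2) *
            ((F 1).re ^ 2 * Real.exp (-(ρ ^ 2 / 1000 / t))) :=
            mul_le_mul h3 (h1.trans (mul_le_mul_of_nonneg_left h4 (sq_nonneg _))) (sq_nonneg _)
              (by positivity)
        _ = _ := by ring)
  rw [add_zero] at k1
  rw [zero_mul, zero_add] at k2
  exact add_le_add k1 k2

end

end

end Pool.Agent.T2H04.HY.Dri
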