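import Mathlib
import Pool.Agent.T2H04.HY.Coef
import Pool.Agent.T2H04.HY.Cov
import Pool.Agent.T2H04.HY.Dri4

/-!
# The one loop coefficient of one convolution
-/

open MeasureTheory Matrix Filter
open scoped Matrix.Norms.Frobenius Topology

namespace Pool.Agent.T2H04.HY

set_option linter.unusedSectionVars false

noncomputable section

variable {G : Type} [Group G] [TopologicalSpace G] [IsTopologicalGroup G] [CompactSpace G]
  [MeasurableSpace G] [BorelSpace G] {μ : Measure G} [μ.IsHaarMeasure] [IsProbabilityMeasure μ]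
  {m : Type} [Fintype m] [DecidableEq m] {L : RD G m}

namespace Dri

/-- from the logarithm to the function -/
theorem lim_log {f : ℝ → ℂ} (h1 : Tendsto f (𝓝[≠] 0) (𝓝 1)) {c : ℂ}
    (h2 : Tendsto (fun s : ℝ => Complex.log (f s) / (s : ℂ) ^ 2) (𝓝[≠] 0) (𝓝 c)) :
    Tendsto (fun s : ℝ => (f s - 1) / (s : ℂ) ^ 2) (𝓝[≠] 0) (𝓝 c) := by
  have hl : Tendsto (fun s => Complex.log (f s)) (𝓝[≠] 0) (𝓝 0) := by
    have h3 := ((continuousAt_id (X := ℂ) (x := 1)).clog (by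
      show (1 : ℂ) ∈ Complex.slitPlane
      exact Complex.one_mem_slitPlane)).tendsto
    simp only [id, Complex.log_one] at h3
    exact h3.comp h1
  have hd : Tendsto (fun s => dslope Complex.exp 0 (Complex.log (f s))) (𝓝[≠] 0) (𝓝 1) := by
    have h3 : ContinuousAt (dslope Complex.exp 0) 0 :=
      continuousAt_dslope_same.2 Complex.differentiableAt_exp
    have h4 : dslope Complex.exp 0 0 = 1 := by
      rw [dslope_same, Complex.deriv_exp, Complex.exp_zero]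
    have h5 := h3.tendsto.comp hl
    rw [h4] at h5
    exact h5
  have h6 := h2.mul hd
  rw [mul_one] at h6
  refine h6.congr' ?_
  have h7 : ∀ᶠ s in 𝓝[≠] (0 : ℝ), f s ≠ 0 := h1.eventually_ne one_ne_zero
  filter_upwards [h7] with s hs
  have h8 := sub_smul_dslope Complex.exp 0 (Complex.log (f s))
  rw [sub_zero, smul_eq_mul, Complex.exp_zero, Complex.exp_log hs] at h8
  rw [← h8]
  ring

section

variable {D : LogData m} {εg δ r0 r s b r' : ℝ} (P : Par L D εg δ r0 r s b r')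
    {F : Mt m → ℂ} {t A : ℝ} (cl : Cls L F t A r (r0 / 4) s b (1 / 10000)) {w : gC L → ℂ}
    (hw : SFw L F t A r (r0 / 4) w) (ht : 0 < t) (hA : 0 ≤ A) (hAt : A * t ≤ 1 / 10)

include cl in
theorem ccv_one_int : ccv L μ F 1 = ((∫ y, res L F y ^ 2 ∂μ : ℝ) : ℂ) := by
  have h1 := ccv_rho μ L cl.real 1
  rw [map_one] at h1
  rw [h1]
  have hev : ∀ y : G, res L F y⁻¹ = res L F y := by
    intro y
    unfold res
    rw [← L.sig_rho, cl.inv]
  congr 1
  unfold cnv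
  refine integral_congr_ae (Filter.Eventually.of_forall fun y => ?_)
  simp only [mul_one, hev]
  ring

include P cl hw ht hA hAt in
theorem main_A {C δ' : ℝ} (hcoef : ∀ X η : gC L, imP (X : Mt m) = 0 → imP (η : Mt m) = 0 →
      ‖η‖ < δ' → ∃ c : ℝ,
        Tendsto (fun s : ℝ => sdf D (fun Z : gC L => Qf (Z : Mt m)) ((s : ℂ) • X) η / (s : ℂ) ^ 2)
          (𝓝[≠] 0) (𝓝 (c : ℂ)) ∧
        |c + 1 / 24 * ‖(X : Mt m) * (η : Mt m) - (η : Mt m) * (X : Mt m)‖ ^ 2| ≤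
          C * ‖X‖ ^ 2 * ‖η‖ ^ 3) {ρ : ℝ} (hρ : 0 < ρ) (hρ0 : ρ ≤ r0 / 20) (hρ' : 2 * ρ ≤ δ')
    (X : gC L) (hX : imP (X : Mt m) = 0) {Cm : ℝ}
    (hCm : ∫ y, Wt L t y ∂μ ≤ Cm * μ.real (bal L (Real.sqrt t))) (hC : 0 ≤ C) {a : ℝ}
    (ha : Tendsto (fun s : ℝ => Complex.log (calE μ F t w ((s : ℂ) • X)) / (s : ℂ) ^ 2)
        (𝓝[≠] 0) (𝓝 ((a : ℂ) * Qf (X : Mt m)))) :
    |a * ‖X‖ ^ 2 * (∫ y, res L F y ^ 2 ∂μ) -
        1 / (48 * t) * ∫ y in bal L ρ, br D X y * res L F y ^ 2 ∂μ| ≤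
      (F 1).re ^ 2 * (80000 * (A * t) * ‖X‖ ^ 2) * (Cm * μ.real (bal L (Real.sqrt t))) +
        (F 1).re ^ 2 * ((32 / r0 ^ 2 + 5 * (192 / δ ^ 2 + 7400)) * ‖X‖ ^ 2 *
          Real.exp (-(ρ ^ 2 / 1000 / t))) +
        1 / (2 * t) * ((F 1).re ^ 2 * (C * ‖X‖ ^ 2 * (t * Real.sqrt t)) *
          (Cm * μ.real (bal L (Real.sqrt t)))) := by
  have hr0 := P.r0_pos
  have hrl := P.r_lo
  have hrl' := P.r'_lo
  have hδ := P.r0_δ
  have h2P := P.h2
  have hr2 : r' / 2 ≤ r := by linarith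
  have hB : MeasurableSet (bal L ρ : Set G) := (isOpen_bal L ρ).measurableSet
  have hlt : ∀ y ∈ (bal L ρ : Set G), dis L y < r0 / 20 := fun y hy => lt_of_lt_of_le hy hρ0
  obtain ⟨D0, hD0, hlim⟩ := lim_q (μ := μ) P cl ht hA hAt hcoef hρ0 hρ' X hX hCm hC
  -- small `s`
  have hs0 : Tendsto (fun s : ℝ => (s : ℂ) • X) (𝓝[≠] 0) (𝓝 0) := by
    have h2 : Continuous fun s : ℝ => (s : ℂ) • X :=
      Complex.continuous_ofReal.smul continuous_const
    have h3 := h2.tendsto 0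
    rw [Complex.ofReal_zero, zero_smul] at h3
    exact h3.mono_left nhdsWithin_le_nhds
  have hsm : ∀ᶠ s : ℝ in 𝓝[≠] 0, ‖(s : ℂ) • X‖ < r0 / 4 ∧ s ≠ 0 := by
    have h1 := hs0.norm
    rw [norm_zero] at h1
    have h2 : ∀ᶠ s : ℝ in 𝓝[≠] 0, ‖(s : ℂ) • X‖ < r0 / 4 :=
      h1.eventually (gt_mem_nhds (by positivity))
    exact h2.and self_mem_nhdsWithin
  -- the limit of `calE`
  have hE1 : Tendsto (fun s : ℝ => calE μ F t w ((s : ℂ) • X)) (𝓝[≠] 0) (𝓝 1) := by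
    have h0 : (0 : gC L) ∈ dom L r' (r0 / 4) := zero_mem_dom (by linarith) (by positivity)
    have h1 : ContinuousAt (calE μ F t w) 0 :=
      ((calE_diff (μ := μ) cl hw hr2 hr0) 0 h0).continuousWithinAt.continuousAt
        ((isOpen_dom L _ _).mem_nhds h0)
    have h2 := h1.tendsto.comp hs0
    rw [calE_zero cl hw hr2 hr0 (by linarith)] at h2
    exact h2
  have hE2 := lim_log hE1 ha
  -- the constant
  have hKc : ContinuousOn (fun y : G => F (L.rho y) * F (L.rho y) *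
      ((1 / 24 * br D X y : ℝ) : ℂ)) (bal L ρ) := by
    have h1 : ContinuousOn (fun y : G => F (L.rho y) * F (L.rho y)) (bal L ρ) :=
      ((cl.diff.continuous.comp L.cont).mul (cl.diff.continuous.comp L.cont)).continuousOn
    exact h1.mul (Complex.continuous_ofReal.comp_continuousOn
      (continuousOn_const.mul (br_cont P hρ0 X)))
  have hKi : IntegrableOn (fun y : G => F (L.rho y) * F (L.rho y) *
      ((1 / 24 * br D X y : ℝ) : ℂ)) (bal L ρ) μ := by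
    refine intg_on hB hKc ((F 1).re ^ 2 * (4 * ‖X‖ ^ 2)) ?_
    intro y hy
    rw [norm_mul, norm_FF cl, Complex.norm_real, Real.norm_eq_abs]
    refine mul_le_mul (res_le P cl ht hA hAt y) ?_ (abs_nonneg _) (sq_nonneg _)
    have h2 := br_le P (hlt y hy) X
    have h3 : 0 ≤ br D X y := sq_nonneg _
    rw [abs_of_nonneg (by positivity)]
    linarith
  set K : ℝ := ∫ y in bal L ρ, br D X y * res L F y ^ 2 ∂μ with hK
  have hKe : ∫ y in bal L ρ, F (L.rho y) * F (L.rho y) * ((1 / 24 * br D X y : ℝ) : ℂ) ∂μ =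
      ((1 / 24 * K : ℝ) : ℂ) := by
    rw [hK, ← integral_const_mul, ← integral_complex_ofReal]
    refine integral_congr_ae (Filter.Eventually.of_forall fun y => ?_)
    show F (L.rho y) * F (L.rho y) * ((1 / 24 * br D X y : ℝ) : ℂ) =
      ((1 / 24 * (br D X y * res L F y ^ 2) : ℝ) : ℂ)
    rw [FF_eq cl]
    push_cast
    ring
  set V : ℝ := ∫ y, res L F y ^ 2 ∂μ with hV
  have hVe : ccv L μ F 1 = (V : ℂ) := ccv_one_int cl
  -- the limit of the left side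
  have hL : Tendsto (fun s' : ℝ => ‖(calE μ F t w ((s' : ℂ) • X) - 1) / (s' : ℂ) ^ 2 *
      ccv L μ F 1 + ((∫ y in bal L ρ, F (L.rho y) * F (L.rho y) *
        (qq D ((s' : ℂ) • X) y / (s' : ℂ) ^ 2 + ((1 / 24 * br D X y : ℝ) : ℂ)) ∂μ) -
        ((1 / 24 * K : ℝ) : ℂ)) / (2 * t)‖) (𝓝[≠] 0)
      (𝓝 ‖(a : ℂ) * Qf (X : Mt m) * ccv L μ F 1 + (D0 - ((1 / 24 * K : ℝ) : ℂ)) / (2 * t)‖) :=
    ((hE2.mul_const _).add ((hlim.sub_const _).div_const _)).norm
  have hR : Tendsto (fun s' : ℝ =>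
      (F 1).re ^ 2 * (80000 * (A * t) * ‖X‖ ^ 2) * (Cm * μ.real (bal L (Real.sqrt t))) +
        s' ^ 2 * ((F 1).re ^ 2 * (((192 / δ ^ 2 + 7400) * ‖X‖ ^ 2 / t) ^ 2 *
          Real.exp ((192 / δ ^ 2 + 7400) / t))) +
        (F 1).re ^ 2 * ((32 / r0 ^ 2 + 5 * (192 / δ ^ 2 + 7400)) * ‖X‖ ^ 2 *
          Real.exp (-(ρ ^ 2 / 1000 / t)))) (𝓝[≠] 0)
      (𝓝 ((F 1).re ^ 2 * (80000 * (A * t) * ‖X‖ ^ 2) * (Cm * μ.real (bal L (Real.sqrt t))) +
        0 + (F 1).re ^ 2 * ((32 / r0 ^ 2 + 5 * (192 / δ ^ 2 + 7400)) * ‖X‖ ^ 2 *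
          Real.exp (-(ρ ^ 2 / 1000 / t))))) := by
    refine (tendsto_const_nhds.add ?_).add_const _
    have h1 : Continuous fun s' : ℝ => s' ^ 2 * ((F 1).re ^ 2 *
        (((192 / δ ^ 2 + 7400) * ‖X‖ ^ 2 / t) ^ 2 * Real.exp ((192 / δ ^ 2 + 7400) / t))) :=
      (continuous_pow 2).mul continuous_const
    have h2 := h1.tendsto 0
    have h3 : (0 : ℝ) ^ 2 * ((F 1).re ^ 2 *
        (((192 / δ ^ 2 + 7400) * ‖X‖ ^ 2 / t) ^ 2 * Real.exp ((192 / δ ^ 2 + 7400) / t))) = 0 := by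
      rw [zero_pow two_ne_zero, zero_mul]
    rw [h3] at h2
    exact h2.mono_left nhdsWithin_le_nhds
  have hmain := le_of_tendsto_of_tendsto hL hR (by
    filter_upwards [hsm] with s' hs
    have h1 := stepA (μ := μ) P cl hw ht hA hAt hρ hρ0 X hCm hs.2 (by
      have := hs.1
      rwa [norm_smul, Complex.norm_real, Real.norm_eq_abs] at this)
    refine le_trans (le_of_eq ?_) h1
    congr 1
    congr 1
    congr 1
    have hqi : IntegrableOn (fun y : G => F (L.rho y) * F (L.rho y) *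
        (qq D ((s' : ℂ) • X) y / (s' : ℂ) ^ 2)) (bal L ρ) μ := by
      refine intg_on hB ?_ ((F 1).re ^ 2 * (384 / δ ^ 2 * ‖(s' : ℂ) • X‖ ^ 2 / s' ^ 2)) ?_
      · have h1 : ContinuousOn (fun y : G => F (L.rho y) * F (L.rho y)) (bal L ρ) :=
          ((cl.diff.continuous.comp L.cont).mul (cl.diff.continuous.comp L.cont)).continuousOn
        exact h1.mul ((qq_cont P hρ0 ((s' : ℂ) • X) (by linarith [hs.1])).div_const _)
      · intro y hy
        rw [norm_mul, norm_FF cl]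
        refine mul_le_mul (res_le P cl ht hA hAt y) ?_ (norm_nonneg _) (sq_nonneg _)
        rw [norm_div, norm_pow, Complex.norm_real, Real.norm_eq_abs, sq_abs]
        exact div_le_div_of_nonneg_right (qq_le P (hlt y hy) _ hs.1) (sq_nonneg _)
    have hsi : IntegrableOn (fun y : G => F (L.rho y) * F (L.rho y) *
        (qq D ((s' : ℂ) • X) y / (s' : ℂ) ^ 2 + ((1 / 24 * br D X y : ℝ) : ℂ))) (bal L ρ) μ := by
      refine (hqi.add hKi).congr (Filter.Eventually.of_forall fun y => ?_)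
      show F (L.rho y) * F (L.rho y) * (qq D ((s' : ℂ) • X) y / (s' : ℂ) ^ 2) +
        F (L.rho y) * F (L.rho y) * ((1 / 24 * br D X y : ℝ) : ℂ) =
        F (L.rho y) * F (L.rho y) *
        (qq D ((s' : ℂ) • X) y / (s' : ℂ) ^ 2 + ((1 / 24 * br D X y : ℝ) : ℂ))
      ring
    rw [← hKe, ← integral_sub hsi hKi]
    refine integral_congr_ae (Filter.Eventually.of_forall fun y => ?_)
    show F (L.rho y) * F (L.rho y) *
        (qq D ((s' : ℂ) • X) y / (s' : ℂ) ^ 2 + ((1 / 24 * br D X y : ℝ) : ℂ)) -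
        F (L.rho y) * F (L.rho y) * ((1 / 24 * br D X y : ℝ) : ℂ) =
      F (L.rho y) * F (L.rho y) * (qq D ((s' : ℂ) • X) y / (s' : ℂ) ^ 2)
    ring)
  -- conclusion
  have hQ : (a : ℂ) * Qf (X : Mt m) * ccv L μ F 1 = ((a * ‖X‖ ^ 2 * V : ℝ) : ℂ) := by
    have h4 : Qf (X : Mt m) = (((Qf (X : Mt m)).re : ℝ) : ℂ) :=
      Complex.ext (by simp) (by rw [Complex.ofReal_im]; exact Qf_im_of_real hX)
    have h5 : (Qf (X : Mt m)).re = ‖X‖ ^ 2 := by
      rw [Qf_re, hX, norm_zero, norm_sq_gC X, hX, norm_zero]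
      ring
    rw [h4, h5, hVe]
    push_cast
    ring
  rw [hQ, add_zero] at hmain
  have ht2 : (2 * (t : ℂ)) = ((2 * t : ℝ) : ℂ) := by push_cast; ring
  have e1 : ((a * ‖X‖ ^ 2 * V - 1 / (48 * t) * K : ℝ) : ℂ) =
      (((a * ‖X‖ ^ 2 * V : ℝ) : ℂ) + (D0 - ((1 / 24 * K : ℝ) : ℂ)) / (2 * t)) - D0 / (2 * t) := by
    have : (t : ℂ) ≠ 0 := Complex.ofReal_ne_zero.2 ht.ne'
    push_cast
    ring
  have e2 : |a * ‖X‖ ^ 2 * V - 1 / (48 * t) * K| =
      ‖((a * ‖X‖ ^ 2 * V - 1 / (48 * t) * K : ℝ) : ℂ)‖ := by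
    rw [Complex.norm_real, Real.norm_eq_abs]
  rw [e2, e1]
  refine (norm_sub_le _ _).trans (add_le_add hmain ?_)
  rw [norm_div, ht2, Complex.norm_real, Real.norm_eq_abs, abs_of_pos (by positivity : 0 < 2 * t),
    one_div, ← div_eq_inv_mul]
  exact div_le_div_of_nonneg_right hD0 (by positivity)

include P cl ht hA hAt in
theorem main_B {n : ℕ} (E : Fin n → Mt m) (hE : ∀ a, E a ∈ lieSet L)
    (orth : ∀ a b, (trace ((E a)ᴴ * E b)).re = if a = b then 1 else 0)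
    (full : ∀ Y ∈ lieSet L, Y ∈ Submodule.span ℝ (Set.range E))
    (cas : ℝ) (hcas : ∀ X ∈ lieSet L, ∑ a, ‖E a * X - X * E a‖ ^ 2 = cas * ‖X‖ ^ 2)
    {ρ : ℝ} (hρ : 0 < ρ) (hρ0 : ρ ≤ r0 / 20) (X : gC L) (hX : (X : Mt m) ∈ lieSet L) {Cm c : ℝ}
    (hCm : ∫ y, Wt L t y ∂μ ≤ Cm * μ.real (bal L (Real.sqrt t)))
    (hcov : ∀ Y ∈ lieSet L, |∫ y, ipr Y (L.rho y) ^ 2 * (res L F y) ^ 2 ∂μ -
            t / 2 * ‖Y‖ ^ 2 * ∫ y, (res L F y) ^ 2 ∂μ| ≤ c * ‖Y‖ ^ 2) :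
    |∫ y in bal L ρ, br D X y * res L F y ^ 2 ∂μ -
        t / 2 * (cas * ‖X‖ ^ 2) * ∫ y, res L F y ^ 2 ∂μ| ≤
      cas * ‖X‖ ^ 2 * ((F 1).re ^ 2 * (4 * t ^ 2) * (Cm * μ.real (bal L (Real.sqrt t))) +
        (F 1).re ^ 2 * ((uB m + ‖(1 : Mt m)‖) ^ 2 * Real.exp (-(ρ ^ 2 / 1000 / t))) + c) := by
  have hr0 := P.r0_pos
  have hδ := P.r0_δ
  have hB : MeasurableSet (bal L ρ : Set G) := (isOpen_bal L ρ).measurableSet
  have hlt : ∀ y ∈ (bal L ρ : Set G), dis L y < r0 / 20 := fun y hy => lt_of_lt_of_le hy hρ0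
  set Y : Fin n → Mt m := fun a => E a * (X : Mt m) - (X : Mt m) * E a with hYd
  have hYl : ∀ a, Y a ∈ lieSet L := fun a => lie_brk L (hE a) hX
  have hXn : ‖(X : Mt m)‖ = ‖X‖ := rfl
  have hYs : ∑ a, ‖Y a‖ ^ 2 = cas * ‖X‖ ^ 2 := by
    have := hcas _ hX
    rw [hXn] at this
    exact this
  have hi2 : ∀ a, IntegrableOn (fun y : G => ipr (Y a) ((et L D y : gC L) : Mt m) ^ 2 *
      res L F y ^ 2) (bal L ρ) μ := by
    intro a
    refine intg_on hB ?_ (‖Y a‖ ^ 2 * (F 1).re ^ 2) ?_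
    · have h1 : ContinuousOn (fun y : G => ((et L D y : gC L) : Mt m)) (bal L ρ) :=
        continuous_subtype_val.comp_continuousOn (et_contOn P hρ0)
      have h2 : Continuous fun x : Mt m => ipr (Y a) x := by
        unfold ipr
        exact Complex.continuous_re.comp ((continuous_const.mul continuous_id).matrix_trace)
      exact ((h2.comp_continuousOn h1).pow 2).mul ((res_cont L cl.diff).pow 2).continuousOn
    · intro y hy
      rw [norm_mul, norm_pow, norm_pow, Real.norm_eq_abs, Real.norm_eq_abs, sq_abs (res L F y)]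
      refine mul_le_mul ?_ (res_le P cl ht hA hAt y) (sq_nonneg _) (by positivity)
      have h1 := abs_ipr_le (Y a) ((et L D y : gC L) : Mt m)
      have h2 : ‖((et L D y : gC L) : Mt m)‖ ≤ 1 := et_le_one P (hlt y hy)
      refine pow_le_pow_left₀ (abs_nonneg _) (h1.trans ?_) 2
      nlinarith [norm_nonneg (Y a)]
  have e1 : ∫ y in bal L ρ, br D X y * res L F y ^ 2 ∂μ =
      ∑ a, ∫ y in bal L ρ, ipr (Y a) ((et L D y : gC L) : Mt m) ^ 2 * res L F y ^ 2 ∂μ := by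
    rw [← integral_finsetSum _ (fun a _ => hi2 a)]
    refine setIntegral_congr_fun hB fun y hy => ?_
    have hyd : dis L y < δ := by have := hlt y hy; linarith
    have hηl := et_lie P.ch hyd
    have h1 := parseval orth (full _ (lie_brk L hX hηl))
    show ‖(X : Mt m) * ((et L D y : gC L) : Mt m) - ((et L D y : gC L) : Mt m) * (X : Mt m)‖ ^ 2 *
      res L F y ^ 2 = ∑ a, ipr (Y a) ((et L D y : gC L) : Mt m) ^ 2 * res L F y ^ 2
    rw [h1, Finset.sum_mul]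
    refine Finset.sum_congr rfl fun a _ => ?_
    rw [ipr_ad (lie_skew L (hE a)) (lie_skew L hX)]
  have e2 : t / 2 * (cas * ‖X‖ ^ 2) * ∫ y, res L F y ^ 2 ∂μ =
      ∑ a, t / 2 * ‖Y a‖ ^ 2 * ∫ y, res L F y ^ 2 ∂μ := by
    rw [← hYs, Finset.mul_sum, Finset.sum_mul]
  rw [e1, e2, ← Finset.sum_sub_distrib, ← hYs, Finset.sum_mul]
  refine (Finset.abs_sum_le_sum_abs _ _).trans (Finset.sum_le_sum fun a _ => ?_)
  have h1 := stepB (μ := μ) P cl ht hA hAt hρ hρ0 (hYl a) hCm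
  have h2 := hcov (Y a) (hYl a)
  have h3 := abs_add_le
    (∫ y in bal L ρ, ipr (Y a) ((et L D y : gC L) : Mt m) ^ 2 * res L F y ^ 2 ∂μ -
        ∫ y, ipr (Y a) (L.rho y) ^ 2 * res L F y ^ 2 ∂μ)
    (∫ y, ipr (Y a) (L.rho y) ^ 2 * (res L F y) ^ 2 ∂μ -
            t / 2 * ‖Y a‖ ^ 2 * ∫ y, (res L F y) ^ 2 ∂μ)
  rw [sub_add_sub_cancel] at h3
  refine h3.trans ((add_le_add h1 h2).trans (le_of_eq ?_))
  ring

end

theorem fin_arith {f M N2 V e t q At Cm K2 Ct C Cv Ud2 cas a K : ℝ} (ht : 0 < t) (hq0 : 0 < q)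
    (hq : q * q = t) (ht1 : t ≤ 1) (hAt0 : 0 ≤ At) (hf : 0 ≤ f) (hN : 0 < N2)
    (hV : 0 < V) (hCm : 0 ≤ Cm) (hK2 : 0 ≤ K2) (hCt : 0 ≤ Ct) (hC : 0 ≤ C) (hCv : 0 ≤ Cv)
    (hUd : 0 ≤ Ud2) (hcas : 0 ≤ cas) (hfM : f * M ≤ 3 * V) (he : e ≤ Ct * t ^ 3 * M)
    (h1 : |a * N2 * V - 1 / (48 * t) * K| ≤ f * (80000 * At * N2) * (Cm * M) + f * (K2 * N2 * e) +
      1 / (2 * t) * (f * (C * N2 * (t * q)) * (Cm * M)))
    (h2 : |K - t / 2 * (cas * N2) * V| ≤ cas * N2 * (f * (4 * t ^ 2) * (Cm * M) +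
      f * (Ud2 * e) + Cv * t * (q + At) * V)) :
    |a - cas / 96| ≤ (240000 * Cm + 3 * K2 * Ct + 2 * C * Cm + cas * (Cm + Ud2 * Ct + Cv)) *
      (q + At) := by
  have hW : 0 < N2 * V := mul_pos hN hV
  have hq1 : q ≤ 1 := by nlinarith
  have htq : t ≤ q := by nlinarith
  have ht2q : t ^ 2 ≤ q := by nlinarith
  have ht3q : t ^ 3 ≤ q := by
    have : t ^ 3 = t ^ 2 * t := by ring
    nlinarith [sq_nonneg t]
  have e1 : (a - cas / 96) * (N2 * V) =
      (a * N2 * V - 1 / (48 * t) * K) + 1 / (48 * t) * (K - t / 2 * (cas * N2) * V) := by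
    field_simp
    ring
  have e2 : |a - cas / 96| * (N2 * V) ≤ |a * N2 * V - 1 / (48 * t) * K| +
      1 / (48 * t) * |K - t / 2 * (cas * N2) * V| := by
    have h3 : |a - cas / 96| * (N2 * V) = |(a - cas / 96) * (N2 * V)| := by
      rw [abs_mul, abs_of_pos hW]
    rw [h3, e1]
    refine (abs_add_le _ _).trans ?_
    rw [abs_mul (1 / (48 * t)), abs_of_pos (by positivity : 0 < 1 / (48 * t))]
  have fe : f * e ≤ 3 * Ct * t ^ 3 * V := by
    calc f * e ≤ f * (Ct * t ^ 3 * M) := mul_le_mul_of_nonneg_left he hf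
      _ = Ct * t ^ 3 * (f * M) := by ring
      _ ≤ Ct * t ^ 3 * (3 * V) := mul_le_mul_of_nonneg_left hfM (by positivity)
      _ = _ := by ring
  have b1 : f * (80000 * At * N2) * (Cm * M) ≤ 240000 * Cm * (At * (N2 * V)) := by
    calc f * (80000 * At * N2) * (Cm * M) = 80000 * At * N2 * Cm * (f * M) := by ring
      _ ≤ 80000 * At * N2 * Cm * (3 * V) := mul_le_mul_of_nonneg_left hfM (by positivity)
      _ = _ := by ring
  have b2 : f * (K2 * N2 * e) ≤ 3 * K2 * Ct * (q * (N2 * V)) := by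
    calc f * (K2 * N2 * e) = K2 * N2 * (f * e) := by ring
      _ ≤ K2 * N2 * (3 * Ct * t ^ 3 * V) := mul_le_mul_of_nonneg_left fe (by positivity)
      _ = 3 * K2 * Ct * (N2 * V) * t ^ 3 := by ring
      _ ≤ 3 * K2 * Ct * (N2 * V) * q := mul_le_mul_of_nonneg_left ht3q (by positivity)
      _ = _ := by ring
  have b3 : 1 / (2 * t) * (f * (C * N2 * (t * q)) * (Cm * M)) ≤ 2 * C * Cm * (q * (N2 * V)) := by
    calc 1 / (2 * t) * (f * (C * N2 * (t * q)) * (Cm * M)) = 1 / 2 * C * Cm * q * N2 * (f * M) := by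
          field_simp
      _ ≤ 1 / 2 * C * Cm * q * N2 * (3 * V) := mul_le_mul_of_nonneg_left hfM (by positivity)
      _ = 3 / 2 * (C * Cm * (q * (N2 * V))) := by ring
      _ ≤ 2 * (C * Cm * (q * (N2 * V))) :=
          mul_le_mul_of_nonneg_right (by norm_num) (by positivity)
      _ = _ := by ring
  have b4 : 1 / (48 * t) * (cas * N2 * (f * (4 * t ^ 2) * (Cm * M))) ≤
      cas * Cm * (q * (N2 * V)) := by
    calc 1 / (48 * t) * (cas * N2 * (f * (4 * t ^ 2) * (Cm * M))) =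
          1 / 12 * cas * Cm * t * N2 * (f * M) := by field_simp; ring
      _ ≤ 1 / 12 * cas * Cm * t * N2 * (3 * V) := mul_le_mul_of_nonneg_left hfM (by positivity)
      _ = 1 / 4 * (cas * Cm * (N2 * V)) * t := by ring
      _ ≤ 1 / 4 * (cas * Cm * (N2 * V)) * q := mul_le_mul_of_nonneg_left htq (by positivity)
      _ ≤ 1 * (cas * Cm * (N2 * V)) * q := by
          refine mul_le_mul_of_nonneg_right ?_ hq0.le
          exact mul_le_mul_of_nonneg_right (by norm_num) (by positivity)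
      _ = _ := by ring
  have b5 : 1 / (48 * t) * (cas * N2 * (f * (Ud2 * e))) ≤ cas * (Ud2 * Ct) * (q * (N2 * V)) := by
    calc 1 / (48 * t) * (cas * N2 * (f * (Ud2 * e))) =
          1 / (48 * t) * (cas * N2 * Ud2) * (f * e) := by ring
      _ ≤ 1 / (48 * t) * (cas * N2 * Ud2) * (3 * Ct * t ^ 3 * V) :=
          mul_le_mul_of_nonneg_left fe (by positivity)
      _ = 1 / 16 * (cas * (Ud2 * Ct) * (N2 * V)) * t ^ 2 := by field_simp; ring
      _ ≤ 1 / 16 * (cas * (Ud2 * Ct) * (N2 * V)) * q :=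
          mul_le_mul_of_nonneg_left ht2q (by positivity)
      _ ≤ 1 * (cas * (Ud2 * Ct) * (N2 * V)) * q := by
          refine mul_le_mul_of_nonneg_right ?_ hq0.le
          exact mul_le_mul_of_nonneg_right (by norm_num) (by positivity)
      _ = _ := by ring
  have b6 : 1 / (48 * t) * (cas * N2 * (Cv * t * (q + At) * V)) ≤
      cas * Cv * ((q + At) * (N2 * V)) := by
    calc 1 / (48 * t) * (cas * N2 * (Cv * t * (q + At) * V)) =
          1 / 48 * (cas * Cv * ((q + At) * (N2 * V))) := by field_simp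
      _ ≤ 1 * (cas * Cv * ((q + At) * (N2 * V))) :=
          mul_le_mul_of_nonneg_right (by norm_num) (by positivity)
      _ = _ := by ring
  have h3 : 1 / (48 * t) * |K - t / 2 * (cas * N2) * V| ≤
      cas * Cm * (q * (N2 * V)) + cas * (Ud2 * Ct) * (q * (N2 * V)) +
        cas * Cv * ((q + At) * (N2 * V)) := by
    refine (mul_le_mul_of_nonneg_left h2 (by positivity)).trans ?_
    have : 1 / (48 * t) * (cas * N2 * (f * (4 * t ^ 2) * (Cm * M) +
      f * (Ud2 * e) + Cv * t * (q + At) * V)) = 1 / (48 * t) * (cas * N2 * (f * (4 * t ^ 2) *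
        (Cm * M))) + 1 / (48 * t) * (cas * N2 * (f * (Ud2 * e))) +
        1 / (48 * t) * (cas * N2 * (Cv * t * (q + At) * V)) := by ring
    rw [this]
    exact add_le_add (add_le_add b4 b5) b6
  have h4 : |a - cas / 96| * (N2 * V) ≤ ((240000 * Cm + 3 * K2 * Ct + 2 * C * Cm +
      cas * (Cm + Ud2 * Ct + Cv)) * (q + At)) * (N2 * V) := by
    have c1 : 0 ≤ 240000 * Cm * (q * (N2 * V)) := by positivity
    have c2 : 0 ≤ 3 * K2 * Ct * (At * (N2 * V)) := by positivity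
    have c3 : 0 ≤ 2 * C * Cm * (At * (N2 * V)) := by positivity
    have c4 : 0 ≤ cas * Cm * (At * (N2 * V)) := by positivity
    have c5 : 0 ≤ cas * (Ud2 * Ct) * (At * (N2 * V)) := by positivity
    linarith
  exact le_of_mul_le_mul_right h4 hW

end Dri

open Dri in
/-- The drift of the inverse coupling in one convolution is `cas / 96` up to `√t + A t`. -/
theorem drift {D : LogData m} {εg δ r0 r s b r' : ℝ} (P : Par L D εg δ r0 r s b r')
    {n : ℕ} (E : Fin n → Mt m) (hE : ∀ a, E a ∈ lieSet L)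
    (orth : ∀ a b, (trace ((E a)ᴴ * E b)).re = if a = b then 1 else 0)
    (full : ∀ Y ∈ lieSet L, Y ∈ Submodule.span ℝ (Set.range E)) (hne : ∃ X ∈ lieSet L, X ≠ 0)
    (cas : ℝ) (hcas : ∀ X ∈ lieSet L, ∑ a, ‖E a * X - X * E a‖ ^ 2 = cas * ‖X‖ ^ 2) :
    ∃ C ts : ℝ, 0 < C ∧ 0 < ts ∧ ∀ (F : Mt m → ℂ) (t A : ℝ) (w : gC L → ℂ) (a : ℝ), 0 < t →
      t ≤ ts → 0 ≤ A → A * t ≤ 1 / 10 → Cls L F t A r (r0 / 4) s b (1 / 10000) →
      SFw L F t A r (r0 / 4) w →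
      (∀ Z : gC L, Tendsto (fun s : ℝ => Complex.log (calE μ F t w ((s : ℂ) • Z)) / (s : ℂ) ^ 2)
        (𝓝[≠] 0) (𝓝 ((a : ℂ) * Qf (Z : Mt m)))) →
      |a - cas / 96| ≤ C * (Real.sqrt t + A * t) := by
  have hr0 := P.r0_pos
  have hr01 := P.r0_le
  obtain ⟨Cm, hCm0, hCm⟩ := gauss_moment μ L (1 / 2) (by norm_num)
  obtain ⟨Cc, δ', hCc, hδ', hcoef⟩ := sdf_Qf_coeff L P.ch
  obtain ⟨Cv, tv, hCv, htv, hcov⟩ := covar μ L P 2 (by norm_num)
  set ρ : ℝ := min (r0 / 20) (δ' / 2) with hρd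
  have hρ : 0 < ρ := lt_min (by positivity) (by positivity)
  have hρ0 : ρ ≤ r0 / 20 := min_le_left _ _
  have hρ' : 2 * ρ ≤ δ' := by
    have := min_le_right (r0 / 20) (δ' / 2)
    linarith
  obtain ⟨Ct, hCt, htail⟩ := tail_le μ L (ρ ^ 2 / 1000) (by positivity)
  obtain ⟨X0, hX0, hX0n⟩ := hne
  set X : gC L := ⟨X0, gC_of_lie L hX0⟩ with hXd
  have hXl : (X : Mt m) ∈ lieSet L := hX0
  have hXim : imP (X : Mt m) = 0 := imP_of_skew (lie_skew L hX0)
  have hXn : 0 < ‖X‖ := norm_pos_iff.2 fun h => hX0n (congrArg Subtype.val h)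
  have hcas0 : 0 ≤ cas := by
    have h1 := hcas _ hXl
    have h2 : 0 ≤ ∑ a, ‖E a * (X : Mt m) - (X : Mt m) * E a‖ ^ 2 :=
      Finset.sum_nonneg fun a _ => sq_nonneg _
    rw [h1] at h2
    have h3 : 0 < ‖(X : Mt m)‖ ^ 2 := pow_pos hXn 2
    exact nonneg_of_mul_nonneg_left h2 h3
  set K2 : ℝ := 32 / r0 ^ 2 + 5 * (192 / δ ^ 2 + 7400) with hK2
  have hK20 : 0 ≤ K2 := by positivity
  set Ud2 : ℝ := (uB m + ‖(1 : Mt m)‖) ^ 2 with hUd
  have hUd0 : 0 ≤ Ud2 := sq_nonneg _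
  refine ⟨240000 * Cm + 3 * K2 * Ct + 2 * Cc * Cm + cas * (Cm + Ud2 * Ct + Cv),
    min 1 (min tv (r0 ^ 2 / 1000)), by positivity, by positivity, ?_⟩
  intro F t A w a ht hts hA hAt cl hw ha
  have ht1 : t ≤ 1 := hts.trans (min_le_left _ _)
  have ht2 : t ≤ tv := hts.trans ((min_le_right _ _).trans (min_le_left _ _))
  have ht3 : t ≤ r0 ^ 2 / 1000 := hts.trans ((min_le_right _ _).trans (min_le_right _ _))
  have hst : Real.sqrt t < r0 / 20 := by
    rw [Real.sqrt_lt' (by positivity)]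
    have h2 : 0 < r0 ^ 2 := by positivity
    nlinarith
  have hW : ∫ y, Wt L t y ∂μ ≤ Cm * μ.real (bal L (Real.sqrt t)) := hCm t ht
  have hlow := ccv_one_lower μ P cl hw ht hA hAt hst
  have hVe := ccv_one_int (μ := μ) cl
  rw [hVe, Complex.ofReal_re] at hlow
  have hVpos : 0 < ∫ y, res L F y ^ 2 ∂μ := by
    have := ccv_one_pos (μ := μ) cl
    rwa [hVe, Complex.ofReal_re] at this
  have hexp : (1 / 3 : ℝ) ≤ Real.exp (-(51 / 50)) := by
    rw [Real.exp_neg, ← one_div, div_le_div_iff₀ (by norm_num) (Real.exp_pos _), one_mul, one_mul]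
    have e1 : Real.exp (51 / 50) = Real.exp 1 * Real.exp (1 / 50) := by
      rw [← Real.exp_add]; norm_num
    have e2 : Real.exp (1 / 50) ≤ 1 + 2 * (1 / 50) := by
      have := Real.exp_bound' (x := 1 / 50) (by norm_num) (by norm_num) (n := 2) (by norm_num)
      refine this.trans ?_
      norm_num [Finset.sum_range_succ]
    have e3 := Real.exp_one_lt_d9
    rw [e1]
    have := Real.exp_pos (1 / 50)
    nlinarith
  have hmu := bal_pos μ L (Real.sqrt t) (Real.sqrt_pos.2 ht)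
  have hfM : (F 1).re ^ 2 * μ.real (bal L (Real.sqrt t)) ≤ 3 * ∫ y, res L F y ^ 2 ∂μ := by
    have h1 : (F 1).re ^ 2 * (1 / 3) * μ.real (bal L (Real.sqrt t)) ≤
        (F 1).re ^ 2 * Real.exp (-(51 / 50)) * μ.real (bal L (Real.sqrt t)) :=
      mul_le_mul_of_nonneg_right (mul_le_mul_of_nonneg_left hexp (sq_nonneg _)) hmu.le
    linarith
  have hA1 := main_A (μ := μ) P cl hw ht hA hAt hcoef hρ hρ0 hρ' X hXim hW hCc.le (ha X)
  have hB1 := main_B (μ := μ) P cl ht hA hAt E hE orth full cas hcas hρ hρ0 X hXl hW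
    (c := Cv * t * (Real.sqrt t + A * t) * ∫ y, res L F y ^ 2 ∂μ) (by
      intro Y hY
      have h1 := hcov F t A ht ht2 hA hAt cl Y hY
      have e : ((2 : ℕ) : ℝ) = 2 := by norm_num
      rw [e] at h1
      refine h1.trans (le_of_eq ?_)
      ring)
  have htl := htail t ht ht1
  exact fin_arith ht (Real.sqrt_pos.2 ht) (Real.mul_self_sqrt ht.le) ht1 (by positivity)
    (sq_nonneg _) (by positivity) hVpos hCm0.le hK20 hCt.le hCc.le hCv.le hUd0 hcas0 hfM htl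
    hA1 hB1

end

end Pool.Agent.T2H04.HY
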