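import Mathlib
import Pool.Agent.T2H04.HY.Conv5

/-!
# The conditions on the coupling
-/

open MeasureTheory Matrix Filter
open scoped Matrix.Norms.Frobenius Topology

namespace Pool.Agent.T2H04.HY

set_option linter.unusedSectionVars false

noncomputable section

variable {G : Type} [Group G] [TopologicalSpace G] [IsTopologicalGroup G] [CompactSpace G]
  [MeasurableSpace G] [BorelSpace G] {μ : Measure G} [μ.IsHaarMeasure] [IsProbabilityMeasure μ]
  {m : Type} [Fintype m] [DecidableEq m] {L : RD G m}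

/-! ### smallness of `t` -/

theorem exp_le_pow (κ K c : ℝ) (p : ℕ) (hκ : 0 < κ) (hK : 0 < K) (hc : 0 < c) :
    ∃ ts : ℝ, 0 < ts ∧ ts ≤ 1 ∧ ∀ t : ℝ, 0 < t → t ≤ ts →
      K * Real.exp (-(κ / t)) ≤ c * Real.sqrt t ^ p := by
  have h1 := Real.tendsto_pow_mul_exp_neg_atTop_nhds_zero p
  have h2 : ∀ᶠ x in atTop, x ^ p * Real.exp (-x) < c * κ ^ p / K :=
    h1.eventually (gt_mem_nhds (by positivity))
  obtain ⟨X, hX⟩ := (h2.and (eventually_gt_atTop 0)).exists_forall_of_atTop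
  have hX1 : 0 < max X 1 := lt_max_of_lt_right one_pos
  refine ⟨min 1 (κ / max X 1), by positivity, min_le_left _ _, fun t ht htl => ?_⟩
  have ht1 : t ≤ 1 := htl.trans (min_le_left _ _)
  have ht2 : t ≤ κ / max X 1 := htl.trans (min_le_right _ _)
  have hx : X ≤ κ / t := by
    rw [le_div_iff₀ ht]
    rw [le_div_iff₀ hX1] at ht2
    have := le_max_left X 1
    nlinarith
  obtain ⟨h3, h4⟩ := hX (κ / t) hx
  have h5 : (κ / t) ^ p = κ ^ p / t ^ p := div_pow _ _ _
  rw [h5] at h3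
  have hsq : t ≤ Real.sqrt t := by
    have h6 := Real.sq_sqrt ht.le
    have h7 := Real.sqrt_nonneg t
    have h8 : Real.sqrt t ≤ 1 := Real.sqrt_le_one.2 ht1
    nlinarith
  have h6 : t ^ p ≤ Real.sqrt t ^ p := pow_le_pow_left₀ ht.le hsq p
  have h7 : K * Real.exp (-(κ / t)) ≤ c * t ^ p := by
    have h8 : 0 < t ^ p := by positivity
    have h9 : 0 < κ ^ p := by positivity
    have h10 : κ ^ p / t ^ p * Real.exp (-(κ / t)) * (K * t ^ p / κ ^ p) ≤
        c * κ ^ p / K * (K * t ^ p / κ ^ p) := mul_le_mul_of_nonneg_right h3.le (by positivity)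
    have e1 : κ ^ p / t ^ p * Real.exp (-(κ / t)) * (K * t ^ p / κ ^ p) =
        K * Real.exp (-(κ / t)) := by field_simp
    have e2 : c * κ ^ p / K * (K * t ^ p / κ ^ p) = c * t ^ p := by field_simp
    rwa [e1, e2] at h10
  exact h7.trans (mul_le_mul_of_nonneg_left h6 hc.le)

/-- the conditions on `t` hold for small `t` -/
theorem exists_TC (μ : Measure G) [μ.IsHaarMeasure] [IsProbabilityMeasure μ] (L : RD G m) (r0 : ℝ)
    (hr0 : 0 < r0) : ∃ ts : ℝ, 0 < ts ∧ ∀ t : ℝ, 0 < t → t ≤ ts → TC μ L r0 t := by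
  obtain ⟨c, hc, p, hp⟩ := bal_lower μ L
  obtain ⟨t1, h1, h11, H1⟩ := exp_le_pow (r0 ^ 2 / 400) 1 (Real.exp (-50) * c) p (by positivity)
    one_pos (by positivity)
  obtain ⟨t2, h2, h21, H2⟩ := exp_le_pow (r0 ^ 2 / 1000) 24 c p (by positivity) (by norm_num) hc
  refine ⟨min (min t1 t2) (r0 ^ 2 / 1000), by positivity, fun t ht htl => ?_⟩
  have a1 : t ≤ t1 := htl.trans ((min_le_left _ _).trans (min_le_left _ _))
  have a2 : t ≤ t2 := htl.trans ((min_le_left _ _).trans (min_le_right _ _))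
  have a3 : t ≤ r0 ^ 2 / 1000 := htl.trans (min_le_right _ _)
  have hs1 : Real.sqrt t ≤ 1 := Real.sqrt_le_one.2 (a1.trans h11)
  have hb := hp (Real.sqrt t) (Real.sqrt_pos.2 ht) hs1
  refine ⟨ht, ?_, ?_, by linarith⟩
  · have := H1 t ht a1
    rw [one_mul, div_div] at this
    refine this.trans ?_
    rw [mul_assoc]
    exact mul_le_mul_of_nonneg_left hb (Real.exp_pos _).le
  · have := H2 t ht a2
    rw [div_div] at this
    exact this.trans hb

end

end Pool.Agent.T2H04.HY
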