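import Mathlib
import Pool.Agent.T2H04.HY.Drift
import Pool.Agent.T2H04.HY.Tc

/-!
# The renormalisation group step
-/

open MeasureTheory Matrix Filter
open scoped Matrix.Norms.Frobenius Topology

namespace Pool.Agent.T2H04.HY

set_option linter.unusedSectionVars false

noncomputable section

variable {G : Type} [Group G] [TopologicalSpace G] [IsTopologicalGroup G] [CompactSpace G]
  [MeasurableSpace G] [BorelSpace G] {μ : Measure G} [μ.IsHaarMeasure] [IsProbabilityMeasure μ]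
  {m : Type} [Fintype m] [DecidableEq m] {L : RD G m}

/-! ### powers -/

theorem cls_eq_res {F : Mt m → ℂ} (hr : ∀ g : G, (F (L.rho g)).im = 0) (g : G) :
    F (L.rho g) = ((res L F g : ℝ) : ℂ) := Complex.ext (by simp [res]) (by simp [hr])

/-- The fourth power of a function of the class. -/
theorem Cls.pow4 {F : Mt m → ℂ} {t A r τ s b ε : ℝ} (cl : Cls L F t A r τ s b ε) (ht : 0 < t) :
    Cls L (fun x => F x ^ 4) (t / 4) (4 * A) r τ s b ε := by
  have hF1 : F 1 = ((F 1).re : ℂ) := cls_F1 cl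
  have h14 : ((F 1 ^ 4).re : ℝ) = (F 1).re ^ 4 := by
    conv_lhs => rw [hF1]
    norm_cast
  refine ⟨cl.diff.pow 4, fun g x => ?_, fun x => ?_, fun g => ?_, fun g => ?_, ?_, ?_, ?_⟩
  · simp only [cl.conj]
  · simp only [cl.inv]
  · rw [cls_eq_res cl.real g]
    norm_cast
  · rw [cls_eq_res cl.real g]
    have : ((((res L F g : ℝ) : ℂ) ^ 4).re : ℝ) = (res L F g) ^ 4 := by norm_cast
    rw [this]
    positivity
  · show 0 < (F 1 ^ 4).re
    rw [h14]
    exact pow_pos cl.pos 4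
  · obtain ⟨w, h1, h2, h3, h4, h5, h6⟩ := cl.small
    refine ⟨fun Z => 4 * w Z, h1.const_mul 4, fun Z hZ => ?_, fun g Z hZ Z' h => ?_,
      fun Z hZ h => ?_, fun Z hZ => ?_, fun Z hZ => ?_⟩
    · simp only [h2 Z hZ]
    · simp only [h3 g Z hZ Z' h]
    · simp [h4 Z hZ h]
    · rw [norm_mul]
      have : ‖(4 : ℂ)‖ = 4 := by simp
      rw [this, mul_assoc]
      exact mul_le_mul_of_nonneg_left (h5 Z hZ) (by norm_num)
    · simp only
      rw [h6 Z hZ, mul_pow, ← Complex.exp_nat_mul]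
      congr 2
      have ht' : (t : ℂ) ≠ 0 := by exact_mod_cast ht.ne'
      push_cast
      field_simp
  · intro Z hZ y hy
    have h := cl.large Z hZ y hy
    rw [norm_pow]
    have h0 : 0 ≤ ‖F (NormedSpace.exp (Z : Mt m) * L.rho y)‖ := norm_nonneg _
    have h2 := pow_le_pow_left₀ h0 h 4
    refine h2.trans (le_of_eq ?_)
    show _ = (F 1 ^ 4).re * _
    rw [h14, mul_pow, ← Real.exp_nat_mul]
    congr 2
    push_cast
    field_simp

/-! ### the choice of the parameters -/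

/-- The parameters of the two convolution steps. -/
structure RGp (μ : Measure G) (L : RD G m) (D : LogData m) (δ r0 Cm : ℝ) : Prop where
  p1 : Par L D (1 / 1000000) δ r0 r0 (95 / 100 * r0) (84 / 100 * r0 ^ 2) (6 / 5 * r0)
  p2 : Par L D (1 / 1000000) δ r0 (6 / 5 * r0) (114 / 100 * r0) (124 / 100 * r0 ^ 2) r0
  Cm0 : 0 ≤ Cm
  hCm : ∀ t : ℝ, 0 < t → ∫ y, (1 + dis L y ^ 2 / t + (dis L y ^ 2 / t) ^ 2) *
      Real.exp (-(1 / 2 * dis L y ^ 2 / t)) ∂μ ≤ Cm * μ.real (bal L (Real.sqrt t))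
  hR : 32 * (192 / δ ^ 2 + 7400) * Cm * r0 ^ 2 ≤ 1

theorem exists_RGp (μ : Measure G) [μ.IsHaarMeasure] [IsProbabilityMeasure μ] (L : RD G m)
    (D : LogData m) (r1 : ℝ) (hr1 : 0 < r1) :
    ∃ δ r0 Cm : ℝ, r0 ≤ r1 ∧ RGp μ L D δ r0 Cm := by
  obtain ⟨δ, ch⟩ := exists_chart L D (1 / 1000000) (by norm_num)
  obtain ⟨Cm, hCm, hm⟩ := gauss_moment μ L (1 / 2) (by norm_num)
  have hδ := ch.pos
  set K : ℝ := 32 * (192 / δ ^ 2 + 7400) * Cm with hK
  have hK0 : 0 < K := by positivity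
  obtain ⟨r0, h0, h1, h2, h3, h4⟩ : ∃ r0 : ℝ, 0 < r0 ∧ r0 ≤ r1 ∧ r0 ≤ 1 / 2000 ∧ 100 * r0 ≤ δ ∧
      K * r0 ^ 2 ≤ 1 := by
    refine ⟨min (min r1 (1 / 2000)) (min (δ / 100) (1 / (K + 1))), by positivity,
      (min_le_left _ _).trans (min_le_left _ _), (min_le_left _ _).trans (min_le_right _ _), ?_, ?_⟩
    · have : min (min r1 (1 / 2000)) (min (δ / 100) (1 / (K + 1))) ≤ δ / 100 :=
        (min_le_right _ _).trans (min_le_left _ _)
      linarith
    · set x := min (min r1 (1 / 2000)) (min (δ / 100) (1 / (K + 1))) with hx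
      have hx0 : 0 < x := by positivity
      have h5 : x ≤ 1 / (K + 1) := (min_le_right _ _).trans (min_le_right _ _)
      have h6 : x ≤ 1 / 2000 := (min_le_left _ _).trans (min_le_right _ _)
      rw [le_div_iff₀ (by positivity)] at h5
      nlinarith
  refine ⟨δ, r0, Cm, h1, ⟨?_, ?_, hCm.le, hm, h4⟩⟩
  · exact ⟨ch, by norm_num, le_rfl, h0, h2, h3, le_rfl, by linarith, by linarith, le_rfl,
      by linarith, by linarith, by nlinarith⟩
  · exact ⟨ch, by norm_num, le_rfl, h0, h2, h3, by linarith, le_rfl, le_rfl, by linarith,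
      by linarith, by linarith, by nlinarith⟩

/-! ### two convolutions and the fourth power -/

/-- the complexified renormalisation group map, not normalised -/
def cmk (μ : Measure G) (L : RD G m) (F : Mt m → ℂ) (x : Mt m) : ℂ := ccv L μ (ccv L μ F) x ^ 4

/-- the class of the ultraviolet analysis -/
abbrev Cl0 (L : RD G m) (r0 : ℝ) (F : Mt m → ℂ) (t A : ℝ) : Prop :=
  Cls L F t A r0 (r0 / 4) (95 / 100 * r0) (84 / 100 * r0 ^ 2) (1 / 10000)

theorem step_arith1 {t a t2 R : ℝ} (ht : 0 < t) (hR : 0 < R) (ha : |a| ≤ 16 / R)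
    (h : t ≤ R / 2000) (ht2 : t2 = 1 / (1 / (2 * t) - 2 * a)) :
    0 < t2 ∧ t2 ≤ 21 / 10 * t ∧ 1 / t2 = 1 / (2 * t) - 2 * a := by
  obtain ⟨h1, h2⟩ := abs_le.1 ha
  have h3 : 16 / R ≤ 16 / 2000 / t := by
    rw [div_le_div_iff₀ hR ht]
    nlinarith
  have h4 : 1 / (2 * t) = 1 / 2 / t := by field_simp
  have h5 : 0 < 1 / t := by positivity
  have h6 : 16 / 2000 / t = 16 / 2000 * (1 / t) := by ring
  have h7 : 1 / 2 / t = 1 / 2 * (1 / t) := by ring
  have h8 : 0 < 1 / (2 * t) - 2 * a := by rw [h4, h7]; rw [h6] at h3; linarith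
  have h9 : 1 / t2 = 1 / (2 * t) - 2 * a := by rw [ht2, one_div_one_div]
  have h10 : 0 < t2 := by rw [ht2]; positivity
  refine ⟨h10, ?_, h9⟩
  have h11 : 1 / (21 / 10 * t) ≤ 1 / t2 := by
    have h12 : 1 / (21 / 10 * t) = 10 / 21 * (1 / t) := by field_simp
    rw [h9, h4, h7, h12]
    rw [h6] at h3
    linarith
  rwa [div_le_div_iff₀ (by positivity) h10, one_mul, one_mul] at h11

theorem step_arith2 {t A t2 t3 S : ℝ} (ht : 0 < t) (hA : 0 ≤ A) (hAt : A * t ≤ 1 / 10)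
    (hS : 0 ≤ S) (hSt : S * t ≤ 1 / 200) (h20 : 0 < t2) (h2 : t2 ≤ 21 / 10 * t) (h30 : 0 < t3)
    (h3 : t3 ≤ 21 / 10 * t2) : (A / 8 + S) * t2 ≤ 1 / 10 ∧
      (4 * ((A / 8 + S) / 8 + S)) * (t3 / 4) ≤ 1 / 10 := by
  have h4 : t3 ≤ 441 / 100 * t := by linarith
  have h5 : A * t2 ≤ 21 / 10 * (A * t) := by
    have := mul_le_mul_of_nonneg_left h2 hA
    linarith
  have h6 : S * t2 ≤ 21 / 10 * (S * t) := by
    have := mul_le_mul_of_nonneg_left h2 hS
    linarith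
  have h7 : A * t3 ≤ 441 / 100 * (A * t) := by
    have := mul_le_mul_of_nonneg_left h4 hA
    linarith
  have h8 : S * t3 ≤ 441 / 100 * (S * t) := by
    have := mul_le_mul_of_nonneg_left h4 hS
    linarith
  constructor
  · have e : (A / 8 + S) * t2 = (A * t2) / 8 + S * t2 := by ring
    rw [e]
    linarith
  · have e : (4 * ((A / 8 + S) / 8 + S)) * (t3 / 4) = (A * t3) / 64 + 9 / 8 * (S * t3) := by ring
    rw [e]
    linarith

theorem step_arith3 {t A t2 a1 a2 c C1 C2 S : ℝ} (ht : 0 < t) (ht1 : t ≤ 1) (hA : 0 ≤ A)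
    (hS : 0 ≤ S) (h20 : 0 < t2) (h2 : t2 ≤ 21 / 10 * t) (hC2 : 0 ≤ C2)
    (h1 : |a1 - c / 96| ≤ C1 * (Real.sqrt t + A * t))
    (h2' : |a2 - c / 96| ≤ C2 * (Real.sqrt t2 + (A / 8 + S) * t2)) :
    |-(4 * a1) - 8 * a2 + c / 8| ≤ (4 * C1 + 8 * C2 * (2 + 3 * S)) * (Real.sqrt t + A * t) := by
  have hs : Real.sqrt t2 ≤ 2 * Real.sqrt t := by
    have h3 : Real.sqrt t2 ≤ Real.sqrt (4 * t) := Real.sqrt_le_sqrt (by linarith)
    have h4 : Real.sqrt (4 * t) = 2 * Real.sqrt t := by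
      rw [Real.sqrt_mul (by norm_num)]
      congr 1
      rw [show (4 : ℝ) = 2 ^ 2 by norm_num]
      exact Real.sqrt_sq (by norm_num)
    linarith
  have hst : t ≤ Real.sqrt t := by
    have h6 := Real.sq_sqrt ht.le
    have h7 := Real.sqrt_nonneg t
    have h8 : Real.sqrt t ≤ 1 := Real.sqrt_le_one.2 ht1
    nlinarith
  have hAt : 0 ≤ A * t := by positivity
  have hsq := Real.sqrt_nonneg t
  have h5 : Real.sqrt t2 + (A / 8 + S) * t2 ≤ (2 + 3 * S) * (Real.sqrt t + A * t) := by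
    have h6 : A * t2 ≤ 21 / 10 * (A * t) := by
      have := mul_le_mul_of_nonneg_left h2 hA
      linarith
    have h7 : S * t2 ≤ 21 / 10 * (S * Real.sqrt t) := by
      have h8 := mul_le_mul_of_nonneg_left h2 hS
      have h9 := mul_le_mul_of_nonneg_left hst hS
      linarith
    have h10 : 0 ≤ S * (A * t) := by positivity
    have h11 : 0 ≤ S * Real.sqrt t := by positivity
    have e1 : (A / 8 + S) * t2 = A * t2 / 8 + S * t2 := by ring
    have e2 : (2 + 3 * S) * (Real.sqrt t + A * t) = 2 * Real.sqrt t + 2 * (A * t) +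
        3 * (S * Real.sqrt t) + 3 * (S * (A * t)) := by ring
    rw [e1, e2]
    linarith
  have h6 : |a2 - c / 96| ≤ C2 * ((2 + 3 * S) * (Real.sqrt t + A * t)) :=
    h2'.trans (mul_le_mul_of_nonneg_left h5 hC2)
  have e : -(4 * a1) - 8 * a2 + c / 8 = -(4 * (a1 - c / 96)) - 8 * (a2 - c / 96) := by ring
  rw [e]
  have h7 : |-(4 * (a1 - c / 96)) - 8 * (a2 - c / 96)| ≤ 4 * |a1 - c / 96| + 8 * |a2 - c / 96| := by
    refine (abs_sub _ _).trans (le_of_eq ?_)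
    rw [abs_neg, abs_mul, abs_mul, abs_of_pos (by norm_num : (0 : ℝ) < 4),
      abs_of_pos (by norm_num : (0 : ℝ) < 8)]
  calc _ ≤ 4 * |a1 - c / 96| + 8 * |a2 - c / 96| := h7
    _ ≤ 4 * (C1 * (Real.sqrt t + A * t)) + 8 * (C2 * ((2 + 3 * S) * (Real.sqrt t + A * t))) := by
        linarith
    _ = _ := by ring

/-- **The renormalisation group step.** -/
theorem rg_step (hs : Simple L) {D : LogData m} {δ r0 Cm : ℝ} (R : RGp μ L D δ r0 Cm)
    {n : ℕ} (E : Fin n → Mt m) (hE : ∀ a, E a ∈ lieSet L)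
    (orth : ∀ a b, (trace ((E a)ᴴ * E b)).re = if a = b then 1 else 0)
    (full : ∀ Y ∈ lieSet L, Y ∈ Submodule.span ℝ (Set.range E)) (hne : ∃ X ∈ lieSet L, X ≠ 0)
    (cas : ℝ) (hcas : ∀ X ∈ lieSet L, ∑ a, ‖E a * X - X * E a‖ ^ 2 = cas * ‖X‖ ^ 2) :
    ∃ C ts : ℝ, 0 < C ∧ 0 < ts ∧ ∀ (F : Mt m → ℂ) (t A : ℝ), 0 < t → t ≤ ts → 0 ≤ A →
      A * t ≤ 1 / 10 → Cl0 L r0 F t A → ∃ t' A' : ℝ, 0 < t' ∧ t' ≤ 2 * t ∧ 0 ≤ A' ∧
        A' * t' ≤ 1 / 10 ∧ Cl0 L r0 (cmk μ L F) t' A' ∧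
        |1 / t' - 1 / t + cas / 8| ≤ C * (Real.sqrt t + A * t) ∧ A' ≤ A / 16 + C := by
  obtain ⟨C1, ts1, hC1, hts1, d1⟩ := drift (μ := μ) R.p1 E hE orth full hne cas hcas
  obtain ⟨C2, ts2, hC2, hts2, d2⟩ := drift (μ := μ) R.p2 E hE orth full hne cas hcas
  have hr0 := R.p1.r0_pos
  obtain ⟨ts0, hts0, T⟩ := exists_TC μ L r0 hr0
  set S : ℝ := 512 / r0 ^ 4 with hS
  have hS0 : 0 < S := by positivity
  refine ⟨4 * C1 + 8 * C2 * (2 + 3 * S) + 9 / 2 * S, min (min (min ts1 (ts2 / 3)) (ts0 / 3))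
    (min (min (r0 ^ 2 / 10000) (1 / (200 * S))) 1), by positivity, by positivity,
    fun F t A ht htl hA hAt cl => ?_⟩
  have a1 : t ≤ ts1 := htl.trans ((min_le_left _ _).trans ((min_le_left _ _).trans (min_le_left _ _)))
  have a2 : t ≤ ts2 / 3 :=
    htl.trans ((min_le_left _ _).trans ((min_le_left _ _).trans (min_le_right _ _)))
  have a3 : t ≤ ts0 / 3 := htl.trans ((min_le_left _ _).trans (min_le_right _ _))
  have a4 : t ≤ r0 ^ 2 / 10000 :=
    htl.trans ((min_le_right _ _).trans ((min_le_left _ _).trans (min_le_left _ _)))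
  have a5 : t ≤ 1 / (200 * S) :=
    htl.trans ((min_le_right _ _).trans ((min_le_left _ _).trans (min_le_right _ _)))
  have a6 : t ≤ 1 := htl.trans ((min_le_right _ _).trans (min_le_right _ _))
  have a7 : S * t ≤ 1 / 200 := by
    rw [le_div_iff₀ (by positivity)] at a5
    linarith
  have hr2 : 0 < r0 ^ 2 := by positivity
  -- the first convolution
  obtain ⟨w1, hw1⟩ := cl.sf
  obtain ⟨b1, hb1, hq1, cl1⟩ := conv_cls hs R.p1 R.hCm R.Cm0 R.hR cl hw1 (T t ht (by linarith)) hA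
    hAt (s' := 114 / 100 * r0) (b' := 124 / 100 * r0 ^ 2) (by positivity) (by positivity)
    (by nlinarith) (by nlinarith) (by nlinarith)
  obtain ⟨t2, ht2⟩ : ∃ t2, t2 = 1 / (1 / (2 * t) - 2 * b1) := ⟨_, rfl⟩
  rw [← ht2] at cl1
  obtain ⟨h20, h21, h22⟩ := step_arith1 ht hr2 hb1 (by linarith) ht2
  have hA2 : 0 ≤ A / 8 + S := by positivity
  -- the second convolution
  obtain ⟨w2, hw2⟩ := cl1.sf
  have hAt2 : (A / 8 + S) * t2 ≤ 1 / 10 :=
    (step_arith2 ht hA hAt hS0.le a7 h20 h21 (t3 := t2) h20 (by linarith)).1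
  obtain ⟨b2, hb2, hq2, cl2⟩ := conv_cls hs R.p2 R.hCm R.Cm0 R.hR cl1 hw2 (T t2 h20 (by linarith))
    hA2 hAt2 (s' := 95 / 100 * r0) (b' := 84 / 100 * r0 ^ 2) (by positivity) (by positivity)
    (by nlinarith) (by nlinarith) (by nlinarith)
  obtain ⟨t3, ht3⟩ : ∃ t3, t3 = 1 / (1 / (2 * t2) - 2 * b2) := ⟨_, rfl⟩
  rw [← ht3] at cl2
  obtain ⟨h30, h31, h32⟩ := step_arith1 h20 hr2 hb2 (by linarith) ht3
  have hAt3 := (step_arith2 ht hA hAt hS0.le a7 h20 h21 h30 h31).2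
  -- the drifts
  have e1 := d1 F t A w1 b1 ht a1 hA hAt cl hw1 hq1
  have e2 := d2 (ccv L μ F) t2 (A / 8 + S) w2 b2 h20 (by linarith) hA2 hAt2 cl1 hw2 hq2
  refine ⟨t3 / 4, 4 * ((A / 8 + S) / 8 + S), by positivity, by linarith, by positivity, hAt3,
    cl2.pow4 h30, ?_, ?_⟩
  · have h4 : 1 / (t3 / 4) = 4 * (1 / t3) := by field_simp
    have h5 : 1 / (2 * t2) = 1 / 2 * (1 / t2) := by field_simp
    have h6 : 1 / (2 * t) = 1 / 2 * (1 / t) := by field_simp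
    have h7 : 1 / (t3 / 4) - 1 / t + cas / 8 = -(4 * b1) - 8 * b2 + cas / 8 := by
      rw [h4, h32, h5, h22, h6]
      ring
    rw [h7]
    refine (step_arith3 ht a6 hA hS0.le h20 h21 hC2.le e1 e2).trans ?_
    have h8 : 0 ≤ Real.sqrt t + A * t := by positivity
    have h9 := mul_nonneg (by positivity : 0 ≤ 9 / 2 * S) h8
    linarith
  · have h5 : 0 ≤ 4 * C1 + 8 * C2 * (2 + 3 * S) := by positivity
    linarith

end

end Pool.Agent.T2H04.HY
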