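import Mathlib
import Pool.Agent.T2H04.HY.Bnd
import Pool.Agent.T2H04.HY.Ccv
import Pool.Agent.T2H04.HY.Log

/-!
# The Wilson action is in the class
-/

open MeasureTheory Matrix Filter
open scoped Matrix.Norms.Frobenius Topology

namespace Pool.Agent.T2H04.HY

set_option linter.unusedSectionVars false

noncomputable section

variable {G : Type} [Group G] [TopologicalSpace G] [IsTopologicalGroup G] [CompactSpace G]
  {m : Type} [Fintype m] [DecidableEq m] (L : RD G m)

/-- the complexified Wilson plaquette function -/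
def Wt (t : ℝ) (x : Mt m) : ℂ := Complex.exp (trace x / t)

namespace Wil

theorem norm_tr_mul (x y : Mt m) : ‖trace (x * y)‖ ≤ ‖x‖ * ‖y‖ := by
  have h1 : trace (x * y) = ∑ p : m × m, x p.1 p.2 * y p.2 p.1 := by
    rw [Fintype.sum_prod_type]
    simp only [trace, diag, mul_apply]
  have hx : ‖x‖ = Real.sqrt (∑ p : m × m, ‖x p.1 p.2‖ ^ 2) := by
    rw [Matrix.frobenius_norm_def, Fintype.sum_prod_type, Real.sqrt_eq_rpow]
    norm_num
  have hy : ‖y‖ = Real.sqrt (∑ p : m × m, ‖y p.2 p.1‖ ^ 2) := by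
    rw [Matrix.frobenius_norm_def, Fintype.sum_prod_type_right, Real.sqrt_eq_rpow]
    norm_num
  rw [h1, hx, hy]
  calc _ ≤ ∑ p : m × m, ‖x p.1 p.2‖ * ‖y p.2 p.1‖ :=
        (norm_sum_le _ _).trans (Finset.sum_le_sum fun p _ => norm_mul_le _ _)
    _ ≤ _ := Real.sum_mul_le_sqrt_mul_sqrt _ _ _

theorem norm_tr_pow (x : Mt m) {k : ℕ} (hk : 2 ≤ k) : ‖trace (x ^ k)‖ ≤ ‖x‖ ^ k := by
  obtain ⟨j, rfl⟩ := Nat.exists_eq_add_of_le' hk
  rw [show j + 2 = (j + 1) + 1 from rfl, pow_succ' x, pow_succ' ‖x‖]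
  exact (norm_tr_mul _ _).trans (mul_le_mul_of_nonneg_left (norm_pow_le' x (Nat.succ_pos j))
    (norm_nonneg _))

theorem sum_tr (Z : Mt m) :
    HasSum (fun k : ℕ => ((k.factorial : ℂ))⁻¹ * trace (Z ^ k)) (trace (NormedSpace.exp Z)) := by
  have h1 := NormedSpace.exp_series_hasSum_exp' (𝕂 := ℂ) Z
  have h2 := (LinearMap.toContinuousLinearMap (Matrix.traceLinearMap m ℂ ℂ)).hasSum h1
  have e : (fun k : ℕ => (LinearMap.toContinuousLinearMap (Matrix.traceLinearMap m ℂ ℂ))
      (((k.factorial : ℂ))⁻¹ • Z ^ k)) = fun k : ℕ => ((k.factorial : ℂ))⁻¹ * trace (Z ^ k) := by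
    funext k
    simp
  rw [e] at h2
  exact h2

theorem tr_bound {Z : Mt m} (h1 : trace Z = 0) (h3 : trace (Z ^ 3) = 0) (hZ : ‖Z‖ ≤ 1 / 2) :
    ‖trace (NormedSpace.exp Z) - Fintype.card m - trace (Z * Z) / 2‖ ≤ ‖Z‖ ^ 4 / 20 := by
  have hs := (hasSum_nat_add_iff' 4).2 (sum_tr Z)
  have e : trace (NormedSpace.exp Z) - ∑ i ∈ Finset.range 4, ((i.factorial : ℂ))⁻¹ * trace (Z ^ i) =
      trace (NormedSpace.exp Z) - Fintype.card m - trace (Z * Z) / 2 := by
    simp only [Finset.sum_range_succ, Finset.sum_range_zero, pow_zero, pow_one, h1, h3, pow_two,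
      trace_one, Nat.factorial]
    push_cast
    ring
  rw [e] at hs
  have hg : HasSum (fun k : ℕ => ‖Z‖ ^ 4 / 24 * ((1 / 5) * ‖Z‖) ^ k)
      (‖Z‖ ^ 4 / 24 * (1 - (1 / 5) * ‖Z‖)⁻¹) := by
    refine (hasSum_geometric_of_lt_one (by positivity) ?_).mul_left _
    linarith
  have hle : ∀ k : ℕ, ‖((((k + 4).factorial : ℕ) : ℂ))⁻¹ * trace (Z ^ (k + 4))‖ ≤
      ‖Z‖ ^ 4 / 24 * ((1 / 5) * ‖Z‖) ^ k := by
    intro k
    rw [norm_mul, norm_inv, Complex.norm_natCast]
    have hf : (24 : ℝ) * 5 ^ k ≤ ((k + 4).factorial : ℕ) := by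
      have := Nat.factorial_mul_pow_le_factorial (m := 4) (n := k)
      have h2 : (24 : ℕ) * 5 ^ k ≤ (k + 4).factorial := by
        rw [add_comm k 4]
        simpa [Nat.factorial] using this
      exact_mod_cast h2
    calc _ ≤ ((24 : ℝ) * 5 ^ k)⁻¹ * ‖Z‖ ^ (k + 4) := by
          refine mul_le_mul (inv_anti₀ (by positivity) hf) (norm_tr_pow _ (by omega))
            (norm_nonneg _) (by positivity)
      _ = _ := by
          rw [pow_add, mul_pow, mul_inv, one_div, inv_pow]
          ring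
  have h5 := tsum_of_norm_bounded hg hle
  rw [hs.tsum_eq] at h5
  refine h5.trans ?_
  have h6 : (1 - (1 / 5) * ‖Z‖)⁻¹ ≤ (9 / 10 : ℝ)⁻¹ := inv_anti₀ (by norm_num) (by linarith)
  have h7 : 0 ≤ ‖Z‖ ^ 4 / 24 := by positivity
  calc _ ≤ ‖Z‖ ^ 4 / 24 * (9 / 10 : ℝ)⁻¹ := by gcongr
    _ ≤ _ := by
      have : 0 ≤ ‖Z‖ ^ 4 := by positivity
      linarith

theorem tr_gC {Z : Mt m} (hZ : Z ∈ gC L) : trace Z = 0 := by
  have h1 := L.sig_tr Z
  rw [gC_sig L hZ, trace_neg] at h1
  have h2 : (2 : ℂ) * trace Z = 0 := by linear_combination -h1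
  simpa using h2

theorem tr_gC3 {Z : Mt m} (hZ : Z ∈ gC L) : trace (Z ^ 3) = 0 := by
  have h1 := L.sig_tr (Z ^ 3)
  rw [sig_pow, gC_sig L hZ, neg_pow, trace_mul_comm] at h1
  have h3 : trace (Z ^ 3 * (-1) ^ 3) = - trace (Z ^ 3) := by
    have : Z ^ 3 * (-1) ^ 3 = -(Z ^ 3) := by noncomm_ring
    rw [this, trace_neg]
  rw [h3] at h1
  have h2 : (2 : ℂ) * trace (Z ^ 3) = 0 := by linear_combination -h1
  simpa using h2

/-- the trace as a real linear map -/
def trR : Mt m →L[ℝ] ℂ :=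
  (LinearMap.toContinuousLinearMap (Matrix.traceLinearMap m ℂ ℂ)).restrictScalars ℝ

/-- the trace of a group element is real -/
theorem tr_rho_real (g : G) : (trace (L.rho g)).im = 0 := by
  have h1 := L.sig_tr (L.rho g)
  rw [L.sig_rho, rho_inv, trace_conjTranspose] at h1
  have := congrArg Complex.im h1
  rw [Complex.star_def, Complex.conj_im] at this
  linarith

/-- trace of a product near `1` -/
theorem tr_prod {X H : Mt m} (hX : Xᴴ = -X) (hHt : trace H = 0) {ε' : ℝ}
    (hsm : ∀ s : ℝ, 0 ≤ s → s ≤ 1 →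
      ‖NormedSpace.exp (s • (X + Complex.I • H)) - 1‖ ≤ ε') :
    ‖trace (NormedSpace.exp (X + Complex.I • H) * NormedSpace.exp (-X)) - Fintype.card m‖ ≤
      (1 + ε') / 2 * ‖H‖ ^ 2 := by
  set Z := X + Complex.I • H with hZ
  have hcomp : CompleteSpace (Mt m) := FiniteDimensional.complete ℝ (Mt m)
  have hI : ∀ x : Mt m, ‖Complex.I • x‖ = ‖x‖ := fun x => by
    rw [norm_smul, Complex.norm_I, one_mul]
  -- `q(s) = exp(-sX) exp(sZ)`
  have hd : ∀ s : ℝ, HasDerivAt (fun s : ℝ => NormedSpace.exp (s • -X) * NormedSpace.exp (s • Z))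
      (NormedSpace.exp (s • -X) * (Complex.I • H) * NormedSpace.exp (s • Z)) s := by
    intro s
    have h1 : HasDerivAt (fun u : ℝ => NormedSpace.exp (u • -X))
        (NormedSpace.exp (s • -X) * -X) s := hasDerivAt_exp_smul_const (-X) s
    have h2 : HasDerivAt (fun u : ℝ => NormedSpace.exp (u • Z))
        (Z * NormedSpace.exp (s • Z)) s := hasDerivAt_exp_smul_const' Z s
    have h3 := h1.mul h2
    have e : NormedSpace.exp (s • -X) * -X * NormedSpace.exp (s • Z) +
        NormedSpace.exp (s • -X) * (Z * NormedSpace.exp (s • Z)) =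
        NormedSpace.exp (s • -X) * (Complex.I • H) * NormedSpace.exp (s • Z) := by
      have : Complex.I • H = Z - X := by rw [hZ]; abel
      rw [this]
      noncomm_ring
    rw [e] at h3
    exact h3
  have hun : ∀ s : ℝ, NormedSpace.exp (s • -X) * (NormedSpace.exp (s • -X))ᴴ = 1 := by
    intro s
    refine exp_unitary ?_
    rw [conjTranspose_smul, conjTranspose_neg, hX, star_trivial, smul_neg]
  have hb : ∀ s : ℝ, 0 ≤ s → s ≤ 1 →
      ‖NormedSpace.exp (s • -X) * (Complex.I • H) * NormedSpace.exp (s • Z)‖ ≤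
      (1 + ε') * ‖H‖ := by
    intro s h0 h1
    rw [mul_assoc, norm_unit_mul (hun s)]
    have e : (Complex.I • H) * NormedSpace.exp (s • Z) =
        Complex.I • H + (Complex.I • H) * (NormedSpace.exp (s • Z) - 1) := by noncomm_ring
    rw [e]
    refine (norm_add_le _ _).trans ?_
    have h2 := norm_mul_le (Complex.I • H) (NormedSpace.exp (s • Z) - 1)
    rw [hI] at h2 ⊢
    have h3 := mul_le_mul_of_nonneg_left (hsm s h0 h1) (norm_nonneg H)
    linarith
  have hq : ∀ s : ℝ, 0 ≤ s → s ≤ 1 →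
      ‖NormedSpace.exp (s • -X) * NormedSpace.exp (s • Z) - 1‖ ≤ (1 + ε') * ‖H‖ * s := by
    intro s h0 h1
    have := norm_image_sub_le_of_norm_deriv_le_segment' (a := (0 : ℝ)) (b := 1)
      (f := fun s : ℝ => NormedSpace.exp (s • -X) * NormedSpace.exp (s • Z))
      (f' := fun s : ℝ => NormedSpace.exp (s • -X) * (Complex.I • H) * NormedSpace.exp (s • Z))
      (C := (1 + ε') * ‖H‖) (fun x _ => (hd x).hasDerivWithinAt)
      (fun x hx => hb x hx.1 hx.2.le) s ⟨h0, h1⟩
    simpa using this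
  -- the trace of the product in the other order
  have hd2 : ∀ s : ℝ, HasDerivAt (fun s : ℝ => trace (NormedSpace.exp (s • Z) *
      NormedSpace.exp (s • -X)) - Fintype.card m)
      (trace ((Complex.I • H) * (NormedSpace.exp (s • -X) * NormedSpace.exp (s • Z) - 1))) s := by
    intro s
    have h1 : HasDerivAt (fun u : ℝ => NormedSpace.exp (u • -X))
        (-X * NormedSpace.exp (s • -X)) s := hasDerivAt_exp_smul_const' (-X) s
    have h2 : HasDerivAt (fun u : ℝ => NormedSpace.exp (u • Z))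
        (NormedSpace.exp (s • Z) * Z) s := hasDerivAt_exp_smul_const Z s
    have h3 := h2.mul h1
    have e : NormedSpace.exp (s • Z) * Z * NormedSpace.exp (s • -X) +
        NormedSpace.exp (s • Z) * (-X * NormedSpace.exp (s • -X)) =
        NormedSpace.exp (s • Z) * (Complex.I • H) * NormedSpace.exp (s • -X) := by
      have : Complex.I • H = Z - X := by rw [hZ]; abel
      rw [this]
      noncomm_ring
    rw [e] at h3
    have h4 : HasDerivAt (fun s : ℝ => trace (NormedSpace.exp (s • Z) *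
        NormedSpace.exp (s • -X))) (trace (NormedSpace.exp (s • Z) * (Complex.I • H) *
        NormedSpace.exp (s • -X))) s := (trR (m := m)).hasFDerivAt.comp_hasDerivAt s h3
    have e2 : trace (NormedSpace.exp (s • Z) * (Complex.I • H) * NormedSpace.exp (s • -X)) =
        trace ((Complex.I • H) * (NormedSpace.exp (s • -X) * NormedSpace.exp (s • Z) - 1)) := by
      rw [mul_assoc, trace_mul_comm, mul_sub, trace_sub, mul_one, trace_smul Complex.I H, hHt,
        smul_zero, sub_zero, mul_assoc]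
    rw [e2] at h4
    exact h4.sub_const _
  have key := image_norm_le_of_norm_deriv_right_le_deriv_boundary (a := (0 : ℝ)) (b := 1)
    (f := fun s : ℝ => trace (NormedSpace.exp (s • Z) *
      NormedSpace.exp (s • -X)) - Fintype.card m)
    (f' := fun s : ℝ => trace ((Complex.I • H) * (NormedSpace.exp (s • -X) *
      NormedSpace.exp (s • Z) - 1)))
    (B := fun s : ℝ => (1 + ε') / 2 * ‖H‖ ^ 2 * s ^ 2) (B' := fun s : ℝ => (1 + ε') * ‖H‖ ^ 2 * s)
    (fun x _ => (hd2 x).continuousAt.continuousWithinAt)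
    (fun x _ => (hd2 x).hasDerivWithinAt) (by simp [NormedSpace.exp_zero]) (fun x => by
      have := ((hasDerivAt_id x).pow 2).const_mul ((1 + ε') / 2 * ‖H‖ ^ 2)
      refine this.congr_deriv ?_
      simp
      ring) (fun x hx => by
      refine (norm_tr_mul _ _).trans ?_
      rw [hI]
      have := mul_le_mul_of_nonneg_left (hq x hx.1 hx.2.le) (norm_nonneg H)
      nlinarith) (Set.right_mem_Icc.2 zero_le_one)
  simpa using key

theorem norm_u_sub_one {u : Mt m} (hu : u * uᴴ = 1) :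
    ‖u - 1‖ ^ 2 = 2 * Fintype.card m - 2 * (trace u).re := by
  have hu' : uᴴ * u = 1 := mul_eq_one_comm.1 hu
  rw [norm_sq_eq, conjTranspose_sub, conjTranspose_one]
  have : (uᴴ - 1) * (u - 1) = 1 + 1 - u - uᴴ := by
    have : (uᴴ - 1) * (u - 1) = uᴴ * u - uᴴ - u + 1 := by noncomm_ring
    rw [this, hu']; abel
  rw [this]
  simp only [trace_sub, trace_add, Complex.sub_re, Complex.add_re, re_trace_star, trace_one,
    Complex.natCast_re]
  ring

/-- the cross term -/
theorem cross {u H : Mt m} (hu : u * uᴴ = 1) (hH : Hᴴ = -H) :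
    (trace ((Complex.I • H) * (u - 1))).re ≤ ‖H‖ * (‖u - 1‖ ^ 2 / 2) := by
  have hu' : uᴴ * u = 1 := mul_eq_one_comm.1 hu
  set S := reP (u - 1) with hS
  set T := imP (u - 1) with hT
  have hS1 : Sᴴ = -S := reP_skew _
  have hT1 : Tᴴ = -T := imP_skew _
  have e1 : u - 1 = S + Complex.I • T := (reP_add_imP _).symm
  have e2 : trace ((Complex.I • H) * (u - 1)) = Complex.I * trace (H * S) - trace (H * T) := by
    rw [e1, mul_add, trace_add, smul_mul_assoc, smul_mul_assoc, mul_smul_comm, smul_smul,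
      Complex.I_mul_I, neg_one_smul, trace_neg, trace_smul, smul_eq_mul, sub_eq_add_neg]
  have e3 : (trace ((Complex.I • H) * (u - 1))).re = -(trace (H * T)).re := by
    rw [e2]
    simp [trace_skew_real hH hS1]
  have e4 : Complex.I • T = (-(1 / 2) : ℂ) • ((u - 1)ᴴ * (u - 1)) := by
    have h1 : (u - 1)ᴴ * (u - 1) = -((u - 1) + (u - 1)ᴴ) := by
      rw [conjTranspose_sub, conjTranspose_one]
      have : (uᴴ - 1) * (u - 1) = uᴴ * u - uᴴ - u + 1 := by noncomm_ring
      rw [this, hu']; abel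
    rw [h1, hT]
    unfold imP
    rw [smul_smul, smul_neg, ← neg_smul]
    congr 1
    have := Complex.I_mul_I
    linear_combination (-(1 / 2 : ℂ)) * this
  have e5 : ‖T‖ ≤ ‖u - 1‖ ^ 2 / 2 := by
    have h1 : ‖T‖ = ‖Complex.I • T‖ := by rw [norm_smul, Complex.norm_I, one_mul]
    rw [h1, e4, norm_smul]
    have h2 : ‖(-(1 / 2) : ℂ)‖ = 1 / 2 := by simp
    have h3 : ‖(u - 1)ᴴ‖ = ‖u - 1‖ := by
      have : ‖(u - 1)ᴴ‖ ^ 2 = ‖u - 1‖ ^ 2 := by
        rw [norm_sq_eq, norm_sq_eq, conjTranspose_conjTranspose, trace_mul_comm]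
      exact (sq_eq_sq₀ (norm_nonneg _) (norm_nonneg _)).1 this
    have h4 := norm_mul_le (u - 1)ᴴ (u - 1)
    rw [h3] at h4
    rw [h2]
    nlinarith
  rw [e3]
  calc _ ≤ ‖trace (H * T)‖ := (neg_le_abs _).trans (Complex.abs_re_le_norm _)
    _ ≤ ‖H‖ * ‖T‖ := norm_tr_mul _ _
    _ ≤ _ := mul_le_mul_of_nonneg_left e5 (norm_nonneg _)

/-- the bound for the large field region -/
theorem large_aux {X H u : Mt m} (hX : Xᴴ = -X) (hH : Hᴴ = -H) (hHt : trace H = 0)
    (hu : u * uᴴ = 1) {r0 : ℝ} (h0 : 0 < r0) (h1 : r0 ≤ 1 / 1000)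
    (hsm : ∀ s : ℝ, 0 ≤ s → s ≤ 1 →
      ‖NormedSpace.exp (s • (X + Complex.I • H)) - 1‖ ≤ 2 / 1000)
    (hX1 : ‖NormedSpace.exp (-X) - 1‖ ≤ 2 / 1000)
    (hE : ‖NormedSpace.exp (X + Complex.I • H) - NormedSpace.exp X - Complex.I • H‖ ≤
      1 / 1000 * ‖H‖)
    (hHn : ‖H‖ < r0 / 4) (ha : 95 / 100 * r0 ≤ ‖u - 1‖) :
    (trace (NormedSpace.exp (X + Complex.I • H) * NormedSpace.exp (-X) * u)).re ≤
      Fintype.card m - (84 / 100 * r0 ^ 2 - (1 + 1 / 10000) * ‖H‖ ^ 2) / 2 := by
  set Z := X + Complex.I • H with hZ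
  set p := NormedSpace.exp Z * NormedSpace.exp (-X) with hp
  have t1 := tr_prod hX hHt (ε' := 2 / 1000) hsm
  rw [← hZ, ← hp] at t1
  have t2 := norm_u_sub_one hu
  have t3 := cross hu hH
  set a := ‖u - 1‖ with haa
  set h := ‖H‖ with hh
  have hh0 : 0 ≤ h := norm_nonneg _
  have hE2 : ‖p - 1 - Complex.I • H‖ ≤ 3 / 1000 * h := by
    have e : p - 1 - Complex.I • H = (NormedSpace.exp Z - NormedSpace.exp X - Complex.I • H) *
        NormedSpace.exp (-X) + (Complex.I • H) * (NormedSpace.exp (-X) - 1) := by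
      have : (1 : Mt m) = NormedSpace.exp X * NormedSpace.exp (-X) := (exp_mul_exp_neg X).symm
      rw [hp]
      calc _ = NormedSpace.exp Z * NormedSpace.exp (-X) -
            NormedSpace.exp X * NormedSpace.exp (-X) - Complex.I • H := by rw [exp_mul_exp_neg X]
        _ = _ := by noncomm_ring
    have hun : NormedSpace.exp (-X) * (NormedSpace.exp (-X))ᴴ = 1 :=
      exp_unitary (by rw [conjTranspose_neg, hX])
    rw [e]
    refine (norm_add_le _ _).trans ?_
    rw [norm_mul_unit hun]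
    have h2 := norm_mul_le (Complex.I • H) (NormedSpace.exp (-X) - 1)
    rw [norm_smul, Complex.norm_I, one_mul, ← hh] at h2
    have h3 := mul_le_mul_of_nonneg_left hX1 hh0
    linarith
  have e : p * u = u + (p - 1) + ((Complex.I • H) * (u - 1) + (p - 1 - Complex.I • H) * (u - 1)) := by
    noncomm_ring
  have t4 : (trace ((p - 1 - Complex.I • H) * (u - 1))).re ≤ 3 / 1000 * h * a :=
    (Complex.re_le_norm _).trans ((norm_tr_mul _ _).trans
      (mul_le_mul_of_nonneg_right hE2 (norm_nonneg _)))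
  have t5 : (trace p).re - Fintype.card m ≤ (1 + 2 / 1000) / 2 * h ^ 2 := by
    have := (Complex.re_le_norm _).trans t1
    simpa using this
  rw [e]
  simp only [trace_add, trace_sub, trace_one, Complex.add_re, Complex.sub_re, Complex.natCast_re]
  have ha0 : 0 < a := by nlinarith
  have t6 : h ≤ 1 / 4000 := by linarith
  have t7 : h * a ^ 2 ≤ 1 / 4000 * a ^ 2 := mul_le_mul_of_nonneg_right t6 (by positivity)
  have t8 : h * a ≤ 1 / 3 * a ^ 2 := by nlinarith
  have t9 : (95 / 100 * r0) ^ 2 ≤ a ^ 2 := pow_le_pow_left₀ (by positivity) ha 2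
  have t10 : h ^ 2 ≤ (r0 / 4) ^ 2 := pow_le_pow_left₀ hh0 hHn.le 2
  nlinarith

end Wil

/-- The Wilson plaquette function is in the class, `t = 2 / β`. -/
theorem wilson_cls (D : LogData m) : ∃ r1 : ℝ, 0 < r1 ∧ ∀ r0 : ℝ, 0 < r0 → r0 ≤ r1 →
    ∀ t : ℝ, 0 < t → Cls L (Wt t) t (1 / (20 * t)) r0 (r0 / 4) (95 / 100 * r0)
      (84 / 100 * r0 ^ 2) (1 / 10000) := by
  obtain ⟨δ, hδ, hlip⟩ := exp_lip (m := m) (1 / 1000) (by norm_num)
  refine ⟨min (δ / 2) (1 / 1000), by positivity, ?_⟩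
  intro r0 h0 hr1 t ht
  have hr2 : r0 ≤ δ / 2 := hr1.trans (min_le_left _ _)
  have hr3 : r0 ≤ 1 / 1000 := hr1.trans (min_le_right _ _)
  have htc : (t : ℂ) ≠ 0 := by exact_mod_cast ht.ne'
  have hnear : ∀ Z : Mt m, ‖Z‖ ≤ 5 / 4 * r0 → ‖NormedSpace.exp Z - 1‖ ≤ 2 / 1000 := by
    intro Z hZ
    have h := hlip Z 0 (by linarith) (by rw [norm_zero]; exact hδ)
    rw [NormedSpace.exp_zero, sub_zero] at h
    have h2 := norm_add_le (NormedSpace.exp Z - 1 - Z) Z
    rw [sub_add_cancel] at h2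
    linarith
  have hnorm : ∀ Z ∈ dom L r0 (r0 / 4), ‖Z‖ < 5 / 4 * r0 := by
    intro Z hZ
    have := norm_le_reP_imP (Z : Mt m)
    have h1 := hZ.1
    have h2 := hZ.2
    have h3 : ‖Z‖ = ‖(Z : Mt m)‖ := rfl
    linarith
  refine ⟨?_, ?_, ?_, ?_, ?_, ?_, ?_, ?_⟩
  · -- smoothness
    have h1 : ContDiff ℂ 1 (fun x : Mt m => trace x) :=
      (LinearMap.toContinuousLinearMap (Matrix.traceLinearMap m ℂ ℂ)).contDiff
    exact Complex.contDiff_exp.comp (h1.div_const _)
  · intro g x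
    unfold Wt
    rw [trace_mul_comm, ← mul_assoc, rho_inv_mul, one_mul]
  · intro x
    unfold Wt
    rw [L.sig_tr]
  · intro g
    unfold Wt
    have h1 := Wil.tr_rho_real L g
    have h2 : trace (L.rho g) / t = (((trace (L.rho g)).re / t : ℝ) : ℂ) := by
      apply Complex.ext
      · simp
      · simp [h1]
    rw [h2, ← Complex.ofReal_exp, Complex.ofReal_im]
  · intro g
    unfold Wt
    have h1 := Wil.tr_rho_real L g
    have h2 : trace (L.rho g) / t = (((trace (L.rho g)).re / t : ℝ) : ℂ) := by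
      apply Complex.ext
      · simp
      · simp [h1]
    rw [h2, ← Complex.ofReal_exp, Complex.ofReal_re]
    exact (Real.exp_pos _).le
  · unfold Wt
    have h2 : trace (1 : Mt m) / t = (((Fintype.card m : ℝ) / t : ℝ) : ℂ) := by
      rw [trace_one]; push_cast; rfl
    rw [h2, ← Complex.ofReal_exp, Complex.ofReal_re]
    exact Real.exp_pos _
  · -- small fields
    refine ⟨fun Z => (Fintype.card m - trace (NormedSpace.exp (Z : Mt m))) / t -
      Qf (Z : Mt m) / (2 * t), ?_, ?_, ?_, ?_, ?_, ?_⟩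
    · refine Differentiable.differentiableOn ?_
      have h1 : Differentiable ℂ (fun x : Mt m => trace x) :=
        (LinearMap.toContinuousLinearMap (Matrix.traceLinearMap m ℂ ℂ)).differentiable
      have h2 : Differentiable ℂ (fun Z : gC L => (Z : Mt m)) := (gC L).subtypeL.differentiable
      have h3 : Differentiable ℂ (fun Z : gC L => trace (NormedSpace.exp (Z : Mt m))) :=
        h1.comp (exp_diff.comp h2)
      have h4 : Differentiable ℂ (fun Z : gC L => Qf (Z : Mt m)) :=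
        (h1.comp (h2.mul h2)).neg
      have h5 : Differentiable ℂ (fun Z : gC L => Qf (Z : Mt m) / (2 * (t : ℂ))) :=
        fun Z => by
          have h7 := (h4 Z).mul_const ((2 * (t : ℂ))⁻¹)
          simp only [← div_eq_mul_inv] at h7
          exact h7
      have h6 : Differentiable ℂ (fun Z : gC L =>
          ((Fintype.card m : ℂ) - trace (NormedSpace.exp (Z : Mt m))) / (t : ℂ)) :=
        fun Z => by
          have h7 := ((h3 Z).const_sub (Fintype.card m : ℂ)).mul_const ((t : ℂ)⁻¹)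
          simp only [← div_eq_mul_inv] at h7
          exact h7
      exact h6.sub h5
    · intro Z _
      have h1 : trace (NormedSpace.exp (-(Z : Mt m))) = trace (NormedSpace.exp (Z : Mt m)) := by
        rw [← sig_exp L Z.2, L.sig_tr]
      show (Fintype.card m - trace (NormedSpace.exp ((-Z : gC L) : Mt m))) / t -
        Qf ((-Z : gC L) : Mt m) / (2 * t) = _
      rw [NegMemClass.coe_neg, h1]
      unfold Qf
      rw [neg_mul_neg]
    · intro g Z _ Z' hZ'
      have hu : IsUnit (L.rho g) := ⟨⟨L.rho g, L.rho g⁻¹, rho_mul_inv L g, rho_inv_mul L g⟩, rfl⟩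
      have hinv : (L.rho g)⁻¹ = L.rho g⁻¹ := Matrix.inv_eq_right_inv (rho_mul_inv L g)
      have e1 := Matrix.exp_conj (L.rho g) (Z : Mt m) hu
      rw [hinv, ← hZ'] at e1
      have e2 : trace (NormedSpace.exp (Z' : Mt m)) = trace (NormedSpace.exp (Z : Mt m)) := by
        rw [e1, trace_mul_comm, ← mul_assoc, rho_inv_mul, one_mul]
      have e3 : Qf (Z' : Mt m) = Qf (Z : Mt m) := by
        unfold Qf
        rw [hZ']
        have : L.rho g * (Z : Mt m) * L.rho g⁻¹ * (L.rho g * (Z : Mt m) * L.rho g⁻¹) =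
            L.rho g * ((Z : Mt m) * (L.rho g⁻¹ * L.rho g) * (Z : Mt m)) * L.rho g⁻¹ := by
          noncomm_ring
        rw [this, rho_inv_mul, mul_one, trace_mul_comm, ← mul_assoc, rho_inv_mul, one_mul]
      show (Fintype.card m - trace (NormedSpace.exp (Z' : Mt m))) / t -
        Qf (Z' : Mt m) / (2 * t) = _
      rw [e2, e3]
    · intro Z _ hZi
      have hl := mem_lieSet_of_gC L Z.2 hZi
      obtain ⟨g, hg⟩ := lie_exp L hl
      have h1 := Wil.tr_rho_real L g
      rw [hg] at h1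
      have hs := lie_skew L hl
      have h2 := trace_skew_real hs hs
      have h3 : (Qf (Z : Mt m)).im = 0 := by
        unfold Qf
        rw [Complex.neg_im, h2, neg_zero]
      have e1 : trace (NormedSpace.exp (Z : Mt m)) =
          (((trace (NormedSpace.exp (Z : Mt m))).re : ℝ) : ℂ) := Complex.ext rfl (by simp [h1])
      have e2 : Qf (Z : Mt m) = (((Qf (Z : Mt m)).re : ℝ) : ℂ) := Complex.ext rfl (by simp [h3])
      show ((Fintype.card m - trace (NormedSpace.exp (Z : Mt m))) / t -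
        Qf (Z : Mt m) / (2 * t)).im = 0
      rw [e1, e2]
      norm_cast
    · intro Z hZ
      have h1 := hnorm Z hZ
      have h3 : ‖Z‖ = ‖(Z : Mt m)‖ := rfl
      have hb := Wil.tr_bound (Wil.tr_gC L Z.2) (Wil.tr_gC3 L Z.2) (by rw [← h3]; linarith)
      have e : ((Fintype.card m : ℂ) - trace (NormedSpace.exp (Z : Mt m))) / t -
          Qf (Z : Mt m) / (2 * t) = -(trace (NormedSpace.exp (Z : Mt m)) - Fintype.card m -
          trace ((Z : Mt m) * (Z : Mt m)) / 2) / t := by
        unfold Qf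
        field_simp
        ring
      show ‖((Fintype.card m : ℂ) - trace (NormedSpace.exp (Z : Mt m))) / t -
          Qf (Z : Mt m) / (2 * t)‖ ≤ _
      rw [e, norm_div, norm_neg, Complex.norm_real, Real.norm_eq_abs, abs_of_pos ht, h3]
      rw [div_le_iff₀ ht]
      refine hb.trans (le_of_eq ?_)
      field_simp
    · intro Z _
      unfold Wt
      rw [← Complex.exp_add, trace_one]
      congr 1
      field_simp
      ring
  · -- large fields
    intro Z hZ y hs
    have hZn := hnorm Z hZ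
    have h3 : ‖Z‖ = ‖(Z : Mt m)‖ := rfl
    set X := reP (Z : Mt m) with hX
    set H := imP (Z : Mt m) with hH
    have eZ : (Z : Mt m) = X + Complex.I • H := (reP_add_imP _).symm
    have hXs : Xᴴ = -X := reP_skew _
    have hHs : Hᴴ = -H := imP_skew _
    have hHt : trace H = 0 := Wil.tr_gC L (gC_of_lie L (imP_mem L Z.2))
    have hXn : ‖X‖ ≤ ‖(Z : Mt m)‖ := norm_reP_le _
    have hu : (NormedSpace.exp X * L.rho y) * (NormedSpace.exp X * L.rho y)ᴴ = 1 := by
      rw [conjTranspose_mul]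
      have : NormedSpace.exp X * L.rho y * ((L.rho y)ᴴ * (NormedSpace.exp X)ᴴ) =
          NormedSpace.exp X * (L.rho y * (L.rho y)ᴴ) * (NormedSpace.exp X)ᴴ := by noncomm_ring
      rw [this, L.unit, mul_one, exp_unitary hXs]
    have key := Wil.large_aux hXs hHs hHt hu h0 hr3 (fun s hs0 hs1 => by
        refine hnear _ ?_
        rw [← eZ, norm_smul, Real.norm_eq_abs, abs_of_nonneg hs0, ← h3]
        nlinarith [norm_nonneg Z])
      (hnear _ (by rw [norm_neg]; linarith)) (by
        have := hlip (X + Complex.I • H) X (by rw [← eZ]; linarith) (by linarith)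
        rw [add_sub_cancel_left] at this
        rw [norm_smul Complex.I H, Complex.norm_I, one_mul] at this
        exact this) hZ.2 hs
    have e1 : NormedSpace.exp (X + Complex.I • H) * NormedSpace.exp (-X) *
        (NormedSpace.exp X * L.rho y) = NormedSpace.exp (Z : Mt m) * L.rho y := by
      rw [← eZ]
      have : NormedSpace.exp (Z : Mt m) * NormedSpace.exp (-X) * (NormedSpace.exp X * L.rho y) =
          NormedSpace.exp (Z : Mt m) * (NormedSpace.exp (-X) * NormedSpace.exp X) * L.rho y := by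
        noncomm_ring
      rw [this, exp_neg_mul_exp, mul_one]
    rw [e1] at key
    unfold Wt
    have h2 : trace (1 : Mt m) / t = (((Fintype.card m : ℝ) / t : ℝ) : ℂ) := by
      rw [trace_one]; push_cast; rfl
    rw [h2, ← Complex.ofReal_exp, Complex.ofReal_re, Complex.norm_exp, ← Real.exp_add]
    apply Real.exp_le_exp.2
    rw [Complex.div_ofReal_re]
    have e2 : (Fintype.card m : ℝ) / t + -((84 / 100 * r0 ^ 2 - (1 + 1 / 10000) * ‖H‖ ^ 2) / (2 * t)) =
        (Fintype.card m - (84 / 100 * r0 ^ 2 - (1 + 1 / 10000) * ‖H‖ ^ 2) / 2) / t := by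
      field_simp
      ring
    rw [e2]
    exact div_le_div_of_nonneg_right key ht.le

end

end Pool.Agent.T2H04.HY
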