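import Mathlib
import Pool.Agent.T2H04.HY.AsmDefs
import Pool.Agent.T2H04.HY.Obs
import Pool.Agent.T2H04.HY.Step
import Pool.Agent.T2H04.HY.Wil

/-!
# The ultraviolet analysis of the renormalisation group flow
-/

open MeasureTheory Matrix Filter
open scoped Matrix.Norms.Frobenius Topology

namespace Pool.Agent.T2H04.HY

set_option linter.unusedSectionVars false

noncomputable section

variable {G : Type} [Group G] [TopologicalSpace G] [IsTopologicalGroup G] [CompactSpace G]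
  [MeasurableSpace G] [BorelSpace G] (μ : Measure G) [μ.IsHaarMeasure] [IsProbabilityMeasure μ]
  {m : Type} [Fintype m] [DecidableEq m] (L : RD G m)

theorem res_ccv {F : Mt m → ℂ} (hr : ∀ g, (F (L.rho g)).im = 0) :
    res L (ccv L μ F) = cnv μ (res L F) (res L F) := by
  funext g
  unfold res
  rw [ccv_rho μ L hr, Complex.ofReal_re]
  rfl

theorem real_ccv {F : Mt m → ℂ} (hr : ∀ g, (F (L.rho g)).im = 0) (g : G) :
    (ccv L μ F (L.rho g)).im = 0 := by
  rw [ccv_rho μ L hr, Complex.ofReal_im]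

theorem res_cmk {F : Mt m → ℂ} (hr : ∀ g, (F (L.rho g)).im = 0) (g : G) :
    res L (cmk μ L F) g = cnv4 μ (res L F) g ^ 4 := by
  have h1 := real_ccv μ L hr
  have h2 : ccv L μ (ccv L μ F) (L.rho g) = ((cnv4 μ (res L F) g : ℝ) : ℂ) := by
    rw [ccv_rho μ L h1, res_ccv μ L hr]
    rfl
  unfold res cmk
  rw [h2]
  norm_cast

theorem cnv_div (f : G → ℝ) (Z : ℝ) (x : G) :
    cnv μ (fun y => f y / Z) (fun y => f y / Z) x = cnv μ f f x / Z ^ 2 := by
  unfold cnv
  rw [← integral_div]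
  refine integral_congr_ae (Filter.Eventually.of_forall fun y => ?_)
  simp only
  rw [div_mul_div_comm, ← pow_two]

theorem cnv4_div (f : G → ℝ) (Z : ℝ) (x : G) :
    cnv4 μ (fun y => f y / Z) x = cnv4 μ f x / Z ^ 4 := by
  unfold cnv4
  have h1 : cnv μ (fun y => f y / Z) (fun y => f y / Z) = fun y => cnv μ f f y / Z ^ 2 :=
    funext fun y => cnv_div μ f Z y
  rw [h1, cnv_div, ← pow_mul]

theorem mk_div (f : G → ℝ) (Z : ℝ) (hZ : Z ≠ 0) : mk μ (fun y => f y / Z) = mk μ f := by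
  funext x
  unfold mk
  simp only [cnv4_div, div_pow]
  rw [integral_div, div_div_div_cancel_right₀ (by positivity)]

/-- the normalised renormalisation group map -/
theorem mk_nres {F : Mt m → ℂ} (hr : ∀ g, (F (L.rho g)).im = 0) (hZ : ∫ y, res L F y ∂μ ≠ 0) :
    mk μ (nres μ L F) = nres μ L (cmk μ L F) := by
  have h1 : mk μ (nres μ L F) = mk μ (res L F) := mk_div μ (res L F) _ hZ
  rw [h1]
  funext x
  unfold mk nres
  simp only [res_cmk μ L hr]

theorem int_res_pos {F : Mt m → ℂ} {t A r τ s b ε : ℝ} (cl : Cls L F t A r τ s b ε) :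
    0 < ∫ y, res L F y ∂μ := by
  refine (res_cont L cl.diff).integral_pos_of_hasCompactSupport_nonneg_nonzero
    (HasCompactSupport.of_compactSpace _) (fun y => cl.nonneg y) (x := 1) ?_
  have : res L F 1 = (F 1).re := by unfold res; rw [map_one]
  rw [this]
  exact cl.pos.ne'

theorem trace_rho_real (g : G) : (trace (L.rho g)).im = 0 := by
  have h1 : trace (L.rho g⁻¹) = trace (L.rho g) := by rw [← L.sig_rho, L.sig_tr]
  rw [rho_inv, trace_conjTranspose] at h1
  have h2 := congrArg Complex.im h1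
  have h3 : (star (trace (L.rho g))).im = -(trace (L.rho g)).im := Complex.conj_im _
  rw [h3] at h2
  linarith

theorem nres_Wt (t : ℝ) : nres μ L (Wt t) = wil μ L t := by
  have h1 : ∀ g : G, res L (Wt t) g = Real.exp ((trace (L.rho g)).re / t) := by
    intro g
    unfold res Wt
    have h2 : trace (L.rho g) = (((trace (L.rho g)).re : ℝ) : ℂ) :=
      Complex.ext (by simp) (by simp [trace_rho_real L g])
    conv_lhs => rw [h2]
    rw [← Complex.ofReal_div, ← Complex.ofReal_exp, Complex.ofReal_re]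
  funext g
  unfold nres wil
  simp only [h1]

/-- **The ultraviolet analysis** of the flow of Wilson's action. -/
theorem uv_exists (hs : Simple L) {n : ℕ} (hn : 0 < n) (E : Fin n → Mt m)
    (hE : ∀ a, E a ∈ lieSet L)
    (orth : ∀ a b, (trace ((E a)ᴴ * E b)).re = if a = b then 1 else 0)
    (full : ∀ Y ∈ lieSet L, Y ∈ Submodule.span ℝ (Set.range E))
    (hfin : Module.finrank ℝ (lieAlg L) = n)
    (cas : ℝ) (hcas0 : 0 < cas)
    (hcas : ∀ X ∈ lieSet L, ∑ a, ‖E a * X - X * E a‖ ^ 2 = cas * ‖X‖ ^ 2) :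
    ∃ (Good : (G → ℝ) → ℝ → ℝ → Prop) (ts C ρs c : ℝ) (p : ℕ),
      UV μ L Good ts C ρs c (cas / 8) n p := by
  have hne : ∃ X ∈ lieSet L, X ≠ 0 := by
    obtain ⟨X, hX, Y, _, h⟩ := hs.nonab
    exact ⟨X, hX, fun h0 => h (by rw [h0, zero_mul, mul_zero])⟩
  obtain ⟨D⟩ := exists_log (m := m)
  obtain ⟨r1, hr1, hW⟩ := wilson_cls L D
  obtain ⟨δ, r0, Cm, hr01, R⟩ := exists_RGp μ L D r1 hr1
  have hr0 := R.p1.r0_pos
  obtain ⟨C1, c, ts1, p, hC1, hc, hts1, ho⟩ := obs (μ := μ) (L := L) R.p1 hne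
  obtain ⟨C2, ts2, hC2, hts2, ho2⟩ := obs_as (μ := μ) (L := L) R.p1
  obtain ⟨C3, ts3, hC3, hts3, hst⟩ := rg_step (μ := μ) hs R E hE orth full hne cas hcas
  set ts : ℝ := min ts1 (min ts2 ts3) / 2 with hts
  have hts0 : 0 < ts := by positivity
  have b1 : 2 * ts ≤ ts1 := by
    have := min_le_left ts1 (min ts2 ts3)
    linarith
  have b2 : 2 * ts ≤ ts2 := by
    have := (min_le_right ts1 (min ts2 ts3)).trans (min_le_left _ _)
    linarith
  have b3 : 2 * ts ≤ ts3 := by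
    have := (min_le_right ts1 (min ts2 ts3)).trans (min_le_right _ _)
    linarith
  refine ⟨fun f t A => 0 < t ∧ t ≤ 2 * ts ∧ 0 ≤ A ∧ A * t ≤ 1 / 10 ∧ ∃ F : Mt m → ℂ,
    Cl0 L r0 F t A ∧ f = nres μ L F, ts, C1 + C2 + C3, r0 / 20, c, p, ?_⟩
  have hCC : C1 ≤ C1 + C2 + C3 := by linarith
  refine ⟨hts0, by positivity, by positivity, hc, by positivity, by exact_mod_cast hn, ?_, ?_, ?_,
    ?_, ?_, ?_, ?_, ?_, ?_, ?_, ?_⟩
  · intro t ht htl
    refine ⟨ht, by linarith, by positivity, ?_, Wt t, hW r0 hr0 hr01 t ht, (nres_Wt μ L t).symm⟩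
    have : 1 / (20 * t) * t = 1 / 20 := by field_simp
    rw [this]
    norm_num
  · rintro f t A ⟨h1, -, h2, h3, -⟩
    exact ⟨h1, h2, h3⟩
  · rintro f t A ⟨h1, h2, h3, h4, F, cl, rfl⟩
    exact (ho F t A h1 (by linarith) h3 h4 cl).1
  · rintro f t A ⟨h1, h2, h3, h4, F, cl, rfl⟩
    exact (ho F t A h1 (by linarith) h3 h4 cl).2.1
  · rintro f t A ⟨h1, h2, h3, h4, F, cl, rfl⟩
    exact (ho F t A h1 (by linarith) h3 h4 cl).2.2.1
  · rintro f t A ⟨h1, h2, h3, h4, F, cl, rfl⟩ htl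
    obtain ⟨t', A', k1, k2, k3, k4, k5, k6, k7⟩ := hst F t A h1 (by linarith) h3 h4 cl
    refine ⟨t', A', ⟨k1, by linarith, k3, k4, cmk μ L F, k5,
      mk_nres μ L cl.real (int_res_pos μ L cl).ne'⟩, k6.trans ?_, by linarith⟩
    refine mul_le_mul_of_nonneg_right (by linarith) (by positivity)
  · rintro f t A ⟨h1, h2, h3, h4, F, cl, rfl⟩ htl
    obtain ⟨-, -, -, k1, k2, -⟩ := ho F t A h1 (by linarith) h3 h4 cl
    have h5 : C1 / t ^ p ≤ (C1 + C2 + C3) / t ^ p :=
      div_le_div_of_nonneg_right hCC (by positivity)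
    exact ⟨fun x => (k1 x).trans h5, fun x y => (k2 x y).trans
      (mul_le_mul_of_nonneg_right h5 (norm_nonneg _))⟩
  · rintro f t A ⟨h1, h2, h3, h4, F, cl, rfl⟩ htl y hy
    exact (ho F t A h1 (by linarith) h3 h4 cl).2.2.2.2.2.1 y hy
  · rintro f t A ⟨h1, h2, h3, h4, F, cl, rfl⟩ htl
    exact (ho F t A h1 (by linarith) h3 h4 cl).2.2.2.2.2.2.1
  · rintro f t A ⟨h1, h2, h3, h4, F, cl, rfl⟩ htl
    exact (ho F t A h1 (by linarith) h3 h4 cl).2.2.2.2.2.2.2.trans
      (mul_le_mul_of_nonneg_right hCC h1.le)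
  · rintro f t A ⟨h1, h2, h3, h4, F, cl, rfl⟩ htl
    have h5 := ho2 F t A h1 (by linarith) h3 h4 cl
    rw [hfin] at h5
    refine h5.trans ?_
    refine mul_le_mul_of_nonneg_right ?_ (by positivity)
    exact mul_le_mul_of_nonneg_right (by linarith) h1.le

end

end Pool.Agent.T2H04.HY
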