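import Mathlib
import Pool.Agent.T2H04.HY.AsmDefs
import Pool.Agent.T2H04.HY.Conv6
import Pool.Agent.T2H04.HY.Obs

/-!
# Auxiliary facts for the Lipschitz bounds of observables
-/

open MeasureTheory Matrix Filter
open scoped Matrix.Norms.Frobenius Topology

namespace Pool.Agent.T2H04.HY

set_option linter.unusedSectionVars false
set_option linter.unusedVariables false

noncomputable section

variable {G : Type} [Group G] [TopologicalSpace G] [IsTopologicalGroup G] [CompactSpace G]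
  [MeasurableSpace G] [BorelSpace G] (μ : Measure G) [μ.IsHaarMeasure] [IsProbabilityMeasure μ]
  {m : Type} [Fintype m] [DecidableEq m] (L : RD G m)

namespace ObsL

open HaarAux

/-- the function with value one at the unit -/
def nn (F : Mt m → ℂ) (y : G) : ℝ := res L F y / (F 1).re

theorem pow_exp_le {u : ℝ} (hu : 0 ≤ u) {j : ℕ} (hj : j ≤ 3) :
    u ^ j * Real.exp (-((1 - 1 / 10000) / 2 * u)) ≤
      5 * ((1 + u + u ^ 2) * Real.exp (-(1 / 4 * u))) := by
  have h1 : Real.exp (-((1 - 1 / 10000) / 2 * u)) ≤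
      Real.exp (-(1 / 5 * u)) * Real.exp (-(1 / 4 * u)) := by
    rw [← Real.exp_add]
    apply Real.exp_le_exp.2
    linarith
  have h2 : u * Real.exp (-(1 / 5 * u)) ≤ 5 := by
    rw [Real.exp_neg, ← div_eq_mul_inv, div_le_iff₀ (Real.exp_pos _)]
    have := Real.add_one_le_exp (1 / 5 * u)
    linarith
  have h3 : Real.exp (-(1 / 5 * u)) ≤ 1 := by
    rw [Real.exp_le_one_iff]
    linarith
  have h4 : u ^ j * Real.exp (-(1 / 5 * u)) ≤ 5 * (1 + u + u ^ 2) := by
    have h5 := Real.exp_pos (-(1 / 5 * u))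
    interval_cases j
    · nlinarith [sq_nonneg u]
    · nlinarith [sq_nonneg u, mul_le_mul_of_nonneg_left h3 hu]
    · nlinarith [sq_nonneg u, mul_le_mul_of_nonneg_left h3 (sq_nonneg u)]
    · have e : u ^ 3 * Real.exp (-(1 / 5 * u)) = u ^ 2 * (u * Real.exp (-(1 / 5 * u))) := by ring
      rw [e]
      nlinarith [sq_nonneg u, mul_le_mul_of_nonneg_left h2 (sq_nonneg u)]
  calc u ^ j * Real.exp (-((1 - 1 / 10000) / 2 * u)) ≤
        u ^ j * (Real.exp (-(1 / 5 * u)) * Real.exp (-(1 / 4 * u))) :=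
        mul_le_mul_of_nonneg_left h1 (by positivity)
    _ = (u ^ j * Real.exp (-(1 / 5 * u))) * Real.exp (-(1 / 4 * u)) := by ring
    _ ≤ (5 * (1 + u + u ^ 2)) * Real.exp (-(1 / 4 * u)) :=
        mul_le_mul_of_nonneg_right h4 (Real.exp_pos _).le
    _ = _ := by ring

/-- moments of the bound -/
theorem moments3 (b : ℝ) (hb : 0 < b) : ∃ C : ℝ, 0 < C ∧ ∀ t : ℝ, 0 < t → t ≤ 1 → ∀ j : ℕ, j ≤ 3 →
    ∫ y, dis L y ^ (2 * j) * Real.exp (-(min b ((1 - 1 / 10000) * dis L y ^ 2) / (2 * t))) ∂μ ≤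
      C * t ^ j * μ.real (bal L (Real.sqrt t)) := by
  obtain ⟨C1, hC1, h1⟩ := gauss_moment μ L (1 / 4) (by norm_num)
  obtain ⟨c, hc, p, hp⟩ := bal_lower μ L
  obtain ⟨C2, hC2, h2⟩ := Obs.exp_small b hb (p + 3)
  obtain ⟨K, hK1, hK⟩ : ∃ K : ℝ, 1 ≤ K ∧ ∀ y : G, dis L y ≤ K :=
    ⟨max 1 (uB m + ‖(1 : Mt m)‖), le_max_left _ _, fun y => (dis_le L y).trans (le_max_right _ _)⟩
  refine ⟨5 * C1 + K ^ 6 * (C2 / c), by positivity, fun t ht ht1 j hj => ?_⟩
  have hdc := dis_cont L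
  have hpt : ∀ y, dis L y ^ (2 * j) *
      Real.exp (-(min b ((1 - 1 / 10000) * dis L y ^ 2) / (2 * t))) ≤
      5 * t ^ j * ((1 + dis L y ^ 2 / t + (dis L y ^ 2 / t) ^ 2) *
        Real.exp (-(1 / 4 * dis L y ^ 2 / t))) + K ^ 6 * Real.exp (-(b / (2 * t))) := by
    intro y
    have hd0 := dis_nonneg L y
    obtain ⟨u, hu⟩ : ∃ u, u = dis L y ^ 2 / t := ⟨_, rfl⟩
    have hu0 : 0 ≤ u := by rw [hu]; positivity
    have hd2 : dis L y ^ 2 = t * u := by rw [hu]; field_simp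
    have hdj : dis L y ^ (2 * j) = t ^ j * u ^ j := by rw [pow_mul, hd2, mul_pow]
    have hKj : dis L y ^ (2 * j) ≤ K ^ 6 :=
      (pow_le_pow_left₀ hd0 (hK y) _).trans (pow_le_pow_right₀ hK1 (by omega))
    rcases le_total b ((1 - 1 / 10000) * dis L y ^ 2) with hb1 | hb1
    · rw [min_eq_left hb1]
      have e1 : 0 ≤ 5 * t ^ j * ((1 + dis L y ^ 2 / t + (dis L y ^ 2 / t) ^ 2) *
        Real.exp (-(1 / 4 * dis L y ^ 2 / t))) := by positivity
      have e2 := mul_le_mul_of_nonneg_right hKj (Real.exp_pos (-(b / (2 * t)))).le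
      linarith
    · rw [min_eq_right hb1]
      have e2 : 0 ≤ K ^ 6 * Real.exp (-(b / (2 * t))) := by positivity
      have e4 : (1 - 1 / 10000) * dis L y ^ 2 / (2 * t) = (1 - 1 / 10000) / 2 * u := by
        rw [hd2]
        field_simp
      have e5 : 1 / 4 * dis L y ^ 2 / t = 1 / 4 * u := by rw [hu]; ring
      rw [e4, e5, hdj, ← hu]
      have e3 := mul_le_mul_of_nonneg_left (pow_exp_le hu0 hj) (pow_nonneg ht.le j)
      linarith
  have hc1 : Continuous fun y : G => dis L y ^ (2 * j) *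
      Real.exp (-(min b ((1 - 1 / 10000) * dis L y ^ 2) / (2 * t))) := by fun_prop
  have hc2 : Continuous fun y : G => (1 + dis L y ^ 2 / t + (dis L y ^ 2 / t) ^ 2) *
        Real.exp (-(1 / 4 * dis L y ^ 2 / t)) := by fun_prop
  have h3 : ∫ y, dis L y ^ (2 * j) *
      Real.exp (-(min b ((1 - 1 / 10000) * dis L y ^ 2) / (2 * t))) ∂μ ≤
      ∫ y, (5 * t ^ j * ((1 + dis L y ^ 2 / t + (dis L y ^ 2 / t) ^ 2) *
        Real.exp (-(1 / 4 * dis L y ^ 2 / t))) + K ^ 6 * Real.exp (-(b / (2 * t)))) ∂μ :=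
    integral_mono (intg μ hc1) (intg μ ((hc2.const_mul _).add_const _)) hpt
  rw [integral_add ((intg μ hc2).const_mul _) (integrable_const _), integral_const_mul,
    integral_const, probReal_univ, one_smul] at h3
  have h4 := mul_le_mul_of_nonneg_left (h1 t ht) (show 0 ≤ 5 * t ^ j by positivity)
  have hst : 0 < Real.sqrt t := Real.sqrt_pos.2 ht
  have hst1 : Real.sqrt t ≤ 1 := by rw [← Real.sqrt_one]; exact Real.sqrt_le_sqrt ht1
  have hts : t ≤ Real.sqrt t := by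
    have := Real.mul_self_sqrt ht.le
    nlinarith
  have h5 := hp _ hst hst1
  have h6 : Real.exp (-(b / (2 * t))) ≤ C2 / c * (t ^ j * μ.real (bal L (Real.sqrt t))) := by
    refine (h2 t ht).trans ?_
    have e1 : t ^ (p + 3) ≤ t ^ j * Real.sqrt t ^ p := by
      rw [pow_add, mul_comm]
      exact mul_le_mul (pow_le_pow_of_le_one ht.le ht1 hj) (pow_le_pow_left₀ ht.le hts p)
        (by positivity) (by positivity)
    have e2 : Real.sqrt t ^ p ≤ μ.real (bal L (Real.sqrt t)) / c := by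
      rw [le_div_iff₀ hc, mul_comm]; exact h5
    calc C2 * t ^ (p + 3) ≤ C2 * (t ^ j * (μ.real (bal L (Real.sqrt t)) / c)) :=
          mul_le_mul_of_nonneg_left (e1.trans (mul_le_mul_of_nonneg_left e2 (by positivity))) hC2.le
      _ = C2 / c * (t ^ j * μ.real (bal L (Real.sqrt t))) := by ring
  have h7 := mul_le_mul_of_nonneg_left h6 (pow_nonneg (zero_le_one.trans hK1) 6)
  calc _ ≤ 5 * t ^ j * (C1 * μ.real (bal L (Real.sqrt t))) +
        K ^ 6 * (C2 / c * (t ^ j * μ.real (bal L (Real.sqrt t)))) := by linarith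
    _ = _ := by ring

variable {L}

section one

variable {D : LogData m} {εg δ r0 r s b r' : ℝ} (P : Par L D εg δ r0 r s b r')
  {F : Mt m → ℂ} {t A : ℝ} (cl : Cls L F t A r (r0 / 4) s b (1 / 10000))
  (ht : 0 < t) (hA : 0 ≤ A) (hAt : A * t ≤ 1 / 10)

include cl

theorem nn_nonneg (y : G) : 0 ≤ nn L F y := div_nonneg (Obs.res_nonneg cl y) cl.pos.le

theorem nn_cont : Continuous (nn L F) := (res_cont L cl.diff).div_const _

theorem nn_coe (y : G) : F (L.rho y) / F 1 = ((nn L F y : ℝ) : ℂ) := by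
  have h1 : F (L.rho y) = ((res L F y : ℝ) : ℂ) :=
    Complex.ext rfl (by rw [cl.real, Complex.ofReal_im])
  rw [h1, cls_F1 cl]
  unfold nn
  push_cast
  rfl

include P ht hA hAt

theorem nn_le (y : G) : nn L F y ≤ Real.exp
    (-(min b ((1 - 1 / 10000) * dis L y ^ 2) / (2 * t))) := by
  unfold nn
  rw [div_le_iff₀ cl.pos, mul_comm]
  exact Obs.res_le P cl ht hA hAt y

theorem nn_le_one (y : G) : nn L F y ≤ 1 := by
  unfold nn
  rw [div_le_one cl.pos]
  exact Obs.res_le' P cl ht hA hAt y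

theorem nn_lower (y : G) (hy : dis L y < r0 / 20) :
    Real.exp (-(51 / 100 * (dis L y ^ 2 / t))) ≤ nn L F y := by
  unfold nn
  rw [le_div_iff₀ cl.pos, mul_comm]
  exact Obs.res_lower P cl ht hA hAt y hy

theorem nn_int_lower (hts : Real.sqrt t < r0 / 20) :
    Real.exp (-(51 / 100)) * μ.real (bal L (Real.sqrt t)) ≤ ∫ y, nn L F y ∂μ := by
  have h1 := Obs.Z_lower μ P cl ht hA hAt hts
  unfold nn
  rw [integral_div, le_div_iff₀ cl.pos]
  linarith

theorem nn_mom {Cm : ℝ} (hCm : ∀ t : ℝ, 0 < t → t ≤ 1 → ∀ j : ℕ, j ≤ 3 →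
    ∫ y, dis L y ^ (2 * j) * Real.exp (-(min b ((1 - 1 / 10000) * dis L y ^ 2) / (2 * t))) ∂μ ≤
      Cm * t ^ j * μ.real (bal L (Real.sqrt t))) (ht1 : t ≤ 1) (j : ℕ) (hj : j ≤ 3) :
    ∫ y, dis L y ^ (2 * j) * nn L F y ∂μ ≤ Cm * t ^ j * μ.real (bal L (Real.sqrt t)) := by
  have hdc := dis_cont L
  have hc : Continuous (nn L F) := nn_cont cl
  have hc1 : Continuous fun y : G => dis L y ^ (2 * j) *
      Real.exp (-(min b ((1 - 1 / 10000) * dis L y ^ 2) / (2 * t))) := by fun_prop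
  have hc2 : Continuous fun y : G => dis L y ^ (2 * j) * nn L F y := by fun_prop
  refine le_trans (integral_mono (intg μ hc2) (intg μ hc1) fun y => ?_) (hCm t ht ht1 j hj)
  exact mul_le_mul_of_nonneg_left (nn_le P cl ht hA hAt y) (pow_nonneg (dis_nonneg L y) (2 * j))

theorem g2_eq (hts : Real.sqrt t < r0 / 20) :
    g2 μ L (nres μ L F) = (∫ y, dis L y ^ 2 * nn L F y ∂μ) / ∫ y, nn L F y ∂μ := by
  have hM := cl.pos
  have hZ := Obs.Z_pos μ P cl ht hA hAt hts
  have e1 : ∫ y, nn L F y ∂μ = (∫ y, res L F y ∂μ) / (F 1).re := integral_div _ _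
  have e2 : ∫ y, dis L y ^ 2 * nn L F y ∂μ = (∫ y, dis L y ^ 2 * res L F y ∂μ) / (F 1).re := by
    rw [← integral_div]
    refine integral_congr_ae (Filter.Eventually.of_forall fun y => ?_)
    simp only [nn]
    ring
  have e3 : g2 μ L (nres μ L F) = (∫ y, dis L y ^ 2 * res L F y ∂μ) / ∫ y, res L F y ∂μ := by
    unfold g2
    rw [← integral_div]
    refine integral_congr_ae (Filter.Eventually.of_forall fun y => ?_)
    simp only [nres]
    ring
  rw [e1, e2, e3]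
  field_simp

theorem nres_eq (hts : Real.sqrt t < r0 / 20) (y : G) :
    nres μ L F y = nn L F y / ∫ y, nn L F y ∂μ := by
  have hM := cl.pos
  have hZ := Obs.Z_pos μ P cl ht hA hAt hts
  have e1 : ∫ y, nn L F y ∂μ = (∫ y, res L F y ∂μ) / (F 1).re := integral_div _ _
  rw [e1]
  unfold nn nres
  field_simp

end one

theorem exp_quad_bound (u : ℝ) : |Real.exp u - 1 - u| ≤ u ^ 2 * (1 + Real.exp u) := by
  have h0 : 0 ≤ Real.exp u - 1 - u := by
    have := Real.add_one_le_exp u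
    linarith
  have he := Real.exp_pos u
  rcases le_or_gt |u| 1 with h | h
  · refine (Real.abs_exp_sub_one_sub_id_le h).trans ?_
    nlinarith [sq_nonneg u, mul_nonneg (sq_nonneg u) he.le]
  · rw [abs_of_nonneg h0]
    rcases lt_abs.1 h with h1 | h1
    · have h2 : 1 ≤ u ^ 2 := by nlinarith
      nlinarith [mul_le_mul_of_nonneg_right h2 he.le, sq_nonneg u]
    · have h2 : -u ≤ u ^ 2 := by nlinarith
      have h3 : Real.exp u ≤ 1 := Real.exp_le_one_iff.2 (by linarith)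
      nlinarith [mul_nonneg (sq_nonneg u) he.le]

/-- the square of the distance and of the norm of the logarithm -/
theorem dis_log {D : LogData m} {εg δ : ℝ} (ch : Chart L D εg δ) (e0 : 0 ≤ εg)
    (e1 : εg ≤ 1 / 1000000) (y : G) (hy : dis L y < δ) :
    |dis L y ^ 2 - ‖D.lg (L.rho y)‖ ^ 2| ≤ 3 * dis L y ^ 3 := by
  obtain ⟨hη, hηe, hηn, -⟩ := ch.lgm y hy
  have hd0 := dis_nonneg L y
  obtain ⟨x, hx⟩ : ∃ x, x = ‖D.lg (L.rho y)‖ := ⟨_, rfl⟩
  obtain ⟨d, hd⟩ : ∃ d, d = dis L y := ⟨_, rfl⟩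
  have hx0 : 0 ≤ x := by rw [hx]; exact norm_nonneg _
  have h1 : |d - x| ≤ x ^ 2 := by
    have h2 := Obs.exp_quad (lie_skew L hη)
    rw [hηe] at h2
    have h3 : d = ‖L.rho y - 1‖ := hd
    rw [h3, hx]
    exact (abs_norm_sub_norm_le _ _).trans h2
  rw [← hx, ← hd] at hηn
  rw [← hx, ← hd]
  rw [← hd] at hd0
  have h4 : x ≤ 101 / 100 * d := hηn.trans (by nlinarith)
  have h5 : x ^ 2 ≤ (101 / 100 * d) ^ 2 := pow_le_pow_left₀ hx0 h4 2
  have e : d ^ 2 - x ^ 2 = (d - x) * (d + x) := by ring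
  rw [e, abs_mul, abs_of_nonneg (show 0 ≤ d + x by positivity)]
  calc |d - x| * (d + x) ≤ (101 / 100 * d) ^ 2 * (d + 101 / 100 * d) :=
        mul_le_mul (h1.trans h5) (by linarith) (by positivity) (by positivity)
    _ ≤ 3 * d ^ 3 := by nlinarith [pow_nonneg hd0 3]

/-- small field representation on the group -/
theorem nn_small {D : LogData m} {εg δ r0 r s b r' : ℝ} (P : Par L D εg δ r0 r s b r')
    {F : Mt m → ℂ} {t A : ℝ} (cl : Cls L F t A r (r0 / 4) s b (1 / 10000))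
    {w : gC L → ℂ} (hw : SFw L F t A r (r0 / 4) w) (y : G) (hy : dis L y < r0 / 2)
    (η : gC L) (hη : (η : Mt m) = D.lg (L.rho y)) :
    η ∈ dom L r (r0 / 4) ∧ (w η).im = 0 ∧
    nn L F y = Real.exp (-(‖D.lg (L.rho y)‖ ^ 2 / (2 * t)) - (w η).re) := by
  have hr0 := P.r0_pos
  have hr01 := P.r0_le
  have hrl := P.r_lo
  have hδ := P.r0_δ
  have he0 := P.e0
  have he1 := P.e1
  obtain ⟨hl, hle, hln, -⟩ := P.ch.lgm y (by linarith)
  have hd0 := dis_nonneg L y
  have hsk : (D.lg (L.rho y))ᴴ = -D.lg (L.rho y) := lie_skew L hl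
  have him : imP (η : Mt m) = 0 := by
    rw [hη]
    unfold imP
    rw [hsk, add_neg_cancel, smul_zero]
  have hre : reP (η : Mt m) = D.lg (L.rho y) := by
    have h1 := reP_add_imP (η : Mt m)
    rw [him, smul_zero, add_zero] at h1
    rw [h1, hη]
  have hmem : η ∈ dom L r (r0 / 4) := by
    refine ⟨?_, ?_⟩
    · rw [hre]
      nlinarith
    · rw [him, norm_zero]
      positivity
  have hwi := hw.real η hmem him
  refine ⟨hmem, hwi, ?_⟩
  have h1 := hw.eq η hmem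
  have hF1 : F 1 ≠ 0 := by
    intro h
    have := cl.pos
    rw [h, Complex.zero_re] at this
    exact lt_irrefl _ this
  have hQ : Qf (η : Mt m) = ((‖D.lg (L.rho y)‖ ^ 2 : ℝ) : ℂ) := by
    refine Complex.ext ?_ ?_
    · rw [Qf_re, him, norm_zero, hre, Complex.ofReal_re]
      ring
    · rw [Qf_im_of_real him, Complex.ofReal_im]
  have hwr : w η = (((w η).re : ℝ) : ℂ) := Complex.ext rfl (by rw [hwi, Complex.ofReal_im])
  have h2 := nn_coe cl y
  have h3 : NormedSpace.exp (η : Mt m) = L.rho y := by rw [hη, hle]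
  rw [h3, hQ, hwr] at h1
  rw [h1, mul_div_cancel_left₀ _ hF1] at h2
  have h4 : Complex.exp (-(((‖D.lg (L.rho y)‖ ^ 2 : ℝ) : ℂ) / (2 * (t : ℂ))) - (((w η).re : ℝ) : ℂ)) =
      ((Real.exp (-(‖D.lg (L.rho y)‖ ^ 2 / (2 * t)) - (w η).re) : ℝ) : ℂ) := by
    push_cast
    rfl
  rw [h4] at h2
  exact (Complex.ofReal_injective h2).symm

end ObsL

end

end Pool.Agent.T2H04.HY
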