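import Mathlib
import Pool.Agent.T2H04.HY.Conv4

/-!
# Pairs of states
-/

open MeasureTheory Matrix Filter
open scoped Matrix.Norms.Frobenius Topology

namespace Pool.Agent.T2H04.HY

set_option linter.unusedSectionVars false

noncomputable section

section defs

variable {G : Type} [Group G] [TopologicalSpace G] {m : Type} [Fintype m] [DecidableEq m]

/-- a state: a function with its small field data -/
structure St (L : RD G m) where
  F : Mt m → ℂ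
  t : ℝ
  w : gC L → ℂ

/-- the upper bound of `ubound` -/
def Bf (b t a h : ℝ) : ℝ :=
  Real.exp (-((min b ((1 - 1 / 10000) * a ^ 2) - (1 + 1 / 10000) * h ^ 2) / (2 * t)))

/-- the distance of two states is at most `Dd` in the small field region and at most `E` in the
large field region -/
structure DF (L : RD G m) (r0 r s b : ℝ) (S0 S1 : St L) (Dd E : ℝ) : Prop where
  ww : ∀ Z ∈ dom L r (r0 / 4), ‖S1.w Z - S0.w Z‖ ≤ Dd * ‖Z‖ ^ 4
  ll : ∀ Z ∈ dom L r (r0 / 4), ∀ y : G, s ≤ ‖NormedSpace.exp (reP (Z : Mt m)) * L.rho y - 1‖ →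
    ‖S1.F (NormedSpace.exp (Z : Mt m) * L.rho y) / S1.F 1 -
      S0.F (NormedSpace.exp (Z : Mt m) * L.rho y) / S0.F 1‖ ≤
      E * (Real.exp (-((b - (1 + 1 / 10000) * ‖imP (Z : Mt m)‖ ^ 2) / (2 * S0.t))) +
        Real.exp (-((b - (1 + 1 / 10000) * ‖imP (Z : Mt m)‖ ^ 2) / (2 * S1.t))))

/-- the hypotheses on a pair of states -/
structure PairH (L : RD G m) (r0 r s b : ℝ) (S0 S1 : St L) (A T Dd E : ℝ) : Prop where
  c0 : Cls L S0.F S0.t A r (r0 / 4) s b (1 / 10000)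
  c1 : Cls L S1.F S1.t A r (r0 / 4) s b (1 / 10000)
  s0 : SFw L S0.F S0.t A r (r0 / 4) S0.w
  s1 : SFw L S1.F S1.t A r (r0 / 4) S1.w
  p0 : 0 < S0.t
  p1 : 0 < S1.t
  A0 : 0 ≤ A
  At0 : A * S0.t ≤ 1 / 10
  At1 : A * S1.t ≤ 1 / 10
  T0 : 0 ≤ T
  D0 : 0 ≤ Dd
  E0 : 0 ≤ E
  tt : |1 / S1.t - 1 / S0.t| ≤ T
  df : DF L r0 r s b S0 S1 Dd E

/-- the total distance -/
def XX (r0 T Dd E : ℝ) : ℝ := r0 ^ 2 * T + 3 * r0 ^ 4 * Dd + E

/-- the integrand of the normalised convolution -/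
def Ig (L : RD G m) (S : St L) (Z : gC L) (y : G) : ℂ :=
  S.F (NormedSpace.exp ((1 / 2 : ℂ) • (Z : Mt m)) * L.rho y) / S.F 1 *
    (S.F (NormedSpace.exp ((1 / 2 : ℂ) • (Z : Mt m)) * L.rho y⁻¹) / S.F 1) * ev S.t S.w Z

end defs

end

end Pool.Agent.T2H04.HY
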