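import Mathlib
import Pool.Agent.T2H04.HY.PairDefs

/-!
# Upper bound of the difference of two states
-/

open MeasureTheory Matrix Filter
open scoped Matrix.Norms.Frobenius Topology

namespace Pool.Agent.T2H04.HY

set_option linter.unusedSectionVars false

noncomputable section

variable {G : Type} [Group G] [TopologicalSpace G] [IsTopologicalGroup G] [CompactSpace G]
  {m : Type} [Fintype m] [DecidableEq m] {L : RD G m}

theorem cexp_sub_le (x y : ℂ) :
    ‖Complex.exp x - Complex.exp y‖ ≤ ‖x - y‖ * (‖Complex.exp x‖ + ‖Complex.exp y‖) := by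
  have hb : ∀ z ∈ segment ℝ y x, ‖Complex.exp z‖ ≤ ‖Complex.exp x‖ + ‖Complex.exp y‖ := by
    intro z hz
    obtain ⟨a, c, ha, hc, hac, rfl⟩ := hz
    rw [Complex.norm_exp, Complex.norm_exp, Complex.norm_exp]
    have e : (a • y + c • x).re = a * y.re + c * x.re := by simp
    rw [e]
    have h1 := Real.exp_pos x.re
    have h2 := Real.exp_pos y.re
    rcases le_total x.re y.re with h | h
    · have h3 : a * y.re + c * x.re ≤ y.re := by
        have h4 := mul_le_mul_of_nonneg_left h hc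
        have h5 : a * y.re + c * y.re = y.re := by rw [← add_mul, hac, one_mul]
        linarith
      have := Real.exp_le_exp.2 h3
      linarith
    · have h3 : a * y.re + c * x.re ≤ x.re := by
        have h4 := mul_le_mul_of_nonneg_left h ha
        have h5 : a * x.re + c * x.re = x.re := by rw [← add_mul, hac, one_mul]
        linarith
      have := Real.exp_le_exp.2 h3
      linarith
  have h := (convex_segment (𝕜 := ℝ) y x).norm_image_sub_le_of_norm_hasDerivWithin_le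
    (f := Complex.exp) (f' := Complex.exp)
    (fun z _ => (Complex.hasDerivAt_exp z).hasDerivWithinAt) hb (left_mem_segment ℝ y x)
    (right_mem_segment ℝ y x)
  linarith

theorem ub_one {D : LogData m} {εg δ r0 r s b r' : ℝ} (P : Par L D εg δ r0 r s b r')
    {F : Mt m → ℂ} {t A : ℝ} (cl : Cls L F t A r (r0 / 4) s b (1 / 10000)) (ht : 0 < t)
    (hA : 0 ≤ A) (hAt : A * t ≤ 1 / 10) (Z : gC L) (h1 : ‖reP (Z : Mt m)‖ < r)
    (h2 : ‖imP (Z : Mt m)‖ < r0 / 8) (y : G) :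
    ‖F (NormedSpace.exp (Z : Mt m) * L.rho y) / F 1‖ ≤
      Bf b t ‖NormedSpace.exp (reP (Z : Mt m)) * L.rho y - 1‖ ‖imP (Z : Mt m)‖ := by
  have hr0 := P.r0_pos
  have hr0l := P.r0_le
  have hrl := P.r_lo
  have hrh := P.r_hi
  have hδ := P.r0_δ
  have U := ubound P.ch P.e0 P.e1 cl ht hA hAt (by linarith) (by linarith) (by linarith)
    (by linarith) (by linarith) P.h1 Z h1 (by linarith) y
  rw [norm_div, cls_normF1 cl, div_le_iff₀ cl.pos, mul_comm]
  exact U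

/-- the logarithm of the normalised function -/
theorem near_form {D : LogData m} {εg δ r0 r s b r' : ℝ} (P : Par L D εg δ r0 r s b r')
    (Z : gC L) (h1 : ‖reP (Z : Mt m)‖ < r) (h2 : ‖imP (Z : Mt m)‖ < r0 / 8) (y : G)
    (hfar : ‖NormedSpace.exp (reP (Z : Mt m)) * L.rho y - 1‖ < s) :
    ∃ Y : gC L, Y ∈ dom L r (r0 / 4) ∧
      NormedSpace.exp (Z : Mt m) * L.rho y = NormedSpace.exp (Y : Mt m) := by
  have hr0 := P.r0_pos
  have hr0l := P.r0_le
  have hrl := P.r_lo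
  have hrh := P.r_hi
  have hδ := P.r0_δ
  have he0 := P.e0
  have he := P.e1
  have hs := P.h1
  set a := ‖NormedSpace.exp (reP (Z : Mt m)) * L.rho y - 1‖ with had
  set h := ‖imP (Z : Mt m)‖ with hhd
  have ha0 : 0 ≤ a := norm_nonneg _
  have hh0 : 0 ≤ h := norm_nonneg _
  have hZn : ‖(Z : Mt m)‖ < δ := by
    have := norm_le_reP_imP (Z : Mt m)
    linarith
  have haδ : a < δ := by
    have h3 : s ≤ r := by
      have h4 : 0 ≤ s := ha0.trans hfar.le
      nlinarith [mul_nonneg h4 he0, mul_nonneg he0 hr0.le]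
    linarith
  obtain ⟨Y, hY, hYe, hq, hp, hpa⟩ := P.ch.geo Z Z.2 hZn y haδ
  have hp0 : 0 ≤ ‖reP Y‖ := norm_nonneg _
  have hq0 : 0 ≤ ‖imP Y‖ := norm_nonneg _
  have hpr : ‖reP Y‖ < r := by
    have h3 : (1 + εg) * a < (1 + εg) * s := mul_lt_mul_of_pos_left hfar (by linarith)
    have h4 : εg * h ≤ εg * (r0 / 4) := mul_le_mul_of_nonneg_left (by linarith) he0
    nlinarith
  have hqτ : ‖imP Y‖ < r0 / 4 := by nlinarith
  exact ⟨⟨Y, hY⟩, ⟨hpr, hqτ⟩, hYe⟩

/-- `ubound` for the difference of two states -/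
theorem ud {D : LogData m} {εg δ r0 r s b r' : ℝ} (P : Par L D εg δ r0 r s b r')
    {S0 S1 : St L} {A T Dd E : ℝ} (H : PairH L r0 r s b S0 S1 A T Dd E)
    (Z : gC L) (h1 : ‖reP (Z : Mt m)‖ < r) (h2 : ‖imP (Z : Mt m)‖ < r0 / 8) (y : G) :
    ‖S1.F (NormedSpace.exp (Z : Mt m) * L.rho y) / S1.F 1 -
      S0.F (NormedSpace.exp (Z : Mt m) * L.rho y) / S0.F 1‖ ≤
      XX r0 T Dd E *
        (Bf b S0.t ‖NormedSpace.exp (reP (Z : Mt m)) * L.rho y - 1‖ ‖imP (Z : Mt m)‖ +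
          Bf b S1.t ‖NormedSpace.exp (reP (Z : Mt m)) * L.rho y - 1‖ ‖imP (Z : Mt m)‖) := by
  have hr0 := P.r0_pos
  have hrl := P.r_lo
  have hrh := P.r_hi
  have hT := H.T0
  have hD := H.D0
  have hE := H.E0
  have hXX : 0 ≤ r0 ^ 2 * T + 3 * r0 ^ 4 * Dd := by positivity
  set a := ‖NormedSpace.exp (reP (Z : Mt m)) * L.rho y - 1‖ with had
  set h := ‖imP (Z : Mt m)‖ with hhd
  have hB : ∀ t : ℝ, 0 < Bf b t a h := fun t => Real.exp_pos _
  by_cases hfar : s ≤ a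
  · have hZ : Z ∈ dom L r (r0 / 4) := ⟨h1, by rw [← hhd]; linarith⟩
    refine (H.df.ll Z hZ y hfar).trans ?_
    have k : ∀ t : ℝ, 0 < t → Real.exp (-((b - (1 + 1 / 10000) * h ^ 2) / (2 * t))) ≤
        Bf b t a h := by
      intro t ht
      refine Real.exp_le_exp.2 ?_
      rw [neg_le_neg_iff]
      refine div_le_div_of_nonneg_right ?_ (by positivity)
      have := min_le_left b ((1 - 1 / 10000) * a ^ 2)
      linarith
    have k0 := k S0.t H.p0
    have k1 := k S1.t H.p1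
    have hB0 := hB S0.t
    have hB1 := hB S1.t
    refine mul_le_mul ?_ (add_le_add k0 k1) (by positivity) (by unfold XX; linarith)
    unfold XX
    linarith
  · rw [not_le] at hfar
    obtain ⟨Y, hYd, hYe⟩ := near_form P Z h1 h2 y hfar
    have u0 := ub_one P H.c0 H.p0 H.A0 H.At0 Z h1 h2 y
    have u1 := ub_one P H.c1 H.p1 H.A0 H.At1 Z h1 h2 y
    rw [hYe] at u0 u1 ⊢
    have f0 : S0.F 1 ≠ 0 := by
      intro h0
      have := H.c0.pos
      rw [h0] at this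
      simp at this
    have f1 : S1.F 1 ≠ 0 := by
      intro h0
      have := H.c1.pos
      rw [h0] at this
      simp at this
    have g0 : S0.F (NormedSpace.exp (Y : Mt m)) / S0.F 1 =
        Complex.exp (-(Qf (Y : Mt m) / (2 * S0.t)) - S0.w Y) := by
      rw [H.s0.eq Y hYd, mul_div_cancel_left₀ _ f0]
    have g1 : S1.F (NormedSpace.exp (Y : Mt m)) / S1.F 1 =
        Complex.exp (-(Qf (Y : Mt m) / (2 * S1.t)) - S1.w Y) := by
      rw [H.s1.eq Y hYd, mul_div_cancel_left₀ _ f1]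
    rw [g0] at u0
    rw [g1] at u1
    rw [g0, g1]
    refine (cexp_sub_le _ _).trans ?_
    have hww := H.df.ww Y hYd
    have hnY : ‖Y‖ ^ 2 ≤ 151 / 100 * r0 ^ 2 := by
      have e1 : ‖Y‖ ^ 2 = ‖reP (Y : Mt m)‖ ^ 2 + ‖imP (Y : Mt m)‖ ^ 2 := norm_sq_reP_imP (Y : Mt m)
      have e2 : ‖reP (Y : Mt m)‖ ^ 2 ≤ (6 / 5 * r0) ^ 2 :=
        pow_le_pow_left₀ (norm_nonneg _) (hYd.1.le.trans hrh) 2
      have e3 : ‖imP (Y : Mt m)‖ ^ 2 ≤ (r0 / 4) ^ 2 :=
        pow_le_pow_left₀ (norm_nonneg _) hYd.2.le 2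
      nlinarith
    have hQ : ‖Qf (Y : Mt m)‖ ≤ ‖Y‖ ^ 2 := norm_Qf_le (Y : Mt m)
    have hY0 : 0 ≤ ‖Y‖ ^ 2 := sq_nonneg _
    have hY4 : ‖Y‖ ^ 4 ≤ 3 * r0 ^ 4 := by
      have e1 : ‖Y‖ ^ 4 = (‖Y‖ ^ 2) ^ 2 := by ring
      have e2 : (‖Y‖ ^ 2) ^ 2 ≤ (151 / 100 * r0 ^ 2) ^ 2 := pow_le_pow_left₀ hY0 hnY 2
      have e3 : (151 / 100 * r0 ^ 2) ^ 2 ≤ 3 * r0 ^ 4 := by
        have : 0 ≤ r0 ^ 4 := by positivity
        nlinarith
      rw [e1]
      exact e2.trans e3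
    have hdiff : ‖(-(Qf (Y : Mt m) / (2 * S1.t)) - S1.w Y) -
        (-(Qf (Y : Mt m) / (2 * S0.t)) - S0.w Y)‖ ≤ XX r0 T Dd E := by
      have e1 : (-(Qf (Y : Mt m) / (2 * S1.t)) - S1.w Y) -
          (-(Qf (Y : Mt m) / (2 * S0.t)) - S0.w Y) =
          -(Qf (Y : Mt m) * (((1 / S1.t - 1 / S0.t) / 2 : ℝ) : ℂ)) - (S1.w Y - S0.w Y) := by
        have ht0 : ((S0.t : ℝ) : ℂ) ≠ 0 := Complex.ofReal_ne_zero.2 H.p0.ne'
        have ht1 : ((S1.t : ℝ) : ℂ) ≠ 0 := Complex.ofReal_ne_zero.2 H.p1.ne'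
        push_cast
        field_simp
        ring
      rw [e1]
      refine (norm_sub_le _ _).trans ?_
      rw [norm_neg, norm_mul, Complex.norm_real, Real.norm_eq_abs, abs_div, abs_two]
      have e2 : ‖Qf (Y : Mt m)‖ * (|1 / S1.t - 1 / S0.t| / 2) ≤ (151 / 100 * r0 ^ 2) * (T / 2) := by
        refine mul_le_mul (hQ.trans hnY) ?_ (by positivity) (by positivity)
        have := H.tt
        linarith
      have e3 : Dd * ‖Y‖ ^ 4 ≤ Dd * (3 * r0 ^ 4) := mul_le_mul_of_nonneg_left hY4 hD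
      unfold XX
      have e4 : 0 ≤ r0 ^ 2 * T := by positivity
      nlinarith
    have hsum : ‖Complex.exp (-(Qf (Y : Mt m) / (2 * S1.t)) - S1.w Y)‖ +
        ‖Complex.exp (-(Qf (Y : Mt m) / (2 * S0.t)) - S0.w Y)‖ ≤
        Bf b S0.t a h + Bf b S1.t a h := by linarith
    exact mul_le_mul hdiff hsum (by positivity) (by unfold XX; linarith)

end

end Pool.Agent.T2H04.HY
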