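import Mathlib
import Pool.Agent.T2H04.HY.ObsL1
import Pool.Agent.T2H04.HY.Pd1

/-!
# Pointwise comparison of two states on the group
-/

open MeasureTheory Matrix Filter
open scoped Matrix.Norms.Frobenius Topology

namespace Pool.Agent.T2H04.HY

set_option linter.unusedSectionVars false

noncomputable section

variable {G : Type} [Group G] [TopologicalSpace G] [IsTopologicalGroup G] [CompactSpace G]
  [MeasurableSpace G] [BorelSpace G] (μ : Measure G) [μ.IsHaarMeasure] [IsProbabilityMeasure μ]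
  {m : Type} [Fintype m] [DecidableEq m] {L : RD G m}

namespace ObsL

open HaarAux

/-- real form of the comparison -/
theorem pt_real {d x t0 t1 ω0 ω1 Dd K n0 n1 : ℝ} (hd0 : 0 ≤ d) (hd1 : d ≤ 1) (hx0 : 0 ≤ x)
    (hx : x ≤ (101 / 100 * d) ^ 2) (hdx : |d ^ 2 - x| ≤ 3 * d ^ 3) (hD : 0 ≤ Dd) (hDK : Dd ≤ K)
    (hω : |ω1 - ω0| ≤ Dd * x ^ 2) (h0 : n0 = Real.exp (-(x / (2 * t0)) - ω0))
    (h1 : n1 = Real.exp (-(x / (2 * t1)) - ω1)) :
    |n1 - n0 + (1 / t1 - 1 / t0) / 2 * (d ^ 2 * n0)| ≤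
      3 / 2 * |1 / t1 - 1 / t0| * d ^ 3 * n0 + 2 * Dd * d ^ 4 * n0 +
        (2 * (1 / t1 - 1 / t0) ^ 2 + 8 * K * Dd) * d ^ 4 * (n0 + n1) := by
  obtain ⟨be, hbe⟩ : ∃ be, be = 1 / t1 - 1 / t0 := ⟨_, rfl⟩
  rw [← hbe]
  obtain ⟨u, hu⟩ : ∃ u, u = -(be / 2) * x - (ω1 - ω0) := ⟨_, rfl⟩
  have hn0 : 0 < n0 := by rw [h0]; exact Real.exp_pos _
  have hn1 : 0 < n1 := by rw [h1]; exact Real.exp_pos _
  have hn : n1 = n0 * Real.exp u := by
    rw [h0, h1, ← Real.exp_add]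
    congr 1
    rw [hu, hbe]
    ring
  have hx2 : x ≤ 2 * d ^ 2 := by nlinarith [sq_nonneg d]
  have hx4 : x ^ 2 ≤ 2 * d ^ 4 := by
    have h2 := pow_le_pow_left₀ hx0 hx 2
    refine h2.trans ?_
    have e : ((101 / 100 * d) ^ 2) ^ 2 = (101 / 100) ^ 4 * d ^ 4 := by ring
    rw [e]
    exact mul_le_mul_of_nonneg_right (by norm_num) (pow_nonneg hd0 4)
  have hωd : |ω1 - ω0| ≤ 2 * Dd * d ^ 4 := by
    refine hω.trans ?_
    calc Dd * x ^ 2 ≤ Dd * (2 * d ^ 4) := mul_le_mul_of_nonneg_left hx4 hD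
      _ = _ := by ring
  have hu1 : |u + be / 2 * d ^ 2| ≤ 3 / 2 * |be| * d ^ 3 + 2 * Dd * d ^ 4 := by
    have e : u + be / 2 * d ^ 2 = be / 2 * (d ^ 2 - x) - (ω1 - ω0) := by rw [hu]; ring
    rw [e]
    refine (abs_sub _ _).trans (add_le_add ?_ hωd)
    rw [abs_mul, abs_div, abs_two]
    calc |be| / 2 * |d ^ 2 - x| ≤ |be| / 2 * (3 * d ^ 3) :=
          mul_le_mul_of_nonneg_left hdx (by positivity)
      _ = _ := by ring
  have hu2 : |u| ≤ |be| * d ^ 2 + 2 * Dd * d ^ 4 := by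
    rw [hu]
    refine (abs_sub _ _).trans (add_le_add ?_ hωd)
    rw [abs_mul, abs_neg, abs_div, abs_two, abs_of_nonneg hx0]
    calc |be| / 2 * x ≤ |be| / 2 * (2 * d ^ 2) := mul_le_mul_of_nonneg_left hx2 (by positivity)
      _ = _ := by ring
  have hu3 : u ^ 2 ≤ (2 * be ^ 2 + 8 * K * Dd) * d ^ 4 := by
    have e1 : u ^ 2 = |u| ^ 2 := (sq_abs u).symm
    have e2 := pow_le_pow_left₀ (abs_nonneg u) hu2 2
    have e3 : (|be| * d ^ 2 + 2 * Dd * d ^ 4) ^ 2 ≤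
        2 * (|be| * d ^ 2) ^ 2 + 2 * (2 * Dd * d ^ 4) ^ 2 := by
      nlinarith [sq_nonneg (|be| * d ^ 2 - 2 * Dd * d ^ 4)]
    have e4 : (|be| * d ^ 2) ^ 2 = be ^ 2 * d ^ 4 := by rw [mul_pow, sq_abs]; ring
    have e5 : (2 * Dd * d ^ 4) ^ 2 ≤ 4 * K * Dd * d ^ 4 := by
      have e6 : (2 * Dd * d ^ 4) ^ 2 = 4 * (Dd * Dd) * (d ^ 4 * d ^ 4) := by ring
      have e7 : d ^ 4 * d ^ 4 ≤ d ^ 4 := mul_le_of_le_one_right (pow_nonneg hd0 4)
        (pow_le_one₀ hd0 hd1)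
      have e8 : Dd * Dd ≤ K * Dd := mul_le_mul_of_nonneg_right hDK hD
      rw [e6]
      calc 4 * (Dd * Dd) * (d ^ 4 * d ^ 4) ≤ 4 * (K * Dd) * d ^ 4 :=
            mul_le_mul (by linarith) e7 (by positivity) (by nlinarith)
        _ = _ := by ring
    rw [e1]
    linarith
  have key : n1 - n0 + be / 2 * (d ^ 2 * n0) =
      n0 * (Real.exp u - 1 - u) + (u + be / 2 * d ^ 2) * n0 := by
    rw [hn]; ring
  have k1 : |n0 * (Real.exp u - 1 - u)| ≤ (2 * be ^ 2 + 8 * K * Dd) * d ^ 4 * (n0 + n1) := by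
    rw [abs_mul, abs_of_pos hn0]
    calc n0 * |Real.exp u - 1 - u| ≤ n0 * (u ^ 2 * (1 + Real.exp u)) :=
          mul_le_mul_of_nonneg_left (exp_quad_bound u) hn0.le
      _ = u ^ 2 * (n0 + n1) := by rw [hn]; ring
      _ ≤ _ := mul_le_mul_of_nonneg_right hu3 (by linarith)
  have k2 : |(u + be / 2 * d ^ 2) * n0| ≤ (3 / 2 * |be| * d ^ 3 + 2 * Dd * d ^ 4) * n0 := by
    rw [abs_mul, abs_of_pos hn0]
    exact mul_le_mul_of_nonneg_right hu1 hn0.le
  rw [key]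
  refine (abs_add_le _ _).trans ?_
  linarith

section pair

variable {D : LogData m} {εg δ r0 r s b r' : ℝ} (P : Par L D εg δ r0 r s b r')
  {S0 S1 : St L} {A T Dd E : ℝ} (H : PairH L r0 r s b S0 S1 A T Dd E)

include P H

theorem pt_small {K : ℝ} (hDK : Dd ≤ K) (y : G) (hy : dis L y < r0 / 2) :
    |nn L S1.F y - nn L S0.F y + (1 / S1.t - 1 / S0.t) / 2 * (dis L y ^ 2 * nn L S0.F y)| ≤
      3 / 2 * |1 / S1.t - 1 / S0.t| * dis L y ^ 3 * nn L S0.F y +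
        2 * Dd * dis L y ^ 4 * nn L S0.F y +
        (2 * (1 / S1.t - 1 / S0.t) ^ 2 + 8 * K * Dd) * dis L y ^ 4 *
          (nn L S0.F y + nn L S1.F y) := by
  have hr0 := P.r0_pos
  have hr01 := P.r0_le
  have hδ := P.r0_δ
  have he0 := P.e0
  have he1 := P.e1
  have hd0 := dis_nonneg L y
  obtain ⟨hl, hle, hln, -⟩ := P.ch.lgm y (by linarith)
  have hmem : D.lg (L.rho y) ∈ gC L := gC_of_lie L hl
  obtain ⟨hη, hi0, hn0⟩ := nn_small P H.c0 H.s0 y hy ⟨_, hmem⟩ rfl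
  obtain ⟨-, hi1, hn1⟩ := nn_small P H.c1 H.s1 y hy ⟨_, hmem⟩ rfl
  have hww := H.df.ww _ hη
  have hnorm : ‖(⟨D.lg (L.rho y), hmem⟩ : gC L)‖ = ‖D.lg (L.rho y)‖ := rfl
  rw [hnorm] at hww
  refine pt_real hd0 (by linarith) (sq_nonneg ‖D.lg (L.rho y)‖) ?_ ?_ H.D0 hDK ?_ hn0 hn1
  · exact pow_le_pow_left₀ (norm_nonneg _) (hln.trans (by nlinarith)) 2
  · exact dis_log P.ch he0 he1 y (by linarith)
  · have h1 : |(S1.w ⟨_, hmem⟩).re - (S0.w ⟨_, hmem⟩).re| ≤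
        ‖S1.w ⟨_, hmem⟩ - S0.w ⟨_, hmem⟩‖ := by
      rw [← Complex.sub_re]
      exact Complex.abs_re_le_norm _
    refine h1.trans (hww.trans (le_of_eq ?_))
    ring

theorem pt_ud (y : G) : |nn L S1.F y - nn L S0.F y| ≤ XX r0 T Dd E *
    (Real.exp (-(min b ((1 - 1 / 10000) * dis L y ^ 2) / (2 * S0.t))) +
      Real.exp (-(min b ((1 - 1 / 10000) * dis L y ^ 2) / (2 * S1.t)))) := by
  have hr0 := P.r0_pos
  have hrl := P.r_lo
  have z1 : reP (((0 : gC L) : Mt m)) = 0 := by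
    rw [ZeroMemClass.coe_zero]
    unfold reP
    simp
  have z2 : imP (((0 : gC L) : Mt m)) = 0 := by
    rw [ZeroMemClass.coe_zero]
    unfold imP
    simp
  have h := ud P H 0 (by rw [z1, norm_zero]; linarith) (by rw [z2, norm_zero]; positivity) y
  rw [z1, z2, norm_zero, NormedSpace.exp_zero, one_mul, ZeroMemClass.coe_zero,
    NormedSpace.exp_zero, one_mul, nn_coe H.c0, nn_coe H.c1, ← Complex.ofReal_sub,
    Complex.norm_real, Real.norm_eq_abs] at h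
  refine h.trans (le_of_eq ?_)
  unfold Bf dis
  simp only [ne_eq, OfNat.ofNat_ne_zero, not_false_eq_true, zero_pow, mul_zero, sub_zero]

theorem XX_nonneg : 0 ≤ XX r0 T Dd E := by
  have := H.T0
  have := H.D0
  have := H.E0
  unfold XX
  positivity

theorem pt_ud2 (y : G) : |nn L S1.F y - nn L S0.F y| ≤ 2 * XX r0 T Dd E := by
  have hb := Obs.b_pos P
  have h0 := H.p0
  have h1 := H.p1
  have hm : 0 ≤ min b ((1 - 1 / 10000) * dis L y ^ 2) := le_min hb.le (by positivity)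
  have e0 : Real.exp (-(min b ((1 - 1 / 10000) * dis L y ^ 2) / (2 * S0.t))) ≤ 1 := by
    rw [Real.exp_le_one_iff, neg_nonpos]; positivity
  have e1 : Real.exp (-(min b ((1 - 1 / 10000) * dis L y ^ 2) / (2 * S1.t))) ≤ 1 := by
    rw [Real.exp_le_one_iff, neg_nonpos]; positivity
  have h2 := pt_ud P H y
  have h3 := XX_nonneg P H
  nlinarith

theorem pt_large (y : G) (hy : r0 / 2 ≤ dis L y) :
    |nn L S1.F y - nn L S0.F y| ≤ XX r0 T Dd E *
      (Real.exp (-(min b ((1 - 1 / 10000) * (r0 / 2) ^ 2) / (2 * S0.t))) +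
        Real.exp (-(min b ((1 - 1 / 10000) * (r0 / 2) ^ 2) / (2 * S1.t)))) := by
  have hr0 := P.r0_pos
  have h0 := H.p0
  have h1 := H.p1
  have hm : min b ((1 - 1 / 10000) * (r0 / 2) ^ 2) ≤ min b ((1 - 1 / 10000) * dis L y ^ 2) := by
    refine min_le_min le_rfl (mul_le_mul_of_nonneg_left ?_ (by norm_num))
    exact pow_le_pow_left₀ (by positivity) hy 2
  refine (pt_ud P H y).trans (mul_le_mul_of_nonneg_left (add_le_add ?_ ?_) (XX_nonneg P H))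
  · apply Real.exp_le_exp.2
    rw [neg_le_neg_iff]
    exact div_le_div_of_nonneg_right hm (by positivity)
  · apply Real.exp_le_exp.2
    rw [neg_le_neg_iff]
    exact div_le_div_of_nonneg_right hm (by positivity)

theorem pt_large0 (y : G) (hy : r0 / 2 ≤ dis L y) :
    nn L S0.F y ≤ Real.exp (-(min b ((1 - 1 / 10000) * (r0 / 2) ^ 2) / (2 * S0.t))) := by
  have hr0 := P.r0_pos
  have h0 := H.p0
  have hm : min b ((1 - 1 / 10000) * (r0 / 2) ^ 2) ≤ min b ((1 - 1 / 10000) * dis L y ^ 2) := by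
    refine min_le_min le_rfl (mul_le_mul_of_nonneg_left ?_ (by norm_num))
    exact pow_le_pow_left₀ (by positivity) hy 2
  refine (nn_le P H.c0 H.p0 H.A0 H.At0 y).trans ?_
  apply Real.exp_le_exp.2
  rw [neg_le_neg_iff]
  exact div_le_div_of_nonneg_right hm (by positivity)

/-- the pointwise comparison everywhere -/
theorem pt_all {K Kd σ : ℝ} (hDK : Dd ≤ K) (hK : 0 ≤ K) (hσ : 0 < σ)
    (hKd : ∀ y : G, dis L y ≤ Kd) (y : G) :
    |nn L S1.F y - nn L S0.F y + (1 / S1.t - 1 / S0.t) / 2 * (dis L y ^ 2 * nn L S0.F y)| ≤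
      3 / 4 * |1 / S1.t - 1 / S0.t| * σ * (dis L y ^ 2 * nn L S0.F y) +
      (3 / 4 * |1 / S1.t - 1 / S0.t| / σ + 2 * Dd + (2 * (1 / S1.t - 1 / S0.t) ^ 2 + 8 * K * Dd)) *
        (dis L y ^ 4 * nn L S0.F y) +
      (2 * (1 / S1.t - 1 / S0.t) ^ 2 + 8 * K * Dd) * (dis L y ^ 4 * nn L S1.F y) +
      (XX r0 T Dd E + |1 / S1.t - 1 / S0.t| * Kd ^ 2) *
        (Real.exp (-(min b ((1 - 1 / 10000) * (r0 / 2) ^ 2) / (2 * S0.t))) +
          Real.exp (-(min b ((1 - 1 / 10000) * (r0 / 2) ^ 2) / (2 * S1.t)))) := by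
  have hd0 := dis_nonneg L y
  have hn0 := nn_nonneg H.c0 y
  have hn1 := nn_nonneg H.c1 y
  have hX := XX_nonneg P H
  have hD := H.D0
  obtain ⟨be, hbe⟩ : ∃ be, be = 1 / S1.t - 1 / S0.t := ⟨_, rfl⟩
  rw [← hbe]
  obtain ⟨e0, he0⟩ : ∃ e0, e0 =
    Real.exp (-(min b ((1 - 1 / 10000) * (r0 / 2) ^ 2) / (2 * S0.t))) := ⟨_, rfl⟩
  obtain ⟨e1, he1⟩ : ∃ e1, e1 =
    Real.exp (-(min b ((1 - 1 / 10000) * (r0 / 2) ^ 2) / (2 * S1.t))) := ⟨_, rfl⟩
  have he00 : 0 < e0 := by rw [he0]; exact Real.exp_pos _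
  have he10 : 0 < e1 := by rw [he1]; exact Real.exp_pos _
  rw [← he0, ← he1]
  rcases lt_or_ge (dis L y) (r0 / 2) with hy | hy
  · have h1 := pt_small P H hDK y hy
    rw [← hbe] at h1
    have h2 : dis L y ^ 3 ≤ (σ * dis L y ^ 2 + dis L y ^ 4 / σ) / 2 := by
      have e : (σ * dis L y ^ 2 + dis L y ^ 4 / σ) / 2 - dis L y ^ 3 =
          dis L y ^ 2 * (σ - dis L y) ^ 2 / (2 * σ) := by
        field_simp
        ring
      have : 0 ≤ dis L y ^ 2 * (σ - dis L y) ^ 2 / (2 * σ) := by positivity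
      linarith
    have h3 : 3 / 2 * |be| * dis L y ^ 3 * nn L S0.F y ≤
        3 / 4 * |be| * σ * (dis L y ^ 2 * nn L S0.F y) +
          3 / 4 * |be| / σ * (dis L y ^ 4 * nn L S0.F y) := by
      have h4 := mul_le_mul_of_nonneg_left h2 (show 0 ≤ 3 / 2 * |be| by positivity)
      have h5 := mul_le_mul_of_nonneg_right h4 hn0
      refine h5.trans (le_of_eq ?_)
      field_simp
      ring
    have h4 : 0 ≤ (XX r0 T Dd E + |be| * Kd ^ 2) * (e0 + e1) := by positivity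
    linarith
  · have h1 := pt_large P H y hy
    have h2 := pt_large0 P H y hy
    rw [← he0, ← he1] at h1
    rw [← he0] at h2
    have h3 : |be / 2 * (dis L y ^ 2 * nn L S0.F y)| ≤ |be| * Kd ^ 2 * e0 := by
      rw [abs_mul, abs_div, abs_two, abs_of_nonneg (by positivity : 0 ≤ dis L y ^ 2 * nn L S0.F y)]
      have h4 : dis L y ^ 2 * nn L S0.F y ≤ Kd ^ 2 * e0 :=
        mul_le_mul (pow_le_pow_left₀ hd0 (hKd y) 2) h2 hn0 (by positivity)
      calc |be| / 2 * (dis L y ^ 2 * nn L S0.F y) ≤ |be| * (Kd ^ 2 * e0) := by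
            refine mul_le_mul ?_ h4 (by positivity) (abs_nonneg _)
            linarith [abs_nonneg be]
        _ = _ := by ring
    have h4 := (abs_add_le (nn L S1.F y - nn L S0.F y) (be / 2 * (dis L y ^ 2 * nn L S0.F y)))
    have h5 : 0 ≤ |be| * Kd ^ 2 * e1 := by positivity
    have h6 : 0 ≤ 3 / 4 * |be| * σ * (dis L y ^ 2 * nn L S0.F y) := by positivity
    have h7 : 0 ≤ (3 / 4 * |be| / σ + 2 * Dd + (2 * be ^ 2 + 8 * K * Dd)) *
        (dis L y ^ 4 * nn L S0.F y) := by positivity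
    have h8 : 0 ≤ (2 * be ^ 2 + 8 * K * Dd) * (dis L y ^ 4 * nn L S1.F y) := by positivity
    linarith

end pair

end ObsL

end

end Pool.Agent.T2H04.HY
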