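import Mathlib
import Pool.Agent.T2H04.HY.ObsL2

/-!
# The running coupling determines the inverse coupling; Lipschitz bound of the densities
-/

open MeasureTheory Matrix Filter
open scoped Matrix.Norms.Frobenius Topology

namespace Pool.Agent.T2H04.HY

set_option linter.unusedSectionVars false
set_option linter.unusedVariables false

noncomputable section

variable {G : Type} [Group G] [TopologicalSpace G] [IsTopologicalGroup G] [CompactSpace G]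
  [MeasurableSpace G] [BorelSpace G] (μ : Measure G) [μ.IsHaarMeasure] [IsProbabilityMeasure μ]
  {m : Type} [Fintype m] [DecidableEq m] (L : RD G m)

namespace ObsL

open HaarAux

variable {L}

/-- lower bound of the variance -/
theorem var_lower {D : LogData m} {εg δ r0 r s b r' : ℝ} (P : Par L D εg δ r0 r s b r')
    (c1 : ℝ) (hc1 : 0 < c1) : ∃ c2 : ℝ, 0 < c2 ∧ ∀ (F : Mt m → ℂ) (t A g : ℝ), 0 < t →
      Real.sqrt t < r0 / 20 → 0 ≤ A → A * t ≤ 1 / 10 → Cls L F t A r (r0 / 4) s b (1 / 10000) →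
      c1 * t ≤ g → c2 * t ^ 2 * μ.real (bal L (Real.sqrt t)) ≤
        ∫ y, (dis L y ^ 2 - g) ^ 2 * nn L F y ∂μ := by
  obtain ⟨K, hK, hd⟩ := doubling μ L
  have hK0 : 0 < K := by linarith
  obtain ⟨a, ha⟩ : ∃ a, a = min (c1 / 2) 1 := ⟨_, rfl⟩
  have ha0 : 0 < a := by rw [ha]; exact lt_min (by positivity) one_pos
  have ha1 : a ≤ 1 := by rw [ha]; exact min_le_right _ _
  have hac : a ≤ c1 / 2 := by rw [ha]; exact min_le_left _ _
  have hsa : 0 < Real.sqrt a := Real.sqrt_pos.2 ha0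
  obtain ⟨n, hn⟩ := pow_unbounded_of_one_lt (1 / Real.sqrt a) (one_lt_two (α := ℝ))
  refine ⟨(c1 / 2) ^ 2 * Real.exp (-(51 / 100)) / K ^ n, by positivity, ?_⟩
  intro F t A g ht hts hA hAt cl hg
  have hst : 0 < Real.sqrt t := Real.sqrt_pos.2 ht
  obtain ⟨ρ, hρ⟩ : ∃ ρ, ρ = Real.sqrt a * Real.sqrt t := ⟨_, rfl⟩
  have hρ0 : 0 < ρ := by rw [hρ]; positivity
  have hsa1 : Real.sqrt a ≤ 1 := by rw [← Real.sqrt_one]; exact Real.sqrt_le_sqrt ha1
  have hρt : ρ ≤ Real.sqrt t := by rw [hρ]; exact mul_le_of_le_one_left hst.le hsa1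
  have hρ2 : ρ ^ 2 = a * t := by rw [hρ, mul_pow, Real.sq_sqrt ha0.le, Real.sq_sqrt ht.le]
  have hball : μ.real (bal L (Real.sqrt t)) ≤ K ^ n * μ.real (bal L ρ) := by
    refine le_trans (measureReal_mono (bal_mono L ?_)) (doubling_pow μ L hK hd n ρ hρ0)
    rw [hρ, ← mul_assoc]
    refine le_mul_of_one_le_left hst.le ?_
    rw [div_lt_iff₀ hsa] at hn
    exact hn.le
  have hc : Continuous (nn L F) := nn_cont cl
  have hdc := dis_cont L
  have hcv : Continuous fun y : G => (dis L y ^ 2 - g) ^ 2 * nn L F y := by fun_prop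
  have hnnn : ∀ y, 0 ≤ (dis L y ^ 2 - g) ^ 2 * nn L F y := fun y =>
    mul_nonneg (sq_nonneg _) (nn_nonneg cl y)
  have h3 : ∫ y in bal L ρ, (dis L y ^ 2 - g) ^ 2 * nn L F y ∂μ ≤
      ∫ y, (dis L y ^ 2 - g) ^ 2 * nn L F y ∂μ :=
    setIntegral_le_integral (intg μ hcv) (Filter.Eventually.of_forall hnnn)
  have h4 : ∫ y in bal L ρ, ((c1 / 2 * t) ^ 2 * Real.exp (-(51 / 100))) ∂μ ≤
      ∫ y in bal L ρ, (dis L y ^ 2 - g) ^ 2 * nn L F y ∂μ := by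
    refine setIntegral_mono_on (integrable_const _).integrableOn (intg μ hcv).integrableOn
      (isOpen_bal L ρ).measurableSet fun y hy => ?_
    have hy' : dis L y < ρ := hy
    have hd0 := dis_nonneg L y
    have hd2 : dis L y ^ 2 ≤ a * t := by
      rw [← hρ2]
      exact pow_le_pow_left₀ hd0 hy'.le 2
    refine mul_le_mul ?_ ?_ (Real.exp_pos _).le (sq_nonneg _)
    · have h5 : c1 / 2 * t ≤ g - dis L y ^ 2 := by nlinarith
      have h6 := pow_le_pow_left₀ (by positivity) h5 2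
      calc (c1 / 2 * t) ^ 2 ≤ (g - dis L y ^ 2) ^ 2 := h6
        _ = _ := by ring
    · refine le_trans (Real.exp_le_exp.2 ?_) (nn_lower P cl ht hA hAt y (by linarith))
      have h6 : dis L y ^ 2 / t ≤ 1 := by
        rw [div_le_one ht]
        nlinarith
      linarith
  rw [setIntegral_const, smul_eq_mul] at h4
  refine le_trans ?_ (h4.trans h3)
  have h5 : μ.real (bal L (Real.sqrt t)) / K ^ n ≤ μ.real (bal L ρ) := by
    rw [div_le_iff₀ (by positivity), mul_comm]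
    exact hball
  calc (c1 / 2) ^ 2 * Real.exp (-(51 / 100)) / K ^ n * t ^ 2 * μ.real (bal L (Real.sqrt t)) =
        (μ.real (bal L (Real.sqrt t)) / K ^ n) * ((c1 / 2 * t) ^ 2 * Real.exp (-(51 / 100))) := by
          ring
    _ ≤ _ := mul_le_mul_of_nonneg_right h5 (by positivity)

omit [IsTopologicalGroup G] [CompactSpace G] [BorelSpace G] [Group G] [TopologicalSpace G]
  [μ.IsHaarMeasure] [IsProbabilityMeasure μ] in
theorem int_three {f1 f2 f3 : G → ℝ} (c : ℝ) (h1 : Integrable f1 μ) (h2 : Integrable f2 μ)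
    (h3 : Integrable f3 μ) :
    ∫ y, ((f1 y - f2 y) + c * f3 y) ∂μ = ∫ y, f1 y ∂μ - ∫ y, f2 y ∂μ + c * ∫ y, f3 y ∂μ := by
  rw [← integral_sub h1 h2, ← integral_const_mul]
  exact integral_add (h1.sub h2) (h3.const_mul c)

omit [IsTopologicalGroup G] [CompactSpace G] [BorelSpace G] [Group G] [TopologicalSpace G]
  [μ.IsHaarMeasure] [IsProbabilityMeasure μ] in
theorem int_four {f1 f2 f3 f4 : G → ℝ} (a b c d : ℝ) (h1 : Integrable f1 μ) (h2 : Integrable f2 μ)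
    (h3 : Integrable f3 μ) (h4 : Integrable f4 μ) :
    ∫ y, (a * f1 y + b * f2 y + c * f3 y + d * f4 y) ∂μ =
      a * ∫ y, f1 y ∂μ + b * ∫ y, f2 y ∂μ + c * ∫ y, f3 y ∂μ + d * ∫ y, f4 y ∂μ := by
  have e1 := integral_add (h1.const_mul a) (h2.const_mul b)
  have e2 := integral_add ((h1.const_mul a).add (h2.const_mul b)) (h3.const_mul c)
  have e3 := integral_add (((h1.const_mul a).add (h2.const_mul b)).add (h3.const_mul c))
    (h4.const_mul d)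
  simp only [Pi.add_apply] at e1 e2 e3
  rw [e3, e2, e1, integral_const_mul, integral_const_mul, integral_const_mul, integral_const_mul]

end ObsL

open HaarAux in
/-- The difference of the inverse couplings is controlled by the difference of the running
couplings. -/
theorem obs_lip {D : LogData m} {εg δ r0 r s b r' : ℝ} (P : Par L D εg δ r0 r s b r')
    (hne : ∃ X ∈ lieSet L, X ≠ 0) (K : ℝ) (hK : 0 < K) :
    ∃ C ts : ℝ, 0 < C ∧ 0 < ts ∧ ∀ (S0 S1 : St L) (A Dd E : ℝ),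
      PairH L r0 r s b S0 S1 A |1 / S1.t - 1 / S0.t| Dd E → S0.t ≤ ts → S1.t ≤ ts →
      |1 / S1.t - 1 / S0.t| * S0.t ≤ ts → Dd ≤ K → E ≤ K →
      |1 / S1.t - 1 / S0.t| ≤ C * (|g2 μ L (nres μ L S1.F) - g2 μ L (nres μ L S0.F)| / S0.t ^ 2 +
        S0.t * (Dd + E)) := by
  obtain ⟨Cm, hCm0, hCm⟩ := ObsL.moments3 μ L b (Obs.b_pos P)
  obtain ⟨Ko, hKo, hdb⟩ := doubling μ L
  obtain ⟨c0, hc0, p, hp⟩ := bal_lower μ L
  obtain ⟨C1, c1, ts1, p1, hC1, hc1, hts1, hobs⟩ := obs μ L P hne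
  obtain ⟨c2, hc2, hvar⟩ := ObsL.var_lower μ P c1 hc1
  have hr0 := P.r0_pos
  have hr01 := P.r0_le
  have hb := Obs.b_pos P
  obtain ⟨bb, hbb⟩ : ∃ bb, bb = min b ((1 - 1 / 10000) * (r0 / 2) ^ 2) := ⟨_, rfl⟩
  have hbb0 : 0 < bb := by
    rw [hbb]
    exact lt_min hb (mul_pos (by norm_num) (by positivity))
  obtain ⟨C', hC', hexp⟩ := Obs.exp_small bb hbb0 (p + 3)
  obtain ⟨Kd, hKd1, hKd⟩ : ∃ K : ℝ, 1 ≤ K ∧ ∀ y : G, dis L y ≤ K :=
    ⟨max 1 (uB m + ‖(1 : Mt m)‖), le_max_left _ _, fun y => (dis_le L y).trans (le_max_right _ _)⟩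
  obtain ⟨C3, hC3⟩ : ∃ C3, C3 = Cm * (8 + 4 * C1) * Ko := ⟨_, rfl⟩
  obtain ⟨C4, hC4⟩ : ∃ C4, C4 = C' * (1 + 2 ^ (p + 3)) / c0 := ⟨_, rfl⟩
  obtain ⟨C5, hC5⟩ : ∃ C5, C5 = C4 * (Kd ^ 2 + C1) := ⟨_, rfl⟩
  obtain ⟨C6, hC6⟩ : ∃ C6, C6 = 3 / 2 * C3 + 4 * C3 + C5 * (1 + Kd ^ 2) := ⟨_, rfl⟩
  obtain ⟨C7, hC7⟩ : ∃ C7, C7 = (2 + 16 * K) * C3 + C5 := ⟨_, rfl⟩
  have hKo0 : 0 < Ko := by linarith
  have hKd0 : 0 < Kd := by linarith
  have hC30 : 0 < C3 := by rw [hC3]; positivity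
  have hC40 : 0 < C4 := by rw [hC4]; positivity
  have hC50 : 0 < C5 := by rw [hC5]; positivity
  have hC60 : 0 < C6 := by rw [hC6]; positivity
  have hC70 : 0 < C7 := by rw [hC7]; positivity
  refine ⟨4 / c2 * (Cm * Ko + C7), min (min ts1 (1 / 2)) (min ((r0 / 40) ^ 2) ((c2 / (4 * C6)) ^ 2)),
    by positivity, by positivity, ?_⟩
  intro S0 S1 A Dd E H ht0s ht1s hbt hDK hEK
  obtain ⟨t0, ht0⟩ : ∃ t0, t0 = S0.t := ⟨_, rfl⟩
  obtain ⟨t1, ht1⟩ : ∃ t1, t1 = S1.t := ⟨_, rfl⟩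
  obtain ⟨be, hbe⟩ : ∃ be, be = 1 / t1 - 1 / t0 := ⟨_, rfl⟩
  have hbe' : 1 / S1.t - 1 / S0.t = be := by rw [hbe, ht0, ht1]
  have hp0 : 0 < t0 := by rw [ht0]; exact H.p0
  have hp1 : 0 < t1 := by rw [ht1]; exact H.p1
  have hD0 := H.D0
  have hE0 := H.E0
  rw [hbe'] at hbt H ⊢
  rw [← ht0] at ht0s hbt ⊢
  rw [← ht1] at ht1s
  have hsmall : ∀ t : ℝ, 0 < t → t ≤ min (min ts1 (1 / 2))
      (min ((r0 / 40) ^ 2) ((c2 / (4 * C6)) ^ 2)) → Real.sqrt t < r0 / 20 ∧ t ≤ 1 / 2 ∧ t ≤ ts1 ∧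
        Real.sqrt t ≤ c2 / (4 * C6) := by
    intro t ht hts
    refine ⟨?_, hts.trans ((min_le_left _ _).trans (min_le_right _ _)),
      hts.trans ((min_le_left _ _).trans (min_le_left _ _)), ?_⟩
    · have h1 : Real.sqrt t ≤ r0 / 40 := by
        rw [← Real.sqrt_sq (show (0 : ℝ) ≤ r0 / 40 by positivity)]
        exact Real.sqrt_le_sqrt (hts.trans ((min_le_right _ _).trans (min_le_left _ _)))
      linarith
    · rw [← Real.sqrt_sq (show (0 : ℝ) ≤ c2 / (4 * C6) by positivity)]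
      exact Real.sqrt_le_sqrt (hts.trans ((min_le_right _ _).trans (min_le_right _ _)))
  obtain ⟨hs0, ht0h, ht0t, hs0c⟩ := hsmall t0 hp0 ht0s
  obtain ⟨hs1, ht1h, ht1t, hs1c⟩ := hsmall t1 hp1 ht1s
  have hbt2 : |be| * t0 ≤ 1 / 2 := hbt.trans ((min_le_left _ _).trans (min_le_right _ _))
  have hbtc : |be| * t0 ≤ (c2 / (4 * C6)) ^ 2 :=
    hbt.trans ((min_le_right _ _).trans (min_le_right _ _))
  -- comparison of t1 and t0
  have ht10 : t1 ≤ 2 * t0 := by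
    have h1 : be = 1 / t1 - 1 / t0 := hbe
    have h2 : -(1 / 2) ≤ be * t0 := by
      have h5 := mul_le_mul_of_nonneg_right (neg_abs_le be) hp0.le
      linarith only [h5, hbt2]
    have h3 : be * t0 = t0 / t1 - 1 := by rw [h1]; field_simp
    have h4 : 1 / 2 ≤ t0 / t1 := by linarith only [h2, h3]
    rw [le_div_iff₀ hp1] at h4
    linarith only [h4]
  -- the classes
  have cl0 : Cls L S0.F t0 A r (r0 / 4) s b (1 / 10000) := by rw [ht0]; exact H.c0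
  have cl1 : Cls L S1.F t1 A r (r0 / 4) s b (1 / 10000) := by rw [ht1]; exact H.c1
  have hAt0 : A * t0 ≤ 1 / 10 := by rw [ht0]; exact H.At0
  have hAt1 : A * t1 ≤ 1 / 10 := by rw [ht1]; exact H.At1
  have hA := H.A0
  obtain ⟨n0, hn0⟩ : ∃ n0, n0 = ObsL.nn L S0.F := ⟨_, rfl⟩
  obtain ⟨n1, hn1⟩ : ∃ n1, n1 = ObsL.nn L S1.F := ⟨_, rfl⟩
  obtain ⟨B0, hB0⟩ : ∃ B, B = μ.real (bal L (Real.sqrt t0)) := ⟨_, rfl⟩
  obtain ⟨B1, hB1⟩ : ∃ B, B = μ.real (bal L (Real.sqrt t1)) := ⟨_, rfl⟩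
  obtain ⟨W0, hW0⟩ : ∃ W, W = ∫ y, n0 y ∂μ := ⟨_, rfl⟩
  obtain ⟨W1, hW1⟩ : ∃ W, W = ∫ y, n1 y ∂μ := ⟨_, rfl⟩
  obtain ⟨g0, hg0⟩ : ∃ g, g = g2 μ L (nres μ L S0.F) := ⟨_, rfl⟩
  obtain ⟨g1, hg1⟩ : ∃ g, g = g2 μ L (nres μ L S1.F) := ⟨_, rfl⟩
  rw [← hg0, ← hg1]
  have hst0 : 0 < Real.sqrt t0 := Real.sqrt_pos.2 hp0
  have hst1 : 0 < Real.sqrt t1 := Real.sqrt_pos.2 hp1
  have hsq0 : Real.sqrt t0 * Real.sqrt t0 = t0 := Real.mul_self_sqrt hp0.le
  have hst01 : Real.sqrt t0 ≤ 1 := by linarith only [hs0, hr01]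
  have hts0 : t0 ≤ Real.sqrt t0 := by nlinarith only [hsq0, hst0, hst01]
  have hB00 : 0 < B0 := by rw [hB0]; exact bal_pos μ L _ hst0
  have hB10 : 0 < B1 := by rw [hB1]; exact bal_pos μ L _ hst1
  have hB01 : B1 ≤ Ko * B0 := by
    rw [hB0, hB1]
    refine le_trans (measureReal_mono (bal_mono L ?_)) (hdb _ hst0)
    have h1 : Real.sqrt t1 ≤ Real.sqrt (2 ^ 2 * t0) := Real.sqrt_le_sqrt (by linarith only [ht10, hp0])
    rwa [Real.sqrt_mul (by positivity), Real.sqrt_sq (by norm_num)] at h1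
  have hn0c : Continuous n0 := by rw [hn0]; exact ObsL.nn_cont cl0
  have hn1c : Continuous n1 := by rw [hn1]; exact ObsL.nn_cont cl1
  have hn00 : ∀ y, 0 ≤ n0 y := by rw [hn0]; exact fun y => ObsL.nn_nonneg cl0 y
  have hn10 : ∀ y, 0 ≤ n1 y := by rw [hn1]; exact fun y => ObsL.nn_nonneg cl1 y
  have hW00 : 0 < W0 := by
    have h1 := ObsL.nn_int_lower μ P cl0 hp0 hA hAt0 hs0
    rw [← hB0, ← hn0, ← hW0] at h1
    have h2 : 0 < Real.exp (-(51 / 100)) * B0 := by positivity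
    exact lt_of_lt_of_le h2 h1
  have hW10 : 0 < W1 := by
    have h1 := ObsL.nn_int_lower μ P cl1 hp1 hA hAt1 hs1
    rw [← hB1, ← hn1, ← hW1] at h1
    have h2 : 0 < Real.exp (-(51 / 100)) * B1 := by positivity
    exact lt_of_lt_of_le h2 h1
  have hm0 : ∀ j ≤ 3, ∫ y, dis L y ^ (2 * j) * n0 y ∂μ ≤ Cm * t0 ^ j * B0 := by
    intro j hj
    rw [hn0, hB0]
    exact ObsL.nn_mom μ P cl0 hp0 hA hAt0 hCm (by linarith only [ht0h]) j hj
  have hm1 : ∀ j ≤ 3, ∫ y, dis L y ^ (2 * j) * n1 y ∂μ ≤ Cm * t1 ^ j * B1 := by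
    intro j hj
    rw [hn1, hB1]
    exact ObsL.nn_mom μ P cl1 hp1 hA hAt1 hCm (by linarith only [ht1h]) j hj
  have hg0e : g0 = (∫ y, dis L y ^ 2 * n0 y ∂μ) / W0 := by
    rw [hg0, hW0, hn0]
    exact ObsL.g2_eq μ P cl0 hp0 hA hAt0 hs0
  have hg1e : g1 = (∫ y, dis L y ^ 2 * n1 y ∂μ) / W1 := by
    rw [hg1, hW1, hn1]
    exact ObsL.g2_eq μ P cl1 hp1 hA hAt1 hs1
  obtain ⟨-, -, -, -, -, -, hlo, hhi⟩ := hobs S0.F t0 A hp0 ht0t hA hAt0 cl0
  have hlo' : c1 * t0 ≤ g0 := by rw [hg0]; exact hlo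
  have hhi' : g0 ≤ C1 * t0 := by rw [hg0]; exact hhi
  have hg00 : 0 ≤ g0 := le_trans (by positivity) hlo'
  have hV := hvar S0.F t0 A g0 hp0 hs0 hA hAt0 cl0 hlo'
  rw [← hB0, ← hn0] at hV
  have hdc := dis_cont L
  have hC3lo : Cm * (1 + C1) ≤ C3 := by
    rw [hC3]
    have h1 : Cm * (1 + C1) ≤ Cm * (8 + 4 * C1) :=
      mul_le_mul_of_nonneg_left (by linarith only [hC1]) hCm0.le
    exact h1.trans (le_mul_of_one_le_right (by positivity) hKo)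
  -- the identity
  have hi0 : ∫ y, (dis L y ^ 2 - g0) * n0 y ∂μ = 0 := by
    have e : ∀ y, (dis L y ^ 2 - g0) * n0 y = dis L y ^ 2 * n0 y - g0 * n0 y := fun y => by ring
    simp only [e]
    have hc2 : Continuous fun y => dis L y ^ 2 * n0 y := by fun_prop
    rw [integral_sub (intg μ hc2) (intg μ (hn0c.const_mul _)), integral_const_mul, ← hW0, hg0e]
    field_simp
    ring
  have hi1 : ∫ y, (dis L y ^ 2 - g0) * n1 y ∂μ = (g1 - g0) * W1 := by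
    have e : ∀ y, (dis L y ^ 2 - g0) * n1 y = dis L y ^ 2 * n1 y - g0 * n1 y := fun y => by ring
    simp only [e]
    have hc2 : Continuous fun y => dis L y ^ 2 * n1 y := by fun_prop
    rw [integral_sub (intg μ hc2) (intg μ (hn1c.const_mul _)), integral_const_mul, ← hW1, hg1e]
    field_simp
  have hiV : ∫ y, (dis L y ^ 2 - g0) * (dis L y ^ 2 * n0 y) ∂μ =
      ∫ y, (dis L y ^ 2 - g0) ^ 2 * n0 y ∂μ := by
    have e : ∀ y, (dis L y ^ 2 - g0) * (dis L y ^ 2 * n0 y) =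
        (dis L y ^ 2 - g0) ^ 2 * n0 y + g0 * ((dis L y ^ 2 - g0) * n0 y) := fun y => by ring
    simp only [e]
    have hc2 : Continuous fun y => (dis L y ^ 2 - g0) ^ 2 * n0 y := by fun_prop
    have hc3 : Continuous fun y => (dis L y ^ 2 - g0) * n0 y := by fun_prop
    rw [integral_add (intg μ hc2) (intg μ (hc3.const_mul _)), integral_const_mul, hi0, mul_zero,
      add_zero]
  obtain ⟨V, hVd⟩ : ∃ V, V = ∫ y, (dis L y ^ 2 - g0) ^ 2 * n0 y ∂μ := ⟨_, rfl⟩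
  rw [← hVd] at hV hiV
  obtain ⟨e0, he0⟩ : ∃ e0, e0 = Real.exp (-(bb / (2 * t0))) := ⟨_, rfl⟩
  obtain ⟨e1, he1⟩ : ∃ e1, e1 = Real.exp (-(bb / (2 * t1))) := ⟨_, rfl⟩
  obtain ⟨X, hX⟩ : ∃ X, X = XX r0 |be| Dd E + |be| * Kd ^ 2 := ⟨_, rfl⟩
  have he00 : 0 < e0 := by rw [he0]; exact Real.exp_pos _
  have he10 : 0 < e1 := by rw [he1]; exact Real.exp_pos _
  have hX0 : 0 ≤ X := by
    rw [hX]
    have := ObsL.XX_nonneg P H
    positivity
  -- the pointwise bound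
  have hpt : ∀ y, |n1 y - n0 y + be / 2 * (dis L y ^ 2 * n0 y)| ≤
      3 / 4 * |be| * Real.sqrt t0 * (dis L y ^ 2 * n0 y) +
      (3 / 4 * |be| / Real.sqrt t0 + 2 * Dd + (2 * be ^ 2 + 8 * K * Dd)) *
        (dis L y ^ 4 * n0 y) +
      (2 * be ^ 2 + 8 * K * Dd) * (dis L y ^ 4 * n1 y) + X * (e0 + e1) := by
    intro y
    have h := ObsL.pt_all P H hDK hK.le hst0 hKd y
    rw [hbe', ← hbb, ← ht0, ← ht1, ← he0, ← he1, ← hX, ← hn0, ← hn1] at h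
    exact h
  -- integrate
  have hQ2 : ∫ y, (dis L y ^ 2 + g0) * (dis L y ^ 2 * n0 y) ∂μ ≤ C3 * t0 ^ 2 * B0 := by
    have e : ∀ y, (dis L y ^ 2 + g0) * (dis L y ^ 2 * n0 y) =
        dis L y ^ (2 * 2) * n0 y + g0 * (dis L y ^ (2 * 1) * n0 y) := fun y => by ring
    simp only [e]
    have hc2 : Continuous fun y => dis L y ^ (2 * 2) * n0 y := by fun_prop
    have hc3 : Continuous fun y => dis L y ^ (2 * 1) * n0 y := by fun_prop
    rw [integral_add (intg μ hc2) (intg μ (hc3.const_mul _)), integral_const_mul]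
    have a1 := hm0 2 (by norm_num)
    have a2 := hm0 1 (by norm_num)
    have a3 : g0 * ∫ y, dis L y ^ (2 * 1) * n0 y ∂μ ≤ C1 * t0 * (Cm * t0 ^ 1 * B0) :=
      mul_le_mul hhi' a2 (integral_nonneg fun y =>
        mul_nonneg (pow_nonneg (dis_nonneg L y) _) (hn00 y)) (by positivity)
    have a5 := mul_le_mul_of_nonneg_right hC3lo (show 0 ≤ t0 ^ 2 * B0 by positivity)
    calc _ ≤ Cm * t0 ^ 2 * B0 + C1 * t0 * (Cm * t0 ^ 1 * B0) := add_le_add a1 a3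
      _ = Cm * (1 + C1) * (t0 ^ 2 * B0) := by ring
      _ ≤ C3 * (t0 ^ 2 * B0) := a5
      _ = _ := by ring
  have hQ30 : ∫ y, (dis L y ^ 2 + g0) * (dis L y ^ 4 * n0 y) ∂μ ≤ C3 * t0 ^ 3 * B0 := by
    have e : ∀ y, (dis L y ^ 2 + g0) * (dis L y ^ 4 * n0 y) =
        dis L y ^ (2 * 3) * n0 y + g0 * (dis L y ^ (2 * 2) * n0 y) := fun y => by ring
    simp only [e]
    have hc2 : Continuous fun y => dis L y ^ (2 * 3) * n0 y := by fun_prop
    have hc3 : Continuous fun y => dis L y ^ (2 * 2) * n0 y := by fun_prop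
    rw [integral_add (intg μ hc2) (intg μ (hc3.const_mul _)), integral_const_mul]
    have a1 := hm0 3 (by norm_num)
    have a2 := hm0 2 (by norm_num)
    have a3 : g0 * ∫ y, dis L y ^ (2 * 2) * n0 y ∂μ ≤ C1 * t0 * (Cm * t0 ^ 2 * B0) :=
      mul_le_mul hhi' a2 (integral_nonneg fun y =>
        mul_nonneg (pow_nonneg (dis_nonneg L y) _) (hn00 y)) (by positivity)
    have a5 := mul_le_mul_of_nonneg_right hC3lo (show 0 ≤ t0 ^ 3 * B0 by positivity)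
    calc _ ≤ Cm * t0 ^ 3 * B0 + C1 * t0 * (Cm * t0 ^ 2 * B0) := add_le_add a1 a3
      _ = Cm * (1 + C1) * (t0 ^ 3 * B0) := by ring
      _ ≤ C3 * (t0 ^ 3 * B0) := a5
      _ = _ := by ring
  have hQ31 : ∫ y, (dis L y ^ 2 + g0) * (dis L y ^ 4 * n1 y) ∂μ ≤ C3 * t0 ^ 3 * B0 := by
    have e : ∀ y, (dis L y ^ 2 + g0) * (dis L y ^ 4 * n1 y) =
        dis L y ^ (2 * 3) * n1 y + g0 * (dis L y ^ (2 * 2) * n1 y) := fun y => by ring
    simp only [e]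
    have hc2 : Continuous fun y => dis L y ^ (2 * 3) * n1 y := by fun_prop
    have hc3 : Continuous fun y => dis L y ^ (2 * 2) * n1 y := by fun_prop
    rw [integral_add (intg μ hc2) (intg μ (hc3.const_mul _)), integral_const_mul]
    have b1 : t1 ^ 3 ≤ 8 * t0 ^ 3 := by
      have := pow_le_pow_left₀ hp1.le ht10 3
      calc t1 ^ 3 ≤ (2 * t0) ^ 3 := this
        _ = _ := by ring
    have b2 : t1 ^ 2 ≤ 4 * t0 ^ 2 := by
      have := pow_le_pow_left₀ hp1.le ht10 2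
      calc t1 ^ 2 ≤ (2 * t0) ^ 2 := this
        _ = _ := by ring
    have a1 : ∫ y, dis L y ^ (2 * 3) * n1 y ∂μ ≤ Cm * (8 * t0 ^ 3) * (Ko * B0) := by
      refine (hm1 3 (by norm_num)).trans ?_
      exact mul_le_mul (mul_le_mul_of_nonneg_left b1 hCm0.le) hB01 hB10.le (by positivity)
    have a2 : ∫ y, dis L y ^ (2 * 2) * n1 y ∂μ ≤ Cm * (4 * t0 ^ 2) * (Ko * B0) := by
      refine (hm1 2 (by norm_num)).trans ?_
      exact mul_le_mul (mul_le_mul_of_nonneg_left b2 hCm0.le) hB01 hB10.le (by positivity)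
    have a3 : g0 * ∫ y, dis L y ^ (2 * 2) * n1 y ∂μ ≤ C1 * t0 * (Cm * (4 * t0 ^ 2) * (Ko * B0)) :=
      mul_le_mul hhi' a2 (integral_nonneg fun y =>
        mul_nonneg (pow_nonneg (dis_nonneg L y) _) (hn10 y)) (by positivity)
    refine (add_le_add a1 a3).trans (le_of_eq ?_)
    rw [hC3]
    ring
  have hQe : ∫ y, (dis L y ^ 2 + g0) ∂μ ≤ Kd ^ 2 + C1 := by
    have h1 : ∫ y, (dis L y ^ 2 + g0) ∂μ ≤ ∫ _y : G, (Kd ^ 2 + C1) ∂μ := by
      refine integral_mono (intg μ (by fun_prop)) (integrable_const _) fun y => ?_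
      have h2 := pow_le_pow_left₀ (dis_nonneg L y) (hKd y) 2
      have h3 : g0 ≤ C1 := hhi'.trans (mul_le_of_le_one_right hC1.le (by linarith only [ht0h]))
      exact add_le_add h2 h3
    rwa [integral_const, probReal_univ, one_smul] at h1
  have hee : e0 + e1 ≤ C4 * t0 ^ 3 * B0 := by
    have h5 := hp _ hst0 hst01
    have e2 : Real.sqrt t0 ^ p ≤ B0 / c0 := by
      rw [le_div_iff₀ hc0, mul_comm, hB0]; exact h5
    have h6 : t0 ^ p ≤ B0 / c0 := (pow_le_pow_left₀ hp0.le hts0 p).trans e2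
    have h7 : e0 ≤ C' * t0 ^ (p + 3) := by rw [he0]; exact hexp t0 hp0
    have h8 : e1 ≤ C' * (2 * t0) ^ (p + 3) := by
      rw [he1]
      exact (hexp t1 hp1).trans (mul_le_mul_of_nonneg_left (pow_le_pow_left₀ hp1.le ht10 _) hC'.le)
    have h9 : e0 + e1 ≤ C' * (1 + 2 ^ (p + 3)) * (t0 ^ 3 * t0 ^ p) := by
      have e3 : C' * (1 + 2 ^ (p + 3)) * (t0 ^ 3 * t0 ^ p) =
          C' * t0 ^ (p + 3) + C' * (2 * t0) ^ (p + 3) := by
        rw [mul_pow, pow_add t0 p 3]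
        ring
      rw [e3]
      exact add_le_add h7 h8
    refine h9.trans ?_
    have h10 := mul_le_mul_of_nonneg_left h6 (show 0 ≤ C' * (1 + 2 ^ (p + 3)) * t0 ^ 3 by positivity)
    calc C' * (1 + 2 ^ (p + 3)) * (t0 ^ 3 * t0 ^ p) =
        C' * (1 + 2 ^ (p + 3)) * t0 ^ 3 * t0 ^ p := by ring
      _ ≤ C' * (1 + 2 ^ (p + 3)) * t0 ^ 3 * (B0 / c0) := h10
      _ = _ := by rw [hC4]; ring
  have hmain : |(g1 - g0) * W1 + be / 2 * V| ≤
      3 / 4 * |be| * Real.sqrt t0 * (C3 * t0 ^ 2 * B0) +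
      (3 / 4 * |be| / Real.sqrt t0 + 2 * Dd + (2 * be ^ 2 + 8 * K * Dd)) *
        (C3 * t0 ^ 3 * B0) +
      (2 * be ^ 2 + 8 * K * Dd) * (C3 * t0 ^ 3 * B0) +
      X * (C4 * t0 ^ 3 * B0) * (Kd ^ 2 + C1) := by
    have e : (g1 - g0) * W1 + be / 2 * V =
        ∫ y, (dis L y ^ 2 - g0) * (n1 y - n0 y + be / 2 * (dis L y ^ 2 * n0 y)) ∂μ := by
      have e1 : ∀ y, (dis L y ^ 2 - g0) * (n1 y - n0 y + be / 2 * (dis L y ^ 2 * n0 y)) =
          ((dis L y ^ 2 - g0) * n1 y - (dis L y ^ 2 - g0) * n0 y) +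
            be / 2 * ((dis L y ^ 2 - g0) * (dis L y ^ 2 * n0 y)) := fun y => by ring
      simp only [e1]
      have k1 : Continuous fun y => (dis L y ^ 2 - g0) * n1 y := by fun_prop
      have k2 : Continuous fun y => (dis L y ^ 2 - g0) * n0 y := by fun_prop
      have k3 : Continuous fun y => (dis L y ^ 2 - g0) * (dis L y ^ 2 * n0 y) := by fun_prop
      rw [ObsL.int_three μ (be / 2) (intg μ k1) (intg μ k2) (intg μ k3), hi0, hi1, hiV, sub_zero]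
    rw [e, ← Real.norm_eq_abs]
    have k2 : Continuous fun y => (dis L y ^ 2 + g0) * (dis L y ^ 2 * n0 y) := by fun_prop
    have k3 : Continuous fun y => (dis L y ^ 2 + g0) * (dis L y ^ 4 * n0 y) := by fun_prop
    have k4 : Continuous fun y => (dis L y ^ 2 + g0) * (dis L y ^ 4 * n1 y) := by fun_prop
    have k5 : Continuous fun y => (dis L y ^ 2 + g0) := by fun_prop
    obtain ⟨a, hadef⟩ : ∃ a, a = 3 / 4 * |be| * Real.sqrt t0 := ⟨_, rfl⟩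
    obtain ⟨a', ha'def⟩ : ∃ a, a = 3 / 4 * |be| / Real.sqrt t0 + 2 * Dd +
      (2 * be ^ 2 + 8 * K * Dd) := ⟨_, rfl⟩
    obtain ⟨a'', ha''def⟩ : ∃ a, a = 2 * be ^ 2 + 8 * K * Dd := ⟨_, rfl⟩
    have ha0 : 0 ≤ a := by rw [hadef]; positivity
    have ha'0 : 0 ≤ a' := by rw [ha'def]; positivity
    have ha''0 : 0 ≤ a'' := by rw [ha''def]; positivity
    have h1 := norm_integral_le_of_norm_le (μ := μ)
      (f := fun y => (dis L y ^ 2 - g0) * (n1 y - n0 y + be / 2 * (dis L y ^ 2 * n0 y)))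
      (g := fun y => a * ((dis L y ^ 2 + g0) * (dis L y ^ 2 * n0 y)) +
        a' * ((dis L y ^ 2 + g0) * (dis L y ^ 4 * n0 y)) +
        a'' * ((dis L y ^ 2 + g0) * (dis L y ^ 4 * n1 y)) +
        X * (e0 + e1) * (dis L y ^ 2 + g0))
      (((((intg μ k2).const_mul _).add ((intg μ k3).const_mul _)).add
        ((intg μ k4).const_mul _)).add ((intg μ k5).const_mul _))
      (Filter.Eventually.of_forall fun y => by
        rw [norm_mul, Real.norm_eq_abs, Real.norm_eq_abs]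
        have h2 : |dis L y ^ 2 - g0| ≤ dis L y ^ 2 + g0 := by
          refine (abs_sub _ _).trans ?_
          rw [abs_of_nonneg (sq_nonneg _), abs_of_nonneg hg00]
        have h3 := hpt y
        rw [← hadef, ← ha'def, ← ha''def] at h3
        calc |dis L y ^ 2 - g0| * |n1 y - n0 y + be / 2 * (dis L y ^ 2 * n0 y)| ≤
              (dis L y ^ 2 + g0) * (a * (dis L y ^ 2 * n0 y) + a' * (dis L y ^ 4 * n0 y) +
              a'' * (dis L y ^ 4 * n1 y) + X * (e0 + e1)) :=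
              mul_le_mul h2 h3 (abs_nonneg _) (by positivity)
          _ = _ := by ring)
    refine h1.trans ?_
    rw [ObsL.int_four μ a a' a'' (X * (e0 + e1)) (intg μ k2) (intg μ k3) (intg μ k4) (intg μ k5)]
    rw [← hadef, ← ha'def, ← ha''def]
    have q1 := mul_le_mul_of_nonneg_left hQ2 ha0
    have q2 := mul_le_mul_of_nonneg_left hQ30 ha'0
    have q3 := mul_le_mul_of_nonneg_left hQ31 ha''0
    have q4 : X * (e0 + e1) * ∫ y, (dis L y ^ 2 + g0) ∂μ ≤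
        X * (C4 * t0 ^ 3 * B0) * (Kd ^ 2 + C1) :=
      mul_le_mul (mul_le_mul_of_nonneg_left hee hX0) hQe
        (integral_nonneg fun y => by have := dis_nonneg L y; positivity) (by positivity)
    linarith only [q1, q2, q3, q4]
  have hW1up : W1 ≤ Cm * (Ko * B0) := by
    have h1 := hm1 0 (by norm_num)
    simp only [mul_zero, pow_zero, one_mul, mul_one] at h1
    rw [← hW1] at h1
    exact h1.trans (mul_le_mul_of_nonneg_left hB01 hCm0.le)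
  have hXle : X ≤ |be| * (1 + Kd ^ 2) + Dd + E := by
    rw [hX]
    unfold XX
    have h1 : r0 ^ 2 ≤ 1 := pow_le_one₀ hr0.le (by linarith only [hr01])
    have h2 : 3 * r0 ^ 4 ≤ 1 := by
      have h3 : r0 ^ 4 ≤ (1 / 2000) ^ 4 := pow_le_pow_left₀ hr0.le hr01 4
      norm_num at h3 ⊢
      linarith only [h3]
    have h3 := mul_le_mul_of_nonneg_right h1 (abs_nonneg be)
    have h4 := mul_le_mul_of_nonneg_right h2 hD0
    linarith only [h3, h4]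
  -- final arithmetic
  obtain ⟨Γ, hΓ⟩ : ∃ Γ, Γ = |g1 - g0| := ⟨_, rfl⟩
  rw [← hΓ]
  have hΓ0 : 0 ≤ Γ := by rw [hΓ]; exact abs_nonneg _
  obtain ⟨σ, hσ⟩ : ∃ σ, σ = Real.sqrt t0 := ⟨_, rfl⟩
  rw [← hσ] at hmain hs0c hsq0 hst0 hts0
  have hσt : t0 ^ 3 / σ = σ * t0 ^ 2 := by
    rw [div_eq_iff hst0.ne']
    calc t0 ^ 3 = t0 * t0 ^ 2 := by ring
      _ = (σ * σ) * t0 ^ 2 := by rw [hsq0]
      _ = _ := by ring
  have hbe0 : 0 ≤ |be| := abs_nonneg be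
  have hbsq : be ^ 2 = |be| * |be| := by rw [← sq, sq_abs]
  have hV0 : 0 ≤ V := le_trans (by positivity) hV
  -- lower bound of the left side
  have hl1 : |be| / 2 * V ≤ Γ * W1 + |(g1 - g0) * W1 + be / 2 * V| := by
    have h1 : be / 2 * V = ((g1 - g0) * W1 + be / 2 * V) - (g1 - g0) * W1 := by ring
    have h2 : |be / 2 * V| ≤ |(g1 - g0) * W1 + be / 2 * V| + |(g1 - g0) * W1| := by
      conv_lhs => rw [h1]
      exact abs_sub _ _
    rw [abs_mul, abs_mul, abs_div, abs_two, abs_of_nonneg hV0, abs_of_pos hW10, ← hΓ] at h2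
    linarith only [h2]
  have hl2 : |be| / 2 * (c2 * t0 ^ 2 * B0) ≤ |be| / 2 * V :=
    mul_le_mul_of_nonneg_left hV (by positivity)
  have hl3 : Γ * W1 ≤ Γ * (Cm * (Ko * B0)) := mul_le_mul_of_nonneg_left hW1up hΓ0
  -- upper bound of the error
  have hu1 : 3 / 4 * |be| * σ * (C3 * t0 ^ 2 * B0) +
      (3 / 4 * |be| / σ + 2 * Dd + (2 * be ^ 2 + 8 * K * Dd)) * (C3 * t0 ^ 3 * B0) +
      (2 * be ^ 2 + 8 * K * Dd) * (C3 * t0 ^ 3 * B0) +
      X * (C4 * t0 ^ 3 * B0) * (Kd ^ 2 + C1) ≤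
      (|be| * t0 ^ 2 * (c2 / 4) + C7 * (Dd + E) * t0 ^ 3) * B0 := by
    have e1 : 3 / 4 * |be| * σ * (C3 * t0 ^ 2 * B0) +
      (3 / 4 * |be| / σ + 2 * Dd + (2 * be ^ 2 + 8 * K * Dd)) * (C3 * t0 ^ 3 * B0) +
      (2 * be ^ 2 + 8 * K * Dd) * (C3 * t0 ^ 3 * B0) +
      X * (C4 * t0 ^ 3 * B0) * (Kd ^ 2 + C1) =
      (|be| * t0 ^ 2 * (3 / 4 * C3 * σ + 4 * C3 * (|be| * t0)) +
        3 / 4 * |be| * C3 * (t0 ^ 3 / σ) +
        (2 + 16 * K) * C3 * Dd * t0 ^ 3 + X * C5 * t0 ^ 3) * B0 := by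
      rw [hC5, hbsq]
      ring
    rw [e1, hσt]
    refine mul_le_mul_of_nonneg_right ?_ hB00.le
    have h1 : X * C5 * t0 ^ 3 ≤ (|be| * (1 + Kd ^ 2) + Dd + E) * C5 * t0 ^ 3 :=
      mul_le_mul_of_nonneg_right (mul_le_mul_of_nonneg_right hXle hC50.le) (by positivity)
    have h2 : |be| * t0 ^ 2 * (3 / 4 * C3 * σ + 4 * C3 * (|be| * t0)) +
        3 / 4 * |be| * C3 * (σ * t0 ^ 2) + |be| * (1 + Kd ^ 2) * C5 * t0 ^ 3 ≤
        |be| * t0 ^ 2 * (c2 / 4) := by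
      have h3 : |be| * t0 ^ 2 * (3 / 4 * C3 * σ + 4 * C3 * (|be| * t0)) +
        3 / 4 * |be| * C3 * (σ * t0 ^ 2) + |be| * (1 + Kd ^ 2) * C5 * t0 ^ 3 =
        |be| * t0 ^ 2 * (3 / 2 * C3 * σ + 4 * C3 * (|be| * t0) + C5 * (1 + Kd ^ 2) * t0) := by
        ring
      rw [h3]
      refine mul_le_mul_of_nonneg_left ?_ (by positivity)
      obtain ⟨q, hq⟩ : ∃ q, q = c2 / (4 * C6) := ⟨_, rfl⟩
      rw [← hq] at hs0c hbtc
      have hqC : C6 * q = c2 / 4 := by rw [hq]; field_simp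
      have hq0 : 0 < q := by rw [hq]; positivity
      have hbq : |be| * t0 ≤ q := by
        rcases le_or_gt q 1 with h | h
        · refine hbtc.trans ?_
          nlinarith only [h, hq0]
        · linarith only [h, hbt2]
      have k1 := mul_le_mul_of_nonneg_left hs0c (show 0 ≤ 3 / 2 * C3 by positivity)
      have k2 := mul_le_mul_of_nonneg_left hbq (show 0 ≤ 4 * C3 by positivity)
      have k3 := mul_le_mul_of_nonneg_left (hts0.trans hs0c)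
        (show 0 ≤ C5 * (1 + Kd ^ 2) by positivity)
      rw [← hqC, hC6]
      linarith only [k1, k2, k3]
    have h4 : 0 ≤ (2 + 16 * K) * C3 * E * t0 ^ 3 := by positivity
    rw [hC7]
    linarith only [h1, h2, h4]
  have hfin : |be| * t0 ^ 2 * (c2 / 4) * B0 ≤ (Cm * Ko * Γ + C7 * (Dd + E) * t0 ^ 3) * B0 := by
    have h1 := hl1.trans (add_le_add hl3 (hmain.trans hu1))
    linarith only [h1, hl2]
  have hfin2 : |be| * t0 ^ 2 * (c2 / 4) ≤ Cm * Ko * Γ + C7 * (Dd + E) * t0 ^ 3 :=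
    le_of_mul_le_mul_right hfin hB00
  have hfin3 : |be| ≤ 4 / c2 * (Cm * Ko * (Γ / t0 ^ 2) + C7 * (t0 * (Dd + E))) := by
    have e1 : 4 / c2 * (Cm * Ko * (Γ / t0 ^ 2) + C7 * (t0 * (Dd + E))) =
        (Cm * Ko * Γ + C7 * (Dd + E) * t0 ^ 3) / (t0 ^ 2 * (c2 / 4)) := by
      field_simp
    rw [e1, le_div_iff₀ (by positivity)]
    linarith only [hfin2]
  refine hfin3.trans ?_
  have h1 : 0 ≤ Γ / t0 ^ 2 := by positivity
  have h2 : 0 ≤ t0 * (Dd + E) := by positivity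
  have h3 := mul_nonneg (show 0 ≤ Cm * Ko by positivity) h2
  have h4 := mul_nonneg hC70.le h1
  have h5 : Cm * Ko * (Γ / t0 ^ 2) + C7 * (t0 * (Dd + E)) ≤
      (Cm * Ko + C7) * (Γ / t0 ^ 2 + t0 * (Dd + E)) := by linarith only [h3, h4]
  calc 4 / c2 * (Cm * Ko * (Γ / t0 ^ 2) + C7 * (t0 * (Dd + E))) ≤
      4 / c2 * ((Cm * Ko + C7) * (Γ / t0 ^ 2 + t0 * (Dd + E))) :=
        mul_le_mul_of_nonneg_left h5 (by positivity)
    _ = _ := by ring

open HaarAux in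
/-- The densities depend in a Lipschitz way on the states. -/
theorem dens_lip {D : LogData m} {εg δ r0 r s b r' : ℝ} (P : Par L D εg δ r0 r s b r')
    (hne : ∃ X ∈ lieSet L, X ≠ 0) (K : ℝ) (hK : 0 < K) :
    ∃ (C ts : ℝ) (p : ℕ), 0 < C ∧ 0 < ts ∧ ∀ (S0 S1 : St L) (A T Dd E : ℝ),
      PairH L r0 r s b S0 S1 A T Dd E → S0.t ≤ ts → S1.t ≤ ts → XX r0 T Dd E ≤ K →
      ∀ x : G, |nres μ L S1.F x - nres μ L S0.F x| ≤ C / S0.t ^ p * XX r0 T Dd E := by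
  obtain ⟨c0, hc0, p, hp⟩ := bal_lower μ L
  have hr0 := P.r0_pos
  have hr01 := P.r0_le
  obtain ⟨κ, hκ⟩ : ∃ κ, κ = Real.exp (-(51 / 100)) * c0 := ⟨_, rfl⟩
  obtain ⟨Λ, hΛ⟩ : ∃ Λ, Λ = 1 + K / r0 ^ 2 := ⟨_, rfl⟩
  have hκ0 : 0 < κ := by rw [hκ]; positivity
  have hΛ0 : 0 < Λ := by rw [hΛ]; positivity
  refine ⟨4 * Λ ^ p / κ ^ 2, (r0 / 40) ^ 2, 2 * p, by positivity, by positivity, ?_⟩
  intro S0 S1 A T Dd E H ht0s ht1s hXK x
  obtain ⟨t0, ht0⟩ : ∃ t0, t0 = S0.t := ⟨_, rfl⟩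
  obtain ⟨t1, ht1⟩ : ∃ t1, t1 = S1.t := ⟨_, rfl⟩
  have hp0 : 0 < t0 := by rw [ht0]; exact H.p0
  have hp1 : 0 < t1 := by rw [ht1]; exact H.p1
  have hD0 := H.D0
  have hE0 := H.E0
  have hT0 := H.T0
  have hA := H.A0
  have htt := H.tt
  rw [← ht0] at ht0s ⊢
  rw [← ht1] at ht1s
  have cl0 : Cls L S0.F t0 A r (r0 / 4) s b (1 / 10000) := by rw [ht0]; exact H.c0
  have cl1 : Cls L S1.F t1 A r (r0 / 4) s b (1 / 10000) := by rw [ht1]; exact H.c1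
  have hAt0 : A * t0 ≤ 1 / 10 := by rw [ht0]; exact H.At0
  have hAt1 : A * t1 ≤ 1 / 10 := by rw [ht1]; exact H.At1
  rw [← ht0, ← ht1] at htt
  have hsmall : ∀ t : ℝ, 0 < t → t ≤ (r0 / 40) ^ 2 → Real.sqrt t < r0 / 20 ∧ t ≤ 1 ∧
      t ≤ Real.sqrt t ∧ Real.sqrt t ≤ 1 := by
    intro t ht hts
    have h1 : Real.sqrt t ≤ r0 / 40 := by
      rw [← Real.sqrt_sq (show (0 : ℝ) ≤ r0 / 40 by positivity)]
      exact Real.sqrt_le_sqrt hts
    have h2 : Real.sqrt t * Real.sqrt t = t := Real.mul_self_sqrt ht.le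
    have h3 : 0 < Real.sqrt t := Real.sqrt_pos.2 ht
    have h4 : Real.sqrt t ≤ 1 := by linarith
    have h5 : t ≤ Real.sqrt t := by nlinarith
    exact ⟨by linarith, h5.trans h4, h5, h4⟩
  obtain ⟨hs0, ht01, hts0, hst0⟩ := hsmall t0 hp0 ht0s
  obtain ⟨hs1, ht11, hts1, hst1⟩ := hsmall t1 hp1 ht1s
  obtain ⟨n0, hn0⟩ : ∃ n0, n0 = ObsL.nn L S0.F := ⟨_, rfl⟩
  obtain ⟨n1, hn1⟩ : ∃ n1, n1 = ObsL.nn L S1.F := ⟨_, rfl⟩
  obtain ⟨W0, hW0⟩ : ∃ W, W = ∫ y, n0 y ∂μ := ⟨_, rfl⟩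
  obtain ⟨W1, hW1⟩ : ∃ W, W = ∫ y, n1 y ∂μ := ⟨_, rfl⟩
  obtain ⟨X, hX⟩ : ∃ X, X = XX r0 T Dd E := ⟨_, rfl⟩
  have hX0 : 0 ≤ X := by rw [hX]; exact ObsL.XX_nonneg P H
  rw [← hX] at hXK ⊢
  have hlow : ∀ t : ℝ, 0 < t → t ≤ Real.sqrt t → Real.sqrt t ≤ 1 →
      κ * t ^ p ≤ Real.exp (-(51 / 100)) * μ.real (bal L (Real.sqrt t)) := by
    intro t ht h1 h2
    have h3 := hp _ (Real.sqrt_pos.2 ht) h2
    have h4 := mul_le_mul_of_nonneg_left (pow_le_pow_left₀ ht.le h1 p) hc0.le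
    have h5 := mul_le_mul_of_nonneg_left (h4.trans h3) (Real.exp_pos (-(51 / 100))).le
    rw [hκ]
    linarith
  have hW00 : κ * t0 ^ p ≤ W0 := by
    have h1 := ObsL.nn_int_lower μ P cl0 hp0 hA hAt0 hs0
    rw [← hn0, ← hW0] at h1
    exact (hlow t0 hp0 hts0 hst0).trans h1
  have hW10 : κ * t1 ^ p ≤ W1 := by
    have h1 := ObsL.nn_int_lower μ P cl1 hp1 hA hAt1 hs1
    rw [← hn1, ← hW1] at h1
    exact (hlow t1 hp1 hts1 hst1).trans h1
  have hn0c : Continuous n0 := by rw [hn0]; exact ObsL.nn_cont cl0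
  have hn1c : Continuous n1 := by rw [hn1]; exact ObsL.nn_cont cl1
  have hn00 : ∀ y, 0 ≤ n0 y := by rw [hn0]; exact fun y => ObsL.nn_nonneg cl0 y
  have hn01 : ∀ y, n0 y ≤ 1 := by rw [hn0]; exact fun y => ObsL.nn_le_one P cl0 hp0 hA hAt0 y
  have hdiff : ∀ y, |n1 y - n0 y| ≤ 2 * X := by
    intro y
    rw [hn0, hn1, hX]
    exact ObsL.pt_ud2 P H y
  have hW0le : W0 ≤ 1 := by
    have h1 : ∫ y, n0 y ∂μ ≤ ∫ _y : G, (1 : ℝ) ∂μ :=
      integral_mono (intg μ hn0c) (integrable_const _) hn01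
    rw [integral_const, probReal_univ, one_smul] at h1
    rw [hW0]
    exact h1
  have hWd : |W1 - W0| ≤ 2 * X := by
    rw [hW0, hW1, ← integral_sub (intg μ hn1c) (intg μ hn0c), ← Real.norm_eq_abs]
    have h1 := norm_integral_le_of_norm_le (μ := μ) (f := fun y => n1 y - n0 y)
      (g := fun _ => 2 * X) (integrable_const _) (Filter.Eventually.of_forall fun y => by
        rw [Real.norm_eq_abs]; exact hdiff y)
    rwa [integral_const, probReal_univ, one_smul] at h1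
  have hW0p : 0 < W0 := lt_of_lt_of_le (by positivity) hW00
  have hW1p : 0 < W1 := lt_of_lt_of_le (by positivity) hW10
  have e0 : nres μ L S0.F x = n0 x / W0 := by
    rw [hn0, hW0, hn0]
    exact ObsL.nres_eq μ P cl0 hp0 hA hAt0 hs0 x
  have e1 : nres μ L S1.F x = n1 x / W1 := by
    rw [hn1, hW1, hn1]
    exact ObsL.nres_eq μ P cl1 hp1 hA hAt1 hs1 x
  rw [e0, e1]
  -- comparison of the times
  have hT : r0 ^ 2 * T ≤ K := by
    refine le_trans ?_ hXK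
    rw [hX]
    unfold XX
    have : 0 ≤ 3 * r0 ^ 4 * Dd := by positivity
    linarith
  have hT2 : T ≤ K / r0 ^ 2 := by
    rw [le_div_iff₀ (by positivity)]
    linarith
  have htl : t0 ≤ Λ * t1 := by
    have h1 : 1 / t1 - 1 / t0 ≤ T := (le_abs_self _).trans htt
    have h2 : 1 / t1 ≤ Λ / t0 := by
      have h3 : K / r0 ^ 2 ≤ K / r0 ^ 2 / t0 := by
        rw [le_div_iff₀ hp0]
        exact mul_le_of_le_one_right (by positivity) ht01
      have h4 : Λ / t0 = 1 / t0 + K / r0 ^ 2 / t0 := by rw [hΛ]; ring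
      rw [h4]
      linarith
    rw [div_le_div_iff₀ hp1 hp0] at h2
    linarith
  have hprod : κ ^ 2 * t0 ^ (2 * p) ≤ Λ ^ p * (W0 * W1) := by
    have h1 : t0 ^ p ≤ Λ ^ p * t1 ^ p := by
      rw [← mul_pow]
      exact pow_le_pow_left₀ hp0.le htl p
    calc κ ^ 2 * t0 ^ (2 * p) = (κ * t0 ^ p) * (κ * t0 ^ p) := by
          rw [two_mul, pow_add]; ring
      _ ≤ (κ * t0 ^ p) * (κ * (Λ ^ p * t1 ^ p)) :=
          mul_le_mul_of_nonneg_left (mul_le_mul_of_nonneg_left h1 hκ0.le) (by positivity)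
      _ = Λ ^ p * ((κ * t0 ^ p) * (κ * t1 ^ p)) := by ring
      _ ≤ Λ ^ p * (W0 * W1) :=
          mul_le_mul_of_nonneg_left (mul_le_mul hW00 hW10 (by positivity) hW0p.le) (by positivity)
  have hnum : |n1 x / W1 - n0 x / W0| ≤ 4 * X / (W0 * W1) := by
    have h1 : n1 x / W1 - n0 x / W0 = ((n1 x - n0 x) * W0 - n0 x * (W1 - W0)) / (W0 * W1) := by
      field_simp
      ring
    rw [h1, abs_div, abs_of_pos (mul_pos hW0p hW1p)]
    refine div_le_div_of_nonneg_right ?_ (by positivity)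
    refine (abs_sub _ _).trans ?_
    rw [abs_mul, abs_mul, abs_of_pos hW0p, abs_of_nonneg (hn00 x)]
    have h2 : |n1 x - n0 x| * W0 ≤ 2 * X * 1 :=
      mul_le_mul (hdiff x) hW0le hW0p.le (by positivity)
    have h3 : n0 x * |W1 - W0| ≤ 1 * (2 * X) :=
      mul_le_mul (hn01 x) hWd (abs_nonneg _) zero_le_one
    linarith
  refine hnum.trans ?_
  rw [div_le_iff₀ (by positivity)]
  have h5 : 4 * Λ ^ p / κ ^ 2 / t0 ^ (2 * p) * X * (W0 * W1) =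
      4 * X * ((Λ ^ p * (W0 * W1)) / (κ ^ 2 * t0 ^ (2 * p))) := by
    field_simp
  rw [h5]
  have h6 : 1 ≤ (Λ ^ p * (W0 * W1)) / (κ ^ 2 * t0 ^ (2 * p)) := by
    rw [one_le_div (by positivity)]
    exact hprod
  nlinarith

end

end Pool.Agent.T2H04.HY
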