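import Mathlib
import Pool.Agent.T2H04.HY.PairDefs

/-!
# Small field part of the difference of two states
-/

open MeasureTheory Matrix Filter
open scoped Matrix.Norms.Frobenius Topology

namespace Pool.Agent.T2H04.HY

set_option linter.unusedSectionVars false

noncomputable section

variable {G : Type} [Group G] [TopologicalSpace G] [IsTopologicalGroup G] [CompactSpace G]
  {m : Type} [Fintype m] [DecidableEq m] {L : RD G m}

/-- second difference of a quartic function -/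
theorem sdf_v_le {D : LogData m} {εg δ r0 r s b r' : ℝ} (P : Par L D εg δ r0 r s b r')
    {A : ℝ} {v : gC L → ℂ} (hA : 0 ≤ A) (hd : DifferentiableOn ℂ v (dom L r (r0 / 4)))
    (hev : ∀ Z ∈ dom L r (r0 / 4), v (-Z) = v Z)
    (had : ∀ g : G, ∀ Z ∈ dom L r (r0 / 4), ∀ Z' : gC L,
      (Z' : Mt m) = L.rho g * (Z : Mt m) * L.rho g⁻¹ → v Z' = v Z)
    (hle : ∀ Z ∈ dom L r (r0 / 4), ‖v Z‖ ≤ A * ‖Z‖ ^ 4)
    (Z η : gC L) (hZ : Z ∈ dom L r' (r0 / 4)) (hη : imP (η : Mt m) = 0) (hη1 : ‖η‖ < r0 / 16) :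
    ‖sdf D v Z η‖ ≤ 73728 * A * ‖Z‖ ^ 2 * ‖η‖ ^ 2 := by
  have hr0 := P.r0_pos
  have hrl := P.r_lo
  have hrh := P.r_hi
  have hrl' := P.r'_lo
  have hrh' := P.r'_hi
  have hδ := P.r0_δ
  have h2 := P.h2
  have he0 := P.e0
  have he1 := P.e1
  have hzero : v 0 = 0 := by
    have := hle 0 (zero_mem_dom (by linarith) (by positivity))
    rw [norm_zero] at this
    norm_num at this
    exact this
  have hnd : ∀ Z ∈ dom L r (r0 / 4), ‖Z‖ < 5 / 4 * r0 := fun Z hZ =>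
    norm_lt_dom hZ (by positivity) (by nlinarith)
  have hnd' : ∀ Z ∈ dom L r' (r0 / 4), ‖Z‖ < 5 / 4 * r0 := fun Z hZ =>
    norm_lt_dom hZ (by positivity) (by nlinarith)
  have key := sdf_le P.ch (V := v) (U := dom L r (r0 / 4)) (Zs := dom L r' (r0 / 4))
    (M := 3 * A * r0 ^ 4) (ρ1 := r0 / 16) (ρ2 := r0 / 4) (isOpen_dom L _ _) hd ?_ hev
    had hzero (by positivity) (by positivity)
    (ball_sub_dom (by linarith) le_rfl) (fun Z hZ => (hnd' Z hZ).trans_le (by linarith))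
    (by linarith) (fun Z hZ => (hnd Z hZ).trans_le (by linarith)) (fun Z hZ => dom_neg hZ) ?_
    Z hZ η hη hη1
  · refine key.trans (le_of_eq ?_)
    have : ∀ x y c : ℝ, 0 < c → 6 * (3 * A * c ^ 4) * (y / (c / 16)) ^ 2 * (x / (c / 4)) ^ 2 =
        73728 * A * x ^ 2 * y ^ 2 := by
      intro x y c hc
      field_simp
      ring
    exact this _ _ _ hr0
  · intro Z hZ
    refine (hle Z hZ).trans ?_
    have h1 : ‖Z‖ ^ 4 ≤ (5 / 4 * r0) ^ 4 := pow_le_pow_left₀ (norm_nonneg _) (hnd Z hZ).le 4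
    have h3 : (5 / 4 * r0) ^ 4 ≤ 3 * r0 ^ 4 := by
      have : 0 ≤ r0 ^ 4 := by positivity
      nlinarith
    calc A * ‖Z‖ ^ 4 ≤ A * (3 * r0 ^ 4) := mul_le_mul_of_nonneg_left (h1.trans h3) hA
      _ = 3 * A * r0 ^ 4 := by ring
  · intro Z hZ
    refine ⟨?_, fun W hW => ⟨?_, ?_⟩⟩
    · refine ⟨?_, ?_⟩
      · rw [coe_half, reP_half, norm_half]
        have := hZ.1
        linarith
      · rw [coe_half, imP_half, norm_half]
        have := hZ.2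
        linarith
    · exact bc_mem_dom P.ch he0 Z W hZ hW (by linarith) (by linarith) (by nlinarith)
        (by nlinarith) (by linarith) (by positivity)
    · exact ball_sub_dom (ρ := r0 / 16) (by linarith) (by linarith)
        (by rwa [mem_ball_zero_iff])

theorem sdf_sub (D : LogData m) (v w : gC L → ℂ) (Z W : gC L) :
    sdf D (fun Z => v Z - w Z) Z W = sdf D v Z W - sdf D w Z W := by
  simp only [sdf]
  ring

/-- the exponent of the integrand in the small field region -/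
theorem Ig_eq {D : LogData m} {εg δ r0 r s b r' : ℝ} (P : Par L D εg δ r0 r s b r')
    {S : St L} {A : ℝ} (cl : Cls L S.F S.t A r (r0 / 4) s b (1 / 10000))
    (hw : SFw L S.F S.t A r (r0 / 4) S.w)
    (Z : gC L) (hZ : Z ∈ dom L r' (r0 / 4)) (y : G) (η : gC L)
    (hηe : NormedSpace.exp (η : Mt m) = L.rho y) (hη16 : ‖η‖ < r0 / 16) :
    Ig L S Z y = Complex.exp (2 * (-(Qf (η : Mt m) / (2 * S.t)) - S.w η)) *
      Complex.exp (-(sdf D (fun Z : gC L => Qf (Z : Mt m)) Z η / (2 * S.t) + sdf D S.w Z η)) := by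
  have hr0 := P.r0_pos
  have hrl := P.r_lo
  have hrh := P.r_hi
  have hrl' := P.r'_lo
  have hrh' := P.r'_hi
  have hδ := P.r0_δ
  have h2 := P.h2
  have he0 := P.e0
  have he1 := P.e1
  have hbc : ∀ η' : gC L, ‖η'‖ < r0 / 16 → bc L D ((1 / 2 : ℂ) • Z) η' ∈ dom L r (r0 / 4) :=
    fun η' h => bc_mem_dom P.ch he0 Z η' hZ h (by linarith) (by linarith) (by nlinarith)
      (by nlinarith) (by linarith) (by positivity)
  have hZn : ‖Z‖ < 5 / 4 * r0 := norm_lt_dom hZ (by positivity) (by nlinarith)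
  have hZ2 : ‖(1 / 2 : ℂ) • Z‖ < δ := by rw [norm_half']; linarith
  have hηδ : ‖η‖ < δ := by linarith
  have hnη : ‖-η‖ < r0 / 16 := by rwa [norm_neg]
  have ey : L.rho y = NormedSpace.exp (η : Mt m) := hηe.symm
  have ey' : L.rho y⁻¹ = NormedSpace.exp ((-η : gC L) : Mt m) := by
    have h3 : L.rho y⁻¹ * (L.rho y * NormedSpace.exp (-(η : Mt m))) = L.rho y⁻¹ := by
      rw [ey, exp_mul_exp_neg, mul_one]
    rw [← mul_assoc, rho_inv_mul, one_mul] at h3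
    rw [NegMemClass.coe_neg]
    exact h3.symm
  have e1 : NormedSpace.exp ((1 / 2 : ℂ) • (Z : Mt m)) * L.rho y =
      NormedSpace.exp ((bc L D ((1 / 2 : ℂ) • Z) η : gC L) : Mt m) := by
    rw [exp_bc P.ch hZ2 hηδ, ey]; rfl
  have e2 : NormedSpace.exp ((1 / 2 : ℂ) • (Z : Mt m)) * L.rho y⁻¹ =
      NormedSpace.exp ((bc L D ((1 / 2 : ℂ) • Z) (-η) : gC L) : Mt m) := by
    rw [exp_bc P.ch hZ2 (by rwa [norm_neg]), ey']; rfl
  have hF1 : S.F 1 ≠ 0 := by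
    intro h
    have h3 := cl.pos
    rw [h] at h3
    simp at h3
  unfold Ig ev
  rw [e1, e2, hw.eq _ (hbc η hη16), hw.eq _ (hbc (-η) hnη), mul_div_cancel_left₀ _ hF1,
    mul_div_cancel_left₀ _ hF1, ← Complex.exp_add, ← Complex.exp_add, ← Complex.exp_add]
  congr 1
  simp only [sdf, coe_half]
  ring

/-- arithmetic of the estimate of one state -/
theorem one_arith {t A n2 d2 Z2 W δ K S r0 : ℝ} (ht : 0 < t) (hAt : A * t ≤ 1 / 10)
    (hn : 0 ≤ n2) (h2 : d2 ≤ 101 / 100 * n2) (hr0 : 0 < r0) (hr1 : r0 ≤ 1 / 2000)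
    (hn2 : n2 ≤ (r0 / 16) ^ 2) (hW : -W ≤ A * n2 ^ 2) (hδ : 100 * r0 ≤ δ)
    (hZ2 : Z2 ≤ 2 * r0 ^ 2) (hK : K = 192 / δ ^ 2 + 7400)
    (hS : S ≤ K * Z2 * (n2 / t)) :
    2 * (-(n2 / (2 * t)) - W) + S ≤ -(d2 / (2 * t)) := by
  have hδ0 : 0 < δ := by linarith
  have hK0 : 0 < K := by rw [hK]; positivity
  have hKZ : K * Z2 ≤ 1 / 10 := by
    have e1 : K * Z2 ≤ K * (2 * r0 ^ 2) := mul_le_mul_of_nonneg_left hZ2 hK0.le
    have e2 : 192 / δ ^ 2 * (2 * r0 ^ 2) ≤ 384 / 10000 := by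
      rw [div_mul_eq_mul_div, div_le_div_iff₀ (by positivity) (by norm_num)]
      have : (100 * r0) ^ 2 ≤ δ ^ 2 := pow_le_pow_left₀ (by positivity) hδ 2
      nlinarith
    have e3 : r0 ^ 2 ≤ (1 / 2000) ^ 2 := pow_le_pow_left₀ hr0.le hr1 2
    have e4 : K * (2 * r0 ^ 2) = 192 / δ ^ 2 * (2 * r0 ^ 2) + 7400 * (2 * r0 ^ 2) := by
      rw [hK]; ring
    linarith
  have hu : 0 ≤ n2 / t := by positivity
  have hS1 : S ≤ 1 / 10 * (n2 / t) := hS.trans (mul_le_mul_of_nonneg_right hKZ hu)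
  have hW2 : A * n2 ^ 2 ≤ 1 / 1000 * (n2 / t) := by
    have e1 : A * n2 ^ 2 = (A * t) * n2 * (n2 / t) := by field_simp
    have e3 : (r0 / 16) ^ 2 ≤ (1 / 2000 / 16) ^ 2 :=
      pow_le_pow_left₀ (by positivity) (by linarith) 2
    have e2 : (A * t) * n2 ≤ 1 / 1000 := by
      have : n2 ≤ 1 / 1000 := by
        refine hn2.trans (e3.trans (by norm_num))
      by_cases hA : 0 ≤ A * t
      · nlinarith
      · nlinarith
    rw [e1]
    exact mul_le_mul_of_nonneg_right e2 hu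
  have hhalf : n2 / (2 * t) = (n2 / t) / 2 := by field_simp
  have hhalf2 : d2 / (2 * t) = (d2 / t) / 2 := by field_simp
  have hd2 : d2 / t ≤ 101 / 100 * (n2 / t) := by
    rw [← mul_div_assoc]; exact div_le_div_of_nonneg_right h2 ht.le
  rw [hhalf, hhalf2]
  linarith

/-- arithmetic of the difference -/
theorem diff_arith {t0 T Dd X r0 n2 d2 u K : ℝ} (ht : 0 < t0) (hr0 : 0 < r0) (hK : 0 < K)
    (hn : 0 ≤ n2) (h1 : n2 ≤ 101 / 100 * d2) (hd : 0 ≤ d2)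
    (hu0 : 0 ≤ u) (hu : u ≤ 120000 * (T + r0 ^ 2 * Dd) * n2)
    (hX : r0 ^ 2 * (T + r0 ^ 2 * Dd) ≤ X) (hT : 0 ≤ T + r0 ^ 2 * Dd)
    (hXK : X ≤ K) (hts : t0 ≤ r0 ^ 2 / (1000000 * K)) :
    Real.exp (-(d2 / (2 * t0))) * (u * Real.exp u) ≤
      200000 / r0 ^ 2 * X * (d2 * Real.exp (-(3 / 8 * d2 / t0))) := by
  have hX0 : 0 ≤ X := le_trans (by positivity) hX
  have hTX : T + r0 ^ 2 * Dd ≤ X / r0 ^ 2 := by
    rw [le_div_iff₀ (by positivity)]; linarith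
  have hu1 : u ≤ 121200 * (X / r0 ^ 2) * d2 := by
    calc u ≤ 120000 * (T + r0 ^ 2 * Dd) * n2 := hu
      _ ≤ 120000 * (X / r0 ^ 2) * n2 := by
          refine mul_le_mul_of_nonneg_right ?_ hn
          linarith
      _ ≤ 120000 * (X / r0 ^ 2) * (101 / 100 * d2) :=
          mul_le_mul_of_nonneg_left h1 (by positivity)
      _ = 121200 * (X / r0 ^ 2) * d2 := by ring
  have hu2 : u ≤ 1 / 8 * (d2 / t0) := by
    have e1 : X / r0 ^ 2 ≤ K / r0 ^ 2 := div_le_div_of_nonneg_right hXK (by positivity)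
    have e2 : 121200 * (X / r0 ^ 2) * d2 ≤ 121200 * (K / r0 ^ 2) * d2 := by
      refine mul_le_mul_of_nonneg_right ?_ hd
      linarith
    have e3 : 121200 * (K / r0 ^ 2) ≤ 1 / 8 * (1 / t0) := by
      rw [← mul_div_assoc, ← mul_div_assoc, mul_one, div_le_div_iff₀ (by positivity) ht]
      have e4 : t0 * (1000000 * K) ≤ r0 ^ 2 := by
        rwa [le_div_iff₀ (by positivity)] at hts
      nlinarith [mul_pos ht hK]
    calc u ≤ 121200 * (K / r0 ^ 2) * d2 := hu1.trans e2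
      _ ≤ 1 / 8 * (1 / t0) * d2 := mul_le_mul_of_nonneg_right e3 hd
      _ = 1 / 8 * (d2 / t0) := by ring
  have e5 : d2 / (2 * t0) = (d2 / t0) / 2 := by field_simp
  have e6 : 3 / 8 * d2 / t0 = 3 / 8 * (d2 / t0) := by ring
  have hexp : Real.exp (-(d2 / (2 * t0))) * Real.exp u ≤ Real.exp (-(3 / 8 * d2 / t0)) := by
    rw [← Real.exp_add]
    apply Real.exp_le_exp.2
    rw [e5, e6]
    linarith
  calc Real.exp (-(d2 / (2 * t0))) * (u * Real.exp u)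
      = u * (Real.exp (-(d2 / (2 * t0))) * Real.exp u) := by ring
    _ ≤ u * Real.exp (-(3 / 8 * d2 / t0)) := mul_le_mul_of_nonneg_left hexp hu0
    _ ≤ (200000 * (X / r0 ^ 2) * d2) * Real.exp (-(3 / 8 * d2 / t0)) := by
        refine mul_le_mul_of_nonneg_right (hu1.trans ?_) (Real.exp_pos _).le
        have : 0 ≤ X / r0 ^ 2 * d2 := by positivity
        nlinarith
    _ = 200000 / r0 ^ 2 * X * (d2 * Real.exp (-(3 / 8 * d2 / t0))) := by ring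

theorem inner_diff {D : LogData m} {εg δ r0 r s b r' : ℝ} (P : Par L D εg δ r0 r s b r')
    (K : ℝ) (hK : 0 < K) : ∃ C ts : ℝ, 0 < C ∧ 0 < ts ∧ ∀ (S0 S1 : St L) (A T Dd E : ℝ),
      PairH L r0 r s b S0 S1 A T Dd E → S0.t ≤ ts → XX r0 T Dd E ≤ K →
      ∀ Z ∈ dom L r' (r0 / 4), ∀ y : G, dis L y < r0 / 20 →
      ‖Ig L S1 Z y - Ig L S0 Z y‖ ≤
        C * XX r0 T Dd E * (dis L y ^ 2 * Real.exp (-(3 / 8 * dis L y ^ 2 / S0.t))) := by
  have hr0 := P.r0_pos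
  have hr01 := P.r0_le
  have hrl := P.r_lo
  have hrh := P.r_hi
  have hrl' := P.r'_lo
  have hrh' := P.r'_hi
  have hδ := P.r0_δ
  have h2 := P.h2
  have he0 := P.e0
  have he1 := P.e1
  refine ⟨200000 / r0 ^ 2, r0 ^ 2 / (1000000 * K), by positivity, by positivity, ?_⟩
  intro S0 S1 A T Dd E H hts hXK Z hZ y hy
  obtain ⟨hη, hηe, hη1, hη2⟩ := P.ch.lgm y (by linarith)
  set η : gC L := ⟨D.lg (L.rho y), gC_of_lie L hη⟩ with hηd
  have hηc : (η : Mt m) = D.lg (L.rho y) := rfl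
  have hηn : ‖η‖ = ‖D.lg (L.rho y)‖ := rfl
  have hηim : imP (η : Mt m) = 0 := imP_of_skew (lie_skew L hη)
  have hd0 : 0 ≤ dis L y := norm_nonneg _
  have hη16 : ‖η‖ < r0 / 16 := by
    rw [hηn]; nlinarith
  have hZn : ‖Z‖ < 5 / 4 * r0 := norm_lt_dom hZ (by positivity) (by nlinarith)
  have hηdom : η ∈ dom L r (r0 / 4) := ball_sub_dom (ρ := r0 / 16) (by linarith) (by linarith)
    (by rwa [mem_ball_zero_iff])
  have ht0 := H.p0
  have ht1 := H.p1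
  have hT0 := H.T0
  have hD0 := H.D0
  have hE0 := H.E0
  have hA0 := H.A0
  rw [Ig_eq P H.c1 H.s1 Z hZ y η hηe hη16, Ig_eq P H.c0 H.s0 Z hZ y η hηe hη16]
  have hηlo : ‖η‖ ^ 2 ≤ 101 / 100 * dis L y ^ 2 := by
    have : ‖η‖ ^ 2 ≤ ((1 + εg) * dis L y) ^ 2 := pow_le_pow_left₀ (norm_nonneg _) hη1 2
    have h3 : (1 + εg) ^ 2 ≤ 101 / 100 := by nlinarith
    rw [mul_pow] at this
    nlinarith [sq_nonneg (dis L y)]
  have hηhi : dis L y ^ 2 ≤ 101 / 100 * ‖η‖ ^ 2 := by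
    have : dis L y ^ 2 ≤ ((1 + εg) * ‖η‖) ^ 2 := pow_le_pow_left₀ hd0 hη2 2
    have h3 : (1 + εg) ^ 2 ≤ 101 / 100 := by nlinarith
    rw [mul_pow] at this
    nlinarith [sq_nonneg ‖η‖]
  -- sizes of the second differences
  have a1 := sdf_Q_le P.ch he0 he1 Z η (by linarith) hηim (by linarith)
  obtain ⟨sQ, hsQ⟩ : ∃ sQ, sQ = sdf D (fun Z : gC L => Qf (Z : Mt m)) Z η := ⟨_, rfl⟩
  rw [← hsQ] at a1 ⊢
  have a2 := sdf_w_le P H.s0 hA0 Z η hZ hηim hη16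
  have a3 := sdf_v_le P (A := Dd) (v := fun Z => S1.w Z - S0.w Z) hD0
    (H.s1.diff.sub H.s0.diff) (fun Z hZ => by rw [H.s1.even Z hZ, H.s0.even Z hZ])
    (fun g Z hZ Z' h => by rw [H.s1.ad g Z hZ Z' h, H.s0.ad g Z hZ Z' h]) H.df.ww Z η hZ hηim hη16
  rw [sdf_sub] at a3
  obtain ⟨s0, hs0⟩ : ∃ s0, s0 = sdf D S0.w Z η := ⟨_, rfl⟩
  obtain ⟨s1, hs1⟩ : ∃ s1, s1 = sdf D S1.w Z η := ⟨_, rfl⟩
  rw [← hs0] at a2 a3 ⊢
  rw [← hs1] at a3 ⊢
  have a4 := H.df.ww η hηdom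
  have a5 := H.s0.le η hηdom
  have a6 : ‖Qf (η : Mt m)‖ ≤ ‖η‖ ^ 2 := norm_Qf_le (η : Mt m)
  have hQre : (Qf (η : Mt m)).re = ‖η‖ ^ 2 := by
    rw [Qf_re, hηim, norm_zero]
    have : reP (η : Mt m) = (η : Mt m) := reP_of_skew (lie_skew L hη)
    rw [this]
    have : ‖(η : Mt m)‖ = ‖η‖ := rfl
    rw [this]
    ring
  obtain ⟨q, hq⟩ : ∃ q, q = Qf (η : Mt m) := ⟨_, rfl⟩
  rw [← hq] at a6 hQre ⊢
  obtain ⟨w0, hw0⟩ : ∃ w0, w0 = S0.w η := ⟨_, rfl⟩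
  obtain ⟨w1, hw1⟩ : ∃ w1, w1 = S1.w η := ⟨_, rfl⟩
  rw [← hw0] at a4 a5 ⊢
  rw [← hw1] at a4 ⊢
  have hZ2 : ‖Z‖ ^ 2 ≤ 2 * r0 ^ 2 := by
    have := pow_le_pow_left₀ (norm_nonneg _) hZn.le 2
    nlinarith
  have hδ0 : 0 < δ := by linarith
  have hδ2 : (100 * r0) ^ 2 ≤ δ ^ 2 := pow_le_pow_left₀ (by positivity) hδ 2
  have hn2 : ‖η‖ ^ 2 ≤ (r0 / 16) ^ 2 := pow_le_pow_left₀ (norm_nonneg _) hη16.le 2
  -- the exponent of the quotient
  obtain ⟨U, hU⟩ : ∃ U : ℂ, U = -((1 / S1.t - 1 / S0.t : ℝ) : ℂ) * (q + sQ / 2) -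
      2 * (w1 - w0) - (s1 - s0) := ⟨_, rfl⟩
  have hUeq : Complex.exp (2 * (-(q / (2 * S1.t)) - w1)) * Complex.exp (-(sQ / (2 * S1.t) + s1)) =
      Complex.exp (2 * (-(q / (2 * S0.t)) - w0)) * Complex.exp (-(sQ / (2 * S0.t) + s0)) *
        Complex.exp U := by
    rw [← Complex.exp_add, ← Complex.exp_add, ← Complex.exp_add]
    congr 1
    rw [hU]
    push_cast
    have c0 : (S0.t : ℂ) ≠ 0 := by exact_mod_cast ht0.ne'
    have c1 : (S1.t : ℂ) ≠ 0 := by exact_mod_cast ht1.ne'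
    field_simp
    ring
  have hUn : ‖U‖ ≤ 120000 * (T + r0 ^ 2 * Dd) * ‖η‖ ^ 2 := by
    have b1 : ‖((1 / S1.t - 1 / S0.t : ℝ) : ℂ)‖ ≤ T := by
      rw [Complex.norm_real, Real.norm_eq_abs]
      exact H.tt
    have b2 : ‖q + sQ / 2‖ ≤ 2 * ‖η‖ ^ 2 := by
      have c1 : ‖sQ / 2‖ = ‖sQ‖ / 2 := by
        rw [norm_div]; simp
      have c2 : 384 / δ ^ 2 * ‖Z‖ ^ 2 ≤ 2 := by
        rw [div_mul_eq_mul_div, div_le_iff₀ (by positivity)]
        nlinarith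
      have c3 : 384 / δ ^ 2 * ‖Z‖ ^ 2 * ‖η‖ ^ 2 ≤ 2 * ‖η‖ ^ 2 :=
        mul_le_mul_of_nonneg_right c2 (by positivity)
      refine (norm_add_le _ _).trans ?_
      rw [c1]
      linarith
    have b3 : ‖(2 : ℂ) * (w1 - w0)‖ ≤ 2 * (Dd * ‖η‖ ^ 4) := by
      rw [norm_mul]
      have : ‖(2 : ℂ)‖ = 2 := by simp
      rw [this]
      linarith
    have b4 : 2 * (Dd * ‖η‖ ^ 4) ≤ r0 ^ 2 * Dd * ‖η‖ ^ 2 := by
      have c1 : ‖η‖ ^ 4 = ‖η‖ ^ 2 * ‖η‖ ^ 2 := by ring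
      rw [c1]
      have c2 : 0 ≤ Dd * ‖η‖ ^ 2 := by positivity
      nlinarith
    have b5 : 73728 * Dd * ‖Z‖ ^ 2 * ‖η‖ ^ 2 ≤ 115200 * (r0 ^ 2 * Dd) * ‖η‖ ^ 2 := by
      refine mul_le_mul_of_nonneg_right ?_ (by positivity)
      have c1 : ‖Z‖ ^ 2 ≤ 25 / 16 * r0 ^ 2 := by
        have := pow_le_pow_left₀ (norm_nonneg _) hZn.le 2
        nlinarith
      nlinarith
    have b6 : ‖-((1 / S1.t - 1 / S0.t : ℝ) : ℂ) * (q + sQ / 2)‖ ≤ T * (2 * ‖η‖ ^ 2) := by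
      rw [norm_mul, norm_neg]
      exact mul_le_mul b1 b2 (norm_nonneg _) hT0
    rw [hU]
    refine (norm_sub_le _ _).trans ((add_le_add ((norm_sub_le _ _).trans
      (add_le_add b6 b3)) a3).trans ?_)
    have c1 : 0 ≤ T * ‖η‖ ^ 2 := by positivity
    have c2 : 0 ≤ r0 ^ 2 * Dd * ‖η‖ ^ 2 := by positivity
    have c3 : T * (2 * ‖η‖ ^ 2) + 2 * (Dd * ‖η‖ ^ 4) + 73728 * Dd * ‖Z‖ ^ 2 * ‖η‖ ^ 2 ≤
        T * (2 * ‖η‖ ^ 2) + r0 ^ 2 * Dd * ‖η‖ ^ 2 + 115200 * (r0 ^ 2 * Dd) * ‖η‖ ^ 2 :=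
      add_le_add (add_le_add le_rfl b4) b5
    refine c3.trans ?_
    have c4 : 120000 * (T + r0 ^ 2 * Dd) * ‖η‖ ^ 2 - (T * (2 * ‖η‖ ^ 2) + r0 ^ 2 * Dd * ‖η‖ ^ 2 +
        115200 * (r0 ^ 2 * Dd) * ‖η‖ ^ 2) = 119998 * (T * ‖η‖ ^ 2) +
        4799 * (r0 ^ 2 * Dd * ‖η‖ ^ 2) := by ring
    linarith
  -- the first state
  have hone : ‖Complex.exp (2 * (-(q / (2 * S0.t)) - w0)) *
      Complex.exp (-(sQ / (2 * S0.t) + s0))‖ ≤ Real.exp (-(dis L y ^ 2 / (2 * S0.t))) := by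
    have d1 : Complex.exp (2 * (-(q / (2 * S0.t)) - w0)) =
        Complex.exp (-(q / (2 * S0.t)) - w0) ^ 2 := by
      rw [← Complex.exp_nat_mul]
      congr 1
    rw [norm_mul, d1, norm_pow, norm_cexp_form, hQre, ← Real.exp_nat_mul]
    have d2 : ‖Complex.exp (-(sQ / (2 * S0.t) + s0))‖ ≤ Real.exp ‖sQ / (2 * S0.t) + s0‖ := by
      rw [Complex.norm_exp]
      apply Real.exp_le_exp.2
      refine (Complex.re_le_norm _).trans ?_
      rw [norm_neg]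
    refine (mul_le_mul_of_nonneg_left d2 (Real.exp_pos _).le).trans ?_
    rw [← Real.exp_add]
    apply Real.exp_le_exp.2
    have hSn : ‖sQ / (2 * S0.t) + s0‖ ≤ (192 / δ ^ 2 + 7400) * ‖Z‖ ^ 2 * (‖η‖ ^ 2 / S0.t) := by
      have c3 : ‖sQ / (2 * S0.t)‖ = ‖sQ‖ / (2 * S0.t) := by
        rw [norm_div]
        congr 1
        rw [norm_mul, Complex.norm_real, Real.norm_eq_abs, abs_of_pos ht0]
        simp
      have c4 : ‖sQ‖ / (2 * S0.t) ≤ 384 / δ ^ 2 * ‖Z‖ ^ 2 * ‖η‖ ^ 2 / (2 * S0.t) :=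
        div_le_div_of_nonneg_right a1 (by positivity)
      have c5 : 384 / δ ^ 2 * ‖Z‖ ^ 2 * ‖η‖ ^ 2 / (2 * S0.t) =
          192 / δ ^ 2 * ‖Z‖ ^ 2 * (‖η‖ ^ 2 / S0.t) := by
        have : ∀ x y z t : ℝ, 384 / z * x * y / (2 * t) = 192 / z * x * (y / t) := by
          intro x y z t; ring
        exact this _ _ _ _
      have c6 : 73728 * A * ‖Z‖ ^ 2 * ‖η‖ ^ 2 ≤ 7400 * ‖Z‖ ^ 2 * (‖η‖ ^ 2 / S0.t) := by
        have b1 : ∀ x y : ℝ, 0 ≤ x → 0 ≤ y → 73728 * A * x * y ≤ 7400 * x * (y / S0.t) := by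
          intro x y hx hy
          rw [mul_div_assoc', le_div_iff₀ ht0]
          have : 0 ≤ x * y := by positivity
          have := H.At0
          nlinarith
        exact b1 _ _ (by positivity) (by positivity)
      refine (norm_add_le _ _).trans ?_
      rw [c3]
      have : (192 / δ ^ 2 + 7400) * ‖Z‖ ^ 2 * (‖η‖ ^ 2 / S0.t) =
          192 / δ ^ 2 * ‖Z‖ ^ 2 * (‖η‖ ^ 2 / S0.t) + 7400 * ‖Z‖ ^ 2 * (‖η‖ ^ 2 / S0.t) := by ring
      rw [this]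
      linarith
    have hWle : -w0.re ≤ A * (‖η‖ ^ 2) ^ 2 := by
      have b1 : -w0.re ≤ ‖w0‖ := (neg_le_abs _).trans (Complex.abs_re_le_norm _)
      have b3 : (‖η‖ ^ 2) ^ 2 = ‖η‖ ^ 4 := by ring
      rw [b3]
      exact b1.trans a5
    have hfin := one_arith (Z2 := ‖Z‖ ^ 2) (S := ‖sQ / (2 * S0.t) + s0‖) ht0 H.At0
      (sq_nonneg ‖η‖) hηhi hr0 hr01 hn2 hWle hδ hZ2 rfl hSn
    push_cast
    exact hfin
  rw [hUeq]
  have hfac : ∀ a b : ℂ, a * b - a = a * (b - 1) := fun a b => by ring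
  rw [hfac, norm_mul]
  refine (mul_le_mul hone (cexp_sub_one_le U) (norm_nonneg _) (Real.exp_pos _).le).trans ?_
  refine diff_arith ht0 hr0 hK (sq_nonneg _) hηlo (sq_nonneg _) (norm_nonneg _) hUn ?_
    (by positivity) hXK hts
  unfold XX
  have : 0 ≤ r0 ^ 4 * Dd := by positivity
  nlinarith

end

end Pool.Agent.T2H04.HY
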