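import Mathlib
import Pool.Agent.T2H04.HY.Pd1

/-!
# Large field part of the difference of two states
-/

open MeasureTheory Matrix Filter
open scoped Matrix.Norms.Frobenius Topology

namespace Pool.Agent.T2H04.HY

set_option linter.unusedSectionVars false

noncomputable section

variable {G : Type} [Group G] [TopologicalSpace G] [IsTopologicalGroup G] [CompactSpace G]
  {m : Type} [Fintype m] [DecidableEq m] {L : RD G m}

/-- the large field estimate in terms of the upper bounds `Bf` -/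
theorem outer_bf {D : LogData m} {εg δ r0 r s b r' : ℝ} (P : Par L D εg δ r0 r s b r')
    {F : Mt m → ℂ} {t A : ℝ} {w : gC L → ℂ}
    (hw : SFw L F t A r (r0 / 4) w) (ht : 0 < t) (hA : 0 ≤ A) (hAt : A * t ≤ 1 / 10)
    (Z : gC L) (hZ : Z ∈ dom L r' (r0 / 4)) (y : G) (hy : r0 / 20 ≤ dis L y) :
    Bf b t ‖NormedSpace.exp (reP ((((1 / 2 : ℂ) • Z : gC L)) : Mt m)) * L.rho y - 1‖
        ‖imP ((((1 / 2 : ℂ) • Z : gC L)) : Mt m)‖ *
      Bf b t ‖NormedSpace.exp (reP ((((1 / 2 : ℂ) • Z : gC L)) : Mt m)) * L.rho y⁻¹ - 1‖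
        ‖imP ((((1 / 2 : ℂ) • Z : gC L)) : Mt m)‖ * ‖ev t w Z‖ ≤
      Real.exp (-(r0 ^ 2 / (1000 * t))) := by
  have hr0 := P.r0_pos
  have hr01 := P.r0_le
  have hrl := P.r_lo
  have hrh := P.r_hi
  have hrl' := P.r'_lo
  have hrh' := P.r'_hi
  have hδ := P.r0_δ
  have h2 := P.h2
  have he0 := P.e0
  have he1 := P.e1
  set x := ‖reP (Z : Mt m)‖ with hx
  set h := ‖imP (Z : Mt m)‖ with hh
  have hx0 : 0 ≤ x := norm_nonneg _
  have hh0 : 0 ≤ h := norm_nonneg _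
  have hxr : x < r' := hZ.1
  have hhr : h < r0 / 4 := hZ.2
  have ex : ‖reP ((((1 / 2 : ℂ) • Z : gC L)) : Mt m)‖ = x / 2 := by
    rw [coe_half, reP_half, norm_half]
  have eh : ‖imP ((((1 / 2 : ℂ) • Z : gC L)) : Mt m)‖ = h / 2 := by
    rw [coe_half, imP_half, norm_half]
  rw [eh]
  set a : Mt m := NormedSpace.exp (reP ((((1 / 2 : ℂ) • Z : gC L)) : Mt m)) with ha
  have hskew := reP_skew ((((1 / 2 : ℂ) • Z : gC L)) : Mt m)
  have hau : a * aᴴ = 1 := exp_unitary hskew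
  have hel := P.ch.el (reP ((((1 / 2 : ℂ) • Z : gC L)) : Mt m)) 0 (by rw [ex]; linarith)
    (by rw [norm_zero]; linarith)
  rw [NormedSpace.exp_zero, sub_zero, ← ha, ex] at hel
  have ha1 : ‖a - 1‖ ≤ 1 := by
    have := norm_add_le (a - 1 - reP ((((1 / 2 : ℂ) • Z : gC L)) : Mt m))
      (reP ((((1 / 2 : ℂ) • Z : gC L)) : Mt m))
    rw [sub_add_cancel, ex] at this
    nlinarith
  have ha2 : (1 - εg) * (x / 2) ≤ ‖a - 1‖ := by
    have := norm_sub_le (a - 1) (a - 1 - reP ((((1 / 2 : ℂ) • Z : gC L)) : Mt m))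
    rw [sub_sub_cancel, ex] at this
    nlinarith
  have hpar := par_ge (L := L) hau ha1 y
  have hVn : ‖ev t w Z‖ =
      Real.exp (2 * (((x ^ 2 - h ^ 2) / 4) / (2 * t) + (w ((1 / 2 : ℂ) • Z)).re)) := by
    unfold ev
    rw [Complex.norm_exp]
    congr 1
    have e1 : (2 * (t : ℂ)) = ((2 * t : ℝ) : ℂ) := by push_cast; ring
    have e2 : (Qf ((1 / 2 : ℂ) • (Z : Mt m))).re = (x ^ 2 - h ^ 2) / 4 := by
      rw [Qf_re, reP_half, imP_half, norm_half, norm_half]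
      ring
    have e3 : ∀ z : ℂ, (2 * z).re = 2 * z.re := by intro z; simp
    rw [e3, Complex.add_re, e1, Complex.div_ofReal_re, e2]
  rw [hVn]
  have hdomhalf : ((1 / 2 : ℂ) • Z : gC L) ∈ dom L r (r0 / 4) :=
    ⟨by rw [ex]; linarith, by rw [eh]; linarith⟩
  have hWle : (w ((1 / 2 : ℂ) • Z)).re ≤ A * ((x ^ 2 + h ^ 2) / 4) ^ 2 := by
    have b1 : (w ((1 / 2 : ℂ) • Z)).re ≤ ‖w ((1 / 2 : ℂ) • Z)‖ := Complex.re_le_norm _
    have b2 := hw.le _ hdomhalf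
    have b3 : ‖(1 / 2 : ℂ) • Z‖ ^ 4 = ((x ^ 2 + h ^ 2) / 4) ^ 2 := by
      have := norm_sq_gC ((1 / 2 : ℂ) • Z)
      rw [ex, eh] at this
      have e4 : ‖(1 / 2 : ℂ) • Z‖ ^ 4 = (‖(1 / 2 : ℂ) • Z‖ ^ 2) ^ 2 := by ring
      rw [e4, this]
      ring
    rw [b3] at b2
    exact b1.trans b2
  have hd0 : 0 ≤ dis L y := norm_nonneg _
  have hfin := outer_arith (t := t) (A := A) (x2 := x ^ 2) (h2 := h ^ 2)
    (a1 := ‖a * L.rho y - 1‖ ^ 2) (a2 := ‖a * L.rho y⁻¹ - 1‖ ^ 2) (q := ‖a - 1‖ ^ 2)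
    (d2 := dis L y ^ 2) (b := b) (r0 := r0) (W := (w ((1 / 2 : ℂ) • Z)).re) ht hAt hA hr0 hr01
    (sq_nonneg _) (sq_nonneg _)
    (by
      have := pow_le_pow_left₀ hx0 (hxr.le.trans hrh') 2
      nlinarith)
    (by
      have := pow_le_pow_left₀ hh0 hhr.le 2
      nlinarith)
    (by
      have := pow_le_pow_left₀ hx0 hxr.le 2
      have := P.h3
      linarith) (sq_nonneg _) (sq_nonneg _) hpar
    (by
      have h3 : ((1 - εg) * (x / 2)) ^ 2 ≤ ‖a - 1‖ ^ 2 :=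
        pow_le_pow_left₀ (mul_nonneg (by linarith) (by linarith)) ha2 2
      have h4 : (1 - 1 / 100000) ≤ (1 - εg) ^ 2 := by nlinarith
      have h5 : ((1 - εg) * (x / 2)) ^ 2 = (1 - εg) ^ 2 * (x ^ 2 / 4) := by ring
      rw [h5] at h3
      exact (mul_le_mul_of_nonneg_right h4 (by positivity)).trans h3)
    (by
      have := pow_le_pow_left₀ (by positivity) hy 2
      linarith [this, (by ring : (r0 / 20) ^ 2 = r0 ^ 2 / 400)]) hWle
  unfold Bf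
  rw [← Real.exp_add, ← Real.exp_add]
  have hq : (h / 2) ^ 2 = h ^ 2 / 4 := by ring
  rw [hq]
  exact Real.exp_le_exp.2 hfin

/-- change of the time in the upper bound -/
theorem bf_change {b t0 t1 T a h U R : ℝ} (ht0 : 0 < t0) (ht1 : 0 < t1) (hb : 0 ≤ b)
    (hT : |1 / t1 - 1 / t0| ≤ T) (hh : h ^ 2 ≤ R) (ha : a ^ 2 ≤ U) :
    Bf b t1 a h ≤ Bf b t0 a h * Real.exp ((U + 2 * R) * T) := by
  have hT0 : 0 ≤ T := (abs_nonneg _).trans hT
  have hU : 0 ≤ U := (sq_nonneg a).trans ha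
  have hR : 0 ≤ R := (sq_nonneg h).trans hh
  unfold Bf
  rw [← Real.exp_add]
  apply Real.exp_le_exp.2
  set M := min b ((1 - 1 / 10000) * a ^ 2) - (1 + 1 / 10000) * h ^ 2 with hM
  have h1 : |M| ≤ U + 2 * R := by
    have e1 : 0 ≤ min b ((1 - 1 / 10000) * a ^ 2) := le_min hb (by positivity)
    have e2 : min b ((1 - 1 / 10000) * a ^ 2) ≤ (1 - 1 / 10000) * a ^ 2 := min_le_right _ _
    have e3 := sq_nonneg a
    have e4 := sq_nonneg h
    rw [abs_le]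
    constructor <;> rw [hM] <;> linarith
  have h2 : M / (2 * t0) - M / (2 * t1) = -(M / 2 * (1 / t1 - 1 / t0)) := by
    field_simp
    ring
  have h3 : |M / 2 * (1 / t1 - 1 / t0)| ≤ (U + 2 * R) / 2 * T := by
    rw [abs_mul]
    refine mul_le_mul ?_ hT (abs_nonneg _) (by positivity)
    rw [abs_div, abs_two]
    linarith
  have h4 := neg_le_abs (M / 2 * (1 / t1 - 1 / t0))
  have h5 : 0 ≤ (U + 2 * R) / 2 * T := by positivity
  have h6 : -(M / (2 * t1)) - -(M / (2 * t0)) = -(M / 2 * (1 / t1 - 1 / t0)) := by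
    rw [← h2]; ring
  have h7 : (U + 2 * R) * T = (U + 2 * R) / 2 * T + (U + 2 * R) / 2 * T := by ring
  linarith

/-- change of the state in the normalising exponential -/
theorem ev_change {D : LogData m} {εg δ r0 r s b r' : ℝ} (P : Par L D εg δ r0 r s b r')
    {S0 S1 : St L} {A T Dd E : ℝ} (H : PairH L r0 r s b S0 S1 A T Dd E)
    (Z : gC L) (hZ : Z ∈ dom L r' (r0 / 4)) :
    ∃ d : ℂ, ‖d‖ ≤ XX r0 T Dd E ∧ ev S1.t S1.w Z = ev S0.t S0.w Z * Complex.exp d := by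
  have hr0 := P.r0_pos
  have hr01 := P.r0_le
  have hrl := P.r_lo
  have hrh := P.r_hi
  have hrl' := P.r'_lo
  have hrh' := P.r'_hi
  have h2 := P.h2
  have hZn : ‖Z‖ < 5 / 4 * r0 := norm_lt_dom hZ (by positivity) (by nlinarith)
  have hZh : ‖(1 / 2 : ℂ) • Z‖ ≤ r0 := by
    rw [norm_half']; linarith
  have hdom : ((1 / 2 : ℂ) • Z : gC L) ∈ dom L r (r0 / 4) := by
    refine ⟨?_, ?_⟩
    · rw [coe_half, reP_half, norm_half]
      have := hZ.1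
      linarith
    · rw [coe_half, imP_half, norm_half]
      have := hZ.2
      linarith
  refine ⟨Qf ((1 / 2 : ℂ) • (Z : Mt m)) * ((1 / S1.t - 1 / S0.t : ℝ) : ℂ) +
    2 * (S1.w ((1 / 2 : ℂ) • Z) - S0.w ((1 / 2 : ℂ) • Z)), ?_, ?_⟩
  · have q1 : ‖Qf ((1 / 2 : ℂ) • (Z : Mt m))‖ ≤ r0 ^ 2 := by
      have h3 : ‖Qf ((((1 / 2 : ℂ) • Z : gC L)) : Mt m)‖ ≤ ‖(1 / 2 : ℂ) • Z‖ ^ 2 :=
        norm_Qf_le ((((1 / 2 : ℂ) • Z : gC L)) : Mt m)
      rw [coe_half] at h3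
      exact h3.trans (pow_le_pow_left₀ (norm_nonneg _) hZh 2)
    have q2 : ‖((1 / S1.t - 1 / S0.t : ℝ) : ℂ)‖ ≤ T := by
      rw [Complex.norm_real]; exact H.tt
    have q3 := H.df.ww _ hdom
    have q4 : ‖(1 / 2 : ℂ) • Z‖ ^ 4 ≤ r0 ^ 4 := pow_le_pow_left₀ (norm_nonneg _) hZh 4
    have q5 : ‖S1.w ((1 / 2 : ℂ) • Z) - S0.w ((1 / 2 : ℂ) • Z)‖ ≤ Dd * r0 ^ 4 :=
      q3.trans (mul_le_mul_of_nonneg_left q4 H.D0)
    refine (norm_add_le _ _).trans ?_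
    rw [norm_mul, norm_mul]
    have q6 : ‖(2 : ℂ)‖ = 2 := by simp
    rw [q6]
    have q7 : ‖Qf ((1 / 2 : ℂ) • (Z : Mt m))‖ * ‖((1 / S1.t - 1 / S0.t : ℝ) : ℂ)‖ ≤ r0 ^ 2 * T :=
      mul_le_mul q1 q2 (norm_nonneg _) (by positivity)
    have q8 : 0 ≤ Dd * r0 ^ 4 := mul_nonneg H.D0 (by positivity)
    have q9 := H.E0
    unfold XX
    linarith
  · unfold ev
    rw [← Complex.exp_add]
    congr 1
    have t0 : (S0.t : ℂ) ≠ 0 := by exact_mod_cast H.p0.ne'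
    have t1 : (S1.t : ℂ) ≠ 0 := by exact_mod_cast H.p1.ne'
    push_cast
    field_simp
    ring

/-- final arithmetic -/
theorem fin_arith {X c a a' V e1 n1 n2 f1 f2 e : ℝ} (hX : 0 ≤ X) (hc : 0 ≤ c) (ha : 0 ≤ a)
    (ha' : 0 ≤ a') (hV : 0 ≤ V) (he : 0 ≤ e) (_hn1 : 0 ≤ n1) (_hn2 : 0 ≤ n2) (hf1 : 0 ≤ f1)
    (hf2 : 0 ≤ f2) (h1 : n1 ≤ X * (a * (1 + c)) * (a' * c) + a * (X * (a' * (1 + c))))
    (h2 : n2 ≤ a * a') (h3 : f1 ≤ e) (h4 : f2 ≤ X * e) (h5 : a * a' * V ≤ e1) :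
    n1 * (V * f1) + n2 * (V * f2) ≤ e * ((1 + c) * (1 + c) + 1) * X * e1 := by
  calc n1 * (V * f1) + n2 * (V * f2) ≤
        (X * (a * (1 + c)) * (a' * c) + a * (X * (a' * (1 + c)))) * (V * e) +
        a * a' * (V * (X * e)) := by
        refine add_le_add ?_ ?_
        · exact mul_le_mul h1 (mul_le_mul_of_nonneg_left h3 hV) (by positivity) (by positivity)
        · exact mul_le_mul h2 (mul_le_mul_of_nonneg_left h4 hV) (by positivity) (by positivity)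
    _ = (e * ((1 + c) * (1 + c) + 1)) * X * (a * a' * V) := by ring
    _ ≤ _ := mul_le_mul_of_nonneg_left h5 (by positivity)

theorem outer_diff {D : LogData m} {εg δ r0 r s b r' : ℝ} (P : Par L D εg δ r0 r s b r')
    (K : ℝ) (hK : 0 < K) : ∃ C : ℝ, 0 < C ∧ ∀ (S0 S1 : St L) (A T Dd E : ℝ),
      PairH L r0 r s b S0 S1 A T Dd E → XX r0 T Dd E ≤ K →
      ∀ Z ∈ dom L r' (r0 / 4), ∀ y : G, r0 / 20 ≤ dis L y →
      ‖Ig L S1 Z y - Ig L S0 Z y‖ ≤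
        C * XX r0 T Dd E * Real.exp (-(r0 ^ 2 / (1000 * S0.t))) := by
  have hr0 := P.r0_pos
  have hr01 := P.r0_le
  have hrl := P.r_lo
  have hrh := P.r_hi
  have hrl' := P.r'_lo
  have hrh' := P.r'_hi
  have h2 := P.h2
  set U : ℝ := (uB m + ‖(1 : Mt m)‖) ^ 2 with hU
  set c : ℝ := Real.exp ((U + 2 * r0 ^ 2) * (K / r0 ^ 2)) with hc
  have hc0 : 0 < c := Real.exp_pos _
  refine ⟨Real.exp K * ((1 + c) * (1 + c) + 1), by positivity, ?_⟩
  intro S0 S1 A T Dd E H hX Z hZ y hy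
  set X := XX r0 T Dd E with hXd
  have hb0 : 0 ≤ b := by
    have := P.h3
    have h5 : 0 ≤ r' ^ 2 / 2 + r0 ^ 2 / 20 := by positivity
    linarith
  have hX0 : 0 ≤ X := by
    rw [hXd]; unfold XX
    have := H.T0
    have := H.D0
    have := H.E0
    positivity
  have hT : T ≤ K / r0 ^ 2 := by
    rw [le_div_iff₀ (by positivity)]
    have e1 : X = r0 ^ 2 * T + 3 * r0 ^ 4 * Dd + E := rfl
    have e2 : 0 ≤ 3 * r0 ^ 4 * Dd := mul_nonneg (by positivity) H.D0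
    have e3 := H.E0
    linarith
  set Zh : gC L := (1 / 2 : ℂ) • Z with hZhd
  have ex : ‖reP (Zh : Mt m)‖ = ‖reP (Z : Mt m)‖ / 2 := by
    rw [hZhd, coe_half, reP_half, norm_half]
  have eh : ‖imP (Zh : Mt m)‖ = ‖imP (Z : Mt m)‖ / 2 := by
    rw [hZhd, coe_half, imP_half, norm_half]
  have hx := hZ.1
  have hh := hZ.2
  have hx0 := norm_nonneg (reP (Z : Mt m))
  have hh0 := norm_nonneg (imP (Z : Mt m))
  have d1 : ‖reP (Zh : Mt m)‖ < r := by rw [ex]; linarith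
  have d2 : ‖imP (Zh : Mt m)‖ < r0 / 8 := by rw [eh]; linarith
  obtain ⟨d, hd, hev⟩ := ev_change P H Z hZ
  have hdK : ‖d‖ ≤ K := hd.trans hX
  have out := outer_bf P H.s0 H.p0 H.A0 H.At0 Z hZ y hy
  rw [← hZhd] at out
  -- abbreviations
  have u0 := fun p => ub_one P H.c0 H.p0 H.A0 H.At0 Zh d1 d2 p
  have u1 := fun p => ub_one P H.c1 H.p1 H.A0 H.At1 Zh d1 d2 p
  have ud := fun p => ud P H Zh d1 d2 p
  have hch : ∀ p : G, Bf b S1.t ‖NormedSpace.exp (reP (Zh : Mt m)) * L.rho p - 1‖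
      ‖imP (Zh : Mt m)‖ ≤ Bf b S0.t ‖NormedSpace.exp (reP (Zh : Mt m)) * L.rho p - 1‖
      ‖imP (Zh : Mt m)‖ * c := by
    intro p
    have b1 : ‖NormedSpace.exp (reP (Zh : Mt m)) * L.rho p - 1‖ ≤ uB m + ‖(1 : Mt m)‖ := by
      refine (norm_sub_le _ _).trans (add_le_add ?_ le_rfl)
      apply norm_unitary_le
      have hau : NormedSpace.exp (reP (Zh : Mt m)) * (NormedSpace.exp (reP (Zh : Mt m)))ᴴ = 1 :=
        exp_unitary (reP_skew (Zh : Mt m))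
      rw [conjTranspose_mul]
      calc NormedSpace.exp (reP (Zh : Mt m)) * L.rho p *
            ((L.rho p)ᴴ * (NormedSpace.exp (reP (Zh : Mt m)))ᴴ)
          = NormedSpace.exp (reP (Zh : Mt m)) * (L.rho p * (L.rho p)ᴴ) *
            (NormedSpace.exp (reP (Zh : Mt m)))ᴴ := by noncomm_ring
        _ = 1 := by rw [L.unit, mul_one, hau]
    have b2 := bf_change (b := b) (R := r0 ^ 2) (U := U) H.p0 H.p1 hb0 H.tt
      (h := ‖imP (Zh : Mt m)‖)
      (by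
        refine pow_le_pow_left₀ (norm_nonneg _) ?_ 2
        linarith)
      (pow_le_pow_left₀ (norm_nonneg _) b1 2)
    refine b2.trans (mul_le_mul_of_nonneg_left ?_ (Real.exp_pos _).le)
    rw [hc]
    apply Real.exp_le_exp.2
    exact mul_le_mul_of_nonneg_left hT (by positivity)
  set N0 : G → ℂ := fun p => S0.F (NormedSpace.exp (Zh : Mt m) * L.rho p) / S0.F 1 with hN0
  set N1 : G → ℂ := fun p => S1.F (NormedSpace.exp (Zh : Mt m) * L.rho p) / S1.F 1 with hN1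
  set B : G → ℝ := fun p => Bf b S0.t ‖NormedSpace.exp (reP (Zh : Mt m)) * L.rho p - 1‖
      ‖imP (Zh : Mt m)‖ with hB
  have hB0 : ∀ p, 0 ≤ B p := fun p => (Real.exp_pos _).le
  have n0 : ∀ p, ‖N0 p‖ ≤ B p := u0
  have n1 : ∀ p, ‖N1 p‖ ≤ B p * c := fun p => (u1 p).trans (hch p)
  have nd : ∀ p, ‖N1 p - N0 p‖ ≤ X * (B p * (1 + c)) := by
    intro p
    refine (ud p).trans (mul_le_mul_of_nonneg_left ?_ hX0)
    have := hch p
    have e : B p * (1 + c) = B p + B p * c := by ring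
    rw [e]
    exact add_le_add le_rfl this
  have eI : ∀ S : St L, Ig L S Z y = S.F (NormedSpace.exp (Zh : Mt m) * L.rho y) / S.F 1 *
      (S.F (NormedSpace.exp (Zh : Mt m) * L.rho y⁻¹) / S.F 1) * ev S.t S.w Z := fun S => rfl
  have hkey : Ig L S1 Z y - Ig L S0 Z y =
      ((N1 y - N0 y) * N1 y⁻¹ + N0 y * (N1 y⁻¹ - N0 y⁻¹)) * (ev S0.t S0.w Z * Complex.exp d) +
      N0 y * N0 y⁻¹ * (ev S0.t S0.w Z * (Complex.exp d - 1)) := by
    rw [eI, eI, hev]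
    simp only [hN0, hN1]
    ring
  have hed : ‖Complex.exp d‖ ≤ Real.exp K := by
    rw [Complex.norm_exp]
    exact Real.exp_le_exp.2 ((Complex.re_le_norm d).trans hdK)
  have hed1 : ‖Complex.exp d - 1‖ ≤ X * Real.exp K := by
    refine (cexp_sub_one_le d).trans ?_
    exact mul_le_mul hd (Real.exp_le_exp.2 hdK) (Real.exp_pos _).le hX0
  set V : ℝ := ‖ev S0.t S0.w Z‖ with hV
  have hV0 : 0 ≤ V := norm_nonneg _
  set a := B y with had
  set a' := B y⁻¹ with had'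
  have ha : 0 ≤ a := hB0 _
  have ha' : 0 ≤ a' := hB0 _
  have hout : a * a' * V ≤ Real.exp (-(r0 ^ 2 / (1000 * S0.t))) := out
  rw [hkey]
  have t1 : ‖(N1 y - N0 y) * N1 y⁻¹ + N0 y * (N1 y⁻¹ - N0 y⁻¹)‖ ≤
      X * (a * (1 + c)) * (a' * c) + a * (X * (a' * (1 + c))) := by
    refine (norm_add_le _ _).trans ?_
    rw [norm_mul, norm_mul]
    refine add_le_add ?_ ?_
    · exact mul_le_mul (nd y) (n1 y⁻¹) (norm_nonneg _)
        (mul_nonneg hX0 (mul_nonneg ha (by linarith)))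
    · exact mul_le_mul (n0 y) (nd y⁻¹) (norm_nonneg _) ha
  have t2 : ‖N0 y * N0 y⁻¹‖ ≤ a * a' := by
    rw [norm_mul]
    exact mul_le_mul (n0 y) (n0 y⁻¹) (norm_nonneg _) ha
  refine (norm_add_le _ _).trans ?_
  rw [norm_mul, norm_mul (ev S0.t S0.w Z), norm_mul (N0 y * N0 y⁻¹), norm_mul (ev S0.t S0.w Z)]
  exact fin_arith hX0 hc0.le ha ha' hV0 (Real.exp_pos K).le (norm_nonneg _) (norm_nonneg _)
    (norm_nonneg _) (norm_nonneg _) t1 t2 hed hed1 hout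

end

end Pool.Agent.T2H04.HY
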