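import Mathlib
import Pool.Agent.T2H04.HY.Pd2
import Pool.Agent.T2H04.HY.Pd3
import Pool.Agent.T2H04.HY.Tc

/-!
# Lipschitz bound of the normalised convolution
-/

open MeasureTheory Matrix Filter
open scoped Matrix.Norms.Frobenius Topology

namespace Pool.Agent.T2H04.HY

set_option linter.unusedSectionVars false

noncomputable section

variable {G : Type} [Group G] [TopologicalSpace G] [IsTopologicalGroup G] [CompactSpace G]
  [MeasurableSpace G] [BorelSpace G] (μ : Measure G) [μ.IsHaarMeasure] [IsProbabilityMeasure μ]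
  {m : Type} [Fintype m] [DecidableEq m] {L : RD G m}

theorem Ig_cont {S : St L} {A r τ s b ε : ℝ} (cl : Cls L S.F S.t A r τ s b ε) (Z : gC L) :
    Continuous fun y : G => Ig L S Z y := by
  have hcF := cl.diff.continuous
  unfold Ig
  refine Continuous.mul (Continuous.mul ?_ ?_) continuous_const
  · exact (hcF.comp (continuous_const.mul L.cont)).div_const _
  · exact (hcF.comp (continuous_const.mul (L.cont.comp continuous_inv))).div_const _

/-- the integral of `Ig` -/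
theorem int_Ig {S : St L} {A r τ s b ε : ℝ} (cl : Cls L S.F S.t A r τ s b ε) (Z : gC L) :
    ∫ y, Ig L S Z y ∂μ =
      ccv L μ S.F (NormedSpace.exp (Z : Mt m)) * ev S.t S.w Z / S.F 1 ^ 2 := by
  have h1 := ccv_sym μ cl.diff cl.conj Z 1
  rw [map_one, mul_one] at h1
  rw [h1, ← integral_mul_const, ← integral_div]
  refine integral_congr_ae (Filter.Eventually.of_forall fun y => ?_)
  simp only [Ig, one_mul]
  ring

theorem ev_zero {t : ℝ} {w : gC L → ℂ} (hw : w 0 = 0) : ev (L := L) t w 0 = 1 := by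
  unfold ev
  have h1 : ((1 / 2 : ℂ) • (0 : gC L)) = 0 := smul_zero _
  have h2 : ((1 / 2 : ℂ) • ((0 : gC L) : Mt m)) = 0 := by
    rw [show ((0 : gC L) : Mt m) = 0 from rfl, smul_zero]
  rw [h1, h2, hw]
  have h3 : Qf (0 : Mt m) = 0 := by
    unfold Qf
    rw [mul_zero, trace_zero, neg_zero]
  rw [h3]
  simp

theorem calE_lip {D : LogData m} {εg δ r0 r s b r' : ℝ} (P : Par L D εg δ r0 r s b r') {Cm : ℝ}
    (hCm : ∀ t : ℝ, 0 < t → ∫ y, (1 + dis L y ^ 2 / t + (dis L y ^ 2 / t) ^ 2) *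
      Real.exp (-(1 / 2 * dis L y ^ 2 / t)) ∂μ ≤ Cm * μ.real (bal L (Real.sqrt t)))
    (hCm0 : 0 ≤ Cm) (hR : 32 * (192 / δ ^ 2 + 7400) * Cm * r0 ^ 2 ≤ 1)
    (K : ℝ) (hK : 0 < K) : ∃ C ts : ℝ, 0 < C ∧ 0 < ts ∧ ∀ (S0 S1 : St L) (A T Dd E : ℝ),
      PairH L r0 r s b S0 S1 A T Dd E → S0.t ≤ ts → S1.t ≤ ts → XX r0 T Dd E ≤ K →
      (∀ Z ∈ dom L r' (r0 / 4), ‖calE μ S1.F S1.t S1.w Z - calE μ S0.F S0.t S0.w Z‖ ≤
        C * S0.t * XX r0 T Dd E) ∧
      ‖ccv L μ S1.F 1 / S1.F 1 ^ 2 - ccv L μ S0.F 1 / S0.F 1 ^ 2‖ ≤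
        C * S0.t * XX r0 T Dd E * μ.real (bal L (Real.sqrt S0.t)) := by
  have hr0 := P.r0_pos
  have hrl := P.r_lo
  have hrl' := P.r'_lo
  obtain ⟨C1, t1, hC1, ht1, H1⟩ := inner_diff P K hK
  obtain ⟨C2, hC2, H2⟩ := outer_diff P K hK
  obtain ⟨C3, hC3, H3⟩ := gauss_moment μ L (3 / 8) (by norm_num)
  obtain ⟨c, hc, p, hp⟩ := bal_lower μ L
  obtain ⟨t2, ht2, ht21, H4⟩ := exp_le_pow (r0 ^ 2 / 1000) 1 c (p + 2) (by positivity) one_pos hc
  obtain ⟨t3, ht3, H5⟩ := exists_TC μ L r0 hr0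
  set C4 : ℝ := C1 * C3 + C2 with hC4
  have hC40 : 0 < C4 := by positivity
  set κ : ℝ := Real.exp (-(51 / 50)) with hκ
  have hκ0 : 0 < κ := Real.exp_pos _
  have hκ1 : κ ≤ 1 := by
    rw [hκ, ← Real.exp_zero]
    exact Real.exp_le_exp.2 (by norm_num)
  have hb5 : C4 ≤ 5 * C4 / κ := by
    rw [le_div_iff₀ hκ0]
    nlinarith
  refine ⟨5 * C4 / κ, min (min t1 t2) (min t3 (κ / (2 * C4 * K))), by positivity,
    by positivity, ?_⟩
  intro S0 S1 A T Dd E H hts hts' hX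
  have a1 : S0.t ≤ t1 := hts.trans ((min_le_left _ _).trans (min_le_left _ _))
  have a2 : S0.t ≤ t2 := hts.trans ((min_le_left _ _).trans (min_le_right _ _))
  have a3 : S0.t ≤ t3 := hts.trans ((min_le_right _ _).trans (min_le_left _ _))
  have a4 : S0.t ≤ κ / (2 * C4 * K) := hts.trans ((min_le_right _ _).trans (min_le_right _ _))
  have hp0 := H.p0
  have hTC := H5 S0.t hp0 a3
  set X : ℝ := XX r0 T Dd E with hXdef
  have hX0 : 0 ≤ X := by
    rw [hXdef]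
    unfold XX
    have e1 := H.T0
    have e2 := H.D0
    have e3 := H.E0
    positivity
  set M : ℝ := μ.real (bal L (Real.sqrt S0.t)) with hM
  have hM0 : 0 < M := bal_pos μ L _ (Real.sqrt_pos.2 hp0)
  have hdc : Continuous (dis L) := (L.cont.sub continuous_const).norm
  -- the difference of the integrals
  have key : ∀ Z ∈ dom L r' (r0 / 4), ‖∫ y, Ig L S1 Z y ∂μ - ∫ y, Ig L S0 Z y ∂μ‖ ≤
      C4 * S0.t * X * M := by
    intro Z hZ
    rw [← integral_sub (intg μ (Ig_cont H.c1 Z)) (intg μ (Ig_cont H.c0 Z))]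
    set g : G → ℝ := fun y => C1 * X * (dis L y ^ 2 * Real.exp (-(3 / 8 * dis L y ^ 2 / S0.t))) +
      C2 * X * Real.exp (-(r0 ^ 2 / (1000 * S0.t))) with hg
    have hpt : ∀ y, ‖Ig L S1 Z y - Ig L S0 Z y‖ ≤ g y := by
      intro y
      rw [hg]
      have e1 : 0 ≤ C1 * X * (dis L y ^ 2 * Real.exp (-(3 / 8 * dis L y ^ 2 / S0.t))) := by
        positivity
      have e2 : 0 ≤ C2 * X * Real.exp (-(r0 ^ 2 / (1000 * S0.t))) := by positivity
      rcases lt_or_ge (dis L y) (r0 / 20) with hy | hy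
      · exact (H1 S0 S1 A T Dd E H a1 hX Z hZ y hy).trans (by
          show _ ≤ C1 * X * (dis L y ^ 2 * Real.exp (-(3 / 8 * dis L y ^ 2 / S0.t))) +
            C2 * X * Real.exp (-(r0 ^ 2 / (1000 * S0.t)))
          linarith)
      · exact (H2 S0 S1 A T Dd E H hX Z hZ y hy).trans (by
          show _ ≤ C1 * X * (dis L y ^ 2 * Real.exp (-(3 / 8 * dis L y ^ 2 / S0.t))) +
            C2 * X * Real.exp (-(r0 ^ 2 / (1000 * S0.t)))
          linarith)
    have hc3 : Continuous fun y => dis L y ^ 2 * Real.exp (-(3 / 8 * dis L y ^ 2 / S0.t)) := by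
      fun_prop
    have hgc : Continuous g := by
      rw [hg]
      fun_prop
    refine (norm_integral_le_of_norm_le (intg μ hgc) (Filter.Eventually.of_forall hpt)).trans ?_
    have hint : ∫ y, g y ∂μ = C1 * X *
        (∫ y, dis L y ^ 2 * Real.exp (-(3 / 8 * dis L y ^ 2 / S0.t)) ∂μ) +
        C2 * X * Real.exp (-(r0 ^ 2 / (1000 * S0.t))) := by
      rw [hg, integral_add ((intg μ hc3).const_mul _) (integrable_const _),
        integral_const_mul, integral_const]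
      simp
    rw [hint]
    have i1 : ∫ y, dis L y ^ 2 * Real.exp (-(3 / 8 * dis L y ^ 2 / S0.t)) ∂μ ≤
        S0.t * (C3 * M) := by
      have i2 : ∫ y, dis L y ^ 2 * Real.exp (-(3 / 8 * dis L y ^ 2 / S0.t)) ∂μ ≤
          ∫ y, S0.t * ((1 + dis L y ^ 2 / S0.t + (dis L y ^ 2 / S0.t) ^ 2) *
            Real.exp (-(3 / 8 * dis L y ^ 2 / S0.t))) ∂μ := by
        refine integral_mono (intg μ hc3) (intg μ (by fun_prop)) fun y => ?_
        show dis L y ^ 2 * Real.exp (-(3 / 8 * dis L y ^ 2 / S0.t)) ≤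
          S0.t * ((1 + dis L y ^ 2 / S0.t + (dis L y ^ 2 / S0.t) ^ 2) *
            Real.exp (-(3 / 8 * dis L y ^ 2 / S0.t)))
        rw [← mul_assoc]
        refine mul_le_mul_of_nonneg_right ?_ (Real.exp_pos _).le
        have e1 : S0.t * (dis L y ^ 2 / S0.t) = dis L y ^ 2 := by field_simp
        have e2 : 0 ≤ S0.t * (dis L y ^ 2 / S0.t) ^ 2 := by positivity
        have e3 : S0.t * (1 + dis L y ^ 2 / S0.t + (dis L y ^ 2 / S0.t) ^ 2) =
            S0.t + S0.t * (dis L y ^ 2 / S0.t) + S0.t * (dis L y ^ 2 / S0.t) ^ 2 := by ring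
        rw [e3, e1]
        linarith
      refine i2.trans ?_
      rw [integral_const_mul]
      exact mul_le_mul_of_nonneg_left (H3 S0.t hp0) hp0.le
    have i3 : Real.exp (-(r0 ^ 2 / (1000 * S0.t))) ≤ S0.t * M := by
      have i4 := H4 S0.t hp0 a2
      rw [one_mul, div_div] at i4
      have hs1 : Real.sqrt S0.t ≤ 1 := Real.sqrt_le_one.2 (a2.trans ht21)
      have i5 := hp (Real.sqrt S0.t) (Real.sqrt_pos.2 hp0) hs1
      have i6 : c * Real.sqrt S0.t ^ (p + 2) = S0.t * (c * Real.sqrt S0.t ^ p) := by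
        rw [pow_add, Real.sq_sqrt hp0.le]
        ring
      rw [i6] at i4
      exact i4.trans (mul_le_mul_of_nonneg_left i5 hp0.le)
    calc C1 * X * (∫ y, dis L y ^ 2 * Real.exp (-(3 / 8 * dis L y ^ 2 / S0.t)) ∂μ) +
        C2 * X * Real.exp (-(r0 ^ 2 / (1000 * S0.t)))
        ≤ C1 * X * (S0.t * (C3 * M)) + C2 * X * (S0.t * M) :=
          add_le_add (mul_le_mul_of_nonneg_left i1 (by positivity))
            (mul_le_mul_of_nonneg_left i3 (by positivity))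
      _ = C4 * S0.t * X * M := by
          rw [hC4]
          ring
  -- the values at `0`
  have h0 : (0 : gC L) ∈ dom L r' (r0 / 4) := zero_mem_dom (by linarith) (by positivity)
  have hJ0 : ∀ S : St L, ∀ {A : ℝ}, Cls L S.F S.t A r (r0 / 4) s b (1 / 10000) →
      SFw L S.F S.t A r (r0 / 4) S.w → ∫ y, Ig L S 0 y ∂μ = ccv L μ S.F 1 / S.F 1 ^ 2 := by
    intro S A cl hw
    rw [int_Ig μ cl 0, ev_zero (hw.zero (by linarith) (by positivity)), mul_one]
    have : NormedSpace.exp ((0 : gC L) : Mt m) = 1 := by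
      rw [show ((0 : gC L) : Mt m) = 0 from rfl, NormedSpace.exp_zero]
    rw [this]
  have k0 := key 0 h0
  rw [hJ0 S1 H.c1 H.s1, hJ0 S0 H.c0 H.s0] at k0
  have hsq : Real.sqrt S0.t < r0 / 20 := by
    rw [Real.sqrt_lt' (by positivity)]
    have := hTC.t3
    nlinarith
  have hlow := ccv_one_lower μ P H.c0 H.s0 hp0 H.A0 H.At0 hsq
  have hF1 : ∀ S : St L, ∀ {A : ℝ}, Cls L S.F S.t A r (r0 / 4) s b (1 / 10000) →
      S.F 1 = (((S.F 1).re : ℝ) : ℂ) := by
    intro S A cl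
    have := cl.real 1
    rw [map_one] at this
    exact Complex.ext (by simp) (by simp [this])
  set J0 : ℂ := ccv L μ S0.F 1 / S0.F 1 ^ 2 with hJ0d
  set J1 : ℂ := ccv L μ S1.F 1 / S1.F 1 ^ 2 with hJ1d
  have hJ0n : κ * M ≤ ‖J0‖ := by
    have e1 : (S0.F 1).re ^ 2 * κ * M ≤ ‖ccv L μ S0.F 1‖ :=
      hlow.trans (Complex.re_le_norm _)
    have e2 : ‖S0.F 1 ^ 2‖ = (S0.F 1).re ^ 2 := by
      rw [hF1 S0 H.c0, norm_pow, Complex.norm_real, Real.norm_eq_abs, sq_abs, Complex.ofReal_re]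
    have e3 : 0 < (S0.F 1).re ^ 2 := by
      have := H.c0.pos
      positivity
    rw [hJ0d, norm_div, e2, le_div_iff₀ e3]
    calc κ * M * (S0.F 1).re ^ 2 = (S0.F 1).re ^ 2 * κ * M := by ring
      _ ≤ _ := e1
  have hsmall : C4 * S0.t * X ≤ κ / 2 := by
    have e1 : C4 * S0.t * X ≤ C4 * S0.t * K := mul_le_mul_of_nonneg_left hX (by positivity)
    have e2 : S0.t * (2 * C4 * K) ≤ κ := by
      rwa [le_div_iff₀ (by positivity)] at a4
    nlinarith
  have hJ1n : κ / 2 * M ≤ ‖J1‖ := by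
    have e1 : ‖J0‖ - ‖J1 - J0‖ ≤ ‖J1‖ := by
      have e3 : ‖J0‖ ≤ ‖J1‖ + ‖J1 - J0‖ := by
        calc ‖J0‖ = ‖J1 - (J1 - J0)‖ := by rw [sub_sub_cancel]
          _ ≤ ‖J1‖ + ‖J1 - J0‖ := norm_sub_le _ _
      linarith
    have e2 : ‖J1 - J0‖ ≤ κ / 2 * M :=
      k0.trans (mul_le_mul_of_nonneg_right hsmall hM0.le)
    nlinarith
  have hJ1p : 0 < ‖J1‖ := lt_of_lt_of_le (by positivity) hJ1n
  have hJ1ne : J1 ≠ 0 := norm_pos_iff.1 hJ1p
  have hJ0ne : J0 ≠ 0 := norm_pos_iff.1 (lt_of_lt_of_le (by positivity) hJ0n)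
  have hcal : ∀ S : St L, ∀ {A : ℝ}, Cls L S.F S.t A r (r0 / 4) s b (1 / 10000) →
      ∀ Z : gC L, calE μ S.F S.t S.w Z =
        (∫ y, Ig L S Z y ∂μ) / (ccv L μ S.F 1 / S.F 1 ^ 2) := by
    intro S A cl Z
    have e1 : S.F 1 ≠ 0 := by
      rw [hF1 S cl]
      exact_mod_cast cl.pos.ne'
    rw [int_Ig μ cl Z, div_div_div_cancel_right₀ (pow_ne_zero 2 e1)]
    rfl
  refine ⟨?_, ?_⟩
  · intro Z hZ
    have k1 := key Z hZ
    have e0 := calE_le P hCm hCm0 hR H.c0 H.s0 hTC H.A0 H.At0 Z hZ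
    have e1 : ‖calE μ S0.F S0.t S0.w Z‖ ≤ 3 / 2 := by
      calc ‖calE μ S0.F S0.t S0.w Z‖ = ‖(calE μ S0.F S0.t S0.w Z - 1) + 1‖ := by
            rw [sub_add_cancel]
        _ ≤ ‖calE μ S0.F S0.t S0.w Z - 1‖ + ‖(1 : ℂ)‖ := norm_add_le _ _
        _ ≤ 1 / 2 + 1 := by
            rw [norm_one]
            linarith
        _ = 3 / 2 := by norm_num
    have e2 : calE μ S1.F S1.t S1.w Z - calE μ S0.F S0.t S0.w Z =
        ((∫ y, Ig L S1 Z y ∂μ - ∫ y, Ig L S0 Z y ∂μ) -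
          calE μ S0.F S0.t S0.w Z * (J1 - J0)) / J1 := by
      rw [hcal S1 H.c1 Z, hcal S0 H.c0 Z, ← hJ0d, ← hJ1d]
      field_simp
      ring
    rw [e2, norm_div, div_le_iff₀ hJ1p]
    have e3 : ‖(∫ y, Ig L S1 Z y ∂μ - ∫ y, Ig L S0 Z y ∂μ) -
        calE μ S0.F S0.t S0.w Z * (J1 - J0)‖ ≤ 5 / 2 * (C4 * S0.t * X * M) := by
      refine (norm_sub_le _ _).trans ?_
      rw [norm_mul]
      have e4 : ‖calE μ S0.F S0.t S0.w Z‖ * ‖J1 - J0‖ ≤ 3 / 2 * (C4 * S0.t * X * M) :=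
        mul_le_mul e1 k0 (norm_nonneg _) (by norm_num)
      linarith
    refine e3.trans ?_
    calc 5 / 2 * (C4 * S0.t * X * M) = 5 * C4 / κ * S0.t * X * (κ / 2 * M) := by
          field_simp
      _ ≤ 5 * C4 / κ * S0.t * X * ‖J1‖ := mul_le_mul_of_nonneg_left hJ1n (by positivity)
  · refine k0.trans ?_
    have e1 : C4 * S0.t * X * M ≤ 5 * C4 / κ * S0.t * X * M := by
      have e2 : 0 ≤ S0.t * X * M := by positivity
      calc C4 * S0.t * X * M = C4 * (S0.t * X * M) := by ring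
        _ ≤ 5 * C4 / κ * (S0.t * X * M) := mul_le_mul_of_nonneg_right hb5 e2
        _ = _ := by ring
    exact e1

end

end Pool.Agent.T2H04.HY
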