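import Mathlib
import Pool.Agent.T2H04.HY.Conv5
import Pool.Agent.T2H04.HY.Pd1

/-!
# Large field bound of the difference of two convolutions
-/

open MeasureTheory Matrix Filter
open scoped Matrix.Norms.Frobenius Topology

namespace Pool.Agent.T2H04.HY

set_option linter.unusedSectionVars false

noncomputable section

/-! ### real arithmetic -/

theorem Bf_pos (b t a h : ℝ) : 0 < Bf b t a h := Real.exp_pos _

/-- changing `t` in the bound costs a constant factor -/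
theorem Bf_change {b t0 t1 a h T r0 K : ℝ} (hb : 0 ≤ b) (_hr0 : 0 < r0)
    (hh0 : 0 ≤ h) (hh : h ≤ r0) (htt : |1 / t1 - 1 / t0| ≤ T) (hT : T ≤ K / r0 ^ 2) :
    Bf b t1 a h ≤ Real.exp ((b + 2 * r0 ^ 2) * (K / r0 ^ 2) / 2) * Bf b t0 a h := by
  unfold Bf
  rw [← Real.exp_add]
  apply Real.exp_le_exp.2
  obtain ⟨M, hM⟩ : ∃ M, M = min b ((1 - 1 / 10000) * a ^ 2) - (1 + 1 / 10000) * h ^ 2 := ⟨_, rfl⟩
  rw [← hM]
  have hmin0 : 0 ≤ min b ((1 - 1 / 10000) * a ^ 2) := le_min hb (by positivity)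
  have hmin1 : min b ((1 - 1 / 10000) * a ^ 2) ≤ b := min_le_left _ _
  have hh2 : h ^ 2 ≤ r0 ^ 2 := pow_le_pow_left₀ hh0 hh 2
  have hh3 : 0 ≤ h ^ 2 := sq_nonneg _
  have hMabs : |M| ≤ b + 2 * r0 ^ 2 := by
    rw [abs_le]
    constructor <;> rw [hM] <;> nlinarith
  have h1 : |M * (1 / t1 - 1 / t0)| ≤ (b + 2 * r0 ^ 2) * (K / r0 ^ 2) := by
    rw [abs_mul]
    exact mul_le_mul hMabs (htt.trans hT) (abs_nonneg _) (by positivity)
  have h2 := (abs_le.1 h1).1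
  have e : -(M / (2 * t1)) = -(M * (1 / t1 - 1 / t0)) / 2 + -(M / (2 * t0)) := by
    rw [show M / (2 * t1) = M * (1 / t1) / 2 by ring, show M / (2 * t0) = M * (1 / t0) / 2 by ring]
    ring
  rw [e]
  linarith

/-- the product rule for bounds -/
theorem prod_diff {n1 n1' n0 n0' : ℂ} {X c B B' : ℝ} (hX : 0 ≤ X) (hc : 1 ≤ c) (hB : 0 ≤ B)
    (hB' : 0 ≤ B') (h1 : ‖n1'‖ ≤ c * B') (h0 : ‖n0‖ ≤ B)
    (d : ‖n1 - n0‖ ≤ X * (B + c * B)) (d' : ‖n1' - n0'‖ ≤ X * (B' + c * B')) :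
    ‖n1 * n1' - n0 * n0'‖ ≤ (1 + c) ^ 2 * X * (B * B') := by
  have e : n1 * n1' - n0 * n0' = (n1 - n0) * n1' + n0 * (n1' - n0') := by ring
  rw [e]
  refine (norm_add_le _ _).trans ?_
  rw [norm_mul, norm_mul]
  have a1 : ‖n1 - n0‖ * ‖n1'‖ ≤ X * (B + c * B) * (c * B') :=
    mul_le_mul d h1 (norm_nonneg _) (by positivity)
  have a2 : ‖n0‖ * ‖n1' - n0'‖ ≤ B * (X * (B' + c * B')) :=
    mul_le_mul h0 d' (norm_nonneg _) hB
  have hXB : 0 ≤ X * (B * B') := by positivity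
  nlinarith

variable {G : Type} [Group G] [TopologicalSpace G] [IsTopologicalGroup G] [CompactSpace G]
  [MeasurableSpace G] [BorelSpace G] (μ : Measure G) [μ.IsHaarMeasure] [IsProbabilityMeasure μ]
  {m : Type} [Fintype m] [DecidableEq m] {L : RD G m}

/-- the difference of the normalised convolutions as an integral -/
theorem ccv_diff_int {F0 F1 : Mt m → ℂ} (hF0 : ContDiff ℂ 1 F0) (hF1 : ContDiff ℂ 1 F1)
    (hc0 : ∀ g x, F0 (L.rho g * x * L.rho g⁻¹) = F0 x)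
    (hc1 : ∀ g x, F1 (L.rho g * x * L.rho g⁻¹) = F1 x) (Z : gC L) (k : G) :
    ccv L μ F1 (NormedSpace.exp (Z : Mt m) * L.rho k) / F1 1 ^ 2 -
      ccv L μ F0 (NormedSpace.exp (Z : Mt m) * L.rho k) / F0 1 ^ 2 =
    ∫ y, (F1 (NormedSpace.exp ((1 / 2 : ℂ) • (Z : Mt m)) * L.rho y) / F1 1 *
        (F1 (NormedSpace.exp ((1 / 2 : ℂ) • (Z : Mt m)) * L.rho (k * y⁻¹)) / F1 1) -
      F0 (NormedSpace.exp ((1 / 2 : ℂ) • (Z : Mt m)) * L.rho y) / F0 1 *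
        (F0 (NormedSpace.exp ((1 / 2 : ℂ) • (Z : Mt m)) * L.rho (k * y⁻¹)) / F0 1)) ∂μ := by
  have key : ∀ F : Mt m → ℂ, ContDiff ℂ 1 F → (∀ g x, F (L.rho g * x * L.rho g⁻¹) = F x) →
      ccv L μ F (NormedSpace.exp (Z : Mt m) * L.rho k) / F 1 ^ 2 =
      ∫ y, F (NormedSpace.exp ((1 / 2 : ℂ) • (Z : Mt m)) * L.rho y) / F 1 *
        (F (NormedSpace.exp ((1 / 2 : ℂ) • (Z : Mt m)) * L.rho (k * y⁻¹)) / F 1) ∂μ := by
    intro F hF hc
    rw [ccv_sym μ hF hc Z k, ← integral_div]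
    refine integral_congr_ae (Filter.Eventually.of_forall fun y => ?_)
    simp only
    rw [div_mul_div_comm, sq]
  have hint : ∀ F : Mt m → ℂ, ContDiff ℂ 1 F → Integrable (fun y =>
      F (NormedSpace.exp ((1 / 2 : ℂ) • (Z : Mt m)) * L.rho y) / F 1 *
        (F (NormedSpace.exp ((1 / 2 : ℂ) • (Z : Mt m)) * L.rho (k * y⁻¹)) / F 1)) μ := by
    intro F hF
    obtain ⟨x, hx⟩ : ∃ x : Mt m, x = NormedSpace.exp ((1 / 2 : ℂ) • (Z : Mt m)) := ⟨_, rfl⟩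
    rw [← hx]
    have hk : Continuous fun y : G => k * y⁻¹ := continuous_const.mul continuous_inv
    have hr : Continuous fun y : G => L.rho (k * y⁻¹) := by
      simpa only [Function.comp_def] using L.cont.comp hk
    have c1 : Continuous fun y : G => F (x * L.rho y) :=
      hF.continuous.comp (continuous_const.mul L.cont)
    have c2 : Continuous fun y : G => F (x * L.rho (k * y⁻¹)) :=
      hF.continuous.comp (continuous_const.mul hr)
    exact ((c1.div_const _).mul (c2.div_const _)).integrable_of_hasCompactSupport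
      (HasCompactSupport.of_compactSpace _)
  rw [key F1 hF1 hc1, key F0 hF0 hc0, ← integral_sub (hint F1 hF1) (hint F0 hF0)]

theorem large_diff {D : LogData m} {εg δ r0 r s b r' : ℝ} (P : Par L D εg δ r0 r s b r')
    (K : ℝ) (hK : 0 < K) {s' : ℝ} (hs' : 0 ≤ s') :
    ∃ C : ℝ, 0 < C ∧ ∀ (S0 S1 : St L) (A T Dd E : ℝ),
      PairH L r0 r s b S0 S1 A T Dd E → XX r0 T Dd E ≤ K →
      ∀ Z ∈ dom L r' (r0 / 4), ∀ k : G,
      s' ≤ ‖NormedSpace.exp (reP (Z : Mt m)) * L.rho k - 1‖ →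
      ‖ccv L μ S1.F (NormedSpace.exp (Z : Mt m) * L.rho k) / S1.F 1 ^ 2 -
        ccv L μ S0.F (NormedSpace.exp (Z : Mt m) * L.rho k) / S0.F 1 ^ 2‖ ≤
        C * XX r0 T Dd E * Real.exp (-((min (2 * b) ((1 - 1 / 10000) * s' ^ 2) -
          (1 + 1 / 10000) * ‖imP (Z : Mt m)‖ ^ 2) / (4 * S0.t))) := by
  have hr0 := P.r0_pos
  have hrl := P.r_lo
  have hrh' := P.r'_hi
  have h2 := P.h2
  have hb : 0 ≤ b := by
    have := P.h3
    have : 0 ≤ r' ^ 2 := sq_nonneg _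
    have : 0 ≤ r0 ^ 2 := sq_nonneg _
    linarith
  obtain ⟨c, hc⟩ : ∃ c, c = Real.exp ((b + 2 * r0 ^ 2) * (K / r0 ^ 2) / 2) := ⟨_, rfl⟩
  have hc1 : 1 ≤ c := by
    rw [hc]
    apply Real.one_le_exp
    positivity
  refine ⟨(1 + c) ^ 2, by positivity, ?_⟩
  intro S0 S1 A T Dd E H hX Z hZ k hk
  have hXX0 : 0 ≤ XX r0 T Dd E := by
    unfold XX
    have := H.T0
    have := H.D0
    have := H.E0
    positivity
  have hT : T ≤ K / r0 ^ 2 := by
    rw [le_div_iff₀ (by positivity)]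
    unfold XX at hX
    have h1 : 0 ≤ 3 * r0 ^ 4 * Dd := by
      have := H.D0
      positivity
    have h2 := H.E0
    linarith
  rw [ccv_diff_int μ H.c0.diff H.c1.diff H.c0.conj H.c1.conj Z k]
  obtain ⟨h, hh⟩ : ∃ h, h = ‖imP (Z : Mt m)‖ := ⟨_, rfl⟩
  have hh0 : 0 ≤ h := by rw [hh]; exact norm_nonneg _
  have hhr : h < r0 / 4 := by rw [hh]; exact hZ.2
  have ex : ‖reP ((((1 / 2 : ℂ) • Z : gC L)) : Mt m)‖ = ‖reP (Z : Mt m)‖ / 2 := by
    rw [coe_half, reP_half, norm_half]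
  have eh : ‖imP ((((1 / 2 : ℂ) • Z : gC L)) : Mt m)‖ = h / 2 := by
    rw [coe_half, imP_half, norm_half, hh]
  have hxr : ‖reP (Z : Mt m)‖ < r' := hZ.1
  have hx0 : 0 ≤ ‖reP (Z : Mt m)‖ := norm_nonneg _
  have g1 : ‖reP ((((1 / 2 : ℂ) • Z : gC L)) : Mt m)‖ < r := by rw [ex]; linarith
  have g2 : ‖imP ((((1 / 2 : ℂ) • Z : gC L)) : Mt m)‖ < r0 / 8 := by rw [eh]; linarith
  have U0 := fun y => ub_one P H.c0 H.p0 H.A0 H.At0 ((1 / 2 : ℂ) • Z) g1 g2 y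
  have U1 := fun y => ub_one P H.c1 H.p1 H.A0 H.At1 ((1 / 2 : ℂ) • Z) g1 g2 y
  have Ud := fun y => ud P H ((1 / 2 : ℂ) • Z) g1 g2 y
  rw [eh] at U0 U1 Ud
  rw [coe_half] at U0 U1 Ud
  obtain ⟨a, ha⟩ : ∃ a : Mt m, a = NormedSpace.exp (reP ((1 / 2 : ℂ) • (Z : Mt m))) := ⟨_, rfl⟩
  rw [← ha] at U0 U1 Ud
  have hau : a * aᴴ = 1 := by rw [ha]; exact exp_unitary (reP_skew _)
  have haa : a * a = NormedSpace.exp (reP (Z : Mt m)) := by
    rw [ha, reP_half, ← Matrix.exp_add_of_commute _ _ (Commute.refl _), ← add_smul]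
    norm_num
  obtain ⟨x, hx⟩ : ∃ x : Mt m, x = NormedSpace.exp ((1 / 2 : ℂ) • (Z : Mt m)) := ⟨_, rfl⟩
  rw [← hx] at U0 U1 Ud ⊢
  have hch : ∀ y, Bf b S1.t ‖a * L.rho y - 1‖ (h / 2) ≤
      c * Bf b S0.t ‖a * L.rho y - 1‖ (h / 2) := by
    intro y
    rw [hc]
    exact Bf_change hb hr0 (by linarith) (by linarith) H.tt hT
  have hpt : ∀ y : G, ‖S1.F (x * L.rho y) / S1.F 1 * (S1.F (x * L.rho (k * y⁻¹)) / S1.F 1) -
      S0.F (x * L.rho y) / S0.F 1 * (S0.F (x * L.rho (k * y⁻¹)) / S0.F 1)‖ ≤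
      (1 + c) ^ 2 * XX r0 T Dd E *
      Real.exp (-((min (2 * b) ((1 - 1 / 10000) * s' ^ 2) - (1 + 1 / 10000) * h ^ 2) /
        (4 * S0.t))) := by
    intro y
    have hp := prod_diff hXX0 hc1 (Bf_pos b S0.t ‖a * L.rho y - 1‖ (h / 2)).le
      (Bf_pos b S0.t ‖a * L.rho (k * y⁻¹) - 1‖ (h / 2)).le
      ((U1 (k * y⁻¹)).trans (hch _)) (U0 y)
      ((Ud y).trans (mul_le_mul_of_nonneg_left (add_le_add le_rfl (hch _)) hXX0))
      ((Ud (k * y⁻¹)).trans (mul_le_mul_of_nonneg_left (add_le_add le_rfl (hch _)) hXX0))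
    refine hp.trans (mul_le_mul_of_nonneg_left ?_ (by positivity))
    unfold Bf
    rw [← Real.exp_add]
    apply Real.exp_le_exp.2
    have htri := tri (L := L) hau k y
    rw [haa] at htri
    have hla := large_arith (h2 := h ^ 2) hb (norm_nonneg (a * L.rho y - 1))
      (norm_nonneg (a * L.rho (k * y⁻¹) - 1)) hs' (hk.trans htri) H.p0
    have h4 : (h / 2) ^ 2 = h ^ 2 / 4 := by ring
    rw [h4]
    exact hla
  refine (norm_integral_le_of_norm_le (integrable_const _)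
    (Filter.Eventually.of_forall hpt)).trans ?_
  rw [integral_const, ← hh]
  simp

end

end Pool.Agent.T2H04.HY
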