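import Mathlib
import Pool.Agent.T2H04.HY.Conv6
import Pool.Agent.T2H04.HY.Pd4
import Pool.Agent.T2H04.HY.Pd5

/-!
# The convolution step for pairs of states
-/

open MeasureTheory Matrix Filter
open scoped Matrix.Norms.Frobenius Topology

namespace Pool.Agent.T2H04.HY

set_option linter.unusedSectionVars false

noncomputable section

variable {G : Type} [Group G] [TopologicalSpace G] [IsTopologicalGroup G] [CompactSpace G]
  [MeasurableSpace G] [BorelSpace G] (μ : Measure G) [μ.IsHaarMeasure] [IsProbabilityMeasure μ]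
  {m : Type} [Fintype m] [DecidableEq m] {L : RD G m}

/-- The one loop coefficient of a state. -/
def aCo (S : St L) : ℝ := Classical.epsilon fun a : ℝ => ∀ Z : gC L,
  Tendsto (fun s : ℝ => Complex.log (calE μ S.F S.t S.w ((s : ℂ) • Z)) / (s : ℂ) ^ 2)
    (𝓝[≠] 0) (𝓝 ((a : ℂ) * Qf (Z : Mt m)))

/-- the convolution of a state -/
def cS (S : St L) : St L :=
  ⟨ccv L μ S.F, 1 / (1 / (2 * S.t) - 2 * aCo μ S), fun Z => 2 * S.w ((1 / 2 : ℂ) • Z) -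
    (Complex.log (calE μ S.F S.t S.w Z) - aCo μ S * Qf (Z : Mt m))⟩

/-- the fourth power of a state -/
def pS (S : St L) : St L := ⟨fun x => S.F x ^ 4, S.t / 4, fun Z => 4 * S.w Z⟩

/-- the renormalisation group step for states -/
def stp (S : St L) : St L := pS (cS μ (cS μ S))

variable {μ}

theorem exists_Qf_pos (hs : Simple L) : ∃ Z : gC L, 0 < ‖Z‖ ∧ imP (Z : Mt m) = 0 ∧
    Qf (Z : Mt m) = ((‖Z‖ ^ 2 : ℝ) : ℂ) := by
  obtain ⟨X, hX, Y, -, hXY⟩ := hs.nonab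
  have hX0 : X ≠ 0 := by
    rintro rfl
    simp at hXY
  obtain ⟨Z, hZ⟩ : ∃ Z : gC L, (Z : Mt m) = X := ⟨⟨X, gC_of_lie L hX⟩, rfl⟩
  have h3 : imP (Z : Mt m) = 0 := by rw [hZ]; exact imP_of_skew (lie_skew L hX)
  have h4 : Qf (Z : Mt m) = (((Qf (Z : Mt m)).re : ℝ) : ℂ) :=
    Complex.ext (by simp) (by rw [Complex.ofReal_im]; exact Qf_im_of_real h3)
  have h5 : (Qf (Z : Mt m)).re = ‖Z‖ ^ 2 := by
    rw [Qf_re, h3, norm_zero, norm_sq_gC Z, h3, norm_zero]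
    ring
  refine ⟨Z, norm_pos_iff.2 ?_, h3, by rw [h4, h5]⟩
  intro h
  exact hX0 (by rw [← hZ, h]; rfl)

theorem aCo_eq (hs : Simple L) (S : St L) (a : ℝ) (h : ∀ Z : gC L,
    Tendsto (fun s : ℝ => Complex.log (calE μ S.F S.t S.w ((s : ℂ) • Z)) / (s : ℂ) ^ 2)
      (𝓝[≠] 0) (𝓝 ((a : ℂ) * Qf (Z : Mt m)))) : aCo μ S = a := by
  have h1 := Classical.epsilon_spec (p := fun a : ℝ => ∀ Z : gC L,
    Tendsto (fun s : ℝ => Complex.log (calE μ S.F S.t S.w ((s : ℂ) • Z)) / (s : ℂ) ^ 2)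
      (𝓝[≠] 0) (𝓝 ((a : ℂ) * Qf (Z : Mt m)))) ⟨a, h⟩
  obtain ⟨Z, hZ, -, hQ⟩ := exists_Qf_pos hs
  have h2 := tendsto_nhds_unique (h1 Z) (h Z)
  have h3 : Qf (Z : Mt m) ≠ 0 := by
    rw [hQ]
    exact Complex.ofReal_ne_zero.2 (by positivity)
  have h4 := mul_right_cancel₀ h3 h2
  exact Complex.ofReal_injective h4

/-- The convolution step for states. -/
theorem cS_spec (hs : Simple L) {D : LogData m} {εg δ r0 r s b r' : ℝ}
    (P : Par L D εg δ r0 r s b r') {Cm : ℝ}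
    (hCm : ∀ t : ℝ, 0 < t → ∫ y, (1 + dis L y ^ 2 / t + (dis L y ^ 2 / t) ^ 2) *
      Real.exp (-(1 / 2 * dis L y ^ 2 / t)) ∂μ ≤ Cm * μ.real (bal L (Real.sqrt t)))
    (hCm0 : 0 ≤ Cm) (hR : 32 * (192 / δ ^ 2 + 7400) * Cm * r0 ^ 2 ≤ 1)
    {S : St L} {A : ℝ} (cl : Cls L S.F S.t A r (r0 / 4) s b (1 / 10000))
    (hw : SFw L S.F S.t A r (r0 / 4) S.w) (T : TC μ L r0 S.t) (hA : 0 ≤ A)
    (hAt : A * S.t ≤ 1 / 10)
    {s' b' : ℝ} (hs'0 : 0 ≤ s') (hb'0 : 0 ≤ b') (h4 : b' + r0 ^ 2 / 100 ≤ 2 * b)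
    (h5 : b' + r0 ^ 2 / 100 ≤ (1 - 1 / 10000) * s' ^ 2) (h6 : b' ≤ 2 * r0 ^ 2) :
    |aCo μ S| ≤ 16 / r0 ^ 2 ∧
      (∀ Z : gC L, Tendsto (fun s : ℝ =>
        Complex.log (calE μ S.F S.t S.w ((s : ℂ) • Z)) / (s : ℂ) ^ 2)
        (𝓝[≠] 0) (𝓝 ((aCo μ S : ℂ) * Qf (Z : Mt m)))) ∧
      Cls L (cS μ S).F (cS μ S).t (A / 8 + 512 / r0 ^ 4) r' (r0 / 4) s' b' (1 / 10000) ∧
      SFw L (cS μ S).F (cS μ S).t (A / 8 + 512 / r0 ^ 4) r' (r0 / 4) (cS μ S).w := by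
  obtain ⟨a, h1, h2, h3, h7⟩ := conv_cls' hs P hCm hCm0 hR cl hw T hA hAt hs'0 hb'0 h4 h5 h6
  have ha := aCo_eq hs S a h2
  refine ⟨by rw [ha]; exact h1, by rw [ha]; exact h2, ?_, ?_⟩
  · unfold cS
    rw [ha]
    exact h3
  · unfold cS
    rw [ha]
    exact h7

theorem log_lip {z z' : ℂ} (h : ‖z - 1‖ ≤ 1 / 2) (h' : ‖z' - 1‖ ≤ 1 / 2) :
    ‖Complex.log z' - Complex.log z‖ ≤ 2 * ‖z' - z‖ := by
  have hd : ∀ x ∈ Metric.closedBall (1 : ℂ) (1 / 2), HasDerivWithinAt Complex.log x⁻¹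
      (Metric.closedBall (1 : ℂ) (1 / 2)) x := by
    intro x hx
    rw [Metric.mem_closedBall, dist_eq_norm] at hx
    exact (Complex.hasDerivAt_log (slit_of_near hx)).hasDerivWithinAt
  have hb : ∀ x ∈ Metric.closedBall (1 : ℂ) (1 / 2), ‖x⁻¹‖ ≤ 2 := by
    intro x hx
    rw [Metric.mem_closedBall, dist_eq_norm] at hx
    have h1 : 1 / 2 ≤ ‖x‖ := by
      have h2 : ‖(1 : ℂ)‖ ≤ ‖x‖ + ‖x - 1‖ := by
        have h3 : (1 : ℂ) = x - (x - 1) := by ring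
        conv_lhs => rw [h3]
        exact norm_sub_le _ _
      rw [norm_one] at h2
      linarith
    rw [norm_inv]
    exact (inv_le_comm₀ (by linarith) (by norm_num)).2 (by linarith)
  exact (convex_closedBall (1 : ℂ) (1 / 2)).norm_image_sub_le_of_norm_hasDerivWithin_le hd hb
    (by rwa [Metric.mem_closedBall, dist_eq_norm]) (by rwa [Metric.mem_closedBall, dist_eq_norm])

/-- Schwarz lemma for an even function on the domain: bounds of its quadratic part and of the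
remainder. -/
theorem schwarz_dom (hs : Simple L) {r0 r' M a : ℝ} (hr0 : 0 < r0) (hr' : r0 ≤ r')
    {f : gC L → ℂ} (hfd : DifferentiableOn ℂ f (dom L r' (r0 / 4)))
    (hfM : ∀ Z ∈ dom L r' (r0 / 4), ‖f Z‖ ≤ M) (hf0 : f 0 = 0)
    (hfe : ∀ Z ∈ dom L r' (r0 / 4), f (-Z) = f Z)
    (ha : ∀ Z : gC L, Tendsto (fun s : ℝ => f ((s : ℂ) • Z) / (s : ℂ) ^ 2) (𝓝[≠] 0)
      (𝓝 ((a : ℂ) * Qf (Z : Mt m)))) :
    |a| ≤ 16 / r0 ^ 2 * M ∧ ∀ Z ∈ dom L r' (r0 / 4),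
      ‖f Z - a * Qf (Z : Mt m)‖ ≤ 512 / r0 ^ 4 * M * ‖Z‖ ^ 4 := by
  have hball : Metric.ball (0 : gC L) (r0 / 4) ⊆ dom L r' (r0 / 4) :=
    ball_sub_dom (by linarith) le_rfl
  obtain ⟨q, -, hqb, hqr, hqt⟩ := schwarz4 (f := f) (R := r0 / 4) (M := M) (by positivity)
    (hfd.mono hball) (fun Z hZ => hfM Z (hball hZ)) hf0 (fun Z hZ => hfe Z (hball hZ))
  have hq : ∀ Z, q Z Z = (a : ℂ) * Qf (Z : Mt m) := fun Z => tendsto_nhds_unique (hqt Z) (ha Z)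
  have hM0 : 0 ≤ M := (norm_nonneg _).trans (hfM 0 (hball (Metric.mem_ball_self (by positivity))))
  refine ⟨?_, fun Z hZ => ?_⟩
  · obtain ⟨Z, hZ0, -, hQ⟩ := exists_Qf_pos hs
    have h1 := hqb Z
    rw [hq Z, hQ, norm_mul, Complex.norm_real, Complex.norm_real, Real.norm_eq_abs,
      Real.norm_eq_abs, abs_of_nonneg (sq_nonneg ‖Z‖)] at h1
    have h6 : ∀ x z c : ℝ, 0 < z → 0 < c → x * z ^ 2 ≤ M * (z / (c / 4)) ^ 2 →
        x ≤ 16 / c ^ 2 * M := by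
      intro x z c hz hc h
      have e : M * (z / (c / 4)) ^ 2 = 16 / c ^ 2 * M * z ^ 2 := by field_simp; norm_num
      rw [e] at h
      exact le_of_mul_le_mul_right h (by positivity)
    exact h6 _ _ _ hZ0 hr0 h1
  · have e : ∀ z c : ℝ, 0 < c → 512 / c ^ 4 * M * z ^ 4 = 2 * M * (z / (c / 4)) ^ 4 := by
      intro z c hc
      rw [div_pow, div_pow]
      field_simp
      ring
    rw [e _ _ hr0, ← hq Z]
    by_cases hZb : Z ∈ Metric.ball (0 : gC L) (r0 / 4)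
    · exact hqr Z hZb
    · have h7 : 1 ≤ ‖Z‖ / (r0 / 4) := by
        rw [mem_ball_zero_iff, not_lt] at hZb
        rw [le_div_iff₀ (by positivity)]
        linarith
      have h8 := hfM Z hZ
      have h9 := hqb Z
      obtain ⟨u, hu⟩ : ∃ u : ℝ, u = ‖Z‖ / (r0 / 4) := ⟨_, rfl⟩
      rw [← hu] at h7 h9 ⊢
      have h10 : 1 ≤ u ^ 2 := by nlinarith
      have h11 : u ^ 4 = u ^ 2 * u ^ 2 := by ring
      refine (norm_sub_le _ _).trans ?_
      rw [h11]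
      nlinarith [mul_nonneg hM0 (sq_nonneg u)]


theorem large_exp {t a r0 b' M X : ℝ} (ht : 0 < t) (hr0 : 0 < r0) (haabs : |a| ≤ 16 / r0 ^ 2)
    (hX0 : 0 ≤ X) (hX1 : X ≤ r0 ^ 2 / 15) (hb'0 : 0 ≤ b') (h6 : b' ≤ 2 * r0 ^ 2)
    (hmin : b' + r0 ^ 2 / 100 ≤ M) :
    -((M - X) / (4 * t)) ≤ -(r0 ^ 2 / (400 * t)) + 32 +
      -((b' - X) / (2 * (1 / (1 / (2 * t) - 2 * a)))) := by
  have e1 : (b' - X) / (2 * (1 / (1 / (2 * t) - 2 * a))) = (b' - X) / (4 * t) - a * (b' - X) := by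
    rw [mul_one_div, div_div_eq_mul_div]
    field_simp
    ring
  rw [e1]
  have c1 : a * (b' - X) ≥ -32 := by
    have d1 : |a * (b' - X)| ≤ 16 / r0 ^ 2 * (2 * r0 ^ 2) := by
      rw [abs_mul]
      refine mul_le_mul haabs ?_ (abs_nonneg _) (by positivity)
      rw [abs_le]
      constructor <;> nlinarith [sq_nonneg r0]
    have d2 : 16 / r0 ^ 2 * (2 * r0 ^ 2) = 32 := by field_simp; norm_num
    rw [d2] at d1
    exact (abs_le.1 d1).1
  have c2 : (M - X) / (4 * t) ≥ (b' + r0 ^ 2 / 100 - X) / (4 * t) :=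
    div_le_div_of_nonneg_right (by linarith) (by positivity)
  have c3 : (b' + r0 ^ 2 / 100 - X) / (4 * t) = (b' - X) / (4 * t) + r0 ^ 2 / (400 * t) := by
    field_simp
    ring
  linarith

theorem quot_diff {c1 c0 d1 d0 : ℂ} {m X B q : ℝ} (hm : 0 < m) (hd0 : d0 ≠ 0)
    (hd1 : m / 6 ≤ ‖d1‖) (h1 : ‖c1 - c0‖ ≤ m * q) (h2 : ‖c0 / d0‖ ≤ B) (h3 : ‖d1 - d0‖ ≤ X * m)
    (hX : 0 ≤ X) : ‖c1 / d1 - c0 / d0‖ ≤ 6 * (q + X * B) := by
  have hd1' : 0 < ‖d1‖ := by linarith [div_pos hm (by norm_num : (0 : ℝ) < 6)]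
  have hd1n : d1 ≠ 0 := norm_pos_iff.1 hd1'
  have e : c1 / d1 - c0 / d0 = ((c1 - c0) - c0 / d0 * (d1 - d0)) / d1 := by
    field_simp
    ring
  rw [e, norm_div, div_le_iff₀ hd1']
  have h4 : ‖(c1 - c0) - c0 / d0 * (d1 - d0)‖ ≤ m * q + B * (X * m) := by
    refine (norm_sub_le _ _).trans (add_le_add h1 ?_)
    rw [norm_mul]
    exact mul_le_mul h2 h3 (norm_nonneg _) ((norm_nonneg _).trans h2)
  have hq : 0 ≤ q := by
    have := (norm_nonneg _).trans h1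
    exact nonneg_of_mul_nonneg_right this hm
  have hB : 0 ≤ B := (norm_nonneg _).trans h2
  have h5 : 0 ≤ q + X * B := by positivity
  calc _ ≤ m * q + B * (X * m) := h4
    _ = 6 * (q + X * B) * (m / 6) := by ring
    _ ≤ 6 * (q + X * B) * ‖d1‖ := mul_le_mul_of_nonneg_left hd1 (by positivity)

/-- **The convolution step for pairs of states.** -/
theorem conv_pair (hs : Simple L) {D : LogData m} {εg δ r0 r s b r' : ℝ}
    (P : Par L D εg δ r0 r s b r') {Cm : ℝ}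
    (hCm : ∀ t : ℝ, 0 < t → ∫ y, (1 + dis L y ^ 2 / t + (dis L y ^ 2 / t) ^ 2) *
      Real.exp (-(1 / 2 * dis L y ^ 2 / t)) ∂μ ≤ Cm * μ.real (bal L (Real.sqrt t)))
    (hCm0 : 0 ≤ Cm) (hR : 32 * (192 / δ ^ 2 + 7400) * Cm * r0 ^ 2 ≤ 1)
    {s' b' : ℝ} (hs'0 : 0 ≤ s') (hb'0 : 0 ≤ b') (h4 : b' + r0 ^ 2 / 100 ≤ 2 * b)
    (h5 : b' + r0 ^ 2 / 100 ≤ (1 - 1 / 10000) * s' ^ 2) (h6 : b' ≤ 2 * r0 ^ 2)
    (K : ℝ) (hK : 0 < K) :
    ∃ C ts : ℝ, 0 < C ∧ 0 < ts ∧ ∀ (S0 S1 : St L) (A T Dd E : ℝ),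
      PairH L r0 r s b S0 S1 A T Dd E → S0.t ≤ ts → S1.t ≤ ts → XX r0 T Dd E ≤ K →
      |aCo μ S1 - aCo μ S0| ≤ C * S0.t * XX r0 T Dd E ∧
      DF L r0 r' s' b' (cS μ S0) (cS μ S1) (Dd / 8 + C * S0.t * XX r0 T Dd E)
        (C * S0.t * XX r0 T Dd E) := by
  have hr0 := P.r0_pos
  have hrl := P.r_lo
  have hrh := P.r_hi
  have hrl' := P.r'_lo
  have hrh' := P.r'_hi
  have hr2 : r' / 2 ≤ r := by linarith
  have hr'0 : 0 < r' := by linarith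
  obtain ⟨C1, ts1, hC1, hts1, H1⟩ := calE_lip μ P hCm hCm0 hR K hK
  obtain ⟨C5, hC5, H5⟩ := large_diff μ P K hK hs'0
  obtain ⟨ts0, hts0, TCs⟩ := exists_TC μ L r0 hr0
  obtain ⟨c, hc, p, hp⟩ := bal_lower μ L
  obtain ⟨ts3, hts3, hts31, H3⟩ := exp_le_pow (r0 ^ 2 / 400) 1 c (p + 2) (by positivity) one_pos hc
  set C : ℝ := (16 / r0 ^ 2 + 512 / r0 ^ 4) * (2 * C1) + 6 * (C5 * Real.exp 32 + C1) with hC
  have hCpos : 0 < C := by positivity
  refine ⟨C, min (min ts1 ts0) (min ts3 (min (r0 ^ 2 / 1000) (1 / (6 * C1 * K)))), hCpos,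
    by positivity, fun S0 S1 A T Dd E H ht0 ht1 hX => ?_⟩
  have a1 : S0.t ≤ ts1 := ht0.trans ((min_le_left _ _).trans (min_le_left _ _))
  have a2 : S1.t ≤ ts1 := ht1.trans ((min_le_left _ _).trans (min_le_left _ _))
  have a3 : S0.t ≤ ts0 := ht0.trans ((min_le_left _ _).trans (min_le_right _ _))
  have a4 : S1.t ≤ ts0 := ht1.trans ((min_le_left _ _).trans (min_le_right _ _))
  have a5 : S0.t ≤ ts3 := ht0.trans ((min_le_right _ _).trans (min_le_left _ _))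
  have a6 : S0.t ≤ r0 ^ 2 / 1000 :=
    ht0.trans ((min_le_right _ _).trans ((min_le_right _ _).trans (min_le_left _ _)))
  have a7 : S0.t ≤ 1 / (6 * C1 * K) :=
    ht0.trans ((min_le_right _ _).trans ((min_le_right _ _).trans (min_le_right _ _)))
  have hp0 := H.p0
  have hp1 := H.p1
  set X := XX r0 T Dd E with hXd
  have hX0 : 0 ≤ X := by
    have := H.T0
    have := H.D0
    have := H.E0
    rw [hXd]
    unfold XX
    positivity
  have T0 := TCs S0.t hp0 a3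
  have T1 := TCs S1.t hp1 a4
  obtain ⟨E1, E2⟩ := H1 S0 S1 A T Dd E H a1 a2 hX
  obtain ⟨b1, b2, b3, b4⟩ := cS_spec hs P hCm hCm0 hR H.c0 H.s0 T0 H.A0 H.At0 hs'0 hb'0 h4 h5 h6
  obtain ⟨d1, d2, d3, d4⟩ := cS_spec hs P hCm hCm0 hR H.c1 H.s1 T1 H.A0 H.At1 hs'0 hb'0 h4 h5 h6
  have hE0 := fun Z hZ => calE_le P hCm hCm0 hR H.c0 H.s0 T0 H.A0 H.At0 Z hZ
  have hE1 := fun Z hZ => calE_le P hCm hCm0 hR H.c1 H.s1 T1 H.A0 H.At1 Z hZ
  -- the difference of the logarithms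
  set M : ℝ := 2 * (C1 * S0.t * X) with hM
  have hsch := schwarz_dom hs (r' := r') (M := M) (a := aCo μ S1 - aCo μ S0) hr0 hrl'
    (f := fun Z => Complex.log (calE μ S1.F S1.t S1.w Z) - Complex.log (calE μ S0.F S0.t S0.w Z))
    (((calE_diff H.c1 H.s1 hr2 hr0).clog fun Z hZ => slit_of_near (hE1 Z hZ)).sub
      ((calE_diff H.c0 H.s0 hr2 hr0).clog fun Z hZ => slit_of_near (hE0 Z hZ)))
    (fun Z hZ => (log_lip (hE0 Z hZ) (hE1 Z hZ)).trans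
      (mul_le_mul_of_nonneg_left (E1 Z hZ) (by norm_num)))
    (by rw [calE_zero H.c1 H.s1 hr2 hr0 hr'0, calE_zero H.c0 H.s0 hr2 hr0 hr'0, sub_self])
    (fun Z hZ => by rw [calE_neg H.c1 H.s1 hr2 hr0 hZ, calE_neg H.c0 H.s0 hr2 hr0 hZ])
    (fun Z => by
      have h := (d2 Z).sub (b2 Z)
      rw [← sub_mul] at h
      push_cast
      refine h.congr fun s => ?_
      rw [sub_div])
  obtain ⟨k1, k2⟩ := hsch
  have ht0X : 0 ≤ S0.t * X := by positivity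
  have hCs1 : 16 / r0 ^ 2 * M ≤ C * S0.t * X := by
    have e : C * S0.t * X = 16 / r0 ^ 2 * M + (512 / r0 ^ 4 * (2 * C1) +
        6 * (C5 * Real.exp 32 + C1)) * (S0.t * X) := by
      rw [hC, hM]; ring
    rw [e]
    have : 0 ≤ (512 / r0 ^ 4 * (2 * C1) + 6 * (C5 * Real.exp 32 + C1)) * (S0.t * X) := by
      positivity
    linarith
  have hCs2 : 512 / r0 ^ 4 * M ≤ C * S0.t * X := by
    have e : C * S0.t * X = 512 / r0 ^ 4 * M + (16 / r0 ^ 2 * (2 * C1) +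
        6 * (C5 * Real.exp 32 + C1)) * (S0.t * X) := by
      rw [hC, hM]; ring
    rw [e]
    have : 0 ≤ (16 / r0 ^ 2 * (2 * C1) + 6 * (C5 * Real.exp 32 + C1)) * (S0.t * X) := by
      positivity
    linarith
  have hCs3 : 6 * ((C5 * Real.exp 32 + C1) * (S0.t * X)) ≤ C * S0.t * X := by
    have e : C * S0.t * X = 6 * ((C5 * Real.exp 32 + C1) * (S0.t * X)) +
        ((16 / r0 ^ 2 + 512 / r0 ^ 4) * (2 * C1)) * (S0.t * X) := by
      rw [hC]; ring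
    rw [e]
    have : 0 ≤ ((16 / r0 ^ 2 + 512 / r0 ^ 4) * (2 * C1)) * (S0.t * X) := by positivity
    linarith
  refine ⟨k1.trans hCs1, ⟨fun Z hZ => ?_, fun Z hZ k hk => ?_⟩⟩
  · -- the small field part
    have g1 := H.df.ww _ (half_mem hr2 hr0 hZ)
    rw [norm_half'] at g1
    have g2 := k2 Z hZ
    obtain ⟨u, hu⟩ : ∃ u : ℂ, u = S1.w ((1 / 2 : ℂ) • Z) - S0.w ((1 / 2 : ℂ) • Z) := ⟨_, rfl⟩
    obtain ⟨v, hv⟩ : ∃ v : ℂ, v = Complex.log (calE μ S1.F S1.t S1.w Z) -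
      Complex.log (calE μ S0.F S0.t S0.w Z) -
      ((aCo μ S1 - aCo μ S0 : ℝ) : ℂ) * Qf (Z : Mt m) := ⟨_, rfl⟩
    rw [← hu] at g1
    have g2' : ‖v‖ ≤ 512 / r0 ^ 4 * M * ‖Z‖ ^ 4 := by rw [hv]; exact g2
    have e : (cS μ S1).w Z - (cS μ S0).w Z = 2 * u - v := by
      rw [hu, hv]
      unfold cS
      push_cast
      ring
    rw [e]
    have e2 : ‖(2 : ℂ) * u‖ = 2 * ‖u‖ := by rw [norm_mul]; simp
    have g3 := norm_sub_le (2 * u) v
    rw [e2] at g3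
    have g4 : 512 / r0 ^ 4 * M * ‖Z‖ ^ 4 ≤ C * S0.t * X * ‖Z‖ ^ 4 :=
      mul_le_mul_of_nonneg_right hCs2 (by positivity)
    have g5 : ∀ z : ℝ, Dd * (z / 2) ^ 4 = Dd / 16 * z ^ 4 := by intro z; ring
    rw [g5] at g1
    have g6 : (Dd / 8 + C * S0.t * X) * ‖Z‖ ^ 4 =
        2 * (Dd / 16 * ‖Z‖ ^ 4) + C * S0.t * X * ‖Z‖ ^ 4 := by ring
    rw [g6]
    linarith
  · -- the large field part
    have g1 := H5 S0 S1 A T Dd E H hX Z hZ k hk
    have g2 := b3.large Z hZ k hk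
    have hmu := bal_pos μ L (Real.sqrt S0.t) (Real.sqrt_pos.2 hp0)
    set mm := μ.real (bal L (Real.sqrt S0.t)) with hmm
    set h := ‖imP (Z : Mt m)‖ with hh
    obtain ⟨Y, hY⟩ : ∃ Y : ℝ, Y = (1 + 1 / 10000) * h ^ 2 := ⟨_, rfl⟩
    have hY0 : 0 ≤ Y := by rw [hY]; positivity
    have hY1 : Y ≤ r0 ^ 2 / 15 := by
      have := pow_le_pow_left₀ (norm_nonneg _) hZ.2.le 2
      rw [hY]
      nlinarith [sq_nonneg r0]
    obtain ⟨B0, hB0⟩ : ∃ B0 : ℝ, B0 = Real.exp (-((b' - Y) / (2 * (cS μ S0).t))) := ⟨_, rfl⟩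
    obtain ⟨B1, hB1⟩ : ∃ B1 : ℝ, B1 = Real.exp (-((b' - Y) / (2 * (cS μ S1).t))) := ⟨_, rfl⟩
    have hB0p : 0 < B0 := by rw [hB0]; exact Real.exp_pos _
    have hB1p : 0 < B1 := by rw [hB1]; exact Real.exp_pos _
    rw [← hY] at g1 g2 ⊢
    rw [← hB0, ← hB1]
    rw [← hB0] at g2
    have hF0 : S0.F 1 ≠ 0 := by
      intro h0
      have := H.c0.pos
      rw [h0] at this
      simp at this
    have hF1 : S1.F 1 ≠ 0 := by
      intro h0
      have := H.c1.pos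
      rw [h0] at this
      simp at this
    have hc0ne := ccv_one_ne (μ := μ) H.c0
    -- lower bounds
    have hts : Real.sqrt S0.t < r0 / 20 := by
      rw [Real.sqrt_lt' (by positivity)]
      have h2 : 0 < r0 ^ 2 := by positivity
      nlinarith
    have hlow := ccv_one_lower μ P H.c0 H.s0 hp0 H.A0 H.At0 hts
    have hd0 : mm / 3 ≤ ‖ccv L μ S0.F 1 / S0.F 1 ^ 2‖ := by
      rw [norm_div, norm_pow, cls_normF1 H.c0, le_div_iff₀ (pow_pos H.c0.pos 2)]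
      have e1 : (ccv L μ S0.F 1).re ≤ ‖ccv L μ S0.F 1‖ := Complex.re_le_norm _
      have e2 : (1 / 3 : ℝ) ≤ Real.exp (-(51 / 50)) := by
        rw [Real.exp_neg, ← one_div, div_le_div_iff₀ (by norm_num) (Real.exp_pos _), one_mul,
          one_mul]
        have h1 : Real.exp (51 / 50) ≤ 3 := by
          have e1 : Real.exp (51 / 50) = Real.exp 1 * Real.exp (1 / 50) := by
            rw [← Real.exp_add]; norm_num
          have e2 : Real.exp (1 / 50) ≤ 1 + 2 * (1 / 50) := by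
            have := Real.exp_bound' (x := 1 / 50) (by norm_num) (by norm_num) (n := 2)
              (by norm_num)
            refine this.trans ?_
            norm_num [Finset.sum_range_succ]
          have e3 := Real.exp_one_lt_d9
          rw [e1]
          have := Real.exp_pos (1 / 50)
          nlinarith
        linarith
      refine le_trans ?_ (hlow.trans e1)
      have e3 : 0 ≤ (S0.F 1).re ^ 2 := sq_nonneg _
      calc mm / 3 * (S0.F 1).re ^ 2 = (S0.F 1).re ^ 2 * (1 / 3) * mm := by ring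
        _ ≤ _ := mul_le_mul_of_nonneg_right (mul_le_mul_of_nonneg_left e2 e3) hmu.le
    have hC1X : C1 * S0.t * X ≤ 1 / 6 := by
      rw [le_div_iff₀ (by positivity)] at a7
      have : C1 * S0.t * X ≤ C1 * S0.t * K := mul_le_mul_of_nonneg_left hX (by positivity)
      nlinarith
    have hd1 : mm / 6 ≤ ‖ccv L μ S1.F 1 / S1.F 1 ^ 2‖ := by
      have e1 : ‖ccv L μ S0.F 1 / S0.F 1 ^ 2‖ ≤ ‖ccv L μ S1.F 1 / S1.F 1 ^ 2‖ +
          ‖ccv L μ S1.F 1 / S1.F 1 ^ 2 - ccv L μ S0.F 1 / S0.F 1 ^ 2‖ := by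
        have := norm_sub_le (ccv L μ S1.F 1 / S1.F 1 ^ 2)
          (ccv L μ S1.F 1 / S1.F 1 ^ 2 - ccv L μ S0.F 1 / S0.F 1 ^ 2)
        rwa [sub_sub_cancel] at this
      have e2 : C1 * S0.t * X * mm ≤ 1 / 6 * mm := mul_le_mul_of_nonneg_right hC1X hmu.le
      linarith
    -- the exponent
    have hmin : b' + r0 ^ 2 / 100 ≤ min (2 * b) ((1 - 1 / 10000) * s' ^ 2) := le_min h4 h5
    have hexp := large_exp hp0 hr0 b1 hY0 hY1 hb'0 h6 hmin
    have hsm : Real.exp (-(r0 ^ 2 / (400 * S0.t))) ≤ S0.t * mm := by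
      have h7 := H3 S0.t hp0 a5
      rw [one_mul, div_div] at h7
      have h8 : Real.sqrt S0.t ≤ 1 := Real.sqrt_le_one.2 (a5.trans hts31)
      have h9 := hp (Real.sqrt S0.t) (Real.sqrt_pos.2 hp0) h8
      have h10 : Real.sqrt S0.t ^ (p + 2) = S0.t * Real.sqrt S0.t ^ p := by
        rw [pow_add, Real.sq_sqrt hp0.le, mul_comm]
      rw [h10] at h7
      calc _ ≤ c * (S0.t * Real.sqrt S0.t ^ p) := h7
        _ = S0.t * (c * Real.sqrt S0.t ^ p) := by ring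
        _ ≤ _ := mul_le_mul_of_nonneg_left h9 hp0.le
    have hB : Real.exp (-((min (2 * b) ((1 - 1 / 10000) * s' ^ 2) - Y) / (4 * S0.t))) ≤
        S0.t * mm * Real.exp 32 * B0 := by
      have e1 : (cS μ S0).t = 1 / (1 / (2 * S0.t) - 2 * aCo μ S0) := rfl
      rw [hB0, e1]
      refine (Real.exp_le_exp.2 hexp).trans ?_
      rw [Real.exp_add, Real.exp_add]
      exact mul_le_mul_of_nonneg_right (mul_le_mul_of_nonneg_right hsm (Real.exp_pos _).le)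
        (Real.exp_pos _).le
    have g3 : ‖ccv L μ S1.F (NormedSpace.exp (Z : Mt m) * L.rho k) / S1.F 1 ^ 2 -
        ccv L μ S0.F (NormedSpace.exp (Z : Mt m) * L.rho k) / S0.F 1 ^ 2‖ ≤
        mm * (C5 * X * (S0.t * Real.exp 32 * B0)) := by
      refine g1.trans ?_
      calc C5 * X * Real.exp (-((min (2 * b) ((1 - 1 / 10000) * s' ^ 2) - Y) / (4 * S0.t)))
          ≤ C5 * X * (S0.t * mm * Real.exp 32 * B0) := mul_le_mul_of_nonneg_left hB (by positivity)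
        _ = _ := by ring
    have g4 : ‖ccv L μ S0.F (NormedSpace.exp (Z : Mt m) * L.rho k) / S0.F 1 ^ 2 /
        (ccv L μ S0.F 1 / S0.F 1 ^ 2)‖ ≤ B0 := by
      have e1 : ccv L μ S0.F (NormedSpace.exp (Z : Mt m) * L.rho k) / S0.F 1 ^ 2 /
          (ccv L μ S0.F 1 / S0.F 1 ^ 2) =
          (cS μ S0).F (NormedSpace.exp (Z : Mt m) * L.rho k) / (cS μ S0).F 1 := by
        show _ = ccv L μ S0.F (NormedSpace.exp (Z : Mt m) * L.rho k) / ccv L μ S0.F 1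
        field_simp
      rw [e1, norm_div, cls_normF1 b3, div_le_iff₀ b3.pos, mul_comm B0]
      exact g2
    have g5 := quot_diff hmu (div_ne_zero hc0ne (pow_ne_zero 2 hF0)) hd1 g3 g4 E2 (by positivity)
    have e5 : (cS μ S1).F (NormedSpace.exp (Z : Mt m) * L.rho k) / (cS μ S1).F 1 -
        (cS μ S0).F (NormedSpace.exp (Z : Mt m) * L.rho k) / (cS μ S0).F 1 =
        ccv L μ S1.F (NormedSpace.exp (Z : Mt m) * L.rho k) / S1.F 1 ^ 2 /
          (ccv L μ S1.F 1 / S1.F 1 ^ 2) -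
        ccv L μ S0.F (NormedSpace.exp (Z : Mt m) * L.rho k) / S0.F 1 ^ 2 /
          (ccv L μ S0.F 1 / S0.F 1 ^ 2) := by
      show ccv L μ S1.F (NormedSpace.exp (Z : Mt m) * L.rho k) / ccv L μ S1.F 1 -
        ccv L μ S0.F (NormedSpace.exp (Z : Mt m) * L.rho k) / ccv L μ S0.F 1 = _
      rw [div_div_div_cancel_right₀ (pow_ne_zero 2 hF1), div_div_div_cancel_right₀
        (pow_ne_zero 2 hF0)]
    rw [e5]
    refine g5.trans ?_
    calc 6 * (C5 * X * (S0.t * Real.exp 32 * B0) + C1 * S0.t * X * B0)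
        = 6 * ((C5 * Real.exp 32 + C1) * (S0.t * X)) * B0 := by ring
      _ ≤ C * S0.t * X * B0 := mul_le_mul_of_nonneg_right hCs3 hB0p.le
      _ ≤ C * S0.t * X * (B0 + B1) := mul_le_mul_of_nonneg_left (by linarith) (by positivity)


end

end Pool.Agent.T2H04.HY
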