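import Mathlib
import Pool.Agent.T2H04.HY.Pd6
import Pool.Agent.T2H04.HY.Step

/-!
# The renormalisation group step for states and for pairs of states
-/

open MeasureTheory Matrix Filter
open scoped Matrix.Norms.Frobenius Topology

namespace Pool.Agent.T2H04.HY

set_option linter.unusedSectionVars false

noncomputable section

variable {G : Type} [Group G] [TopologicalSpace G] [IsTopologicalGroup G] [CompactSpace G]
  [MeasurableSpace G] [BorelSpace G] {μ : Measure G} [μ.IsHaarMeasure] [IsProbabilityMeasure μ]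
  {m : Type} [Fintype m] [DecidableEq m] {L : RD G m}

/-- the good states -/
structure GSt (L : RD G m) (r0 : ℝ) (S : St L) (A : ℝ) : Prop where
  p : 0 < S.t
  A0 : 0 ≤ A
  At : A * S.t ≤ 1 / 10
  c : Cl0 L r0 S.F S.t A
  sf : SFw L S.F S.t A r0 (r0 / 4) S.w

theorem SFw.pow4 {F : Mt m → ℂ} {t A r τ : ℝ} {w : gC L → ℂ} (h : SFw L F t A r τ w)
    (ht : 0 < t) : SFw L (fun x => F x ^ 4) (t / 4) (4 * A) r τ (fun Z => 4 * w Z) := by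
  refine ⟨h.diff.const_mul 4, fun Z hZ => ?_, fun g Z hZ Z' h' => ?_,
      fun Z hZ h' => ?_, fun Z hZ => ?_, fun Z hZ => ?_⟩
  · show 4 * w (-Z) = 4 * w Z
    rw [h.even Z hZ]
  · show 4 * w Z' = 4 * w Z
    rw [h.ad g Z hZ Z' h']
  · simp [h.real Z hZ h']
  · rw [norm_mul]
    have : ‖(4 : ℂ)‖ = 4 := by simp
    rw [this, mul_assoc]
    exact mul_le_mul_of_nonneg_left (h.le Z hZ) (by norm_num)
  · rw [h.eq Z hZ, mul_pow, ← Complex.exp_nat_mul]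
    congr 2
    have ht' : (t : ℂ) ≠ 0 := by exact_mod_cast ht.ne'
    push_cast
    field_simp

theorem Cls.mono {F : Mt m → ℂ} {t A A' r τ s b ε : ℝ} (cl : Cls L F t A r τ s b ε)
    (h : A ≤ A') : Cls L F t A' r τ s b ε := by
  obtain ⟨w, h1, h2, h3, h4, h5, h6⟩ := cl.small
  exact ⟨cl.diff, cl.conj, cl.inv, cl.real, cl.nonneg, cl.pos, ⟨w, h1, h2, h3, h4, fun Z hZ =>
    (h5 Z hZ).trans (mul_le_mul_of_nonneg_right h (by positivity)), h6⟩, cl.large⟩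

theorem SFw.mono {F : Mt m → ℂ} {t A A' r τ : ℝ} {w : gC L → ℂ} (hw : SFw L F t A r τ w)
    (h : A ≤ A') : SFw L F t A' r τ w :=
  ⟨hw.diff, hw.even, hw.ad, hw.real, fun Z hZ =>
    (hw.le Z hZ).trans (mul_le_mul_of_nonneg_right h (by positivity)), hw.eq⟩

theorem GSt.mono {r0 A A' : ℝ} {S : St L} (h : GSt L r0 S A) (hA : A ≤ A')
    (hA' : A' * S.t ≤ 1 / 10) : GSt L r0 S A' :=
  ⟨h.p, h.A0.trans hA, hA', Cls.mono h.c hA, h.sf.mono hA⟩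

/-- the arithmetic of the two convolutions, independent of the one loop coefficient -/
structure Two (μ : Measure G) (L : RD G m) (r0 : ℝ) (S : St L) (A : ℝ) : Prop where
  c1 : Cls L (cS μ S).F (cS μ S).t (A / 8 + 512 / r0 ^ 4) (6 / 5 * r0) (r0 / 4) (114 / 100 * r0)
    (124 / 100 * r0 ^ 2) (1 / 10000)
  s1 : SFw L (cS μ S).F (cS μ S).t (A / 8 + 512 / r0 ^ 4) (6 / 5 * r0) (r0 / 4) (cS μ S).w
  c2 : Cl0 L r0 (cS μ (cS μ S)).F (cS μ (cS μ S)).t ((A / 8 + 512 / r0 ^ 4) / 8 + 512 / r0 ^ 4)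
  s2 : SFw L (cS μ (cS μ S)).F (cS μ (cS μ S)).t ((A / 8 + 512 / r0 ^ 4) / 8 + 512 / r0 ^ 4) r0
    (r0 / 4) (cS μ (cS μ S)).w
  p1 : 0 < (cS μ S).t
  q1 : (cS μ S).t ≤ 21 / 10 * S.t
  e1 : 1 / (cS μ S).t = 1 / (2 * S.t) - 2 * aCo μ S
  p2 : 0 < (cS μ (cS μ S)).t
  q2 : (cS μ (cS μ S)).t ≤ 21 / 10 * (cS μ S).t
  e2 : 1 / (cS μ (cS μ S)).t = 1 / (2 * (cS μ S).t) - 2 * aCo μ (cS μ S)
  A1 : (A / 8 + 512 / r0 ^ 4) * (cS μ S).t ≤ 1 / 10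
  A2 : 4 * ((A / 8 + 512 / r0 ^ 4) / 8 + 512 / r0 ^ 4) * ((cS μ (cS μ S)).t / 4) ≤ 1 / 10
  l1 : ∀ Z : gC L, Tendsto (fun s : ℝ =>
    Complex.log (calE μ S.F S.t S.w ((s : ℂ) • Z)) / (s : ℂ) ^ 2)
      (𝓝[≠] 0) (𝓝 ((aCo μ S : ℂ) * Qf (Z : Mt m)))
  l2 : ∀ Z : gC L, Tendsto (fun s : ℝ =>
    Complex.log (calE μ (cS μ S).F (cS μ S).t (cS μ S).w ((s : ℂ) • Z)) / (s : ℂ) ^ 2)
      (𝓝[≠] 0) (𝓝 ((aCo μ (cS μ S) : ℂ) * Qf (Z : Mt m)))

theorem two_spec (hs : Simple L) {D : LogData m} {δ r0 Cm : ℝ} (R : RGp μ L D δ r0 Cm) :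
    ∃ ts : ℝ, 0 < ts ∧ ts ≤ 1 ∧ ∀ (S : St L) (A : ℝ), GSt L r0 S A → S.t ≤ ts → Two μ L r0 S A := by
  have hr0 := R.p1.r0_pos
  obtain ⟨ts0, hts0, T⟩ := exists_TC μ L r0 hr0
  set c : ℝ := 512 / r0 ^ 4 with hc
  have hc0 : 0 < c := by positivity
  refine ⟨min (min 1 (ts0 / 3)) (min (r0 ^ 2 / 10000) (1 / (200 * c))), by positivity,
    (min_le_left _ _).trans (min_le_left _ _), fun S A h htl => ?_⟩
  have a3 : S.t ≤ ts0 / 3 := htl.trans ((min_le_left _ _).trans (min_le_right _ _))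
  have a4 : S.t ≤ r0 ^ 2 / 10000 := htl.trans ((min_le_right _ _).trans (min_le_left _ _))
  have a5 : S.t ≤ 1 / (200 * c) := htl.trans ((min_le_right _ _).trans (min_le_right _ _))
  have ht := h.p
  have hA := h.A0
  have a7 : c * S.t ≤ 1 / 200 := by
    rw [le_div_iff₀ (by positivity)] at a5
    linarith
  have hr2 : 0 < r0 ^ 2 := by positivity
  obtain ⟨g1, g2, g3, g4⟩ := cS_spec hs R.p1 R.hCm R.Cm0 R.hR h.c h.sf (T S.t ht (by linarith)) hA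
    h.At (s' := 114 / 100 * r0) (b' := 124 / 100 * r0 ^ 2) (by positivity) (by positivity)
    (by linarith) (by linarith [sq_nonneg r0, (by ring : (114 / 100 * r0) ^ 2 = 12996 / 10000 * r0 ^ 2)]) (by linarith)
  obtain ⟨h20, h21, h22⟩ := step_arith1 (t2 := (cS μ S).t) ht hr2 g1 (by linarith) rfl
  have hA2 : 0 ≤ A / 8 + c := by positivity
  have hAt2 : (A / 8 + c) * (cS μ S).t ≤ 1 / 10 :=
    (step_arith2 ht hA h.At hc0.le a7 h20 h21 (t3 := (cS μ S).t) h20 (by linarith)).1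
  obtain ⟨k1, k2, k3, k4⟩ := cS_spec hs R.p2 R.hCm R.Cm0 R.hR g3 g4
    (T (cS μ S).t h20 (by linarith)) hA2 hAt2 (s' := 95 / 100 * r0) (b' := 84 / 100 * r0 ^ 2)
    (by positivity) (by positivity) (by linarith)
    (by linarith [sq_nonneg r0, (by ring : (95 / 100 * r0) ^ 2 = 9025 / 10000 * r0 ^ 2)])
    (by linarith)
  obtain ⟨h30, h31, h32⟩ := step_arith1 (t2 := (cS μ (cS μ S)).t) h20 hr2 k1 (by linarith) rfl
  have hAt3 := (step_arith2 ht hA h.At hc0.le a7 h20 h21 h30 h31).2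
  exact ⟨g3, g4, k3, k4, h20, h21, h22, h30, h31, h32, hAt2, hAt3, g2, k2⟩

theorem Two.gs {r0 A : ℝ} {S : St L} (h : Two μ L r0 S A) (hA : 0 ≤ A) :
    GSt L r0 (stp μ S) (4 * ((A / 8 + 512 / r0 ^ 4) / 8 + 512 / r0 ^ 4)) := by
  have h2 := h.p2
  exact ⟨by show 0 < (cS μ (cS μ S)).t / 4; positivity, by positivity, h.A2, h.c2.pow4 h.p2,
    h.s2.pow4 h.p2⟩

theorem Two.inv {r0 A : ℝ} {S : St L} (h : Two μ L r0 S A) :
    1 / (stp μ S).t = 1 / S.t - 4 * aCo μ S - 8 * aCo μ (cS μ S) := by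
  have h1 := h.e1
  have h2 := h.e2
  have e0 : (stp μ S).t = (cS μ (cS μ S)).t / 4 := rfl
  have e1 : 1 / ((cS μ (cS μ S)).t / 4) = 4 * (1 / (cS μ (cS μ S)).t) := by field_simp
  have e2 : 1 / (2 * (cS μ S).t) = 1 / 2 * (1 / (cS μ S).t) := by field_simp
  have e3 : 1 / (2 * S.t) = 1 / 2 * (1 / S.t) := by field_simp
  rw [e0, e1, h2, e2, h1, e3]
  ring

/-- **The renormalisation group step for states.** -/
theorem stp_spec (hs : Simple L) {D : LogData m} {δ r0 Cm : ℝ} (R : RGp μ L D δ r0 Cm)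
    {n : ℕ} (E : Fin n → Mt m) (hE : ∀ a, E a ∈ lieSet L)
    (orth : ∀ a b, (trace ((E a)ᴴ * E b)).re = if a = b then 1 else 0)
    (full : ∀ Y ∈ lieSet L, Y ∈ Submodule.span ℝ (Set.range E)) (hne : ∃ X ∈ lieSet L, X ≠ 0)
    (cas : ℝ) (hcas : ∀ X ∈ lieSet L, ∑ a, ‖E a * X - X * E a‖ ^ 2 = cas * ‖X‖ ^ 2) :
    ∃ C ts : ℝ, 0 < C ∧ 0 < ts ∧ ∀ (S : St L) (A : ℝ), GSt L r0 S A → S.t ≤ ts →
      GSt L r0 (stp μ S) (4 * ((A / 8 + 512 / r0 ^ 4) / 8 + 512 / r0 ^ 4)) ∧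
      (stp μ S).t ≤ 2 * S.t ∧
      |1 / (stp μ S).t - 1 / S.t + cas / 8| ≤ C * (Real.sqrt S.t + A * S.t) := by
  obtain ⟨C1, ts1, hC1, hts1, d1⟩ := drift (μ := μ) R.p1 E hE orth full hne cas hcas
  obtain ⟨C2, ts2, hC2, hts2, d2⟩ := drift (μ := μ) R.p2 E hE orth full hne cas hcas
  obtain ⟨ts0, hts0, hts01, T⟩ := two_spec hs R
  have hr0 := R.p1.r0_pos
  set c : ℝ := 512 / r0 ^ 4 with hc
  have hc0 : 0 < c := by positivity
  refine ⟨4 * C1 + 8 * C2 * (2 + 3 * c), min (min ts1 (ts2 / 3)) ts0, by positivity, by positivity,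
    fun S A h htl => ?_⟩
  have a1 : S.t ≤ ts1 := htl.trans ((min_le_left _ _).trans (min_le_left _ _))
  have a2 : S.t ≤ ts2 / 3 := htl.trans ((min_le_left _ _).trans (min_le_right _ _))
  have a3 : S.t ≤ ts0 := htl.trans (min_le_right _ _)
  have W := T S A h a3
  have ht := h.p
  have q1 := W.q1
  have q2 := W.q2
  have e1 := d1 S.F S.t A S.w (aCo μ S) ht a1 h.A0 h.At h.c h.sf W.l1
  have e2 := d2 (cS μ S).F (cS μ S).t (A / 8 + c) (cS μ S).w (aCo μ (cS μ S)) W.p1 (by linarith)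
    (by have := h.A0; positivity) W.A1 W.c1 W.s1 W.l2
  refine ⟨W.gs h.A0, ?_, ?_⟩
  · show (cS μ (cS μ S)).t / 4 ≤ 2 * S.t
    linarith
  · have h7 : 1 / (stp μ S).t - 1 / S.t + cas / 8 =
        -(4 * aCo μ S) - 8 * aCo μ (cS μ S) + cas / 8 := by
      rw [W.inv]
      ring
    rw [h7]
    exact step_arith3 ht (a3.trans hts01) h.A0 hc0.le W.p1 q1 hC2.le e1 e2

/-- the parameters of the class of the ultraviolet analysis -/
abbrev DF0 (L : RD G m) (r0 : ℝ) (S0 S1 : St L) (Dd E : ℝ) : Prop :=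
  DF L r0 r0 (95 / 100 * r0) (84 / 100 * r0 ^ 2) S0 S1 Dd E

theorem four_add_pow (x y : ℝ) (hx : 0 ≤ x) (hy : 0 ≤ y) :
    (x + y) * max x y ^ 3 ≤ 2 * (x ^ 4 + y ^ 4) := by
  rcases le_total x y with h | h
  · rw [max_eq_right h]
    have h1 : x * y ^ 3 ≤ y * y ^ 3 := mul_le_mul_of_nonneg_right h (by positivity)
    have h2 : 0 ≤ x ^ 4 := by positivity
    nlinarith
  · rw [max_eq_left h]
    have h1 : y * x ^ 3 ≤ x * x ^ 3 := mul_le_mul_of_nonneg_right h (by positivity)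
    have h2 : 0 ≤ y ^ 4 := by positivity
    nlinarith

theorem pow4_diff {z w : ℂ} {x y E : ℝ} (hz : ‖z‖ ≤ x) (hw : ‖w‖ ≤ y)
    (h : ‖w - z‖ ≤ E * (x + y)) : ‖w ^ 4 - z ^ 4‖ ≤ 8 * E * (x ^ 4 + y ^ 4) := by
  have hx : 0 ≤ x := (norm_nonneg _).trans hz
  have hy : 0 ≤ y := (norm_nonneg _).trans hw
  have e : w ^ 4 - z ^ 4 = (w - z) * (w ^ 3 + w ^ 2 * z + w * z ^ 2 + z ^ 3) := by ring
  obtain ⟨M, hM⟩ : ∃ M, M = max x y := ⟨_, rfl⟩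
  have hM0 : 0 ≤ M := by rw [hM]; exact le_max_of_le_left hx
  have hz' : ‖z‖ ≤ M := by rw [hM]; exact hz.trans (le_max_left _ _)
  have hw' : ‖w‖ ≤ M := by rw [hM]; exact hw.trans (le_max_right _ _)
  have h2 : ‖w ^ 3 + w ^ 2 * z + w * z ^ 2 + z ^ 3‖ ≤ 4 * M ^ 3 := by
    have b1 : ‖w ^ 3‖ ≤ M ^ 3 := by
      rw [norm_pow]; exact pow_le_pow_left₀ (norm_nonneg _) hw' 3
    have b2 : ‖w ^ 2 * z‖ ≤ M ^ 3 := by
      rw [norm_mul, norm_pow]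
      calc ‖w‖ ^ 2 * ‖z‖ ≤ M ^ 2 * M := mul_le_mul (pow_le_pow_left₀ (norm_nonneg _) hw' 2) hz'
            (norm_nonneg _) (by positivity)
        _ = M ^ 3 := by ring
    have b3 : ‖w * z ^ 2‖ ≤ M ^ 3 := by
      rw [norm_mul, norm_pow]
      calc ‖w‖ * ‖z‖ ^ 2 ≤ M * M ^ 2 := mul_le_mul hw' (pow_le_pow_left₀ (norm_nonneg _) hz' 2)
            (by positivity) hM0
        _ = M ^ 3 := by ring
    have b4 : ‖z ^ 3‖ ≤ M ^ 3 := by
      rw [norm_pow]; exact pow_le_pow_left₀ (norm_nonneg _) hz' 3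
    have := norm_add_le (w ^ 3 + w ^ 2 * z + w * z ^ 2) (z ^ 3)
    have := norm_add_le (w ^ 3 + w ^ 2 * z) (w * z ^ 2)
    have := norm_add_le (w ^ 3) (w ^ 2 * z)
    linarith
  rw [e, norm_mul]
  have hE : 0 ≤ E * (x + y) := (norm_nonneg _).trans h
  have h3 := four_add_pow x y hx hy
  rw [← hM] at h3
  rcases eq_or_lt_of_le (add_nonneg hx hy) with h0 | h0
  · have hx0 : x = 0 := by linarith
    have hy0 : y = 0 := by linarith
    have hM00 : M = 0 := by rw [hM, hx0, hy0, max_self]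
    rw [hM00] at h2
    have h5 : ‖w ^ 3 + w ^ 2 * z + w * z ^ 2 + z ^ 3‖ ≤ 0 := by linarith
    rw [norm_le_zero_iff.1 h5, norm_zero, mul_zero, hx0, hy0]
    norm_num
  · have hE0 : 0 ≤ E := nonneg_of_mul_nonneg_left hE h0
    calc _ ≤ E * (x + y) * (4 * M ^ 3) := mul_le_mul h h2 (norm_nonneg _) hE
      _ = 4 * E * ((x + y) * M ^ 3) := by ring
      _ ≤ 4 * E * (2 * (x ^ 4 + y ^ 4)) := mul_le_mul_of_nonneg_left h3 (by positivity)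
      _ = _ := by ring

theorem DF.pow4 {r0 r s b A : ℝ} {S0 S1 : St L} {Dd E : ℝ} (h : DF L r0 r s b S0 S1 Dd E)
    (c0 : Cls L S0.F S0.t A r (r0 / 4) s b (1 / 10000))
    (c1 : Cls L S1.F S1.t A r (r0 / 4) s b (1 / 10000)) (p0 : 0 < S0.t) (p1 : 0 < S1.t) :
    DF L r0 r s b (pS S0) (pS S1) (4 * Dd) (8 * E) := by
  refine ⟨fun Z hZ => ?_, fun Z hZ y hy => ?_⟩
  · have h1 := h.ww Z hZ
    have e : (pS S1).w Z - (pS S0).w Z = 4 * (S1.w Z - S0.w Z) := by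
      show 4 * S1.w Z - 4 * S0.w Z = _
      ring
    have e2 : ‖(4 : ℂ) * (S1.w Z - S0.w Z)‖ = 4 * ‖S1.w Z - S0.w Z‖ := by rw [norm_mul]; simp
    rw [e, e2]
    linarith
  · have h1 := h.ll Z hZ y hy
    have k0 := c0.large Z hZ y hy
    have k1 := c1.large Z hZ y hy
    obtain ⟨Y, hY⟩ : ∃ Y : ℝ, Y = b - (1 + 1 / 10000) * ‖imP (Z : Mt m)‖ ^ 2 := ⟨_, rfl⟩
    obtain ⟨x, hx⟩ : ∃ x : ℝ, x = Real.exp (-(Y / (2 * S0.t))) := ⟨_, rfl⟩
    obtain ⟨x', hx'⟩ : ∃ x' : ℝ, x' = Real.exp (-(Y / (2 * S1.t))) := ⟨_, rfl⟩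
    rw [← hY] at h1 k0 k1 ⊢
    rw [← hx, ← hx'] at h1
    rw [← hx] at k0
    rw [← hx'] at k1
    have hn0 : ‖S0.F (NormedSpace.exp (Z : Mt m) * L.rho y) / S0.F 1‖ ≤ x := by
      rw [norm_div, cls_normF1 c0, div_le_iff₀ c0.pos, mul_comm x]
      exact k0
    have hn1 : ‖S1.F (NormedSpace.exp (Z : Mt m) * L.rho y) / S1.F 1‖ ≤ x' := by
      rw [norm_div, cls_normF1 c1, div_le_iff₀ c1.pos, mul_comm x']
      exact k1
    have h2 := pow4_diff hn0 hn1 h1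
    have e0 : Real.exp (-(Y / (2 * (pS S0).t))) = x ^ 4 := by
      rw [hx, ← Real.exp_nat_mul]
      congr 1
      show -(Y / (2 * (S0.t / 4))) = _
      push_cast
      field_simp
    have e1 : Real.exp (-(Y / (2 * (pS S1).t))) = x' ^ 4 := by
      rw [hx', ← Real.exp_nat_mul]
      congr 1
      show -(Y / (2 * (S1.t / 4))) = _
      push_cast
      field_simp
    rw [e0, e1]
    have e2 : (pS S1).F (NormedSpace.exp (Z : Mt m) * L.rho y) / (pS S1).F 1 -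
        (pS S0).F (NormedSpace.exp (Z : Mt m) * L.rho y) / (pS S0).F 1 =
        (S1.F (NormedSpace.exp (Z : Mt m) * L.rho y) / S1.F 1) ^ 4 -
        (S0.F (NormedSpace.exp (Z : Mt m) * L.rho y) / S0.F 1) ^ 4 := by
      rw [div_pow, div_pow]
      rfl
    rw [e2]
    exact h2

/-- the arithmetic of the pair step -/
theorem pair_arith {r0 dl X t0 t1 C1 C2 X1 T2 X2 K : ℝ} (hr0 : 0 < r0) (hr01 : r0 ≤ 1 / 2000)
    (hdl : 0 ≤ dl) (hX : 0 ≤ X) (hK : dl + X ≤ K) (ht0 : 0 < t0) (ht1 : 0 < t1)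
    (ht01 : t1 ≤ 21 / 10 * t0) (hC1 : 0 < C1) (hC2 : 0 < C2)
    (hX1 : X1 = XX r0 dl X X) (hT2 : T2 = dl / 2 + 2 * (C1 * t0 * X1))
    (hX2 : X2 = XX r0 T2 (X / 8 + C1 * t0 * X1) (C1 * t0 * X1)) (hts : C1 * t0 ≤ 1 / 8) :
    0 ≤ X1 ∧ X1 ≤ 2 * (dl + X) ∧ 0 ≤ X2 ∧ X2 ≤ 2 * (dl + X) ∧ X1 ≤ 2 * K ∧ X2 ≤ 2 * K ∧
      4 * C1 * t0 * X1 + 8 * C2 * t1 * X2 ≤ (8 * C1 + 34 * C2) * t0 * (dl + X) := by
  have hr2 : r0 ^ 2 ≤ 1 / 10 := by nlinarith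
  have hr4 : r0 ^ 4 ≤ 1 / 100 := by
    have : r0 ^ 4 = r0 ^ 2 * r0 ^ 2 := by ring
    rw [this]
    nlinarith [sq_nonneg r0]
  have hr20 : 0 ≤ r0 ^ 2 := by positivity
  have hr40 : 0 ≤ r0 ^ 4 := by positivity
  have a0 : 0 ≤ X1 := by rw [hX1]; unfold XX; positivity
  have a1 : X1 ≤ 2 * (dl + X) := by
    rw [hX1]
    unfold XX
    nlinarith [mul_le_mul_of_nonneg_right hr2 hdl, mul_le_mul_of_nonneg_right hr4 hX]
  have b0 : 0 ≤ C1 * t0 * X1 := by positivity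
  have b1 : C1 * t0 * X1 ≤ 1 / 4 * (dl + X) := by
    have := mul_le_mul_of_nonneg_right hts a0
    linarith
  have c0 : 0 ≤ T2 := by rw [hT2]; positivity
  have c1 : T2 ≤ dl + X := by rw [hT2]; linarith
  have d0 : 0 ≤ X2 := by rw [hX2]; unfold XX; positivity
  have d1 : X2 ≤ 2 * (dl + X) := by
    rw [hX2]
    unfold XX
    have e1 := mul_le_mul_of_nonneg_right hr2 c0
    have e2 := mul_le_mul_of_nonneg_right hr4 (add_nonneg (by positivity : 0 ≤ X / 8) b0)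
    linarith
  refine ⟨a0, a1, d0, d1, by linarith, by linarith, ?_⟩
  have f1 : C1 * t0 * X1 ≤ C1 * t0 * (2 * (dl + X)) := mul_le_mul_of_nonneg_left a1 (by positivity)
  have f2 : C2 * t1 * X2 ≤ C2 * (21 / 10 * t0) * (2 * (dl + X)) :=
    mul_le_mul (mul_le_mul_of_nonneg_left ht01 hC2.le) d1 d0 (by positivity)
  have f3 : 0 ≤ C2 * t0 * (dl + X) := by positivity
  nlinarith

/-- **The renormalisation group step for pairs of states.** -/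
theorem stp_pair (hs : Simple L) {D : LogData m} {δ r0 Cm : ℝ} (R : RGp μ L D δ r0 Cm) (K : ℝ)
    (hK : 0 < K) :
    ∃ C ts : ℝ, 0 < C ∧ 0 < ts ∧ ∀ (S0 S1 : St L) (A X : ℝ), GSt L r0 S0 A → GSt L r0 S1 A →
      0 ≤ X → S0.t ≤ ts → S1.t ≤ ts → |1 / S1.t - 1 / S0.t| + X ≤ K → DF0 L r0 S0 S1 X X →
      DF0 L r0 (stp μ S0) (stp μ S1) (X / 16 + C * S0.t * (|1 / S1.t - 1 / S0.t| + X))
        (X / 16 + C * S0.t * (|1 / S1.t - 1 / S0.t| + X)) ∧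
      |(1 / (stp μ S1).t - 1 / (stp μ S0).t) - (1 / S1.t - 1 / S0.t)| ≤
        C * S0.t * (|1 / S1.t - 1 / S0.t| + X) := by
  have hr0 := R.p1.r0_pos
  have hr01 := R.p1.r0_le
  obtain ⟨C1, ts1, hC1, hts1, H1⟩ := conv_pair hs R.p1 R.hCm R.Cm0 R.hR (s' := 114 / 100 * r0)
    (b' := 124 / 100 * r0 ^ 2) (by positivity) (by positivity) (by nlinarith) (by nlinarith)
    (by nlinarith) (2 * K) (by positivity)
  obtain ⟨C2, ts2, hC2, hts2, H2⟩ := conv_pair hs R.p2 R.hCm R.Cm0 R.hR (s' := 95 / 100 * r0)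
    (b' := 84 / 100 * r0 ^ 2) (by positivity) (by positivity) (by nlinarith) (by nlinarith)
    (by nlinarith) (2 * K) (by positivity)
  obtain ⟨ts0, hts0, hts01, T⟩ := two_spec hs R
  refine ⟨8 * C1 + 34 * C2, min (min ts1 (ts2 / 3)) (min ts0 (1 / (8 * C1))), by positivity,
    by positivity, fun S0 S1 A X h0 h1 hX ht0 ht1 hKX df => ?_⟩
  have a1 : S0.t ≤ ts1 := ht0.trans ((min_le_left _ _).trans (min_le_left _ _))
  have a1' : S1.t ≤ ts1 := ht1.trans ((min_le_left _ _).trans (min_le_left _ _))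
  have a2 : S0.t ≤ ts2 / 3 := ht0.trans ((min_le_left _ _).trans (min_le_right _ _))
  have a2' : S1.t ≤ ts2 / 3 := ht1.trans ((min_le_left _ _).trans (min_le_right _ _))
  have a3 : S0.t ≤ ts0 := ht0.trans ((min_le_right _ _).trans (min_le_left _ _))
  have a3' : S1.t ≤ ts0 := ht1.trans ((min_le_right _ _).trans (min_le_left _ _))
  have a4 : S0.t ≤ 1 / (8 * C1) := ht0.trans ((min_le_right _ _).trans (min_le_right _ _))
  have a5 : C1 * S0.t ≤ 1 / 8 := by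
    rw [le_div_iff₀ (by positivity)] at a4
    linarith
  have W0 := T S0 A h0 a3
  have W1 := T S1 A h1 a3'
  have hp0 := h0.p
  have hp1 := h1.p
  have q0 := W0.q1
  have q1 := W1.q1
  obtain ⟨dl, hdl⟩ : ∃ dl : ℝ, dl = |1 / S1.t - 1 / S0.t| := ⟨_, rfl⟩
  have hdl0 : 0 ≤ dl := by rw [hdl]; exact abs_nonneg _
  rw [← hdl] at hKX ⊢
  obtain ⟨X1, hX1⟩ : ∃ X1 : ℝ, X1 = XX r0 dl X X := ⟨_, rfl⟩
  obtain ⟨T2, hT2⟩ : ∃ T2 : ℝ, T2 = dl / 2 + 2 * (C1 * S0.t * X1) := ⟨_, rfl⟩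
  obtain ⟨X2, hX2⟩ : ∃ X2 : ℝ, X2 = XX r0 T2 (X / 8 + C1 * S0.t * X1) (C1 * S0.t * X1) := ⟨_, rfl⟩
  obtain ⟨z0, z1, z2, z3, z4, z5, z6⟩ := pair_arith (t0 := S0.t) (t1 := (cS μ S0).t) hr0 hr01 hdl0
    hX hKX hp0 W0.p1 q0 hC1 hC2 hX1 hT2 hX2 a5
  -- the first convolution
  have P1 : PairH L r0 r0 (95 / 100 * r0) (84 / 100 * r0 ^ 2) S0 S1 A dl X X :=
    ⟨h0.c, h1.c, h0.sf, h1.sf, hp0, hp1, h0.A0, h0.At, h1.At, hdl0, hX, hX, hdl.ge, df⟩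
  obtain ⟨u1, u2⟩ := H1 S0 S1 A dl X X P1 a1 a1' (by rw [← hX1]; exact z4)
  rw [← hX1] at u1 u2
  -- the second convolution
  have hA2 : 0 ≤ A / 8 + 512 / r0 ^ 4 := by
    have := h0.A0
    positivity
  have hT2' : |1 / (cS μ S1).t - 1 / (cS μ S0).t| ≤ T2 := by
    have e1 : 1 / (cS μ S1).t - 1 / (cS μ S0).t = (1 / S1.t - 1 / S0.t) / 2 -
        2 * (aCo μ S1 - aCo μ S0) := by
      rw [W1.e1, W0.e1]
      have f1 : 1 / (2 * S1.t) = 1 / 2 * (1 / S1.t) := by field_simp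
      have f0 : 1 / (2 * S0.t) = 1 / 2 * (1 / S0.t) := by field_simp
      rw [f1, f0]
      ring
    rw [e1, hT2]
    refine (abs_sub _ _).trans ?_
    rw [abs_div, abs_mul, abs_of_pos (by norm_num : (0 : ℝ) < 2), ← hdl]
    linarith
  have P2 : PairH L r0 (6 / 5 * r0) (114 / 100 * r0) (124 / 100 * r0 ^ 2) (cS μ S0) (cS μ S1)
      (A / 8 + 512 / r0 ^ 4) T2 (X / 8 + C1 * S0.t * X1) (C1 * S0.t * X1) :=
    ⟨W0.c1, W1.c1, W0.s1, W1.s1, W0.p1, W1.p1, hA2, W0.A1, W1.A1, (abs_nonneg _).trans hT2',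
      by positivity, by positivity, hT2', u2⟩
  obtain ⟨v1, v2⟩ := H2 (cS μ S0) (cS μ S1) (A / 8 + 512 / r0 ^ 4) T2 (X / 8 + C1 * S0.t * X1)
    (C1 * S0.t * X1) P2 (by linarith) (by linarith) (by rw [← hX2]; exact z5)
  rw [← hX2] at v1 v2
  have hp01 := W0.p1
  have hpow := v2.pow4 W0.c2 W1.c2 W0.p2 W1.p2
  refine ⟨⟨fun Z hZ => (hpow.ww Z hZ).trans ?_, fun Z hZ y hy => (hpow.ll Z hZ y hy).trans ?_⟩, ?_⟩
  · refine mul_le_mul_of_nonneg_right ?_ (by positivity)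
    have e1 : 0 ≤ C1 * S0.t * X1 := by positivity
    have e2 : 0 ≤ C2 * (cS μ S0).t * X2 := by positivity
    linarith
  · refine mul_le_mul_of_nonneg_right ?_ (by positivity)
    have e1 : 0 ≤ C1 * S0.t * X1 := by positivity
    have e2 : 0 ≤ C2 * (cS μ S0).t * X2 := by positivity
    linarith
  · have e1 : (1 / (stp μ S1).t - 1 / (stp μ S0).t) - (1 / S1.t - 1 / S0.t) =
        -(4 * (aCo μ S1 - aCo μ S0)) - 8 * (aCo μ (cS μ S1) - aCo μ (cS μ S0)) := by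
      rw [W1.inv, W0.inv]
      ring
    rw [e1]
    refine (abs_sub _ _).trans ?_
    rw [abs_neg, abs_mul, abs_mul, abs_of_pos (by norm_num : (0 : ℝ) < 4),
      abs_of_pos (by norm_num : (0 : ℝ) < 8)]
    linarith


end

end Pool.Agent.T2H04.HY
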