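import Mathlib
import Pool.Agent.T2H04.HY.AsmA
import Pool.Agent.T2H04.HY.Haar

/-!
# Assembly D: limits, positivity, confinement
-/

open MeasureTheory Matrix Filter
open scoped Matrix.Norms.Frobenius Topology Pointwise

namespace Pool.Agent.T2H04.HY

set_option linter.unusedSectionVars false

noncomputable section

variable {G : Type} [Group G] [TopologicalSpace G] [IsTopologicalGroup G] [CompactSpace G]
  [MeasurableSpace G] [BorelSpace G] {μ : Measure G} [μ.IsHaarMeasure] [IsProbabilityMeasure μ]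
  {m : Type} [Fintype m] [DecidableEq m] {L : RD G m}

namespace Asm

/-! ### limits -/

theorem pd_lim {f : ℕ → G → ℝ} {g : G → ℝ} (hf : ∀ n, PD μ (f n)) (hg : Continuous g)
    (h : TendstoUniformly f g atTop) : PD μ g := by
  refine ⟨hg, fun x => ?_, ?_⟩
  · exact ge_of_tendsto' (h.tendsto_at x) fun n => (hf n).nonneg x
  · set F : ℕ → C(G, ℝ) := fun n => ⟨f n, (hf n).cont⟩ with hF
    set F' : C(G, ℝ) := ⟨g, hg⟩ with hF'
    have h0 : Tendsto F atTop (𝓝 F') := ContinuousMap.tendsto_iff_tendstoUniformly.2 h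
    have h1 : Tendsto (fun n => ∫ y, F n y ∂μ) atTop (𝓝 (∫ y, F' y ∂μ)) :=
      ((continuous_int μ).tendsto _).comp h0
    have h2 : ∀ n, ∫ y, F n y ∂μ = 1 := fun n => (hf n).int
    simp only [h2] at h1
    exact (tendsto_nhds_unique h1 tendsto_const_nhds)

theorem unif_unique {f : ℕ → G → ℝ} {g g' : G → ℝ} (h : TendstoUniformly f g atTop)
    (h' : TendstoUniformly f g' atTop) : g = g' :=
  funext fun x => tendsto_nhds_unique (h.tendsto_at x) (h'.tendsto_at x)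

theorem unif_congr {F F' : ℕ → G → ℝ} {g : G → ℝ} (h : TendstoUniformly F g atTop)
    (h' : ∀ᶠ n in atTop, ∀ x, F n x = F' n x) : TendstoUniformly F' g atTop := by
  intro u hu
  filter_upwards [h u hu, h'] with n hn hn' x
  rw [← hn' x]
  exact hn x

/-! ### positivity -/

theorem mk_pos {f : G → ℝ} (hf : PD μ f) {x1 x2 x3 x4 : G} (h1 : 0 < f x1) (h2 : 0 < f x2)
    (h3 : 0 < f x3) (h4 : 0 < f x4) : 0 < mk μ f (x1 * x2 * (x3 * x4)) := by
  have e1 : 0 < cnv μ f f (x1 * x2) := cnv_pos μ hf.cont hf.cont hf.nonneg hf.nonneg h1 h2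
  have e2 : 0 < cnv μ f f (x3 * x4) := cnv_pos μ hf.cont hf.cont hf.nonneg hf.nonneg h3 h4
  have hc := continuous_cnv μ hf.cont hf.cont
  have hn : ∀ x, 0 ≤ cnv μ f f x := fun x =>
    integral_nonneg fun y => mul_nonneg (hf.nonneg y) (hf.nonneg _)
  have e3 : 0 < cnv4 μ f (x1 * x2 * (x3 * x4)) := cnv_pos μ hc hc hn hn e1 e2
  have hZ := norm_pos μ hf
  unfold mk
  positivity

theorem iter_pos {f : G → ℝ} (hf : PD μ f) {B : Set G} (hB : ∀ x ∈ B, 0 < f x) (k : ℕ) :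
    ∀ x ∈ B ^ (4 ^ k), 0 < (mk μ)^[k] f x := by
  induction k with
  | zero => simpa using hB
  | succ k ih =>
    intro x hx
    rw [pow_succ, pow_mul, show (4 : ℕ) = 2 * 2 from rfl, pow_mul, pow_two, pow_two] at hx
    obtain ⟨a, ha, b, hb, rfl⟩ := Set.mem_mul.1 hx
    obtain ⟨x1, h1, x2, h2, rfl⟩ := Set.mem_mul.1 ha
    obtain ⟨x3, h3, x4, h4, rfl⟩ := Set.mem_mul.1 hb
    rw [Function.iterate_succ_apply']
    exact mk_pos (iter_pd μ hf k) (ih _ h1) (ih _ h2) (ih _ h3) (ih _ h4)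

theorem exists_pow (hconn : IsConnected (Set.univ : Set G)) {ρ : ℝ} (hρ : 0 < ρ) :
    ∃ n : ℕ, ∀ x : G, x ∈ (bal L ρ) ^ n := by
  -- small exponentials
  obtain ⟨δ, hδ, hexp⟩ : ∃ δ > 0, ∀ X : Mt m, ‖X‖ < δ → ‖NormedSpace.exp X - 1‖ < ρ := by
    have h1 : Continuous (NormedSpace.exp : Mt m → Mt m) := exp_cont
    have h2 := h1.tendsto 0
    rw [NormedSpace.exp_zero] at h2
    obtain ⟨δ, hδ, h3⟩ := Metric.tendsto_nhds_nhds.1 h2 ρ hρ
    refine ⟨δ, hδ, fun X hX => ?_⟩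
    have := h3 (x := X) (by rwa [dist_zero_right])
    rwa [dist_eq_norm] at this
  obtain ⟨n, hn⟩ := gen L hconn (δ / 2) (by positivity)
  refine ⟨n, fun z => ?_⟩
  obtain ⟨q, hq0, hqn, hq⟩ := hn 1 z
  have key : ∀ i, q i ∈ (bal L ρ) ^ i := by
    intro i
    induction i with
    | zero => rw [pow_zero, hq0]; exact Set.mem_one.2 rfl
    | succ i ih =>
      obtain ⟨X, -, hXn, hXq⟩ := hq i
      have h1 : q (i + 1) = (q (i + 1) * (q i)⁻¹) * q i := by group
      rw [h1, pow_succ']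
      refine Set.mul_mem_mul ?_ ih
      show ‖L.rho (q (i + 1) * (q i)⁻¹) - 1‖ < ρ
      rw [map_mul, hXq, mul_assoc, rho_mul_inv, mul_one]
      exact hexp X (by linarith)
  have := key n
  rwa [hqn] at this

theorem lt_four_pow' (n : ℕ) : n ≤ 4 ^ n := (Nat.lt_pow_self (by norm_num)).le

theorem all_pos (hconn : IsConnected (Set.univ : Set G)) {ρ : ℝ} (hρ : 0 < ρ) {g : ℕ → G → ℝ}
    (hg : ∀ k, PD μ (g k)) (hmk : ∀ k, mk μ (g (k + 1)) = g k)
    (hB : ∀ k, ∀ x ∈ bal L ρ, 0 < g k x) (x : G) : 0 < g 0 x := by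
  obtain ⟨n, hn⟩ := exists_pow (L := L) hconn hρ
  have h1 : ∀ k, (mk μ)^[k] (g k) = g 0 := by
    intro k
    induction k with
    | zero => rfl
    | succ k ih => rw [Function.iterate_succ_apply, hmk, ih]
  have h2 := iter_pos (hg n) (hB n) n x (by
    refine Set.pow_subset_pow_right ?_ (lt_four_pow' n) (hn x)
    show dis L 1 < ρ
    unfold dis
    rw [map_one, sub_self, norm_zero]
    exact hρ)
  rwa [h1] at h2

/-! ### confinement -/

theorem upper (hconn : IsConnected (Set.univ : Set G)) {f : G → ℝ} (hf : PD μ f)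
    (hpos : ∀ x, 0 < f x) (hcls : ∀ x y, f (y * x * y⁻¹) = f x) {Λ : ℝ}
    (hΛ : ∀ x y : G, |f x - f y| ≤ Λ * ‖L.rho x - L.rho y‖) :
    ∃ C' σ : ℝ, 0 < C' ∧ 0 < σ ∧ ∀ k : ℕ, ∀ x,
      |(mk μ)^[k] f x - 1| ≤ C' * Real.exp (-(σ * 4 ^ k)) := by
  obtain ⟨κ, hκ⟩ := sc_mk μ L f ⟨hf.cont, hpos, hcls⟩ Λ hΛ
  have hpos1 : ∀ x, 0 < mk μ f x := by
    intro x
    have := mk_pos hf (hpos 1) (hpos 1) (hpos 1) (hpos x)
    simpa using this
  obtain ⟨C, σ, hC, hσ, h⟩ := fwd μ L hconn (mk μ f) ⟨(pd_mk μ f hf).cont, hpos1, mk_cls μ hcls⟩ κ hκ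
  have hbd : ∀ k : ℕ, ∃ B : ℝ, 0 ≤ B ∧ ∀ x, |(mk μ)^[k] f x - 1| ≤ B := by
    intro k
    have hc : Continuous fun x => |(mk μ)^[k] f x - 1| :=
      ((iter_pd μ hf k).cont.sub continuous_const).abs
    obtain ⟨B, hB⟩ := (isCompact_univ (X := G)).exists_bound_of_continuousOn hc.continuousOn
    refine ⟨B, (norm_nonneg _).trans (hB 1 (Set.mem_univ _)), fun x => ?_⟩
    have := hB x (Set.mem_univ _)
    rwa [Real.norm_eq_abs, abs_abs] at this
  obtain ⟨B0, hB00, hB0⟩ := hbd 0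
  obtain ⟨B1, hB10, hB1⟩ := hbd 1
  refine ⟨C + B0 * Real.exp (σ / 4) + B1 * Real.exp σ, σ / 4, by positivity, by positivity,
    fun k x => ?_⟩
  have e0 := Real.exp_pos (σ / 4)
  have e1 := Real.exp_pos σ
  rcases k with _ | _ | k
  · refine (hB0 x).trans ?_
    have h1 : Real.exp (σ / 4) * Real.exp (-(σ / 4 * 4 ^ 0)) = 1 := by
      rw [← Real.exp_add]; norm_num
    have h2 := Real.exp_pos (-(σ / 4 * 4 ^ 0))
    calc B0 = B0 * (Real.exp (σ / 4) * Real.exp (-(σ / 4 * 4 ^ 0))) := by rw [h1, mul_one]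
      _ ≤ _ := by
        have h3 := mul_nonneg hC.le h2.le
        have h4 := mul_nonneg (mul_nonneg hB10 e1.le) h2.le
        nlinarith
  · refine (hB1 x).trans ?_
    have h1 : Real.exp σ * Real.exp (-(σ / 4 * 4 ^ (0 + 1))) = 1 := by
      rw [← Real.exp_add]
      have : σ + -(σ / 4 * 4 ^ (0 + 1)) = 0 := by ring
      rw [this, Real.exp_zero]
    have h2 := Real.exp_pos (-(σ / 4 * 4 ^ (0 + 1)))
    calc B1 = B1 * (Real.exp σ * Real.exp (-(σ / 4 * 4 ^ (0 + 1)))) := by rw [h1, mul_one]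
      _ ≤ _ := by
        have h3 := mul_nonneg hC.le h2.le
        have h4 := mul_nonneg (mul_nonneg hB00 e0.le) h2.le
        nlinarith
  · have h1 := h (k + 1) (by omega) x
    rw [← Function.iterate_succ_apply] at h1
    refine h1.trans ?_
    have h2 : -(σ / 4 * 4 ^ (k + 1 + 1)) = -(σ * 4 ^ (k + 1)) := by ring
    rw [h2]
    exact mul_le_mul_of_nonneg_right (by
      have := mul_nonneg hB00 e0.le
      have := mul_nonneg hB10 e1.le
      linarith) (Real.exp_pos _).le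

end Asm

end

end Pool.Agent.T2H04.HY
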