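import Mathlib
import Pool.Agent.T2H04.HY.Fwd
import Pool.Agent.T2H04.HY.Haar
import Pool.Agent.T2H04.HY.Low

/-!
# Uniform estimates for the renormalisation group
-/

open MeasureTheory Matrix Filter
open scoped Matrix.Norms.Frobenius Topology Pointwise

namespace Pool.Agent.T2H04.HY

set_option linter.unusedSectionVars false

noncomputable section

variable {G : Type} [Group G] [TopologicalSpace G] [IsTopologicalGroup G] [CompactSpace G]
  [MeasurableSpace G] [BorelSpace G] (μ : Measure G) [μ.IsHaarMeasure] [IsProbabilityMeasure μ]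
  {m : Type} [Fintype m] [DecidableEq m] (L : RD G m)

namespace Exit

/-- A density with a bound and a Lipschitz constant. -/
structure Bd (f : G → ℝ) (B Λ : ℝ) : Prop where
  pd : PD μ f
  le : ∀ x, f x ≤ B
  Λ0 : 0 ≤ Λ
  lip : ∀ x y : G, |f x - f y| ≤ Λ * ‖L.rho x - L.rho y‖

variable {μ L}

theorem one_le_of_le {f : G → ℝ} (hf : PD μ f) {B : ℝ} (hB : ∀ x, f x ≤ B) : 1 ≤ B := by
  have h1 : ∫ y, f y ∂μ ≤ ∫ _y : G, B ∂μ :=
    integral_mono (integrable_cont μ hf.cont) (integrable_cont μ continuous_const) hB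
  rwa [hf.int, integral_const, probReal_univ, one_smul] at h1

theorem norm_left (y x x' : G) : ‖L.rho (y * x) - L.rho (y * x')‖ = ‖L.rho x - L.rho x'‖ := by
  rw [map_mul, map_mul, ← mul_sub, fw_norm_unitary_mul _ (L.unit y)]

theorem norm_right (x x' y : G) : ‖L.rho (x * y) - L.rho (x' * y)‖ = ‖L.rho x - L.rho x'‖ := by
  rw [map_mul, map_mul, ← sub_mul, fw_norm_mul_unitary _ (L.unit y)]

theorem pd_cnv {f : G → ℝ} (hf : PD μ f) : PD μ (cnv μ f f) :=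
  ⟨continuous_cnv μ hf.cont hf.cont, cnv_nonneg0 μ hf.nonneg hf.nonneg, by
    rw [Low.int_cnv μ hf.cont hf.cont, hf.int, one_mul]⟩

theorem Bd.cnv {f : G → ℝ} {B Λ : ℝ} (h : Bd μ L f B Λ) : Bd μ L (cnv μ f f) B Λ := by
  have hc := h.pd.cont
  refine ⟨pd_cnv h.pd, fun x => Low.cnv_le μ hc hc h.pd.nonneg h.pd.int h.le x, h.Λ0,
    fun x x' => ?_⟩
  have e1 : HY.cnv μ f f x - HY.cnv μ f f x' = ∫ y, f y * (f (y⁻¹ * x) - f (y⁻¹ * x')) ∂μ := by
    unfold HY.cnv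
    rw [← integral_sub (integrable_cont μ (by fun_prop)) (integrable_cont μ (by fun_prop))]
    refine integral_congr_ae (Filter.Eventually.of_forall fun y => ?_)
    simp only []
    ring
  rw [e1]
  have e2 : |∫ y, f y * (f (y⁻¹ * x) - f (y⁻¹ * x')) ∂μ| ≤
      ∫ y, f y * (Λ * ‖L.rho x - L.rho x'‖) ∂μ := by
    refine abs_le.2 ⟨?_, ?_⟩
    · rw [← integral_neg]
      refine integral_mono (integrable_cont μ (by fun_prop)) (integrable_cont μ (by fun_prop))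
        fun y => ?_
      have h1 := h.lip (y⁻¹ * x) (y⁻¹ * x')
      rw [norm_left] at h1
      have h2 := (abs_le.1 h1).1
      have h3 := mul_le_mul_of_nonneg_left h2 (h.pd.nonneg y)
      simp only []
      linarith
    · refine integral_mono (integrable_cont μ (by fun_prop)) (integrable_cont μ (by fun_prop))
        fun y => ?_
      have h1 := h.lip (y⁻¹ * x) (y⁻¹ * x')
      rw [norm_left] at h1
      exact mul_le_mul_of_nonneg_left (abs_le.1 h1).2 (h.pd.nonneg y)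
  rw [integral_mul_const, h.pd.int, one_mul] at e2
  exact e2

/-- the normalisation lies between `1` and `B ^ 3` -/
theorem norm_bd {h : G → ℝ} (hh : PD μ h) {B : ℝ} (hB : ∀ x, h x ≤ B) :
    1 ≤ ∫ y, h y ^ 4 ∂μ ∧ ∫ y, h y ^ 4 ∂μ ≤ B ^ 3 := by
  have hc := hh.cont
  have hB1 := one_le_of_le hh hB
  constructor
  · have h1 : ∫ y, (4 * h y - 3) ∂μ ≤ ∫ y, h y ^ 4 ∂μ := by
      refine integral_mono (integrable_cont μ (by fun_prop)) (integrable_cont μ (by fun_prop))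
        fun y => ?_
      simp only []
      nlinarith [sq_nonneg (h y ^ 2 - 1), sq_nonneg (h y - 1)]
    rw [integral_sub (integrable_cont μ (by fun_prop)) (integrable_cont μ continuous_const),
      integral_const_mul, hh.int, integral_const, probReal_univ, one_smul] at h1
    linarith
  · have h1 : ∫ y, h y ^ 4 ∂μ ≤ ∫ y, B ^ 3 * h y ∂μ := by
      refine integral_mono (integrable_cont μ (by fun_prop)) (integrable_cont μ (by fun_prop))
        fun y => ?_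
      simp only []
      have h2 : h y ^ 3 ≤ B ^ 3 := pow_le_pow_left₀ (hh.nonneg y) (hB y) 3
      calc h y ^ 4 = h y ^ 3 * h y := by ring
        _ ≤ _ := mul_le_mul_of_nonneg_right h2 (hh.nonneg y)
    rwa [integral_const_mul, hh.int, mul_one] at h1

theorem Bd.mkk {f : G → ℝ} {B Λ : ℝ} (h : Bd μ L f B Λ) :
    Bd μ L (HY.mk μ f) (B ^ 4) (4 * B ^ 3 * Λ) := by
  have h4 : Bd μ L (cnv4 μ f) B Λ := h.cnv.cnv
  obtain ⟨h5, h6⟩ := norm_bd h4.pd h4.le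
  have hB1 := one_le_of_le h.pd h.le
  have hZ : 0 < ∫ y, (cnv4 μ f y) ^ 4 ∂μ := lt_of_lt_of_le one_pos h5
  refine ⟨pd_mk μ f h.pd, fun x => ?_, by have := h.Λ0; positivity, fun x x' => ?_⟩
  · unfold HY.mk
    rw [div_le_iff₀ hZ]
    have h7 : cnv4 μ f x ^ 4 ≤ B ^ 4 := pow_le_pow_left₀ (h4.pd.nonneg x) (h4.le x) 4
    have h8 : 0 ≤ B ^ 4 := by positivity
    nlinarith
  · unfold HY.mk
    rw [← sub_div, abs_div, abs_of_pos hZ, div_le_iff₀ hZ]
    obtain ⟨a, ha⟩ : ∃ a, a = cnv4 μ f x := ⟨_, rfl⟩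
    obtain ⟨b, hb⟩ : ∃ b, b = cnv4 μ f x' := ⟨_, rfl⟩
    have ha0 : 0 ≤ a := by rw [ha]; exact h4.pd.nonneg x
    have hb0 : 0 ≤ b := by rw [hb]; exact h4.pd.nonneg x'
    have haB : a ≤ B := by rw [ha]; exact h4.le x
    have hbB : b ≤ B := by rw [hb]; exact h4.le x'
    have hl : |a - b| ≤ Λ * ‖L.rho x - L.rho x'‖ := by rw [ha, hb]; exact h4.lip x x'
    rw [← ha, ← hb]
    have e1 : a ^ 4 - b ^ 4 = (a - b) * (a ^ 3 + a ^ 2 * b + a * b ^ 2 + b ^ 3) := by ring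
    have h7 : a ^ 3 + a ^ 2 * b + a * b ^ 2 + b ^ 3 ≤ 4 * B ^ 3 := by
      have i1 : a ^ 3 ≤ B ^ 3 := pow_le_pow_left₀ ha0 haB 3
      have i2 : b ^ 3 ≤ B ^ 3 := pow_le_pow_left₀ hb0 hbB 3
      have i3 : a ^ 2 * b ≤ B ^ 2 * B := mul_le_mul (pow_le_pow_left₀ ha0 haB 2) hbB hb0 (by positivity)
      have i4 : a * b ^ 2 ≤ B * B ^ 2 := mul_le_mul haB (pow_le_pow_left₀ hb0 hbB 2) (by positivity) (by positivity)
      nlinarith
    have h8 : 0 ≤ a ^ 3 + a ^ 2 * b + a * b ^ 2 + b ^ 3 := by positivity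
    rw [e1, abs_mul, abs_of_nonneg h8]
    have h9 : |a - b| * (a ^ 3 + a ^ 2 * b + a * b ^ 2 + b ^ 3) ≤
        Λ * ‖L.rho x - L.rho x'‖ * (4 * B ^ 3) :=
      mul_le_mul hl h7 h8 (mul_nonneg h.Λ0 (norm_nonneg _))
    have h10 : 0 ≤ 4 * B ^ 3 * Λ * ‖L.rho x - L.rho x'‖ := by
      have := h.Λ0
      have := norm_nonneg (L.rho x - L.rho x')
      positivity
    nlinarith

/-- bounds of the iterates -/
def bB (B : ℝ) (k : ℕ) : ℝ := B ^ 4 ^ k

/-- Lipschitz constants of the iterates -/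
def bL (B Λ : ℝ) : ℕ → ℝ
  | 0 => Λ
  | k + 1 => 4 * bB B k ^ 3 * bL B Λ k

theorem Bd.iter {f : G → ℝ} {B Λ : ℝ} (h : Bd μ L f B Λ) (k : ℕ) :
    Bd μ L ((HY.mk μ)^[k] f) (bB B k) (bL B Λ k) := by
  induction k with
  | zero => simpa [bB, bL] using h
  | succ k ih =>
    rw [Function.iterate_succ_apply']
    have h1 := ih.mkk
    have e : bB B k ^ 4 = bB B (k + 1) := by
      unfold bB
      rw [← pow_mul, pow_succ]
    rwa [e] at h1

theorem bB_mono {B : ℝ} (hB : 1 ≤ B) {j k : ℕ} (hjk : j ≤ k) : bB B j ≤ bB B k :=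
  pow_le_pow_right₀ hB (Nat.pow_le_pow_right (by norm_num) hjk)

/-! ### lower bounds -/

theorem dis_inv (w : G) : dis L w⁻¹ = dis L w := by
  have h := norm_left (L := L) w w⁻¹ 1
  rw [mul_inv_cancel, mul_one] at h
  unfold dis
  rw [map_one] at h
  rw [← h, norm_sub_rev]

/-- lower bound of a convolution -/
def dl (μ : Measure G) (L : RD G m) (Λ δ : ℝ) : ℝ :=
  (δ / 2) ^ 2 * μ.real (bal L (δ / (2 * (Λ + 1))))

theorem dl_pos {Λ δ : ℝ} (hΛ : 0 ≤ Λ) (hδ : 0 < δ) : 0 < dl μ L Λ δ := by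
  have := bal_pos μ L (δ / (2 * (Λ + 1))) (by positivity)
  unfold dl
  positivity

theorem cnv_lower {f : G → ℝ} {B Λ : ℝ} (h : Bd μ L f B Λ) {δ : ℝ} (hδ : 0 < δ) {x y : G}
    (hx : δ ≤ f x) (hy : δ ≤ f y) : dl μ L Λ δ ≤ HY.cnv μ f f (x * y) := by
  have hc := h.pd.cont
  have hΛ := h.Λ0
  obtain ⟨r, hr⟩ : ∃ r, r = δ / (2 * (Λ + 1)) := ⟨_, rfl⟩
  have hr0 : 0 < r := by rw [hr]; positivity
  have hΛr : Λ * r ≤ δ / 2 := by
    rw [hr, mul_div_assoc', div_le_div_iff₀ (by positivity) (by norm_num)]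
    nlinarith
  have e1 : HY.cnv μ f f (x * y) = ∫ w, f (x * w) * f (w⁻¹ * y) ∂μ := by
    unfold HY.cnv
    rw [← fw_int_left μ (fun z => f z * f (z⁻¹ * (x * y))) x]
    congr 1
    funext w
    congr 2
    group
  rw [e1]
  have h1 : ∀ w ∈ bal L r, (δ / 2) ^ 2 ≤ f (x * w) * f (w⁻¹ * y) := by
    intro w hw
    have hw' : dis L w < r := hw
    have h2 : δ / 2 ≤ f (x * w) := by
      have h3 := h.lip (x * w) (x * 1)
      rw [norm_left, map_one, mul_one] at h3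
      have h4 : Λ * ‖L.rho w - 1‖ ≤ Λ * r := mul_le_mul_of_nonneg_left hw'.le hΛ
      have h5 := (abs_le.1 h3).1
      linarith
    have h3 : δ / 2 ≤ f (w⁻¹ * y) := by
      have h3 := h.lip (w⁻¹ * y) (1 * y)
      rw [norm_right, map_one, one_mul] at h3
      have h4 : Λ * ‖L.rho w⁻¹ - 1‖ ≤ Λ * r := by
        refine mul_le_mul_of_nonneg_left ?_ hΛ
        have : dis L w⁻¹ = dis L w := dis_inv w
        unfold dis at this hw'
        rw [this]
        exact hw'.le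
      have h5 := (abs_le.1 h3).1
      linarith
    rw [pow_two]
    exact mul_le_mul h2 h3 (by positivity) ((by positivity : (0:ℝ) ≤ δ / 2).trans h2)
  have h2 : ∫ w in bal L r, (δ / 2) ^ 2 ∂μ ≤ ∫ w in bal L r, f (x * w) * f (w⁻¹ * y) ∂μ :=
    setIntegral_mono_on (integrable_cont μ continuous_const).integrableOn
      (integrable_cont μ (by fun_prop)).integrableOn (isOpen_bal L r).measurableSet h1
  have h3 : ∫ w in bal L r, f (x * w) * f (w⁻¹ * y) ∂μ ≤ ∫ w, f (x * w) * f (w⁻¹ * y) ∂μ :=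
    setIntegral_le_integral (integrable_cont μ (by fun_prop))
      (Filter.Eventually.of_forall fun w => mul_nonneg (h.pd.nonneg _) (h.pd.nonneg _))
  rw [setIntegral_const, smul_eq_mul] at h2
  unfold dl
  rw [← hr]
  linarith

/-- lower bound of one step -/
def dm (μ : Measure G) (L : RD G m) (B Λ δ : ℝ) : ℝ := (dl μ L Λ (dl μ L Λ δ)) ^ 4 / B ^ 3

theorem mk_lower {f : G → ℝ} {B Λ : ℝ} (h : Bd μ L f B Λ) {δ : ℝ} (hδ : 0 < δ)
    {x1 x2 x3 x4 : G} (h1 : δ ≤ f x1) (h2 : δ ≤ f x2) (h3 : δ ≤ f x3) (h4 : δ ≤ f x4) :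
    dm μ L B Λ δ ≤ HY.mk μ f (x1 * x2 * (x3 * x4)) := by
  have hΛ := h.Λ0
  have e1 := cnv_lower h hδ h1 h2
  have e2 := cnv_lower h hδ h3 h4
  have e3 := cnv_lower h.cnv (dl_pos (μ := μ) (L := L) hΛ hδ) e1 e2
  have hb : Bd μ L (cnv4 μ f) B Λ := h.cnv.cnv
  obtain ⟨h5, h6⟩ := norm_bd hb.pd hb.le
  have hB1 := one_le_of_le h.pd h.le
  have hZ : 0 < ∫ y, (cnv4 μ f y) ^ 4 ∂μ := lt_of_lt_of_le one_pos h5
  have h7 : 0 < dl μ L Λ (dl μ L Λ δ) := dl_pos hΛ (dl_pos hΛ hδ)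
  unfold dm HY.mk
  have e4 : dl μ L Λ (dl μ L Λ δ) ^ 4 ≤ cnv4 μ f (x1 * x2 * (x3 * x4)) ^ 4 :=
    pow_le_pow_left₀ h7.le e3 4
  exact div_le_div₀ (by positivity) e4 hZ h6

theorem dm_pos {B Λ δ : ℝ} (hB : 0 < B) (hΛ : 0 ≤ Λ) (hδ : 0 < δ) : 0 < dm μ L B Λ δ := by
  have h7 : 0 < dl μ L Λ (dl μ L Λ δ) := dl_pos hΛ (dl_pos hΛ hδ)
  unfold dm
  positivity

theorem iter_lower (B Λ : ℝ) (hB : 0 < B) (hΛ : 0 ≤ Λ) (δ : ℝ) (hδ : 0 < δ) (k : ℕ) :
    ∃ δ' : ℝ, 0 < δ' ∧ ∀ (f : G → ℝ) (S : Set G), Bd μ L f B Λ → (∀ x ∈ S, δ ≤ f x) →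
      ∀ x ∈ S ^ (4 ^ k), δ' ≤ (HY.mk μ)^[k] f x := by
  induction k with
  | zero => exact ⟨δ, hδ, fun f S _ hS x hx => hS x (by simpa using hx)⟩
  | succ k ih =>
    obtain ⟨δ', hδ', h⟩ := ih
    have hbL : 0 ≤ bL B Λ k := by
      clear h
      induction k with
      | zero => exact hΛ
      | succ k ih =>
        have := ih
        unfold bL bB
        positivity
    refine ⟨dm μ L (bB B k) (bL B Λ k) δ', dm_pos (by unfold bB; positivity) hbL hδ',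
      fun f S hf hS x hx => ?_⟩
    rw [pow_succ, pow_mul, show (4 : ℕ) = 2 * 2 from rfl, pow_mul, pow_two, pow_two] at hx
    obtain ⟨a, ha, b, hb, rfl⟩ := Set.mem_mul.1 hx
    obtain ⟨x1, h1, x2, h2, rfl⟩ := Set.mem_mul.1 ha
    obtain ⟨x3, h3, x4, h4, rfl⟩ := Set.mem_mul.1 hb
    rw [Function.iterate_succ_apply']
    exact mk_lower (hf.iter k) hδ' (h f S hf hS _ h1) (h f S hf hS _ h2) (h f S hf hS _ h3)
      (h f S hf hS _ h4)

end Exit

end

end Pool.Agent.T2H04.HY
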