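import Mathlib
import Pool.Agent.T2H04.HY.AsmD
import Pool.Agent.T2H04.HY.ExitA

/-!
# Uniform estimates for the renormalisation group: semiconvexity, coupling
-/

open MeasureTheory Matrix Filter
open scoped Matrix.Norms.Frobenius Topology Pointwise

namespace Pool.Agent.T2H04.HY

set_option linter.unusedSectionVars false

noncomputable section

variable {G : Type} [Group G] [TopologicalSpace G] [IsTopologicalGroup G] [CompactSpace G]
  [MeasurableSpace G] [BorelSpace G] (μ : Measure G) [μ.IsHaarMeasure] [IsProbabilityMeasure μ]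
  {m : Type} [Fintype m] [DecidableEq m] (L : RD G m)

namespace Exit

/-- One step makes a positive Lipschitz class function semiconvex, with explicit constants. -/
theorem sc_mk_unif {f : G → ℝ} (hf : PC f) {M c Λ : ℝ} (hM0 : 0 < M) (hc0 : 0 < c)
    (hΛ0 : 0 ≤ Λ) (hΛ : ∀ x y : G, |f x - f y| ≤ Λ * ‖L.rho x - L.rho y‖)
    (hfM : ∀ x, f x ≤ M) (huc : ∀ x, c ≤ cnv μ f f x) :
    SC L (mk μ f) (4 * M ^ 2 * Λ ^ 2 / c ^ 2) := by
  have cf := hf.cont
  set u := cnv μ f f with hu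
  have hup : PC u := hf.cnv μ L hf
  have huM : ∀ x, u x ≤ M ^ 2 := by
    intro x
    have h1 := integral_mono (μ := μ) (f := fun y => f y * f (y⁻¹ * x)) (g := fun _ => M ^ 2)
      (fw_int_cont μ (by fun_prop)) (fw_int_cont μ continuous_const) (fun y => by
        have := mul_le_mul (hfM y) (hfM (y⁻¹ * x)) (hf.pos _).le hM0.le
        simpa [pow_two] using this)
    rw [integral_const, probReal_univ, one_smul] at h1
    exact h1
  have hsu : SC L u (2 * M ^ 2 * Λ ^ 2 / c ^ 2) := by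
    intro X hX x xp xm hp hm
    obtain ⟨h, hh, h2, h3⟩ := fw_half L hX
    have exp' : xp = h * h * x := L.inj (by rw [hp, map_mul, h2])
    have exm' : xm = h⁻¹ * h⁻¹ * x := L.inj (by rw [hm, map_mul, h3])
    subst exp' exm'
    have hXs : Xᴴ = -X := lie_skew L hX
    have hX2s : ((1 / 2 : ℝ) • X)ᴴ = -((1 / 2 : ℝ) • X) := smul_skew hXs _
    -- Lipschitz bounds
    have hl : ∀ (g g' : G) (Z : Mt m), Zᴴ = -Z → L.rho g = NormedSpace.exp Z →
        L.rho g' = NormedSpace.exp (-Z) → ∀ y, |f (g * y) - f (g' * y)| ≤ Λ * (2 * ‖Z‖) := by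
      intro g g' Z hZ hg hg' y
      refine (hΛ _ _).trans (mul_le_mul_of_nonneg_left ?_ hΛ0)
      rw [map_mul, map_mul, ← sub_mul, fw_norm_mul_unitary _ (L.unit y), hg, hg']
      have e : NormedSpace.exp Z - NormedSpace.exp (-Z) =
          (NormedSpace.exp Z - 1) - (NormedSpace.exp (-Z) - 1) := by abel
      rw [e]
      refine (norm_sub_le _ _).trans ?_
      have h5 := fw_exp_sub_one hZ
      have h6 := fw_exp_sub_one (X := -Z) (by rw [conjTranspose_neg, hZ])
      rw [norm_neg] at h6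
      linarith
    have eh : Λ * (2 * ‖(1 / 2 : ℝ) • X‖) = Λ * ‖X‖ := by
      have e : ‖(1 / 2 : ℝ) • X‖ = ‖X‖ / 2 := by
        rw [norm_smul, Real.norm_eq_abs, abs_of_pos (by norm_num : (0 : ℝ) < 1 / 2)]
        ring
      rw [e]; ring
    have hb1 : ∀ y, |f (h * y) - f (h⁻¹ * y)| ≤ Λ * ‖X‖ := by
      intro y
      have := hl h h⁻¹ _ hX2s hh (fw_rho_inv L hh) y
      rwa [eh] at this
    have ecl : ∀ (g y : G), f (y⁻¹ * (g * x)) = f (g * (x * y⁻¹)) := by
      intro g y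
      rw [← hf.cls (y⁻¹ * (g * x)) y]; congr 1; group
    have hb2 : ∀ y, |f (y⁻¹ * (h * x)) - f (y⁻¹ * (h⁻¹ * x))| ≤ Λ * ‖X‖ := by
      intro y
      rw [ecl, ecl]
      exact hb1 _
    have hb3 : ∀ y, |f (y⁻¹ * (h * h * x)) - f (y⁻¹ * (h⁻¹ * h⁻¹ * x))| ≤ Λ * (2 * ‖X‖) := by
      intro y
      rw [ecl, ecl]
      exact hl (h * h) (h⁻¹ * h⁻¹) X hXs h2 h3 _
    -- representations of `u`
    have eA : u (h * h * x) = ∫ y, f (h * y) * f (y⁻¹ * (h * x)) ∂μ := by
      rw [hu]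
      unfold cnv
      rw [← fw_int_left μ (fun y => f y * f (y⁻¹ * (h * h * x))) h]
      congr 1; funext y; congr 2; group
    have eB : u (h⁻¹ * h⁻¹ * x) = ∫ y, f (h⁻¹ * y) * f (y⁻¹ * (h⁻¹ * x)) ∂μ := by
      rw [hu]
      unfold cnv
      rw [← fw_int_left μ (fun y => f y * f (y⁻¹ * (h⁻¹ * h⁻¹ * x))) h⁻¹]
      congr 1; funext y; congr 2; group
    have eC : u x = ∫ y, f (h * y) * f (y⁻¹ * (h⁻¹ * x)) ∂μ := by
      rw [hu]
      unfold cnv
      rw [← fw_int_left μ (fun y => f y * f (y⁻¹ * x)) h]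
      congr 1; funext y; congr 2; group
    have eD : u x = ∫ y, f (h⁻¹ * y) * f (y⁻¹ * (h * x)) ∂μ := by
      rw [hu]
      unfold cnv
      rw [← fw_int_left μ (fun y => f y * f (y⁻¹ * x)) h⁻¹]
      congr 1; funext y; congr 2; group
    set up := u (h * h * x) with hupd
    set um := u (h⁻¹ * h⁻¹ * x) with humd
    set u0 := u x with hu0d
    have hsec : |up + um - 2 * u0| ≤ (Λ * ‖X‖) ^ 2 := by
      have e1 : up + um - 2 * u0 = ∫ y, (f (h * y) - f (h⁻¹ * y)) *
          (f (y⁻¹ * (h * x)) - f (y⁻¹ * (h⁻¹ * x))) ∂μ := by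
        have e2 : ∀ y, (f (h * y) - f (h⁻¹ * y)) * (f (y⁻¹ * (h * x)) - f (y⁻¹ * (h⁻¹ * x))) =
            (f (h * y) * f (y⁻¹ * (h * x)) + f (h⁻¹ * y) * f (y⁻¹ * (h⁻¹ * x))) -
            (f (h * y) * f (y⁻¹ * (h⁻¹ * x)) + f (h⁻¹ * y) * f (y⁻¹ * (h * x))) := fun y => by ring
        simp only [e2]
        rw [integral_sub (fw_int_cont μ (by fun_prop)) (fw_int_cont μ (by fun_prop)),
          integral_add (fw_int_cont μ (by fun_prop)) (fw_int_cont μ (by fun_prop)),
          integral_add (fw_int_cont μ (by fun_prop)) (fw_int_cont μ (by fun_prop)),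
          ← eA, ← eB, ← eC, ← eD]
        ring
      rw [e1]
      have h5 : ∀ y, ‖(f (h * y) - f (h⁻¹ * y)) *
          (f (y⁻¹ * (h * x)) - f (y⁻¹ * (h⁻¹ * x)))‖ ≤ (Λ * ‖X‖) ^ 2 := by
        intro y
        rw [norm_mul, pow_two]
        exact mul_le_mul (hb1 y) (hb2 y) (norm_nonneg _) (by positivity)
      have h6 := norm_integral_le_of_norm_le_const (μ := μ) (Filter.Eventually.of_forall h5)
      rw [probReal_univ, mul_one] at h6
      exact h6
    have hfir : |up - um| ≤ 2 * M * Λ * ‖X‖ := by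
      have e1 : up - um = ∫ y, f y * (f (y⁻¹ * (h * h * x)) - f (y⁻¹ * (h⁻¹ * h⁻¹ * x))) ∂μ := by
        simp only [mul_sub]
        rw [integral_sub (fw_int_cont μ (by fun_prop)) (fw_int_cont μ (by fun_prop))]
        rfl
      rw [e1]
      have h5 : ∀ y, ‖f y * (f (y⁻¹ * (h * h * x)) - f (y⁻¹ * (h⁻¹ * h⁻¹ * x)))‖ ≤
          2 * M * Λ * ‖X‖ := by
        intro y
        rw [norm_mul, Real.norm_eq_abs, abs_of_pos (hf.pos y)]
        have := mul_le_mul (hfM y) (hb3 y) (abs_nonneg _) hM0.le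
        refine this.trans (le_of_eq ?_)
        ring
      have h6 := norm_integral_le_of_norm_le_const (μ := μ) (Filter.Eventually.of_forall h5)
      rw [probReal_univ, mul_one] at h6
      exact h6
    have pup : 0 < up := hup.pos _
    have pum : 0 < um := hup.pos _
    have pu0 : 0 < u0 := hup.pos _
    have hq : u0 ^ 2 - up * um ≤ 2 * M ^ 2 * Λ ^ 2 * ‖X‖ ^ 2 := by
      have e1 : u0 ^ 2 - up * um = (2 * u0 - (up + um)) * (2 * u0 + (up + um)) / 4 +
          (up - um) ^ 2 / 4 := by ring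
      have h5 : (up - um) ^ 2 ≤ (2 * M * Λ * ‖X‖) ^ 2 := by
        rw [← sq_abs (up - um)]
        exact pow_le_pow_left₀ (abs_nonneg _) hfir 2
      have h6 : 2 * u0 - (up + um) ≤ (Λ * ‖X‖) ^ 2 := by
        have := (abs_le.1 hsec).1
        linarith
      have h7 : 2 * u0 + (up + um) ≤ 4 * M ^ 2 := by
        have := huM (h * h * x)
        have := huM (h⁻¹ * h⁻¹ * x)
        have := huM x
        linarith
      have h8 : (2 * u0 - (up + um)) * (2 * u0 + (up + um)) ≤ (Λ * ‖X‖) ^ 2 * (4 * M ^ 2) :=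
        mul_le_mul h6 h7 (by positivity) (by positivity)
      rw [e1]
      nlinarith
    have hlog : 2 * Real.log u0 - (Real.log up + Real.log um) ≤
        2 * M ^ 2 * Λ ^ 2 * ‖X‖ ^ 2 / c ^ 2 := by
      have h5 : Real.log (u0 ^ 2 / (up * um)) ≤ u0 ^ 2 / (up * um) - 1 :=
        Real.log_le_sub_one_of_pos (by positivity)
      rw [Real.log_div (by positivity) (by positivity), Real.log_mul pup.ne' pum.ne',
        Real.log_pow] at h5
      have h6 : u0 ^ 2 / (up * um) - 1 = (u0 ^ 2 - up * um) / (up * um) := by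
        field_simp
      have h7 : (u0 ^ 2 - up * um) / (up * um) ≤ 2 * M ^ 2 * Λ ^ 2 * ‖X‖ ^ 2 / c ^ 2 := by
        refine (div_le_div_of_nonneg_right hq (by positivity)).trans ?_
        apply div_le_div_of_nonneg_left (by positivity) (by positivity)
        rw [pow_two]
        exact mul_le_mul (huc _) (huc _) hc0.le pup.le
      push_cast at h5
      linarith
    have e9 : 2 * M ^ 2 * Λ ^ 2 / c ^ 2 * ‖X‖ ^ 2 = 2 * M ^ 2 * Λ ^ 2 * ‖X‖ ^ 2 / c ^ 2 := by
      ring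
    rw [e9]
    linarith
  -- the second convolution
  have hosc : ∀ x y, Real.log (u x) - Real.log (u y) ≤ Real.log (M ^ 2) - Real.log c := by
    intro x y
    have h1 := Real.log_le_log (hup.pos x) (huM x)
    have h2 := Real.log_le_log hc0 (huc y)
    linarith
  have h4 := fw_sc_cnv μ L hup hup hsu hsu hosc hosc
  have hf4 := hf.cnv4 μ L
  have hI : 0 < ∫ y, (cnv4 μ f y) ^ 4 ∂μ :=
    fw_int_pos μ (hf4.cont.pow 4) (fun x => pow_pos (hf4.pos x) 4)
  refine SC.mono L (fw_sc_pow L hf4 hI h4) ?_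
  obtain ⟨k, hk⟩ : ∃ k, k = 2 * M ^ 2 * Λ ^ 2 / c ^ 2 := ⟨_, rfl⟩
  have hk0 : 0 ≤ k := by rw [hk]; positivity
  have e : 4 * M ^ 2 * Λ ^ 2 / c ^ 2 = 2 * k := by rw [hk]; ring
  rw [← hk, e]
  obtain ⟨v, hv⟩ : ∃ v, v = Real.exp (-(Real.log (M ^ 2) - Real.log c +
    (Real.log (M ^ 2) - Real.log c))) := ⟨_, rfl⟩
  have hv0 : 0 < v := by rw [hv]; exact Real.exp_pos _
  rw [← hv]
  nlinarith

variable {μ L}

theorem pd_one_le_cnv {f : G → ℝ} (hf : PD μ f) {δ : ℝ} (h : ∀ x, δ ≤ f x) (x : G) :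
    δ ≤ cnv μ f f x := by
  have hc := hf.cont
  have h1 : ∫ y, f y * δ ∂μ ≤ ∫ y, f y * f (y⁻¹ * x) ∂μ := by
    refine integral_mono (integrable_cont μ (by fun_prop)) (integrable_cont μ (by fun_prop))
      fun y => mul_le_mul_of_nonneg_left (h _) (hf.nonneg y)
  rw [integral_mul_const, hf.int, one_mul] at h1
  exact h1

/-- A uniform version of the regularising effect of the iteration. -/
theorem unif_class (hconn : IsConnected (Set.univ : Set G)) {ρ B Λ δ : ℝ} (hρ : 0 < ρ)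
    (hB : 0 < B) (hΛ : 0 ≤ Λ) (hδ : 0 < δ) :
    ∃ (k0 : ℕ) (δ' κ : ℝ), 0 < δ' ∧ ∀ f : G → ℝ, Bd μ L f B Λ →
      (∀ x y, f (y * x * y⁻¹) = f x) → (∀ x ∈ bal L ρ, δ ≤ f x) →
      (∀ x, δ' ≤ (mk μ)^[k0] f x) ∧ PC ((mk μ)^[k0 + 1] f) ∧ SC L ((mk μ)^[k0 + 1] f) κ := by
  obtain ⟨n, hn⟩ := Asm.exists_pow (L := L) hconn hρ
  obtain ⟨δ', hδ', h⟩ := iter_lower (μ := μ) (L := L) B Λ hB hΛ δ hδ n
  refine ⟨n, δ', 4 * (bB B n) ^ 2 * (bL B Λ n) ^ 2 / δ' ^ 2, hδ', fun f hf hcls hlow => ?_⟩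
  have h1 : ∀ x, δ' ≤ (mk μ)^[n] f x := by
    intro x
    refine h f (bal L ρ) hf hlow x (Set.pow_subset_pow_right ?_ (Asm.lt_four_pow' n) (hn x))
    show dis L 1 < ρ
    unfold dis
    rw [map_one, sub_self, norm_zero]
    exact hρ
  have h2 := hf.iter n
  have h3 : PC ((mk μ)^[n] f) :=
    ⟨h2.pd.cont, fun x => lt_of_lt_of_le hδ' (h1 x), Asm.iter_cls μ hcls n⟩
  refine ⟨h1, ?_, ?_⟩
  · rw [Function.iterate_succ_apply']
    exact h3.mkk μ L
  · rw [Function.iterate_succ_apply']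
    exact sc_mk_unif μ L h3 (by unfold bB; positivity) hδ' h2.Λ0 h2.lip h2.le
      (pd_one_le_cnv h2.pd h1)

/-- A bounded density is not concentrated at `1`. -/
theorem g2_of_bd (hne : ∃ X ∈ lieSet L, X ≠ 0) (B : ℝ) : ∃ κ : ℝ, 0 < κ ∧
    ∀ f : G → ℝ, PD μ f → (∀ x, f x ≤ B) → κ ≤ g2 μ L f := by
  obtain ⟨c, hc0, hc1, hc⟩ := bal_small μ L hne (1 / (2 * (|B| + 1))) (by positivity)
  refine ⟨c ^ 2 / 2, by positivity, fun f hf hB => ?_⟩
  have hB1 := one_le_of_le hf hB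
  have habs : |B| = B := abs_of_nonneg (by linarith)
  rw [habs] at hc
  have h1 := hc 1 one_pos le_rfl
  rw [mul_one] at h1
  have h2 : μ.real (bal L 1) ≤ 1 := measureReal_le_one
  have h3 : B * μ.real (bal L c) ≤ 1 / 2 := by
    have h4 : μ.real (bal L c) ≤ 1 / (2 * (B + 1)) := by
      refine h1.trans ?_
      have : 0 ≤ 1 / (2 * (B + 1)) := by positivity
      nlinarith
    have h5 : B * μ.real (bal L c) ≤ B * (1 / (2 * (B + 1))) :=
      mul_le_mul_of_nonneg_left h4 (by linarith)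
    refine h5.trans ?_
    rw [mul_one_div, div_le_div_iff₀ (by positivity) (by norm_num)]
    linarith
  have hcont := hf.cont
  have hdc := Asm.dis_cont' L
  have hmeas : MeasurableSet (bal L c) := (isOpen_bal L c).measurableSet
  have h4 : ∫ y, (c ^ 2 * f y - (bal L c).indicator (fun _ => c ^ 2 * B) y) ∂μ ≤
      ∫ y, dis L y ^ 2 * f y ∂μ := by
    refine integral_mono ((integrable_cont μ (by fun_prop)).sub
      ((integrable_cont μ continuous_const).indicator hmeas)) (integrable_cont μ (by fun_prop))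
      fun y => ?_
    simp only []
    by_cases hy : y ∈ bal L c
    · rw [Set.indicator_of_mem hy]
      have h5 := hB y
      have h6 : 0 ≤ dis L y ^ 2 * f y := mul_nonneg (sq_nonneg _) (hf.nonneg y)
      nlinarith [sq_nonneg c]
    · rw [Set.indicator_of_notMem hy, sub_zero]
      have h5 : c ≤ dis L y := not_lt.1 hy
      have h6 : c ^ 2 ≤ dis L y ^ 2 := pow_le_pow_left₀ hc0.le h5 2
      exact mul_le_mul_of_nonneg_right h6 (hf.nonneg y)
  rw [integral_sub (integrable_cont μ (by fun_prop))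
    ((integrable_cont μ continuous_const).indicator hmeas), integral_const_mul, hf.int,
    integral_indicator_const _ hmeas, smul_eq_mul] at h4
  unfold g2
  nlinarith [sq_nonneg c]

end Exit

end

end Pool.Agent.T2H04.HY
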