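import Mathlib
import Pool.Agent.T2H04.HY.ExitB
import Pool.Agent.T2H04.HY.Tens

/-!
# The running coupling does not become small again
-/

open MeasureTheory Matrix Filter
open scoped Matrix.Norms.Frobenius Topology

namespace Pool.Agent.T2H04.HY

set_option linter.unusedSectionVars false

noncomputable section

variable {G : Type} [Group G] [TopologicalSpace G] [IsTopologicalGroup G] [CompactSpace G]
  [MeasurableSpace G] [BorelSpace G] (μ : Measure G) [μ.IsHaarMeasure] [IsProbabilityMeasure μ]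
  {m : Type} [Fintype m] [DecidableEq m] (L : RD G m)

namespace Exit

variable {μ L} {Good : (G → ℝ) → ℝ → ℝ → Prop} {ts C ρs c a0 d0 : ℝ} {p : ℕ}

/-- the bounds at a coupling which is not small -/
theorem bd_of_good (uv : UV μ L Good ts C ρs c a0 d0 p) {t1 : ℝ} (ht1 : 0 < t1) {f : G → ℝ}
    {t A : ℝ} (hG : Good f t A) (h1 : t1 ≤ t) (h2 : t ≤ 2 * ts) :
    Bd μ L f (C / t1 ^ p) (C / t1 ^ p) ∧ ∀ x ∈ bal L ρs, Real.exp (-(1 / t1)) ≤ f x := by
  obtain ⟨h3, h4⟩ := uv.bound f t A hG h2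
  have hC := uv.C_pos
  have h5 : C / t ^ p ≤ C / t1 ^ p :=
    div_le_div_of_nonneg_left hC.le (by positivity) (pow_le_pow_left₀ ht1.le h1 p)
  refine ⟨⟨uv.pd f t A hG, fun x => ((le_abs_self _).trans (h3 x)).trans h5, by positivity,
    fun x y => (h4 x y).trans (mul_le_mul_of_nonneg_right h5 (norm_nonneg _))⟩, fun x hx => ?_⟩
  refine le_trans (Real.exp_le_exp.2 ?_) (uv.near f t A hG h2 x hx)
  have h6 : 1 / t ≤ 1 / t1 := one_div_le_one_div_of_le ht1 h1
  linarith

/-- After finitely many steps all the densities with coupling bounded below lie in one class on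
which the convergence to the strong coupling fixed point is uniform. -/
theorem after (hconn : IsConnected (Set.univ : Set G)) (uv : UV μ L Good ts C ρs c a0 d0 p)
    {t1 : ℝ} (ht1 : 0 < t1) :
    ∃ (k : ℕ) (κ B : ℝ), 1 ≤ k ∧ 0 < B ∧ ∀ f t A, Good f t A → t1 ≤ t → t ≤ 2 * ts →
      PC ((mk μ)^[k] f) ∧ SC L ((mk μ)^[k] f) κ ∧ (∀ j, j ≤ k → ∀ x, (mk μ)^[j] f x ≤ B) := by
  have hC := uv.C_pos
  have hB0 : 0 < C / t1 ^ p := by positivity
  obtain ⟨k0, δ', κ, hδ', h⟩ := unif_class (μ := μ) (L := L) (B := C / t1 ^ p)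
    (Λ := C / t1 ^ p) hconn uv.ρs_pos hB0 hB0.le (Real.exp_pos (-(1 / t1)))
  refine ⟨k0 + 1, κ, bB (C / t1 ^ p) (k0 + 1), by omega, by unfold bB; positivity,
    fun f t A hG h1 h2 => ?_⟩
  obtain ⟨h3, h4⟩ := bd_of_good uv ht1 hG h1 h2
  obtain ⟨h5, h6, h7⟩ := h f h3 (uv.cls f t A hG) h4
  refine ⟨h6, h7, fun j hj x => ?_⟩
  exact ((h3.iter j).le x).trans (bB_mono (one_le_of_le h3.pd h3.le) hj)

end Exit

open Exit

/-- After the exit of the perturbative regime, the running coupling is bounded below. -/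
theorem exit_lower (hconn : IsConnected (Set.univ : Set G)) (hne : ∃ X ∈ lieSet L, X ≠ 0)
    (Good : (G → ℝ) → ℝ → ℝ → Prop) (ts C ρs c a0 d0 : ℝ) (p : ℕ)
    (uv : UV μ L Good ts C ρs c a0 d0 p) (t1 : ℝ) (ht1 : 0 < t1) :
    ∃ κ2 : ℝ, 0 < κ2 ∧ ∀ f t A, Good f t A → t1 ≤ t → t ≤ 2 * ts →
      ∀ j : ℕ, κ2 ≤ g2 μ L ((mk μ)^[j] f) := by
  obtain ⟨k, κ, B, hk, hB, h⟩ := after hconn uv ht1
  obtain ⟨C', σ, hC', hσ, hfw⟩ := Tens.fwd_unif μ L hconn κ
  have hlim : Tendsto (fun n : ℕ => C' * Real.exp (-(σ * 4 ^ n))) atTop (𝓝 0) := by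
    rw [← mul_zero C']
    refine Tendsto.const_mul C' (Real.tendsto_exp_neg_atTop_nhds_zero.comp ?_)
    exact (tendsto_pow_atTop_atTop_of_one_lt (by norm_num : (1 : ℝ) < 4)).const_mul_atTop hσ
  obtain ⟨n0, hn0⟩ := eventually_atTop.1 (hlim.eventually (gt_mem_nhds
    (by norm_num : (0 : ℝ) < 1 / 2)))
  -- the largest relevant bound of the first iterates
  have hC := uv.C_pos
  have hB0 : 0 < C / t1 ^ p := by positivity
  obtain ⟨κa, hκa, ha⟩ := g2_of_bd (μ := μ) (L := L) hne (bB (C / t1 ^ p) (k + (n0 + 1)))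
  have hone := Asm.g2_one_pos μ L hne
  refine ⟨min κa (g2 μ L (fun _ => 1) / 2), lt_min hκa (by positivity),
    fun f t A hG h1 h2 j => ?_⟩
  obtain ⟨h3, h4⟩ := bd_of_good uv ht1 hG h1 h2
  obtain ⟨h5, h6, -⟩ := h f t A hG h1 h2
  rcases le_total j (k + (n0 + 1)) with hj | hj
  · refine (min_le_left _ _).trans (ha _ (h3.iter j).pd fun x => ?_)
    exact ((h3.iter j).le x).trans (bB_mono (one_le_of_le h3.pd h3.le) hj)
  · refine (min_le_right _ _).trans ?_
    obtain ⟨n, hn⟩ : ∃ n, j = n + k := ⟨j - k, by omega⟩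
    have hn1 : n0 + 1 ≤ n := by omega
    have h7 : ∀ x, 1 / 2 ≤ (mk μ)^[j] f x := by
      intro x
      have h8 := hfw _ h5 h6 n (by omega) x
      rw [← Function.iterate_add_apply, ← hn] at h8
      have h9 := hn0 n (by omega)
      have h10 := (abs_le.1 h8).1
      linarith
    have hpd := (h3.iter j).pd
    have hdc := Asm.dis_cont' L
    have hcont := hpd.cont
    have h8 : ∫ y, dis L y ^ 2 * 1 * (1 / 2) ∂μ ≤ ∫ y, dis L y ^ 2 * (mk μ)^[j] f y ∂μ := by
      refine integral_mono (integrable_cont μ (by fun_prop)) (integrable_cont μ (by fun_prop))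
        fun y => ?_
      simp only []
      rw [mul_one]
      exact mul_le_mul_of_nonneg_left (h7 y) (sq_nonneg _)
    rw [integral_mul_const] at h8
    unfold g2
    linarith

end

end Pool.Agent.T2H04.HY
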