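import Mathlib
import Pool.Agent.T2H04.HY.Exit

/-!
# Uniqueness of the continuum limit
-/

open MeasureTheory Matrix Filter
open scoped Matrix.Norms.Frobenius Topology

namespace Pool.Agent.T2H04.HY

set_option linter.unusedSectionVars false

noncomputable section

variable {G : Type} [Group G] [TopologicalSpace G] [IsTopologicalGroup G] [CompactSpace G]
  [MeasurableSpace G] [BorelSpace G] (μ : Measure G) [μ.IsHaarMeasure] [IsProbabilityMeasure μ]
  {m : Type} [Fintype m] [DecidableEq m] (L : RD G m)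

/-- The outcome of the ultraviolet analysis for pairs of states: `Ds S0 S1 X` says that the distance
of the irrelevant parts of the states is at most `X`. -/
structure UV2 {Q : Type} (stp : Q → Q) (den : Q → G → ℝ) (tt : Q → ℝ) (GS : Q → ℝ → Prop)
    (Ds : Q → Q → ℝ → Prop) (ts C c a0 d0 : ℝ) : Prop where
  ts_pos : 0 < ts
  C_pos : 0 < C
  c_pos : 0 < c
  a0_pos : 0 < a0
  d0_pos : 0 < d0
  pos : ∀ S A, GS S A → 0 < tt S ∧ tt S ≤ 2 * ts ∧ 0 ≤ A ∧ A * tt S ≤ 1 / 10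
  mono : ∀ S A A', GS S A → A ≤ A' → A' * tt S ≤ 1 / 10 → GS S A'
  step : ∀ S A, GS S A → tt S ≤ ts → GS (stp S) (A / 16 + C) ∧ den (stp S) = mk μ (den S) ∧
    |1 / tt (stp S) - 1 / tt S + a0| ≤ C * (Real.sqrt (tt S) + A * tt S)
  g2_lo : ∀ S A, GS S A → c * tt S ≤ g2 μ L (den S)
  g2_hi : ∀ S A, GS S A → g2 μ L (den S) ≤ C * tt S
  g2_as : ∀ S A, GS S A → |g2 μ L (den S) - d0 * tt S| ≤
    C * tt S * (Real.sqrt (tt S) + A * tt S)
  triv : ∀ A, 0 ≤ A → ∃ X, 0 ≤ X ∧ ∀ S0 S1, GS S0 A → GS S1 A → Ds S0 S1 X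
  contr : ∀ K, 0 < K → ∃ C' t', 0 < C' ∧ 0 < t' ∧ ∀ S0 S1 A X, GS S0 A → GS S1 A → 0 ≤ X →
    tt S0 ≤ t' → tt S1 ≤ t' → |1 / tt S1 - 1 / tt S0| + X ≤ K → Ds S0 S1 X →
      Ds (stp S0) (stp S1) (X / 16 + C' * tt S0 * (|1 / tt S1 - 1 / tt S0| + X)) ∧
      |(1 / tt (stp S1) - 1 / tt (stp S0)) - (1 / tt S1 - 1 / tt S0)| ≤
        C' * tt S0 * (|1 / tt S1 - 1 / tt S0| + X)
  olip : ∀ K, 0 < K → ∃ C' t', 0 < C' ∧ 0 < t' ∧ ∀ S0 S1 A X, GS S0 A → GS S1 A → 0 ≤ X →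
    tt S0 ≤ t' → tt S1 ≤ t' → |1 / tt S1 - 1 / tt S0| * tt S0 ≤ t' → X ≤ K → Ds S0 S1 X →
      |1 / tt S1 - 1 / tt S0| ≤
        C' * (|g2 μ L (den S1) - g2 μ L (den S0)| / tt S0 ^ 2 + tt S0 * X)
  dlip : ∀ K, 0 < K → ∃ (C' t' : ℝ) (p : ℕ), 0 < C' ∧ 0 < t' ∧ ∀ S0 S1 A X, GS S0 A → GS S1 A →
    0 ≤ X → tt S0 ≤ t' → tt S1 ≤ t' → |1 / tt S1 - 1 / tt S0| + X ≤ K → Ds S0 S1 X →
      ∀ x, |den S1 x - den S0 x| ≤ C' / tt S0 ^ p * (|1 / tt S1 - 1 / tt S0| + X)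


namespace Uq

/-- the recursion in the window before the end -/
theorem window {J : ℕ} {y : ℕ → ℝ} {D : ℕ → ℝ → Prop} {ε ε' η X0 : ℝ} (hε0 : 0 ≤ ε)
    (hε : ε ≤ 1 / 48) (hε' : ε' ≤ 1 / 2) (hX0 : 0 ≤ X0)
    (hy0 : ∀ l, 0 ≤ y l) (hy1 : ∀ l ≤ J, y l ≤ 1) (hJ : D J X0)
    (hstep : ∀ l < J, ∀ X, 0 ≤ X → y (l + 1) + X ≤ X0 + 2 → D (l + 1) X → ∃ X', 0 ≤ X' ∧
      X' ≤ X / 16 + ε * (y (l + 1) + X) ∧ D l X' ∧ |y l - y (l + 1)| ≤ ε * (y (l + 1) + X))
    (hend : ∀ X, 0 ≤ X → X ≤ X0 + 2 → D 0 X → y 0 ≤ η + ε' * X) :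
    (∀ i ≤ J, ∃ X, 0 ≤ X ∧ D (J - i) X ∧ X ≤ X0 / 4 ^ i + y (J - i)) ∧
      ∀ l ≤ J, y l ≤ (1 + 3 * ε) ^ l * (2 * η + X0 / 4 ^ J) + 2 * ε * (X0 / 4 ^ (J - l)) := by
  have hq : ∀ i : ℕ, 0 ≤ X0 / 4 ^ i := fun i => by positivity
  have hq1 : ∀ i : ℕ, X0 / 4 ^ i ≤ X0 := fun i =>
    div_le_self hX0 (one_le_pow₀ (by norm_num))
  have core : ∀ i, i + 1 ≤ J → (∃ X, 0 ≤ X ∧ D (J - i) X ∧ X ≤ X0 / 4 ^ i + y (J - i)) →
      (∃ X, 0 ≤ X ∧ D (J - (i + 1)) X ∧ X ≤ X0 / 4 ^ (i + 1) + y (J - (i + 1))) ∧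
      y (J - i) ≤ (1 + 3 * ε) * (y (J - (i + 1)) + ε * (X0 / 4 ^ i)) := by
    rintro i hi ⟨X, hX, hD, hXle⟩
    obtain ⟨l, hl⟩ : ∃ l, l = J - (i + 1) := ⟨_, rfl⟩
    have hl1 : J - i = l + 1 := by omega
    rw [hl1] at hD hXle ⊢
    rw [← hl]
    have hy1' := hy1 (l + 1) (by omega)
    have hy0' := hy0 (l + 1)
    have hy0l := hy0 l
    have hZ := hq i
    have hZ1 := hq1 i
    obtain ⟨X', hX', hX'le, hD', hab⟩ := hstep l (by omega) X hX (by linarith) hD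
    have hZ4 : X0 / 4 ^ (i + 1) = X0 / 4 ^ i / 4 := by rw [pow_succ]; field_simp
    rw [hZ4]
    set Z := X0 / 4 ^ i with hZd
    set y1 := y (l + 1) with hy1d
    set y0 := y l with hy0d
    have h1 := (abs_le.1 hab).1
    have h2 : ε * (y1 + X) ≤ ε * (2 * y1 + Z) := mul_le_mul_of_nonneg_left (by linarith) hε0
    have h3 : (1 - 2 * ε) * y1 ≤ y0 + ε * Z := by nlinarith
    have hp : 0 ≤ y0 + ε * Z := by positivity
    have h4 : y1 ≤ (1 + 3 * ε) * (y0 + ε * Z) := by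
      have e1 : (1 + 3 * ε) * ((1 - 2 * ε) * y1) ≤ (1 + 3 * ε) * (y0 + ε * Z) :=
        mul_le_mul_of_nonneg_left h3 (by positivity)
      have e2 : y1 ≤ (1 + 3 * ε) * ((1 - 2 * ε) * y1) := by
        have : (1 + 3 * ε) * ((1 - 2 * ε) * y1) - y1 = ε * (1 - 6 * ε) * y1 := by ring
        have h5 : 0 ≤ ε * (1 - 6 * ε) * y1 := by
          have : 0 ≤ 1 - 6 * ε := by linarith
          positivity
        linarith
      linarith
    refine ⟨⟨X', hX', hD', ?_⟩, h4⟩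
    have h5 : y1 ≤ 17 / 16 * (y0 + Z / 48) := by
      refine h4.trans (mul_le_mul (by linarith) ?_ hp (by norm_num))
      nlinarith
    nlinarith
  have A : ∀ i ≤ J, ∃ X, 0 ≤ X ∧ D (J - i) X ∧ X ≤ X0 / 4 ^ i + y (J - i) := by
    intro i
    induction i with
    | zero =>
      intro _
      refine ⟨X0, hX0, by simpa using hJ, ?_⟩
      have := hy0 (J - 0)
      simpa using this
    | succ i ih =>
      intro hi
      exact (core i hi (ih (by omega))).1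
  refine ⟨A, ?_⟩
  intro l
  induction l with
  | zero =>
    intro _
    obtain ⟨X, hX, hD, hXle⟩ := A J le_rfl
    rw [Nat.sub_self] at hD hXle
    have h1 := hy1 0 (Nat.zero_le _)
    have h2 := hend X hX (by have := hq1 J; linarith) hD
    have h3 : ε' * X ≤ 1 / 2 * (X0 / 4 ^ J + y 0) :=
      mul_le_mul hε' hXle hX (by norm_num)
    have h4 := hq (J - 0)
    have h5 : 0 ≤ 2 * ε * (X0 / 4 ^ (J - 0)) := by positivity
    have h6 := hq J
    rw [pow_zero, one_mul]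
    linarith
  | succ l ih =>
    intro hl
    have h1 := ih (by omega)
    have h2 := (core (J - (l + 1)) (by omega) (A _ (by omega))).2
    rw [show J - (J - (l + 1)) = l + 1 by omega, show J - (J - (l + 1) + 1) = l by omega] at h2
    have h3 : X0 / 4 ^ (J - l) = X0 / 4 ^ (J - (l + 1)) / 4 := by
      rw [show J - l = J - (l + 1) + 1 by omega, pow_succ]; field_simp
    rw [h3] at h1
    set Z := X0 / 4 ^ (J - (l + 1)) with hZd
    have hZ : 0 ≤ Z := hq _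
    set B := 2 * η + X0 / 4 ^ J with hB
    have h4 : (1 + 3 * ε) * (y l + ε * Z) ≤
        (1 + 3 * ε) * ((1 + 3 * ε) ^ l * B + 2 * ε * (Z / 4) + ε * Z) :=
      mul_le_mul_of_nonneg_left (by linarith) (by positivity)
    have h5 : (1 + 3 * ε) * ((1 + 3 * ε) ^ l * B + 2 * ε * (Z / 4) + ε * Z) =
        (1 + 3 * ε) ^ (l + 1) * B + (1 + 3 * ε) * (3 / 2) * (ε * Z) := by ring
    have h6 : (1 + 3 * ε) * (3 / 2) * (ε * Z) ≤ 2 * (ε * Z) :=
      mul_le_mul_of_nonneg_right (by linarith) (by positivity)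
    linarith


/-! ### runs -/

/-- the errors along a run -/
def AA (C A : ℝ) (i : ℕ) : ℝ := (fun a => a / 16 + C)^[i] A

theorem AA_succ (C A : ℝ) (i : ℕ) : AA C A (i + 1) = AA C A i / 16 + C := by
  unfold AA
  rw [Function.iterate_succ_apply']

theorem AA_le {C : ℝ} (A : ℝ) (i : ℕ) : AA C A i ≤ A / 16 ^ i + 16 / 15 * C - C / 15 / 16 ^ i +
    (-C) / 16 ^ i := by
  induction i with
  | zero =>
    show A ≤ _
    rw [pow_zero]
    linarith
  | succ i ih =>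
    rw [AA_succ, pow_succ]
    have e : A / (16 ^ i * 16) + 16 / 15 * C - C / 15 / (16 ^ i * 16) + (-C) / (16 ^ i * 16) =
        (A / 16 ^ i + 16 / 15 * C - C / 15 / 16 ^ i + (-C) / 16 ^ i) / 16 + C := by
      field_simp
      ring
    rw [e]
    linarith

section run

variable {μ L} {Q : Type} {stp : Q → Q} {den : Q → G → ℝ} {tt : Q → ℝ} {GS : Q → ℝ → Prop}
    {Ds : Q → Q → ℝ → Prop} {ts C c a0 d0 : ℝ}

theorem run (uv2 : UV2 μ L stp den tt GS Ds ts C c a0 d0) {Good : (G → ℝ) → ℝ → ℝ → Prop}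
    {ts0 t1 κ2 : ℝ} (hG : ∀ S A, GS S A → Good (den S) (tt S) A) (hts : ts ≤ ts0) (ht1 : t1 ≤ ts)
    (hex : ∀ f t A, Good f t A → t1 ≤ t → t ≤ 2 * ts0 → ∀ j : ℕ, κ2 ≤ g2 μ L ((mk μ)^[j] f))
    {S : Q} {A : ℝ} {n : ℕ} (hS : GS S A) (hn : g2 μ L ((mk μ)^[n] (den S)) < κ2) :
    ∀ i ≤ n, GS (stp^[i] S) (AA C A i) ∧ tt (stp^[i] S) < t1 ∧
      den (stp^[i] S) = (mk μ)^[i] (den S) := by
  have key : ∀ i ≤ n, ∀ B, GS (stp^[i] S) B → den (stp^[i] S) = (mk μ)^[i] (den S) →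
      tt (stp^[i] S) < t1 := by
    intro i hi B h1 h2
    by_contra hc
    rw [not_lt] at hc
    have h3 := hex _ _ _ (hG _ _ h1) hc (by have := (uv2.pos _ _ h1).2.1; linarith) (n - i)
    rw [h2, ← Function.iterate_add_apply, Nat.sub_add_cancel hi] at h3
    linarith
  intro i
  induction i with
  | zero => intro _; exact ⟨hS, key 0 (Nat.zero_le _) A hS rfl, rfl⟩
  | succ i ih =>
    intro hi
    obtain ⟨h1, h2, h3⟩ := ih (by omega)
    obtain ⟨h4, h5, -⟩ := uv2.step _ _ h1 (by linarith)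
    have h6 : stp^[i + 1] S = stp (stp^[i] S) := Function.iterate_succ_apply' _ _ _
    have h7 : den (stp^[i + 1] S) = (mk μ)^[i + 1] (den S) := by
      rw [h6, h5, h3, Function.iterate_succ_apply']
    have h8 : GS (stp^[i + 1] S) (AA C A (i + 1)) := by rw [h6, AA_succ]; exact h4
    exact ⟨h8, key _ hi _ h8 h7, h7⟩

/-- the end of a run -/
structure RE (μ : Measure G) (stp : Q → Q) (den : Q → G → ℝ) (tt : Q → ℝ) (GS : Q → ℝ → Prop)
    (C a0 t1 B Cd : ℝ) (S : Q) (n J : ℕ) : Prop where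
  le : J ≤ n
  gs : ∀ l ≤ J, GS (stp^[n - l] S) (2 * C)
  small : ∀ l ≤ J, tt (stp^[n - l] S) ≤ t1
  dn : ∀ l ≤ J, den (stp^[n - l] S) = (mk μ)^[n - l] (den S)
  inv : ∀ l ≤ J, 1 / tt (stp^[n - l] S) ≤ B + Cd * l
  dr : ∀ l < J, |1 / tt (stp^[n - l] S) - 1 / tt (stp^[n - (l + 1)] S) + a0| ≤
    C * (Real.sqrt t1 + 2 * C * t1)

/-- the constant of the crude bound of the drift -/
def Ck (ts C a0 : ℝ) : ℝ := a0 + C * (Real.sqrt ts + 1 / 10)

theorem run_back (uv2 : UV2 μ L stp den tt GS Ds ts C c a0 d0) {t1 B : ℝ} (ht1 : t1 ≤ ts)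
    {S : Q} {A : ℝ} {n : ℕ}
    (hr : ∀ i ≤ n, GS (stp^[i] S) (AA C A i) ∧ tt (stp^[i] S) < t1 ∧
      den (stp^[i] S) = (mk μ)^[i] (den S)) (hB : 1 / tt (stp^[n] S) ≤ B) :
    ∀ l ≤ n, 1 / tt (stp^[n - l] S) ≤ B + Ck ts C a0 * l := by
  intro l
  induction l with
  | zero => intro _; simpa using hB
  | succ l ih =>
    intro hl
    have h1 := ih (by omega)
    obtain ⟨h2, h3, -⟩ := hr (n - (l + 1)) (Nat.sub_le _ _)
    obtain ⟨h4, h5, h6, h7⟩ := uv2.pos _ _ h2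
    have h8 := (uv2.step _ _ h2 (by linarith)).2.2
    rw [← Function.iterate_succ_apply' stp, show (n - (l + 1)).succ = n - l by omega] at h8
    have h9 : C * (Real.sqrt (tt (stp^[n - (l + 1)] S)) + AA C A (n - (l + 1)) *
        tt (stp^[n - (l + 1)] S)) ≤ C * (Real.sqrt ts + 1 / 10) :=
      mul_le_mul_of_nonneg_left (add_le_add (Real.sqrt_le_sqrt (by linarith)) h7) uv2.C_pos.le
    have h10 := (abs_le.1 (h8.trans h9)).1
    unfold Ck
    unfold Ck at h1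
    push_cast
    linarith

theorem exists_RE (uv2 : UV2 μ L stp den tt GS Ds ts C c a0 d0)
    {Good : (G → ℝ) → ℝ → ℝ → Prop} {ts0 t1 κ2 : ℝ} (hG : ∀ S A, GS S A → Good (den S) (tt S) A)
    (hts : ts ≤ ts0) (ht1 : t1 ≤ ts) (hCt : 2 * C * t1 ≤ 1 / 10)
    (hex : ∀ f t A, Good f t A → t1 ≤ t → t ≤ 2 * ts0 → ∀ j : ℕ, κ2 ≤ g2 μ L ((mk μ)^[j] f))
    {κ : ℝ} (hκ : 0 < κ) (hκ2 : κ < κ2) {S : ℕ → Q} {A : ℕ → ℝ} {n : ℕ → ℕ}
    (hS : ∀ j, GS (S j) (A j)) (h0 : Tendsto (fun j => tt (S j)) atTop (𝓝 0))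
    (hg : Tendsto (fun j => g2 μ L ((mk μ)^[n j] (den (S j)))) atTop (𝓝 κ)) (J : ℕ) :
    ∀ᶠ j in atTop, RE μ stp den tt GS C a0 t1 (2 * C / κ) (Ck ts C a0) (S j) (n j) J := by
  have hC := uv2.C_pos
  have ha0 := uv2.a0_pos
  have hCk : 0 ≤ Ck ts C a0 := by unfold Ck; positivity
  -- the runs
  have e1 : ∀ᶠ j in atTop, g2 μ L ((mk μ)^[n j] (den (S j))) < κ2 := hg.eventually (gt_mem_nhds hκ2)
  have e2 : ∀ᶠ j in atTop, κ / 2 < g2 μ L ((mk μ)^[n j] (den (S j))) :=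
    hg.eventually (lt_mem_nhds (by linarith))
  have e3 : ∀ᶠ j in atTop, (∀ i ≤ n j, GS (stp^[i] (S j)) (AA C (A j) i) ∧
      tt (stp^[i] (S j)) < t1 ∧ den (stp^[i] (S j)) = (mk μ)^[i] (den (S j))) ∧
      ∀ l ≤ n j, 1 / tt (stp^[n j - l] (S j)) ≤ 2 * C / κ + Ck ts C a0 * l := by
    filter_upwards [e1, e2] with j h1 h2
    have hr := run uv2 hG hts ht1 hex (hS j) h1
    refine ⟨hr, run_back uv2 ht1 hr ?_⟩
    obtain ⟨h3, h4, h5⟩ := hr (n j) le_rfl
    have h6 := uv2.g2_hi _ _ h3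
    have h7 := (uv2.pos _ _ h3).1
    rw [h5] at h6
    rw [div_le_div_iff₀ h7 hκ]
    nlinarith
  have hpos : ∀ j, 0 < tt (S j) := fun j => (uv2.pos _ _ (hS j)).1
  have h0' : Tendsto (fun j => 1 / tt (S j)) atTop atTop := by
    have : Tendsto (fun j => tt (S j)) atTop (𝓝[>] 0) :=
      tendsto_nhdsWithin_iff.2 ⟨h0, Eventually.of_forall hpos⟩
    simp only [one_div]
    exact tendsto_inv_nhdsGT_zero.comp this
  have hn : Tendsto n atTop atTop := by
    rw [tendsto_atTop]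
    intro b
    filter_upwards [e3, h0'.eventually_gt_atTop (2 * C / κ + Ck ts C a0 * b)] with j hj hb
    by_contra hc
    rw [not_le] at hc
    have h1 := hj.2 (n j) le_rfl
    rw [Nat.sub_self] at h1
    have h2 : (n j : ℝ) ≤ b := by exact_mod_cast hc.le
    have h3 : Ck ts C a0 * n j ≤ Ck ts C a0 * b := mul_le_mul_of_nonneg_left h2 hCk
    have h4 : stp^[0] (S j) = S j := rfl
    rw [h4] at h1
    linarith
  have e4 : Tendsto (fun j => (2 * C / κ + Ck ts C a0 * (n j : ℝ)) / (16 : ℝ) ^ n j) atTop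
      (𝓝 0) := by
    have h1 : Tendsto (fun n : ℕ => (2 * C / κ + Ck ts C a0 * n) / (16 : ℝ) ^ n) atTop (𝓝 0) := by
      have e1 := tendsto_pow_const_div_const_pow_of_one_lt 1 (by norm_num : (1 : ℝ) < 16)
      have e0 := tendsto_pow_const_div_const_pow_of_one_lt 0 (by norm_num : (1 : ℝ) < 16)
      have e2 := (e0.const_mul (2 * C / κ)).add (e1.const_mul (Ck ts C a0))
      rw [mul_zero, mul_zero, add_zero] at e2
      refine e2.congr fun n => ?_
      rw [pow_zero, pow_one]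
      ring
    exact h1.comp hn
  have e5 := e4.eventually (gt_mem_nhds (show (0 : ℝ) < C / 16 ^ J / 2 by positivity))
  filter_upwards [e3, e5, hn.eventually_ge_atTop J] with j hj h5 hJ
  obtain ⟨hr, hb⟩ := hj
  -- the errors
  have hAj : A j ≤ 2 * C / κ + Ck ts C a0 * (n j : ℝ) := by
    have h1 := hb (n j) le_rfl
    rw [Nat.sub_self] at h1
    have h4 : stp^[0] (S j) = S j := rfl
    rw [h4] at h1
    have h2 := (uv2.pos _ _ (hS j)).2.2.2
    have h3 := hpos j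
    have h6 : A j ≤ 1 / tt (S j) := by
      rw [le_div_iff₀ h3]
      linarith
    linarith
  have hA2 : ∀ l ≤ J, AA C (A j) (n j - l) ≤ 2 * C := by
    intro l hl
    have h1 := AA_le (C := C) (A j) (n j - l)
    have h2 : A j / 16 ^ (n j - l) ≤ C / 2 := by
      have h3 : (16 : ℝ) ^ n j ≤ 16 ^ (n j - l) * 16 ^ J := by
        rw [← pow_add]
        exact pow_le_pow_right₀ (by norm_num) (by omega)
      rw [div_lt_iff₀ (by positivity)] at h5
      rw [div_le_iff₀ (by positivity)]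
      have h6 : C / 16 ^ J / 2 * 16 ^ n j ≤ C / 16 ^ J / 2 * (16 ^ (n j - l) * 16 ^ J) :=
        mul_le_mul_of_nonneg_left h3 (by positivity)
      have h7 : C / 16 ^ J / 2 * (16 ^ (n j - l) * 16 ^ J) = C / 2 * 16 ^ (n j - l) := by
        field_simp
      linarith
    have h8 : 0 ≤ C / 15 / (16 : ℝ) ^ (n j - l) := by positivity
    have h9 : -C / (16 : ℝ) ^ (n j - l) ≤ 0 := by
      rw [neg_div]
      have : 0 ≤ C / (16 : ℝ) ^ (n j - l) := by positivity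
      linarith
    linarith
  have hgs : ∀ l ≤ J, GS (stp^[n j - l] (S j)) (2 * C) := by
    intro l hl
    obtain ⟨h1, h2, -⟩ := hr (n j - l) (Nat.sub_le _ _)
    refine uv2.mono _ _ _ h1 (hA2 l hl) ?_
    have h3 := (uv2.pos _ _ h1).1
    nlinarith
  refine ⟨hJ, hgs, fun l hl => (hr _ (Nat.sub_le _ _)).2.1.le,
    fun l hl => (hr _ (Nat.sub_le _ _)).2.2, fun l hl => hb l (hl.trans hJ), ?_⟩
  intro l hl
  have h1 := hgs (l + 1) hl
  have h2 := (hr (n j - (l + 1)) (Nat.sub_le _ _)).2.1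
  have h3 := (uv2.step _ _ h1 (by linarith)).2.2
  rw [← Function.iterate_succ_apply' stp, show (n j - (l + 1)).succ = n j - l by omega] at h3
  have h4 := (uv2.pos _ _ h1).1
  exact h3.trans (mul_le_mul_of_nonneg_left (add_le_add (Real.sqrt_le_sqrt h2.le)
    (mul_le_mul_of_nonneg_left h2.le (by positivity))) hC.le)

/-- the distance of the inverse couplings, `l` steps before the end -/
def yy (stp : Q → Q) (tt : Q → ℝ) (S S' : Q) (n n' l : ℕ) : ℝ :=
  |1 / tt (stp^[n' - l] S') - 1 / tt (stp^[n - l] S)|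

variable {t1 B Cd : ℝ} {S S' : Q} {n n' J : ℕ}

theorem crude (h : RE μ stp den tt GS C a0 t1 B Cd S n J)
    (h' : RE μ stp den tt GS C a0 t1 B Cd S' n' J) : ∀ l < J,
    yy stp tt S S' n n' (l + 1) ≤ yy stp tt S S' n n' l + 2 * (C * (Real.sqrt t1 + 2 * C * t1)) := by
  intro l hl
  have h1 := abs_le.1 (h.dr l hl)
  have h2 := abs_le.1 (h'.dr l hl)
  unfold yy
  have h3 := le_abs_self (1 / tt (stp^[n' - l] S') - 1 / tt (stp^[n - l] S))
  have h4 := neg_abs_le (1 / tt (stp^[n' - l] S') - 1 / tt (stp^[n - l] S))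
  rw [abs_le]
  constructor <;> linarith

theorem ratio (uv2 : UV2 μ L stp den tt GS Ds ts C c a0 d0)
    (h : RE μ stp den tt GS C a0 t1 B Cd S n J) (h' : RE μ stp den tt GS C a0 t1 B Cd S' n' J)
    (hδ : C * (Real.sqrt t1 + 2 * C * t1) ≤ d0 / 2) :
    yy stp tt S S' n n' 0 * tt (stp^[n] S) ≤ 2 / d0 *
      (|g2 μ L ((mk μ)^[n'] (den S')) - g2 μ L ((mk μ)^[n] (den S))| * B +
        2 * (C * (Real.sqrt t1 + 2 * C * t1))) := by
  have hC := uv2.C_pos
  have hd0 := uv2.d0_pos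
  have g1 := h.gs 0 (Nat.zero_le _)
  have g1' := h'.gs 0 (Nat.zero_le _)
  have s1 := h.small 0 (Nat.zero_le _)
  have s1' := h'.small 0 (Nat.zero_le _)
  have d1 := h.dn 0 (Nat.zero_le _)
  have d1' := h'.dn 0 (Nat.zero_le _)
  have i1' := h'.inv 0 (Nat.zero_le _)
  have p1 := (uv2.pos _ _ g1).1
  have p1' := (uv2.pos _ _ g1').1
  have a1 := uv2.g2_as _ _ g1
  have a1' := uv2.g2_as _ _ g1'
  unfold yy
  simp only [Nat.sub_zero] at *
  rw [Nat.cast_zero, mul_zero, add_zero] at i1'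
  rw [d1] at a1
  rw [d1'] at a1'
  set g := g2 μ L ((mk μ)^[n] (den S))
  set g' := g2 μ L ((mk μ)^[n'] (den S'))
  set t := tt (stp^[n] S)
  set t' := tt (stp^[n'] S')
  set δ := C * (Real.sqrt t1 + 2 * C * t1) with hδd
  have hδ0 : 0 ≤ δ := by
    have : 0 ≤ t1 := p1.le.trans s1
    positivity
  have b1 : C * t * (Real.sqrt t + 2 * C * t) ≤ δ * t := by
    rw [hδd]
    have : Real.sqrt t + 2 * C * t ≤ Real.sqrt t1 + 2 * C * t1 :=
      add_le_add (Real.sqrt_le_sqrt s1) (mul_le_mul_of_nonneg_left s1 (by positivity))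
    calc C * t * (Real.sqrt t + 2 * C * t) ≤ C * t * (Real.sqrt t1 + 2 * C * t1) :=
          mul_le_mul_of_nonneg_left this (by positivity)
      _ = _ := by ring
  have b1' : C * t' * (Real.sqrt t' + 2 * C * t') ≤ δ * t' := by
    rw [hδd]
    have : Real.sqrt t' + 2 * C * t' ≤ Real.sqrt t1 + 2 * C * t1 :=
      add_le_add (Real.sqrt_le_sqrt s1') (mul_le_mul_of_nonneg_left s1' (by positivity))
    calc C * t' * (Real.sqrt t' + 2 * C * t') ≤ C * t' * (Real.sqrt t1 + 2 * C * t1) :=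
          mul_le_mul_of_nonneg_left this (by positivity)
      _ = _ := by ring
  have c1 := abs_le.1 (a1.trans b1)
  have c1' := abs_le.1 (a1'.trans b1')
  have e1 : |1 / t' - 1 / t| * t = |t - t'| / t' := by
    have : 1 / t' - 1 / t = (t - t') / (t' * t) := by field_simp
    rw [this, abs_div, abs_of_pos (mul_pos p1' p1)]
    field_simp
  rw [e1]
  set r := |t - t'| with hr
  have r1 := le_abs_self (t - t')
  have r2 := neg_abs_le (t - t')
  rw [← hr] at r1 r2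
  have q1 := le_abs_self (g' - g)
  have q2 := neg_abs_le (g' - g)
  have f1 : d0 * r ≤ |g' - g| + δ * t + δ * t' := by
    rcases abs_cases (t - t') with ⟨h1, h2⟩ | ⟨h1, h2⟩
    · rw [hr, h1]; nlinarith
    · rw [hr, h1]; nlinarith
  have f2 : δ * t ≤ δ * (t' + r) := mul_le_mul_of_nonneg_left (by linarith) hδ0
  have hr0 : 0 ≤ r := abs_nonneg _
  have f3 : d0 / 2 * r ≤ |g' - g| + 2 * δ * t' := by nlinarith
  have f4 : |g' - g| ≤ |g' - g| * B * t' := by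
    have : 1 ≤ B * t' := by
      rwa [div_le_iff₀ p1'] at i1'
    nlinarith [abs_nonneg (g' - g)]
  rw [div_le_iff₀ p1']
  have f5 : r = 2 / d0 * (d0 / 2 * r) := by field_simp
  rw [f5, mul_assoc]
  refine mul_le_mul_of_nonneg_left ?_ (by positivity)
  linarith

/-- the inverse couplings at the end -/
theorem olip_end (uv2 : UV2 μ L stp den tt GS Ds ts C c a0 d0) {X0 Co tq : ℝ}
    (hCo : 0 < Co)
    (ho : ∀ S0 S1 A X, GS S0 A → GS S1 A → 0 ≤ X →
      tt S0 ≤ tq → tt S1 ≤ tq → |1 / tt S1 - 1 / tt S0| * tt S0 ≤ tq → X ≤ X0 + 2 → Ds S0 S1 X →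
        |1 / tt S1 - 1 / tt S0| ≤
          Co * (|g2 μ L (den S1) - g2 μ L (den S0)| / tt S0 ^ 2 + tt S0 * X))
    (hto : t1 ≤ tq)
    (h : RE μ stp den tt GS C a0 t1 B Cd S n J) (h' : RE μ stp den tt GS C a0 t1 B Cd S' n' J)
    (hr : yy stp tt S S' n n' 0 * tt (stp^[n] S) ≤ tq) {X : ℝ} (hX : 0 ≤ X) (hK : X ≤ X0 + 2)
    (hD : Ds (stp^[n - 0] S) (stp^[n' - 0] S') X) :
    yy stp tt S S' n n' 0 ≤
      Co * (|g2 μ L ((mk μ)^[n'] (den S')) - g2 μ L ((mk μ)^[n] (den S))| * B ^ 2) +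
        Co * t1 * X := by
  have g1 := h.gs 0 (Nat.zero_le _)
  have g1' := h'.gs 0 (Nat.zero_le _)
  have s1 := h.small 0 (Nat.zero_le _)
  have s1' := h'.small 0 (Nat.zero_le _)
  have d1 := h.dn 0 (Nat.zero_le _)
  have d1' := h'.dn 0 (Nat.zero_le _)
  have i1 := h.inv 0 (Nat.zero_le _)
  have p1 := (uv2.pos _ _ g1).1
  have h1 := ho _ _ _ X g1 g1' hX (s1.trans hto) (s1'.trans hto) (by
    unfold yy at hr
    simpa only [Nat.sub_zero] using hr) hK hD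
  rw [d1, d1'] at h1
  unfold yy
  rw [Nat.cast_zero, mul_zero, add_zero] at i1
  simp only [Nat.sub_zero] at *
  refine h1.trans ?_
  rw [mul_add]
  refine add_le_add (mul_le_mul_of_nonneg_left ?_ hCo.le) ?_
  · rw [div_eq_mul_inv]
    refine mul_le_mul_of_nonneg_left ?_ (abs_nonneg _)
    have : (tt (stp^[n] S) ^ 2)⁻¹ = (1 / tt (stp^[n] S)) ^ 2 := by rw [one_div, inv_pow]
    rw [this]
    exact pow_le_pow_left₀ (by positivity) i1 2
  · rw [mul_assoc]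
    exact mul_le_mul_of_nonneg_left (mul_le_mul_of_nonneg_right s1 hX) hCo.le

/-- the window before the end -/
theorem win (uv2 : UV2 μ L stp den tt GS Ds ts C c a0 d0) {X0 Cc tc Co tq : ℝ} (hX0 : 0 ≤ X0)
    (hCc : 0 < Cc) (hCo : 0 < Co) (ht1 : 0 < t1)
    (hc : ∀ S0 S1 A X, GS S0 A → GS S1 A → 0 ≤ X →
      tt S0 ≤ tc → tt S1 ≤ tc → |1 / tt S1 - 1 / tt S0| + X ≤ X0 + 2 → Ds S0 S1 X →
        Ds (stp S0) (stp S1) (X / 16 + Cc * tt S0 * (|1 / tt S1 - 1 / tt S0| + X)) ∧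
        |(1 / tt (stp S1) - 1 / tt (stp S0)) - (1 / tt S1 - 1 / tt S0)| ≤
          Cc * tt S0 * (|1 / tt S1 - 1 / tt S0| + X))
    (ho : ∀ S0 S1 A X, GS S0 A → GS S1 A → 0 ≤ X →
      tt S0 ≤ tq → tt S1 ≤ tq → |1 / tt S1 - 1 / tt S0| * tt S0 ≤ tq → X ≤ X0 + 2 → Ds S0 S1 X →
        |1 / tt S1 - 1 / tt S0| ≤
          Co * (|g2 μ L (den S1) - g2 μ L (den S0)| / tt S0 ^ 2 + tt S0 * X))
    (htr : ∀ S0 S1, GS S0 (2 * C) → GS S1 (2 * C) → Ds S0 S1 X0)
    (htc : t1 ≤ tc) (hto : t1 ≤ tq) (hcs : Cc * t1 ≤ 1 / 48) (hos : Co * t1 ≤ 1 / 2)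
    (h : RE μ stp den tt GS C a0 t1 B Cd S n J) (h' : RE μ stp den tt GS C a0 t1 B Cd S' n' J)
    (hr : yy stp tt S S' n n' 0 * tt (stp^[n] S) ≤ tq) (hy : ∀ l ≤ J, yy stp tt S S' n n' l ≤ 1) :
    (∀ i ≤ J, ∃ X, 0 ≤ X ∧ Ds (stp^[n - (J - i)] S) (stp^[n' - (J - i)] S') X ∧
      X ≤ X0 / 4 ^ i + yy stp tt S S' n n' (J - i)) ∧
    ∀ l ≤ J, yy stp tt S S' n n' l ≤ (1 + 3 * (Cc * t1)) ^ l *
      (2 * (Co * (|g2 μ L ((mk μ)^[n'] (den S')) - g2 μ L ((mk μ)^[n] (den S))| * B ^ 2)) +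
        X0 / 4 ^ J) + 2 * (Cc * t1) * (X0 / 4 ^ (J - l)) := by
  refine window (D := fun l X => Ds (stp^[n - l] S) (stp^[n' - l] S') X) (ε' := Co * t1)
    (by positivity) hcs hos hX0 (fun l => abs_nonneg _) hy
    (htr _ _ (h.gs J le_rfl) (h'.gs J le_rfl)) ?_ ?_
  · intro l hl X hX hK hD
    have g1 := h.gs (l + 1) hl
    have g1' := h'.gs (l + 1) hl
    have s1 := h.small (l + 1) hl
    have s1' := h'.small (l + 1) hl
    have p1 := (uv2.pos _ _ g1).1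
    obtain ⟨h1, h2⟩ := hc _ _ _ X g1 g1' hX (s1.trans htc) (s1'.trans htc) hK hD
    have hn := h.le
    have hn' := h'.le
    rw [← Function.iterate_succ_apply' stp, ← Function.iterate_succ_apply' stp,
      show (n - (l + 1)).succ = n - l by omega, show (n' - (l + 1)).succ = n' - l by omega] at h1 h2
    have hyl : 0 ≤ yy stp tt S S' n n' (l + 1) := abs_nonneg _
    have h3 : Cc * tt (stp^[n - (l + 1)] S) * (yy stp tt S S' n n' (l + 1) + X) ≤
        Cc * t1 * (yy stp tt S S' n n' (l + 1) + X) :=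
      mul_le_mul_of_nonneg_right (mul_le_mul_of_nonneg_left s1 hCc.le) (by positivity)
    refine ⟨_, ?_, ?_, h1, ?_⟩
    · have : 0 ≤ |1 / tt (stp^[n' - (l + 1)] S') - 1 / tt (stp^[n - (l + 1)] S)| := abs_nonneg _
      positivity
    · unfold yy at h3 ⊢
      linarith
    · refine le_trans ?_ h3
      refine le_trans ?_ h2
      unfold yy
      exact abs_abs_sub_abs_le_abs_sub _ _
  · intro X hX hK hD
    exact olip_end uv2 hCo ho hto h h' hr hX hK hD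

theorem exists_t1 {C : ℝ} (hC : 0 < C) {W V : ℝ} (hW : 0 < W) (hV : 0 < V) :
    ∃ t1 : ℝ, 0 < t1 ∧ t1 * W ≤ 1 ∧ C * (Real.sqrt t1 + 2 * C * t1) * V ≤ 1 := by
  have hD : 0 < C * (1 + 2 * C) * V := by positivity
  set q := 1 / (C * (1 + 2 * C) * V) with hq
  have hq0 : 0 < q := by positivity
  refine ⟨min (1 / W) (min 1 (q ^ 2)), by positivity, ?_, ?_⟩
  · have := min_le_left (1 / W) (min 1 (q ^ 2))
    rwa [le_div_iff₀ hW] at this
  · set t := min (1 / W) (min 1 (q ^ 2)) with ht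
    have ht0 : 0 < t := by positivity
    have h1 : t ≤ 1 := (min_le_right _ _).trans (min_le_left _ _)
    have h2 : t ≤ q ^ 2 := (min_le_right _ _).trans (min_le_right _ _)
    have h3 : Real.sqrt t ≤ q := Real.sqrt_le_iff.2 ⟨hq0.le, h2⟩
    have h4 : t ≤ Real.sqrt t := by
      rw [Real.le_sqrt' ht0]
      nlinarith
    have h5 : C * (Real.sqrt t + 2 * C * t) * V ≤ C * (1 + 2 * C) * V * q := by
      have : Real.sqrt t + 2 * C * t ≤ (1 + 2 * C) * q := by nlinarith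
      calc C * (Real.sqrt t + 2 * C * t) * V ≤ C * ((1 + 2 * C) * q) * V :=
            mul_le_mul_of_nonneg_right (mul_le_mul_of_nonneg_left this hC.le) hV.le
        _ = _ := by ring
    have h6 : C * (1 + 2 * C) * V * q = 1 := by rw [hq]; field_simp
    linarith

end run

end Uq

/-- **Uniqueness and universality of the continuum limit**: two sequences of initial densities in
the class, with bare couplings going to `0` and the same limit of the running coupling, have the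
same limit, at all scales. -/
theorem uniq (hconn : IsConnected (Set.univ : Set G)) (hne : ∃ X ∈ lieSet L, X ≠ 0)
    (Good : (G → ℝ) → ℝ → ℝ → Prop) (ts0 C0 ρs c0 a0 d0 : ℝ) (p : ℕ)
    (uv : UV μ L Good ts0 C0 ρs c0 a0 d0 p)
    {Q : Type} (stp : Q → Q) (den : Q → G → ℝ) (tt : Q → ℝ) (GS : Q → ℝ → Prop)
    (Ds : Q → Q → ℝ → Prop) (ts C c : ℝ) (uv2 : UV2 μ L stp den tt GS Ds ts C c a0 d0)
    (hG : ∀ S A, GS S A → Good (den S) (tt S) A) (hts : ts ≤ ts0) :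
    ∃ κ1 : ℝ, 0 < κ1 ∧ ∀ κ : ℝ, 0 < κ → κ ≤ κ1 →
      ∀ (S S' : ℕ → Q) (A A' : ℕ → ℝ) (n n' : ℕ → ℕ), (∀ j, GS (S j) (A j)) →
        (∀ j, GS (S' j) (A' j)) → Tendsto (fun j => tt (S j)) atTop (𝓝 0) →
        Tendsto (fun j => tt (S' j)) atTop (𝓝 0) →
        Tendsto (fun j => g2 μ L ((mk μ)^[n j] (den (S j)))) atTop (𝓝 κ) →
        Tendsto (fun j => g2 μ L ((mk μ)^[n' j] (den (S' j)))) atTop (𝓝 κ) →
        ∀ l : ℕ, TendstoUniformly (fun j x => (mk μ)^[n j - l] (den (S j)) x -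
          (mk μ)^[n' j - l] (den (S' j)) x) (fun _ => 0) atTop := by
  have hC := uv2.C_pos
  have ha0 := uv2.a0_pos
  have hd0 := uv2.d0_pos
  have hts0 := uv2.ts_pos
  obtain ⟨X0, hX0, htr⟩ := uv2.triv (2 * C) (by positivity)
  obtain ⟨Cc, tc, hCc, htc, hc⟩ := uv2.contr (X0 + 2) (by positivity)
  obtain ⟨Co, tq, hCo, htq, ho⟩ := uv2.olip (X0 + 2) (by positivity)
  obtain ⟨Cl, td, pl, hCl, htd, hl⟩ := uv2.dlip (X0 + 2) (by positivity)
  obtain ⟨J0, hJ0⟩ : ∃ J0 : ℕ, (1 / 3 : ℝ) ^ J0 * X0 ≤ 1 / 8 := by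
    have h1 : Tendsto (fun J0 : ℕ => (1 / 3 : ℝ) ^ J0 * X0) atTop (𝓝 (0 * X0)) :=
      (tendsto_pow_atTop_nhds_zero_of_lt_one (by norm_num) (by norm_num)).mul_const X0
    rw [zero_mul] at h1
    obtain ⟨J0, h2⟩ := (h1.eventually (gt_mem_nhds (show (0 : ℝ) < 1 / 8 by norm_num))).exists
    exact ⟨J0, h2.le⟩
  -- the smallness of the coupling
  obtain ⟨t1, ht1, hW, hV⟩ := Uq.exists_t1 (C := C) hC
    (W := 1 / ts + 20 * C + 1 / tc + 1 / tq + 1 / td + 48 * Cc + 16 * Cc * X0 + 2 * Co +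
      16 * Co * X0) (V := 8 * (J0 + 1) + 2 / d0 + 8 / (d0 * tq)) (by positivity) (by positivity)
  set δ := C * (Real.sqrt t1 + 2 * C * t1) with hδ
  have hδ0 : 0 ≤ δ := by positivity
  have P1 : 0 < 1 / ts := by positivity
  have P2 : 0 < 20 * C := by positivity
  have P3 : 0 < 1 / tc := by positivity
  have P4 : 0 < 1 / tq := by positivity
  have P5 : 0 < 1 / td := by positivity
  have P6 : 0 < 48 * Cc := by positivity
  have P7 : 0 ≤ 16 * Cc * X0 := by positivity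
  have P8 : 0 < 2 * Co := by positivity
  have P9 : 0 ≤ 16 * Co * X0 := by positivity
  have R1 : 0 ≤ 8 * ((J0 : ℝ) + 1) := by positivity
  have R2 : 0 < 2 / d0 := by positivity
  have R3 : 0 < 8 / (d0 * tq) := by positivity
  have kW : ∀ a : ℝ, a ≤ 1 / ts + 20 * C + 1 / tc + 1 / tq + 1 / td + 48 * Cc + 16 * Cc * X0 +
      2 * Co + 16 * Co * X0 → t1 * a ≤ 1 := fun a h =>
    (mul_le_mul_of_nonneg_left h ht1.le).trans hW
  have kV : ∀ a : ℝ, a ≤ 8 * (J0 + 1) + 2 / d0 + 8 / (d0 * tq) → δ * a ≤ 1 := fun a h =>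
    (mul_le_mul_of_nonneg_left h hδ0).trans hV
  have k1 : ∀ a : ℝ, 0 < a → t1 * (1 / a) ≤ 1 → t1 ≤ a := by
    intro a ha h
    rw [mul_one_div, div_le_one ha] at h
    exact h
  have w1 : t1 ≤ ts := k1 _ hts0 (kW _ (by linarith))
  have w2 : 2 * C * t1 ≤ 1 / 10 := by have := kW (20 * C) (by linarith); linarith
  have w3 : t1 ≤ tc := k1 _ htc (kW _ (by linarith))
  have w4 : t1 ≤ tq := k1 _ htq (kW _ (by linarith))
  have w5 : t1 ≤ td := k1 _ htd (kW _ (by linarith))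
  have w6 : Cc * t1 ≤ 1 / 48 := by have := kW (48 * Cc) (by linarith); linarith
  have w7 : 2 * (Cc * t1) * X0 ≤ 1 / 8 := by
    have := kW (16 * Cc * X0) (by linarith); linarith
  have w8 : Co * t1 ≤ 1 / 2 := by have := kW (2 * Co) (by linarith); linarith
  have w9 : Co * t1 * X0 ≤ 1 / 16 := by
    have := kW (16 * Co * X0) (by linarith); linarith
  have v1 : 2 * δ * (J0 + 1) ≤ 1 / 4 := by
    have := kV (8 * (J0 + 1)) (by linarith); linarith
  have v2 : δ ≤ d0 / 2 := by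
    have h1 := kV (2 / d0) (by linarith)
    have h2 : δ * (2 / d0) = δ * 2 / d0 := by ring
    rw [h2, div_le_one hd0] at h1
    linarith
  have v3 : 2 / d0 * (2 * δ) ≤ tq / 2 := by
    have h1 := kV (8 / (d0 * tq)) (by linarith)
    have h2 : δ * (8 / (d0 * tq)) = (2 / d0 * (2 * δ)) * 2 / tq := by field_simp; ring
    rw [h2, div_le_one htq] at h1
    linarith
  have v4 : 2 * δ ≤ 1 / 4 := by
    have : (0 : ℝ) ≤ (J0 : ℝ) := by positivity
    nlinarith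
  obtain ⟨κ2, hκ2, hex⟩ := exit_lower μ L hconn hne Good ts0 C0 ρs c0 a0 d0 p uv t1 ht1
  refine ⟨κ2 / 2, by positivity, fun κ hκ hκle S S' A A' n n' hS hS' h0 h0' hg hg' => ?_⟩
  have hRE := Uq.exists_RE uv2 hG hts w1 w2 hex hκ (by linarith) hS h0 hg
  have hRE' := Uq.exists_RE uv2 hG hts w1 w2 hex hκ (by linarith) hS' h0' hg'
  have hCd : 0 ≤ Uq.Ck ts C a0 := by unfold Uq.Ck; positivity
  set Cd := Uq.Ck ts C a0 with hCdd
  set B := 2 * C / κ with hBd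
  have hB : 0 < B := by positivity
  set y : ℕ → ℕ → ℝ := fun j l => Uq.yy stp tt (S j) (S' j) (n j) (n' j) l with hyd
  set dg : ℕ → ℝ := fun j => |g2 μ L ((mk μ)^[n' j] (den (S' j))) -
    g2 μ L ((mk μ)^[n j] (den (S j)))| with hdg
  have hdg0 : Tendsto dg atTop (𝓝 0) := by
    have h1 := (hg'.sub hg).abs
    rw [sub_self, abs_zero] at h1
    exact h1
  set η : ℕ → ℝ := fun j => Co * (dg j * B ^ 2) with hηd
  have hη0 : ∀ j, 0 ≤ η j := fun j => by
    have : 0 ≤ dg j := abs_nonneg _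
    positivity
  have hη : Tendsto η atTop (𝓝 0) := by
    have h1 := (hdg0.mul_const (B ^ 2)).const_mul Co
    rw [zero_mul, mul_zero] at h1
    exact h1
  have hrat : ∀ᶠ j in atTop, y j 0 * tt (stp^[n j] (S j)) ≤ tq := by
    have h1 : Tendsto (fun j => 2 / d0 * (dg j * B)) atTop (𝓝 0) := by
      have h2 := (hdg0.mul_const B).const_mul (2 / d0)
      rw [zero_mul, mul_zero] at h2
      exact h2
    filter_upwards [hRE 0, hRE' 0, h1.eventually (gt_mem_nhds (show 0 < tq / 2 by positivity))]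
      with j h2 h3 h4
    have h5 := Uq.ratio uv2 h2 h3 v2
    rw [mul_add] at h5
    refine h5.trans ?_
    linarith
  have hwin := fun J j (h1 : Uq.RE μ stp den tt GS C a0 t1 B Cd (S j) (n j) J)
    (h2 : Uq.RE μ stp den tt GS C a0 t1 B Cd (S' j) (n' j) J) =>
    Uq.win uv2 hX0 hCc hCo ht1 hc ho htr w3 w4 w6 w8 h1 h2
  have hcr : ∀ J j, Uq.RE μ stp den tt GS C a0 t1 B Cd (S j) (n j) J →
      Uq.RE μ stp den tt GS C a0 t1 B Cd (S' j) (n' j) J → ∀ l < J, y j (l + 1) ≤ y j l + 2 * δ :=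
    fun J j h1 h2 => Uq.crude h1 h2
  -- the first steps
  have base : ∀ᶠ j in atTop, ∀ l ≤ J0, y j l ≤ 1 / 2 := by
    filter_upwards [hRE J0, hRE' J0, hrat, hη.eventually (gt_mem_nhds (show (0 : ℝ) < 1 / 16 by
      norm_num))] with j h1 h2 h3 h4
    have h5 : y j 0 ≤ η j + Co * t1 * X0 :=
      Uq.olip_end uv2 hCo ho w4 h1 h2 h3 hX0 (by linarith)
        (htr _ _ (h1.gs 0 (Nat.zero_le _)) (h2.gs 0 (Nat.zero_le _)))
    have h6 : ∀ l ≤ J0, y j l ≤ y j 0 + 2 * δ * l := by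
      intro l
      induction l with
      | zero => intro _; simp
      | succ l ih =>
        intro hl
        have h7 := ih (by omega)
        have h8 := hcr J0 j h1 h2 l hl
        push_cast
        linarith
    intro l hl
    have h7 := h6 l hl
    have h8 : 2 * δ * (l : ℝ) ≤ 2 * δ * (J0 + 1) := by
      have : (l : ℝ) ≤ J0 := by exact_mod_cast hl
      exact mul_le_mul_of_nonneg_left (by linarith) (by positivity)
    linarith
  -- all steps
  have hq1 : 1 + 3 * (Cc * t1) ≤ 17 / 16 := by linarith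
  have hq0 : 0 ≤ 1 + 3 * (Cc * t1) := by positivity
  have boot : ∀ J, J0 ≤ J → ∀ᶠ j in atTop, ∀ l ≤ J, y j l ≤ 1 / 2 := by
    intro J hJ
    induction J, hJ using Nat.le_induction with
    | base => exact base
    | succ J hJ ih =>
      filter_upwards [ih, hRE (J + 1), hRE' (J + 1), hrat, hη.eventually (gt_mem_nhds
        (show (0 : ℝ) < 1 / (16 * 2 ^ (J + 1)) by positivity))] with j h1 h2 h3 h4 h5
      have h6 : ∀ l ≤ J + 1, y j l ≤ 1 := by
        intro l hl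
        rcases Nat.lt_or_ge l (J + 1) with h7 | h7
        · have := h1 l (by omega)
          linarith
        · obtain rfl : l = J + 1 := by omega
          have h8 := hcr (J + 1) j h2 h3 J (Nat.lt_succ_self J)
          have h9 := h1 J le_rfl
          linarith
      intro l hl
      rcases Nat.lt_or_ge l (J + 1) with h7 | h7
      · exact h1 l (by omega)
      · obtain rfl : l = J + 1 := by omega
        have h8 : y j (J + 1) ≤ (1 + 3 * (Cc * t1)) ^ (J + 1) * (2 * η j + X0 / 4 ^ (J + 1)) +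
            2 * (Cc * t1) * (X0 / 4 ^ (J + 1 - (J + 1))) :=
          (hwin (J + 1) j h2 h3 h4 h6).2 (J + 1) le_rfl
        rw [Nat.sub_self, pow_zero, div_one, mul_add] at h8
        have h9 : (1 + 3 * (Cc * t1)) ^ (J + 1) * (2 * η j) ≤ 1 / 8 := by
          have e1 : (1 + 3 * (Cc * t1)) ^ (J + 1) ≤ 2 ^ (J + 1) :=
            pow_le_pow_left₀ hq0 (by linarith) _
          have e2 := hη0 j
          calc (1 + 3 * (Cc * t1)) ^ (J + 1) * (2 * η j) ≤
              2 ^ (J + 1) * (2 * (1 / (16 * 2 ^ (J + 1)))) :=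
                mul_le_mul e1 (by linarith) (by positivity) (by positivity)
            _ = 1 / 8 := by field_simp; norm_num
        have h10 : (1 + 3 * (Cc * t1)) ^ (J + 1) * (X0 / 4 ^ (J + 1)) ≤ 1 / 8 := by
          have e1 : (1 + 3 * (Cc * t1)) ^ (J + 1) * (X0 / 4 ^ (J + 1)) =
              ((1 + 3 * (Cc * t1)) / 4) ^ (J + 1) * X0 := by
            rw [div_pow]; ring
          have e2 : ((1 + 3 * (Cc * t1)) / 4) ^ (J + 1) ≤ (1 / 3 : ℝ) ^ (J + 1) :=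
            pow_le_pow_left₀ (by positivity) (by linarith) _
          have e3 : (1 / 3 : ℝ) ^ (J + 1) ≤ (1 / 3) ^ J0 :=
            pow_le_pow_of_le_one (by norm_num) (by norm_num) (by omega)
          rw [e1]
          exact (mul_le_mul_of_nonneg_right (e2.trans e3) hX0).trans hJ0
        linarith
  -- the conclusion
  intro l
  rw [Metric.tendstoUniformly_iff]
  intro e he
  set M := Cl * (B + Cd * l) ^ pl with hM
  have hM0 : 0 ≤ M := by positivity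
  obtain ⟨i, hi1, hi2⟩ : ∃ i : ℕ, M * (7 * (X0 / 4 ^ i)) < e / 2 ∧ J0 ≤ i := by
    have h1 : Tendsto (fun i : ℕ => M * (7 * (X0 * (1 / 4 : ℝ) ^ i))) atTop
        (𝓝 (M * (7 * (X0 * 0)))) :=
      (((tendsto_pow_atTop_nhds_zero_of_lt_one (by norm_num) (by norm_num)).const_mul
        X0).const_mul 7).const_mul M
    rw [mul_zero, mul_zero, mul_zero] at h1
    obtain ⟨i, h2, h3⟩ := ((h1.eventually (gt_mem_nhds (show 0 < e / 2 by positivity))).and
      (eventually_ge_atTop J0)).exists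
    refine ⟨i, ?_, h3⟩
    rw [one_div, inv_pow, ← div_eq_mul_inv] at h2
    exact h2
  have h1 : Tendsto (fun j => M * (4 * 4 ^ l * η j)) atTop (𝓝 0) := by
    have h2 := (hη.const_mul (4 * 4 ^ l)).const_mul M
    rw [mul_zero, mul_zero] at h2
    exact h2
  filter_upwards [boot (l + i) (by omega), hRE (l + i), hRE' (l + i), hrat,
    h1.eventually (gt_mem_nhds (show 0 < e / 2 by positivity))] with j h2 h3 h4 h5 h6 x
  obtain ⟨A1, A2⟩ := hwin (l + i) j h3 h4 h5 (fun l' hl' => (h2 l' hl').trans (by norm_num))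
  obtain ⟨X, hX, hD, hXle⟩ := A1 i (by omega)
  rw [show l + i - i = l by omega] at hD hXle
  have h7 : y j l ≤ (1 + 3 * (Cc * t1)) ^ l * (2 * η j + X0 / 4 ^ (l + i)) +
      2 * (Cc * t1) * (X0 / 4 ^ (l + i - l)) := A2 l (by omega)
  rw [show l + i - l = i by omega] at h7
  have hXle' : X ≤ X0 / 4 ^ i + y j l := hXle
  have hyl : y j l ≤ 1 / 2 := h2 l (by omega)
  have hZ0 : 0 ≤ X0 / 4 ^ i := by positivity
  have hZ1 : X0 / 4 ^ i ≤ X0 := div_le_self hX0 (one_le_pow₀ (by norm_num))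
  have h8 : y j l + X ≤ 4 * 4 ^ l * η j + 7 * (X0 / 4 ^ i) := by
    have e1 : (1 + 3 * (Cc * t1)) ^ l ≤ 4 ^ l := pow_le_pow_left₀ hq0 (by linarith) _
    have e2 := hη0 j
    have e3 : (1 + 3 * (Cc * t1)) ^ l * (2 * η j + X0 / 4 ^ (l + i)) ≤
        4 ^ l * (2 * η j + X0 / 4 ^ (l + i)) := mul_le_mul_of_nonneg_right e1 (by positivity)
    have e4 : (4 : ℝ) ^ l * (2 * η j + X0 / 4 ^ (l + i)) = 2 * 4 ^ l * η j + X0 / 4 ^ i := by
      rw [pow_add]; field_simp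
    have e5 : 2 * (Cc * t1) * (X0 / 4 ^ i) ≤ 1 * (X0 / 4 ^ i) :=
      mul_le_mul_of_nonneg_right (by linarith) hZ0
    linarith
  have h9 := hl _ _ _ X (h3.gs l (by omega)) (h4.gs l (by omega)) hX
    ((h3.small l (by omega)).trans w5) ((h4.small l (by omega)).trans w5) (by
      have : y j l + X ≤ X0 + 2 := by linarith
      exact this) hD x
  rw [h3.dn l (by omega), h4.dn l (by omega)] at h9
  have h10 : Cl / tt (stp^[n j - l] (S j)) ^ pl ≤ M := by
    have e1 := h3.inv l (by omega)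
    have e2 := (uv2.pos _ _ (h3.gs l (by omega))).1
    have e3 : Cl / tt (stp^[n j - l] (S j)) ^ pl =
        Cl * (1 / tt (stp^[n j - l] (S j))) ^ pl := by
      rw [one_div, inv_pow, div_eq_mul_inv]
    rw [e3, hM]
    exact mul_le_mul_of_nonneg_left (pow_le_pow_left₀ (by positivity) e1 pl) hCl.le
  have h11 : Cl / tt (stp^[n j - l] (S j)) ^ pl * (y j l + X) ≤
      M * (4 * 4 ^ l * η j + 7 * (X0 / 4 ^ i)) := by
    have e1 : 0 ≤ y j l := abs_nonneg _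
    exact mul_le_mul h10 h8 (by positivity) hM0
  rw [dist_comm, dist_zero_right, Real.norm_eq_abs, abs_sub_comm]
  refine lt_of_le_of_lt (h9.trans h11) ?_
  rw [mul_add]
  linarith

end

end Pool.Agent.T2H04.HY
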