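import Mathlib
import Pool.Agent.T2H04.HY.Link
import Pool.Agent.T2H04.HY.ObsL
import Pool.Agent.T2H04.HY.Pd7
import Pool.Agent.T2H04.HY.Uq

/-!
# The ultraviolet analysis for pairs of states
-/

open MeasureTheory Matrix Filter
open scoped Matrix.Norms.Frobenius Topology

namespace Pool.Agent.T2H04.HY

set_option linter.unusedSectionVars false

noncomputable section

variable {G : Type} [Group G] [TopologicalSpace G] [IsTopologicalGroup G] [CompactSpace G]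
  [MeasurableSpace G] [BorelSpace G] (μ : Measure G) [μ.IsHaarMeasure] [IsProbabilityMeasure μ]
  {m : Type} [Fintype m] [DecidableEq m] (L : RD G m)

/-- A family of initial functions which belongs to the class for all small radii. -/
def InC (I : ℝ → Mt m → ℂ) : Prop := ∃ r1 : ℝ, 0 < r1 ∧ ∀ r0 : ℝ, 0 < r0 → r0 ≤ r1 →
  ∀ t : ℝ, 0 < t → Cls L (I t) t (1 / (20 * t)) r0 (r0 / 4) (95 / 100 * r0)
    (84 / 100 * r0 ^ 2) (1 / 10000)

theorem XX_le {r0 T X : ℝ} (hr0 : 0 < r0) (hr01 : r0 ≤ 1 / 2000) (hT : 0 ≤ T) (hX : 0 ≤ X) :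
    XX r0 T X X ≤ 2 * (T + X) := by
  have hr2 : r0 ^ 2 ≤ 1 / 10 := by nlinarith
  have hr4 : r0 ^ 4 ≤ 1 / 100 := by
    have : r0 ^ 4 = r0 ^ 2 * r0 ^ 2 := by ring
    rw [this]
    nlinarith [sq_nonneg r0]
  unfold XX
  nlinarith [mul_le_mul_of_nonneg_right hr2 hT, mul_le_mul_of_nonneg_right hr4 hX]

theorem Cls.norm_large {F : Mt m → ℂ} {t A r τ s b ε : ℝ} (cl : Cls L F t A r τ s b ε)
    (Z : gC L) (hZ : Z ∈ dom L r τ) (y : G)
    (hy : s ≤ ‖NormedSpace.exp (reP (Z : Mt m)) * L.rho y - 1‖) :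
    ‖F (NormedSpace.exp (Z : Mt m) * L.rho y) / F 1‖ ≤
      Real.exp (-((b - (1 + ε) * ‖imP (Z : Mt m)‖ ^ 2) / (2 * t))) := by
  rw [norm_div, cls_normF1 cl, div_le_iff₀ cl.pos, mul_comm (Real.exp _)]
  exact cl.large Z hZ y hy

/-- **The ultraviolet analysis** of the flow of Wilson's action and of a second action, for states
and for pairs of states. -/
theorem uv_both (hs : Simple L) {n : ℕ} (hn : 0 < n) (E : Fin n → Mt m)
    (hE : ∀ a, E a ∈ lieSet L)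
    (orth : ∀ a b, (trace ((E a)ᴴ * E b)).re = if a = b then 1 else 0)
    (full : ∀ Y ∈ lieSet L, Y ∈ Submodule.span ℝ (Set.range E))
    (hfin : Module.finrank ℝ (lieAlg L) = n)
    (cas : ℝ) (hcas0 : 0 < cas)
    (hcas : ∀ X ∈ lieSet L, ∑ a, ‖E a * X - X * E a‖ ^ 2 = cas * ‖X‖ ^ 2)
    (I : ℝ → Mt m → ℂ) (hI : InC L I) :
    ∃ (Good : (G → ℝ) → ℝ → ℝ → Prop) (ts C ρs c : ℝ) (p : ℕ) (GS : St L → ℝ → Prop)
      (Ds : St L → St L → ℝ → Prop),
      UV μ L Good ts C ρs c (cas / 8) n p ∧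
      UV2 μ L (stp μ) (fun S : St L => nres μ L S.F) (fun S => S.t) GS Ds ts C c (cas / 8) n ∧
      (∀ S A, GS S A → Good (nres μ L S.F) S.t A) ∧
      (∀ t, 0 < t → t ≤ ts → ∃ S : St L, GS S (1 / (20 * t)) ∧ nres μ L S.F = wil μ L t ∧
        S.t = t) ∧
      (∀ t, 0 < t → t ≤ ts → ∃ S : St L, GS S (1 / (20 * t)) ∧ nres μ L S.F = nres μ L (I t) ∧
        S.t = t) := by
  have hne : ∃ X ∈ lieSet L, X ≠ 0 := by
    obtain ⟨X, hX, Y, _, h⟩ := hs.nonab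
    exact ⟨X, hX, fun h0 => h (by rw [h0, zero_mul, mul_zero])⟩
  obtain ⟨D⟩ := exists_log (m := m)
  obtain ⟨r1, hr1, hW⟩ := wilson_cls L D
  obtain ⟨r2, hr2, hW'⟩ := hI
  obtain ⟨δ, r0, Cm, hr01, R⟩ := exists_RGp μ L D (min r1 r2) (by positivity)
  have hr0 := R.p1.r0_pos
  have hr0s := R.p1.r0_le
  obtain ⟨C1, c, ts1, p, hC1, hc, hts1, ho⟩ := obs (μ := μ) (L := L) R.p1 hne
  obtain ⟨C2, ts2, hC2, hts2, ho2⟩ := obs_as (μ := μ) (L := L) R.p1
  obtain ⟨C3, ts3, hC3, hts3, hst⟩ := stp_spec (μ := μ) hs R E hE orth full hne cas hcas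
  set C4 : ℝ := 9 / 2 * (512 / r0 ^ 4) with hC4
  have hC40 : 0 < C4 := by positivity
  set C : ℝ := C1 + C2 + C3 + C4 with hC
  have hC0 : 0 < C := by positivity
  set ts : ℝ := min (min ts1 (min ts2 ts3)) (1 / (20 * C)) / 2 with hts
  have hts0 : 0 < ts := by positivity
  have b0 : 2 * ts ≤ min ts1 (min ts2 ts3) := by
    have := min_le_left (min ts1 (min ts2 ts3)) (1 / (20 * C))
    linarith
  have b1 : 2 * ts ≤ ts1 := b0.trans (min_le_left _ _)
  have b2 : 2 * ts ≤ ts2 := b0.trans ((min_le_right _ _).trans (min_le_left _ _))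
  have b3 : 2 * ts ≤ ts3 := b0.trans ((min_le_right _ _).trans (min_le_right _ _))
  have b4 : C * (2 * ts) ≤ 1 / 20 := by
    have h1 := min_le_right (min ts1 (min ts2 ts3)) (1 / (20 * C))
    have h2 : 2 * ts ≤ 1 / (20 * C) := by linarith
    rw [le_div_iff₀ (by positivity)] at h2
    linarith
  have hCC1 : C1 ≤ C := by linarith
  have hCC2 : C2 ≤ C := by linarith
  have hCC3 : C3 ≤ C := by linarith
  have hCC4 : C4 ≤ C := by linarith
  -- the step for good states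
  have hstep : ∀ (S : St L) (A : ℝ), GSt L r0 S A → S.t ≤ ts →
      GSt L r0 (stp μ S) (A / 16 + C) ∧ (stp μ S).t ≤ 2 * ts ∧
      |1 / (stp μ S).t - 1 / S.t + cas / 8| ≤ C * (Real.sqrt S.t + A * S.t) ∧
      nres μ L (stp μ S).F = mk μ (nres μ L S.F) := by
    intro S A h ht
    obtain ⟨k1, k2, k3⟩ := hst S A h (by linarith)
    have hp := h.p
    have hA0 := h.A0
    have hAt := h.At
    have e1 : 4 * ((A / 8 + 512 / r0 ^ 4) / 8 + 512 / r0 ^ 4) = A / 16 + C4 := by rw [hC4]; ring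
    rw [e1] at k1
    have e2 : (A / 16 + C) * (stp μ S).t ≤ 1 / 10 := by
      have f1 : (A / 16 + C) * (stp μ S).t ≤ (A / 16 + C) * (2 * S.t) :=
        mul_le_mul_of_nonneg_left k2 (by positivity)
      have f2 : C * (2 * S.t) ≤ C * (2 * ts) := mul_le_mul_of_nonneg_left (by linarith) hC0.le
      nlinarith
    refine ⟨k1.mono (by linarith) e2, by linarith, k3.trans
      (mul_le_mul_of_nonneg_right hCC3 (by positivity)), ?_⟩
    exact (mk_nres μ L h.c.real (int_res_pos μ L h.c).ne').symm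
  have hdt : ∀ S0 S1 : St L, 0 ≤ |1 / S1.t - 1 / S0.t| := fun S0 S1 => abs_nonneg _
  refine ⟨fun f t A => t ≤ 2 * ts ∧ ∃ S : St L, GSt L r0 S A ∧ S.t = t ∧ f = nres μ L S.F,
    ts, C, r0 / 20, c, p, fun S A => GSt L r0 S A ∧ S.t ≤ 2 * ts,
    fun S0 S1 X => DF0 L r0 S0 S1 X X, ?_, ?_, ?_, ?_, ?_⟩
  · -- UV
    refine ⟨hts0, hC0, by positivity, hc, by positivity, by exact_mod_cast hn, ?_, ?_, ?_,
      ?_, ?_, ?_, ?_, ?_, ?_, ?_, ?_⟩
    · intro t ht htl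
      have hcl := hW r0 hr0 (hr01.trans (min_le_left _ _)) t ht
      obtain ⟨w, hw⟩ := hcl.sf
      refine ⟨by linarith, ⟨Wt t, t, w⟩, ⟨ht, by positivity, ?_, hcl, hw⟩, rfl,
        (nres_Wt μ L t).symm⟩
      show 1 / (20 * t) * t ≤ 1 / 10
      have : 1 / (20 * t) * t = 1 / 20 := by field_simp
      rw [this]
      norm_num
    · rintro f t A ⟨-, S, h, rfl, -⟩
      exact ⟨h.p, h.A0, h.At⟩
    · rintro f t A ⟨h2, S, h, rfl, rfl⟩
      exact (ho S.F S.t A h.p (by linarith) h.A0 h.At h.c).1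
    · rintro f t A ⟨h2, S, h, rfl, rfl⟩
      exact (ho S.F S.t A h.p (by linarith) h.A0 h.At h.c).2.1
    · rintro f t A ⟨h2, S, h, rfl, rfl⟩
      exact (ho S.F S.t A h.p (by linarith) h.A0 h.At h.c).2.2.1
    · rintro f t A ⟨h2, S, h, rfl, rfl⟩ htl
      obtain ⟨k1, k2, k3, k4⟩ := hstep S A h htl
      exact ⟨(stp μ S).t, A / 16 + C, ⟨k2, stp μ S, k1, rfl, k4.symm⟩, k3, le_rfl⟩
    · rintro f t A ⟨h2, S, h, rfl, rfl⟩ htl
      obtain ⟨-, -, -, k1, k2, -⟩ := ho S.F S.t A h.p (by linarith) h.A0 h.At h.c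
      have hp := h.p
      have h5 : C1 / S.t ^ p ≤ C / S.t ^ p := div_le_div_of_nonneg_right hCC1 (by positivity)
      exact ⟨fun x => (k1 x).trans h5, fun x y => (k2 x y).trans
        (mul_le_mul_of_nonneg_right h5 (norm_nonneg _))⟩
    · rintro f t A ⟨h2, S, h, rfl, rfl⟩ htl y hy
      exact (ho S.F S.t A h.p (by linarith) h.A0 h.At h.c).2.2.2.2.2.1 y hy
    · rintro f t A ⟨h2, S, h, rfl, rfl⟩ htl
      exact (ho S.F S.t A h.p (by linarith) h.A0 h.At h.c).2.2.2.2.2.2.1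
    · rintro f t A ⟨h2, S, h, rfl, rfl⟩ htl
      exact (ho S.F S.t A h.p (by linarith) h.A0 h.At h.c).2.2.2.2.2.2.2.trans
        (mul_le_mul_of_nonneg_right hCC1 h.p.le)
    · rintro f t A ⟨h2, S, h, rfl, rfl⟩ htl
      have h5 := ho2 S.F S.t A h.p (by linarith) h.A0 h.At h.c
      rw [hfin] at h5
      have hp := h.p
      have hA0 := h.A0
      refine h5.trans ?_
      refine mul_le_mul_of_nonneg_right ?_ (by positivity)
      exact mul_le_mul_of_nonneg_right hCC2 h.p.le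
  · -- UV2
    refine ⟨hts0, hC0, hc, by positivity, by exact_mod_cast hn, ?_, ?_, ?_, ?_, ?_, ?_, ?_, ?_,
      ?_, ?_⟩
    · rintro S A ⟨h, h2⟩
      exact ⟨h.p, h2, h.A0, h.At⟩
    · rintro S A A' ⟨h, h2⟩ h3 h4
      exact ⟨h.mono h3 h4, h2⟩
    · rintro S A ⟨h, h2⟩ h3
      obtain ⟨k1, k2, k3, k4⟩ := hstep S A h h3
      exact ⟨⟨k1, k2⟩, k4, k3⟩
    · rintro S A ⟨h, h2⟩
      exact (ho S.F S.t A h.p (by linarith) h.A0 h.At h.c).2.2.2.2.2.2.1
    · rintro S A ⟨h, h2⟩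
      exact (ho S.F S.t A h.p (by linarith) h.A0 h.At h.c).2.2.2.2.2.2.2.trans
        (mul_le_mul_of_nonneg_right hCC1 h.p.le)
    · rintro S A ⟨h, h2⟩
      have h5 := ho2 S.F S.t A h.p (by linarith) h.A0 h.At h.c
      rw [hfin] at h5
      have hp := h.p
      have hA0 := h.A0
      refine h5.trans ?_
      refine mul_le_mul_of_nonneg_right ?_ (by positivity)
      exact mul_le_mul_of_nonneg_right hCC2 h.p.le
    · intro A hA
      refine ⟨max (2 * A) 1, by positivity, ?_⟩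
      rintro S0 S1 ⟨h0, -⟩ ⟨h1, -⟩
      refine ⟨fun Z hZ => ?_, fun Z hZ y hy => ?_⟩
      · refine (norm_sub_le _ _).trans ?_
        have e1 := h0.sf.le Z hZ
        have e2 := h1.sf.le Z hZ
        have e3 : 2 * A * ‖Z‖ ^ 4 ≤ max (2 * A) 1 * ‖Z‖ ^ 4 :=
          mul_le_mul_of_nonneg_right (le_max_left _ _) (by positivity)
        linarith
      · refine (norm_sub_le _ _).trans ?_
        have e1 := Cls.norm_large L h0.c Z hZ y hy
        have e2 := Cls.norm_large L h1.c Z hZ y hy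
        obtain ⟨x, hx⟩ : ∃ x : ℝ, x = Real.exp (-((84 / 100 * r0 ^ 2 -
          (1 + 1 / 10000) * ‖imP (Z : Mt m)‖ ^ 2) / (2 * S0.t))) := ⟨_, rfl⟩
        obtain ⟨x', hx'⟩ : ∃ x' : ℝ, x' = Real.exp (-((84 / 100 * r0 ^ 2 -
          (1 + 1 / 10000) * ‖imP (Z : Mt m)‖ ^ 2) / (2 * S1.t))) := ⟨_, rfl⟩
        have hx0 : 0 < x := by rw [hx]; exact Real.exp_pos _
        have hx'0 : 0 < x' := by rw [hx']; exact Real.exp_pos _
        rw [← hx] at e1
        rw [← hx'] at e2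
        rw [← hx, ← hx']
        have e3 : 1 * (x + x') ≤ max (2 * A) 1 * (x + x') :=
          mul_le_mul_of_nonneg_right (le_max_right _ _) (by positivity)
        linarith
    · intro K hK
      obtain ⟨C5, ts5, hC5, hts5, hp5⟩ := stp_pair (μ := μ) hs R K hK
      refine ⟨C5, ts5, hC5, hts5, ?_⟩
      rintro S0 S1 A X ⟨h0, -⟩ ⟨h1, -⟩ hX ht0 ht1 hKX hD
      exact hp5 S0 S1 A X h0 h1 hX ht0 ht1 hKX hD
    · intro K hK
      obtain ⟨C6, ts6, hC6, hts6, hp6⟩ := obs_lip μ L R.p1 hne K hK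
      refine ⟨2 * C6, ts6, by positivity, hts6, ?_⟩
      rintro S0 S1 A X ⟨h0, -⟩ ⟨h1, -⟩ hX ht0 ht1 ht2 hXK hD
      have h6 := hp6 S0 S1 A X X ⟨h0.c, h1.c, h0.sf, h1.sf, h0.p, h1.p, h0.A0, h0.At, h1.At,
        abs_nonneg _, hX, hX, le_rfl, hD⟩ ht0 ht1 ht2 hXK hXK
      refine h6.trans ?_
      have hp := h0.p
      have e1 : 0 ≤ |g2 μ L (nres μ L S1.F) - g2 μ L (nres μ L S0.F)| / S0.t ^ 2 := by positivity
      have e2 : C6 * (|g2 μ L (nres μ L S1.F) - g2 μ L (nres μ L S0.F)| / S0.t ^ 2) ≤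
          2 * C6 * (|g2 μ L (nres μ L S1.F) - g2 μ L (nres μ L S0.F)| / S0.t ^ 2) :=
        mul_le_mul_of_nonneg_right (by linarith) e1
      linarith
    · intro K hK
      obtain ⟨C7, ts7, p7, hC7, hts7, hp7⟩ := dens_lip μ L R.p1 hne (2 * K) (by positivity)
      refine ⟨2 * C7, ts7, p7, by positivity, hts7, ?_⟩
      rintro S0 S1 A X ⟨h0, -⟩ ⟨h1, -⟩ hX ht0 ht1 hXK hD x
      have e1 := XX_le (T := |1 / S1.t - 1 / S0.t|) (X := X) hr0 hr0s (abs_nonneg _) hX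
      have h7 := hp7 S0 S1 A |1 / S1.t - 1 / S0.t| X X ⟨h0.c, h1.c, h0.sf, h1.sf, h0.p, h1.p,
        h0.A0, h0.At, h1.At, abs_nonneg _, hX, hX, le_rfl, hD⟩ ht0 ht1 (by linarith) x
      refine h7.trans ?_
      have hp := h0.p
      have e2 : C7 / S0.t ^ p7 * XX r0 |1 / S1.t - 1 / S0.t| X X ≤
          C7 / S0.t ^ p7 * (2 * (|1 / S1.t - 1 / S0.t| + X)) :=
        mul_le_mul_of_nonneg_left e1 (by positivity)
      refine e2.trans (le_of_eq ?_)
      ring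
  · rintro S A ⟨h, h2⟩
    exact ⟨h2, S, h, rfl, rfl⟩
  · intro t ht htl
    have hcl := hW r0 hr0 (hr01.trans (min_le_left _ _)) t ht
    obtain ⟨w, hw⟩ := hcl.sf
    refine ⟨⟨Wt t, t, w⟩, ⟨⟨ht, by positivity, ?_, hcl, hw⟩, ?_⟩, nres_Wt μ L t, rfl⟩
    · show 1 / (20 * t) * t ≤ 1 / 10
      have : 1 / (20 * t) * t = 1 / 20 := by field_simp
      rw [this]
      norm_num
    · show t ≤ 2 * ts
      linarith
  · intro t ht htl
    have hcl := hW' r0 hr0 (hr01.trans (min_le_right _ _)) t ht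
    obtain ⟨w, hw⟩ := hcl.sf
    refine ⟨⟨I t, t, w⟩, ⟨⟨ht, by positivity, ?_, hcl, hw⟩, ?_⟩, rfl, rfl⟩
    · show 1 / (20 * t) * t ≤ 1 / 10
      have : 1 / (20 * t) * t = 1 / 20 := by field_simp
      rw [this]
      norm_num
    · show t ≤ 2 * ts
      linarith

end

end Pool.Agent.T2H04.HY
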