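import Mathlib
import Pool.Agent.T2H04.HY.Cas
import Pool.Agent.T2H04.HY.Link2

/-!
# Two actions have the same continuum limit
-/

open MeasureTheory Matrix Filter
open scoped Matrix.Norms.Frobenius Topology

namespace Pool.Agent.T2H04.HY

set_option linter.unusedSectionVars false

noncomputable section

variable {G : Type} [Group G] [TopologicalSpace G] [IsTopologicalGroup G] [CompactSpace G]
  [MeasurableSpace G] [BorelSpace G] (μ : Measure G) [μ.IsHaarMeasure] [IsProbabilityMeasure μ]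
  {m : Type} [Fintype m] [DecidableEq m] (L : RD G m)

theorem hne_of_simple (hs : Simple L) : ∃ X ∈ lieSet L, X ≠ 0 := by
  obtain ⟨X, hX, Y, _, h⟩ := hs.nonab
  exact ⟨X, hX, fun h0 => h (by rw [h0, zero_mul, mul_zero])⟩

theorem two_actions (hs : Simple L) {n : ℕ} (hn : 0 < n) (E : Fin n → Mt m)
    (hE : ∀ a, E a ∈ lieSet L)
    (orth : ∀ a b, (trace ((E a)ᴴ * E b)).re = if a = b then 1 else 0)
    (full : ∀ Y ∈ lieSet L, Y ∈ Submodule.span ℝ (Set.range E))
    (I : ℝ → Mt m → ℂ) (hI : InC L I) :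
    ∃ κ1 : ℝ, 0 < κ1 ∧ ∀ κ : ℝ, 0 < κ → κ ≤ κ1 → ∀ (t t' : ℕ → ℝ) (k k' : ℕ → ℕ),
      (∀ j, 0 < t j) → (∀ j, 0 < t' j) → Tendsto t atTop (𝓝 0) → Tendsto t' atTop (𝓝 0) →
      Tendsto (fun j => g2 μ L ((mk μ)^[k j] (wil μ L (t j)))) atTop (𝓝 κ) →
      Tendsto (fun j => g2 μ L ((mk μ)^[k' j] (nres μ L (I (t' j))))) atTop (𝓝 κ) →
      ∀ l : ℕ, TendstoUniformly (fun j x => (mk μ)^[k j - l] (wil μ L (t j)) x -
        (mk μ)^[k' j - l] (nres μ L (I (t' j))) x) (fun _ => 0) atTop := by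
  obtain ⟨cas, hcas0, hcas, -⟩ := cas_exists hs E hE orth full
  obtain ⟨Good, ts, C, ρs, c, p, GS, Ds, uv, uv2, hG, hW, hI'⟩ := uv_both μ L hs hn E hE orth full
    (finrank_lieAlg E hE orth full) cas hcas0 hcas I hI
  obtain ⟨κ1, hκ1, H⟩ := uniq μ L hs.conn (hne_of_simple L hs) Good ts C ρs c (cas / 8) n p uv
    (stp μ) (fun S : St L => nres μ L S.F) (fun S => S.t) GS Ds ts C c uv2 hG le_rfl
  have hts := uv2.ts_pos
  refine ⟨κ1, hκ1, fun κ hκ hκ1' t t' k k' ht ht' htt htt' hg hg' l => ?_⟩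
  -- the initial states
  have : Nonempty (St L) := ⟨⟨0, 0, 0⟩⟩
  choose! SW hW1 hW2 hW3 using hW
  choose! SI hI1 hI2 hI3 using hI'
  set u : ℕ → ℝ := fun j => min (t j) ts with hu
  set u' : ℕ → ℝ := fun j => min (t' j) ts with hu'
  have hu0 : ∀ j, 0 < u j := fun j => lt_min (ht j) hts
  have hu1 : ∀ j, u j ≤ ts := fun j => min_le_right _ _
  have hu0' : ∀ j, 0 < u' j := fun j => lt_min (ht' j) hts
  have hu1' : ∀ j, u' j ≤ ts := fun j => min_le_right _ _
  have hev : ∀ᶠ j in atTop, u j = t j := by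
    filter_upwards [htt.eventually (gt_mem_nhds hts)] with j hj
    exact min_eq_left hj.le
  have hev' : ∀ᶠ j in atTop, u' j = t' j := by
    filter_upwards [htt'.eventually (gt_mem_nhds hts)] with j hj
    exact min_eq_left hj.le
  have hut : Tendsto u atTop (𝓝 0) := htt.congr' (hev.mono fun j hj => hj.symm)
  have hut' : Tendsto u' atTop (𝓝 0) := htt'.congr' (hev'.mono fun j hj => hj.symm)
  have key := H κ hκ hκ1' (fun j => SW (u j)) (fun j => SI (u' j)) (fun j => 1 / (20 * u j))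
    (fun j => 1 / (20 * u' j)) k k' (fun j => hW1 _ (hu0 j) (hu1 j))
    (fun j => hI1 _ (hu0' j) (hu1' j))
    (by
      refine hut.congr fun j => ?_
      exact (hW3 _ (hu0 j) (hu1 j)).symm)
    (by
      refine hut'.congr fun j => ?_
      exact (hI3 _ (hu0' j) (hu1' j)).symm)
    (by
      refine hg.congr' (hev.mono fun j hj => ?_)
      simp only
      rw [hW2 _ (hu0 j) (hu1 j), hj])
    (by
      refine hg'.congr' (hev'.mono fun j hj => ?_)
      simp only
      rw [hI2 _ (hu0' j) (hu1' j), hj]) l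
  intro v hv
  filter_upwards [key v hv, hev, hev'] with j h0 hj hj'
  intro x
  have h1 := h0 x
  rw [hW2 _ (hu0 j) (hu1 j), hI2 _ (hu0' j) (hu1' j), hj, hj'] at h1
  exact h1

end

end Pool.Agent.T2H04.HY
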