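import Mathlib
import Pool.Agent.T2H04.HY.ActDefs
import Pool.Agent.T2H04.HY.AsmE
import Pool.Agent.T2H04.HY.Fin1

/-!
# Bare couplings and scales for a general action

`univ_act`: for an action in the class, bare couplings `t j → 0` and numbers of steps `k j` with a
prescribed renormalised coupling exist, and whenever `t j → 0` and the renormalised coupling
converges, `k j * t j → 1 / a0` (one loop asymptotic freedom for the bare coupling).
-/

open MeasureTheory Matrix Filter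
open scoped Matrix.Norms.Frobenius Topology

namespace Pool.Agent.T2H04.HY

set_option linter.unusedSectionVars false

noncomputable section

variable {G : Type} [Group G] [TopologicalSpace G] [IsTopologicalGroup G] [CompactSpace G]
  [MeasurableSpace G] [BorelSpace G] (μ : Measure G) [μ.IsHaarMeasure] [IsProbabilityMeasure μ]
  {m : Type} [Fintype m] [DecidableEq m] (L : RD G m)

namespace Univ

open Asm Uq

/-! ### the number of steps -/

theorem count_real {a0 C ρ S0 t K : ℝ} (ha0 : 0 < a0) (hC : 0 ≤ C) (hK : 0 ≤ K) {n : ℕ}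
    {τ α : ℕ → ℝ} (hτ : ∀ i ≤ n, 0 < τ i) (hρ : ∀ i ≤ n, τ i ≤ ρ)
    (hsm : C * (Real.sqrt ρ + (2 * C + 1) * ρ) ≤ a0 / 2)
    (hstep : ∀ i < n, |1 / τ (i + 1) - 1 / τ i + a0| ≤ C * (Real.sqrt (τ i) + α i * τ i))
    (hcr : ∀ i < n, |1 / τ (i + 1) - 1 / τ i| ≤ K)
    (hα : ∀ i ≤ n, α i ≤ 1 / (20 * t) / 16 ^ i + 2 * C) (h0 : τ 0 = t) (hS0 : 1 / τ n ≤ S0)
    (i0 : ℕ) (hi0 : 1 / (20 * t) ≤ 16 ^ i0) :
    |1 / t - n * a0| ≤ (K + a0) * i0 + S0 + ∑ l ∈ Finset.range n, bb C (2 * C + 1) a0 l := by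
  have hτ' : ∀ l, 0 < τ (n - l) := fun l => hτ _ (Nat.sub_le _ _)
  have hsum0 : 0 ≤ ∑ l ∈ Finset.range n, bb C (2 * C + 1) a0 l :=
    Finset.sum_nonneg fun l _ => bb_nonneg hC (by positivity) ha0 l
  have ht : 0 < t := by
    rw [← h0]
    exact hτ 0 (Nat.zero_le _)
  have htwo : ∀ i ≤ n, |1 / τ i - 1 / t| ≤ K * i := by
    intro i
    induction i with
    | zero => intro _; rw [h0]; simp
    | succ i ih =>
      intro hi
      have h1 := ih (by omega)
      have h2 := hcr i (by omega)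
      have e : 1 / τ (i + 1) - 1 / t = (1 / τ (i + 1) - 1 / τ i) + (1 / τ i - 1 / t) := by ring
      rw [e]
      refine (abs_add_le _ _).trans ?_
      push_cast
      linarith
  rcases le_or_gt i0 n with h | h
  · set σ : ℕ → ℝ := fun l => 1 / τ (n - l) with hσ
    have hinv : ∀ l, 1 / σ l = τ (n - l) := fun l => by simp only [hσ, one_div_one_div]
    have hα' : ∀ i, i0 ≤ i → i ≤ n → α i ≤ 2 * C + 1 := by
      intro i h1 h2
      have h3 := hα i h2
      have h4 : 1 / (20 * t) / 16 ^ i ≤ 1 := by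
        rw [div_le_one (by positivity)]
        exact hi0.trans (pow_le_pow_right₀ (by norm_num) h1)
      linarith
    have hkey := af_real (S0 := S0) (ρ := ρ) (A := 2 * C + 1) ha0 hC (by positivity) σ
      (n - i0) (fun l _ => one_div_pos.2 (hτ' l))
      (fun l _ => by
        rw [hinv]
        exact hρ _ (Nat.sub_le _ _)) hsm
      (fun l hl => by
        rw [hinv]
        have h1 := hstep (n - (l + 1)) (by omega)
        rw [show n - (l + 1) + 1 = n - l by omega] at h1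
        have h2 : σ (l + 1) - σ l - a0 = -(1 / τ (n - l) - 1 / τ (n - (l + 1)) + a0) := by
          simp only [hσ]; ring
        rw [h2, abs_neg]
        refine h1.trans (mul_le_mul_of_nonneg_left (add_le_add le_rfl
          (mul_le_mul_of_nonneg_right (hα' _ (by omega) (by omega)) (hτ' _).le)) hC))
      (by simp only [hσ, Nat.sub_zero]; exact hS0)
    obtain ⟨-, h2⟩ := hkey (n - i0) le_rfl
    have e1 : σ (n - i0) = 1 / τ i0 := by
      simp only [hσ]
      rw [Nat.sub_sub_self h]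
    rw [e1, Nat.cast_sub h] at h2
    have h3 := htwo i0 h
    have h4 : ∑ l ∈ Finset.range (n - i0), bb C (2 * C + 1) a0 l ≤
        ∑ l ∈ Finset.range n, bb C (2 * C + 1) a0 l :=
      Finset.sum_le_sum_of_subset_of_nonneg
        (Finset.range_subset_range.2 (Nat.sub_le _ _))
        fun l _ _ => bb_nonneg hC (by positivity) ha0 l
    have hi : (0 : ℝ) ≤ i0 := Nat.cast_nonneg _
    rw [_root_.abs_le] at h2 h3 ⊢
    constructor <;> nlinarith
  · have h1 := htwo n le_rfl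
    have h2 : (n : ℝ) ≤ i0 := by exact_mod_cast h.le
    have h3 : (0 : ℝ) ≤ n := Nat.cast_nonneg _
    have h4 : 0 < 1 / t := by positivity
    have h5 : 0 < 1 / τ n := by
      have := hτ n le_rfl
      positivity
    have h6 : K * n ≤ K * i0 := mul_le_mul_of_nonneg_left h2 hK
    have h7 : a0 * n ≤ a0 * i0 := mul_le_mul_of_nonneg_left h2 ha0.le
    have h8 : 0 ≤ a0 * n := by positivity
    have h9 : 0 ≤ K * n := by positivity
    rw [_root_.abs_le] at h1 ⊢
    constructor <;> nlinarith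

section run

variable {μ L} {Q : Type} {stp : Q → Q} {den : Q → G → ℝ} {tt : Q → ℝ} {GS : Q → ℝ → Prop}
    {Ds : Q → Q → ℝ → Prop} {ts C c a0 d0 : ℝ}

theorem crude_step (uv2 : UV2 μ L stp den tt GS Ds ts C c a0 d0) {S : Q} {A : ℝ} (h : GS S A)
    (ht : tt S ≤ ts) : |1 / tt (stp S) - 1 / tt S| ≤ Ck ts C a0 := by
  have h1 := (uv2.step _ _ h ht).2.2
  obtain ⟨-, -, -, h2⟩ := uv2.pos _ _ h
  have h3 : C * (Real.sqrt (tt S) + A * tt S) ≤ C * (Real.sqrt ts + 1 / 10) :=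
    mul_le_mul_of_nonneg_left (add_le_add (Real.sqrt_le_sqrt ht) h2) uv2.C_pos.le
  have e5 : 1 / tt (stp S) - 1 / tt S = (1 / tt (stp S) - 1 / tt S + a0) - a0 := by ring
  rw [e5]
  refine (abs_sub _ _).trans ?_
  rw [abs_of_pos uv2.a0_pos]
  unfold Ck
  linarith

/-- the number of steps of the runs -/
theorem steps_tendsto (uv2 : UV2 μ L stp den tt GS Ds ts C c a0 d0)
    {Good : (G → ℝ) → ℝ → ℝ → Prop} {ts0 t1 κ2 : ℝ} (hG : ∀ S A, GS S A → Good (den S) (tt S) A)
    (hts : ts ≤ ts0) (ht1 : t1 ≤ ts)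
    (hsm : C * (Real.sqrt t1 + (2 * C + 1) * t1) ≤ a0 / 2)
    (hex : ∀ f t A, Good f t A → t1 ≤ t → t ≤ 2 * ts0 → ∀ j : ℕ, κ2 ≤ g2 μ L ((mk μ)^[j] f))
    {κ : ℝ} (hκ : 0 < κ) (hκ2 : κ < κ2) {S : ℕ → Q} {t : ℕ → ℝ} {n : ℕ → ℕ}
    (hS : ∀ j, GS (S j) (1 / (20 * t j))) (htt : ∀ j, tt (S j) = t j)
    (h0 : Tendsto t atTop (𝓝 0))
    (hg : Tendsto (fun j => g2 μ L ((mk μ)^[n j] (den (S j)))) atTop (𝓝 κ)) :
    Tendsto (fun j => (n j : ℝ) * t j) atTop (𝓝 (1 / a0)) := by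
  have hC := uv2.C_pos
  have ha0 := uv2.a0_pos
  have hCk : 0 ≤ Ck ts C a0 := by unfold Ck; positivity
  have hpos : ∀ j, 0 < t j := fun j => by rw [← htt j]; exact (uv2.pos _ _ (hS j)).1
  have e1 : ∀ᶠ j in atTop, g2 μ L ((mk μ)^[n j] (den (S j))) < κ2 := hg.eventually (gt_mem_nhds hκ2)
  have e2 : ∀ᶠ j in atTop, κ / 2 < g2 μ L ((mk μ)^[n j] (den (S j))) :=
    hg.eventually (lt_mem_nhds (by linarith))
  have e3 : ∀ᶠ j in atTop, (∀ i ≤ n j, GS (stp^[i] (S j)) (AA C (1 / (20 * t j)) i) ∧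
      tt (stp^[i] (S j)) < t1 ∧ den (stp^[i] (S j)) = (mk μ)^[i] (den (S j))) ∧
      1 / tt (stp^[n j] (S j)) ≤ 2 * C / κ := by
    filter_upwards [e1, e2] with j h1 h2
    have hr := run uv2 hG hts ht1 hex (hS j) h1
    refine ⟨hr, ?_⟩
    obtain ⟨h3, h4, h5⟩ := hr (n j) le_rfl
    have h6 := uv2.g2_hi _ _ h3
    have h7 := (uv2.pos _ _ h3).1
    rw [h5] at h6
    rw [div_le_div_iff₀ h7 hκ]
    nlinarith
  refine asym (a0 := a0) (D := Ck ts C a0 + a0) (S0 := 2 * C / κ)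
    (E := fun n => ∑ l ∈ Finset.range n, bb C (2 * C + 1) a0 l) ha0 (by positivity)
    (Eventually.of_forall hpos) h0 (bb_sum_tendsto C (2 * C + 1) a0 ha0) ?_ ?_
  · filter_upwards [e3] with j hj
    have h1 := run_back uv2 ht1 hj.1 hj.2 (n j) le_rfl
    rw [Nat.sub_self] at h1
    have h4 : stp^[0] (S j) = S j := rfl
    rw [h4, htt] at h1
    have h5 : 0 ≤ a0 * (n j : ℝ) := by positivity
    linarith
  · filter_upwards [e3] with j hj
    refine count_real (ρ := t1) (τ := fun i => tt (stp^[i] (S j)))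
      (α := fun i => AA C (1 / (20 * t j)) i) ha0 hC.le hCk
      (fun i hi => (uv2.pos _ _ (hj.1 i hi).1).1) (fun i hi => (hj.1 i hi).2.1.le) hsm ?_ ?_ ?_
      (htt j) hj.2 _ (pow16 (hpos j))
    · intro i hi
      obtain ⟨h1, h2, -⟩ := hj.1 i hi.le
      have h3 := (uv2.step _ _ h1 (by linarith)).2.2
      rw [Function.iterate_succ_apply' stp]
      exact h3
    · intro i hi
      obtain ⟨h1, h2, -⟩ := hj.1 i hi.le
      rw [Function.iterate_succ_apply' stp]
      exact crude_step uv2 h1 (by linarith)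
    · intro i _
      have h1 := AA_le (C := C) (1 / (20 * t j)) i
      have h8 : 0 ≤ C / 15 / (16 : ℝ) ^ i := by positivity
      have h9 : -C / (16 : ℝ) ^ i ≤ 0 := by
        rw [neg_div]
        have : 0 ≤ C / (16 : ℝ) ^ i := by positivity
        linarith
      linarith

/-- for a small bare coupling the renormalised coupling is small -/
theorem tiny (uv2 : UV2 μ L stp den tt GS Ds ts C c a0 d0) {W : ℝ → G → ℝ}
    (hI : ∀ t, 0 < t → t ≤ ts → ∃ S : Q, GS S (1 / (20 * t)) ∧ den S = W t ∧ tt S = t) {κ : ℝ}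
    (hκ : 0 < κ) (n : ℕ) :
    ∃ δ > 0, ∀ t, 0 < t → t < δ → t ≤ ts → g2 μ L ((mk μ)^[n] (W t)) < κ := by
  have hC := uv2.C_pos
  have ha0 := uv2.a0_pos
  have hts := uv2.ts_pos
  have hCk : 0 ≤ Ck ts C a0 := by unfold Ck; positivity
  refine ⟨1 / (Ck ts C a0 * n + 1 / ts + C / κ), by positivity, fun t ht htδ htl => ?_⟩
  obtain ⟨S, hS, hW, hSt⟩ := hI t ht htl
  have h0 : Ck ts C a0 * n + 1 / ts + C / κ < 1 / t := by
    rwa [lt_div_iff₀ (by positivity), mul_comm, ← lt_div_iff₀ ht] at htδ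
  have hCκ : 0 < C / κ := by positivity
  have key : ∀ i ≤ n, GS (stp^[i] S) (AA C (1 / (20 * t)) i) ∧
      den (stp^[i] S) = (mk μ)^[i] (den S) ∧ 1 / t - Ck ts C a0 * i ≤ 1 / tt (stp^[i] S) := by
    intro i
    induction i with
    | zero =>
      intro _
      refine ⟨hS, rfl, ?_⟩
      have h4 : stp^[0] S = S := rfl
      rw [h4, hSt]
      simp
    | succ i ih =>
      intro hi
      obtain ⟨h1, h2, h3⟩ := ih (by omega)
      have hp := (uv2.pos _ _ h1).1
      have h4 : tt (stp^[i] S) ≤ ts := by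
        rw [← one_div_le_one_div hts hp]
        have : Ck ts C a0 * i ≤ Ck ts C a0 * n :=
          mul_le_mul_of_nonneg_left (by exact_mod_cast (by omega : i ≤ n)) hCk
        linarith
      obtain ⟨h5, h6, -⟩ := uv2.step _ _ h1 h4
      have h7 := (abs_le.1 (crude_step uv2 h1 h4)).1
      rw [Function.iterate_succ_apply' stp]
      refine ⟨?_, ?_, ?_⟩
      · rw [AA_succ]; exact h5
      · rw [h6, h2, Function.iterate_succ_apply']
      · push_cast
        linarith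
  obtain ⟨h1, h2, h3⟩ := key n le_rfl
  have h4 := uv2.g2_hi _ _ h1
  rw [h2, hW] at h4
  have hp := (uv2.pos _ _ h1).1
  have h5 : C / κ < 1 / tt (stp^[n] S) := by
    have : 0 < 1 / ts := by positivity
    linarith
  rw [div_lt_div_iff₀ hκ hp] at h5
  linarith

/-- the last step before the renormalised coupling exceeds `κ` -/
theorem last_step (uv2 : UV2 μ L stp den tt GS Ds ts C c a0 d0)
    {Good : (G → ℝ) → ℝ → ℝ → Prop} {ts0 t1 κ2 : ℝ} (hG : ∀ S A, GS S A → Good (den S) (tt S) A)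
    (hts : ts ≤ ts0) (ht1 : t1 ≤ ts)
    (hex : ∀ f t A, Good f t A → t1 ≤ t → t ≤ 2 * ts0 → ∀ j : ℕ, κ2 ≤ g2 μ L ((mk μ)^[j] f))
    {κ κ0 : ℝ} (hκ : 0 < κ) (hκ2 : κ < κ2)
    (hκ0 : κ0 ≤ c * (1 / (Ck ts C a0 + C / κ + 1 / ts))) {S : Q} {A : ℝ} (hS : GS S A)
    (h0 : g2 μ L (den S) ≤ κ) (h1 : ∃ n, κ < g2 μ L ((mk μ)^[n] (den S))) :
    ∃ k : ℕ, κ0 ≤ g2 μ L ((mk μ)^[k] (den S)) ∧ g2 μ L ((mk μ)^[k] (den S)) ≤ κ := by
  classical
  have hC := uv2.C_pos
  have hc := uv2.c_pos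
  have ha0 := uv2.a0_pos
  have hts0 := uv2.ts_pos
  have hCk : 0 ≤ Ck ts C a0 := by unfold Ck; positivity
  obtain ⟨n, hn, hmin⟩ : ∃ n, κ < g2 μ L ((mk μ)^[n] (den S)) ∧
      ∀ i < n, g2 μ L ((mk μ)^[i] (den S)) ≤ κ :=
    ⟨Nat.find h1, Nat.find_spec h1, fun i hi => not_lt.1 (Nat.find_min h1 hi)⟩
  obtain ⟨k, rfl⟩ : ∃ k, n = k + 1 := by
    refine Nat.exists_eq_succ_of_ne_zero fun hz => ?_
    rw [hz] at hn
    have h4 : (mk μ)^[0] (den S) = den S := rfl
    rw [h4] at hn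
    linarith
  have hk := hmin k (Nat.lt_succ_self k)
  refine ⟨k, ?_, hk⟩
  by_contra hlt
  rw [not_le] at hlt
  obtain ⟨h2, h3, h4⟩ := run uv2 hG hts ht1 hex hS (hk.trans_lt hκ2) k le_rfl
  have hp := (uv2.pos _ _ h2).1
  have h5 := uv2.g2_lo _ _ h2
  rw [h4] at h5
  have h6 : tt (stp^[k] S) < 1 / (Ck ts C a0 + C / κ + 1 / ts) := by
    have : c * tt (stp^[k] S) < c * (1 / (Ck ts C a0 + C / κ + 1 / ts)) := by linarith
    exact lt_of_mul_lt_mul_left this hc.le
  have h7 : Ck ts C a0 + C / κ + 1 / ts < 1 / tt (stp^[k] S) := by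
    rw [lt_div_iff₀ hp, mul_comm, ← lt_div_iff₀ (by positivity)]
    exact h6
  have h8 : tt (stp^[k] S) ≤ ts := by linarith
  obtain ⟨h9, h10, -⟩ := uv2.step _ _ h2 h8
  have h11 := (abs_le.1 (crude_step uv2 h2 h8)).1
  have h12 := uv2.g2_hi _ _ h9
  rw [h10, h4, ← Function.iterate_succ_apply' (mk μ)] at h12
  have hp' := (uv2.pos _ _ h9).1
  have h13 : C / κ < 1 / tt (stp (stp^[k] S)) := by
    have : 0 < 1 / ts := by positivity
    linarith
  rw [div_lt_div_iff₀ hκ hp'] at h13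
  linarith

end run

/-! ### continuity in the bare coupling -/

variable {L} in
theorem res_At {V : Mt m → ℂ} (hV : Act L V) (t : ℝ) (g : G) :
    res L (At V t) g = Real.exp (-((V (L.rho g)).re / t)) := by
  have h1 : V (L.rho g) = (((V (L.rho g)).re : ℝ) : ℂ) := by
    apply Complex.ext
    · simp
    · rw [hV.real g]; simp
  unfold res At
  rw [h1]
  have h2 : (-((((V (L.rho g)).re : ℝ) : ℂ) / (t : ℂ))) = ((-((V (L.rho g)).re / t) : ℝ) : ℂ) := by
    push_cast
    ring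
  rw [h2, ← Complex.ofReal_exp, Complex.ofReal_re, Complex.ofReal_re]

variable {L} in
theorem res_At_cont {V : Mt m → ℂ} (hV : Act L V) (t : ℝ) : Continuous (res L (At V t)) := by
  have h1 : Continuous fun g : G => (V (L.rho g)).re :=
    Complex.continuous_re.comp (hV.diff.continuous.comp L.cont)
  have h2 : res L (At V t) = fun g => Real.exp (-((V (L.rho g)).re / t)) :=
    funext fun g => res_At hV t g
  rw [h2]
  fun_prop

variable {L} in
theorem int_pos {V : Mt m → ℂ} (hV : Act L V) (t : ℝ) : 0 < ∫ y, res L (At V t) y ∂μ := by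
  refine Continuous.integral_pos_of_hasCompactSupport_nonneg_nonzero (x := 1)
    (res_At_cont hV t) (HasCompactSupport.of_compactSpace _) (fun z => ?_) ?_
  · rw [res_At hV]; positivity
  · rw [res_At hV]; positivity

variable {L} in
theorem nres_pos {V : Mt m → ℂ} (hV : Act L V) (t : ℝ) (g : G) : 0 < nres μ L (At V t) g := by
  unfold nres
  refine div_pos ?_ (int_pos μ hV t)
  rw [res_At hV]
  positivity

variable {L} in
theorem nres_pd {V : Mt m → ℂ} (hV : Act L V) (t : ℝ) : PD μ (nres μ L (At V t)) := by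
  have h := int_pos μ hV t
  refine ⟨(res_At_cont hV t).div_const _, fun x => (nres_pos μ hV t x).le, ?_⟩
  unfold nres
  rw [integral_div]
  exact div_self h.ne'

variable {L} in
theorem nres_tendsto {V : Mt m → ℂ} (hV : Act L V) {t : ℕ → ℝ} {t0 : ℝ} (ht0 : 0 < t0)
    (h : Tendsto t atTop (𝓝 t0)) :
    TendstoUniformly (fun j => nres μ L (At V (t j))) (nres μ L (At V t0)) atTop := by
  have hv : Continuous fun g : G => (V (L.rho g)).re :=
    Complex.continuous_re.comp (hV.diff.continuous.comp L.cont)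
  set E : C(Set.Ioi (0 : ℝ) × G, ℝ) := ⟨fun p => Real.exp (-((V (L.rho p.2)).re / (p.1 : ℝ))), by
    refine Real.continuous_exp.comp (Continuous.neg (Continuous.div (hv.comp continuous_snd)
      (continuous_subtype_val.comp continuous_fst) fun p => ?_))
    exact (ne_of_gt p.1.2)⟩ with hE
  have hEa : ∀ (a : Set.Ioi (0 : ℝ)) (y : G), E.curry a y = res L (At V (a : ℝ)) y := by
    intro a y
    rw [res_At hV]
    rfl
  have hEc : Continuous E.curry := E.curry.continuous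
  have hev : ∀ᶠ j in atTop, 0 < t j := h.eventually (lt_mem_nhds ht0)
  set t' : ℕ → Set.Ioi (0 : ℝ) := fun j => if hj : 0 < t j then ⟨t j, hj⟩ else ⟨t0, ht0⟩ with ht'
  have h1 : Tendsto t' atTop (𝓝 ⟨t0, ht0⟩) := by
    rw [tendsto_subtype_rng]
    refine h.congr' ?_
    filter_upwards [hev] with j hj
    simp only [ht', dif_pos hj]
  have h2 : Tendsto (fun j => E.curry (t' j)) atTop (𝓝 (E.curry ⟨t0, ht0⟩)) :=
    (hEc.tendsto _).comp h1
  have h3 : Tendsto (fun j => ∫ y, E.curry (t' j) y ∂μ) atTop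
      (𝓝 (∫ y, E.curry ⟨t0, ht0⟩ y ∂μ)) := ((continuous_int μ).tendsto _).comp h2
  have hne : ∫ y, E.curry ⟨t0, ht0⟩ y ∂μ ≠ 0 := by
    simp only [hEa]
    exact (int_pos μ hV t0).ne'
  have h4 : Tendsto (fun j => (∫ y, E.curry (t' j) y ∂μ)⁻¹ • E.curry (t' j)) atTop
      (𝓝 ((∫ y, E.curry ⟨t0, ht0⟩ y ∂μ)⁻¹ • E.curry ⟨t0, ht0⟩)) := (h3.inv₀ hne).smul h2
  have h5 := ContinuousMap.tendsto_iff_tendstoUniformly.1 h4
  have key : ∀ (a : Set.Ioi (0 : ℝ)) (x : G),
      ((∫ y, E.curry a y ∂μ)⁻¹ • E.curry a) x = nres μ L (At V (a : ℝ)) x := by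
    intro a x
    show (∫ y, E.curry a y ∂μ)⁻¹ * E.curry a x = _
    simp only [hEa]
    unfold nres
    rw [div_eq_inv_mul]
  intro u hu
  filter_upwards [h5 u hu, hev] with j hj hj0 x
  have h6 := hj x
  rw [key, key] at h6
  have : t' j = ⟨t j, hj0⟩ := by simp only [ht', dif_pos hj0]
  rw [this] at h6
  exact h6

variable {L} in
theorem g2_contOn {V : Mt m → ℂ} (hV : Act L V) (i : ℕ) :
    ContinuousOn (fun t => g2 μ L ((mk μ)^[i] (nres μ L (At V t)))) (Set.Ioi (0 : ℝ)) := by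
  rw [continuousOn_iff_continuous_domRestrict]
  refine SeqContinuous.continuous ?_
  intro t t0 h
  have h1 : Tendsto (fun j => ((t j : Set.Ioi (0 : ℝ)) : ℝ)) atTop (𝓝 (t0 : ℝ)) :=
    (continuous_subtype_val.tendsto t0).comp h
  exact g2_tendsto μ L (fun j => (iter_pd μ (nres_pd μ hV _) i).cont)
    (iter_pd μ (nres_pd μ hV _) i).cont
    (iter_tendsto μ (fun j => nres_pd μ hV _) (nres_pd μ hV _) (nres_tendsto μ hV t0.2 h1) i)

variable {L} in
theorem g2_to_one (hconn : IsConnected (Set.univ : Set G)) {f : G → ℝ} (hf : PD μ f)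
    (hpos : ∀ x, 0 < f x) (hcls : ∀ x y, f (y * x * y⁻¹) = f x) {Λ : ℝ}
    (hΛ : ∀ x y : G, |f x - f y| ≤ Λ * ‖L.rho x - L.rho y‖) :
    Tendsto (fun n => g2 μ L ((mk μ)^[n] f)) atTop (𝓝 (g2 μ L fun _ => 1)) := by
  obtain ⟨C, σ, hC, hσ, h⟩ := upper hconn hf hpos hcls hΛ
  refine g2_tendsto μ L (fun n => (iter_pd μ hf n).cont) continuous_const ?_
  have h1 : Tendsto (fun n : ℕ => C * Real.exp (-(σ * 4 ^ n))) atTop (𝓝 0) := by
    rw [← mul_zero C]
    refine Tendsto.const_mul C (Real.tendsto_exp_neg_atTop_nhds_zero.comp ?_)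
    exact (tendsto_pow_atTop_atTop_of_one_lt (by norm_num : (1 : ℝ) < 4)).const_mul_atTop hσ
  rw [Metric.tendstoUniformly_iff]
  intro ε hε
  filter_upwards [h1.eventually (gt_mem_nhds hε)] with n hn x
  rw [dist_comm, Real.dist_eq]
  exact (h n x).trans_lt hn

end Univ

open Univ

theorem univ_act (hs : Simple L) {n : ℕ} (hn : 0 < n) (E : Fin n → Mt m)
    (hE : ∀ a, E a ∈ lieSet L)
    (orth : ∀ a b, (trace ((E a)ᴴ * E b)).re = if a = b then 1 else 0)
    (full : ∀ Y ∈ lieSet L, Y ∈ Submodule.span ℝ (Set.range E))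
    (V : Mt m → ℂ) (hV : Act L V) (hI : InC L (At V)) :
    ∃ κ1 : ℝ, 0 < κ1 ∧ ∀ κ : ℝ, 0 < κ → κ ≤ κ1 →
      (∃ (t : ℕ → ℝ) (k : ℕ → ℕ), (∀ j, 0 < t j) ∧ Tendsto t atTop (𝓝 0) ∧
        ∀ j, g2 μ L ((mk μ)^[k j] (nres μ L (At V (t j)))) = κ) ∧
      (∀ (t : ℕ → ℝ) (k : ℕ → ℕ), (∀ j, 0 < t j) → Tendsto t atTop (𝓝 0) →
        Tendsto (fun j => g2 μ L ((mk μ)^[k j] (nres μ L (At V (t j))))) atTop (𝓝 κ) →
        Tendsto (fun j => (k j : ℝ) * t j) atTop
          (𝓝 (8 * n / ∑ a, ∑ b, ‖E a * E b - E b * E a‖ ^ 2))) ∧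
      ∃ κ0 : ℝ, 0 < κ0 ∧ κ0 ≤ κ ∧ ∀ t : ℕ → ℝ, (∀ j, 0 < t j) → Tendsto t atTop (𝓝 0) →
        ∃ k : ℕ → ℕ, ∀ᶠ j in atTop,
          κ0 ≤ g2 μ L ((mk μ)^[k j] (nres μ L (At V (t j)))) ∧
          g2 μ L ((mk μ)^[k j] (nres μ L (At V (t j)))) ≤ κ := by
  obtain ⟨cas, hcas0, hcas, hcasn⟩ := cas_exists hs E hE orth full
  obtain ⟨Good, ts, C, ρs, c, p, GS, Ds, uv, uv2, hG, hW, hI'⟩ := uv_both μ L hs hn E hE orth full
    (finrank_lieAlg E hE orth full) cas hcas0 hcas (At V) hI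
  have hts := uv2.ts_pos
  have hC := uv2.C_pos
  have ha0 := uv2.a0_pos
  have hne := hne_of_simple L hs
  have hone := Asm.g2_one_pos μ L hne
  -- the small coupling
  obtain ⟨t1, ht1, h1, h2⟩ : ∃ t1 : ℝ, 0 < t1 ∧ t1 ≤ ts ∧
      C * (Real.sqrt t1 + (2 * C + 1) * t1) ≤ cas / 8 / 2 := by
    have e0 : ∀ᶠ t : ℝ in 𝓝[>] 0, 0 < t := self_mem_nhdsWithin
    have e1 : ∀ᶠ t : ℝ in 𝓝[>] 0, t ≤ ts := nhdsWithin_le_nhds (Iic_mem_nhds hts)
    have e2 : ∀ᶠ t : ℝ in 𝓝[>] 0, C * (Real.sqrt t + (2 * C + 1) * t) < cas / 8 / 2 := by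
      refine nhdsWithin_le_nhds ?_
      have hcont : Continuous fun t : ℝ => C * (Real.sqrt t + (2 * C + 1) * t) := by fun_prop
      have h6 := hcont.tendsto 0
      simp only [Real.sqrt_zero, mul_zero, add_zero] at h6
      exact h6.eventually (gt_mem_nhds (by positivity))
    obtain ⟨t, h3, h4, h5⟩ := (e0.and (e1.and e2)).exists
    exact ⟨t, h3, h4, h5.le⟩
  obtain ⟨κ2, hκ2, hex⟩ := exit_lower μ L hs.conn hne Good ts C ρs c (cas / 8) n p uv t1 ht1
  refine ⟨min (κ2 / 2) (g2 μ L (fun _ => 1) / 2), by positivity, fun κ hκ hκle => ⟨?_, ?_, ?_⟩⟩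
  · -- existence
    have hκ1 : κ < g2 μ L fun _ => 1 := by
      have := hκle.trans (min_le_right _ _)
      linarith
    have key : ∀ j : ℕ, ∃ (t : ℝ) (k : ℕ), 0 < t ∧ t ≤ 1 / ((j : ℝ) + 1) ∧
        g2 μ L ((mk μ)^[k] (nres μ L (At V t))) = κ := by
      intro j
      set T : ℝ := min ts (1 / ((j : ℝ) + 1)) with hT
      have hT0 : 0 < T := lt_min hts (by positivity)
      have hTs : T ≤ ts := min_le_left _ _
      obtain ⟨S, hS1, hS2, hS3⟩ := hI' T hT0 hTs
      have hS2' : nres μ L S.F = nres μ L (At V T) := hS2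
      have hS3' : S.t = T := hS3
      have hgood : Good (nres μ L (At V T)) T (1 / (20 * T)) := by
        have := hG S _ hS1
        rwa [hS2', hS3'] at this
      have hlim := g2_to_one μ hs.conn (nres_pd μ hV T) (nres_pos μ hV T) (uv.cls _ _ _ hgood)
        (uv.bound _ _ _ hgood (by linarith)).2
      obtain ⟨k, hk⟩ := (hlim.eventually (lt_mem_nhds hκ1)).exists
      obtain ⟨δ, hδ, hδ2⟩ := tiny uv2 hI' hκ k
      set a : ℝ := min (δ / 2) T with ha
      have ha0 : 0 < a := lt_min (by positivity) hT0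
      have haδ : a < δ := (min_le_left _ _).trans_lt (by linarith)
      have haT : a ≤ T := min_le_right _ _
      have hcont : ContinuousOn (fun t => g2 μ L ((mk μ)^[k] (nres μ L (At V t))))
          (Set.Icc a T) := (g2_contOn μ hV k).mono fun x hx => lt_of_lt_of_le ha0 hx.1
      obtain ⟨t, ht, hgt⟩ := intermediate_value_Icc haT hcont
        ⟨(hδ2 a ha0 haδ (haT.trans hTs)).le, hk.le⟩
      exact ⟨t, k, lt_of_lt_of_le ha0 ht.1, ht.2.trans (min_le_right _ _), hgt⟩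
    choose t k hk1 hk2 hk3 using key
    refine ⟨t, k, hk1, ?_, hk3⟩
    exact squeeze_zero (fun j => (hk1 j).le) hk2 tendsto_one_div_add_atTop_nhds_zero_nat
  · -- the number of steps
    intro t k ht htt hg
    have : Nonempty (St L) := ⟨⟨0, 0, 0⟩⟩
    choose! SI hI1 hI2 hI3 using hI'
    set u : ℕ → ℝ := fun j => min (t j) ts with hu
    have hu0 : ∀ j, 0 < u j := fun j => lt_min (ht j) hts
    have hu1 : ∀ j, u j ≤ ts := fun j => min_le_right _ _
    have hev : ∀ᶠ j in atTop, u j = t j := by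
      filter_upwards [htt.eventually (gt_mem_nhds hts)] with j hj
      exact min_eq_left hj.le
    have hut : Tendsto u atTop (𝓝 0) := htt.congr' (hev.mono fun j hj => hj.symm)
    have h3 := steps_tendsto uv2 hG le_rfl h1 h2 hex hκ (by
        have := hκle.trans (min_le_left _ _)
        linarith) (S := fun j => SI (u j)) (t := u) (n := k)
      (fun j => hI1 _ (hu0 j) (hu1 j)) (fun j => hI3 _ (hu0 j) (hu1 j)) hut (by
        refine hg.congr' (hev.mono fun j hj => ?_)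
        simp only
        rw [hI2 _ (hu0 j) (hu1 j), hj])
    have e : 1 / (cas / 8) = 8 * n / ∑ a, ∑ b, ‖E a * E b - E b * E a‖ ^ 2 := by
      rw [← hcasn]
      have : (n : ℝ) ≠ 0 := by
        have : (0 : ℝ) < n := by exact_mod_cast hn
        exact this.ne'
      field_simp
    rw [← e]
    refine h3.congr' (hev.mono fun j hj => ?_)
    rw [hj]
  · -- the last step
    set X : ℝ := 1 / (Uq.Ck ts C (cas / 8) + C / κ + 1 / ts) with hX
    have hCk : 0 ≤ Uq.Ck ts C (cas / 8) := by unfold Uq.Ck; positivity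
    have hX0 : 0 < X := by positivity
    have hc := uv2.c_pos
    have hκ1 : κ < g2 μ L fun _ => 1 := by
      have := hκle.trans (min_le_right _ _)
      linarith
    refine ⟨min κ (c * X), lt_min hκ (by positivity), min_le_left _ _, fun t ht htt => ?_⟩
    refine Filter.Eventually.choice (r := fun j k =>
      min κ (c * X) ≤ g2 μ L ((mk μ)^[k] (nres μ L (At V (t j)))) ∧
        g2 μ L ((mk μ)^[k] (nres μ L (At V (t j)))) ≤ κ) ?_
    filter_upwards [htt.eventually (gt_mem_nhds (show (0 : ℝ) < min ts (κ / C) by positivity))]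
      with j hj
    have hj1 : t j ≤ ts := hj.le.trans (min_le_left _ _)
    have hj2 : t j ≤ κ / C := hj.le.trans (min_le_right _ _)
    obtain ⟨S, hS1, hS2, hS3⟩ := hI' (t j) (ht j) hj1
    have hS2' : nres μ L S.F = nres μ L (At V (t j)) := hS2
    have hS3' : S.t = t j := hS3
    have hgood : Good (nres μ L (At V (t j))) (t j) (1 / (20 * t j)) := by
      have := hG S _ hS1
      rwa [hS2', hS3'] at this
    have hlim := g2_to_one μ hs.conn (nres_pd μ hV (t j)) (nres_pos μ hV (t j))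
      (uv.cls _ _ _ hgood) (uv.bound _ _ _ hgood (by linarith)).2
    obtain ⟨N, hN⟩ := (hlim.eventually (lt_mem_nhds hκ1)).exists
    have h0 : g2 μ L (nres μ L S.F) ≤ κ := by
      have h3 := uv2.g2_hi _ _ hS1
      rw [hS3', le_div_iff₀ hC] at *
      exact h3.trans (by linarith)
    have h5 := last_step uv2 hG le_rfl h1 hex hκ (by
      have := hκle.trans (min_le_left _ _)
      linarith) (κ0 := min κ (c * X)) (min_le_right _ _) hS1 h0 ⟨N, by rw [hS2]; exact hN⟩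
    rw [hS2] at h5
    exact h5

end

end Pool.Agent.T2H04.HY
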