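import Mathlib
import Pool.Agent.T2H04.HY.Act
import Pool.Agent.T2H04.HY.Bw
import Pool.Agent.T2H04.HY.Pol
import Pool.Agent.T2H04.HY.Univ

/-!
# Universality, in the notation of the main theorem
-/

open MeasureTheory Matrix Filter
open scoped Matrix.Norms.Frobenius Topology

namespace Pool.Agent.T2H04.HY

set_option linter.unusedSectionVars false

noncomputable section

variable {G : Type} [Group G] [TopologicalSpace G] [IsTopologicalGroup G] [CompactSpace G]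
  [MeasurableSpace G] [BorelSpace G] (μ : Measure G) [μ.IsHaarMeasure] [IsProbabilityMeasure μ]
  {N : ℕ} {R : URep G N}

theorem SG.npos {n : ℕ} {X : Fin n → Matrix (Fin N) (Fin N) ℂ} (h : SG R n X) : 0 < n := by
  rcases Nat.eq_zero_or_pos n with h0 | h0
  · exfalso
    subst h0
    obtain ⟨Y, hY, Z, -, hYZ⟩ := h.nonab
    have h1 := h.span Y hY
    rw [Set.range_eq_empty, Submodule.span_empty, Submodule.mem_bot] at h1
    rw [h1, zero_mul, mul_zero] at hYZ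
    exact hYZ rfl
  · exact h0

theorem tendsto_div_atTop_iff {c : ℝ} (hc : 0 < c) {t : ℕ → ℝ} (ht : Tendsto t atTop atTop) :
    Tendsto (fun j => c / t j) atTop (𝓝 0) := by
  exact Tendsto.const_div_atTop ht c

theorem act_main {n : ℕ} {X : Fin n → Matrix (Fin N) (Fin N) ℂ} (h : SG R n X) {V : G → ℝ}
    (hV : PolAct R V) :
    ∃ κV : ℝ, 0 < κV ∧ ∀ κ : ℝ, 0 < κ → κ ≤ κV →
      (∃ (β : ℕ → ℝ) (k : ℕ → ℕ), (∀ j, 0 < β j) ∧ Tendsto β atTop atTop ∧
        ∀ j, gsq μ R n ((mk μ)^[k j] (bw μ V (β j))) = κ) ∧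
      (∃ κ0 : ℝ, 0 < κ0 ∧ κ0 ≤ κ ∧ ∀ β : ℕ → ℝ, (∀ j, 0 < β j) → Tendsto β atTop atTop →
        ∃ k : ℕ → ℕ, ∀ᶠ j in atTop, κ0 ≤ gsq μ R n ((mk μ)^[k j] (bw μ V (β j))) ∧
          gsq μ R n ((mk μ)^[k j] (bw μ V (β j))) ≤ κ) ∧
      ∀ (β : ℕ → ℝ) (k : ℕ → ℕ), (∀ j, 0 < β j) → Tendsto β atTop atTop →
        Tendsto (fun j => gsq μ R n ((mk μ)^[k j] (bw μ V (β j)))) atTop (𝓝 κ) →
        Tendsto (fun j => (k j : ℝ) / β j) atTop (𝓝 (8 / CA X)) ∧
        ∀ (β' : ℕ → ℝ) (k' : ℕ → ℕ), (∀ j, 0 < β' j) → Tendsto β' atTop atTop →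
          Tendsto (fun j => gsq μ R n ((mk μ)^[k' j] (bw μ (wa R) (β' j)))) atTop (𝓝 κ) →
          ∀ l : ℕ, TendstoUniformly (fun j x => (mk μ)^[k' j - l] (bw μ (wa R) (β' j)) x -
            (mk μ)^[k j - l] (bw μ V (β j)) x) (fun _ => 0) atTop := by
  have hn := h.npos
  have hn0 : (0 : ℝ) < n := by exact_mod_cast hn
  obtain ⟨V', hV', hVr⟩ := pol_act R μ V hV
  obtain ⟨C, δ, hC, hδ, hq⟩ := act_quart (blk R) hV'
  obtain ⟨k, hk0, hkC⟩ : ∃ k : ℕ, 0 < k ∧ 20 * C ≤ k := by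
    obtain ⟨k, hk⟩ := exists_nat_ge (20 * C)
    exact ⟨k + 1, by omega, by push_cast; linarith⟩
  have : NeZero k := ⟨hk0.ne'⟩
  have hk : (0 : ℝ) < k := by exact_mod_cast hk0
  have hV2 : Act (ksum (blk R) k) (kAct k V') := ks_act (blk R) k hV'
  obtain ⟨D⟩ := exists_log (m := Fin k × (Fin N ⊕ Fin N))
  obtain hI : InC (ksum (blk R) k) (At (kAct k V')) := by
    refine act_cls (ksum (blk R) k) D hV2 hδ fun Z hZ => ?_
    refine (ks_quart (blk R) k hq Z hZ).trans ?_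
    refine mul_le_mul_of_nonneg_right ?_ (by positivity)
    rw [div_le_iff₀ hk]
    linarith
  have hs : Simple (ksum (blk R) k) := ks_simple (blk R) k (blk_simple R h.conn h.nonab h.irred)
  obtain ⟨-, E, hE, oE, fE, sE⟩ := blk_basis R X h.mem h.orth h.span
  obtain ⟨E', hE', oE', fE', sE'⟩ := ks_basis (blk R) k E hE oE fE
  obtain ⟨κ1, hκ1, H1⟩ := two_actions μ (ksum (blk R) k) hs hn E' hE' oE' fE' _ hI
  obtain ⟨κ2, hκ2, H2⟩ := univ_act μ (ksum (blk R) k) hs hn E' hE' oE' fE' _ hV2 hI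
  have hc : 0 < 2 * (n : ℝ) * k := by positivity
  refine ⟨min κ1 κ2 / (2 * n * k), by positivity, fun κ hκ hκle => ?_⟩
  rw [le_div_iff₀ hc] at hκle
  have hκ' : 0 < 2 * n * k * κ := by positivity
  have hk1 : 2 * n * k * κ ≤ κ1 := by
    have := min_le_left κ1 κ2
    linarith
  have hk2 : 2 * n * k * κ ≤ κ2 := by
    have := min_le_right κ1 κ2
    linarith
  have hnr : ∀ t, nres μ (ksum (blk R) k) (At (kAct k V') t) = bw μ V (2 * k / t) := fun t =>
    nres_ks μ R hV'.real hVr k t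
  have hkk : (0 : ℝ) < 2 * k := by positivity
  have hinv : ∀ b : ℝ, 2 * (k : ℝ) / (2 * k / b) = b := fun b => by
    rw [div_div_cancel₀ hkk.ne']
  refine ⟨?_, ?_, fun β q hβ hβt hg => ⟨?_, ?_⟩⟩
  · obtain ⟨t, q, ht, htt, hq⟩ := (H2 _ hκ' hk2).1
    refine ⟨fun j => 2 * k / t j, q, fun j => div_pos hkk (ht j), ?_, fun j => ?_⟩
    · have h1 : Tendsto t atTop (𝓝[>] 0) :=
        tendsto_nhdsWithin_iff.2 ⟨htt, Eventually.of_forall ht⟩
      exact (tendsto_inv_nhdsGT_zero.comp h1).const_mul_atTop hkk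
    · have h1 := hq j
      rw [g2_ks μ R hn, hnr] at h1
      exact mul_left_cancel₀ hc.ne' h1
  · obtain ⟨κ0, hκ0, hκ0', h3⟩ := (H2 _ hκ' hk2).2.2
    refine ⟨κ0 / (2 * n * k), by positivity, ?_, fun β hβ hβt => ?_⟩
    · rw [div_le_iff₀ hc]; linarith
    · obtain ⟨q, hq⟩ := h3 (fun j => 2 * k / β j) (fun j => div_pos hkk (hβ j))
        (Tendsto.const_div_atTop hβt _)
      refine ⟨q, hq.mono fun j hj => ?_⟩
      simp only [g2_ks μ R hn, hnr, hinv] at hj
      refine ⟨?_, le_of_mul_le_mul_left hj.2 hc⟩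
      rw [div_le_iff₀ hc]
      linarith [hj.1]
  · have h1 := (H2 _ hκ' hk2).2.1 (fun j => 2 * k / β j) q (fun j => div_pos hkk (hβ j))
      (Tendsto.const_div_atTop hβt _) (by
        simp only [g2_ks μ R hn, hnr, hinv]
        exact hg.const_mul _)
    have h2 := h1.div_const (2 * k : ℝ)
    have e1 : (8 * (n : ℝ) / ∑ a, ∑ b, ‖E' a * E' b - E' b * E' a‖ ^ 2) / (2 * k) = 8 / CA X := by
      have hS : ∑ a, ∑ b, ‖E' a * E' b - E' b * E' a‖ ^ 2 = n * CA X / (2 * k) := by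
        have h3 : ∑ a, ∑ b, ‖X a * X b - X b * X a‖ ^ 2 = n * CA X := by
          unfold CA
          field_simp
        rw [h3] at sE
        rw [sE] at sE'
        rw [eq_div_iff hkk.ne']
        linarith
      rw [hS]
      by_cases h0 : CA X = 0
      · rw [h0]; simp
      · field_simp
    rw [e1] at h2
    refine h2.congr fun j => ?_
    have := hβ j
    field_simp
  · intro β' q' hβ' hβt' hg' l
    have h1 := H1 _ hκ' hk1 (fun j => 2 * k / β' j) (fun j => 2 * k / β j) q' q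
      (fun j => div_pos hkk (hβ' j)) (fun j => div_pos hkk (hβ j))
      (Tendsto.const_div_atTop hβt' _) (Tendsto.const_div_atTop hβt _) (by
        simp only [g2_ks μ R hn, wil_ks, hinv]
        exact hg'.const_mul _) (by
        simp only [g2_ks μ R hn, hnr, hinv]
        exact hg.const_mul _) l
    simp only [wil_ks, hnr, hinv] at h1
    exact h1

end

end Pool.Agent.T2H04.HY
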