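import Mathlib
import Pool.Agent.T2H04.HY.AsmD
import Pool.Agent.T2H04.HY.AsmE
import Pool.Agent.T2H04.HY.Low

/-!
# Assembly: from the ultraviolet estimates to the continuum limit
-/

open MeasureTheory Matrix Filter
open scoped Matrix.Norms.Frobenius Topology

namespace Pool.Agent.T2H04.HY

set_option linter.unusedSectionVars false

noncomputable section

variable {G : Type} [Group G] [TopologicalSpace G] [IsTopologicalGroup G] [CompactSpace G]
  [MeasurableSpace G] [BorelSpace G] (μ : Measure G) [μ.IsHaarMeasure] [IsProbabilityMeasure μ]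
  {m : Type} [Fintype m] [DecidableEq m] (L : RD G m)

namespace Asm

theorem exists_small {ts C c a0 g1 A : ℝ} (hts : 0 < ts) (hc : 0 < c) (ha0 : 0 < a0)
    (hg : 0 < g1) : ∃ κ1 : ℝ, 0 < κ1 ∧ ∀ κ : ℝ, 0 < κ → κ ≤ κ1 →
      SmK ts C c a0 κ ∧ κ < g1 ∧ κ ≤ 1 ∧ C * (Real.sqrt (κ / c) + A * (κ / c)) ≤ a0 / 2 := by
  have h0 : ∀ᶠ κ : ℝ in 𝓝[>] 0, 0 < κ := self_mem_nhdsWithin
  have h1 : ∀ᶠ κ : ℝ in 𝓝[>] 0, κ ≤ c * ts :=
    nhdsWithin_le_nhds (Iic_mem_nhds (by positivity))
  have h2 : ∀ᶠ κ : ℝ in 𝓝[>] 0, κ < g1 := nhdsWithin_le_nhds (Iio_mem_nhds hg)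
  have h3 : ∀ᶠ κ : ℝ in 𝓝[>] 0, κ ≤ 1 := nhdsWithin_le_nhds (Iic_mem_nhds one_pos)
  have h4 : ∀ᶠ κ : ℝ in 𝓝[>] 0, 1 / (2 * ts) + Cd ts C a0 ≤ c * κ⁻¹ :=
    (tendsto_inv_nhdsGT_zero.const_mul_atTop hc).eventually_ge_atTop _
  have h5 : ∀ᶠ κ : ℝ in 𝓝[>] 0, C * (Real.sqrt (κ / c) + A * (κ / c)) < a0 / 2 := by
    refine nhdsWithin_le_nhds ?_
    have hcont : Continuous fun κ : ℝ => C * (Real.sqrt (κ / c) + A * (κ / c)) := by fun_prop
    have h6 := hcont.tendsto 0
    simp only [zero_div, Real.sqrt_zero, mul_zero, add_zero] at h6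
    exact h6.eventually (gt_mem_nhds (by positivity))
  have h7 := h0.and (h1.and (h2.and (h3.and (h4.and h5))))
  obtain ⟨u, hu, h8⟩ := mem_nhdsGT_iff_exists_Ioo_subset.1 h7
  have hu0 : 0 < u := hu
  refine ⟨u / 2, by positivity, fun κ hκ hκu => ?_⟩
  obtain ⟨-, e1, e2, e3, e4, e5⟩ := h8 ⟨hκ, by linarith⟩
  refine ⟨⟨hκ, e1, ?_⟩, e2, e3, e5.le⟩
  rw [div_eq_mul_inv c κ]
  linarith

end Asm

open Asm

/-- **Continuum limit.** For every small value `κ` of the renormalised coupling there is a sequence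
of bare couplings `t j → 0` and scales `n j → ∞` such that all the renormalised Wilson plaquette
functions converge: a full renormalisation group trajectory `f k`, `k ∈ ℤ`, with `g² (f 0) = κ`,
asymptotically free in the ultraviolet (`k → -∞`), confining in the infrared (`k → ∞`). -/
theorem continuum (hconn : IsConnected (Set.univ : Set G)) (hne : ∃ X ∈ lieSet L, X ≠ 0)
    (Good : (G → ℝ) → ℝ → ℝ → Prop) (ts C ρs c a0 d0 : ℝ) (p : ℕ)
    (uv : UV μ L Good ts C ρs c a0 d0 p) :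
    ∃ κ1 : ℝ, 0 < κ1 ∧ ∀ κ : ℝ, 0 < κ → κ ≤ κ1 →
      ∃ (t : ℕ → ℝ) (n : ℕ → ℕ) (f : ℤ → G → ℝ),
        (∀ j, 0 < t j) ∧ Tendsto t atTop (𝓝 0) ∧ Tendsto n atTop atTop ∧
        (∀ k : ℤ, TendstoUniformly (fun j => (mk μ)^[((n j : ℤ) + k).toNat] (wil μ L (t j)))
          (f k) atTop) ∧
        (∀ k, PD μ (f k)) ∧ (∀ k x y, f k (y * x * y⁻¹) = f k x) ∧
        (∀ k, mk μ (f k) = f (k + 1)) ∧
        g2 μ L (f 0) = κ ∧
        -- asymptotic freedom
        Tendsto (fun k : ℕ => (k : ℝ) * g2 μ L (f (-(k : ℤ)))) atTop (𝓝 (d0 / a0)) ∧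
        -- confinement
        (∃ C' σ : ℝ, 0 < C' ∧ 0 < σ ∧ ∀ k : ℕ, ∀ x, |f k x - 1| ≤ C' * Real.exp (-(σ * 4 ^ k))) ∧
        (∃ c' σ : ℝ, 0 < c' ∧ 0 < σ ∧ ∀ k : ℕ, ∃ x, c' * Real.exp (-(σ * 4 ^ k)) ≤ |f k x - 1|) ∧
        -- positivity, invariance under the inversion, the number of steps
        (∀ k x, 0 < f k x) ∧ (∀ k x, f k x⁻¹ = f k x) ∧
        Tendsto (fun j => (n j : ℝ) * t j) atTop (𝓝 (1 / a0)) := by
  have hC := uv.C_pos
  obtain ⟨κ1, hκ1, hall⟩ := exists_small (C := C) (A := 2 * C + 1) uv.ts_pos uv.c_pos uv.a0_pos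
    (g2_one_pos μ L hne)
  refine ⟨κ1, hκ1, fun κ hκ hκle => ?_⟩
  obtain ⟨hSm, hκone, hκ1', hsm⟩ := hall κ hκ hκle
  obtain ⟨t, N, ht, ht0, hN, hle, heq⟩ := exists_seq uv hconn hSm hκone
  choose τ α hend using fun j => exists_end uv hSm (ht j).1 (ht j).2 (hle j) (heq j)
  set a : ℕ → ℕ → G → ℝ := fun j k => Fi μ L (N j - k) (t j) with ha
  obtain ⟨φ, hφ, hsub⟩ := subseq L a (fun k => C * Sk ts C a0 κ k ^ p)
    (fun k => C * Sk ts C a0 κ k ^ p) (fun k => by
      filter_upwards [hN.eventually_ge_atTop k] with j hj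
      exact ⟨((hend j).data uv hSm hj).1, ((hend j).data uv hSm hj).2.1⟩)
  choose g hgc hgL hgt using hsub
  have hNφ : Tendsto (fun j => N (φ j)) atTop atTop := hN.comp hφ.tendsto_atTop
  have hgpd : ∀ k, PD μ (g k) := fun k => pd_lim (fun j => Fi_pd μ L _ _) (hgc k) (hgt k)
  have hmk : ∀ k, mk μ (g (k + 1)) = g k := by
    intro k
    have h1 := mk_tendsto μ _ _ (fun j => Fi_pd μ L (N (φ j) - (k + 1)) (t (φ j))) (hgpd (k + 1))
      (hgt (k + 1))
    refine unif_unique h1 ?_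
    refine unif_congr (hgt k) ?_
    filter_upwards [hNφ.eventually_ge_atTop (k + 1)] with j hj x
    show Fi μ L (N (φ j) - k) (t (φ j)) x = mk μ (Fi μ L (N (φ j) - (k + 1)) (t (φ j))) x
    rw [← Fi_succ, show N (φ j) - (k + 1) + 1 = N (φ j) - k by omega]
  have hcls : ∀ k x y, g k (y * x * y⁻¹) = g k x := by
    intro k x y
    have h1 := (hgt k).tendsto_at (y * x * y⁻¹)
    have h2 := (hgt k).tendsto_at x
    refine tendsto_nhds_unique h1 (h2.congr fun j => ?_)
    exact (Fi_cls μ L _ _ x y).symm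
  have hinvk : ∀ k x, g k x⁻¹ = g k x := by
    intro k x
    have h1 := (hgt k).tendsto_at x⁻¹
    have h2 := (hgt k).tendsto_at x
    refine tendsto_nhds_unique h1 (h2.congr' ?_)
    filter_upwards [hNφ.eventually_ge_atTop k] with j hj
    exact (((hend (φ j)).data uv hSm hj).2.2.2 x).symm
  have hinv : ∀ x, g 0 x⁻¹ = g 0 x := hinvk 0
  have hnear : ∀ k, ∀ x ∈ bal L ρs, 0 < g k x := by
    intro k x hx
    refine lt_of_lt_of_le (Real.exp_pos (-(Sk ts C a0 κ k))) (ge_of_tendsto ((hgt k).tendsto_at x) ?_)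
    filter_upwards [hNφ.eventually_ge_atTop k] with j hj
    exact ((hend (φ j)).data uv hSm hj).2.2.1 x hx
  have hposk : ∀ k x, 0 < g k x := by
    intro k x
    have h1 := all_pos hconn uv.ρs_pos (g := fun l => g (l + k)) (fun l => hgpd _)
      (fun l => by
        show mk μ (g (l + 1 + k)) = g (l + k)
        rw [show l + 1 + k = l + k + 1 by omega]
        exact hmk _) (fun l => hnear _) x
    simpa only [zero_add] using h1
  have hpos : ∀ x, 0 < g 0 x := hposk 0
  have hg20 : g2 μ L (g 0) = κ := by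
    have h1 := g2_tendsto μ L (fun j => (Fi_pd μ L (N (φ j) - 0) (t (φ j))).cont) (hgc 0) (hgt 0)
    have h2 : (fun j => g2 μ L (Fi μ L (N (φ j) - 0) (t (φ j)))) = fun _ => κ := by
      funext j
      rw [Nat.sub_zero]
      exact heq (φ j)
    rw [h2] at h1
    exact tendsto_nhds_unique h1 tendsto_const_nhds
  have haf : ∀ k : ℕ, 1 ≤ k → |k * g2 μ L (g k) - d0 / a0| ≤
      ee C (2 * C + 1) a0 d0 (C / κ) k := by
    intro k hk
    have h1 := g2_tendsto μ L (fun j => (Fi_pd μ L (N (φ j) - k) (t (φ j))).cont) (hgc k) (hgt k)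
    have h2 : Tendsto (fun j => |k * g2 μ L (Fi μ L (N (φ j) - k) (t (φ j))) - d0 / a0|) atTop
        (𝓝 |k * g2 μ L (g k) - d0 / a0|) := ((h1.const_mul (k : ℝ)).sub_const _).abs
    refine le_of_tendsto h2 ?_
    filter_upwards [hφ.tendsto_atTop.eventually (err_ev uv hSm hN hend k)] with j hj
    exact (hend (φ j)).af uv hSm (by positivity) hsm hk hj.1 hj.2
  set f : ℤ → G → ℝ := fun z => match z with
    | Int.ofNat l => (mk μ)^[l] (g 0)
    | Int.negSucc l => g (l + 1) with hf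
  have hf_nat : ∀ l : ℕ, f (l : ℤ) = (mk μ)^[l] (g 0) := fun l => rfl
  have hf_neg : ∀ k : ℕ, f (-(k : ℤ)) = g k := by
    intro k
    cases k with
    | zero => rfl
    | succ k => rfl
  obtain ⟨C', σ, hC', hσ, hup⟩ := upper hconn (hgpd 0) hpos (hcls 0) (hgL 0)
  refine ⟨fun j => t (φ j), fun j => N (φ j), f, fun j => (ht _).1, ht0.comp hφ.tendsto_atTop, hNφ,
    ?_, ?_, ?_, ?_, ?_, ?_, ?_, ?_, ?_, ?_, ?_⟩
  · intro k
    rcases Int.eq_nat_or_neg k with ⟨l, rfl | rfl⟩
    · rw [hf_nat]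
      have h1 := iter_tendsto μ (fun j => Fi_pd μ L (N (φ j) - 0) (t (φ j))) (hgpd 0) (hgt 0) l
      refine unif_congr h1 (Eventually.of_forall fun j x => ?_)
      have h2 : ((N (φ j) : ℤ) + (l : ℤ)).toNat = l + N (φ j) := by omega
      simp only [h2, Nat.sub_zero]
      unfold Fi
      rw [Function.iterate_add_apply]
    · rw [hf_neg]
      refine unif_congr (hgt l) ?_
      filter_upwards [hNφ.eventually_ge_atTop l] with j hj x
      have h2 : ((N (φ j) : ℤ) + -(l : ℤ)).toNat = N (φ j) - l := by omega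
      simp only [h2]
      rfl
  · intro k
    rcases Int.eq_nat_or_neg k with ⟨l, rfl | rfl⟩
    · rw [hf_nat]; exact iter_pd μ (hgpd 0) l
    · rw [hf_neg]; exact hgpd l
  · intro k
    rcases Int.eq_nat_or_neg k with ⟨l, rfl | rfl⟩
    · rw [hf_nat]; exact iter_cls μ (hcls 0) l
    · rw [hf_neg]; exact hcls l
  · intro k
    match k with
    | Int.ofNat l =>
      show mk μ ((mk μ)^[l] (g 0)) = (mk μ)^[l + 1] (g 0)
      rw [Function.iterate_succ_apply']
    | Int.negSucc l =>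
      show mk μ (g (l + 1)) = f (Int.negSucc l + 1)
      have h1 : Int.negSucc l + 1 = -(l : ℤ) := by omega
      rw [h1, hf_neg, hmk]
  · exact hg20
  · simp only [hf_neg]
    rw [tendsto_iff_norm_sub_tendsto_zero]
    refine squeeze_zero' (Eventually.of_forall fun k => norm_nonneg _) ?_
      (ee_tendsto C (2 * C + 1) a0 d0 (C / κ) uv.a0_pos)
    filter_upwards [eventually_ge_atTop 1] with k hk
    rw [Real.norm_eq_abs]
    exact haf k hk
  · exact ⟨C', σ, hC', hσ, fun k x => hup k x⟩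
  · have hB : ∀ k : ℕ, ∀ x, (mk μ)^[k] (g 0) x ≤ 1 + C' := by
      intro k x
      have h1 := (abs_le.1 (hup k x)).2
      have h2 : Real.exp (-(σ * 4 ^ k)) ≤ 1 := Real.exp_le_one_iff.2 (by
        have : 0 < σ * 4 ^ k := by positivity
        linarith)
      nlinarith
    obtain ⟨c', σ', hc', hσ', hlow⟩ := lower μ L (g 0) (hgpd 0) (hcls 0) hinv hne
      (by
        have := hg20
        unfold g2 at this
        rw [this]
        exact hκ1') (1 + C') hB
    exact ⟨c', σ', hc', hσ', fun k => hlow k⟩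
  · intro k
    rcases Int.eq_nat_or_neg k with ⟨l, rfl | rfl⟩
    · rw [hf_nat]
      have hpc : ∀ i, PC ((mk μ)^[i] (g 0)) := by
        intro i
        induction i with
        | zero => exact ⟨hgc 0, hpos, hcls 0⟩
        | succ i ih =>
          rw [Function.iterate_succ_apply']
          exact ih.mkk μ L
      exact (hpc l).pos
    · rw [hf_neg]; exact hposk l
  · intro k
    rcases Int.eq_nat_or_neg k with ⟨l, rfl | rfl⟩
    · rw [hf_nat]
      have hs : ∀ i x, (mk μ)^[i] (g 0) x⁻¹ = (mk μ)^[i] (g 0) x := by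
        intro i
        induction i with
        | zero => exact hinv
        | succ i ih =>
          intro x
          rw [Function.iterate_succ_apply']
          exact Low.mk_sym μ ih x
      exact hs l
    · rw [hf_neg]; exact hinvk l
  · have hCd := Cd_pos uv
    have ha0 := uv.a0_pos
    refine asym (E := fun k => ∑ l ∈ Finset.range k, bb C (2 * C + 1) a0 l) (S0 := C / κ)
      (D := Cd ts C a0 + a0) ha0 (by positivity) (Eventually.of_forall fun j => (ht _).1)
      (ht0.comp hφ.tendsto_atTop) (bb_sum_tendsto C (2 * C + 1) a0 ha0) ?_ ?_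
    · refine Eventually.of_forall fun j => ?_
      have h1 := (hend (φ j)).chain.fwd uv
      have h2 := (hend (φ j)).last uv hSm
      have h3 : 0 ≤ a0 * (N (φ j) : ℝ) := by positivity
      linarith
    · exact Eventually.of_forall fun j => (hend (φ j)).chain.count uv (hend (φ j)).le hsm
        ((hend (φ j)).last uv hSm) _ (pow16 (ht _).1)

end

end Pool.Agent.T2H04.HY
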