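import Mathlib
import Pool.Agent.T2H04.HY.Asm
import Pool.Agent.T2H04.HY.Exit

/-!
# Asymptotic scaling of the string tension
-/

open MeasureTheory Matrix Filter
open scoped Matrix.Norms.Frobenius Topology

namespace Pool.Agent.T2H04.HY

set_option linter.unusedSectionVars false

noncomputable section

variable {G : Type} [Group G] [TopologicalSpace G] [IsTopologicalGroup G] [CompactSpace G]
  [MeasurableSpace G] [BorelSpace G] (μ : Measure G) [μ.IsHaarMeasure] [IsProbabilityMeasure μ]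
  {m : Type} [Fintype m] [DecidableEq m] (L : RD G m)

namespace Scal

theorem wil_inv (t : ℝ) (x : G) : wil μ L t x⁻¹ = wil μ L t x := by
  unfold wil
  rw [← L.sig_rho, L.sig_tr]

/-- the string tension exists and is positive for all couplings -/
theorem sigma_exists (hconn : IsConnected (Set.univ : Set G)) (hne : ∃ X ∈ lieSet L, X ≠ 0) (t : ℝ)
    (ht : 0 < t) : (∀ k, 0 < wl μ L ((mk μ)^[k] (wil μ L t))) ∧ ∃ s : ℝ, 0 < s ∧
      Tendsto (fun k : ℕ => -(Real.log (wl μ L ((mk μ)^[k] (wil μ L t)))) / 4 ^ k) atTop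
        (𝓝 s) := by
  obtain ⟨B, hB⟩ := isCompact_univ.exists_bound_of_continuousOn
    (Asm.wil_cont μ L t).continuousOn
  obtain ⟨σ1, σ2, h1, h2, h⟩ := tension μ L hconn (1 / t) B (wl μ L (wil μ L t))
    (wl_wil_pos μ L hne t ht)
  obtain ⟨h3, s, h4, h5, h6⟩ := h _ (Asm.wil_pd μ L t) (Asm.wil_pc μ L t) (wil_inv μ L t)
    (Asm.wil_sc μ L t ht) (fun x => (le_abs_self _).trans (hB x (Set.mem_univ x))) le_rfl
  exact ⟨h3, s, lt_of_lt_of_le h1 h4, h6⟩

/-- lower bound of the Wilson loop after several steps -/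
theorem wl_iter (B w0 : ℝ) (hB : 0 < B) (hw0 : 0 < w0) (k : ℕ) : ∃ w1 : ℝ, 0 < w1 ∧
    ∀ f : G → ℝ, PD μ f → (∀ x, f x⁻¹ = f x) → (∀ j ≤ k, ∀ x, (mk μ)^[j] f x ≤ B) →
      w0 ≤ wl μ L f → w1 ≤ wl μ L ((mk μ)^[k] f) := by
  obtain ⟨K, hK, hstep⟩ := wl_step μ L
  induction k with
  | zero => exact ⟨w0, hw0, fun f _ _ _ h => h⟩
  | succ k ih =>
    obtain ⟨w1, hw1, h⟩ := ih
    refine ⟨4 * w1 ^ 4 / (K * B ^ 3), by positivity, fun f hf hs hj hw => ?_⟩
    have h1 := h f hf hs (fun j hjk x => hj j (by omega) x) hw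
    have hpd := Asm.iter_pd μ hf k
    have hsy : ∀ x, (mk μ)^[k] f x⁻¹ = (mk μ)^[k] f x := by
      have : ∀ i x, (mk μ)^[i] f x⁻¹ = (mk μ)^[i] f x := by
        intro i
        induction i with
        | zero => exact hs
        | succ i ih =>
          intro x
          rw [Function.iterate_succ_apply']
          exact Low.mk_sym μ ih x
      exact this k
    have h2 := hstep _ hpd hsy B (fun x => hj k (by omega) x)
    rw [Function.iterate_succ_apply', div_le_iff₀ (by positivity)]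
    have h3 : w1 ^ 4 ≤ wl μ L ((mk μ)^[k] f) ^ 4 := pow_le_pow_left₀ hw1.le h1 4
    linarith

variable {μ L} {Good : (G → ℝ) → ℝ → ℝ → Prop} {ts C ρs c a0 d0 : ℝ} {p : ℕ}

open Asm in
/-- the last step before the coupling exceeds `κ` -/
theorem exists_last (uv : UV μ L Good ts C ρs c a0 d0 p) (hconn : IsConnected (Set.univ : Set G))
    {κ : ℝ} (hκ0 : 0 < κ) (hκ1 : κ < g2 μ L fun _ => 1) {t : ℝ} (ht : 0 < t) (hts : t ≤ ts)
    (htκ : t ≤ κ / C) :
    ∃ n : ℕ, (∀ i ≤ n, g2 μ L (Fi μ L i t) ≤ κ) ∧ κ < g2 μ L (Fi μ L (n + 1) t) := by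
  classical
  have hC := uv.C_pos
  have h0 : g2 μ L (Fi μ L 0 t) ≤ κ := by
    have h1 := uv.g2_hi _ _ _ (uv.init t ht hts) (by linarith [uv.ts_pos])
    rw [le_div_iff₀ hC] at htκ
    rw [Fi_zero]
    linarith
  have hex : ∃ i, κ < g2 μ L (Fi μ L i t) :=
    ((g2_to_one μ L hconn t ht).eventually (lt_mem_nhds hκ1)).exists
  have h1 := Nat.find_spec hex
  have h2 : ∀ i < Nat.find hex, g2 μ L (Fi μ L i t) ≤ κ := fun i hi =>
    not_lt.1 (Nat.find_min hex hi)
  obtain ⟨n, hn⟩ : ∃ n, Nat.find hex = n + 1 := by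
    refine Nat.exists_eq_succ_of_ne_zero fun h => ?_
    rw [h] at h1
    linarith
  rw [hn] at h1 h2
  exact ⟨n, fun i hi => h2 i (by omega), h1⟩

end Scal

open Scal Asm

/-- Confinement at all couplings: the string tension of Wilson's action exists and is positive for
all `t > 0` (`t = 2 / β`), and it obeys one loop asymptotic scaling:
`log σ(t) ~ - (2 log 2 / a0) / t` as `t → 0`. -/
theorem scaling (hconn : IsConnected (Set.univ : Set G)) (hne : ∃ X ∈ lieSet L, X ≠ 0)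
    (Good : (G → ℝ) → ℝ → ℝ → Prop) (ts C ρs c a0 d0 : ℝ) (p : ℕ)
    (uv : UV μ L Good ts C ρs c a0 d0 p) :
    ∃ σ : ℝ → ℝ, (∀ t, 0 < t → 0 < σ t ∧
      Tendsto (fun k : ℕ => -(Real.log (wl μ L ((mk μ)^[k] (wil μ L t)))) / 4 ^ k) atTop
        (𝓝 (σ t))) ∧
      Tendsto (fun t => t * Real.log (σ t)) (𝓝[>] 0) (𝓝 (-(2 * Real.log 2 / a0))) := by
  have hC := uv.C_pos
  have ha0 := uv.a0_pos
  have hCd := Cd_pos uv
  have hex : ∀ t : ℝ, ∃ s : ℝ, 0 < t → 0 < s ∧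
      Tendsto (fun k : ℕ => -(Real.log (wl μ L ((mk μ)^[k] (wil μ L t)))) / 4 ^ k) atTop
        (𝓝 s) := by
    intro t
    by_cases ht : 0 < t
    · obtain ⟨-, s, h1, h2⟩ := sigma_exists μ L hconn hne t ht
      exact ⟨s, fun _ => ⟨h1, h2⟩⟩
    · exact ⟨0, fun h => absurd h ht⟩
  choose σ hσ using hex
  refine ⟨σ, hσ, ?_⟩
  obtain ⟨κ0, w0, hκ0, hw0, hwl⟩ := wl_lower μ L hne
  obtain ⟨κ1, hκ1, hall⟩ := exists_small (C := C) (A := 2 * C + 1) uv.ts_pos uv.c_pos uv.a0_pos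
    (g2_one_pos μ L hne)
  obtain ⟨κ, hκdef⟩ : ∃ κ, κ = min κ1 κ0 := ⟨_, rfl⟩
  have hκ : 0 < κ := by rw [hκdef]; exact lt_min hκ1 hκ0
  obtain ⟨hSm, hκone, -, hsm⟩ := hall κ hκ (by rw [hκdef]; exact min_le_left _ _)
  obtain ⟨S0, hS0⟩ : ∃ S0, S0 = C / κ + Cd ts C a0 := ⟨_, rfl⟩
  have hS0p : 0 < S0 := by rw [hS0]; positivity
  obtain ⟨k, κs, B, hk, hB, haft⟩ := Exit.after (t1 := 1 / S0) hconn uv (by positivity)
  obtain ⟨w1, hw1, hwl1⟩ := wl_iter μ L B w0 hB hw0 k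
  obtain ⟨σ1, σ2, hσ1, hσ12, hten⟩ := tension μ L hconn κs B w1 hw1
  -- the couplings
  have key : ∀ t : ℝ, ∃ (n : ℕ) (s : ℝ), 0 < t → t ≤ ts → t ≤ κ / C →
      σ1 ≤ s ∧ s ≤ σ2 ∧ σ t = s / 4 ^ (k + n) ∧ 1 / t ≤ S0 + (Cd ts C a0 + a0) * n ∧
      |1 / t - n * a0| ≤ (Cd ts C a0 + a0) * ⌈Real.log (1 / t)⌉₊ + S0 +
        ∑ l ∈ Finset.range n, bb C (2 * C + 1) a0 l := by
    intro t
    by_cases hh : 0 < t ∧ t ≤ ts ∧ t ≤ κ / C
    · obtain ⟨ht, hts, htκ⟩ := hh
      obtain ⟨n, hn1, hn2⟩ := exists_last uv hconn hκ hκone ht hts htκ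
      obtain ⟨τ, α, ch⟩ := exists_chain uv hSm ht hts (n + 1) fun i hi => hn1 i (by omega)
      -- the chain up to `n`
      have ch' : Chain μ L Good ts C a0 t n τ α :=
        ⟨ch.zero, ch.zero', fun i hi => ch.good i (by omega), fun i hi => ch.step i (by omega),
          fun i hi => ch.err i (by omega), fun i hi => ch.small i (by omega)⟩
      have hp := ch.pos uv (le_refl (n + 1))
      have hp' := ch.pos uv (Nat.le_succ n)
      have h1 : 1 / τ (n + 1) ≤ C / κ := by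
        have h2 := uv.g2_hi _ _ _ (ch.good (n + 1) le_rfl) (ch.small (n + 1) le_rfl)
        rw [div_le_div_iff₀ hp.1 hκ]
        linarith
      have h2 : 1 / τ n ≤ S0 := by
        have h3 := (_root_.abs_le.1 (ch.abs_le uv (Nat.lt_succ_self n))).1
        rw [hS0]
        linarith
      have h3 : 1 / S0 ≤ τ n := by
        rw [div_le_iff₀ hS0p]
        rw [div_le_iff₀ hp'.1] at h2
        linarith
      have hg := ch'.good n le_rfl
      have hs2 := ch'.small n le_rfl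
      obtain ⟨h4, h5, h6⟩ := haft _ _ _ hg h3 hs2
      have hpdn := Fi_pd μ L n t
      have hinv := uv.inv _ _ _ hg
      have h7 : w0 ≤ wl μ L (Fi μ L n t) :=
        hwl _ hpdn ((hn1 n le_rfl).trans (by rw [hκdef]; exact min_le_right _ _))
      have h8 := hwl1 _ hpdn hinv h6 h7
      have hinvk : ∀ i x, (mk μ)^[i] (Fi μ L n t) x⁻¹ = (mk μ)^[i] (Fi μ L n t) x := by
        intro i
        induction i with
        | zero => exact hinv
        | succ i ih =>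
          intro x
          rw [Function.iterate_succ_apply']
          exact Low.mk_sym μ ih x
      obtain ⟨-, s, h9, h10, h11⟩ := hten _ (iter_pd μ hpdn k) h4 (hinvk k) h5 (h6 k le_rfl) h8
      refine ⟨n, s, fun _ _ _ => ⟨h9, h10, ?_, ?_, ?_⟩⟩
      · -- uniqueness of limits
        have h12 := ((hσ t ht).2.comp (tendsto_add_atTop_nat (k + n)))
        have h13 := h11.div_const ((4 : ℝ) ^ (k + n))
        refine tendsto_nhds_unique h12 (h13.congr fun j => ?_)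
        simp only [Function.comp_apply]
        unfold Fi
        rw [← Function.iterate_add_apply, ← Function.iterate_add_apply, ← add_assoc, add_assoc j,
          div_div, ← pow_add]
      · have h12 := ch'.fwd uv
        have h13 : 0 ≤ a0 * n := by positivity
        linarith
      · exact ch'.count uv hn1 hsm h2 _ (pow16 ht)
    · exact ⟨0, 0, fun h1 h2 h3 => absurd ⟨h1, h2, h3⟩ hh⟩
  choose n s hns using key
  have hid : Tendsto (fun t : ℝ => t) (𝓝[>] 0) (𝓝 0) := tendsto_nhdsWithin_of_tendsto_nhds tendsto_id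
  have hev : ∀ᶠ t : ℝ in 𝓝[>] 0, 0 < t ∧ t ≤ ts ∧ t ≤ κ / C := by
    have e0 : ∀ᶠ t : ℝ in 𝓝[>] 0, 0 < t := self_mem_nhdsWithin
    have e1 : ∀ᶠ t : ℝ in 𝓝[>] 0, t ≤ ts := nhdsWithin_le_nhds (Iic_mem_nhds uv.ts_pos)
    have e2 : ∀ᶠ t : ℝ in 𝓝[>] 0, t ≤ κ / C :=
      nhdsWithin_le_nhds (Iic_mem_nhds (by positivity))
    filter_upwards [e0, e1, e2] with t h1 h2 h3
    exact ⟨h1, h2, h3⟩
  have hnt : Tendsto (fun t => (n t : ℝ) * t) (𝓝[>] 0) (𝓝 (1 / a0)) := by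
    refine asym (E := fun k => ∑ l ∈ Finset.range k, bb C (2 * C + 1) a0 l) (S0 := S0)
      (D := Cd ts C a0 + a0) ha0 (by positivity) (hev.mono fun t h => h.1) hid
      (bb_sum_tendsto C (2 * C + 1) a0 ha0) ?_ ?_
    · filter_upwards [hev] with t ⟨h1, h2, h3⟩
      exact (hns t h1 h2 h3).2.2.2.1
    · filter_upwards [hev] with t ⟨h1, h2, h3⟩
      exact (hns t h1 h2 h3).2.2.2.2
  -- the bounded part
  obtain ⟨M, hM⟩ : ∃ M, M = max |Real.log σ1| |Real.log σ2| := ⟨_, rfl⟩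
  have hls : Tendsto (fun t => t * Real.log (s t)) (𝓝[>] 0) (𝓝 0) := by
    have h1 : Tendsto (fun t : ℝ => |t| * M) (𝓝[>] 0) (𝓝 0) := by
      have h2 := hid.abs.mul_const M
      simpa using h2
    rw [tendsto_zero_iff_abs_tendsto_zero]
    refine squeeze_zero' (Eventually.of_forall fun t => abs_nonneg _) ?_ h1
    filter_upwards [hev] with t ⟨h2, h3, h4⟩
    obtain ⟨h5, h6, -⟩ := hns t h2 h3 h4
    simp only [Function.comp_apply]
    rw [abs_mul]
    refine mul_le_mul_of_nonneg_left ?_ (abs_nonneg _)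
    have h7 : Real.log σ1 ≤ Real.log (s t) := Real.log_le_log hσ1 h5
    have h8 : Real.log (s t) ≤ Real.log σ2 := Real.log_le_log (lt_of_lt_of_le hσ1 h5) h6
    rw [hM]
    exact abs_le_max_abs_abs h7 h8
  have h1 : Tendsto (fun t => t * Real.log (s t) -
      ((n t : ℝ) * t + k * t) * Real.log 4) (𝓝[>] 0) (𝓝 (0 - (1 / a0 + k * 0) * Real.log 4)) :=
    hls.sub ((hnt.add (hid.const_mul (k : ℝ))).mul_const _)
  have e1 : (0 : ℝ) - (1 / a0 + k * 0) * Real.log 4 = -(2 * Real.log 2 / a0) := by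
    have e2 : Real.log 4 = 2 * Real.log 2 := by
      rw [show (4 : ℝ) = 2 ^ 2 by norm_num, Real.log_pow]
      norm_num
    rw [e2]
    ring
  rw [e1] at h1
  refine h1.congr' ?_
  filter_upwards [hev] with t ⟨h2, h3, h4⟩
  obtain ⟨h5, h6, h7, -⟩ := hns t h2 h3 h4
  have hs0 : 0 < s t := lt_of_lt_of_le hσ1 h5
  rw [h7, Real.log_div hs0.ne' (by positivity), Real.log_pow]
  push_cast
  ring

end

end Pool.Agent.T2H04.HY
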