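import Mathlib
import Pool.Agent.T2H04.HY.AsmA
import Pool.Agent.T2H04.HY.Haar
import Pool.Agent.T2H04.HY.Low

/-!
# Positive definite class functions

The cone of continuous positive definite class functions is closed under products and convolutions
(Riesz-Nagy).
-/

open MeasureTheory Matrix Filter
open scoped Matrix.Norms.Frobenius Topology

namespace Pool.Agent.T2H04.HY

set_option linter.unusedSectionVars false

noncomputable section

variable {G : Type} [Group G] [TopologicalSpace G] [IsTopologicalGroup G] [CompactSpace G]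
  [MeasurableSpace G] [BorelSpace G] (μ : Measure G) [μ.IsHaarMeasure] [IsProbabilityMeasure μ]
  {m : Type} [Fintype m] [DecidableEq m] (L : RD G m)

namespace TenF

open HaarAux

/-- continuous symmetric class functions -/
structure Cf (f : G → ℝ) : Prop where
  cont : Continuous f
  sym : ∀ x, f x⁻¹ = f x
  cls : ∀ x y, f (y * x * y⁻¹) = f x

/-- inner product -/
def ip (φ ψ : G → ℝ) : ℝ := ∫ x, φ x * ψ x ∂μ

theorem ip_comm (φ ψ : G → ℝ) : ip μ φ ψ = ip μ ψ φ := by
  unfold ip
  simp only [mul_comm]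

theorem ip_sub_left {f g h : G → ℝ} (hf : Continuous f) (hg : Continuous g) (hh : Continuous h) :
    ip μ (fun x => f x - g x) h = ip μ f h - ip μ g h := by
  unfold ip
  rw [← integral_sub (integrable_cont μ (by fun_prop)) (integrable_cont μ (by fun_prop))]
  refine integral_congr_ae (Filter.Eventually.of_forall fun y => ?_)
  simp only []
  ring

theorem ip_sub_right {f g h : G → ℝ} (hf : Continuous f) (hg : Continuous g) (hh : Continuous h) :
    ip μ h (fun x => f x - g x) = ip μ h f - ip μ h g := by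
  rw [ip_comm, ip_sub_left μ hf hg hh, ip_comm μ f, ip_comm μ g]

theorem ip_add_right {f g h : G → ℝ} (hf : Continuous f) (hg : Continuous g) (hh : Continuous h) :
    ip μ h (fun x => f x + g x) = ip μ h f + ip μ h g := by
  unfold ip
  rw [← integral_add (integrable_cont μ (by fun_prop)) (integrable_cont μ (by fun_prop))]
  refine integral_congr_ae (Filter.Eventually.of_forall fun y => ?_)
  simp only []
  ring

theorem ip_smul_right (c : ℝ) (f h : G → ℝ) :
    ip μ h (fun x => c * f x) = c * ip μ h f := by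
  unfold ip
  rw [← integral_const_mul]
  refine integral_congr_ae (Filter.Eventually.of_forall fun y => ?_)
  simp only []
  ring

theorem cnv_add_right {f g h : G → ℝ} (hf : Continuous f) (hg : Continuous g)
    (hh : Continuous h) : cnv μ h (fun x => f x + g x) = fun x => cnv μ h f x + cnv μ h g x := by
  funext x
  unfold cnv
  rw [← integral_add (integrable_cont μ (by fun_prop)) (integrable_cont μ (by fun_prop))]
  refine integral_congr_ae (Filter.Eventually.of_forall fun y => ?_)
  simp only []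
  ring

theorem cnv_sub_right {f g h : G → ℝ} (hf : Continuous f) (hg : Continuous g)
    (hh : Continuous h) : cnv μ h (fun x => f x - g x) = fun x => cnv μ h f x - cnv μ h g x := by
  funext x
  unfold cnv
  rw [← integral_sub (integrable_cont μ (by fun_prop)) (integrable_cont μ (by fun_prop))]
  refine integral_congr_ae (Filter.Eventually.of_forall fun y => ?_)
  simp only []
  ring

theorem cnv_add_left {f g h : G → ℝ} (hf : Continuous f) (hg : Continuous g)
    (hh : Continuous h) : cnv μ (fun x => f x + g x) h = fun x => cnv μ f h x + cnv μ g h x := by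
  funext x
  unfold cnv
  rw [← integral_add (integrable_cont μ (by fun_prop)) (integrable_cont μ (by fun_prop))]
  refine integral_congr_ae (Filter.Eventually.of_forall fun y => ?_)
  simp only []
  ring

theorem cnv_sub_left {f g h : G → ℝ} (hf : Continuous f) (hg : Continuous g)
    (hh : Continuous h) : cnv μ (fun x => f x - g x) h = fun x => cnv μ f h x - cnv μ g h x := by
  funext x
  unfold cnv
  rw [← integral_sub (integrable_cont μ (by fun_prop)) (integrable_cont μ (by fun_prop))]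
  refine integral_congr_ae (Filter.Eventually.of_forall fun y => ?_)
  simp only []
  ring

theorem cnv_smul_right (c : ℝ) (f h : G → ℝ) :
    cnv μ h (fun x => c * f x) = fun x => c * cnv μ h f x := by
  funext x
  unfold cnv
  rw [← integral_const_mul]
  refine integral_congr_ae (Filter.Eventually.of_forall fun y => ?_)
  simp only []
  ring

theorem cnv_smul_left (c : ℝ) (f h : G → ℝ) :
    cnv μ (fun x => c * f x) h = fun x => c * cnv μ f h x := by
  funext x
  unfold cnv
  rw [← integral_const_mul]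
  refine integral_congr_ae (Filter.Eventually.of_forall fun y => ?_)
  simp only []
  ring

theorem cnv_comm {f g : G → ℝ} (hg : ∀ x y, g (y * x * y⁻¹) = g x) :
    cnv μ f g = cnv μ g f := by
  have hinv := inv_inv' μ
  funext x
  unfold cnv
  rw [← Low.shl μ (fun y => g y * f (y⁻¹ * x)) x,
    ← integral_inv_eq_self (fun y => g (x * y) * f ((x * y)⁻¹ * x)) μ]
  refine integral_congr_ae (Filter.Eventually.of_forall fun y => ?_)
  simp only []
  have h1 : (x * y⁻¹)⁻¹ * x = y := by group
  have h2 : g (x * y⁻¹) = g (y⁻¹ * x) := by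
    rw [← hg (x * y⁻¹) y⁻¹]
    congr 1
    group
  rw [h1, h2, mul_comm]

theorem cnv_assoc {a b c : G → ℝ} (ha : Continuous a) (hb : Continuous b) (hc : Continuous c) :
    cnv μ (cnv μ a b) c = cnv μ a (cnv μ b c) := by
  funext x
  unfold cnv
  have h1 : ∀ y, (∫ z, a z * b (z⁻¹ * y) ∂μ) * c (y⁻¹ * x) =
      ∫ z, a z * b (z⁻¹ * y) * c (y⁻¹ * x) ∂μ := fun y => by rw [integral_mul_const]
  simp only [h1]
  rw [Low.swap μ (F := fun y z => a z * b (z⁻¹ * y) * c (y⁻¹ * x))
    (by unfold Function.uncurry; fun_prop)]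
  refine integral_congr_ae (Filter.Eventually.of_forall fun z => ?_)
  simp only []
  rw [← Low.shl μ (fun y => a z * b (z⁻¹ * y) * c (y⁻¹ * x)) z, ← integral_const_mul]
  refine integral_congr_ae (Filter.Eventually.of_forall fun y => ?_)
  simp only []
  have h2 : z⁻¹ * (z * y) = y := by group
  have h3 : (z * y)⁻¹ * x = y⁻¹ * (z⁻¹ * x) := by group
  rw [h2, h3]
  ring

theorem sa {f φ ψ : G → ℝ} (hs : ∀ x, f x⁻¹ = f x) (hf : Continuous f) (hφ : Continuous φ)
    (hψ : Continuous ψ) : ip μ ψ (cnv μ φ f) = ip μ φ (cnv μ ψ f) := by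
  unfold ip cnv
  have h1 : ∀ (a b : G → ℝ) x, a x * ∫ y, b y * f (y⁻¹ * x) ∂μ =
      ∫ y, a x * (b y * f (y⁻¹ * x)) ∂μ := fun a b x => by rw [integral_const_mul]
  simp only [h1]
  rw [Low.swap μ (F := fun x y => ψ x * (φ y * f (y⁻¹ * x))) (by unfold Function.uncurry; fun_prop)]
  refine integral_congr_ae (Filter.Eventually.of_forall fun x => ?_)
  refine integral_congr_ae (Filter.Eventually.of_forall fun y => ?_)
  simp only []
  have h2 : f (x⁻¹ * y) = f (y⁻¹ * x) := by
    rw [← hs (x⁻¹ * y)]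
    congr 1
    group
  rw [h2]
  ring

theorem cf_cnv {f g : G → ℝ} (hf : Cf f) (hg : Cf g) : Cf (cnv μ f g) := by
  refine ⟨continuous_cnv μ hf.cont hg.cont, fun x => ?_, Asm.cnv_cls μ hf.cls hg.cls⟩
  have hinv := inv_inv' μ
  rw [congrFun (cnv_comm μ (f := f) hg.cls) x⁻¹]
  unfold cnv
  rw [← Low.shl μ (fun y => g y * f (y⁻¹ * x⁻¹)) x⁻¹]
  refine integral_congr_ae (Filter.Eventually.of_forall fun y => ?_)
  simp only []
  have h1 : (x⁻¹ * y)⁻¹ * x⁻¹ = y⁻¹ := by group
  have h2 : g (x⁻¹ * y) = g (y⁻¹ * x) := by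
    rw [← hg.sym (x⁻¹ * y)]
    congr 1
    group
  rw [h1, h2, hf.sym y, mul_comm]

theorem Cf.add {f g : G → ℝ} (hf : Cf f) (hg : Cf g) : Cf fun x => f x + g x :=
  ⟨hf.cont.add hg.cont, fun x => by simp only [hf.sym, hg.sym], fun x y => by
    simp only [hf.cls, hg.cls]⟩

theorem Cf.sub {f g : G → ℝ} (hf : Cf f) (hg : Cf g) : Cf fun x => f x - g x :=
  ⟨hf.cont.sub hg.cont, fun x => by simp only [hf.sym, hg.sym], fun x y => by
    simp only [hf.cls, hg.cls]⟩

theorem Cf.mul {f g : G → ℝ} (hf : Cf f) (hg : Cf g) : Cf fun x => f x * g x :=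
  ⟨hf.cont.mul hg.cont, fun x => by simp only [hf.sym, hg.sym], fun x y => by
    simp only [hf.cls, hg.cls]⟩

theorem cf_const (c : ℝ) : Cf fun _ : G => c :=
  ⟨continuous_const, fun _ => rfl, fun _ _ => rfl⟩

/-- positive definite class functions -/
structure Pc (f : G → ℝ) : Prop extends Cf f where
  pos : ∀ φ : G → ℝ, Continuous φ → 0 ≤ ip μ φ (cnv μ φ f)

variable {μ}

theorem ip_cnv {f : G → ℝ} (hs : ∀ x, f x⁻¹ = f x) (φ : G → ℝ) :
    ip μ φ (cnv μ φ f) = ∫ x, ∫ y, f (x⁻¹ * y) * (φ x * φ y) ∂μ ∂μ := by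
  unfold ip cnv
  refine integral_congr_ae (Filter.Eventually.of_forall fun x => ?_)
  simp only []
  rw [← integral_const_mul]
  refine integral_congr_ae (Filter.Eventually.of_forall fun y => ?_)
  simp only []
  have h2 : f (x⁻¹ * y) = f (y⁻¹ * x) := by
    rw [← hs (x⁻¹ * y)]
    congr 1
    group
  rw [h2]
  ring

theorem Pc.kpos {f : G → ℝ} (hf : Pc μ f) : Low.Pos μ fun x y => f (x⁻¹ * y) := by
  intro φ hφ
  rw [← ip_cnv hf.sym]
  exact hf.pos φ hφ

theorem pc_of_kpos {f : G → ℝ} (hf : Cf f) (h : Low.Pos μ fun x y => f (x⁻¹ * y)) : Pc μ f :=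
  ⟨hf, fun φ hφ => by rw [ip_cnv hf.sym]; exact h φ hφ⟩

theorem ip_self_nonneg (φ : G → ℝ) : 0 ≤ ip μ φ φ := integral_nonneg fun _ => mul_self_nonneg _

/-- a convolution square is positive definite -/
theorem pc_sq {f : G → ℝ} (hf : Cf f) : Pc μ (cnv μ f f) := by
  refine ⟨cf_cnv μ hf hf, fun φ hφ => ?_⟩
  rw [← cnv_assoc μ hφ hf.cont hf.cont, sa μ hf.sym hf.cont (continuous_cnv μ hφ hf.cont) hφ]
  exact ip_self_nonneg _

theorem Pc.add {f g : G → ℝ} (hf : Pc μ f) (hg : Pc μ g) : Pc μ fun x => f x + g x := by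
  refine ⟨hf.toCf.add hg.toCf, fun φ hφ => ?_⟩
  rw [cnv_add_right μ hf.cont hg.cont hφ, ip_add_right μ (continuous_cnv μ hφ hf.cont)
    (continuous_cnv μ hφ hg.cont) hφ]
  exact add_nonneg (hf.pos φ hφ) (hg.pos φ hφ)

theorem Pc.smul {f : G → ℝ} (hf : Pc μ f) {c : ℝ} (hc : 0 ≤ c) : Pc μ fun x => c * f x := by
  refine ⟨(cf_const c).mul hf.toCf, fun φ hφ => ?_⟩
  rw [cnv_smul_right, ip_smul_right]
  exact mul_nonneg hc (hf.pos φ hφ)

theorem pc_const {c : ℝ} (hc : 0 ≤ c) : Pc μ fun _ : G => c := by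
  refine ⟨cf_const c, fun φ hφ => ?_⟩
  have h1 : cnv μ φ (fun _ => c) = fun _ => c * ∫ y, φ y ∂μ := by
    funext x
    unfold cnv
    rw [integral_mul_const, mul_comm]
  rw [h1]
  unfold ip
  rw [integral_mul_const]
  have : (∫ y, φ y ∂μ) * (c * ∫ y, φ y ∂μ) = c * (∫ y, φ y ∂μ) ^ 2 := by ring
  rw [this]
  positivity

theorem Pc.int_nonneg {f : G → ℝ} (hf : Pc μ f) : 0 ≤ ∫ x, f x ∂μ := by
  have h1 := hf.pos (fun _ => 1) continuous_const
  have h2 : cnv μ (fun _ => 1) f = fun _ => ∫ y, f y ∂μ := by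
    rw [← cnv_comm μ (f := f) (g := fun _ => 1) fun _ _ => rfl]
    funext x
    unfold cnv
    simp only [mul_one]
  rw [h2] at h1
  unfold ip at h1
  simpa using h1

/-- subtracting the mean -/
theorem Pc.sub_mean {f : G → ℝ} (hf : Pc μ f) : Pc μ fun x => f x - ∫ y, f y ∂μ := by
  refine ⟨hf.toCf.sub (cf_const _), fun φ hφ => ?_⟩
  obtain ⟨M, hM⟩ : ∃ M, M = ∫ y, f y ∂μ := ⟨_, rfl⟩
  obtain ⟨p, hp⟩ : ∃ p, p = ∫ y, φ y ∂μ := ⟨_, rfl⟩
  rw [← hM]
  have h1 : ∀ c : ℝ, cnv μ φ (fun _ => c) = fun _ => c * p := by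
    intro c
    funext x
    unfold cnv
    rw [integral_mul_const, mul_comm, hp]
  have h2 : ∀ c : ℝ, cnv μ (fun _ => c) f = fun _ => c * M := by
    intro c
    rw [← cnv_comm μ (f := f) (g := fun _ => c) fun _ _ => rfl]
    funext x
    unfold cnv
    rw [integral_mul_const, mul_comm, hM]
  have hc := continuous_cnv μ hφ hf.cont
  have h3 := hf.pos (fun x => φ x - p) (hφ.sub continuous_const)
  rw [cnv_sub_left μ hφ continuous_const hf.cont, h2] at h3
  rw [ip_sub_left μ (h := fun x => cnv μ φ f x - p * M) hφ continuous_const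
    (hc.sub continuous_const),
    ip_sub_right μ hc continuous_const hφ, ip_sub_right μ hc continuous_const continuous_const] at h3
  rw [cnv_sub_right μ hf.cont continuous_const hφ, h1, ip_sub_right μ hc continuous_const hφ]
  have e1 : ip μ φ (fun _ => p * M) = p * (p * M) := by
    unfold ip
    rw [integral_mul_const, ← hp]
  have e2 : ip μ φ (fun _ => M * p) = p * (M * p) := by
    unfold ip
    rw [integral_mul_const, ← hp]
  have e3 : ip μ (fun _ => p) (cnv μ φ f) = p * (p * M) := by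
    unfold ip
    rw [integral_const_mul, Low.int_cnv μ hφ hf.cont, ← hp, ← hM]
  have e4 : ip μ (fun _ => p) (fun _ : G => p * M) = p * (p * M) := by
    unfold ip
    rw [integral_const, probReal_univ, one_smul]
  rw [e1, e3, e4] at h3
  rw [e2]
  linarith

/-- a positive definite function is nonnegative at the identity -/
theorem pc_one_nonneg (L : RD G m) {f : G → ℝ} (hf : Pc μ f) : 0 ≤ f 1 := by
  by_contra hcon
  push Not at hcon
  -- a small ball where `f` is negative
  have hdc := dis_cont L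
  have hopen : IsOpen {x : G | f x < 0} := isOpen_lt hf.cont continuous_const
  obtain ⟨δ, hδ, hsub⟩ : ∃ δ : ℝ, 0 < δ ∧ ∀ x : G, dis L x < δ → f x < 0 := by
    rcases ({x : G | f x < 0}ᶜ).eq_empty_or_nonempty with he | hne
    · refine ⟨1, one_pos, fun x _ => ?_⟩
      by_contra h
      have : x ∈ ({x : G | f x < 0}ᶜ) := h
      rw [he] at this
      exact this
    · obtain ⟨x0, hx0, hmin⟩ := hopen.isClosed_compl.isCompact.exists_isMinOn hne
        hdc.continuousOn
      refine ⟨dis L x0, ?_, fun x hx => ?_⟩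
      · rcases (dis_nonneg L x0).eq_or_lt with h | h
        · exfalso
          have h1 : L.rho x0 = 1 := by
            have : ‖L.rho x0 - 1‖ = 0 := h.symm
            exact sub_eq_zero.1 (norm_eq_zero.1 this)
          have h2 : x0 = 1 := L.inj (by rw [h1, map_one])
          rw [h2] at hx0
          exact hx0 hcon
        · exact h
      · by_contra h
        have h3 : dis L x0 ≤ dis L x := hmin (show x ∈ ({x : G | f x < 0}ᶜ) from h)
        linarith
  obtain ⟨φ, hφ⟩ : ∃ φ : G → ℝ, φ = fun x => max (δ / 2 - dis L x) 0 := ⟨_, rfl⟩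
  have hφc : Continuous φ := by rw [hφ]; fun_prop
  have hφ0 : ∀ x, 0 ≤ φ x := fun x => by rw [hφ]; exact le_max_right _ _
  have hφ1 : 0 < φ 1 := by
    rw [hφ]
    simp only [dis_one]
    exact lt_max_of_lt_left (by linarith)
  have hφs : ∀ x, 0 < φ x → dis L x < δ / 2 := by
    intro x hx
    rw [hφ] at hx
    by_contra h
    push Not at h
    simp only [] at hx
    rw [max_eq_right (by linarith)] at hx
    exact lt_irrefl _ hx
  have hneg : ∀ x y, f (x⁻¹ * y) * (φ x * φ y) ≤ 0 := by
    intro x y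
    rcases (hφ0 x).eq_or_lt with h | h
    · rw [← h]; simp
    rcases (hφ0 y).eq_or_lt with h' | h'
    · rw [← h']; simp
    have h1 := hφs x h
    have h2 := hφs y h'
    have h3 : dis L (x⁻¹ * y) < δ := by
      rw [dis_inv_mul]
      have : L.rho y - L.rho x = (L.rho y - 1) - (L.rho x - 1) := by abel
      rw [this]
      refine (norm_sub_le _ _).trans_lt ?_
      unfold dis at h1 h2
      linarith
    exact mul_nonpos_of_nonpos_of_nonneg (hsub _ h3).le (by positivity)
  have hpos := hf.kpos φ hφc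
  have hfc := hf.cont
  have hlt : 0 < ∫ x, ∫ y, -(f (x⁻¹ * y) * (φ x * φ y)) ∂μ ∂μ := by
    refine Continuous.integral_pos_of_hasCompactSupport_nonneg_nonzero (x := 1)
      (Low.cont_param μ (F := fun x y => -(f (x⁻¹ * y) * (φ x * φ y)))
        (by unfold Function.uncurry; fun_prop))
      (HasCompactSupport.of_compactSpace _)
      (fun x => integral_nonneg fun y => by have := hneg x y; simp only [Pi.zero_apply]; linarith)
      (ne_of_gt ?_)
    refine Continuous.integral_pos_of_hasCompactSupport_nonneg_nonzero (x := 1)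
      (by fun_prop) (HasCompactSupport.of_compactSpace _)
      (fun y => by have := hneg 1 y; simp only [Pi.zero_apply]; linarith) (ne_of_gt ?_)
    simp only [inv_one, one_mul]
    have : f 1 * (φ 1 * φ 1) < 0 := mul_neg_of_neg_of_pos hcon (by positivity)
    linarith
  simp only [integral_neg] at hlt
  linarith

/-- one step of the Riesz-Nagy iteration -/
theorem rn_step {X : G → ℝ} (hX : Cf X) (h0 : ∀ φ : G → ℝ, Continuous φ → 0 ≤ ip μ φ (cnv μ φ X))
    (h1 : ∀ φ : G → ℝ, Continuous φ → ip μ φ (cnv μ φ X) ≤ ip μ φ φ) :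
    (∀ φ : G → ℝ, Continuous φ → 0 ≤ ip μ φ (cnv μ φ fun x => X x - cnv μ X X x)) ∧
    ∀ φ : G → ℝ, Continuous φ → ip μ φ (cnv μ φ fun x => X x - cnv μ X X x) ≤ ip μ φ φ := by
  have hXX := continuous_cnv μ hX.cont hX.cont
  have key : ∀ φ : G → ℝ, Continuous φ → ip μ φ (cnv μ φ fun x => X x - cnv μ X X x) =
      ip μ φ (cnv μ φ X) - ip μ (cnv μ φ X) (cnv μ φ X) := by
    intro φ hφ
    have hc := continuous_cnv μ hφ hX.cont
    rw [cnv_sub_right μ hX.cont hXX hφ, ip_sub_right μ hc (continuous_cnv μ hφ hXX) hφ,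
      ← cnv_assoc μ hφ hX.cont hX.cont, sa μ hX.sym hX.cont hc hφ]
  refine ⟨fun φ hφ => ?_, fun φ hφ => ?_⟩
  · have hc := continuous_cnv μ hφ hX.cont
    have hcc := continuous_cnv μ hc hX.cont
    have h2 := h0 (fun x => φ x - cnv μ φ X x) (hφ.sub hc)
    rw [cnv_sub_left μ hφ hc hX.cont, ip_sub_left μ
      (h := fun x => cnv μ φ X x - cnv μ (cnv μ φ X) X x) hφ hc (hc.sub hcc),
      ip_sub_right μ hc hcc hφ, ip_sub_right μ hc hcc hc, sa μ hX.sym hX.cont hc hφ] at h2
    have h3 := h1 _ hc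
    rw [key φ hφ]
    linarith
  · rw [key φ hφ]
    have := ip_self_nonneg (μ := μ) (cnv μ φ X)
    linarith [h1 φ hφ]

/-- the Riesz-Nagy sequence -/
def rnX (μ : Measure G) (g : G → ℝ) : ℕ → G → ℝ
  | 0 => g
  | n + 1 => fun x => rnX μ g n x - cnv μ (rnX μ g n) (rnX μ g n) x

theorem rn_cf {g : G → ℝ} (hg : Cf g) (n : ℕ) : Cf (rnX μ g n) := by
  induction n with
  | zero => exact hg
  | succ n ih => exact ih.sub (cf_cnv μ ih ih)

theorem rn_sum (g : G → ℝ) (N : ℕ) (x : G) :
    g x = ∑ n ∈ Finset.range N, cnv μ (rnX μ g n) (rnX μ g n) x + rnX μ g N x := by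
  induction N with
  | zero => simp [rnX]
  | succ N ih =>
    rw [Finset.sum_range_succ, ih]
    simp only [rnX]
    ring

theorem cs_one {φ : G → ℝ} (hφ : Continuous φ) : (∫ x, |φ x| ∂μ) ^ 2 ≤ ip μ φ φ := by
  obtain ⟨a, ha⟩ : ∃ a, a = ∫ x, |φ x| ∂μ := ⟨_, rfl⟩
  have h1 : 0 ≤ ∫ x, (|φ x| - a) ^ 2 ∂μ := integral_nonneg fun x => sq_nonneg _
  have e : ∀ x, (|φ x| - a) ^ 2 = φ x * φ x - 2 * a * |φ x| + a ^ 2 := fun x => by
    have := sq_abs (φ x)
    nlinarith
  simp only [e] at h1
  rw [integral_add (integrable_cont μ (by fun_prop)) (integrable_cont μ continuous_const),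
    integral_sub (integrable_cont μ (by fun_prop)) (integrable_cont μ (by fun_prop)),
    integral_const_mul, integral_const, probReal_univ, one_smul, ← ha] at h1
  rw [← ha]
  unfold ip
  nlinarith

theorem rn_pos {g : G → ℝ} (hg : Pc μ g) (hb : ∀ x, |g x| ≤ 1) (n : ℕ) :
    (∀ φ : G → ℝ, Continuous φ → 0 ≤ ip μ φ (cnv μ φ (rnX μ g n))) ∧
    ∀ φ : G → ℝ, Continuous φ → ip μ φ (cnv μ φ (rnX μ g n)) ≤ ip μ φ φ := by
  induction n with
  | zero =>
    refine ⟨hg.pos, fun φ hφ => ?_⟩
    have hgc := hg.cont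
    show ip μ φ (cnv μ φ g) ≤ _
    rw [ip_cnv hg.sym]
    have h1 : ∀ x, ∫ y, g (x⁻¹ * y) * (φ x * φ y) ∂μ ≤ |φ x| * ∫ y, |φ y| ∂μ := by
      intro x
      rw [← integral_const_mul]
      refine integral_mono (integrable_cont μ (by fun_prop)) (integrable_cont μ (by fun_prop))
        fun y => ?_
      calc g (x⁻¹ * y) * (φ x * φ y) ≤ |g (x⁻¹ * y) * (φ x * φ y)| := le_abs_self _
        _ = |g (x⁻¹ * y)| * (|φ x| * |φ y|) := by rw [abs_mul, abs_mul]
        _ ≤ 1 * (|φ x| * |φ y|) := mul_le_mul_of_nonneg_right (hb _) (by positivity)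
        _ = _ := one_mul _
    have h2 : ∫ x, ∫ y, g (x⁻¹ * y) * (φ x * φ y) ∂μ ∂μ ≤ ∫ x, |φ x| * ∫ y, |φ y| ∂μ ∂μ :=
      integral_mono (integrable_cont μ (Low.cont_param μ (F := fun x y =>
        g (x⁻¹ * y) * (φ x * φ y)) (by unfold Function.uncurry; fun_prop)))
        (integrable_cont μ (by fun_prop)) h1
    rw [integral_mul_const] at h2
    have h3 := cs_one (μ := μ) hφ
    nlinarith
  | succ n ih => exact rn_step (rn_cf hg.toCf n) ih.1 ih.2

theorem cnv_self_one {X : G → ℝ} (hX : ∀ x, X x⁻¹ = X x) : cnv μ X X 1 = ip μ X X := by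
  unfold cnv ip
  refine integral_congr_ae (Filter.Eventually.of_forall fun y => ?_)
  simp only [mul_one, hX]

theorem rn_lim (L : RD G m) {g : G → ℝ} (hg : Pc μ g) (hb : ∀ x, |g x| ≤ 1) :
    Tendsto (fun N => ip μ (rnX μ g N) (rnX μ g N)) atTop (𝓝 0) := by
  have h1 : ∀ N, ∑ n ∈ Finset.range N, ip μ (rnX μ g n) (rnX μ g n) ≤ g 1 := by
    intro N
    have h2 := rn_sum (μ := μ) g N 1
    have h3 : 0 ≤ rnX μ g N 1 :=
      pc_one_nonneg (μ := μ) L ⟨rn_cf hg.toCf N, (rn_pos hg hb N).1⟩
    have h4 : ∀ n, cnv μ (rnX μ g n) (rnX μ g n) 1 = ip μ (rnX μ g n) (rnX μ g n) := fun n =>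
      cnv_self_one (rn_cf hg.toCf n).sym
    simp only [h4] at h2
    linarith
  exact (summable_of_sum_range_le (fun n => ip_self_nonneg _) h1).tendsto_atTop_zero

theorem abs_lim (L : RD G m) {g : G → ℝ} (hg : Pc μ g) (hb : ∀ x, |g x| ≤ 1) :
    Tendsto (fun N => ∫ x, |rnX μ g N x| ∂μ) atTop (𝓝 0) := by
  have h1 : Tendsto (fun N => Real.sqrt (ip μ (rnX μ g N) (rnX μ g N))) atTop (𝓝 0) := by
    have := (Real.continuous_sqrt.tendsto 0).comp (rn_lim L hg hb)
    rwa [Real.sqrt_zero] at this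
  refine squeeze_zero (fun N => integral_nonneg fun x => abs_nonneg _) (fun N => ?_) h1
  exact Real.le_sqrt_of_sq_le (cs_one (rn_cf hg.toCf N).cont)

theorem exists_bd {f : G → ℝ} (hf : Continuous f) : ∃ B : ℝ, 1 ≤ B ∧ ∀ x, |f x| ≤ B := by
  obtain ⟨B, hB⟩ := isCompact_univ.exists_bound_of_continuousOn hf.continuousOn
  exact ⟨max B 1, le_max_right _ _, fun x => (hB x (Set.mem_univ x)).trans (le_max_left _ _)⟩

/-- **products of positive definite class functions are positive definite** -/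
theorem Pc.mul (L : RD G m) {f g : G → ℝ} (hf : Pc μ f) (hg : Pc μ g) :
    Pc μ fun x => f x * g x := by
  -- normalised case
  have key : ∀ g : G → ℝ, Pc μ g → (∀ x, |g x| ≤ 1) → Pc μ fun x => f x * g x := by
    intro g hg hb
    refine pc_of_kpos (hf.toCf.mul hg.toCf) fun φ hφ => ?_
    have hfc := hf.cont
    obtain ⟨B, hB1, hB⟩ := exists_bd hfc
    obtain ⟨P, hP1, hP⟩ := exists_bd hφ
    have hXc : ∀ n, Continuous (rnX μ g n) := fun n => (rn_cf hg.toCf n).cont
    have hXXc : ∀ n, Continuous (cnv μ (rnX μ g n) (rnX μ g n)) := fun n =>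
      continuous_cnv μ (hXc n) (hXc n)
    have h1 : ∀ N, -(B * (P * P) * ∫ x, |rnX μ g N x| ∂μ) ≤
        ∫ x, ∫ y, f (x⁻¹ * y) * g (x⁻¹ * y) * (φ x * φ y) ∂μ ∂μ := by
      intro N
      have hXN := hXc N
      have e1 : ∀ x, ∫ y, f (x⁻¹ * y) * g (x⁻¹ * y) * (φ x * φ y) ∂μ =
          ∑ n ∈ Finset.range N, (∫ y, cnv μ (rnX μ g n) (rnX μ g n) (x⁻¹ * y) * f (x⁻¹ * y) *
            (φ x * φ y) ∂μ) + ∫ y, f (x⁻¹ * y) * rnX μ g N (x⁻¹ * y) * (φ x * φ y) ∂μ := by
        intro x
        rw [← integral_finsetSum _ fun i _ => integrable_cont μ (by have := hXXc i; fun_prop),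
          ← integral_add (integrable_cont μ (continuous_finsetSum _ fun i _ => by
            have := hXXc i; fun_prop)) (integrable_cont μ (by fun_prop))]
        refine integral_congr_ae (Filter.Eventually.of_forall fun y => ?_)
        simp only []
        rw [rn_sum (μ := μ) g N (x⁻¹ * y), mul_add, add_mul, Finset.mul_sum, Finset.sum_mul]
        congr 1
        exact Finset.sum_congr rfl fun i _ => by ring
      have c1 : ∀ i, Continuous fun x => ∫ y, cnv μ (rnX μ g i) (rnX μ g i) (x⁻¹ * y) *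
          f (x⁻¹ * y) * (φ x * φ y) ∂μ := fun i => by
        have := hXXc i
        exact Low.cont_param μ (F := fun x y => cnv μ (rnX μ g i) (rnX μ g i) (x⁻¹ * y) *
          f (x⁻¹ * y) * (φ x * φ y)) (by unfold Function.uncurry; fun_prop)
      have c2 : Continuous fun x => ∫ y, f (x⁻¹ * y) * rnX μ g N (x⁻¹ * y) * (φ x * φ y) ∂μ :=
        Low.cont_param μ (F := fun x y => f (x⁻¹ * y) * rnX μ g N (x⁻¹ * y) * (φ x * φ y))
          (by unfold Function.uncurry; fun_prop)
      simp only [e1]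
      rw [integral_add (integrable_cont μ (continuous_finsetSum _ fun i _ => c1 i))
        (integrable_cont μ c2), integral_finsetSum _ fun i _ => integrable_cont μ (c1 i)]
      have h2 : 0 ≤ ∑ n ∈ Finset.range N, ∫ x, ∫ y, cnv μ (rnX μ g n) (rnX μ g n) (x⁻¹ * y) *
          f (x⁻¹ * y) * (φ x * φ y) ∂μ ∂μ := by
        refine Finset.sum_nonneg fun n _ => ?_
        exact Low.pos_mul μ (hXc n) (rn_cf hg.toCf n).sym
          (K := fun x y => f (x⁻¹ * y)) (by unfold Function.uncurry; fun_prop) hf.kpos φ hφ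
      have h3 : ∀ x, -(B * (P * P) * ∫ x, |rnX μ g N x| ∂μ) ≤
          ∫ y, f (x⁻¹ * y) * rnX μ g N (x⁻¹ * y) * (φ x * φ y) ∂μ := by
        intro x
        rw [← Low.shl μ (fun y => |rnX μ g N y|) x⁻¹, ← integral_const_mul, ← integral_neg]
        refine integral_mono (integrable_cont μ (by fun_prop)) (integrable_cont μ (by fun_prop))
          fun y => ?_
        have h4 : |f (x⁻¹ * y) * rnX μ g N (x⁻¹ * y) * (φ x * φ y)| ≤
            B * (P * P) * |rnX μ g N (x⁻¹ * y)| := by
          rw [abs_mul, abs_mul, abs_mul]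
          calc |f (x⁻¹ * y)| * |rnX μ g N (x⁻¹ * y)| * (|φ x| * |φ y|)
              ≤ B * |rnX μ g N (x⁻¹ * y)| * (P * P) := by
                have := hB (x⁻¹ * y)
                have := hP x
                have := hP y
                gcongr
            _ = _ := by ring
        have h5 := neg_abs_le (f (x⁻¹ * y) * rnX μ g N (x⁻¹ * y) * (φ x * φ y))
        simp only []
        linarith
      have h6 := integral_mono (μ := μ) (integrable_cont μ continuous_const)
        (integrable_cont μ c2) h3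
      rw [integral_const, probReal_univ, one_smul] at h6
      linarith
    have h2 : Tendsto (fun N => -(B * (P * P) * ∫ x, |rnX μ g N x| ∂μ)) atTop (𝓝 0) := by
      have := ((abs_lim L hg hb).const_mul (B * (P * P))).neg
      simpa using this
    exact le_of_tendsto' h2 h1
  obtain ⟨B, hB1, hB⟩ := exists_bd hg.cont
  have h1 := (key (fun x => B⁻¹ * g x) (hg.smul (by positivity)) fun x => by
    rw [abs_mul, abs_of_pos (by positivity : 0 < B⁻¹), inv_mul_le_iff₀ (by positivity), mul_one]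
    exact hB x).smul (c := B) (by positivity)
  refine (funext fun x => ?_ : (fun x => B * (f x * (B⁻¹ * g x))) = fun x => f x * g x) ▸ h1
  field_simp

/-- **convolutions of positive definite class functions are positive definite** -/
theorem Pc.cnv (L : RD G m) {f g : G → ℝ} (hf : Pc μ f) (hg : Pc μ g) : Pc μ (HY.cnv μ f g) := by
  have key : ∀ g : G → ℝ, Pc μ g → (∀ x, |g x| ≤ 1) → Pc μ (HY.cnv μ f g) := by
    intro g hg hb
    refine ⟨cf_cnv μ hf.toCf hg.toCf, fun φ hφ => ?_⟩
    have hfc := hf.cont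
    obtain ⟨B, hB1, hB⟩ := exists_bd hfc
    obtain ⟨P, hP1, hP⟩ := exists_bd hφ
    have hXc : ∀ n, Continuous (rnX μ g n) := fun n => (rn_cf hg.toCf n).cont
    have hφf := continuous_cnv μ hφ hfc
    have hB' : ∀ x, |HY.cnv μ φ f x| ≤ P * B := by
      intro x
      have h2 := norm_integral_le_of_norm_le_const (μ := μ)
        (f := fun y => φ y * f (y⁻¹ * x)) (C := P * B)
        (Filter.Eventually.of_forall fun y => by
          rw [Real.norm_eq_abs, abs_mul]
          have := hP y
          have := hB (y⁻¹ * x)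
          gcongr)
      rwa [probReal_univ, mul_one] at h2
    have h1 : ∀ N, -(P * (P * B) * ∫ x, |rnX μ g N x| ∂μ) ≤ ip μ φ (HY.cnv μ φ (HY.cnv μ f g)) := by
      intro N
      have hXN := hXc N
      rw [← cnv_assoc μ hφ hfc hg.cont]
      -- expansion
      have e1 : ∀ M, ip μ φ (HY.cnv μ (HY.cnv μ φ f) g) =
          ∑ n ∈ Finset.range M, ip μ φ (HY.cnv μ (HY.cnv μ φ f)
            (HY.cnv μ (rnX μ g n) (rnX μ g n))) +
          ip μ φ (HY.cnv μ (HY.cnv μ φ f) (rnX μ g M)) := by
        intro M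
        induction M with
        | zero => simp [rnX]
        | succ M ih =>
          have hM := hXc M
          have hMM := continuous_cnv μ hM hM
          rw [Finset.sum_range_succ, ih]
          have e2 : rnX μ g (M + 1) = fun x => rnX μ g M x - HY.cnv μ (rnX μ g M) (rnX μ g M) x :=
            rfl
          rw [e2, cnv_sub_right μ hM hMM hφf, ip_sub_right μ (continuous_cnv μ hφf hM)
            (continuous_cnv μ hφf hMM) hφ]
          ring
      rw [e1 N]
      have h2 : 0 ≤ ∑ n ∈ Finset.range N, ip μ φ (HY.cnv μ (HY.cnv μ φ f)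
            (HY.cnv μ (rnX μ g n) (rnX μ g n))) := by
        refine Finset.sum_nonneg fun n _ => ?_
        have hX := rn_cf (μ := μ) hg.toCf n
        have hc1 := continuous_cnv μ hφ hX.cont
        have e3 : HY.cnv μ (HY.cnv μ φ f) (HY.cnv μ (rnX μ g n) (rnX μ g n)) =
            HY.cnv μ (HY.cnv μ (HY.cnv μ φ (rnX μ g n)) f) (rnX μ g n) := by
          rw [← cnv_assoc μ hφf hX.cont hX.cont, cnv_assoc μ hφ hfc hX.cont,
            cnv_comm μ (f := f) (g := rnX μ g n) hX.cls, ← cnv_assoc μ hφ hX.cont hfc]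
        rw [e3, sa μ hX.sym hX.cont (continuous_cnv μ hc1 hfc) hφ, ip_comm]
        exact hf.pos _ hc1
      have h3 : -(P * (P * B) * ∫ x, |rnX μ g N x| ∂μ) ≤
          ip μ φ (HY.cnv μ (HY.cnv μ φ f) (rnX μ g N)) := by
        have h4 : ∀ x, |HY.cnv μ (HY.cnv μ φ f) (rnX μ g N) x| ≤
            P * B * ∫ x, |rnX μ g N x| ∂μ := by
          intro x
          rw [cnv_comm μ (rn_cf hg.toCf N).cls, ← integral_const_mul]
          refine (abs_integral_le_integral_abs).trans (integral_mono
            (integrable_cont μ (by fun_prop)) (integrable_cont μ (by fun_prop)) fun y => ?_)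
          simp only []
          rw [abs_mul, mul_comm]
          exact mul_le_mul_of_nonneg_right (hB' _) (abs_nonneg _)
        have h5 : |ip μ φ (HY.cnv μ (HY.cnv μ φ f) (rnX μ g N))| ≤
            P * (P * B * ∫ x, |rnX μ g N x| ∂μ) := by
          have h6 := norm_integral_le_of_norm_le_const (μ := μ)
            (f := fun y => φ y * HY.cnv μ (HY.cnv μ φ f) (rnX μ g N) y)
            (C := P * (P * B * ∫ x, |rnX μ g N x| ∂μ))
            (Filter.Eventually.of_forall fun y => by
              rw [Real.norm_eq_abs, abs_mul]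
              have := hP y
              have := h4 y
              gcongr)
          rwa [probReal_univ, mul_one] at h6
        have := (abs_le.1 h5).1
        linarith
      linarith
    have h2 : Tendsto (fun N => -(P * (P * B) * ∫ x, |rnX μ g N x| ∂μ)) atTop (𝓝 0) := by
      have := ((abs_lim L hg hb).const_mul (P * (P * B))).neg
      simpa using this
    exact le_of_tendsto' h2 h1
  obtain ⟨B, hB1, hB⟩ := exists_bd hg.cont
  have h1 := (key (fun x => B⁻¹ * g x) (hg.smul (by positivity)) fun x => by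
    rw [abs_mul, abs_of_pos (by positivity : 0 < B⁻¹), inv_mul_le_iff₀ (by positivity), mul_one]
    exact hB x).smul (c := B) (by positivity)
  rw [cnv_smul_right] at h1
  refine (funext fun x => ?_ : (fun x => B * (B⁻¹ * HY.cnv μ f g x)) = HY.cnv μ f g) ▸ h1
  field_simp

end TenF

end

end Pool.Agent.T2H04.HY
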