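import Mathlib
import Pool.Agent.T2H04.HY.TenP
import Pool.Agent.T2H04.HY.Tens

/-!
# Comparison of Wilson loops

The iterates of the renormalisation group map are compared with polynomials whose coefficients are
positive definite; the Wilson loop is logarithmically convex along such polynomials.
-/

open MeasureTheory Matrix Filter
open scoped Matrix.Norms.Frobenius Topology

namespace Pool.Agent.T2H04.HY

set_option linter.unusedSectionVars false

noncomputable section

variable {G : Type} [Group G] [TopologicalSpace G] [IsTopologicalGroup G] [CompactSpace G]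
  [MeasurableSpace G] [BorelSpace G] (μ : Measure G) [μ.IsHaarMeasure] [IsProbabilityMeasure μ]
  {m : Type} [Fintype m] [DecidableEq m] (L : RD G m)

namespace TenF

/-- the Wilson functional -/
def wx (g : G → ℝ) : ℝ := ∫ y, (trace (L.rho y)).re * g y ∂μ

variable {μ}

theorem Pc.congr {f g : G → ℝ} (h : Pc μ f) (e : ∀ x, f x = g x) : Pc μ g := by
  rw [← funext e]
  exact h

theorem Cf.congr {f g : G → ℝ} (h : Cf f) (e : ∀ x, f x = g x) : Cf g := by
  rw [← funext e]
  exact h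

theorem wx_nonneg {g : G → ℝ} (hg : Pc μ g) : 0 ≤ wx μ L g := by
  have hent : ∀ i j, Continuous fun y => L.rho y i j := fun i j => L.cont.matrix_elem i j
  have h := Low.pos_gram μ
    (e := (Sum.elim (fun i y => (L.rho y i.1 i.2).re) (fun i y => (L.rho y i.1 i.2).im) :
      ((m × m) ⊕ (m × m)) → G → ℝ)) (χ := fun y => (trace (L.rho y)).re)
    (by
      rintro (i | i)
      · exact Complex.continuous_re.comp (hent _ _)
      · exact Complex.continuous_im.comp (hent _ _))
    (by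
      intro x y
      rw [Fintype.sum_sum_type]
      simp only [Sum.elim_inl, Sum.elim_inr]
      rw [← Finset.sum_add_distrib, map_mul, rho_inv, Fintype.sum_prod_type_right]
      unfold trace
      rw [Complex.re_sum]
      refine Finset.sum_congr rfl fun j _ => ?_
      rw [diag_apply, mul_apply, Complex.re_sum]
      refine Finset.sum_congr rfl fun i _ => ?_
      rw [conjTranspose_apply, Complex.star_def, Complex.mul_re, Complex.conj_re, Complex.conj_im]
      ring) hg.cont hg.kpos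
  unfold wx
  simp only [mul_comm _ (g _)]
  exact h

variable (μ) in
/-- the order defined by the cone -/
def Le (X Y : G → ℝ) : Prop := Pc μ fun x => Y x - X x

theorem Le.trans {X Y Z : G → ℝ} (h1 : Le μ X Y) (h2 : Le μ Y Z) : Le μ X Z :=
  (Pc.add h1 h2).congr fun x => by ring

theorem Le.of_eq {X Y : G → ℝ} (h : ∀ x, X x = Y x) : Le μ X Y :=
  (pc_const (μ := μ) (le_refl (0 : ℝ))).congr fun x => by rw [h]; ring

theorem Le.add {X Y X' Y' : G → ℝ} (h1 : Le μ X Y) (h2 : Le μ X' Y') :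
    Le μ (fun x => X x + X' x) (fun x => Y x + Y' x) :=
  (Pc.add h1 h2).congr fun x => by ring

theorem Le.smul {X Y : G → ℝ} (h : Le μ X Y) {c : ℝ} (hc : 0 ≤ c) :
    Le μ (fun x => c * X x) (fun x => c * Y x) :=
  (Pc.smul h hc).congr fun x => by ring

theorem wx_mono {X Y : G → ℝ} (hX : Continuous X) (hY : Continuous Y) (h : Le μ X Y) :
    wx μ L X ≤ wx μ L Y := by
  have h1 := wx_nonneg L h
  have hr := Tens.rt_cont L
  have e : wx μ L (fun x => Y x - X x) = wx μ L Y - wx μ L X := by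
    unfold wx
    rw [← integral_sub (integrable_cont μ (by fun_prop)) (integrable_cont μ (by fun_prop))]
    refine integral_congr_ae (Filter.Eventually.of_forall fun y => ?_)
    simp only []
    ring
  linarith

/-! ### The building blocks -/

include L in
theorem sq_mono {X Y : G → ℝ} (hX : Pc μ X) (_hY : Cf Y) (h : Le μ X Y) :
    Le μ (cnv μ X X) (cnv μ Y Y) := by
  obtain ⟨D, hD⟩ : ∃ D : G → ℝ, D = fun x => Y x - X x := ⟨_, rfl⟩
  have hDp : Pc μ D := by rw [hD]; exact h
  have e : Y = fun x => X x + D x := by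
    funext x
    rw [hD]
    ring
  have h1 := ((Pc.cnv L hX hDp).add (Pc.cnv L hDp hX)).add (pc_sq (μ := μ) hDp.toCf)
  refine h1.congr fun x => ?_
  rw [e, cnv_add_left μ hX.cont hDp.cont (hX.toCf.add hDp.toCf).cont,
    cnv_add_right μ hX.cont hDp.cont hX.cont, cnv_add_right μ hX.cont hDp.cont hDp.cont]
  ring

theorem cf_c4 {X : G → ℝ} (hX : Cf X) : Cf (cnv4 μ X) :=
  cf_cnv μ (cf_cnv μ hX hX) (cf_cnv μ hX hX)

theorem pc_c4 {X : G → ℝ} (hX : Cf X) : Pc μ (cnv4 μ X) := pc_sq (cf_cnv μ hX hX)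

include L in
theorem c4_mono {X Y : G → ℝ} (hX : Pc μ X) (hY : Cf Y) (h : Le μ X Y) :
    Le μ (cnv4 μ X) (cnv4 μ Y) :=
  sq_mono L (pc_sq hX.toCf) (cf_cnv μ hY hY) (sq_mono L hX hY h)

theorem c4_smul (c : ℝ) (X : G → ℝ) : cnv4 μ (fun x => c * X x) = fun x => c ^ 4 * cnv4 μ X x := by
  unfold cnv4
  have h1 : ∀ (c : ℝ) (X : G → ℝ), cnv μ (fun x => c * X x) (fun x => c * X x) =
      fun x => c ^ 2 * cnv μ X X x := by
    intro c X
    rw [cnv_smul_left, cnv_smul_right]
    funext x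
    ring
  rw [h1, h1]
  funext x
  ring

theorem sq_split {A B : G → ℝ} (hA : Cf A) (hB : Cf B) :
    Le μ (cnv μ (fun x => A x + B x) (fun x => A x + B x))
      (fun x => 2 * cnv μ A A x + 2 * cnv μ B B x) := by
  refine (pc_sq (μ := μ) (hA.sub hB)).congr fun x => ?_
  rw [cnv_sub_left μ hA.cont hB.cont (hA.sub hB).cont,
    cnv_sub_right μ hA.cont hB.cont hA.cont, cnv_sub_right μ hA.cont hB.cont hB.cont,
    cnv_add_left μ hA.cont hB.cont (hA.add hB).cont,
    cnv_add_right μ hA.cont hB.cont hA.cont, cnv_add_right μ hA.cont hB.cont hB.cont]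
  ring

theorem Cf.smul {f : G → ℝ} (hf : Cf f) (c : ℝ) : Cf fun x => c * f x := (cf_const c).mul hf

include L in
theorem c4_split {A B : G → ℝ} (hA : Cf A) (hB : Cf B) :
    Le μ (cnv4 μ fun x => A x + B x) (fun x => 8 * cnv4 μ A x + 8 * cnv4 μ B x) := by
  have hAA := cf_cnv μ hA hA
  have hBB := cf_cnv μ hB hB
  have h1 := sq_mono L (pc_sq (hA.add hB)) ((hAA.smul 2).add (hBB.smul 2)) (sq_split hA hB)
  have h2 := sq_split (μ := μ) (hAA.smul 2) (hBB.smul 2)
  refine (h1.trans h2).trans (Le.of_eq fun x => ?_)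
  rw [cnv_smul_left, cnv_smul_right, cnv_smul_left, cnv_smul_right]
  unfold cnv4
  ring

variable (μ) in
/-- the pointwise part of the renormalisation group map -/
def Sm (X : G → ℝ) : G → ℝ := fun x => (1 + X x) ^ 4 - ∫ y, (1 + X y) ^ 4 ∂μ

theorem sm_sub {X Y E : G → ℝ} (hX : Continuous X) (hY : Continuous Y) (c d e : ℝ)
    (hE : ∀ x, E x = c * (1 + Y x) ^ 4 - d * (1 + X x) ^ 4 + e) (x : G) :
    E x - ∫ y, E y ∂μ = c * Sm μ Y x - d * Sm μ X x := by
  unfold Sm
  simp only [hE]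
  rw [integral_add (integrable_cont μ (by fun_prop)) (integrable_cont μ continuous_const),
    integral_sub (integrable_cont μ (by fun_prop)) (integrable_cont μ (by fun_prop)),
    integral_const_mul, integral_const_mul, integral_const, probReal_univ, one_smul]
  ring

include L in
theorem pc_pow {X : G → ℝ} (hX : Pc μ X) (n : ℕ) : Pc μ fun x => X x ^ n := by
  induction n with
  | zero => exact (pc_const (μ := μ) zero_le_one).congr fun x => by rw [pow_zero]
  | succ n ih => exact (Pc.mul L ih hX).congr fun x => by rw [pow_succ]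

/-- the difference of fourth powers -/
def bad (X Y : G → ℝ) : G → ℝ := fun x => (1 + X x + Y x) ^ 4 - (1 + X x) ^ 4

include L in
theorem pc_bad {X D : G → ℝ} (hX : Pc μ X) (hD : Pc μ D) : Pc μ (bad X D) := by
  have h1 : Pc μ fun x => 1 + X x := (pc_const zero_le_one).add hX
  have h2 := (((Pc.mul L (hD.smul (c := 4) (by norm_num)) (pc_pow L h1 3)).add
    (Pc.mul L ((pc_pow L hD 2).smul (c := 6) (by norm_num)) (pc_pow L h1 2))).add
    (Pc.mul L ((pc_pow L hD 3).smul (c := 4) (by norm_num)) h1)).add (pc_pow L hD 4)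
  refine h2.congr fun x => ?_
  unfold bad
  ring

include L in
theorem sm_mono {X Y : G → ℝ} (hX : Pc μ X) (hY : Continuous Y) (h : Le μ X Y) :
    Le μ (Sm μ X) (Sm μ Y) := by
  have h1 := (pc_bad L hX h).sub_mean
  refine h1.congr fun x => ?_
  rw [sm_sub (μ := μ) hX.cont hY 1 1 0 (E := bad X fun x => Y x - X x) (fun x => by
    unfold bad
    ring) x]
  ring

include L in
theorem sm_bad {X Y : G → ℝ} (hX : Pc μ X) (hY : Pc μ Y) :
    Le μ (Sm μ fun x => X x + Y x) (fun x => Sm μ X x + bad X Y x) := by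
  have h1 := pc_const (G := G) (μ := μ) (pc_bad L hX hY).int_nonneg
  refine h1.congr fun x => ?_
  have hXc := hX.cont
  have hYc := hY.cont
  unfold Sm bad
  have e : ∀ y, (1 + (X y + Y y)) ^ 4 = (1 + X y + Y y) ^ 4 := fun y => by ring
  simp only [e]
  rw [integral_sub (integrable_cont μ (by fun_prop)) (integrable_cont μ (by fun_prop))]
  ring

include L in
theorem sm_scale_le {X : G → ℝ} (hX : Pc μ X) {c : ℝ} (hc0 : 0 ≤ c) (hc1 : c ≤ 1) :
    Le μ (Sm μ fun x => c * X x) (fun x => c * Sm μ X x) := by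
  have h2 : c ^ 2 ≤ c := by nlinarith
  have h3 : c ^ 3 ≤ c := by nlinarith
  have h4 : c ^ 4 ≤ c := by nlinarith
  have h1 := ((((pc_pow L hX 2).smul (c := 6 * (c - c ^ 2)) (by linarith)).add
    ((pc_pow L hX 3).smul (c := 4 * (c - c ^ 3)) (by linarith))).add
    ((pc_pow L hX 4).smul (c := c - c ^ 4) (by linarith))).sub_mean
  refine h1.congr fun x => ?_
  have hXc := hX.cont
  refine (sm_sub (μ := μ) (X := fun x => c * X x) (Y := X)
    (E := fun x => 6 * (c - c ^ 2) * X x ^ 2 + 4 * (c - c ^ 3) * X x ^ 3 + (c - c ^ 4) * X x ^ 4)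
    (by fun_prop) hXc c 1 (1 - c) (fun x => by ring) x).trans ?_
  ring

include L in
theorem sm_scale_ge {X : G → ℝ} (hX : Pc μ X) {c : ℝ} (hc1 : 1 ≤ c) :
    Le μ (fun x => c * Sm μ X x) (Sm μ fun x => c * X x) := by
  have h2 : c ≤ c ^ 2 := by nlinarith
  have h3 : c ≤ c ^ 3 := by nlinarith
  have h4 : c ≤ c ^ 4 := by nlinarith
  have h1 := ((((pc_pow L hX 2).smul (c := 6 * (c ^ 2 - c)) (by linarith)).add
    ((pc_pow L hX 3).smul (c := 4 * (c ^ 3 - c)) (by linarith))).add
    ((pc_pow L hX 4).smul (c := c ^ 4 - c) (by linarith))).sub_mean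
  refine h1.congr fun x => ?_
  have hXc := hX.cont
  refine (sm_sub (μ := μ) (Y := fun x => c * X x) (X := X)
    (E := fun x => 6 * (c ^ 2 - c) * X x ^ 2 + 4 * (c ^ 3 - c) * X x ^ 3 + (c ^ 4 - c) * X x ^ 4)
    hXc (by fun_prop) 1 c (c - 1) (fun x => by ring) x).trans ?_
  ring

theorem cf_sm {X : G → ℝ} (hX : Cf X) : Cf (Sm μ X) := by
  have h1 : Cf fun x => (1 + X x) ^ 4 :=
    ⟨by have := hX.cont; fun_prop, fun x => by simp only [hX.sym], fun x y => by
      simp only [hX.cls]⟩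
  exact h1.sub (cf_const _)

include L in
theorem pc_sm {X : G → ℝ} (hX : Pc μ X) : Pc μ (Sm μ X) := by
  have h1 : Pc μ fun x => 1 + X x := (pc_const zero_le_one).add hX
  exact (pc_pow L h1 4).sub_mean

/-! ### Bounds in the maximum norm -/

theorem cnv_bd {f g : G → ℝ} {a b : ℝ} (hf : ∀ x, |f x| ≤ a) (hg : ∀ x, |g x| ≤ b) (x : G) :
    |cnv μ f g x| ≤ a * b := by
  have ha : 0 ≤ a := (abs_nonneg _).trans (hf 1)
  have h2 := norm_integral_le_of_norm_le_const (μ := μ)
    (f := fun y => f y * g (y⁻¹ * x)) (C := a * b)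
    (Filter.Eventually.of_forall fun y => by
      rw [Real.norm_eq_abs, abs_mul]
      exact mul_le_mul (hf y) (hg _) (abs_nonneg _) ha)
  rwa [probReal_univ, mul_one] at h2

theorem c4_bd {f : G → ℝ} {a : ℝ} (hf : ∀ x, |f x| ≤ a) (x : G) : |cnv4 μ f x| ≤ a ^ 4 := by
  have h1 := cnv_bd (μ := μ) (cnv_bd (μ := μ) hf hf) (cnv_bd (μ := μ) hf hf) x
  have e : a * a * (a * a) = a ^ 4 := by ring
  rwa [e] at h1

theorem sm_bd {X : G → ℝ} (hX : Continuous X) {b : ℝ} (hb : b ≤ 1 / 64) (h : ∀ x, |X x| ≤ b)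
    (x : G) : |Sm μ X x| ≤ 10 * b := by
  have hb0 : 0 ≤ b := (abs_nonneg _).trans (h 1)
  have h1 : ∀ x, |(1 + X x) ^ 4 - 1| ≤ 5 * b := by
    intro x
    have h2 := abs_le.1 (h x)
    have e : (1 + X x) ^ 4 - 1 = X x * (4 + 6 * X x + 4 * X x ^ 2 + X x ^ 3) := by ring
    rw [e, abs_mul]
    have h3 : |4 + 6 * X x + 4 * X x ^ 2 + X x ^ 3| ≤ 5 := by
      have h4 : X x ^ 2 ≤ 1 / 64 := by nlinarith
      have h5 : |X x ^ 3| ≤ 1 / 64 := by
        rw [abs_pow]
        have := h x
        have h0 := abs_nonneg (X x)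
        have h6 : |X x| ≤ 1 / 64 := this.trans hb
        calc |X x| ^ 3 ≤ (1 / 64) ^ 3 := pow_le_pow_left₀ h0 h6 3
          _ ≤ 1 / 64 := by norm_num
      have h6 := abs_le.1 h5
      rw [abs_le]
      constructor <;> nlinarith [sq_nonneg (X x)]
    calc |X x| * |4 + 6 * X x + 4 * X x ^ 2 + X x ^ 3| ≤ b * 5 :=
          mul_le_mul (h x) h3 (abs_nonneg _) hb0
      _ = 5 * b := by ring
  have h2 : |∫ y, ((1 + X y) ^ 4 - 1) ∂μ| ≤ 5 * b := by
    have := norm_integral_le_of_norm_le_const (μ := μ) (f := fun y => (1 + X y) ^ 4 - 1)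
      (C := 5 * b) (Filter.Eventually.of_forall fun y => h1 y)
    rwa [probReal_univ, mul_one] at this
  rw [integral_sub (integrable_cont μ (by fun_prop)) (integrable_cont μ continuous_const),
    integral_const, probReal_univ, one_smul] at h2
  have h3 := abs_le.1 h2
  have h4 := abs_le.1 (h1 x)
  unfold Sm
  rw [abs_le]
  constructor <;> linarith

theorem bad_bd {X Y : G → ℝ} {y : ℝ} (hX : ∀ x, |X x| ≤ 1 / 64) (hY : ∀ x, |Y x| ≤ y) (hy : y ≤ 1)
    (x : G) : |bad X Y x| ≤ 33 * y := by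
  have hy0 : 0 ≤ y := (abs_nonneg _).trans (hY 1)
  have e : bad X Y x = Y x * ((1 + X x + Y x) ^ 3 + (1 + X x + Y x) ^ 2 * (1 + X x) +
      (1 + X x + Y x) * (1 + X x) ^ 2 + (1 + X x) ^ 3) := by
    unfold bad
    ring
  have h1 : |1 + X x + Y x| ≤ 129 / 64 := by
    have := abs_le.1 (hX x)
    have := abs_le.1 ((hY x).trans hy)
    rw [abs_le]
    constructor <;> linarith
  have h2 : |1 + X x| ≤ 65 / 64 := by
    have := abs_le.1 (hX x)
    rw [abs_le]
    constructor <;> linarith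
  rw [e, abs_mul, mul_comm]
  refine mul_le_mul ?_ (hY x) (abs_nonneg _) (by norm_num)
  refine (abs_add_le _ _).trans ?_
  refine (add_le_add_left (abs_add_le _ _) _).trans ?_
  refine (add_le_add_left (add_le_add_left (abs_add_le _ _) _) _).trans ?_
  rw [abs_mul, abs_mul, abs_pow, abs_pow, abs_pow, abs_pow]
  have h3 : |1 + X x + Y x| ^ 3 ≤ (129 / 64) ^ 3 := pow_le_pow_left₀ (abs_nonneg _) h1 3
  have h4 : |1 + X x + Y x| ^ 2 * |1 + X x| ≤ (129 / 64) ^ 2 * (65 / 64) :=
    mul_le_mul (pow_le_pow_left₀ (abs_nonneg _) h1 2) h2 (abs_nonneg _) (by norm_num)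
  have h5 : |1 + X x + Y x| * |1 + X x| ^ 2 ≤ (129 / 64) * (65 / 64) ^ 2 :=
    mul_le_mul h1 (pow_le_pow_left₀ (abs_nonneg _) h2 2) (by positivity) (by norm_num)
  have h6 : |1 + X x| ^ 3 ≤ (65 / 64) ^ 3 := pow_le_pow_left₀ (abs_nonneg _) h2 3
  norm_num at h3 h4 h5 h6 ⊢
  linarith

/-! ### Polynomials with positive definite coefficients -/

variable (μ) in
/-- polynomials with positive definite coefficients -/
def NP (p : ℝ → G → ℝ) : Prop := ∃ (ι : Type) (_ : Fintype ι) (d : ι → ℕ) (K : ι → G → ℝ),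
  (∀ i, Pc μ (K i)) ∧ ∀ z x, p z x = ∑ i, z ^ d i * K i x

theorem NP.congr {p q : ℝ → G → ℝ} (hp : NP μ p) (h : ∀ z x, p z x = q z x) : NP μ q := by
  have : p = q := funext fun z => funext fun x => h z x
  rw [← this]
  exact hp

theorem NP.add {p q : ℝ → G → ℝ} (hp : NP μ p) (hq : NP μ q) : NP μ fun z x => p z x + q z x := by
  obtain ⟨ι, _, d, K, hK, h⟩ := hp
  obtain ⟨ι', _, d', K', hK', h'⟩ := hq
  refine ⟨ι ⊕ ι', inferInstance, Sum.elim d d', Sum.elim K K', ?_, fun z x => ?_⟩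
  · rintro (i | i)
    · exact hK i
    · exact hK' i
  · simp only []
    rw [Fintype.sum_sum_type, h, h']
    rfl

theorem NP.smul {p : ℝ → G → ℝ} (hp : NP μ p) {c : ℝ} (hc : 0 ≤ c) : NP μ fun z x => c * p z x := by
  obtain ⟨ι, _, d, K, hK, h⟩ := hp
  refine ⟨ι, inferInstance, d, fun i x => c * K i x, fun i => (hK i).smul hc, fun z x => ?_⟩
  simp only []
  rw [h, Finset.mul_sum]
  exact Finset.sum_congr rfl fun i _ => by ring

include L in
theorem NP.mul {p q : ℝ → G → ℝ} (hp : NP μ p) (hq : NP μ q) : NP μ fun z x => p z x * q z x := by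
  obtain ⟨ι, _, d, K, hK, h⟩ := hp
  obtain ⟨ι', _, d', K', hK', h'⟩ := hq
  refine ⟨ι × ι', inferInstance, fun i => d i.1 + d' i.2, fun i x => K i.1 x * K' i.2 x,
    fun i => Pc.mul L (hK _) (hK' _), fun z x => ?_⟩
  simp only []
  rw [h, h', Fintype.sum_mul_sum, Fintype.sum_prod_type]
  refine Finset.sum_congr rfl fun i _ => Finset.sum_congr rfl fun j _ => ?_
  rw [pow_add]
  ring

theorem cnv_sum_left {ι : Type} [Fintype ι] (K : ι → G → ℝ) (hK : ∀ i, Continuous (K i))
    {g : G → ℝ} (hg : Continuous g) (x : G) :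
    cnv μ (fun x => ∑ i, K i x) g x = ∑ i, cnv μ (K i) g x := by
  unfold cnv
  rw [← integral_finsetSum _ fun i _ => integrable_cont μ (by have := hK i; fun_prop)]
  refine integral_congr_ae (Filter.Eventually.of_forall fun y => ?_)
  simp only []
  rw [Finset.sum_mul]

theorem cnv_sum_right {ι : Type} [Fintype ι] (K : ι → G → ℝ) (hK : ∀ i, Continuous (K i))
    {g : G → ℝ} (hg : Continuous g) (x : G) :
    cnv μ g (fun x => ∑ i, K i x) x = ∑ i, cnv μ g (K i) x := by
  unfold cnv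
  rw [← integral_finsetSum _ fun i _ => integrable_cont μ (by have := hK i; fun_prop)]
  refine integral_congr_ae (Filter.Eventually.of_forall fun y => ?_)
  simp only []
  rw [Finset.mul_sum]

include L in
theorem NP.cnv {p q : ℝ → G → ℝ} (hp : NP μ p) (hq : NP μ q) :
    NP μ fun z => HY.cnv μ (p z) (q z) := by
  obtain ⟨ι, _, d, K, hK, h⟩ := hp
  obtain ⟨ι', _, d', K', hK', h'⟩ := hq
  refine ⟨ι × ι', inferInstance, fun i => d i.1 + d' i.2, fun i => HY.cnv μ (K i.1) (K' i.2),
    fun i => Pc.cnv L (hK _) (hK' _), fun z x => ?_⟩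
  have c1 : ∀ i, Continuous fun x => z ^ d i * K i x := fun i => by
    have := (hK i).cont
    fun_prop
  have c2 : ∀ i, Continuous fun x => z ^ d' i * K' i x := fun i => by
    have := (hK' i).cont
    fun_prop
  simp only []
  rw [funext (h z), funext (h' z), cnv_sum_left _ c1 (continuous_finsetSum _ fun i _ => c2 i),
    Fintype.sum_prod_type]
  refine Finset.sum_congr rfl fun i _ => ?_
  rw [cnv_sum_right _ c2 (c1 i)]
  refine Finset.sum_congr rfl fun j _ => ?_
  rw [cnv_smul_left, cnv_smul_right, pow_add]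
  ring

theorem NP.sub_mean {p : ℝ → G → ℝ} (hp : NP μ p) : NP μ fun z x => p z x - ∫ y, p z y ∂μ := by
  obtain ⟨ι, _, d, K, hK, h⟩ := hp
  refine ⟨ι, inferInstance, d, fun i x => K i x - ∫ y, K i y ∂μ, fun i => (hK i).sub_mean,
    fun z x => ?_⟩
  simp only [h]
  rw [integral_finsetSum _ fun i _ => integrable_cont μ (by have := (hK i).cont; fun_prop),
    ← Finset.sum_sub_distrib]
  refine Finset.sum_congr rfl fun i _ => ?_
  rw [integral_const_mul]
  ring

theorem NP.cont {p : ℝ → G → ℝ} (hp : NP μ p) (z : ℝ) : Continuous (p z) := by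
  obtain ⟨ι, _, d, K, hK, h⟩ := hp
  rw [funext (h z)]
  exact continuous_finsetSum _ fun i _ => by
    have := (hK i).cont
    fun_prop

theorem NP.pc {p : ℝ → G → ℝ} (hp : NP μ p) {z : ℝ} (hz : 0 ≤ z) : Pc μ (p z) := by
  obtain ⟨ι, hι, d, K, hK, h⟩ := hp
  rw [funext (h z)]
  have : ∀ s : Finset ι, Pc μ fun x => ∑ i ∈ s, z ^ d i * K i x := by
    classical
    intro s
    induction s using Finset.induction_on with
    | empty => exact (pc_const (μ := μ) le_rfl).congr fun x => by simp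
    | insert a s ha ih =>
      refine (((hK a).smul (c := z ^ d a) (by positivity)).add ih).congr fun x => ?_
      rw [Finset.sum_insert ha]
  exact this Finset.univ

include L in
theorem NP.sm {p : ℝ → G → ℝ} (hp : NP μ p) : NP μ fun z => Sm μ (p z) := by
  have h2 := NP.mul L hp hp
  have h3 := NP.mul L h2 hp
  have h4 := NP.mul L h3 hp
  have h := ((((hp.smul (c := 4) (by norm_num)).add (h2.smul (c := 6) (by norm_num))).add
    (h3.smul (c := 4) (by norm_num))).add h4).sub_mean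
  refine h.congr fun z x => ?_
  have hc := hp.cont z
  refine (sm_sub (μ := μ) (X := p z) (Y := p z) (E := fun x => 4 * p z x +
    6 * (p z x * p z x) + 4 * (p z x * p z x * p z x) + p z x * p z x * p z x * p z x)
    hc hc 1 0 (-1) (fun x => by ring) x).trans ?_
  ring

/-- logarithmic convexity -/
theorem NP.log_convex {p : ℝ → G → ℝ} (hp : NP μ p) {a b θ : ℝ} (ha : 0 < a) (hb : 0 < b)
    (hθ0 : 0 < θ) (hθ1 : θ < 1) :
    wx μ L (p (a ^ (1 - θ) * b ^ θ)) ≤ wx μ L (p a) ^ (1 - θ) * wx μ L (p b) ^ θ := by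
  obtain ⟨ι, _, d, K, hK, h⟩ := hp
  have hr := Tens.rt_cont L
  have e : ∀ z, wx μ L (p z) = ∑ i, z ^ d i * wx μ L (K i) := by
    intro z
    unfold wx
    simp only [h]
    have h1 : ∀ y, (trace (L.rho y)).re * ∑ i, z ^ d i * K i y =
        ∑ i, z ^ d i * ((trace (L.rho y)).re * K i y) := by
      intro y
      rw [Finset.mul_sum]
      exact Finset.sum_congr rfl fun i _ => by ring
    simp only [h1]
    rw [integral_finsetSum _ fun i _ => integrable_cont μ (by have := (hK i).cont; fun_prop)]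
    refine Finset.sum_congr rfl fun i _ => ?_
    rw [integral_const_mul]
  rw [e, e, e]
  have hk : ∀ i, 0 ≤ wx μ L (K i) := fun i => wx_nonneg L (hK i)
  have hpq : (1 / (1 - θ)).HolderConjugate (1 / θ) := by
    rw [Real.holderConjugate_iff]
    refine ⟨?_, ?_⟩
    · rw [lt_div_iff₀ (by linarith)]
      linarith
    · rw [one_div, inv_inv, one_div, inv_inv]
      ring
  have h1 := Real.inner_le_Lp_mul_Lq_of_nonneg Finset.univ hpq
    (f := fun i => (a ^ d i * wx μ L (K i)) ^ (1 - θ)) (g := fun i => (b ^ d i * wx μ L (K i)) ^ θ)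
    (fun i _ => by have := hk i; positivity) (fun i _ => by have := hk i; positivity)
  have e1 : ∀ i, ((a ^ d i * wx μ L (K i)) ^ (1 - θ)) ^ (1 / (1 - θ)) = a ^ d i * wx μ L (K i) := by
    intro i
    have := hk i
    rw [← Real.rpow_mul (by positivity), mul_one_div_cancel (by linarith), Real.rpow_one]
  have e2 : ∀ i, ((b ^ d i * wx μ L (K i)) ^ θ) ^ (1 / θ) = b ^ d i * wx μ L (K i) := by
    intro i
    have := hk i
    rw [← Real.rpow_mul (by positivity), mul_one_div_cancel hθ0.ne', Real.rpow_one]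
  simp only [e1, e2, one_div_one_div] at h1
  refine le_trans (le_of_eq (Finset.sum_congr rfl fun i _ => ?_)) h1
  have hi := hk i
  rw [Real.mul_rpow (by positivity) hi, Real.mul_rpow (by positivity) hi, mul_pow,
    ← Real.rpow_natCast, ← Real.rpow_natCast, ← Real.rpow_natCast, ← Real.rpow_natCast,
    ← Real.rpow_mul ha.le, ← Real.rpow_mul hb.le, ← Real.rpow_mul ha.le, ← Real.rpow_mul hb.le,
    mul_comm (1 - θ) (d i : ℝ), mul_comm θ (d i : ℝ)]
  have e3 : wx μ L (K i) = wx μ L (K i) ^ (1 - θ) * wx μ L (K i) ^ θ := by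
    rw [← Real.rpow_add' hi (by norm_num)]
    simp
  calc a ^ ((d i : ℝ) * (1 - θ)) * b ^ ((d i : ℝ) * θ) * wx μ L (K i)
      = a ^ ((d i : ℝ) * (1 - θ)) * b ^ ((d i : ℝ) * θ) *
        (wx μ L (K i) ^ (1 - θ) * wx μ L (K i) ^ θ) := by rw [← e3]
    _ = _ := by ring

end TenF

end

end Pool.Agent.T2H04.HY
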