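import Mathlib
import Pool.Agent.T2H04.HY.TenQ

/-!
# Comparison of Wilson loops: the iteration
-/

open MeasureTheory Matrix Filter
open scoped Matrix.Norms.Frobenius Topology

namespace Pool.Agent.T2H04.HY

set_option linter.unusedSectionVars false

noncomputable section

variable {G : Type} [Group G] [TopologicalSpace G] [IsTopologicalGroup G] [CompactSpace G]
  [MeasurableSpace G] [BorelSpace G] (μ : Measure G) [μ.IsHaarMeasure] [IsProbabilityMeasure μ]
  {m : Type} [Fintype m] [DecidableEq m] (L : RD G m)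

namespace TenF

/-- the comparison polynomials -/
def Pr (H : G → ℝ) : ℕ → ℝ → G → ℝ
  | 0 => fun z x => z * H x
  | r + 1 => fun z => Sm μ (cnv4 μ (Pr H r z))

/-- the error terms -/
def Br (U : ℕ → G → ℝ) (Δ : G → ℝ) : ℕ → G → ℝ
  | 0 => Δ
  | r + 1 => bad (fun x => 1 / 2 * cnv4 μ (U r) x) (fun x => 8 * cnv4 μ (Br U Δ r) x)

variable {μ}

include L in
theorem pr_np {H : G → ℝ} (hH : Pc μ H) (r : ℕ) : NP μ (Pr μ H r) := by
  induction r with
  | zero =>
    refine ⟨Unit, inferInstance, fun _ => 1, fun _ => H, fun _ => hH, fun z x => ?_⟩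
    simp [Pr]
  | succ r ih =>
    have h1 := NP.cnv L ih ih
    exact NP.sm L (NP.cnv L h1 h1)

theorem pr_cont {H : G → ℝ} (hH : Continuous H) (r : ℕ) (z : ℝ) : Continuous (Pr μ H r z) := by
  induction r with
  | zero =>
    show Continuous fun x => z * H x
    fun_prop
  | succ r ih =>
    have := continuous_cnv4 μ ih
    show Continuous fun x => (1 + cnv4 μ (Pr μ H r z) x) ^ 4 - _
    fun_prop

theorem pr_bd {H : G → ℝ} (hH : Continuous H) {z a : ℝ} (ha : a ≤ 1 / 4)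
    (h : ∀ x, |z * H x| ≤ a) (r : ℕ) (x : G) : |Pr μ H r z x| ≤ a := by
  have ha0 : 0 ≤ a := (abs_nonneg _).trans (h 1)
  induction r generalizing x with
  | zero => exact h x
  | succ r ih =>
    have h1 : a ^ 4 ≤ a / 64 := by
      have : a ^ 3 ≤ (1 / 4) ^ 3 := pow_le_pow_left₀ ha0 ha 3
      nlinarith
    have h2 := sm_bd (μ := μ) (X := cnv4 μ (Pr μ H r z)) (continuous_cnv4 μ (pr_cont hH r z))
      (b := a ^ 4) (by linarith) (fun x => c4_bd ih x) x
    refine h2.trans ?_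
    linarith

theorem br_cf {U : ℕ → G → ℝ} (hU : ∀ r, Cf (U r)) {Δ : G → ℝ} (hΔ : Cf Δ) (r : ℕ) :
    Cf (Br μ U Δ r) := by
  induction r with
  | zero => exact hΔ
  | succ r ih =>
    have h1 := cf_c4 (μ := μ) (hU r)
    have h2 := cf_c4 (μ := μ) ih
    refine ⟨?_, fun x => ?_, fun x y => ?_⟩
    · have := h1.cont
      have := h2.cont
      show Continuous (bad _ _)
      unfold bad
      fun_prop
    · show bad _ _ _ = bad _ _ _
      unfold bad
      simp only [h1.sym, h2.sym]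
    · show bad _ _ _ = bad _ _ _
      unfold bad
      simp only [h1.cls, h2.cls]

theorem br_bd {U : ℕ → G → ℝ} (hU : ∀ r x, |U r x| ≤ 1 / 4) {Δ : G → ℝ} {ε : ℝ}
    (hε : 7 * ε ≤ 1) (hΔ : ∀ x, |Δ x| ≤ ε) (r : ℕ) (x : G) :
    |Br μ U Δ r x| ≤ (7 * ε) ^ 4 ^ r / 7 := by
  have hε0 : 0 ≤ ε := (abs_nonneg _).trans (hΔ 1)
  induction r generalizing x with
  | zero =>
    rw [pow_zero, pow_one]
    have e : 7 * ε / 7 = ε := by ring
    rw [e]
    exact hΔ x
  | succ r ih =>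
    obtain ⟨T, hT⟩ : ∃ T : ℝ, T = (7 * ε) ^ 4 ^ r := ⟨_, rfl⟩
    have hT0 : 0 ≤ T := by rw [hT]; positivity
    have hT1 : T ≤ 1 := by rw [hT]; exact pow_le_one₀ (by positivity) hε
    rw [← hT] at ih
    have e : (7 * ε) ^ 4 ^ (r + 1) = T ^ 4 := by
      rw [hT, ← pow_mul, pow_succ]
    rw [e]
    have hT4 : T ^ 4 ≤ 1 := pow_le_one₀ hT0 hT1
    have h1 : ∀ x, |8 * cnv4 μ (Br μ U Δ r) x| ≤ 8 * (T / 7) ^ 4 := by
      intro x
      rw [abs_mul, abs_of_pos (by norm_num : (0 : ℝ) < 8)]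
      exact mul_le_mul_of_nonneg_left (c4_bd ih x) (by norm_num)
    have h2 : ∀ x, |1 / 2 * cnv4 μ (U r) x| ≤ 1 / 64 := by
      intro x
      rw [abs_mul, abs_of_pos (by norm_num : (0 : ℝ) < 1 / 2)]
      have := c4_bd (μ := μ) (hU r) x
      norm_num at this ⊢
      linarith
    have h3 := bad_bd h2 h1 (by
      have : (T / 7) ^ 4 = T ^ 4 / 2401 := by ring
      rw [this]
      linarith) x
    refine h3.trans ?_
    have : (T / 7) ^ 4 = T ^ 4 / 2401 := by ring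
    rw [this]
    nlinarith [pow_nonneg hT0 4]

include L in
theorem pc_br (U : ℕ → G → ℝ) (hU : ∀ r, Cf (U r)) {Δ : G → ℝ} (hΔ : Cf Δ) (r : ℕ) :
    Pc μ (Br μ U Δ (r + 1)) :=
  pc_bad L ((pc_c4 (hU r)).smul (by norm_num)) ((pc_c4 (br_cf hU hΔ r)).smul (by norm_num))

theorem mk_sub_one {f : G → ℝ} (hf : PD μ f) (hs : ∀ x, f x⁻¹ = f x)
    (hc : ∀ x y, f (y * x * y⁻¹) = f x) : ∃ Z : ℝ, 1 ≤ Z ∧
    (∀ x, mk μ f x - 1 = Sm μ (cnv4 μ fun x => f x - 1) x / Z) ∧
    ((∀ x, |f x - 1| ≤ 1 / 4) → Z ≤ 2) := by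
  have hcf : Cf fun x => f x - 1 :=
    ⟨by have := hf.cont; fun_prop, fun x => by simp only [hs], fun x y => by simp only [hc]⟩
  have h1 : cnv μ (fun y => f y - 1) (fun y => f y - 1) = fun x => cnv μ f f x - 1 :=
    funext fun x => Low.cnv_sub_one μ hf.cont hs hf.int x
  have hff := continuous_cnv μ hf.cont hf.cont
  have h2 : cnv4 μ (fun x => f x - 1) = fun x => cnv4 μ f x - 1 := by
    unfold cnv4
    rw [h1]
    exact funext fun x => Low.cnv_sub_one μ hff (Low.cnv_sym μ hs) (by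
      rw [Low.int_cnv μ hf.cont hf.cont, hf.int, one_mul]) x
  have h3 : ∀ x, cnv4 μ f x = 1 + cnv4 μ (fun x => f x - 1) x := fun x => by
    rw [h2]
    ring
  have hc4 := (cf_c4 (μ := μ) hcf).cont
  obtain ⟨Z, hZ⟩ : ∃ Z, Z = ∫ y, (1 + cnv4 μ (fun x => f x - 1) y) ^ 4 ∂μ := ⟨_, rfl⟩
  have hZ1 : 1 ≤ Z := by
    -- Bernoulli
    have h4 : ∫ y, (1 + 4 * cnv4 μ (fun x => f x - 1) y) ∂μ ≤ Z := by
      rw [hZ]
      refine integral_mono (integrable_cont μ (by fun_prop)) (integrable_cont μ (by fun_prop))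
        fun y => ?_
      have h5 : -1 ≤ cnv4 μ (fun x => f x - 1) y := by
        rw [h2]
        have : 0 ≤ cnv4 μ f y := cnv_nonneg0 μ (cnv_nonneg0 μ hf.nonneg hf.nonneg)
          (cnv_nonneg0 μ hf.nonneg hf.nonneg) y
        linarith
      simp only []
      have h6 := one_add_mul_le_pow (a := cnv4 μ (fun x => f x - 1) y) (by linarith) 4
      push_cast at h6
      exact h6
    have h5 : ∫ y, (1 + 4 * cnv4 μ (fun x => f x - 1) y) ∂μ = 1 := by
      rw [integral_add (integrable_cont μ continuous_const) (integrable_cont μ (by fun_prop)),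
        integral_const_mul, integral_const, probReal_univ, one_smul]
      have h6 : ∫ y, cnv4 μ (fun x => f x - 1) y ∂μ = 0 := by
        have hcc := (cf_cnv μ hcf hcf).cont
        have h7 : ∫ x, (f x - 1) ∂μ = 0 := by
          rw [integral_sub (integrable_cont μ hf.cont) (integrable_cont μ continuous_const),
            hf.int, integral_const, probReal_univ, one_smul, sub_self]
        unfold cnv4
        rw [Low.int_cnv μ hcc hcc, Low.int_cnv μ hcf.cont hcf.cont, h7]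
        ring
      rw [h6]
      ring
    linarith
  refine ⟨Z, hZ1, fun x => ?_, fun hb => ?_⟩
  · unfold mk Sm
    simp only [h3]
    rw [← hZ]
    field_simp
  · have h4 : Z ≤ ∫ _y : G, (2 : ℝ) ∂μ := by
      rw [hZ]
      refine integral_mono (integrable_cont μ (by fun_prop)) (integrable_cont μ continuous_const)
        fun y => ?_
      have h5 := abs_le.1 (c4_bd (μ := μ) hb y)
      have h6 : 1 + cnv4 μ (fun x => f x - 1) y ≤ 257 / 256 := by
        have := h5.2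
        norm_num at this ⊢
        linarith
      have h7 : 0 ≤ 1 + cnv4 μ (fun x => f x - 1) y := by
        have := h5.1
        norm_num at this ⊢
        linarith
      have h8 := pow_le_pow_left₀ h7 h6 4
      simp only []
      refine h8.trans (by norm_num)
    rwa [integral_const, probReal_univ, one_smul] at h4

/-- iteration near `1` -/
theorem iter_sym {f : G → ℝ} (hs : ∀ x, f x⁻¹ = f x) (k : ℕ) (x : G) :
    (mk μ)^[k] f x⁻¹ = (mk μ)^[k] f x := by
  induction k generalizing x with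
  | zero => exact hs x
  | succ k ih =>
    rw [Function.iterate_succ_apply']
    exact Low.mk_sym μ ih x

theorem near_step {f : G → ℝ} (hf : PD μ f) (hs : ∀ x, f x⁻¹ = f x)
    (hc : ∀ x y, f (y * x * y⁻¹) = f x) {a : ℝ} (ha : a ≤ 1 / 4) (h : ∀ x, |f x - 1| ≤ a) (x : G) :
    |mk μ f x - 1| ≤ 10 * a ^ 4 := by
  have ha0 : 0 ≤ a := (abs_nonneg _).trans (h 1)
  obtain ⟨Z, hZ1, hZ, -⟩ := mk_sub_one hf hs hc
  have hfc := hf.cont
  rw [hZ, abs_div, abs_of_pos (by linarith : 0 < Z), div_le_iff₀ (by linarith)]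
  have h1 := sm_bd (μ := μ) (X := cnv4 μ fun x => f x - 1) (continuous_cnv4 μ (by fun_prop))
    (b := a ^ 4) (by
      have : a ^ 4 ≤ (1 / 4) ^ 4 := pow_le_pow_left₀ ha0 ha 4
      norm_num at this ⊢
      linarith) (fun x => c4_bd h x) x
  refine h1.trans (le_mul_of_one_le_right (by positivity) hZ1)

theorem near_iter {f : G → ℝ} (hf : PD μ f) (hs : ∀ x, f x⁻¹ = f x)
    (hc : ∀ x y, f (y * x * y⁻¹) = f x) {θ : ℝ} (hθ : θ ≤ 1) (h : ∀ x, |f x - 1| ≤ θ / 4)
    (k : ℕ) (x : G) : |(mk μ)^[k] f x - 1| ≤ θ ^ 4 ^ k / 4 := by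
  have hθ0 : 0 ≤ θ := by
    have := (abs_nonneg _).trans (h 1)
    linarith
  induction k generalizing x with
  | zero =>
    rw [pow_zero, pow_one]
    exact h x
  | succ k ih =>
    rw [Function.iterate_succ_apply']
    obtain ⟨T, hT⟩ : ∃ T : ℝ, T = θ ^ 4 ^ k := ⟨_, rfl⟩
    have hT0 : 0 ≤ T := by rw [hT]; positivity
    have hT1 : T ≤ 1 := by rw [hT]; exact pow_le_one₀ (by positivity) hθ
    rw [← hT] at ih
    have e : θ ^ 4 ^ (k + 1) = T ^ 4 := by rw [hT, ← pow_mul, pow_succ]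
    rw [e]
    have h1 := near_step (Asm.iter_pd μ hf k) (iter_sym hs k) (Asm.iter_cls μ hc k)
      (a := T / 4) (by linarith) ih x
    refine h1.trans ?_
    have : (T / 4) ^ 4 = T ^ 4 / 256 := by ring
    rw [this]
    nlinarith [pow_nonneg hT0 4]

include L in
/-- lower comparison -/
theorem low {f : G → ℝ} (hf : PD μ f) (hs : ∀ x, f x⁻¹ = f x)
    (hc : ∀ x y, f (y * x * y⁻¹) = f x) (hP : Pc μ fun x => f x - 1)
    (hb : ∀ x, |f x - 1| ≤ 1 / 4) (r : ℕ) :
    Pc μ (fun x => (mk μ)^[r] f x - 1) ∧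
    Le μ (fun x => 2 * Pr μ (fun x => f x - 1) r (1 / 2) x) (fun x => (mk μ)^[r] f x - 1) := by
  induction r with
  | zero =>
    refine ⟨hP, Le.of_eq fun x => ?_⟩
    simp [Pr]
  | succ r ih =>
    obtain ⟨ih1, ih2⟩ := ih
    have hbr : ∀ x, |(mk μ)^[r] f x - 1| ≤ 1 / 4 := fun x =>
      (near_iter hf hs hc (θ := 1) le_rfl hb r x).trans (by simp)
    obtain ⟨Z, hZ1, hZ, hZ2⟩ := mk_sub_one (Asm.iter_pd μ hf r) (iter_sym hs r)
      (Asm.iter_cls μ hc r)
    have hZ2' := hZ2 hbr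
    have hZ0 : 0 < Z := by linarith
    have hPr := (pr_np L hP r).pc (z := 1 / 2) (by norm_num)
    obtain ⟨P, hPd⟩ : ∃ P, P = Pr μ (fun x => f x - 1) r (1 / 2) := ⟨_, rfl⟩
    rw [← hPd] at hPr ih2
    obtain ⟨h, hh⟩ : ∃ h : G → ℝ, h = fun x => (mk μ)^[r] f x - 1 := ⟨_, rfl⟩
    rw [← hh] at ih1 ih2 hZ
    have h1 := c4_mono L (hPr.smul (c := 2) (by norm_num)) ih1.toCf ih2
    rw [c4_smul] at h1
    have hcP := pc_c4 (μ := μ) hPr.toCf
    have hch := pc_c4 (μ := μ) ih1.toCf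
    have h2 := sm_mono L (hcP.smul (c := 2 ^ 4) (by norm_num)) hch.cont h1
    have h3 := (sm_scale_ge L hcP (c := 2 ^ 4) (by norm_num)).trans h2
    have hmk : ∀ x, (mk μ)^[r + 1] f x - 1 = Sm μ (cnv4 μ h) x / Z := by
      intro x
      rw [Function.iterate_succ_apply']
      exact hZ x
    refine ⟨((pc_sm L hch).smul (c := Z⁻¹) (by positivity)).congr fun x => ?_, ?_⟩
    · rw [hmk]
      ring
    · have h4 : 0 ≤ 16 / Z - 2 := by
        rw [sub_nonneg, le_div_iff₀ hZ0]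
        linarith
      have h5 := (Pc.smul h3 (c := Z⁻¹) (by positivity)).add ((pc_sm L hcP).smul h4)
      refine h5.congr fun x => ?_
      show _ = ((mk μ)^[r + 1] f x - 1) -
        2 * Sm μ (cnv4 μ (Pr μ (fun x => f x - 1) r (1 / 2))) x
      rw [← hPd, hmk]
      simp only []
      ring

include L in
/-- one step of the upper comparison -/
theorem upp_step {U B h : G → ℝ} (hU : Cf U) (hB : Cf B) (hh : Cf h)
    (hQ : (∀ x, h x = 1 / 2 * U x + B x) ∨ (Pc μ h ∧ Le μ h fun x => 1 / 2 * U x + B x))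
    {Z : ℝ} (hZ : 1 ≤ Z) {h' : G → ℝ} (hh' : ∀ x, h' x = Sm μ (cnv4 μ h) x / Z) :
    Pc μ h' ∧ Le μ h' fun x => 1 / 2 * Sm μ (cnv4 μ U) x +
      bad (fun x => 1 / 2 * cnv4 μ U x) (fun x => 8 * cnv4 μ B x) x := by
  have hZ0 : 0 < Z := by linarith
  have hch := pc_c4 (μ := μ) hh
  have hsm := pc_sm L hch
  have hcU := pc_c4 (μ := μ) hU
  have hcB := pc_c4 (μ := μ) hB
  have h1 : Le μ (cnv4 μ h) (cnv4 μ fun x => 1 / 2 * U x + B x) := by
    rcases hQ with hQ | ⟨hQ1, hQ2⟩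
    · rw [funext hQ]
      exact Le.of_eq fun x => rfl
    · exact c4_mono L hQ1 ((hU.smul _).add hB) hQ2
  have h2 := h1.trans (c4_split L (hU.smul (1 / 2)) hB)
  have h3 : Le μ (cnv4 μ h) (fun x => 1 / 2 * cnv4 μ U x + 8 * cnv4 μ B x) := by
    refine h2.trans (Le.of_eq fun x => ?_)
    rw [c4_smul]
    ring
  have hX := hcU.smul (c := 1 / 2) (by norm_num)
  have hY := hcB.smul (c := 8) (by norm_num)
  have h4 := sm_mono L hch (hX.toCf.add hY.toCf).cont h3
  have h5 := (h4.trans (sm_bad L hX hY)).trans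
    (Le.add (sm_scale_le L hcU (c := 1 / 2) (by norm_num) (by norm_num))
      (Le.of_eq (X := bad (fun x => 1 / 2 * cnv4 μ U x) (fun x => 8 * cnv4 μ B x)) fun x => rfl))
  refine ⟨(hsm.smul (c := Z⁻¹) (by positivity)).congr fun x => ?_, ?_⟩
  · rw [hh']
    ring
  · have h6 : 0 ≤ 1 - Z⁻¹ := by
      rw [sub_nonneg]
      exact inv_le_one_of_one_le₀ hZ
    refine ((hsm.smul h6).add h5).congr fun x => ?_
    rw [hh']
    ring

include L in
/-- upper comparison -/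
theorem upp {f : G → ℝ} (hf : PD μ f) (hs : ∀ x, f x⁻¹ = f x)
    (hc : ∀ x y, f (y * x * y⁻¹) = f x) {H Δ : G → ℝ} (hH : Pc μ H) (hΔ : Cf Δ)
    (hf' : ∀ x, f x - 1 = H x + Δ x) (r : ℕ) :
    Le μ (fun x => (mk μ)^[r + 1] f x - 1) (fun x => 1 / 2 * Pr μ H (r + 1) 2 x +
      Br μ (fun r => Pr μ H r 2) Δ (r + 1) x) := by
  have hU : ∀ r, Cf (Pr μ H r 2) := fun r => ((pr_np L hH r).pc (by norm_num)).toCf
  have hB : ∀ r, Cf (Br μ (fun r => Pr μ H r 2) Δ r) := fun r => br_cf hU hΔ r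
  have hcf : ∀ r, Cf fun x => (mk μ)^[r] f x - 1 := fun r =>
    ⟨by have := (Asm.iter_pd μ hf r).cont; fun_prop,
      fun x => by simp only [iter_sym hs r], fun x y => by simp only [Asm.iter_cls μ hc r]⟩
  have key : ∀ r, Pc μ (fun x => (mk μ)^[r + 1] f x - 1) ∧
      Le μ (fun x => (mk μ)^[r + 1] f x - 1) (fun x => 1 / 2 * Pr μ H (r + 1) 2 x +
        Br μ (fun r => Pr μ H r 2) Δ (r + 1) x) := by
    intro r
    induction r with
    | zero =>
      obtain ⟨Z, hZ1, hZ, -⟩ := mk_sub_one hf hs hc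
      exact upp_step L (hU 0) (hB 0) (hcf 0) (Or.inl fun x => by
        rw [Function.iterate_zero, id, hf']
        simp [Pr, Br]) hZ1 hZ
    | succ r ih =>
      obtain ⟨Z, hZ1, hZ, -⟩ := mk_sub_one (Asm.iter_pd μ hf (r + 1)) (iter_sym hs (r + 1))
        (Asm.iter_cls μ hc (r + 1))
      have := upp_step L (hU (r + 1)) (hB (r + 1)) (hcf (r + 1)) (Or.inr ih) hZ1
        (h' := fun x => (mk μ)^[r + 1 + 1] f x - 1) (fun x => by
          rw [Function.iterate_succ_apply']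
          exact hZ x)
      exact this
  exact (key r).2

theorem wx_bd {M : ℝ} (hM : ∀ y : G, |(trace (L.rho y)).re| ≤ M) {g : G → ℝ} (hg : Continuous g)
    {b : ℝ} (hb : ∀ x, |g x| ≤ b) : wx μ L g ≤ M * b := by
  have hr := Tens.rt_cont L
  have hM0 : 0 ≤ M := (abs_nonneg _).trans (hM 1)
  have h1 : wx μ L g ≤ ∫ _y : G, M * b ∂μ := by
    unfold wx
    refine integral_mono (integrable_cont μ (by fun_prop)) (integrable_cont μ continuous_const)
      fun y => ?_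
    calc (trace (L.rho y)).re * g y ≤ |(trace (L.rho y)).re * g y| := le_abs_self _
      _ = |(trace (L.rho y)).re| * |g y| := abs_mul _ _
      _ ≤ M * b := mul_le_mul (hM y) (hb y) (abs_nonneg _) hM0
  rwa [integral_const, probReal_univ, one_smul] at h1

/-- **comparison of the Wilson loops** for two densities, one of them positive definite -/
theorem compare {M : ℝ} (hM1 : 1 ≤ M) (hM : ∀ y : G, |(trace (L.rho y)).re| ≤ M) {f f' : G → ℝ}
    (hf : PD μ f) (hs : ∀ x, f x⁻¹ = f x) (hc : ∀ x y, f (y * x * y⁻¹) = f x)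
    (hf' : PD μ f') (hs' : ∀ x, f' x⁻¹ = f' x) (hc' : ∀ x y, f' (y * x * y⁻¹) = f' x)
    (hP : Pc μ fun x => f x - 1) {Λ ε : ℝ} (hΛ : Real.log 8 ≤ Λ)
    (hδ : ∀ x, |f x - 1| ≤ Real.exp (-Λ) / (2 * M)) (hε : 7 * ε ≤ 1)
    (hΔ : ∀ x, |f' x - f x| ≤ ε) (r : ℕ) :
    wl μ L ((mk μ)^[r + 1] f') ≤ (wl μ L ((mk μ)^[r + 1] f)) ^ (1 - Real.log 4 / Λ) +
      M * (7 * ε) ^ 4 ^ (r + 1) := by
  have hε0 : 0 ≤ ε := (abs_nonneg _).trans (hΔ 1)
  have h8 : (0 : ℝ) < Real.log 8 := Real.log_pos (by norm_num)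
  have hΛ0 : 0 < Λ := h8.trans_le hΛ
  obtain ⟨θ, hθ⟩ : ∃ θ, θ = Real.log 4 / Λ := ⟨_, rfl⟩
  have hθ0 : 0 < θ := by rw [hθ]; exact div_pos (Real.log_pos (by norm_num)) hΛ0
  have hθ1 : θ < 1 := by
    rw [hθ, div_lt_one hΛ0]
    exact (Real.log_lt_log (by norm_num) (by norm_num)).trans_le hΛ
  rw [← hθ]
  have hexp : Real.exp (-Λ) ≤ 1 / 8 := by
    calc Real.exp (-Λ) ≤ Real.exp (-Real.log 8) := Real.exp_le_exp.2 (by linarith)
      _ = 1 / 8 := by rw [Real.exp_neg, Real.exp_log (by norm_num)]; norm_num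
  have hM0 : 0 < M := by linarith
  have hδ' : ∀ x, |f x - 1| ≤ 1 / 16 := by
    intro x
    refine (hδ x).trans ?_
    rw [div_le_iff₀ (by positivity)]
    nlinarith
  obtain ⟨H, hH⟩ : ∃ H : G → ℝ, H = fun x => f x - 1 := ⟨_, rfl⟩
  have hfc := hf.cont
  have hfc' := hf'.cont
  have hHc : Continuous H := by rw [hH]; fun_prop
  have hHP : Pc μ H := by rw [hH]; exact hP
  obtain ⟨Δ, hΔd⟩ : ∃ Δ : G → ℝ, Δ = fun x => f' x - f x := ⟨_, rfl⟩
  have hΔcf : Cf Δ := by
    rw [hΔd]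
    exact ⟨by fun_prop, fun x => by simp only [hs, hs'], fun x y => by simp only [hc, hc']⟩
  have hΔb : ∀ x, |Δ x| ≤ ε := fun x => by rw [hΔd]; exact hΔ x
  have hlow := (low L hf hs hc hP (fun x => (hδ' x).trans (by norm_num)) (r + 1)).2
  rw [← hH] at hlow
  have hupp := upp L hf' hs' hc' hHP hΔcf (fun x => by rw [hH, hΔd]; ring) r
  have hprc : ∀ r z, Continuous (Pr μ H r z) := fun r z => pr_cont hHc r z
  have hit : ∀ k, Continuous fun x => (mk μ)^[k] f x - 1 := fun k =>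
    (Asm.iter_pd μ hf k).cont.sub continuous_const
  have hit' : ∀ k, Continuous fun x => (mk μ)^[k] f' x - 1 := fun k =>
    (Asm.iter_pd μ hf' k).cont.sub continuous_const
  have hU4 : ∀ r x, |Pr μ H r 2 x| ≤ 1 / 4 := by
    intro r x
    refine pr_bd hHc le_rfl (fun x => ?_) r x
    rw [hH, abs_mul, abs_of_pos (by norm_num : (0 : ℝ) < 2)]
    have := hδ' x
    linarith
  have hBc : Continuous (Br μ (fun r => Pr μ H r 2) Δ (r + 1)) :=
    (br_cf (fun r => ((pr_np L hHP r).pc (by norm_num)).toCf) hΔcf (r + 1)).cont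
  have hBb := br_bd (μ := μ) (U := fun r => Pr μ H r 2) hU4 hε hΔb (r + 1)
  -- the three Wilson loops
  have hprc2 := hprc (r + 1) 2
  have hprc1 := hprc (r + 1) (1 / 2)
  have w1 := wx_mono L (hit' (r + 1)) (by fun_prop) hupp
  have w2 := wx_mono L (by fun_prop) (hit (r + 1)) hlow
  have hr := Tens.rt_cont L
  have e1 : wx μ L (fun x => 1 / 2 * Pr μ H (r + 1) 2 x + Br μ (fun r => Pr μ H r 2) Δ (r + 1) x) =
      1 / 2 * wx μ L (Pr μ H (r + 1) 2) + wx μ L (Br μ (fun r => Pr μ H r 2) Δ (r + 1)) := by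
    unfold wx
    rw [← integral_const_mul, ← integral_add (integrable_cont μ (by fun_prop))
      (integrable_cont μ (by fun_prop))]
    refine integral_congr_ae (Filter.Eventually.of_forall fun y => ?_)
    simp only []
    ring
  have e2 : wx μ L (fun x => 2 * Pr μ H (r + 1) (1 / 2) x) =
      2 * wx μ L (Pr μ H (r + 1) (1 / 2)) := by
    unfold wx
    rw [← integral_const_mul]
    refine integral_congr_ae (Filter.Eventually.of_forall fun y => ?_)
    simp only []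
    ring
  rw [e1] at w1
  rw [e2] at w2
  have w3 := wx_bd (μ := μ) L hM hBc hBb
  have n1 : 0 ≤ wx μ L (Pr μ H (r + 1) (1 / 2)) :=
    wx_nonneg L ((pr_np L hHP (r + 1)).pc (by norm_num))
  have n2 : 0 ≤ wx μ L (Pr μ H (r + 1) 2) :=
    wx_nonneg L ((pr_np L hHP (r + 1)).pc (by norm_num))
  -- logarithmic convexity
  obtain ⟨C, hC⟩ : ∃ C : ℝ, C = Real.exp Λ / 2 := ⟨_, rfl⟩
  have hC0 : 0 < C := by rw [hC]; positivity
  have w4 := NP.log_convex L (pr_np L hHP (r + 1)) (a := 1 / 2) (b := C) (by norm_num) hC0 hθ0 hθ1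
  have e3 : (1 / 2 : ℝ) ^ (1 - θ) * C ^ θ = 2 := by
    rw [Real.rpow_def_of_pos (by norm_num), Real.rpow_def_of_pos hC0, ← Real.exp_add, hC,
      Real.log_div (Real.exp_pos _).ne' (by norm_num), Real.log_exp]
    have h1 : Real.log (1 / 2) = -Real.log 2 := by
      rw [one_div, Real.log_inv]
    have h2 : Real.log 4 = 2 * Real.log 2 := by
      rw [show (4 : ℝ) = 2 ^ 2 by norm_num, Real.log_pow]
      push_cast
      ring
    have h3 : Λ * θ = 2 * Real.log 2 := by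
      rw [hθ, ← h2]
      field_simp
    have h4 : Real.log (1 / 2) * (1 - θ) + (Λ - Real.log 2) * θ = Real.log 2 := by
      rw [h1]
      linear_combination h3
    rw [h4, Real.exp_log (by norm_num)]
  rw [e3] at w4
  have w5 : wx μ L (Pr μ H (r + 1) C) ≤ 1 := by
    have h1 := wx_bd (μ := μ) L hM (hprc (r + 1) C) (b := 1 / (4 * M)) (fun x => by
      refine pr_bd hHc ?_ (fun x => ?_) (r + 1) x
      · rw [div_le_div_iff₀ (by positivity) (by norm_num)]
        linarith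
      · rw [abs_mul, abs_of_pos hC0, hH, hC]
        have h2 := hδ x
        calc Real.exp Λ / 2 * |f x - 1| ≤ Real.exp Λ / 2 * (Real.exp (-Λ) / (2 * M)) :=
              mul_le_mul_of_nonneg_left h2 (by positivity)
          _ = Real.exp Λ * Real.exp (-Λ) / (4 * M) := by ring
          _ = 1 / (4 * M) := by rw [← Real.exp_add]; simp)
    refine h1.trans ?_
    rw [mul_one_div, div_le_one (by positivity)]
    linarith
  have n3 : 0 ≤ wx μ L (Pr μ H (r + 1) C) :=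
    wx_nonneg L ((pr_np L hHP (r + 1)).pc hC0.le)
  have w6 : wx μ L (Pr μ H (r + 1) C) ^ θ ≤ 1 := Real.rpow_le_one n3 w5 hθ0.le
  have w7 : wx μ L (Pr μ H (r + 1) (1 / 2)) ≤ wl μ L ((mk μ)^[r + 1] f) := by
    have : wl μ L ((mk μ)^[r + 1] f) = wx μ L fun x => (mk μ)^[r + 1] f x - 1 := rfl
    rw [this]
    linarith
  have w8 : wx μ L (Pr μ H (r + 1) (1 / 2)) ^ (1 - θ) ≤
      (wl μ L ((mk μ)^[r + 1] f)) ^ (1 - θ) := Real.rpow_le_rpow n1 w7 (by linarith)
  have w9 : wx μ L (Pr μ H (r + 1) 2) ≤ (wl μ L ((mk μ)^[r + 1] f)) ^ (1 - θ) := by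
    refine w4.trans ?_
    calc wx μ L (Pr μ H (r + 1) (1 / 2)) ^ (1 - θ) * wx μ L (Pr μ H (r + 1) C) ^ θ
        ≤ (wl μ L ((mk μ)^[r + 1] f)) ^ (1 - θ) * 1 :=
          mul_le_mul w8 w6 (Real.rpow_nonneg n3 _) ((Real.rpow_nonneg n1 _).trans w8)
      _ = _ := mul_one _
  have w10 : wl μ L ((mk μ)^[r + 1] f') = wx μ L fun x => (mk μ)^[r + 1] f' x - 1 := rfl
  rw [w10]
  have w11 : M * ((7 * ε) ^ 4 ^ (r + 1) / 7) ≤ M * (7 * ε) ^ 4 ^ (r + 1) := by
    refine mul_le_mul_of_nonneg_left ?_ hM0.le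
    exact div_le_self (by positivity) (by norm_num)
  linarith

end TenF

end

end Pool.Agent.T2H04.HY
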