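import Mathlib
import Pool.Agent.T2H04.HY.TenS

/-!
# Continuity of the string tension of the Wilson loop
-/

open MeasureTheory Matrix Filter
open scoped Matrix.Norms.Frobenius Topology

namespace Pool.Agent.T2H04.HY

set_option linter.unusedSectionVars false

noncomputable section

variable {G : Type} [Group G] [TopologicalSpace G] [IsTopologicalGroup G] [CompactSpace G]
  [MeasurableSpace G] [BorelSpace G] (μ : Measure G) [μ.IsHaarMeasure] [IsProbabilityMeasure μ]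
  {m : Type} [Fintype m] [DecidableEq m] (L : RD G m)

namespace TenF

theorem lim4 : Tendsto (fun k : ℕ => (1 : ℝ) / 4 ^ k) atTop (𝓝 0) := by
  have := tendsto_pow_atTop_nhds_zero_of_lt_one (by norm_num : (0 : ℝ) ≤ 1 / 4)
    (by norm_num : (1 / 4 : ℝ) < 1)
  refine this.congr fun k => ?_
  rw [_root_.one_div_pow]

/-- comparison of the exponential rates -/
theorem lim_cmp {w w' : ℕ → ℝ} (hw : ∀ r, 0 < w r) (hw' : ∀ r, 0 < w' r) {t t' a R M : ℝ}
    (ha0 : 0 ≤ a) (ha1 : a ≤ 1) (hM : 0 ≤ M)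
    (h : ∀ r, w' (r + 1) ≤ w (r + 1) ^ a + M * Real.exp (-(R * 4 ^ (r + 1))))
    (ht : Tendsto (fun r : ℕ => -(Real.log (w r)) / 4 ^ r) atTop (𝓝 t))
    (ht' : Tendsto (fun r : ℕ => -(Real.log (w' r)) / 4 ^ r) atTop (𝓝 t')) :
    min (a * t) R ≤ t' := by
  obtain ⟨s, hs⟩ : ∃ s, s = min (a * t) R := ⟨_, rfl⟩
  have hs1 : s ≤ a * t := by rw [hs]; exact min_le_left _ _
  have hs2 : s ≤ R := by rw [hs]; exact min_le_right _ _
  rw [← hs]
  refine le_of_forall_pos_le_add fun η hη => ?_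
  have h1 : ∀ᶠ r : ℕ in atTop, t - η < -(Real.log (w r)) / 4 ^ r :=
    ht.eventually (lt_mem_nhds (by linarith))
  have h2 : ∀ᶠ r : ℕ in atTop, s - η - Real.log (1 + M) * (1 / 4 ^ r) ≤
      -(Real.log (w' r)) / 4 ^ r := by
    filter_upwards [h1, eventually_ge_atTop 1] with r hr hr1
    obtain ⟨i, rfl⟩ : ∃ i, r = i + 1 := ⟨r - 1, by omega⟩
    have h4 : (0 : ℝ) < 4 ^ (i + 1) := by positivity
    rw [lt_div_iff₀ h4] at hr
    have h5 : w (i + 1) ^ a ≤ Real.exp (-((s - η) * 4 ^ (i + 1))) := by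
      rw [Real.rpow_def_of_pos (hw _), Real.exp_le_exp]
      have h6 : Real.log (w (i + 1)) * a ≤ -((t - η) * 4 ^ (i + 1)) * a :=
        mul_le_mul_of_nonneg_right (by linarith) ha0
      have h7 : (s - η) * 4 ^ (i + 1) ≤ (a * (t - η)) * 4 ^ (i + 1) := by
        refine mul_le_mul_of_nonneg_right ?_ h4.le
        nlinarith
      linarith
    have h6 : Real.exp (-(R * 4 ^ (i + 1))) ≤ Real.exp (-((s - η) * 4 ^ (i + 1))) := by
      rw [Real.exp_le_exp]
      have : (s - η) * 4 ^ (i + 1) ≤ R * 4 ^ (i + 1) :=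
        mul_le_mul_of_nonneg_right (by linarith) h4.le
      linarith
    have h7 : w' (i + 1) ≤ (1 + M) * Real.exp (-((s - η) * 4 ^ (i + 1))) := by
      have := mul_le_mul_of_nonneg_left h6 hM
      linarith [h i]
    have h8 := Real.log_le_log (hw' _) h7
    rw [Real.log_mul (by positivity) (Real.exp_pos _).ne', Real.log_exp] at h8
    have e1 : s - η - Real.log (1 + M) * (1 / 4 ^ (i + 1)) =
        ((s - η) * 4 ^ (i + 1) - Real.log (1 + M)) / 4 ^ (i + 1) := by field_simp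
    rw [e1]
    exact div_le_div_of_nonneg_right (by linarith) h4.le
  have h3 : Tendsto (fun r : ℕ => s - η - Real.log (1 + M) * ((1 : ℝ) / 4 ^ r)) atTop
      (𝓝 (s - η)) := by
    have := (lim4.const_mul (Real.log (1 + M))).const_sub (s - η)
    rwa [mul_zero, sub_zero] at this
  have := le_of_tendsto_of_tendsto h3 ht' h2
  linarith

variable {μ}

theorem wl_iter_pos {f : G → ℝ} (hf : PD μ f) (hs : ∀ x, f x⁻¹ = f x) (hw : 0 < wl μ L f) (k : ℕ) :
    0 < wl μ L ((mk μ)^[k] f) := by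
  obtain ⟨K, hK, hstep⟩ := wl_step μ L
  induction k with
  | zero => exact hw
  | succ k ih =>
    obtain ⟨B, hB1, hB⟩ := exists_bd (Asm.iter_pd μ hf k).cont
    have h1 := hstep _ (Asm.iter_pd μ hf k) (iter_sym hs k) B fun x =>
      (le_abs_self _).trans (hB x)
    rw [Function.iterate_succ_apply']
    have h2 : 0 < K * B ^ 3 * wl μ L (mk μ ((mk μ)^[k] f)) := lt_of_lt_of_le (by positivity) h1
    exact (pos_iff_pos_of_mul_pos h2).1 (by positivity)

/-- existence of the string tension, with an upper bound at all scales -/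
theorem ten_exists : ∃ D : ℝ, ∀ (q : ℕ) (f : G → ℝ), PD μ f → (∀ x, f x⁻¹ = f x) →
    (∀ x y, f (y * x * y⁻¹) = f x) → (∀ x, |(mk μ)^[q] f x - 1| ≤ 1 / 8) → 0 < wl μ L f →
    ∃ σ : ℝ, 0 < σ ∧
      Tendsto (fun k : ℕ => -(Real.log (wl μ L ((mk μ)^[k] f))) / 4 ^ k) atTop (𝓝 σ) ∧
      ∀ k, q ≤ k → σ ≤ -(Real.log (wl μ L ((mk μ)^[k] f))) / 4 ^ k + D * (1 / 4 ^ k) := by
  obtain ⟨K, hK, hstep⟩ := wl_step μ L
  obtain ⟨M, hM1, hM⟩ := exists_bd (Tens.rt_cont (G := G) L)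
  obtain ⟨D, hD⟩ : ∃ D : ℝ, D = Real.log (8 * K) := ⟨_, rfl⟩
  refine ⟨D / 3, fun q f hf hs hc hq hw => ?_⟩
  obtain ⟨w, hwd⟩ : ∃ w : ℕ → ℝ, w = fun k => wl μ L ((mk μ)^[k] f) := ⟨_, rfl⟩
  have hwp : ∀ k, 0 < w k := fun k => by rw [hwd]; exact wl_iter_pos L hf hs hw k
  have hnear : ∀ i x, |(mk μ)^[i + q] f x - 1| ≤ (1 / 2) ^ 4 ^ i / 4 := by
    intro i x
    rw [Function.iterate_add_apply]
    exact near_iter (Asm.iter_pd μ hf q) (iter_sym hs q) (Asm.iter_cls μ hc q) (by norm_num)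
      (fun x => (hq x).trans (by norm_num)) i x
  have hst : ∀ i, 4 * w (i + q) ^ 4 ≤ 8 * K * w (i + q + 1) := by
    intro i
    have h1 := hstep _ (Asm.iter_pd μ hf (i + q)) (iter_sym hs (i + q)) 2 fun x => by
      have h2 := (abs_le.1 (hnear i x)).2
      have h3 : ((1 : ℝ) / 2) ^ 4 ^ i ≤ 1 := pow_le_one₀ (by norm_num) (by norm_num)
      linarith
    rw [hwd]
    simp only [Function.iterate_succ_apply']
    refine h1.trans (le_of_eq ?_)
    ring
  obtain ⟨a, ha⟩ : ∃ a : ℕ → ℝ, a = fun k => -(Real.log (w k)) / 4 ^ k := ⟨_, rfl⟩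
  obtain ⟨b, hb⟩ : ∃ b : ℕ → ℝ, b = fun i => a (i + q) + D / 3 * (1 / 4 ^ (i + q)) := ⟨_, rfl⟩
  have hanti : Antitone b := by
    refine antitone_nat_of_succ_le fun k => ?_
    have h1 := Real.log_le_log (by have := hwp (k + q); positivity) (hst k)
    rw [Real.log_mul (by norm_num) (by have := hwp (k + q); positivity), Real.log_pow,
      Real.log_mul (by positivity) (hwp (k + q + 1)).ne', ← hD] at h1
    have h2 : 0 < Real.log 4 := Real.log_pos (by norm_num)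
    have h3 : -(Real.log (w (k + q + 1))) ≤ 4 * -(Real.log (w (k + q))) + D := by
      push_cast at h1
      linarith
    rw [hb, ha]
    simp only []
    have h4 : (0 : ℝ) < 4 ^ (k + q) := by positivity
    have e0 : k + 1 + q = k + q + 1 := by omega
    rw [e0, pow_succ]
    have e1 : -(Real.log (w (k + q + 1))) / (4 ^ (k + q) * 4) + D / 3 * (1 / (4 ^ (k + q) * 4)) =
        (-(Real.log (w (k + q + 1))) * 3 + D) / (12 * 4 ^ (k + q)) := by
      field_simp
      ring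
    have e2 : -(Real.log (w (k + q))) / 4 ^ (k + q) + D / 3 * (1 / 4 ^ (k + q)) =
        (-(Real.log (w (k + q))) * 12 + 4 * D) / (12 * 4 ^ (k + q)) := by
      field_simp
      ring
    rw [e1, e2]
    exact div_le_div_of_nonneg_right (by linarith) (by positivity)
  -- lower bound
  have hlo : ∀ i, Real.log 2 / 4 ^ q - Real.log M * (1 / 4 ^ (i + q)) ≤ a (i + q) := by
    intro i
    have hpd := Asm.iter_pd μ hf (i + q)
    have h1 : w (i + q) ≤ M * (1 / 2) ^ 4 ^ i := by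
      rw [hwd]
      have h2 := wx_bd (μ := μ) L hM (g := fun x => (mk μ)^[i + q] f x - 1)
        (hpd.cont.sub continuous_const) (hnear i)
      refine h2.trans ?_
      refine mul_le_mul_of_nonneg_left ?_ (by linarith)
      exact div_le_self (by positivity) (by norm_num)
    have h2 := Real.log_le_log (hwp (i + q)) h1
    rw [Real.log_mul (by positivity) (by positivity), Real.log_pow, one_div, Real.log_inv] at h2
    push_cast at h2
    rw [ha]
    simp only []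
    have h4 : (0 : ℝ) < 4 ^ q := by positivity
    have h5 : (0 : ℝ) < 4 ^ i := by positivity
    have e1 : Real.log 2 / 4 ^ q - Real.log M * (1 / 4 ^ (i + q)) =
        (4 ^ i * Real.log 2 - Real.log M) / 4 ^ (i + q) := by
      rw [pow_add]
      field_simp
    rw [e1]
    exact div_le_div_of_nonneg_right (by linarith) (by positivity)
  have hlimM : Tendsto (fun i : ℕ => Real.log 2 / 4 ^ q - Real.log M * ((1 : ℝ) / 4 ^ (i + q)))
      atTop (𝓝 (Real.log 2 / 4 ^ q)) := by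
    have := (((tendsto_add_atTop_iff_nat q).2 lim4).const_mul (Real.log M)).const_sub
      (Real.log 2 / 4 ^ q)
    rwa [mul_zero, sub_zero] at this
  have hlimD : Tendsto (fun i : ℕ => D / 3 * ((1 : ℝ) / 4 ^ (i + q))) atTop (𝓝 0) := by
    have := ((tendsto_add_atTop_iff_nat q).2 lim4).const_mul (D / 3)
    rwa [mul_zero] at this
  have hbdd : BddBelow (Set.range b) := by
    have h1 : Tendsto (fun i : ℕ => Real.log 2 / 4 ^ q - Real.log M * ((1 : ℝ) / 4 ^ (i + q)) +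
        D / 3 * ((1 : ℝ) / 4 ^ (i + q))) atTop (𝓝 (Real.log 2 / 4 ^ q + 0)) := hlimM.add hlimD
    obtain ⟨c, hc⟩ := h1.bddBelow_range
    refine ⟨c, ?_⟩
    rintro _ ⟨k, rfl⟩
    refine (hc ⟨k, rfl⟩).trans ?_
    rw [hb]
    simp only []
    have := hlo k
    linarith
  have htb : Tendsto b atTop (𝓝 (⨅ k, b k)) := tendsto_atTop_ciInf hanti hbdd
  obtain ⟨σ, hσ⟩ : ∃ σ, σ = ⨅ k, b k := ⟨_, rfl⟩
  rw [← hσ] at htb
  have hta' : Tendsto (fun i => a (i + q)) atTop (𝓝 σ) := by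
    have h2 := htb.sub hlimD
    rw [sub_zero] at h2
    refine h2.congr fun k => ?_
    rw [hb]
    simp only []
    ring
  have hta : Tendsto a atTop (𝓝 σ) := (tendsto_add_atTop_iff_nat q).1 hta'
  refine ⟨σ, ?_, ?_, fun k hk => ?_⟩
  · have h1 := le_of_tendsto_of_tendsto' hlimM hta' hlo
    refine lt_of_lt_of_le ?_ h1
    have : 0 < Real.log 2 := Real.log_pos (by norm_num)
    positivity
  · rw [ha, hwd] at hta
    exact hta
  · obtain ⟨i, rfl⟩ : ∃ i, k = i + q := ⟨k - q, by omega⟩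
    have h1 : σ ≤ b i := by rw [hσ]; exact ciInf_le hbdd i
    rw [hb, ha, hwd] at h1
    exact h1

theorem wl_tendsto {f : ℕ → G → ℝ} {g : G → ℝ} (hf : ∀ n, Continuous (f n)) (hg : Continuous g)
    (h : TendstoUniformly f g atTop) : Tendsto (fun n => wl μ L (f n)) atTop (𝓝 (wl μ L g)) := by
  set F : ℕ → C(G, ℝ) := fun n => ⟨f n, hf n⟩ with hF
  set F' : C(G, ℝ) := ⟨g, hg⟩ with hF'
  set D : C(G, ℝ) := ⟨fun y => (trace (L.rho y)).re, Tens.rt_cont L⟩ with hD
  have h0 : Tendsto F atTop (𝓝 F') := ContinuousMap.tendsto_iff_tendstoUniformly.2 h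
  exact ((continuous_int μ).tendsto _).comp ((h0.sub_const (1 : C(G, ℝ))).const_mul D)

/-- uniform closeness -/
theorem close {f : ℕ → G → ℝ} {g : G → ℝ} (h : TendstoUniformly f g atTop) {ε : ℝ} (hε : 0 < ε) :
    ∀ᶠ j in atTop, ∀ x, |f j x - g x| ≤ ε := by
  have h1 := Metric.tendstoUniformly_iff.1 h ε hε
  filter_upwards [h1] with j hj x
  have := (hj x).le
  rwa [Real.dist_eq, abs_sub_comm] at this

include L in
theorem pc_iter {f : G → ℝ} (hf : PD μ f) (hs : ∀ x, f x⁻¹ = f x)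
    (hc : ∀ x y, f (y * x * y⁻¹) = f x) (k : ℕ) : Pc μ fun x => (mk μ)^[k + 1] f x - 1 := by
  obtain ⟨Z, hZ1, hZ, -⟩ := mk_sub_one (Asm.iter_pd μ hf k) (iter_sym hs k) (Asm.iter_cls μ hc k)
  have hcf : Cf fun x => (mk μ)^[k] f x - 1 :=
    ⟨by have := (Asm.iter_pd μ hf k).cont; fun_prop,
      fun x => by simp only [iter_sym hs k], fun x y => by simp only [Asm.iter_cls μ hc k]⟩
  refine ((pc_sm L (pc_c4 hcf)).smul (c := Z⁻¹) (by positivity)).congr fun x => ?_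
  rw [Function.iterate_succ_apply', hZ]
  ring

end TenF

open TenF in
/-- The string tension is continuous under uniform convergence of the densities. -/
theorem tension_lim {f : ℕ → G → ℝ} {f0 : G → ℝ} (hf : ∀ j, PD μ (f j))
    (hs : ∀ j x, f j x⁻¹ = f j x) (hc : ∀ j x y, f j (y * x * y⁻¹) = f j x)
    (hf0 : PD μ f0) (hs0 : ∀ x, f0 x⁻¹ = f0 x) (hc0 : ∀ x y, f0 (y * x * y⁻¹) = f0 x)
    (h1 : TendstoUniformly (fun k => (mk μ)^[k] f0) (fun _ => 1) atTop)
    (hw : 0 < wl μ L f0) (h : TendstoUniformly f f0 atTop) :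
    ∃ s0 : ℝ, 0 < s0 ∧
      Tendsto (fun k : ℕ => -(Real.log (wl μ L ((mk μ)^[k] f0))) / 4 ^ k) atTop (𝓝 s0) ∧
      ∃ s : ℕ → ℝ, (∀ᶠ j in atTop, 0 < s j ∧
        Tendsto (fun k : ℕ => -(Real.log (wl μ L ((mk μ)^[k] (f j)))) / 4 ^ k) atTop (𝓝 (s j))) ∧
        Tendsto s atTop (𝓝 s0) := by
  classical
  obtain ⟨D, hex⟩ := ten_exists (μ := μ) L
  obtain ⟨M, hM1, hM⟩ := exists_bd (Tens.rt_cont (G := G) L)
  have hM0 : 0 < M := by linarith
  obtain ⟨q, hq⟩ := (close h1 (by norm_num : (0 : ℝ) < 1 / 16)).exists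
  obtain ⟨s0, hs00, hs0t, hs0u⟩ := hex q f0 hf0 hs0 hc0 (fun x => (hq x).trans (by norm_num)) hw
  have hwt := wl_tendsto (μ := μ) L (fun n => (hf n).cont) hf0.cont h
  obtain ⟨Good, hGood⟩ : ∃ Good : ℕ → Prop, Good = fun j =>
    (∀ x, |(mk μ)^[q] (f j) x - 1| ≤ 1 / 8) ∧ 0 < wl μ L (f j) := ⟨_, rfl⟩
  have hev : ∀ᶠ j in atTop, Good j := by
    filter_upwards [close (Asm.iter_tendsto μ hf hf0 h q) (by norm_num : (0 : ℝ) < 1 / 16),
      hwt.eventually (lt_mem_nhds hw)] with j hj1 hj2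
    rw [hGood]
    refine ⟨fun x => ?_, hj2⟩
    have h2 := abs_le.1 (hj1 x)
    have h3 := abs_le.1 (hq x)
    rw [abs_le]
    constructor <;> linarith
  have hch : ∀ j, Good j → ∃ σ : ℝ, 0 < σ ∧
      Tendsto (fun k : ℕ => -(Real.log (wl μ L ((mk μ)^[k] (f j)))) / 4 ^ k) atTop (𝓝 σ) ∧
      ∀ k, q ≤ k → σ ≤ -(Real.log (wl μ L ((mk μ)^[k] (f j)))) / 4 ^ k + D * (1 / 4 ^ k) := by
    intro j hj
    rw [hGood] at hj
    exact hex q (f j) (hf j) (hs j) (hc j) hj.1 hj.2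
  obtain ⟨s, hsd⟩ : ∃ s : ℕ → ℝ, s = fun j => if hj : Good j then (hch j hj).choose else 0 :=
    ⟨_, rfl⟩
  have hsp : ∀ j, Good j → 0 < s j ∧
      Tendsto (fun k : ℕ => -(Real.log (wl μ L ((mk μ)^[k] (f j)))) / 4 ^ k) atTop (𝓝 (s j)) ∧
      ∀ k, q ≤ k → s j ≤ -(Real.log (wl μ L ((mk μ)^[k] (f j)))) / 4 ^ k + D * (1 / 4 ^ k) := by
    intro j hj
    have e : s j = (hch j hj).choose := by
      rw [hsd]
      exact dif_pos hj
    rw [e]
    exact (hch j hj).choose_spec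
  refine ⟨s0, hs00, hs0t, s, ?_, ?_⟩
  · filter_upwards [hev] with j hj
    exact ⟨(hsp j hj).1, (hsp j hj).2.1⟩
  · rw [tendsto_order]
    refine ⟨fun a ha => ?_, fun a ha => ?_⟩
    · -- lower bound
      have hl4 : 0 < Real.log 4 := Real.log_pos (by norm_num)
      have hl8 : 0 < Real.log 8 := Real.log_pos (by norm_num)
      obtain ⟨Λ, hΛ⟩ : ∃ Λ : ℝ, Λ = max (Real.log 8) (2 * Real.log 4 * s0 / (s0 - a)) := ⟨_, rfl⟩
      have hΛ8 : Real.log 8 ≤ Λ := by rw [hΛ]; exact le_max_left _ _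
      have hΛ2 : 2 * Real.log 4 * s0 / (s0 - a) ≤ Λ := by rw [hΛ]; exact le_max_right _ _
      have hΛ0 : 0 < Λ := hl8.trans_le hΛ8
      have hsa : 0 < s0 - a := by linarith
      rw [div_le_iff₀ hsa] at hΛ2
      have hθ : a < (1 - Real.log 4 / Λ) * s0 := by
        have h2 : Real.log 4 / Λ * s0 ≤ (s0 - a) / 2 := by
          rw [div_mul_eq_mul_div, div_le_iff₀ hΛ0]
          linarith
        linarith
      have hθ1 : 0 ≤ 1 - Real.log 4 / Λ := by
        rw [sub_nonneg, div_le_one hΛ0]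
        exact (Real.log_le_log (by norm_num) (by norm_num)).trans hΛ8
      have hθ2 : 1 - Real.log 4 / Λ ≤ 1 := by
        have : 0 ≤ Real.log 4 / Λ := by positivity
        linarith
      obtain ⟨k0, hk0, hk1⟩ := ((close h1 (by positivity : 0 < Real.exp (-Λ) / (2 * M))).and
        (eventually_ge_atTop 1)).exists
      obtain ⟨i0, rfl⟩ : ∃ i, k0 = i + 1 := ⟨k0 - 1, by omega⟩
      obtain ⟨R, hR⟩ : ∃ R : ℝ, R = 4 ^ (i0 + 1) * (s0 + 1) := ⟨_, rfl⟩
      have hR0 : 0 < R := by rw [hR]; positivity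
      obtain ⟨ε, hε⟩ : ∃ ε : ℝ, ε = Real.exp (-R) / 7 := ⟨_, rfl⟩
      have h7ε : 7 * ε = Real.exp (-R) := by rw [hε]; ring
      have hε1 : 7 * ε ≤ 1 := by
        rw [h7ε, Real.exp_le_one_iff]
        linarith
      filter_upwards [hev, close (Asm.iter_tendsto μ hf hf0 h (i0 + 1))
        (by rw [hε]; positivity : 0 < ε)] with j hj hjε
      have hsj := hsp j hj
      have hGj := hj
      rw [hGood] at hGj
      have hcmp := TenF.compare (μ := μ) L hM1 hM (Asm.iter_pd μ hf0 (i0 + 1)) (iter_sym hs0 (i0 + 1))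
        (Asm.iter_cls μ hc0 (i0 + 1)) (Asm.iter_pd μ (hf j) (i0 + 1)) (iter_sym (hs j) (i0 + 1))
        (Asm.iter_cls μ (hc j) (i0 + 1)) (pc_iter L hf0 hs0 hc0 i0) hΛ8 hk0 hε1 hjε
      have hsc : ∀ (g : G → ℝ) (t : ℝ),
          Tendsto (fun k : ℕ => -(Real.log (wl μ L ((mk μ)^[k] g))) / 4 ^ k) atTop (𝓝 t) →
          Tendsto (fun k : ℕ => -(Real.log (wl μ L ((mk μ)^[k] ((mk μ)^[i0 + 1] g)))) / 4 ^ k)
            atTop (𝓝 (4 ^ (i0 + 1) * t)) := by
        intro g t ht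
        have h2 := ((tendsto_add_atTop_iff_nat (i0 + 1)).2 ht).const_mul (4 ^ (i0 + 1))
        refine h2.congr fun k => ?_
        have e4 : (4 : ℝ) ^ (k + (i0 + 1)) = 4 ^ k * 4 ^ (i0 + 1) := pow_add _ _ _
        rw [Function.iterate_add_apply, e4]
        field_simp
      have h3 := lim_cmp (w := fun r => wl μ L ((mk μ)^[r] ((mk μ)^[i0 + 1] f0)))
        (w' := fun r => wl μ L ((mk μ)^[r] ((mk μ)^[i0 + 1] (f j))))
        (fun r => wl_iter_pos L (Asm.iter_pd μ hf0 (i0 + 1)) (iter_sym hs0 (i0 + 1))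
          (wl_iter_pos L hf0 hs0 hw _) r)
        (fun r => wl_iter_pos L (Asm.iter_pd μ (hf j) (i0 + 1)) (iter_sym (hs j) (i0 + 1))
          (wl_iter_pos L (hf j) (hs j) hGj.2 _) r) hθ1 hθ2 hM0.le (R := R)
        (fun r => by
          have h4 := hcmp r
          rw [h7ε, ← Real.exp_nat_mul] at h4
          have e : ((4 ^ (r + 1) : ℕ) : ℝ) * -R = -(R * 4 ^ (r + 1)) := by
            push_cast
            ring
          rw [e] at h4
          exact h4) (hsc f0 s0 hs0t) (hsc (f j) (s j) hsj.2.1)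
      have h4 : (0 : ℝ) < 4 ^ (i0 + 1) := by positivity
      have h5 : min ((1 - Real.log 4 / Λ) * (4 ^ (i0 + 1) * s0)) R =
          (1 - Real.log 4 / Λ) * (4 ^ (i0 + 1) * s0) := by
        refine min_eq_left ?_
        rw [hR]
        have h6 : (1 - Real.log 4 / Λ) * (4 ^ (i0 + 1) * s0) ≤ 1 * (4 ^ (i0 + 1) * s0) :=
          mul_le_mul_of_nonneg_right hθ2 (by positivity)
        nlinarith
      rw [h5] at h3
      have h6 : 4 ^ (i0 + 1) * ((1 - Real.log 4 / Λ) * s0) ≤ 4 ^ (i0 + 1) * s j := by linarith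
      exact hθ.trans_le (le_of_mul_le_mul_left h6 h4)
    · -- upper bound
      have h2 : Tendsto (fun k : ℕ => -(Real.log (wl μ L ((mk μ)^[k] f0))) / 4 ^ k +
          D * ((1 : ℝ) / 4 ^ k)) atTop (𝓝 s0) := by
        have := hs0t.add (lim4.const_mul D)
        rwa [mul_zero, add_zero] at this
      obtain ⟨k, hk, hkq⟩ := ((h2.eventually (gt_mem_nhds ha)).and (eventually_ge_atTop q)).exists
      have h3 := wl_tendsto (μ := μ) L (fun n => (Asm.iter_pd μ (hf n) k).cont)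
        (Asm.iter_pd μ hf0 k).cont (Asm.iter_tendsto μ hf hf0 h k)
      have h4 : Tendsto (fun j => -(Real.log (wl μ L ((mk μ)^[k] (f j)))) / 4 ^ k +
          D * ((1 : ℝ) / 4 ^ k)) atTop (𝓝 (-(Real.log (wl μ L ((mk μ)^[k] f0))) / 4 ^ k +
          D * ((1 : ℝ) / 4 ^ k))) :=
        (((h3.log (wl_iter_pos L hf0 hs0 hw k).ne').neg).div_const _).add_const _
      filter_upwards [hev, h4.eventually (gt_mem_nhds hk)] with j hj hj2
      exact ((hsp j hj).2.2 k hkq).trans_lt hj2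

end

end Pool.Agent.T2H04.HY
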