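import Mathlib
import Pool.Agent.T2H04.HY.ActMain
import Pool.Agent.T2H04.HY.Scal
import Pool.Agent.T2H04.HY.TenF
import Pool.Agent.T2H04.HY.TenLim

/-!
# The main theorem on the level of the renormalisation group
-/

open MeasureTheory Matrix Filter
open scoped Matrix.Norms.Frobenius Topology

namespace Pool.Agent.T2H04.HY

set_option linter.unusedSectionVars false

noncomputable section

variable {G : Type} [Group G] [TopologicalSpace G] [IsTopologicalGroup G] [CompactSpace G]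
  [MeasurableSpace G] [BorelSpace G] (μ : Measure G) [μ.IsHaarMeasure] [IsProbabilityMeasure μ]
  {N : ℕ} (R : URep G N)

/-- a full trajectory of the renormalisation group with the renormalised coupling `κ` -/
structure Cont (n : ℕ) (ca κ : ℝ) (f : ℤ → G → ℝ) : Prop where
  pd : ∀ k, PD μ (f k)
  pos : ∀ k x, 0 < f k x
  cls : ∀ k x y, f k (y * x * y⁻¹) = f k x
  inv : ∀ k x, f k x⁻¹ = f k x
  step : ∀ k, mk μ (f k) = f (k + 1)
  g : gsq μ R n (f 0) = κ
  af : Tendsto (fun k : ℕ => (k : ℝ) * gsq μ R n (f (-(k : ℤ)))) atTop (𝓝 (8 / ca))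
  up : ∃ C σ : ℝ, 0 < C ∧ 0 < σ ∧ ∀ (k : ℕ) (x : G), |f k x - 1| ≤ C * Real.exp (-(σ * 4 ^ k))

/-- the ultraviolet limit of the lattice theories with the action `V` and the string tension `σV` -/
structure UVL (n : ℕ) (ca : ℝ) (V : G → ℝ) (κ : ℝ) (f : ℤ → G → ℝ) (σ : ℝ) (σV : ℝ → ℝ) :
    Prop where
  ex : ∃ (β : ℕ → ℝ) (k : ℕ → ℕ), (∀ j, 0 < β j) ∧ Tendsto β atTop atTop ∧
    ∀ j, gsq μ R n ((mk μ)^[k j] (bw μ V (β j))) = κ
  lim : ∀ (β : ℕ → ℝ) (k : ℕ → ℕ), (∀ j, 0 < β j) → Tendsto β atTop atTop →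
    Tendsto (fun j => gsq μ R n ((mk μ)^[k j] (bw μ V (β j)))) atTop (𝓝 κ) →
    Tendsto (fun j => (k j : ℝ) / β j) atTop (𝓝 (8 / ca)) ∧
    (∀ l : ℤ, TendstoUniformly (fun j => (mk μ)^[((k j : ℤ) + l).toNat] (bw μ V (β j)))
      (f l) atTop) ∧ Tendsto (fun j => 4 ^ k j * σV (β j)) atTop (𝓝 σ)

/-- `s` is the smallest string tension of the plaquette density `w` -/
def Ten (w : G → ℝ) (s : ℝ) : Prop :=
  Tendsto (fun q : ℕ => -(Real.log (e2 μ ((mk μ)^[q] w))) / (2 * 4 ^ q)) atTop (𝓝 s)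

variable {R}

/-! ### properties of the Boltzmann factors -/

theorem PolAct.cont' {V : G → ℝ} (hV : PolAct R V) : Continuous V := by
  obtain ⟨p, hp⟩ := hV.poly
  have h1 : Continuous fun g : G => MvPolynomial.eval (Sum.elim (fun ij => R.rho g ij.1 ij.2)
      (fun ij => star (R.rho g ij.1 ij.2)) : (Fin N × Fin N) ⊕ (Fin N × Fin N) → ℂ) p := by
    refine (MvPolynomial.continuous_eval p).comp (continuous_pi fun k => ?_)
    have hm : Continuous fun g : G => R.rho g := R.cont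
    rcases k with k | k
    · exact hm.matrix_elem _ _
    · exact (hm.matrix_elem _ _).star
  have h2 : V = fun g => (MvPolynomial.eval (Sum.elim (fun ij => R.rho g ij.1 ij.2)
      (fun ij => star (R.rho g ij.1 ij.2)) : (Fin N × Fin N) ⊕ (Fin N × Fin N) → ℂ) p).re := by
    funext g
    rw [← hp g, Complex.ofReal_re]
  rw [h2]
  exact Complex.continuous_re.comp h1

theorem bw_pd {V : G → ℝ} (hc : Continuous V) (β : ℝ) : PD μ (bw μ V β) := by
  have he : Continuous fun x : G => Real.exp (-(β * V x)) := by fun_prop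
  have hZ : 0 < ∫ y, Real.exp (-(β * V y)) ∂μ := by
    exact Continuous.integral_pos_of_hasCompactSupport_nonneg_nonzero (x := (1 : G)) he
      (HasCompactSupport.of_compactSpace _) (fun y => (Real.exp_pos _).le) (Real.exp_pos _).ne'
  refine ⟨he.div_const _, fun x => ?_, ?_⟩
  · unfold bw; positivity
  · unfold bw
    rw [integral_div, div_self hZ.ne']

theorem bw_cls {V : G → ℝ} (hV : ∀ x y, V (y * x * y⁻¹) = V x) (β : ℝ) (x y : G) :
    bw μ V β (y * x * y⁻¹) = bw μ V β x := by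
  unfold bw; rw [hV]

theorem bw_inv {V : G → ℝ} (hV : ∀ x, V x⁻¹ = V x) (β : ℝ) (x : G) :
    bw μ V β x⁻¹ = bw μ V β x := by
  unfold bw; rw [hV]

theorem gsq_tendsto {n : ℕ} (hn : 0 < n) {f : ℕ → G → ℝ} {g : G → ℝ} (hf : ∀ j, Continuous (f j))
    (hg : Continuous g) (h : TendstoUniformly f g atTop) :
    Tendsto (fun j => gsq μ R n (f j)) atTop (𝓝 (gsq μ R n g)) := by
  have h1 := Asm.g2_tendsto μ (blk R) hf hg h
  simp only [g2_blk μ R hn] at h1
  have hc : (2 * (n : ℝ)) ≠ 0 := by positivity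
  have h2 := h1.const_mul (2 * (n : ℝ))⁻¹
  simpa only [inv_mul_cancel_left₀ hc] using h2

/-- the factor `2` does not change the string tension -/
theorem lim_wl {g : ℕ → G → ℝ} (hg : ∀ k, PD μ (g k)) {s : ℝ} :
    Tendsto (fun k : ℕ => -(Real.log (wl μ (blk R) (g k))) / 4 ^ k) atTop (𝓝 s) ↔
      Tendsto (fun k : ℕ => -(Real.log (wlp μ R (g k))) / 4 ^ k) atTop (𝓝 s) := by
  have h0 : Tendsto (fun k : ℕ => Real.log 2 / (4 : ℝ) ^ k) atTop (𝓝 0) :=
    Tendsto.const_div_atTop (tendsto_pow_atTop_atTop_of_one_lt (by norm_num)) _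
  have h1 : Tendsto (fun k : ℕ => -(Real.log (wl μ (blk R) (g k))) / 4 ^ k -
      -(Real.log (wlp μ R (g k))) / 4 ^ k) atTop (𝓝 0) := by
    refine squeeze_zero_norm (fun k => ?_) h0
    rw [wl_blk μ R (hg k), ← sub_div, Real.norm_eq_abs, abs_div, abs_of_pos (by positivity : (0:ℝ) < 4 ^ k)]
    refine div_le_div_of_nonneg_right ?_ (by positivity)
    by_cases hw : wlp μ R (g k) = 0
    · rw [hw, mul_zero]
      simp [Real.log_nonneg]
    · rw [Real.log_mul two_ne_zero hw]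
      have : -(Real.log 2 + Real.log (wlp μ R (g k))) - -Real.log (wlp μ R (g k)) = -Real.log 2 := by
        ring
      rw [this, abs_neg, abs_of_nonneg (Real.log_nonneg (by norm_num))]
  constructor
  · intro h
    have := h.sub h1
    simpa using this
  · intro h
    have := h.add h1
    simpa using this

/-- Wilson's trajectories: the result of `continuum`, in the notation of the main theorem. -/
theorem wilson_traj {n : ℕ} {X : Fin n → Matrix (Fin N) (Fin N) ℂ} (h : SG R n X) :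
    ∃ κ1 : ℝ, 0 < κ1 ∧ ∀ κ : ℝ, 0 < κ → κ ≤ κ1 → ∃ (β : ℕ → ℝ) (k : ℕ → ℕ) (f : ℤ → G → ℝ),
      (∀ j, 0 < β j) ∧ Tendsto β atTop atTop ∧ Tendsto k atTop atTop ∧ Cont μ R n (CA X) κ f ∧
      ∀ l : ℤ, TendstoUniformly (fun j => (mk μ)^[((k j : ℤ) + l).toNat]
        (bw μ (wa R) (β j))) (f l) atTop := by
  have hn := h.npos
  have hn0 : (0 : ℝ) < n := by exact_mod_cast hn
  have hs := blk_simple R h.conn h.nonab h.irred
  obtain ⟨hfin, E, hE, oE, fE, sE⟩ := blk_basis R X h.mem h.orth h.span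
  obtain ⟨cas, hcas0, hcas, hcs⟩ := cas_exists hs E hE oE fE
  obtain ⟨Good, ts, C, ρs, c, p, uv⟩ := uv_exists μ (blk R) hs hn E hE oE fE hfin cas hcas0 hcas
  obtain ⟨κ1, hκ1, H⟩ := continuum μ (blk R) hs.conn (hne_of_simple _ hs) Good ts C ρs c (cas / 8)
    n p uv
  have hc : 0 < 2 * (n : ℝ) := by positivity
  have hca : cas = CA X / 2 := by
    unfold CA
    rw [sE] at hcs
    field_simp
    linarith
  refine ⟨κ1 / (2 * n), by positivity, fun κ hκ hκle => ?_⟩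
  rw [le_div_iff₀ hc] at hκle
  obtain ⟨t, k, f, ht, htt, hk, hlim, hpd, hcls, hmk, hg, haf, hup, -, hpos, hinv, -⟩ :=
    H (2 * n * κ) (by positivity) (by linarith)
  refine ⟨fun j => 2 / t j, k, f, fun j => div_pos two_pos (ht j), ?_, hk, ?_, ?_⟩
  · have h1 : Tendsto t atTop (𝓝[>] 0) :=
      tendsto_nhdsWithin_iff.2 ⟨htt, Eventually.of_forall ht⟩
    exact (tendsto_inv_nhdsGT_zero.comp h1).const_mul_atTop two_pos
  · refine ⟨hpd, hpos, hcls, hinv, hmk, ?_, ?_, hup⟩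
    · rw [g2_blk μ R hn] at hg
      exact mul_left_cancel₀ hc.ne' hg
    · simp only [g2_blk μ R hn] at haf
      have h1 := haf.div_const (2 * (n : ℝ))
      have e : (n : ℝ) / (cas / 8) / (2 * n) = 8 / CA X := by
        rw [hca]
        by_cases h0 : CA X = 0
        · rw [h0]; simp
        · field_simp
      rw [e] at h1
      refine h1.congr fun k => ?_
      field_simp
  · intro l
    have h1 := hlim l
    simp only [wil_blk] at h1
    exact h1

/-- the trajectories converge to the strong coupling fixed point -/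
theorem Cont.to_one {n : ℕ} {ca κ : ℝ} {f : ℤ → G → ℝ} (h : Cont μ R n ca κ f) :
    TendstoUniformly (fun k => (HY.mk μ)^[k] (f 0)) (fun _ => 1) atTop := by
  obtain ⟨C, σ, hC, hσ, hup⟩ := h.up
  have hit : ∀ k : ℕ, (HY.mk μ)^[k] (f 0) = f k := by
    intro k
    induction k with
    | zero => rfl
    | succ k ih => rw [Function.iterate_succ_apply', ih, h.step, Nat.cast_succ]
  have h1 : Tendsto (fun n : ℕ => C * Real.exp (-(σ * 4 ^ n))) atTop (𝓝 0) := by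
    rw [← mul_zero C]
    refine Tendsto.const_mul C (Real.tendsto_exp_neg_atTop_nhds_zero.comp ?_)
    exact (tendsto_pow_atTop_atTop_of_one_lt (by norm_num : (1 : ℝ) < 4)).const_mul_atTop hσ
  rw [Metric.tendstoUniformly_iff]
  intro ε hε
  filter_upwards [h1.eventually (gt_mem_nhds hε)] with n hn x
  rw [dist_comm, Real.dist_eq, hit]
  exact (hup n x).trans_lt hn

theorem Cont.iter {n : ℕ} {ca κ : ℝ} {f : ℤ → G → ℝ} (h : Cont μ R n ca κ f) (k : ℕ) (l : ℤ) :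
    (HY.mk μ)^[k] (f l) = f (l + k) := by
  induction k with
  | zero => simp
  | succ k ih => rw [Function.iterate_succ_apply', ih, h.step]; congr 1; push_cast; ring

theorem gsq_pos {n : ℕ} {X : Fin n → Matrix (Fin N) (Fin N) ℂ} (h : SG R n X) {f : G → ℝ}
    (hf : Continuous f) (hpos : ∀ x, 0 < f x) : 0 < gsq μ R n f := by
  have hn := h.npos
  have hn0 : (0 : ℝ) < n := by exact_mod_cast hn
  have hs := blk_simple R h.conn h.nonab h.irred
  have h1 := Asm.g2_one_pos μ (blk R) (hne_of_simple _ hs)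
  obtain ⟨x0, -, hx0⟩ := isCompact_univ.exists_isMinOn ⟨(1 : G), trivial⟩ hf.continuousOn
  have h2 : g2 μ (blk R) (fun _ => 1) * f x0 ≤ g2 μ (blk R) f := by
    unfold g2
    rw [← integral_mul_const]
    have hd := Asm.dis_cont' (blk R)
    refine integral_mono (integrable_cont μ (by fun_prop)) (integrable_cont μ (by fun_prop))
      fun y => ?_
    simp only [mul_one]
    exact mul_le_mul_of_nonneg_left (hx0 (Set.mem_univ y)) (sq_nonneg _)
  have h3 : 0 < g2 μ (blk R) f := lt_of_lt_of_le (mul_pos h1 (hpos x0)) h2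
  rw [g2_blk μ R hn] at h3
  exact pos_of_mul_pos_right h3 (by positivity)

theorem Ten.iter {w : G → ℝ} {s : ℝ} (h : Ten μ w s) (k : ℕ) :
    Ten μ ((mk μ)^[k] w) (4 ^ k * s) := by
  unfold Ten at *
  have h1 := (h.comp (tendsto_add_atTop_nat k)).const_mul ((4 : ℝ) ^ k)
  refine h1.congr fun q => ?_
  simp only [Function.comp_apply]
  rw [← Function.iterate_add_apply, pow_add]
  field_simp

theorem Ten.unique {w : G → ℝ} {s s' : ℝ} (h : Ten μ w s) (h' : Ten μ w s') : s = s' :=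
  tendsto_nhds_unique h h'

theorem iter_inv {f : G → ℝ} (hf : ∀ x, f x⁻¹ = f x) (i : ℕ) (x : G) :
    (mk μ)^[i] f x⁻¹ = (mk μ)^[i] f x := by
  induction i generalizing x with
  | zero => exact hf x
  | succ i ih =>
    rw [Function.iterate_succ_apply']
    exact Low.mk_sym μ ih x

/-- the Boltzmann factor is Lipschitz -/
theorem bw_lip {V : G → ℝ} (hV : PolAct R V) (β : ℝ) : ∃ Λ : ℝ, ∀ x y : G,
    |bw μ V β x - bw μ V β y| ≤ Λ * ‖(blk R).rho x - (blk R).rho y‖ := by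
  obtain ⟨V', hV', hVr⟩ := pol_act R μ V hV
  set Z : ℝ := ∫ y, Real.exp (-(β * V y)) ∂μ with hZ
  set Φ : Mt (Fin N ⊕ Fin N) → ℝ := fun x => Real.exp (-(β * ((V' x).re / 2))) / Z with hΦ
  have h1 : ContDiff ℝ 1 V' := hV'.diff.restrict_scalars ℝ
  have h2 : ContDiff ℝ 1 Φ := by
    have h3 : ContDiff ℝ 1 fun x => (V' x).re := Complex.reCLM.contDiff.comp h1
    exact (((h3.div_const 2).const_smul β).neg.exp).div_const Z
  obtain ⟨K, hK⟩ := (h2.locallyLipschitz.locallyLipschitzOn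
    (s := Set.range (blk R).rho)).exists_lipschitzOnWith_of_compact (isCompact_range (blk R).cont)
  refine ⟨K, fun x y => ?_⟩
  have h3 := hK.dist_le_mul _ (Set.mem_range_self x) _ (Set.mem_range_self y)
  have e : ∀ z : G, Φ ((blk R).rho z) = bw μ V β z := by
    intro z
    rw [hΦ]
    unfold bw
    simp only [hVr]
    rw [mul_div_cancel_left₀ _ two_ne_zero]
  rw [e, e, Real.dist_eq, dist_eq_norm] at h3
  exact h3

theorem bw_pos {V : G → ℝ} (hc : Continuous V) (β : ℝ) (x : G) : 0 < bw μ V β x := by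
  have he : Continuous fun x : G => Real.exp (-(β * V x)) := by fun_prop
  have hZ : 0 < ∫ y, Real.exp (-(β * V y)) ∂μ := by
    exact Continuous.integral_pos_of_hasCompactSupport_nonneg_nonzero (x := (1 : G)) he
      (HasCompactSupport.of_compactSpace _) (fun y => (Real.exp_pos _).le) (Real.exp_pos _).ne'
  unfold bw
  positivity

theorem to_one_of {f : ℕ → G → ℝ} {C σ : ℝ} (hσ : 0 < σ)
    (hup : ∀ (k : ℕ) (x : G), |f k x - 1| ≤ C * Real.exp (-(σ * 4 ^ k))) :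
    TendstoUniformly f (fun _ => 1) atTop := by
  have h1 : Tendsto (fun n : ℕ => C * Real.exp (-(σ * 4 ^ n))) atTop (𝓝 0) := by
    rw [← mul_zero C]
    refine Tendsto.const_mul C (Real.tendsto_exp_neg_atTop_nhds_zero.comp ?_)
    exact (tendsto_pow_atTop_atTop_of_one_lt (by norm_num : (1 : ℝ) < 4)).const_mul_atTop hσ
  rw [Metric.tendstoUniformly_iff]
  intro ε hε
  filter_upwards [h1.eventually (gt_mem_nhds hε)] with n hn x
  rw [dist_comm, Real.dist_eq]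
  exact (hup n x).trans_lt hn

theorem unif_const (g : G → ℝ) : TendstoUniformly (fun _ : ℕ => g) g atTop := by
  rw [Metric.tendstoUniformly_iff]
  intro ε hε
  exact Eventually.of_forall fun j x => by simpa using hε

include μ in
theorem SG.exists_ne {n : ℕ} {X : Fin n → Matrix (Fin N) (Fin N) ℂ} (h : SG R n X) :
    ∃ x : G, x ≠ 1 := by
  have hs := blk_simple R h.conn h.nonab h.irred
  by_contra hcon
  push Not at hcon
  have h1 := Asm.g2_one_pos μ (blk R) (hne_of_simple _ hs)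
  have h2 : g2 μ (blk R) (fun _ => 1) = 0 := by
    unfold g2 dis
    have : ∀ y : G, ‖(blk R).rho y - 1‖ ^ 2 * 1 = 0 := fun y => by
      rw [hcon y, map_one, sub_self, norm_zero]; norm_num
    simp only [this, integral_zero]
  linarith

/-- The string tension exists for all polynomial actions and all couplings. -/
theorem ten_all {n : ℕ} {X : Fin n → Matrix (Fin N) (Fin N) ℂ} (h : SG R n X) {V : G → ℝ}
    (hV : PolAct R V) {β : ℝ} (hβ : 0 < β) :
    (∀ k, 0 < e2 μ ((mk μ)^[k] (bw μ V β))) ∧ ∃ s : ℝ, 0 < s ∧ Ten μ (bw μ V β) s := by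
  have hs := blk_simple R h.conn h.nonab h.irred
  have hVc := hV.cont'
  have hpd := bw_pd μ hVc β
  obtain ⟨Λ, hΛ⟩ := bw_lip μ hV β
  obtain ⟨C, σ, hC, hσ, hup⟩ := Asm.upper hs.conn hpd (bw_pos μ hVc β) (bw_cls μ hV.cls β) hΛ
  have hne : ∃ x, bw μ V β x ≠ 1 := by
    obtain ⟨x0, hx0⟩ := h.exists_ne μ
    by_contra hcon
    push Not at hcon
    have h1 := hcon 1
    have h2 := hcon x0
    rw [← h2] at h1
    have hZ := bw_pos μ hVc β 1
    unfold bw at h1 hZ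
    have hZ' : (∫ y, Real.exp (-(β * V y)) ∂μ) ≠ 0 := by
      intro h0
      rw [h0, div_zero] at hZ
      exact lt_irrefl _ hZ
    rw [div_left_inj' hZ', Real.exp_eq_exp, hV.one] at h1
    have h3 := mul_pos hβ (hV.pos x0 hx0)
    linarith
  obtain ⟨h4, s, h5, h6, -⟩ := tmin_lim μ (f := fun _ => bw μ V β) (fun _ => hpd)
    (fun _ => bw_inv μ hV.inv β) (fun _ => bw_cls μ hV.cls β) hpd (bw_inv μ hV.inv β)
    (bw_cls μ hV.cls β) (to_one_of hσ hup) hne (unif_const _)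
  exact ⟨h4, s, h5, h6⟩

theorem uvl_of {n : ℕ} {X : Fin n → Matrix (Fin N) (Fin N) ℂ} (h : SG R n X) {V : G → ℝ}
    (hV : PolAct R V) {σV : ℝ → ℝ} (hσV : ∀ β, 0 < β → Ten μ (bw μ V β) (σV β)) :
    ∃ κV : ℝ, 0 < κV ∧ ∀ κ : ℝ, 0 < κ → κ ≤ κV →
      ∀ (β0 : ℕ → ℝ) (k0 : ℕ → ℕ) (f : ℤ → G → ℝ), (∀ j, 0 < β0 j) → Tendsto β0 atTop atTop →
      Tendsto k0 atTop atTop → Cont μ R n (CA X) κ f →
      (∀ l : ℤ, TendstoUniformly (fun j => (mk μ)^[((k0 j : ℤ) + l).toNat]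
        (bw μ (wa R) (β0 j))) (f l) atTop) →
      ∃ σ : ℝ, 0 < σ ∧ Ten μ (f 0) σ ∧ UVL μ R n (CA X) V κ f σ σV := by
  have hn := h.npos
  have hs := blk_simple R h.conn h.nonab h.irred
  obtain ⟨κ1, hκ1, H⟩ := act_main μ h hV
  have hg1 : 0 < gsq μ R n (fun _ : G => 1) :=
    gsq_pos μ h continuous_const fun _ => one_pos
  refine ⟨min κ1 (gsq μ R n (fun _ : G => 1) / 2), by positivity,
    fun κ hκ hκle β0 k0 f hβ0 hβt0 hk0 hf hlim => ?_⟩
  obtain ⟨hex, -, hall⟩ := H κ hκ (hκle.trans (min_le_left _ _))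
  have hκ2 := hκle.trans (min_le_right _ _)
  -- the limit is not constant
  have hne : ∃ x, f 0 x ≠ 1 := by
    by_contra hcon
    push Not at hcon
    have h1 : f 0 = fun _ => 1 := funext hcon
    have h2 := hf.g
    rw [h1] at h2
    linarith
  have hVc := hV.cont'
  have hpdV : ∀ b, PD μ (bw μ V b) := bw_pd μ hVc
  have hpdW : ∀ b, PD μ (bw μ (wa R) b) := bw_pd μ (wa_cont R)
  have hg0 : Tendsto (fun j => gsq μ R n ((mk μ)^[k0 j] (bw μ (wa R) (β0 j)))) atTop (𝓝 κ) := by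
    have h1 := hlim 0
    simp only [add_zero, Int.toNat_natCast] at h1
    have h2 := gsq_tendsto μ (R := R) hn (fun j => (Asm.iter_pd μ (hpdW (β0 j)) (k0 j)).cont) (hf.pd 0).cont h1
    rwa [hf.g] at h2
  obtain ⟨-, σ, hσ, hσl, -⟩ := tmin_lim μ (f := fun _ => f 0) (fun _ => hf.pd 0)
    (fun _ => hf.inv 0) (fun _ => hf.cls 0) (hf.pd 0) (hf.inv 0) (hf.cls 0) (hf.to_one μ) hne
    (unif_const _)
  refine ⟨σ, hσ, hσl, hex, fun β k hβ hβt hg => ?_⟩
  obtain ⟨hcount, hdiff⟩ := hall β k hβ hβt hg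
  have hL : ∀ l : ℕ, TendstoUniformly (fun j => (mk μ)^[((k j : ℤ) + -(l : ℤ)).toNat]
      (bw μ V (β j))) (f (-(l : ℤ))) atTop := by
    intro l
    have h1 := hdiff β0 k0 hβ0 hβt0 hg0 l
    have h2 := hlim (-(l : ℤ))
    rw [Metric.tendstoUniformly_iff] at h1 h2 ⊢
    intro ε hε
    filter_upwards [h1 (ε / 2) (half_pos hε), h2 (ε / 2) (half_pos hε)] with j a1 a2 x
    have b1 := a1 x
    have b2 := a2 x
    have e1 : ((k0 j : ℤ) + -(l : ℤ)).toNat = k0 j - l := by omega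
    have e2 : ((k j : ℤ) + -(l : ℤ)).toNat = k j - l := by omega
    rw [e1] at b2
    rw [e2]
    rw [Real.dist_eq] at *
    rw [zero_sub, abs_neg] at b1
    have b3 := abs_add_le (f (-(l : ℤ)) x - (mk μ)^[k0 j - l] (bw μ (wa R) (β0 j)) x)
      ((mk μ)^[k0 j - l] (bw μ (wa R) (β0 j)) x - (mk μ)^[k j - l] (bw μ V (β j)) x)
    rw [sub_add_sub_cancel] at b3
    linarith
  have hlimV : ∀ l : ℤ, TendstoUniformly (fun j => (mk μ)^[((k j : ℤ) + l).toNat] (bw μ V (β j)))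
      (f l) atTop := by
    intro l
    rcases Int.eq_nat_or_neg l with ⟨l, rfl | rfl⟩
    · have h1 := hL 0
      simp only [Nat.cast_zero, neg_zero, add_zero, Int.toNat_natCast] at h1
      have h2 := Asm.iter_tendsto μ (fun j => Asm.iter_pd μ (hpdV (β j)) (k j)) (hf.pd 0) h1 l
      rw [hf.iter μ, zero_add] at h2
      refine Asm.unif_congr h2 (Eventually.of_forall fun j x => ?_)
      have e : ((k j : ℤ) + (l : ℤ)).toNat = l + k j := by omega
      rw [e, Function.iterate_add_apply]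
    · exact hL l
  refine ⟨hcount, hlimV, ?_⟩
  have h0 := hlimV 0
  simp only [add_zero, Int.toNat_natCast] at h0
  obtain ⟨-, σ', hσ', hσl2, s, hs1, hs2⟩ := tmin_lim μ (f := fun j => (mk μ)^[k j] (bw μ V (β j)))
    (fun j => Asm.iter_pd μ (hpdV (β j)) (k j))
    (fun j => iter_inv μ (bw_inv μ hV.inv _) _)
    (fun j => Asm.iter_cls μ (bw_cls μ hV.cls (β j)) (k j)) (hf.pd 0) (hf.inv 0) (hf.cls 0)
    (hf.to_one μ) hne h0
  have hσσ : σ' = σ := tendsto_nhds_unique hσl2 hσl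
  subst hσσ
  refine hs2.congr' ?_
  filter_upwards [hs1] with j hj
  exact Ten.unique μ hj.2 ((hσV (β j) (hβ j)).iter μ (k j))

theorem SG.ca_pos {n : ℕ} {X : Fin n → Matrix (Fin N) (Fin N) ℂ} (h : SG R n X) : 0 < CA X := by
  have hn := h.npos
  have hn0 : (0 : ℝ) < n := by exact_mod_cast hn
  have hs := blk_simple R h.conn h.nonab h.irred
  obtain ⟨-, E, hE, oE, fE, sE⟩ := blk_basis R X h.mem h.orth h.span
  obtain ⟨cas, hcas0, hcas, hcs⟩ := cas_exists hs E hE oE fE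
  unfold CA
  rw [sE] at hcs
  have h1 : ∑ a, ∑ b, ‖X a * X b - X b * X a‖ ^ 2 = 2 * (cas * n) := by linarith
  rw [h1]
  positivity

/-- The string tension of Wilson's action at all couplings, and its asymptotic scaling. -/
theorem wilson_scaling {n : ℕ} {X : Fin n → Matrix (Fin N) (Fin N) ℂ} (h : SG R n X) :
    ∃ σ : ℝ → ℝ, (∀ β, 0 < β → 0 < σ β ∧
      Tendsto (fun q : ℕ => -(Real.log (wlp μ R ((mk μ)^[q] (bw μ (wa R) β)))) / 4 ^ q) atTop
        (𝓝 (σ β))) ∧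
      Tendsto (fun β => Real.log (σ β) / β) atTop (𝓝 (-(16 * Real.log 2 / CA X))) := by
  have hn := h.npos
  have hn0 : (0 : ℝ) < n := by exact_mod_cast hn
  have hca := h.ca_pos
  have hs := blk_simple R h.conn h.nonab h.irred
  obtain ⟨hfin, E, hE, oE, fE, sE⟩ := blk_basis R X h.mem h.orth h.span
  obtain ⟨cas, hcas0, hcas, hcs⟩ := cas_exists hs E hE oE fE
  obtain ⟨Good, ts, C, ρs, c, p, uv⟩ := uv_exists μ (blk R) hs hn E hE oE fE hfin cas hcas0 hcas
  obtain ⟨σ, hσ, hlim⟩ := scaling μ (blk R) hs.conn (hne_of_simple _ hs) Good ts C ρs c (cas / 8)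
    n p uv
  have hcaX : cas = CA X / 2 := by
    unfold CA
    rw [sE] at hcs
    field_simp
    linarith
  refine ⟨fun β => σ (2 / β), fun β hβ => ?_, ?_⟩
  · obtain ⟨h1, h2⟩ := hσ (2 / β) (by positivity)
    refine ⟨h1, ?_⟩
    have h3 : 2 / (2 / β) = β := by field_simp
    simp only [wil_blk, h3] at h2
    exact (lim_wl μ (g := fun k => (mk μ)^[k] (bw μ (wa R) β))
      (fun k => Asm.iter_pd μ (bw_pd μ (wa_cont R) β) k)).1 h2
  · have h1 : Tendsto (fun β : ℝ => 2 / β) atTop (𝓝[>] 0) := by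
      refine tendsto_nhdsWithin_iff.2 ⟨Tendsto.const_div_atTop tendsto_id _, ?_⟩
      filter_upwards [eventually_gt_atTop 0] with b hb
      exact div_pos two_pos hb
    have h2 := (hlim.comp h1).div_const 2
    have e : -(2 * Real.log 2 / (cas / 8)) / 2 = -(16 * Real.log 2 / CA X) := by
      rw [hcaX]
      field_simp
      norm_num
    rw [e] at h2
    refine h2.congr' ?_
    filter_upwards [eventually_gt_atTop 0] with b hb
    simp only [Function.comp_apply]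
    field_simp

/-- Asymptotic scaling of the string tension of a general action. -/
theorem scaling_of {n : ℕ} {X : Fin n → Matrix (Fin N) (Fin N) ℂ} (h : SG R n X) {V : G → ℝ}
    (hV : PolAct R V) {σV : ℝ → ℝ} (hσV : ∀ β, 0 < β → 0 < σV β) {κ1 : ℝ} (hκ1 : 0 < κ1)
    {f : ℝ → ℤ → G → ℝ} {σ : ℝ → ℝ} (hσ : ∀ κ, 0 < κ → κ ≤ κ1 → 0 < σ κ)
    (hU : ∀ κ, 0 < κ → κ ≤ κ1 → UVL μ R n (CA X) V κ (f κ) (σ κ) σV) :
    Tendsto (fun β => Real.log (σV β) / β) atTop (𝓝 (-(16 * Real.log 2 / CA X))) := by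
  obtain ⟨κ2, hκ2, H⟩ := act_main μ h hV
  obtain ⟨-, ⟨κ0, hκ0, hκ0', hex⟩, -⟩ := H (min κ1 κ2) (lt_min hκ1 hκ2) (min_le_right _ _)
  refine tendsto_of_subseq_tendsto fun b hb => ?_
  -- make the sequence positive
  set b' : ℕ → ℝ := fun j => max (b j) 1 with hb'
  have hb'0 : ∀ j, 0 < b' j := fun j => lt_max_of_lt_right one_pos
  have hbe : ∀ᶠ j in atTop, b' j = b j := by
    filter_upwards [hb.eventually_ge_atTop 1] with j hj
    exact max_eq_left hj
  have hb't : Tendsto b' atTop atTop := hb.congr' (hbe.mono fun j hj => hj.symm)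
  obtain ⟨k, hk⟩ := hex b' hb'0 hb't
  -- a convergent subsequence
  have hk' : ∃ᶠ j in atTop, gsq μ R n ((mk μ)^[k j] (bw μ V (b' j))) ∈ Set.Icc κ0 (min κ1 κ2) :=
    (hk.mono fun j hj => ⟨hj.1, hj.2⟩).frequently
  obtain ⟨κ, hκm, φ, hφ, hlim⟩ := isCompact_Icc.tendsto_subseq' hk'
  have hκ0p : 0 < κ := hκ0.trans_le hκm.1
  have hκle : κ ≤ κ1 := hκm.2.trans (min_le_left _ _)
  have hφt := hφ.tendsto_atTop
  obtain ⟨hc, -, hs⟩ := (hU κ hκ0p hκle).lim (fun j => b' (φ j)) (fun j => k (φ j))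
    (fun j => hb'0 _) (hb't.comp hφt) hlim
  refine ⟨φ, ?_⟩
  have hbφ : Tendsto (fun j => b' (φ j)) atTop atTop := hb't.comp hφt
  have h1 : Tendsto (fun j => Real.log (4 ^ k (φ j) * σV (b' (φ j)))) atTop
      (𝓝 (Real.log (σ κ))) := hs.log (hσ κ hκ0p hκle).ne'
  have h2 : Tendsto (fun j => Real.log (4 ^ k (φ j) * σV (b' (φ j))) / b' (φ j)) atTop (𝓝 0) :=
    h1.div_atTop hbφ
  have h3 := h2.sub (hc.mul_const (Real.log 4))
  have e : (0 : ℝ) - 8 / CA X * Real.log 4 = -(16 * Real.log 2 / CA X) := by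
    rw [show (4 : ℝ) = 2 ^ 2 by norm_num, Real.log_pow]
    push_cast
    ring
  rw [e] at h3
  refine h3.congr' ?_
  filter_upwards [hφt.eventually hbe] with j hj
  have h4 : 0 < σV (b' (φ j)) := hσV _ (hb'0 _)
  rw [Real.log_mul (by positivity) h4.ne', Real.log_pow, ← hj]
  have := hb'0 (φ j)
  field_simp
  ring

/-- **The main theorem on the level of the renormalisation group.** -/
theorem rg_main {n : ℕ} {X : Fin n → Matrix (Fin N) (Fin N) ℂ} (h : SG R n X) :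
    ∃ κ1 : ℝ, 0 < κ1 ∧ ∃ (f : ℝ → ℤ → G → ℝ) (σ : ℝ → ℝ),
      (∀ κ, 0 < κ → κ ≤ κ1 → Cont μ R n (CA X) κ (f κ) ∧ 0 < σ κ ∧ Ten μ (f κ 0) (σ κ) ∧
        (∃ s : ℝ, 0 < s ∧ Tendsto (fun q : ℕ => -(Real.log (wlp μ R (f κ q))) / 4 ^ q) atTop
          (𝓝 s))) ∧
      (∀ V : G → ℝ, PolAct R V → ∃ σV : ℝ → ℝ, (∀ β, 0 < β → 0 < σV β ∧
        (∀ q, 0 < e2 μ ((mk μ)^[q] (bw μ V β))) ∧ Ten μ (bw μ V β) (σV β)) ∧
        Tendsto (fun β => Real.log (σV β) / β) atTop (𝓝 (-(16 * Real.log 2 / CA X))) ∧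
        ∃ κV : ℝ, 0 < κV ∧ ∀ κ, 0 < κ → κ ≤ κ1 → κ ≤ κV → UVL μ R n (CA X) V κ (f κ) (σ κ) σV) ∧
      (∃ σV : ℝ → ℝ, (∀ β, 0 < β → 0 < σV β ∧ Ten μ (bw μ (wa R) β) (σV β)) ∧
        ∀ κ, 0 < κ → κ ≤ κ1 → UVL μ R n (CA X) (wa R) κ (f κ) (σ κ) σV) ∧
      (∀ κ, 0 < κ → κ ≤ κ1 → ∀ m : ℕ, gsq μ R n (f κ (-(m : ℤ))) ≤ κ1 →
        ∀ l : ℤ, f (gsq μ R n (f κ (-(m : ℤ)))) l = f κ (l - m)) ∧
      (∀ (κ : ℝ) (κs : ℕ → ℝ), 0 < κ → κ ≤ κ1 → (∀ i, 0 < κs i ∧ κs i ≤ κ1) →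
        Tendsto κs atTop (𝓝 κ) → ∀ l : ℤ, TendstoUniformly (fun i => f (κs i) l) (f κ l) atTop) := by
  have hn := h.npos
  have hn0 : (0 : ℝ) < n := by exact_mod_cast hn
  have hs := blk_simple R h.conn h.nonab h.irred
  obtain ⟨κ2, hκ2, H2⟩ := wilson_traj μ h
  have hten : ∀ V : G → ℝ, PolAct R V → ∃ σV : ℝ → ℝ, ∀ β, 0 < β → 0 < σV β ∧
      (∀ q, 0 < e2 μ ((mk μ)^[q] (bw μ V β))) ∧ Ten μ (bw μ V β) (σV β) := by
    intro V hV
    have : ∀ β : ℝ, ∃ s : ℝ, 0 < β → 0 < s ∧ (∀ q, 0 < e2 μ ((mk μ)^[q] (bw μ V β))) ∧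
        Ten μ (bw μ V β) s := by
      intro β
      by_cases hβ : 0 < β
      · obtain ⟨h1, s, h2, h3⟩ := ten_all μ h hV hβ
        exact ⟨s, fun _ => ⟨h2, h1, h3⟩⟩
      · exact ⟨0, fun h0 => absurd h0 hβ⟩
    choose σV hσV using this
    exact ⟨σV, hσV⟩
  obtain ⟨σW, hσW⟩ := hten (wa R) (wilson_polAct R)
  obtain ⟨κ3, hκ3, H3⟩ := uvl_of μ h (wilson_polAct R) (σV := σW) fun β hβ => (hσW β hβ).2.2
  obtain ⟨κ4, w0, hκ4, hw0, hwl⟩ := wl_lower μ (blk R) (hne_of_simple _ hs)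
  choose! β0 k0 f hβ0 hβt0 hk0 hf hlim using H2
  have hpdW : ∀ b, PD μ (bw μ (wa R) b) := bw_pd μ (wa_cont R)
  have hc2 : 0 < 2 * (n : ℝ) := by positivity
  obtain ⟨κ1, hκ1d⟩ : ∃ κ1, κ1 = min (min κ2 κ3) (κ4 / (2 * n)) := ⟨_, rfl⟩
  have hκ1 : 0 < κ1 := by rw [hκ1d]; positivity
  have hle2 : κ1 ≤ κ2 := by rw [hκ1d]; exact (min_le_left _ _).trans (min_le_left _ _)
  have hle3 : κ1 ≤ κ3 := by rw [hκ1d]; exact (min_le_left _ _).trans (min_le_right _ _)
  have hle4 : κ1 ≤ κ4 / (2 * n) := by rw [hκ1d]; exact min_le_right _ _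
  have hW : ∀ κ, 0 < κ → κ ≤ κ1 → ∃ s : ℝ, 0 < s ∧ Ten μ (f κ 0) s ∧
      UVL μ R n (CA X) (wa R) κ (f κ) s σW := by
    intro κ hκ hκle
    have h2 := hκle.trans hle2
    exact H3 κ hκ (hκle.trans hle3) (β0 κ) (k0 κ) (f κ) (hβ0 κ hκ h2)
      (hβt0 κ hκ h2) (hk0 κ hκ h2) (hf κ hκ h2) (hlim κ hκ h2)
  choose! σ hσ hσl huv using hW
  refine ⟨κ1, hκ1, f, σ, ?_, ?_, ?_, ?_, ?_⟩
  · intro κ hκ hκle
    have hc := hf κ hκ (hκle.trans hle2)
    refine ⟨hc, hσ κ hκ hκle, hσl κ hκ hκle, ?_⟩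
    have hwf : 0 < wl μ (blk R) (f κ 0) := by
      refine hw0.trans_le (hwl _ (hc.pd 0) ?_)
      rw [g2_blk μ R hn, hc.g]
      have h1 := hκle.trans hle4
      rw [le_div_iff₀ hc2] at h1
      linarith
    obtain ⟨s, hs1, hs2, -⟩ := tension_lim μ (blk R) (f := fun _ => f κ 0) (f0 := f κ 0)
      (fun _ => hc.pd 0) (fun _ => hc.inv 0) (fun _ => hc.cls 0) (hc.pd 0) (hc.inv 0) (hc.cls 0)
      (hc.to_one μ) hwf (unif_const (f κ 0))
    refine ⟨s, hs1, ?_⟩
    have h1 := (lim_wl μ (g := fun k => (mk μ)^[k] (f κ 0))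
      (fun k => Asm.iter_pd μ (hc.pd 0) k)).1 hs2
    refine h1.congr fun q => ?_
    rw [hc.iter μ, zero_add]
  · intro V hV
    obtain ⟨σV, hσV⟩ := hten V hV
    obtain ⟨κV, hκV, HV⟩ := uvl_of μ h hV (σV := σV) fun β hβ => (hσV β hβ).2.2
    have hU : ∀ κ, 0 < κ → κ ≤ κ1 → κ ≤ κV → UVL μ R n (CA X) V κ (f κ) (σ κ) σV := by
      intro κ hκ hκle hκle'
      have h2 := hκle.trans hle2
      obtain ⟨s, hs, hsl, hu⟩ := HV κ hκ hκle' (β0 κ) (k0 κ) (f κ) (hβ0 κ hκ h2)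
        (hβt0 κ hκ h2) (hk0 κ hκ h2) (hf κ hκ h2) (hlim κ hκ h2)
      have e : s = σ κ := Ten.unique μ hsl (hσl κ hκ hκle)
      rw [← e]
      exact hu
    refine ⟨σV, hσV, ?_, κV, hκV, hU⟩
    exact scaling_of μ h hV (fun β hβ => (hσV β hβ).1) (lt_min hκ1 hκV) (f := f) (σ := σ)
      (fun κ hκ hκle => hσ κ hκ (hκle.trans (min_le_left _ _)))
      (fun κ hκ hκle => hU κ hκ (hκle.trans (min_le_left _ _)) (hκle.trans (min_le_right _ _)))
  · exact ⟨σW, fun β hβ => ⟨(hσW β hβ).1, (hσW β hβ).2.2⟩, huv⟩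
  · intro κ hκ hκle m hm l
    have h2 := hκle.trans hle2
    have hc := hf κ hκ h2
    set κ' := gsq μ R n (f κ (-(m : ℤ))) with hκ'
    have hκ'0 : 0 < κ' := gsq_pos μ h (hc.pd _).cont (hc.pos _)
    -- the shifted sequence
    have hg : Tendsto (fun j => gsq μ R n ((mk μ)^[k0 κ j - m] (bw μ (wa R) (β0 κ j)))) atTop
        (𝓝 κ') := by
      have h1 := hlim κ hκ h2 (-(m : ℤ))
      have e : ∀ j, ((k0 κ j : ℤ) + -(m : ℤ)).toNat = k0 κ j - m := fun j => by omega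
      simp only [e] at h1
      exact gsq_tendsto μ (R := R) hn (fun j => (Asm.iter_pd μ (hpdW _) _).cont) (hc.pd _).cont h1
    have h3 := ((huv κ' hκ'0 hm).lim (β0 κ) (fun j => k0 κ j - m) (hβ0 κ hκ h2) (hβt0 κ hκ h2)
      hg).2.1 l
    refine Asm.unif_unique h3 (Asm.unif_congr (hlim κ hκ h2 (l - m)) ?_)
    filter_upwards [(hk0 κ hκ h2).eventually_ge_atTop m] with j hj x
    have e : ((k0 κ j : ℤ) + (l - m)).toNat = (((k0 κ j - m : ℕ) : ℤ) + l).toNat := by omega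
    rw [e]
  · intro κ κs hκ hκle hκs hκst l
    have h2 := hκle.trans hle2
    have hex : ∀ i : ℕ, ∃ j : ℕ, (i : ℝ) ≤ β0 (κs i) j ∧
        |gsq μ R n ((mk μ)^[k0 (κs i) j] (bw μ (wa R) (β0 (κs i) j))) - κs i| ≤ 1 / (i + 1) ∧
        ∀ x, |f (κs i) l x - (mk μ)^[((k0 (κs i) j : ℤ) + l).toNat]
          (bw μ (wa R) (β0 (κs i) j)) x| ≤ 1 / (i + 1) := by
      intro i
      obtain ⟨hi, hile⟩ := hκs i
      have h4 := hile.trans hle2
      have hc := hf (κs i) hi h4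
      have hpos : (0 : ℝ) < 1 / (i + 1) := by positivity
      have e1 := (hβt0 (κs i) hi h4).eventually_ge_atTop (i : ℝ)
      have h1 := hlim (κs i) hi h4 0
      simp only [add_zero, Int.toNat_natCast] at h1
      have h5 := gsq_tendsto μ (R := R) hn (fun j => (Asm.iter_pd μ (hpdW _) _).cont) (hc.pd 0).cont h1
      rw [hc.g] at h5
      have e2 := h5.eventually (Metric.closedBall_mem_nhds (κs i) hpos)
      have h6 := hlim (κs i) hi h4 l
      rw [Metric.tendstoUniformly_iff] at h6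
      have e3 := h6 (1 / (i + 1)) hpos
      obtain ⟨j, hj1, hj2, hj3⟩ := (e1.and (e2.and e3)).exists
      refine ⟨j, hj1, ?_, fun x => ?_⟩
      · rw [← Real.dist_eq]
        exact hj2
      · have := (hj3 x).le
        rwa [Real.dist_eq] at this
    choose J hJ1 hJ2 hJ3 using hex
    have hto0 : Tendsto (fun i : ℕ => (1 : ℝ) / (i + 1)) atTop (𝓝 0) :=
      tendsto_one_div_add_atTop_nhds_zero_nat
    have h7 := ((huv κ hκ hκle).lim (fun i => β0 (κs i) (J i)) (fun i => k0 (κs i) (J i))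
      (fun i => hβ0 _ (hκs i).1 ((hκs i).2.trans hle2) _)
      (tendsto_atTop_mono hJ1 tendsto_natCast_atTop_atTop) (by
        have h8 : Tendsto (fun i => gsq μ R n ((mk μ)^[k0 (κs i) (J i)]
            (bw μ (wa R) (β0 (κs i) (J i)))) - κs i) atTop (𝓝 0) :=
          squeeze_zero_norm (fun i => hJ2 i) hto0
        have h9 := h8.add hκst
        simpa using h9)).2.1 l
    rw [Metric.tendstoUniformly_iff] at h7 ⊢
    intro ε hε
    filter_upwards [h7 (ε / 2) (half_pos hε), hto0.eventually (gt_mem_nhds (half_pos hε))]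
      with i hi1 hi2 x
    have b1 := hi1 x
    have b2 := hJ3 i x
    rw [Real.dist_eq] at *
    have b3 := abs_add_le (f κ l x - (mk μ)^[((k0 (κs i) (J i) : ℤ) + l).toNat]
      (bw μ (wa R) (β0 (κs i) (J i))) x) ((mk μ)^[((k0 (κs i) (J i) : ℤ) + l).toNat]
      (bw μ (wa R) (β0 (κs i) (J i))) x - f (κs i) l x)
    rw [sub_add_sub_cancel] at b3
    rw [abs_sub_comm] at b2
    linarith

end

end Pool.Agent.T2H04.HY
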