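import Mathlib
import Pool.Agent.T2H03.HX.Conf
import Pool.Agent.T2H03.HX.Env
import Pool.Agent.T2H04.HY.RgMain

/-!
# The infinite volume theories of the family
-/

open MeasureTheory Matrix Filter
open scoped Topology
open Pool.Agent.T2H03

namespace Pool.Agent.T2H04.HY

set_option linter.unusedSectionVars false

noncomputable section

variable {G : Type} [Group G] [TopologicalSpace G] [IsTopologicalGroup G] [CompactSpace G]
  [SecondCountableTopology G] [MeasurableSpace G] [BorelSpace G] (μ : Measure G)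
  [IsProbabilityMeasure μ] [μ.IsHaarMeasure]

namespace UpU

open HX

/-- the infinite volume theories of the family `F` -/
def SI (F : ℝ → G → ℝ) (s : ℝ) (n : ℕ) (A : ((Bx n).E → G) → ℝ) : ℝ :=
  HX.li μ (F (s + n)) (HX.nr μ (F s) n A)

variable {μ} {F : ℝ → G → ℝ} (hpd : ∀ s, PD μ (F s)) (hpos : ∀ s x, 0 < F s x)
  (hcls : ∀ s x y, F s (y * x * y⁻¹) = F s x) (hstep : ∀ s, mk μ (F s) = F (s + 1))

include hstep in
theorem hiter (k : ℕ) (s : ℝ) : (mk μ)^[k] (F s) = F (s + k) := by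
  induction k generalizing s with
  | zero => simp
  | succ k ih =>
    rw [Function.iterate_succ_apply', ih, hstep]
    congr 1
    push_cast
    ring

include hpd hcls hstep in
theorem tail {C c : ℝ} (hC : 0 < C) (hc : 0 < c)
    (hup : ∀ s : ℝ, 0 ≤ s → ∀ x, |F s x - 1| ≤ C * Real.exp (-(c * 4 ^ s))) (s : ℝ) :
    HX.Tail μ (F s) C c ⌊s⌋ := by
  refine ⟨hpd s, hcls s, hC.le, hc, fun i hi x => ?_⟩
  rw [hiter hstep]
  have h1 : (⌊s⌋ : ℝ) ≤ s := Int.floor_le s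
  have h2 : (0 : ℝ) ≤ ⌊s⌋ + i := by exact_mod_cast hi
  refine (hup (s + i) (by linarith) x).trans ?_
  refine mul_le_mul_of_nonneg_left (Real.exp_le_exp.2 (neg_le_neg ?_)) hC.le
  refine mul_le_mul_of_nonneg_left ?_ hc.le
  rw [← Real.rpow_intCast]
  refine Real.rpow_le_rpow_of_exponent_le (by norm_num) ?_
  push_cast
  linarith

/-- comparison of the powers -/
theorem pow_cmp {c : ℝ} (hc : 0 < c) {K : ℝ} (hK : 0 ≤ K) (s : ℝ) (j : ℤ) :
    K * Real.exp (-(c * (4 : ℝ) ^ (⌊s⌋ + j))) ≤ K * Real.exp (-(c / 4 * 4 ^ (s + j))) := by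
  refine mul_le_mul_of_nonneg_left (Real.exp_le_exp.2 (neg_le_neg ?_)) hK
  have h1 : s < ⌊s⌋ + 1 := Int.lt_floor_add_one s
  have h2 : (4 : ℝ) ^ (s + j) ≤ 4 ^ (((⌊s⌋ + j : ℤ) : ℝ) + 1) := by
    refine Real.rpow_le_rpow_of_exponent_le (by norm_num) ?_
    push_cast
    linarith
  have e : (4 : ℝ) ^ (((⌊s⌋ + j : ℤ) : ℝ) + 1) = 4 ^ (⌊s⌋ + j) * 4 := by
    rw [Real.rpow_add (by norm_num), Real.rpow_one, Real.rpow_intCast]
  rw [e] at h2
  have h3 : c / 4 * (4 : ℝ) ^ (s + j) ≤ c / 4 * ((4 : ℝ) ^ (⌊s⌋ + j) * 4) :=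
    mul_le_mul_of_nonneg_left h2 (by positivity)
  linarith

include hpd hpos hcls hstep in
/-- infinite volume limit, consistency of the scales, clustering and area law -/
theorem lat_vol {C c : ℝ} (hC : 0 < C) (hc : 0 < c)
    (hup : ∀ s : ℝ, 0 ≤ s → ∀ x, |F s x - 1| ≤ C * Real.exp (-(c * 4 ^ s))) :
    ∃ C c : ℝ, 0 < C ∧ 0 < c ∧
    (∀ s : ℝ, 0 ≤ s → ∀ x, |F s x - 1| ≤ C * Real.exp (-(c * 4 ^ s))) ∧
    (∀ s n A, Obs (Bx n) A → ∀ (X : Cx) (g : X.F) x m, |ex μ (X.refs (n + m + 1)) (F s)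
      (fun U => A (U ∘ ((X.face g).refs (n + m + 1)).e ∘ HX.pos n x (m + 1))) -
        SI μ F s n A| ≤ C * Real.exp (-(c * 4 ^ (s + n + m)))) ∧
    (∀ s n A, Obs (Bx n) A → SI μ F s (n + 1) (fun U => A (blkL n sq U)) = SI μ F (s + 1) n A) ∧
    (∀ s n A B, Obs (Bx n) A → Obs (Bx n) B → ∀ x y m, x m ≠ y m →
      |SI μ F s (n + m + 1) (fun U => A (U ∘ HX.pos n x (m + 1)) *
        B (U ∘ HX.pos n y (m + 1))) - SI μ F s n A * SI μ F s n B| ≤
          C * Real.exp (-(c * 4 ^ (s + n + m)))) ∧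
    (∀ s (χ : G → ℝ), Continuous χ → (∀ x y, χ (y * x * y⁻¹) = χ x) → (∀ x, |χ x| ≤ 1) →
      ∫ x, χ x ∂μ = 0 → |SI μ F s 0 fun U => χ (hol sq U ())| ≤
        C * Real.exp (-(c * 4 ^ s))) := by
  have t := tail hpd hcls hstep hC hc hup
  have hD := HX.DD_pos hC.le hc
  refine ⟨4 * HX.DD C c + C, c / 4, by positivity, by positivity, ?_, ?_, ?_, ?_, ?_⟩
  · intro s hs x
    have h4 : (0 : ℝ) < 4 ^ s := by positivity
    refine (hup s hs x).trans (mul_le_mul (by linarith) (Real.exp_le_exp.2 (neg_le_neg ?_))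
      (Real.exp_pos _).le (by positivity))
    nlinarith
  · intro s n A hA X g x m
    have h1 := env (t s) (hpos s) (fun i y => by rw [hiter hstep]; exact hpos _ y) hA X g x m
    rw [hiter hstep] at h1
    have h2 : 4 * HX.DD C c * Real.exp (-(c * (4 : ℝ) ^ (⌊s⌋ + n + m))) ≤
        (4 * HX.DD C c + C) * Real.exp (-(c * (4 : ℝ) ^ (⌊s⌋ + ((n : ℤ) + m)))) := by
      rw [← add_assoc]
      exact mul_le_mul_of_nonneg_right (by linarith) (Real.exp_pos _).le
    refine (h1.trans h2).trans ((pow_cmp hc (by positivity) s _).trans (le_of_eq ?_))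
    push_cast
    rw [← add_assoc]
  · intro s n A hA
    unfold SI
    rw [nr_blk (hpd s) (hcls s), hstep]
    have h1 : s + ((n + 1 : ℕ) : ℝ) = s + 1 + n := by push_cast; ring
    rw [h1]
  · intro s n A B hA hB x y m hxy
    have h1 := HX.cluster (t s) hA hB x y m hxy
    rw [hiter hstep, hiter hstep] at h1
    have h2 : 4 * HX.DD C c * Real.exp (-(c * (4 : ℝ) ^ (⌊s⌋ + n + m))) ≤
        (4 * HX.DD C c + C) * Real.exp (-(c * (4 : ℝ) ^ (⌊s⌋ + ((n : ℤ) + m)))) := by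
      rw [← add_assoc]
      exact mul_le_mul_of_nonneg_right (by linarith) (Real.exp_pos _).le
    refine (h1.trans h2).trans ((pow_cmp hc (by positivity) s _).trans (le_of_eq ?_))
    push_cast
    rw [← add_assoc]
  · intro s χ hχ hcc h1 h0
    have h2 := wilson (t s) hχ hcc h1 h0
    have e : SI μ F s 0 (fun U => χ (hol sq U ())) =
        HX.li μ (F s) (HX.nr μ (F s) 0 fun U => χ (hol sq U ())) := by
      unfold SI
      rw [Nat.cast_zero, add_zero]
    rw [e]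
    have h3 : (HX.DD C c + C) * Real.exp (-(c * (4 : ℝ) ^ ⌊s⌋)) ≤
        (4 * HX.DD C c + C) * Real.exp (-(c * (4 : ℝ) ^ (⌊s⌋ + 0))) := by
      rw [add_zero]
      exact mul_le_mul_of_nonneg_right (by linarith) (Real.exp_pos _).le
    refine (h2.trans h3).trans ((pow_cmp hc (by positivity) s _).trans (le_of_eq ?_))
    push_cast
    rw [add_zero]

include hpd hpos hcls hstep in
/-- the joint limit of the infinite volume and of the vanishing lattice spacing -/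
theorem lat_joint {C c : ℝ} (hC : 0 < C) (hc : 0 < c)
    (hup : ∀ s : ℝ, 0 ≤ s → ∀ x, |F s x - 1| ≤ C * Real.exp (-(c * 4 ^ s)))
    (s : ℝ) (w : ℕ → G → ℝ) (N : ℕ → ℕ) (hwpd : ∀ j, PD μ (w j))
    (hcl : ∀ j x y, w j (y * x * y⁻¹) = w j x)
    (h : TendstoUniformly (fun j => (HY.mk μ)^[N j] (w j)) (F s) atTop)
    (n : ℕ) (A : ((Bx n).E → G) → ℝ) (hA : Obs (Bx n) A) (x : ℕ → Fin 4 × Fin 4) :
    Tendsto (fun p : ℕ × ℕ => ex μ (Bx (n + p.2 + N p.1)) (w p.1)
      fun U => A (blks sq (n + p.2) (N p.1) U ∘ HX.pos n x p.2)) (atTop ×ˢ atTop)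
      (𝓝 (SI μ F s n A)) := by
  have t := tail hpd hcls hstep hC hc hup
  have h1 := joint (t s) (hpos s) hwpd hcl h hA x
  rw [hiter hstep] at h1
  exact h1

include hpd hcls hstep in
/-- the string tension in infinite volume -/
theorem lat_conf
    (hup : ∀ s, ∃ C c : ℝ, 0 < C ∧ 0 < c ∧ ∀ (k : ℕ) (x : G),
      |F (s + k) x - 1| ≤ C * Real.exp (-(c * 4 ^ k)))
    {s : ℝ} {t : ℝ} (ht : 0 < t) (h : Ten μ (F s) t) :
    Tendsto (fun k : ℕ => -Real.log (HX.conf μ fun χ => SI μ F (s + k) 0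
      fun U => χ (hol sq U ())) / 4 ^ k) atTop (𝓝 t) := by
  obtain ⟨C, c, hC, hc, hup⟩ := hup s
  have h1 := HX.conf_limit (f := fun k : ℤ => F (s + k)) (fun k => hpd _) (fun k => hcls _)
    (fun k => by rw [hstep]; congr 1; push_cast; ring)
    ⟨C, c, hC, hc, fun k x => by simpa using hup k x⟩ ht ?_
  · refine h1.congr fun k => ?_
    simp only [SI, Nat.cast_zero, add_zero, Int.cast_natCast]
  · refine h.congr fun q => ?_
    rw [hiter hstep]
    simp only [Int.cast_natCast]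
    rfl

end UpU

end

end Pool.Agent.T2H04.HY
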