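import Mathlib
import Pool.Agent.T2H04.HY.Cx

open Filter
open scoped Topology

namespace Pool.Agent.T2H04.HY

/-- One variable: the coefficients of order two and four of an even function. -/
theorem coef_two {f : ℂ → ℂ} {R M : ℝ} (hR : 0 < R) (hf : DifferentiableOn ℂ f (Metric.ball 0 R))
    (hM : ∀ z ∈ Metric.ball (0 : ℂ) R, ‖f z‖ ≤ M) (h0 : f 0 = 0)
    (hev : ∀ z ∈ Metric.ball (0 : ℂ) R, f (-z) = f z) {α : ℂ}
    (hα : Tendsto (fun s : ℝ => f (s : ℂ) / (s : ℂ) ^ 2) (𝓝[≠] 0) (𝓝 α)) :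
    ∃ c : ℂ, Tendsto (fun s : ℝ => (f (s : ℂ) - α * (s : ℂ) ^ 2) / (s : ℂ) ^ 4) (𝓝[≠] 0) (𝓝 c) ∧
      ∀ z ∈ Metric.ball (0 : ℂ) R, ‖f z - α * z ^ 2 - c * z ^ 4‖ ≤ 4 * M * (‖z‖ / R) ^ 6 := by
  have hofR : Tendsto (fun s : ℝ => (s : ℂ)) (𝓝[≠] 0) (𝓝[≠] 0) := by
    rw [tendsto_nhdsWithin_iff]
    constructor
    · have : Tendsto (fun s : ℝ => (s : ℂ)) (𝓝 0) (𝓝 ((0 : ℝ) : ℂ)) :=
        Complex.continuous_ofReal.tendsto 0
      rw [Complex.ofReal_zero] at this
      exact this.mono_left nhdsWithin_le_nhds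
    · filter_upwards [self_mem_nhdsWithin] with s hs
      exact Complex.ofReal_ne_zero.2 hs
  have hder : deriv f 0 = 0 := by
    have := (hasFDerivAt_even hR hf hev).hasDerivAt.deriv
    simpa using this
  set g := dslope f 0 with hg
  set h := dslope g 0 with hh
  have hball : Metric.ball (0 : ℂ) R ∈ 𝓝 (0 : ℂ) := Metric.ball_mem_nhds _ hR
  have hgd : DifferentiableOn ℂ g (Metric.ball 0 R) :=
    (Complex.differentiableOn_dslope hball).2 hf
  have hhd : DifferentiableOn ℂ h (Metric.ball 0 R) :=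
    (Complex.differentiableOn_dslope hball).2 hgd
  have hg0 : g 0 = 0 := by rw [hg, dslope_same, hder]
  have hfg : ∀ z, f z = z * g z := by
    intro z
    have := sub_smul_dslope f 0 z
    rw [sub_zero, h0, sub_zero, smul_eq_mul] at this
    exact this.symm
  have hgh : ∀ z, g z = z * h z := by
    intro z
    have := sub_smul_dslope g 0 z
    rw [sub_zero, hg0, sub_zero, smul_eq_mul] at this
    exact this.symm
  have hfh : ∀ z, f z = z ^ 2 * h z := by
    intro z; rw [hfg, hgh]; ring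
  have hhev : ∀ z ∈ Metric.ball (0 : ℂ) R, h (-z) = h z := by
    intro z hz
    by_cases hz0 : z = 0
    · rw [hz0, neg_zero]
    · have e := hev z hz
      rw [hfh, hfh z, neg_sq] at e
      exact mul_left_cancel₀ (pow_ne_zero 2 hz0) e
  have hhc : ContinuousAt h 0 := (hhd.differentiableAt hball).continuousAt
  have hlim : Tendsto (fun z => f z / z ^ 2) (𝓝[≠] 0) (𝓝 (h 0)) := by
    refine (hhc.tendsto.mono_left nhdsWithin_le_nhds).congr' ?_
    filter_upwards [self_mem_nhdsWithin] with z hz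
    have hz0 : z ≠ 0 := hz
    rw [hfh]
    field_simp
  have hh0 : h 0 = α := tendsto_nhds_unique (hlim.comp hofR) hα
  have hM0 : 0 ≤ M := (norm_nonneg _).trans (hM 0 (Metric.mem_ball_self hR))
  have hbz : ∀ z ∈ Metric.ball (0 : ℂ) R, z ≠ 0 → ‖h z‖ ≤ M / R ^ 2 := by
    intro z hz hz0
    have h1 := schwarz2_one hR hf hM h0 hev z hz
    have hzp : 0 < ‖z‖ := norm_pos_iff.2 hz0
    rw [hfh, norm_mul, norm_pow] at h1
    have e : M * (‖z‖ / R) ^ 2 = ‖z‖ ^ 2 * (M / R ^ 2) := by field_simp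
    rw [e] at h1
    exact le_of_mul_le_mul_left h1 (by positivity)
  have hb0 : ‖h 0‖ ≤ M / R ^ 2 := by
    have t1 : Tendsto (fun z => ‖h z‖) (𝓝[≠] 0) (𝓝 ‖h 0‖) :=
      (hhc.norm.tendsto).mono_left nhdsWithin_le_nhds
    refine le_of_tendsto t1 ?_
    filter_upwards [self_mem_nhdsWithin, mem_nhdsWithin_of_mem_nhds hball] with z hz hzb
    exact hbz z hzb hz
  have hb : ∀ z ∈ Metric.ball (0 : ℂ) R, ‖h z - α‖ ≤ 2 * (M / R ^ 2) := by
    intro z hz
    have h2 : ‖h z‖ ≤ M / R ^ 2 := by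
      by_cases hz0 : z = 0
      · rw [hz0]; exact hb0
      · exact hbz z hz hz0
    refine (norm_sub_le _ _).trans ?_
    rw [← hh0]
    linarith
  obtain ⟨c, hc1, hc2, hc3⟩ := coef_one (f := fun z => h z - α) (M := 2 * (M / R ^ 2)) hR
    (hhd.sub_const α) hb (by simp only [hh0, sub_self]) (fun z hz => by
      simp only [hhev z hz])
  refine ⟨c, ?_, fun z hz => ?_⟩
  · refine (hc1.comp hofR).congr' ?_
    filter_upwards [self_mem_nhdsWithin] with s hs
    have hs0 : (s : ℂ) ≠ 0 := Complex.ofReal_ne_zero.2 hs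
    simp only [Function.comp_apply]
    rw [hfh]
    field_simp
  · have e : f z - α * z ^ 2 - c * z ^ 4 = z ^ 2 * (h z - α - c * z ^ 2) := by
      rw [hfh]; ring
    rw [e, norm_mul, norm_pow]
    calc ‖z‖ ^ 2 * ‖h z - α - c * z ^ 2‖ ≤ ‖z‖ ^ 2 * (2 * (2 * (M / R ^ 2)) * (‖z‖ / R) ^ 4) := by
          gcongr
          exact hc3 z hz
      _ = 4 * M * (‖z‖ / R) ^ 6 := by field_simp; ring

end Pool.Agent.T2H04.HY
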