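import Mathlib
import Pool.Agent.T2H04.HY.Dri1

/-!
# Two loops: definitions
-/

open MeasureTheory Matrix Filter
open scoped Matrix.Norms.Frobenius Topology

namespace Pool.Agent.T2H04.HY

set_option linter.unusedSectionVars false

noncomputable section

variable {G : Type} [Group G] [TopologicalSpace G] [IsTopologicalGroup G] [CompactSpace G]
  {m : Type} [Fintype m] [DecidableEq m] {L : RD G m}

/-- the commutator -/
def ad (X Y : Mt m) : Mt m := X * Y - Y * X

/-- the sixth order expansion of the second difference of `Qf` -/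
def T6 (X η : Mt m) : ℝ :=
  1 / 24 * ‖ad X η‖ ^ 2 + 1 / 1440 * ‖ad η (ad η X)‖ ^ 2 + 1 / 5760 * ‖ad X (ad X η)‖ ^ 2

/-- the invariant quartic form `tr (ad X)⁴` -/
def T4 {n : ℕ} (E : Fin n → Mt m) (X : Mt m) : ℝ := ∑ a, ‖ad X (ad X (E a))‖ ^ 2

/-- the quartic part of `w` at `0` -/
def q4 (w : gC L → ℂ) (Z : gC L) : ℂ :=
  limUnder (𝓝[≠] (0 : ℝ)) fun s : ℝ => w ((s : ℂ) • Z) / (s : ℂ) ^ 4

/-- its second difference -/
def P4 (w : gC L → ℂ) (X Y : gC L) : ℂ := q4 w (X + Y) + q4 w (X - Y) - 2 * q4 w X - 2 * q4 w Y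

/-- the double Laplacian of the quartic part -/
def lam {n : ℕ} (E : Fin n → Mt m) (w : gC L → ℂ) : ℝ :=
  (∑ a, ∑ b, P4 w (prj L (E a)) (prj L (E b))).re / n

/-- the coordinates of the logarithm -/
def crd (L : RD G m) (D : LogData m) (X : Mt m) (y : G) : ℝ := ipr X ((Dri.et L D y : gC L) : Mt m)

end

end Pool.Agent.T2H04.HY
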