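import Mathlib
import Pool.Agent.T2H04.HY.Coef
import Pool.Agent.T2H04.HY.Tl0

/-!
# The logarithmic derivative to sixth order (package A1)

Duhamel: `fderiv exp η Y = ∫₀¹ exp((1-u) η) Y exp(u η) du = (φ(ad_η) Y) exp η`,
`φ(z) = (e^z - 1)/z = ∑ z^k/(k+1)!`. With `P(z) = 1 - z/2 + z²/12 - z⁴/720`, `P(z) φ(z) = 1 + O(z⁶)`.
-/

open MeasureTheory Matrix Filter
open scoped Matrix.Norms.Frobenius Topology

namespace Pool.Agent.T2H04.HY

set_option linter.unusedSectionVars false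

noncomputable section

variable {m : Type} [Fintype m] [DecidableEq m]

namespace Dl

theorem ad_add (η X Y : Mt m) : ad η (X + Y) = ad η X + ad η Y := by
  unfold ad
  rw [mul_add, add_mul]
  abel

theorem ad_sub (η X Y : Mt m) : ad η (X - Y) = ad η X - ad η Y := by
  unfold ad
  rw [mul_sub, sub_mul]
  abel

theorem ad_smul (c : ℂ) (η X : Mt m) : ad η (c • X) = c • ad η X := by
  unfold ad
  rw [mul_smul_comm, smul_mul_assoc, smul_sub]

theorem ad_neg (η X : Mt m) : ad η (-X) = -ad η X := by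
  unfold ad
  rw [mul_neg, neg_mul]
  abel

theorem norm_ad (η X : Mt m) : ‖ad η X‖ ≤ 2 * ‖η‖ * ‖X‖ := by
  unfold ad
  have h1 := norm_mul_le η X
  have h2 := norm_mul_le X η
  have h3 := norm_sub_le (η * X) (X * η)
  nlinarith

theorem exp_hd (X : Mt m) (u : ℝ) :
    HasDerivAt (fun u : ℝ => NormedSpace.exp (u • X)) (NormedSpace.exp (u • X) * X) u :=
  hasDerivAt_exp_smul_const (𝕂 := ℝ) X u

theorem exp_hd' (X : Mt m) (u : ℝ) :
    HasDerivAt (fun u : ℝ => NormedSpace.exp (u • X)) (X * NormedSpace.exp (u • X)) u :=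
  hasDerivAt_exp_smul_const' (𝕂 := ℝ) X u

theorem exp_cont' : Continuous (NormedSpace.exp : Mt m → Mt m) := exp_cont

/-- Duhamel's formula -/
theorem duhamel (η Y : Mt m) : fderiv ℂ (NormedSpace.exp : Mt m → Mt m) η Y =
    ∫ u in (0 : ℝ)..1, NormedSpace.exp ((1 - u) • η) * Y * NormedSpace.exp (u • η) := by
  obtain ⟨F, hF⟩ : ∃ F : ℝ → Mt m, F = fun h => ∫ u in (0 : ℝ)..1,
    NormedSpace.exp ((1 - u) • η) * Y * NormedSpace.exp (u • (η + h • Y)) := ⟨_, rfl⟩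
  have hFc : Continuous F := by
    rw [hF]
    refine intervalIntegral.continuous_parametric_intervalIntegral_of_continuous' ?_ 0 1
    have c1 : Continuous fun p : ℝ × ℝ => NormedSpace.exp ((1 - p.2) • η) :=
      exp_cont'.comp (by fun_prop)
    have c2 : Continuous fun p : ℝ × ℝ => NormedSpace.exp (p.2 • (η + p.1 • Y)) :=
      exp_cont'.comp (by fun_prop)
    exact (c1.mul continuous_const).mul c2
  have hEq : ∀ h : ℝ, NormedSpace.exp (η + h • Y) - NormedSpace.exp η = h • F h := by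
    intro h
    obtain ⟨Z, hZ⟩ : ∃ Z, Z = η + h • Y := ⟨_, rfl⟩
    have hd : ∀ u : ℝ, HasDerivAt (fun u : ℝ => NormedSpace.exp ((1 - u) • η) *
        NormedSpace.exp (u • Z)) (h • (NormedSpace.exp ((1 - u) • η) * Y *
          NormedSpace.exp (u • Z))) u := by
      intro u
      have d1 : HasDerivAt (fun u : ℝ => NormedSpace.exp ((1 - u) • η))
          (-(NormedSpace.exp ((1 - u) • η) * η)) u := (exp_hd η (1 - u)).comp_const_sub 1 u
      have d2 := exp_hd' Z u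
      refine (d1.mul d2).congr_deriv ?_
      have e : Z = η + h • Y := hZ
      have e2 : h • (NormedSpace.exp ((1 - u) • η) * Y * NormedSpace.exp (u • Z)) =
          NormedSpace.exp ((1 - u) • η) * (Z - η) * NormedSpace.exp (u • Z) := by
        have e3 : Z - η = h • Y := by rw [e, add_sub_cancel_left]
        rw [e3, mul_smul_comm, smul_mul_assoc]
      rw [e2]
      noncomm_ring
    have hint := intervalIntegral.integral_eq_sub_of_hasDerivAt (a := 0) (b := 1)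
      (fun u _ => hd u) (by
        refine Continuous.intervalIntegrable ?_ _ _
        have c1 : Continuous fun u : ℝ => NormedSpace.exp ((1 - u) • η) :=
          exp_cont'.comp (by fun_prop)
        have c2 : Continuous fun u : ℝ => NormedSpace.exp (u • Z) :=
          exp_cont'.comp (by fun_prop)
        exact ((c1.mul continuous_const).mul c2).const_smul h)
    simp only [sub_self, zero_smul, NormedSpace.exp_zero, one_mul, one_smul, sub_zero,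
      mul_one] at hint
    rw [← hZ, hF]
    simp only
    rw [← intervalIntegral.integral_smul, ← hZ]
    exact hint.symm
  have h1 : HasDerivAt (fun h : ℝ => NormedSpace.exp (η + h • Y)) (F 0) 0 := by
    refine hasDerivAt_iff_tendsto_slope_zero.2 ?_
    have h2 : Tendsto F (𝓝[≠] 0) (𝓝 (F 0)) := (hFc.tendsto 0).mono_left nhdsWithin_le_nhds
    refine h2.congr' ?_
    filter_upwards [self_mem_nhdsWithin] with t ht
    have ht0 : t ≠ 0 := ht
    rw [zero_add, zero_smul, add_zero, hEq t, smul_smul, inv_mul_cancel₀ ht0, one_smul]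
  have h2 : HasDerivAt (fun h : ℝ => NormedSpace.exp (η + h • Y))
      (fderiv ℂ (NormedSpace.exp : Mt m → Mt m) η Y) 0 := by
    have h3 : HasDerivAt (fun h : ℝ => η + h • Y) Y 0 := by
      have h := ((hasDerivAt_id (0 : ℝ)).smul_const Y).const_add η
      rw [one_smul] at h
      exact h
    have h4 : HasFDerivAt (NormedSpace.exp : Mt m → Mt m) ((fderiv ℂ NormedSpace.exp η).restrictScalars ℝ)
        (η + (0 : ℝ) • Y) := by
      rw [zero_smul, add_zero]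
      exact (exp_diff η).hasFDerivAt.restrictScalars ℝ
    exact h4.comp_hasDerivAt 0 h3
  rw [h2.unique h1, hF]
  simp only [zero_smul, add_zero]

/-- conjugation by the one parameter group -/
def cj (η Y : Mt m) (v : ℝ) : Mt m := NormedSpace.exp (v • η) * Y * NormedSpace.exp (v • (-η))

theorem cj_deriv (η Y : Mt m) (v : ℝ) : HasDerivAt (cj η Y) (cj η (ad η Y) v) v := by
  have d1 := exp_hd η v
  have d2 := exp_hd' (-η) v
  have d3 := (d1.mul_const Y).mul d2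
  refine d3.congr_deriv ?_
  unfold cj ad
  noncomm_ring

theorem cj_cont (η Y : Mt m) : Continuous (cj η Y) :=
  continuous_iff_continuousAt.2 fun v => (cj_deriv η Y v).continuousAt

/-- the Taylor polynomial of the conjugation -/
def tay (η : Mt m) : ℕ → Mt m → ℝ → Mt m
  | 0, _, _ => 0
  | n + 1, Y, v => ∑ k ∈ Finset.range (n + 1), ((v ^ k / k.factorial : ℝ)) • (ad η)^[k] Y

theorem tay_eq (η : Mt m) (n : ℕ) (Y : Mt m) (v : ℝ) :
    tay η n Y v = ∑ k ∈ Finset.range n, ((v ^ k / k.factorial : ℝ)) • (ad η)^[k] Y := by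
  cases n with
  | zero => simp [tay]
  | succ n => rfl

theorem tay_deriv (η : Mt m) (n : ℕ) (Y : Mt m) (v : ℝ) :
    HasDerivAt (tay η (n + 1) Y) (tay η n (ad η Y) v) v := by
  have e : tay η (n + 1) Y = fun v => ∑ k ∈ Finset.range (n + 1),
      ((v ^ k / k.factorial : ℝ)) • (ad η)^[k] Y := rfl
  rw [e, tay_eq]
  have h1 : ∀ k ∈ Finset.range (n + 1), HasDerivAt (fun v : ℝ =>
      ((v ^ k / k.factorial : ℝ)) • (ad η)^[k] Y)
      ((k * v ^ (k - 1) / k.factorial : ℝ) • (ad η)^[k] Y) v := by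
    intro k _
    exact ((hasDerivAt_pow k v).div_const _).smul_const _
  have h2 := HasDerivAt.fun_sum h1
  refine h2.congr_deriv ?_
  rw [Finset.sum_range_succ']
  simp only [Nat.cast_zero, zero_mul, zero_div, zero_smul, add_zero]
  refine Finset.sum_congr rfl fun k _ => ?_
  rw [Function.iterate_succ_apply]
  congr 1
  rw [Nat.factorial_succ, Nat.add_sub_cancel]
  push_cast
  have : (k.factorial : ℝ) ≠ 0 := by positivity
  field_simp

theorem tay_zero (η : Mt m) (n : ℕ) (Y : Mt m) : tay η (n + 1) Y 0 = Y := by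
  rw [tay_eq, Finset.sum_range_succ']
  simp

theorem cj_zero (η Y : Mt m) : cj η Y 0 = Y := by
  unfold cj
  simp

theorem cj_taylor {η : Mt m} {K : ℝ} (hK0 : 0 ≤ K) (hK : ∀ v : ℝ, 0 ≤ v → v ≤ 1 → ∀ Y : Mt m,
    ‖cj η Y v‖ ≤ K * ‖Y‖) (n : ℕ) : ∀ (Y : Mt m) (v : ℝ), 0 ≤ v → v ≤ 1 →
    ‖cj η Y v - tay η n Y v‖ ≤ K * (2 * ‖η‖) ^ n * ‖Y‖ := by
  induction n with
  | zero =>
    intro Y v h0 h1
    have : tay η 0 Y v = 0 := rfl
    rw [this, sub_zero, pow_zero, mul_one]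
    exact hK v h0 h1 Y
  | succ n ih =>
    intro Y v h0 h1
    have hd : ∀ x ∈ Set.Icc (0 : ℝ) v, HasDerivWithinAt (fun v => cj η Y v - tay η (n + 1) Y v)
        (cj η (ad η Y) x - tay η n (ad η Y) x) (Set.Icc 0 v) x := fun x _ =>
      ((cj_deriv η Y x).sub (tay_deriv η n Y x)).hasDerivWithinAt
    have hb : ∀ x ∈ Set.Ico (0 : ℝ) v, ‖cj η (ad η Y) x - tay η n (ad η Y) x‖ ≤
        K * (2 * ‖η‖) ^ (n + 1) * ‖Y‖ := by
      intro x hx
      refine (ih (ad η Y) x hx.1 (hx.2.le.trans h1)).trans ?_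
      calc K * (2 * ‖η‖) ^ n * ‖ad η Y‖ ≤ K * (2 * ‖η‖) ^ n * (2 * ‖η‖ * ‖Y‖) :=
            mul_le_mul_of_nonneg_left (norm_ad η Y) (by positivity)
        _ = _ := by ring
    have h2 := norm_image_sub_le_of_norm_deriv_le_segment' hd hb v ⟨h0, le_rfl⟩
    rw [cj_zero, tay_zero, sub_self, sub_zero, sub_zero] at h2
    refine h2.trans (mul_le_of_le_one_right (by positivity) h1)

theorem tay_cont (η : Mt m) (n : ℕ) (Y : Mt m) : Continuous (tay η n Y) := by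
  have : tay η n Y = fun v => ∑ k ∈ Finset.range n, ((v ^ k / k.factorial : ℝ)) • (ad η)^[k] Y :=
    funext fun v => tay_eq η n Y v
  rw [this]
  fun_prop

theorem tay_int (η : Mt m) (n : ℕ) (Y : Mt m) : ∫ v in (0 : ℝ)..1, tay η n Y v =
    ∑ k ∈ Finset.range n, ((1 / (k + 1).factorial : ℝ)) • (ad η)^[k] Y := by
  simp only [tay_eq]
  rw [intervalIntegral.integral_finsetSum (fun k _ => Continuous.intervalIntegrable (by fun_prop) _ _)]
  refine Finset.sum_congr rfl fun k _ => ?_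
  rw [intervalIntegral.integral_smul_const, intervalIntegral.integral_div, integral_pow]
  congr 1
  rw [Nat.factorial_succ]
  push_cast
  have : (k.factorial : ℝ) ≠ 0 := by positivity
  field_simp
  simp

end Dl

open Dl in
theorem dlog6 : ∃ C : ℝ, 0 < C ∧ ∀ η A Y : Mt m, 32 * ‖η‖ ≤ 1 →
    fderiv ℂ (NormedSpace.exp : Mt m → Mt m) η Y = A * NormedSpace.exp η →
      ‖Y - (A - (1 / 2 : ℂ) • ad η A + (1 / 12 : ℂ) • ad η (ad η A) -
        (1 / 720 : ℂ) • ad η (ad η (ad η (ad η A))))‖ ≤ C * ‖η‖ ^ 6 * ‖A‖ := by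
  have : ProperSpace (Mt m) := FiniteDimensional.proper ℂ (Mt m)
  obtain ⟨K0, hK0⟩ := (isCompact_closedBall (0 : Mt m) 1).exists_bound_of_continuousOn
    (exp_cont' (m := m)).continuousOn
  obtain ⟨K, hK⟩ : ∃ K, K = max K0 1 := ⟨_, rfl⟩
  have hK1 : 1 ≤ K := by rw [hK]; exact le_max_right _ _
  have hKe : ∀ Z : Mt m, ‖Z‖ ≤ 1 → ‖NormedSpace.exp Z‖ ≤ K := by
    intro Z hZ
    rw [hK]
    exact (hK0 Z (by rwa [mem_closedBall_zero_iff])).trans (le_max_left _ _)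
  refine ⟨2 * K * (3 * K ^ 2 * 64 + 64), by positivity, ?_⟩
  intro η A Y hη hY
  have h0 := norm_nonneg η
  have hη1 : ‖η‖ ≤ 1 / 32 := by linarith
  have hYn : ‖Y‖ ≤ 2 * K * ‖A‖ := by
    have h1 := exp_deriv_inv (by linarith : 8 * ‖η‖ ≤ 1) Y
    rw [hY] at h1
    have h2 := norm_mul_le A (NormedSpace.exp η)
    have h3 := mul_le_mul_of_nonneg_left (hKe η (by linarith)) (norm_nonneg A)
    linarith
  have hcj : ∀ v : ℝ, 0 ≤ v → v ≤ 1 → ∀ Y : Mt m, ‖cj η Y v‖ ≤ K ^ 2 * ‖Y‖ := by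
    intro v hv0 hv1 Y
    have e1 : ‖v • η‖ ≤ 1 := by
      rw [norm_smul, Real.norm_eq_abs, abs_of_nonneg hv0]
      nlinarith
    have e2 : ‖v • (-η)‖ ≤ 1 := by rw [smul_neg, norm_neg]; exact e1
    unfold cj
    calc ‖NormedSpace.exp (v • η) * Y * NormedSpace.exp (v • (-η))‖ ≤
          ‖NormedSpace.exp (v • η)‖ * ‖Y‖ * ‖NormedSpace.exp (v • (-η))‖ :=
          (norm_mul_le _ _).trans (mul_le_mul_of_nonneg_right (norm_mul_le _ _) (norm_nonneg _))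
      _ ≤ K * ‖Y‖ * K := by
          refine mul_le_mul (mul_le_mul_of_nonneg_right (hKe _ e1) (norm_nonneg _)) (hKe _ e2)
            (norm_nonneg _) (by positivity)
      _ = _ := by ring
  -- the equation
  have hA : A = ∫ v in (0 : ℝ)..1, cj η Y v := by
    have h1 : A * NormedSpace.exp η = ∫ u in (0 : ℝ)..1, NormedSpace.exp ((1 - u) • η) * Y *
        NormedSpace.exp (u • η) := by rw [← hY]; exact duhamel η Y
    have h2 : A = (∫ u in (0 : ℝ)..1, NormedSpace.exp ((1 - u) • η) * Y *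
        NormedSpace.exp (u • η)) * NormedSpace.exp (-η) := by
      rw [← h1, mul_assoc, exp_mul_exp_neg, mul_one]
    have h3 : (∫ u in (0 : ℝ)..1, NormedSpace.exp ((1 - u) • η) * Y *
        NormedSpace.exp (u • η)) * NormedSpace.exp (-η) =
        ∫ u in (0 : ℝ)..1, NormedSpace.exp ((1 - u) • η) * Y *
        NormedSpace.exp (u • η) * NormedSpace.exp (-η) := by
      have hc : Continuous fun u : ℝ => NormedSpace.exp ((1 - u) • η) * Y *
          NormedSpace.exp (u • η) := by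
        have c1 : Continuous fun u : ℝ => NormedSpace.exp ((1 - u) • η) :=
          exp_cont'.comp (by fun_prop)
        have c2 : Continuous fun u : ℝ => NormedSpace.exp (u • η) :=
          exp_cont'.comp (by fun_prop)
        exact (c1.mul continuous_const).mul c2
      exact (((ContinuousLinearMap.mul ℝ (Mt m)).flip
        (NormedSpace.exp (-η))).intervalIntegral_comp_comm (hc.intervalIntegrable 0 1)).symm
    rw [h2, h3]
    have h4 : ∀ u : ℝ, NormedSpace.exp ((1 - u) • η) * Y *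
        NormedSpace.exp (u • η) * NormedSpace.exp (-η) = cj η Y (1 - u) := by
      intro u
      unfold cj
      rw [mul_assoc (NormedSpace.exp ((1 - u) • η) * Y)]
      congr 1
      have hcom : Commute (u • η) (-η) := ((Commute.refl η).smul_left u).neg_right
      rw [← Matrix.exp_add_of_commute _ _ hcom]
      congr 1
      module
    simp only [h4]
    rw [intervalIntegral.integral_comp_sub_left (fun v => cj η Y v)]
    simp
  have hrho : ‖A - ∑ k ∈ Finset.range 6, ((1 / (k + 1).factorial : ℝ)) • (ad η)^[k] Y‖ ≤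
      K ^ 2 * (2 * ‖η‖) ^ 6 * ‖Y‖ := by
    rw [hA, ← tay_int, ← intervalIntegral.integral_sub ((cj_cont η Y).intervalIntegrable _ _)
      ((tay_cont η 6 Y).intervalIntegrable _ _)]
    have h1 := intervalIntegral.norm_integral_le_of_norm_le_const (a := (0 : ℝ)) (b := 1)
      (f := fun v => cj η Y v - tay η 6 Y v) (C := K ^ 2 * (2 * ‖η‖) ^ 6 * ‖Y‖) (by
        intro v hv
        rw [Set.uIoc_of_le zero_le_one] at hv
        exact cj_taylor (by positivity) hcj 6 Y v hv.1.le hv.2)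
    simpa using h1
  obtain ⟨ρ, hρ⟩ : ∃ ρ, ρ = A - ∑ k ∈ Finset.range 6,
    ((1 / (k + 1).factorial : ℝ)) • (ad η)^[k] Y := ⟨_, rfl⟩
  rw [← hρ] at hrho
  obtain ⟨a1, ha1⟩ : ∃ a, a = ad η Y := ⟨_, rfl⟩
  obtain ⟨a2, ha2⟩ : ∃ a, a = ad η a1 := ⟨_, rfl⟩
  obtain ⟨a3, ha3⟩ : ∃ a, a = ad η a2 := ⟨_, rfl⟩
  obtain ⟨a4, ha4⟩ : ∃ a, a = ad η a3 := ⟨_, rfl⟩
  obtain ⟨a5, ha5⟩ : ∃ a, a = ad η a4 := ⟨_, rfl⟩
  obtain ⟨a6, ha6⟩ : ∃ a, a = ad η a5 := ⟨_, rfl⟩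
  obtain ⟨a7, ha7⟩ : ∃ a, a = ad η a6 := ⟨_, rfl⟩
  obtain ⟨a8, ha8⟩ : ∃ a, a = ad η a7 := ⟨_, rfl⟩
  obtain ⟨a9, ha9⟩ : ∃ a, a = ad η a8 := ⟨_, rfl⟩
  have hAe : A = Y + (1 / 2 : ℂ) • a1 + (1 / 6 : ℂ) • a2 + (1 / 24 : ℂ) • a3 +
      (1 / 120 : ℂ) • a4 + (1 / 720 : ℂ) • a5 + ρ := by
    have hr : ∀ (c : ℝ) (X : Mt m), c • X = (c : ℂ) • X := fun c X => rfl
    rw [hρ]
    simp only [Finset.sum_range_succ, Finset.sum_range_zero, zero_add, Function.iterate_succ,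
      Function.iterate_zero, Function.comp_apply, id, Nat.factorial, ← ha1, ← ha2, ← ha3, ← ha4,
      ← ha5, hr]
    push_cast
    norm_num
  obtain ⟨r1, hr1⟩ : ∃ a, a = ad η ρ := ⟨_, rfl⟩
  obtain ⟨r2, hr2⟩ : ∃ a, a = ad η r1 := ⟨_, rfl⟩
  obtain ⟨r3, hr3⟩ : ∃ a, a = ad η r2 := ⟨_, rfl⟩
  obtain ⟨r4, hr4⟩ : ∃ a, a = ad η r3 := ⟨_, rfl⟩
  have hfin : Y - (A - (1 / 2 : ℂ) • ad η A + (1 / 12 : ℂ) • ad η (ad η A) -
        (1 / 720 : ℂ) • ad η (ad η (ad η (ad η A)))) =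
      (1 / 4320 : ℂ) • a6 - (1 / 17280 : ℂ) • a7 + (1 / 86400 : ℂ) • a8 + (1 / 518400 : ℂ) • a9 -
        (ρ - (1 / 2 : ℂ) • r1 + (1 / 12 : ℂ) • r2 - (1 / 720 : ℂ) • r4) := by
    rw [hAe]
    simp only [ad_add, ad_smul, ← ha1, ← ha2, ← ha3, ← ha4, ← ha5, ← ha6, ← ha7, ← ha8, ← ha9,
      ← hr1, ← hr2, ← hr3, ← hr4]
    module
  rw [hfin]
  -- norms
  obtain ⟨x, hx⟩ : ∃ x, x = 2 * ‖η‖ := ⟨_, rfl⟩
  have hx0 : 0 ≤ x := by rw [hx]; positivity
  have hx1 : x ≤ 1 := by rw [hx]; linarith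
  have hstep : ∀ (X : Mt m), ‖ad η X‖ ≤ x * ‖X‖ := by
    intro X; rw [hx]; exact norm_ad η X
  have hy0 := norm_nonneg Y
  have m1 : ‖a1‖ ≤ x * ‖Y‖ := by rw [ha1]; exact hstep Y
  have mm : ∀ (k : ℕ) (a b : Mt m), ‖a‖ ≤ x ^ k * ‖Y‖ → b = ad η a → ‖b‖ ≤ x ^ (k + 1) * ‖Y‖ := by
    intro k a b h1 h2
    rw [h2]
    calc ‖ad η a‖ ≤ x * ‖a‖ := hstep a
      _ ≤ x * (x ^ k * ‖Y‖) := mul_le_mul_of_nonneg_left h1 hx0
      _ = _ := by ring
  have m1' : ‖a1‖ ≤ x ^ 1 * ‖Y‖ := by rw [pow_one]; exact m1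
  have m2 := mm 1 a1 a2 m1' ha2
  have m3 := mm 2 a2 a3 m2 ha3
  have m4 := mm 3 a3 a4 m3 ha4
  have m5 := mm 4 a4 a5 m4 ha5
  have m6 := mm 5 a5 a6 m5 ha6
  have m7 := mm 6 a6 a7 m6 ha7
  have m8 := mm 7 a7 a8 m7 ha8
  have m9 := mm 8 a8 a9 m8 ha9
  have hle : ∀ k : ℕ, 6 ≤ k → x ^ k * ‖Y‖ ≤ x ^ 6 * ‖Y‖ := fun k hk =>
    mul_le_mul_of_nonneg_right (pow_le_pow_of_le_one hx0 hx1 hk) hy0
  have m7' := m7.trans (hle 7 (by norm_num))
  have m8' := m8.trans (hle 8 (by norm_num))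
  have m9' := m9.trans (hle 9 (by norm_num))
  have q1 : ‖r1‖ ≤ ‖ρ‖ := by
    rw [hr1]; exact (hstep ρ).trans (mul_le_of_le_one_left (norm_nonneg _) hx1)
  have q2 : ‖r2‖ ≤ ‖ρ‖ := by
    rw [hr2]; exact ((hstep r1).trans (mul_le_of_le_one_left (norm_nonneg _) hx1)).trans q1
  have q3 : ‖r3‖ ≤ ‖ρ‖ := by
    rw [hr3]; exact ((hstep r2).trans (mul_le_of_le_one_left (norm_nonneg _) hx1)).trans q2
  have q4 : ‖r4‖ ≤ ‖ρ‖ := by
    rw [hr4]; exact ((hstep r3).trans (mul_le_of_le_one_left (norm_nonneg _) hx1)).trans q3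
  have c1 : ‖(1 / 4320 : ℂ)‖ ≤ 1 / 4 := by norm_num
  have c2 : ‖(1 / 17280 : ℂ)‖ ≤ 1 / 4 := by norm_num
  have c3 : ‖(1 / 86400 : ℂ)‖ ≤ 1 / 4 := by norm_num
  have c4 : ‖(1 / 518400 : ℂ)‖ ≤ 1 / 4 := by norm_num
  have c5 : ‖(1 / 2 : ℂ)‖ ≤ 1 / 2 := by norm_num
  have c6 : ‖(1 / 12 : ℂ)‖ ≤ 1 / 2 := by norm_num
  have c7 : ‖(1 / 720 : ℂ)‖ ≤ 1 / 2 := by norm_num
  have sm : ∀ (c : ℂ) (q : ℝ) (X : Mt m) (B : ℝ), ‖c‖ ≤ q → ‖X‖ ≤ B → ‖c • X‖ ≤ q * B := by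
    intro c q X B h1 h2
    rw [norm_smul]
    exact mul_le_mul h1 h2 (norm_nonneg _) ((norm_nonneg _).trans h1)
  have s6 := sm _ _ _ _ c1 m6
  have s7 := sm _ _ _ _ c2 m7'
  have s8 := sm _ _ _ _ c3 m8'
  have s9 := sm _ _ _ _ c4 m9'
  have t1 := sm _ _ _ _ c5 q1
  have t2 := sm _ _ _ _ c6 q2
  have t4 := sm _ _ _ _ c7 q4
  have n1 : ‖(1 / 4320 : ℂ) • a6 - (1 / 17280 : ℂ) • a7 + (1 / 86400 : ℂ) • a8 +
      (1 / 518400 : ℂ) • a9‖ ≤ x ^ 6 * ‖Y‖ := by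
    have e1 := norm_add_le ((1 / 4320 : ℂ) • a6 - (1 / 17280 : ℂ) • a7 + (1 / 86400 : ℂ) • a8)
      ((1 / 518400 : ℂ) • a9)
    have e2 := norm_add_le ((1 / 4320 : ℂ) • a6 - (1 / 17280 : ℂ) • a7) ((1 / 86400 : ℂ) • a8)
    have e3 := norm_sub_le ((1 / 4320 : ℂ) • a6) ((1 / 17280 : ℂ) • a7)
    linarith only [e1, e2, e3, s6, s7, s8, s9]
  have n2 : ‖ρ - (1 / 2 : ℂ) • r1 + (1 / 12 : ℂ) • r2 - (1 / 720 : ℂ) • r4‖ ≤ 3 * ‖ρ‖ := by
    have e1 := norm_sub_le (ρ - (1 / 2 : ℂ) • r1 + (1 / 12 : ℂ) • r2) ((1 / 720 : ℂ) • r4)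
    have e2 := norm_add_le (ρ - (1 / 2 : ℂ) • r1) ((1 / 12 : ℂ) • r2)
    have e3 := norm_sub_le ρ ((1 / 2 : ℂ) • r1)
    have e4 := norm_nonneg ρ
    linarith only [e1, e2, e3, e4, t1, t2, t4]
  have n3 := norm_sub_le ((1 / 4320 : ℂ) • a6 - (1 / 17280 : ℂ) • a7 + (1 / 86400 : ℂ) • a8 +
      (1 / 518400 : ℂ) • a9) (ρ - (1 / 2 : ℂ) • r1 + (1 / 12 : ℂ) • r2 - (1 / 720 : ℂ) • r4)
  have hx6 : x ^ 6 = 64 * ‖η‖ ^ 6 := by rw [hx]; ring
  rw [← hx] at hrho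
  have n4 : x ^ 6 * ‖Y‖ ≤ 64 * ‖η‖ ^ 6 * (2 * K * ‖A‖) := by
    rw [hx6]
    exact mul_le_mul_of_nonneg_left hYn (by positivity)
  have n5 : K ^ 2 * x ^ 6 * ‖Y‖ ≤ K ^ 2 * (64 * ‖η‖ ^ 6 * (2 * K * ‖A‖)) := by
    rw [mul_assoc]
    exact mul_le_mul_of_nonneg_left n4 (by positivity)
  calc _ ≤ x ^ 6 * ‖Y‖ + 3 * (K ^ 2 * x ^ 6 * ‖Y‖) := by linarith only [n1, n2, n3, hrho]
    _ ≤ 64 * ‖η‖ ^ 6 * (2 * K * ‖A‖) + 3 * (K ^ 2 * (64 * ‖η‖ ^ 6 * (2 * K * ‖A‖))) := by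
        linarith only [n4, n5]
    _ = _ := by ring

end

end Pool.Agent.T2H04.HY
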