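import Mathlib
import Pool.Agent.T2H04.HY.TlA1

/-!
# Sixth order expansion of the second difference of `Qf` (package A2, uses `dlog6` of TlA1)

Paper proof. `‖·‖` Frobenius, `⟨X, Y⟩ = Re tr (Xᴴ Y) = -Re tr (X Y)` for skew-Hermitian `X, Y`; `ad_X` is
skew-symmetric for it on skew-Hermitian matrices. Let `A = X / 2` (so `Qf A = ‖A‖²` for real `A`),
`ε = ‖X‖ + ‖η‖`, `Y(s) = bc (s A) (±η)` for `s ∈ [0,1]` (real curve in the Lie algebra, `Y(0) = ±η`,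
`exp Y(s) = exp (s A) exp (±η)`, `‖Y(s)‖ ≤ 2 ε`).

(1) Duhamel: `fderiv exp Y V = ∫₀¹ exp((1-u) Y) V exp(u Y) du` (differentiate `exp((1-u)Y) exp(u(Y+hV))`
in `u`), i.e. `fderiv exp Y V = (∫₀¹ e^{(1-u) ad_Y} V du) exp Y = φ(ad_Y) V · exp Y`,
`φ(z) = (e^z - 1)/z`. As `fderiv exp Y (Y') = A exp Y`: `φ(ad_Y) Y' = A`, hence
`Y' = A - ½ ad_Y A + 1/12 ad_Y² A - 1/720 ad_Y⁴ A + O(‖Y‖⁶ ‖A‖)`
(multiply: `φ(z)(1 - z/2 + z²/12 - z⁴/720) = 1 + O(z⁶)` as an identity of polynomials in the operator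
`ad_Y`, after replacing `φ` by its Taylor polynomial; and `‖φ(ad_Y) V‖ ≥ ‖V‖/2` for small `Y`, compare
`exp_deriv_inv`, `log_deriv_expand` in `Coef.lean`, where this is done up to third order).

(2) `φ(s) := Qf (Y(s))`, real, `φ' = 2 ⟨A, Y⟩` (`cvy_q_deriv`), so
`φ'' = 2 ⟨A, Y'⟩ = 2 ‖A‖² - 1/6 ‖K‖² - 1/360 ‖ad_Y K‖² + O(ε⁸)`, `K := [Y, A]` (`⟨A, ad_Y A⟩ = 0`,
`⟨A, ad_Y² A⟩ = -‖K‖²`, `⟨A, ad_Y⁴ A⟩ = ‖ad_Y K‖²`).
`φ(1) = φ(0) + φ'(0) + ∫₀¹ (1-s) φ''(s) ds`, `φ(0) = ‖η‖²`, `φ'(0) = ±2 ⟨A, η⟩`. Hence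
`sdf = -∑_± ∫₀¹ (1-s) (1/6 ‖K_±‖² + 1/360 ‖ad_{Y_±} K_±‖²) ds + O(ε⁸)`.

(3) `K' = [Y', A] = -½ [K, A] + 1/12 [[Y, K], A] + O(ε⁶)`, so
`(‖K‖²)' = 2 ⟨K, K'⟩ = 1/6 ⟨K, [[Y,K],A]⟩ + O(ε⁸) = 1/6 ⟨ad_A K, ad_Y K⟩ + O(ε⁸)`. With
`K = K₀ + O(ε³)`, `K₀ = ±[η, A]`, `Y = ±η + s A + O(ε²)`:
`‖K_±(s)‖² = ‖[η,A]‖² + 1/6 (± s ⟨ad_A [η,A], ad_η [η,A]⟩ + s²/2 ‖ad_A [η,A]‖²) + O(ε⁷)` and
`‖ad_Y K‖² = ‖ad_η [η,A]‖² ± 2 s ⟨..⟩ + s² ‖ad_A [η,A]‖² + O(ε⁷)`. The `±` terms cancel in the sum,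
`∫₀¹ (1-s) ds = 1/2`, `∫₀¹ (1-s) s² ds = 1/12`:
`sdf = -1/6 ‖[η,A]‖² - 1/360 ‖ad_η² A‖² - (1/432 + 1/2160) ‖ad_A² η‖² + O(ε⁷)` and
`1/432 + 1/2160 = 1/360`. With `A = X/2` this is `-T6 X η + O(ε⁷)`.
(Numerically checked for random `su(2)`, `su(3)` matrices.)

To avoid integrals one can also bound `φ(1) - φ(0) - φ'(0) - p(1)` where `p` is the explicit polynomial,
by the mean value inequality applied twice (`|f''| ≤ c` on `[0,1]`, `f(0) = f'(0) = 0` implies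
`|f(1)| ≤ c`).
-/

open MeasureTheory Matrix Filter
open scoped Matrix.Norms.Frobenius Topology

namespace Pool.Agent.T2H04.HY

set_option linter.unusedSectionVars false

noncomputable section

namespace Sx

open Dl

section

variable {m : Type} [Fintype m] [DecidableEq m]

theorem ipr_add_left (X Y Z : Mt m) : ipr (X + Y) Z = ipr X Z + ipr Y Z := by
  rw [ipr_comm, ipr_add, ipr_comm Z X, ipr_comm Z Y]

theorem ipr_sub_left (X Y Z : Mt m) : ipr (X - Y) Z = ipr X Z - ipr Y Z := by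
  rw [ipr_comm, ipr_sub, ipr_comm Z X, ipr_comm Z Y]

theorem ipr_smul_left (c : ℝ) (X Y : Mt m) : ipr (c • X) Y = c * ipr X Y := by
  rw [ipr_comm, ipr_smul, ipr_comm]

theorem ipr_neg (X Y : Mt m) : ipr X (-Y) = -ipr X Y := by
  unfold ipr
  rw [mul_neg, trace_neg, Complex.neg_re]

theorem ipr_zero (X : Mt m) : ipr X 0 = 0 := by
  unfold ipr
  simp

theorem ipr_skew {Z : Mt m} (hZ : Zᴴ = -Z) (X Y : Mt m) :
    ipr (ad Z X) Y = -ipr X (ad Z Y) := by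
  unfold ipr ad
  rw [conjTranspose_sub, conjTranspose_mul, conjTranspose_mul, hZ]
  have h1 : trace (Z * Xᴴ * Y) = trace (Xᴴ * (Y * Z)) := by
    rw [mul_assoc, trace_mul_comm, mul_assoc]
  have e : (Xᴴ * -Z - -Z * Xᴴ) * Y = Z * Xᴴ * Y - Xᴴ * (Z * Y) := by noncomm_ring
  rw [e, trace_sub, h1, mul_sub, trace_sub]
  simp only [Complex.sub_re]
  ring

theorem ad_anti (X Y : Mt m) : ad X Y = -ad Y X := by
  unfold ad
  abel

theorem ad_self (X : Mt m) : ad X X = 0 := by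
  unfold ad
  exact sub_self _

theorem ad_add_left (X Y Z : Mt m) : ad (X + Y) Z = ad X Z + ad Y Z := by
  unfold ad
  rw [mul_add, add_mul]
  abel

theorem ad_sub_left (X Y Z : Mt m) : ad (X - Y) Z = ad X Z - ad Y Z := by
  unfold ad
  rw [mul_sub, sub_mul]
  abel

theorem ad_smul_left (c : ℝ) (X Y : Mt m) : ad (c • X) Y = c • ad X Y := by
  unfold ad
  rw [mul_smul_comm, smul_mul_assoc, smul_sub]

theorem ad_smulr (c : ℝ) (X Y : Mt m) : ad X (c • Y) = c • ad X Y := by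
  unfold ad
  rw [mul_smul_comm, smul_mul_assoc, smul_sub]

theorem ad_neg_left (X Y : Mt m) : ad (-X) Y = -ad X Y := by
  unfold ad
  rw [mul_neg, neg_mul]
  abel

theorem adle {X Y : Mt m} {a b : ℝ} (hX : ‖X‖ ≤ a) (hY : ‖Y‖ ≤ b) : ‖ad X Y‖ ≤ 2 * a * b := by
  have h1 := norm_ad X Y
  have h2 : ‖X‖ * ‖Y‖ ≤ a * b := mul_le_mul hX hY (norm_nonneg _) ((norm_nonneg _).trans hX)
  calc _ ≤ 2 * ‖X‖ * ‖Y‖ := h1
    _ = 2 * (‖X‖ * ‖Y‖) := by ring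
    _ ≤ 2 * (a * b) := by linarith
    _ = _ := by ring

theorem iprle {X Y : Mt m} {a b : ℝ} (hX : ‖X‖ ≤ a) (hY : ‖Y‖ ≤ b) : |ipr X Y| ≤ a * b :=
  (ipr_abs_le X Y).trans (mul_le_mul hX hY (norm_nonneg _) ((norm_nonneg _).trans hX))

theorem mvt {f f' p p' : ℝ → ℝ} {c : ℝ} (hf : ∀ s ∈ Set.Icc (0 : ℝ) 1, HasDerivAt f (f' s) s)
    (hp : ∀ s, HasDerivAt p (p' s) s) (h0 : f 0 = p 0)
    (hb : ∀ s ∈ Set.Icc (0 : ℝ) 1, |f' s - p' s| ≤ c) :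
    ∀ s ∈ Set.Icc (0 : ℝ) 1, |f s - p s| ≤ c := by
  intro s hs
  have hc : 0 ≤ c := (abs_nonneg _).trans (hb 0 ⟨le_rfl, zero_le_one⟩)
  have h1 := norm_image_sub_le_of_norm_deriv_le_segment' (f := fun s => f s - p s)
    (f' := fun s => f' s - p' s) (a := 0) (b := s) (C := c)
    (fun x hx => ((hf x ⟨hx.1, hx.2.trans hs.2⟩).sub (hp x)).hasDerivWithinAt)
    (fun x hx => hb x ⟨hx.1, hx.2.le.trans hs.2⟩) s ⟨hs.1, le_rfl⟩
  simp only [h0, sub_self, sub_zero] at h1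
  exact h1.trans (mul_le_of_le_one_right hc hs.2)

theorem mvtv {Y Y' : ℝ → Mt m} {A H : Mt m} {c : ℝ}
    (hY : ∀ s ∈ Set.Icc (0 : ℝ) 1, HasDerivAt Y (Y' s) s)
    (h0 : Y 0 = H) (hb : ∀ s ∈ Set.Icc (0 : ℝ) 1, ‖Y' s - A‖ ≤ c) :
    ∀ s ∈ Set.Icc (0 : ℝ) 1, ‖Y s - (H + s • A)‖ ≤ c := by
  intro s hs
  have hc : 0 ≤ c := (norm_nonneg _).trans (hb 0 ⟨le_rfl, zero_le_one⟩)
  have hp : ∀ x : ℝ, HasDerivAt (fun s : ℝ => H + s • A) A x := by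
    intro x
    have h := ((hasDerivAt_id x).smul_const A).const_add H
    rw [one_smul] at h
    exact h
  have h1 := norm_image_sub_le_of_norm_deriv_le_segment' (f := fun s => Y s - (H + s • A))
    (f' := fun s => Y' s - A) (a := 0) (b := s) (C := c)
    (fun x hx => ((hY x ⟨hx.1, hx.2.trans hs.2⟩).sub (hp x)).hasDerivWithinAt)
    (fun x hx => hb x ⟨hx.1, hx.2.le.trans hs.2⟩) s ⟨hs.1, le_rfl⟩
  simp only [h0, zero_smul, add_zero, sub_self, sub_zero] at h1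
  exact h1.trans (mul_le_of_le_one_right hc hs.2)

theorem nsq_deriv {K : ℝ → Mt m} {K' : Mt m} {s : ℝ} (hK : HasDerivAt K K' s) :
    HasDerivAt (fun s => ‖K s‖ ^ 2) (2 * ipr (K s) K') s := by
  have h1 : HasDerivAt (fun s => (K s)ᴴ * K s) (K'ᴴ * K s + (K s)ᴴ * K') s := by
    have h2 : HasDerivAt (fun s => (K s)ᴴ) (K'ᴴ) s := by
      have := (Matrix.conjTransposeLinearEquiv m m ℝ ℂ).toLinearMap.toContinuousLinearMap.hasFDerivAt
        (x := K s) |>.comp_hasDerivAt s hK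
      exact this
    exact h2.mul hK
  have h3 : HasDerivAt (fun s => trace ((K s)ᴴ * K s)) (trace (K'ᴴ * K s + (K s)ᴴ * K')) s := by
    have := (LinearMap.toContinuousLinearMap (Matrix.traceLinearMap m ℝ ℂ)).hasFDerivAt
      (x := (K s)ᴴ * K s) |>.comp_hasDerivAt s h1
    exact this
  have h4 : HasDerivAt (fun s => (trace ((K s)ᴴ * K s)).re) (trace (K'ᴴ * K s + (K s)ᴴ * K')).re s := by
    have := Complex.reCLM.hasFDerivAt (x := trace ((K s)ᴴ * K s)) |>.comp_hasDerivAt s h3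
    exact this
  have e1 : (fun s => ‖K s‖ ^ 2) = fun s => (trace ((K s)ᴴ * K s)).re := funext fun s => norm_sq_eq _
  rw [e1]
  refine h4.congr_deriv ?_
  rw [trace_add, Complex.add_re]
  have h5 : ipr K' (K s) = ipr (K s) K' := ipr_comm _ _
  unfold ipr at h5 ⊢
  rw [h5]
  ring

/-- **the expansion along a curve** -/
theorem curve {A H : Mt m} (hA : Aᴴ = -A) {Y Y' : ℝ → Mt m} {f : ℝ → ℝ} {e C : ℝ}
    (he0 : 0 ≤ e) (he1 : e ≤ 1) (hC : 0 ≤ C) (hAe : ‖A‖ ≤ e) (hHe : ‖H‖ ≤ e)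
    (hYe : ∀ s ∈ Set.Icc (0 : ℝ) 1, ‖Y s‖ ≤ e) (hYs : ∀ s ∈ Set.Icc (0 : ℝ) 1, (Y s)ᴴ = -Y s)
    (hY : ∀ s ∈ Set.Icc (0 : ℝ) 1, HasDerivAt Y (Y' s) s) (hY0 : Y 0 = H)
    (hD : ∀ s ∈ Set.Icc (0 : ℝ) 1, ‖Y' s - (A - (1 / 2 : ℝ) • ad (Y s) A +
      (1 / 12 : ℝ) • ad (Y s) (ad (Y s) A) -
      (1 / 720 : ℝ) • ad (Y s) (ad (Y s) (ad (Y s) (ad (Y s) A))))‖ ≤ C * e ^ 7)
    (hf : ∀ s ∈ Set.Icc (0 : ℝ) 1, HasDerivAt f (2 * ipr A (Y s)) s) :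
    |f 1 - (f 0 + 2 * ipr A H + ‖A‖ ^ 2 - 1 / 12 * ‖ad H A‖ ^ 2 - 1 / 720 * ‖ad H (ad H A)‖ ^ 2 -
      1 / 720 * ‖ad A (ad H A)‖ ^ 2 - 1 / 180 * ipr (ad A (ad H A)) (ad H (ad H A)))| ≤
      10 * (2 + C) * e ^ 7 := by
  obtain ⟨B, hB⟩ : ∃ B, B = 2 + C := ⟨_, rfl⟩
  rw [← hB]
  have hB0 : 0 ≤ B := by rw [hB]; positivity
  have hCB : C ≤ B := by rw [hB]; linarith
  have pw : ∀ {j k : ℕ}, j ≤ k → e ^ k ≤ e ^ j := fun h => pow_le_pow_of_le_one he0 he1 h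
  -- the sizes
  have k1 : ∀ s ∈ Set.Icc (0 : ℝ) 1, ‖ad (Y s) A‖ ≤ 2 * e ^ 2 := fun s hs =>
    (adle (hYe s hs) hAe).trans (le_of_eq (by ring))
  have k2 : ∀ s ∈ Set.Icc (0 : ℝ) 1, ‖ad (Y s) (ad (Y s) A)‖ ≤ 4 * e ^ 3 := fun s hs =>
    (adle (hYe s hs) (k1 s hs)).trans (le_of_eq (by ring))
  have k3 : ∀ s ∈ Set.Icc (0 : ℝ) 1, ‖ad (Y s) (ad (Y s) (ad (Y s) A))‖ ≤ 8 * e ^ 4 := fun s hs =>
    (adle (hYe s hs) (k2 s hs)).trans (le_of_eq (by ring))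
  have k4 : ∀ s ∈ Set.Icc (0 : ℝ) 1, ‖ad (Y s) (ad (Y s) (ad (Y s) (ad (Y s) A)))‖ ≤ 16 * e ^ 5 :=
    fun s hs => (adle (hYe s hs) (k3 s hs)).trans (le_of_eq (by ring))
  obtain ⟨K0, hK0⟩ : ∃ K0, K0 = ad H A := ⟨_, rfl⟩
  have hK0n : ‖K0‖ ≤ 2 * e ^ 2 := by
    rw [hK0]; exact (adle hHe hAe).trans (le_of_eq (by ring))
  -- the remainders
  have r2 : ∀ s ∈ Set.Icc (0 : ℝ) 1, ‖Y' s - (A - (1 / 2 : ℝ) • ad (Y s) A +
      (1 / 12 : ℝ) • ad (Y s) (ad (Y s) A))‖ ≤ B * e ^ 5 := by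
    intro s hs
    have h1 := hD s hs
    have h2 : ‖(1 / 720 : ℝ) • ad (Y s) (ad (Y s) (ad (Y s) (ad (Y s) A)))‖ ≤
        1 / 720 * (16 * e ^ 5) := by
      rw [norm_smul, Real.norm_of_nonneg (by norm_num)]
      exact mul_le_mul_of_nonneg_left (k4 s hs) (by norm_num)
    have e1 : Y' s - (A - (1 / 2 : ℝ) • ad (Y s) A + (1 / 12 : ℝ) • ad (Y s) (ad (Y s) A)) =
      (Y' s - (A - (1 / 2 : ℝ) • ad (Y s) A +
      (1 / 12 : ℝ) • ad (Y s) (ad (Y s) A) -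
      (1 / 720 : ℝ) • ad (Y s) (ad (Y s) (ad (Y s) (ad (Y s) A))))) -
      (1 / 720 : ℝ) • ad (Y s) (ad (Y s) (ad (Y s) (ad (Y s) A))) := by abel
    rw [e1]
    have h3 := norm_sub_le (Y' s - (A - (1 / 2 : ℝ) • ad (Y s) A +
      (1 / 12 : ℝ) • ad (Y s) (ad (Y s) A) -
      (1 / 720 : ℝ) • ad (Y s) (ad (Y s) (ad (Y s) (ad (Y s) A)))))
      ((1 / 720 : ℝ) • ad (Y s) (ad (Y s) (ad (Y s) (ad (Y s) A))))
    have h4 : C * e ^ 7 ≤ C * e ^ 5 := mul_le_mul_of_nonneg_left (pw (by norm_num)) hC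
    have h5 : 0 ≤ e ^ 5 := by positivity
    rw [hB]
    linarith
  have r1 : ∀ s ∈ Set.Icc (0 : ℝ) 1, ‖Y' s - A‖ ≤ B * e ^ 2 := by
    intro s hs
    have h1 := hD s hs
    have h2 : ‖(1 / 720 : ℝ) • ad (Y s) (ad (Y s) (ad (Y s) (ad (Y s) A)))‖ ≤
        1 / 720 * (16 * e ^ 5) := by
      rw [norm_smul, Real.norm_of_nonneg (by norm_num)]
      exact mul_le_mul_of_nonneg_left (k4 s hs) (by norm_num)
    have h2' : ‖(1 / 2 : ℝ) • ad (Y s) A‖ ≤ 1 / 2 * (2 * e ^ 2) := by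
      rw [norm_smul, Real.norm_of_nonneg (by norm_num)]
      exact mul_le_mul_of_nonneg_left (k1 s hs) (by norm_num)
    have h2'' : ‖(1 / 12 : ℝ) • ad (Y s) (ad (Y s) A)‖ ≤ 1 / 12 * (4 * e ^ 3) := by
      rw [norm_smul, Real.norm_of_nonneg (by norm_num)]
      exact mul_le_mul_of_nonneg_left (k2 s hs) (by norm_num)
    obtain ⟨a, ha⟩ : ∃ a, a = (1 / 2 : ℝ) • ad (Y s) A := ⟨_, rfl⟩
    obtain ⟨b, hb⟩ : ∃ a, a = (1 / 12 : ℝ) • ad (Y s) (ad (Y s) A) := ⟨_, rfl⟩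
    obtain ⟨c, hc⟩ : ∃ a, a = (1 / 720 : ℝ) • ad (Y s) (ad (Y s) (ad (Y s) (ad (Y s) A))) := ⟨_, rfl⟩
    rw [← ha, ← hb, ← hc] at h1
    rw [← ha] at h2'
    rw [← hb] at h2''
    rw [← hc] at h2
    have e1 : Y' s - A = (Y' s - (A - a + b - c)) - a + b - c := by abel
    rw [e1]
    have h3 := norm_sub_le ((Y' s - (A - a + b - c)) - a + b) c
    have h4 := norm_add_le ((Y' s - (A - a + b - c)) - a) b
    have h5 := norm_sub_le (Y' s - (A - a + b - c)) a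
    have h6 : C * e ^ 7 ≤ C * e ^ 2 := mul_le_mul_of_nonneg_left (pw (by norm_num)) hC
    have h7 : e ^ 3 ≤ e ^ 2 := pw (by norm_num)
    have h8 : e ^ 5 ≤ e ^ 2 := pw (by norm_num)
    have h9 : 0 ≤ e ^ 2 := by positivity
    rw [hB]
    linarith
  have y1 := mvtv hY hY0 r1
  -- `K` and its distance to `K0`
  have y2 : ∀ s ∈ Set.Icc (0 : ℝ) 1, ‖ad (Y s) A - K0‖ ≤ 2 * B * e ^ 3 := by
    intro s hs
    have e1 : ad (Y s) A - K0 = ad (Y s - (H + s • A)) A := by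
      rw [ad_sub_left, ad_add_left, ad_smul_left, ad_self, smul_zero, add_zero, hK0]
    rw [e1]
    exact (adle (y1 s hs) hAe).trans (le_of_eq (by ring))
  have hsA : ∀ s ∈ Set.Icc (0 : ℝ) 1, ‖H + s • A‖ ≤ 2 * e := by
    intro s hs
    have h1 := norm_add_le H (s • A)
    have h2 : ‖s • A‖ ≤ e := by
      rw [norm_smul, Real.norm_of_nonneg hs.1]
      exact (mul_le_of_le_one_left (norm_nonneg _) hs.2).trans hAe
    linarith
  have y3 : ∀ s ∈ Set.Icc (0 : ℝ) 1, ‖ad (Y s) (ad (Y s) A) - ad (H + s • A) K0‖ ≤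
      12 * B * e ^ 4 := by
    intro s hs
    have e1 : ad (Y s) (ad (Y s) A) - ad (H + s • A) K0 =
        ad (Y s - (H + s • A)) (ad (Y s) A) + ad (H + s • A) (ad (Y s) A - K0) := by
      rw [ad_sub_left, ad_sub]
      abel
    rw [e1]
    have h1 := adle (y1 s hs) (k1 s hs)
    have h2 := adle (hsA s hs) (y2 s hs)
    have h3 := norm_add_le (ad (Y s - (H + s • A)) (ad (Y s) A)) (ad (H + s • A) (ad (Y s) A - K0))
    have e2 : 2 * (B * e ^ 2) * (2 * e ^ 2) + 2 * (2 * e) * (2 * B * e ^ 3) = 12 * B * e ^ 4 := by ring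
    linarith
  have y4 : ∀ s ∈ Set.Icc (0 : ℝ) 1, ‖ad A (ad (Y s) A) - ad A K0‖ ≤ 4 * B * e ^ 4 := by
    intro s hs
    rw [← ad_sub]
    exact (adle hAe (y2 s hs)).trans (le_of_eq (by ring))
  have hb0 : ∀ s ∈ Set.Icc (0 : ℝ) 1, ‖ad (H + s • A) K0‖ ≤ 8 * e ^ 3 := fun s hs =>
    (adle (hsA s hs) hK0n).trans (le_of_eq (by ring))
  have ha0 : ‖ad A K0‖ ≤ 4 * e ^ 3 := (adle hAe hK0n).trans (le_of_eq (by ring))
  obtain ⟨P, hP⟩ : ∃ P, P = ipr (ad A K0) (ad H K0) := ⟨_, rfl⟩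
  obtain ⟨M, hM⟩ : ∃ M, M = ‖ad A K0‖ ^ 2 := ⟨_, rfl⟩
  obtain ⟨N, hN⟩ : ∃ N, N = ‖ad H K0‖ ^ 2 := ⟨_, rfl⟩
  have i1 : ∀ s : ℝ, ipr (ad A K0) (ad (H + s • A) K0) = P + s * M := by
    intro s
    rw [ad_add_left, ad_smul_left, ipr_add, ipr_smul, ipr_self, hP, hM]
  have i2 : ∀ s : ℝ, ‖ad (H + s • A) K0‖ ^ 2 = N + 2 * s * P + s ^ 2 * M := by
    intro s
    rw [← ipr_self, ad_add_left, ad_smul_left, ipr_add, ipr_smul, ipr_add_left, ipr_add_left,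
      ipr_smul_left, ipr_smul_left, ipr_self, ipr_self, ipr_comm (ad H K0) (ad A K0), ← hP, ← hM,
      ← hN]
    ring
  -- the function `g`
  have hg : ∀ s ∈ Set.Icc (0 : ℝ) 1, HasDerivAt (fun s => ‖ad (Y s) A‖ ^ 2)
      (2 * ipr (ad (Y s) A) (ad (Y' s) A)) s := by
    intro s hs
    have h1 : HasDerivAt (fun s => ad (Y s) A) (ad (Y' s) A) s :=
      ((hY s hs).mul_const A).sub ((hY s hs).const_mul A)
    exact nsq_deriv h1
  have hg1 : ∀ s ∈ Set.Icc (0 : ℝ) 1, |2 * ipr (ad (Y s) A) (ad (Y' s) A) -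
      (P / 6 + s * M / 6)| ≤ 20 * B * e ^ 7 := by
    intro s hs
    obtain ⟨R, hR⟩ : ∃ R, R = Y' s - (A - (1 / 2 : ℝ) • ad (Y s) A +
      (1 / 12 : ℝ) • ad (Y s) (ad (Y s) A)) := ⟨_, rfl⟩
    have hRn : ‖R‖ ≤ B * e ^ 5 := by rw [hR]; exact r2 s hs
    have e1 : Y' s = A - (1 / 2 : ℝ) • ad (Y s) A + (1 / 12 : ℝ) • ad (Y s) (ad (Y s) A) + R := by
      rw [hR]; abel
    obtain ⟨K, hK⟩ : ∃ K, K = ad (Y s) A := ⟨_, rfl⟩
    rw [← hK] at e1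
    have e2 : ad (Y' s) A = -((1 / 2 : ℝ) • ad K A) + (1 / 12 : ℝ) • ad (ad (Y s) K) A + ad R A := by
      rw [e1, ad_add_left, ad_add_left, ad_sub_left, ad_smul_left, ad_smul_left, ad_self, zero_sub]
    have e3 : ipr K (ad K A) = 0 := by
      rw [ad_anti K A, ipr_neg]
      have h1 := ipr_skew hA K K
      rw [ipr_comm] at h1
      linarith
    have e4 : ipr K (ad (ad (Y s) K) A) = ipr (ad A K) (ad (Y s) K) := by
      rw [ad_anti, ipr_neg, ipr_skew hA K (ad (Y s) K)]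
    have e5 : ipr K (ad (Y' s) A) = 1 / 12 * ipr (ad A K) (ad (Y s) K) + ipr K (ad R A) := by
      rw [e2, ipr_add, ipr_add, ipr_neg, ipr_smul, ipr_smul, e3, e4]
      ring
    rw [← hK, e5]
    have h1 : |ipr K (ad R A)| ≤ (2 * e ^ 2) * (2 * (B * e ^ 5) * e) :=
      iprle (by rw [hK]; exact k1 s hs) (adle hRn hAe)
    have h2 : ipr (ad A K) (ad (Y s) K) - (P + s * M) =
        ipr (ad A K - ad A K0) (ad (Y s) K) + ipr (ad A K0) (ad (Y s) K - ad (H + s • A) K0) := by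
      rw [← i1 s, ipr_sub_left, ipr_sub]
      ring
    have h3 : |ipr (ad A K - ad A K0) (ad (Y s) K)| ≤ (4 * B * e ^ 4) * (4 * e ^ 3) :=
      iprle (by rw [hK]; exact y4 s hs) (by rw [hK]; exact k2 s hs)
    have h4 : |ipr (ad A K0) (ad (Y s) K - ad (H + s • A) K0)| ≤ (4 * e ^ 3) * (12 * B * e ^ 4) :=
      iprle ha0 (by rw [hK]; exact y3 s hs)
    have e6 : 2 * (1 / 12 * ipr (ad A K) (ad (Y s) K) + ipr K (ad R A)) - (P / 6 + s * M / 6) =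
        1 / 6 * (ipr (ad A K) (ad (Y s) K) - (P + s * M)) + 2 * ipr K (ad R A) := by ring
    rw [e6, h2]
    rw [abs_le] at h1 h3 h4 ⊢
    have e7 : e ^ 8 ≤ e ^ 7 := pw (by norm_num)
    have e8 : B * e ^ 8 ≤ B * e ^ 7 := mul_le_mul_of_nonneg_left e7 hB0
    have e9 : (2 * e ^ 2) * (2 * (B * e ^ 5) * e) = 4 * (B * e ^ 8) := by ring
    have e10 : (4 * B * e ^ 4) * (4 * e ^ 3) = 16 * (B * e ^ 7) := by ring
    have e11 : (4 * e ^ 3) * (12 * B * e ^ 4) = 48 * (B * e ^ 7) := by ring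
    have e12 : 0 ≤ B * e ^ 7 := by positivity
    rw [e9] at h1
    rw [e10] at h3
    rw [e11] at h4
    have e13 : 20 * B * e ^ 7 = 20 * (B * e ^ 7) := by ring
    rw [e13]
    constructor <;> linarith
  have hg2 : ∀ s ∈ Set.Icc (0 : ℝ) 1, |‖ad (Y s) A‖ ^ 2 -
      (‖K0‖ ^ 2 + s * P / 6 + s ^ 2 * M / 12)| ≤ 20 * B * e ^ 7 := by
    refine mvt (p' := fun s => P / 6 + s * M / 6) hg (fun s => ?_) ?_ hg1
    · have h1 := (((hasDerivAt_id s).mul_const P).div_const 6).const_add (‖K0‖ ^ 2)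
      have h2 := (((hasDerivAt_pow 2 s).mul_const M).div_const 12)
      refine (h1.add h2).congr_deriv ?_
      push_cast
      ring
    · rw [hY0, ← hK0]
      ring
  -- the second function
  have hh : ∀ s ∈ Set.Icc (0 : ℝ) 1, |‖ad (Y s) (ad (Y s) A)‖ ^ 2 -
      (N + 2 * s * P + s ^ 2 * M)| ≤ 144 * B * e ^ 7 := by
    intro s hs
    rw [← i2 s]
    have h1 := k2 s hs
    have h2 := hb0 s hs
    have h3 := (abs_norm_sub_norm_le (ad (Y s) (ad (Y s) A)) (ad (H + s • A) K0)).trans (y3 s hs)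
    have e1 : ‖ad (Y s) (ad (Y s) A)‖ ^ 2 - ‖ad (H + s • A) K0‖ ^ 2 =
        (‖ad (Y s) (ad (Y s) A)‖ - ‖ad (H + s • A) K0‖) *
          (‖ad (Y s) (ad (Y s) A)‖ + ‖ad (H + s • A) K0‖) := by ring
    rw [e1, abs_mul]
    have h4 : |‖ad (Y s) (ad (Y s) A)‖ + ‖ad (H + s • A) K0‖| ≤ 12 * e ^ 3 := by
      rw [abs_of_nonneg (by positivity)]
      linarith
    calc _ ≤ (12 * B * e ^ 4) * (12 * e ^ 3) := mul_le_mul h3 h4 (abs_nonneg _) (by positivity)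
      _ = _ := by ring
  -- the derivative of `2 ⟨A, Y⟩`
  have hf1 : ∀ s ∈ Set.Icc (0 : ℝ) 1, HasDerivAt (fun s => 2 * ipr A (Y s)) (2 * ipr A (Y' s)) s := by
    intro s hs
    have := ((iprL A).hasFDerivAt (x := Y s)).comp_hasDerivAt s (hY s hs)
    exact this.const_mul 2
  have hf2 : ∀ s ∈ Set.Icc (0 : ℝ) 1, |2 * ipr A (Y' s) - (2 * ‖A‖ ^ 2 -
      1 / 6 * (‖K0‖ ^ 2 + s * P / 6 + s ^ 2 * M / 12) - 1 / 360 * (N + 2 * s * P + s ^ 2 * M))| ≤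
      10 * B * e ^ 7 := by
    intro s hs
    obtain ⟨R, hR⟩ : ∃ R, R = Y' s - (A - (1 / 2 : ℝ) • ad (Y s) A +
      (1 / 12 : ℝ) • ad (Y s) (ad (Y s) A) -
      (1 / 720 : ℝ) • ad (Y s) (ad (Y s) (ad (Y s) (ad (Y s) A)))) := ⟨_, rfl⟩
    have hRn : ‖R‖ ≤ C * e ^ 7 := by rw [hR]; exact hD s hs
    have e1 : Y' s = A - (1 / 2 : ℝ) • ad (Y s) A + (1 / 12 : ℝ) • ad (Y s) (ad (Y s) A) -
        (1 / 720 : ℝ) • ad (Y s) (ad (Y s) (ad (Y s) (ad (Y s) A))) + R := by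
      rw [hR]; abel
    have hy := hYs s hs
    have j1 : ipr A (ad (Y s) A) = 0 := by
      have h1 := ipr_skew hy A A
      rw [ipr_comm] at h1
      linarith
    have j2 : ipr A (ad (Y s) (ad (Y s) A)) = -‖ad (Y s) A‖ ^ 2 := by
      have h1 := ipr_skew hy A (ad (Y s) A)
      rw [ipr_self] at h1
      linarith
    have j3 : ipr A (ad (Y s) (ad (Y s) (ad (Y s) (ad (Y s) A)))) = ‖ad (Y s) (ad (Y s) A)‖ ^ 2 := by
      have h1 := ipr_skew hy A (ad (Y s) (ad (Y s) (ad (Y s) A)))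
      have h2 := ipr_skew hy (ad (Y s) A) (ad (Y s) (ad (Y s) A))
      rw [ipr_self] at h2
      linarith
    have e2 : 2 * ipr A (Y' s) = 2 * ‖A‖ ^ 2 - 1 / 6 * ‖ad (Y s) A‖ ^ 2 -
        1 / 360 * ‖ad (Y s) (ad (Y s) A)‖ ^ 2 + 2 * ipr A R := by
      rw [e1, ipr_add, ipr_sub, ipr_add, ipr_sub, ipr_smul, ipr_smul, ipr_smul, j1, j2, j3, ipr_self]
      ring
    rw [e2]
    have h1 : |ipr A R| ≤ e * (C * e ^ 7) := iprle hAe hRn
    have h2 := hg2 s hs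
    have h3 := hh s hs
    have e3 : e * (C * e ^ 7) = C * e ^ 8 := by ring
    have e4 : C * e ^ 8 ≤ B * e ^ 7 :=
      mul_le_mul hCB (pw (by norm_num)) (by positivity) hB0
    rw [e3] at h1
    rw [abs_le] at h1 h2 h3 ⊢
    have e5 : 0 ≤ B * e ^ 7 := by positivity
    have e13 : 20 * B * e ^ 7 = 20 * (B * e ^ 7) := by ring
    have e14 : 144 * B * e ^ 7 = 144 * (B * e ^ 7) := by ring
    have e15 : 10 * B * e ^ 7 = 10 * (B * e ^ 7) := by ring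
    rw [e13] at h2
    rw [e14] at h3
    rw [e15]
    constructor <;> linarith
  have hf3 : ∀ s ∈ Set.Icc (0 : ℝ) 1, |2 * ipr A (Y s) - (2 * ipr A H + s * (2 * ‖A‖ ^ 2 -
      1 / 6 * ‖K0‖ ^ 2 - 1 / 360 * N) - s ^ 2 * (P / 60) - s ^ 3 * (M / 180))| ≤
      10 * B * e ^ 7 := by
    refine mvt (p' := fun s => 2 * ‖A‖ ^ 2 -
      1 / 6 * (‖K0‖ ^ 2 + s * P / 6 + s ^ 2 * M / 12) - 1 / 360 * (N + 2 * s * P + s ^ 2 * M))
      hf1 (fun s => ?_) ?_ hf2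
    · have h1 := ((hasDerivAt_id s).mul_const (2 * ‖A‖ ^ 2 - 1 / 6 * ‖K0‖ ^ 2 -
        1 / 360 * N)).const_add (2 * ipr A H)
      have h2 := (hasDerivAt_pow 2 s).mul_const (P / 60)
      have h3 := (hasDerivAt_pow 3 s).mul_const (M / 180)
      refine ((h1.sub h2).sub h3).congr_deriv ?_
      push_cast
      ring
    · rw [hY0]
      ring
  have hf4 : ∀ s ∈ Set.Icc (0 : ℝ) 1, |f s - (f 0 + s * (2 * ipr A H) + s ^ 2 * ((2 * ‖A‖ ^ 2 -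
      1 / 6 * ‖K0‖ ^ 2 - 1 / 360 * N) / 2) - s ^ 3 * (P / 180) - s ^ 4 * (M / 720))| ≤
      10 * B * e ^ 7 := by
    refine mvt (p' := fun s => 2 * ipr A H + s * (2 * ‖A‖ ^ 2 -
      1 / 6 * ‖K0‖ ^ 2 - 1 / 360 * N) - s ^ 2 * (P / 60) - s ^ 3 * (M / 180))
      hf (fun s => ?_) ?_ hf3
    · have h1 := ((hasDerivAt_id s).mul_const (2 * ipr A H)).const_add (f 0)
      have h2 := (hasDerivAt_pow 2 s).mul_const ((2 * ‖A‖ ^ 2 - 1 / 6 * ‖K0‖ ^ 2 - 1 / 360 * N) / 2)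
      have h3 := (hasDerivAt_pow 3 s).mul_const (P / 180)
      have h4 := (hasDerivAt_pow 4 s).mul_const (M / 720)
      refine (((h1.add h2).sub h3).sub h4).congr_deriv ?_
      push_cast
      ring
    · ring
  have h5 := hf4 1 ⟨zero_le_one, le_rfl⟩
  rw [← hK0, ← hN, ← hM, ← hP]
  refine le_trans (le_of_eq ?_) h5
  congr 1
  ring

end

section cv

variable {G : Type} [Group G] [TopologicalSpace G] [IsTopologicalGroup G] [CompactSpace G]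
  {m : Type} [Fintype m] [DecidableEq m] {L : RD G m} {D : LogData m} {ε δ : ℝ}

theorem cz_ev (A : gC L) {s : ℂ} (hs : ‖s • A‖ < δ) : ∀ᶠ t : ℂ in 𝓝 s, ‖t • A‖ < δ := by
  have hc : Continuous fun t : ℂ => ‖t • A‖ := by fun_prop
  exact (hc.tendsto s).eventually_lt_const hs

theorem cz_exp (ch : Chart L D ε δ) (A : gC L) {η : gC L} (hη : ‖η‖ < δ) {s : ℂ}
    (hs : ‖s • A‖ < δ) : NormedSpace.exp (cvy L D A η s) =
      NormedSpace.exp (s • (A : Mt m)) * NormedSpace.exp (η : Mt m) :=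
  exp_bc ch hs hη

theorem cz_diff (ch : Chart L D ε δ) (A : gC L) {η : gC L} (hη : ‖η‖ < δ) {s : ℂ}
    (hs : ‖s • A‖ < δ) : HasDerivAt (cvy L D A η) (deriv (cvy L D A η) s) s := by
  have h1 : DifferentiableAt ℂ (fun Z : gC L => bc L D Z η) (s • A) :=
    (bc_diff_left ch hη).differentiableAt
      (Metric.isOpen_ball.mem_nhds (by rw [mem_ball_zero_iff]; exact hs))
  have h2 : DifferentiableAt ℂ (fun s : ℂ => s • A) s := by fun_prop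
  have h3 : DifferentiableAt ℂ (fun s : ℂ => bc L D (s • A) η) s :=
    DifferentiableAt.comp (g := fun Z : gC L => bc L D Z η) (f := fun s : ℂ => s • A) s h1 h2
  have h4 : DifferentiableAt ℂ (cvy L D A η) s :=
    ((gC L).subtypeL.differentiableAt).comp s h3
  exact h4.hasDerivAt

/-- the equation of the derivative -/
theorem cz_eq (ch : Chart L D ε δ) (A : gC L) {η : gC L} (hη : ‖η‖ < δ) {s : ℂ}
    (hs : ‖s • A‖ < δ) :
    fderiv ℂ (NormedSpace.exp : Mt m → Mt m) (cvy L D A η s) (deriv (cvy L D A η) s) =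
      (A : Mt m) * NormedSpace.exp (cvy L D A η s) := by
  have h1 : HasDerivAt (fun s => NormedSpace.exp (cvy L D A η s))
      (fderiv ℂ (NormedSpace.exp : Mt m → Mt m) (cvy L D A η s) (deriv (cvy L D A η) s)) s :=
    (exp_diff _).hasFDerivAt.comp_hasDerivAt s (cz_diff ch A hη hs)
  have h2 : HasDerivAt (fun s : ℂ => NormedSpace.exp (s • (A : Mt m)) * NormedSpace.exp (η : Mt m))
      ((A : Mt m) * NormedSpace.exp (s • (A : Mt m)) * NormedSpace.exp (η : Mt m)) s :=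
    (hasDerivAt_exp_smul_const' (𝕂 := ℂ) (A : Mt m) s).mul_const _
  have h3 : (fun s => NormedSpace.exp (cvy L D A η s)) =ᶠ[𝓝 s]
      fun s : ℂ => NormedSpace.exp (s • (A : Mt m)) * NormedSpace.exp (η : Mt m) :=
    (cz_ev A hs).mono fun t ht => cz_exp ch A hη ht
  have h4 := h1.unique (h2.congr_of_eventuallyEq h3)
  rw [h4, cz_exp ch A hη hs, mul_assoc]

theorem cz_gauss (ch : Chart L D ε δ) (A : gC L) {η : gC L} (hη : ‖η‖ < δ) {s : ℂ}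
    (hs : ‖s • A‖ < δ) :
    trace (cvy L D A η s * deriv (cvy L D A η) s) = trace (cvy L D A η s * (A : Mt m)) := by
  set y := cvy L D A η s with hy
  set y' := deriv (cvy L D A η) s with hy'
  have hc : (y * NormedSpace.exp (-y)) * y = y * (y * NormedSpace.exp (-y)) := by
    have h1 : Commute y (NormedSpace.exp (-y)) := ((Commute.refl y).neg_right).exp_right
    rw [mul_assoc, ← h1.eq]
  have h1 := trace_fderiv_exp y y' (y * NormedSpace.exp (-y)) hc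
  have h2 := cz_eq ch A hη hs
  rw [← hy, ← hy'] at h2
  rw [h2] at h1
  have e1 : y * NormedSpace.exp (-y) * NormedSpace.exp y * y' = y * y' := by
    rw [mul_assoc y, exp_neg_mul_exp, mul_one]
  have e2 : trace (y * NormedSpace.exp (-y) * ((A : Mt m) * NormedSpace.exp y)) =
      trace (y * (A : Mt m)) := by
    rw [← mul_assoc, trace_mul_comm, ← mul_assoc, ← mul_assoc]
    have h3 : Commute y (NormedSpace.exp y) := (Commute.refl y).exp_right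
    rw [← h3.eq, mul_assoc y, exp_mul_exp_neg, mul_one]
  rw [e1, e2] at h1
  exact h1.symm

theorem cz_q_deriv (ch : Chart L D ε δ) (A : gC L) {η : gC L} (hη : ‖η‖ < δ) {s : ℂ}
    (hs : ‖s • A‖ < δ) :
    HasDerivAt (fun s => Qf (cvy L D A η s)) (-2 * trace (cvy L D A η s * (A : Mt m))) s := by
  have h1 := cz_diff ch A hη hs
  have h2 := h1.mul h1
  have h3 : HasDerivAt (fun s => trace (cvy L D A η s * cvy L D A η s))
      (trace (deriv (cvy L D A η) s * cvy L D A η s + cvy L D A η s * deriv (cvy L D A η) s)) s := by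
    have := (LinearMap.toContinuousLinearMap (Matrix.traceLinearMap m ℂ ℂ)).hasFDerivAt
      (x := cvy L D A η s * cvy L D A η s) |>.comp_hasDerivAt s h2
    exact this
  refine (h3.neg).congr_deriv ?_
  rw [trace_add, trace_mul_comm (deriv (cvy L D A η) s), cz_gauss ch A hη hs]
  ring

theorem cz_real (ch : Chart L D ε δ) (A : gC L) {η : gC L} (hη : ‖η‖ < δ) {s : ℝ}
    (hs : ‖(s : ℂ) • A‖ < δ) : HasDerivAt (fun s : ℝ => cvy L D A η (s : ℂ))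
      (deriv (cvy L D A η) (s : ℂ)) s := by
  have h1 : HasDerivAt (fun s : ℝ => (s : ℂ)) 1 s := by
    simpa using (hasDerivAt_id s).ofReal_comp
  have h2 := (cz_diff ch A hη hs).scomp s h1
  rw [one_smul] at h2
  exact h2

theorem qf_skew {Z : Mt m} (hZ : Zᴴ = -Z) : Qf Z = ((‖Z‖ ^ 2 : ℝ) : ℂ) := by
  have h1 : Qf Z = trace (Zᴴ * Z) := by
    unfold Qf
    rw [hZ, neg_mul, trace_neg]
  refine Complex.ext ?_ ?_
  · rw [h1, Complex.ofReal_re, norm_sq_eq]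
  · rw [coef_Qf_real hZ, Complex.ofReal_im]

theorem real_scale {A : gC L} (hA : imP (A : Mt m) = 0) (s : ℝ) :
    imP (((s : ℂ) • A : gC L) : Mt m) = 0 := by
  show imP ((s : ℂ) • (A : Mt m)) = 0
  rw [imP_smul, hA, smul_zero]

theorem exp_near : ∀ r : ℝ, 0 < r → ∃ ρ : ℝ, 0 < ρ ∧ ∀ Z W : Mt m, ‖Z‖ < ρ → ‖W‖ < ρ →
    ‖NormedSpace.exp Z * NormedSpace.exp W - 1‖ < r := by
  intro r hr
  have hc : Continuous fun p : Mt m × Mt m => ‖NormedSpace.exp p.1 * NormedSpace.exp p.2 - 1‖ :=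
    (((exp_cont.comp continuous_fst).mul (exp_cont.comp continuous_snd)).sub continuous_const).norm
  have h0 : ∀ᶠ p : Mt m × Mt m in 𝓝 (0, 0), ‖NormedSpace.exp p.1 * NormedSpace.exp p.2 - 1‖ < r := by
    refine (hc.tendsto (0, 0)).eventually_lt_const ?_
    simp only [NormedSpace.exp_zero, mul_one, sub_self, norm_zero]
    exact hr
  obtain ⟨ρ, hρ, h1⟩ := Metric.eventually_nhds_iff.1 h0
  refine ⟨ρ, hρ, fun Z W hZ hW => h1 (y := (Z, W)) ?_⟩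
  rw [Prod.dist_eq, dist_zero_right, dist_zero_right]
  exact max_lt hZ hW

/-- the sixth order polynomial -/
def pol6 (A H : Mt m) : ℝ :=
  ‖H‖ ^ 2 + 2 * ipr A H + ‖A‖ ^ 2 - 1 / 12 * ‖ad H A‖ ^ 2 - 1 / 720 * ‖ad H (ad H A)‖ ^ 2 -
      1 / 720 * ‖ad A (ad H A)‖ ^ 2 - 1 / 180 * ipr (ad A (ad H A)) (ad H (ad H A))

theorem half (ch : Chart L D ε δ) : ∃ C δ' : ℝ, 0 < C ∧ 0 < δ' ∧
    ∀ A H : gC L, imP (A : Mt m) = 0 → imP (H : Mt m) = 0 → ‖A‖ ≤ δ' → ‖H‖ ≤ δ' →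
      (Qf ((bc L D A H : gC L) : Mt m)).im = 0 ∧
      |(Qf ((bc L D A H : gC L) : Mt m)).re - pol6 (A : Mt m) (H : Mt m)| ≤
        C * (‖A‖ + ‖H‖) ^ 7 := by
  obtain ⟨C0, hC0, hdl⟩ := dlog6 (m := m)
  obtain ⟨ρ, hρ, hnear⟩ := exp_near (m := m) δ ch.pos
  obtain ⟨k, hk⟩ : ∃ k, k = 1 + |ε| := ⟨_, rfl⟩
  have hk1 : 1 ≤ k := by rw [hk]; linarith [abs_nonneg ε]
  have hk0 : 0 < k := by linarith
  refine ⟨10 * (2 + C0) * k ^ 7, min (δ / 2) (min (ρ / 2) (1 / (64 * k))), by positivity,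
    lt_min (half_pos ch.pos) (lt_min (half_pos hρ) (by positivity)), fun A H hA hH hAd hHd => ?_⟩
  have a1 : ‖A‖ ≤ δ / 2 := hAd.trans (min_le_left _ _)
  have a2 : ‖H‖ ≤ δ / 2 := hHd.trans (min_le_left _ _)
  have a3 : ‖A‖ ≤ ρ / 2 := hAd.trans ((min_le_right _ _).trans (min_le_left _ _))
  have a4 : ‖H‖ ≤ ρ / 2 := hHd.trans ((min_le_right _ _).trans (min_le_left _ _))
  have a5 : ‖A‖ ≤ 1 / (64 * k) := hAd.trans ((min_le_right _ _).trans (min_le_right _ _))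
  have a6 : ‖H‖ ≤ 1 / (64 * k) := hHd.trans ((min_le_right _ _).trans (min_le_right _ _))
  have hδ := ch.pos
  have hAn := norm_nonneg A
  have hHn := norm_nonneg H
  have hHδ : ‖H‖ < δ := by linarith
  obtain ⟨e, he⟩ : ∃ e, e = k * (‖A‖ + ‖H‖) := ⟨_, rfl⟩
  have he0 : 0 ≤ e := by rw [he]; positivity
  have he32 : 32 * e ≤ 1 := by
    have h1 : ‖A‖ + ‖H‖ ≤ 1 / (64 * k) + 1 / (64 * k) := add_le_add a5 a6
    have h2 := mul_le_mul_of_nonneg_left h1 hk0.le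
    rw [← he] at h2
    have h3 : k * (1 / (64 * k) + 1 / (64 * k)) = 1 / 32 := by field_simp; norm_num
    rw [h3] at h2
    linarith
  have hAe : ‖(A : Mt m)‖ ≤ e := by
    show ‖A‖ ≤ e
    rw [he]; nlinarith
  have hHe : ‖(H : Mt m)‖ ≤ e := by
    show ‖H‖ ≤ e
    rw [he]; nlinarith
  have hAs : (A : Mt m)ᴴ = -(A : Mt m) := lie_skew L (mem_lieSet_of_gC L A.2 hA)
  have hHs : (H : Mt m)ᴴ = -(H : Mt m) := lie_skew L (mem_lieSet_of_gC L H.2 hH)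
  have hsA : ∀ s ∈ Set.Icc (0 : ℝ) 1, ‖(s : ℂ) • A‖ ≤ ‖A‖ := by
    intro s hs
    rw [norm_smul, Complex.norm_real, Real.norm_of_nonneg hs.1]
    exact mul_le_of_le_one_left hAn hs.2
  have hsδ : ∀ s ∈ Set.Icc (0 : ℝ) 1, ‖(s : ℂ) • A‖ < δ := fun s hs => by
    have := hsA s hs
    linarith
  have hYe : ∀ s ∈ Set.Icc (0 : ℝ) 1, ‖cvy L D A H (s : ℂ)‖ ≤ e := by
    intro s hs
    have h1 := bc_sub_left ch (hsδ s hs) hHδ
    have h2 := hsA s hs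
    have h3 : bc L D ((s : ℂ) • A) H = (bc L D ((s : ℂ) • A) H - (s : ℂ) • A - H) +
        (s : ℂ) • A + H := by abel
    have h4 : ‖bc L D ((s : ℂ) • A) H‖ ≤ ε * ‖(s : ℂ) • A‖ + ‖(s : ℂ) • A‖ + ‖H‖ := by
      rw [h3]
      refine (norm_add_le _ _).trans (add_le_add ((norm_add_le _ _).trans (add_le_add ?_ le_rfl)) le_rfl)
      exact h1
    have h5 : ε * ‖(s : ℂ) • A‖ ≤ |ε| * ‖A‖ :=
      (mul_le_mul_of_nonneg_right (le_abs_self ε) (norm_nonneg _)).trans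
        (mul_le_mul_of_nonneg_left h2 (abs_nonneg _))
    have h6 : 0 ≤ |ε| * ‖H‖ := by positivity
    show ‖bc L D ((s : ℂ) • A) H‖ ≤ e
    rw [he, hk]
    linarith
  have hYs : ∀ s ∈ Set.Icc (0 : ℝ) 1, (cvy L D A H (s : ℂ))ᴴ = -cvy L D A H (s : ℂ) := by
    intro s hs
    refine coef_skew ch (real_scale hA s) hH (hsδ s hs) hHδ ?_
    refine hnear _ _ ?_ ?_
    · show ‖(s : ℂ) • A‖ < ρ
      have := hsA s hs
      linarith
    · show ‖H‖ < ρ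
      linarith
  have hfd : ∀ s ∈ Set.Icc (0 : ℝ) 1, HasDerivAt (fun s : ℝ => (Qf (cvy L D A H (s : ℂ))).re)
      (2 * ipr (A : Mt m) (cvy L D A H (s : ℂ))) s := by
    intro s hs
    have h1 := (cz_q_deriv ch A hHδ (hsδ s hs)).real_of_complex
    refine h1.congr_deriv ?_
    have h2 : (-2 * trace (cvy L D A H (s : ℂ) * (A : Mt m))).re =
        -2 * (trace (cvy L D A H (s : ℂ) * (A : Mt m))).re := by
      have : (-2 : ℂ) = ((-2 : ℝ) : ℂ) := by push_cast; ring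
      rw [this, Complex.re_ofReal_mul]
    rw [h2, ipr_trace (hYs s hs), ipr_comm]
    ring
  have hDD : ∀ s ∈ Set.Icc (0 : ℝ) 1, ‖deriv (cvy L D A H) (s : ℂ) - ((A : Mt m) -
      (1 / 2 : ℝ) • ad (cvy L D A H (s : ℂ)) (A : Mt m) +
      (1 / 12 : ℝ) • ad (cvy L D A H (s : ℂ)) (ad (cvy L D A H (s : ℂ)) (A : Mt m)) -
      (1 / 720 : ℝ) • ad (cvy L D A H (s : ℂ)) (ad (cvy L D A H (s : ℂ))
        (ad (cvy L D A H (s : ℂ)) (ad (cvy L D A H (s : ℂ)) (A : Mt m)))))‖ ≤ C0 * e ^ 7 := by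
    intro s hs
    have h1 := hYe s hs
    have h2 := hdl (cvy L D A H (s : ℂ)) (A : Mt m) (deriv (cvy L D A H) (s : ℂ)) (by linarith)
      (cz_eq ch A hHδ (hsδ s hs))
    have r1 : ∀ (c : ℝ) (X : Mt m), (c : ℂ) • X = c • X := fun c X => rfl
    have c1 : (1 / 2 : ℂ) = ((1 / 2 : ℝ) : ℂ) := by push_cast; ring
    have c2 : (1 / 12 : ℂ) = ((1 / 12 : ℝ) : ℂ) := by push_cast; ring
    have c3 : (1 / 720 : ℂ) = ((1 / 720 : ℝ) : ℂ) := by push_cast; ring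
    rw [c1, c2, c3, r1, r1, r1] at h2
    refine h2.trans ?_
    calc C0 * ‖cvy L D A H (s : ℂ)‖ ^ 6 * ‖(A : Mt m)‖ ≤ C0 * e ^ 6 * e :=
          mul_le_mul (mul_le_mul_of_nonneg_left (pow_le_pow_left₀ (norm_nonneg _) h1 6) hC0.le)
            hAe (norm_nonneg _) (by positivity)
      _ = C0 * e ^ 7 := by ring
  have hY0 : cvy L D A H ((0 : ℝ) : ℂ) = (H : Mt m) := by
    rw [Complex.ofReal_zero]; exact cvy_zero ch A hHδ
  have key := curve (A := (A : Mt m)) (H := (H : Mt m)) hAs (Y := fun s : ℝ => cvy L D A H (s : ℂ))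
    (Y' := fun s : ℝ => deriv (cvy L D A H) (s : ℂ))
    (f := fun s : ℝ => (Qf (cvy L D A H (s : ℂ))).re) he0 (by linarith) hC0.le hAe hHe hYe hYs
    (fun s hs => cz_real ch A hHδ (hsδ s hs)) hY0 hDD hfd
  have e0 : (Qf (cvy L D A H ((0 : ℝ) : ℂ))).re = ‖(H : Mt m)‖ ^ 2 := by
    rw [hY0, qf_skew hHs, Complex.ofReal_re]
  have e1 : cvy L D A H ((1 : ℝ) : ℂ) = ((bc L D A H : gC L) : Mt m) := by
    unfold cvy
    rw [Complex.ofReal_one, one_smul]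
  have e2 : 10 * (2 + C0) * e ^ 7 = 10 * (2 + C0) * k ^ 7 * (‖A‖ + ‖H‖) ^ 7 := by
    rw [he]; ring
  simp only [e0, e1, e2] at key
  refine ⟨?_, key⟩
  have h1 := coef_Qf_real (hYs 1 ⟨zero_le_one, le_rfl⟩)
  rw [e1] at h1
  exact h1

theorem pol6_neg (A H : Mt m) : pol6 A H + pol6 A (-H) - 2 * ‖A‖ ^ 2 - 2 * ‖H‖ ^ 2 =
    -T6 ((2 : ℝ) • A) H := by
  unfold pol6 T6
  have e1 : ad (-H) A = -ad H A := ad_neg_left H A
  have e2 : ad (-H) (ad H A) = -ad H (ad H A) := ad_neg_left H _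
  have e3 : ad ((2 : ℝ) • A) H = -((2 : ℝ) • ad H A) := by rw [ad_smul_left, ad_anti A H, smul_neg]
  rw [e1, ad_neg, ad_neg, e2, e3, ad_neg, ad_smulr, ad_smulr, ad_smul_left, ad_smulr]
  simp only [norm_neg, neg_neg, norm_smul, ipr_neg, Real.norm_eq_abs]
  have h3 : ipr (-ad A (ad H A)) (ad H (ad H A)) = -ipr (ad A (ad H A)) (ad H (ad H A)) := by
    rw [ipr_comm, ipr_neg, ipr_comm]
  rw [h3]
  have h2 : |(2 : ℝ)| = 2 := by norm_num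
  rw [h2]
  ring

end cv

end Sx

variable {G : Type} [Group G] [TopologicalSpace G] [IsTopologicalGroup G] [CompactSpace G]
  {m : Type} [Fintype m] [DecidableEq m] {L : RD G m}

open Sx in
theorem sdf_Q6 {D : LogData m} {ε δ : ℝ} (ch : Chart L D ε δ) : ∃ C δ' : ℝ, 0 < C ∧ 0 < δ' ∧
    ∀ X η : gC L, imP (X : Mt m) = 0 → imP (η : Mt m) = 0 → ‖X‖ ≤ δ' → ‖η‖ ≤ δ' →
      ‖sdf D (fun Z : gC L => Qf (Z : Mt m)) X η + ((T6 (X : Mt m) (η : Mt m) : ℝ) : ℂ)‖ ≤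
        C * (‖X‖ + ‖η‖) ^ 7 := by
  obtain ⟨C, δ', hC, hδ', hh⟩ := half ch
  refine ⟨2 * C, δ', by positivity, hδ', fun X η hX hη hXd hηd => ?_⟩
  obtain ⟨A, hA⟩ : ∃ A : gC L, A = (1 / 2 : ℂ) • X := ⟨_, rfl⟩
  have hAn : ‖A‖ = ‖X‖ / 2 := by
    have h2 : ‖(1 / 2 : ℂ)‖ = 1 / 2 := by simp
    rw [hA, norm_smul, h2]; ring
  have hXn := norm_nonneg X
  have hηn := norm_nonneg η
  have hAr : imP (A : Mt m) = 0 := by
    rw [hA]
    have : ((1 / 2 : ℂ)) = (((1 / 2 : ℝ)) : ℂ) := by push_cast; ring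
    rw [this]
    exact real_scale hX _
  have hηr : imP ((-η : gC L) : Mt m) = 0 := by
    rw [NegMemClass.coe_neg, imP_neg, hη, neg_zero]
  have hAd : ‖A‖ ≤ δ' := by rw [hAn]; linarith
  obtain ⟨i1, b1⟩ := hh A η hAr hη hAd hηd
  obtain ⟨i2, b2⟩ := hh A (-η) hAr hηr hAd (by rwa [norm_neg])
  have hAs : (A : Mt m)ᴴ = -(A : Mt m) := lie_skew L (mem_lieSet_of_gC L A.2 hAr)
  have hηs : (η : Mt m)ᴴ = -(η : Mt m) := lie_skew L (mem_lieSet_of_gC L η.2 hη)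
  have q1 := qf_skew hAs
  have q2 := qf_skew hηs
  rw [norm_neg, NegMemClass.coe_neg] at b2
  have hX2 : (X : Mt m) = (2 : ℝ) • (A : Mt m) := by
    rw [hA]
    show (X : Mt m) = ((2 : ℝ) : ℂ) • ((1 / 2 : ℂ) • (X : Mt m))
    rw [smul_smul]
    norm_num
  have hp := pol6_neg (A : Mt m) (η : Mt m)
  rw [← hX2] at hp
  obtain ⟨z1, hz1⟩ : ∃ z, z = Qf ((bc L D A η : gC L) : Mt m) := ⟨_, rfl⟩
  obtain ⟨z2, hz2⟩ : ∃ z, z = Qf ((bc L D A (-η) : gC L) : Mt m) := ⟨_, rfl⟩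
  rw [← hz1] at i1 b1
  rw [← hz2] at i2 b2
  have e1 : sdf D (fun Z : gC L => Qf (Z : Mt m)) X η + ((T6 (X : Mt m) (η : Mt m) : ℝ) : ℂ) =
      ((z1.re + z2.re - 2 * ‖(A : Mt m)‖ ^ 2 - 2 * ‖(η : Mt m)‖ ^ 2 +
        T6 (X : Mt m) (η : Mt m) : ℝ) : ℂ) := by
    unfold sdf
    simp only [← hA, ← hz1, ← hz2, q1, q2]
    refine Complex.ext ?_ ?_
    · simp only [Complex.add_re, Complex.sub_re, Complex.ofReal_re, Complex.mul_re, Complex.ofReal_im]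
      norm_num
    · simp only [Complex.add_im, Complex.sub_im, Complex.ofReal_re, Complex.mul_im, Complex.ofReal_im,
        i1, i2]
      norm_num
  rw [e1, Complex.norm_real, Real.norm_eq_abs]
  have hle : C * (‖A‖ + ‖η‖) ^ 7 ≤ C * (‖X‖ + ‖η‖) ^ 7 := by
    refine mul_le_mul_of_nonneg_left (pow_le_pow_left₀ (by positivity) ?_ 7) hC.le
    rw [hAn]; linarith
  rw [abs_le] at b1 b2 ⊢
  constructor <;> linarith

end

end Pool.Agent.T2H04.HY
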