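import Mathlib
import Pool.Agent.T2H04.HY.Cx

/-!
# The quartic part of an even holomorphic function
-/

open Filter
open scoped Topology

namespace Pool.Agent.T2H04.HY

set_option linter.unusedSectionVars false

noncomputable section

variable {E : Type*} [NormedAddCommGroup E] [NormedSpace ℂ E]

/-- One variable: the coefficient of order four. -/
theorem coef_four {h : ℂ → ℂ} {R M : ℝ} (hR : 0 < R) (hh : DifferentiableOn ℂ h (Metric.ball 0 R))
    (hM : ∀ z ∈ Metric.ball (0 : ℂ) R, ‖h z‖ ≤ M * ‖z‖ ^ 4)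
    (hev : ∀ z ∈ Metric.ball (0 : ℂ) R, h (-z) = h z) :
    ∃ a : ℂ, Tendsto (fun z => h z / z ^ 4) (𝓝[≠] 0) (𝓝 a) ∧ ‖a‖ ≤ M ∧
      ∀ z ∈ Metric.ball (0 : ℂ) R, ‖h z - a * z ^ 4‖ ≤ 2 * M * (‖z‖ / R) ^ 2 * ‖z‖ ^ 4 := by
  have hball : Metric.ball (0 : ℂ) R ∈ 𝓝 (0 : ℂ) := Metric.ball_mem_nhds _ hR
  have hM0 : 0 ≤ M := by
    have h1 := hM ((R / 2 : ℝ) : ℂ) (by
      rw [mem_ball_zero_iff, Complex.norm_real, Real.norm_eq_abs, abs_of_pos (by positivity)]
      linarith)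
    have h2 : 0 < ‖((R / 2 : ℝ) : ℂ)‖ ^ 4 := by
      rw [Complex.norm_real, Real.norm_eq_abs, abs_of_pos (by positivity)]
      positivity
    by_contra hn
    push Not at hn
    have h3 := (norm_nonneg _).trans h1
    nlinarith
  obtain ⟨k0, hk0⟩ : ∃ k0 : ℂ → ℂ, k0 = fun z => h z / z ^ 4 := ⟨_, rfl⟩
  obtain ⟨a, ha⟩ : ∃ a : ℂ, a = limUnder (𝓝[≠] (0 : ℂ)) k0 := ⟨_, rfl⟩
  obtain ⟨k, hk⟩ : ∃ k : ℂ → ℂ, k = Function.update k0 0 a := ⟨_, rfl⟩
  have hbd : ∀ z ∈ Metric.ball (0 : ℂ) R \ {0}, ‖k0 z‖ ≤ M := by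
    intro z hz
    have hz0 : z ≠ 0 := hz.2
    have h1 := hM z hz.1
    rw [hk0]
    simp only
    rw [norm_div, norm_pow, div_le_iff₀ (by positivity)]
    exact h1
  have hkd : DifferentiableOn ℂ k (Metric.ball 0 R) := by
    rw [hk, ha]
    refine Complex.differentiableOn_update_limUnder_of_bddAbove hball ?_ ?_
    · intro z hz
      have hz0 : z ≠ 0 := hz.2
      have h1 : DifferentiableWithinAt ℂ h (Metric.ball 0 R \ {0}) z :=
        (hh z hz.1).mono Set.sdiff_subset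
      rw [hk0]
      exact h1.div (by fun_prop) (pow_ne_zero _ hz0)
    · refine ⟨M, ?_⟩
      rintro _ ⟨z, hz, rfl⟩
      exact hbd z hz
  have hk00 : k 0 = a := by rw [hk, Function.update_self]
  have hkz : ∀ z, z ≠ 0 → k z = h z / z ^ 4 := by
    intro z hz
    rw [hk, Function.update_of_ne hz, hk0]
  have hkc : ContinuousAt k 0 := (hkd.differentiableAt hball).continuousAt
  have hlim : Tendsto (fun z => h z / z ^ 4) (𝓝[≠] 0) (𝓝 a) := by
    have h1 : Tendsto k (𝓝 0) (𝓝 (k 0)) := hkc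
    rw [hk00] at h1
    refine (h1.mono_left nhdsWithin_le_nhds).congr' ?_
    filter_upwards [self_mem_nhdsWithin] with z hz
    exact hkz z hz
  have haM : ‖a‖ ≤ M := by
    refine le_of_tendsto hlim.norm ?_
    filter_upwards [self_mem_nhdsWithin, mem_nhdsWithin_of_mem_nhds hball] with z hz hzb
    have h1 := hbd z ⟨hzb, hz⟩
    rw [hk0] at h1
    exact h1
  refine ⟨a, hlim, haM, ?_⟩
  intro z hz
  have h2 := schwarz2_one (f := fun z => k z - a) (M := 2 * M) hR (hkd.sub_const a) (by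
    intro z hz
    by_cases hz0 : z = 0
    · simp only [hz0, hk00, sub_self, norm_zero]
      positivity
    · have h1 := hbd z ⟨hz, hz0⟩
      rw [hk0] at h1
      simp only [hkz z hz0]
      simp only at h1
      refine (norm_sub_le _ _).trans ?_
      linarith) (by simp only [hk00, sub_self]) (by
    intro z hz
    by_cases hz0 : z = 0
    · rw [hz0, neg_zero]
    · rw [hkz z hz0, hkz (-z) (neg_ne_zero.2 hz0), hev z hz]
      congr 2
      ring) z hz
  by_cases hz0 : z = 0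
  · have h3 := hM 0 (Metric.mem_ball_self hR)
    rw [hz0]
    simp only [norm_zero, ne_eq, OfNat.ofNat_ne_zero, not_false_eq_true, zero_pow, mul_zero,
      sub_zero, zero_div] at h3 ⊢
    exact h3
  · have e1 : h z - a * z ^ 4 = (k z - a) * z ^ 4 := by
      rw [hkz z hz0]
      have : z ^ 4 ≠ 0 := pow_ne_zero _ hz0
      field_simp
    rw [e1, norm_mul, norm_pow]
    exact mul_le_mul_of_nonneg_right h2 (by positivity)

/-- An even holomorphic function on the ball of radius `R`, bounded by `A ‖z‖⁴`. -/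
structure Qrt (f : E → ℂ) (R A : ℝ) : Prop where
  pos : 0 < R
  A0 : 0 ≤ A
  diff : DifferentiableOn ℂ f (Metric.ball 0 R)
  even : ∀ z ∈ Metric.ball (0 : E) R, f (-z) = f z
  le : ∀ z ∈ Metric.ball (0 : E) R, ‖f z‖ ≤ A * ‖z‖ ^ 4

/-- the quartic part -/
def qr (f : E → ℂ) (z : E) : ℂ :=
  limUnder (𝓝[≠] (0 : ℝ)) fun s : ℝ => f ((s : ℂ) • z) / (s : ℂ) ^ 4

theorem tendsto_ofReal_punct : Tendsto (fun s : ℝ => (s : ℂ)) (𝓝[≠] 0) (𝓝[≠] 0) := by
  rw [tendsto_nhdsWithin_iff]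
  constructor
  · have : Tendsto (fun s : ℝ => (s : ℂ)) (𝓝 0) (𝓝 ((0 : ℝ) : ℂ)) :=
      Complex.continuous_ofReal.tendsto 0
    rw [Complex.ofReal_zero] at this
    exact this.mono_left nhdsWithin_le_nhds
  · filter_upwards [self_mem_nhdsWithin] with s hs
    exact Complex.ofReal_ne_zero.2 hs

namespace Qrt

variable {f : E → ℂ} {R A : ℝ} (hf : Qrt f R A)

include hf

theorem exists_coef (z : E) :
    ∃ a : ℂ, Tendsto (fun ζ : ℂ => f (ζ • z) / ζ ^ 4) (𝓝[≠] 0) (𝓝 a) ∧ ‖a‖ ≤ A * ‖z‖ ^ 4 ∧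
      ∀ ζ : ℂ, ‖ζ • z‖ < R →
        ‖f (ζ • z) - a * ζ ^ 4‖ ≤ 2 * A * (‖ζ • z‖ / R) ^ 2 * ‖ζ • z‖ ^ 4 := by
  have hR := hf.pos
  have hA := hf.A0
  have h00 : f 0 = 0 := by
    have := hf.le 0 (Metric.mem_ball_self hR)
    rw [norm_zero] at this
    norm_num at this
    exact this
  by_cases hz : z = 0
  · refine ⟨0, ?_, by simp [hz], ?_⟩
    · simp only [hz, smul_zero, h00, zero_div]
      exact tendsto_const_nhds
    · intro ζ _
      simp [hz, h00]
  have hz0 : 0 < ‖z‖ := norm_pos_iff.2 hz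
  have hmaps : Set.MapsTo (fun ζ : ℂ => ζ • z) (Metric.ball 0 (R / ‖z‖)) (Metric.ball 0 R) := by
    intro ζ hζ
    rw [mem_ball_zero_iff] at hζ ⊢
    rw [norm_smul]
    exact (lt_div_iff₀ hz0).1 hζ
  obtain ⟨a, ha1, ha2, ha3⟩ := coef_four (h := fun ζ : ℂ => f (ζ • z)) (R := R / ‖z‖)
    (M := A * ‖z‖ ^ 4) (by positivity) (hf.diff.comp (by fun_prop) hmaps)
    (fun ζ hζ => by
      refine (hf.le _ (hmaps hζ)).trans (le_of_eq ?_)
      rw [norm_smul]
      ring)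
    (fun ζ hζ => by
      have := hf.even _ (hmaps hζ)
      simp only at this
      rw [neg_smul, this])
  refine ⟨a, ha1, ha2, ?_⟩
  intro ζ hζ
  have hζ' := hζ
  rw [norm_smul] at hζ
  have := ha3 ζ (mem_ball_zero_iff.2 ((lt_div_iff₀ hz0).2 hζ))
  refine this.trans (le_of_eq ?_)
  rw [norm_smul]
  field_simp

theorem tendstoC (z : E) : Tendsto (fun ζ : ℂ => f (ζ • z) / ζ ^ 4) (𝓝[≠] 0) (𝓝 (qr f z)) := by
  obtain ⟨a, h1, -, -⟩ := hf.exists_coef z
  have h2 : qr f z = a := (h1.comp tendsto_ofReal_punct).limUnder_eq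
  rw [h2]
  exact h1

theorem tendstoR (z : E) :
    Tendsto (fun s : ℝ => f ((s : ℂ) • z) / (s : ℂ) ^ 4) (𝓝[≠] 0) (𝓝 (qr f z)) :=
  (hf.tendstoC z).comp tendsto_ofReal_punct

theorem norm_le (z : E) : ‖qr f z‖ ≤ A * ‖z‖ ^ 4 := by
  obtain ⟨a, h1, h2, -⟩ := hf.exists_coef z
  rw [tendsto_nhds_unique (hf.tendstoC z) h1]
  exact h2

theorem six' (z : E) (ζ : ℂ) (h : ‖ζ • z‖ < R) :
    ‖f (ζ • z) - qr f z * ζ ^ 4‖ ≤ 2 * A * (‖ζ • z‖ / R) ^ 2 * ‖ζ • z‖ ^ 4 := by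
  obtain ⟨a, h1, -, h3⟩ := hf.exists_coef z
  rw [tendsto_nhds_unique (hf.tendstoC z) h1]
  exact h3 ζ h

theorem six (z : E) (h : ‖z‖ < R) :
    ‖f z - qr f z‖ ≤ 2 * A * (‖z‖ / R) ^ 2 * ‖z‖ ^ 4 := by
  have := hf.six' z 1 (by rwa [one_smul])
  rwa [one_smul, one_pow, mul_one] at this

theorem qr_zero : qr f (0 : E) = 0 := by
  have := hf.norm_le 0
  rw [norm_zero, zero_pow (by norm_num), mul_zero] at this
  exact norm_le_zero_iff.1 this

theorem hom (c : ℂ) (z : E) : qr f (c • z) = c ^ 4 * qr f z := by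
  by_cases hc : c = 0
  · rw [hc, zero_smul, hf.qr_zero]; ring
  · have h1 := hf.tendstoC (c • z)
    have h2 : Tendsto (fun ζ : ℂ => ζ * c) (𝓝[≠] 0) (𝓝[≠] 0) := by
      rw [tendsto_nhdsWithin_iff]
      constructor
      · have : Tendsto (fun ζ : ℂ => ζ * c) (𝓝 0) (𝓝 (0 * c)) :=
          (continuous_id.mul continuous_const).tendsto 0
        rw [zero_mul] at this
        exact this.mono_left nhdsWithin_le_nhds
      · filter_upwards [self_mem_nhdsWithin] with ζ hζ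
        exact mul_ne_zero hζ hc
    have h3 := ((hf.tendstoC z).comp h2).const_mul (c ^ 4)
    refine tendsto_nhds_unique h1 (h3.congr' ?_)
    filter_upwards [self_mem_nhdsWithin] with ζ hζ
    have hζ0 : ζ ≠ 0 := hζ
    simp only [Function.comp_apply]
    rw [smul_smul]
    field_simp

theorem neg (z : E) : qr f (-z) = qr f z := by
  have := hf.hom (-1) z
  rw [neg_one_smul] at this
  rw [this]; ring

/-- the Lipschitz bound of `f` -/
theorem lip (z z' : E) (hz : ‖z‖ < R / 4) (hz' : ‖z'‖ < R / 4) :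
    ‖f z - f z'‖ ≤ 32 * A * (‖z‖ + ‖z'‖) ^ 3 * ‖z - z'‖ := by
  have hR := hf.pos
  have hA := hf.A0
  have n1 := norm_nonneg z
  have n2 := norm_nonneg z'
  by_cases hc : ‖z - z'‖ < ‖z‖ + ‖z'‖
  · by_cases h0 : z - z' = 0
    · rw [sub_eq_zero.1 h0]
      simp
    have hd : 0 < ‖z - z'‖ := norm_pos_iff.2 h0
    set u := ‖z‖ + ‖z'‖ with hu
    have hu0 : 0 < u := hd.trans hc
    have hmaps : Set.MapsTo (fun s : ℂ => z + s • (z' - z)) (Metric.ball 0 (u / ‖z - z'‖))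
        (Metric.ball 0 (2 * u)) := by
      intro s hs
      rw [mem_ball_zero_iff] at hs ⊢
      have h1 : ‖s‖ * ‖z - z'‖ < u := (lt_div_iff₀ hd).1 hs
      refine (norm_add_le _ _).trans_lt ?_
      rw [norm_smul, norm_sub_rev z' z]
      linarith
    have hsub : Metric.ball (0 : E) (2 * u) ⊆ Metric.ball 0 R := Metric.ball_subset_ball (by linarith)
    have key := Complex.dist_le_div_mul_dist_of_mapsTo_ball (f := fun s : ℂ => f (z + s • (z' - z)))
      (c := 0) (R₁ := u / ‖z - z'‖) (R₂ := 32 * A * u ^ 4) (z := 1)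
      (hf.diff.comp (by fun_prop) (hmaps.mono_right hsub)) (by
        intro s hs
        rw [zero_smul, add_zero, Metric.mem_closedBall, dist_eq_norm]
        have h1 := hf.le _ (hsub (hmaps hs))
        have h2 := hf.le z (by rw [mem_ball_zero_iff]; linarith)
        have h3 : ‖z + s • (z' - z)‖ < 2 * u := mem_ball_zero_iff.1 (hmaps hs)
        have h4 : ‖z + s • (z' - z)‖ ^ 4 ≤ (2 * u) ^ 4 := pow_le_pow_left₀ (norm_nonneg _) h3.le 4
        have h5 : ‖z‖ ^ 4 ≤ u ^ 4 := pow_le_pow_left₀ n1 (by linarith) 4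
        refine (norm_sub_le _ _).trans ?_
        have h6 := mul_le_mul_of_nonneg_left h4 hA
        have h7 := mul_le_mul_of_nonneg_left h5 hA
        have h8 : 0 ≤ A * u ^ 4 := by positivity
        nlinarith) (by
        rw [mem_ball_zero_iff, norm_one, lt_div_iff₀ hd, one_mul]
        exact hc)
    rw [dist_eq_norm, dist_zero_right, norm_one, mul_one] at key
    simp only [zero_smul, add_zero, one_smul, add_sub_cancel] at key
    rw [norm_sub_rev]
    refine key.trans (le_of_eq ?_)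
    field_simp
  · push Not at hc
    have h1 := hf.le z (by rw [mem_ball_zero_iff]; linarith)
    have h2 := hf.le z' (by rw [mem_ball_zero_iff]; linarith)
    set u := ‖z‖ + ‖z'‖ with hu
    have hu0 : 0 ≤ u := by positivity
    have h5 : ‖z‖ ^ 4 ≤ u ^ 4 := pow_le_pow_left₀ n1 (by linarith) 4
    have h6 : ‖z'‖ ^ 4 ≤ u ^ 4 := pow_le_pow_left₀ n2 (by linarith) 4
    have h7 := mul_le_mul_of_nonneg_left h5 hA
    have h8 := mul_le_mul_of_nonneg_left h6 hA
    have h9 : A * u ^ 3 * u ≤ A * u ^ 3 * ‖z - z'‖ := mul_le_mul_of_nonneg_left hc (by positivity)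
    have h10 : 0 ≤ A * u ^ 3 * ‖z - z'‖ := by positivity
    refine (norm_sub_le _ _).trans ?_
    nlinarith

/-- the Lipschitz bound of the quartic part -/
theorem qlip (z z' : E) :
    ‖qr f z - qr f z'‖ ≤ 32 * A * (‖z‖ + ‖z'‖) ^ 3 * ‖z - z'‖ := by
  have hR := hf.pos
  refine le_of_tendsto ((hf.tendstoR z).sub (hf.tendstoR z')).norm ?_
  have h1 : ∀ x : E, ∀ᶠ s : ℝ in 𝓝[≠] 0, ‖(s : ℂ) • x‖ < R / 4 := by
    intro x
    have h2 : Tendsto (fun s : ℝ => ‖(s : ℂ) • x‖) (𝓝 0) (𝓝 ‖((0 : ℝ) : ℂ) • x‖) :=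
      Continuous.tendsto (by fun_prop) 0
    rw [Complex.ofReal_zero, zero_smul, norm_zero] at h2
    exact (h2.mono_left nhdsWithin_le_nhds).eventually_lt_const (by positivity)
  filter_upwards [h1 z, h1 z', self_mem_nhdsWithin] with s hs hs' hs0
  have hs0' : s ≠ 0 := hs0
  have hs1 : 0 < |s| := abs_pos.2 hs0'
  have h2 := hf.lip _ _ hs hs'
  rw [← smul_sub, norm_smul, norm_smul, norm_smul, Complex.norm_real, Real.norm_eq_abs] at h2
  rw [← sub_div, norm_div, norm_pow, Complex.norm_real, Real.norm_eq_abs,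
    div_le_iff₀ (by positivity)]
  refine h2.trans (le_of_eq ?_)
  ring

theorem qcont : Continuous (qr f : E → ℂ) := by
  rw [continuous_iff_continuousAt]
  intro z
  rw [ContinuousAt, tendsto_iff_norm_sub_tendsto_zero]
  have h1 : Tendsto (fun x : E => 32 * A * (‖x‖ + ‖z‖) ^ 3 * ‖x - z‖) (𝓝 z)
      (𝓝 (32 * A * (‖z‖ + ‖z‖) ^ 3 * ‖z - z‖)) := Continuous.tendsto (by fun_prop) z
  rw [sub_self, norm_zero, mul_zero] at h1
  exact squeeze_zero (fun x => norm_nonneg _) (fun x => hf.qlip x z) h1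

/-- the quartic part is holomorphic along lines -/
theorem line (z w : E) : Differentiable ℂ fun s : ℂ => qr f (s • z + w) := by
  have hR := hf.pos
  have hA := hf.A0
  have happ : ∀ r : ℝ, 0 < r → TendstoUniformlyOn
      (fun (n : ℕ) (z : E) => f (((1 / ((n : ℝ) + 1) : ℝ) : ℂ) • z) /
        ((1 / ((n : ℝ) + 1) : ℝ) : ℂ) ^ 4) (qr f) atTop (Metric.ball 0 r) := by
    intro r hr
    rw [Metric.tendstoUniformlyOn_iff]
    intro ε hε
    have t1 : Tendsto (fun n : ℕ => 1 / ((n : ℝ) + 1)) atTop (𝓝 0) :=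
      tendsto_one_div_add_atTop_nhds_zero_nat
    have t2 : Tendsto (fun n : ℕ => 1 / ((n : ℝ) + 1) * r) atTop (𝓝 0) := by
      simpa using t1.mul_const r
    have t3 : Tendsto (fun n : ℕ => 2 * A * (r / R) ^ 2 * r ^ 4 * (1 / ((n : ℝ) + 1)) ^ 2) atTop
        (𝓝 0) := by
      simpa using (t1.pow 2).const_mul (2 * A * (r / R) ^ 2 * r ^ 4)
    filter_upwards [t2.eventually_lt_const hR, t3.eventually_lt_const hε] with n hn1 hn2 z hz
    set δ : ℝ := 1 / ((n : ℝ) + 1) with hδ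
    have hδ0 : 0 < δ := by positivity
    have hδc : (δ : ℂ) ≠ 0 := by exact_mod_cast hδ0.ne'
    have hzr : ‖z‖ < r := mem_ball_zero_iff.1 hz
    have hnz : ‖(δ : ℂ) • z‖ = δ * ‖z‖ := by
      rw [norm_smul, Complex.norm_real, Real.norm_eq_abs, abs_of_pos hδ0]
    have h1 := hf.six' z (δ : ℂ) (by rw [hnz]; nlinarith)
    rw [dist_eq_norm]
    have e1 : qr f z - f ((δ : ℂ) • z) / (δ : ℂ) ^ 4 =
        -((f ((δ : ℂ) • z) - qr f z * (δ : ℂ) ^ 4) / (δ : ℂ) ^ 4) := by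
      field_simp
      ring
    rw [e1, norm_neg, norm_div, norm_pow, Complex.norm_real, Real.norm_eq_abs, abs_of_pos hδ0,
      div_lt_iff₀ (by positivity)]
    refine h1.trans_lt ?_
    rw [hnz]
    have e2 : 2 * A * (δ * ‖z‖ / R) ^ 2 * (δ * ‖z‖) ^ 4 ≤
        (2 * A * (r / R) ^ 2 * r ^ 4 * δ ^ 2) * δ ^ 4 := by
      have h2 : (δ * ‖z‖ / R) ^ 2 ≤ (δ * r / R) ^ 2 := by gcongr
      have h3 : (δ * ‖z‖) ^ 4 ≤ (δ * r) ^ 4 := by gcongr
      calc 2 * A * (δ * ‖z‖ / R) ^ 2 * (δ * ‖z‖) ^ 4 ≤ 2 * A * (δ * r / R) ^ 2 * (δ * r) ^ 4 := by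
            gcongr
        _ = _ := by ring
    refine e2.trans_lt ?_
    exact mul_lt_mul_of_pos_right hn2 (by positivity)
  have hev' : ∀ r : ℝ, ∀ᶠ n : ℕ in atTop, (1 / ((n : ℝ) + 1)) * r < R := by
    intro r
    have t1 : Tendsto (fun n : ℕ => 1 / ((n : ℝ) + 1)) atTop (𝓝 0) :=
      tendsto_one_div_add_atTop_nhds_zero_nat
    have t2 : Tendsto (fun n : ℕ => 1 / ((n : ℝ) + 1) * r) atTop (𝓝 0) := by
      simpa using t1.mul_const r
    exact t2.eventually_lt_const hR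
  have hmaps : ∀ (r : ℝ) (n : ℕ), (1 / ((n : ℝ) + 1)) * r < R →
      Set.MapsTo (fun z : E => ((1 / ((n : ℝ) + 1) : ℝ) : ℂ) • z) (Metric.ball 0 r)
        (Metric.ball 0 R) := by
    intro r n hn z hz
    have hzr : ‖z‖ < r := mem_ball_zero_iff.1 hz
    have hδ0 : 0 < 1 / ((n : ℝ) + 1) := by positivity
    rw [mem_ball_zero_iff, norm_smul, Complex.norm_real, Real.norm_eq_abs, abs_of_pos hδ0]
    nlinarith
  intro s
  have hr : 0 < ‖s‖ + 1 := by positivity
  set r : ℝ := (‖s‖ + 1) * ‖z‖ + ‖w‖ + 1 with hrd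
  have hrp : 0 < r := by positivity
  have hm : Set.MapsTo (fun s : ℂ => s • z + w) (Metric.ball 0 (‖s‖ + 1)) (Metric.ball 0 r) := by
    intro u hu
    rw [mem_ball_zero_iff] at hu ⊢
    refine (norm_add_le _ _).trans_lt ?_
    rw [norm_smul, hrd]
    nlinarith [norm_nonneg z, mul_le_mul_of_nonneg_right hu.le (norm_nonneg z)]
  have h1 : TendstoUniformlyOn (fun (n : ℕ) (s : ℂ) =>
      f (((1 / ((n : ℝ) + 1) : ℝ) : ℂ) • (s • z + w)) / ((1 / ((n : ℝ) + 1) : ℝ) : ℂ) ^ 4)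
      (fun s : ℂ => qr f (s • z + w)) atTop (Metric.ball 0 (‖s‖ + 1)) :=
    ((happ r hrp).comp (fun s : ℂ => s • z + w)).mono hm
  have h2 : DifferentiableOn ℂ (fun s : ℂ => qr f (s • z + w)) (Metric.ball 0 (‖s‖ + 1)) := by
    refine h1.tendstoLocallyUniformlyOn.differentiableOn ?_ Metric.isOpen_ball
    filter_upwards [hev' r] with n hn
    exact (hf.diff.comp (f := fun s : ℂ => ((1 / ((n : ℝ) + 1) : ℝ) : ℂ) • (s • z + w))
      (by fun_prop) ((hmaps _ n hn).comp hm)).div_const _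
  exact h2.differentiableAt (Metric.isOpen_ball.mem_nhds (mem_ball_zero_iff.2 (by linarith)))

end Qrt

/-- the second difference of a function -/
def dd (q : E → ℂ) (x y : E) : ℂ := q (x + y) + q (x - y) - 2 * q x - 2 * q y

namespace Qrt

variable {f : E → ℂ} {R A : ℝ} (hf : Qrt f R A)

include hf

theorem dd_symm (x y : E) : dd (qr f) x y = dd (qr f) y x := by
  unfold dd
  have h1 : qr f (y - x) = qr f (x - y) := by rw [← neg_sub, hf.neg]
  rw [h1, add_comm y x]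
  ring

theorem dd_le (x y : E) : ‖dd (qr f) x y‖ ≤ 4 * A * (‖x‖ + ‖y‖) ^ 4 := by
  unfold dd
  have hA := hf.A0
  have h1 := hf.norm_le (x + y)
  have h2 := hf.norm_le (x - y)
  have h3 := hf.norm_le x
  have h4 := hf.norm_le y
  have n1 := norm_nonneg x
  have n2 := norm_nonneg y
  have k1 : ‖x + y‖ ^ 4 ≤ (‖x‖ + ‖y‖) ^ 4 := pow_le_pow_left₀ (norm_nonneg _) (norm_add_le _ _) 4
  have k2 : ‖x - y‖ ^ 4 ≤ (‖x‖ + ‖y‖) ^ 4 := pow_le_pow_left₀ (norm_nonneg _) (norm_sub_le _ _) 4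
  have k3 : 2 * ‖x‖ ^ 4 + 2 * ‖y‖ ^ 4 ≤ 2 * (‖x‖ + ‖y‖) ^ 4 := by
    have : (‖x‖ + ‖y‖) ^ 4 - ‖x‖ ^ 4 - ‖y‖ ^ 4 = 4 * ‖x‖ ^ 3 * ‖y‖ + 6 * ‖x‖ ^ 2 * ‖y‖ ^ 2 +
        4 * ‖x‖ * ‖y‖ ^ 3 := by ring
    have h0 : 0 ≤ 4 * ‖x‖ ^ 3 * ‖y‖ + 6 * ‖x‖ ^ 2 * ‖y‖ ^ 2 + 4 * ‖x‖ * ‖y‖ ^ 3 := by positivity
    linarith
  have l1 := mul_le_mul_of_nonneg_left k1 hA
  have l2 := mul_le_mul_of_nonneg_left k2 hA
  have l3 := mul_le_mul_of_nonneg_left k3 hA
  have h5 : ‖(2 : ℂ) * qr f x‖ = 2 * ‖qr f x‖ := by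
    rw [norm_mul]; simp
  have h6 : ‖(2 : ℂ) * qr f y‖ = 2 * ‖qr f y‖ := by
    rw [norm_mul]; simp
  calc _ ≤ ‖qr f (x + y)‖ + ‖qr f (x - y)‖ + ‖2 * qr f x‖ + ‖2 * qr f y‖ :=
        (norm_sub_le _ _).trans (add_le_add ((norm_sub_le _ _).trans (add_le_add
          (norm_add_le _ _) le_rfl)) le_rfl)
    _ ≤ 4 * A * (‖x‖ + ‖y‖) ^ 4 := by
        rw [h5, h6]
        linarith

theorem dd_line (x z w : E) : Differentiable ℂ fun s : ℂ => dd (qr f) x (s • z + w) := by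
  have h1 := hf.line z (x + w)
  have h2 := hf.line (-z) (x - w)
  have h3 := hf.line z w
  have e : (fun s : ℂ => dd (qr f) x (s • z + w)) = fun s : ℂ =>
      qr f (s • z + (x + w)) + qr f (s • (-z) + (x - w)) - 2 * qr f x - 2 * qr f (s • z + w) := by
    funext s
    unfold dd
    congr 4
    · abel_nf
    · rw [smul_neg]; abel_nf
  rw [e]
  exact ((h1.add h2).sub_const _).sub (h3.const_mul 2)

theorem dd_zero_right (x : E) : dd (qr f) x 0 = 0 := by
  unfold dd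
  rw [add_zero, sub_zero, hf.qr_zero]
  ring

theorem dd_neg_right (x y : E) : dd (qr f) x (-y) = dd (qr f) x y := by
  unfold dd
  rw [hf.neg, sub_neg_eq_add, ← sub_eq_add_neg]
  ring

theorem dd_hom4 (s : ℂ) (x y : E) : dd (qr f) (s • x) (s • y) = s ^ 4 * dd (qr f) x y := by
  unfold dd
  rw [← smul_add, ← smul_sub, hf.hom, hf.hom, hf.hom, hf.hom]
  ring

/-- homogeneity of degree two in the second variable -/
theorem dd_hom (x y : E) (s : ℂ) : dd (qr f) x (s • y) = s ^ 2 * dd (qr f) x y := by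
  have hA := hf.A0
  obtain ⟨M, hM⟩ : ∃ M : ℝ, M = 4 * A * (2 * (‖x‖ + ‖y‖)) ^ 4 := ⟨_, rfl⟩
  have hM0 : 0 ≤ M := by rw [hM]; positivity
  have small : ∀ x' y' : E, ‖x'‖ + ‖y'‖ = ‖x‖ + ‖y‖ → ∀ u : ℂ, ‖u‖ < 2 →
      ‖dd (qr f) x' (u • y')‖ ≤ M * (‖u‖ / 2) ^ 2 := by
    intro x' y' hxy u hu
    refine schwarz2_one (f := fun u : ℂ => dd (qr f) x' (u • y')) (by norm_num) ?_ ?_ ?_ ?_ u
      (by rwa [mem_ball_zero_iff])
    · have := (hf.dd_line x' y' 0).differentiableOn (s := Metric.ball (0 : ℂ) 2)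
      simpa only [add_zero] using this
    · intro v hv
      rw [mem_ball_zero_iff] at hv
      refine (hf.dd_le _ _).trans ?_
      rw [hM, norm_smul, ← hxy]
      have n1 := norm_nonneg x'
      have n2 := norm_nonneg y'
      have h1 : ‖v‖ * ‖y'‖ ≤ 2 * ‖y'‖ := mul_le_mul_of_nonneg_right hv.le n2
      have h2 : ‖x'‖ + ‖v‖ * ‖y'‖ ≤ 2 * (‖x'‖ + ‖y'‖) := by linarith
      have h3 : (‖x'‖ + ‖v‖ * ‖y'‖) ^ 4 ≤ (2 * (‖x'‖ + ‖y'‖)) ^ 4 :=
        pow_le_pow_left₀ (by positivity) h2 4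
      exact mul_le_mul_of_nonneg_left h3 (by positivity)
    · simp only [zero_smul]
      exact hf.dd_zero_right x'
    · intro v _
      rw [neg_smul, hf.dd_neg_right]
  obtain ⟨b, c, hbc⟩ := entire_quad (g := fun u : ℂ => dd (qr f) x (u • y)) (C := M) (by
    have := hf.dd_line x y 0
    simpa only [add_zero] using this) (by
    intro u
    by_cases hu : ‖u‖ < 2
    · refine (small x y rfl u hu).trans ?_
      refine mul_le_mul_of_nonneg_left ?_ hM0
      have := norm_nonneg u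
      nlinarith
    · push Not at hu
      have hu0 : u ≠ 0 := by
        rintro rfl
        rw [norm_zero] at hu
        linarith
      have hup : 0 < ‖u‖ := norm_pos_iff.2 hu0
      have e1 : dd (qr f) x (u • y) = u ^ 4 * dd (qr f) y (u⁻¹ • x) := by
        rw [hf.dd_symm y, ← hf.dd_hom4, smul_smul, mul_inv_cancel₀ hu0, one_smul]
      have h1 := small y x (add_comm _ _) u⁻¹ (by
        rw [norm_inv]
        have : ‖u‖⁻¹ ≤ 1 := inv_le_one_of_one_le₀ (by linarith)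
        linarith)
      rw [e1, norm_mul, norm_pow]
      rw [norm_inv] at h1
      have h2 := mul_le_mul_of_nonneg_left h1 (by positivity : 0 ≤ ‖u‖ ^ 4)
      refine h2.trans ?_
      have e2 : ‖u‖ ^ 4 * (M * (‖u‖⁻¹ / 2) ^ 2) = M * (‖u‖ ^ 2 / 4) := by
        field_simp
        ring
      rw [e2]
      refine mul_le_mul_of_nonneg_left ?_ hM0
      nlinarith)
  have g0 : dd (qr f) x ((0 : ℂ) • y) = 0 := by rw [zero_smul]; exact hf.dd_zero_right x
  simp only [g0, zero_add] at hbc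
  have h1 := hbc 1
  have h2 := hbc (-1)
  rw [neg_smul, one_smul, hf.dd_neg_right] at h2
  rw [one_smul] at h1
  have hb : b = 0 := by
    have : (2 : ℂ) * b = 0 := by
      have e := h1.symm.trans h2
      linear_combination e
    simpa using this
  rw [hbc s, h1, hb]
  ring

/-- the bound of the biquadratic form -/
theorem dd_bound (x y : E) : ‖dd (qr f) x y‖ ≤ 64 * A * ‖x‖ ^ 2 * ‖y‖ ^ 2 := by
  by_cases hx : x = 0
  · rw [hx, hf.dd_symm, hf.dd_zero_right]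
    simp
  by_cases hy : y = 0
  · rw [hy, hf.dd_zero_right]
    simp
  have hx0 : 0 < ‖x‖ := norm_pos_iff.2 hx
  have hy0 : 0 < ‖y‖ := norm_pos_iff.2 hy
  have e1 : dd (qr f) x y = (‖x‖ : ℂ) ^ 2 * ((‖y‖ : ℂ) ^ 2 *
      dd (qr f) ((‖x‖⁻¹ : ℂ) • x) ((‖y‖⁻¹ : ℂ) • y)) := by
    have hx' : (‖x‖ : ℂ) ≠ 0 := by exact_mod_cast hx0.ne'
    have hy' : (‖y‖ : ℂ) ≠ 0 := by exact_mod_cast hy0.ne'
    have a1 : dd (qr f) x y = (‖y‖ : ℂ) ^ 2 * dd (qr f) x ((‖y‖⁻¹ : ℂ) • y) := by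
      rw [← hf.dd_hom, smul_smul, mul_inv_cancel₀ hy', one_smul]
    have a2 : dd (qr f) ((‖y‖⁻¹ : ℂ) • y) x =
        (‖x‖ : ℂ) ^ 2 * dd (qr f) ((‖y‖⁻¹ : ℂ) • y) ((‖x‖⁻¹ : ℂ) • x) := by
      rw [← hf.dd_hom, smul_smul, mul_inv_cancel₀ hx', one_smul]
    rw [a1, hf.dd_symm x, a2, hf.dd_symm ((‖y‖⁻¹ : ℂ) • y)]
    ring
  have h1 := hf.dd_le ((‖x‖⁻¹ : ℂ) • x) ((‖y‖⁻¹ : ℂ) • y)
  have h2 : ‖(‖x‖⁻¹ : ℂ) • x‖ = 1 := by
    rw [norm_smul, norm_inv, Complex.norm_real, norm_norm, inv_mul_cancel₀ hx0.ne']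
  have h3 : ‖(‖y‖⁻¹ : ℂ) • y‖ = 1 := by
    rw [norm_smul, norm_inv, Complex.norm_real, norm_norm, inv_mul_cancel₀ hy0.ne']
  rw [h2, h3] at h1
  rw [e1, norm_mul, norm_mul, norm_pow, norm_pow, Complex.norm_real, Complex.norm_real, norm_norm,
    norm_norm]
  have h4 := mul_le_mul_of_nonneg_left h1 (by positivity : 0 ≤ ‖x‖ ^ 2 * ‖y‖ ^ 2)
  calc _ = ‖x‖ ^ 2 * ‖y‖ ^ 2 * ‖dd (qr f) ((‖x‖⁻¹ : ℂ) • x) ((‖y‖⁻¹ : ℂ) • y)‖ := by ring
    _ ≤ _ := h4
    _ = _ := by ring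

end Qrt

/-- A continuous function, homogeneous of degree two and holomorphic along lines, is a quadratic
form. -/
theorem quad_form {Q : E → ℂ} {K : ℝ} (hom : ∀ (c : ℂ) (z : E), Q (c • z) = c ^ 2 * Q z)
    (hQc : Continuous Q) (hK : ∀ z, ‖Q z‖ ≤ K * ‖z‖ ^ 2)
    (hQe : ∀ z w : E, Differentiable ℂ fun s : ℂ => Q (s • z + w)) :
    ∃ q : E →ₗ[ℂ] E →ₗ[ℂ] ℂ, (∀ x y, q x y = q y x) ∧ ∀ z, q z z = Q z := by
  have hK0 : ∀ z : E, 0 ≤ K * ‖z‖ ^ 2 := fun z => (norm_nonneg _).trans (hK z)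
  set B : E → E → ℂ := fun z w => Q (z + w) - Q z - Q w with hB
  have key : ∀ (s : ℂ) (z w : E), Q (s • z + w) = Q w + s * B z w + s ^ 2 * Q z := by
    intro s z w
    obtain ⟨b, c, hbc⟩ := entire_quad (hQe z w) (C := |K| * (‖z‖ + ‖w‖) ^ 2) (by
      intro s
      refine (hK _).trans ?_
      have h1 : ‖s • z + w‖ ≤ (‖z‖ + ‖w‖) * (1 + ‖s‖) := by
        refine (norm_add_le _ _).trans ?_
        rw [norm_smul]
        nlinarith [norm_nonneg z, norm_nonneg w, norm_nonneg s,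
          mul_nonneg (norm_nonneg w) (norm_nonneg s)]
      calc K * ‖s • z + w‖ ^ 2 ≤ |K| * ‖s • z + w‖ ^ 2 :=
            mul_le_mul_of_nonneg_right (le_abs_self K) (by positivity)
        _ ≤ |K| * ((‖z‖ + ‖w‖) * (1 + ‖s‖)) ^ 2 := by gcongr
        _ = _ := by ring)
    simp only [zero_smul, zero_add] at hbc
    have hc : c = Q z := by
      have t1 : Tendsto (fun u : ℂ => u ^ 2 * Q w + u * b + c) (𝓝[≠] 0) (𝓝 c) := by
        have : Tendsto (fun u : ℂ => u ^ 2 * Q w + u * b + c) (𝓝 0) (𝓝 (0 ^ 2 * Q w + 0 * b + c)) :=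
          Continuous.tendsto (by fun_prop) 0
        have h2 : (0 : ℂ) ^ 2 * Q w + 0 * b + c = c := by ring
        rw [h2] at this
        exact this.mono_left nhdsWithin_le_nhds
      have t2 : Tendsto (fun u : ℂ => Q (z + u • w)) (𝓝[≠] 0) (𝓝 (Q z)) := by
        have : Tendsto (fun u : ℂ => Q (z + u • w)) (𝓝 0) (𝓝 (Q (z + (0 : ℂ) • w))) :=
          Continuous.tendsto (by fun_prop) 0
        rw [zero_smul, add_zero] at this
        exact this.mono_left nhdsWithin_le_nhds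
      refine tendsto_nhds_unique t1 (t2.congr' ?_)
      filter_upwards [self_mem_nhdsWithin] with u hu
      have hu0 : u ≠ 0 := hu
      have e1 : z + u • w = u • (u⁻¹ • z + w) := by
        rw [smul_add, smul_smul, mul_inv_cancel₀ hu0, one_smul]
      rw [e1, hom, hbc]
      field_simp
    have hb : B z w = b := by
      have := hbc 1
      rw [one_smul, hc] at this
      simp only [hB]
      rw [this]; ring
    rw [hbc, hc, hb]
  have hsym : ∀ x y, B x y = B y x := by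
    intro x y
    simp only [hB]
    rw [add_comm x y]; ring
  have hsm : ∀ (s : ℂ) (x y : E), B (s • x) y = s * B x y := by
    intro s x y
    have := key s x y
    have h2 : B (s • x) y = Q (s • x + y) - Q (s • x) - Q y := rfl
    rw [h2, this, hom]; ring
  have hBc : ∀ z w w' : E, Continuous fun u : ℂ => B z (u • w + w') := by
    intro z w w'
    simp only [hB]
    fun_prop
  have hadd : ∀ x y z : E, B x (y + z) = B x y + B x z := by
    intro w' z w
    -- `B z (w + s w')`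
    have e1 : ∀ s : ℂ, B z (s • w' + w) = B z w + s * (B w' (z + w) - B w' w) := by
      intro s
      have h2 : B z (s • w' + w) = Q (s • w' + (z + w)) - Q z - Q (s • w' + w) := by
        simp only [hB]
        congr 3
        abel
      have h3 : B z w = Q (z + w) - Q z - Q w := rfl
      rw [h2, key, key, h3]
      ring
    have e2 : ∀ u : ℂ, u ≠ 0 → B z (u • w + w') = u * B z w + (B w' (z + w) - B w' w) := by
      intro u hu
      have h4 : u • w + w' = u • (u⁻¹ • w' + w) := by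
        rw [smul_add, smul_smul, mul_inv_cancel₀ hu, one_smul, add_comm]
      rw [h4, hsym, hsm, hsym, e1]
      field_simp
    have t1 : Tendsto (fun u : ℂ => B z (u • w + w')) (𝓝[≠] 0) (𝓝 (B z w')) := by
      have := (hBc z w w').tendsto 0
      rw [zero_smul, zero_add] at this
      exact this.mono_left nhdsWithin_le_nhds
    have t2 : Tendsto (fun u : ℂ => u * B z w + (B w' (z + w) - B w' w)) (𝓝[≠] 0)
        (𝓝 (B w' (z + w) - B w' w)) := by
      have : Tendsto (fun u : ℂ => u * B z w + (B w' (z + w) - B w' w)) (𝓝 0)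
          (𝓝 (0 * B z w + (B w' (z + w) - B w' w))) := Continuous.tendsto (by fun_prop) 0
      rw [zero_mul, zero_add] at this
      exact this.mono_left nhdsWithin_le_nhds
    have h5 := tendsto_nhds_unique t1 (t2.congr' (by
      filter_upwards [self_mem_nhdsWithin] with u hu
      exact (e2 u hu).symm))
    rw [hsym w' z, h5]
    ring
  have hqq : ∀ z, (1 / 2 : ℂ) * B z z = Q z := by
    intro z
    have h2 : B z z = Q (z + z) - Q z - Q z := rfl
    rw [h2, ← two_smul ℂ z, hom]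
    ring
  refine ⟨LinearMap.mk₂ ℂ (fun x y => (1 / 2 : ℂ) * B x y) ?_ ?_ ?_ ?_, ?_, ?_⟩
  · intro x y z
    rw [hsym, hadd, hsym z x, hsym z y]; ring
  · intro c x y
    rw [hsm, smul_eq_mul]; ring
  · intro x y z
    rw [hadd]; ring
  · intro c x y
    rw [hsym, hsm, hsym y x, smul_eq_mul]; ring
  · intro x y
    simp only [LinearMap.mk₂_apply]
    rw [hsym]
  · intro z
    simp only [LinearMap.mk₂_apply]
    rw [hqq]

/-- the second difference of the quartic part is a quadratic form in the second variable -/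
theorem Qrt.dd_form {f : E → ℂ} {R A : ℝ} (hf : Qrt f R A) (x : E) :
    ∃ q : E →ₗ[ℂ] E →ₗ[ℂ] ℂ, (∀ y z, q y z = q z y) ∧ ∀ z, q z z = dd (qr f) x z := by
  refine quad_form (K := 64 * A * ‖x‖ ^ 2) (fun c z => hf.dd_hom x z c) ?_ (fun z => ?_)
    (fun z w => hf.dd_line x z w)
  · have h := hf.qcont
    unfold dd
    fun_prop
  · exact hf.dd_bound x z

end

end Pool.Agent.T2H04.HY
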