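import Mathlib
import Pool.Agent.T2H04.HY.Cas
import Pool.Agent.T2H04.HY.Conv2
import Pool.Agent.T2H04.HY.Tl0
import Pool.Agent.T2H04.HY.TlB0

/-!
# The quartic part of `w` (package PB)

Paper proof. `w` is holomorphic on `dom L r (r0/4) ⊇ ball 0 (r0/4)`, even, `‖w Z‖ ≤ A ‖Z‖⁴`.
(1) `q4_tendsto, q4_le, q4_real, q4_six, q4_smul`: one variable: `h(s) = w (s Z)` is holomorphic for
`‖s Z‖ < r0/4`, even, divisible by `s⁴`: `h = s⁴ k(s)` with `k` holomorphic (`dslope` as in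
`Cx.coef_one`; apply `coef_one` to `s ↦ w (s Z) / s²` extended, for instance), `q4 w Z = k 0`,
`‖k‖ ≤ A ‖Z‖⁴`, `k` even, so `‖k s - k 0‖ ≤ 2 A ‖Z‖⁴ (‖s Z‖ / (r0/4))²` (Schwarz).
(2) `w_lip`: Cauchy estimate: `‖w Z - w Z'‖ ≤ C A (‖Z‖ + ‖Z'‖)³ ‖Z - Z'‖` for `‖Z‖, ‖Z'‖ < r0/16`
(Schwarz on the disc `s ↦ w (Z + s (Z' - Z))`, radius `(‖Z‖+‖Z'‖)/‖Z-Z'‖`, bound `A (2(‖Z‖+‖Z'‖))⁴`).
It passes to `q4` (`‖q4 w Z - q4 w Z'‖ ≤ C A (‖Z‖+‖Z'‖)³ ‖Z-Z'‖` for all `Z, Z'`).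
(3) `sdf_w4`: for real small `X`, `η`: `h(s) = sdf D w (s X) (s η)` for complex `|s| ≤ ρ/(‖X‖+‖η‖)`,
is holomorphic, `‖h(s)‖ ≤ C A ((‖X‖+‖η‖) |s|)⁴`, and `h(s)/s⁴ → P4 w (X/2) η` as `s → 0` because
`bc (s X/2) (± s η)/s → X/2 ± η` (`bc_sub_right` type estimates, or `bc_schwarz` in `CovC.lean`:
`‖bc Z W - Z - W‖ ≤ C ‖Z‖ ‖W‖`) and (2). Schwarz: `‖h(1) - P4 w (X/2) η‖ ≤ C A (‖X‖+‖η‖)⁵`.
(Or directly from (1), (2): `w (bc (X/2) η) = q4 w (bc ..) + O(A ε⁶) = q4 w (X/2 + η) + O(A ε⁵)`.)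
(4) `P4_form`: for fixed small real `X₀` the function `η ↦ sdf D w X₀ η` (or
`η ↦ w (X₀/2 + η) + w (X₀/2 - η) - 2 w (X₀/2) - 2 w η`, without `bc`, this is better here) is
holomorphic, even, `0` at `0`: `schwarz4` gives a symmetric bilinear form `q_{X₀}` with
`D(X₀, η) = q_{X₀}(η,η) + O(A ‖X₀‖² ‖η‖⁴ + ..)`; by scaling (`X₀ = s X`, divide by `s²`; use
`D(sX, sη)/s⁴ → P4 w (X/2) η`, and `q_{sX}/s²` is bounded, so a subsequence converges (finite
dimension), or show the parallelogram law for the limit) `P4 w (X/2) ·` is a quadratic form: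
`P4 w (X/2) η = ∑ c_ab ⟨E_a, η⟩ ⟨E_b, η⟩` with `c_ab` the polarisation. The same in the first variable
(`P4 w (X/2) η` with `P4 w X η = P4 w η X`, homogeneity of degree 2 in each variable).
(5) `X ↦ ∑_a P4 w (X/2) (E_a)` is a quadratic form on the Lie algebra, invariant under `Ad` (`w` is
invariant, `E` orthonormal, the trace of the quadratic form `P4 w (X/2) ·` does not depend on the
orthonormal basis), so `= κ ‖X‖²` by Schur (`schur` in `Schur.lean` is for complex bilinear forms on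
`gC L`; all of the above also works for complex `X`, `η`, so one can construct the complex bilinear
form). Summing over `X = 2 E_b`: `4 n κ = ∑_{ab} P4 w (E_b) (E_a) = n lam`, so `κ = lam / 4`.
-/

open MeasureTheory Matrix Filter
open scoped Matrix.Norms.Frobenius Topology

namespace Pool.Agent.T2H04.HY

set_option linter.unusedSectionVars false

noncomputable section

variable {G : Type} [Group G] [TopologicalSpace G] [IsTopologicalGroup G] [CompactSpace G]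
  {m : Type} [Fintype m] [DecidableEq m] {L : RD G m}

/-- `w` has a quartic part -/
theorem SFw.qrt {F : Mt m → ℂ} {t A r r0 : ℝ} {w : gC L → ℂ} (hw : SFw L F t A r (r0 / 4) w)
    (hr0 : 0 < r0) (hr : r0 ≤ r) (hA : 0 ≤ A) : Qrt w (r0 / 4) A where
  pos := by positivity
  A0 := hA
  diff := hw.diff.mono (ball_sub_dom (by linarith) le_rfl)
  even Z hZ := hw.even Z (ball_sub_dom (by linarith) le_rfl hZ)
  le Z hZ := hw.le Z (ball_sub_dom (by linarith) le_rfl hZ)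

theorem q4_eq_qr (w : gC L → ℂ) (Z : gC L) : q4 w Z = qr w Z := rfl

theorem P4_eq_dd (w : gC L → ℂ) (X Y : gC L) : P4 w X Y = dd (qr w) X Y := rfl

theorem small_smul {E : Type*} [NormedAddCommGroup E] [NormedSpace ℂ E] {ρ : ℝ} (hρ : 0 < ρ)
    (x : E) : ∀ᶠ s : ℝ in 𝓝[≠] 0, (s : ℂ) • x ∈ Metric.ball (0 : E) ρ := by
  have h2 : Tendsto (fun s : ℝ => ‖(s : ℂ) • x‖) (𝓝 0) (𝓝 ‖((0 : ℝ) : ℂ) • x‖) :=
    Continuous.tendsto (by fun_prop) 0
  rw [Complex.ofReal_zero, zero_smul, norm_zero] at h2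
  filter_upwards [(h2.mono_left nhdsWithin_le_nhds).eventually_lt_const hρ] with s hs
  exact mem_ball_zero_iff.2 hs

section

variable {F : Mt m → ℂ} {t A r r0 : ℝ} {w : gC L → ℂ} (hw : SFw L F t A r (r0 / 4) w)
  (hr0 : 0 < r0) (hr : r0 ≤ r) (hA : 0 ≤ A)

include hw hr0 hr hA

theorem q4_tendsto (Z : gC L) :
    Tendsto (fun s : ℝ => w ((s : ℂ) • Z) / (s : ℂ) ^ 4) (𝓝[≠] 0) (𝓝 (q4 w Z)) :=
  (hw.qrt hr0 hr hA).tendstoR Z

theorem q4_le (Z : gC L) : ‖q4 w Z‖ ≤ A * ‖Z‖ ^ 4 := (hw.qrt hr0 hr hA).norm_le Z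

theorem q4_real (Z : gC L) (hZ : imP (Z : Mt m) = 0) : (q4 w Z).im = 0 := by
  have h1 := (Complex.continuous_im.tendsto _).comp (q4_tendsto hw hr0 hr hA Z)
  refine tendsto_nhds_unique h1 (tendsto_const_nhds.congr' ?_)
  filter_upwards [small_smul (by positivity : 0 < r0 / 4) Z] with s hs
  have h2 : imP ((((s : ℂ) • Z : gC L)) : Mt m) = 0 := by
    have e : ((((s : ℂ) • Z : gC L)) : Mt m) = (s : ℂ) • (Z : Mt m) := rfl
    rw [e, imP_smul, hZ, smul_zero]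
  have h3 := hw.real _ (ball_sub_dom (by linarith) le_rfl hs) h2
  have e4 : (s : ℂ) ^ 4 = ((s ^ 4 : ℝ) : ℂ) := by push_cast; rfl
  rw [Function.comp_apply, e4, Complex.div_ofReal_im, h3, zero_div]

theorem q4_six (Z : gC L) (hZ : ‖Z‖ < r0 / 4) :
    ‖w Z - q4 w Z‖ ≤ 32 * A / r0 ^ 2 * ‖Z‖ ^ 6 := by
  refine ((hw.qrt hr0 hr hA).six Z hZ).trans (le_of_eq ?_)
  have key : ∀ x : ℝ, 2 * A * (x / (r0 / 4)) ^ 2 * x ^ 4 = 32 * A / r0 ^ 2 * x ^ 6 := by
    intro x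
    field_simp
    ring
  exact key _

theorem q4_smul (c : ℂ) (Z : gC L) : q4 w (c • Z) = c ^ 4 * q4 w Z :=
  (hw.qrt hr0 hr hA).hom c Z

theorem w_lip (Z Z' : gC L) (hZ : ‖Z‖ < r0 / 16) (hZ' : ‖Z'‖ < r0 / 16) :
    ‖w Z - w Z'‖ ≤ 32 * A * (‖Z‖ + ‖Z'‖) ^ 3 * ‖Z - Z'‖ :=
  (hw.qrt hr0 hr hA).lip Z Z' (by linarith) (by linarith)

theorem q4_lip (Z Z' : gC L) : ‖q4 w Z - q4 w Z'‖ ≤ 32 * A * (‖Z‖ + ‖Z'‖) ^ 3 * ‖Z - Z'‖ :=
  (hw.qrt hr0 hr hA).qlip Z Z'

/-- invariance of the quartic part -/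
theorem q4_ad (g : G) (Z Z' : gC L) (h : (Z' : Mt m) = L.rho g * (Z : Mt m) * L.rho g⁻¹) :
    q4 w Z' = q4 w Z := by
  refine tendsto_nhds_unique (q4_tendsto hw hr0 hr hA Z')
    ((q4_tendsto hw hr0 hr hA Z).congr' ?_)
  filter_upwards [small_smul (by positivity : 0 < r0 / 4) Z] with s hs
  rw [hw.ad g _ (ball_sub_dom (by linarith) le_rfl hs) ((s : ℂ) • Z') (by
    have e : ∀ Y : gC L, ((((s : ℂ) • Y : gC L)) : Mt m) = (s : ℂ) • (Y : Mt m) := fun _ => rfl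
    rw [e, e, h, mul_smul_comm, smul_mul_assoc])]

/-- the second difference of the quartic part is real -/
theorem P4_real (X Y : gC L) (hX : imP (X : Mt m) = 0) (hY : imP (Y : Mt m) = 0) :
    (P4 w X Y).im = 0 := by
  have h1 := q4_real hw hr0 hr hA (X + Y) (by
    have e : ((X + Y : gC L) : Mt m) = (X : Mt m) + (Y : Mt m) := rfl
    rw [e, imP_add, hX, hY, add_zero])
  have h2 := q4_real hw hr0 hr hA (X - Y) (by
    have e : ((X - Y : gC L) : Mt m) = (X : Mt m) - (Y : Mt m) := rfl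
    rw [e, imP_sub, hX, hY, sub_zero])
  have h3 := q4_real hw hr0 hr hA X hX
  have h4 := q4_real hw hr0 hr hA Y hY
  unfold P4
  simp only [Complex.sub_im, Complex.add_im, Complex.mul_im, h1, h2, h3, h4]
  simp

/-- its invariance -/
theorem P4_ad (g : G) (X X' Y Y' : gC L) (h : (X' : Mt m) = L.rho g * (X : Mt m) * L.rho g⁻¹)
    (h' : (Y' : Mt m) = L.rho g * (Y : Mt m) * L.rho g⁻¹) : P4 w X' Y' = P4 w X Y := by
  unfold P4
  rw [q4_ad hw hr0 hr hA g X X' h, q4_ad hw hr0 hr hA g Y Y' h',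
    q4_ad hw hr0 hr hA g (X + Y) (X' + Y') (by
      show (X' : Mt m) + (Y' : Mt m) = L.rho g * ((X : Mt m) + (Y : Mt m)) * L.rho g⁻¹
      rw [h, h', mul_add, add_mul]),
    q4_ad hw hr0 hr hA g (X - Y) (X' - Y') (by
      show (X' : Mt m) - (Y' : Mt m) = L.rho g * ((X : Mt m) - (Y : Mt m)) * L.rho g⁻¹
      rw [h, h', mul_sub, sub_mul])]

end

theorem bc_schwarz0 {D : LogData m} {εg δ : ℝ} (ch : Chart L D εg δ) {Z W : gC L}
    (hZ : ‖Z‖ < δ) (hW : ‖W‖ < δ) : ‖bc L D Z W - Z - W‖ ≤ εg * ‖Z‖ / δ * ‖W‖ := by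
  have h := Complex.dist_le_div_mul_dist_of_mapsTo_ball (f := fun W : gC L => bc L D Z W - Z - W)
    (c := 0) (R₁ := δ) (R₂ := εg * ‖Z‖) (z := W)
    (((bc_diff_right ch hZ).sub (differentiableOn_const _)).sub differentiableOn_id) (by
      intro W' hW'
      rw [mem_ball_zero_iff] at hW'
      rw [bc_zero_right ch hZ, sub_self, sub_zero, Metric.mem_closedBall, dist_zero_right]
      exact bc_sub_left ch hZ hW') (by rwa [mem_ball_zero_iff])
  rw [bc_zero_right ch hZ, sub_self, sub_zero, dist_zero_right, dist_zero_right] at h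
  exact h

/-- the second difference of `w` -/
theorem sdf_w4 {D : LogData m} {εg δ r0 r s b r' : ℝ} (P : Par L D εg δ r0 r s b r') :
    ∃ C δ' : ℝ, 0 < C ∧ 0 < δ' ∧ ∀ (F : Mt m → ℂ) (t A : ℝ) (w : gC L → ℂ), 0 ≤ A →
      SFw L F t A r (r0 / 4) w → ∀ X η : gC L, imP (X : Mt m) = 0 → imP (η : Mt m) = 0 →
        ‖X‖ ≤ δ' → ‖η‖ ≤ δ' →
        ‖sdf D w X η - P4 w ((1 / 2 : ℂ) • X) η‖ ≤ C * A * (‖X‖ + ‖η‖) ^ 5 := by
  have hr0 := P.r0_pos
  have hδ := P.r0_δ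
  have hδ0 : 0 < δ := by linarith
  refine ⟨1728 / δ + 6 / r0, r0 / 128, by positivity, by positivity, ?_⟩
  intro F t A w hA hw X η _ _ hX hη
  have hrr := P.r_lo
  have hq := hw.qrt hr0 hrr hA
  have n1 := norm_nonneg X
  have n2 := norm_nonneg η
  obtain ⟨u, hu⟩ : ∃ u : ℝ, u = ‖X‖ + ‖η‖ := ⟨_, rfl⟩
  have hu0 : 0 ≤ u := by rw [hu]; positivity
  have hu1 : u ≤ r0 / 64 := by rw [hu]; linarith
  have hXu : ‖X‖ ≤ u := by rw [hu]; linarith
  have hηu : ‖η‖ ≤ u := by rw [hu]; linarith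
  have hH : ‖(1 / 2 : ℂ) • X‖ = ‖X‖ / 2 := norm_half' X
  -- comparison of `w` with `q4 w`
  have six : ∀ Z : gC L, ‖Z‖ ≤ u → ‖w Z - q4 w Z‖ ≤ A * u ^ 5 / r0 := by
    intro Z hZ
    refine (q4_six hw hr0 hrr hA Z (by linarith)).trans ?_
    have h1 : ‖Z‖ ^ 6 ≤ u ^ 6 := pow_le_pow_left₀ (norm_nonneg _) hZ 6
    have h2 : u ^ 6 ≤ u ^ 5 * (r0 / 32) := by
      rw [pow_succ]
      exact mul_le_mul_of_nonneg_left (by linarith) (by positivity)
    have h3 : 32 * A / r0 ^ 2 * ‖Z‖ ^ 6 ≤ 32 * A / r0 ^ 2 * (u ^ 5 * (r0 / 32)) :=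
      mul_le_mul_of_nonneg_left (h1.trans h2) (by positivity)
    have key : ∀ x : ℝ, 32 * A / r0 ^ 2 * (x ^ 5 * (r0 / 32)) = A * x ^ 5 / r0 := by
      intro x
      field_simp
    exact h3.trans (le_of_eq (key u))
  -- comparison of `bc` with the sum
  have bcl : ∀ W : gC L, ‖W‖ = ‖η‖ →
      ‖w (bc L D ((1 / 2 : ℂ) • X) W) - w ((1 / 2 : ℂ) • X + W)‖ ≤ 864 / δ * A * u ^ 5 := by
    intro W hW
    have hXδ : ‖(1 / 2 : ℂ) • X‖ < δ := by rw [hH]; linarith
    have hWδ : ‖W‖ < δ := by rw [hW]; linarith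
    have e0 := P.e0
    have e1 := P.e1
    have h1 := bc_schwarz0 P.ch hXδ hWδ
    have h2 := bc_sub_right P.ch hXδ hWδ
    have hsum : ‖(1 / 2 : ℂ) • X + W‖ ≤ u := by
      refine (norm_add_le _ _).trans ?_
      rw [hH, hW, hu]
      linarith
    have hbc : ‖bc L D ((1 / 2 : ℂ) • X) W‖ ≤ 2 * u := by
      have e : bc L D ((1 / 2 : ℂ) • X) W = (bc L D ((1 / 2 : ℂ) • X) W - (1 / 2 : ℂ) • X - W) +
          ((1 / 2 : ℂ) • X + W) := by abel
      rw [e]
      refine (norm_add_le _ _).trans ?_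
      have h3 : εg * ‖W‖ ≤ 1 * ‖W‖ := mul_le_mul_of_nonneg_right (by linarith) (norm_nonneg _)
      linarith
    have hl := w_lip hw hr0 hrr hA (bc L D ((1 / 2 : ℂ) • X) W) ((1 / 2 : ℂ) • X + W)
      (by linarith) (by linarith)
    refine hl.trans ?_
    have h4 : ‖bc L D ((1 / 2 : ℂ) • X) W - ((1 / 2 : ℂ) • X + W)‖ ≤ u ^ 2 / δ := by
      rw [← sub_sub]
      refine h1.trans ?_
      rw [hH, hW]
      have h5 : εg * (‖X‖ / 2) ≤ 1 * u := by
        apply mul_le_mul (by linarith) (by linarith) (by positivity) (by norm_num)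
      have h6 : εg * (‖X‖ / 2) * ‖η‖ ≤ u * u := by
        apply mul_le_mul (by linarith) hηu n2 hu0
      have h7 : εg * (‖X‖ / 2) / δ * ‖η‖ = εg * (‖X‖ / 2) * ‖η‖ / δ := by ring
      rw [h7, pow_two]
      exact div_le_div_of_nonneg_right h6 hδ0.le
    have h8 : (‖bc L D ((1 / 2 : ℂ) • X) W‖ + ‖(1 / 2 : ℂ) • X + W‖) ^ 3 ≤ (3 * u) ^ 3 :=
      pow_le_pow_left₀ (by positivity) (by linarith) 3
    calc _ ≤ 32 * A * (3 * u) ^ 3 * (u ^ 2 / δ) := by
          apply mul_le_mul (mul_le_mul_of_nonneg_left h8 (by positivity)) h4 (norm_nonneg _)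
            (by positivity)
      _ = 864 / δ * A * u ^ 5 := by ring
  have b1 := bcl η rfl
  have b2 := bcl (-η) (norm_neg _)
  rw [← sub_eq_add_neg] at b2
  have s1 := six ((1 / 2 : ℂ) • X + η) (by
    refine (norm_add_le _ _).trans ?_
    rw [hH, hu]; linarith)
  have s2 := six ((1 / 2 : ℂ) • X - η) (by
    refine (norm_sub_le _ _).trans ?_
    rw [hH, hu]; linarith)
  have s3 := six ((1 / 2 : ℂ) • X) (by rw [hH, hu]; linarith)
  have s4 := six η hηu
  have e : sdf D w X η - P4 w ((1 / 2 : ℂ) • X) η =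
      (w (bc L D ((1 / 2 : ℂ) • X) η) - w ((1 / 2 : ℂ) • X + η)) +
      (w (bc L D ((1 / 2 : ℂ) • X) (-η)) - w ((1 / 2 : ℂ) • X - η)) +
      (w ((1 / 2 : ℂ) • X + η) - q4 w ((1 / 2 : ℂ) • X + η)) +
      (w ((1 / 2 : ℂ) • X - η) - q4 w ((1 / 2 : ℂ) • X - η)) -
      2 * (w ((1 / 2 : ℂ) • X) - q4 w ((1 / 2 : ℂ) • X)) - 2 * (w η - q4 w η) := by
    unfold sdf P4
    ring
  rw [e]
  have t3 : ‖2 * (w ((1 / 2 : ℂ) • X) - q4 w ((1 / 2 : ℂ) • X))‖ ≤ 2 * (A * u ^ 5 / r0) := by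
    rw [norm_mul]
    have : ‖(2 : ℂ)‖ = 2 := by simp
    rw [this]
    linarith
  have t4 : ‖2 * (w η - q4 w η)‖ ≤ 2 * (A * u ^ 5 / r0) := by
    rw [norm_mul]
    have : ‖(2 : ℂ)‖ = 2 := by simp
    rw [this]
    linarith
  refine (norm_sub_le _ _).trans ?_
  refine (add_le_add ((norm_sub_le _ _).trans (add_le_add (norm_add₄_le.trans
    (add_le_add (add_le_add (add_le_add b1 b2) s1) s2)) t3)) t4).trans (le_of_eq ?_)
  rw [← hu]
  ring

/-- the structure of the second difference -/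
theorem P4_form (hs : Simple L) {n : ℕ} (hn : 0 < n) (E : Fin n → Mt m) (hE : ∀ a, E a ∈ lieSet L)
    (orth : ∀ a b, (trace ((E a)ᴴ * E b)).re = if a = b then 1 else 0)
    (full : ∀ Y ∈ lieSet L, Y ∈ Submodule.span ℝ (Set.range E)) :
    ∃ C : ℝ, 0 < C ∧ ∀ (F : Mt m → ℂ) (t A r r0 : ℝ) (w : gC L → ℂ), 0 ≤ A → 0 < r0 → r0 ≤ r →
      SFw L F t A r (r0 / 4) w → |lam E w| ≤ C * A ∧ ∀ X : gC L, imP (X : Mt m) = 0 →
        ∃ c : Fin n → Fin n → ℝ, (∀ a b, c a b = c b a) ∧ (∀ a b, |c a b| ≤ C * A * ‖X‖ ^ 2) ∧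
          (∀ η : gC L, imP (η : Mt m) = 0 → P4 w ((1 / 2 : ℂ) • X) η =
            ((∑ a, ∑ b, c a b * ipr (E a) (η : Mt m) * ipr (E b) (η : Mt m) : ℝ) : ℂ)) ∧
          ∑ a, c a a = lam E w / 4 * ‖X‖ ^ 2 := by
  have hn0 : (0 : ℝ) < n := by exact_mod_cast hn
  refine ⟨64 * n + 48, by positivity, ?_⟩
  intro F t A r r0 w hA hr0 hr hw
  have hq := hw.qrt hr0 hr hA
  -- the basis in `gC`
  obtain ⟨e, he⟩ : ∃ e : Fin n → gC L, ∀ a, e a = prj L (E a) := ⟨_, fun _ => rfl⟩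
  have hec : ∀ a, ((e a : gC L) : Mt m) = E a := fun a => by
    rw [he]; exact coe_prj L (gC_of_lie L (hE a))
  have hei : ∀ a, imP ((e a : gC L) : Mt m) = 0 := fun a => by
    rw [hec]; exact imP_of_skew (lie_skew L (hE a))
  have hen : ∀ a, ‖e a‖ = 1 := by
    intro a
    have h1 : ‖e a‖ = ‖E a‖ := by
      have : ‖e a‖ = ‖((e a : gC L) : Mt m)‖ := rfl
      rw [this, hec]
    have h2 : ‖E a‖ ^ 2 = 1 := by
      have := orth a a
      rw [if_pos rfl] at this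
      rw [norm_sq_eq, this]
    rw [h1]
    have h3 := norm_nonneg (E a)
    nlinarith
  -- expansion of Lie algebra elements
  have hexp : ∀ η : gC L, imP (η : Mt m) = 0 →
      η = ∑ b, ((ip (E b) (η : Mt m) : ℝ) : ℂ) • e b := by
    intro η hη
    apply Subtype.ext
    have h1 := Cas.expand hE orth full (mem_lieSet_of_gC L η.2 hη)
    have h2 : ((∑ b, ((ip (E b) (η : Mt m) : ℝ) : ℂ) • e b : gC L) : Mt m) =
        ∑ b, ip (E b) (η : Mt m) • E b := by
      rw [Submodule.coe_sum]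
      refine Finset.sum_congr rfl fun b _ => ?_
      have e1 : ((((ip (E b) (η : Mt m) : ℝ) : ℂ) • e b : gC L) : Mt m) =
        ((ip (E b) (η : Mt m) : ℝ) : ℂ) • ((e b : gC L) : Mt m) := rfl
      rw [e1, hec]
      exact Complex.coe_smul _ _
    rw [h2]
    exact h1
  -- the bilinear forms
  choose B hBs hB using hq.dd_form
  have hB' : ∀ x y, B x y y = P4 w x y := hB
  have hBexp : ∀ (x : gC L) (c d : Fin n → ℝ), B x (∑ a, ((c a : ℝ) : ℂ) • e a)
      (∑ b, ((d b : ℝ) : ℂ) • e b) = ∑ a, ∑ b, ((c a * d b : ℝ) : ℂ) * B x (e a) (e b) := by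
    intro x c d
    rw [map_sum (B x), LinearMap.sum_apply]
    refine Finset.sum_congr rfl fun a _ => ?_
    rw [map_sum]
    refine Finset.sum_congr rfl fun b _ => ?_
    rw [map_smul, map_smul, LinearMap.smul_apply, smul_eq_mul, smul_eq_mul]
    push_cast
    ring
  have hpol : ∀ x y z : gC L, B x y z = (P4 w x (y + z) - P4 w x y - P4 w x z) / 2 := by
    intro x y z
    rw [← hB', ← hB', ← hB', map_add (B x (y + z)), map_add (B x), LinearMap.add_apply,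
      LinearMap.add_apply, hBs x z y]
    ring
  have hBreal : ∀ x y z : gC L, imP (x : Mt m) = 0 → imP (y : Mt m) = 0 → imP (z : Mt m) = 0 →
      (B x y z).im = 0 := by
    intro x y z hx hy hz
    have hyz : imP ((y + z : gC L) : Mt m) = 0 := by
      have e1 : ((y + z : gC L) : Mt m) = (y : Mt m) + (z : Mt m) := rfl
      rw [e1, imP_add, hy, hz, add_zero]
    have h1 := P4_real hw hr0 hr hA x (y + z) hx hyz
    have h2 := P4_real hw hr0 hr hA x y hx hy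
    have h3 := P4_real hw hr0 hr hA x z hx hz
    rw [hpol]
    have e2 : (P4 w x (y + z) - P4 w x y - P4 w x z) / 2 =
        (P4 w x (y + z) - P4 w x y - P4 w x z) / ((2 : ℝ) : ℂ) := by norm_num
    rw [e2, Complex.div_ofReal_im, Complex.sub_im, Complex.sub_im, h1, h2, h3]
    norm_num
  -- the sum over the basis
  obtain ⟨q, hqd⟩ : ∃ q : gC L →ₗ[ℂ] gC L →ₗ[ℂ] ℂ, q = ∑ a, B (e a) := ⟨_, rfl⟩
  have hqa : ∀ x y, q x y = ∑ a, B (e a) x y := by
    intro x y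
    rw [hqd, LinearMap.sum_apply, LinearMap.sum_apply]
  have hqP : ∀ x, q x x = ∑ a, P4 w x (e a) := by
    intro x
    rw [hqa]
    refine Finset.sum_congr rfl fun a _ => ?_
    rw [hB']
    exact hq.dd_symm _ _
  -- independence of the basis
  have hinv : ∀ g : G, ∀ Z Z' : gC L, (Z' : Mt m) = L.rho g * (Z : Mt m) * L.rho g⁻¹ →
      q Z' Z' = q Z Z := by
    intro g Z Z' hZ
    set f : Fin n → Mt m := fun a => L.rho g⁻¹ * E a * L.rho g with hfd
    have hfl : ∀ a, f a ∈ lieSet L := by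
      intro a
      have := lie_conj L g⁻¹ (hE a)
      rwa [inv_inv] at this
    set f' : Fin n → gC L := fun a => ⟨f a, gC_of_lie L (hfl a)⟩ with hf'
    have hf'i : ∀ a, imP ((f' a : gC L) : Mt m) = 0 := fun a => imP_of_skew (lie_skew L (hfl a))
    have h1 : ∀ a, P4 w Z' (e a) = P4 w Z (f' a) := by
      intro a
      refine P4_ad hw hr0 hr hA g Z Z' (f' a) (e a) hZ ?_
      rw [hec]
      show E a = L.rho g * (L.rho g⁻¹ * E a * L.rho g) * L.rho g⁻¹
      have e1 : L.rho g * (L.rho g⁻¹ * E a * L.rho g) * L.rho g⁻¹ =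
          (L.rho g * L.rho g⁻¹) * E a * (L.rho g * L.rho g⁻¹) := by noncomm_ring
      rw [e1, rho_mul_inv, one_mul, mul_one]
    set O : Matrix (Fin n) (Fin n) ℝ := fun a b => ip (E b) (f a) with hO
    have hfo : ∀ a b, ip (f a) (f b) = if a = b then 1 else 0 := by
      intro a b
      rw [← Cas.ip_orth hE orth a b]
      unfold ip
      congr 2
      have := Cas.trace_conj (L := L) g⁻¹ (E a) (E b)
      rwa [inv_inv] at this
    have hOO : Oᵀ * O = 1 := by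
      rw [mul_eq_one_comm]
      ext a c
      rw [Matrix.mul_apply, Matrix.one_apply, ← hfo a c]
      conv_rhs => rw [Cas.expand hE orth full (hfl a), Cas.ip_sum]
      refine Finset.sum_congr rfl fun b _ => ?_
      rw [ip_smul]
      rfl
    have h2 : ∀ a, P4 w Z (f' a) = ∑ b, ∑ c, ((O a b * O a c : ℝ) : ℂ) * B Z (e b) (e c) := by
      intro a
      rw [← hB', hexp (f' a) (hf'i a)]
      exact hBexp Z (fun b => O a b) (fun b => O a b)
    rw [hqP, hqP]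
    simp only [h1, h2]
    rw [Finset.sum_comm]
    refine Finset.sum_congr rfl fun b _ => ?_
    rw [Finset.sum_comm]
    have h3 : ∀ c, ∑ a, ((O a b * O a c : ℝ) : ℂ) * B Z (e b) (e c) =
        if b = c then B Z (e b) (e b) else 0 := by
      intro c
      rw [← Finset.sum_mul, ← Complex.ofReal_sum]
      have h4 : ∑ a, O a b * O a c = if b = c then 1 else 0 := by
        have := congrFun (congrFun hOO b) c
        rw [Matrix.mul_apply, Matrix.one_apply] at this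
        simpa only [transpose_apply] using this
      rw [h4]
      split_ifs with h
      · rw [h]; simp
      · simp
    simp only [h3, Finset.sum_ite_eq, Finset.mem_univ, if_true]
    exact hB' _ _
  obtain ⟨κ, hκ⟩ := schur L hs q (fun x y => by
      rw [hqa, hqa]
      exact Finset.sum_congr rfl fun a _ => hBs _ _ _) hinv (fun Z hZ => by
      rw [hqa, Complex.im_sum]
      exact Finset.sum_eq_zero fun a _ => hBreal _ _ _ (hei a) hZ hZ)
  have hκ' : ∀ x : gC L, imP (x : Mt m) = 0 → (∑ a, P4 w x (e a)).re = κ * ‖x‖ ^ 2 := by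
    intro x hx
    rw [← hqP, hκ, Complex.re_ofReal_mul, Qf_re, hx, norm_zero,
      reP_of_skew (lie_skew L (mem_lieSet_of_gC L x.2 hx))]
    have e1 : ‖(x : Mt m)‖ = ‖x‖ := rfl
    rw [e1]
    ring
  have hlam : lam E w = κ := by
    unfold lam
    simp only [← he]
    have h1 : (∑ a, ∑ b, P4 w (e a) (e b)).re = ∑ a : Fin n, κ := by
      rw [Complex.re_sum]
      refine Finset.sum_congr rfl fun a _ => ?_
      rw [hκ' _ (hei a), hen]
      ring
    rw [h1, Finset.sum_const, Finset.card_univ, Fintype.card_fin, nsmul_eq_mul]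
    field_simp
  have hP4 : ∀ x y : gC L, ‖P4 w x y‖ ≤ 64 * A * ‖x‖ ^ 2 * ‖y‖ ^ 2 := hq.dd_bound
  refine ⟨?_, ?_⟩
  · have a0 : Fin n := ⟨0, hn⟩
    have h1 := hκ' (e a0) (hei a0)
    rw [hen, one_pow, mul_one] at h1
    rw [hlam, ← h1]
    refine (Complex.abs_re_le_norm _).trans ((norm_sum_le _ _).trans ?_)
    have h2 : ∑ a : Fin n, ‖P4 w (e a0) (e a)‖ ≤ ∑ a : Fin n, 64 * A := by
      refine Finset.sum_le_sum fun a _ => ?_
      refine (hP4 _ _).trans (le_of_eq ?_)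
      rw [hen, hen]
      ring
    refine h2.trans ?_
    rw [Finset.sum_const, Finset.card_univ, Fintype.card_fin, nsmul_eq_mul]
    nlinarith
  · intro X hX
    obtain ⟨x, hx⟩ : ∃ x : gC L, x = (1 / 2 : ℂ) • X := ⟨_, rfl⟩
    have hxi : imP (x : Mt m) = 0 := by
      rw [hx, coe_half, imP_half, hX, smul_zero]
    have hxn : ‖x‖ = ‖X‖ / 2 := by rw [hx]; exact norm_half' X
    rw [← hx]
    have hre : ∀ a b, B x (e a) (e b) = (((B x (e a) (e b)).re : ℝ) : ℂ) := by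
      intro a b
      apply Complex.ext
      · rw [Complex.ofReal_re]
      · rw [Complex.ofReal_im, hBreal _ _ _ hxi (hei a) (hei b)]
    refine ⟨fun a b => (B x (e a) (e b)).re, fun a b => ?_, fun a b => ?_, fun η hη => ?_, ?_⟩
    · show (B x (e a) (e b)).re = (B x (e b) (e a)).re
      rw [hBs]
    · show |(B x (e a) (e b)).re| ≤ _
      refine (Complex.abs_re_le_norm _).trans ?_
      rw [hpol, norm_div]
      have h1 := hP4 x (e a + e b)
      have h2 := hP4 x (e a)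
      have h3 := hP4 x (e b)
      have h4 : ‖e a + e b‖ ^ 2 ≤ 2 ^ 2 := by
        refine pow_le_pow_left₀ (norm_nonneg _) ((norm_add_le _ _).trans ?_) 2
        rw [hen, hen]; norm_num
      rw [hen, one_pow, mul_one] at h2 h3
      have h5 : 0 ≤ 64 * A * ‖x‖ ^ 2 := by positivity
      have h6 : ‖P4 w x (e a + e b)‖ ≤ 64 * A * ‖x‖ ^ 2 * 4 :=
        h1.trans (mul_le_mul_of_nonneg_left (h4.trans (by norm_num)) h5)
      have h7 : ‖P4 w x (e a + e b) - P4 w x (e a) - P4 w x (e b)‖ ≤ 64 * A * ‖x‖ ^ 2 * 6 :=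
        (norm_sub_le _ _).trans (by linarith [norm_sub_le (P4 w x (e a + e b)) (P4 w x (e a))])
      have h8 : ‖(2 : ℂ)‖ = 2 := by simp
      rw [h8, div_le_iff₀ (by norm_num)]
      refine h7.trans ?_
      rw [hxn]
      have h9 : 0 ≤ A * ‖X‖ ^ 2 := by positivity
      have h10 : 0 ≤ n * (A * ‖X‖ ^ 2) := by positivity
      nlinarith
    · show P4 w x η = ((∑ a, ∑ b, (B x (e a) (e b)).re * ipr (E a) (η : Mt m) *
        ipr (E b) (η : Mt m) : ℝ) : ℂ)
      have hii : ∀ a, ip (E a) (η : Mt m) = ipr (E a) (η : Mt m) := by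
        intro a
        unfold ip ipr
        rw [lie_skew L (hE a), neg_mul, trace_neg, Complex.neg_re]
      rw [← hB']
      conv_lhs => rw [hexp η hη]
      rw [hBexp]
      push_cast
      refine Finset.sum_congr rfl fun a _ => Finset.sum_congr rfl fun b _ => ?_
      rw [hii, hii, ← hre a b]
      ring
    · show ∑ a, (B x (e a) (e a)).re = _
      have h1 := hκ' x hxi
      rw [Complex.re_sum] at h1
      simp only [hB']
      rw [h1, hlam, hxn]
      ring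

end

end Pool.Agent.T2H04.HY
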