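import Mathlib
import Pool.Agent.T2H04.HY.Drift
import Pool.Agent.T2H04.HY.Tl0

/-!
# Moments and tails (first part of the package C1)
-/

open MeasureTheory Matrix Filter
open scoped Matrix.Norms.Frobenius Topology

namespace Pool.Agent.T2H04.HY

set_option linter.unusedSectionVars false

noncomputable section

variable {G : Type} [Group G] [TopologicalSpace G] [IsTopologicalGroup G] [CompactSpace G]
  [MeasurableSpace G] [BorelSpace G] {μ : Measure G} [μ.IsHaarMeasure] [IsProbabilityMeasure μ]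
  {m : Type} [Fintype m] [DecidableEq m] {L : RD G m}

namespace Tlc

/-- monomials are dominated by the exponential -/
theorem pow_exp_le (k : ℕ) : ∃ C : ℝ, 0 < C ∧ ∀ v : ℝ, 0 ≤ v →
    v ^ k * Real.exp (-(v ^ 2 / 4)) ≤ C := by
  refine ⟨1 + 4 ^ k * k.factorial, by positivity, fun v hv => ?_⟩
  have hE : Real.exp (-(v ^ 2 / 4)) ≤ 1 := Real.exp_le_one_iff.2 (by nlinarith [sq_nonneg v])
  have hE0 := Real.exp_pos (-(v ^ 2 / 4))
  rcases le_total v 1 with h | h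
  · have h1 : v ^ k ≤ 1 := pow_le_one₀ hv h
    have h2 : v ^ k * Real.exp (-(v ^ 2 / 4)) ≤ 1 * 1 :=
      mul_le_mul h1 hE hE0.le zero_le_one
    have h3 : (0 : ℝ) ≤ 4 ^ k * k.factorial := by positivity
    linarith
  · have h1 : v ^ k ≤ (v ^ 2) ^ k := pow_le_pow_left₀ hv (by nlinarith) k
    have h2 : (v ^ 2 / 4) ^ k / k.factorial ≤ Real.exp (v ^ 2 / 4) :=
      Real.pow_div_factorial_le_exp _ (by positivity) k
    have h3 : (v ^ 2) ^ k ≤ 4 ^ k * k.factorial * Real.exp (v ^ 2 / 4) := by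
      rw [div_le_iff₀ (by positivity), div_pow, div_le_iff₀ (by positivity)] at h2
      linarith
    have h4 : Real.exp (v ^ 2 / 4) * Real.exp (-(v ^ 2 / 4)) = 1 := by
      rw [← Real.exp_add]; simp
    calc v ^ k * Real.exp (-(v ^ 2 / 4))
        ≤ (4 ^ k * k.factorial * Real.exp (v ^ 2 / 4)) * Real.exp (-(v ^ 2 / 4)) :=
          mul_le_mul_of_nonneg_right (h1.trans h3) hE0.le
      _ = 4 ^ k * k.factorial := by rw [mul_assoc, h4, mul_one]
      _ ≤ _ := by linarith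

section

variable {D : LogData m} {εg δ r0 r s b r' : ℝ} (P : Par L D εg δ r0 r s b r')
    {F : Mt m → ℂ} {t A : ℝ} (cl : Cls L F t A r (r0 / 4) s b (1 / 10000))
    (ht : 0 < t) (hA : 0 ≤ A) (hAt : A * t ≤ 1 / 10)

include P cl ht hA hAt in
theorem f1_le (ht3 : t ≤ r0 ^ 2 / 1000) :
    (F 1).re ^ 2 * μ.real (bal L (Real.sqrt t)) ≤ 3 * ∫ y, res L F y ^ 2 ∂μ := by
  have hr0 := P.r0_pos
  have hst : Real.sqrt t < r0 / 20 := by
    rw [Real.sqrt_lt' (by positivity)]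
    have h2 : 0 < r0 ^ 2 := by positivity
    nlinarith
  obtain ⟨w, hw⟩ := cl.sf
  have hlow := ccv_one_lower μ P cl hw ht hA hAt hst
  have hVe := Dri.ccv_one_int (μ := μ) cl
  rw [hVe, Complex.ofReal_re] at hlow
  have hexp : (1 / 3 : ℝ) ≤ Real.exp (-(51 / 50)) := by
    rw [Real.exp_neg, ← one_div, div_le_div_iff₀ (by norm_num) (Real.exp_pos _), one_mul, one_mul]
    have e1 : Real.exp (51 / 50) = Real.exp 1 * Real.exp (1 / 50) := by
      rw [← Real.exp_add]; norm_num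
    have e2 : Real.exp (1 / 50) ≤ 1 + 2 * (1 / 50) := by
      have := Real.exp_bound' (x := 1 / 50) (by norm_num) (by norm_num) (n := 2) (by norm_num)
      refine this.trans ?_
      norm_num [Finset.sum_range_succ]
    have e3 := Real.exp_one_lt_d9
    rw [e1]
    have := Real.exp_pos (1 / 50)
    nlinarith
  have hmu := bal_pos μ L (Real.sqrt t) (Real.sqrt_pos.2 ht)
  have h1 : (F 1).re ^ 2 * (1 / 3) * μ.real (bal L (Real.sqrt t)) ≤
      (F 1).re ^ 2 * Real.exp (-(51 / 50)) * μ.real (bal L (Real.sqrt t)) :=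
    mul_le_mul_of_nonneg_right (mul_le_mul_of_nonneg_left hexp (sq_nonneg _)) hmu.le
  linarith

include P cl ht hA hAt in
/-- the pointwise bound for the moments -/
theorem mom_pt {k : ℕ} {C : ℝ} (hC : ∀ v : ℝ, 0 ≤ v → v ^ k * Real.exp (-(v ^ 2 / 4)) ≤ C)
    (hC0 : 0 ≤ C) {y : G} (hy : dis L y < r0 / 20) :
    ‖Dri.et L D y‖ ^ k * res L F y ^ 2 ≤ (F 1).re ^ 2 * (2 ^ k * Real.sqrt t ^ k * C) *
      ((1 + dis L y ^ 2 / t + (dis L y ^ 2 / t) ^ 2) *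
        Real.exp (-(1 / 4 * dis L y ^ 2 / t))) := by
  have hr0 := P.r0_pos
  have hδ := P.r0_δ
  have he0 := P.e0
  have he1 := P.e1
  have hd0 : 0 ≤ dis L y := norm_nonneg _
  have h1 := Dri.et_norm P.ch (y := y) (by linarith)
  have h2 : ‖Dri.et L D y‖ ≤ 2 * dis L y := by nlinarith
  have h3 := Dri.res_le' P cl ht hA hAt hy
  have hs : 0 < Real.sqrt t := Real.sqrt_pos.2 ht
  obtain ⟨v, hv⟩ : ∃ v, v = dis L y / Real.sqrt t := ⟨_, rfl⟩
  obtain ⟨hm1, hm2, hv0⟩ := cv_mom hd0 ht hv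
  have h4 : ‖Dri.et L D y‖ ^ k ≤ 2 ^ k * Real.sqrt t ^ k * v ^ k := by
    have := pow_le_pow_left₀ (norm_nonneg _) h2 k
    rw [hm1, mul_pow, mul_pow] at this
    linarith
  have e1 : Real.exp (-(1 / 2 * dis L y ^ 2 / t)) =
      Real.exp (-(v ^ 2 / 4)) * Real.exp (-(1 / 4 * dis L y ^ 2 / t)) := by
    rw [← Real.exp_add]
    congr 1
    rw [mul_div_assoc, mul_div_assoc, hm2]
    ring
  have hE0 := Real.exp_pos (-(1 / 4 * dis L y ^ 2 / t))
  have h5 : 1 ≤ 1 + dis L y ^ 2 / t + (dis L y ^ 2 / t) ^ 2 := by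
    have : 0 ≤ dis L y ^ 2 / t := by positivity
    have := sq_nonneg (dis L y ^ 2 / t)
    linarith
  calc ‖Dri.et L D y‖ ^ k * res L F y ^ 2
      ≤ (2 ^ k * Real.sqrt t ^ k * v ^ k) *
        ((F 1).re ^ 2 * Real.exp (-(1 / 2 * dis L y ^ 2 / t))) :=
        mul_le_mul h4 h3 (sq_nonneg _) (by positivity)
    _ = (F 1).re ^ 2 * (2 ^ k * Real.sqrt t ^ k) * (v ^ k * Real.exp (-(v ^ 2 / 4))) *
        Real.exp (-(1 / 4 * dis L y ^ 2 / t)) := by rw [e1]; ring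
    _ ≤ (F 1).re ^ 2 * (2 ^ k * Real.sqrt t ^ k) * C *
        Real.exp (-(1 / 4 * dis L y ^ 2 / t)) :=
        mul_le_mul_of_nonneg_right (mul_le_mul_of_nonneg_left (hC v hv0) (by positivity)) hE0.le
    _ = (F 1).re ^ 2 * (2 ^ k * Real.sqrt t ^ k * C) *
        (1 * Real.exp (-(1 / 4 * dis L y ^ 2 / t))) := by ring
    _ ≤ _ := mul_le_mul_of_nonneg_left (mul_le_mul_of_nonneg_right h5 hE0.le) (by positivity)

end

end Tlc

theorem momk {D : LogData m} {εg δ r0 r s b r' : ℝ} (P : Par L D εg δ r0 r s b r') (k : ℕ) :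
    ∃ C ts : ℝ, 0 < C ∧ 0 < ts ∧ ∀ (F : Mt m → ℂ) (t A : ℝ), 0 < t → t ≤ ts → 0 ≤ A →
      A * t ≤ 1 / 10 → Cls L F t A r (r0 / 4) s b (1 / 10000) → ∀ ρ ≤ r0 / 20,
        ∫ y in bal L ρ, ‖Dri.et L D y‖ ^ k * res L F y ^ 2 ∂μ ≤
          C * Real.sqrt t ^ k * ∫ y, res L F y ^ 2 ∂μ := by
  have hr0 := P.r0_pos
  obtain ⟨Cm, hCm0, hCm⟩ := gauss_moment μ L (1 / 4) (by norm_num)
  obtain ⟨C, hC0, hC⟩ := Tlc.pow_exp_le k
  refine ⟨3 * (2 ^ k * C) * Cm, r0 ^ 2 / 1000, by positivity, by positivity, ?_⟩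
  intro F t A ht hts hA hAt cl ρ hρ
  have hlt : ∀ y ∈ (bal L ρ : Set G), dis L y < r0 / 20 := fun y hy => lt_of_lt_of_le hy hρ
  have hB : MeasurableSet (bal L ρ : Set G) := (isOpen_bal L ρ).measurableSet
  have hf := Tlc.f1_le (μ := μ) P cl ht hA hAt hts
  set Wf : G → ℝ := fun y => (1 + dis L y ^ 2 / t + (dis L y ^ 2 / t) ^ 2) *
        Real.exp (-(1 / 4 * dis L y ^ 2 / t)) with hWf
  have hWc : Continuous Wf := by
    have h : Continuous (dis L) := (L.cont.sub continuous_const).norm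
    rw [hWf]
    fun_prop
  have hW0 : ∀ y, 0 ≤ Wf y := fun y => by
    rw [hWf]
    positivity
  have hWi : Integrable Wf μ := intg μ hWc
  have h1 : ∫ y in bal L ρ, ‖Dri.et L D y‖ ^ k * res L F y ^ 2 ∂μ ≤
      ∫ y in bal L ρ, (F 1).re ^ 2 * (2 ^ k * Real.sqrt t ^ k * C) * Wf y ∂μ := by
    refine setIntegral_mono_on ?_ (hWi.const_mul _).integrableOn hB ?_
    · refine Dri.intg_on hB ?_ (1 * (F 1).re ^ 2) ?_
      · exact (((Dri.et_contOn P hρ).norm).pow k).mul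
          ((res_cont L cl.diff).pow 2).continuousOn
      · intro y hy
        rw [norm_mul, norm_pow, norm_pow, norm_norm, Real.norm_eq_abs, sq_abs]
        exact mul_le_mul (pow_le_one₀ (norm_nonneg _) (Dri.et_le_one P (hlt y hy)))
          (Dri.res_le P cl ht hA hAt y) (sq_nonneg _) zero_le_one
    · intro y hy
      exact Tlc.mom_pt P cl ht hA hAt hC hC0.le (hlt y hy)
  have h2 : ∫ y in bal L ρ, (F 1).re ^ 2 * (2 ^ k * Real.sqrt t ^ k * C) * Wf y ∂μ ≤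
      ∫ y, (F 1).re ^ 2 * (2 ^ k * Real.sqrt t ^ k * C) * Wf y ∂μ :=
    setIntegral_le_integral (hWi.const_mul _) (Filter.Eventually.of_forall fun y => by
      have := hW0 y
      show 0 ≤ (F 1).re ^ 2 * (2 ^ k * Real.sqrt t ^ k * C) * Wf y
      positivity)
  have h2' : ∫ y, (F 1).re ^ 2 * (2 ^ k * Real.sqrt t ^ k * C) * Wf y ∂μ =
      (F 1).re ^ 2 * (2 ^ k * Real.sqrt t ^ k * C) * ∫ y, Wf y ∂μ := integral_const_mul _ _
  rw [h2'] at h2
  have h3 : ∫ y, Wf y ∂μ ≤ Cm * μ.real (bal L (Real.sqrt t)) := hCm t ht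
  calc _ ≤ _ := h1.trans h2
    _ ≤ (F 1).re ^ 2 * (2 ^ k * Real.sqrt t ^ k * C) * (Cm * μ.real (bal L (Real.sqrt t))) :=
        mul_le_mul_of_nonneg_left h3 (by positivity)
    _ = (2 ^ k * Real.sqrt t ^ k * C) * Cm * ((F 1).re ^ 2 * μ.real (bal L (Real.sqrt t))) := by
        ring
    _ ≤ (2 ^ k * Real.sqrt t ^ k * C) * Cm * (3 * ∫ y, res L F y ^ 2 ∂μ) :=
        mul_le_mul_of_nonneg_left hf (by positivity)
    _ = _ := by ring

theorem tail2 {D : LogData m} {εg δ r0 r s b r' : ℝ} (P : Par L D εg δ r0 r s b r') {ρ : ℝ}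
    (hρ : 0 < ρ) (hρ1 : ρ ≤ r0 / 20) :
    ∃ C ts : ℝ, 0 < C ∧ 0 < ts ∧ ∀ (F : Mt m → ℂ) (t A : ℝ), 0 < t → t ≤ ts → 0 ≤ A →
      A * t ≤ 1 / 10 → Cls L F t A r (r0 / 4) s b (1 / 10000) →
        ∫ y in (bal L ρ : Set G)ᶜ, res L F y ^ 2 ∂μ ≤ C * t ^ 3 * ∫ y, res L F y ^ 2 ∂μ := by
  have hr0 := P.r0_pos
  obtain ⟨Ct, hCt, htail⟩ := Dri.tail_le μ L (ρ ^ 2 / 2) (by positivity)
  refine ⟨3 * Ct, min 1 (r0 ^ 2 / 1000), by positivity, by positivity, ?_⟩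
  intro F t A ht hts hA hAt cl
  have ht1 : t ≤ 1 := hts.trans (min_le_left _ _)
  have ht3 : t ≤ r0 ^ 2 / 1000 := hts.trans (min_le_right _ _)
  have hf := Tlc.f1_le (μ := μ) P cl ht hA hAt ht3
  have hB : MeasurableSet ((bal L ρ : Set G)ᶜ) := (isOpen_bal L ρ).measurableSet.compl
  have hc : Continuous fun y => (res L F y) ^ 2 := (res_cont L cl.diff).pow 2
  have h1 : ∫ y in (bal L ρ : Set G)ᶜ, res L F y ^ 2 ∂μ ≤
      ∫ y in (bal L ρ : Set G)ᶜ, (F 1).re ^ 2 * Real.exp (-(ρ ^ 2 / 2 / t)) ∂μ := by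
    refine setIntegral_mono_on (intg μ hc).integrableOn (integrable_const _).integrableOn hB ?_
    intro y hy
    have hy' : ρ ≤ dis L y := not_lt.1 hy
    rw [res_sq cl.real]
    refine (Dri.F_sq_le P cl ht hA hAt hρ.le hρ1 hy').trans (le_of_eq ?_)
    congr 4
    ring
  have h2 : ∫ y in (bal L ρ : Set G)ᶜ, (F 1).re ^ 2 * Real.exp (-(ρ ^ 2 / 2 / t)) ∂μ ≤
      (F 1).re ^ 2 * Real.exp (-(ρ ^ 2 / 2 / t)) := by
    rw [setIntegral_const, smul_eq_mul]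
    exact mul_le_of_le_one_left (by positivity) (measureReal_le_one)
  have h3 := htail t ht ht1
  calc _ ≤ _ := h1.trans h2
    _ ≤ (F 1).re ^ 2 * (Ct * t ^ 3 * μ.real (bal L (Real.sqrt t))) :=
        mul_le_mul_of_nonneg_left h3 (sq_nonneg _)
    _ = Ct * t ^ 3 * ((F 1).re ^ 2 * μ.real (bal L (Real.sqrt t))) := by ring
    _ ≤ Ct * t ^ 3 * (3 * ∫ y, res L F y ^ 2 ∂μ) := mul_le_mul_of_nonneg_left hf (by positivity)
    _ = _ := by ring

end

end Pool.Agent.T2H04.HY
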