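import Mathlib
import Pool.Agent.T2H04.HY.TlC1a

/-!
# Moments and integration by parts in logarithmic coordinates (package C1)
-/

open MeasureTheory Matrix Filter
open scoped Matrix.Norms.Frobenius Topology

namespace Pool.Agent.T2H04.HY

set_option linter.unusedSectionVars false

noncomputable section

variable {G : Type} [Group G] [TopologicalSpace G] [IsTopologicalGroup G] [CompactSpace G]
  [MeasurableSpace G] [BorelSpace G] {μ : Measure G} [μ.IsHaarMeasure] [IsProbabilityMeasure μ]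
  {m : Type} [Fintype m] [DecidableEq m] {L : RD G m}

namespace Tlc

/-! ### the general integration by parts -/

theorem g_zero {X : Mt m} {g : ℝ → G} (hg : ∀ s, L.rho (g s) = NormedSpace.exp (s • X)) :
    g 0 = 1 := by
  apply L.inj
  rw [hg, zero_smul, NormedSpace.exp_zero, map_one]

theorem g_add {X : Mt m} {g : ℝ → G} (hg : ∀ s, L.rho (g s) = NormedSpace.exp (s • X))
    (s u : ℝ) : g (s + u) = g u * g s := by
  apply L.inj
  rw [map_mul, hg, hg, hg, ← Matrix.exp_add_of_commute _ _ (((Commute.refl X).smul_left _).smul_right _),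
    ← add_smul, add_comm]

/-- if `h` is differentiable along the left translations by `exp (s X)`, the derivative has integral
zero -/
theorem ibp_gen {X : Mt m} {g : ℝ → G}
    (hg : ∀ s, L.rho (g s) = NormedSpace.exp (s • X)) {h d : G → ℝ} (hh : Continuous h)
    {M : ℝ} (hM : ∀ y, |d y| ≤ M) (hd : ∀ y, HasDerivAt (fun s => h (g s * y)) (d y) 0) :
    AEStronglyMeasurable d μ ∧ ∫ y, d y ∂μ = 0 := by
  have hd' : ∀ s y, HasDerivAt (fun s => h (g s * y)) (d (g s * y)) s := by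
    intro s y
    have h1 : HasDerivAt (fun u => h (g (s + u) * y)) (d (g s * y)) (s - s) := by
      rw [sub_self]
      have h2 := hd (g s * y)
      have e : (fun u => h (g (s + u) * y)) = fun u => h (g u * (g s * y)) := by
        funext u
        rw [g_add hg, mul_assoc]
      rw [e]
      exact h2
    have h3 := h1.comp_sub_const s s
    have e : (fun x => h (g (s + (x - s)) * y)) = fun x => h (g x * y) := by
      funext x
      rw [add_sub_cancel]
    rw [e] at h3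
    exact h3
  have hmul : ∀ s, Continuous fun y => h (g s * y) := fun s =>
    hh.comp (continuous_const.mul continuous_id)
  have hdm : AEStronglyMeasurable d μ := by
    have hs : Tendsto (fun n : ℕ => (1 / ((n : ℝ) + 1))) atTop (𝓝[≠] 0) := by
      refine tendsto_nhdsWithin_iff.2 ⟨tendsto_one_div_add_atTop_nhds_zero_nat, ?_⟩
      refine Filter.Eventually.of_forall fun n => ?_
      have : (0 : ℝ) < 1 / ((n : ℝ) + 1) := by positivity
      exact this.ne'
    refine aestronglyMeasurable_of_tendsto_ae (u := atTop) (f := fun (n : ℕ) y =>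
      (1 / ((n : ℝ) + 1))⁻¹ * (h (g (1 / ((n : ℝ) + 1)) * y) - h y)) ?_ ?_
    · intro n
      exact (continuous_const.mul ((hmul _).sub hh)).aestronglyMeasurable
    · refine Filter.Eventually.of_forall fun y => ?_
      have h1 := (hd y).tendsto_slope_zero.comp hs
      refine h1.congr fun n => ?_
      simp only [Function.comp_def, zero_add, g_zero hg, one_mul, smul_eq_mul]
  refine ⟨hdm, ?_⟩
  have h0 : ∀ s, ∫ y, h (g s * y) ∂μ = ∫ y, h y ∂μ := fun s => fw_int_left μ h (g s)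
  have key := (hasDerivAt_integral_of_dominated_loc_of_deriv_le (μ := μ)
    (F := fun s y => h (g s * y)) (F' := fun s y => d (g s * y)) (x₀ := (0 : ℝ))
    (bound := fun _ => M) (Metric.ball_mem_nhds (0 : ℝ) one_pos)
    (Filter.Eventually.of_forall fun s => (hmul s).aestronglyMeasurable)
    (fw_int_cont μ (hmul 0)) (by
      have e : (fun y => d (g 0 * y)) = d := by
        funext y; rw [g_zero hg, one_mul]
      rw [e]
      exact hdm)
    (Filter.Eventually.of_forall fun y s _ => hM _)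
    (integrable_const M) (Filter.Eventually.of_forall fun y s _ => hd' s y)).2
  have h7 : HasDerivAt (fun s : ℝ => ∫ y, h (g s * y) ∂μ) 0 0 := by
    have : (fun s : ℝ => ∫ y, h (g s * y) ∂μ) = fun _ => ∫ y, h y ∂μ := funext h0
    rw [this]
    exact hasDerivAt_const _ _
  have h8 := key.unique h7
  simp only [g_zero hg, one_mul] at h8
  exact h8

/-! ### the cutoff -/

/-- the cutoff: `1` for `u ≤ ρ² / 4`, `0` for `u ≥ ρ² / 2` -/
def cut (ρ u : ℝ) : ℝ := Real.smoothTransition (2 - 4 * u / ρ ^ 2)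

theorem cut_nonneg (ρ u : ℝ) : 0 ≤ cut ρ u := Real.smoothTransition.nonneg _

theorem cut_le_one (ρ u : ℝ) : cut ρ u ≤ 1 := Real.smoothTransition.le_one _

theorem cut_one {ρ u : ℝ} (hρ : 0 < ρ) (hu : u ≤ ρ ^ 2 / 4) : cut ρ u = 1 := by
  refine Real.smoothTransition.one_of_one_le ?_
  have : 4 * u / ρ ^ 2 ≤ 1 := by
    rw [div_le_one (by positivity)]; linarith
  linarith

theorem cut_zero {ρ u : ℝ} (hρ : 0 < ρ) (hu : ρ ^ 2 / 2 ≤ u) : cut ρ u = 0 := by
  refine Real.smoothTransition.zero_of_nonpos ?_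
  have : 2 ≤ 4 * u / ρ ^ 2 := by
    rw [le_div_iff₀ (by positivity)]; linarith
  linarith

theorem cut_cont (ρ : ℝ) : Continuous (cut ρ) := by
  unfold cut
  exact Real.smoothTransition.continuous.comp (by fun_prop)

theorem smt_deriv : ∃ K : ℝ, 0 < K ∧ ∀ x, ∃ c, |c| ≤ K ∧
    HasDerivAt Real.smoothTransition c x := by
  have hd : Differentiable ℝ Real.smoothTransition :=
    (Real.smoothTransition.contDiff (n := 1)).differentiable one_ne_zero
  have hc : Continuous (deriv Real.smoothTransition) :=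
    (Real.smoothTransition.contDiff (n := 1)).continuous_deriv le_rfl
  obtain ⟨M, hM⟩ := (isCompact_Icc (a := (-1 : ℝ)) (b := 2)).exists_bound_of_continuousOn
    hc.continuousOn
  refine ⟨|M| + 1, by positivity, fun x => ⟨deriv Real.smoothTransition x, ?_,
    (hd x).hasDerivAt⟩⟩
  by_cases h1 : x < 0
  · have h2 : Real.smoothTransition =ᶠ[𝓝 x] fun _ => 0 := by
      filter_upwards [Iio_mem_nhds h1] with z hz
      exact Real.smoothTransition.zero_of_nonpos (le_of_lt hz)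
    rw [h2.deriv_eq, deriv_const, abs_zero]
    positivity
  · by_cases h3 : 1 < x
    · have h2 : Real.smoothTransition =ᶠ[𝓝 x] fun _ => 1 := by
        filter_upwards [Ioi_mem_nhds h3] with z hz
        exact Real.smoothTransition.one_of_one_le (le_of_lt hz)
      rw [h2.deriv_eq, deriv_const, abs_zero]
      positivity
    · have := hM x ⟨by linarith [not_lt.1 h1], by linarith [not_lt.1 h3]⟩
      rw [Real.norm_eq_abs] at this
      exact this.trans ((le_abs_self M).trans (by linarith))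

/-- the derivative of the cutoff -/
theorem cut_deriv {ρ : ℝ} (hρ : 0 < ρ) : ∃ K : ℝ, 0 < K ∧ ∀ u, ∃ c, |c| ≤ K ∧
    (u < ρ ^ 2 / 4 → c = 0) ∧ HasDerivAt (cut ρ) c u := by
  obtain ⟨K, hK, h⟩ := smt_deriv
  refine ⟨K * (4 / ρ ^ 2), by positivity, fun u => ?_⟩
  obtain ⟨c, hc, hd⟩ := h (2 - 4 * u / ρ ^ 2)
  have h1 : HasDerivAt (fun u : ℝ => 2 - 4 * u / ρ ^ 2) (-(4 / ρ ^ 2)) u := by
    have h2 := (((hasDerivAt_id u).const_mul 4).div_const (ρ ^ 2)).const_sub 2
    simpa using h2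
  have h3 : HasDerivAt (cut ρ) (c * -(4 / ρ ^ 2)) u := hd.comp u h1
  refine ⟨c * -(4 / ρ ^ 2), ?_, ?_, h3⟩
  · rw [abs_mul, abs_neg, abs_of_pos (by positivity : (0 : ℝ) < 4 / ρ ^ 2)]
    exact mul_le_mul_of_nonneg_right hc (by positivity)
  · intro hu
    have h4 : cut ρ =ᶠ[𝓝 u] fun _ => 1 := by
      filter_upwards [Iio_mem_nhds hu] with z hz
      exact cut_one hρ (le_of_lt hz)
    have h5 := h4.deriv_eq
    rw [h3.deriv, deriv_const] at h5
    exact h5


/-! ### derivatives along the translations -/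

section curve

variable {D : LogData m} {εg δ r0 r s b r' : ℝ} (P : Par L D εg δ r0 r s b r')
    {F : Mt m → ℂ} {t A : ℝ} (cl : Cls L F t A r (r0 / 4) s b (1 / 10000))
    (ht : 0 < t) (hA : 0 ≤ A)

include P in
/-- the logarithm along the translation -/
theorem et_curve {X : gC L} {g : ℝ → G}
    (hg : ∀ s, L.rho (g s) = NormedSpace.exp (s • (X : Mt m))) {y : G} (hy : dis L y < r0 / 20) :
    ∃ V : Mt m, HasDerivAt (fun s : ℝ => ((Dri.et L D (g s * y) : gC L) : Mt m)) V 0 ∧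
      fderiv ℂ (NormedSpace.exp : Mt m → Mt m) ((Dri.et L D y : gC L) : Mt m) V =
        (X : Mt m) * NormedSpace.exp ((Dri.et L D y : gC L) : Mt m) := by
  have hr0 := P.r0_pos
  have hδ := P.r0_δ
  have hyδ : dis L y < δ := by linarith
  have hη : ‖Dri.et L D y‖ < δ := by have := Dri.et_lt P hy; linarith
  have h0 : ‖(0 : ℂ)‖ < δ / (‖X‖ + 1) := by
    rw [norm_zero]; exact div_pos P.ch.pos (by positivity)
  refine ⟨deriv (cvy L D X (Dri.et L D y)) 0, ?_, ?_⟩
  · have h1 := cvy_diff P.ch X hη h0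
    have h2 : HasDerivAt (fun s : ℝ => (s : ℂ)) 1 0 := Complex.ofRealCLM.hasDerivAt
    have h3 : HasDerivAt (cvy L D X (Dri.et L D y)) (deriv (cvy L D X (Dri.et L D y)) 0)
        ((fun s : ℝ => (s : ℂ)) 0) := by
      simpa using h1
    have h4 := h3.scomp (0 : ℝ) h2
    rw [one_smul] at h4
    refine h4.congr_of_eventuallyEq (Filter.Eventually.of_forall fun s => ?_)
    show ((Dri.et L D (g s * y) : gC L) : Mt m) = cvy L D X (Dri.et L D y) (s : ℂ)
    unfold cvy bc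
    rw [Dri.et_exp P.ch hyδ]
    unfold Dri.et
    rw [map_mul, hg]
    rfl
  · have h1 := cvy_eq P.ch X hη h0
    rw [cvy_zero P.ch X hη] at h1
    exact h1

/-- the Gauss lemma -/
theorem gauss_ipr {η V X : Mt m} (hη : ηᴴ = -η)
    (hV : fderiv ℂ (NormedSpace.exp : Mt m → Mt m) η V = X * NormedSpace.exp η) :
    ipr η V = ipr η X := by
  have hc : (η * NormedSpace.exp (-η)) * η = η * (η * NormedSpace.exp (-η)) := by
    have h1 : Commute η (NormedSpace.exp (-η)) := ((Commute.refl η).neg_right).exp_right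
    rw [mul_assoc, ← h1.eq]
  have h1 := trace_fderiv_exp η V (η * NormedSpace.exp (-η)) hc
  rw [hV] at h1
  have e1 : η * NormedSpace.exp (-η) * NormedSpace.exp η * V = η * V := by
    rw [mul_assoc η, exp_neg_mul_exp, mul_one]
  have e2 : trace (η * NormedSpace.exp (-η) * (X * NormedSpace.exp η)) = trace (η * X) := by
    rw [← mul_assoc, trace_mul_comm, ← mul_assoc, ← mul_assoc]
    have h3 : Commute η (NormedSpace.exp η) := (Commute.refl η).exp_right
    rw [← h3.eq, mul_assoc η, exp_mul_exp_neg, mul_one]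
  rw [e1, e2] at h1
  unfold ipr
  rw [hη, neg_mul, neg_mul, trace_neg, trace_neg, h1]

include P cl ht hA in
/-- the logarithmic derivative of `F` -/
theorem dfy_eq {X : Mt m} (hX : X ∈ lieSet L) {y : G} (hy : dis L y < r0 / 20)
    (hne : Dri.et L D y ≠ 0) :
    ∃ W : ℝ, |W| ≤ 16 * A * ‖Dri.et L D y‖ ^ 3 * ‖X‖ ∧
      t * dfy L F X y = res L F y * (-ipr X ((Dri.et L D y : gC L) : Mt m) - t * W) := by
  have hr0 := P.r0_pos
  have hr01 := P.r0_le
  have hδ := P.r0_δ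
  have hrl := P.r_lo
  have hyδ : dis L y < δ := by linarith
  by_cases hX0 : X = 0
  · refine ⟨0, ?_, ?_⟩
    · rw [abs_zero]; positivity
    · subst hX0
      have h1 : ipr (0 : Mt m) ((Dri.et L D y : gC L) : Mt m) = 0 := by simp [ipr]
      have h2 : dfy L F 0 y = 0 := by
        unfold dfy
        rw [zero_mul, map_zero]
        simp
      rw [h1, h2]
      ring
  have hXp : 0 < ‖X‖ := norm_pos_iff.2 hX0
  set η := Dri.et L D y with hηd
  have hη16 : ‖η‖ < r0 / 16 := Dri.et_lt P hy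
  have hηp : 0 < ‖η‖ := norm_pos_iff.2 hne
  have hηs : ((η : gC L) : Mt m)ᴴ = -(η : Mt m) := lie_skew L (Dri.et_lie P.ch hyδ)
  have himη : imP (η : Mt m) = 0 := Dri.et_im P.ch hyδ
  obtain ⟨Xc, hXc⟩ : ∃ Xc : gC L, (Xc : Mt m) = X := ⟨⟨X, gC_of_lie L hX⟩, rfl⟩
  have hnX : ‖Xc‖ = ‖X‖ := by rw [← hXc]; rfl
  obtain ⟨Y, V, hYdiff, hYdom, hYn, hY0, hV, hVn, hYe⟩ := curve_log P.ch P.e0 P.e1 hr0
    (by linarith) (X := Xc) (η := η) (by rwa [hnX]) hηp (by linarith) himη rfl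
  obtain ⟨w, hw⟩ := cl.sf
  have hsub : dom L r0 (r0 / 4) ⊆ dom L r (r0 / 4) := fun Z hZ => ⟨hZ.1.trans_le hrl, hZ.2⟩
  obtain ⟨W', hW, hWn⟩ := curve_w hA (by rwa [hnX]) hηp rfl hYdiff hYdom hYn
    (hw.diff.mono hsub) (fun Z hZ => hw.le Z (hsub hZ))
  have hR : 0 < 2 * (‖η‖ / (10 * ‖Xc‖)) := by rw [hnX]; positivity
  have hid := curve_id cl.diff ht (X := Xc) (η := η) (x := L.rho y) (c := F 1) hR hY0 hV hW (by
    intro s hs
    rw [← hw.eq _ (hsub (hYdom s hs)), hYe s hs, Dri.et_exp P.ch hyδ])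
  rw [res_coe cl.real, hXc] at hid
  -- the Gauss lemma
  have hfd : fderiv ℂ (NormedSpace.exp : Mt m → Mt m) (η : Mt m) (V : Mt m) =
      X * NormedSpace.exp (η : Mt m) := by
    have h1 : HasDerivAt (fun s => NormedSpace.exp ((Y s : gC L) : Mt m))
        (fderiv ℂ (NormedSpace.exp : Mt m → Mt m) ((Y 0 : gC L) : Mt m) (V : Mt m)) 0 :=
      (exp_diff _).hasFDerivAt.comp_hasDerivAt 0 (coe_deriv hV)
    have h2 : HasDerivAt (fun s : ℂ => NormedSpace.exp (s • (Xc : Mt m)) *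
        NormedSpace.exp (η : Mt m))
        ((Xc : Mt m) * NormedSpace.exp ((0 : ℂ) • (Xc : Mt m)) * NormedSpace.exp (η : Mt m)) 0 :=
      (hasDerivAt_exp_smul_const' (𝕂 := ℂ) (Xc : Mt m) 0).mul_const _
    have h3 := h1.unique (h2.congr_of_eventuallyEq (by
      filter_upwards [Metric.ball_mem_nhds (0 : ℂ) hR] with s hs
      exact hYe s hs))
    rw [hY0, zero_smul, NormedSpace.exp_zero, mul_one, hXc] at h3
    exact h3
  have hga := gauss_ipr hηs hfd
  rw [hnX] at hWn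
  refine ⟨W'.re, (Complex.abs_re_le_norm _).trans hWn, ?_⟩
  have e1 : ipr X (η : Mt m) = ipr (η : Mt m) X := ipr_comm _ _
  rw [e1, ← hga]
  unfold dfy
  rw [hid, Complex.re_ofReal_mul, Complex.sub_re, Complex.div_ofReal_re, ipr_trace hηs]
  field_simp

end curve

/-- the distance is affine on the unitary group -/
theorem dis_sq (y : G) : dis L y ^ 2 = 2 * ‖(1 : Mt m)‖ ^ 2 - 2 * ipr 1 (L.rho y) := by
  unfold dis
  have h1 : ipr (L.rho y) (L.rho y) = ‖(1 : Mt m)‖ ^ 2 := by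
    rw [ipr_self]
    have := norm_mul_rho (L := L) y (1 : Mt m)
    rw [one_mul] at this
    rw [this]
  rw [← ipr_self, ipr_sub, ipr_comm _ (L.rho y), ipr_comm _ (1 : Mt m), ipr_sub, ipr_sub, h1,
    ipr_self, ipr_comm (L.rho y) 1]
  ring

theorem rho_curve {X : Mt m} {g : ℝ → G} (hg : ∀ s, L.rho (g s) = NormedSpace.exp (s • X))
    (y : G) : HasDerivAt (fun s => L.rho (g s * y)) (X * L.rho y) 0 := by
  have h := mvx_deriv L X 0 y
  have e : (fun s => mvx L X s y) = fun s => L.rho (g s * y) := by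
    funext s
    unfold mvx
    rw [map_mul, hg]
  rw [e] at h
  unfold mvd at h
  rw [zero_smul, NormedSpace.exp_zero, one_mul] at h
  exact h

theorem dis_curve {X : Mt m} {g : ℝ → G} (hg : ∀ s, L.rho (g s) = NormedSpace.exp (s • X))
    (y : G) : HasDerivAt (fun s => dis L (g s * y) ^ 2) (-(2 * ipr 1 (X * L.rho y))) 0 := by
  have e : (fun s => dis L (g s * y) ^ 2) =
      fun s => 2 * ‖(1 : Mt m)‖ ^ 2 - 2 * iprL 1 (L.rho (g s * y)) := by
    funext s
    rw [dis_sq, iprL_apply]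
  rw [e]
  have h1 : HasDerivAt (fun s => iprL 1 (L.rho (g s * y))) (iprL 1 (X * L.rho y)) 0 :=
    (iprL (1 : Mt m)).hasFDerivAt.comp_hasDerivAt 0 (rho_curve hg y)
  exact (h1.const_mul 2).const_sub _

theorem res_curve {F : Mt m → ℂ} (hF : ContDiff ℂ 1 F) {X : Mt m} {g : ℝ → G}
    (hg : ∀ s, L.rho (g s) = NormedSpace.exp (s • X))
    (y : G) : HasDerivAt (fun s => res L F (g s * y)) (dfy L F X y) 0 := by
  have h := mvF_deriv L hF X 0 y
  have e : (fun s => (F (mvx L X s y)).re) = fun s => res L F (g s * y) := by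
    funext s
    unfold mvx res
    rw [map_mul, hg]
  rw [e] at h
  unfold mvd mvx at h
  rw [zero_smul, NormedSpace.exp_zero, one_mul, one_mul] at h
  exact h


/-! ### the products of coordinates -/

theorem prod_le {ι : Type*} (S : Finset ι) {Y : ι → Mt m} {y0 : ℝ} (hY : ∀ i, ‖Y i‖ ≤ y0)
    (η : Mt m) : |∏ i ∈ S, ipr (Y i) η| ≤ (y0 * ‖η‖) ^ S.card := by
  rw [Finset.abs_prod]
  refine (Finset.prod_le_prod (fun i _ => abs_nonneg _) (fun i _ => ?_)).trans
    (le_of_eq (Finset.prod_const (y0 * ‖η‖)))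
  exact (ipr_abs_le _ _).trans (mul_le_mul_of_nonneg_right (hY i) (norm_nonneg _))

/-- the sum with one coordinate replaced -/
def dsum {k : ℕ} (Y : Fin (k + 1) → Mt m) (V η : Mt m) : ℝ :=
  ∑ i, ipr (Y i) V * ∏ j ∈ Finset.univ.erase i, ipr (Y j) η

theorem dsum_sub {k : ℕ} (Y : Fin (k + 1) → Mt m) (V V' η : Mt m) :
    dsum Y V η - dsum Y V' η = dsum Y (V - V') η := by
  unfold dsum
  rw [← Finset.sum_sub_distrib]
  refine Finset.sum_congr rfl fun i _ => ?_
  rw [ipr_sub]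
  ring

theorem dsum_le {k : ℕ} {Y : Fin (k + 1) → Mt m} {y0 : ℝ} (hY : ∀ i, ‖Y i‖ ≤ y0)
    (V η : Mt m) : |dsum Y V η| ≤ (k + 1) * y0 ^ (k + 1) * ‖V‖ * ‖η‖ ^ k := by
  have hy0 : 0 ≤ y0 := (norm_nonneg _).trans (hY 0)
  unfold dsum
  refine (Finset.abs_sum_le_sum_abs _ _).trans ?_
  have h1 : ∀ i ∈ (Finset.univ : Finset (Fin (k + 1))),
      |ipr (Y i) V * ∏ j ∈ Finset.univ.erase i, ipr (Y j) η| ≤
      y0 * ‖V‖ * (y0 * ‖η‖) ^ k := by
    intro i _
    rw [abs_mul]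
    have h2 := prod_le (Finset.univ.erase i) hY η
    rw [Finset.card_erase_of_mem (Finset.mem_univ i), Finset.card_univ, Fintype.card_fin,
      Nat.add_sub_cancel] at h2
    exact mul_le_mul ((ipr_abs_le _ _).trans (mul_le_mul_of_nonneg_right (hY i) (norm_nonneg _)))
      h2 (abs_nonneg _) (by positivity)
  refine (Finset.sum_le_sum h1).trans (le_of_eq ?_)
  rw [Finset.sum_const, Finset.card_univ, Fintype.card_fin, nsmul_eq_mul]
  push_cast
  rw [mul_pow, pow_succ]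
  ring

theorem J_alg {R t c c' q' Pp SV S0 xη df W : ℝ}
    (h : Pp * (t * df) = Pp * (R * (-xη - t * W))) :
    Pp * xη * R ^ 2 - t / 2 * (S0 * R ^ 2) +
      t / 2 * ((c' * q' * Pp + c * SV) * R ^ 2 + c * Pp * (2 * R * df)) =
    ((1 - c) * (Pp * xη - t / 2 * S0) + t / 2 * (c * (SV - S0)) + t / 2 * (c' * q' * Pp) -
      c * (t * (Pp * W))) * R ^ 2 := by
  linear_combination (c * R) * h

/-- the third order polynomial -/
def V0 (η X : Mt m) : Mt m :=
  X - (1 / 2 : ℝ) • ad η X + (1 / 12 : ℝ) • ad η (ad η X)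

theorem V0_eq (η X : Mt m) : V0 η X = X + bB1 η X + bB2 η X := by
  unfold V0 bB1 bB2 ad
  have e1 : ∀ Z : Mt m, (1 / 2 : ℝ) • Z = (1 / 2 : ℂ) • Z := by
    intro Z
    rw [← Complex.coe_smul]
    norm_num
  have e2 : ∀ Z : Mt m, (1 / 12 : ℝ) • Z = (1 / 12 : ℂ) • Z := by
    intro Z
    rw [← Complex.coe_smul]
    norm_num
  rw [e1, e2]
  have e3 : η * (η * X - X * η) - (η * X - X * η) * η =
      η * η * X - (2 : ℂ) • (η * X * η) + X * η * η := by
    rw [two_smul]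
    noncomm_ring
  rw [e3, neg_smul, sub_eq_add_neg X]

theorem V0_le {η V X : Mt m} (hη : 8 * ‖η‖ ≤ 1)
    (hV : fderiv ℂ (NormedSpace.exp : Mt m → Mt m) η V = X * NormedSpace.exp η) :
    ‖V - V0 η X‖ ≤ 160 * ‖η‖ ^ 3 * ‖X‖ := by
  rw [V0_eq]
  exact log_deriv_expand hη hV


/-! ### the test function -/

/-- the test function -/
def tst (L : RD G m) (D : LogData m) (ρ : ℝ) {k : ℕ} (Y : Fin (k + 1) → Mt m) (F : Mt m → ℂ)
    (y : G) : ℝ :=
  cut ρ (dis L y ^ 2) * (∏ i, crd L D (Y i) y) * res L F y ^ 2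

theorem dis_cont' : Continuous (dis L) := (L.cont.sub continuous_const).norm

theorem crd_contOn {D : LogData m} {εg δ r0 r s b r' : ℝ} (P : Par L D εg δ r0 r s b r') {ρ : ℝ}
    (hρ1 : ρ ≤ r0 / 20) (X : Mt m) : ContinuousOn (crd L D X) (bal L ρ : Set G) := by
  have h1 : ContinuousOn (fun y : G => ((Dri.et L D y : gC L) : Mt m)) (bal L ρ) :=
    continuous_subtype_val.comp_continuousOn (Dri.et_contOn P hρ1)
  exact (ipr_cont X).comp_continuousOn h1

theorem tst_cont {D : LogData m} {εg δ r0 r s b r' : ℝ} (P : Par L D εg δ r0 r s b r') {ρ : ℝ}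
    (hρ : 0 < ρ) (hρ1 : ρ ≤ r0 / 20) {k : ℕ} (Y : Fin (k + 1) → Mt m) {F : Mt m → ℂ}
    (hF : ContDiff ℂ 1 F) : Continuous (tst L D ρ Y F) := by
  rw [continuous_iff_continuousAt]
  intro y
  rcases lt_or_ge (dis L y) ρ with h | h
  · have hn : (bal L ρ : Set G) ∈ 𝓝 y := (isOpen_bal L ρ).mem_nhds h
    have h1 : ∀ i, ContinuousAt (crd L D (Y i)) y := fun i =>
      (crd_contOn P hρ1 (Y i)).continuousAt hn
    have h2 : ContinuousAt (fun y => ∏ i, crd L D (Y i) y) y :=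
      tendsto_finsetProd _ fun i _ => h1 i
    have h3 : ContinuousAt (fun y => cut ρ (dis L y ^ 2)) y :=
      ((cut_cont ρ).comp (dis_cont'.pow 2)).continuousAt
    exact (h3.mul h2).mul ((res_cont L hF).pow 2).continuousAt
  · have h1 : ∀ᶠ z in 𝓝 y, tst L D ρ Y F z = 0 := by
      have h2 : Continuous fun z => dis L z ^ 2 := dis_cont'.pow 2
      have h3 : ρ ^ 2 / 2 < dis L y ^ 2 := by nlinarith
      filter_upwards [h2.continuousAt.eventually_const_lt h3] with z hz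
      unfold tst
      rw [cut_zero hρ hz.le, zero_mul, zero_mul]
    have h4 : tst L D ρ Y F =ᶠ[𝓝 y] fun _ => 0 := h1
    exact h4.continuousAt

/-- the derivative of the test function near `1` -/
theorem tst_deriv {D : LogData m} {εg δ r0 r s b r' : ℝ} (P : Par L D εg δ r0 r s b r') {ρ : ℝ}
    (hρ : 0 < ρ) (hρ1 : ρ ≤ r0 / 20) {k : ℕ} (Y : Fin (k + 1) → Mt m) {F : Mt m → ℂ}
    (hF : ContDiff ℂ 1 F) {X : gC L} {g : ℝ → G}
    (hg : ∀ s, L.rho (g s) = NormedSpace.exp (s • (X : Mt m))) {y : G} {c' : ℝ}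
    (hc' : HasDerivAt (cut ρ) c' (dis L y ^ 2)) {V : Mt m}
    (hV : HasDerivAt (fun s : ℝ => ((Dri.et L D (g s * y) : gC L) : Mt m)) V 0) :
    HasDerivAt (fun s => tst L D ρ Y F (g s * y))
      ((c' * -(2 * ipr 1 ((X : Mt m) * L.rho y)) * (∏ i, crd L D (Y i) y) +
        cut ρ (dis L y ^ 2) * dsum Y V ((Dri.et L D y : gC L) : Mt m)) * res L F y ^ 2 +
        cut ρ (dis L y ^ 2) * (∏ i, crd L D (Y i) y) * (2 * res L F y * dfy L F (X : Mt m) y)) 0 := by
  have e0 : g 0 * y = y := by rw [g_zero hg, one_mul]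
  have h1 : HasDerivAt (fun s => cut ρ (dis L (g s * y) ^ 2))
      (c' * -(2 * ipr 1 ((X : Mt m) * L.rho y))) 0 := by
    have h2 : HasDerivAt (cut ρ) c' ((fun s => dis L (g s * y) ^ 2) 0) := by
      simp only [e0]
      exact hc'
    exact HasDerivAt.comp (h₂ := cut ρ) (h := fun s => dis L (g s * y) ^ 2) 0 h2 (dis_curve hg y)
  have h2 : ∀ i, HasDerivAt (fun s => crd L D (Y i) (g s * y)) (ipr (Y i) V) 0 := fun i =>
    (iprL (Y i)).hasFDerivAt.comp_hasDerivAt 0 hV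
  have h3 : HasDerivAt (fun s => ∏ i, crd L D (Y i) (g s * y))
      (∑ i, (∏ j ∈ Finset.univ.erase i, crd L D (Y j) (g 0 * y)) • ipr (Y i) V) 0 :=
    HasDerivAt.fun_finsetProd fun i _ => h2 i
  have h4 := (res_curve hF hg y).pow 2
  have h5 := (h1.mul h3).mul h4
  refine h5.congr_deriv ?_
  simp only [e0, Pi.pow_apply, Pi.mul_apply, smul_eq_mul, dsum, Nat.cast_ofNat, Nat.add_one_sub_one,
    pow_one]
  have e1 : ∑ x, (∏ j ∈ Finset.univ.erase x, crd L D (Y j) y) * ipr (Y x) V =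
      ∑ i, ipr (Y i) V * ∏ j ∈ Finset.univ.erase i, ipr (Y j) ((Dri.et L D y : gC L) : Mt m) :=
    Finset.sum_congr rfl fun i _ => by rw [mul_comm]; rfl
  rw [e1]


/-- the derivative is bounded -/
theorem d_bound {c' q' P0 c S R dfv K Q p0 S1 R0 Md : ℝ} (h1 : |c'| ≤ K) (h2 : |q'| ≤ Q)
    (h3 : |P0| ≤ p0) (h4 : 0 ≤ c) (h5 : c ≤ 1) (h6 : |S| ≤ S1) (h7 : R ^ 2 ≤ R0 ^ 2) (h8 : 0 ≤ R0)
    (h9 : |dfv| ≤ Md) :
    |(c' * q' * P0 + c * S) * R ^ 2 + c * P0 * (2 * R * dfv)| ≤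
      (K * Q * p0 + S1) * R0 ^ 2 + p0 * (2 * R0 * Md) := by
  have hK : 0 ≤ K := (abs_nonneg _).trans h1
  have hQ : 0 ≤ Q := (abs_nonneg _).trans h2
  have hp : 0 ≤ p0 := (abs_nonneg _).trans h3
  have hS : 0 ≤ S1 := (abs_nonneg _).trans h6
  have hM : 0 ≤ Md := (abs_nonneg _).trans h9
  have hR : |R| ≤ R0 := abs_le_of_sq_le_sq h7 h8
  have hca : |c| ≤ 1 := by rw [abs_of_nonneg h4]; exact h5
  refine (abs_add_le _ _).trans (add_le_add ?_ ?_)
  · rw [abs_mul, abs_of_nonneg (sq_nonneg R)]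
    refine mul_le_mul ((abs_add_le _ _).trans (add_le_add ?_ ?_)) h7 (sq_nonneg _) (by positivity)
    · rw [abs_mul, abs_mul]
      exact mul_le_mul (mul_le_mul h1 h2 (abs_nonneg _) hK) h3 (abs_nonneg _) (by positivity)
    · rw [abs_mul]
      calc |c| * |S| ≤ 1 * S1 := mul_le_mul hca h6 (abs_nonneg _) zero_le_one
        _ = S1 := one_mul _
  · rw [abs_mul, abs_mul, abs_mul, abs_mul, abs_two]
    calc |c| * |P0| * (2 * |R| * |dfv|) ≤ 1 * p0 * (2 * R0 * Md) := by
          refine mul_le_mul (mul_le_mul hca h3 (abs_nonneg _) zero_le_one) ?_ (by positivity)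
            (by positivity)
          exact mul_le_mul (mul_le_mul_of_nonneg_left hR (by norm_num)) h9 (abs_nonneg _)
            (by positivity)
      _ = p0 * (2 * R0 * Md) := by ring

/-- the error -/
theorem J_bound {R t c c' q' Pp SV S0 xη W n A y1 x K k1 : ℝ} {k : ℕ} {fr : ℝ}
    (ht : 0 < t) (ht1 : t ≤ 1) (hA : 0 ≤ A) (hn : 0 ≤ n) (hn1 : n ≤ 1) (hx : 0 ≤ x)
    (hy1 : 0 ≤ y1) (hk : 0 ≤ k1) (hK : 0 ≤ K)
    (hc0 : 0 ≤ c) (hc1 : c ≤ 1) (hfr : 0 ≤ fr) (hcf : |1 - c| ≤ fr) (hcf' : |c'| ≤ K * fr)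
    (hq : |q'| ≤ k1) (hP : |Pp| ≤ y1 * n ^ (k + 1)) (hxη : |xη| ≤ x * n)
    (hS0 : |S0| ≤ (k + 1) * y1 * (3 * x) * n ^ k)
    (hS : |SV - S0| ≤ (k + 1) * y1 * (160 * n ^ 3 * x) * n ^ k)
    (hW : |Pp| * |W| ≤ y1 * n ^ (k + 1) * (16 * A * n ^ 3 * x)) :
    |((1 - c) * (Pp * xη - t / 2 * S0) + t / 2 * (c * (SV - S0)) + t / 2 * (c' * q' * Pp) -
      c * (t * (Pp * W))) * R ^ 2| ≤
      (y1 * x + (k + 1) * y1 * (3 * x) + K * k1 * y1) * (fr * R ^ 2) +
        ((k + 1) * y1 * 160 * x) * t * (n ^ (k + 3) * R ^ 2) +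
        (16 * y1 * x) * A * t * (n ^ (k + 4) * R ^ 2) := by
  have hnk : n ^ k ≤ 1 := pow_le_one₀ hn hn1
  have hnk1 : n ^ (k + 1) ≤ 1 := pow_le_one₀ hn hn1
  have hP1 : |Pp| ≤ y1 := hP.trans (mul_le_of_le_one_right hy1 hnk1)
  have hxη1 : |xη| ≤ x := hxη.trans (mul_le_of_le_one_right hx hn1)
  have hkk : (0 : ℝ) ≤ k + 1 := by positivity
  have hS01 : |S0| ≤ (k + 1) * y1 * (3 * x) :=
    hS0.trans (mul_le_of_le_one_right (by positivity) hnk)
  have hca : |c| ≤ 1 := by rw [abs_of_nonneg hc0]; exact hc1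
  have b1 : |(1 - c) * (Pp * xη - t / 2 * S0)| ≤ fr * (y1 * x + (k + 1) * y1 * (3 * x)) := by
    rw [abs_mul]
    refine mul_le_mul hcf ((abs_sub _ _).trans (add_le_add ?_ ?_)) (abs_nonneg _) hfr
    · rw [abs_mul]
      exact mul_le_mul hP1 hxη1 (abs_nonneg _) hy1
    · rw [abs_mul, abs_of_pos (by positivity : 0 < t / 2)]
      calc t / 2 * |S0| ≤ 1 * ((k + 1) * y1 * (3 * x)) :=
            mul_le_mul (by linarith) hS01 (abs_nonneg _) zero_le_one
        _ = _ := one_mul _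
  have b2 : |t / 2 * (c * (SV - S0))| ≤ ((k + 1) * y1 * 160 * x) * t * n ^ (k + 3) := by
    rw [abs_mul, abs_mul, abs_of_pos (by positivity : 0 < t / 2)]
    calc t / 2 * (|c| * |SV - S0|) ≤ t * (1 * ((k + 1) * y1 * (160 * n ^ 3 * x) * n ^ k)) :=
          mul_le_mul (by linarith) (mul_le_mul hca hS (abs_nonneg _) zero_le_one)
            (by positivity) ht.le
      _ = _ := by rw [pow_add n k 3]; ring
  have b3 : |t / 2 * (c' * q' * Pp)| ≤ fr * (K * k1 * y1) := by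
    rw [abs_mul, abs_mul, abs_mul, abs_of_pos (by positivity : 0 < t / 2)]
    calc t / 2 * (|c'| * |q'| * |Pp|) ≤ 1 * ((K * fr) * k1 * y1) := by
          refine mul_le_mul (by linarith) ?_ (by positivity) zero_le_one
          exact mul_le_mul (mul_le_mul hcf' hq (abs_nonneg _) (by positivity)) hP1 (abs_nonneg _)
            (by positivity)
      _ = _ := by ring
  have b4 : |c * (t * (Pp * W))| ≤ (16 * y1 * x) * A * t * n ^ (k + 4) := by
    rw [abs_mul, abs_mul, abs_mul, abs_of_pos ht]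
    calc |c| * (t * (|Pp| * |W|)) ≤ 1 * (t * (y1 * n ^ (k + 1) * (16 * A * n ^ 3 * x))) :=
          mul_le_mul hca (mul_le_mul_of_nonneg_left hW ht.le) (by positivity) zero_le_one
      _ = _ := by
          have : n ^ (k + 4) = n ^ (k + 1) * n ^ 3 := by rw [← pow_add]
          rw [this]; ring
  rw [abs_mul, abs_of_nonneg (sq_nonneg R)]
  have b5 : |(1 - c) * (Pp * xη - t / 2 * S0) + t / 2 * (c * (SV - S0)) + t / 2 * (c' * q' * Pp) -
      c * (t * (Pp * W))| ≤ fr * (y1 * x + (k + 1) * y1 * (3 * x)) +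
        ((k + 1) * y1 * 160 * x) * t * n ^ (k + 3) + fr * (K * k1 * y1) +
        (16 * y1 * x) * A * t * n ^ (k + 4) :=
    (abs_sub _ _).trans (add_le_add ((abs_add_le _ _).trans (add_le_add ((abs_add_le _ _).trans
      (add_le_add b1 b2)) b3)) b4)
  refine (mul_le_mul_of_nonneg_right b5 (sq_nonneg R)).trans (le_of_eq ?_)
  ring

theorem c1_arith {t A V K1 a b Ct C1 C2 T I3 I4 : ℝ} {k : ℕ} (ht : 0 < t) (ht1 : t ≤ 1)
    (hA : 0 ≤ A) (hV : 0 ≤ V) (hK1 : 0 ≤ K1) (ha : 0 ≤ a) (hb : 0 ≤ b) (hCt : 0 ≤ Ct)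
    (hC1 : 0 ≤ C1) (hC2 : 0 ≤ C2) (hT : T ≤ Ct * t ^ 3 * V)
    (hI3 : I3 ≤ C1 * Real.sqrt t ^ (k + 3) * V) (hI4 : I4 ≤ C2 * Real.sqrt t ^ (k + 4) * V) :
    K1 * T + a * t * I3 + b * A * t * I4 ≤
      (K1 * Ct + a * C1 + b * C2 + 1) * (1 + A) * (t ^ 2 * Real.sqrt t) * V := by
  obtain ⟨q, hq⟩ : ∃ q, q = Real.sqrt t := ⟨_, rfl⟩
  rw [← hq] at hI3 hI4 ⊢
  have hq0 : 0 < q := by rw [hq]; exact Real.sqrt_pos.2 ht
  have hqq : q * q = t := by rw [hq]; exact Real.mul_self_sqrt ht.le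
  have hq1 : q ≤ 1 := by nlinarith
  have htq : t ≤ q := by nlinarith
  have h3 : q ^ (k + 3) ≤ t * q := by
    calc q ^ (k + 3) ≤ q ^ 3 := pow_le_pow_of_le_one hq0.le hq1 (by omega)
      _ = t * q := by rw [← hqq]; ring
  have h4 : q ^ (k + 4) ≤ t * q := by
    calc q ^ (k + 4) ≤ q ^ 3 := pow_le_pow_of_le_one hq0.le hq1 (by omega)
      _ = t * q := by rw [← hqq]; ring
  have h5 : t ^ 3 ≤ t ^ 2 * q := by
    calc t ^ 3 = t ^ 2 * t := by ring
      _ ≤ t ^ 2 * q := mul_le_mul_of_nonneg_left htq (sq_nonneg t)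
  have c1 : K1 * T ≤ (K1 * Ct) * (t ^ 2 * q * V) := by
    calc K1 * T ≤ K1 * (Ct * t ^ 3 * V) := mul_le_mul_of_nonneg_left hT hK1
      _ = (K1 * Ct * V) * t ^ 3 := by ring
      _ ≤ (K1 * Ct * V) * (t ^ 2 * q) := mul_le_mul_of_nonneg_left h5 (by positivity)
      _ = _ := by ring
  have c2 : a * t * I3 ≤ (a * C1) * (t ^ 2 * q * V) := by
    calc a * t * I3 ≤ a * t * (C1 * q ^ (k + 3) * V) :=
          mul_le_mul_of_nonneg_left hI3 (by positivity)
      _ = (a * t * C1 * V) * q ^ (k + 3) := by ring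
      _ ≤ (a * t * C1 * V) * (t * q) := mul_le_mul_of_nonneg_left h3 (by positivity)
      _ = _ := by ring
  have c3 : b * A * t * I4 ≤ (b * C2) * A * (t ^ 2 * q * V) := by
    calc b * A * t * I4 ≤ b * A * t * (C2 * q ^ (k + 4) * V) :=
          mul_le_mul_of_nonneg_left hI4 (by positivity)
      _ = (b * A * t * C2 * V) * q ^ (k + 4) := by ring
      _ ≤ (b * A * t * C2 * V) * (t * q) := mul_le_mul_of_nonneg_left h4 (by positivity)
      _ = _ := by ring
  have hZ : 0 ≤ t ^ 2 * q * V := by positivity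
  have e : (K1 * Ct + a * C1 + b * C2 + 1) * (1 + A) * (t ^ 2 * q) * V =
      (K1 * Ct) * (t ^ 2 * q * V) + (a * C1) * (t ^ 2 * q * V) + (b * C2) * A * (t ^ 2 * q * V) +
      ((K1 * Ct + a * C1) * A + b * C2 + (1 + A)) * (t ^ 2 * q * V) := by ring
  rw [e]
  have : 0 ≤ ((K1 * Ct + a * C1) * A + b * C2 + (1 + A)) * (t ^ 2 * q * V) := by positivity
  linarith

end Tlc

open Tlc in
/-- integration by parts for products of coordinates of the logarithm: formula (`*`) -/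
theorem ibp_log {D : LogData m} {εg δ r0 r s b r' : ℝ} (P : Par L D εg δ r0 r s b r') {ρ : ℝ}
    (hρ : 0 < ρ) (hρ1 : ρ ≤ r0 / 20) (k : ℕ) {X : Mt m} (hX : X ∈ lieSet L)
    {Y : Fin (k + 1) → Mt m} (hY : ∀ i, Y i ∈ lieSet L) :
    ∃ C ts : ℝ, 0 < C ∧ 0 < ts ∧ ∀ (F : Mt m → ℂ) (t A : ℝ), 0 < t → t ≤ ts → 0 ≤ A →
      A * t ≤ 1 / 10 → Cls L F t A r (r0 / 4) s b (1 / 10000) →
        |∫ y in bal L ρ, (∏ i, crd L D (Y i) y) * crd L D X y * res L F y ^ 2 ∂μ -
          t / 2 * ∫ y in bal L ρ, (∑ i, ipr (Y i) (X - (1 / 2 : ℝ) • ad (Dri.et L D y : Mt m) X +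
            (1 / 12 : ℝ) • ad (Dri.et L D y : Mt m) (ad (Dri.et L D y : Mt m) X)) *
              ∏ j ∈ Finset.univ.erase i, crd L D (Y j) y) * res L F y ^ 2 ∂μ| ≤
          C * (1 + A) * (t ^ 2 * Real.sqrt t) * ∫ y, res L F y ^ 2 ∂μ := by
  have hr0 := P.r0_pos
  have hr01 := P.r0_le
  have hδ := P.r0_δ
  obtain ⟨y0, hy00, hy0⟩ : ∃ y0 : ℝ, 0 ≤ y0 ∧ ∀ i, ‖Y i‖ ≤ y0 :=
    ⟨∑ i, ‖Y i‖, Finset.sum_nonneg fun i _ => norm_nonneg _, fun i =>
      Finset.single_le_sum (f := fun i => ‖Y i‖) (fun i _ => norm_nonneg _) (Finset.mem_univ i)⟩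
  set y1 : ℝ := y0 ^ (k + 1) with hy1
  have hy10 : 0 ≤ y1 := by positivity
  obtain ⟨K, hK, hcut⟩ := cut_deriv hρ
  choose c' hc'1 hc'2 hc'3 using hcut
  set x : ℝ := ‖X‖ with hx
  have hx0 : 0 ≤ x := norm_nonneg _
  set k1 : ℝ := 2 * ‖(1 : Mt m)‖ * x with hk1
  have hk10 : 0 ≤ k1 := by positivity
  obtain ⟨C1, t1, hC1, ht1, hm1⟩ := momk (μ := μ) P (k + 3)
  obtain ⟨C2, t2, hC2, ht2, hm2⟩ := momk (μ := μ) P (k + 4)
  have hρ2 : ρ / 2 ≤ r0 / 20 := by linarith
  obtain ⟨Ct, t3, hCt, ht3, htl⟩ := tail2 (μ := μ) P (ρ := ρ / 2) (by positivity) hρ2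
  set K1 : ℝ := y1 * x + (k + 1) * y1 * (3 * x) + K * k1 * y1 with hK1
  set a1 : ℝ := (k + 1) * y1 * 160 * x with ha1
  set b1 : ℝ := 16 * y1 * x with hb1
  have hK10 : 0 ≤ K1 := by positivity
  have ha10 : 0 ≤ a1 := by positivity
  have hb10 : 0 ≤ b1 := by positivity
  refine ⟨K1 * Ct + a1 * C1 + b1 * C2 + 1, min 1 (min t1 (min t2 t3)), by positivity,
    by positivity, ?_⟩
  intro F t A ht hts hA hAt cl
  have hts1 : t ≤ 1 := hts.trans (min_le_left _ _)
  have hts' : t ≤ min t1 (min t2 t3) := hts.trans (min_le_right _ _)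
  have htt1 : t ≤ t1 := hts'.trans (min_le_left _ _)
  have hts2 : t ≤ min t2 t3 := hts'.trans (min_le_right _ _)
  have htt2 : t ≤ t2 := hts2.trans (min_le_left _ _)
  have htt3 : t ≤ t3 := hts2.trans (min_le_right _ _)
  have hI3 := hm1 F t A ht htt1 hA hAt cl ρ hρ1
  have hI4 := hm2 F t A ht htt2 hA hAt cl ρ hρ1
  have hT := htl F t A ht htt3 hA hAt cl
  have hVn : 0 ≤ ∫ y, res L F y ^ 2 ∂μ := integral_nonneg fun y => sq_nonneg _
  have hB : MeasurableSet (bal L ρ : Set G) := (isOpen_bal L ρ).measurableSet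
  have hB2 : MeasurableSet ((bal L (ρ / 2) : Set G)ᶜ) := (isOpen_bal L _).measurableSet.compl
  have hlt : ∀ y ∈ (bal L ρ : Set G), dis L y < r0 / 20 := fun y hy => lt_of_lt_of_le hy hρ1
  obtain ⟨Xc, hXc⟩ : ∃ Xc : gC L, (Xc : Mt m) = X := ⟨⟨X, gC_of_lie L hX⟩, rfl⟩
  choose g hg using hX
  have hgc : ∀ s, L.rho (g s) = NormedSpace.exp (s • (Xc : Mt m)) := by rw [hXc]; exact hg
  have hXl : X ∈ lieSet L := fun s => ⟨g s, hg s⟩
  choose! V hV1 hV2 using fun y (hy : dis L y < r0 / 20) => et_curve P hgc hy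
  -- the derivative
  set d : G → ℝ := fun y => (bal L ρ : Set G).indicator (fun y =>
    ((c' (dis L y ^ 2) * -(2 * ipr 1 ((Xc : Mt m) * L.rho y)) * (∏ i, crd L D (Y i) y) +
        cut ρ (dis L y ^ 2) * dsum Y (V y) ((Dri.et L D y : gC L) : Mt m)) * res L F y ^ 2 +
        cut ρ (dis L y ^ 2) * (∏ i, crd L D (Y i) y) *
          (2 * res L F y * dfy L F (Xc : Mt m) y))) y with hd
  have hdd : ∀ y, HasDerivAt (fun s => tst L D ρ Y F (g s * y)) (d y) 0 := by
    intro y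
    by_cases hy : y ∈ (bal L ρ : Set G)
    · rw [hd]
      simp only [Set.indicator_of_mem hy]
      exact tst_deriv (L := L) P hρ hρ1 Y cl.diff hgc (hc'3 _) (hV1 y (hlt y hy))
    · rw [hd]
      simp only [Set.indicator_of_notMem hy]
      have hy' : ρ ≤ dis L y := not_lt.1 hy
      have h1 : (fun s => tst L D ρ Y F (g s * y)) =ᶠ[𝓝 0] fun _ => 0 := by
        have h2 := (dis_curve hg y).continuousAt
        have h3 : ρ ^ 2 / 2 < dis L (g 0 * y) ^ 2 := by
          rw [g_zero hg, one_mul]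
          nlinarith
        filter_upwards [h2.eventually_const_lt h3] with z hz
        unfold tst
        rw [cut_zero hρ hz.le, zero_mul, zero_mul]
      exact (hasDerivAt_const (0 : ℝ) (0 : ℝ)).congr_of_eventuallyEq h1
  -- pointwise facts
  have hη1 : ∀ y ∈ (bal L ρ : Set G), ‖Dri.et L D y‖ ≤ 1 := fun y hy =>
    Dri.et_le_one P (hlt y hy)
  have hη8 : ∀ y ∈ (bal L ρ : Set G), 8 * ‖((Dri.et L D y : gC L) : Mt m)‖ ≤ 1 := fun y hy => by
    have h1 := Dri.et_lt P (hlt y hy)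
    have h2 : ‖((Dri.et L D y : gC L) : Mt m)‖ = ‖Dri.et L D y‖ := rfl
    rw [h2]
    linarith
  have hVx : ∀ y ∈ (bal L ρ : Set G), ‖V y‖ ≤ 2 * x := fun y hy => by
    have h1 := exp_deriv_inv (hη8 y hy) (V y)
    rw [hV2 y (hlt y hy), Dri.et_exp P.ch (by have := hlt y hy; linarith), norm_mul_rho, hXc] at h1
    exact h1
  have hV0 : ∀ y ∈ (bal L ρ : Set G), ‖V y - V0 ((Dri.et L D y : gC L) : Mt m) X‖ ≤
      160 * ‖Dri.et L D y‖ ^ 3 * x := fun y hy => by
    have h1 := V0_le (hη8 y hy) (hV2 y (hlt y hy))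
    rw [hXc] at h1
    exact h1
  have hV0x : ∀ y ∈ (bal L ρ : Set G), ‖V0 ((Dri.et L D y : gC L) : Mt m) X‖ ≤ 3 * x := by
    intro y hy
    have hb1 := norm_bB1 ((Dri.et L D y : gC L) : Mt m) X
    have hb2 := norm_bB2 ((Dri.et L D y : gC L) : Mt m) X
    have h8 := hη8 y hy
    have hn0 := norm_nonneg ((Dri.et L D y : gC L) : Mt m)
    rw [V0_eq]
    have h1 := norm_add_le (X + bB1 ((Dri.et L D y : gC L) : Mt m) X)
      (bB2 ((Dri.et L D y : gC L) : Mt m) X)
    have h2 := norm_add_le X (bB1 ((Dri.et L D y : gC L) : Mt m) X)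
    rw [← hx] at *
    have h3 : ‖((Dri.et L D y : gC L) : Mt m)‖ * x ≤ 1 * x :=
      mul_le_mul_of_nonneg_right (by linarith) hx0
    have h4 : ‖((Dri.et L D y : gC L) : Mt m)‖ ^ 2 * x ≤ 1 * x :=
      mul_le_mul_of_nonneg_right (by nlinarith) hx0
    linarith
  have hPle : ∀ y, |∏ i, crd L D (Y i) y| ≤ y1 * ‖Dri.et L D y‖ ^ (k + 1) := fun y => by
    have h1 := prod_le Finset.univ hy0 ((Dri.et L D y : gC L) : Mt m)
    rw [Finset.card_univ, Fintype.card_fin, mul_pow] at h1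
    exact h1
  have hq : ∀ y, |-(2 * ipr 1 ((Xc : Mt m) * L.rho y))| ≤ k1 := fun y => by
    rw [abs_neg, abs_mul, abs_two, hXc, hk1]
    have h1 := ipr_abs_le 1 (X * L.rho y)
    rw [norm_mul_rho] at h1
    linarith
  -- boundedness
  obtain ⟨Md, hMd⟩ : ∃ Md, ∀ y, |dfy L F (Xc : Mt m) y| ≤ Md := by
    obtain ⟨M, hM⟩ := isCompact_univ.exists_bound_of_continuousOn
      (dfy_cont L cl.diff (Xc : Mt m)).continuousOn
    exact ⟨M, fun y => hM y (Set.mem_univ y)⟩
  have hbd : ∀ y, |d y| ≤ (K * k1 * y1 + (k + 1) * y1 * (2 * x)) * (F 1).re ^ 2 +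
      y1 * (2 * (F 1).re * Md) := by
    intro y
    have hMd0 : 0 ≤ Md := (abs_nonneg _).trans (hMd y)
    have hF0 := cl.pos.le
    by_cases hy : y ∈ (bal L ρ : Set G)
    · rw [hd]
      simp only [Set.indicator_of_mem hy]
      refine d_bound (hc'1 _) (hq y) ?_ (cut_nonneg _ _) (cut_le_one _ _) ?_
        (Dri.res_le P cl ht hA hAt y) hF0 (hMd y)
      · exact (hPle y).trans (mul_le_of_le_one_right hy10
          (pow_le_one₀ (norm_nonneg _) (hη1 y hy)))
      · refine (dsum_le hy0 _ _).trans ?_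
        have h1 : ‖((Dri.et L D y : gC L) : Mt m)‖ ^ k ≤ 1 :=
          pow_le_one₀ (norm_nonneg _) (hη1 y hy)
        calc (k + 1) * y0 ^ (k + 1) * ‖V y‖ * ‖((Dri.et L D y : gC L) : Mt m)‖ ^ k
            ≤ (k + 1) * y0 ^ (k + 1) * (2 * x) * 1 :=
              mul_le_mul (mul_le_mul_of_nonneg_left (hVx y hy) (by positivity)) h1
                (by positivity) (by positivity)
          _ = _ := by rw [mul_one]
    · rw [hd]
      simp only [Set.indicator_of_notMem hy, abs_zero]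
      positivity
  obtain ⟨hdm, hd0⟩ := ibp_gen (μ := μ) hg (tst_cont P hρ hρ1 Y cl.diff) hbd hdd
  have hdi : Integrable d μ := Integrable.mono' (integrable_const _) hdm
    (Filter.Eventually.of_forall fun y => by rw [Real.norm_eq_abs]; exact hbd y)
  have hd0' : ∫ y in bal L ρ, d y ∂μ = 0 := by
    rw [setIntegral_eq_integral_of_forall_compl_eq_zero, hd0]
    intro y hy
    rw [hd]
    simp only [Set.indicator_of_notMem hy]
  -- integrability of the two terms
  have hcrd : ∀ Z : Mt m, ContinuousOn (crd L D Z) (bal L ρ : Set G) := fun Z =>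
    crd_contOn P hρ1 Z
  have hetc : ContinuousOn (fun y : G => ((Dri.et L D y : gC L) : Mt m)) (bal L ρ) :=
    continuous_subtype_val.comp_continuousOn (Dri.et_contOn P hρ1)
  have hrc : ContinuousOn (fun y => res L F y ^ 2) (bal L ρ : Set G) :=
    ((res_cont L cl.diff).pow 2).continuousOn
  have hi1 : IntegrableOn (fun y => (∏ i, crd L D (Y i) y) * crd L D X y * res L F y ^ 2)
      (bal L ρ) μ := by
    refine Dri.intg_on hB (((continuousOn_finsetProd _ fun i _ => hcrd (Y i)).mul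
      (hcrd X)).mul hrc) (y1 * x * (F 1).re ^ 2) ?_
    intro y hy
    rw [norm_mul, norm_mul, Real.norm_eq_abs, Real.norm_eq_abs, Real.norm_eq_abs,
      abs_of_nonneg (sq_nonneg (res L F y))]
    refine mul_le_mul (mul_le_mul ((hPle y).trans (mul_le_of_le_one_right hy10
      (pow_le_one₀ (norm_nonneg _) (hη1 y hy)))) ?_ (abs_nonneg _) hy10)
      (Dri.res_le P cl ht hA hAt y) (sq_nonneg _) (by positivity)
    exact (ipr_abs_le _ _).trans (mul_le_of_le_one_right hx0 (hη1 y hy))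
  have hi2 : IntegrableOn (fun y => (∑ i, ipr (Y i) (X - (1 / 2 : ℝ) •
      ad (Dri.et L D y : Mt m) X + (1 / 12 : ℝ) • ad (Dri.et L D y : Mt m)
        (ad (Dri.et L D y : Mt m) X)) * ∏ j ∈ Finset.univ.erase i, crd L D (Y j) y) *
        res L F y ^ 2) (bal L ρ) μ := by
    refine Dri.intg_on hB ?_ ((k + 1) * y1 * (3 * x) * (F 1).re ^ 2) ?_
    · refine (continuousOn_finsetSum _ fun i _ => ?_).mul hrc
      refine ContinuousOn.mul ?_ (continuousOn_finsetProd _ fun j _ => hcrd (Y j))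
      refine (ipr_cont (Y i)).comp_continuousOn ?_
      have h1 : ContinuousOn (fun y : G => ad ((Dri.et L D y : gC L) : Mt m) X) (bal L ρ) := by
        unfold ad
        exact (hetc.mul continuousOn_const).sub (continuousOn_const.mul hetc)
      have h2 : ContinuousOn (fun y : G => ad ((Dri.et L D y : gC L) : Mt m)
          (ad ((Dri.et L D y : gC L) : Mt m) X)) (bal L ρ) := by
        have h3 : ContinuousOn (fun y : G => ((Dri.et L D y : gC L) : Mt m) *
          (ad ((Dri.et L D y : gC L) : Mt m) X) - (ad ((Dri.et L D y : gC L) : Mt m) X) *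
            ((Dri.et L D y : gC L) : Mt m)) (bal L ρ) := (hetc.mul h1).sub (h1.mul hetc)
        exact h3
      exact (continuousOn_const.sub (h1.const_smul (1 / 2 : ℝ))).add (h2.const_smul (1 / 12 : ℝ))
    · intro y hy
      rw [norm_mul, Real.norm_eq_abs, Real.norm_eq_abs, abs_of_nonneg (sq_nonneg (res L F y))]
      refine mul_le_mul ?_ (Dri.res_le P cl ht hA hAt y) (sq_nonneg _) (by positivity)
      have h0 := dsum_le hy0 (V0 ((Dri.et L D y : gC L) : Mt m) X) ((Dri.et L D y : gC L) : Mt m)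
      refine le_trans h0 ?_
      have h1 : ‖((Dri.et L D y : gC L) : Mt m)‖ ^ k ≤ 1 :=
        pow_le_one₀ (norm_nonneg _) (hη1 y hy)
      calc (k + 1) * y0 ^ (k + 1) * ‖V0 ((Dri.et L D y : gC L) : Mt m) X‖ *
            ‖((Dri.et L D y : gC L) : Mt m)‖ ^ k
          ≤ (k + 1) * y0 ^ (k + 1) * (3 * x) * 1 :=
            mul_le_mul (mul_le_mul_of_nonneg_left (hV0x y hy) (by positivity)) h1
              (by positivity) (by positivity)
        _ = _ := by rw [mul_one]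
  -- the identity
  have hid : ∫ y in bal L ρ, (∏ i, crd L D (Y i) y) * crd L D X y * res L F y ^ 2 ∂μ -
          t / 2 * ∫ y in bal L ρ, (∑ i, ipr (Y i) (X - (1 / 2 : ℝ) • ad (Dri.et L D y : Mt m) X +
            (1 / 12 : ℝ) • ad (Dri.et L D y : Mt m) (ad (Dri.et L D y : Mt m) X)) *
              ∏ j ∈ Finset.univ.erase i, crd L D (Y j) y) * res L F y ^ 2 ∂μ =
      ∫ y in bal L ρ, ((∏ i, crd L D (Y i) y) * crd L D X y * res L F y ^ 2 -
        t / 2 * (dsum Y (V0 ((Dri.et L D y : gC L) : Mt m) X) ((Dri.et L D y : gC L) : Mt m) *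
          res L F y ^ 2) + t / 2 * d y) ∂μ := by
    have h1 : ∫ y in bal L ρ, ((∏ i, crd L D (Y i) y) * crd L D X y * res L F y ^ 2 -
        t / 2 * (dsum Y (V0 ((Dri.et L D y : gC L) : Mt m) X) ((Dri.et L D y : gC L) : Mt m) *
          res L F y ^ 2) + t / 2 * d y) ∂μ =
        ∫ y in bal L ρ, ((∏ i, crd L D (Y i) y) * crd L D X y * res L F y ^ 2 -
        t / 2 * (dsum Y (V0 ((Dri.et L D y : gC L) : Mt m) X) ((Dri.et L D y : gC L) : Mt m) *
          res L F y ^ 2)) ∂μ + ∫ y in bal L ρ, t / 2 * d y ∂μ :=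
      integral_add (hi1.sub (hi2.const_mul (t / 2))) (hdi.integrableOn.const_mul _)
    have h2 : ∫ y in bal L ρ, ((∏ i, crd L D (Y i) y) * crd L D X y * res L F y ^ 2 -
        t / 2 * (dsum Y (V0 ((Dri.et L D y : gC L) : Mt m) X) ((Dri.et L D y : gC L) : Mt m) *
          res L F y ^ 2)) ∂μ =
        ∫ y in bal L ρ, ((∏ i, crd L D (Y i) y) * crd L D X y * res L F y ^ 2) ∂μ -
        ∫ y in bal L ρ, t / 2 * (dsum Y (V0 ((Dri.et L D y : gC L) : Mt m) X)
          ((Dri.et L D y : gC L) : Mt m) * res L F y ^ 2) ∂μ :=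
      integral_sub hi1 (hi2.const_mul (t / 2))
    rw [h1, h2, integral_const_mul, integral_const_mul, hd0', mul_zero, add_zero]
    rfl
  rw [hid]
  -- the bound
  have hint3 : ∀ l : ℕ, IntegrableOn (fun y => ‖Dri.et L D y‖ ^ l * res L F y ^ 2)
      (bal L ρ) μ := by
    intro l
    refine Dri.intg_on hB ((((Dri.et_contOn P hρ1).norm).pow l).mul hrc) (1 * (F 1).re ^ 2) ?_
    intro y hy
    rw [norm_mul, norm_pow, norm_pow, norm_norm, Real.norm_eq_abs, sq_abs]
    exact mul_le_mul (pow_le_one₀ (norm_nonneg _) (hη1 y hy))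
      (Dri.res_le P cl ht hA hAt y) (sq_nonneg _) zero_le_one
  set fr : G → ℝ := ((bal L (ρ / 2) : Set G)ᶜ).indicator (fun _ => 1) with hfr
  have hres2 : Continuous fun y => res L F y ^ 2 := (res_cont L cl.diff).pow 2
  have hfri : Integrable (fun y => fr y * res L F y ^ 2) μ := by
    have e : (fun y => fr y * res L F y ^ 2) =
        ((bal L (ρ / 2) : Set G)ᶜ).indicator (fun y => res L F y ^ 2) := by
      funext y
      rw [hfr]
      by_cases hy : y ∈ (bal L (ρ / 2) : Set G)ᶜ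
      · simp only [Set.indicator_of_mem hy, one_mul]
      · simp only [Set.indicator_of_notMem hy, zero_mul]
    rw [e]
    exact (intg μ hres2).indicator hB2
  have hfrT : ∫ y in bal L ρ, fr y * res L F y ^ 2 ∂μ ≤
      ∫ y in (bal L (ρ / 2) : Set G)ᶜ, res L F y ^ 2 ∂μ := by
    have h1 : ∫ y in bal L ρ, fr y * res L F y ^ 2 ∂μ ≤ ∫ y, fr y * res L F y ^ 2 ∂μ :=
      setIntegral_le_integral hfri (Filter.Eventually.of_forall fun y => by
        show 0 ≤ fr y * res L F y ^ 2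
        refine mul_nonneg ?_ (sq_nonneg _)
        rw [hfr]
        exact Set.indicator_nonneg (fun _ _ => zero_le_one) y)
    refine h1.trans (le_of_eq ?_)
    rw [← integral_indicator hB2]
    refine integral_congr_ae (Filter.Eventually.of_forall fun y => ?_)
    show fr y * res L F y ^ 2 = _
    rw [hfr]
    by_cases hy : y ∈ (bal L (ρ / 2) : Set G)ᶜ
    · simp only [Set.indicator_of_mem hy, one_mul]
    · simp only [Set.indicator_of_notMem hy, zero_mul]
  have hpt : ∀ y ∈ (bal L ρ : Set G),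
      ‖(∏ i, crd L D (Y i) y) * crd L D X y * res L F y ^ 2 -
        t / 2 * (dsum Y (V0 ((Dri.et L D y : gC L) : Mt m) X) ((Dri.et L D y : gC L) : Mt m) *
          res L F y ^ 2) + t / 2 * d y‖ ≤
      K1 * (fr y * res L F y ^ 2) + a1 * t * (‖Dri.et L D y‖ ^ (k + 3) * res L F y ^ 2) +
        b1 * A * t * (‖Dri.et L D y‖ ^ (k + 4) * res L F y ^ 2) := by
    intro y hy
    have hn1 := hη1 y hy
    have hn0 : 0 ≤ ‖Dri.et L D y‖ := norm_nonneg _
    obtain ⟨W, hW1, hW2⟩ : ∃ W : ℝ, |∏ i, crd L D (Y i) y| * |W| ≤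
        y1 * ‖Dri.et L D y‖ ^ (k + 1) * (16 * A * ‖Dri.et L D y‖ ^ 3 * x) ∧
        (∏ i, crd L D (Y i) y) * (t * dfy L F (Xc : Mt m) y) =
        (∏ i, crd L D (Y i) y) * (res L F y * (-crd L D X y - t * W)) := by
      by_cases h0 : Dri.et L D y = 0
      · refine ⟨0, ?_, ?_⟩
        · rw [abs_zero, mul_zero]; positivity
        · have h1 := hPle y
          rw [h0, norm_zero, zero_pow (Nat.succ_ne_zero k), mul_zero] at h1
          rw [abs_nonpos_iff.1 h1, zero_mul, zero_mul]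
      · obtain ⟨W, h1, h2⟩ := dfy_eq P cl ht hA hXl (hlt y hy) h0
        refine ⟨W, mul_le_mul (hPle y) h1 (abs_nonneg _) (by positivity), ?_⟩
        rw [hXc, h2]
        rfl
    have e := J_alg (c := cut ρ (dis L y ^ 2)) (c' := c' (dis L y ^ 2))
      (q' := -(2 * ipr 1 ((Xc : Mt m) * L.rho y)))
      (SV := dsum Y (V y) ((Dri.et L D y : gC L) : Mt m))
      (S0 := dsum Y (V0 ((Dri.et L D y : gC L) : Mt m) X) ((Dri.et L D y : gC L) : Mt m)) hW2
    rw [hd]
    simp only [Set.indicator_of_mem hy]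
    rw [e, Real.norm_eq_abs]
    have hfr0 : 0 ≤ fr y := by
      rw [hfr]
      exact Set.indicator_nonneg (fun _ _ => zero_le_one) y
    refine J_bound (y1 := y1) (x := x) (K := K) (k1 := k1) (k := k) (A := A)
      (n := ‖Dri.et L D y‖) ht hts1 hA hn0 hn1 hx0 hy10 hk10 hK.le
      (cut_nonneg _ _) (cut_le_one _ _) hfr0 ?_ ?_ (hq y) (hPle y) ?_ ?_ ?_ hW1
    · by_cases h1 : y ∈ (bal L (ρ / 2) : Set G)ᶜ
      · rw [hfr, Set.indicator_of_mem h1]
        have h2 := cut_nonneg ρ (dis L y ^ 2)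
        have h3 := cut_le_one ρ (dis L y ^ 2)
        rw [abs_le]
        constructor <;> linarith
      · rw [hfr, Set.indicator_of_notMem h1]
        have h2 : dis L y < ρ / 2 := not_not.1 h1
        have h3 : dis L y ^ 2 ≤ ρ ^ 2 / 4 := by
          have h4 : 0 ≤ dis L y := norm_nonneg _
          nlinarith
        rw [cut_one hρ h3, sub_self, abs_zero]
    · by_cases h1 : y ∈ (bal L (ρ / 2) : Set G)ᶜ
      · rw [hfr, Set.indicator_of_mem h1, mul_one]
        exact hc'1 _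
      · rw [hfr, Set.indicator_of_notMem h1, mul_zero]
        have h2 : dis L y < ρ / 2 := not_not.1 h1
        have h3 : dis L y ^ 2 < ρ ^ 2 / 4 := by
          have h4 : 0 ≤ dis L y := norm_nonneg _
          nlinarith
        rw [hc'2 _ h3, abs_zero]
    · exact ipr_abs_le _ _
    · refine (dsum_le hy0 _ _).trans ?_
      exact mul_le_mul_of_nonneg_right (mul_le_mul_of_nonneg_left (hV0x y hy) (by positivity))
        (by positivity)
    · rw [dsum_sub]
      refine (dsum_le hy0 _ _).trans ?_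
      exact mul_le_mul_of_nonneg_right (mul_le_mul_of_nonneg_left (hV0 y hy) (by positivity))
        (by positivity)
  have hI : IntegrableOn (fun y => K1 * (fr y * res L F y ^ 2) +
      a1 * t * (‖Dri.et L D y‖ ^ (k + 3) * res L F y ^ 2) +
        b1 * A * t * (‖Dri.et L D y‖ ^ (k + 4) * res L F y ^ 2)) (bal L ρ) μ :=
    ((hfri.integrableOn.const_mul _).add ((hint3 _).const_mul _)).add ((hint3 _).const_mul _)
  have hfin := norm_integral_le_of_norm_le hI
    ((ae_restrict_iff' hB).2 (Filter.Eventually.of_forall hpt))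
  have hsum : ∫ y in bal L ρ, (K1 * (fr y * res L F y ^ 2) +
      a1 * t * (‖Dri.et L D y‖ ^ (k + 3) * res L F y ^ 2) +
        b1 * A * t * (‖Dri.et L D y‖ ^ (k + 4) * res L F y ^ 2)) ∂μ =
      K1 * ∫ y in bal L ρ, fr y * res L F y ^ 2 ∂μ +
      a1 * t * ∫ y in bal L ρ, ‖Dri.et L D y‖ ^ (k + 3) * res L F y ^ 2 ∂μ +
        b1 * A * t * ∫ y in bal L ρ, ‖Dri.et L D y‖ ^ (k + 4) * res L F y ^ 2 ∂μ := by
    have h1 := integral_add (μ := μ.restrict (bal L ρ))
      (f := fun y => K1 * (fr y * res L F y ^ 2) +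
      a1 * t * (‖Dri.et L D y‖ ^ (k + 3) * res L F y ^ 2))
      (g := fun y => b1 * A * t * (‖Dri.et L D y‖ ^ (k + 4) * res L F y ^ 2))
      ((hfri.integrableOn.const_mul _).add ((hint3 _).const_mul _)) ((hint3 _).const_mul _)
    have h2 := integral_add (μ := μ.restrict (bal L ρ))
      (f := fun y => K1 * (fr y * res L F y ^ 2))
      (g := fun y => a1 * t * (‖Dri.et L D y‖ ^ (k + 3) * res L F y ^ 2))
      (hfri.integrableOn.const_mul _) ((hint3 _).const_mul _)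
    rw [h1, h2, integral_const_mul, integral_const_mul, integral_const_mul]
  rw [hsum, Real.norm_eq_abs] at hfin
  exact hfin.trans (c1_arith ht hts1 hA hVn hK10 ha10 hb10 hCt.le hC1.le hC2.le
    (hfrT.trans hT) hI3 hI4)

end

end Pool.Agent.T2H04.HY
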