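import Mathlib
import Pool.Agent.T2H04.HY.TlC1

/-!
# Second and fourth moments to second order (package PC)

Notation: `V = ∫ res²`, `η = et L D y = log y` for `dis y < r0/20`, `B = bal L ρ`, `e_a = ⟨E_a, η⟩`.
`res L F y ^ 2 = F1² exp (- ‖η‖² / t - 2 w η)` on `B`, `‖w η‖ ≤ A ‖η‖⁴`.

`momk` (all moments) and `tail2` follow from `Dri.res_le'`/`Dri.F_sq_le` (`res² ≤ F1² exp(-c d²/t)`, for
all `y` far from `1` exponentially small), `gauss_moment` (with a smaller constant `a` in the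
exponential; `x^k exp(-c x) ≤ C_k exp(-c x/2)`) and `ccv_one_lower` (`V ≥ F1² e^{-51/50} μ(bal √t)`);
see the proof of `drift` in `Drift.lean`.

Integration by parts. Let `X ∈ lieSet L`, `χ : ℝ → ℝ` smooth, `χ = 1` on `[0, ρ²/4]`, `0` outside
`[0, ρ²]` (`Real.smoothTransition`), `p` a polynomial in the coordinates `e_a`. The function
`H(y) = χ (dis y ²) p(log y) (res y)²` (extended by `0`) is continuous and differentiable along
`s ↦ exp(sX) y`; `∫ H(exp(sX) y) dμ(y)` does not depend on `s`, so `∫ ∂_X H = 0` (compare `ibp`,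
`mv_main`, `mv_hd` in `CovB.lean`; a general lemma: if `H`, `H'` are continuous on `G` and
`HasDerivAt (fun s => H (g_s y)) (H' y) 0` for all `y`, where `rho g_s = exp (s X)`, then `∫ H' = 0`).
On `B`: `∂_X (‖η‖²) = 2 ⟨X, η⟩` (`cvy_q_deriv` / `curve_log`), `|∂_X (w η)| ≤ C A ‖X‖ ‖η‖³` (`curve_w`),
`∂_X η = X - ½ [η, X] + 1/12 ad_η² X + O(‖X‖ ‖η‖³)` (`log_deriv_expand`: `Y' = A + bB1 η A + bB2 η A`,
error `160 ‖η‖³ ‖A‖`). So, `E` the expectation for the density `res²/V`,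
`E[p ⟨X,η⟩] = t/2 E[∂_X p] - t E[p ∂_X w] + O(exp(-c/t))` (`*`)
(the terms with `χ'` live on `dis ≥ ρ/2`: exponentially small).

`mom2`: `p = ⟨Y, η⟩`: `∂_X p = ⟨Y, X⟩ - ½ ⟨Y, [η, X]⟩ + 1/12 ⟨Y, ad_η² X⟩ + O(‖η‖³)`. The middle term has
expectation `0` (symmetry `y → y⁻¹`: `res y⁻¹ = res y`, `log y⁻¹ = -log y`, `dis y⁻¹ = dis y`).
`E ⟨Y, ad_η² X⟩ = -E ⟨[η,Y],[η,X]⟩`, with the crude covariance `E e_a e_b = t/2 δ_ab + O(t(√t + A t))`
(`covar`, polarised, or (`*`) itself with `p = ⟨Y,η⟩` to first order)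
`= -t/2 ∑_a ⟨[E_a,Y],[E_a,X]⟩ + .. = - t/2 cas ⟨Y,X⟩ + O(t (√t + A t))`. And
`t E |p ∂_X w| ≤ C A t E‖η‖⁴ ≤ C A t³`, `t/2 E‖η‖³ ≤ C t^{5/2}`. Together
`E ⟨Y,η⟩⟨X,η⟩ = t/2 ⟨X,Y⟩ (1 - cas t/24) + O((1 + A) t^{5/2})` (`t² (√t + A t) ≤ (1+A) t^{5/2}`).

`mom4`: `p = e_b e_c e_d`, `X = E_a`: `∂_X p = ∑ (δ_ab + O(‖η‖)) e_c e_d`; the `O(‖η‖)` term is
`-½ ⟨E_b, [η, E_a]⟩` which gives an odd integrand, expectation `0`, then `O(‖η‖²)·‖η‖²`, so
`E[p e_a] = t/2 (δ_ab E e_c e_d + ..) + O(t·t²) + O(t A t³) = t²/4 (..) + O((1+A) t^{5/2})`.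
-/

open MeasureTheory Matrix Filter
open scoped Matrix.Norms.Frobenius Topology

namespace Pool.Agent.T2H04.HY

set_option linter.unusedSectionVars false

noncomputable section

variable {G : Type} [Group G] [TopologicalSpace G] [IsTopologicalGroup G] [CompactSpace G]
  [MeasurableSpace G] [BorelSpace G] {μ : Measure G} [μ.IsHaarMeasure] [IsProbabilityMeasure μ]
  {m : Type} [Fintype m] [DecidableEq m] {L : RD G m}

namespace TlM

/-! ### algebra -/

theorem ipr_add_left (X Y Z : Mt m) : ipr (X + Y) Z = ipr X Z + ipr Y Z := by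
  rw [Dri.ipr_comm, Dri.ipr_add, Dri.ipr_comm Z X, Dri.ipr_comm Z Y]

theorem ipr_smul_left (c : ℝ) (X Y : Mt m) : ipr (c • X) Y = c * ipr X Y := by
  rw [Dri.ipr_comm, Dri.ipr_smul, Dri.ipr_comm]

theorem ipr_sum_left {ι : Type*} (s : Finset ι) (X : ι → Mt m) (Y : Mt m) :
    ipr (∑ i ∈ s, X i) Y = ∑ i ∈ s, ipr (X i) Y := by
  rw [Dri.ipr_comm, Dri.ipr_sum]
  exact Finset.sum_congr rfl fun i _ => Dri.ipr_comm _ _

theorem norm_add_sq' (U V : Mt m) : ‖U + V‖ ^ 2 = ‖U‖ ^ 2 + 2 * ipr U V + ‖V‖ ^ 2 := by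
  rw [← Dri.ipr_self, Dri.ipr_add, ipr_add_left, ipr_add_left, Dri.ipr_comm V U, Dri.ipr_self,
    Dri.ipr_self]
  ring

theorem ad_skew {η : Mt m} (hη : ηᴴ = -η) (X Y : Mt m) : ipr Y (ad η X) = -ipr (ad η Y) X := by
  unfold ipr ad
  have h1 : (η * Y - Y * η)ᴴ = -(Yᴴ * η - η * Yᴴ) := by
    rw [conjTranspose_sub, conjTranspose_mul, conjTranspose_mul, hη]
    noncomm_ring
  rw [h1, neg_mul, trace_neg, Complex.neg_re, neg_neg]
  congr 1
  rw [mul_sub, sub_mul, trace_sub, trace_sub]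
  congr 1
  · rw [mul_assoc]
  · rw [← mul_assoc, trace_mul_comm, ← mul_assoc]

theorem ad_add_right (X Y Z : Mt m) : ad X (Y + Z) = ad X Y + ad X Z := by
  unfold ad
  noncomm_ring

theorem ad_neg_left (X Y : Mt m) : ad (-X) Y = -ad X Y := by
  unfold ad
  noncomm_ring

theorem ad_sum_left {n : ℕ} (c : Fin n → ℝ) (E : Fin n → Mt m) (Y : Mt m) :
    ad (∑ a, c a • E a) Y = ∑ a, c a • ad (E a) Y := by
  unfold ad
  rw [Finset.sum_mul, Finset.mul_sum, ← Finset.sum_sub_distrib]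
  refine Finset.sum_congr rfl fun a _ => ?_
  rw [smul_mul_assoc, mul_smul_comm, smul_sub]

theorem norm_ad_le (X Y : Mt m) : ‖ad X Y‖ ≤ 2 * ‖X‖ * ‖Y‖ := by
  unfold ad
  refine (norm_sub_le _ _).trans ?_
  have h1 := norm_mul_le X Y
  have h2 := norm_mul_le Y X
  nlinarith

/-- expansion in an orthonormal basis -/
theorem expand {n : ℕ} {E : Fin n → Mt m}
    (orth : ∀ a b, (trace ((E a)ᴴ * E b)).re = if a = b then 1 else 0) {Z : Mt m}
    (hZ : Z ∈ Submodule.span ℝ (Set.range E)) : ∑ a, ipr (E a) Z • E a = Z := by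
  obtain ⟨c, hc⟩ := (Submodule.mem_span_range_iff_exists_fun ℝ).1 hZ
  have h1 : ∀ a, ipr (E a) Z = c a := by
    intro a
    rw [← hc, Dri.ipr_sum]
    have : ∀ b, ipr (E a) (c b • E b) = if a = b then c b else 0 := by
      intro b
      rw [Dri.ipr_smul]
      unfold ipr
      rw [orth]
      split_ifs <;> simp
    simp only [this, Finset.sum_ite_eq, Finset.mem_univ, if_true]
  simp only [h1, hc]

theorem cas_polar {n : ℕ} {E : Fin n → Mt m} {cas : ℝ}
    (hcas : ∀ X ∈ lieSet L, ∑ a, ‖E a * X - X * E a‖ ^ 2 = cas * ‖X‖ ^ 2) {X Y : Mt m}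
    (hX : X ∈ lieSet L) (hY : Y ∈ lieSet L) :
    ∑ c, ipr (ad (E c) X) (ad (E c) Y) = cas * ipr X Y := by
  have h1 := hcas _ hX
  have h2 := hcas _ hY
  have h3 := hcas _ (lie_add L hX hY)
  have e1 : ∀ c, ‖E c * (X + Y) - (X + Y) * E c‖ ^ 2 = ‖E c * X - X * E c‖ ^ 2 +
      2 * ipr (ad (E c) X) (ad (E c) Y) + ‖E c * Y - Y * E c‖ ^ 2 := by
    intro c
    have h4 := norm_add_sq' (ad (E c) X) (ad (E c) Y)
    rw [← ad_add_right] at h4
    exact h4
  simp only [e1, Finset.sum_add_distrib, ← Finset.mul_sum] at h3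
  rw [h1, h2, norm_add_sq'] at h3
  linarith

/-! ### symmetry of the logarithm -/

section

variable {D : LogData m} {εg δ r0 r s b r' : ℝ} (P : Par L D εg δ r0 r s b r')
    {F : Mt m → ℂ} {t A : ℝ} (cl : Cls L F t A r (r0 / 4) s b (1 / 10000))
    (ht : 0 < t) (hA : 0 ≤ A) (hAt : A * t ≤ 1 / 10)

include P in
theorem et_inv {y : G} (hy : dis L y < r0 / 20) : Dri.et L D y⁻¹ = -Dri.et L D y := by
  have hr0 := P.r0_pos
  have hδ := P.r0_δ
  have hR := P.ch.le_R
  have hyδ : dis L y < δ := by linarith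
  have hlt := Dri.et_lt P hy
  set η := Dri.et L D y with hηd
  have ey : L.rho y = NormedSpace.exp (η : Mt m) := (Dri.et_exp P.ch hyδ).symm
  have ey' : L.rho y⁻¹ = NormedSpace.exp ((-η : gC L) : Mt m) := by
    have h3 : L.rho y⁻¹ * (L.rho y * NormedSpace.exp (-(η : Mt m))) = L.rho y⁻¹ := by
      rw [ey, exp_mul_exp_neg, mul_one]
    rw [← mul_assoc, rho_inv_mul, one_mul] at h3
    rw [NegMemClass.coe_neg]
    exact h3.symm
  have hn : ‖((-η : gC L) : Mt m)‖ < D.R := by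
    have : ‖((-η : gC L) : Mt m)‖ = ‖-η‖ := rfl
    rw [this, norm_neg]
    linarith
  show prj L (D.lg (L.rho y⁻¹)) = -η
  rw [ey', D.lg_exp _ hn, prj_coe]

include cl in
theorem res_inv (y : G) : res L F y⁻¹ = res L F y := by
  unfold res
  rw [← L.sig_rho, cl.inv]

include P in
theorem et_inv_coe {y : G} (hy : dis L y < r0 / 20) :
    ((Dri.et L D y⁻¹ : gC L) : Mt m) = -((Dri.et L D y : gC L) : Mt m) := by
  rw [et_inv P hy]
  rfl

include P in
theorem crd_inv (X : Mt m) {y : G} (hy : dis L y < r0 / 20) : crd L D X y⁻¹ = -crd L D X y := by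
  unfold crd
  rw [et_inv_coe P hy, Dri.ipr_neg]

theorem dis_inv (w : G) : dis L w⁻¹ = dis L w := by
  have h1 : dis L w⁻¹ = ‖L.rho w⁻¹ * (1 - L.rho w)‖ := by
    unfold dis
    rw [mul_sub, mul_one, ← map_mul, inv_mul_cancel, map_one]
  rw [h1, fw_norm_unitary_mul _ (L.unit _), norm_sub_rev]
  rfl

include cl in
theorem oddM {ρ : ℝ} {f : G → ℝ} (hf : ∀ y ∈ bal L ρ, f y⁻¹ = -f y) :
    ∫ y in bal L ρ, f y * res L F y ^ 2 ∂μ = 0 := by
  have hinv := inv_inv' μ
  have hB : MeasurableSet (bal L ρ : Set G) := (isOpen_bal L ρ).measurableSet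
  rw [← integral_indicator hB]
  set g : G → ℝ := (bal L ρ : Set G).indicator (fun y => f y * res L F y ^ 2) with hg
  have h1 : ∀ y, g y⁻¹ = -g y := by
    intro y
    by_cases hy : y ∈ (bal L ρ : Set G)
    · have hy' : y⁻¹ ∈ (bal L ρ : Set G) := by
        show dis L y⁻¹ < ρ
        rw [dis_inv]
        exact hy
      rw [hg, Set.indicator_of_mem hy', Set.indicator_of_mem hy, hf y hy, res_inv cl]
      ring
    · have hy' : y⁻¹ ∉ (bal L ρ : Set G) := by
        intro h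
        apply hy
        have h2 : dis L y⁻¹ < ρ := h
        rw [dis_inv] at h2
        exact h2
      rw [hg, Set.indicator_of_notMem hy', Set.indicator_of_notMem hy, neg_zero]
  have h2 := integral_inv_eq_self g μ
  simp only [h1, integral_neg] at h2
  linarith

/-! ### continuity and integrability -/

include P in
theorem etm_cont {ρ : ℝ} (hρ : ρ ≤ r0 / 20) :
    ContinuousOn (fun y : G => ((Dri.et L D y : gC L) : Mt m)) (bal L ρ : Set G) :=
  continuous_subtype_val.comp_continuousOn (Dri.et_contOn P hρ)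

include P in
theorem crd_cont {ρ : ℝ} (hρ : ρ ≤ r0 / 20) (X : Mt m) :
    ContinuousOn (fun y : G => crd L D X y) (bal L ρ : Set G) :=
  (iprL X).continuous.comp_continuousOn (etm_cont P hρ)

include P in
theorem ad1_cont {ρ : ℝ} (hρ : ρ ≤ r0 / 20) (Y X : Mt m) :
    ContinuousOn (fun y : G => ipr Y (ad ((Dri.et L D y : gC L) : Mt m) X)) (bal L ρ : Set G) := by
  have h := etm_cont P hρ
  refine (iprL Y).continuous.comp_continuousOn ?_
  unfold ad
  exact (h.mul continuousOn_const).sub (continuousOn_const.mul h)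

include P in
theorem ad2_cont {ρ : ℝ} (hρ : ρ ≤ r0 / 20) (Y X : Mt m) :
    ContinuousOn (fun y : G => ipr Y (ad ((Dri.et L D y : gC L) : Mt m)
      (ad ((Dri.et L D y : gC L) : Mt m) X))) (bal L ρ : Set G) := by
  have h := etm_cont P hρ
  refine (iprL Y).continuous.comp_continuousOn ?_
  unfold ad
  have h2 : ContinuousOn (fun y : G => ((Dri.et L D y : gC L) : Mt m) * X -
      X * ((Dri.et L D y : gC L) : Mt m)) (bal L ρ : Set G) :=
    (h.mul continuousOn_const).sub (continuousOn_const.mul h)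
  exact (h.mul h2).sub (h2.mul h)

theorem crd_le (X : Mt m) (y : G) : |crd L D X y| ≤ ‖X‖ * ‖Dri.et L D y‖ :=
  Dri.abs_ipr_le X ((Dri.et L D y : gC L) : Mt m)

theorem ad1_le (Y X : Mt m) (y : G) :
    |ipr Y (ad ((Dri.et L D y : gC L) : Mt m) X)| ≤ 2 * ‖Y‖ * ‖X‖ * ‖Dri.et L D y‖ := by
  refine (Dri.abs_ipr_le _ _).trans ?_
  have h := norm_ad_le ((Dri.et L D y : gC L) : Mt m) X
  have e : ‖((Dri.et L D y : gC L) : Mt m)‖ = ‖Dri.et L D y‖ := rfl
  rw [e] at h
  calc _ ≤ ‖Y‖ * (2 * ‖Dri.et L D y‖ * ‖X‖) := mul_le_mul_of_nonneg_left h (norm_nonneg _)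
    _ = _ := by ring

theorem ad2_le (Y X : Mt m) (y : G) :
    |ipr Y (ad ((Dri.et L D y : gC L) : Mt m) (ad ((Dri.et L D y : gC L) : Mt m) X))| ≤
      4 * ‖Y‖ * ‖X‖ * ‖Dri.et L D y‖ ^ 2 := by
  refine (Dri.abs_ipr_le _ _).trans ?_
  have h := norm_ad_le ((Dri.et L D y : gC L) : Mt m) X
  have h2 := norm_ad_le ((Dri.et L D y : gC L) : Mt m) (ad ((Dri.et L D y : gC L) : Mt m) X)
  have e : ‖((Dri.et L D y : gC L) : Mt m)‖ = ‖Dri.et L D y‖ := rfl
  rw [e] at h h2
  have h3 : ‖ad ((Dri.et L D y : gC L) : Mt m) (ad ((Dri.et L D y : gC L) : Mt m) X)‖ ≤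
      2 * ‖Dri.et L D y‖ * (2 * ‖Dri.et L D y‖ * ‖X‖) :=
    h2.trans (mul_le_mul_of_nonneg_left h (by positivity))
  calc _ ≤ ‖Y‖ * (2 * ‖Dri.et L D y‖ * (2 * ‖Dri.et L D y‖ * ‖X‖)) :=
        mul_le_mul_of_nonneg_left h3 (norm_nonneg _)
    _ = _ := by ring

include P cl ht hA hAt in
theorem intM {ρ : ℝ} {f : G → ℝ} (hf : ContinuousOn f (bal L ρ : Set G)) (K : ℝ)
    (hK : ∀ y ∈ (bal L ρ : Set G), |f y| ≤ K) :
    IntegrableOn (fun y : G => f y * res L F y ^ 2) (bal L ρ) μ := by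
  have hB : MeasurableSet (bal L ρ : Set G) := (isOpen_bal L ρ).measurableSet
  refine Dri.intg_on hB (hf.mul ((res_cont L cl.diff).pow 2).continuousOn)
    (K * (F 1).re ^ 2) ?_
  intro y hy
  rw [norm_mul, norm_pow, Real.norm_eq_abs, Real.norm_eq_abs, sq_abs (res L F y)]
  exact mul_le_mul (hK y hy) (Dri.res_le P cl ht hA hAt y) (sq_nonneg _)
    ((abs_nonneg _).trans (hK y hy))

include P cl ht hA hAt in
/-- bound of an average by a moment -/
theorem absM {ρ : ℝ} (hρ : ρ ≤ r0 / 20) {f : G → ℝ} (hf : ContinuousOn f (bal L ρ : Set G))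
    {K : ℝ} {k : ℕ} (hK : ∀ y ∈ (bal L ρ : Set G), |f y| ≤ K * ‖Dri.et L D y‖ ^ k)
    {B : ℝ} (hB : ∫ y in bal L ρ, ‖Dri.et L D y‖ ^ k * res L F y ^ 2 ∂μ ≤ B) (hK0 : 0 ≤ K) :
    |∫ y in bal L ρ, f y * res L F y ^ 2 ∂μ| ≤ K * B := by
  have hBm : MeasurableSet (bal L ρ : Set G) := (isOpen_bal L ρ).measurableSet
  have hlt : ∀ y ∈ (bal L ρ : Set G), dis L y < r0 / 20 := fun y hy => lt_of_lt_of_le hy hρ
  have hk1 : ∀ y ∈ (bal L ρ : Set G), ‖Dri.et L D y‖ ^ k ≤ 1 := fun y hy =>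
    pow_le_one₀ (norm_nonneg _) (Dri.et_le_one P (hlt y hy))
  have hi2 : IntegrableOn (fun y : G => ‖Dri.et L D y‖ ^ k * res L F y ^ 2) (bal L ρ) μ := by
    refine intM P cl ht hA hAt (f := fun y : G => ‖Dri.et L D y‖ ^ k)
      (((Dri.et_contOn P hρ).norm).pow k) 1 ?_
    intro y hy
    rw [abs_of_nonneg (by positivity)]
    exact hk1 y hy
  refine le_trans ?_ (mul_le_mul_of_nonneg_left hB hK0)
  rw [← integral_const_mul]
  have hn := norm_integral_le_integral_norm (μ := μ.restrict (bal L ρ))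
    (fun y => f y * res L F y ^ 2)
  rw [Real.norm_eq_abs] at hn
  refine hn.trans ?_
  refine setIntegral_mono_on ?_ (hi2.const_mul K) hBm ?_
  · exact (intM P cl ht hA hAt hf K (fun y hy => (hK y hy).trans
      (mul_le_of_le_one_right hK0 (hk1 y hy)))).norm
  · intro y hy
    rw [norm_mul, norm_pow, Real.norm_eq_abs, Real.norm_eq_abs, sq_abs (res L F y), ← mul_assoc]
    exact mul_le_mul_of_nonneg_right (hK y hy) (sq_nonneg _)

include P cl ht hA hAt in
/-- the terms of the integration by parts formula -/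
theorem split {ρ : ℝ} (hρ : ρ ≤ r0 / 20) {f : G → ℝ} (hf : ContinuousOn f (bal L ρ : Set G))
    {K : ℝ} (hK : ∀ y ∈ (bal L ρ : Set G), |f y| ≤ K)
    (hev : ∀ y ∈ (bal L ρ : Set G), f y⁻¹ = f y) (Y X : Mt m) :
    ∫ y in bal L ρ, ipr Y (X - (1 / 2 : ℝ) • ad (Dri.et L D y : Mt m) X +
            (1 / 12 : ℝ) • ad (Dri.et L D y : Mt m) (ad (Dri.et L D y : Mt m) X)) *
              f y * res L F y ^ 2 ∂μ =
      ipr Y X * ∫ y in bal L ρ, f y * res L F y ^ 2 ∂μ +
      1 / 12 * ∫ y in bal L ρ, ipr Y (ad (Dri.et L D y : Mt m) (ad (Dri.et L D y : Mt m) X)) *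
        f y * res L F y ^ 2 ∂μ := by
  have hlt : ∀ y ∈ (bal L ρ : Set G), dis L y < r0 / 20 := fun y hy => lt_of_lt_of_le hy hρ
  have h1 : ∀ y ∈ (bal L ρ : Set G), ‖Dri.et L D y‖ ≤ 1 := fun y hy => Dri.et_le_one P (hlt y hy)
  have i0 := intM (μ := μ) P cl ht hA hAt hf K hK
  have i1 : IntegrableOn (fun y : G => (ipr Y (ad (Dri.et L D y : Mt m) X) * f y) *
      res L F y ^ 2) (bal L ρ) μ := by
    refine intM P cl ht hA hAt ((ad1_cont P hρ Y X).mul hf) (2 * ‖Y‖ * ‖X‖ * K) ?_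
    intro y hy
    rw [abs_mul]
    refine mul_le_mul ((ad1_le Y X y).trans (mul_le_of_le_one_right (by positivity) (h1 y hy)))
      (hK y hy) (abs_nonneg _) (by positivity)
  have i2 : IntegrableOn (fun y : G => (ipr Y (ad (Dri.et L D y : Mt m)
      (ad (Dri.et L D y : Mt m) X)) * f y) * res L F y ^ 2) (bal L ρ) μ := by
    refine intM P cl ht hA hAt ((ad2_cont P hρ Y X).mul hf) (4 * ‖Y‖ * ‖X‖ * K) ?_
    intro y hy
    rw [abs_mul]
    refine mul_le_mul ((ad2_le Y X y).trans (mul_le_of_le_one_right (by positivity)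
      (pow_le_one₀ (norm_nonneg _) (h1 y hy)))) (hK y hy) (abs_nonneg _) (by positivity)
  have h0 : ∫ y in bal L ρ, (ipr Y (ad (Dri.et L D y : Mt m) X) * f y) *
      res L F y ^ 2 ∂μ = 0 := by
    refine oddM cl (f := fun y : G => ipr Y (ad (Dri.et L D y : Mt m) X) * f y) ?_
    intro y hy
    show ipr Y (ad ((Dri.et L D y⁻¹ : gC L) : Mt m) X) * f y⁻¹ = _
    rw [et_inv_coe P (hlt y hy), ad_neg_left, Dri.ipr_neg, hev y hy, neg_mul]
  have e : ∀ y : G, ipr Y (X - (1 / 2 : ℝ) • ad (Dri.et L D y : Mt m) X +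
            (1 / 12 : ℝ) • ad (Dri.et L D y : Mt m) (ad (Dri.et L D y : Mt m) X)) *
              f y * res L F y ^ 2 = ipr Y X * (f y * res L F y ^ 2) -
            1 / 2 * ((ipr Y (ad (Dri.et L D y : Mt m) X) * f y) * res L F y ^ 2) +
            1 / 12 * ((ipr Y (ad (Dri.et L D y : Mt m)
              (ad (Dri.et L D y : Mt m) X)) * f y) * res L F y ^ 2) := by
    intro y
    rw [Dri.ipr_add, Dri.ipr_sub, Dri.ipr_smul, Dri.ipr_smul]
    ring
  simp only [e]
  have i01 : IntegrableOn (fun y : G => ipr Y X * (f y * res L F y ^ 2) -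
      1 / 2 * ((ipr Y (ad (Dri.et L D y : Mt m) X) * f y) * res L F y ^ 2)) (bal L ρ) μ :=
    (i0.const_mul _).sub (i1.const_mul _)
  rw [integral_add i01 (i2.const_mul _),
    integral_sub (i0.const_mul _) (i1.const_mul _), integral_const_mul, integral_const_mul,
    integral_const_mul, h0]
  ring

end

/-! ### uniform constants -/

theorem exists_lb {ι : Type*} [Fintype ι] (ts : ι → ℝ) (h : ∀ i, 0 < ts i) :
    ∃ t0 : ℝ, 0 < t0 ∧ t0 ≤ 1 ∧ ∀ i, t0 ≤ ts i := by
  have h1 : 0 ≤ ∑ i, 1 / ts i := Finset.sum_nonneg fun i _ => (one_div_pos.2 (h i)).le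
  refine ⟨1 / (1 + ∑ i, 1 / ts i), by positivity, ?_, fun i => ?_⟩
  · rw [div_le_one (by positivity)]
    linarith
  · rw [div_le_iff₀ (by positivity)]
    have h2 : 1 / ts i ≤ ∑ i, 1 / ts i :=
      Finset.single_le_sum (f := fun i => 1 / ts i) (fun i _ => (one_div_pos.2 (h i)).le)
        (Finset.mem_univ i)
    have h3 := mul_le_mul_of_nonneg_left h2 (h i).le
    rw [mul_one_div_cancel (h i).ne'] at h3
    nlinarith [h i]

theorem V_nonneg (F : Mt m → ℂ) : 0 ≤ ∫ y, res L F y ^ 2 ∂μ :=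
  integral_nonneg fun _ => sq_nonneg _

theorem V_intg {F : Mt m → ℂ} (hF : ContDiff ℂ 1 F) : Integrable (fun y => res L F y ^ 2) μ :=
  intg μ ((res_cont L hF).pow 2)

theorem norm_E {n : ℕ} {E : Fin n → Mt m}
    (orth : ∀ a b, (trace ((E a)ᴴ * E b)).re = if a = b then 1 else 0) (a : Fin n) :
    ‖E a‖ = 1 := by
  have h1 : ‖E a‖ ^ 2 = 1 := by
    rw [← Dri.ipr_self]
    unfold ipr
    rw [orth, if_pos rfl]
  have h2 := norm_nonneg (E a)
  nlinarith

/-- the first form of the covariance -/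
theorem step0 {D : LogData m} {εg δ r0 r s b r' : ℝ} (P : Par L D εg δ r0 r s b r') {ρ : ℝ}
    (hρ : 0 < ρ) (hρ1 : ρ ≤ r0 / 20) {n : ℕ} (E : Fin n → Mt m) (hE : ∀ a, E a ∈ lieSet L)
    (orth : ∀ a b, (trace ((E a)ᴴ * E b)).re = if a = b then 1 else 0) :
    ∃ C ts : ℝ, 0 < C ∧ 0 < ts ∧ ts ≤ 1 ∧ ∀ (F : Mt m → ℂ) (t A : ℝ), 0 < t → t ≤ ts → 0 ≤ A →
      A * t ≤ 1 / 10 → Cls L F t A r (r0 / 4) s b (1 / 10000) → ∀ a b,
        |∫ y in bal L ρ, crd L D (E a) y * crd L D (E b) y * res L F y ^ 2 ∂μ -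
          t / 2 * ((if a = b then 1 else 0) * (∫ y, res L F y ^ 2 ∂μ) +
            1 / 12 * ∫ y in bal L ρ, ipr (E a) (ad (Dri.et L D y : Mt m)
              (ad (Dri.et L D y : Mt m) (E b))) * res L F y ^ 2 ∂μ)| ≤
          C * (1 + A) * (t ^ 2 * Real.sqrt t) * ∫ y, res L F y ^ 2 ∂μ := by
  obtain ⟨Ct, tt, hCt, htt, htail⟩ := tail2 (μ := μ) P hρ hρ1
  choose C ts hC hts hi using fun p : Fin n × Fin n =>
    ibp_log (μ := μ) P hρ hρ1 0 (hE p.2) (Y := fun _ => E p.1) (fun _ => hE p.1)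
  obtain ⟨t0, ht0, ht01, ht0s⟩ := exists_lb ts hts
  have hCs : 0 ≤ ∑ p, C p := Finset.sum_nonneg fun p _ => (hC p).le
  refine ⟨∑ p, C p + Ct, min t0 tt, by positivity, lt_min ht0 htt, (min_le_left _ _).trans ht01,
    ?_⟩
  intro F t A ht hts' hA hAt cl a b
  have ht1 : t ≤ t0 := hts'.trans (min_le_left _ _)
  have ht2 : t ≤ tt := hts'.trans (min_le_right _ _)
  have htone : t ≤ 1 := ht1.trans ht01
  have h1 := hi (a, b) F t A ht (ht1.trans (ht0s _)) hA hAt cl
  have h2 := htail F t A ht ht2 hA hAt cl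
  have h3 := split (μ := μ) P cl ht hA hAt hρ1 (f := fun _ => (1 : ℝ)) continuousOn_const
    (K := 1) (fun y _ => by simp) (fun _ _ => rfl) (E a) (E b)
  simp only [mul_one, one_mul] at h3
  simp only [Nat.reduceAdd, Finset.univ_unique, Finset.prod_singleton, Finset.sum_singleton,
    Finset.erase_singleton, Finset.prod_empty, mul_one] at h1
  rw [h3] at h1
  have hB : MeasurableSet (bal L ρ : Set G) := (isOpen_bal L ρ).measurableSet
  have h4 := integral_add_compl hB (V_intg (L := L) (μ := μ) cl.diff)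
  have h5 : ipr (E a) (E b) = if a = b then 1 else 0 := orth a b
  rw [h5] at h1
  set V : ℝ := ∫ y, res L F y ^ 2 ∂μ with hV
  have hV0 : 0 ≤ V := V_nonneg F
  set M1 : ℝ := ∫ y in bal L ρ, res L F y ^ 2 ∂μ with hM1
  set Mc : ℝ := ∫ y in (bal L ρ : Set G)ᶜ, res L F y ^ 2 ∂μ with hMc
  set Q : ℝ := ∫ y in bal L ρ, ipr (E a) (ad (Dri.et L D y : Mt m)
              (ad (Dri.et L D y : Mt m) (E b))) * res L F y ^ 2 ∂μ with hQ
  set W : ℝ := ∫ y in bal L ρ, crd L D (E a) y * crd L D (E b) y * res L F y ^ 2 ∂μ with hW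
  have hMc0 : 0 ≤ Mc := integral_nonneg fun _ => sq_nonneg _
  have hq1 : Real.sqrt t ≤ 1 := Real.sqrt_le_one.2 htone
  have hq0 : 0 < Real.sqrt t := Real.sqrt_pos.2 ht
  have hqq : Real.sqrt t * Real.sqrt t = t := Real.mul_self_sqrt ht.le
  have htq : t ≤ Real.sqrt t := by nlinarith
  have h6 : C (a, b) ≤ ∑ p, C p :=
    Finset.single_le_sum (f := C) (fun p _ => (hC p).le) (Finset.mem_univ _)
  have e1 : W - t / 2 * ((if a = b then 1 else 0) * V + 1 / 12 * Q) =
      (W - t / 2 * ((if a = b then 1 else 0) * M1 + 1 / 12 * Q)) +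
        -(t / 2 * ((if a = b then 1 else 0) * Mc)) := by
    rw [← h4]
    ring
  have hif : |(if a = b then (1 : ℝ) else 0)| ≤ 1 := by split_ifs <;> simp
  have h7 : |-(t / 2 * ((if a = b then (1 : ℝ) else 0) * Mc))| ≤ t / 2 * (1 * (Ct * t ^ 3 * V)) := by
    rw [abs_neg, abs_mul, abs_mul, abs_of_pos (by positivity : 0 < t / 2), abs_of_nonneg hMc0]
    refine mul_le_mul_of_nonneg_left ?_ (by positivity)
    exact mul_le_mul hif h2 hMc0 zero_le_one
  have h8 : t / 2 * (1 * (Ct * t ^ 3 * V)) ≤ Ct * (1 + A) * (t ^ 2 * Real.sqrt t) * V := by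
    have h9 : t / 2 * (1 * (Ct * t ^ 3 * V)) = (Ct * t ^ 2 * V) * (t ^ 2 / 2) := by ring
    have h10 : Ct * (1 + A) * (t ^ 2 * Real.sqrt t) * V =
        (Ct * t ^ 2 * V) * ((1 + A) * Real.sqrt t) := by ring
    rw [h9, h10]
    refine mul_le_mul_of_nonneg_left ?_ (by positivity)
    nlinarith [mul_nonneg hA hq0.le]
  have h11 : C (a, b) * (1 + A) * (t ^ 2 * Real.sqrt t) * V ≤
      (∑ p, C p) * (1 + A) * (t ^ 2 * Real.sqrt t) * V := by
    refine mul_le_mul_of_nonneg_right (mul_le_mul_of_nonneg_right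
      (mul_le_mul_of_nonneg_right h6 (by positivity)) (by positivity)) hV0
  rw [e1]
  refine (abs_add_le _ _).trans ((add_le_add (h1.trans h11) (h7.trans h8)).trans (le_of_eq ?_))
  ring

/-- crude covariance -/
theorem cov0 {D : LogData m} {εg δ r0 r s b r' : ℝ} (P : Par L D εg δ r0 r s b r') {ρ : ℝ}
    (hρ : 0 < ρ) (hρ1 : ρ ≤ r0 / 20) {n : ℕ} (E : Fin n → Mt m) (hE : ∀ a, E a ∈ lieSet L)
    (orth : ∀ a b, (trace ((E a)ᴴ * E b)).re = if a = b then 1 else 0) :
    ∃ C ts : ℝ, 0 < C ∧ 0 < ts ∧ ts ≤ 1 ∧ ∀ (F : Mt m → ℂ) (t A : ℝ), 0 < t → t ≤ ts → 0 ≤ A →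
      A * t ≤ 1 / 10 → Cls L F t A r (r0 / 4) s b (1 / 10000) → ∀ a b,
        |∫ y in bal L ρ, crd L D (E a) y * crd L D (E b) y * res L F y ^ 2 ∂μ -
          (if a = b then t / 2 else 0) * (∫ y, res L F y ^ 2 ∂μ)| ≤
          C * (1 + A) * t ^ 2 * ∫ y, res L F y ^ 2 ∂μ := by
  obtain ⟨C, ts, hC, hts, hts1, h⟩ := step0 (μ := μ) P hρ hρ1 E hE orth
  obtain ⟨C2, t2, hC2, ht2, h2⟩ := momk (μ := μ) P 2
  refine ⟨C + C2, min ts t2, by positivity, lt_min hts ht2, (min_le_left _ _).trans hts1, ?_⟩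
  intro F t A ht hts' hA hAt cl a b
  have k1 : t ≤ ts := hts'.trans (min_le_left _ _)
  have k2 : t ≤ t2 := hts'.trans (min_le_right _ _)
  have htone : t ≤ 1 := k1.trans hts1
  have g1 := h F t A ht k1 hA hAt cl a b
  have g2 := h2 F t A ht k2 hA hAt cl ρ hρ1
  have g3 := absM (μ := μ) P cl ht hA hAt hρ1 (ad2_cont P hρ1 (E a) (E b))
    (K := 4 * ‖E a‖ * ‖E b‖) (k := 2) (fun y _ => ad2_le _ _ y) g2 (by positivity)
  rw [norm_E orth, norm_E orth] at g3
  set V : ℝ := ∫ y, res L F y ^ 2 ∂μ with hV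
  have hV0 : 0 ≤ V := V_nonneg F
  set Q : ℝ := ∫ y in bal L ρ, ipr (E a) (ad (Dri.et L D y : Mt m)
              (ad (Dri.et L D y : Mt m) (E b))) * res L F y ^ 2 ∂μ with hQ
  set W : ℝ := ∫ y in bal L ρ, crd L D (E a) y * crd L D (E b) y * res L F y ^ 2 ∂μ with hW
  have hq1 : Real.sqrt t ≤ 1 := Real.sqrt_le_one.2 htone
  have hq0 : 0 < Real.sqrt t := Real.sqrt_pos.2 ht
  have hqq : Real.sqrt t ^ 2 = t := Real.sq_sqrt ht.le
  rw [hqq] at g3
  have e1 : W - (if a = b then t / 2 else 0) * V =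
      (W - t / 2 * ((if a = b then 1 else 0) * V + 1 / 12 * Q)) + t / 24 * Q := by
    split_ifs <;> ring
  have h3 : |t / 24 * Q| ≤ C2 * (1 + A) * t ^ 2 * V := by
    rw [abs_mul, abs_of_pos (by positivity : 0 < t / 24)]
    calc t / 24 * |Q| ≤ t / 24 * (4 * 1 * 1 * (C2 * t * V)) :=
          mul_le_mul_of_nonneg_left g3 (by positivity)
      _ = 1 / 6 * (C2 * t ^ 2 * V) := by ring
      _ ≤ (1 + A) * (C2 * t ^ 2 * V) :=
          mul_le_mul_of_nonneg_right (by linarith) (by positivity)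
      _ = _ := by ring
  have h4 : C * (1 + A) * (t ^ 2 * Real.sqrt t) * V ≤ C * (1 + A) * t ^ 2 * V := by
    refine mul_le_mul_of_nonneg_right ?_ hV0
    calc C * (1 + A) * (t ^ 2 * Real.sqrt t) = C * (1 + A) * t ^ 2 * Real.sqrt t := by ring
      _ ≤ C * (1 + A) * t ^ 2 * 1 := mul_le_mul_of_nonneg_left hq1 (by positivity)
      _ = _ := mul_one _
  rw [e1]
  refine (abs_add_le _ _).trans ((add_le_add (g1.trans h4) h3).trans (le_of_eq ?_))
  ring

/-- the quadratic term in coordinates -/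
theorem ad2_expand {n : ℕ} {E : Fin n → Mt m}
    (orth : ∀ a b, (trace ((E a)ᴴ * E b)).re = if a = b then 1 else 0) {η : Mt m}
    (hs : ηᴴ = -η) (hη : η ∈ Submodule.span ℝ (Set.range E)) (Y X : Mt m) :
    ipr Y (ad η (ad η X)) =
      -∑ c, ∑ d, ipr (ad (E c) Y) (ad (E d) X) * (ipr (E c) η * ipr (E d) η) := by
  rw [ad_skew hs]
  congr 1
  have h := expand orth hη
  conv_lhs => rw [← h]
  rw [ad_sum_left, ad_sum_left, ipr_sum_left]
  refine Finset.sum_congr rfl fun c _ => ?_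
  rw [Dri.ipr_sum]
  refine Finset.sum_congr rfl fun d _ => ?_
  rw [ipr_smul_left, Dri.ipr_smul]
  ring

theorem sum3 (g f : Fin 3 → ℝ) : ∑ i, g i * ∏ j ∈ Finset.univ.erase i, f j =
    g 0 * (f 1 * f 2) + g 1 * (f 0 * f 2) + g 2 * (f 0 * f 1) := by
  have e0 : (Finset.univ.erase (0 : Fin 3)) = {1, 2} := by decide
  have e1 : (Finset.univ.erase (1 : Fin 3)) = {0, 2} := by decide
  have e2 : (Finset.univ.erase (2 : Fin 3)) = {0, 1} := by decide
  rw [Fin.sum_univ_three, e0, e1, e2, Finset.prod_pair (by decide), Finset.prod_pair (by decide),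
    Finset.prod_pair (by decide)]

end TlM

open TlM in
/-- the covariance -/
theorem mom2 {D : LogData m} {εg δ r0 r s b r' : ℝ} (P : Par L D εg δ r0 r s b r') {ρ : ℝ}
    (hρ : 0 < ρ) (hρ1 : ρ ≤ r0 / 20) {n : ℕ} (E : Fin n → Mt m) (hE : ∀ a, E a ∈ lieSet L)
    (orth : ∀ a b, (trace ((E a)ᴴ * E b)).re = if a = b then 1 else 0)
    (full : ∀ Y ∈ lieSet L, Y ∈ Submodule.span ℝ (Set.range E))
    (cas : ℝ) (hcas : ∀ X ∈ lieSet L, ∑ a, ‖E a * X - X * E a‖ ^ 2 = cas * ‖X‖ ^ 2) :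
    ∃ C ts : ℝ, 0 < C ∧ 0 < ts ∧ ∀ (F : Mt m → ℂ) (t A : ℝ), 0 < t → t ≤ ts → 0 ≤ A →
      A * t ≤ 1 / 10 → Cls L F t A r (r0 / 4) s b (1 / 10000) → ∀ a b,
        |∫ y in bal L ρ, crd L D (E a) y * crd L D (E b) y * res L F y ^ 2 ∂μ -
          (if a = b then t / 2 * (1 - cas * t / 24) else 0) * ∫ y, res L F y ^ 2 ∂μ| ≤
          C * (1 + A) * (t ^ 2 * Real.sqrt t) * ∫ y, res L F y ^ 2 ∂μ := by
  obtain ⟨C, ts, hC, hts, hts1, h⟩ := step0 (μ := μ) P hρ hρ1 E hE orth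
  obtain ⟨C2, t2, hC2, ht2, ht21, h2⟩ := cov0 (μ := μ) P hρ hρ1 E hE orth
  refine ⟨C + 4 * n ^ 2 * C2, min ts t2, by positivity, lt_min hts ht2, ?_⟩
  intro F t A ht hts' hA hAt cl a b
  have k1 : t ≤ ts := hts'.trans (min_le_left _ _)
  have k2 : t ≤ t2 := hts'.trans (min_le_right _ _)
  have htone : t ≤ 1 := k1.trans hts1
  have g1 := h F t A ht k1 hA hAt cl a b
  have g2 := h2 F t A ht k2 hA hAt cl
  have hr0 := P.r0_pos
  have hδ := P.r0_δ
  have hB : MeasurableSet (bal L ρ : Set G) := (isOpen_bal L ρ).measurableSet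
  have hlt : ∀ y ∈ (bal L ρ : Set G), dis L y < r0 / 20 := fun y hy => lt_of_lt_of_le hy hρ1
  -- the quadratic term
  have hQ : ∫ y in bal L ρ, ipr (E a) (ad (Dri.et L D y : Mt m)
              (ad (Dri.et L D y : Mt m) (E b))) * res L F y ^ 2 ∂μ =
      -∑ c, ∑ d, ipr (ad (E c) (E a)) (ad (E d) (E b)) *
        ∫ y in bal L ρ, crd L D (E c) y * crd L D (E d) y * res L F y ^ 2 ∂μ := by
    have hint : ∀ c d : Fin n, IntegrableOn (fun y : G => ipr (ad (E c) (E a)) (ad (E d) (E b)) *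
        (crd L D (E c) y * crd L D (E d) y * res L F y ^ 2)) (bal L ρ) μ := by
      intro c d
      refine Integrable.const_mul (intM P cl ht hA hAt
        (f := fun y : G => crd L D (E c) y * crd L D (E d) y)
        ((crd_cont P hρ1 _).mul (crd_cont P hρ1 _)) 1 ?_) _
      intro y hy
      have h1 : ∀ c, |crd L D (E c) y| ≤ 1 := fun c => by
        refine (crd_le (E c) y).trans ?_
        rw [norm_E orth, one_mul]
        exact Dri.et_le_one P (hlt y hy)
      rw [abs_mul]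
      exact mul_le_one₀ (h1 c) (abs_nonneg _) (h1 d)
    have e1 : ∫ y in bal L ρ, ipr (E a) (ad (Dri.et L D y : Mt m)
              (ad (Dri.et L D y : Mt m) (E b))) * res L F y ^ 2 ∂μ =
        ∫ y in bal L ρ, -∑ c, ∑ d, ipr (ad (E c) (E a)) (ad (E d) (E b)) *
          (crd L D (E c) y * crd L D (E d) y * res L F y ^ 2) ∂μ := by
      refine setIntegral_congr_fun hB fun y hy => ?_
      have hyd : dis L y < δ := by have := hlt y hy; linarith
      have hηl := Dri.et_lie P.ch hyd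
      show ipr (E a) (ad (Dri.et L D y : Mt m) (ad (Dri.et L D y : Mt m) (E b))) *
        res L F y ^ 2 = _
      rw [ad2_expand orth (lie_skew L hηl) (full _ hηl), neg_mul, Finset.sum_mul]
      congr 1
      refine Finset.sum_congr rfl fun c _ => ?_
      rw [Finset.sum_mul]
      refine Finset.sum_congr rfl fun d _ => ?_
      unfold crd
      ring
    rw [e1, integral_neg, integral_finsetSum _ (fun c _ => integrable_finsetSum _
      (fun d _ => hint c d))]
    congr 1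
    refine Finset.sum_congr rfl fun c _ => ?_
    rw [integral_finsetSum _ (fun d _ => hint c d)]
    exact Finset.sum_congr rfl fun d _ => integral_const_mul _ _
  set V : ℝ := ∫ y, res L F y ^ 2 ∂μ with hV
  have hV0 : 0 ≤ V := V_nonneg F
  set Q : ℝ := ∫ y in bal L ρ, ipr (E a) (ad (Dri.et L D y : Mt m)
              (ad (Dri.et L D y : Mt m) (E b))) * res L F y ^ 2 ∂μ with hQd
  set W : Fin n → Fin n → ℝ := fun c d =>
    ∫ y in bal L ρ, crd L D (E c) y * crd L D (E d) y * res L F y ^ 2 ∂μ with hW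
  have hcp := cas_polar hcas (hE a) (hE b)
  have hab : ipr (E a) (E b) = if a = b then 1 else 0 := orth a b
  have e2 : Q + cas * (if a = b then 1 else 0) * (t / 2 * V) =
      -∑ c, ∑ d, ipr (ad (E c) (E a)) (ad (E d) (E b)) *
        (W c d - (if c = d then t / 2 else 0) * V) := by
    have e3 : ∑ c, ∑ d, ipr (ad (E c) (E a)) (ad (E d) (E b)) *
        (W c d - (if c = d then t / 2 else 0) * V) =
        ∑ c, ∑ d, ipr (ad (E c) (E a)) (ad (E d) (E b)) * W c d -
          (∑ c, ipr (ad (E c) (E a)) (ad (E c) (E b))) * (t / 2 * V) := by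
      rw [Finset.sum_mul, ← Finset.sum_sub_distrib]
      refine Finset.sum_congr rfl fun c _ => ?_
      have e4 : ∀ d, ipr (ad (E c) (E a)) (ad (E d) (E b)) *
        (W c d - (if c = d then t / 2 else 0) * V) =
          ipr (ad (E c) (E a)) (ad (E d) (E b)) * W c d -
            (if c = d then ipr (ad (E c) (E a)) (ad (E d) (E b)) * (t / 2 * V) else 0) := by
        intro d
        split_ifs <;> ring
      simp only [e4, Finset.sum_sub_distrib, Finset.sum_ite_eq, Finset.mem_univ, if_true]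
    rw [e3, hcp, hab, hQ]
    ring
  have h3 : |Q + cas * (if a = b then 1 else 0) * (t / 2 * V)| ≤
      n ^ 2 * (4 * (C2 * (1 + A) * t ^ 2 * V)) := by
    rw [e2, abs_neg]
    refine (Finset.abs_sum_le_sum_abs _ _).trans ?_
    have h4 : ∀ c ∈ (Finset.univ : Finset (Fin n)), |∑ d, ipr (ad (E c) (E a)) (ad (E d) (E b)) *
        (W c d - (if c = d then t / 2 else 0) * V)| ≤ n * (4 * (C2 * (1 + A) * t ^ 2 * V)) := by
      intro c _
      refine (Finset.abs_sum_le_sum_abs _ _).trans ?_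
      have h5 : ∀ d ∈ (Finset.univ : Finset (Fin n)), |ipr (ad (E c) (E a)) (ad (E d) (E b)) *
        (W c d - (if c = d then t / 2 else 0) * V)| ≤ 4 * (C2 * (1 + A) * t ^ 2 * V) := by
        intro d _
        rw [abs_mul]
        refine mul_le_mul ?_ (g2 c d) (abs_nonneg _) (by norm_num)
        refine (Dri.abs_ipr_le _ _).trans ?_
        have h6 := norm_ad_le (E c) (E a)
        have h7 := norm_ad_le (E d) (E b)
        rw [norm_E orth, norm_E orth] at h6 h7
        calc _ ≤ (2 * 1 * 1) * (2 * 1 * 1 : ℝ) :=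
              mul_le_mul h6 h7 (norm_nonneg _) (by norm_num)
          _ = 4 := by norm_num
      refine (Finset.sum_le_card_nsmul _ _ _ h5).trans (le_of_eq ?_)
      rw [Finset.card_univ, Fintype.card_fin, nsmul_eq_mul]
    refine (Finset.sum_le_card_nsmul _ _ _ h4).trans (le_of_eq ?_)
    rw [Finset.card_univ, Fintype.card_fin, nsmul_eq_mul]
    ring
  have hq1 : Real.sqrt t ≤ 1 := Real.sqrt_le_one.2 htone
  have hq0 : 0 < Real.sqrt t := Real.sqrt_pos.2 ht
  have hqq : Real.sqrt t * Real.sqrt t = t := Real.mul_self_sqrt ht.le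
  have htq : t ≤ Real.sqrt t := by nlinarith
  have e5 : W a b - (if a = b then t / 2 * (1 - cas * t / 24) else 0) * V =
      (W a b - t / 2 * ((if a = b then 1 else 0) * V + 1 / 12 * Q)) +
        t / 24 * (Q + cas * (if a = b then 1 else 0) * (t / 2 * V)) := by
    split_ifs <;> ring
  have h8 : |t / 24 * (Q + cas * (if a = b then 1 else 0) * (t / 2 * V))| ≤
      4 * n ^ 2 * C2 * (1 + A) * (t ^ 2 * Real.sqrt t) * V := by
    rw [abs_mul, abs_of_pos (by positivity : 0 < t / 24)]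
    calc _ ≤ t / 24 * (n ^ 2 * (4 * (C2 * (1 + A) * t ^ 2 * V))) :=
          mul_le_mul_of_nonneg_left h3 (by positivity)
      _ = (4 * n ^ 2 * C2 * (1 + A) * t ^ 2 * V) * (t / 24) := by ring
      _ ≤ (4 * n ^ 2 * C2 * (1 + A) * t ^ 2 * V) * Real.sqrt t :=
          mul_le_mul_of_nonneg_left (by linarith) (by positivity)
      _ = _ := by ring
  show |W a b - _ * V| ≤ _
  rw [e5]
  refine (abs_add_le _ _).trans ((add_le_add g1 h8).trans (le_of_eq ?_))
  ring

open TlM in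
/-- the fourth moments -/
theorem mom4 {D : LogData m} {εg δ r0 r s b r' : ℝ} (P : Par L D εg δ r0 r s b r') {ρ : ℝ}
    (hρ : 0 < ρ) (hρ1 : ρ ≤ r0 / 20) {n : ℕ} (E : Fin n → Mt m) (hE : ∀ a, E a ∈ lieSet L)
    (orth : ∀ a b, (trace ((E a)ᴴ * E b)).re = if a = b then 1 else 0)
    (full : ∀ Y ∈ lieSet L, Y ∈ Submodule.span ℝ (Set.range E)) :
    ∃ C ts : ℝ, 0 < C ∧ 0 < ts ∧ ∀ (F : Mt m → ℂ) (t A : ℝ), 0 < t → t ≤ ts → 0 ≤ A →
      A * t ≤ 1 / 10 → Cls L F t A r (r0 / 4) s b (1 / 10000) → ∀ a b c d,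
        |∫ y in bal L ρ, crd L D (E a) y * crd L D (E b) y * (crd L D (E c) y * crd L D (E d) y) *
            res L F y ^ 2 ∂μ -
          t ^ 2 / 4 * ((if a = b then 1 else 0) * (if c = d then 1 else 0) +
            (if a = c then 1 else 0) * (if b = d then 1 else 0) +
            (if a = d then 1 else 0) * (if b = c then 1 else 0)) * ∫ y, res L F y ^ 2 ∂μ| ≤
          C * (1 + A) * (t ^ 2 * Real.sqrt t) * ∫ y, res L F y ^ 2 ∂μ := by
  obtain ⟨C2, t2, hC2, ht2, ht21, h2⟩ := cov0 (μ := μ) P hρ hρ1 E hE orth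
  obtain ⟨C4, t4, hC4, ht4, h4⟩ := momk (μ := μ) P 4
  choose C ts hC hts hi using fun p : (Fin n × Fin n) × Fin n × Fin n =>
    ibp_log (μ := μ) P hρ hρ1 2 (hE p.1.1) (Y := ![E p.1.2, E p.2.1, E p.2.2]) (by
      intro i
      fin_cases i
      · exact hE _
      · exact hE _
      · exact hE _)
  obtain ⟨t0, ht0, ht01, ht0s⟩ := exists_lb ts hts
  have hCs : 0 ≤ ∑ p, C p := Finset.sum_nonneg fun p _ => (hC p).le
  refine ⟨∑ p, C p + 3 / 2 * (C2 + C4), min t0 (min t2 t4), by positivity,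
    lt_min ht0 (lt_min ht2 ht4), ?_⟩
  intro F t A ht hts' hA hAt cl a b c d
  have k0 : t ≤ t0 := hts'.trans (min_le_left _ _)
  have k2 : t ≤ t2 := hts'.trans ((min_le_right _ _).trans (min_le_left _ _))
  have k4 : t ≤ t4 := hts'.trans ((min_le_right _ _).trans (min_le_right _ _))
  have htone : t ≤ 1 := k0.trans ht01
  have hlt : ∀ y ∈ (bal L ρ : Set G), dis L y < r0 / 20 := fun y hy => lt_of_lt_of_le hy hρ1
  have hc1 : ∀ y ∈ (bal L ρ : Set G), ∀ c, |crd L D (E c) y| ≤ 1 := fun y hy c => by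
    refine (crd_le (E c) y).trans ?_
    rw [norm_E orth, one_mul]
    exact Dri.et_le_one P (hlt y hy)
  have g4 := h4 F t A ht k4 hA hAt cl ρ hρ1
  set V : ℝ := ∫ y, res L F y ^ 2 ∂μ with hV
  have hV0 : 0 ≤ V := V_nonneg F
  have hq1 : Real.sqrt t ≤ 1 := Real.sqrt_le_one.2 htone
  have hq0 : 0 < Real.sqrt t := Real.sqrt_pos.2 ht
  have hqq : Real.sqrt t * Real.sqrt t = t := Real.mul_self_sqrt ht.le
  have hq4 : Real.sqrt t ^ 4 = t ^ 2 := by
    calc Real.sqrt t ^ 4 = (Real.sqrt t * Real.sqrt t) ^ 2 := by ring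
      _ = t ^ 2 := by rw [hqq]
  have htq : t ≤ Real.sqrt t := by nlinarith
  rw [hq4] at g4
  -- one term
  have term : ∀ e j k : Fin n,
      IntegrableOn (fun y : G => ipr (E e) (E a - (1 / 2 : ℝ) • ad (Dri.et L D y : Mt m) (E a) +
            (1 / 12 : ℝ) • ad (Dri.et L D y : Mt m) (ad (Dri.et L D y : Mt m) (E a))) *
              (crd L D (E j) y * crd L D (E k) y) * res L F y ^ 2) (bal L ρ) μ ∧
      |∫ y in bal L ρ, ipr (E e) (E a - (1 / 2 : ℝ) • ad (Dri.et L D y : Mt m) (E a) +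
            (1 / 12 : ℝ) • ad (Dri.et L D y : Mt m) (ad (Dri.et L D y : Mt m) (E a))) *
              (crd L D (E j) y * crd L D (E k) y) * res L F y ^ 2 ∂μ -
        t / 2 * ((if a = e then 1 else 0) * (if j = k then 1 else 0)) * V| ≤
        (C2 + C4) * (1 + A) * t ^ 2 * V := by
    intro e j k
    have hf : ContinuousOn (fun y : G => crd L D (E j) y * crd L D (E k) y) (bal L ρ : Set G) :=
      (crd_cont P hρ1 _).mul (crd_cont P hρ1 _)
    have hf1 : ∀ y ∈ (bal L ρ : Set G), |crd L D (E j) y * crd L D (E k) y| ≤ 1 := by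
      intro y hy
      rw [abs_mul]
      exact mul_le_one₀ (hc1 y hy j) (abs_nonneg _) (hc1 y hy k)
    constructor
    · refine intM P cl ht hA hAt (f := fun y : G => ipr (E e) (E a - (1 / 2 : ℝ) •
        ad (Dri.et L D y : Mt m) (E a) + (1 / 12 : ℝ) • ad (Dri.et L D y : Mt m)
          (ad (Dri.et L D y : Mt m) (E a))) * (crd L D (E j) y * crd L D (E k) y))
        (ContinuousOn.mul ?_ hf) 4 ?_
      · have e1 : ∀ y : G, ipr (E e) (E a - (1 / 2 : ℝ) • ad (Dri.et L D y : Mt m) (E a) +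
            (1 / 12 : ℝ) • ad (Dri.et L D y : Mt m) (ad (Dri.et L D y : Mt m) (E a))) =
            ipr (E e) (E a) - 1 / 2 * ipr (E e) (ad (Dri.et L D y : Mt m) (E a)) +
            1 / 12 * ipr (E e) (ad (Dri.et L D y : Mt m) (ad (Dri.et L D y : Mt m) (E a))) := by
          intro y
          rw [Dri.ipr_add, Dri.ipr_sub, Dri.ipr_smul, Dri.ipr_smul]
        simp only [e1]
        exact (continuousOn_const.sub (continuousOn_const.mul (ad1_cont P hρ1 _ _))).add
          (continuousOn_const.mul (ad2_cont P hρ1 _ _))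
      · intro y hy
        rw [abs_mul]
        have a1 := ad1_le (L := L) (D := D) (E e) (E a) y
        have a2 := ad2_le (L := L) (D := D) (E e) (E a) y
        have a0 := Dri.abs_ipr_le (E e) (E a)
        rw [norm_E orth, norm_E orth] at a0 a1 a2
        have n1 : ‖Dri.et L D y‖ ≤ 1 := Dri.et_le_one P (hlt y hy)
        have n2 : ‖Dri.et L D y‖ ^ 2 ≤ 1 := pow_le_one₀ (norm_nonneg _) n1
        have e1 : |ipr (E e) (E a - (1 / 2 : ℝ) • ad (Dri.et L D y : Mt m) (E a) +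
            (1 / 12 : ℝ) • ad (Dri.et L D y : Mt m) (ad (Dri.et L D y : Mt m) (E a)))| ≤ 4 := by
          rw [Dri.ipr_add, Dri.ipr_sub, Dri.ipr_smul, Dri.ipr_smul]
          rw [abs_le] at a0 a1 a2 ⊢
          constructor <;> linarith [a0.1, a0.2, a1.1, a1.2, a2.1, a2.2]
        calc _ ≤ 4 * (1 : ℝ) := mul_le_mul e1 (hf1 y hy) (abs_nonneg _) (by norm_num)
          _ = 4 := mul_one _
    · have h3 := split (μ := μ) P cl ht hA hAt hρ1 hf (K := 1) hf1 (fun y hy => by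
        rw [crd_inv P _ (hlt y hy), crd_inv P _ (hlt y hy)]; ring) (E e) (E a)
      rw [h3]
      have h5 := h2 F t A ht k2 hA hAt cl j k
      have h6 := absM (μ := μ) P cl ht hA hAt hρ1
        (f := fun y : G => ipr (E e) (ad (Dri.et L D y : Mt m)
          (ad (Dri.et L D y : Mt m) (E a))) * (crd L D (E j) y * crd L D (E k) y))
        ((ad2_cont P hρ1 (E e) (E a)).mul hf) (K := 4) (k := 4) (fun y hy => by
          rw [abs_mul, abs_mul]
          have a2 := ad2_le (L := L) (D := D) (E e) (E a) y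
          have b1 := crd_le (L := L) (D := D) (E j) y
          have b2 := crd_le (L := L) (D := D) (E k) y
          rw [norm_E orth, norm_E orth] at a2
          rw [norm_E orth] at b1 b2
          calc _ ≤ (4 * 1 * 1 * ‖Dri.et L D y‖ ^ 2) * ((1 * ‖Dri.et L D y‖) *
                (1 * ‖Dri.et L D y‖)) :=
                mul_le_mul a2 (mul_le_mul b1 b2 (abs_nonneg _) (by positivity))
                  (by positivity) (by positivity)
            _ = _ := by ring) g4 (by norm_num)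
      rw [← hV] at h5
      have hea : ipr (E e) (E a) = if a = e then 1 else 0 := by
        have := orth e a
        unfold ipr
        rw [this]
        split_ifs with q1 q2 q2
        · rfl
        · exact absurd q1.symm q2
        · exact absurd q2.symm q1
        · rfl
      rw [hea]
      set M : ℝ := ∫ y in bal L ρ, crd L D (E j) y * crd L D (E k) y * res L F y ^ 2 ∂μ with hM
      set Q : ℝ := ∫ y in bal L ρ, ipr (E e) (ad (Dri.et L D y : Mt m)
        (ad (Dri.et L D y : Mt m) (E a))) * (crd L D (E j) y * crd L D (E k) y) *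
          res L F y ^ 2 ∂μ with hQ
      have hif : |(if a = e then (1 : ℝ) else 0)| ≤ 1 := by split_ifs <;> simp
      have e2 : (if a = e then 1 else 0) * M + 1 / 12 * Q -
          t / 2 * ((if a = e then 1 else 0) * (if j = k then 1 else 0)) * V =
          (if a = e then 1 else 0) * (M - (if j = k then t / 2 else 0) * V) + 1 / 12 * Q := by
        split_ifs <;> ring
      rw [e2]
      refine (abs_add_le _ _).trans ?_
      rw [abs_mul, abs_mul, abs_of_pos (by norm_num : (0 : ℝ) < 1 / 12)]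
      have h7 : |(if a = e then (1 : ℝ) else 0)| * |M - (if j = k then t / 2 else 0) * V| ≤
          1 * (C2 * (1 + A) * t ^ 2 * V) := mul_le_mul hif h5 (abs_nonneg _) zero_le_one
      have h8 : 1 / 12 * |Q| ≤ C4 * (1 + A) * t ^ 2 * V := by
        calc 1 / 12 * |Q| ≤ 1 / 12 * (4 * (C4 * t ^ 2 * V)) :=
              mul_le_mul_of_nonneg_left h6 (by norm_num)
          _ = 1 / 3 * (C4 * t ^ 2 * V) := by ring
          _ ≤ (1 + A) * (C4 * t ^ 2 * V) :=
              mul_le_mul_of_nonneg_right (by linarith) (by positivity)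
          _ = _ := by ring
      linarith
  have h1 := hi ((a, b), (c, d)) F t A ht (k0.trans (ht0s _)) hA hAt cl
  have e3 : ∀ y : G, (∑ i : Fin (2 + 1), ipr ((![E b, E c, E d] : Fin 3 → Mt m) i)
      (E a - (1 / 2 : ℝ) • ad (Dri.et L D y : Mt m) (E a) +
            (1 / 12 : ℝ) • ad (Dri.et L D y : Mt m) (ad (Dri.et L D y : Mt m) (E a))) *
              ∏ j ∈ Finset.univ.erase i, crd L D ((![E b, E c, E d] : Fin 3 → Mt m) j) y) *
                res L F y ^ 2 =
      (ipr (E b) (E a - (1 / 2 : ℝ) • ad (Dri.et L D y : Mt m) (E a) +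
            (1 / 12 : ℝ) • ad (Dri.et L D y : Mt m) (ad (Dri.et L D y : Mt m) (E a))) *
              (crd L D (E c) y * crd L D (E d) y) * res L F y ^ 2 +
      ipr (E c) (E a - (1 / 2 : ℝ) • ad (Dri.et L D y : Mt m) (E a) +
            (1 / 12 : ℝ) • ad (Dri.et L D y : Mt m) (ad (Dri.et L D y : Mt m) (E a))) *
              (crd L D (E b) y * crd L D (E d) y) * res L F y ^ 2) +
      ipr (E d) (E a - (1 / 2 : ℝ) • ad (Dri.et L D y : Mt m) (E a) +
            (1 / 12 : ℝ) • ad (Dri.et L D y : Mt m) (ad (Dri.et L D y : Mt m) (E a))) *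
              (crd L D (E b) y * crd L D (E c) y) * res L F y ^ 2 := by
    intro y
    have := sum3 (fun i => ipr ((![E b, E c, E d] : Fin 3 → Mt m) i)
      (E a - (1 / 2 : ℝ) • ad (Dri.et L D y : Mt m) (E a) +
            (1 / 12 : ℝ) • ad (Dri.et L D y : Mt m) (ad (Dri.et L D y : Mt m) (E a))))
      (fun j => crd L D ((![E b, E c, E d] : Fin 3 → Mt m) j) y)
    refine (congrArg (fun z => z * res L F y ^ 2) this).trans ?_
    simp only [Matrix.cons_val_zero, Matrix.cons_val_one, Matrix.cons_val]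
    ring
  have e4 : ∀ y : G, (∏ i : Fin (2 + 1), crd L D ((![E b, E c, E d] : Fin 3 → Mt m) i) y) *
      crd L D (E a) y * res L F y ^ 2 =
      crd L D (E a) y * crd L D (E b) y * (crd L D (E c) y * crd L D (E d) y) *
        res L F y ^ 2 := by
    intro y
    have := Fin.prod_univ_three (fun i => crd L D ((![E b, E c, E d] : Fin 3 → Mt m) i) y)
    refine (congrArg (fun z => z * crd L D (E a) y * res L F y ^ 2) this).trans ?_
    simp only [Matrix.cons_val_zero, Matrix.cons_val_one, Matrix.cons_val]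
    ring
  simp only [e3, e4] at h1
  obtain ⟨i1, b1⟩ := term b c d
  obtain ⟨i2, b2⟩ := term c b d
  obtain ⟨i3, b3⟩ := term d b c
  have i12 : IntegrableOn (fun y : G =>
      ipr (E b) (E a - (1 / 2 : ℝ) • ad (Dri.et L D y : Mt m) (E a) +
            (1 / 12 : ℝ) • ad (Dri.et L D y : Mt m) (ad (Dri.et L D y : Mt m) (E a))) *
              (crd L D (E c) y * crd L D (E d) y) * res L F y ^ 2 +
      ipr (E c) (E a - (1 / 2 : ℝ) • ad (Dri.et L D y : Mt m) (E a) +
            (1 / 12 : ℝ) • ad (Dri.et L D y : Mt m) (ad (Dri.et L D y : Mt m) (E a))) *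
              (crd L D (E b) y * crd L D (E d) y) * res L F y ^ 2) (bal L ρ) μ := i1.add i2
  rw [integral_add i12 i3, integral_add i1 i2] at h1
  rw [← hV] at h1
  set J1 : ℝ := ∫ y in bal L ρ, ipr (E b) (E a - (1 / 2 : ℝ) • ad (Dri.et L D y : Mt m) (E a) +
            (1 / 12 : ℝ) • ad (Dri.et L D y : Mt m) (ad (Dri.et L D y : Mt m) (E a))) *
              (crd L D (E c) y * crd L D (E d) y) * res L F y ^ 2 ∂μ with hJ1
  set J2 : ℝ := ∫ y in bal L ρ, ipr (E c) (E a - (1 / 2 : ℝ) • ad (Dri.et L D y : Mt m) (E a) +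
            (1 / 12 : ℝ) • ad (Dri.et L D y : Mt m) (ad (Dri.et L D y : Mt m) (E a))) *
              (crd L D (E b) y * crd L D (E d) y) * res L F y ^ 2 ∂μ with hJ2
  set J3 : ℝ := ∫ y in bal L ρ, ipr (E d) (E a - (1 / 2 : ℝ) • ad (Dri.et L D y : Mt m) (E a) +
            (1 / 12 : ℝ) • ad (Dri.et L D y : Mt m) (ad (Dri.et L D y : Mt m) (E a))) *
              (crd L D (E b) y * crd L D (E c) y) * res L F y ^ 2 ∂μ with hJ3
  set W : ℝ := ∫ y in bal L ρ, crd L D (E a) y * crd L D (E b) y *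
    (crd L D (E c) y * crd L D (E d) y) * res L F y ^ 2 ∂μ with hW
  have h6 : C ((a, b), (c, d)) ≤ ∑ p, C p :=
    Finset.single_le_sum (f := C) (fun p _ => (hC p).le) (Finset.mem_univ _)
  have h11 : C ((a, b), (c, d)) * (1 + A) * (t ^ 2 * Real.sqrt t) * V ≤
      (∑ p, C p) * (1 + A) * (t ^ 2 * Real.sqrt t) * V := by
    refine mul_le_mul_of_nonneg_right (mul_le_mul_of_nonneg_right
      (mul_le_mul_of_nonneg_right h6 (by positivity)) (by positivity)) hV0
  set R : ℝ := (C2 + C4) * (1 + A) * t ^ 2 * V with hR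
  have hR0 : 0 ≤ R := by positivity
  have e5 : W - t ^ 2 / 4 * ((if a = b then 1 else 0) * (if c = d then 1 else 0) +
            (if a = c then 1 else 0) * (if b = d then 1 else 0) +
            (if a = d then 1 else 0) * (if b = c then 1 else 0)) * V =
      (W - t / 2 * (J1 + J2 + J3)) +
      t / 2 * ((J1 - t / 2 * ((if a = b then 1 else 0) * (if c = d then 1 else 0)) * V) +
        (J2 - t / 2 * ((if a = c then 1 else 0) * (if b = d then 1 else 0)) * V) +
        (J3 - t / 2 * ((if a = d then 1 else 0) * (if b = c then 1 else 0)) * V)) := by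
    ring
  rw [e5]
  refine (abs_add_le _ _).trans ?_
  have h12 : |t / 2 * ((J1 - t / 2 * ((if a = b then 1 else 0) * (if c = d then 1 else 0)) * V) +
        (J2 - t / 2 * ((if a = c then 1 else 0) * (if b = d then 1 else 0)) * V) +
        (J3 - t / 2 * ((if a = d then 1 else 0) * (if b = c then 1 else 0)) * V))| ≤
      t / 2 * (R + R + R) := by
    rw [abs_mul, abs_of_pos (by positivity : 0 < t / 2)]
    refine mul_le_mul_of_nonneg_left ?_ (by positivity)
    exact (abs_add_le _ _).trans (add_le_add ((abs_add_le _ _).trans (add_le_add b1 b2)) b3)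
  have h13 : t / 2 * (R + R + R) ≤ 3 / 2 * (C2 + C4) * (1 + A) * (t ^ 2 * Real.sqrt t) * V := by
    calc t / 2 * (R + R + R) = 3 / 2 * R * t := by ring
      _ ≤ 3 / 2 * R * Real.sqrt t := mul_le_mul_of_nonneg_left htq (by positivity)
      _ = _ := by rw [hR]; ring
  have h14 := add_le_add (h1.trans h11) (h12.trans h13)
  refine h14.trans (le_of_eq ?_)
  ring

end

end Pool.Agent.T2H04.HY
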