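import Mathlib
import Pool.Agent.T2H04.HY.Tl0

/-!
# Package PD: algebra
-/

open MeasureTheory Matrix Filter
open scoped Matrix.Norms.Frobenius Topology

namespace Pool.Agent.T2H04.HY

set_option linter.unusedSectionVars false

noncomputable section

namespace TlD


/-! ### sums against moments -/

section lin

variable {α : Type*} [MeasurableSpace α] {ν : Measure α} {n : ℕ} {e : Fin n → α → ℝ} {R : α → ℝ}

theorem lin2 (hi : ∀ a b, Integrable (fun y => e a y * e b y * R y) ν) {V m2 ε K : ℝ}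
    (h : ∀ a b, |∫ y, e a y * e b y * R y ∂ν - (if a = b then m2 else 0) * V| ≤ ε)
    (g : Fin n → Fin n → ℝ) (hg : ∀ a b, |g a b| ≤ K) :
    |∫ y, (∑ a, ∑ b, g a b * (e a y * e b y)) * R y ∂ν - m2 * (∑ a, g a a) * V| ≤
      n ^ 2 * K * ε := by
  have e1 : ∫ y, (∑ a, ∑ b, g a b * (e a y * e b y)) * R y ∂ν =
      ∑ a, ∑ b, g a b * ∫ y, e a y * e b y * R y ∂ν := by
    have h1 : ∀ y, (∑ a, ∑ b, g a b * (e a y * e b y)) * R y =
        ∑ a, ∑ b, g a b * (e a y * e b y * R y) := by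
      intro y
      rw [Finset.sum_mul]
      refine Finset.sum_congr rfl fun a _ => ?_
      rw [Finset.sum_mul]
      exact Finset.sum_congr rfl fun b _ => by ring
    simp only [h1]
    rw [integral_finsetSum _ (fun a _ => integrable_finsetSum _ (fun b _ => (hi a b).const_mul _))]
    refine Finset.sum_congr rfl fun a _ => ?_
    rw [integral_finsetSum _ (fun b _ => (hi a b).const_mul _)]
    exact Finset.sum_congr rfl fun b _ => integral_const_mul _ _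
  have e2 : m2 * (∑ a, g a a) * V = ∑ a, ∑ b, g a b * ((if a = b then m2 else 0) * V) := by
    rw [Finset.mul_sum, Finset.sum_mul]
    refine Finset.sum_congr rfl fun a _ => ?_
    rw [Finset.sum_eq_single a (fun b _ hb => by rw [if_neg (Ne.symm hb)]; ring)
      (fun h => absurd (Finset.mem_univ _) h), if_pos rfl]
    ring
  rw [e1, e2, ← Finset.sum_sub_distrib]
  refine (Finset.abs_sum_le_sum_abs _ _).trans ?_
  have hb : ∀ a ∈ Finset.univ, |∑ b, g a b * ∫ y, e a y * e b y * R y ∂ν -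
      ∑ b, g a b * ((if a = b then m2 else 0) * V)| ≤ n * (K * ε) := by
    intro a _
    rw [← Finset.sum_sub_distrib]
    refine (Finset.abs_sum_le_sum_abs _ _).trans ?_
    refine (Finset.sum_le_card_nsmul _ _ (K * ε) fun b _ => ?_).trans (le_of_eq ?_)
    · rw [← mul_sub, abs_mul]
      exact mul_le_mul (hg a b) (h a b) (abs_nonneg _) ((abs_nonneg _).trans (hg a b))
    · simp
  refine (Finset.sum_le_card_nsmul _ _ _ hb).trans (le_of_eq ?_)
  simp
  ring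

theorem delta_sum (g : Fin n → Fin n → Fin n → Fin n → ℝ) :
    ∑ a, ∑ b, ∑ c, ∑ d, g a b c d * ((if a = b then 1 else 0) * (if c = d then 1 else 0) +
            (if a = c then 1 else 0) * (if b = d then 1 else 0) +
            (if a = d then 1 else 0) * (if b = c then 1 else 0)) =
      (∑ a, ∑ b, g a a b b) + (∑ a, ∑ b, g a b a b) + ∑ a, ∑ b, g a b b a := by
  have h1 : ∑ a, ∑ b, ∑ c, ∑ d, g a b c d * ((if a = b then (1 : ℝ) else 0) *
      (if c = d then 1 else 0)) = ∑ a, ∑ b, g a a b b := by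
    refine Finset.sum_congr rfl fun a _ => ?_
    rw [Finset.sum_eq_single a (fun b _ hb => ?_) (fun h => absurd (Finset.mem_univ _) h)]
    · refine Finset.sum_congr rfl fun c _ => ?_
      rw [Finset.sum_eq_single c (fun d _ hd => by rw [if_neg (Ne.symm hd)]; ring)
        (fun h => absurd (Finset.mem_univ _) h)]
      simp
    · refine Finset.sum_eq_zero fun c _ => Finset.sum_eq_zero fun d _ => ?_
      rw [if_neg (Ne.symm hb)]; ring
  have h2 : ∑ a, ∑ b, ∑ c, ∑ d, g a b c d * ((if a = c then (1 : ℝ) else 0) *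
      (if b = d then 1 else 0)) = ∑ a, ∑ b, g a b a b := by
    refine Finset.sum_congr rfl fun a _ => Finset.sum_congr rfl fun b _ => ?_
    rw [Finset.sum_eq_single a (fun c _ hc => ?_) (fun h => absurd (Finset.mem_univ _) h)]
    · rw [Finset.sum_eq_single b (fun d _ hd => by rw [if_neg (Ne.symm hd)]; ring)
        (fun h => absurd (Finset.mem_univ _) h)]
      simp
    · refine Finset.sum_eq_zero fun d _ => ?_
      rw [if_neg (Ne.symm hc)]; ring
  have h3 : ∑ a, ∑ b, ∑ c, ∑ d, g a b c d * ((if a = d then (1 : ℝ) else 0) *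
      (if b = c then 1 else 0)) = ∑ a, ∑ b, g a b b a := by
    refine Finset.sum_congr rfl fun a _ => Finset.sum_congr rfl fun b _ => ?_
    rw [Finset.sum_eq_single b (fun c _ hc => ?_) (fun h => absurd (Finset.mem_univ _) h)]
    · rw [Finset.sum_eq_single a (fun d _ hd => by rw [if_neg (Ne.symm hd)]; ring)
        (fun h => absurd (Finset.mem_univ _) h)]
      simp
    · refine Finset.sum_eq_zero fun d _ => ?_
      rw [if_neg (Ne.symm hc)]; ring
  rw [← h1, ← h2, ← h3]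
  simp only [← Finset.sum_add_distrib, ← mul_add]

theorem lin4 (hi : ∀ a b c d, Integrable (fun y => e a y * e b y * (e c y * e d y) * R y) ν)
    {V m4 ε K : ℝ}
    (h : ∀ a b c d, |∫ y, e a y * e b y * (e c y * e d y) * R y ∂ν -
      m4 * ((if a = b then 1 else 0) * (if c = d then 1 else 0) +
            (if a = c then 1 else 0) * (if b = d then 1 else 0) +
            (if a = d then 1 else 0) * (if b = c then 1 else 0)) * V| ≤ ε)
    (g : Fin n → Fin n → Fin n → Fin n → ℝ) (hg : ∀ a b c d, |g a b c d| ≤ K) :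
    |∫ y, (∑ a, ∑ b, ∑ c, ∑ d, g a b c d * (e a y * e b y * (e c y * e d y))) * R y ∂ν -
        m4 * ((∑ a, ∑ b, g a a b b) + (∑ a, ∑ b, g a b a b) + ∑ a, ∑ b, g a b b a) * V| ≤
      n ^ 4 * K * ε := by
  have e1 : ∫ y, (∑ a, ∑ b, ∑ c, ∑ d, g a b c d * (e a y * e b y * (e c y * e d y))) * R y ∂ν =
      ∑ a, ∑ b, ∑ c, ∑ d, g a b c d * ∫ y, e a y * e b y * (e c y * e d y) * R y ∂ν := by
    have h1 : ∀ y, (∑ a, ∑ b, ∑ c, ∑ d, g a b c d * (e a y * e b y * (e c y * e d y))) * R y =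
        ∑ a, ∑ b, ∑ c, ∑ d, g a b c d * (e a y * e b y * (e c y * e d y) * R y) := by
      intro y
      rw [Finset.sum_mul]
      refine Finset.sum_congr rfl fun a _ => ?_
      rw [Finset.sum_mul]
      refine Finset.sum_congr rfl fun b _ => ?_
      rw [Finset.sum_mul]
      refine Finset.sum_congr rfl fun c _ => ?_
      rw [Finset.sum_mul]
      exact Finset.sum_congr rfl fun d _ => by ring
    simp only [h1]
    rw [integral_finsetSum _ (fun a _ => integrable_finsetSum _ fun b _ =>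
      integrable_finsetSum _ fun c _ => integrable_finsetSum _ fun d _ =>
        (hi a b c d).const_mul _)]
    refine Finset.sum_congr rfl fun a _ => ?_
    rw [integral_finsetSum _ (fun b _ =>
      integrable_finsetSum _ fun c _ => integrable_finsetSum _ fun d _ =>
        (hi a b c d).const_mul _)]
    refine Finset.sum_congr rfl fun b _ => ?_
    rw [integral_finsetSum _ (fun c _ => integrable_finsetSum _ fun d _ =>
        (hi a b c d).const_mul _)]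
    refine Finset.sum_congr rfl fun c _ => ?_
    rw [integral_finsetSum _ (fun d _ => (hi a b c d).const_mul _)]
    exact Finset.sum_congr rfl fun d _ => integral_const_mul _ _
  have e2 : m4 * ((∑ a, ∑ b, g a a b b) + (∑ a, ∑ b, g a b a b) + ∑ a, ∑ b, g a b b a) * V =
      ∑ a, ∑ b, ∑ c, ∑ d, g a b c d * (m4 * ((if a = b then 1 else 0) * (if c = d then 1 else 0) +
            (if a = c then 1 else 0) * (if b = d then 1 else 0) +
            (if a = d then 1 else 0) * (if b = c then 1 else 0)) * V) := by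
    rw [← delta_sum g, Finset.mul_sum, Finset.sum_mul]
    refine Finset.sum_congr rfl fun a _ => ?_
    rw [Finset.mul_sum, Finset.sum_mul]
    refine Finset.sum_congr rfl fun b _ => ?_
    rw [Finset.mul_sum, Finset.sum_mul]
    refine Finset.sum_congr rfl fun c _ => ?_
    rw [Finset.mul_sum, Finset.sum_mul]
    refine Finset.sum_congr rfl fun d _ => ?_
    ring
  rw [e1, e2]
  simp only [← Finset.sum_sub_distrib, ← mul_sub]
  have key : ∀ {f : Fin n → ℝ} {M : ℝ}, (∀ a, |f a| ≤ M) → |∑ a, f a| ≤ n * M := by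
    intro f M hf
    refine (Finset.abs_sum_le_sum_abs _ _).trans
      ((Finset.sum_le_card_nsmul _ _ M fun a _ => hf a).trans (le_of_eq ?_))
    simp
  refine (key (M := n * (n * (n * (K * ε)))) fun a => key fun b => key fun c => key fun d =>
    ?_).trans (le_of_eq ?_)
  · rw [abs_mul]
    exact mul_le_mul (hg a b c d) (h a b c d) (abs_nonneg _) ((abs_nonneg _).trans (hg a b c d))
  · ring

end lin

/-! ### the logarithm -/

theorem log_exp3 {u : ℂ} (hu : ‖u‖ ≤ 1 / 2) :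
    ‖Complex.log (1 + u) - (u - u ^ 2 / 2)‖ ≤ ‖u‖ ^ 3 := by
  have h := Complex.norm_log_sub_logTaylor_le 2 (z := u) (by linarith)
  have e : Complex.logTaylor (2 + 1) u = u - u ^ 2 / 2 := by
    simp [Complex.logTaylor, Finset.sum_range_succ]
    ring
  rw [e] at h
  refine h.trans ?_
  have h1 : (1 - ‖u‖)⁻¹ ≤ 2 := by
    rw [inv_le_comm₀ (by linarith) (by norm_num)]
    linarith
  have h0 : 0 ≤ ‖u‖ ^ 3 := by positivity
  push_cast
  norm_num
  nlinarith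
section mat

variable {m : Type} [Fintype m] [DecidableEq m]

theorem norm_ad_le (X Y : Mt m) : ‖ad X Y‖ ≤ 2 * (‖X‖ * ‖Y‖) := by
  unfold ad
  refine (norm_sub_le _ _).trans ?_
  have a1 := norm_mul_le X Y
  have a2 := norm_mul_le Y X
  linarith [mul_comm ‖X‖ ‖Y‖]

theorem ad_smul_left (c : ℂ) (X Y : Mt m) : ad (c • X) Y = c • ad X Y := by
  unfold ad
  rw [smul_mul_assoc, mul_smul_comm, smul_sub]

theorem ad_smul_right (c : ℂ) (X Y : Mt m) : ad X (c • Y) = c • ad X Y := by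
  unfold ad
  rw [smul_mul_assoc, mul_smul_comm, smul_sub]

theorem T6_smul {t : ℝ} (ht : 0 ≤ t) (X η : Mt m) :
    T6 (((Real.sqrt t : ℝ) : ℂ) • X) η = t / 24 * ‖ad X η‖ ^ 2 +
      t / 1440 * ‖ad η (ad η X)‖ ^ 2 + t ^ 2 / 5760 * ‖ad X (ad X η)‖ ^ 2 := by
  have hq : Real.sqrt t ^ 2 = t := Real.sq_sqrt ht
  have hq4 : Real.sqrt t ^ 4 = t ^ 2 := by
    calc Real.sqrt t ^ 4 = (Real.sqrt t ^ 2) ^ 2 := by ring
      _ = _ := by rw [hq]
  have hn : ∀ Y : Mt m, ‖((Real.sqrt t : ℝ) : ℂ) • Y‖ = Real.sqrt t * ‖Y‖ := by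
    intro Y
    rw [norm_smul, Complex.norm_real, Real.norm_eq_abs, abs_of_nonneg (Real.sqrt_nonneg _)]
  unfold T6
  simp only [ad_smul_left, ad_smul_right, hn, mul_pow, hq]
  rw [show t * (t * ‖ad X (ad X η)‖ ^ 2) = t ^ 2 * ‖ad X (ad X η)‖ ^ 2 by ring]
  ring

/-- the main part of the exponent -/
def s0 {n : ℕ} (E : Fin n → Mt m) (t : ℝ) (X : Mt m) (c : Fin n → Fin n → ℝ) (η : Mt m) : ℝ :=
  -(1 / 48 * ‖ad X η‖ ^ 2) - 1 / 2880 * ‖ad η (ad η X)‖ ^ 2 -
    t / 11520 * ‖ad X (ad X η)‖ ^ 2 + ∑ a, ∑ b, c a b * ipr (E a) η * ipr (E b) η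

theorem sum2_le {n : ℕ} {f : Fin n → Fin n → ℝ} {M : ℝ} (h : ∀ a b, |f a b| ≤ M) :
    |∑ a, ∑ b, f a b| ≤ n ^ 2 * M := by
  have key : ∀ {f : Fin n → ℝ} {M : ℝ}, (∀ a, |f a| ≤ M) → |∑ a, f a| ≤ n * M := by
    intro f M hf
    refine (Finset.abs_sum_le_sum_abs _ _).trans
      ((Finset.sum_le_card_nsmul _ _ M fun a _ => hf a).trans (le_of_eq ?_))
    simp
  refine (key (M := n * M) fun a => key fun b => h a b).trans (le_of_eq ?_)
  ring

theorem s0_bds {n : ℕ} {E : Fin n → Mt m} (hE1 : ∀ a, ‖E a‖ = 1) {t A Cp p : ℝ} (ht : 0 < t)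
    (hA : 0 ≤ A) (hAt : A * t ≤ 1 / 10) (hCp : 0 ≤ Cp) {X η : Mt m} (hX : ‖X‖ ≤ 4)
    {c : Fin n → Fin n → ℝ} (hc : ∀ a b, |c a b| ≤ Cp * A * (16 * t)) (hp1 : p ≤ 1)
    (htp : t ≤ p ^ 2) (hη : ‖η‖ ≤ p) :
    1 / 48 * ‖ad X η‖ ^ 2 ≤ (4 + 16 * n ^ 2 * Cp) * p ^ 2 ∧
    |s0 E t X c η| ≤ (4 + 16 * n ^ 2 * Cp) * p ^ 2 ∧
    |s0 E t X c η + 1 / 48 * ‖ad X η‖ ^ 2| ≤ (4 + 16 * n ^ 2 * Cp) * ((1 + A) * p ^ 4) := by
  have hη0 := norm_nonneg η
  have hX0 := norm_nonneg X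
  have hp0 : 0 ≤ p := hη0.trans hη
  have hp2 : p ^ 2 ≤ 1 := pow_le_one₀ hp0 hp1
  have hp4 : p ^ 4 ≤ p ^ 2 := by
    calc p ^ 4 = p ^ 2 * p ^ 2 := by ring
      _ ≤ p ^ 2 * 1 := mul_le_mul_of_nonneg_left hp2 (sq_nonneg p)
      _ = _ := mul_one _
  have hN : 0 ≤ (n : ℝ) ^ 2 * Cp := by positivity
  have a1 : ‖ad X η‖ ≤ 8 * p := by
    refine (norm_ad_le X η).trans ?_
    have := mul_le_mul hX hη hη0 (by norm_num)
    linarith
  have a2 : ‖ad X η‖ ^ 2 ≤ 64 * p ^ 2 := by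
    have := pow_le_pow_left₀ (norm_nonneg _) a1 2
    linarith
  have b1 : ‖ad η X‖ ≤ 8 * p := by
    refine (norm_ad_le η X).trans ?_
    have := mul_le_mul hη hX hX0 hp0
    linarith
  have b2 : ‖ad η (ad η X)‖ ≤ 16 * p ^ 2 := by
    refine (norm_ad_le _ _).trans ?_
    have := mul_le_mul hη b1 (norm_nonneg _) hp0
    nlinarith
  have b3 : ‖ad η (ad η X)‖ ^ 2 ≤ 256 * p ^ 4 := by
    have := pow_le_pow_left₀ (norm_nonneg _) b2 2
    calc _ ≤ (16 * p ^ 2) ^ 2 := this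
      _ = _ := by ring
  have c1 : ‖ad X (ad X η)‖ ≤ 64 * p := by
    refine (norm_ad_le _ _).trans ?_
    have := mul_le_mul hX a1 (norm_nonneg _) (by norm_num)
    linarith
  have c2 : ‖ad X (ad X η)‖ ^ 2 ≤ 4096 * p ^ 2 := by
    have := pow_le_pow_left₀ (norm_nonneg _) c1 2
    linarith
  have c3 : t * ‖ad X (ad X η)‖ ^ 2 ≤ 4096 * p ^ 4 := by
    calc t * ‖ad X (ad X η)‖ ^ 2 ≤ p ^ 2 * (4096 * p ^ 2) :=
          mul_le_mul htp c2 (sq_nonneg _) (sq_nonneg _)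
      _ = _ := by ring
  have c0 : 0 ≤ t * ‖ad X (ad X η)‖ ^ 2 := by positivity
  have d1 : |∑ a, ∑ b, c a b * ipr (E a) η * ipr (E b) η| ≤
      n ^ 2 * (Cp * A * (16 * t) * p ^ 2) := by
    refine sum2_le fun a b => ?_
    rw [abs_mul, abs_mul]
    have h1 : ∀ a, |ipr (E a) η| ≤ p := fun a => by
      refine (Dri.abs_ipr_le _ _).trans ?_
      rw [hE1, one_mul]
      exact hη
    have h2 : |c a b| * |ipr (E a) η| ≤ Cp * A * (16 * t) * p :=
      mul_le_mul (hc a b) (h1 a) (abs_nonneg _) (by positivity)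
    have h3 := mul_le_mul h2 (h1 b) (abs_nonneg _) (by positivity)
    calc _ ≤ Cp * A * (16 * t) * p * p := h3
      _ = _ := by ring
  set sc := ∑ a, ∑ b, c a b * ipr (E a) η * ipr (E b) η with hsc
  have d2 : (n : ℝ) ^ 2 * (Cp * A * (16 * t) * p ^ 2) ≤ 16 * n ^ 2 * Cp * (A * p ^ 4) := by
    have : A * t * p ^ 2 ≤ A * p ^ 4 := by
      calc A * t * p ^ 2 = A * (t * p ^ 2) := by ring
        _ ≤ A * (p ^ 2 * p ^ 2) := by gcongr
        _ = _ := by ring
    calc (n : ℝ) ^ 2 * (Cp * A * (16 * t) * p ^ 2) = 16 * (n ^ 2 * Cp) * (A * t * p ^ 2) := by ring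
      _ ≤ 16 * (n ^ 2 * Cp) * (A * p ^ 4) := by gcongr
      _ = _ := by ring
  have d3 : (n : ℝ) ^ 2 * (Cp * A * (16 * t) * p ^ 2) ≤ 16 * n ^ 2 * Cp * p ^ 2 := by
    calc (n : ℝ) ^ 2 * (Cp * A * (16 * t) * p ^ 2) = 16 * (n ^ 2 * Cp) * (A * t * p ^ 2) := by ring
      _ ≤ 16 * (n ^ 2 * Cp) * (1 * p ^ 2) := by
          gcongr
          linarith
      _ = _ := by ring
  obtain ⟨d4, d5⟩ := abs_le.1 d1
  have hp40 : 0 ≤ p ^ 4 := by positivity
  have hp20 : 0 ≤ p ^ 2 := by positivity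
  have hNp : 0 ≤ 16 * n ^ 2 * Cp * p ^ 2 := by positivity
  have hNp4 : 0 ≤ 16 * n ^ 2 * Cp * p ^ 4 := by positivity
  have hAp : 0 ≤ A * p ^ 4 := by positivity
  refine ⟨?_, ?_, ?_⟩
  · nlinarith
  · unfold s0
    rw [abs_le]
    have e1 := sq_nonneg ‖ad X η‖
    have e2 := sq_nonneg ‖ad η (ad η X)‖
    have e3 : t / 11520 * ‖ad X (ad X η)‖ ^ 2 = 1 / 11520 * (t * ‖ad X (ad X η)‖ ^ 2) := by ring
    rw [e3]
    constructor <;> linarith
  · unfold s0
    rw [abs_le]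
    have e2 := sq_nonneg ‖ad η (ad η X)‖
    have e3 : t / 11520 * ‖ad X (ad X η)‖ ^ 2 = 1 / 11520 * (t * ‖ad X (ad X η)‖ ^ 2) := by ring
    rw [e3]
    constructor <;> linarith

/-- the pointwise expansion of the exponential -/
theorem exp_two {S : ℂ} {s q p t A K C1 : ℝ} (ht : 0 < t) (hp0 : 0 ≤ p) (hp1 : p ≤ 1)
    (htp : t ≤ p ^ 2) (hA : 0 ≤ A) (hK : 0 ≤ K) (hC1 : 0 ≤ C1)
    (h1 : ‖S - (s : ℂ)‖ ≤ C1 * ((1 + A) * (p ^ 7 / t))) (h2 : ‖S‖ ≤ K * p ^ 2)
    (h3 : |s| ≤ K * p ^ 2) (hq0 : 0 ≤ q) (h4 : q ≤ K * p ^ 2)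
    (h5 : |s + q| ≤ K * ((1 + A) * p ^ 4)) :
    ‖Complex.exp (-S) - 1 - ((-s + q ^ 2 / 2 : ℝ) : ℂ)‖ ≤
      (K ^ 3 * Real.exp K + C1 + C1 * K + K ^ 2) * ((1 + A) * (p ^ 7 / t)) := by
  have hp2 : p ^ 2 ≤ 1 := pow_le_one₀ hp0 hp1
  have htp1 : t ≤ p := by nlinarith
  have hp67 : p ^ 6 ≤ p ^ 7 / t := by
    rw [le_div_iff₀ ht]
    calc p ^ 6 * t ≤ p ^ 6 * p := by gcongr
      _ = _ := by ring
  have hU0 : 0 ≤ p ^ 7 / t := by positivity
  have hU : 0 ≤ (1 + A) * (p ^ 7 / t) := by positivity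
  have hU1 : p ^ 7 / t ≤ (1 + A) * (p ^ 7 / t) := by nlinarith
  have hU6 : (1 + A) * p ^ 6 ≤ (1 + A) * (p ^ 7 / t) := by gcongr
  set U := (1 + A) * (p ^ 7 / t) with hUd
  -- the cubic remainder
  have e1 : ‖Complex.exp (-S) - (1 - S + S ^ 2 / 2)‖ ≤ K ^ 3 * Real.exp K * U := by
    have h := Complex.norm_exp_sub_sum_le_norm_mul_exp (-S) 3
    have e : ∑ i ∈ Finset.range 3, (-S) ^ i / (i.factorial : ℂ) = 1 - S + S ^ 2 / 2 := by
      simp [Finset.sum_range_succ, Nat.factorial]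
      ring
    rw [e, norm_neg] at h
    refine h.trans ?_
    have b1 : ‖S‖ ^ 3 ≤ K ^ 3 * p ^ 6 := by
      have := pow_le_pow_left₀ (norm_nonneg _) h2 3
      calc _ ≤ (K * p ^ 2) ^ 3 := this
        _ = _ := by ring
    have b2 : ‖S‖ ≤ K := h2.trans (by nlinarith)
    have b3 : Real.exp ‖S‖ ≤ Real.exp K := Real.exp_le_exp.2 b2
    calc ‖S‖ ^ 3 * Real.exp ‖S‖ ≤ (K ^ 3 * p ^ 6) * Real.exp K :=
          mul_le_mul b1 b3 (Real.exp_pos _).le (by positivity)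
      _ = K ^ 3 * Real.exp K * p ^ 6 := by ring
      _ ≤ K ^ 3 * Real.exp K * U := by
          refine mul_le_mul_of_nonneg_left (hp67.trans hU1) ?_
          have := Real.exp_pos K
          positivity
  -- S² - s²
  have e2 : ‖S ^ 2 - (s : ℂ) ^ 2‖ ≤ 2 * (C1 * K * U) := by
    have e : S ^ 2 - (s : ℂ) ^ 2 = (S - s) * (S + s) := by ring
    rw [e, norm_mul]
    have b1 : ‖S + (s : ℂ)‖ ≤ 2 * K := by
      refine (norm_add_le _ _).trans ?_
      rw [Complex.norm_real, Real.norm_eq_abs]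
      nlinarith
    calc _ ≤ (C1 * U) * (2 * K) := mul_le_mul h1 b1 (norm_nonneg _) (by positivity)
      _ = _ := by ring
  -- s² - q²
  have e3 : |s ^ 2 - q ^ 2| ≤ 2 * (K ^ 2 * U) := by
    have e : s ^ 2 - q ^ 2 = (s + q) * (s - q) := by ring
    rw [e, abs_mul]
    have b1 : |s - q| ≤ 2 * (K * p ^ 2) := by
      refine (abs_sub _ _).trans ?_
      rw [abs_of_nonneg hq0]
      linarith
    calc _ ≤ (K * ((1 + A) * p ^ 4)) * (2 * (K * p ^ 2)) :=
          mul_le_mul h5 b1 (abs_nonneg _) (by positivity)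
      _ = 2 * (K ^ 2 * ((1 + A) * p ^ 6)) := by ring
      _ ≤ 2 * (K ^ 2 * U) := by
          have : 0 ≤ K ^ 2 := sq_nonneg K
          nlinarith [mul_le_mul_of_nonneg_left hU6 this]
  have e4 : Complex.exp (-S) - 1 - ((-s + q ^ 2 / 2 : ℝ) : ℂ) =
      (Complex.exp (-S) - (1 - S + S ^ 2 / 2)) + (-(S - s)) + (S ^ 2 - (s : ℂ) ^ 2) / 2 +
        (((s ^ 2 - q ^ 2) / 2 : ℝ) : ℂ) := by
    push_cast
    ring
  rw [e4]
  refine (norm_add_le _ _).trans ?_
  have f1 := norm_add_le (Complex.exp (-S) - (1 - S + S ^ 2 / 2) + -(S - s))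
    ((S ^ 2 - (s : ℂ) ^ 2) / 2)
  have f2 := norm_add_le (Complex.exp (-S) - (1 - S + S ^ 2 / 2)) (-(S - s))
  rw [norm_neg] at f2
  have f3 : ‖(S ^ 2 - (s : ℂ) ^ 2) / 2‖ ≤ C1 * K * U := by
    rw [norm_div, Complex.norm_ofNat]
    linarith
  have f4 : ‖(((s ^ 2 - q ^ 2) / 2 : ℝ) : ℂ)‖ ≤ K ^ 2 * U := by
    rw [Complex.norm_real, Real.norm_eq_abs, abs_div, abs_two]
    linarith
  have f5 : (K ^ 3 * Real.exp K + C1 + C1 * K + K ^ 2) * U =
      K ^ 3 * Real.exp K * U + C1 * U + C1 * K * U + K ^ 2 * U := by ring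
  rw [f5]
  linarith

end mat

end TlD

end

end Pool.Agent.T2H04.HY
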