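import Mathlib
import Pool.Agent.T2H04.HY.Dri3
import Pool.Agent.T2H04.HY.TlDa

/-!
# Package PD: the integrand near `1`
-/

open MeasureTheory Matrix Filter
open scoped Matrix.Norms.Frobenius Topology

namespace Pool.Agent.T2H04.HY

set_option linter.unusedSectionVars false

noncomputable section

namespace TlD

section pt

variable {G : Type} [Group G] [TopologicalSpace G] [IsTopologicalGroup G] [CompactSpace G]
  [MeasurableSpace G] [BorelSpace G] {μ : Measure G} [μ.IsHaarMeasure] [IsProbabilityMeasure μ]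
  {m : Type} [Fintype m] [DecidableEq m] {L : RD G m}
  {D : LogData m} {εg δ r0 r s b r' : ℝ} (P : Par L D εg δ r0 r s b r')
    {F : Mt m → ℂ} {t A : ℝ} (cl : Cls L F t A r (r0 / 4) s b (1 / 10000)) {w : gC L → ℂ}
    (hw : SFw L F t A r (r0 / 4) w) (ht : 0 < t) (hA : 0 ≤ A) (hAt : A * t ≤ 1 / 10)

theorem norm_sqrt_smul (t : ℝ) (X : gC L) :
    ‖((Real.sqrt t : ℝ) : ℂ) • X‖ = Real.sqrt t * ‖X‖ := by
  rw [norm_smul, Complex.norm_real, Real.norm_eq_abs, abs_of_nonneg (Real.sqrt_nonneg _)]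

include P cl hw ht hA hAt in
theorem near_pt {n : ℕ} {E : Fin n → Mt m} (hE1 : ∀ a, ‖E a‖ = 1)
    {C6 δ6 C4 δ4 Cp ρ : ℝ} (hC6 : 0 < C6) (hC4 : 0 < C4) (hCp : 0 < Cp)
    (h6 : ∀ X η : gC L, imP (X : Mt m) = 0 → imP (η : Mt m) = 0 → ‖X‖ ≤ δ6 → ‖η‖ ≤ δ6 →
      ‖sdf D (fun Z : gC L => Qf (Z : Mt m)) X η + ((T6 (X : Mt m) (η : Mt m) : ℝ) : ℂ)‖ ≤
        C6 * (‖X‖ + ‖η‖) ^ 7)
    (h4 : ∀ X η : gC L, imP (X : Mt m) = 0 → imP (η : Mt m) = 0 → ‖X‖ ≤ δ4 → ‖η‖ ≤ δ4 →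
      ‖sdf D w X η - P4 w ((1 / 2 : ℂ) • X) η‖ ≤ C4 * A * (‖X‖ + ‖η‖) ^ 5)
    {X : gC L} (hX : (X : Mt m) ∈ lieSet L) (hX4 : ‖X‖ ≤ 4)
    {c : Fin n → Fin n → ℝ}
    (hc : ∀ a b, |c a b| ≤ Cp * A * ‖((Real.sqrt t : ℝ) : ℂ) • X‖ ^ 2)
    (hform : ∀ η : gC L, imP (η : Mt m) = 0 →
      P4 w ((1 / 2 : ℂ) • (((Real.sqrt t : ℝ) : ℂ) • X)) η =
        ((∑ a, ∑ b, c a b * ipr (E a) (η : Mt m) * ipr (E b) (η : Mt m) : ℝ) : ℂ))
    (hst0 : Real.sqrt t ≤ 1 / 2) (hstr : 4 * Real.sqrt t < r0 / 4) (hst6 : 4 * Real.sqrt t ≤ δ6)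
    (hst4 : 4 * Real.sqrt t ≤ δ4) (hρ1 : ρ ≤ r0 / 20) (hρ6 : 2 * ρ ≤ δ6) (hρ4 : 2 * ρ ≤ δ4)
    {K C1 : ℝ} (hK : K = 16 * (192 / δ ^ 2 + 7400) + (4 + 16 * n ^ 2 * Cp))
    (hC1 : C1 = 8192 * C6 + 1024 * C4) {y : G} (hy : dis L y < ρ) :
    ‖Dri.phi L F t w (((Real.sqrt t : ℝ) : ℂ) • X) y -
      (((-s0 E t (X : Mt m) c (Dri.et L D y : Mt m) +
        (1 / 48 * ‖ad (X : Mt m) (Dri.et L D y : Mt m)‖ ^ 2) ^ 2 / 2) * res L F y ^ 2 : ℝ) : ℂ)‖ ≤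
      (K ^ 3 * Real.exp K + C1 + C1 * K + K ^ 2) * ((1 + A) / t) *
        ((Real.sqrt t + ‖Dri.et L D y‖) ^ 7 * res L F y ^ 2) := by
  have hr0 := P.r0_pos
  have hr01 := P.r0_le
  have hrl' := P.r'_lo
  have hδ := P.r0_δ
  have he1 := P.e1
  have he0 := P.e0
  have hδ0 : 0 < δ := by linarith
  have hyr : dis L y < r0 / 20 := lt_of_lt_of_le hy hρ1
  have hyδ : dis L y < δ := by linarith
  have hd0 : 0 ≤ dis L y := norm_nonneg _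
  have hη16 : ‖Dri.et L D y‖ < r0 / 16 := Dri.et_lt P hyr
  have hηim : imP ((Dri.et L D y : gC L) : Mt m) = 0 := Dri.et_im P.ch hyδ
  have hηn := Dri.et_norm P.ch hyδ
  have hηρ : ‖Dri.et L D y‖ ≤ 2 * ρ := by nlinarith
  set η := Dri.et L D y with hηd
  have hη0 := norm_nonneg η
  have hX0 := norm_nonneg X
  have hst := Real.sqrt_pos.2 ht
  have hsq : Real.sqrt t ^ 2 = t := Real.sq_sqrt ht.le
  set Z : gC L := ((Real.sqrt t : ℝ) : ℂ) • X with hZd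
  have hZc : (Z : Mt m) = ((Real.sqrt t : ℝ) : ℂ) • (X : Mt m) := rfl
  have hZn : ‖Z‖ = Real.sqrt t * ‖X‖ := norm_sqrt_smul t X
  have hZ4 : ‖Z‖ ≤ 4 * Real.sqrt t := by rw [hZn]; nlinarith
  have hZ2 : ‖Z‖ ^ 2 ≤ 16 * t := by
    have := pow_le_pow_left₀ (norm_nonneg Z) hZ4 2
    calc _ ≤ (4 * Real.sqrt t) ^ 2 := this
      _ = 16 * Real.sqrt t ^ 2 := by ring
      _ = _ := by rw [hsq]
  have hZim : imP (Z : Mt m) = 0 := by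
    rw [hZc, imP_smul, imP_of_skew (lie_skew L hX), smul_zero]
  have hZdom : Z ∈ dom L r' (r0 / 4) := by
    refine ball_sub_dom (ρ := r0 / 4) (by linarith) le_rfl ?_
    rw [mem_ball_zero_iff]
    linarith
  set p : ℝ := Real.sqrt t + ‖η‖ with hpd
  have hp0 : 0 ≤ p := by positivity
  have hp1 : p ≤ 1 := by linarith
  have htp : t ≤ p ^ 2 := by
    rw [← hsq]
    exact pow_le_pow_left₀ hst.le (by linarith) 2
  have hηp : ‖η‖ ≤ p := by linarith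
  have hcp : ∀ a b, |c a b| ≤ Cp * A * (16 * t) := fun a b =>
    (hc a b).trans (mul_le_mul_of_nonneg_left hZ2 (by positivity))
  obtain ⟨g1, g2, g3⟩ := s0_bds (E := E) hE1 ht hA hAt hCp.le (X := (X : Mt m))
    (η := (η : Mt m)) hX4 hcp hp1 htp hηp
  have hn0 : (0 : ℝ) ≤ 16 * n ^ 2 * Cp := by positivity
  have hKd0 : 0 ≤ 16 * (192 / δ ^ 2 + 7400) := by positivity
  have hK1 : 4 + 16 * n ^ 2 * Cp ≤ K := by rw [hK]; linarith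
  have hK2 : 16 * (192 / δ ^ 2 + 7400) ≤ K := by rw [hK]; linarith
  have hK0 : 0 ≤ K := hKd0.trans hK2
  have hC10 : 0 ≤ C1 := by rw [hC1]; positivity
  have hp20 : 0 ≤ p ^ 2 := sq_nonneg p
  -- the exponent
  have q1 : ‖Dri.Sx D t w Z η - ((s0 E t (X : Mt m) c (η : Mt m) : ℝ) : ℂ)‖ ≤
      C1 * ((1 + A) * (p ^ 7 / t)) := by
    have a1 := h6 Z η hZim hηim (by linarith) (by linarith)
    have a2 := h4 Z η hZim hηim (by linarith) (by linarith)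
    rw [hform η hηim] at a2
    rw [hZc, T6_smul ht.le] at a1
    have hs : ‖Z‖ + ‖η‖ ≤ 4 * p := by linarith
    have hs0 : 0 ≤ ‖Z‖ + ‖η‖ := by positivity
    have hs7 : (‖Z‖ + ‖η‖) ^ 7 ≤ (4 * p) ^ 7 := pow_le_pow_left₀ hs0 hs 7
    have hs5 : (‖Z‖ + ‖η‖) ^ 5 ≤ (4 * p) ^ 5 := pow_le_pow_left₀ hs0 hs 5
    have hp57 : p ^ 5 ≤ p ^ 7 / t := by
      rw [le_div_iff₀ ht]
      calc p ^ 5 * t ≤ p ^ 5 * p ^ 2 := by gcongr
        _ = _ := by ring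
    have e : Dri.Sx D t w Z η - ((s0 E t (X : Mt m) c (η : Mt m) : ℝ) : ℂ) =
        (sdf D (fun Z : gC L => Qf (Z : Mt m)) Z η +
          ((t / 24 * ‖ad (X : Mt m) (η : Mt m)‖ ^ 2 +
            t / 1440 * ‖ad (η : Mt m) (ad (η : Mt m) (X : Mt m))‖ ^ 2 +
            t ^ 2 / 5760 * ‖ad (X : Mt m) (ad (X : Mt m) (η : Mt m))‖ ^ 2 : ℝ) : ℂ)) / (2 * t) +
        (sdf D w Z η - ((∑ a, ∑ b, c a b * ipr (E a) (η : Mt m) * ipr (E b) (η : Mt m) : ℝ) : ℂ)) := by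
      have htc : (t : ℂ) ≠ 0 := Complex.ofReal_ne_zero.2 ht.ne'
      unfold Dri.Sx s0
      push_cast
      field_simp
      ring
    rw [e]
    refine (norm_add_le _ _).trans ?_
    rw [norm_div]
    have e2 : ‖(2 * (t : ℂ))‖ = 2 * t := by
      rw [norm_mul, Complex.norm_real, Real.norm_eq_abs, abs_of_pos ht, Complex.norm_ofNat]
    rw [e2]
    have b1 : ‖sdf D (fun Z : gC L => Qf (Z : Mt m)) Z η +
          ((t / 24 * ‖ad (X : Mt m) (η : Mt m)‖ ^ 2 +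
            t / 1440 * ‖ad (η : Mt m) (ad (η : Mt m) (X : Mt m))‖ ^ 2 +
            t ^ 2 / 5760 * ‖ad (X : Mt m) (ad (X : Mt m) (η : Mt m))‖ ^ 2 : ℝ) : ℂ)‖ / (2 * t) ≤
        C6 * (4 * p) ^ 7 / (2 * t) :=
      div_le_div_of_nonneg_right (a1.trans (mul_le_mul_of_nonneg_left hs7 hC6.le)) (by positivity)
    have b2 : C6 * (4 * p) ^ 7 / (2 * t) = 8192 * C6 * (p ^ 7 / t) := by
      field_simp
      ring
    have b3 : C4 * A * (‖Z‖ + ‖η‖) ^ 5 ≤ 1024 * C4 * (A * (p ^ 7 / t)) := by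
      calc C4 * A * (‖Z‖ + ‖η‖) ^ 5 ≤ C4 * A * (4 * p) ^ 5 := by gcongr
        _ = 1024 * C4 * (A * p ^ 5) := by ring
        _ ≤ 1024 * C4 * (A * (p ^ 7 / t)) := by gcongr
    have hU0 : 0 ≤ p ^ 7 / t := by positivity
    have b4 : C1 * ((1 + A) * (p ^ 7 / t)) = 8192 * C6 * (p ^ 7 / t) +
        1024 * C4 * (A * (p ^ 7 / t)) + (8192 * C6 * (A * (p ^ 7 / t)) +
        1024 * C4 * (p ^ 7 / t)) := by
      rw [hC1]; ring
    have b5 : 0 ≤ 8192 * C6 * (A * (p ^ 7 / t)) + 1024 * C4 * (p ^ 7 / t) := by positivity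
    rw [b4]
    rw [b2] at b1
    linarith
  have q2 : ‖Dri.Sx D t w Z η‖ ≤ K * p ^ 2 := by
    have a1 := Dri.Sx_le P hw ht hA hAt Z hZdom y hyr
    rw [← hηd] at a1
    refine a1.trans ?_
    have hη2 : ‖η‖ ^ 2 ≤ p ^ 2 := pow_le_pow_left₀ hη0 hηp 2
    calc (192 / δ ^ 2 + 7400) * ‖Z‖ ^ 2 * (‖η‖ ^ 2 / t) ≤
          (192 / δ ^ 2 + 7400) * (16 * t) * (p ^ 2 / t) := by gcongr
      _ = 16 * (192 / δ ^ 2 + 7400) * p ^ 2 := by field_simp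
      _ ≤ K * p ^ 2 := mul_le_mul_of_nonneg_right hK2 hp20
  have q3 := exp_two (S := Dri.Sx D t w Z η) (s := s0 E t (X : Mt m) c (η : Mt m))
    (q := 1 / 48 * ‖ad (X : Mt m) (η : Mt m)‖ ^ 2) ht hp0 hp1 htp hA hK0 hC10 q1 q2
    (g2.trans (mul_le_mul_of_nonneg_right hK1 hp20)) (by positivity)
    (g1.trans (mul_le_mul_of_nonneg_right hK1 hp20))
    (g3.trans (mul_le_mul_of_nonneg_right hK1 (by positivity)))
  rw [Dri.inner_eq P cl hw Z hZdom y hyr, Dri.FF_eq cl, ← hηd]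
  have e5 : ((res L F y ^ 2 : ℝ) : ℂ) * (Complex.exp (-Dri.Sx D t w Z η) - 1) -
      (((-s0 E t (X : Mt m) c (η : Mt m) +
        (1 / 48 * ‖ad (X : Mt m) (η : Mt m)‖ ^ 2) ^ 2 / 2) * res L F y ^ 2 : ℝ) : ℂ) =
      ((res L F y ^ 2 : ℝ) : ℂ) * (Complex.exp (-Dri.Sx D t w Z η) - 1 -
        ((-s0 E t (X : Mt m) c (η : Mt m) +
        (1 / 48 * ‖ad (X : Mt m) (η : Mt m)‖ ^ 2) ^ 2 / 2 : ℝ) : ℂ)) := by
    push_cast
    ring
  rw [e5, norm_mul, Complex.norm_real, Real.norm_eq_abs, abs_of_nonneg (sq_nonneg _)]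
  calc _ ≤ res L F y ^ 2 * ((K ^ 3 * Real.exp K + C1 + C1 * K + K ^ 2) *
        ((1 + A) * (p ^ 7 / t))) := mul_le_mul_of_nonneg_left q3 (sq_nonneg _)
    _ = _ := by ring

end pt

end TlD

end

end Pool.Agent.T2H04.HY
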