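import Mathlib
import Pool.Agent.T2H04.HY.Tl0

/-!
# Casimir identities (package ALG)

On the Lie algebra with the inner product `⟨X, Y⟩ = Re tr(Xᴴ Y)` (`ipr`), `ad_X` is skew (`Dri1.ipr_ad`),
`E` is an orthonormal basis (`Dri.parseval`, `full`). (1) `alg1`: `∑_a ⟨ad_a² X, Y⟩ = -∑_a ⟨[a,X],[a,Y]⟩
= -cas ⟨X,Y⟩` (polarise `hcas`), and both sides are in the Lie algebra. (2) `alg2`: `∑_a ad_a ad_X ad_a`:
`ad_a ad_X = ad_X ad_a + ad_[a,X]`, and `∑_a ad_{[a,X]} ad_a = -∑_a ad_a ad_{[a,X]}` (because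
`∑_a [a,X] ⊗ a` is antisymmetric: `∑_a ⟨[a,X],b⟩ ⟨a,c⟩ = ⟨[c,X],b⟩ = -⟨[b,X],c⟩`), so
`∑_a ad_{[a,X]} ad_a = ½ ∑_a (ad_{[a,X]} ad_a - ad_a ad_{[a,X]}) = ½ ∑_a ad_{[[a,X],a]}
= ½ ad_{cas X}` (`[[a,X],a] = -ad_a² X`); `∑ ad_a ad_X ad_a = ad_X (-cas) + cas/2 ad_X`.
(3) the sums of products follow. (4) `alg6`: `T4 E X = ∑_{ab} ⟨[X,E_a],[X,E_b]⟩²`
(`⟨[X,E_a],[X,E_b]⟩ = -⟨E_a, ad_X² E_b⟩`, parseval). (5) `alg7`: `T4 E X = tr (ad_X⁴) = ∑_c ⟨ad_X⁴ E_c, E_c⟩`,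
second difference `2 (4 tr (ad_X² ad_Y²) + 2 tr (ad_X ad_Y ad_X ad_Y))`, sum with (1), (2).
-/

open MeasureTheory Matrix Filter
open scoped Matrix.Norms.Frobenius Topology

namespace Pool.Agent.T2H04.HY

set_option linter.unusedSectionVars false

noncomputable section

namespace TAlg

section mt

variable {m : Type} [Fintype m] [DecidableEq m]

theorem ad_add_left (X Y Z : Mt m) : ad (X + Y) Z = ad X Z + ad Y Z := by
  unfold ad
  rw [add_mul, mul_add]; abel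

theorem ad_add_right (X Y Z : Mt m) : ad X (Y + Z) = ad X Y + ad X Z := by
  unfold ad
  rw [add_mul, mul_add]; abel

theorem ad_swap (X Y : Mt m) : ad X Y = -ad Y X := by
  unfold ad
  abel

theorem ad_smul_left (c : ℝ) (X Y : Mt m) : ad (c • X) Y = c • ad X Y := by
  unfold ad
  rw [smul_mul_assoc, mul_smul_comm, smul_sub]

theorem ad_smul_right (c : ℝ) (X Y : Mt m) : ad X (c • Y) = c • ad X Y := by
  unfold ad
  rw [smul_mul_assoc, mul_smul_comm, smul_sub]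

theorem ad_neg_left (X Y : Mt m) : ad (-X) Y = -ad X Y := by
  unfold ad
  rw [neg_mul, mul_neg]; abel

theorem ad_neg_right (X Y : Mt m) : ad X (-Y) = -ad X Y := by
  unfold ad
  rw [neg_mul, mul_neg]; abel

theorem ad_sub_left (X Y Z : Mt m) : ad (X - Y) Z = ad X Z - ad Y Z := by
  unfold ad
  rw [sub_mul, mul_sub]; abel

theorem ad_sub_right (X Y Z : Mt m) : ad X (Y - Z) = ad X Y - ad X Z := by
  unfold ad
  rw [sub_mul, mul_sub]; abel

theorem ad_sum_left {ι : Type*} (s : Finset ι) (f : ι → Mt m) (Y : Mt m) :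
    ad (∑ i ∈ s, f i) Y = ∑ i ∈ s, ad (f i) Y := by
  unfold ad
  rw [Finset.sum_mul, Finset.mul_sum, ← Finset.sum_sub_distrib]

theorem ad_sum_right {ι : Type*} (s : Finset ι) (f : ι → Mt m) (Y : Mt m) :
    ad Y (∑ i ∈ s, f i) = ∑ i ∈ s, ad Y (f i) := by
  unfold ad
  rw [Finset.sum_mul, Finset.mul_sum, ← Finset.sum_sub_distrib]

theorem jac (X Y Z : Mt m) : ad X (ad Y Z) = ad (ad X Y) Z + ad Y (ad X Z) := by
  unfold ad
  noncomm_ring

theorem ipr_add_left (X Y Z : Mt m) : ipr (X + Y) Z = ipr X Z + ipr Y Z := by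
  rw [Dri.ipr_comm, Dri.ipr_add, Dri.ipr_comm Z X, Dri.ipr_comm Z Y]

theorem ipr_neg_left (X Y : Mt m) : ipr (-X) Y = -ipr X Y := by
  rw [Dri.ipr_comm, Dri.ipr_neg, Dri.ipr_comm Y X]

theorem ipr_smul_left (c : ℝ) (X Y : Mt m) : ipr (c • X) Y = c * ipr X Y := by
  rw [Dri.ipr_comm, Dri.ipr_smul, Dri.ipr_comm Y X]

theorem ipr_sum_left {ι : Type*} (s : Finset ι) (X : ι → Mt m) (Y : Mt m) :
    ipr (∑ i ∈ s, X i) Y = ∑ i ∈ s, ipr (X i) Y := by
  rw [Dri.ipr_comm, Dri.ipr_sum]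
  exact Finset.sum_congr rfl fun i _ => Dri.ipr_comm _ _

/-- `ad X` is skew -/
theorem ipr_ad_left {X : Mt m} (hX : Xᴴ = -X) (A B : Mt m) : ipr (ad X A) B = -ipr A (ad X B) := by
  unfold ipr ad
  rw [conjTranspose_sub, conjTranspose_mul, conjTranspose_mul, hX, ← Complex.neg_re, ← trace_neg]
  congr 1
  have e1 : (Aᴴ * -X - -X * Aᴴ) * B = -(Aᴴ * X * B) + X * (Aᴴ * B) := by noncomm_ring
  have e2 : -(Aᴴ * (X * B - B * X)) = -(Aᴴ * X * B) + (Aᴴ * B) * X := by noncomm_ring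
  rw [e1, e2, trace_add, trace_add, trace_mul_comm X]

theorem norm_add_sq (X Y : Mt m) : ‖X + Y‖ ^ 2 = ‖X‖ ^ 2 + 2 * ipr X Y + ‖Y‖ ^ 2 := by
  rw [← Dri.ipr_self, Dri.ipr_add, ipr_add_left, ipr_add_left, Dri.ipr_self, Dri.ipr_self,
    Dri.ipr_comm Y X]
  ring

theorem norm_sub_sq (X Y : Mt m) : ‖X - Y‖ ^ 2 = ‖X‖ ^ 2 - 2 * ipr X Y + ‖Y‖ ^ 2 := by
  rw [sub_eq_add_neg, norm_add_sq, Dri.ipr_neg, norm_neg]
  ring

end mt

section grp

variable {G : Type} [Group G] [TopologicalSpace G] [IsTopologicalGroup G] [CompactSpace G]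
  {m : Type} [Fintype m] [DecidableEq m] {L : RD G m}

theorem lie_ad {X Y : Mt m} (hX : X ∈ lieSet L) (hY : Y ∈ lieSet L) : ad X Y ∈ lieSet L :=
  Dri.lie_brk L hX hY

theorem lie_sum {ι : Type*} (s : Finset ι) (f : ι → Mt m) (h : ∀ i, f i ∈ lieSet L) :
    ∑ i ∈ s, f i ∈ lieSet L := by
  classical
  induction s using Finset.induction_on with
  | empty => rw [Finset.sum_empty]; exact lie_zero L
  | insert a s ha ih => rw [Finset.sum_insert ha]; exact lie_add L (h a) ih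

variable {n : ℕ} {E : Fin n → Mt m} (hE : ∀ a, E a ∈ lieSet L)
    (orth : ∀ a b, (trace ((E a)ᴴ * E b)).re = if a = b then 1 else 0)
    (full : ∀ Y ∈ lieSet L, Y ∈ Submodule.span ℝ (Set.range E))
    {cas : ℝ} (hcas : ∀ X ∈ lieSet L, ∑ a, ‖E a * X - X * E a‖ ^ 2 = cas * ‖X‖ ^ 2)

include orth full in
theorem expand {Y : Mt m} (hY : Y ∈ lieSet L) : Y = ∑ b, ipr (E b) Y • E b := by
  obtain ⟨c, hc⟩ := (Submodule.mem_span_range_iff_exists_fun ℝ).1 (full Y hY)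
  have h : ∀ b, ipr (E b) Y = c b := by
    intro b
    rw [← hc, Dri.ipr_sum]
    have : ∀ a, ipr (E b) (c a • E a) = if b = a then c a else 0 := by
      intro a
      rw [Dri.ipr_smul]
      unfold ipr
      rw [orth]
      split_ifs <;> simp
    simp only [this, Finset.sum_ite_eq, Finset.mem_univ, if_true]
  conv_lhs => rw [← hc]
  exact Finset.sum_congr rfl fun b _ => by rw [h b]

include hcas in
/-- polarised Casimir -/
theorem polar {X Y : Mt m} (hX : X ∈ lieSet L) (hY : Y ∈ lieSet L) :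
    ∑ a, ipr (ad (E a) X) (ad (E a) Y) = cas * ipr X Y := by
  have h1 : ∑ a, ‖ad (E a) (X + Y)‖ ^ 2 = cas * ‖X + Y‖ ^ 2 := hcas _ (lie_add L hX hY)
  have h2 : ∑ a, ‖ad (E a) X‖ ^ 2 = cas * ‖X‖ ^ 2 := hcas _ hX
  have h3 : ∑ a, ‖ad (E a) Y‖ ^ 2 = cas * ‖Y‖ ^ 2 := hcas _ hY
  simp only [ad_add_right, norm_add_sq, Finset.sum_add_distrib, ← Finset.mul_sum] at h1
  rw [h2, h3] at h1
  linarith

include hE orth full hcas in
theorem cas1 {X : Mt m} (hX : X ∈ lieSet L) : ∑ a, ad (E a) (ad (E a) X) = -(cas • X) := by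
  have hZ : ∑ a, ad (E a) (ad (E a) X) + cas • X ∈ lieSet L :=
    lie_add L (lie_sum _ _ fun a => lie_ad (hE a) (lie_ad (hE a) hX)) (lie_smul L _ hX)
  have key : ∀ Y ∈ lieSet L, ipr (∑ a, ad (E a) (ad (E a) X) + cas • X) Y = 0 := by
    intro Y hY
    rw [ipr_add_left, ipr_sum_left, ipr_smul_left, ← polar hcas hX hY, ← Finset.sum_add_distrib]
    apply Finset.sum_eq_zero
    intro a _
    rw [ipr_ad_left (lie_skew L (hE a))]
    ring
  have h0 := key _ hZ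
  rw [Dri.ipr_self] at h0
  have h1 : ∑ a, ad (E a) (ad (E a) X) + cas • X = 0 := by
    rw [← norm_eq_zero]
    exact pow_eq_zero_iff (two_ne_zero) |>.1 h0
  exact eq_neg_of_add_eq_zero_left h1

include hE in
theorem anti {X : Mt m} (hX : X ∈ lieSet L) (a b : Fin n) :
    ipr (E b) (ad (E a) X) = -ipr (E a) (ad (E b) X) := by
  rw [ad_swap (E a) X, Dri.ipr_neg, ad_swap (E b) X, Dri.ipr_neg, ← ipr_ad_left (lie_skew L hX),
    Dri.ipr_comm (ad X (E b)) (E a)]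
  ring

include hE orth full in
/-- invariance of the Casimir tensor -/
theorem invar {X : Mt m} (hX : X ∈ lieSet L) (Y : Mt m) :
    ∑ a, ad (ad (E a) X) (ad (E a) Y) = -∑ a, ad (E a) (ad (ad (E a) X) Y) := by
  have h1 : ∀ a, ad (E a) X = ∑ b, ipr (E b) (ad (E a) X) • E b := fun a =>
    expand orth full (lie_ad (hE a) hX)
  have h2 : ∑ a, ad (ad (E a) X) (ad (E a) Y) =
      ∑ a, ∑ b, ipr (E b) (ad (E a) X) • ad (E b) (ad (E a) Y) := by
    refine Finset.sum_congr rfl fun a _ => ?_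
    conv_lhs => rw [h1 a]
    rw [ad_sum_left]
    exact Finset.sum_congr rfl fun b _ => ad_smul_left _ _ _
  have h3 : ∑ a, ad (E a) (ad (ad (E a) X) Y) =
      ∑ a, ∑ b, ipr (E b) (ad (E a) X) • ad (E a) (ad (E b) Y) := by
    refine Finset.sum_congr rfl fun a _ => ?_
    conv_lhs => rw [h1 a]
    rw [ad_sum_left, ad_sum_right]
    exact Finset.sum_congr rfl fun b _ => by rw [ad_smul_left, ad_smul_right]
  rw [h2, h3, Finset.sum_comm, ← Finset.sum_neg_distrib]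
  refine Finset.sum_congr rfl fun a _ => ?_
  rw [← Finset.sum_neg_distrib]
  refine Finset.sum_congr rfl fun b _ => ?_
  rw [anti hE hX b a, neg_smul]

include hE orth full hcas in
theorem cas2 {X Y : Mt m} (hX : X ∈ lieSet L) (hY : Y ∈ lieSet L) :
    ∑ a, ad (E a) (ad X (ad (E a) Y)) = -((cas / 2) • ad X Y) := by
  have h1 : ∑ a, ad (E a) (ad X (ad (E a) Y)) =
      ∑ a, ad (ad (E a) X) (ad (E a) Y) + ad X (∑ a, ad (E a) (ad (E a) Y)) := by
    rw [ad_sum_right, ← Finset.sum_add_distrib]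
    exact Finset.sum_congr rfl fun a _ => jac _ _ _
  have h2 := invar hE orth full hX Y
  have h3 : ∑ a, ad (E a) (ad (ad (E a) X) Y) =
      ad (∑ a, ad (E a) (ad (E a) X)) Y + ∑ a, ad (ad (E a) X) (ad (E a) Y) := by
    rw [ad_sum_left, ← Finset.sum_add_distrib]
    exact Finset.sum_congr rfl fun a _ => jac _ _ _
  rw [cas1 hE orth full hcas hX, ad_neg_left, ad_smul_left] at h3
  rw [h3] at h2
  have h4 : (2 : ℝ) • ∑ a, ad (ad (E a) X) (ad (E a) Y) = cas • ad X Y := by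
    rw [two_smul]
    nth_rewrite 1 [h2]
    abel
  have h5 : ∑ a, ad (ad (E a) X) (ad (E a) Y) = (cas / 2) • ad X Y := by
    have h6 : ∑ a, ad (ad (E a) X) (ad (E a) Y) =
        (1 / 2 : ℝ) • ((2 : ℝ) • ∑ a, ad (ad (E a) X) (ad (E a) Y)) := by
      rw [smul_smul]; norm_num
    rw [h6, h4, smul_smul]
    congr 1
    ring
  rw [h1, h5, cas1 hE orth full hcas hY, ad_neg_right, ad_smul_right]
  have h7 : cas • ad X Y = (cas / 2) • ad X Y + (cas / 2) • ad X Y := by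
    rw [← add_smul]; congr 1; ring
  rw [h7]
  abel

end grp

end TAlg

open TAlg

variable {G : Type} [Group G] [TopologicalSpace G] [IsTopologicalGroup G] [CompactSpace G]
  {m : Type} [Fintype m] [DecidableEq m] {L : RD G m}

section

variable {n : ℕ} (E : Fin n → Mt m) (hE : ∀ a, E a ∈ lieSet L)
    (orth : ∀ a b, (trace ((E a)ᴴ * E b)).re = if a = b then 1 else 0)
    (full : ∀ Y ∈ lieSet L, Y ∈ Submodule.span ℝ (Set.range E))
    (cas : ℝ) (hcas : ∀ X ∈ lieSet L, ∑ a, ‖E a * X - X * E a‖ ^ 2 = cas * ‖X‖ ^ 2)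

include hE orth full hcas

theorem alg1 {X : Mt m} (hX : X ∈ lieSet L) : ∑ a, ad (E a) (ad (E a) X) = -(cas • X) :=
  cas1 hE orth full hcas hX

theorem alg2 {X Y : Mt m} (hX : X ∈ lieSet L) (hY : Y ∈ lieSet L) :
    ∑ a, ad (E a) (ad X (ad (E a) Y)) = -((cas / 2) • ad X Y) :=
  cas2 hE orth full hcas hX hY

theorem alg3 {X : Mt m} (hX : X ∈ lieSet L) :
    ∑ a, ∑ b, ipr (ad (E a) (ad (E a) X)) (ad (E b) (ad (E b) X)) = cas ^ 2 * ‖X‖ ^ 2 := by
  have h1 : ∀ a, ∑ b, ipr (ad (E a) (ad (E a) X)) (ad (E b) (ad (E b) X)) =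
      ipr (ad (E a) (ad (E a) X)) (-(cas • X)) := by
    intro a
    rw [← cas1 hE orth full hcas hX, Dri.ipr_sum]
  rw [Finset.sum_congr rfl fun a _ => h1 a, ← ipr_sum_left, cas1 hE orth full hcas hX,
    Dri.ipr_neg, ipr_neg_left, Dri.ipr_smul, ipr_smul_left, Dri.ipr_self]
  ring

theorem alg4 {X : Mt m} (hX : X ∈ lieSet L) :
    ∑ a, ∑ b, ipr (ad (E a) (ad (E b) X)) (ad (E a) (ad (E b) X)) = cas ^ 2 * ‖X‖ ^ 2 := by
  rw [Finset.sum_comm]
  have h1 : ∀ b, ∑ a, ipr (ad (E a) (ad (E b) X)) (ad (E a) (ad (E b) X)) =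
      cas * ‖ad (E b) X‖ ^ 2 := by
    intro b
    rw [polar hcas (lie_ad (hE b) hX) (lie_ad (hE b) hX), Dri.ipr_self]
  rw [Finset.sum_congr rfl fun b _ => h1 b, ← Finset.mul_sum]
  have h2 : ∑ b, ‖ad (E b) X‖ ^ 2 = cas * ‖X‖ ^ 2 := hcas _ hX
  rw [h2]
  ring

theorem alg5 {X : Mt m} (hX : X ∈ lieSet L) :
    ∑ a, ∑ b, ipr (ad (E a) (ad (E b) X)) (ad (E b) (ad (E a) X)) = cas ^ 2 / 2 * ‖X‖ ^ 2 := by
  rw [Finset.sum_comm]
  have h1 : ∀ b, ∑ a, ipr (ad (E a) (ad (E b) X)) (ad (E b) (ad (E a) X)) =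
      cas / 2 * ‖ad (E b) X‖ ^ 2 := by
    intro b
    have h2 : ∑ a, ipr (ad (E a) (ad (E b) X)) (ad (E b) (ad (E a) X)) =
        -ipr (ad (E b) X) (∑ a, ad (E a) (ad (E b) (ad (E a) X))) := by
      rw [Dri.ipr_sum, ← Finset.sum_neg_distrib]
      exact Finset.sum_congr rfl fun a _ => ipr_ad_left (lie_skew L (hE a)) _ _
    rw [h2, cas2 hE orth full hcas (hE b) hX, Dri.ipr_neg, Dri.ipr_smul, Dri.ipr_self]
    ring
  rw [Finset.sum_congr rfl fun b _ => h1 b, ← Finset.mul_sum]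
  have h2 : ∑ b, ‖ad (E b) X‖ ^ 2 = cas * ‖X‖ ^ 2 := hcas _ hX
  rw [h2]
  ring

theorem alg6 {X : Mt m} (hX : X ∈ lieSet L) :
    ∑ a, ∑ b, ipr (ad X (E a)) (ad X (E b)) ^ 2 = T4 E X := by
  unfold T4
  refine Finset.sum_congr rfl fun a _ => ?_
  rw [Dri.parseval orth (full _ (lie_ad hX (lie_ad hX (hE a))))]
  refine Finset.sum_congr rfl fun b _ => ?_
  rw [Dri.ipr_comm (ad X (E a)), ipr_ad_left (lie_skew L hX)]
  ring

theorem alg7 : ∑ a, ∑ b, (T4 E (E a + E b) + T4 E (E a - E b) - 2 * T4 E (E a) -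
    2 * T4 E (E b)) = 10 * cas ^ 2 * n := by
  have h1 : ∀ X Y c : Mt m, ‖ad (X + Y) (ad (X + Y) c)‖ ^ 2 + ‖ad (X - Y) (ad (X - Y) c)‖ ^ 2 -
      2 * ‖ad X (ad X c)‖ ^ 2 - 2 * ‖ad Y (ad Y c)‖ ^ 2 =
      4 * ipr (ad X (ad X c)) (ad Y (ad Y c)) + 2 * ipr (ad X (ad Y c)) (ad X (ad Y c)) +
      2 * ipr (ad Y (ad X c)) (ad Y (ad X c)) + 4 * ipr (ad X (ad Y c)) (ad Y (ad X c)) := by
    intro X Y c
    have e1 : ad (X + Y) (ad (X + Y) c) =
        (ad X (ad X c) + ad Y (ad Y c)) + (ad X (ad Y c) + ad Y (ad X c)) := by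
      simp only [ad_add_left, ad_add_right]; abel
    have e2 : ad (X - Y) (ad (X - Y) c) =
        (ad X (ad X c) + ad Y (ad Y c)) - (ad X (ad Y c) + ad Y (ad X c)) := by
      simp only [ad_sub_left, ad_sub_right]; abel
    rw [e1, e2, TAlg.norm_add_sq (ad X (ad X c) + ad Y (ad Y c)), TAlg.norm_sub_sq,
      TAlg.norm_add_sq (ad X (ad X c)), TAlg.norm_add_sq (ad X (ad Y c)), Dri.ipr_self, Dri.ipr_self]
    ring
  have h2 : ∀ a b, T4 E (E a + E b) + T4 E (E a - E b) - 2 * T4 E (E a) - 2 * T4 E (E b) =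
      ∑ c, (4 * ipr (ad (E a) (ad (E a) (E c))) (ad (E b) (ad (E b) (E c))) +
      2 * ipr (ad (E a) (ad (E b) (E c))) (ad (E a) (ad (E b) (E c))) +
      2 * ipr (ad (E b) (ad (E a) (E c))) (ad (E b) (ad (E a) (E c))) +
      4 * ipr (ad (E a) (ad (E b) (E c))) (ad (E b) (ad (E a) (E c)))) := by
    intro a b
    unfold T4
    rw [Finset.mul_sum, Finset.mul_sum, ← Finset.sum_add_distrib, ← Finset.sum_sub_distrib,
      ← Finset.sum_sub_distrib]
    exact Finset.sum_congr rfl fun c _ => h1 _ _ _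
  have h3 : ∑ a, ∑ b, (T4 E (E a + E b) + T4 E (E a - E b) - 2 * T4 E (E a) -
      2 * T4 E (E b)) =
      ∑ c, ∑ a, ∑ b, (4 * ipr (ad (E a) (ad (E a) (E c))) (ad (E b) (ad (E b) (E c))) +
      2 * ipr (ad (E a) (ad (E b) (E c))) (ad (E a) (ad (E b) (E c))) +
      2 * ipr (ad (E b) (ad (E a) (E c))) (ad (E b) (ad (E a) (E c))) +
      4 * ipr (ad (E a) (ad (E b) (E c))) (ad (E b) (ad (E a) (E c)))) := by
    rw [Finset.sum_comm' (s := (Finset.univ : Finset (Fin n))) (t := fun _ => Finset.univ)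
      (t' := Finset.univ) (s' := fun _ => Finset.univ) (by simp)]
    simp only [h2]
    rw [Finset.sum_congr rfl fun b (_ : b ∈ Finset.univ) => Finset.sum_comm, Finset.sum_comm]
    exact Finset.sum_congr rfl fun c _ => Finset.sum_comm
  rw [h3]
  have h4 : ∀ c, ∑ a, ∑ b, (4 * ipr (ad (E a) (ad (E a) (E c))) (ad (E b) (ad (E b) (E c))) +
      2 * ipr (ad (E a) (ad (E b) (E c))) (ad (E a) (ad (E b) (E c))) +
      2 * ipr (ad (E b) (ad (E a) (E c))) (ad (E b) (ad (E a) (E c))) +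
      4 * ipr (ad (E a) (ad (E b) (E c))) (ad (E b) (ad (E a) (E c)))) = 10 * cas ^ 2 := by
    intro c
    have hc : ‖E c‖ ^ 2 = 1 := by
      rw [← Dri.ipr_self]
      unfold ipr
      rw [orth, if_pos rfl]
    have k3 := alg3 E hE orth full cas hcas (hE c)
    have k4 := alg4 E hE orth full cas hcas (hE c)
    have k5 := alg5 E hE orth full cas hcas (hE c)
    have k4' : ∑ a, ∑ b, ipr (ad (E b) (ad (E a) (E c))) (ad (E b) (ad (E a) (E c))) =
        cas ^ 2 * ‖E c‖ ^ 2 := by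
      rw [← k4, Finset.sum_comm]
    simp only [Finset.sum_add_distrib, ← Finset.mul_sum]
    rw [k3, k4, k4', k5, hc]
    ring
  rw [Finset.sum_congr rfl fun c _ => h4 c, Finset.sum_const, Finset.card_univ, Fintype.card_fin,
    nsmul_eq_mul]
  ring

/-- `‖[X, η]‖²`, `‖ad_η² X‖²`, `‖ad_X² η‖²` in coordinates -/
theorem alg8 {X η : Mt m} (hX : X ∈ lieSet L) (hη : η ∈ lieSet L) :
    ‖ad X η‖ ^ 2 = ∑ a, ∑ b, ipr (ad X (E a)) (ad X (E b)) * (ipr (E a) η * ipr (E b) η) ∧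
    ‖ad η (ad η X)‖ ^ 2 = ∑ a, ∑ b, ∑ c, ∑ d, ipr (ad (E a) (ad (E b) X)) (ad (E c) (ad (E d) X)) *
      (ipr (E a) η * ipr (E b) η * (ipr (E c) η * ipr (E d) η)) ∧
    ‖ad X (ad X η)‖ ^ 2 = ∑ a, ∑ b, ipr (ad X (ad X (E a))) (ad X (ad X (E b))) *
      (ipr (E a) η * ipr (E b) η) := by
  have hx := expand orth full hη
  have e1 : ad X η = ∑ a, ipr (E a) η • ad X (E a) := by
    conv_lhs => rw [hx]
    rw [ad_sum_right]
    exact Finset.sum_congr rfl fun a _ => ad_smul_right _ _ _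
  have e2 : ad X (ad X η) = ∑ a, ipr (E a) η • ad X (ad X (E a)) := by
    rw [e1, ad_sum_right]
    exact Finset.sum_congr rfl fun a _ => ad_smul_right _ _ _
  have e3 : ad η (ad η X) = ∑ a, ∑ b, (ipr (E a) η * ipr (E b) η) • ad (E a) (ad (E b) X) := by
    have e4 : ∀ Z, ad η Z = ∑ a, ipr (E a) η • ad (E a) Z := by
      intro Z
      conv_lhs => rw [hx]
      rw [ad_sum_left]
      exact Finset.sum_congr rfl fun a _ => ad_smul_left _ _ _
    rw [e4 (ad η X)]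
    refine Finset.sum_congr rfl fun a _ => ?_
    rw [e4 X, ad_sum_right, Finset.smul_sum]
    refine Finset.sum_congr rfl fun b _ => ?_
    rw [ad_smul_right, smul_smul]
  refine ⟨?_, ?_, ?_⟩
  · rw [← Dri.ipr_self, e1, ipr_sum_left]
    refine Finset.sum_congr rfl fun a _ => ?_
    rw [ipr_smul_left, Dri.ipr_sum, Finset.mul_sum]
    refine Finset.sum_congr rfl fun b _ => ?_
    rw [Dri.ipr_smul]; ring
  · rw [← Dri.ipr_self, e3, ipr_sum_left]
    refine Finset.sum_congr rfl fun a _ => ?_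
    rw [ipr_sum_left]
    refine Finset.sum_congr rfl fun b _ => ?_
    rw [ipr_smul_left, Dri.ipr_sum, Finset.mul_sum]
    refine Finset.sum_congr rfl fun c _ => ?_
    rw [Dri.ipr_sum, Finset.mul_sum]
    refine Finset.sum_congr rfl fun d _ => ?_
    rw [Dri.ipr_smul]; ring
  · rw [← Dri.ipr_self, e2, ipr_sum_left]
    refine Finset.sum_congr rfl fun a _ => ?_
    rw [ipr_smul_left, Dri.ipr_sum, Finset.mul_sum]
    refine Finset.sum_congr rfl fun b _ => ?_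
    rw [Dri.ipr_smul]; ring

end

end

end Pool.Agent.T2H04.HY
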