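import Mathlib
import Pool.Agent.T2H04.HY.Drift
import Pool.Agent.T2H04.HY.TlAlg
import Pool.Agent.T2H04.HY.TlDa

/-!
# Package PD: the integrals
-/

open MeasureTheory Matrix Filter
open scoped Matrix.Norms.Frobenius Topology

namespace Pool.Agent.T2H04.HY

set_option linter.unusedSectionVars false

noncomputable section

namespace TlD

section int

variable {G : Type} [Group G] [TopologicalSpace G] [IsTopologicalGroup G] [CompactSpace G]
  [MeasurableSpace G] [BorelSpace G] {μ : Measure G} [μ.IsHaarMeasure] [IsProbabilityMeasure μ]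
  {m : Type} [Fintype m] [DecidableEq m] {L : RD G m}
  {D : LogData m} {εg δ r0 r s b r' : ℝ} (P : Par L D εg δ r0 r s b r')
    {F : Mt m → ℂ} {t A : ℝ} (cl : Cls L F t A r (r0 / 4) s b (1 / 10000)) {w : gC L → ℂ}
    (hw : SFw L F t A r (r0 / 4) w) (ht : 0 < t) (hA : 0 ≤ A) (hAt : A * t ≤ 1 / 10)

include P cl ht hA hAt in
theorem intg_et {Φ : gC L → ℝ} (hΦ : Continuous Φ) {ρ : ℝ} (hρ : ρ ≤ r0 / 20) :
    IntegrableOn (fun y => Φ (Dri.et L D y) * res L F y ^ 2) (bal L ρ) μ := by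
  have : ProperSpace (gC L) := FiniteDimensional.proper ℂ (gC L)
  obtain ⟨M, hM⟩ := (isCompact_closedBall (0 : gC L) 1).exists_bound_of_continuousOn
    hΦ.continuousOn
  have hB : MeasurableSet (bal L ρ : Set G) := (isOpen_bal L ρ).measurableSet
  refine Dri.intg_on hB ?_ (M * (F 1).re ^ 2) ?_
  · exact (hΦ.comp_continuousOn (Dri.et_contOn P hρ)).mul
      ((res_cont L cl.diff).pow 2).continuousOn
  · intro y hy
    have hy' : dis L y < r0 / 20 := lt_of_lt_of_le hy hρ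
    rw [norm_mul]
    have h1 := hM (Dri.et L D y) (by
      rw [mem_closedBall_zero_iff]
      exact Dri.et_le_one P hy')
    refine mul_le_mul h1 ?_ (norm_nonneg _) ((norm_nonneg _).trans h1)
    rw [Real.norm_eq_abs, abs_of_nonneg (sq_nonneg _)]
    exact Dri.res_le P cl ht hA hAt y

theorem ipr_cont (X : Mt m) : Continuous fun η : gC L => ipr X (η : Mt m) :=
  (iprL X).continuous.comp continuous_subtype_val

theorem coe_cont : Continuous fun η : gC L => (η : Mt m) := continuous_subtype_val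

theorem ad_cont {f g : gC L → Mt m} (hf : Continuous f) (hg : Continuous g) :
    Continuous fun η => ad (f η) (g η) := by
  unfold ad
  exact (hf.mul hg).sub (hg.mul hf)

theorem s0_cont {n : ℕ} (E : Fin n → Mt m) (t : ℝ) (X : Mt m) (c : Fin n → Fin n → ℝ) :
    Continuous fun η : gC L => s0 E t X c (η : Mt m) := by
  unfold s0
  have h1 := ad_cont (L := L) (f := fun _ => X) continuous_const coe_cont
  have h2 := ad_cont (L := L) (f := fun η => (η : Mt m)) (g := fun _ => X) coe_cont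
    continuous_const
  have h3 := ad_cont (L := L) (f := fun η => (η : Mt m)) coe_cont h2
  have h4 := ad_cont (L := L) (f := fun _ => X) continuous_const h1
  refine (((continuous_const.mul (h1.norm.pow 2)).neg.sub
    (continuous_const.mul (h3.norm.pow 2))).sub (continuous_const.mul (h4.norm.pow 2))).add ?_
  exact continuous_finsetSum _ fun a _ => continuous_finsetSum _ fun b _ =>
    (continuous_const.mul (ipr_cont _)).mul (ipr_cont _)

/-- the integrand of the main part -/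
def ff {n : ℕ} (L : RD G m) (D : LogData m) (F : Mt m → ℂ) (E : Fin n → Mt m) (t : ℝ) (X : Mt m)
    (c : Fin n → Fin n → ℝ) (y : G) : ℝ :=
  (-s0 E t X c (Dri.et L D y : Mt m) + (1 / 48 * ‖ad X (Dri.et L D y : Mt m)‖ ^ 2) ^ 2 / 2) *
    res L F y ^ 2

include P cl ht hA hAt in
theorem ff_int {n : ℕ} (E : Fin n → Mt m) (X : Mt m) (c : Fin n → Fin n → ℝ) {ρ : ℝ}
    (hρ : ρ ≤ r0 / 20) : IntegrableOn (ff L D F E t X c) (bal L ρ) μ := by
  have h1 := ad_cont (L := L) (f := fun _ => X) continuous_const coe_cont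
  exact intg_et P cl ht hA hAt (Φ := fun η => -s0 E t X c (η : Mt m) +
    (1 / 48 * ‖ad X (η : Mt m)‖ ^ 2) ^ 2 / 2)
    ((s0_cont E t X c).neg.add ((((continuous_const.mul (h1.norm.pow 2)).pow 2).div_const 2))) hρ

include P cl hw ht hA hAt in
theorem near_int {n : ℕ} {E : Fin n → Mt m} {X : gC L} {c : Fin n → Fin n → ℝ} {ρ KK : ℝ}
    (hρ : ρ ≤ r0 / 20) (hKK : 0 ≤ KK)
    (hpt : ∀ y : G, dis L y < ρ → ‖Dri.phi L F t w (((Real.sqrt t : ℝ) : ℂ) • X) y -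
      ((ff L D F E t (X : Mt m) c y : ℝ) : ℂ)‖ ≤
      KK * ((Real.sqrt t + ‖Dri.et L D y‖) ^ 7 * res L F y ^ 2))
    {C7 : ℝ}
    (h7 : ∫ y in bal L ρ, ‖Dri.et L D y‖ ^ 7 * res L F y ^ 2 ∂μ ≤
      C7 * Real.sqrt t ^ 7 * ∫ y, res L F y ^ 2 ∂μ) :
    ‖∫ y in bal L ρ, Dri.phi L F t w (((Real.sqrt t : ℝ) : ℂ) • X) y ∂μ -
      ((∫ y in bal L ρ, ff L D F E t (X : Mt m) c y ∂μ : ℝ) : ℂ)‖ ≤
      KK * (64 * (1 + C7) * Real.sqrt t ^ 7) * ∫ y, res L F y ^ 2 ∂μ := by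
  have hB : MeasurableSet (bal L ρ : Set G) := (isOpen_bal L ρ).measurableSet
  have hphi : IntegrableOn (Dri.phi L F t w (((Real.sqrt t : ℝ) : ℂ) • X)) (bal L ρ) μ :=
    (intg μ (Dri.phi_cont cl.diff.continuous t w _)).integrableOn
  have hff := ff_int (μ := μ) P cl ht hA hAt E (X : Mt m) c hρ
  have hffc : IntegrableOn (fun y => ((ff L D F E t (X : Mt m) c y : ℝ) : ℂ)) (bal L ρ) μ :=
    hff.ofReal
  have hq0 := Real.sqrt_nonneg t
  have i1 : IntegrableOn (fun y => Real.sqrt t ^ 7 * res L F y ^ 2) (bal L ρ) μ :=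
    intg_et P cl ht hA hAt (Φ := fun _ => Real.sqrt t ^ 7) continuous_const hρ
  have i2 : IntegrableOn (fun y => ‖Dri.et L D y‖ ^ 7 * res L F y ^ 2) (bal L ρ) μ :=
    intg_et P cl ht hA hAt (Φ := fun η => ‖η‖ ^ 7) (continuous_norm.pow 7) hρ
  have e1 : ∫ y in bal L ρ, Dri.phi L F t w (((Real.sqrt t : ℝ) : ℂ) • X) y ∂μ -
      ((∫ y in bal L ρ, ff L D F E t (X : Mt m) c y ∂μ : ℝ) : ℂ) =
      ∫ y in bal L ρ, (Dri.phi L F t w (((Real.sqrt t : ℝ) : ℂ) • X) y -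
        ((ff L D F E t (X : Mt m) c y : ℝ) : ℂ)) ∂μ := by
    have e0 : ((∫ y in bal L ρ, ff L D F E t (X : Mt m) c y ∂μ : ℝ) : ℂ) =
        ∫ y in bal L ρ, ((ff L D F E t (X : Mt m) c y : ℝ) : ℂ) ∂μ :=
      (integral_ofReal (𝕜 := ℂ)).symm
    rw [integral_sub hphi hffc, e0]
  rw [e1]
  have hbd : ∀ y ∈ (bal L ρ : Set G), ‖Dri.phi L F t w (((Real.sqrt t : ℝ) : ℂ) • X) y -
        ((ff L D F E t (X : Mt m) c y : ℝ) : ℂ)‖ ≤
      KK * (64 * (Real.sqrt t ^ 7 * res L F y ^ 2 + ‖Dri.et L D y‖ ^ 7 * res L F y ^ 2)) := by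
    intro y hy
    refine (hpt y hy).trans (mul_le_mul_of_nonneg_left ?_ hKK)
    have h1 := add_pow_le hq0 (norm_nonneg (Dri.et L D y)) 7
    have h2 : (2 : ℝ) ^ (7 - 1) = 64 := by norm_num
    rw [h2] at h1
    calc _ ≤ (64 * (Real.sqrt t ^ 7 + ‖Dri.et L D y‖ ^ 7)) * res L F y ^ 2 :=
          mul_le_mul_of_nonneg_right h1 (sq_nonneg _)
      _ = _ := by ring
  refine (norm_integral_le_of_norm_le (((i1.add i2).const_mul 64).const_mul KK)
    ((ae_restrict_iff' hB).2 (Filter.Eventually.of_forall hbd))).trans ?_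
  have hV : ∫ y in bal L ρ, res L F y ^ 2 ∂μ ≤ ∫ y, res L F y ^ 2 ∂μ :=
    setIntegral_le_integral (intg μ ((res_cont L cl.diff).pow 2))
      (Filter.Eventually.of_forall fun y => sq_nonneg _)
  have e2 : ∫ y in bal L ρ, KK * (64 * (Real.sqrt t ^ 7 * res L F y ^ 2 +
      ‖Dri.et L D y‖ ^ 7 * res L F y ^ 2)) ∂μ =
      KK * (64 * (Real.sqrt t ^ 7 * ∫ y in bal L ρ, res L F y ^ 2 ∂μ +
        ∫ y in bal L ρ, ‖Dri.et L D y‖ ^ 7 * res L F y ^ 2 ∂μ)) := by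
    rw [integral_const_mul, integral_const_mul, integral_add i1 i2, integral_const_mul]
  have hq7 : 0 ≤ Real.sqrt t ^ 7 := by positivity
  calc _ = KK * (64 * (Real.sqrt t ^ 7 * ∫ y in bal L ρ, res L F y ^ 2 ∂μ +
        ∫ y in bal L ρ, ‖Dri.et L D y‖ ^ 7 * res L F y ^ 2 ∂μ)) := e2
    _ ≤ KK * (64 * (Real.sqrt t ^ 7 * ∫ y, res L F y ^ 2 ∂μ +
        C7 * Real.sqrt t ^ 7 * ∫ y, res L F y ^ 2 ∂μ)) := by
        have := mul_le_mul_of_nonneg_left hV hq7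
        gcongr
    _ = _ := by ring

end int

section mom

variable {G : Type} [Group G] [TopologicalSpace G] [IsTopologicalGroup G] [CompactSpace G]
  [MeasurableSpace G] [BorelSpace G] {μ : Measure G} [μ.IsHaarMeasure] [IsProbabilityMeasure μ]
  {m : Type} [Fintype m] [DecidableEq m] {L : RD G m}
  {D : LogData m} {εg δ r0 r s b r' : ℝ} (P : Par L D εg δ r0 r s b r')
    {F : Mt m → ℂ} {t A : ℝ} (cl : Cls L F t A r (r0 / 4) s b (1 / 10000)) {w : gC L → ℂ}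
    (ht : 0 < t) (hA : 0 ≤ A) (hAt : A * t ≤ 1 / 10)

theorem int5 {α : Type*} [MeasurableSpace α] {ν : Measure α} {f1 f2 f3 f4 f5 : α → ℝ}
    (h1 : Integrable f1 ν) (h2 : Integrable f2 ν) (h3 : Integrable f3 ν) (h4 : Integrable f4 ν)
    (h5 : Integrable f5 ν) (k1 k2 k3 k5 : ℝ) :
    ∫ y, (k1 * f1 y + k2 * f2 y + k3 * f3 y - f4 y + k5 * f5 y) ∂ν =
      k1 * ∫ y, f1 y ∂ν + k2 * ∫ y, f2 y ∂ν + k3 * ∫ y, f3 y ∂ν - ∫ y, f4 y ∂ν +
        k5 * ∫ y, f5 y ∂ν := by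
  have a1 := integral_add (h1.const_mul k1) (h2.const_mul k2)
  have i12 : Integrable (fun y => k1 * f1 y + k2 * f2 y) ν := (h1.const_mul k1).add (h2.const_mul k2)
  have a2 := integral_add i12 (h3.const_mul k3)
  have i123 : Integrable (fun y => k1 * f1 y + k2 * f2 y + k3 * f3 y) ν := i12.add (h3.const_mul k3)
  have a3 := integral_sub i123 h4
  have i1234 : Integrable (fun y => k1 * f1 y + k2 * f2 y + k3 * f3 y - f4 y) ν := i123.sub h4
  have a4 := integral_add i1234 (h5.const_mul k5)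
  rw [a4, a3, a2, a1, integral_const_mul, integral_const_mul, integral_const_mul,
    integral_const_mul]

theorem ff_eq_sum {n : ℕ} (E : Fin n → Mt m) (hE : ∀ a, E a ∈ lieSet L)
    (orth : ∀ a b, (trace ((E a)ᴴ * E b)).re = if a = b then 1 else 0)
    (full : ∀ Y ∈ lieSet L, Y ∈ Submodule.span ℝ (Set.range E))
    (cas : ℝ) (hcas : ∀ X ∈ lieSet L, ∑ a, ‖E a * X - X * E a‖ ^ 2 = cas * ‖X‖ ^ 2)
    {X : Mt m} (hX : X ∈ lieSet L) {y : G} (hηl : ((Dri.et L D y : gC L) : Mt m) ∈ lieSet L)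
    (c : Fin n → Fin n → ℝ) :
    ff L D F E t X c y =
      1 / 48 * ((∑ a, ∑ b, ipr (ad X (E a)) (ad X (E b)) * (crd L D (E a) y * crd L D (E b) y)) *
        res L F y ^ 2) +
      1 / 2880 * ((∑ a, ∑ b, ∑ c, ∑ d, ipr (ad (E a) (ad (E b) X)) (ad (E c) (ad (E d) X)) *
        (crd L D (E a) y * crd L D (E b) y * (crd L D (E c) y * crd L D (E d) y))) *
        res L F y ^ 2) +
      t / 11520 * ((∑ a, ∑ b, ipr (ad X (ad X (E a))) (ad X (ad X (E b))) *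
        (crd L D (E a) y * crd L D (E b) y)) * res L F y ^ 2) -
      (∑ a, ∑ b, c a b * (crd L D (E a) y * crd L D (E b) y)) * res L F y ^ 2 +
      1 / 4608 * ((∑ a, ∑ b, ∑ c, ∑ d, ipr (ad X (E a)) (ad X (E b)) *
        ipr (ad X (E c)) (ad X (E d)) *
        (crd L D (E a) y * crd L D (E b) y * (crd L D (E c) y * crd L D (E d) y))) *
        res L F y ^ 2) := by
  obtain ⟨u1, u2, u3⟩ := alg8 E hE orth full cas hcas hX hηl
  have v4 : (∑ a, ∑ b, ipr (ad X (E a)) (ad X (E b)) * (crd L D (E a) y * crd L D (E b) y)) ^ 2 =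
      ∑ a, ∑ b, ∑ c, ∑ d, ipr (ad X (E a)) (ad X (E b)) * ipr (ad X (E c)) (ad X (E d)) *
        (crd L D (E a) y * crd L D (E b) y * (crd L D (E c) y * crd L D (E d) y)) := by
    rw [pow_two, Finset.sum_mul]
    refine Finset.sum_congr rfl fun a _ => ?_
    rw [Finset.sum_mul]
    refine Finset.sum_congr rfl fun b _ => ?_
    rw [Finset.mul_sum]
    refine Finset.sum_congr rfl fun c _ => ?_
    rw [Finset.mul_sum]
    exact Finset.sum_congr rfl fun d _ => by ring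
  have v5 : ∑ a, ∑ b, c a b * ipr (E a) (Dri.et L D y : Mt m) *
      ipr (E b) (Dri.et L D y : Mt m) =
      ∑ a, ∑ b, c a b * (crd L D (E a) y * crd L D (E b) y) := by
    refine Finset.sum_congr rfl fun a _ => Finset.sum_congr rfl fun b _ => ?_
    unfold crd
    ring
  rw [← v4]
  unfold ff s0
  rw [v5, u2, u3, u1]
  simp only [crd]
  ring

/-- the arithmetic of the coefficients -/
theorem mom_arith {n V ε Cp t A cas N T4v lam' I1 I2 I3 Ic I4 m2 sc : ℝ} (hn : 0 ≤ n)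
    (hCp : 0 ≤ Cp) (ht : 0 < t) (ht1 : t ≤ 1) (hA : 0 ≤ A) (hAt : A * t ≤ 1 / 10) (hV : 0 ≤ V)
    (hε : 0 ≤ ε) (hN : 0 ≤ N) (hN16 : N ≤ 16) (hT0 : 0 ≤ T4v) (hT : T4v ≤ 4096 * n)
    (hlam : |lam'| ≤ Cp * A) (hm2 : m2 = t / 2 * (1 - cas * t / 24)) (hsc : sc = lam' / 4 * (t * N))
    (h1 : |I1 - m2 * (cas * N) * V| ≤ n ^ 2 * 64 * ε)
    (h2 : |I2 - t ^ 2 / 4 * (cas ^ 2 * N + cas ^ 2 * N + cas ^ 2 / 2 * N) * V| ≤ n ^ 4 * 256 * ε)
    (h3 : |I3 - m2 * T4v * V| ≤ n ^ 2 * 4096 * ε)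
    (hc : |Ic - m2 * sc * V| ≤ n ^ 2 * (Cp * A * (16 * t)) * ε)
    (h4 : |I4 - t ^ 2 / 4 * ((cas * N) * (cas * N) + T4v + T4v) * V| ≤ n ^ 4 * 4096 * ε) :
    |1 / 48 * I1 + 1 / 2880 * I2 + t / 11520 * I3 - Ic + 1 / 4608 * I4 -
      (t * (cas / 96) * N + t ^ 2 * (-(cas ^ 2 / 4608) * N - lam' / 8 * N + 7 / 46080 * T4v) +
        t ^ 2 * cas ^ 2 * N ^ 2 / 18432) * V| ≤
      (3 * n ^ 2 + 2 * n ^ 2 * Cp + 2 * n ^ 4) * ε + |cas| * (n + Cp) * (1 + A) * t ^ 3 * V := by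
  have e : 1 / 48 * I1 + 1 / 2880 * I2 + t / 11520 * I3 - Ic + 1 / 4608 * I4 -
      (t * (cas / 96) * N + t ^ 2 * (-(cas ^ 2 / 4608) * N - lam' / 8 * N + 7 / 46080 * T4v) +
        t ^ 2 * cas ^ 2 * N ^ 2 / 18432) * V =
      1 / 48 * (I1 - m2 * (cas * N) * V) +
      1 / 2880 * (I2 - t ^ 2 / 4 * (cas ^ 2 * N + cas ^ 2 * N + cas ^ 2 / 2 * N) * V) +
      t / 11520 * (I3 - m2 * T4v * V) - (Ic - m2 * sc * V) +
      1 / 4608 * (I4 - t ^ 2 / 4 * ((cas * N) * (cas * N) + T4v + T4v) * V) +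
      (-(t ^ 3 * (cas * T4v) / 552960) + t ^ 3 * (lam' * N * cas) / 192) * V := by
    rw [hm2, hsc]
    ring
  rw [e]
  have b3 : |t / 11520 * (I3 - m2 * T4v * V)| ≤ n ^ 2 * ε := by
    rw [abs_mul, abs_of_pos (by positivity : 0 < t / 11520)]
    have : 0 ≤ n ^ 2 * ε := by positivity
    calc t / 11520 * |I3 - m2 * T4v * V| ≤ t / 11520 * (n ^ 2 * 4096 * ε) := by gcongr
      _ = t * (4096 / 11520 * (n ^ 2 * ε)) := by ring
      _ ≤ 1 * (4096 / 11520 * (n ^ 2 * ε)) := by gcongr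
      _ ≤ _ := by linarith
  have bc : n ^ 2 * (Cp * A * (16 * t)) * ε ≤ 2 * n ^ 2 * Cp * ε := by
    calc n ^ 2 * (Cp * A * (16 * t)) * ε = 16 * (n ^ 2 * Cp * ε) * (A * t) := by ring
      _ ≤ 16 * (n ^ 2 * Cp * ε) * (1 / 10) := by gcongr
      _ ≤ _ := by
        have : 0 ≤ n ^ 2 * Cp * ε := by positivity
        linarith
  have bl : |(-(t ^ 3 * (cas * T4v) / 552960) + t ^ 3 * (lam' * N * cas) / 192) * V| ≤
      |cas| * (n + Cp) * (1 + A) * t ^ 3 * V := by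
    rw [abs_mul, abs_of_nonneg hV]
    refine mul_le_mul_of_nonneg_right ?_ hV
    refine (abs_add_le _ _).trans ?_
    have c1 : |-(t ^ 3 * (cas * T4v) / 552960)| ≤ |cas| * n * t ^ 3 := by
      rw [abs_neg, abs_div, abs_mul, abs_mul, abs_of_pos (by positivity : 0 < t ^ 3),
        abs_of_nonneg hT0, abs_of_pos (by norm_num : (0 : ℝ) < 552960)]
      have h0 := abs_nonneg cas
      calc t ^ 3 * (|cas| * T4v) / 552960 ≤ t ^ 3 * (|cas| * (4096 * n)) / 552960 := by gcongr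
        _ = 4096 / 552960 * (|cas| * n * t ^ 3) := by ring
        _ ≤ 1 * (|cas| * n * t ^ 3) := by gcongr; norm_num
        _ = _ := one_mul _
    have c2 : |t ^ 3 * (lam' * N * cas) / 192| ≤ |cas| * Cp * A * t ^ 3 := by
      rw [abs_div, abs_mul, abs_mul, abs_mul, abs_of_pos (by positivity : 0 < t ^ 3),
        abs_of_nonneg hN, abs_of_pos (by norm_num : (0 : ℝ) < 192)]
      have h0 := abs_nonneg cas
      calc t ^ 3 * (|lam'| * N * |cas|) / 192 ≤ t ^ 3 * ((Cp * A) * 16 * |cas|) / 192 := by gcongr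
        _ = 16 / 192 * (|cas| * Cp * A * t ^ 3) := by ring
        _ ≤ 1 * (|cas| * Cp * A * t ^ 3) := by gcongr; norm_num
        _ = _ := one_mul _
    have h0 := abs_nonneg cas
    have e5 : |cas| * (n + Cp) * (1 + A) * t ^ 3 = |cas| * n * t ^ 3 + |cas| * Cp * A * t ^ 3 +
        (|cas| * n * A * t ^ 3 + |cas| * Cp * t ^ 3) := by ring
    have e6 : 0 ≤ |cas| * n * A * t ^ 3 + |cas| * Cp * t ^ 3 := by positivity
    rw [e5]
    linarith
  have hnε : 0 ≤ n ^ 2 * ε := by positivity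
  have hn4ε : 0 ≤ n ^ 4 * ε := by positivity
  obtain ⟨x1, y1⟩ := abs_le.1 h1
  obtain ⟨x2, y2⟩ := abs_le.1 h2
  obtain ⟨x3, y3⟩ := abs_le.1 b3
  obtain ⟨xc, yc⟩ := abs_le.1 (hc.trans bc)
  obtain ⟨x4, y4⟩ := abs_le.1 h4
  obtain ⟨xl, yl⟩ := abs_le.1 bl
  rw [abs_le]
  constructor <;> linarith

include P cl ht hA hAt in
theorem ff_integral {n : ℕ} (E : Fin n → Mt m) (hE : ∀ a, E a ∈ lieSet L)
    (orth : ∀ a b, (trace ((E a)ᴴ * E b)).re = if a = b then 1 else 0)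
    (full : ∀ Y ∈ lieSet L, Y ∈ Submodule.span ℝ (Set.range E))
    (cas : ℝ) (hcas : ∀ X ∈ lieSet L, ∑ a, ‖E a * X - X * E a‖ ^ 2 = cas * ‖X‖ ^ 2)
    {X : Mt m} (hX : X ∈ lieSet L) {ρ : ℝ} (hρ : ρ ≤ r0 / 20) (c g1 g3 : Fin n → Fin n → ℝ)
    (g2 : Fin n → Fin n → Fin n → Fin n → ℝ)
    (hg1 : ∀ a b, g1 a b = ipr (ad X (E a)) (ad X (E b)))
    (hg3 : ∀ a b, g3 a b = ipr (ad X (ad X (E a))) (ad X (ad X (E b))))
    (hg2 : ∀ a b c d, g2 a b c d = ipr (ad (E a) (ad (E b) X)) (ad (E c) (ad (E d) X))) :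
    ∫ y in bal L ρ, ff L D F E t X c y ∂μ =
      1 / 48 * ∫ y in bal L ρ, (∑ a, ∑ b, g1 a b * (crd L D (E a) y * crd L D (E b) y)) *
        res L F y ^ 2 ∂μ +
      1 / 2880 * ∫ y in bal L ρ,
        (∑ a, ∑ b, ∑ c, ∑ d, g2 a b c d * (crd L D (E a) y * crd L D (E b) y *
          (crd L D (E c) y * crd L D (E d) y))) * res L F y ^ 2 ∂μ +
      t / 11520 * ∫ y in bal L ρ, (∑ a, ∑ b, g3 a b * (crd L D (E a) y * crd L D (E b) y)) *
        res L F y ^ 2 ∂μ -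
      ∫ y in bal L ρ, (∑ a, ∑ b, c a b * (crd L D (E a) y * crd L D (E b) y)) *
        res L F y ^ 2 ∂μ +
      1 / 4608 * ∫ y in bal L ρ, (∑ a, ∑ b, ∑ c, ∑ d, g1 a b * g1 c d *
        (crd L D (E a) y * crd L D (E b) y * (crd L D (E c) y * crd L D (E d) y))) *
          res L F y ^ 2 ∂μ := by
  have hr0 := P.r0_pos
  have hδ := P.r0_δ
  have hB : MeasurableSet (bal L ρ : Set G) := (isOpen_bal L ρ).measurableSet
  have J2 : ∀ g : Fin n → Fin n → ℝ, IntegrableOn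
      (fun y => (∑ a, ∑ b, g a b * (crd L D (E a) y * crd L D (E b) y)) * res L F y ^ 2)
      (bal L ρ) μ := fun g =>
    intg_et P cl ht hA hAt
      (Φ := fun η => ∑ a, ∑ b, g a b * (ipr (E a) (η : Mt m) * ipr (E b) (η : Mt m)))
      (continuous_finsetSum _ fun a _ => continuous_finsetSum _ fun b _ =>
        continuous_const.mul ((ipr_cont _).mul (ipr_cont _))) hρ
  have J4 : ∀ g : Fin n → Fin n → Fin n → Fin n → ℝ, IntegrableOn
      (fun y => (∑ a, ∑ b, ∑ c, ∑ d, g a b c d * (crd L D (E a) y * crd L D (E b) y *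
        (crd L D (E c) y * crd L D (E d) y))) * res L F y ^ 2) (bal L ρ) μ := fun g =>
    intg_et P cl ht hA hAt
      (Φ := fun η => ∑ a, ∑ b, ∑ c, ∑ d, g a b c d *
        (ipr (E a) (η : Mt m) * ipr (E b) (η : Mt m) *
          (ipr (E c) (η : Mt m) * ipr (E d) (η : Mt m))))
      (continuous_finsetSum _ fun a _ => continuous_finsetSum _ fun b _ =>
        continuous_finsetSum _ fun c _ => continuous_finsetSum _ fun d _ =>
        continuous_const.mul (((ipr_cont _).mul (ipr_cont _)).mul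
          ((ipr_cont _).mul (ipr_cont _)))) hρ
  have key := int5 (J2 g1) (J4 g2) (J2 g3) (J2 c) (J4 fun a b c d => g1 a b * g1 c d)
      (1 / 48) (1 / 2880) (t / 11520) (1 / 4608)
  rw [← key]
  refine setIntegral_congr_fun hB fun y hy => ?_
  have hyd : dis L y < δ := by
    have : dis L y < ρ := hy
    linarith
  have h := ff_eq_sum (F := F) (t := t) E hE orth full cas hcas hX (Dri.et_lie P.ch hyd) c
  simp only [← hg1, ← hg2, ← hg3] at h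
  exact h

include P cl ht hA hAt in
theorem main_real {n : ℕ} {E : Fin n → Mt m} (hE : ∀ a, E a ∈ lieSet L)
    (orth : ∀ a b, (trace ((E a)ᴴ * E b)).re = if a = b then 1 else 0)
    (full : ∀ Y ∈ lieSet L, Y ∈ Submodule.span ℝ (Set.range E))
    (cas : ℝ) (hcas : ∀ X ∈ lieSet L, ∑ a, ‖E a * X - X * E a‖ ^ 2 = cas * ‖X‖ ^ 2)
    {X : gC L} (hX : (X : Mt m) ∈ lieSet L) (hX4 : ‖X‖ ≤ 4) {ρ : ℝ} (hρ : ρ ≤ r0 / 20)
    {V ε : ℝ} (hV0 : 0 ≤ V) (hε : 0 ≤ ε)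
    (h2 : ∀ a b, |∫ y in bal L ρ, crd L D (E a) y * crd L D (E b) y * res L F y ^ 2 ∂μ -
          (if a = b then t / 2 * (1 - cas * t / 24) else 0) * V| ≤ ε)
    (h4 : ∀ a b c d,
        |∫ y in bal L ρ, crd L D (E a) y * crd L D (E b) y * (crd L D (E c) y * crd L D (E d) y) *
            res L F y ^ 2 ∂μ -
          t ^ 2 / 4 * ((if a = b then 1 else 0) * (if c = d then 1 else 0) +
            (if a = c then 1 else 0) * (if b = d then 1 else 0) +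
            (if a = d then 1 else 0) * (if b = c then 1 else 0)) * V| ≤ ε)
    {c : Fin n → Fin n → ℝ} {Cp lam' : ℝ} (hCp : 0 ≤ Cp) (hc : ∀ a b, |c a b| ≤ Cp * A * (16 * t))
    (hlam : |lam'| ≤ Cp * A) (htr : ∑ a, c a a = lam' / 4 * (t * ‖X‖ ^ 2)) (ht1 : t ≤ 1) :
    |∫ y in bal L ρ, ff L D F E t (X : Mt m) c y ∂μ -
      (t * (cas / 96) * ‖X‖ ^ 2 + t ^ 2 * (-(cas ^ 2 / 4608) * ‖X‖ ^ 2 - lam' / 8 * ‖X‖ ^ 2 +
        7 / 46080 * T4 E (X : Mt m)) + t ^ 2 * cas ^ 2 * (‖X‖ ^ 2) ^ 2 / 18432) * V| ≤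
      (3 * n ^ 2 + 2 * n ^ 2 * Cp + 2 * n ^ 4) * ε + |cas| * (n + Cp) * (1 + A) * t ^ 3 * V := by
  have hXn : ‖(X : Mt m)‖ = ‖X‖ := rfl
  have hE1 : ∀ a, ‖E a‖ = 1 := by
    intro a
    have h1 := norm_sq_eq (E a)
    have h3 := orth a a
    rw [if_pos rfl] at h3
    rw [h3] at h1
    have h5 : (‖E a‖ - 1) * (‖E a‖ + 1) = 0 := by ring_nf; linarith
    rcases mul_eq_zero.1 h5 with h | h
    · linarith
    · have := norm_nonneg (E a); linarith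
  have hi2 : ∀ a b, Integrable (fun y => crd L D (E a) y * crd L D (E b) y * res L F y ^ 2)
      (μ.restrict (bal L ρ)) :=
    fun a b => intg_et P cl ht hA hAt
      (Φ := fun η => ipr (E a) (η : Mt m) * ipr (E b) (η : Mt m))
      ((ipr_cont _).mul (ipr_cont _)) hρ
  have hi4 : ∀ a b c d, Integrable (fun y => crd L D (E a) y * crd L D (E b) y *
      (crd L D (E c) y * crd L D (E d) y) * res L F y ^ 2)
      (μ.restrict (bal L ρ)) :=
    fun a b c d => intg_et P cl ht hA hAt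
      (Φ := fun η => ipr (E a) (η : Mt m) * ipr (E b) (η : Mt m) *
        (ipr (E c) (η : Mt m) * ipr (E d) (η : Mt m)))
      (((ipr_cont _).mul (ipr_cont _)).mul ((ipr_cont _).mul (ipr_cont _))) hρ
  -- the coefficients
  obtain ⟨g1, hg1⟩ : ∃ g : Fin n → Fin n → ℝ, ∀ a b, g a b =
      ipr (ad (X : Mt m) (E a)) (ad (X : Mt m) (E b)) := ⟨_, fun _ _ => rfl⟩
  obtain ⟨g3, hg3⟩ : ∃ g : Fin n → Fin n → ℝ, ∀ a b, g a b =
    ipr (ad (X : Mt m) (ad (X : Mt m) (E a))) (ad (X : Mt m) (ad (X : Mt m) (E b))) :=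
    ⟨_, fun _ _ => rfl⟩
  obtain ⟨g2, hg2⟩ : ∃ g : Fin n → Fin n → Fin n → Fin n → ℝ, ∀ a b c d, g a b c d =
    ipr (ad (E a) (ad (E b) (X : Mt m))) (ad (E c) (ad (E d) (X : Mt m))) :=
    ⟨_, fun _ _ _ _ => rfl⟩
  have n1 : ∀ a, ‖ad (X : Mt m) (E a)‖ ≤ 8 := by
    intro a
    refine (norm_ad_le _ _).trans ?_
    rw [hE1, hXn]
    linarith
  have n1' : ∀ a, ‖ad (E a) (X : Mt m)‖ ≤ 8 := by
    intro a
    refine (norm_ad_le _ _).trans ?_
    rw [hE1, hXn]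
    linarith
  have n3 : ∀ a, ‖ad (X : Mt m) (ad (X : Mt m) (E a))‖ ≤ 64 := by
    intro a
    refine (norm_ad_le _ _).trans ?_
    rw [hXn]
    have := mul_le_mul hX4 (n1 a) (norm_nonneg _) (by norm_num)
    linarith
  have n2 : ∀ a b, ‖ad (E a) (ad (E b) (X : Mt m))‖ ≤ 16 := by
    intro a b
    refine (norm_ad_le _ _).trans ?_
    rw [hE1]
    have := n1' b
    linarith
  have k1 : ∀ a b, |g1 a b| ≤ 64 := fun a b => by
    rw [hg1]
    exact (Dri.abs_ipr_le _ _).trans ((mul_le_mul (n1 a) (n1 b) (norm_nonneg _)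
      (by norm_num)).trans (by norm_num))
  have k3 : ∀ a b, |g3 a b| ≤ 4096 := fun a b => by
    rw [hg3]
    exact (Dri.abs_ipr_le _ _).trans ((mul_le_mul (n3 a) (n3 b) (norm_nonneg _)
      (by norm_num)).trans (by norm_num))
  have k2 : ∀ a b c d, |g2 a b c d| ≤ 256 := fun a b c d => by
    rw [hg2]
    exact (Dri.abs_ipr_le _ _).trans ((mul_le_mul (n2 a b) (n2 c d) (norm_nonneg _)
      (by norm_num)).trans (by norm_num))
  have k4 : ∀ a b c d, |g1 a b * g1 c d| ≤ 4096 := fun a b c d => by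
    rw [abs_mul]
    exact (mul_le_mul (k1 a b) (k1 c d) (abs_nonneg _) (by norm_num)).trans (by norm_num)
  -- traces
  have s1 : ∑ a, g1 a a = cas * ‖X‖ ^ 2 := by
    rw [← hXn, ← hcas _ hX]
    refine Finset.sum_congr rfl fun a _ => ?_
    rw [hg1, Dri.ipr_self]
    unfold ad
    rw [norm_sub_rev]
  have s3 : ∑ a, g3 a a = T4 E (X : Mt m) := by
    unfold T4
    refine Finset.sum_congr rfl fun a _ => ?_
    rw [hg3]
    exact Dri.ipr_self _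
  have hT0 : 0 ≤ T4 E (X : Mt m) := Finset.sum_nonneg fun a _ => sq_nonneg _
  have hT : T4 E (X : Mt m) ≤ 4096 * n := by
    unfold T4
    have hb : ∀ a ∈ Finset.univ, ‖ad (X : Mt m) (ad (X : Mt m) (E a))‖ ^ 2 ≤ (4096 : ℝ) := by
      intro a _
      have := pow_le_pow_left₀ (norm_nonneg _) (n3 a) 2
      calc _ ≤ (64 : ℝ) ^ 2 := this
        _ = _ := by norm_num
    refine (Finset.sum_le_card_nsmul _ _ _ hb).trans (le_of_eq ?_)
    simp
    ring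
  have a3 := alg3 E hE orth full cas hcas hX
  have a4 := alg4 E hE orth full cas hcas hX
  have a5 := alg5 E hE orth full cas hcas hX
  have a6 := alg6 E hE orth full cas hcas hX
  simp only [← hg2, hXn] at a3 a4 a5
  simp only [← hg1] at a6
  have t2 : (∑ a, ∑ b, g2 a a b b) + (∑ a, ∑ b, g2 a b a b) + (∑ a, ∑ b, g2 a b b a) =
      cas ^ 2 * ‖X‖ ^ 2 + cas ^ 2 * ‖X‖ ^ 2 + cas ^ 2 / 2 * ‖X‖ ^ 2 := by
    rw [a3, a4, a5]
  have t4 : (∑ a, ∑ b, g1 a a * g1 b b) + (∑ a, ∑ b, g1 a b * g1 a b) +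
      (∑ a, ∑ b, g1 a b * g1 b a) =
      (cas * ‖X‖ ^ 2) * (cas * ‖X‖ ^ 2) + T4 E (X : Mt m) + T4 E (X : Mt m) := by
    have b1 : ∑ a, ∑ b, g1 a b * g1 a b = T4 E (X : Mt m) := by
      rw [← a6]
      exact Finset.sum_congr rfl fun a _ => Finset.sum_congr rfl fun b _ => (pow_two _).symm
    have b2 : ∑ a, ∑ b, g1 a b * g1 b a = T4 E (X : Mt m) := by
      rw [← b1]
      refine Finset.sum_congr rfl fun a _ => Finset.sum_congr rfl fun b _ => ?_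
      have : g1 b a = g1 a b := by rw [hg1, hg1]; exact Dri.ipr_comm _ _
      rw [this]
    rw [b1, b2, ← s1, Finset.sum_mul_sum]
  clear a3 a4 a5 a6 n1 n1' n3 n2
  -- the five integrals
  have L1 : |∫ y in bal L ρ, (∑ a, ∑ b, g1 a b * (crd L D (E a) y * crd L D (E b) y)) *
      res L F y ^ 2 ∂μ - t / 2 * (1 - cas * t / 24) * (cas * ‖X‖ ^ 2) * V| ≤ n ^ 2 * 64 * ε := by
    rw [← s1]
    exact lin2 (e := fun a y => crd L D (E a) y) (R := fun y => res L F y ^ 2) hi2 h2 g1 k1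
  have L3 : |∫ y in bal L ρ, (∑ a, ∑ b, g3 a b * (crd L D (E a) y * crd L D (E b) y)) *
      res L F y ^ 2 ∂μ - t / 2 * (1 - cas * t / 24) * (T4 E (X : Mt m)) * V| ≤
      n ^ 2 * 4096 * ε := by
    rw [← s3]
    exact lin2 (e := fun a y => crd L D (E a) y) (R := fun y => res L F y ^ 2) hi2 h2 g3 k3
  have Lc : |∫ y in bal L ρ, (∑ a, ∑ b, c a b * (crd L D (E a) y * crd L D (E b) y)) *
      res L F y ^ 2 ∂μ - t / 2 * (1 - cas * t / 24) * (∑ a, c a a) * V| ≤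
      n ^ 2 * (Cp * A * (16 * t)) * ε :=
    lin2 (e := fun a y => crd L D (E a) y) (R := fun y => res L F y ^ 2) hi2 h2 c hc
  have L2 : |∫ y in bal L ρ, (∑ a, ∑ b, ∑ c, ∑ d, g2 a b c d *
      (crd L D (E a) y * crd L D (E b) y * (crd L D (E c) y * crd L D (E d) y))) *
        res L F y ^ 2 ∂μ -
      t ^ 2 / 4 * (cas ^ 2 * ‖X‖ ^ 2 + cas ^ 2 * ‖X‖ ^ 2 + cas ^ 2 / 2 * ‖X‖ ^ 2) * V| ≤
      n ^ 4 * 256 * ε := by
    rw [← t2]
    exact lin4 (e := fun a y => crd L D (E a) y) (R := fun y => res L F y ^ 2) hi4 h4 g2 k2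
  have L4 : |∫ y in bal L ρ, (∑ a, ∑ b, ∑ c, ∑ d, g1 a b * g1 c d *
      (crd L D (E a) y * crd L D (E b) y * (crd L D (E c) y * crd L D (E d) y))) *
        res L F y ^ 2 ∂μ -
      t ^ 2 / 4 * ((cas * ‖X‖ ^ 2) * (cas * ‖X‖ ^ 2) + T4 E (X : Mt m) + T4 E (X : Mt m)) * V| ≤
      n ^ 4 * 4096 * ε := by
    rw [← t4]
    exact lin4 (e := fun a y => crd L D (E a) y) (R := fun y => res L F y ^ 2) hi4 h4
      (fun a b c d => g1 a b * g1 c d) k4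
  have hX0 := norm_nonneg X
  rw [ff_integral P cl ht hA hAt E hE orth full cas hcas hX hρ c g1 g3 g2 hg1 hg3 hg2]
  exact mom_arith (Nat.cast_nonneg n) hCp ht ht1 hA hAt hV0 hε (sq_nonneg _)
    (by nlinarith) hT0 hT hlam rfl htr L1 L2 L3 Lc L4

end mom

section fin

/-- from the function to its logarithm -/
theorem log_arith {z : ℂ} {t q A T1 W2 Ce k1 k2 : ℝ} (ht : 0 < t) (hq : 0 < q) (htq : t ≤ q)
    (hq1 : q ≤ 1) (hA : 0 ≤ A) (hAt : A * t ≤ 1 / 10) (hCe : 0 ≤ Ce) (hk1 : 0 ≤ k1) (hk2 : 0 ≤ k2)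
    (hT1 : |T1| ≤ k1 * t) (hW2 : |W2| ≤ k2 * ((1 + A) * t ^ 2))
    (hz : ‖z - 1 - ((T1 + W2 + T1 ^ 2 / 2 : ℝ) : ℂ)‖ ≤ Ce * ((1 + A) * (t ^ 2 * q)))
    (hsm : (k1 + 2 * k2 + k1 ^ 2 + 2 * Ce) * t ≤ 1 / 2) :
    ‖Complex.log z - ((T1 + W2 : ℝ) : ℂ)‖ ≤
      ((k1 + 2 * k2 + k1 ^ 2 + 2 * Ce) ^ 3 + Ce + (Ce + k2 + k1 ^ 2) *
        (k1 + 2 * k2 + k1 ^ 2 + 2 * Ce + k1)) * ((1 + A) * (t ^ 2 * q)) := by
  set u : ℂ := z - 1 with hu
  set k4 := k1 + 2 * k2 + k1 ^ 2 + 2 * Ce with hk4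
  have hk40 : 0 ≤ k4 := by positivity
  have ht1 : t ≤ 1 := htq.trans hq1
  have hA2 : (1 + A) * t ^ 2 ≤ 2 * t := by nlinarith
  have hA20 : 0 ≤ (1 + A) * t ^ 2 := by positivity
  have he : (1 + A) * (t ^ 2 * q) ≤ (1 + A) * t ^ 2 := by
    have : (1 + A) * (t ^ 2 * q) = (1 + A) * t ^ 2 * q := by ring
    rw [this]
    nlinarith
  have he0 : 0 ≤ (1 + A) * (t ^ 2 * q) := by positivity
  have hT1sq : T1 ^ 2 ≤ k1 ^ 2 * t ^ 2 := by
    have := pow_le_pow_left₀ (abs_nonneg _) hT1 2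
    rw [sq_abs] at this
    calc _ ≤ (k1 * t) ^ 2 := this
      _ = _ := by ring
  have ht2 : t ^ 2 ≤ t := by nlinarith
  have ht2A : t ^ 2 ≤ (1 + A) * t ^ 2 := by nlinarith [sq_nonneg t]
  have hk1s : 0 ≤ k1 ^ 2 := sq_nonneg k1
  have hT1nn := sq_nonneg T1
  -- u - T1
  have a1 : ‖u - (T1 : ℂ)‖ ≤ (Ce + k2 + k1 ^ 2) * ((1 + A) * t ^ 2) := by
    have e : u - (T1 : ℂ) = (u - ((T1 + W2 + T1 ^ 2 / 2 : ℝ) : ℂ)) + ((W2 + T1 ^ 2 / 2 : ℝ) : ℂ) := by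
      push_cast; ring
    rw [e]
    refine (norm_add_le _ _).trans ?_
    rw [Complex.norm_real, Real.norm_eq_abs]
    have b1 : |W2 + T1 ^ 2 / 2| ≤ k2 * ((1 + A) * t ^ 2) + k1 ^ 2 * t ^ 2 := by
      refine (abs_add_le _ _).trans (add_le_add hW2 ?_)
      rw [abs_of_nonneg (by positivity)]
      linarith
    have b2 : k1 ^ 2 * t ^ 2 ≤ k1 ^ 2 * ((1 + A) * t ^ 2) := mul_le_mul_of_nonneg_left ht2A hk1s
    have b3 : Ce * ((1 + A) * (t ^ 2 * q)) ≤ Ce * ((1 + A) * t ^ 2) :=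
      mul_le_mul_of_nonneg_left he hCe
    calc _ ≤ Ce * ((1 + A) * (t ^ 2 * q)) + (k2 * ((1 + A) * t ^ 2) + k1 ^ 2 * t ^ 2) :=
          add_le_add hz b1
      _ ≤ _ := by nlinarith
  have a2 : ‖u‖ ≤ k4 * t := by
    have e : u = (u - ((T1 + W2 + T1 ^ 2 / 2 : ℝ) : ℂ)) + ((T1 + W2 + T1 ^ 2 / 2 : ℝ) : ℂ) := by
      ring
    rw [e]
    refine (norm_add_le _ _).trans ?_
    rw [Complex.norm_real, Real.norm_eq_abs]
    have b1 : |T1 + W2 + T1 ^ 2 / 2| ≤ k1 * t + k2 * (2 * t) + k1 ^ 2 * t := by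
      refine (abs_add_le _ _).trans (add_le_add ((abs_add_le _ _).trans (add_le_add hT1
        (hW2.trans (mul_le_mul_of_nonneg_left hA2 hk2)))) ?_)
      rw [abs_of_nonneg (by positivity)]
      nlinarith [mul_le_mul_of_nonneg_left ht2 hk1s]
    have b3 : Ce * ((1 + A) * (t ^ 2 * q)) ≤ Ce * (2 * t) :=
      mul_le_mul_of_nonneg_left (he.trans hA2) hCe
    calc _ ≤ Ce * ((1 + A) * (t ^ 2 * q)) + (k1 * t + k2 * (2 * t) + k1 ^ 2 * t) :=
          add_le_add hz b1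
      _ ≤ Ce * (2 * t) + (k1 * t + k2 * (2 * t) + k1 ^ 2 * t) := by linarith
      _ = _ := by rw [hk4]; ring
  have a3 := log_exp3 (u := u) (a2.trans hsm)
  have e1 : (1 : ℂ) + u = z := by rw [hu]; ring
  rw [e1] at a3
  have e2 : Complex.log z - ((T1 + W2 : ℝ) : ℂ) = (Complex.log z - (u - u ^ 2 / 2)) +
      (u - ((T1 + W2 + T1 ^ 2 / 2 : ℝ) : ℂ)) - ((u - T1) * (u + T1)) / 2 := by
    push_cast; ring
  rw [e2]
  have f1 := norm_sub_le ((Complex.log z - (u - u ^ 2 / 2)) +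
      (u - ((T1 + W2 + T1 ^ 2 / 2 : ℝ) : ℂ))) (((u - T1) * (u + T1)) / 2)
  have f2 := norm_add_le (Complex.log z - (u - u ^ 2 / 2))
    (u - ((T1 + W2 + T1 ^ 2 / 2 : ℝ) : ℂ))
  have ht3 : t ^ 3 ≤ t ^ 2 * q := by
    calc t ^ 3 = t ^ 2 * t := by ring
      _ ≤ _ := mul_le_mul_of_nonneg_left htq (sq_nonneg t)
  have ht3A : t ^ 3 ≤ (1 + A) * (t ^ 2 * q) := by
    have : 0 ≤ A * (t ^ 2 * q) := by positivity
    linarith
  have g1 : ‖u‖ ^ 3 ≤ k4 ^ 3 * ((1 + A) * (t ^ 2 * q)) := by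
    have := pow_le_pow_left₀ (norm_nonneg _) a2 3
    calc _ ≤ (k4 * t) ^ 3 := this
      _ = k4 ^ 3 * t ^ 3 := by ring
      _ ≤ _ := mul_le_mul_of_nonneg_left ht3A (by positivity)
  have g2 : ‖((u - T1) * (u + T1)) / 2‖ ≤ (Ce + k2 + k1 ^ 2) * (k4 + k1) *
      ((1 + A) * (t ^ 2 * q)) := by
    rw [norm_div, norm_mul, Complex.norm_ofNat]
    have b1 : ‖u + (T1 : ℂ)‖ ≤ (k4 + k1) * t := by
      refine (norm_add_le _ _).trans ?_
      rw [Complex.norm_real, Real.norm_eq_abs]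
      linarith
    have b2 := mul_le_mul a1 b1 (norm_nonneg _) (by positivity)
    have b3 : (Ce + k2 + k1 ^ 2) * ((1 + A) * t ^ 2) * ((k4 + k1) * t) ≤
        (Ce + k2 + k1 ^ 2) * (k4 + k1) * ((1 + A) * (t ^ 2 * q)) := by
      calc (Ce + k2 + k1 ^ 2) * ((1 + A) * t ^ 2) * ((k4 + k1) * t) =
            (Ce + k2 + k1 ^ 2) * (k4 + k1) * ((1 + A) * t ^ 3) := by ring
        _ ≤ _ := by gcongr
    have b4 : 0 ≤ ‖u - (T1 : ℂ)‖ * ‖u + (T1 : ℂ)‖ := by positivity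
    linarith
  have f5 : (k4 ^ 3 + Ce + (Ce + k2 + k1 ^ 2) * (k4 + k1)) * ((1 + A) * (t ^ 2 * q)) =
      k4 ^ 3 * ((1 + A) * (t ^ 2 * q)) + Ce * ((1 + A) * (t ^ 2 * q)) +
        (Ce + k2 + k1 ^ 2) * (k4 + k1) * ((1 + A) * (t ^ 2 * q)) := by ring
  rw [f5]
  linarith

variable {G : Type} [Group G] [TopologicalSpace G] [IsTopologicalGroup G] [CompactSpace G]
  [MeasurableSpace G] [BorelSpace G] {μ : Measure G} [μ.IsHaarMeasure] [IsProbabilityMeasure μ]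
  {m : Type} [Fintype m] [DecidableEq m] {L : RD G m}
  {D : LogData m} {εg δ r0 r s b r' : ℝ} (P : Par L D εg δ r0 r s b r')
    {F : Mt m → ℂ} {t A : ℝ} (cl : Cls L F t A r (r0 / 4) s b (1 / 10000)) {w : gC L → ℂ}
    (hw : SFw L F t A r (r0 / 4) w) (ht : 0 < t) (hA : 0 ≤ A) (hAt : A * t ≤ 1 / 10)

include P cl hw ht hA hAt in
theorem fM_le (hst : Real.sqrt t < r0 / 20) :
    (F 1).re ^ 2 * μ.real (bal L (Real.sqrt t)) ≤ 3 * ∫ y, res L F y ^ 2 ∂μ := by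
  have hlow := ccv_one_lower μ P cl hw ht hA hAt hst
  have hVe := Dri.ccv_one_int (μ := μ) cl
  rw [hVe, Complex.ofReal_re] at hlow
  have hexp : (1 / 3 : ℝ) ≤ Real.exp (-(51 / 50)) := by
    rw [Real.exp_neg, ← one_div, div_le_div_iff₀ (by norm_num) (Real.exp_pos _), one_mul, one_mul]
    have e1 : Real.exp (51 / 50) = Real.exp 1 * Real.exp (1 / 50) := by
      rw [← Real.exp_add]; norm_num
    have e2 : Real.exp (1 / 50) ≤ 1 + 2 * (1 / 50) := by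
      have := Real.exp_bound' (x := 1 / 50) (by norm_num) (by norm_num) (n := 2) (by norm_num)
      refine this.trans ?_
      norm_num [Finset.sum_range_succ]
    have e3 := Real.exp_one_lt_d9
    rw [e1]
    have := Real.exp_pos (1 / 50)
    nlinarith
  have hmu := bal_pos μ L (Real.sqrt t) (Real.sqrt_pos.2 ht)
  have h1 : (F 1).re ^ 2 * (1 / 3) * μ.real (bal L (Real.sqrt t)) ≤
      (F 1).re ^ 2 * Real.exp (-(51 / 50)) * μ.real (bal L (Real.sqrt t)) :=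
    mul_le_mul_of_nonneg_right (mul_le_mul_of_nonneg_left hexp (sq_nonneg _)) hmu.le
  linarith

include P cl hw ht hA hAt in
theorem far_int {ρ Ct : ℝ} (hρ : 0 < ρ) (hρ1 : ρ ≤ r0 / 20) (hCt : 0 ≤ Ct)
    (htail : Real.exp (-(ρ ^ 2 / 1000 / t)) ≤ Ct * t ^ 3 * μ.real (bal L (Real.sqrt t)))
    (hst : Real.sqrt t < r0 / 20) {Z : gC L} (hZ : ‖Z‖ < r0 / 4) (hZ2 : ‖Z‖ ^ 2 ≤ 16 * t) :
    ‖∫ y in (bal L ρ)ᶜ, Dri.phi L F t w Z y ∂μ‖ ≤
      48 * (32 / r0 ^ 2 + 5 * (192 / δ ^ 2 + 7400)) * Ct * t ^ 4 * ∫ y, res L F y ^ 2 ∂μ := by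
  have hr0 := P.r0_pos
  have hfM := fM_le (μ := μ) P cl hw ht hA hAt hst
  have hK : 0 ≤ 32 / r0 ^ 2 + 5 * (192 / δ ^ 2 + 7400) := by positivity
  have hF2 : 0 ≤ (F 1).re ^ 2 := sq_nonneg _
  have h1 : ‖∫ y in (bal L ρ)ᶜ, Dri.phi L F t w Z y ∂μ‖ ≤
      (F 1).re ^ 2 * ((32 / r0 ^ 2 + 5 * (192 / δ ^ 2 + 7400)) * ‖Z‖ ^ 2 *
      Real.exp (-(ρ ^ 2 / 1000 / t))) * μ.real (bal L ρ)ᶜ := by
    refine norm_setIntegral_le_of_norm_le_const (measure_lt_top _ _) fun y hy => ?_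
    refine Dri.far P cl hw ht hA hAt Z hZ hρ hρ1 y ?_
    have hy' : ¬ dis L y < ρ := hy
    linarith [not_lt.1 hy']
  have h2 : μ.real (bal L ρ)ᶜ ≤ 1 := measureReal_le_one
  have hE := Real.exp_pos (-(ρ ^ 2 / 1000 / t))
  have hQ : 0 ≤ (F 1).re ^ 2 * ((32 / r0 ^ 2 + 5 * (192 / δ ^ 2 + 7400)) * ‖Z‖ ^ 2 *
      Real.exp (-(ρ ^ 2 / 1000 / t))) := by positivity
  calc _ ≤ (F 1).re ^ 2 * ((32 / r0 ^ 2 + 5 * (192 / δ ^ 2 + 7400)) * ‖Z‖ ^ 2 *
      Real.exp (-(ρ ^ 2 / 1000 / t))) * 1 := h1.trans (mul_le_mul_of_nonneg_left h2 hQ)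
    _ ≤ (F 1).re ^ 2 * ((32 / r0 ^ 2 + 5 * (192 / δ ^ 2 + 7400)) * (16 * t) *
      (Ct * t ^ 3 * μ.real (bal L (Real.sqrt t)))) * 1 := by gcongr
    _ = (32 / r0 ^ 2 + 5 * (192 / δ ^ 2 + 7400)) * (16 * t) * (Ct * t ^ 3) *
        ((F 1).re ^ 2 * μ.real (bal L (Real.sqrt t))) := by ring
    _ ≤ (32 / r0 ^ 2 + 5 * (192 / δ ^ 2 + 7400)) * (16 * t) * (Ct * t ^ 3) *
        (3 * ∫ y, res L F y ^ 2 ∂μ) := mul_le_mul_of_nonneg_left hfM (by positivity)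
    _ = _ := by ring

end fin

end TlD

end

end Pool.Agent.T2H04.HY
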