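import Mathlib
import Pool.Agent.T2H04.HY.TlA
import Pool.Agent.T2H04.HY.TlB
import Pool.Agent.T2H04.HY.TlC
import Pool.Agent.T2H04.HY.TlDb
import Pool.Agent.T2H04.HY.TlDc

/-!
# Second order expansion of one convolution at the scale `√t` (package PD)

Paper proof. `Z = √t X`, `‖X‖ ≤ 4`, `E` = expectation with the density `res²/V` on `B = bal L ρ`
(`ρ` a small constant, depending on `C, δ'` of PA, PB and `r0`). `Dri.calE_int`, `Dri.inner_eq`: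
`calE - 1 = V⁻¹ ∫_B res² (exp(-S) - 1) + far part`, `S = Sx D t w Z η`,
far part `= O(t³)` (`Dri.far`, as `‖Z‖ ≤ 4 √t`, and `tail_le`).
`S = -T6 (√t X) η / (2t) + P4 w (√t X/2) η + O((1 + A) (√t + ‖η‖)^7/t + A (√t+‖η‖)^5)`, so, with
`Q2 = ‖[X,η]‖²`, `S = -Q2/48 - ‖ad_η² X‖²/2880 - t ‖ad_X² η‖²/11520 + t ∑ c_ab(X) e_a e_b + err`,
`E |err| ≤ C (1+A) t^{5/2}` (`momk`). Also `|S| ≤ C (‖η‖² + ..)` is small on `B`:
`|exp(-S) - 1 + S - S²/2| ≤ |S|³`, `E|S|³ ≤ C t³`. Hence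
`calE = 1 - E S + E S²/2 + O(t^{5/2}(1+A))`, and `log calE = - E S + (E S² - (E S)²)/2 + O(..)`
(`E S = O(t)`; `log (1+u) = u - u²/2 + O(u³)`).
Moments (`mom2`, `mom4`, with `∑_ab ⟨[X,E_a],[X,E_b]⟩ e_a e_b = Q2` etc.):
`E Q2 = t/2 (1 - cas t/24) cas ‖X‖²`,
`E ‖ad_η² X‖² = t²/4 (cas² + cas² + cas²/2) ‖X‖² = 5/8 cas² t² ‖X‖²`
(`∑_a ad_a² = -cas`, `∑_b ad_b ad_b ad_a ad_b = ... `: `∑_a ad_a ad_X ad_a = -(cas/2) ad_X` on the Lie
algebra: from `[ad_a, ad_X] = ad_[a,X]` and `∑_a ad_a ad_{[a,X]} = ½ ∑_a [..]`, by the invariance of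
`∑ E_a ⊗ E_a`),
`E ‖ad_X² η‖² = t/2 T4 X`, `E ∑ c_ab e_a e_b = t/2 ∑ c_aa = t/2 · lam/4 ‖X‖²` (error
`|c_ab| (t² + (1+A) t^{5/2}) ≤ C A ..`, times `t`: `≤ C (1+A) t^{5/2}` because `A t ≤ 1/10`),
`E Q2² - (E Q2)² = t²/4 · 2 ∑_ab ⟨[X,E_a],[X,E_b]⟩² = t²/2 T4 X` (`∑_a ⟨ad_X² E_b, E_a⟩² = ‖ad_X² E_b‖²`).
So `log calE = t cas/96 ‖X‖² (1 - cas t/24) + 5/8 cas² t² ‖X‖²/2880 + t²/23040 T4 X - t² lam ‖X‖²/8
+ t² T4 X/9216 = t cas/96 ‖X‖² - t² cas²/4608 ‖X‖² - t² lam/8 ‖X‖² + 7/46080 t² T4 X`.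
-/

open MeasureTheory Matrix Filter
open scoped Matrix.Norms.Frobenius Topology

namespace Pool.Agent.T2H04.HY

set_option linter.unusedSectionVars false

noncomputable section

variable {G : Type} [Group G] [TopologicalSpace G] [IsTopologicalGroup G] [CompactSpace G]
  [MeasurableSpace G] [BorelSpace G] {μ : Measure G} [μ.IsHaarMeasure] [IsProbabilityMeasure μ]
  {m : Type} [Fintype m] [DecidableEq m] {L : RD G m}

namespace TlD

theorem T4_nonneg {n : ℕ} (E : Fin n → Mt m) (X : Mt m) : 0 ≤ T4 E X :=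
  Finset.sum_nonneg fun _ _ => sq_nonneg _

theorem T4_le {n : ℕ} {E : Fin n → Mt m} (hE1 : ∀ a, ‖E a‖ = 1) {X : Mt m} (hX : ‖X‖ ≤ 4) :
    T4 E X ≤ 4096 * n := by
  have n1 : ∀ a, ‖ad X (E a)‖ ≤ 8 := by
    intro a
    refine (norm_ad_le _ _).trans ?_
    rw [hE1]
    linarith
  have n3 : ∀ a, ‖ad X (ad X (E a))‖ ≤ 64 := by
    intro a
    refine (norm_ad_le _ _).trans ?_
    have := mul_le_mul hX (n1 a) (norm_nonneg _) (by norm_num)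
    linarith
  unfold T4
  have hb : ∀ a ∈ Finset.univ, ‖ad X (ad X (E a))‖ ^ 2 ≤ (4096 : ℝ) := by
    intro a _
    have := pow_le_pow_left₀ (norm_nonneg _) (n3 a) 2
    calc _ ≤ (64 : ℝ) ^ 2 := this
      _ = _ := by norm_num
  refine (Finset.sum_le_card_nsmul _ _ _ hb).trans (le_of_eq ?_)
  simp
  ring

theorem T_le {t cas N : ℝ} (ht : 0 < t) (hN : N ≤ 16) (hN0 : 0 ≤ N) :
    |t * (cas / 96) * N| ≤ |cas| * t := by
  rw [abs_mul, abs_mul, abs_of_pos ht, abs_div, abs_of_nonneg hN0,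
    abs_of_pos (by norm_num : (0 : ℝ) < 96)]
  have h0 := abs_nonneg cas
  calc t * (|cas| / 96) * N ≤ t * (|cas| / 96) * 16 := by gcongr
    _ = 16 / 96 * (|cas| * t) := by ring
    _ ≤ 1 * (|cas| * t) := by gcongr; norm_num
    _ = _ := one_mul _

theorem W_le {n t A Cp cas N T lam' : ℝ} (hCp : 0 ≤ Cp) (hA : 0 ≤ A) (hN : N ≤ 16) (hN0 : 0 ≤ N)
    (hT0 : 0 ≤ T) (hT : T ≤ 4096 * n) (hlam : |lam'| ≤ Cp * A) :
    |t ^ 2 * (-(cas ^ 2 / 4608) * N - lam' / 8 * N + 7 / 46080 * T)| ≤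
      (cas ^ 2 + 2 * Cp + n) * ((1 + A) * t ^ 2) := by
  rw [abs_mul, abs_of_nonneg (sq_nonneg t)]
  have hn : 0 ≤ n := by nlinarith
  have h1 : |-(cas ^ 2 / 4608) * N - lam' / 8 * N + 7 / 46080 * T| ≤
      cas ^ 2 + 2 * Cp * A + n := by
    have a1 : cas ^ 2 / 4608 * N ≤ cas ^ 2 := by
      have : cas ^ 2 / 4608 * N ≤ cas ^ 2 / 4608 * 16 := by gcongr
      nlinarith [sq_nonneg cas]
    have a2 : |lam' / 8 * N| ≤ 2 * Cp * A := by
      rw [abs_mul, abs_div, abs_of_nonneg hN0, abs_of_pos (by norm_num : (0 : ℝ) < 8)]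
      calc |lam'| / 8 * N ≤ (Cp * A) / 8 * 16 := by gcongr
        _ = _ := by ring
    have a0 : 0 ≤ cas ^ 2 / 4608 * N := by positivity
    obtain ⟨a3, a4⟩ := abs_le.1 a2
    have a5 : 0 ≤ 2 * Cp * A := by positivity
    rw [abs_le]
    constructor <;> linarith
  calc _ ≤ t ^ 2 * (cas ^ 2 + 2 * Cp * A + n) := mul_le_mul_of_nonneg_left h1 (sq_nonneg t)
    _ ≤ t ^ 2 * (cas ^ 2 + 2 * Cp * A + n + (cas ^ 2 * A + 2 * Cp + n * A)) := by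
        have : 0 ≤ cas ^ 2 * A + 2 * Cp + n * A := by positivity
        exact mul_le_mul_of_nonneg_left (by linarith) (sq_nonneg t)
    _ = _ := by ring

theorem z_arith {z pn pf : ℂ} {V t q A KK C7 Cn Cc K2 Ct M I e5 : ℝ} (hV : 0 < V) (ht : 0 < t)
    (htq : t ≤ q) (ht1 : t ≤ 1) (hA : 0 ≤ A) (hC7 : 0 ≤ C7)
    (hCc : 0 ≤ Cc) (hK2 : 0 ≤ K2) (hCt : 0 ≤ Ct) (hqq : q * q = t)
    (hz : (z - 1) * (V : ℂ) = pn + pf)
    (h1 : ‖pn - (I : ℂ)‖ ≤ KK * ((1 + A) / t) * (64 * (1 + C7) * q ^ 7) * V)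
    (h2 : |I - M * V| ≤ Cn * e5 * V + Cc * (1 + A) * t ^ 3 * V)
    (h3 : ‖pf‖ ≤ 48 * K2 * Ct * t ^ 4 * V) (he : e5 = (1 + A) * (t ^ 2 * q)) :
    ‖z - 1 - (M : ℂ)‖ ≤ (KK * (64 * (1 + C7)) + (Cn + Cc) + 48 * K2 * Ct) * e5 := by
  have hq : 0 < q := lt_of_lt_of_le ht htq
  have he0 : 0 ≤ e5 := by rw [he]; positivity
  have b1 : KK * ((1 + A) / t) * (64 * (1 + C7) * q ^ 7) * V = KK * (64 * (1 + C7)) * e5 * V := by
    have e7 : q ^ 7 = t ^ 3 * q := by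
      calc q ^ 7 = (q * q) ^ 3 * q := by ring
        _ = _ := by rw [hqq]
    rw [e7, he]
    field_simp
  have b2 : Cc * (1 + A) * t ^ 3 * V ≤ Cc * e5 * V := by
    have : (1 + A) * t ^ 3 ≤ e5 := by
      rw [he]
      calc (1 + A) * t ^ 3 = (1 + A) * (t ^ 2 * t) := by ring
        _ ≤ _ := by gcongr
    calc Cc * (1 + A) * t ^ 3 * V = Cc * ((1 + A) * t ^ 3) * V := by ring
      _ ≤ _ := by gcongr
  have b3 : 48 * K2 * Ct * t ^ 4 * V ≤ 48 * K2 * Ct * e5 * V := by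
    have : t ^ 4 ≤ e5 := by
      rw [he]
      have c1 : t ^ 4 ≤ t ^ 2 * q := by
        calc t ^ 4 = t ^ 2 * t * t := by ring
          _ ≤ t ^ 2 * q * 1 := by gcongr
          _ = _ := mul_one _
      have c2 : 0 ≤ A * (t ^ 2 * q) := by positivity
      linarith
    gcongr
  have hVc : (V : ℂ) ≠ 0 := Complex.ofReal_ne_zero.2 hV.ne'
  have e1 : (z - 1 - (M : ℂ)) * (V : ℂ) = (pn - (I : ℂ)) + ((I - M * V : ℝ) : ℂ) + pf := by
    push_cast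
    linear_combination hz
  have e2 : ‖z - 1 - (M : ℂ)‖ * V = ‖(z - 1 - (M : ℂ)) * (V : ℂ)‖ := by
    rw [norm_mul, Complex.norm_real, Real.norm_eq_abs, abs_of_pos hV]
  have e3 : ‖z - 1 - (M : ℂ)‖ * V ≤
      ((KK * (64 * (1 + C7)) + (Cn + Cc) + 48 * K2 * Ct) * e5) * V := by
    rw [e2, e1]
    have f1 := norm_add_le ((pn - (I : ℂ)) + ((I - M * V : ℝ) : ℂ)) pf
    have f2 := norm_add_le (pn - (I : ℂ)) ((I - M * V : ℝ) : ℂ)
    rw [Complex.norm_real, Real.norm_eq_abs] at f2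
    rw [b1] at h1
    have f3 : ((KK * (64 * (1 + C7)) + (Cn + Cc) + 48 * K2 * Ct) * e5) * V =
        KK * (64 * (1 + C7)) * e5 * V + (Cn * e5 * V + Cc * e5 * V) + 48 * K2 * Ct * e5 * V := by
      ring
    rw [f3]
    linarith
  exact le_of_mul_le_mul_right e3 hV

theorem fin2 {K A e e5 x : ℝ} (h : x ≤ K * e5) (he : e5 = (1 + A) * e) (he0 : 0 ≤ e5) :
    x ≤ (K + 1) * (1 + A) * e := by
  have : (K + 1) * (1 + A) * e = K * e5 + e5 := by rw [he]; ring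
  rw [this]
  linarith

end TlD

open TlD in
theorem expn (hs : Simple L) {D : LogData m} {εg δ r0 r s b r' : ℝ} (P : Par L D εg δ r0 r s b r')
    {n : ℕ} (hn : 0 < n) (E : Fin n → Mt m) (hE : ∀ a, E a ∈ lieSet L)
    (orth : ∀ a b, (trace ((E a)ᴴ * E b)).re = if a = b then 1 else 0)
    (full : ∀ Y ∈ lieSet L, Y ∈ Submodule.span ℝ (Set.range E))
    (cas : ℝ) (hcas : ∀ X ∈ lieSet L, ∑ a, ‖E a * X - X * E a‖ ^ 2 = cas * ‖X‖ ^ 2) :
    ∃ C ts : ℝ, 0 < C ∧ 0 < ts ∧ ∀ (F : Mt m → ℂ) (t A : ℝ) (w : gC L → ℂ), 0 < t →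
      t ≤ ts → 0 ≤ A → A * t ≤ 1 / 10 → Cls L F t A r (r0 / 4) s b (1 / 10000) →
      SFw L F t A r (r0 / 4) w → ∀ X : gC L, (X : Mt m) ∈ lieSet L → ‖X‖ ≤ 4 →
        ‖Complex.log (calE μ F t w (((Real.sqrt t : ℝ) : ℂ) • X)) -
          ((t * (cas / 96) * ‖X‖ ^ 2 + t ^ 2 * (-(cas ^ 2 / 4608) * ‖X‖ ^ 2 -
            lam E w / 8 * ‖X‖ ^ 2 + 7 / 46080 * T4 E (X : Mt m)) : ℝ) : ℂ)‖ ≤
          C * (1 + A) * (t ^ 2 * Real.sqrt t) := by
  have hr0 := P.r0_pos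
  have hr01 := P.r0_le
  have hrl := P.r_lo
  have hδ := P.r0_δ
  obtain ⟨C6, δ6, hC6, hδ6, h6⟩ := sdf_Q6 P.ch
  obtain ⟨C4, δ4, hC4, hδ4, h4⟩ := sdf_w4 P
  obtain ⟨Cp, hCp, hP4⟩ := P4_form hs hn E hE orth full
  set ρ : ℝ := min (r0 / 20) (min (δ6 / 2) (δ4 / 2)) with hρd
  have hρ : 0 < ρ := lt_min (by positivity) (lt_min (by positivity) (by positivity))
  have hρ1 : ρ ≤ r0 / 20 := min_le_left _ _
  have hρ6 : 2 * ρ ≤ δ6 := by
    have := (min_le_right (r0 / 20) (min (δ6 / 2) (δ4 / 2))).trans (min_le_left _ _)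
    linarith
  have hρ4 : 2 * ρ ≤ δ4 := by
    have := (min_le_right (r0 / 20) (min (δ6 / 2) (δ4 / 2))).trans (min_le_right _ _)
    linarith
  obtain ⟨C7, t7, hC7, ht7, h7⟩ := momk (μ := μ) P 7
  obtain ⟨Cm2, tm2, hCm2, htm2, hm2⟩ := mom2 (μ := μ) P hρ hρ1 E hE orth full cas hcas
  obtain ⟨Cm4, tm4, hCm4, htm4, hm4⟩ := mom4 (μ := μ) P hρ hρ1 E hE orth full
  obtain ⟨Ct, hCt, htail⟩ := Dri.tail_le μ L (ρ ^ 2 / 1000) (by positivity)
  set K : ℝ := 16 * (192 / δ ^ 2 + 7400) + (4 + 16 * n ^ 2 * Cp) with hK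
  set C1 : ℝ := 8192 * C6 + 1024 * C4 with hC1
  have hK0 : 0 ≤ K := by positivity
  have hC10 : 0 ≤ C1 := by positivity
  set KK : ℝ := K ^ 3 * Real.exp K + C1 + C1 * K + K ^ 2 with hKK
  have hKK0 : 0 ≤ KK := by positivity
  set K2 : ℝ := 32 / r0 ^ 2 + 5 * (192 / δ ^ 2 + 7400) with hK2
  have hK20 : 0 ≤ K2 := by positivity
  set Ce : ℝ := KK * (64 * (1 + C7)) + ((3 * n ^ 2 + 2 * n ^ 2 * Cp + 2 * n ^ 4) * (Cm2 + Cm4) +
    |cas| * (n + Cp)) + 48 * K2 * Ct with hCe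
  have hCe0 : 0 ≤ Ce := by positivity
  set k1 : ℝ := |cas| with hk1
  set k2 : ℝ := cas ^ 2 + 2 * Cp + n with hk2
  have hk10 : 0 ≤ k1 := abs_nonneg _
  have hk20 : 0 ≤ k2 := by positivity
  set k4 : ℝ := k1 + 2 * k2 + k1 ^ 2 + 2 * Ce with hk4
  have hk40 : 0 ≤ k4 := by positivity
  refine ⟨(k4 ^ 3 + Ce + (Ce + k2 + k1 ^ 2) * (k4 + k1)) + 1,
    min (min (min t7 tm2) (min tm4 (1 / 4))) (min (min ((r0 / 20) ^ 2 / 2) ((δ6 / 4) ^ 2))
      (min ((δ4 / 4) ^ 2) (1 / (2 * (k4 + 1))))), by positivity, by positivity, ?_⟩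
  intro F t A w ht hts hA hAt cl hw X hX hX4
  have g1 := (hts.trans (min_le_left _ _)).trans (min_le_left _ _)
  have g2 := (hts.trans (min_le_left _ _)).trans (min_le_right _ _)
  have g3 := (hts.trans (min_le_right _ _)).trans (min_le_left _ _)
  have g4 := (hts.trans (min_le_right _ _)).trans (min_le_right _ _)
  have htt7 : t ≤ t7 := g1.trans (min_le_left _ _)
  have httm2 : t ≤ tm2 := g1.trans (min_le_right _ _)
  have httm4 : t ≤ tm4 := g2.trans (min_le_left _ _)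
  have ht14 : t ≤ 1 / 4 := g2.trans (min_le_right _ _)
  have htr : t ≤ (r0 / 20) ^ 2 / 2 := g3.trans (min_le_left _ _)
  have htδ6 : t ≤ (δ6 / 4) ^ 2 := g3.trans (min_le_right _ _)
  have htδ4 : t ≤ (δ4 / 4) ^ 2 := g4.trans (min_le_left _ _)
  have htk4 : t ≤ 1 / (2 * (k4 + 1)) := g4.trans (min_le_right _ _)
  clear g1 g2 g3 g4 hts
  have ht1 : t ≤ 1 := by linarith
  have hq := Real.sqrt_pos.2 ht
  have hqq : Real.sqrt t * Real.sqrt t = t := Real.mul_self_sqrt ht.le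
  have hq2 : Real.sqrt t ^ 2 = t := Real.sq_sqrt ht.le
  have hq12 : Real.sqrt t ≤ 1 / 2 := by
    rw [Real.sqrt_le_left (by norm_num)]
    norm_num
    linarith
  have htq : t ≤ Real.sqrt t := by nlinarith
  have hqr : Real.sqrt t < r0 / 20 := by
    rw [Real.sqrt_lt' (by positivity)]
    have : 0 < (r0 / 20) ^ 2 := by positivity
    linarith
  have hqδ6 : 4 * Real.sqrt t ≤ δ6 := by
    have := (Real.sqrt_le_left (by positivity)).2 htδ6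
    linarith
  have hqδ4 : 4 * Real.sqrt t ≤ δ4 := by
    have := (Real.sqrt_le_left (by positivity)).2 htδ4
    linarith
  have hsm : k4 * t ≤ 1 / 2 := by
    have h1 : k4 * t ≤ (k4 + 1) * (1 / (2 * (k4 + 1))) := by gcongr; linarith
    have h2 : (k4 + 1) * (1 / (2 * (k4 + 1))) = 1 / 2 := by
      field_simp
    linarith
  have hX0 := norm_nonneg X
  have hXc : ‖(X : Mt m)‖ = ‖X‖ := rfl
  -- the mass
  set V : ℝ := ∫ y, res L F y ^ 2 ∂μ with hV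
  have hVe := Dri.ccv_one_int (μ := μ) cl
  have hVpos : 0 < V := by
    have := ccv_one_pos (μ := μ) cl
    rwa [hVe, Complex.ofReal_re] at this
  -- the point
  set Z : gC L := ((Real.sqrt t : ℝ) : ℂ) • X with hZd
  have hZc : (Z : Mt m) = ((Real.sqrt t : ℝ) : ℂ) • (X : Mt m) := rfl
  have hZn : ‖Z‖ = Real.sqrt t * ‖X‖ := norm_sqrt_smul t X
  have hZ2 : ‖Z‖ ^ 2 = t * ‖X‖ ^ 2 := by rw [hZn, mul_pow, hq2]
  have hX16 : ‖X‖ ^ 2 ≤ 16 := by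
    have := pow_le_pow_left₀ hX0 hX4 2
    linarith
  have hZ16 : ‖Z‖ ^ 2 ≤ 16 * t := by
    rw [hZ2]
    have := mul_le_mul_of_nonneg_left hX16 ht.le
    linarith
  have hZr : ‖Z‖ < r0 / 4 := by
    rw [hZn]
    have := mul_le_mul_of_nonneg_left hX4 hq.le
    linarith
  have hZim : imP (Z : Mt m) = 0 := by
    rw [hZc, imP_smul, imP_of_skew (lie_skew L hX), smul_zero]
  obtain ⟨hlam, hform⟩ := hP4 F t A r r0 w hA hr0 hrl hw
  obtain ⟨c, -, hc, hcf, hctr⟩ := hform Z hZim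
  rw [hZ2] at hctr
  have hE1 : ∀ a, ‖E a‖ = 1 := by
    intro a
    have h1 := norm_sq_eq (E a)
    have h3 := orth a a
    rw [if_pos rfl] at h3
    rw [h3] at h1
    have h5 : (‖E a‖ - 1) * (‖E a‖ + 1) = 0 := by ring_nf; linarith
    rcases mul_eq_zero.1 h5 with h | h
    · linarith
    · have := norm_nonneg (E a); linarith
  -- near
  have hpt : ∀ y : G, dis L y < ρ → ‖Dri.phi L F t w Z y -
      ((ff L D F E t (X : Mt m) c y : ℝ) : ℂ)‖ ≤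
      KK * ((1 + A) / t) * ((Real.sqrt t + ‖Dri.et L D y‖) ^ 7 * res L F y ^ 2) := fun y hy =>
    near_pt P cl hw ht hA hAt hE1 hC6 hC4 hCp h6 (h4 F t A w hA hw) hX hX4 hc hcf hq12
      (by linarith) hqδ6 hqδ4 hρ1 hρ6 hρ4 hK hC1 hy
  have hA0 : 0 ≤ KK * ((1 + A) / t) := by positivity
  have N1 := near_int (μ := μ) P cl hw ht hA hAt hρ1 hA0 hpt
    (h7 F t A ht htt7 hA hAt cl ρ hρ1)
  -- moments
  set e5 : ℝ := (1 + A) * (t ^ 2 * Real.sqrt t) with he5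
  have he50 : 0 ≤ e5 := by positivity
  have N2 := main_real (μ := μ) P cl ht hA hAt hE orth full cas hcas hX hX4 hρ1 (V := V)
    (ε := (Cm2 + Cm4) * e5 * V) hVpos.le (by positivity)
    (fun a b => (hm2 F t A ht httm2 hA hAt cl a b).trans (by
      have : Cm2 * (1 + A) * (t ^ 2 * Real.sqrt t) * V = Cm2 * e5 * V := by rw [he5]; ring
      rw [this]
      have : 0 ≤ Cm4 * e5 * V := by positivity
      linarith))
    (fun a b c d => (hm4 F t A ht httm4 hA hAt cl a b c d).trans (by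
      have : Cm4 * (1 + A) * (t ^ 2 * Real.sqrt t) * V = Cm4 * e5 * V := by rw [he5]; ring
      rw [this]
      have : 0 ≤ Cm2 * e5 * V := by positivity
      linarith))
    hCp.le (fun a b => (hc a b).trans (mul_le_mul_of_nonneg_left hZ16 (by positivity)))
    hlam hctr ht1
  -- far
  have N3 := far_int (μ := μ) P cl hw ht hA hAt hρ hρ1 hCt.le (htail t ht ht1) hqr hZr hZ16
  -- the sum
  set T1 : ℝ := t * (cas / 96) * ‖X‖ ^ 2 with hT1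
  set W2 : ℝ := t ^ 2 * (-(cas ^ 2 / 4608) * ‖X‖ ^ 2 -
            lam E w / 8 * ‖X‖ ^ 2 + 7 / 46080 * T4 E (X : Mt m)) with hW2
  have hphi : Integrable (Dri.phi L F t w Z) μ := intg μ (Dri.phi_cont cl.diff.continuous t w _)
  have hB : MeasurableSet (bal L ρ : Set G) := (isOpen_bal L ρ).measurableSet
  have hsplit := integral_add_compl hB hphi
  have hcal := Dri.calE_int (μ := μ) cl (w := w) Z
  rw [hVe, ← hsplit] at hcal
  have hsq : t ^ 2 * cas ^ 2 * (‖X‖ ^ 2) ^ 2 / 18432 = T1 ^ 2 / 2 := by rw [hT1]; ring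
  have hassoc : (3 * n ^ 2 + 2 * n ^ 2 * Cp + 2 * n ^ 4) * ((Cm2 + Cm4) * e5 * V) =
      ((3 * n ^ 2 + 2 * n ^ 2 * Cp + 2 * n ^ 4) * (Cm2 + Cm4)) * e5 * V := by
    rw [← mul_assoc, ← mul_assoc]
  rw [hsq, hassoc] at N2
  have hT2 : |W2| ≤ k2 * ((1 + A) * t ^ 2) :=
    W_le hCp.le hA hX16 (sq_nonneg _) (T4_nonneg E _) (T4_le hE1 (X := (X : Mt m)) hX4) hlam
  have hT1b : |T1| ≤ k1 * t := T_le ht hX16 (sq_nonneg _)
  have hz : ‖calE μ F t w Z - 1 - ((T1 + W2 + T1 ^ 2 / 2 : ℝ) : ℂ)‖ ≤ Ce * e5 :=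
    z_arith hVpos ht htq ht1 hA hC7.le (by positivity) hK20 hCt.le hqq hcal N1 N2 N3 he5
  have hfin := log_arith ht hq htq (by linarith) hA hAt hCe0 hk10 hk20 hT1b hT2 hz hsm
  exact fin2 hfin he5 he50

end

end Pool.Agent.T2H04.HY
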