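import Mathlib
import Pool.Agent.T2H04.HY.Q4one
import Pool.Agent.T2H04.HY.Tc
import Pool.Agent.T2H04.HY.TlD

/-!
# The two loop coefficients of one convolution (package PE)

Paper proof. `ℓ(Z) = log calE(Z)` is holomorphic, even, `ℓ 0 = 0`, `‖ℓ‖ ≤ 1` on `ball 0 (r0/4)`
(`calE_le`, `calE_diff`, `calE_neg`, `calE_zero`, `norm_log_le`, as in `conv_cls'`). For real `X`,
`‖X‖ ≤ 4`: `ℓ(s X) = a ‖X‖² s² + ℓ₄(X) s⁴ + O(s⁶)` with `ℓ₄ X = q4 (ℓ - a Qf) X` (one variable, holomorphic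
for `|s| ≤ r0/16`), so with `s = √t`: `v(X) := ℓ(√t X) = a t ‖X‖² + t² ℓ₄(X) + O(t³)`, and
`v(2X) = 4 a t ‖X‖² + 16 t² ℓ₄(X) + O(t³)` for `‖X‖ ≤ 2`. Hence
`a t ‖X‖² = (16 v(X) - v(2X))/12 + O(t³)`, `ℓ₄(X) = (v(2X) - 4 v(X))/(12 t²) + O(t)`; insert `expn`
(`T4 (2X) = 16 T4 X`; for `a` choose one `X` with `‖X‖ = 1`).
-/

open MeasureTheory Matrix Filter
open scoped Matrix.Norms.Frobenius Topology

namespace Pool.Agent.T2H04.HY

set_option linter.unusedSectionVars false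

noncomputable section

variable {G : Type} [Group G] [TopologicalSpace G] [IsTopologicalGroup G] [CompactSpace G]
  [MeasurableSpace G] [BorelSpace G] {μ : Measure G} [μ.IsHaarMeasure] [IsProbabilityMeasure μ]
  {m : Type} [Fintype m] [DecidableEq m] {L : RD G m}

theorem T4_two {n : ℕ} (E : Fin n → Mt m) (X : Mt m) : T4 E ((2 : ℂ) • X) = 16 * T4 E X := by
  unfold T4
  rw [Finset.mul_sum]
  refine Finset.sum_congr rfl fun a _ => ?_
  have e : ∀ Y : Mt m, ad ((2 : ℂ) • X) Y = (2 : ℂ) • ad X Y := by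
    intro Y
    unfold ad
    rw [smul_mul_assoc, mul_smul_comm, smul_sub]
  have e2 : ∀ Y : Mt m, ad X ((2 : ℂ) • Y) = (2 : ℂ) • ad X Y := by
    intro Y
    unfold ad
    rw [smul_mul_assoc, mul_smul_comm, smul_sub]
  rw [e, e, e2, smul_smul, norm_smul]
  have : ‖(2 * 2 : ℂ)‖ = 4 := by norm_num
  rw [this]
  ring

theorem Qf_lie {X : Mt m} (hX : X ∈ lieSet L) : Qf X = ((‖X‖ ^ 2 : ℝ) : ℂ) := by
  have h3 : imP X = 0 := imP_of_skew (lie_skew L hX)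
  have h4 : Qf X = (((Qf X).re : ℝ) : ℂ) :=
    Complex.ext (by simp) (by rw [Complex.ofReal_im]; exact Qf_im_of_real h3)
  have h5 : (Qf X).re = ‖X‖ ^ 2 := by
    have h6 := norm_sq_gC (L := L) ⟨X, gC_of_lie L hX⟩
    have h7 : ‖(⟨X, gC_of_lie L hX⟩ : gC L)‖ = ‖X‖ := rfl
    rw [h7] at h6
    rw [Qf_re, h6]
    simp only [h3, norm_zero]
    ring
  rw [h4, h5]

theorem two_uv {u v : ℂ} {η : ℝ} (h1 : ‖u + v‖ ≤ η) (h2 : ‖4 * u + 16 * v‖ ≤ η) :
    ‖u‖ ≤ 2 * η ∧ ‖v‖ ≤ η := by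
  have hη : 0 ≤ η := (norm_nonneg _).trans h1
  constructor
  · have e : (12 : ℂ) * u = 16 * (u + v) - (4 * u + 16 * v) := by ring
    have h3 : ‖(12 : ℂ) * u‖ ≤ 16 * η + η := by
      rw [e]
      refine (norm_sub_le _ _).trans (add_le_add ?_ h2)
      rw [norm_mul]
      have : ‖(16 : ℂ)‖ = 16 := by norm_num
      rw [this]
      linarith
    rw [norm_mul] at h3
    have : ‖(12 : ℂ)‖ = 12 := by norm_num
    rw [this] at h3
    linarith
  · have e : (12 : ℂ) * v = (4 * u + 16 * v) - 4 * (u + v) := by ring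
    have h3 : ‖(12 : ℂ) * v‖ ≤ η + 4 * η := by
      rw [e]
      refine (norm_sub_le _ _).trans (add_le_add h2 ?_)
      rw [norm_mul]
      have : ‖(4 : ℂ)‖ = 4 := by norm_num
      rw [this]
      linarith
    rw [norm_mul] at h3
    have : ‖(12 : ℂ)‖ = 12 := by norm_num
    rw [this] at h3
    linarith

theorem drift2 (hs : Simple L) {D : LogData m} {εg δ r0 r s b r' : ℝ}
    (P : Par L D εg δ r0 r s b r') {Cm : ℝ}
    (hCm : ∀ t : ℝ, 0 < t → ∫ y, (1 + dis L y ^ 2 / t + (dis L y ^ 2 / t) ^ 2) *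
      Real.exp (-(1 / 2 * dis L y ^ 2 / t)) ∂μ ≤ Cm * μ.real (bal L (Real.sqrt t)))
    (hCm0 : 0 ≤ Cm) (hR : 32 * (192 / δ ^ 2 + 7400) * Cm * r0 ^ 2 ≤ 1)
    {n : ℕ} (hn : 0 < n) (E : Fin n → Mt m) (hE : ∀ a, E a ∈ lieSet L)
    (orth : ∀ a b, (trace ((E a)ᴴ * E b)).re = if a = b then 1 else 0)
    (full : ∀ Y ∈ lieSet L, Y ∈ Submodule.span ℝ (Set.range E))
    (cas : ℝ) (hcas : ∀ X ∈ lieSet L, ∑ a, ‖E a * X - X * E a‖ ^ 2 = cas * ‖X‖ ^ 2) :
    ∃ C ts : ℝ, 0 < C ∧ 0 < ts ∧ ∀ (F : Mt m → ℂ) (t A : ℝ) (w : gC L → ℂ) (a : ℝ), 0 < t →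
      t ≤ ts → 0 ≤ A → A * t ≤ 1 / 10 → Cls L F t A r (r0 / 4) s b (1 / 10000) →
      SFw L F t A r (r0 / 4) w →
      (∀ Z : gC L, Tendsto (fun s : ℝ => Complex.log (calE μ F t w ((s : ℂ) • Z)) / (s : ℂ) ^ 2)
        (𝓝[≠] 0) (𝓝 ((a : ℂ) * Qf (Z : Mt m)))) →
      |a - (cas / 96 - t * (cas ^ 2 / 4608 + lam E w / 8))| ≤ C * (1 + A) * (t * Real.sqrt t) ∧
      ∀ X : gC L, (X : Mt m) ∈ lieSet L → ‖X‖ ≤ 2 →
        ‖q4 (fun Z : gC L => Complex.log (calE μ F t w Z) - a * Qf (Z : Mt m)) X -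
          ((7 / 46080 * T4 E (X : Mt m) : ℝ) : ℂ)‖ ≤ C * (1 + A) * Real.sqrt t := by
  have hr0 := P.r0_pos
  have hrl := P.r_lo
  have hrl' := P.r'_lo
  have hrh' := P.r'_hi
  have hr2 : r' / 2 ≤ r := by linarith
  have hr'0 : 0 < r' := by linarith
  obtain ⟨C, ts, hC, hts, H⟩ := expn (μ := μ) hs P hn E hE orth full cas hcas
  obtain ⟨ts0, hts0, T⟩ := exists_TC μ L r0 hr0
  obtain ⟨R, hRd⟩ : ∃ R : ℝ, R = r0 / 16 := ⟨_, rfl⟩
  have hR0 : 0 < R := by rw [hRd]; positivity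
  obtain ⟨C2, hC2⟩ : ∃ C2 : ℝ, C2 = 4 / R ^ 6 := ⟨_, rfl⟩
  have hC20 : 0 < C2 := by rw [hC2]; positivity
  refine ⟨2 * (C + C2), min (min ts ts0) (min 1 (R ^ 2 / 2)), by positivity, by positivity, ?_⟩
  intro F t A w a ht htl hA hAt cl hw ha
  have a1 : t ≤ ts := htl.trans ((min_le_left _ _).trans (min_le_left _ _))
  have a2 : t ≤ ts0 := htl.trans ((min_le_left _ _).trans (min_le_right _ _))
  have a3 : t ≤ 1 := htl.trans ((min_le_right _ _).trans (min_le_left _ _))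
  have a4 : t ≤ R ^ 2 / 2 := htl.trans ((min_le_right _ _).trans (min_le_right _ _))
  have hT := T t ht a2
  have hst0 : 0 < Real.sqrt t := Real.sqrt_pos.2 ht
  have hstR : Real.sqrt t < R := by
    rw [Real.sqrt_lt' hR0]
    have : 0 < R ^ 2 := by positivity
    linarith
  have hst2 : Real.sqrt t ^ 2 = t := Real.sq_sqrt ht.le
  have htst : t ≤ Real.sqrt t := by
    have h1 : Real.sqrt t ≤ 1 := Real.sqrt_le_one.2 a3
    calc t = Real.sqrt t * Real.sqrt t := by rw [← sq, hst2]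
      _ ≤ Real.sqrt t * 1 := by gcongr
      _ = _ := mul_one _
  have hEn := fun Z hZ => calE_le P hCm hCm0 hR cl hw hT hA hAt Z hZ
  set ℓ : gC L → ℂ := fun Z => Complex.log (calE μ F t w Z) with hℓ
  have hℓd : DifferentiableOn ℂ ℓ (dom L r' (r0 / 4)) :=
    (calE_diff cl hw hr2 hr0).clog fun Z hZ => slit_of_near (hEn Z hZ)
  have hℓ1 : ∀ Z ∈ dom L r' (r0 / 4), ‖ℓ Z‖ ≤ 1 := fun Z hZ => norm_log_le (hEn Z hZ)
  have hℓ0 : ℓ 0 = 0 := by
    show Complex.log (calE μ F t w 0) = 0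
    rw [calE_zero cl hw hr2 hr0 hr'0, Complex.log_one]
  have hℓe : ∀ Z ∈ dom L r' (r0 / 4), ℓ (-Z) = ℓ Z := by
    intro Z hZ
    show Complex.log (calE μ F t w (-Z)) = Complex.log (calE μ F t w Z)
    rw [calE_neg cl hw hr2 hr0 hZ]
  have hball : Metric.ball (0 : gC L) (r0 / 4) ⊆ dom L r' (r0 / 4) :=
    ball_sub_dom (by linarith) le_rfl
  -- the expansion along a line
  have key : ∀ X : gC L, (X : Mt m) ∈ lieSet L → ‖X‖ ≤ 4 → ∃ c : ℂ,
      Tendsto (fun s : ℝ => (ℓ ((s : ℂ) • X) - a * Qf (((s : ℂ) • X : gC L) : Mt m)) / (s : ℂ) ^ 4)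
        (𝓝[≠] 0) (𝓝 c) ∧
      ‖ℓ (((Real.sqrt t : ℝ) : ℂ) • X) - ((a * ‖X‖ ^ 2 * t : ℝ) : ℂ) - c * (t : ℂ) ^ 2‖ ≤
        C2 * t ^ 3 := by
    intro X hX hX4
    have hmaps : Set.MapsTo (fun ζ : ℂ => ζ • X) (Metric.ball 0 R) (Metric.ball 0 (r0 / 4)) := by
      intro ζ hζ
      rw [mem_ball_zero_iff] at hζ ⊢
      rw [norm_smul]
      have h1 : ‖ζ‖ * ‖X‖ ≤ ‖ζ‖ * 4 := by gcongr
      have h2 : ‖ζ‖ * 4 < R * 4 := by gcongr
      rw [hRd] at h2
      linarith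
    obtain ⟨c, hc1, hc2⟩ := coef_two (f := fun ζ : ℂ => ℓ (ζ • X)) (R := R) (M := 1)
      (α := (a : ℂ) * Qf (X : Mt m)) hR0
      ((hℓd.mono hball).comp (by fun_prop) hmaps) (fun ζ hζ => hℓ1 _ (hball (hmaps hζ)))
      (by simp only [zero_smul, hℓ0]) (fun ζ hζ => by
        have h1 := hℓe _ (hball (hmaps hζ))
        have h2 : (-ζ) • X = -(ζ • X) := by
          apply Subtype.ext
          show (-ζ) • (X : Mt m) = -(ζ • (X : Mt m))
          rw [neg_smul]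
        exact (congrArg ℓ h2).trans h1) (ha X)
    refine ⟨c, ?_, ?_⟩
    · refine hc1.congr' (Eventually.of_forall fun s => ?_)
      simp only
      have e : Qf (((s : ℂ) • X : gC L) : Mt m) = (s : ℂ) ^ 2 * Qf (X : Mt m) := by
        show Qf ((s : ℂ) • (X : Mt m)) = _
        unfold Qf
        rw [smul_mul_assoc, mul_smul_comm, smul_smul, trace_smul, smul_eq_mul]
        ring
      rw [e]
      ring
    · have h1 := hc2 ((Real.sqrt t : ℝ) : ℂ) (by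
        rw [mem_ball_zero_iff, Complex.norm_real, Real.norm_eq_abs, abs_of_pos hst0]
        exact hstR)
      rw [Complex.norm_real, Real.norm_eq_abs, abs_of_pos hst0] at h1
      have e2 : ((Real.sqrt t : ℝ) : ℂ) ^ 2 = (t : ℂ) := by
        rw [← Complex.ofReal_pow, hst2]
      have e4 : ((Real.sqrt t : ℝ) : ℂ) ^ 4 = (t : ℂ) ^ 2 := by
        rw [show (4 : ℕ) = 2 * 2 from rfl, pow_mul, e2]
      have e6 : 4 * 1 * (Real.sqrt t / R) ^ 6 = C2 * t ^ 3 := by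
        rw [div_pow, hC2, show (6 : ℕ) = 2 * 3 from rfl, pow_mul (Real.sqrt t), hst2]
        ring
      rw [e2, e4, e6, Qf_lie hX] at h1
      have e5 : (((a * ‖X‖ ^ 2 * t : ℝ)) : ℂ) =
          (a : ℂ) * ((‖(X : Mt m)‖ ^ 2 : ℝ) : ℂ) * (t : ℂ) := by
        have : ‖X‖ = ‖(X : Mt m)‖ := rfl
        rw [this]
        push_cast
        ring
      rw [e5]
      exact h1
  -- the two coefficients
  obtain ⟨K, hK⟩ : ∃ K : ℝ, K = cas / 96 - t * (cas ^ 2 / 4608 + lam E w / 8) := ⟨_, rfl⟩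
  have main : ∀ X : gC L, (X : Mt m) ∈ lieSet L → ‖X‖ ≤ 2 → ∃ c : ℂ,
      Tendsto (fun s : ℝ => (ℓ ((s : ℂ) • X) - a * Qf (((s : ℂ) • X : gC L) : Mt m)) / (s : ℂ) ^ 4)
        (𝓝[≠] 0) (𝓝 c) ∧
      |(a - K) * ‖X‖ ^ 2 * t| ≤ 2 * ((C + C2) * (1 + A) * (t ^ 2 * Real.sqrt t)) ∧
      ‖(c - ((7 / 46080 * T4 E (X : Mt m) : ℝ) : ℂ)) * (t : ℂ) ^ 2‖ ≤
        (C + C2) * (1 + A) * (t ^ 2 * Real.sqrt t) := by
    intro X hX hX2
    have h2X : (((2 : ℂ) • X : gC L) : Mt m) ∈ lieSet L := by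
      have h1 : (((2 : ℂ) • X : gC L) : Mt m) = (2 : ℝ) • (X : Mt m) := by
        show (2 : ℂ) • (X : Mt m) = _
        ext i j
        simp
      rw [h1]
      intro s
      obtain ⟨g, hg⟩ := hX (s * 2)
      refine ⟨g, ?_⟩
      rw [hg, smul_smul]
    have hn2 : ‖(2 : ℂ) • X‖ = 2 * ‖X‖ := by
      rw [norm_smul, show ‖(2 : ℂ)‖ = 2 from by norm_num]
    obtain ⟨c, hc1, hc2⟩ := key X hX (by linarith)
    obtain ⟨c', hc1', hc2'⟩ := key ((2 : ℂ) • X) h2X (by rw [hn2]; linarith)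
    have hcc : c' = 16 * c := by
      have h2 : Tendsto (fun s : ℝ => s * 2) (𝓝[≠] 0) (𝓝[≠] 0) := by
        rw [tendsto_nhdsWithin_iff]
        constructor
        · have : Tendsto (fun s : ℝ => s * 2) (𝓝 0) (𝓝 (0 * 2)) :=
            (continuous_id.mul continuous_const).tendsto 0
          rw [zero_mul] at this
          exact this.mono_left nhdsWithin_le_nhds
        · filter_upwards [self_mem_nhdsWithin] with s hs
          exact mul_ne_zero hs two_ne_zero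
      refine tendsto_nhds_unique hc1' (((hc1.comp h2).const_mul 16).congr' ?_)
      filter_upwards [self_mem_nhdsWithin] with s hs
      have hs0 : (s : ℂ) ≠ 0 := Complex.ofReal_ne_zero.2 hs
      simp only [Function.comp_apply]
      have e : (((s * 2 : ℝ) : ℂ)) • X = (s : ℂ) • ((2 : ℂ) • X) := by
        rw [smul_smul]
        push_cast
        rfl
      rw [e]
      push_cast
      field_simp
      ring
    have b1 := H F t A w ht a1 hA hAt cl hw X hX (by linarith)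
    have b2 := H F t A w ht a1 hA hAt cl hw ((2 : ℂ) • X) h2X (by rw [hn2]; linarith)
    have hco : (((2 : ℂ) • X : gC L) : Mt m) = (2 : ℂ) • (X : Mt m) := rfl
    rw [hco, T4_two, hn2] at b2
    rw [hn2, hcc] at hc2'
    -- the error
    have hη : C * (1 + A) * (t ^ 2 * Real.sqrt t) + C2 * t ^ 3 ≤
        (C + C2) * (1 + A) * (t ^ 2 * Real.sqrt t) := by
      have h1 : t ^ 3 ≤ t ^ 2 * Real.sqrt t := by
        calc t ^ 3 = t ^ 2 * t := by ring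
          _ ≤ t ^ 2 * Real.sqrt t := by gcongr
      have h2 : C2 * t ^ 3 ≤ C2 * (1 + A) * (t ^ 2 * Real.sqrt t) := by
        calc C2 * t ^ 3 ≤ C2 * (t ^ 2 * Real.sqrt t) := by gcongr
          _ ≤ C2 * (1 + A) * (t ^ 2 * Real.sqrt t) := by
            have : C2 ≤ C2 * (1 + A) := le_mul_of_one_le_right hC20.le (by linarith)
            gcongr
      calc _ ≤ C * (1 + A) * (t ^ 2 * Real.sqrt t) + C2 * (1 + A) * (t ^ 2 * Real.sqrt t) := by
            linarith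
        _ = _ := by ring
    have hu : ‖(((a - K) * ‖X‖ ^ 2 * t : ℝ) : ℂ) +
        (c - ((7 / 46080 * T4 E (X : Mt m) : ℝ) : ℂ)) * (t : ℂ) ^ 2‖ ≤
        (C + C2) * (1 + A) * (t ^ 2 * Real.sqrt t) := by
      refine le_trans ?_ hη
      refine le_trans (le_of_eq ?_) ((norm_sub_le _ _).trans (add_le_add b1 hc2))
      congr 1
      show _ = (ℓ (((Real.sqrt t : ℝ) : ℂ) • X) - _) - _
      rw [hK]
      push_cast
      ring
    have hv : ‖4 * (((a - K) * ‖X‖ ^ 2 * t : ℝ) : ℂ) +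
        16 * ((c - ((7 / 46080 * T4 E (X : Mt m) : ℝ) : ℂ)) * (t : ℂ) ^ 2)‖ ≤
        (C + C2) * (1 + A) * (t ^ 2 * Real.sqrt t) := by
      refine le_trans ?_ hη
      refine le_trans (le_of_eq ?_) ((norm_sub_le _ _).trans (add_le_add b2 hc2'))
      congr 1
      show _ = (ℓ (((Real.sqrt t : ℝ) : ℂ) • ((2 : ℂ) • X)) - _) - _
      rw [hK]
      push_cast
      ring
    obtain ⟨h1, h2⟩ := two_uv hu hv
    refine ⟨c, hc1, ?_, h2⟩
    rw [Complex.norm_real, Real.norm_eq_abs] at h1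
    exact h1
  constructor
  · -- a unit vector
    have hE1 : ‖E ⟨0, hn⟩‖ = 1 := by
      have h1 := orth ⟨0, hn⟩ ⟨0, hn⟩
      rw [if_pos rfl] at h1
      have h2 : ‖E ⟨0, hn⟩‖ ^ 2 = 1 := by
        rw [← h1]
        exact norm_sq_eq _
      nlinarith [norm_nonneg (E ⟨0, hn⟩)]
    obtain ⟨c, -, h2, -⟩ := main ⟨E ⟨0, hn⟩, gC_of_lie L (hE _)⟩ (hE _) (by
      show ‖E ⟨0, hn⟩‖ ≤ 2
      rw [hE1]
      norm_num)
    have h3 : ‖(⟨E ⟨0, hn⟩, gC_of_lie L (hE _)⟩ : gC L)‖ = 1 := hE1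
    rw [h3, one_pow, mul_one, abs_mul, abs_of_pos ht] at h2
    rw [← hK]
    have h4 : |a - K| * t ≤ (2 * (C + C2) * (1 + A) * (t * Real.sqrt t)) * t := by
      refine h2.trans (le_of_eq ?_)
      ring
    exact le_of_mul_le_mul_right h4 ht
  · intro X hX hX2
    obtain ⟨c, hc, -, h3⟩ := main X hX hX2
    have hq : q4 (fun Z : gC L => Complex.log (calE μ F t w Z) - a * Qf (Z : Mt m)) X = c := by
      unfold q4
      exact hc.limUnder_eq
    rw [hq]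
    have h4 : ‖c - ((7 / 46080 * T4 E (X : Mt m) : ℝ) : ℂ)‖ * t ^ 2 ≤
        (2 * (C + C2) * (1 + A) * Real.sqrt t) * t ^ 2 := by
      rw [norm_mul, norm_pow, Complex.norm_real, Real.norm_eq_abs, abs_of_pos ht] at h3
      refine h3.trans ?_
      have h5 : 0 ≤ (C + C2) * (1 + A) * (t ^ 2 * Real.sqrt t) := by positivity
      calc (C + C2) * (1 + A) * (t ^ 2 * Real.sqrt t) ≤
          2 * ((C + C2) * (1 + A) * (t ^ 2 * Real.sqrt t)) := by linarith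
        _ = _ := by ring
    exact le_of_mul_le_mul_right h4 (by positivity)

end

end Pool.Agent.T2H04.HY
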