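import Mathlib
import Pool.Agent.T2H04.HY.Pd7
import Pool.Agent.T2H04.HY.TlE

/-!
# The two loop renormalisation group step for states (package PF)

Paper proof. `(cS S).w Z = 2 w (Z/2) - (log calE Z - a Qf Z)`, so
`lam (cS S).w = lam w / 8 - lam (q4 (log calE - a Qf))` and by `drift2` and
`T4_sum: ∑_{a,b} (T4 (E_a+E_b) + T4 (E_a-E_b) - 2 T4 E_a - 2 T4 E_b) = 10 cas² n`:
`lam (cS S).w = lam w/8 - 7 cas²/4608 + O((1+A) √t)`, `1/(cS S).t = 1/(2t) - 2a`.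
Two convolutions and the fourth power (`Two.inv`: `1/(stp S).t = 1/S.t - 4 a₁ - 8 a₂`),
`a₁ = cas/96 - t (cas²/4608 + lam/8)`, `t₁ = 2t + O(t²)`, `a₂ = cas/96 - 2t (cas²/4608 + lam₁/8)`,
`lam₁ = lam/8 - 7cas²/4608`: `-4a₁ - 8a₂ = -cas/8 + t (20 cas²/4608 + lam/2 + 2 lam₁)
= -cas/8 + t (cas²/768 + 3/4 lam)`, `4 (lam₁/8 - 7cas²/4608) = lam/16 - 7 cas²/1024`.

`T4_sum`: on the Lie algebra (inner product `⟨X,Y⟩ = Re tr(Xᴴ Y)`, `ad` skew), `T4 X = tr (ad_X⁴)`;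
`T4 (X+Y) + T4 (X-Y) - 2 T4 X - 2 T4 Y = 2 (4 tr (ad_X² ad_Y²) + 2 tr (ad_X ad_Y ad_X ad_Y))`;
`∑_a ad_a² = -cas`, `∑_a ad_a ad_Y ad_a = -(cas/2) ad_Y`: `∑_ab tr(ad_a² ad_b²) = n cas²`,
`∑_ab tr(ad_a ad_b ad_a ad_b) = n cas²/2`; total `2 (4 + 1) n cas² = 10 n cas²`.
-/

open MeasureTheory Matrix Filter
open scoped Matrix.Norms.Frobenius Topology

namespace Pool.Agent.T2H04.HY

set_option linter.unusedSectionVars false

noncomputable section

variable {G : Type} [Group G] [TopologicalSpace G] [IsTopologicalGroup G] [CompactSpace G]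
  [MeasurableSpace G] [BorelSpace G] {μ : Measure G} [μ.IsHaarMeasure] [IsProbabilityMeasure μ]
  {m : Type} [Fintype m] [DecidableEq m] {L : RD G m}

/-! ### the quartic part -/

theorem q4_eq {w : gC L → ℂ} {Z : gC L} {l : ℂ}
    (h : Tendsto (fun s : ℝ => w ((s : ℂ) • Z) / (s : ℂ) ^ 4) (𝓝[≠] 0) (𝓝 l)) : q4 w Z = l :=
  h.limUnder_eq

theorem half_tendsto : Tendsto (fun s : ℝ => s / 2) (𝓝[≠] (0 : ℝ)) (𝓝[≠] 0) := by
  refine tendsto_nhdsWithin_iff.2 ⟨?_, ?_⟩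
  · have : Tendsto (fun s : ℝ => s / 2) (𝓝 0) (𝓝 (0 / 2)) := tendsto_id.div_const 2
    rw [zero_div] at this
    exact this.mono_left nhdsWithin_le_nhds
  · filter_upwards [self_mem_nhdsWithin] with s hs
    simpa using hs

theorem q4_half {w : gC L → ℂ} {Z : gC L} {l : ℂ}
    (h : Tendsto (fun s : ℝ => w ((s : ℂ) • Z) / (s : ℂ) ^ 4) (𝓝[≠] 0) (𝓝 l)) :
    Tendsto (fun s : ℝ => w ((1 / 2 : ℂ) • ((s : ℂ) • Z)) / (s : ℂ) ^ 4) (𝓝[≠] 0) (𝓝 (l / 16)) := by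
  have h1 := (h.comp half_tendsto).div_const 16
  refine h1.congr fun s => ?_
  simp only [Function.comp_apply]
  have e1 : ((s / 2 : ℝ) : ℂ) • Z = (1 / 2 : ℂ) • ((s : ℂ) • Z) := by
    rw [smul_smul]
    congr 1
    push_cast
    ring
  rw [e1]
  push_cast
  rw [div_pow, div_div_eq_mul_div, div_div]
  by_cases hs : (s : ℂ) = 0
  · simp [hs]
  · field_simp
    ring

theorem q4_cS {S : St L} {A A1 r r' r0 : ℝ} (h : SFw L S.F S.t A r (r0 / 4) S.w)
    (h1 : SFw L (cS μ S).F (cS μ S).t A1 r' (r0 / 4) (cS μ S).w) (hr0 : 0 < r0) (hr : r0 ≤ r)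
    (hr' : r0 ≤ r') (hA : 0 ≤ A) (hA1 : 0 ≤ A1) (Z : gC L) :
    q4 (cS μ S).w Z = q4 S.w Z / 8 -
      q4 (fun Z : gC L => Complex.log (calE μ S.F S.t S.w Z) - aCo μ S * Qf (Z : Mt m)) Z := by
  have g1 := (q4_half (q4_tendsto h hr0 hr hA Z)).const_mul 2
  have g2 := q4_tendsto h1 hr0 hr' hA1 Z
  have g3 := g1.sub g2
  have g4 : q4 (fun Z : gC L => Complex.log (calE μ S.F S.t S.w Z) - aCo μ S * Qf (Z : Mt m)) Z =
      2 * (q4 S.w Z / 16) - q4 (cS μ S).w Z := by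
    refine q4_eq (g3.congr fun s => ?_)
    have e : (cS μ S).w ((s : ℂ) • Z) = 2 * S.w ((1 / 2 : ℂ) • ((s : ℂ) • Z)) -
      (Complex.log (calE μ S.F S.t S.w ((s : ℂ) • Z)) -
        aCo μ S * Qf (((s : ℂ) • Z : gC L) : Mt m)) := rfl
    rw [e]
    ring
  rw [g4]
  ring

theorem q4_four {w : gC L → ℂ} {Z : gC L}
    (h : Tendsto (fun s : ℝ => w ((s : ℂ) • Z) / (s : ℂ) ^ 4) (𝓝[≠] 0) (𝓝 (q4 w Z))) :
    q4 (fun Z => 4 * w Z) Z = 4 * q4 w Z := by
  refine q4_eq ((h.const_mul 4).congr fun s => ?_)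
  ring

/-- the change of `lam` -/
theorem lam_step {n : ℕ} (hn : 0 < n) (E : Fin n → Mt m) (hE : ∀ a, E a ∈ lieSet L)
    (orth : ∀ a b, (trace ((E a)ᴴ * E b)).re = if a = b then 1 else 0)
    (full : ∀ Y ∈ lieSet L, Y ∈ Submodule.span ℝ (Set.range E))
    (cas : ℝ) (hcas : ∀ X ∈ lieSet L, ∑ a, ‖E a * X - X * E a‖ ^ 2 = cas * ‖X‖ ^ 2)
    {w w1 l : gC L → ℂ} {e : ℝ} (h : ∀ Z, q4 w1 Z = q4 w Z / 8 - q4 l Z)
    (he : ∀ X : gC L, (X : Mt m) ∈ lieSet L → ‖X‖ ≤ 2 →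
      ‖q4 l X - ((7 / 46080 * T4 E (X : Mt m) : ℝ) : ℂ)‖ ≤ e) :
    |lam E w1 - (lam E w / 8 - 7 / 4608 * cas ^ 2)| ≤ 6 * n * e := by
  have hn' : (0 : ℝ) < n := by exact_mod_cast hn
  have hP : ∀ X Y, P4 w1 X Y = P4 w X Y / 8 - P4 l X Y := by
    intro X Y
    unfold P4
    rw [h, h, h, h]
    ring
  have hlam : lam E w1 = lam E w / 8 - lam E l := by
    unfold lam
    simp only [hP, Finset.sum_sub_distrib, ← Finset.sum_div, Complex.sub_re]
    have : ((∑ a, ∑ b, P4 w (prj L (E a)) (prj L (E b))) / 8 : ℂ).re =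
        (∑ a, ∑ b, P4 w (prj L (E a)) (prj L (E b))).re / 8 := by
      have h8 : (8 : ℂ) = ((8 : ℝ) : ℂ) := by norm_num
      rw [h8, Complex.div_ofReal_re]
    rw [this]
    ring
  have hc : ∀ a, ((prj L (E a) : gC L) : Mt m) = E a := fun a => coe_prj L (gC_of_lie L (hE a))
  have h1 : ∀ a, ‖(prj L (E a) : gC L)‖ = 1 := by
    intro a
    have e1 : ‖(prj L (E a) : gC L)‖ = ‖E a‖ := by
      have := congrArg norm (hc a)
      exact this
    rw [e1]
    have e2 : ‖E a‖ ^ 2 = 1 := by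
      rw [norm_sq_eq, orth a a, if_pos rfl]
    nlinarith [norm_nonneg (E a)]
  have key : ∀ a b, ‖P4 l (prj L (E a)) (prj L (E b)) -
      ((7 / 46080 * (T4 E (E a + E b) + T4 E (E a - E b) - 2 * T4 E (E a) - 2 * T4 E (E b)) : ℝ) :
        ℂ)‖ ≤ 6 * e := by
    intro a b
    have k1 := he (prj L (E a) + prj L (E b)) (by
      rw [Submodule.coe_add, hc, hc]; exact lie_add L (hE a) (hE b)) ((norm_add_le _ _).trans (by
        rw [h1, h1]; norm_num))
    have k2 := he (prj L (E a) - prj L (E b)) (by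
      rw [Submodule.coe_sub, hc, hc]; exact lie_sub L (hE a) (hE b)) ((norm_sub_le _ _).trans (by
        rw [h1, h1]; norm_num))
    have k3 := he (prj L (E a)) (by rw [hc]; exact hE a) (by rw [h1]; norm_num)
    have k4 := he (prj L (E b)) (by rw [hc]; exact hE b) (by rw [h1]; norm_num)
    rw [Submodule.coe_add, hc, hc] at k1
    rw [Submodule.coe_sub, hc, hc] at k2
    rw [hc] at k3 k4
    set x1 := q4 l (prj L (E a) + prj L (E b)) - ((7 / 46080 * T4 E (E a + E b) : ℝ) : ℂ)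
    set x2 := q4 l (prj L (E a) - prj L (E b)) - ((7 / 46080 * T4 E (E a - E b) : ℝ) : ℂ)
    set x3 := q4 l (prj L (E a)) - ((7 / 46080 * T4 E (E a) : ℝ) : ℂ)
    set x4 := q4 l (prj L (E b)) - ((7 / 46080 * T4 E (E b) : ℝ) : ℂ)
    have e1 : P4 l (prj L (E a)) (prj L (E b)) -
      ((7 / 46080 * (T4 E (E a + E b) + T4 E (E a - E b) - 2 * T4 E (E a) - 2 * T4 E (E b)) : ℝ) :
        ℂ) = x1 + x2 - 2 * x3 - 2 * x4 := by
      unfold P4
      simp only [x1, x2, x3, x4]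
      push_cast
      ring
    rw [e1]
    have n1 := norm_sub_le (x1 + x2 - 2 * x3) (2 * x4)
    have n2 := norm_sub_le (x1 + x2) (2 * x3)
    have n3 := norm_add_le x1 x2
    have n4 : ‖2 * x3‖ = 2 * ‖x3‖ := by rw [norm_mul]; simp
    have n5 : ‖2 * x4‖ = 2 * ‖x4‖ := by rw [norm_mul]; simp
    linarith
  have hsum : ‖∑ a, ∑ b, P4 l (prj L (E a)) (prj L (E b)) -
      ((7 / 46080 * (10 * cas ^ 2 * n) : ℝ) : ℂ)‖ ≤ n * (n * (6 * e)) := by
    rw [← alg7 E hE orth full cas hcas]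
    have e2 : ((7 / 46080 * ∑ a, ∑ b, (T4 E (E a + E b) + T4 E (E a - E b) - 2 * T4 E (E a) -
        2 * T4 E (E b)) : ℝ) : ℂ) = ∑ a, ∑ b, ((7 / 46080 * (T4 E (E a + E b) + T4 E (E a - E b) -
          2 * T4 E (E a) - 2 * T4 E (E b)) : ℝ) : ℂ) := by
      rw [Finset.mul_sum]
      simp only [Finset.mul_sum]
      push_cast
      rfl
    rw [e2, ← Finset.sum_sub_distrib]
    simp only [← Finset.sum_sub_distrib]
    refine (norm_sum_le _ _).trans ?_
    calc ∑ a : Fin n, ‖∑ b : Fin n, (P4 l (prj L (E a)) (prj L (E b)) -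
          ((7 / 46080 * (T4 E (E a + E b) + T4 E (E a - E b) - 2 * T4 E (E a) -
            2 * T4 E (E b)) : ℝ) : ℂ))‖ ≤ ∑ a : Fin n, (n * (6 * e)) := by
          refine Finset.sum_le_sum fun a _ => (norm_sum_le _ _).trans ?_
          calc _ ≤ ∑ b : Fin n, (6 * e) := Finset.sum_le_sum fun b _ => key a b
            _ = n * (6 * e) := by simp
      _ = n * (n * (6 * e)) := by simp
  have hre : |(∑ a, ∑ b, P4 l (prj L (E a)) (prj L (E b))).re - 7 / 46080 * (10 * cas ^ 2 * n)| ≤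
      n * (n * (6 * e)) := by
    have := (Complex.abs_re_le_norm _).trans hsum
    rwa [Complex.sub_re, Complex.ofReal_re] at this
  have e3 : lam E w1 - (lam E w / 8 - 7 / 4608 * cas ^ 2) =
      -(((∑ a, ∑ b, P4 l (prj L (E a)) (prj L (E b))).re - 7 / 46080 * (10 * cas ^ 2 * n)) / n) := by
    rw [hlam]
    unfold lam
    field_simp
    ring
  rw [e3, abs_neg, abs_div, abs_of_pos hn', div_le_iff₀ hn']
  linarith

theorem lam_le {n : ℕ} (hn : 0 < n) (E : Fin n → Mt m) (hE : ∀ a, E a ∈ lieSet L)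
    (orth : ∀ a b, (trace ((E a)ᴴ * E b)).re = if a = b then 1 else 0)
    {F : Mt m → ℂ} {t A r r0 : ℝ} {w : gC L → ℂ} (hw : SFw L F t A r (r0 / 4) w)
    (hr0 : 0 < r0) (hr : r0 ≤ r) (hA : 0 ≤ A) : |lam E w| ≤ 36 * n * A := by
  have hn' : (0 : ℝ) < n := by exact_mod_cast hn
  have hc : ∀ a, ((prj L (E a) : gC L) : Mt m) = E a := fun a => coe_prj L (gC_of_lie L (hE a))
  have h1 : ∀ a, ‖(prj L (E a) : gC L)‖ = 1 := by
    intro a
    have e1 : ‖(prj L (E a) : gC L)‖ = ‖E a‖ := by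
      have := congrArg norm (hc a)
      exact this
    rw [e1]
    have e2 : ‖E a‖ ^ 2 = 1 := by
      rw [norm_sq_eq, orth a a, if_pos rfl]
    nlinarith [norm_nonneg (E a)]
  have hq : ∀ X : gC L, ‖X‖ ≤ 2 → ‖q4 w X‖ ≤ 16 * A := by
    intro X hX
    refine (q4_le hw hr0 hr hA X).trans ?_
    have : ‖X‖ ^ 4 ≤ 2 ^ 4 := pow_le_pow_left₀ (norm_nonneg _) hX 4
    nlinarith
  have hq1 : ∀ a, ‖q4 w (prj L (E a))‖ ≤ A := by
    intro a
    refine (q4_le hw hr0 hr hA _).trans ?_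
    rw [h1]
    norm_num
  have key : ∀ a b, ‖P4 w (prj L (E a)) (prj L (E b))‖ ≤ 36 * A := by
    intro a b
    have k1 := hq (prj L (E a) + prj L (E b)) ((norm_add_le _ _).trans (by rw [h1, h1]; norm_num))
    have k2 := hq (prj L (E a) - prj L (E b)) ((norm_sub_le _ _).trans (by rw [h1, h1]; norm_num))
    have k3 := hq1 a
    have k4 := hq1 b
    unfold P4
    set x1 := q4 w (prj L (E a) + prj L (E b))
    set x2 := q4 w (prj L (E a) - prj L (E b))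
    set x3 := q4 w (prj L (E a))
    set x4 := q4 w (prj L (E b))
    have n1 := norm_sub_le (x1 + x2 - 2 * x3) (2 * x4)
    have n2 := norm_sub_le (x1 + x2) (2 * x3)
    have n3 := norm_add_le x1 x2
    have n4 : ‖2 * x3‖ = 2 * ‖x3‖ := by rw [norm_mul]; simp
    have n5 : ‖2 * x4‖ = 2 * ‖x4‖ := by rw [norm_mul]; simp
    linarith
  have hsum : ‖∑ a, ∑ b, P4 w (prj L (E a)) (prj L (E b))‖ ≤ n * (n * (36 * A)) := by
    refine (norm_sum_le _ _).trans ?_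
    calc ∑ a : Fin n, ‖∑ b : Fin n, P4 w (prj L (E a)) (prj L (E b))‖
        ≤ ∑ a : Fin n, (n * (36 * A)) := by
          refine Finset.sum_le_sum fun a _ => (norm_sum_le _ _).trans ?_
          calc _ ≤ ∑ b : Fin n, (36 * A) := Finset.sum_le_sum fun b _ => key a b
            _ = n * (36 * A) := by simp
      _ = n * (n * (36 * A)) := by simp
  unfold lam
  rw [abs_div, abs_of_pos hn', div_le_iff₀ hn']
  have := (Complex.abs_re_le_norm _).trans hsum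
  linarith

/-! ### arithmetic -/

theorem two_arith {t t1 s s1 A A1 a1 a2 cas k l l1 C1 C2 D D1 c : ℝ} (ht : 0 < t) (hs0 : 0 ≤ s)
    (hs1 : s ≤ 1) (hst : s ^ 2 = t) (hA : 0 ≤ A) (hAt : A * t ≤ 1 / 10) (hc : 0 ≤ c)
    (hA1 : A1 = A / 8 + c) (hk : 0 ≤ k) (hC1 : 0 ≤ C1) (hC2 : 0 ≤ C2) (hD : 0 ≤ D) (hD1 : 0 ≤ D1)
    (ht1 : 0 < t1) (ht1' : t1 ≤ 21 / 10 * t) (hs10 : 0 ≤ s1) (hs1s : s1 ≤ 2 * s)
    (e1 : 1 / t1 = 1 / (2 * t) - 2 * a1)
    (h1 : |a1 - (cas / 96 - t * (k + l / 8))| ≤ C1 * (1 + A) * (t * s))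
    (h2 : |a2 - (cas / 96 - t1 * (k + l1 / 8))| ≤ C2 * (1 + A1) * (t1 * s1))
    (hl : |l| ≤ D * A) (hl1 : |l1 - (l / 8 - 7 * k)| ≤ D1 * (1 + A) * s) :
    |-(4 * a1) - 8 * a2 + cas / 8 - t * (6 * k + 3 / 4 * l)| ≤
      (4 * C1 + 34 * C2 * (1 + c) + 9 * (|cas| + k + D + 2 * C1) * (8 * k + (D + 7 * k + D1)) +
        2 * D1) * (1 + A) * (t * s) := by
  have ht' : t ≤ 1 := by nlinarith
  have hts : t ≤ s := by nlinarith
  have hts0 : 0 ≤ t * s := by positivity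
  set K0 : ℝ := |cas| + k + D + 2 * C1 with hK0
  have hK00 : 0 ≤ K0 := by positivity
  -- the bound of a1
  have ha1 : |a1| ≤ K0 := by
    have b1 : |a1| ≤ |a1 - (cas / 96 - t * (k + l / 8))| + |cas / 96 - t * (k + l / 8)| := by
      have := abs_add_le (a1 - (cas / 96 - t * (k + l / 8))) (cas / 96 - t * (k + l / 8))
      rwa [sub_add_cancel] at this
    have b2 : |cas / 96 - t * (k + l / 8)| ≤ |cas| / 96 + (k + D / 80) := by
      refine (abs_sub _ _).trans (add_le_add ?_ ?_)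
      · rw [abs_div]
        norm_num
      · rw [abs_mul, abs_of_pos ht]
        have b3 : |k + l / 8| ≤ k + D * A / 8 := by
          refine (abs_add_le _ _).trans ?_
          rw [abs_of_nonneg hk, abs_div]
          have : |(8 : ℝ)| = 8 := by norm_num
          rw [this]
          linarith
        calc t * |k + l / 8| ≤ t * (k + D * A / 8) := mul_le_mul_of_nonneg_left b3 ht.le
          _ = t * k + D * (A * t) / 8 := by ring
          _ ≤ k + D / 80 := by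
            have b4 : t * k ≤ 1 * k := mul_le_mul_of_nonneg_right ht' hk
            have b5 : D * (A * t) ≤ D * (1 / 10) := mul_le_mul_of_nonneg_left hAt hD
            linarith
    have b6 : C1 * (1 + A) * (t * s) ≤ 2 * C1 := by
      have b7 : (1 + A) * (t * s) ≤ 2 := by
        have : (1 + A) * (t * s) = t * s + (A * t) * s := by ring
        rw [this]
        nlinarith
      calc C1 * (1 + A) * (t * s) = C1 * ((1 + A) * (t * s)) := by ring
        _ ≤ C1 * 2 := mul_le_mul_of_nonneg_left b7 hC1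
        _ = 2 * C1 := by ring
    have b8 := abs_nonneg cas
    rw [hK0]
    linarith
  -- t1 and 2 t
  have ht1e : t1 - 2 * t = 4 * a1 * (t * t1) := by
    field_simp at e1
    linarith
  have ht1b : |t1 - 2 * t| ≤ 9 * K0 * t ^ 2 := by
    rw [ht1e, abs_mul, abs_mul, abs_of_pos (mul_pos ht ht1)]
    have : |(4 : ℝ)| = 4 := by norm_num
    rw [this]
    have b1 : t * t1 ≤ t * (21 / 10 * t) := mul_le_mul_of_nonneg_left ht1' ht.le
    calc 4 * |a1| * (t * t1) ≤ 4 * K0 * (t * (21 / 10 * t)) :=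
          mul_le_mul (by linarith) b1 (by positivity) (by positivity)
      _ ≤ 9 * K0 * t ^ 2 := by nlinarith [mul_nonneg hK00 (sq_nonneg t)]
  have hA1p : 1 + A1 ≤ (1 + c) * (1 + A) := by
    rw [hA1]
    nlinarith [mul_nonneg hc hA]
  have hA10 : 0 ≤ 1 + A1 := by rw [hA1]; positivity
  have hl1b : |l1| ≤ (D + 7 * k + D1) * (1 + A) := by
    have b1 : |l1| ≤ |l1 - (l / 8 - 7 * k)| + |l / 8 - 7 * k| := by
      have := abs_add_le (l1 - (l / 8 - 7 * k)) (l / 8 - 7 * k)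
      rwa [sub_add_cancel] at this
    have b2 : |l / 8 - 7 * k| ≤ D * A / 8 + 7 * k := by
      refine (abs_sub _ _).trans (add_le_add ?_ ?_)
      · rw [abs_div]
        have : |(8 : ℝ)| = 8 := by norm_num
        rw [this]
        linarith
      · rw [abs_of_nonneg (by positivity)]
    have b3 : D1 * (1 + A) * s ≤ D1 * (1 + A) * 1 :=
      mul_le_mul_of_nonneg_left hs1 (by positivity)
    have b4 : 0 ≤ D * A := by positivity
    have b5 : 0 ≤ k * A := by positivity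
    nlinarith
  -- the decomposition
  have e : -(4 * a1) - 8 * a2 + cas / 8 - t * (6 * k + 3 / 4 * l) =
      -4 * (a1 - (cas / 96 - t * (k + l / 8))) - 8 * (a2 - (cas / 96 - t1 * (k + l1 / 8))) +
        (t1 - 2 * t) * (8 * k + l1) + 2 * t * (l1 - (l / 8 - 7 * k)) := by ring
  rw [e]
  have c1 : |-4 * (a1 - (cas / 96 - t * (k + l / 8)))| ≤ 4 * C1 * (1 + A) * (t * s) := by
    rw [abs_mul]
    have : |(-4 : ℝ)| = 4 := by norm_num
    rw [this]
    linarith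
  have c2 : |8 * (a2 - (cas / 96 - t1 * (k + l1 / 8)))| ≤ 34 * C2 * (1 + c) * (1 + A) * (t * s) := by
    rw [abs_mul]
    have : |(8 : ℝ)| = 8 := by norm_num
    rw [this]
    have d1 : t1 * s1 ≤ (21 / 10 * t) * (2 * s) := mul_le_mul ht1' hs1s hs10 (by positivity)
    have d2 : C2 * (1 + A1) * (t1 * s1) ≤ C2 * ((1 + c) * (1 + A)) * ((21 / 10 * t) * (2 * s)) :=
      mul_le_mul (mul_le_mul_of_nonneg_left hA1p hC2) d1 (by positivity) (by positivity)
    have d3 : 0 ≤ C2 * (1 + c) * (1 + A) * (t * s) := by positivity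
    calc 8 * |a2 - (cas / 96 - t1 * (k + l1 / 8))| ≤
          8 * (C2 * ((1 + c) * (1 + A)) * ((21 / 10 * t) * (2 * s))) :=
          mul_le_mul_of_nonneg_left (h2.trans d2) (by norm_num)
      _ = 168 / 5 * (C2 * (1 + c) * (1 + A) * (t * s)) := by ring
      _ ≤ 34 * (C2 * (1 + c) * (1 + A) * (t * s)) := by linarith
      _ = _ := by ring
  have c3 : |(t1 - 2 * t) * (8 * k + l1)| ≤
      9 * K0 * (8 * k + (D + 7 * k + D1)) * (1 + A) * (t * s) := by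
    rw [abs_mul]
    have d1 : |8 * k + l1| ≤ (8 * k + (D + 7 * k + D1)) * (1 + A) := by
      refine (abs_add_le _ _).trans ?_
      rw [abs_of_nonneg (by positivity : 0 ≤ 8 * k)]
      have : 0 ≤ k * A := by positivity
      nlinarith
    have d2 : t ^ 2 ≤ t * s := by nlinarith
    calc |t1 - 2 * t| * |8 * k + l1| ≤ (9 * K0 * t ^ 2) * ((8 * k + (D + 7 * k + D1)) * (1 + A)) :=
          mul_le_mul ht1b d1 (abs_nonneg _) (by positivity)
      _ ≤ (9 * K0 * (t * s)) * ((8 * k + (D + 7 * k + D1)) * (1 + A)) :=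
          mul_le_mul_of_nonneg_right (mul_le_mul_of_nonneg_left d2 (by positivity)) (by positivity)
      _ = _ := by ring
  have c4 : |2 * t * (l1 - (l / 8 - 7 * k))| ≤ 2 * D1 * (1 + A) * (t * s) := by
    rw [abs_mul, abs_of_pos (by positivity : 0 < 2 * t)]
    calc 2 * t * |l1 - (l / 8 - 7 * k)| ≤ 2 * t * (D1 * (1 + A) * s) :=
          mul_le_mul_of_nonneg_left hl1 (by positivity)
      _ = _ := by ring
  have f1 := abs_add_le (-4 * (a1 - (cas / 96 - t * (k + l / 8))) -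
    8 * (a2 - (cas / 96 - t1 * (k + l1 / 8))) + (t1 - 2 * t) * (8 * k + l1))
    (2 * t * (l1 - (l / 8 - 7 * k)))
  have f2 := abs_add_le (-4 * (a1 - (cas / 96 - t * (k + l / 8))) -
    8 * (a2 - (cas / 96 - t1 * (k + l1 / 8)))) ((t1 - 2 * t) * (8 * k + l1))
  have f3 := abs_sub (-4 * (a1 - (cas / 96 - t * (k + l / 8))))
    (8 * (a2 - (cas / 96 - t1 * (k + l1 / 8))))
  have g : (4 * C1 + 34 * C2 * (1 + c) + 9 * K0 * (8 * k + (D + 7 * k + D1)) + 2 * D1) * (1 + A) *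
      (t * s) = 4 * C1 * (1 + A) * (t * s) + 34 * C2 * (1 + c) * (1 + A) * (t * s) +
        9 * K0 * (8 * k + (D + 7 * k + D1)) * (1 + A) * (t * s) + 2 * D1 * (1 + A) * (t * s) := by
    ring
  rw [g]
  linarith

theorem lam_arith {s s1 A A1 k l l1 l2 D1 D2 c : ℝ} (hA : 0 ≤ A) (hc : 0 ≤ c)
    (hA1 : A1 = A / 8 + c) (hD2 : 0 ≤ D2) (hs10 : 0 ≤ s1) (hs0 : 0 ≤ s) (hs1s : s1 ≤ 2 * s)
    (hl1 : |l1 - (l / 8 - 7 * k)| ≤ D1 * (1 + A) * s)
    (hl2 : |l2 - (l1 / 8 - 7 * k)| ≤ D2 * (1 + A1) * s1) :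
    |4 * l2 - (l / 16 - 63 / 2 * k)| ≤ (D1 + 8 * D2 * (1 + c)) * (1 + A) * s := by
  have hA1p : 1 + A1 ≤ (1 + c) * (1 + A) := by
    rw [hA1]
    nlinarith [mul_nonneg hc hA]
  have hA10 : 0 ≤ 1 + A1 := by rw [hA1]; positivity
  have d1 : D2 * (1 + A1) * s1 ≤ D2 * ((1 + c) * (1 + A)) * (2 * s) :=
    mul_le_mul (mul_le_mul_of_nonneg_left hA1p hD2) hs1s hs10 (by positivity)
  have e : 4 * l2 - (l / 16 - 63 / 2 * k) = 4 * (l2 - (l1 / 8 - 7 * k)) +
      1 / 2 * (l1 - (l / 8 - 7 * k)) := by ring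
  rw [e]
  refine (abs_add_le _ _).trans ?_
  rw [abs_mul, abs_mul]
  have n1 : |(4 : ℝ)| = 4 := by norm_num
  have n2 : |(1 / 2 : ℝ)| = 1 / 2 := by norm_num
  rw [n1, n2]
  have h0 : 0 ≤ D1 * (1 + A) * s := (abs_nonneg _).trans hl1
  nlinarith

theorem stp_two (hs : Simple L) {D : LogData m} {δ r0 Cm : ℝ} (R : RGp μ L D δ r0 Cm)
    {n : ℕ} (hn : 0 < n) (E : Fin n → Mt m) (hE : ∀ a, E a ∈ lieSet L)
    (orth : ∀ a b, (trace ((E a)ᴴ * E b)).re = if a = b then 1 else 0)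
    (full : ∀ Y ∈ lieSet L, Y ∈ Submodule.span ℝ (Set.range E))
    (cas : ℝ) (hcas : ∀ X ∈ lieSet L, ∑ a, ‖E a * X - X * E a‖ ^ 2 = cas * ‖X‖ ^ 2) :
    ∃ C ts : ℝ, 0 < C ∧ 0 < ts ∧ ∀ (S : St L) (A : ℝ), GSt L r0 S A → S.t ≤ ts →
      |lam E S.w| ≤ C * A ∧
      |1 / (stp μ S).t - 1 / S.t + cas / 8 - S.t * (cas ^ 2 / 768 + 3 / 4 * lam E S.w)| ≤
        C * (1 + A) * (S.t * Real.sqrt S.t) ∧
      |lam E (stp μ S).w - (lam E S.w / 16 - 7 / 1024 * cas ^ 2)| ≤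
        C * (1 + A) * Real.sqrt S.t := by
  obtain ⟨C1, ts1, hC1, hts1, d1⟩ := drift2 (μ := μ) hs R.p1 R.hCm R.Cm0 R.hR hn E hE orth full
    cas hcas
  obtain ⟨C2, ts2, hC2, hts2, d2⟩ := drift2 (μ := μ) hs R.p2 R.hCm R.Cm0 R.hR hn E hE orth full
    cas hcas
  obtain ⟨ts0, hts0, hts01, T⟩ := two_spec hs R
  have hr0 := R.p1.r0_pos
  have hn' : (0 : ℝ) < n := by exact_mod_cast hn
  set c : ℝ := 512 / r0 ^ 4 with hc
  have hc0 : 0 < c := by positivity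
  set k : ℝ := cas ^ 2 / 4608 with hk
  have hk0 : 0 ≤ k := by positivity
  set Da : ℝ := 36 * n with hDa
  set Db : ℝ := 6 * n * C1 with hDb
  set Dc : ℝ := 6 * n * C2 with hDc
  have hDa0 : 0 < Da := by positivity
  have hDb0 : 0 < Db := by positivity
  have hDc0 : 0 < Dc := by positivity
  set M1 : ℝ := 4 * C1 + 34 * C2 * (1 + c) + 9 * (|cas| + k + Da + 2 * C1) *
    (8 * k + (Da + 7 * k + Db)) + 2 * Db with hM1
  set M2 : ℝ := Db + 8 * Dc * (1 + c) with hM2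
  have hM10 : 0 < M1 := by positivity
  have hM20 : 0 < M2 := by positivity
  refine ⟨Da + M1 + M2, min (min ts1 (ts2 / 3)) ts0, by positivity, by positivity,
    fun S A h htl => ?_⟩
  have a1 : S.t ≤ ts1 := htl.trans ((min_le_left _ _).trans (min_le_left _ _))
  have a2 : S.t ≤ ts2 / 3 := htl.trans ((min_le_left _ _).trans (min_le_right _ _))
  have a3 : S.t ≤ ts0 := htl.trans (min_le_right _ _)
  have W := T S A h a3
  have ht := h.p
  have hA := h.A0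
  have q1 := W.q1
  have hA1 : 0 ≤ A / 8 + c := by positivity
  have hA2 : 0 ≤ (A / 8 + c) / 8 + c := by positivity
  obtain ⟨e1, f1⟩ := d1 S.F S.t A S.w (aCo μ S) ht a1 hA h.At h.c h.sf W.l1
  obtain ⟨e2, f2⟩ := d2 (cS μ S).F (cS μ S).t (A / 8 + c) (cS μ S).w (aCo μ (cS μ S)) W.p1
    (by linarith) hA1 W.A1 W.c1 W.s1 W.l2
  have l0 := lam_le hn E hE orth h.sf hr0 le_rfl hA
  have l1 := lam_step hn E hE orth full cas hcas
    (q4_cS h.sf W.s1 hr0 le_rfl (by linarith) hA hA1) f1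
  have l2 := lam_step hn E hE orth full cas hcas
    (q4_cS W.s1 W.s2 hr0 (by linarith) le_rfl hA1 hA2) f2
  have hst : Real.sqrt S.t ^ 2 = S.t := Real.sq_sqrt ht.le
  have hs0 := Real.sqrt_nonneg S.t
  have hs1 : Real.sqrt S.t ≤ 1 := Real.sqrt_le_one.2 (a3.trans hts01)
  have hs10 := Real.sqrt_nonneg (cS μ S).t
  have hs1s : Real.sqrt (cS μ S).t ≤ 2 * Real.sqrt S.t := by
    have h3 : Real.sqrt (cS μ S).t ≤ Real.sqrt (4 * S.t) := Real.sqrt_le_sqrt (by linarith)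
    have h4 : Real.sqrt (4 * S.t) = 2 * Real.sqrt S.t := by
      rw [Real.sqrt_mul (by norm_num)]
      congr 1
      rw [show (4 : ℝ) = 2 ^ 2 by norm_num]
      exact Real.sqrt_sq (by norm_num)
    linarith
  have l1' : |lam E (cS μ S).w - (lam E S.w / 8 - 7 * k)| ≤ Db * (1 + A) * Real.sqrt S.t := by
    have g : 7 * k = 7 / 4608 * cas ^ 2 := by rw [hk]; ring
    rw [g]
    refine l1.trans (le_of_eq ?_)
    rw [hDb]
    ring
  have l2' : |lam E (cS μ (cS μ S)).w - (lam E (cS μ S).w / 8 - 7 * k)| ≤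
      Dc * (1 + (A / 8 + c)) * Real.sqrt (cS μ S).t := by
    have g : 7 * k = 7 / 4608 * cas ^ 2 := by rw [hk]; ring
    rw [g]
    refine l2.trans (le_of_eq ?_)
    rw [hDc]
    ring
  have A1 := two_arith (c := c) ht hs0 hs1 hst hA h.At hc0.le rfl hk0 hC1.le hC2.le hDa0.le
    hDb0.le W.p1 q1 hs10 hs1s W.e1 e1 e2 l0 l1'
  have A2 := lam_arith (c := c) hA hc0.le rfl hDc0.le hs10 hs0 hs1s l1' l2'
  have hlam4 : lam E (stp μ S).w = 4 * lam E (cS μ (cS μ S)).w := by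
    have hq : ∀ Z : gC L, q4 (stp μ S).w Z = 4 * q4 (cS μ (cS μ S)).w Z := fun Z =>
      q4_four (q4_tendsto W.s2 hr0 le_rfl hA2 Z)
    have hP : ∀ X Y : gC L, P4 (stp μ S).w X Y = 4 * P4 (cS μ (cS μ S)).w X Y := by
      intro X Y
      unfold P4
      rw [hq, hq, hq, hq]
      ring
    unfold lam
    simp only [hP, ← Finset.mul_sum]
    have : ∀ z : ℂ, (4 * z).re = 4 * z.re := by
      intro z
      simp
    rw [this]
    ring
  have hAs : 0 ≤ (1 + A) * Real.sqrt S.t := by positivity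
  have hAts : 0 ≤ (1 + A) * (S.t * Real.sqrt S.t) := by positivity
  refine ⟨?_, ?_, ?_⟩
  · have h1 : 0 ≤ (M1 + M2) * A := by positivity
    calc |lam E S.w| ≤ Da * A := l0
      _ ≤ (Da + M1 + M2) * A := by linarith
  · have e : 1 / (stp μ S).t - 1 / S.t + cas / 8 - S.t * (cas ^ 2 / 768 + 3 / 4 * lam E S.w) =
        -(4 * aCo μ S) - 8 * aCo μ (cS μ S) + cas / 8 - S.t * (6 * k + 3 / 4 * lam E S.w) := by
      rw [W.inv, hk]
      ring
    rw [e]
    refine A1.trans ?_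
    have h1 : 0 ≤ (Da + M2) * ((1 + A) * (S.t * Real.sqrt S.t)) := by positivity
    have g1 : M1 * (1 + A) * (S.t * Real.sqrt S.t) = M1 * ((1 + A) * (S.t * Real.sqrt S.t)) := by
      ring
    have g2 : (Da + M1 + M2) * (1 + A) * (S.t * Real.sqrt S.t) =
        M1 * ((1 + A) * (S.t * Real.sqrt S.t)) + (Da + M2) * ((1 + A) * (S.t * Real.sqrt S.t)) := by
      ring
    rw [g1, g2]
    linarith
  · have e : lam E (stp μ S).w - (lam E S.w / 16 - 7 / 1024 * cas ^ 2) =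
        4 * lam E (cS μ (cS μ S)).w - (lam E S.w / 16 - 63 / 2 * k) := by
      rw [hlam4, hk]
      ring
    rw [e]
    refine A2.trans ?_
    have h1 : 0 ≤ (Da + M1) * ((1 + A) * Real.sqrt S.t) := by positivity
    have g1 : M2 * (1 + A) * Real.sqrt S.t = M2 * ((1 + A) * Real.sqrt S.t) := by ring
    have g2 : (Da + M1 + M2) * (1 + A) * Real.sqrt S.t =
        M2 * ((1 + A) * Real.sqrt S.t) + (Da + M1) * ((1 + A) * Real.sqrt S.t) := by
      ring
    rw [g1, g2]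
    linarith

end

end Pool.Agent.T2H04.HY
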