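import Mathlib

/-!
# Two loop asymptotics of the flow (package PG), part 1
-/

open MeasureTheory Matrix Filter
open scoped Matrix.Norms.Frobenius Topology

namespace Pool.Agent.T2H04.HY

set_option linter.unusedSectionVars false

noncomputable section

/-- the two loop recursion; `lm` is the double Laplacian of the quartic part -/
structure UV3 {Q : Type} (stp : Q → Q) (tt lm : Q → ℝ) (GS : Q → ℝ → Prop) (ts C cas : ℝ) :
    Prop where
  ts_pos : 0 < ts
  C_pos : 0 < C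
  cas_pos : 0 < cas
  lam_le : ∀ S A, GS S A → |lm S| ≤ C * A
  step : ∀ S A, GS S A → tt S ≤ ts →
    |1 / tt (stp S) - 1 / tt S + cas / 8 - tt S * (cas ^ 2 / 768 + 3 / 4 * lm S)| ≤
      C * (1 + A) * (tt S * Real.sqrt (tt S)) ∧
    |lm (stp S) - (lm S / 16 - 7 / 1024 * cas ^ 2)| ≤ C * (1 + A) * Real.sqrt (tt S)

/-- the two loop time -/
def Psi (cas u : ℝ) : ℝ := 8 / cas * u - 4 / 15 * Real.log u

namespace Tg

/-- convexity of `u ↦ u ^ (-1/2)` -/
theorem sqrt_gain {a b : ℝ} (ha : 0 < a) (hb : 0 < b) :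
    1 / 2 * (1 / a ^ 2 - 1 / b ^ 2) * a ^ 3 ≤ b - a := by
  have e : b - a - 1 / 2 * (1 / a ^ 2 - 1 / b ^ 2) * a ^ 3 =
      (b - a) ^ 2 * (2 * b + a) / (2 * b ^ 2) := by
    field_simp
    ring
  have : 0 ≤ (b - a) ^ 2 * (2 * b + a) / (2 * b ^ 2) := by positivity
  linarith

/-- the step of the corrected inverse coupling -/
theorem core_step {cas C D A t t' l l' : ℝ} (hC : 0 ≤ C) (hD : 0 ≤ D)
    (ht : 0 < t) (ht' : 0 < t') (hA : 0 ≤ A)
    (h1 : |1 / t' - 1 / t + cas / 8 - t * (cas ^ 2 / 768 + 3 / 4 * l)| ≤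
      C * (1 + A) * (t * Real.sqrt t))
    (h2 : |l' - (l / 16 - 7 / 1024 * cas ^ 2)| ≤ C * (1 + A) * Real.sqrt t)
    (h3 : |l| ≤ C * A) (h4 : |1 / t' - 1 / t| ≤ D) (h5 : t ≤ 1) (h6 : 2 * D * t ≤ 1) :
    t' ≤ 2 * t ∧ |(1 / t' + 4 / 5 * (l' * t')) - (1 / t + 4 / 5 * (l * t)) + cas / 8 +
      cas ^ 2 / 240 * t| ≤ (3 * C + 2 * D * (C + cas ^ 2)) * (1 + A) * (t * Real.sqrt t) := by
  have hs : 0 ≤ Real.sqrt t := Real.sqrt_nonneg t
  have hss : Real.sqrt t * Real.sqrt t = t := Real.mul_self_sqrt ht.le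
  have hs1 : t ≤ Real.sqrt t := by
    rw [Real.le_sqrt' ht]; nlinarith
  -- t' ≤ 2 t
  have k1 : t' ≤ 2 * t := by
    have e1 : 1 / t - D ≤ 1 / t' := by have := (abs_le.1 h4).1; linarith
    have e2 : D ≤ 1 / (2 * t) := by
      rw [le_div_iff₀ (by positivity)]; linarith
    have e3 : 1 / (2 * t) ≤ 1 / t' := by
      have : 1 / t = 1 / (2 * t) + 1 / (2 * t) := by field_simp; norm_num
      linarith
    exact (one_div_le_one_div (by positivity) ht').1 e3
  refine ⟨k1, ?_⟩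
  have k2 : |t' - t| ≤ 2 * D * t ^ 2 := by
    have e1 : t' - t = t * t' * (-(1 / t' - 1 / t)) := by field_simp; ring
    rw [e1, abs_mul, abs_neg, abs_of_pos (mul_pos ht ht')]
    calc t * t' * |1 / t' - 1 / t| ≤ t * (2 * t) * D := by
          refine mul_le_mul (mul_le_mul_of_nonneg_left k1 ht.le) h4 (abs_nonneg _) (by positivity)
      _ = 2 * D * t ^ 2 := by ring
  have k3 : |l / 16 - 7 / 1024 * cas ^ 2| ≤ (C + cas ^ 2) * (1 + A) := by
    have e1 : |l / 16 - 7 / 1024 * cas ^ 2| ≤ |l| + cas ^ 2 := by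
      rcases abs_cases l with ⟨h, _⟩ | ⟨h, _⟩ <;> rw [h, abs_le] <;> constructor <;> nlinarith [sq_nonneg cas]
    nlinarith [mul_nonneg hC hA, mul_nonneg (sq_nonneg cas) hA, sq_nonneg cas]
  have e : (1 / t' + 4 / 5 * (l' * t')) - (1 / t + 4 / 5 * (l * t)) + cas / 8 +
      cas ^ 2 / 240 * t = (1 / t' - 1 / t + cas / 8 - t * (cas ^ 2 / 768 + 3 / 4 * l)) +
      4 / 5 * ((l' - (l / 16 - 7 / 1024 * cas ^ 2)) * t') +
      4 / 5 * ((l / 16 - 7 / 1024 * cas ^ 2) * (t' - t)) := by ring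
  rw [e]
  have b1 : |(l' - (l / 16 - 7 / 1024 * cas ^ 2)) * t'| ≤ 2 * (C * (1 + A) * (t * Real.sqrt t)) := by
    rw [abs_mul, abs_of_pos ht']
    calc _ ≤ C * (1 + A) * Real.sqrt t * (2 * t) :=
          mul_le_mul h2 k1 ht'.le (by positivity)
      _ = _ := by ring
  have b2 : |(l / 16 - 7 / 1024 * cas ^ 2) * (t' - t)| ≤
      2 * D * (C + cas ^ 2) * (1 + A) * (t * Real.sqrt t) := by
    rw [abs_mul]
    calc _ ≤ (C + cas ^ 2) * (1 + A) * (2 * D * t ^ 2) :=
          mul_le_mul k3 k2 (abs_nonneg _) (by positivity)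
      _ = 2 * D * (C + cas ^ 2) * (1 + A) * (t * t) := by ring
      _ ≤ _ := by
          refine mul_le_mul_of_nonneg_left (mul_le_mul_of_nonneg_left hs1 ht.le) (by positivity)
  have b1' : 0 ≤ C * (1 + A) * (t * Real.sqrt t) := by positivity
  have b2' : 0 ≤ 2 * D * (C + cas ^ 2) * (1 + A) * (t * Real.sqrt t) := by positivity
  rw [abs_le] at h1 b1 b2 ⊢
  constructor <;> linarith [h1.1, h1.2, b1.1, b1.2, b2.1, b2.2]

theorem psi_lip {cas x y : ℝ} (hcas : 0 < cas) (hx : 1 ≤ x) (hy : 1 ≤ y) :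
    |Psi cas x - Psi cas y| ≤ (8 / cas + 1) * |x - y| := by
  have key : ∀ x y : ℝ, 1 ≤ x → 1 ≤ y → Real.log x - Real.log y ≤ |x - y| := by
    intro x y hx hy
    have hx0 : 0 < x := by linarith
    have hy0 : 0 < y := by linarith
    rw [← Real.log_div hx0.ne' hy0.ne']
    have h1 := Real.log_le_sub_one_of_pos (div_pos hx0 hy0)
    have h2 : x / y - 1 = (x - y) / y := by field_simp
    rw [h2] at h1
    refine h1.trans ?_
    calc (x - y) / y ≤ |x - y| / y := by gcongr; exact le_abs_self _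
      _ ≤ |x - y| := div_le_self (abs_nonneg _) hy
  have h1 := key x y hx hy
  have h2 := key y x hy hx
  rw [abs_sub_comm y x] at h2
  have e : Psi cas x - Psi cas y = 8 / cas * (x - y) - 4 / 15 * (Real.log x - Real.log y) := by
    unfold Psi; ring
  rw [e]
  have h3 : |8 / cas * (x - y)| ≤ 8 / cas * |x - y| := by
    rw [abs_mul, abs_of_pos (by positivity : 0 < 8 / cas)]
  have h4 : |Real.log x - Real.log y| ≤ |x - y| := by
    rw [abs_le]; constructor <;> linarith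
  have h5 := abs_nonneg (x - y)
  rw [abs_le] at h3 h4 ⊢
  constructor <;> nlinarith

theorem log_one_add_bd {x : ℝ} (hx : |x| ≤ 1 / 2) : |Real.log (1 + x) - x| ≤ 2 * x ^ 2 := by
  have h := abs_le.1 hx
  have h0 : 0 < 1 + x := by linarith
  have h1 := Real.log_le_sub_one_of_pos h0
  have h2 : 1 - (1 + x)⁻¹ ≤ Real.log (1 + x) := Real.one_sub_inv_le_log_of_pos h0
  have h3 : x - 2 * x ^ 2 ≤ 1 - (1 + x)⁻¹ := by
    rw [le_sub_comm, inv_le_iff_one_le_mul₀ h0]
    nlinarith [sq_nonneg x, mul_nonneg (sq_nonneg x) (by linarith : 0 ≤ 1 + 2 * x)]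
  rw [abs_le]
  constructor <;> nlinarith [sq_nonneg x]

theorem psi_step {cas K1 C t l w w' A : ℝ} (hcas : 0 < cas) (hK1 : 0 ≤ K1) (hC : 0 ≤ C)
    (ht : 0 < t) (hA : 0 ≤ A) (hAt : A * t ≤ 1 / 10) (hw : w = 1 / t + 4 / 5 * (l * t))
    (h3 : |l| ≤ C * A)
    (h : |w' - w + cas / 8 + cas ^ 2 / 240 * t| ≤ K1 * (1 + A) * (t * Real.sqrt t))
    (h5 : t ≤ 1) (h6 : C * t ≤ 1) (h7 : 4 * (cas + cas ^ 2 + 2 * K1) * t ≤ 1) :
    |Psi cas w' - Psi cas w + 1| ≤
      (8 / cas * K1 + 8 * (cas + cas ^ 2 + 2 * K1) ^ 2 + 2 * (cas ^ 2 + K1) + cas * C) *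
        (1 + A) * (t * Real.sqrt t) := by
  have hs : 0 ≤ Real.sqrt t := Real.sqrt_nonneg t
  have hs1 : t ≤ Real.sqrt t := by
    rw [Real.le_sqrt' ht]; nlinarith
  have hs2 : Real.sqrt t ≤ 1 := by
    rw [Real.sqrt_le_one]; exact h5
  have hAt0 : 0 ≤ A * t := by positivity
  have hcc : 0 ≤ cas ^ 2 := sq_nonneg cas
  set Kw := cas + cas ^ 2 + 2 * K1 with hKw
  have hKw0 : 0 < Kw := by positivity
  -- the size of w
  have hlt : |l * t| ≤ C / 10 := by
    rw [abs_mul, abs_of_pos ht]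
    calc |l| * t ≤ C * A * t := mul_le_mul_of_nonneg_right h3 ht.le
      _ = C * (A * t) := by ring
      _ ≤ C * (1 / 10) := mul_le_mul_of_nonneg_left hAt hC
      _ = C / 10 := by ring
  have hu : C ≤ 1 / t := by rw [le_div_iff₀ ht]; exact h6
  have hu0 : 0 < 1 / t := by positivity
  have hw1 : 1 / (2 * t) ≤ w := by
    have e1 : 1 / t = 1 / (2 * t) + 1 / (2 * t) := by field_simp; norm_num
    have := (abs_le.1 hlt).1
    rw [hw]
    linarith
  have hw0 : 0 < w := lt_of_lt_of_le (by positivity) hw1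
  have hwi : 1 / w ≤ 2 * t := by
    rw [div_le_iff₀ hw0]
    rw [div_le_iff₀ (by positivity)] at hw1
    linarith
  have hwi0 : 0 < 1 / w := by positivity
  -- the size of the step
  have hst : (1 + A) * (t * Real.sqrt t) ≤ 2 := by
    have e1 : (1 + A) * (t * Real.sqrt t) = (t + A * t) * Real.sqrt t := by ring
    rw [e1]
    calc (t + A * t) * Real.sqrt t ≤ 2 * 1 :=
          mul_le_mul (by linarith) hs2 hs (by norm_num)
      _ = 2 := by norm_num
  have hd : |w' - w| ≤ Kw := by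
    have e1 : K1 * (1 + A) * (t * Real.sqrt t) ≤ 2 * K1 := by
      rw [mul_assoc]; nlinarith
    have e2 : cas ^ 2 / 240 * t ≤ cas ^ 2 / 240 * 1 := mul_le_mul_of_nonneg_left h5 (by positivity)
    have e3 : 0 ≤ cas ^ 2 / 240 * t := by positivity
    have := abs_le.1 (h.trans e1)
    rw [abs_le]
    constructor <;> linarith [this.1, this.2]
  obtain ⟨x, hx⟩ : ∃ x, x = (w' - w) / w := ⟨_, rfl⟩
  have hxb : |x| ≤ 2 * Kw * t := by
    rw [hx, abs_div, abs_of_pos hw0, div_eq_mul_one_div]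
    calc |w' - w| * (1 / w) ≤ Kw * (2 * t) := mul_le_mul hd hwi hwi0.le hKw0.le
      _ = 2 * Kw * t := by ring
  have hx2 : |x| ≤ 1 / 2 := by linarith
  have hw' : w' = w * (1 + x) := by rw [hx]; field_simp; ring
  have hx1 : 0 < 1 + x := by have := (abs_le.1 hx2).1; linarith
  have hlog : Real.log w' - Real.log w = Real.log (1 + x) := by
    rw [hw', Real.log_mul hw0.ne' hx1.ne']; ring
  have b1 : |Real.log w' - Real.log w - x| ≤ 8 * Kw ^ 2 * t ^ 2 := by
    rw [hlog]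
    refine (log_one_add_bd hx2).trans ?_
    have : x ^ 2 ≤ (2 * Kw * t) ^ 2 := by
      rw [← sq_abs x]; exact pow_le_pow_left₀ (abs_nonneg x) hxb 2
    nlinarith
  have b2 : |w' - w + cas / 8| ≤ (cas ^ 2 + K1) * (1 + A) * t := by
    have e1 : K1 * (1 + A) * (t * Real.sqrt t) ≤ K1 * (1 + A) * (t * 1) :=
      mul_le_mul_of_nonneg_left (mul_le_mul_of_nonneg_left hs2 ht.le) (by positivity)
    have e2 : 0 ≤ cas ^ 2 * A * t := by positivity
    have e3 : 0 ≤ cas ^ 2 * t := by positivity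
    have := abs_le.1 (h.trans e1)
    rw [abs_le]
    constructor <;> nlinarith [this.1, this.2]
  have b3 : |1 / w - t| ≤ 2 * C * (1 + A) * t ^ 2 := by
    have hww : w * (1 / w) = 1 := by field_simp
    have htw : t * w = 1 + 4 / 5 * (l * t) * t := by rw [hw]; field_simp
    have e1 : 1 / w - t = -(4 / 5 * (l * t) * t * (1 / w)) := by
      have h1 : 1 / w - t = (1 - t * w) * (1 / w) := by
        rw [sub_mul, mul_assoc, hww]; ring
      rw [h1, htw]; ring
    rw [e1, abs_neg, abs_mul, abs_mul, abs_mul, abs_of_pos hwi0, abs_of_pos ht,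
      abs_of_pos (by norm_num : (0 : ℝ) < 4 / 5), abs_mul, abs_of_pos ht]
    calc 4 / 5 * (|l| * t) * t * (1 / w) ≤ 4 / 5 * (C * A * t) * t * (2 * t) := by
          refine mul_le_mul ?_ hwi hwi0.le (by positivity)
          refine mul_le_mul_of_nonneg_right ?_ ht.le
          exact mul_le_mul_of_nonneg_left (mul_le_mul_of_nonneg_right h3 ht.le) (by norm_num)
      _ = (8 / 5 * t) * (C * A * t ^ 2) := by ring
      _ ≤ 2 * (C * A * t ^ 2) := mul_le_mul_of_nonneg_right (by linarith) (by positivity)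
      _ ≤ 2 * C * (1 + A) * t ^ 2 := by nlinarith [mul_nonneg hC (sq_nonneg t)]
  have b4 : |x + cas / 8 * t| ≤ (2 * (cas ^ 2 + K1) + cas * C) * (1 + A) * t ^ 2 := by
    have e1 : x + cas / 8 * t = (w' - w + cas / 8) * (1 / w) - cas / 8 * (1 / w - t) := by
      rw [hx]; ring
    have e2 : |(w' - w + cas / 8) * (1 / w)| ≤ (cas ^ 2 + K1) * (1 + A) * t * (2 * t) := by
      rw [abs_mul, abs_of_pos hwi0]
      exact mul_le_mul b2 hwi hwi0.le (by positivity)
    have e3 : |cas / 8 * (1 / w - t)| ≤ cas / 8 * (2 * C * (1 + A) * t ^ 2) := by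
      rw [abs_mul, abs_of_pos (by positivity : 0 < cas / 8)]
      exact mul_le_mul_of_nonneg_left b3 (by positivity)
    have e4 : 0 ≤ cas * C * (1 + A) * t ^ 2 := by positivity
    rw [e1]
    rw [abs_le] at e2 e3 ⊢
    constructor <;> nlinarith [e2.1, e2.2, e3.1, e3.2]
  have hts : t ^ 2 ≤ t * Real.sqrt t := by rw [sq]; exact mul_le_mul_of_nonneg_left hs1 ht.le
  have hts0 : 0 ≤ t * Real.sqrt t := by positivity
  have c1 : 8 * Kw ^ 2 * t ^ 2 ≤ 8 * Kw ^ 2 * (1 + A) * (t * Real.sqrt t) := by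
    have : 0 ≤ 8 * Kw ^ 2 := by positivity
    calc 8 * Kw ^ 2 * t ^ 2 ≤ 8 * Kw ^ 2 * (t * Real.sqrt t) := mul_le_mul_of_nonneg_left hts this
      _ ≤ 8 * Kw ^ 2 * (1 + A) * (t * Real.sqrt t) := by
        refine mul_le_mul_of_nonneg_right ?_ hts0
        nlinarith
  have c2 : (2 * (cas ^ 2 + K1) + cas * C) * (1 + A) * t ^ 2 ≤
      (2 * (cas ^ 2 + K1) + cas * C) * (1 + A) * (t * Real.sqrt t) :=
    mul_le_mul_of_nonneg_left hts (by positivity)
  have e : Psi cas w' - Psi cas w + 1 = 8 / cas * (w' - w + cas / 8 + cas ^ 2 / 240 * t) -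
      4 / 15 * ((Real.log w' - Real.log w - x) + (x + cas / 8 * t)) := by
    unfold Psi
    field_simp
    ring
  have f1 : |8 / cas * (w' - w + cas / 8 + cas ^ 2 / 240 * t)| ≤
      8 / cas * (K1 * (1 + A) * (t * Real.sqrt t)) := by
    rw [abs_mul, abs_of_pos (by positivity : 0 < 8 / cas)]
    exact mul_le_mul_of_nonneg_left h (by positivity)
  have f2 := abs_le.1 (b1.trans c1)
  have f3 := abs_le.1 (b4.trans c2)
  have f4 : 0 ≤ 8 * Kw ^ 2 * (1 + A) * (t * Real.sqrt t) := by positivity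
  have f5 : 0 ≤ (2 * (cas ^ 2 + K1) + cas * C) * (1 + A) * (t * Real.sqrt t) := by positivity
  rw [e]
  have g : (8 / cas * K1 + 8 * Kw ^ 2 + 2 * (cas ^ 2 + K1) + cas * C) * (1 + A) *
      (t * Real.sqrt t) = 8 / cas * (K1 * (1 + A) * (t * Real.sqrt t)) +
      8 * Kw ^ 2 * (1 + A) * (t * Real.sqrt t) +
      (2 * (cas ^ 2 + K1) + cas * C) * (1 + A) * (t * Real.sqrt t) := by ring
  rw [g]
  rw [abs_le] at f1 ⊢
  constructor <;> linarith [f1.1, f1.2, f2.1, f2.2, f3.1, f3.2]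

end Tg

end

end Pool.Agent.T2H04.HY
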