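import Mathlib
import Pool.Agent.T2H04.HY.TlGa

/-!
# Two loop asymptotics of the flow (package PG), part 2
-/

open MeasureTheory Matrix Filter
open scoped Matrix.Norms.Frobenius Topology

namespace Pool.Agent.T2H04.HY

set_option linter.unusedSectionVars false

noncomputable section

namespace Tg

/-- the potential function -/
theorem pot_step {K C a0 α A A' t t' : ℝ} (hK : 0 < K) (hC : 0 < C) (ha0 : 0 < a0)
    (hα : α = (4 * K + 12 * K * C) / a0 + K) (ht : 0 < t) (ht' : 0 < t') (hA : 0 ≤ A)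
    (hA' : A' = A / 16 + C) (hd : |1 / t' - 1 / t + a0| ≤ C * (Real.sqrt t + A * t))
    (h2 : t' ≤ 2 * t) (hs1 : α * C * Real.sqrt t ≤ K) (hs2 : α * C * t ≤ K) :
    K * (1 + A) * (t * Real.sqrt t) ≤
      (α * Real.sqrt t' - 2 * K * A' * (t' * Real.sqrt t')) -
        (α * Real.sqrt t - 2 * K * A * (t * Real.sqrt t)) := by
  have hα0 : 0 < α := by rw [hα]; positivity
  obtain ⟨a, ha⟩ : ∃ a, a = Real.sqrt t := ⟨_, rfl⟩
  obtain ⟨b, hb⟩ : ∃ b, b = Real.sqrt t' := ⟨_, rfl⟩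
  have ha0' : 0 < a := by rw [ha]; exact Real.sqrt_pos.2 ht
  have hb0' : 0 < b := by rw [hb]; exact Real.sqrt_pos.2 ht'
  have hta : t = a ^ 2 := by rw [ha, Real.sq_sqrt ht.le]
  have htb : t' = b ^ 2 := by rw [hb, Real.sq_sqrt ht'.le]
  rw [← ha] at hd hs1
  rw [← ha, ← hb]
  rw [hta, htb] at hd
  rw [hta] at hs2
  rw [hta, htb] at h2 ⊢
  have g1 := sqrt_gain ha0' hb0'
  have g2 := (abs_le.1 hd).2
  have g3 : a0 - C * (a + A * a ^ 2) ≤ 1 / a ^ 2 - 1 / b ^ 2 := by linarith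
  have g4 : α * (1 / 2 * (a0 - C * (a + A * a ^ 2)) * a ^ 3) ≤ α * (b - a) := by
    refine mul_le_mul_of_nonneg_left (le_trans ?_ g1) hα0.le
    refine mul_le_mul_of_nonneg_right ?_ (by positivity)
    linarith
  have g5 : b ^ 3 ≤ 3 * a ^ 3 := by
    have e1 : b ≤ 3 / 2 * a := by
      by_contra hc
      rw [not_le] at hc
      nlinarith
    have e2 : b ^ 2 * b ≤ 2 * a ^ 2 * (3 / 2 * a) :=
      mul_le_mul h2 e1 hb0'.le (by positivity)
    nlinarith
  have g6 : 2 * K * A' * b ^ 3 ≤ 2 * K * (A / 16 + C) * (3 * a ^ 3) := by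
    rw [hA']
    exact mul_le_mul_of_nonneg_left g5 (by positivity)
  have g7 : α * a0 = 4 * K + 12 * K * C + K * a0 := by rw [hα]; field_simp
  have ha3 : 0 < a ^ 3 := by positivity
  have g8 : K * (1 + A) * a ^ 3 ≤ α * (1 / 2 * (a0 - C * (a + A * a ^ 2)) * a ^ 3) -
      2 * K * (A / 16 + C) * (3 * a ^ 3) + 2 * K * A * a ^ 3 := by
    have e : α * (1 / 2 * (a0 - C * (a + A * a ^ 2)) * a ^ 3) -
      2 * K * (A / 16 + C) * (3 * a ^ 3) + 2 * K * A * a ^ 3 =
      (1 / 2 * (α * a0) - 1 / 2 * (α * C * a) - 1 / 2 * A * (α * C * a ^ 2) -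
        6 * K * (A / 16 + C) + 2 * K * A) * a ^ 3 := by ring
    rw [e, g7]
    refine mul_le_mul_of_nonneg_right ?_ ha3.le
    have e1 : A * (α * C * a ^ 2) ≤ A * K := mul_le_mul_of_nonneg_left hs2 hA
    have e2 : 0 ≤ K * A := by positivity
    have e3 : 0 ≤ K * a0 := by positivity
    nlinarith
  have e3 : a ^ 2 * a = a ^ 3 := by ring
  have e4 : b ^ 2 * b = b ^ 3 := by ring
  rw [e3, e4]
  linarith

/-- the flow -/
theorem flow_abs {cas C C3 : ℝ} (hcas : 0 < cas) (hC : 0 < C) (hC3 : 0 < C3) :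
    ∃ α ts : ℝ, 0 < α ∧ 0 < ts ∧ ∀ (t l A : ℕ → ℝ) (N : ℕ),
      (∀ i ≤ N, 0 < t i ∧ t i ≤ ts ∧ 0 ≤ A i ∧ A i * t i ≤ 1 / 10 ∧ |l i| ≤ C3 * A i) →
      (∀ i < N, |1 / t (i + 1) - 1 / t i + cas / 8 - t i * (cas ^ 2 / 768 + 3 / 4 * l i)| ≤
          C3 * (1 + A i) * (t i * Real.sqrt (t i)) ∧
        |l (i + 1) - (l i / 16 - 7 / 1024 * cas ^ 2)| ≤ C3 * (1 + A i) * Real.sqrt (t i) ∧
        A (i + 1) = A i / 16 + C ∧
        |1 / t (i + 1) - 1 / t i + cas / 8| ≤ C * (Real.sqrt (t i) + A i * t i)) →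
      |Psi cas (1 / t 0 + 4 / 5 * (l 0 * t 0)) - N - Psi cas (1 / t N + 4 / 5 * (l N * t N))| ≤
        α * Real.sqrt (t N) := by
  set D := cas / 8 + 2 * C with hD
  have hD0 : 0 < D := by positivity
  set K1 := 3 * C3 + 2 * D * (C3 + cas ^ 2) with hK1
  have hK10 : 0 < K1 := by positivity
  set K := 8 / cas * K1 + 8 * (cas + cas ^ 2 + 2 * K1) ^ 2 + 2 * (cas ^ 2 + K1) + cas * C3 with hKd
  have hK : 0 < K := by positivity
  have ha0 : 0 < cas / 8 := by positivity
  set α := (4 * K + 12 * K * C) / (cas / 8) + K with hα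
  have hα0 : 0 < α := by positivity
  have hKα : K ≤ α := by
    have : 0 ≤ (4 * K + 12 * K * C) / (cas / 8) := by positivity
    linarith
  set ts := min (min 1 (1 / (2 * D))) (min (min (1 / C3) (1 / (4 * (cas + cas ^ 2 + 2 * K1))))
    ((K / (α * C)) ^ 2)) with hts
  have hts0 : 0 < ts := by positivity
  have s1 : ts ≤ 1 := (min_le_left _ _).trans (min_le_left _ _)
  have s2 : ts ≤ 1 / (2 * D) := (min_le_left _ _).trans (min_le_right _ _)
  have s3 : ts ≤ 1 / C3 := (min_le_right _ _).trans ((min_le_left _ _).trans (min_le_left _ _))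
  have s4 : ts ≤ 1 / (4 * (cas + cas ^ 2 + 2 * K1)) :=
    (min_le_right _ _).trans ((min_le_left _ _).trans (min_le_right _ _))
  have s5 : ts ≤ (K / (α * C)) ^ 2 := (min_le_right _ _).trans (min_le_right _ _)
  refine ⟨α, ts, hα0, hts0, fun t l A N h1 h2 => ?_⟩
  have key : ∀ i ≤ N, |Psi cas (1 / t 0 + 4 / 5 * (l 0 * t 0)) - i -
      Psi cas (1 / t i + 4 / 5 * (l i * t i))| ≤
      α * Real.sqrt (t i) - 2 * K * A i * (t i * Real.sqrt (t i)) := by
    intro i
    induction i with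
    | zero =>
      intro hi
      obtain ⟨e1, e2, e3, e4, e5⟩ := h1 0 hi
      rw [Nat.cast_zero, sub_zero, sub_self, abs_zero]
      have e6 : 2 * K * A 0 * (t 0 * Real.sqrt (t 0)) = 2 * K * (A 0 * t 0) * Real.sqrt (t 0) := by
        ring
      rw [e6, ← sub_mul]
      refine mul_nonneg ?_ (Real.sqrt_nonneg _)
      nlinarith
    | succ i ih =>
      intro hi
      have ih' := ih (by omega)
      obtain ⟨e1, e2, e3, e4, e5⟩ := h1 i (by omega)
      obtain ⟨f1, f2, f3, f4, f5⟩ := h1 (i + 1) hi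
      obtain ⟨g1, g2, g3, g4⟩ := h2 i (by omega)
      have r1 : t i ≤ 1 := e2.trans s1
      have hsq : Real.sqrt (t i) ≤ 1 := by rw [Real.sqrt_le_one]; exact r1
      have hDd : |1 / t (i + 1) - 1 / t i| ≤ D := by
        have k1 : C * (Real.sqrt (t i) + A i * t i) ≤ C * (1 + 1) :=
          mul_le_mul_of_nonneg_left (by linarith) hC.le
        have k2 := abs_le.1 (g4.trans k1)
        rw [abs_le, hD]
        constructor <;> linarith [k2.1, k2.2]
      have r2 : 2 * D * t i ≤ 1 := by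
        have := e2.trans s2
        rw [le_div_iff₀ (by positivity)] at this
        linarith
      have r3 : C3 * t i ≤ 1 := by
        have := e2.trans s3
        rw [le_div_iff₀ hC3] at this
        linarith
      have r4 : 4 * (cas + cas ^ 2 + 2 * K1) * t i ≤ 1 := by
        have := e2.trans s4
        rw [le_div_iff₀ (by positivity)] at this
        linarith
      have r5 : α * C * Real.sqrt (t i) ≤ K := by
        have k1 := e2.trans s5
        have k2 : Real.sqrt (t i) ≤ K / (α * C) := Real.sqrt_le_iff.2 ⟨by positivity, k1⟩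
        rw [le_div_iff₀ (by positivity)] at k2
        linarith
      have r6 : α * C * t i ≤ K := by
        refine le_trans (mul_le_mul_of_nonneg_left ?_ (by positivity)) r5
        rw [Real.le_sqrt' e1]
        nlinarith
      obtain ⟨p1, p2⟩ := core_step hC3.le hD0.le e1 f1 e3 g1 g2 e5 hDd r1 r2
      have p3 := psi_step hcas hK10.le hC3.le e1 e3 e4 rfl e5 p2 r1 r3 r4
      have p4 := pot_step hK hC ha0 hα e1 f1 e3 g3 g4 p1 r5 r6
      rw [← hKd] at p3
      have p5 := abs_le.1 p3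
      have p6 := abs_le.1 ih'
      push_cast
      rw [abs_le]
      constructor <;> linarith [p5.1, p5.2, p6.1, p6.2]
  obtain ⟨e1, e2, e3, e4, e5⟩ := h1 N le_rfl
  refine (key N le_rfl).trans ?_
  have : 0 ≤ 2 * K * A N * (t N * Real.sqrt (t N)) := by positivity
  linarith

end Tg

end

end Pool.Agent.T2H04.HY
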