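import Mathlib
import Pool.Agent.T2H04.HY.Uq

/-!
# Two loop asymptotics of the flow (package PG), part 3
-/

open MeasureTheory Matrix Filter
open scoped Matrix.Norms.Frobenius Topology

namespace Pool.Agent.T2H04.HY

set_option linter.unusedSectionVars false

noncomputable section

variable {G : Type} [Group G] [TopologicalSpace G] [IsTopologicalGroup G] [CompactSpace G]
  [MeasurableSpace G] [BorelSpace G] (μ : Measure G) [μ.IsHaarMeasure] [IsProbabilityMeasure μ]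
  {m : Type} [Fintype m] [DecidableEq m] (L : RD G m)

/-- The inverse couplings of two sequences with the same limit of the running coupling approach
each other at every fixed distance from the end. -/
theorem uniq' (hconn : IsConnected (Set.univ : Set G)) (hne : ∃ X ∈ lieSet L, X ≠ 0)
    (Good : (G → ℝ) → ℝ → ℝ → Prop) (ts0 C0 ρs c0 a0 d0 : ℝ) (p : ℕ)
    (uv : UV μ L Good ts0 C0 ρs c0 a0 d0 p)
    {Q : Type} (stp : Q → Q) (den : Q → G → ℝ) (tt : Q → ℝ) (GS : Q → ℝ → Prop)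
    (Ds : Q → Q → ℝ → Prop) (ts C c : ℝ) (uv2 : UV2 μ L stp den tt GS Ds ts C c a0 d0)
    (hG : ∀ S A, GS S A → Good (den S) (tt S) A) (hts : ts ≤ ts0) {td : ℝ} (htd : 0 < td) :
    ∃ t1 : ℝ, 0 < t1 ∧ t1 ≤ td ∧ t1 ≤ ts ∧ C * (Real.sqrt t1 + 2 * C * t1) ≤ a0 / 2 ∧
    ∃ κ1 : ℝ, 0 < κ1 ∧ ∀ κ : ℝ, 0 < κ → κ ≤ κ1 →
      ∀ (S S' : ℕ → Q) (A A' : ℕ → ℝ) (n n' : ℕ → ℕ), (∀ j, GS (S j) (A j)) →
        (∀ j, GS (S' j) (A' j)) → Tendsto (fun j => tt (S j)) atTop (𝓝 0) →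
        Tendsto (fun j => tt (S' j)) atTop (𝓝 0) →
        Tendsto (fun j => g2 μ L ((mk μ)^[n j] (den (S j)))) atTop (𝓝 κ) →
        Tendsto (fun j => g2 μ L ((mk μ)^[n' j] (den (S' j)))) atTop (𝓝 κ) →
        (∀ J, ∀ᶠ j in atTop,
          Uq.RE μ stp den tt GS C a0 t1 (2 * C / κ) (Uq.Ck ts C a0) (S j) (n j) J) ∧
        (∀ J, ∀ᶠ j in atTop,
          Uq.RE μ stp den tt GS C a0 t1 (2 * C / κ) (Uq.Ck ts C a0) (S' j) (n' j) J) ∧
        (∀ᶠ j in atTop, ∀ i ≤ n j, GS (stp^[i] (S j)) (Uq.AA C (A j) i) ∧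
          tt (stp^[i] (S j)) < t1) ∧
        (∀ᶠ j in atTop, ∀ i ≤ n' j, GS (stp^[i] (S' j)) (Uq.AA C (A' j) i) ∧
          tt (stp^[i] (S' j)) < t1) ∧
        ∀ l : ℕ, Tendsto (fun j => Uq.yy stp tt (S j) (S' j) (n j) (n' j) l) atTop (𝓝 0) := by
  have hC := uv2.C_pos
  have ha0 := uv2.a0_pos
  have hd0 := uv2.d0_pos
  have hts0 := uv2.ts_pos
  obtain ⟨X0, hX0, htr⟩ := uv2.triv (2 * C) (by positivity)
  obtain ⟨Cc, tc, hCc, htc, hc⟩ := uv2.contr (X0 + 2) (by positivity)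
  obtain ⟨Co, tq, hCo, htq, ho⟩ := uv2.olip (X0 + 2) (by positivity)
  obtain ⟨J0, hJ0⟩ : ∃ J0 : ℕ, (1 / 3 : ℝ) ^ J0 * X0 ≤ 1 / 8 := by
    have h1 : Tendsto (fun J0 : ℕ => (1 / 3 : ℝ) ^ J0 * X0) atTop (𝓝 (0 * X0)) :=
      (tendsto_pow_atTop_nhds_zero_of_lt_one (by norm_num) (by norm_num)).mul_const X0
    rw [zero_mul] at h1
    obtain ⟨J0, h2⟩ := (h1.eventually (gt_mem_nhds (show (0 : ℝ) < 1 / 8 by norm_num))).exists
    exact ⟨J0, h2.le⟩
  -- the smallness of the coupling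
  obtain ⟨t1, ht1, hW, hV⟩ := Uq.exists_t1 (C := C) hC
    (W := 1 / ts + 20 * C + 1 / tc + 1 / tq + 1 / td + 48 * Cc + 16 * Cc * X0 + 2 * Co +
      16 * Co * X0) (V := 8 * (J0 + 1) + 2 / d0 + 8 / (d0 * tq) + 2 / a0) (by positivity)
    (by positivity)
  set δ := C * (Real.sqrt t1 + 2 * C * t1) with hδ
  have hδ0 : 0 ≤ δ := by positivity
  have P1 : 0 < 1 / ts := by positivity
  have P2 : 0 < 20 * C := by positivity
  have P3 : 0 < 1 / tc := by positivity
  have P4 : 0 < 1 / tq := by positivity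
  have P5 : 0 < 1 / td := by positivity
  have P6 : 0 < 48 * Cc := by positivity
  have P7 : 0 ≤ 16 * Cc * X0 := by positivity
  have P8 : 0 < 2 * Co := by positivity
  have P9 : 0 ≤ 16 * Co * X0 := by positivity
  have R1 : 0 ≤ 8 * ((J0 : ℝ) + 1) := by positivity
  have R2 : 0 < 2 / d0 := by positivity
  have R3 : 0 < 8 / (d0 * tq) := by positivity
  have kW : ∀ a : ℝ, a ≤ 1 / ts + 20 * C + 1 / tc + 1 / tq + 1 / td + 48 * Cc + 16 * Cc * X0 +
      2 * Co + 16 * Co * X0 → t1 * a ≤ 1 := fun a h =>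
    (mul_le_mul_of_nonneg_left h ht1.le).trans hW
  have R4 : 0 < 2 / a0 := by positivity
  have kV : ∀ a : ℝ, a ≤ 8 * (J0 + 1) + 2 / d0 + 8 / (d0 * tq) + 2 / a0 → δ * a ≤ 1 := fun a h =>
    (mul_le_mul_of_nonneg_left h hδ0).trans hV
  have k1 : ∀ a : ℝ, 0 < a → t1 * (1 / a) ≤ 1 → t1 ≤ a := by
    intro a ha h
    rw [mul_one_div, div_le_one ha] at h
    exact h
  have w1 : t1 ≤ ts := k1 _ hts0 (kW _ (by linarith))
  have w2 : 2 * C * t1 ≤ 1 / 10 := by have := kW (20 * C) (by linarith); linarith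
  have w3 : t1 ≤ tc := k1 _ htc (kW _ (by linarith))
  have w4 : t1 ≤ tq := k1 _ htq (kW _ (by linarith))
  have w5 : t1 ≤ td := k1 _ htd (kW _ (by linarith))
  have w6 : Cc * t1 ≤ 1 / 48 := by have := kW (48 * Cc) (by linarith); linarith
  have w7 : 2 * (Cc * t1) * X0 ≤ 1 / 8 := by
    have := kW (16 * Cc * X0) (by linarith); linarith
  have w8 : Co * t1 ≤ 1 / 2 := by have := kW (2 * Co) (by linarith); linarith
  have w9 : Co * t1 * X0 ≤ 1 / 16 := by
    have := kW (16 * Co * X0) (by linarith); linarith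
  have v1 : 2 * δ * (J0 + 1) ≤ 1 / 4 := by
    have := kV (8 * (J0 + 1)) (by linarith); linarith
  have v2 : δ ≤ d0 / 2 := by
    have h1 := kV (2 / d0) (by linarith)
    have h2 : δ * (2 / d0) = δ * 2 / d0 := by ring
    rw [h2, div_le_one hd0] at h1
    linarith
  have v3 : 2 / d0 * (2 * δ) ≤ tq / 2 := by
    have h1 := kV (8 / (d0 * tq)) (by linarith)
    have h2 : δ * (8 / (d0 * tq)) = (2 / d0 * (2 * δ)) * 2 / tq := by field_simp; ring
    rw [h2, div_le_one htq] at h1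
    linarith
  have v4 : 2 * δ ≤ 1 / 4 := by
    have : (0 : ℝ) ≤ (J0 : ℝ) := by positivity
    nlinarith
  have v5 : δ ≤ a0 / 2 := by
    have h1 := kV (2 / a0) (by linarith)
    have h2 : δ * (2 / a0) = δ * 2 / a0 := by ring
    rw [h2, div_le_one ha0] at h1
    linarith
  obtain ⟨κ2, hκ2, hex⟩ := exit_lower μ L hconn hne Good ts0 C0 ρs c0 a0 d0 p uv t1 ht1
  refine ⟨t1, ht1, w5, w1, v5, κ2 / 2, by positivity,
    fun κ hκ hκle S S' A A' n n' hS hS' h0 h0' hg hg' => ?_⟩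
  have hRE := Uq.exists_RE uv2 hG hts w1 w2 hex hκ (by linarith) hS h0 hg
  have hRE' := Uq.exists_RE uv2 hG hts w1 w2 hex hκ (by linarith) hS' h0' hg'
  have hCd : 0 ≤ Uq.Ck ts C a0 := by unfold Uq.Ck; positivity
  set Cd := Uq.Ck ts C a0 with hCdd
  set B := 2 * C / κ with hBd
  have hB : 0 < B := by positivity
  set y : ℕ → ℕ → ℝ := fun j l => Uq.yy stp tt (S j) (S' j) (n j) (n' j) l with hyd
  set dg : ℕ → ℝ := fun j => |g2 μ L ((mk μ)^[n' j] (den (S' j))) -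
    g2 μ L ((mk μ)^[n j] (den (S j)))| with hdg
  have hdg0 : Tendsto dg atTop (𝓝 0) := by
    have h1 := (hg'.sub hg).abs
    rw [sub_self, abs_zero] at h1
    exact h1
  set η : ℕ → ℝ := fun j => Co * (dg j * B ^ 2) with hηd
  have hη0 : ∀ j, 0 ≤ η j := fun j => by
    have : 0 ≤ dg j := abs_nonneg _
    positivity
  have hη : Tendsto η atTop (𝓝 0) := by
    have h1 := (hdg0.mul_const (B ^ 2)).const_mul Co
    rw [zero_mul, mul_zero] at h1
    exact h1
  have hrat : ∀ᶠ j in atTop, y j 0 * tt (stp^[n j] (S j)) ≤ tq := by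
    have h1 : Tendsto (fun j => 2 / d0 * (dg j * B)) atTop (𝓝 0) := by
      have h2 := (hdg0.mul_const B).const_mul (2 / d0)
      rw [zero_mul, mul_zero] at h2
      exact h2
    filter_upwards [hRE 0, hRE' 0, h1.eventually (gt_mem_nhds (show 0 < tq / 2 by positivity))]
      with j h2 h3 h4
    have h5 := Uq.ratio uv2 h2 h3 v2
    rw [mul_add] at h5
    refine h5.trans ?_
    linarith
  have hwin := fun J j (h1 : Uq.RE μ stp den tt GS C a0 t1 B Cd (S j) (n j) J)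
    (h2 : Uq.RE μ stp den tt GS C a0 t1 B Cd (S' j) (n' j) J) =>
    Uq.win uv2 hX0 hCc hCo ht1 hc ho htr w3 w4 w6 w8 h1 h2
  have hcr : ∀ J j, Uq.RE μ stp den tt GS C a0 t1 B Cd (S j) (n j) J →
      Uq.RE μ stp den tt GS C a0 t1 B Cd (S' j) (n' j) J → ∀ l < J, y j (l + 1) ≤ y j l + 2 * δ :=
    fun J j h1 h2 => Uq.crude h1 h2
  -- the first steps
  have base : ∀ᶠ j in atTop, ∀ l ≤ J0, y j l ≤ 1 / 2 := by
    filter_upwards [hRE J0, hRE' J0, hrat, hη.eventually (gt_mem_nhds (show (0 : ℝ) < 1 / 16 by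
      norm_num))] with j h1 h2 h3 h4
    have h5 : y j 0 ≤ η j + Co * t1 * X0 :=
      Uq.olip_end uv2 hCo ho w4 h1 h2 h3 hX0 (by linarith)
        (htr _ _ (h1.gs 0 (Nat.zero_le _)) (h2.gs 0 (Nat.zero_le _)))
    have h6 : ∀ l ≤ J0, y j l ≤ y j 0 + 2 * δ * l := by
      intro l
      induction l with
      | zero => intro _; simp
      | succ l ih =>
        intro hl
        have h7 := ih (by omega)
        have h8 := hcr J0 j h1 h2 l hl
        push_cast
        linarith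
    intro l hl
    have h7 := h6 l hl
    have h8 : 2 * δ * (l : ℝ) ≤ 2 * δ * (J0 + 1) := by
      have : (l : ℝ) ≤ J0 := by exact_mod_cast hl
      exact mul_le_mul_of_nonneg_left (by linarith) (by positivity)
    linarith
  -- all steps
  have hq1 : 1 + 3 * (Cc * t1) ≤ 17 / 16 := by linarith
  have hq0 : 0 ≤ 1 + 3 * (Cc * t1) := by positivity
  have boot : ∀ J, J0 ≤ J → ∀ᶠ j in atTop, ∀ l ≤ J, y j l ≤ 1 / 2 := by
    intro J hJ
    induction J, hJ using Nat.le_induction with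
    | base => exact base
    | succ J hJ ih =>
      filter_upwards [ih, hRE (J + 1), hRE' (J + 1), hrat, hη.eventually (gt_mem_nhds
        (show (0 : ℝ) < 1 / (16 * 2 ^ (J + 1)) by positivity))] with j h1 h2 h3 h4 h5
      have h6 : ∀ l ≤ J + 1, y j l ≤ 1 := by
        intro l hl
        rcases Nat.lt_or_ge l (J + 1) with h7 | h7
        · have := h1 l (by omega)
          linarith
        · obtain rfl : l = J + 1 := by omega
          have h8 := hcr (J + 1) j h2 h3 J (Nat.lt_succ_self J)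
          have h9 := h1 J le_rfl
          linarith
      intro l hl
      rcases Nat.lt_or_ge l (J + 1) with h7 | h7
      · exact h1 l (by omega)
      · obtain rfl : l = J + 1 := by omega
        have h8 : y j (J + 1) ≤ (1 + 3 * (Cc * t1)) ^ (J + 1) * (2 * η j + X0 / 4 ^ (J + 1)) +
            2 * (Cc * t1) * (X0 / 4 ^ (J + 1 - (J + 1))) :=
          (hwin (J + 1) j h2 h3 h4 h6).2 (J + 1) le_rfl
        rw [Nat.sub_self, pow_zero, div_one, mul_add] at h8
        have h9 : (1 + 3 * (Cc * t1)) ^ (J + 1) * (2 * η j) ≤ 1 / 8 := by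
          have e1 : (1 + 3 * (Cc * t1)) ^ (J + 1) ≤ 2 ^ (J + 1) :=
            pow_le_pow_left₀ hq0 (by linarith) _
          have e2 := hη0 j
          calc (1 + 3 * (Cc * t1)) ^ (J + 1) * (2 * η j) ≤
              2 ^ (J + 1) * (2 * (1 / (16 * 2 ^ (J + 1)))) :=
                mul_le_mul e1 (by linarith) (by positivity) (by positivity)
            _ = 1 / 8 := by field_simp; norm_num
        have h10 : (1 + 3 * (Cc * t1)) ^ (J + 1) * (X0 / 4 ^ (J + 1)) ≤ 1 / 8 := by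
          have e1 : (1 + 3 * (Cc * t1)) ^ (J + 1) * (X0 / 4 ^ (J + 1)) =
              ((1 + 3 * (Cc * t1)) / 4) ^ (J + 1) * X0 := by
            rw [div_pow]; ring
          have e2 : ((1 + 3 * (Cc * t1)) / 4) ^ (J + 1) ≤ (1 / 3 : ℝ) ^ (J + 1) :=
            pow_le_pow_left₀ (by positivity) (by linarith) _
          have e3 : (1 / 3 : ℝ) ^ (J + 1) ≤ (1 / 3) ^ J0 :=
            pow_le_pow_of_le_one (by norm_num) (by norm_num) (by omega)
          rw [e1]
          exact (mul_le_mul_of_nonneg_right (e2.trans e3) hX0).trans hJ0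
        linarith
  -- the conclusion
  refine ⟨hRE, hRE', ?_, ?_, ?_⟩
  · filter_upwards [hg.eventually (gt_mem_nhds (show κ < κ2 by linarith))] with j h1 i hi
    obtain ⟨h2, h3, -⟩ := Uq.run uv2 hG hts w1 hex (hS j) h1 i hi
    exact ⟨h2, h3⟩
  · filter_upwards [hg'.eventually (gt_mem_nhds (show κ < κ2 by linarith))] with j h1 i hi
    obtain ⟨h2, h3, -⟩ := Uq.run uv2 hG hts w1 hex (hS' j) h1 i hi
    exact ⟨h2, h3⟩
  intro l
  rw [Metric.tendsto_atTop]
  intro e he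
  obtain ⟨i, hi1, hi2⟩ : ∃ i : ℕ, 2 * (X0 / 4 ^ i) < e / 2 ∧ J0 ≤ i := by
    have h1 : Tendsto (fun i : ℕ => 2 * (X0 * (1 / 4 : ℝ) ^ i)) atTop
        (𝓝 (2 * (X0 * 0))) :=
      ((tendsto_pow_atTop_nhds_zero_of_lt_one (by norm_num) (by norm_num)).const_mul
        X0).const_mul 2
    rw [mul_zero, mul_zero] at h1
    obtain ⟨i, h2, h3⟩ := ((h1.eventually (gt_mem_nhds (show 0 < e / 2 by positivity))).and
      (eventually_ge_atTop J0)).exists
    refine ⟨i, ?_, h3⟩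
    rw [one_div, inv_pow, ← div_eq_mul_inv] at h2
    exact h2
  have h1 : Tendsto (fun j => 2 * 4 ^ l * η j) atTop (𝓝 0) := by
    have h2 := hη.const_mul (2 * 4 ^ l)
    rw [mul_zero] at h2
    exact h2
  have hev : ∀ᶠ j in atTop, y j l < e := by
    filter_upwards [boot (l + i) (by omega), hRE (l + i), hRE' (l + i), hrat,
      h1.eventually (gt_mem_nhds (show 0 < e / 2 by positivity))] with j h2 h3 h4 h5 h6
    obtain ⟨A1, A2⟩ := hwin (l + i) j h3 h4 h5 (fun l' hl' => (h2 l' hl').trans (by norm_num))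
    have h7 : y j l ≤ (1 + 3 * (Cc * t1)) ^ l * (2 * η j + X0 / 4 ^ (l + i)) +
        2 * (Cc * t1) * (X0 / 4 ^ (l + i - l)) := A2 l (by omega)
    rw [show l + i - l = i by omega] at h7
    have hZ0 : 0 ≤ X0 / 4 ^ i := by positivity
    have e1 : (1 + 3 * (Cc * t1)) ^ l ≤ 4 ^ l := pow_le_pow_left₀ hq0 (by linarith) _
    have e2 := hη0 j
    have e3 : (1 + 3 * (Cc * t1)) ^ l * (2 * η j + X0 / 4 ^ (l + i)) ≤
        4 ^ l * (2 * η j + X0 / 4 ^ (l + i)) := mul_le_mul_of_nonneg_right e1 (by positivity)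
    have e4 : (4 : ℝ) ^ l * (2 * η j + X0 / 4 ^ (l + i)) = 2 * 4 ^ l * η j + X0 / 4 ^ i := by
      rw [pow_add]; field_simp
    have e5 : 2 * (Cc * t1) * (X0 / 4 ^ i) ≤ 1 * (X0 / 4 ^ i) :=
      mul_le_mul_of_nonneg_right (by linarith) hZ0
    linarith
  obtain ⟨N, hN⟩ := eventually_atTop.1 hev
  refine ⟨N, fun j hj => ?_⟩
  have h2 : 0 ≤ Uq.yy stp tt (S j) (S' j) (n j) (n' j) l := abs_nonneg _
  rw [Real.dist_eq, sub_zero, abs_of_nonneg h2]
  exact hN j hj

end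

end Pool.Agent.T2H04.HY
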