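import Mathlib
import Pool.Agent.T2H04.HY.Uq
import Pool.Agent.T2H04.HY.TlGb
import Pool.Agent.T2H04.HY.TlGc

/-!
# Two loop asymptotics of the flow (package PG)

`two_loop` is the statement which is used later. Plan.

(1) `uniq'`: the proof of `uniq` in `Uq.lean` also gives that for every fixed `l`
`1 / tt (stp^[n j - l] (S j)) - 1 / tt (stp^[n' j - l] (S' j)) → 0` (there `y j l → 0`: `h7` with `i → ∞`).

(2) `flow`. Let `u_i = 1 / t_i`, `l_i = lm S_i`, `v_i = u_i + 4/5 (l_i - l*) t_i`, `l* = -7/960 cas²`,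
`a0 = cas/8`, `a1 = cas²/240`. From `UV3.step`:
`v_{i+1} = v_i - a0 - a1 t_i + O((1 + A_i) t_i^{3/2})`
(`cas²/768 + 3/4 l_i = 3/4 (l_i - l*) - a1`; `4/5 (l_{i+1} - l*) t_{i+1} = 4/5 ((l_i - l*)/16 +
O((1+A_i) √t_i)) (t_i + O(t_i²))`; `3/4 + 1/20 - 4/5 = 0`), and `t_i = 1/v_i + O((1+A_i) t_i³)`. With
`Psi v = 8/cas v - 4/15 log v` (`a1/a0² = 4/15`): `Psi v_{i+1} = Psi v_i - 1 + O((1+A_i) t_i^{3/2})`.
Sum over `i < n` (run with all `t_i ≤ t1` small, `A_i = AA C A i ≤ A/16^i + 2C`, `A t_0 ≤ 1/10`):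
`∑_{i<n} (1 + A_i) t_i^{3/2} ≤ C' √(t_n)`: after a bounded number of steps the `u_i` decrease by at least
`a0/2` in each step, so `u_i ≥ u_n + a0/2 (n - i) - K'` and `∑ t_i^{3/2} ≤ C'' √t_n`; for the part
`A/16^i t_i^{3/2}`: `u_i ≥ u_0 - K i`, so it is `≤ C √t_0` in total, and `t_0 ≤ 2 t_n`.
So `|Psi v_0 - n - Psi v_n| ≤ C' √t_n`.

(3) `two_loop`: apply (2) to `stp^[n j - l]` for both sequences, `|v - u| ≤ C t` at these times
(`A_i ≤ 2C + small` as `n j - l → ∞`), `|Psi u - Psi u'| ≤ C |u - u'| → 0` by (1) for `j → ∞`, and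
`t ≤ C/l` there. Let `j → ∞`, then `l → ∞`. In `two_loop` the `4/5 · 7/960 cas² t` is dropped
(`tt (S j) → 0`; note `Psi' ≤ 8/cas`).
-/

open MeasureTheory Matrix Filter
open scoped Matrix.Norms.Frobenius Topology

namespace Pool.Agent.T2H04.HY

set_option linter.unusedSectionVars false

noncomputable section

variable {G : Type} [Group G] [TopologicalSpace G] [IsTopologicalGroup G] [CompactSpace G]
  [MeasurableSpace G] [BorelSpace G] (μ : Measure G) [μ.IsHaarMeasure] [IsProbabilityMeasure μ]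
  {m : Type} [Fintype m] [DecidableEq m] (L : RD G m)

namespace Tg

section run

variable {μ L} {Q : Type} {stp : Q → Q} {den : Q → G → ℝ} {tt lm : Q → ℝ} {GS : Q → ℝ → Prop}
    {Ds : Q → Q → ℝ → Prop} {ts C c d0 ts3 C3 cas t1 : ℝ}

/-- the corrected inverse coupling is at least `1` -/
theorem W_ge (uv2 : UV2 μ L stp den tt GS Ds ts C c (cas / 8) d0)
    (uv3 : UV3 stp tt lm GS ts3 C3 cas) (h1 : C3 * t1 ≤ 1) (h2 : t1 ≤ 1 / 2) {S : Q} {A : ℝ}
    (hS : GS S A) (hs : tt S ≤ t1) : 1 ≤ 1 / tt S + 4 / 5 * (lm S * tt S) := by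
  obtain ⟨p1, p2, p3, p4⟩ := uv2.pos _ _ hS
  have hC3 := uv3.C_pos
  have e1 : |lm S * tt S| ≤ C3 / 10 := by
    rw [abs_mul, abs_of_pos p1]
    calc |lm S| * tt S ≤ C3 * A * tt S := mul_le_mul_of_nonneg_right (uv3.lam_le _ _ hS) p1.le
      _ = C3 * (A * tt S) := by ring
      _ ≤ C3 * (1 / 10) := mul_le_mul_of_nonneg_left p4 hC3.le
      _ = C3 / 10 := by ring
  have e2 : C3 ≤ 1 / tt S := by
    rw [le_div_iff₀ p1]
    nlinarith
  have e3 : 2 ≤ 1 / tt S := by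
    rw [le_div_iff₀ p1]
    linarith
  have := (abs_le.1 e1).1
  linarith

theorem flow_run (uv2 : UV2 μ L stp den tt GS Ds ts C c (cas / 8) d0)
    (uv3 : UV3 stp tt lm GS ts3 C3 cas) {α tf : ℝ}
    (hflow : ∀ (t l A : ℕ → ℝ) (N : ℕ),
      (∀ i ≤ N, 0 < t i ∧ t i ≤ tf ∧ 0 ≤ A i ∧ A i * t i ≤ 1 / 10 ∧ |l i| ≤ C3 * A i) →
      (∀ i < N, |1 / t (i + 1) - 1 / t i + cas / 8 - t i * (cas ^ 2 / 768 + 3 / 4 * l i)| ≤
          C3 * (1 + A i) * (t i * Real.sqrt (t i)) ∧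
        |l (i + 1) - (l i / 16 - 7 / 1024 * cas ^ 2)| ≤ C3 * (1 + A i) * Real.sqrt (t i) ∧
        A (i + 1) = A i / 16 + C ∧
        |1 / t (i + 1) - 1 / t i + cas / 8| ≤ C * (Real.sqrt (t i) + A i * t i)) →
      |Psi cas (1 / t 0 + 4 / 5 * (l 0 * t 0)) - N - Psi cas (1 / t N + 4 / 5 * (l N * t N))| ≤
        α * Real.sqrt (t N))
    (h1 : t1 ≤ tf) (h2 : t1 ≤ ts) (h3 : t1 ≤ ts3) {S : Q} {A : ℝ} {n : ℕ}
    (hr : ∀ i ≤ n, GS (stp^[i] S) (Uq.AA C A i) ∧ tt (stp^[i] S) < t1) {N : ℕ} (hN : N ≤ n) :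
    |Psi cas (1 / tt S + 4 / 5 * (lm S * tt S)) - N -
      Psi cas (1 / tt (stp^[N] S) + 4 / 5 * (lm (stp^[N] S) * tt (stp^[N] S)))| ≤
      α * Real.sqrt (tt (stp^[N] S)) := by
  refine hflow (fun i => tt (stp^[i] S)) (fun i => lm (stp^[i] S)) (fun i => Uq.AA C A i) N
    (fun i hi => ?_) (fun i hi => ?_)
  · obtain ⟨e1, e2⟩ := hr i (hi.trans hN)
    obtain ⟨p1, p2, p3, p4⟩ := uv2.pos _ _ e1
    exact ⟨p1, by linarith, p3, p4, uv3.lam_le _ _ e1⟩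
  · obtain ⟨e1, e2⟩ := hr i (by omega)
    obtain ⟨f1, f2⟩ := uv3.step _ _ e1 (by linarith)
    obtain ⟨-, -, f3⟩ := uv2.step _ _ e1 (by linarith)
    rw [← Function.iterate_succ_apply' stp] at f1 f2 f3
    exact ⟨f1, f2, Uq.AA_succ _ _ _, f3⟩

theorem end_small {a0 B Cd : ℝ} {S : Q} {n J : ℕ}
    (h : Uq.RE μ stp den tt GS C a0 t1 B Cd S n J)
    (hpos : ∀ S A, GS S A → 0 < tt S)
    (hδ : C * (Real.sqrt t1 + 2 * C * t1) ≤ a0 / 2) :
    ∀ l ≤ J, a0 / 2 * l ≤ 1 / tt (stp^[n - l] S) := by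
  intro l
  induction l with
  | zero =>
    intro hl
    have := hpos _ _ (h.gs 0 hl)
    rw [Nat.cast_zero, mul_zero]
    positivity
  | succ l ih =>
    intro hl
    have h1 := ih (by omega)
    have h2 := (abs_le.1 ((h.dr l (by omega)).trans hδ)).2
    push_cast
    linarith

end run

end Tg

theorem two_loop (hconn : IsConnected (Set.univ : Set G)) (hne : ∃ X ∈ lieSet L, X ≠ 0)
    (Good : (G → ℝ) → ℝ → ℝ → Prop) (ts0 C0 ρs c0 cas d0 : ℝ) (p : ℕ)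
    (uv : UV μ L Good ts0 C0 ρs c0 (cas / 8) d0 p)
    {Q : Type} (stp : Q → Q) (den : Q → G → ℝ) (tt lm : Q → ℝ) (GS : Q → ℝ → Prop)
    (Ds : Q → Q → ℝ → Prop) (ts C c : ℝ) (uv2 : UV2 μ L stp den tt GS Ds ts C c (cas / 8) d0)
    (ts3 C3 : ℝ) (uv3 : UV3 stp tt lm GS ts3 C3 cas)
    (hG : ∀ S A, GS S A → Good (den S) (tt S) A) (hts : ts ≤ ts0) :
    ∃ κ1 : ℝ, 0 < κ1 ∧ ∀ κ : ℝ, 0 < κ → κ ≤ κ1 →
      ∀ (S S' : ℕ → Q) (A A' : ℕ → ℝ) (n n' : ℕ → ℕ), (∀ j, GS (S j) (A j)) →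
        (∀ j, GS (S' j) (A' j)) → Tendsto (fun j => tt (S j)) atTop (𝓝 0) →
        Tendsto (fun j => tt (S' j)) atTop (𝓝 0) →
        Tendsto (fun j => g2 μ L ((mk μ)^[n j] (den (S j)))) atTop (𝓝 κ) →
        Tendsto (fun j => g2 μ L ((mk μ)^[n' j] (den (S' j)))) atTop (𝓝 κ) →
        Tendsto (fun j => ((n j : ℝ) - Psi cas (1 / tt (S j) + 4 / 5 * (lm (S j) * tt (S j)))) -
          ((n' j : ℝ) - Psi cas (1 / tt (S' j) + 4 / 5 * (lm (S' j) * tt (S' j))))) atTop (𝓝 0) := by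
  have hC := uv2.C_pos
  have hC3 := uv3.C_pos
  have hcas := uv3.cas_pos
  have hts3 := uv3.ts_pos
  obtain ⟨α, tf, hα, htf, hflow⟩ := Tg.flow_abs (C := C) (C3 := C3) hcas hC hC3
  obtain ⟨t1, ht1, h1td, h1ts, hδ, κ1, hκ1, hu⟩ := uniq' μ L hconn hne Good ts0 C0 ρs c0 (cas / 8)
    d0 p uv stp den tt GS Ds ts C c uv2 hG hts
    (show 0 < min (min tf ts3) (min (1 / C3) (1 / 2)) by positivity)
  have q1 : t1 ≤ tf := h1td.trans ((min_le_left _ _).trans (min_le_left _ _))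
  have q2 : t1 ≤ ts3 := h1td.trans ((min_le_left _ _).trans (min_le_right _ _))
  have q3 : C3 * t1 ≤ 1 := by
    have := h1td.trans ((min_le_right _ _).trans (min_le_left _ _))
    rw [le_div_iff₀ hC3] at this
    linarith
  have q4 : t1 ≤ 1 / 2 := h1td.trans ((min_le_right _ _).trans (min_le_right _ _))
  refine ⟨κ1, hκ1, fun κ hκ hκle S S' A A' n n' hS hS' h0 h0' hg hg' => ?_⟩
  obtain ⟨hRE, hRE', hrun, hrun', hy⟩ := hu κ hκ hκle S S' A A' n n' hS hS' h0 h0' hg hg'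
  rw [Metric.tendsto_nhds]
  intro ε hε
  set Lp := 8 / cas + 1 with hLp
  have hLp0 : 0 < Lp := by positivity
  -- the distance from the end
  obtain ⟨l, hl1, hl2⟩ : ∃ l : ℕ, 1 ≤ l ∧ 2 * α * Real.sqrt (16 / cas / l) +
      Lp * (4 * C3 * C) * (16 / cas / l) < ε / 2 := by
    have e1 : Tendsto (fun l : ℕ => 16 / cas / (l : ℝ)) atTop (𝓝 0) :=
      tendsto_const_div_atTop_nhds_zero_nat _
    have e2 : Tendsto (fun l : ℕ => 2 * α * Real.sqrt (16 / cas / l) +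
        Lp * (4 * C3 * C) * (16 / cas / l)) atTop
        (𝓝 (2 * α * Real.sqrt 0 + Lp * (4 * C3 * C) * 0)) :=
      ((Real.continuous_sqrt.tendsto 0).comp e1 |>.const_mul _).add (e1.const_mul _)
    rw [Real.sqrt_zero, mul_zero, mul_zero, add_zero] at e2
    obtain ⟨l, h1, h2⟩ := ((e2.eventually (gt_mem_nhds (show 0 < ε / 2 by positivity))).and
      (eventually_ge_atTop 1)).exists
    exact ⟨l, h2, h1⟩
  have hyl := (hy l).const_mul Lp
  rw [mul_zero] at hyl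
  filter_upwards [hRE l, hRE' l, hrun, hrun',
    hyl.eventually (gt_mem_nhds (show 0 < ε / 2 by positivity))] with j r1 r2 r3 r4 r5
  have hl0 : (0 : ℝ) < l := by exact_mod_cast hl1
  -- the flow
  have f1 := Tg.flow_run uv2 uv3 hflow q1 h1ts q2 r3 (Nat.sub_le (n j) l)
  have f2 := Tg.flow_run uv2 uv3 hflow q1 h1ts q2 r4 (Nat.sub_le (n' j) l)
  rw [Nat.cast_sub r1.le] at f1
  rw [Nat.cast_sub r2.le] at f2
  -- the states before the end
  have g1 := r1.gs l le_rfl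
  have g2 := r2.gs l le_rfl
  have s1 := r1.small l le_rfl
  have s2 := r2.small l le_rfl
  have p1 := (uv2.pos _ _ g1).1
  have p2 := (uv2.pos _ _ g2).1
  have w1 := Tg.W_ge uv2 uv3 q3 q4 g1 s1
  have w2 := Tg.W_ge uv2 uv3 q3 q4 g2 s2
  have v1 := Tg.end_small r1 (fun S A h => (uv2.pos S A h).1) hδ l le_rfl
  have v2 := Tg.end_small r2 (fun S A h => (uv2.pos S A h).1) hδ l le_rfl
  have l1 := uv3.lam_le _ _ g1
  have l2 := uv3.lam_le _ _ g2
  unfold Uq.yy at r5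
  set T := stp^[n j - l] (S j) with hT
  set T' := stp^[n' j - l] (S' j) with hT'
  have m1 : tt T ≤ 16 / cas / l := by
    rw [le_div_iff₀ p1] at v1
    rw [div_div, le_div_iff₀ (by positivity)]
    linarith
  have m2 : tt T' ≤ 16 / cas / l := by
    rw [le_div_iff₀ p2] at v2
    rw [div_div, le_div_iff₀ (by positivity)]
    linarith
  have n1 : α * Real.sqrt (tt T) ≤ α * Real.sqrt (16 / cas / l) :=
    mul_le_mul_of_nonneg_left (Real.sqrt_le_sqrt m1) hα.le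
  have n2 : α * Real.sqrt (tt T') ≤ α * Real.sqrt (16 / cas / l) :=
    mul_le_mul_of_nonneg_left (Real.sqrt_le_sqrt m2) hα.le
  have k1 : |lm T * tt T| ≤ 2 * C3 * C * (16 / cas / l) := by
    rw [abs_mul, abs_of_pos p1]
    calc |lm T| * tt T ≤ C3 * (2 * C) * (16 / cas / l) :=
          mul_le_mul l1 m1 p1.le (by positivity)
      _ = _ := by ring
  have k2 : |lm T' * tt T'| ≤ 2 * C3 * C * (16 / cas / l) := by
    rw [abs_mul, abs_of_pos p2]
    calc |lm T'| * tt T' ≤ C3 * (2 * C) * (16 / cas / l) :=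
          mul_le_mul l2 m2 p2.le (by positivity)
      _ = _ := by ring
  have k3 : |(1 / tt T' + 4 / 5 * (lm T' * tt T')) - (1 / tt T + 4 / 5 * (lm T * tt T))| ≤
      |1 / tt T' - 1 / tt T| + 4 * C3 * C * (16 / cas / l) := by
    have e1 := le_abs_self (1 / tt T' - 1 / tt T)
    have e2 := neg_abs_le (1 / tt T' - 1 / tt T)
    have e3 : 0 ≤ 2 * C3 * C * (16 / cas / l) := by positivity
    rw [abs_le] at k1 k2 ⊢
    constructor <;> linarith [k1.1, k1.2, k2.1, k2.2]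
  have k4 := (Tg.psi_lip hcas w2 w1).trans (mul_le_mul_of_nonneg_left k3 hLp0.le)
  rw [Real.dist_eq, sub_zero]
  have k5 := abs_le.1 (f1.trans n1)
  have k6 := abs_le.1 (f2.trans n2)
  have k7 := abs_le.1 k4
  rw [mul_add] at k7
  have k8 : Lp * (4 * C3 * C * (16 / cas / l)) = Lp * (4 * C3 * C) * (16 / cas / l) := by ring
  rw [k8] at k7
  rw [abs_lt]
  constructor <;> linarith [k5.1, k5.2, k6.1, k6.2, k7.1, k7.2]

end

end Pool.Agent.T2H04.HY
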