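import Mathlib
import Pool.Agent.T2H04.HY.TlC
import Pool.Agent.T2H04.HY.Obs

/-!
# The covariance and the running coupling to second order (package V)

`covar` (in `Cov.lean`) has the relative error `√t + A t`. The true error is `O(t)`: same proof
(integration by parts along `X`), with two changes. (1) The derivative of `ipr X (rho y)` along `X` is
`ipr X (X rho y) = ‖X‖² + ipr X (X (rho y - 1))`. By the symmetry `y → y⁻¹` the expectation of the last
term is that of `ipr X (X ((rho y + rho y⁻¹)/2 - 1))`, and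
`(rho y + rho y⁻¹)/2 - 1 = - (rho y - 1)(rho y⁻¹ - 1)/2`. (2) The logarithmic derivative of the density is
`- ⟨X, log y⟩/t - ∂_X w` (`Tlc.dfy_eq`) and `⟨X, log y⟩ = ipr X (rho y) + O(‖X‖ dis³)` (`Dri.ipr_exp`).
`obs_as2` follows from `covar2` for `q = 1` exactly as `obs_as` (in `Obs.lean`) from `covar`.
-/

open MeasureTheory Matrix Filter
open scoped Matrix.Norms.Frobenius Topology

namespace Pool.Agent.T2H04.HY

set_option linter.unusedSectionVars false

noncomputable section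

variable {G : Type} [Group G] [TopologicalSpace G] [IsTopologicalGroup G] [CompactSpace G]
  [MeasurableSpace G] [BorelSpace G] (μ : Measure G) [μ.IsHaarMeasure] [IsProbabilityMeasure μ]
  {m : Type} [Fintype m] [DecidableEq m] (L : RD G m)

namespace TlV

theorem near2 {D : LogData m} {εg δ r0 r s b r' : ℝ} (P : Par L D εg δ r0 r s b r')
    {F : Mt m → ℂ} {t A : ℝ} (cl : Cls L F t A r (r0 / 4) s b (1 / 10000)) (ht : 0 < t)
    (hA : 0 ≤ A) (hAt : A * t ≤ 1 / 10) {X : Mt m} (hX : X ∈ lieSet L) {y : G}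
    (hy : dis L y < r0 / 20) :
    |ipr X (L.rho y) * (ipr X (L.rho y) * res L F y + t * dfy L F X y)| ≤
      4 * ‖X‖ ^ 2 * dis L y ^ 4 * res L F y := by
  have hr0 := P.r0_pos
  have hr01 := P.r0_le
  have hδ := P.r0_δ
  have he0 := P.e0
  have he1 := P.e1
  have hyδ : dis L y < δ := by linarith
  have hres : 0 ≤ res L F y := cl.nonneg y
  have hd0 : 0 ≤ dis L y := norm_nonneg _
  have hXn : 0 ≤ ‖X‖ := norm_nonneg _
  have hXs := lie_skew L hX
  have hry : L.rho y = NormedSpace.exp ((Dri.et L D y : gC L) : Mt m) := (Dri.et_exp P.ch hyδ).symm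
  by_cases hne : Dri.et L D y = 0
  · have h1 : ipr X (L.rho y) = 0 := by
      rw [hry, hne, ZeroMemClass.coe_zero, NormedSpace.exp_zero]
      exact Dri.ipr_one_skew hXs
    rw [h1, zero_mul, abs_zero]
    positivity
  obtain ⟨W, hW, hWe⟩ := Tlc.dfy_eq P cl ht hA hX hy hne
  have hηs : ((Dri.et L D y : gC L) : Mt m)ᴴ = -((Dri.et L D y : gC L) : Mt m) :=
    lie_skew L (Dri.et_lie P.ch hyδ)
  have hη1 : ‖((Dri.et L D y : gC L) : Mt m)‖ ≤ 1 := by
    have := Dri.et_lt P hy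
    have e : ‖((Dri.et L D y : gC L) : Mt m)‖ = ‖Dri.et L D y‖ := rfl
    rw [e]; linarith
  have h2 := Dri.ipr_exp hXs hηs hη1
  rw [← hry] at h2
  have h3 := Dri.et_norm P.ch hyδ
  have e : ‖((Dri.et L D y : gC L) : Mt m)‖ = ‖Dri.et L D y‖ := rfl
  rw [e] at h2
  obtain ⟨n, hn⟩ : ∃ n, n = ‖Dri.et L D y‖ := ⟨_, rfl⟩
  rw [← hn] at h2 h3 hW
  have hn0 : 0 ≤ n := by rw [hn]; exact norm_nonneg _
  have hn3 : n ^ 3 ≤ 4 / 3 * dis L y ^ 3 := by
    have h4 := pow_le_pow_left₀ hn0 h3 3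
    rw [mul_pow] at h4
    refine h4.trans (mul_le_mul_of_nonneg_right ?_ (by positivity))
    have h5 : 1 + εg ≤ 11 / 10 := by linarith
    have h6 := pow_le_pow_left₀ (by positivity) h5 3
    refine h6.trans (by norm_num)
  have h7 := ipr_rho_le hX y
  have e1 : ipr X (L.rho y) * res L F y + t * dfy L F X y =
      res L F y * ((ipr X (L.rho y) - ipr X ((Dri.et L D y : gC L) : Mt m)) - t * W) := by
    rw [hWe]; ring
  rw [e1, abs_mul, abs_mul, abs_of_nonneg hres]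
  have h8 : |(ipr X (L.rho y) - ipr X ((Dri.et L D y : gC L) : Mt m)) - t * W| ≤
      3 * ‖X‖ * n ^ 3 := by
    refine (abs_sub _ _).trans ?_
    rw [abs_mul, abs_of_pos ht]
    have h9 := mul_le_mul_of_nonneg_left hW ht.le
    have h10 : t * (16 * A * n ^ 3 * ‖X‖) = 16 * (A * t) * (n ^ 3 * ‖X‖) := by ring
    have h11 : 16 * (A * t) * (n ^ 3 * ‖X‖) ≤ 16 * (1 / 10) * (n ^ 3 * ‖X‖) :=
      mul_le_mul_of_nonneg_right (by linarith) (by positivity)
    have h12 : 0 ≤ n ^ 3 * ‖X‖ := by positivity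
    linarith
  calc |ipr X (L.rho y)| * (res L F y *
        |(ipr X (L.rho y) - ipr X ((Dri.et L D y : gC L) : Mt m)) - t * W|)
      ≤ (‖X‖ * dis L y) * (res L F y * (3 * ‖X‖ * (4 / 3 * dis L y ^ 3))) := by
        refine mul_le_mul h7 (mul_le_mul_of_nonneg_left (h8.trans
          (mul_le_mul_of_nonneg_left hn3 (by positivity))) hres) (by positivity) (by positivity)
    _ = _ := by ring

/-- the symmetrised matrix -/
def sm (y : G) : Mt m := (1 / 2 : ℝ) • (L.rho y + L.rho y⁻¹) - 1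

theorem sm_le (y : G) : ‖sm L y‖ ≤ 1 / 2 * dis L y ^ 2 := by
  have h1 : sm L y = -((1 / 2 : ℝ) • ((L.rho y - 1) * (L.rho y⁻¹ - 1))) := by
    unfold sm
    have h2 : L.rho y * L.rho y⁻¹ = 1 := by rw [← map_mul, mul_inv_cancel, map_one]
    rw [mul_sub, sub_mul, h2, mul_one, one_mul, ← smul_neg]
    have h3 : (1 : Mt m) = (1 / 2 : ℝ) • ((1 : Mt m) + 1) := by
      rw [← two_smul ℝ (1 : Mt m), smul_smul]
      norm_num
    conv_lhs => rw [h3]
    rw [← smul_sub]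
    congr 1
    abel
  rw [h1, norm_neg, norm_smul, Real.norm_eq_abs, abs_of_pos (by norm_num : (0 : ℝ) < 1 / 2)]
  refine mul_le_mul_of_nonneg_left ?_ (by norm_num)
  refine (norm_mul_le _ _).trans ?_
  have h4 : ‖L.rho y⁻¹ - 1‖ = dis L y := TlM.dis_inv y
  rw [h4, pow_two]
  exact le_rfl

/-- the integrand of the error -/
def cvJ2 (F : Mt m → ℂ) (t : ℝ) (q : ℕ) (X : Mt m) (y : G) : ℝ :=
  (res L F y) ^ (q - 1) * (ipr X (L.rho y) * (ipr X (L.rho y) * res L F y + t * dfy L F X y)) +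
    t / q * (ipr X (X * sm L y) * (res L F y) ^ q)

theorem sm_cont : Continuous (sm L) := by
  unfold sm
  have h1 : Continuous fun y : G => L.rho y⁻¹ := L.cont.comp continuous_inv
  exact ((L.cont.add h1).const_smul (1 / 2 : ℝ)).sub continuous_const

theorem cvJ2_cont {F : Mt m → ℂ} (hF : ContDiff ℂ 1 F) (t : ℝ) (q : ℕ) (X : Mt m) :
    Continuous (cvJ2 L F t q X) := by
  have h1 := res_cont (L := L) hF
  have h2 := dfy_cont L hF X
  have h3 : Continuous fun y => ipr X (L.rho y) := (ipr_cont X).comp L.cont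
  have h4 : Continuous fun y => ipr X (X * sm L y) :=
    (ipr_cont X).comp (continuous_const.mul (sm_cont L))
  unfold cvJ2
  exact ((h1.pow _).mul (h3.mul ((h3.mul h1).add (continuous_const.mul h2)))).add
    (continuous_const.mul (h4.mul (h1.pow _)))

theorem cvJ2_int {F : Mt m → ℂ} {t A r r0 s b : ℝ} (cl : Cls L F t A r (r0 / 4) s b (1 / 10000)) {q : ℕ}
    (hq : 1 ≤ q) {X : Mt m} (hX : X ∈ lieSet L) :
    ∫ y, ipr X (L.rho y) ^ 2 * (res L F y) ^ q ∂μ -
      t / q * ‖X‖ ^ 2 * ∫ y, (res L F y) ^ q ∂μ = ∫ y, cvJ2 L F t q X y ∂μ := by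
  have hinv := inv_inv' μ
  have hF := cl.diff
  rw [cvJ_int μ L hF t hq hX]
  have h1 := res_cont (L := L) hF
  have h4 : Continuous fun y => ipr X (X * L.rho y) :=
    (ipr_cont X).comp (continuous_const.mul L.cont)
  have h4' : Continuous fun y => ipr X (X * L.rho y⁻¹) := h4.comp continuous_inv
  have e : ∀ y, cvJ L F t q X y = cvJ2 L F t q X y + t / q * (1 / 2) *
      (ipr X (X * L.rho y) * (res L F y) ^ q - ipr X (X * L.rho y⁻¹) * (res L F y) ^ q) := by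
    intro y
    have e1 : ipr X (X * sm L y) = 1 / 2 * (ipr X (X * L.rho y) + ipr X (X * L.rho y⁻¹)) -
        ‖X‖ ^ 2 := by
      unfold sm
      rw [mul_sub, mul_one, Dri.ipr_sub, Dri.ipr_self, mul_smul_comm, Dri.ipr_smul, mul_add,
        Dri.ipr_add]
    unfold cvJ cvJ2
    rw [e1]
    ring
  have i1 : Integrable (fun y => cvJ2 L F t q X y) μ := fw_int_cont μ (cvJ2_cont L hF t q X)
  have c1 : Continuous fun y => ipr X (X * L.rho y) * (res L F y) ^ q := h4.mul (h1.pow q)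
  have c2 : Continuous fun y => ipr X (X * L.rho y⁻¹) * (res L F y) ^ q := h4'.mul (h1.pow q)
  have i2 : Integrable (fun y => t / q * (1 / 2) *
      (ipr X (X * L.rho y) * (res L F y) ^ q - ipr X (X * L.rho y⁻¹) * (res L F y) ^ q)) μ :=
    fw_int_cont μ (continuous_const.mul (c1.sub c2))
  have h5 : ∫ y, ipr X (X * L.rho y⁻¹) * (res L F y) ^ q ∂μ =
      ∫ y, ipr X (X * L.rho y) * (res L F y) ^ q ∂μ := by
    have h6 := integral_inv_eq_self (fun y => ipr X (X * L.rho y) * (res L F y) ^ q) μ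
    rw [← h6]
    refine integral_congr_ae (Filter.Eventually.of_forall fun y => ?_)
    simp only [TlM.res_inv cl]
  simp only [e]
  rw [integral_add i1 i2, integral_const_mul, integral_sub (fw_int_cont μ c1) (fw_int_cont μ c2),
    h5, sub_self, mul_zero, add_zero]

/-- pointwise bound of the error -/
theorem cvJ2_le {D : LogData m} {εg δ r0 r1 s b r' : ℝ} (P : Par L D εg δ r0 r1 s b r')
    {F : Mt m → ℂ} {t A r M a : ℝ} (cl1 : Cls L F t A r1 (r0 / 4) s b (1 / 10000))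
    (cl : Cls L F t A r (r / 4) (95 / 100 * r) (84 / 100 * r ^ 2) (1 / 10000)) (ht : 0 < t)
    (hA : 0 ≤ A) (hAt : A * t ≤ 1 / 10) (hr0 : 0 < r) (hr : r ≤ 1 / 1000)
    (hrr : r ≤ r0 / 10)
    (hδ : 2 * r ≤ δ) (hM : 0 < M) (ha : a = min (8 / 10 * r ^ 2 / M ^ 2) (7 / 10) / 2)
    {q : ℕ} (hq : 1 ≤ q) {X : Mt m} (hX : X ∈ lieSet L) {y : G} (hy : dis L y ≤ M) :
    |cvJ2 L F t q X y| ≤ (4 + 36 / r ^ 2 + 1) * (‖X‖ ^ 2 *
      t ^ 2 * (F 1).re ^ q) *
      ((1 + dis L y ^ 2 / t + (dis L y ^ 2 / t) ^ 2) * Real.exp (-(a * dis L y ^ 2 / t))) := by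
  have ch := P.ch
  have he0 := P.e0
  have he := P.e1
  have hP : 0 < (F 1).re := cl.pos
  have hres : 0 ≤ res L F y := cl.nonneg y
  have hd0 : 0 ≤ dis L y := norm_nonneg _
  have hXn : 0 ≤ ‖X‖ := norm_nonneg _
  have ha0 : 0 < a := by rw [ha]; positivity
  obtain ⟨P', hPd⟩ : ∃ P', P' = (F 1).re := ⟨_, rfl⟩
  obtain ⟨f, hfd⟩ : ∃ f, f = res L F y := ⟨_, rfl⟩
  obtain ⟨d, hdd⟩ : ∃ d, d = dis L y := ⟨_, rfl⟩
  obtain ⟨E, hEd⟩ : ∃ E, E = Real.exp (-(a * dis L y ^ 2 / t)) := ⟨_, rfl⟩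
  obtain ⟨s', hsd⟩ : ∃ s', s' = Real.sqrt t := ⟨_, rfl⟩
  have hs0 : 0 < s' := by rw [hsd]; exact Real.sqrt_pos.2 ht
  have hs2 : s' * s' = t := by rw [hsd]; exact Real.mul_self_sqrt ht.le
  have hE0 : 0 < E := by rw [hEd]; exact Real.exp_pos _
  have hE1 : E ≤ 1 := by
    rw [hEd]
    exact Real.exp_le_one_iff.2 (by
      have : 0 ≤ a * dis L y ^ 2 / t := by positivity
      linarith)
  obtain ⟨v, hvd⟩ : ∃ v, v = d / s' := ⟨_, rfl⟩
  obtain ⟨hm1, hm2, hv0⟩ := cv_mom (d := d) (v := v) (by rw [hdd]; exact hd0) ht (by rw [hvd, hsd])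
  rw [← hsd] at hm1
  have hfE : f ≤ P' * E := by
    rw [hfd, hPd, hEd]
    exact cv_res_le ch he0 he cl ht hA hAt hr0 hr hδ hM ha hy
  rw [← hfd] at hres
  rw [← hPd] at hP
  have hfP : f ≤ P' := hfE.trans (mul_le_of_le_one_right hP.le hE1)
  have hfq1 : f ^ (q - 1) ≤ P' ^ (q - 1) := pow_le_pow_left₀ hres hfP _
  have hfq10 : 0 ≤ f ^ (q - 1) := pow_nonneg hres _
  have eq1 : ∀ z : ℝ, z ^ (q - 1) * z = z ^ q := fun z => by
    rw [← pow_succ, Nat.sub_add_cancel hq]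
  have hfq : f ^ q ≤ P' ^ q * E := by
    rw [← eq1 f, ← eq1 P', mul_assoc]
    exact mul_le_mul hfq1 hfE hres (by positivity)
  have hfq0 : 0 ≤ f ^ q := pow_nonneg hres _
  obtain ⟨W, hWd⟩ : ∃ W, W = 1 + v ^ 2 + (v ^ 2) ^ 2 := ⟨_, rfl⟩
  have hW0 : 0 ≤ W := by rw [hWd]; positivity
  have hd1 : d = s' * v := hm1
  have hd2 : d ^ 2 = t * v ^ 2 := by rw [hd1, mul_pow, pow_two s', hs2]
  have hd4 : d ^ 4 = t ^ 2 * v ^ 4 := by
    rw [hd1, mul_pow, ← hs2]; ring
  have b2 : v ^ 2 ≤ W := by rw [hWd]; exact cv_v2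
  have b4 : v ^ 4 ≤ W := by rw [hWd]; exact cv_v4
  -- the second part
  have hsec : |t / q * (ipr X (X * sm L y) * (res L F y) ^ q)| ≤
      1 * (‖X‖ ^ 2 * t ^ 2 * P' ^ q) * (W * E) := by
    have e2 : |ipr X (X * sm L y)| ≤ ‖X‖ ^ 2 * (1 / 2 * d ^ 2) := by
      refine (ipr_abs_le _ _).trans ?_
      rw [pow_two, mul_assoc, hdd]
      exact mul_le_mul_of_nonneg_left ((norm_mul_le _ _).trans
        (mul_le_mul_of_nonneg_left (sm_le L y) hXn)) hXn
    have hq1 : (1 : ℝ) ≤ q := by exact_mod_cast hq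
    have e3 : t / q ≤ t := div_le_self ht.le hq1
    have e4 : 0 ≤ t / q := by positivity
    rw [← hfd, abs_mul, abs_mul, abs_of_nonneg e4, abs_of_nonneg hfq0]
    calc t / q * (|ipr X (X * sm L y)| * f ^ q)
        ≤ t * ((‖X‖ ^ 2 * (1 / 2 * d ^ 2)) * (P' ^ q * E)) :=
          mul_le_mul e3 (mul_le_mul e2 hfq hfq0 (by positivity)) (by positivity) ht.le
      _ = (‖X‖ ^ 2 * P' ^ q * E) * (t ^ 2 * (1 / 2 * v ^ 2)) := by rw [hd2]; ring
      _ ≤ (‖X‖ ^ 2 * P' ^ q * E) * (t ^ 2 * W) := by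
          refine mul_le_mul_of_nonneg_left (mul_le_mul_of_nonneg_left ?_ (by positivity))
            (by positivity)
          have : 0 ≤ v ^ 2 := sq_nonneg v
          linarith
      _ = _ := by ring
  -- the first part
  have hfst : |(res L F y) ^ (q - 1) * (ipr X (L.rho y) * (ipr X (L.rho y) * res L F y +
      t * dfy L F X y))| ≤
      (4 + 36 / r ^ 2) * (‖X‖ ^ 2 * t ^ 2 * P' ^ q) *
        (W * E) := by
    rcases lt_or_ge (dis L y) (r / 2) with hn | hfar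
    · have h1 := near2 L P cl1 ht hA hAt hX (y := y) (by linarith)
      rw [← hfd, ← hdd] at h1
      rw [← hfd, abs_mul, abs_of_nonneg hfq10]
      calc f ^ (q - 1) * |ipr X (L.rho y) * (ipr X (L.rho y) * f + t * dfy L F X y)|
          ≤ f ^ (q - 1) * (4 * ‖X‖ ^ 2 * d ^ 4 * f) :=
            mul_le_mul_of_nonneg_left h1 hfq10
        _ = 4 * ‖X‖ ^ 2 * d ^ 4 * (f ^ (q - 1) * f) := by
            ring
        _ = 4 * ‖X‖ ^ 2 * d ^ 4 * f ^ q := by rw [eq1]
        _ ≤ 4 * ‖X‖ ^ 2 * (t ^ 2 * W) * (P' ^ q * E) := by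
            rw [hd4]
            exact mul_le_mul (mul_le_mul_of_nonneg_left (mul_le_mul_of_nonneg_left b4
              (by positivity)) (by positivity)) hfq hfq0 (by positivity)
        _ = 4 * (‖X‖ ^ 2 * t ^ 2 * P' ^ q) * (W * E) := by ring
        _ ≤ _ := by
            refine mul_le_mul_of_nonneg_right (mul_le_mul_of_nonneg_right ?_ (by positivity))
              (by positivity)
            have : 0 ≤ 36 / r ^ 2 := by positivity
            linarith
    · have h1 := cv_far ch he0 he cl ht hA hAt hr0 hr hδ hM ha hX hy hfar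
      have h2 := ipr_rho_le hX y
      rw [← hEd, ← hPd] at h1
      rw [← hdd] at h2 hfar
      have hd0' : 0 ≤ d := by rw [hdd]; exact hd0
      rw [← hfd, abs_mul, abs_of_nonneg hfq10, abs_mul]
      have hone : 1 ≤ 2 / r * d := by
        rw [div_mul_eq_mul_div, le_div_iff₀ hr0]; linarith
      have hone2 : 1 ≤ (2 / r * d) ^ 2 := one_le_pow₀ hone
      have h3 : |ipr X (L.rho y) * f + t * dfy L F X y| ≤
          ‖X‖ * d * f + t * (16 / r * ‖X‖ * (P' * E)) := by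
        refine (abs_add_le _ _).trans (add_le_add ?_ ?_)
        · rw [abs_mul, abs_of_nonneg hres]
          exact mul_le_mul_of_nonneg_right h2 hres
        · rw [abs_mul, abs_of_pos ht]
          exact mul_le_mul_of_nonneg_left h1 ht.le
      calc f ^ (q - 1) * (|ipr X (L.rho y)| * |ipr X (L.rho y) * f + t * dfy L F X y|)
          ≤ f ^ (q - 1) * ((‖X‖ * d) * (‖X‖ * d * f + t * (16 / r * ‖X‖ * (P' * E)))) :=
            mul_le_mul_of_nonneg_left (mul_le_mul h2 h3 (abs_nonneg _) (by positivity)) hfq10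
        _ = ‖X‖ ^ 2 * (d ^ 2 * (f ^ (q - 1) * f) + 16 / r * t * d * (f ^ (q - 1) * (P' * E))) := by
            ring
        _ ≤ ‖X‖ ^ 2 * (d ^ 2 * (P' ^ q * E) + 16 / r * t * d * (P' ^ (q - 1) * (P' * E))) := by
            refine mul_le_mul_of_nonneg_left ?_ (by positivity)
            refine add_le_add ?_ ?_
            · rw [eq1]; exact mul_le_mul_of_nonneg_left hfq (by positivity)
            · exact mul_le_mul_of_nonneg_left
                (mul_le_mul_of_nonneg_right hfq1 (by positivity)) (by positivity)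
        _ = ‖X‖ ^ 2 * (P' ^ q * E) * (d ^ 2 * 1 + 16 / r * t * d * 1) := by
            rw [← mul_assoc (P' ^ (q - 1)), eq1]; ring
        _ ≤ ‖X‖ ^ 2 * (P' ^ q * E) * (d ^ 2 * (2 / r * d) ^ 2 + 16 / r * t * d * (2 / r * d)) := by
            refine mul_le_mul_of_nonneg_left ?_ (by positivity)
            exact add_le_add (mul_le_mul_of_nonneg_left hone2 (by positivity))
              (mul_le_mul_of_nonneg_left hone (by positivity))
        _ = ‖X‖ ^ 2 * (P' ^ q * E) * (4 / r ^ 2 * d ^ 4 + 32 / r ^ 2 * (t * d ^ 2)) := by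
            field_simp
            ring
        _ ≤ (‖X‖ ^ 2 * (P' ^ q * E)) * ((4 + 36 / r ^ 2) * t ^ 2 * W) := by
            refine mul_le_mul_of_nonneg_left ?_ (by positivity)
            rw [hd4, hd2]
            have c1 : 4 / r ^ 2 * (t ^ 2 * v ^ 4) ≤ 4 / r ^ 2 * (t ^ 2 * W) :=
              mul_le_mul_of_nonneg_left (mul_le_mul_of_nonneg_left b4 (by positivity))
                (by positivity)
            have c2 : 32 / r ^ 2 * (t * (t * v ^ 2)) ≤ 32 / r ^ 2 * (t ^ 2 * W) := by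
              have e5 : t * (t * v ^ 2) = t ^ 2 * v ^ 2 := by ring
              rw [e5]
              exact mul_le_mul_of_nonneg_left (mul_le_mul_of_nonneg_left b2 (by positivity))
                (by positivity)
            have c3 : 0 ≤ 4 * (t ^ 2 * W) := by positivity
            have e6 : (4 + 36 / r ^ 2) * t ^ 2 * W =
                4 / r ^ 2 * (t ^ 2 * W) + 32 / r ^ 2 * (t ^ 2 * W) + 4 * (t ^ 2 * W) := by ring
            rw [e6]
            linarith
        _ = _ := by ring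
  have hWe : 1 + dis L y ^ 2 / t + (dis L y ^ 2 / t) ^ 2 = W := by
    rw [← hdd, hm2, hWd]
  rw [hWe, ← hEd, ← hPd]
  unfold cvJ2
  refine (abs_add_le _ _).trans ((add_le_add hfst hsec).trans (le_of_eq ?_))
  ring

end TlV

open TlV in
/-- Covariance: under the density proportional to `F ^ q` the coordinate
`⟨X, log y⟩ ≈ Re tr (X^* y)` has variance `t |X|² / q` up to a relative error of order `t`. -/
theorem covar2 {D : LogData m} {εg δ r0 r s b r' : ℝ} (P : Par L D εg δ r0 r s b r') (q : ℕ)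
    (hq : 1 ≤ q) :
    ∃ C ts : ℝ, 0 < C ∧ 0 < ts ∧ ∀ (F : Mt m → ℂ) (t A : ℝ), 0 < t → t ≤ ts → 0 ≤ A →
      A * t ≤ 1 / 10 → Cls L F t A r (r0 / 4) s b (1 / 10000) →
      ∀ X ∈ lieSet L,
        |∫ y, ipr X (L.rho y) ^ 2 * (res L F y) ^ q ∂μ -
            t / q * ‖X‖ ^ 2 * ∫ y, (res L F y) ^ q ∂μ| ≤
          C * (1 + A) * t ^ 2 * ‖X‖ ^ 2 * ∫ y, (res L F y) ^ q ∂μ := by
  have hr00 := P.r0_pos
  have hr01 := P.r0_le
  have hδ' := P.r0_δ
  obtain ⟨ρ, hρd⟩ : ∃ ρ : ℝ, ρ = r0 / 10 := ⟨_, rfl⟩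
  have hr0 : 0 < ρ := by rw [hρd]; positivity
  have hδ : 2 * ρ ≤ δ := by linarith
  have hr1 : ρ ≤ 1 / 1000 := by linarith
  obtain ⟨M, hMd⟩ : ∃ M : ℝ, M = uB m + ‖(1 : Mt m)‖ + 1 := ⟨_, rfl⟩
  have hM : 0 < M := by
    have := uB_nonneg (m := m)
    have := norm_nonneg (1 : Mt m)
    linarith
  have hdM : ∀ y, dis L y ≤ M := fun y => (HaarAux.dis_le L y).trans (by linarith)
  obtain ⟨a, had⟩ : ∃ a : ℝ, a = min (8 / 10 * ρ ^ 2 / M ^ 2) (7 / 10) / 2 := ⟨_, rfl⟩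
  have ha0 : 0 < a := by rw [had]; positivity
  obtain ⟨Cg, hCg, hG⟩ := gauss_moment μ L a ha0
  obtain ⟨K, hKd⟩ : ∃ K : ℝ, K = 4 + 36 / ρ ^ 2 + 1 := ⟨_, rfl⟩
  have hK : 0 < K := by rw [hKd]; positivity
  refine ⟨K * Cg * Real.exp q, min 1 (ρ ^ 2 / 16), by positivity, by positivity,
    fun F t A ht hts hA hAt cl1 X hX => ?_⟩
  have cl := cl1.shrink L P ht hA hAt hr0 (show ρ ≤ r0 / 2 by linarith)
  have ht1 : t ≤ 1 := hts.trans (min_le_left _ _)
  have htr : 16 * t ≤ ρ ^ 2 := by have := hts.trans (min_le_right _ _); linarith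
  rw [cvJ2_int μ L cl1 hq hX]
  have hP : 0 < (F 1).re := cl.pos
  have hlow := cv_low μ L P.ch P.e0 P.e1 cl ht ht1 htr hA hAt hr0 hr1 hδ hM had q
  have hpt : ∀ y, |cvJ2 L F t q X y| ≤ K * (‖X‖ ^ 2 * t ^ 2 * (F 1).re ^ q) *
      ((1 + dis L y ^ 2 / t + (dis L y ^ 2 / t) ^ 2) * Real.exp (-(a * dis L y ^ 2 / t))) := by
    intro y
    rw [hKd]
    exact cvJ2_le L P cl1 cl ht hA hAt hr0 hr1 hρd.le hδ hM had hq hX (hdM y)
  have hdc := HaarAux.dis_cont L
  have h1 : |∫ y, cvJ2 L F t q X y ∂μ| ≤ ∫ y, |cvJ2 L F t q X y| ∂μ :=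
    abs_integral_le_integral_abs
  have hcJ := cvJ2_cont L cl.diff t q X
  have hcG : Continuous fun y => K * (‖X‖ ^ 2 * t ^ 2 * (F 1).re ^ q) *
      ((1 + dis L y ^ 2 / t + (dis L y ^ 2 / t) ^ 2) * Real.exp (-(a * dis L y ^ 2 / t))) := by
    fun_prop
  have h2 := integral_mono (μ := μ) (fw_int_cont μ hcJ.abs) (fw_int_cont μ hcG) hpt
  rw [integral_const_mul] at h2
  have h3 := hG t ht
  have h4 : |∫ y, cvJ2 L F t q X y ∂μ| ≤ K * Cg * Real.exp q * t ^ 2 * ‖X‖ ^ 2 *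
      ∫ y, (res L F y) ^ q ∂μ := by
    calc |∫ y, cvJ2 L F t q X y ∂μ|
        ≤ K * (‖X‖ ^ 2 * t ^ 2 * (F 1).re ^ q) *
          (Cg * μ.real (bal L (Real.sqrt t))) :=
          (h1.trans h2).trans (mul_le_mul_of_nonneg_left h3 (by positivity))
      _ = (K * Cg * (‖X‖ ^ 2 * t ^ 2)) *
          ((F 1).re ^ q * μ.real (bal L (Real.sqrt t))) := by ring
      _ ≤ (K * Cg * (‖X‖ ^ 2 * t ^ 2)) *
          (Real.exp q * ∫ y, (res L F y) ^ q ∂μ) :=
          mul_le_mul_of_nonneg_left hlow (by positivity)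
      _ = _ := by ring
  refine h4.trans ?_
  have h5 : 0 ≤ ∫ y, (res L F y) ^ q ∂μ := integral_nonneg fun y => pow_nonneg (cl.nonneg y) q
  have h6 : 0 ≤ K * Cg * Real.exp q * t ^ 2 * ‖X‖ ^ 2 * ∫ y, (res L F y) ^ q ∂μ := by positivity
  have e7 : K * Cg * Real.exp q * (1 + A) * t ^ 2 * ‖X‖ ^ 2 * ∫ y, (res L F y) ^ q ∂μ =
      K * Cg * Real.exp q * t ^ 2 * ‖X‖ ^ 2 * (∫ y, (res L F y) ^ q ∂μ) +
      A * (K * Cg * Real.exp q * t ^ 2 * ‖X‖ ^ 2 * ∫ y, (res L F y) ^ q ∂μ) := by ring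
  rw [e7]
  have h8 := mul_nonneg hA h6
  linarith

open HaarAux in
/-- the running coupling is the dimension times `t` up to `O(t²)` -/
theorem obs_as2 {D : LogData m} {εg δ r0 r s b r' : ℝ} (P : Par L D εg δ r0 r s b r') :
    ∃ C ts : ℝ, 0 < C ∧ 0 < ts ∧ ∀ (F : Mt m → ℂ) (t A : ℝ), 0 < t → t ≤ ts →
      0 ≤ A → A * t ≤ 1 / 10 → Cls L F t A r (r0 / 4) s b (1 / 10000) →
      |∫ y, dis L y ^ 2 * nres μ L F y ∂μ - Module.finrank ℝ (lieAlg L) * t| ≤
        C * (1 + A) * t ^ 2 := by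
  classical
  obtain ⟨Cm, hCm0, hCm⟩ := Obs.moments μ L b (Obs.b_pos P)
  obtain ⟨C1, ts1, hC1, hts1, hcov⟩ := covar2 μ L P 1 le_rfl
  obtain ⟨X, hX0, hX1, hX2, hX3⟩ := Obs.exists_onb L
  have hr0 := P.r0_pos
  have hr01 := P.r0_le
  have hδ := P.r0_δ
  have hδ0 : 0 < δ := by linarith
  obtain ⟨E, hE⟩ : ∃ E, E = Real.exp (51 / 100) := ⟨_, rfl⟩
  have hE0 : 0 < E := by rw [hE]; exact Real.exp_pos _
  have hEinv : Real.exp (-(51 / 100)) = E⁻¹ := by rw [hE, Real.exp_neg]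
  obtain ⟨d, hd⟩ : ∃ d, d = Module.finrank ℝ (lieAlg L) := ⟨_, rfl⟩
  refine ⟨d * C1 + (2 + 1 / δ ^ 2) * (Cm * E), min ts1 ((r0 / 40) ^ 2), by positivity,
    by positivity, ?_⟩
  intro F t A ht hts hA hAt cl
  have hst : 0 < Real.sqrt t := Real.sqrt_pos.2 ht
  have hstr : Real.sqrt t < r0 / 20 := by
    have h1 : Real.sqrt t ≤ r0 / 40 := by
      rw [← Real.sqrt_sq (show (0 : ℝ) ≤ r0 / 40 by positivity)]
      exact Real.sqrt_le_sqrt (hts.trans (min_le_right _ _))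
    linarith
  have hst1 : Real.sqrt t ≤ 1 := by linarith
  have hsq : Real.sqrt t * Real.sqrt t = t := Real.mul_self_sqrt ht.le
  have htst : t ≤ Real.sqrt t := by nlinarith
  have ht1 : t ≤ 1 := htst.trans hst1
  have hdc := dis_cont L
  have hrc : Continuous (res L F) := res_cont L cl.diff
  obtain ⟨M, hM⟩ : ∃ M, M = (F 1).re := ⟨_, rfl⟩
  obtain ⟨Z, hZ⟩ : ∃ Z, Z = ∫ y, res L F y ∂μ := ⟨_, rfl⟩
  obtain ⟨B, hB⟩ : ∃ B, B = μ.real (bal L (Real.sqrt t)) := ⟨_, rfl⟩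
  have hM0 : 0 < M := by rw [hM]; exact cl.pos
  have hB0 : 0 < B := by rw [hB]; exact bal_pos μ L _ hst
  have hZlow : M * E⁻¹ * B ≤ Z := by
    rw [hM, ← hEinv, hB, hZ]
    exact Obs.Z_lower μ P cl ht hA hAt hstr
  have hZ0 : 0 < Z := by
    have : 0 < M * E⁻¹ * B := by positivity
    linarith
  have hres0 : ∀ y, 0 ≤ res L F y := fun y => Obs.res_nonneg cl y
  have hint : ∫ y, dis L y ^ 2 * nres μ L F y ∂μ = (∫ y, dis L y ^ 2 * res L F y ∂μ) / Z := by
    rw [← integral_div]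
    refine integral_congr_ae (Filter.Eventually.of_forall fun y => ?_)
    simp only [nres, hZ]
    ring
  have hcip : ∀ a, Continuous fun y => ipr (X a) (L.rho y) ^ 2 * res L F y := by
    intro a
    have h1 : Continuous fun y => ipr (X a) (L.rho y) := by
      unfold ipr
      exact Complex.continuous_re.comp ((continuous_const.matrix_mul L.cont).matrix_trace)
    exact (h1.pow 2).mul hrc
  have hc2 : Continuous fun y => dis L y ^ 2 * res L F y := by fun_prop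
  have hc4 : Continuous fun y => dis L y ^ 4 * res L F y := by fun_prop
  -- the projection
  have hA1 : |∫ y, dis L y ^ 2 * res L F y ∂μ - ∑ a, ∫ y, ipr (X a) (L.rho y) ^ 2 * res L F y ∂μ| ≤
      (2 + 1 / δ ^ 2) * (Cm * E) * t ^ 2 * Z := by
    rw [← integral_finsetSum _ fun a _ => intg μ (hcip a), ← integral_sub (intg μ hc2)
      (intg μ (continuous_finsetSum _ fun a _ => hcip a)), ← Real.norm_eq_abs]
    have h1 := norm_integral_le_of_norm_le (μ := μ)
      (f := fun y => dis L y ^ 2 * res L F y - ∑ a, ipr (X a) (L.rho y) ^ 2 * res L F y)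
      (g := fun y => (2 + 1 / δ ^ 2) * (dis L y ^ 4 * res L F y)) (intg μ (hc4.const_mul _))
      (Filter.Eventually.of_forall fun y => by
        rw [← Finset.sum_mul, ← sub_mul, norm_mul, Real.norm_eq_abs, Real.norm_eq_abs,
          abs_of_nonneg (hres0 y), ← mul_assoc]
        exact mul_le_mul_of_nonneg_right (Obs.proj_le P hX0 hX1 hX2 hX3 y) (hres0 y))
    refine h1.trans ?_
    rw [integral_const_mul]
    have h2 := Obs.mom_le μ P cl ht hA hAt hCm ht1 2 le_rfl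
    rw [← hM, ← hB] at h2
    have h3 : M * (Cm * t ^ 2 * B) = Cm * E * t ^ 2 * (M * E⁻¹ * B) := by field_simp
    have h4 := mul_le_mul_of_nonneg_left hZlow (show 0 ≤ Cm * E * t ^ 2 by positivity)
    have h5 : ∫ y, dis L y ^ 4 * res L F y ∂μ ≤ Cm * E * t ^ 2 * Z := by
      have h6 : (2 * 2 : ℕ) = 4 := by norm_num
      rw [h6] at h2
      linarith
    calc (2 + 1 / δ ^ 2) * ∫ y, dis L y ^ 4 * res L F y ∂μ ≤
          (2 + 1 / δ ^ 2) * (Cm * E * t ^ 2 * Z) := mul_le_mul_of_nonneg_left h5 (by positivity)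
      _ = _ := by ring
  -- the covariances
  have hA2 : |∑ a, ∫ y, ipr (X a) (L.rho y) ^ 2 * res L F y ∂μ - d * t * Z| ≤
      d * (C1 * (1 + A) * t ^ 2 * Z) := by
    have h1 : ∀ a, |∫ y, ipr (X a) (L.rho y) ^ 2 * res L F y ∂μ - t * Z| ≤
        C1 * (1 + A) * t ^ 2 * Z := by
      intro a
      have h2 := hcov F t A ht (hts.trans (min_le_left _ _)) hA hAt cl (X a) (hX0 a)
      simp only [pow_one, Nat.cast_one, div_one, hX1, one_pow, mul_one] at h2
      rw [← hZ] at h2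
      exact h2
    have h2 : ∑ a, ∫ y, ipr (X a) (L.rho y) ^ 2 * res L F y ∂μ - d * t * Z =
        ∑ a, (∫ y, ipr (X a) (L.rho y) ^ 2 * res L F y ∂μ - t * Z) := by
      rw [Finset.sum_sub_distrib, Finset.sum_const, Finset.card_univ, Fintype.card_fin,
        nsmul_eq_mul, hd]
      ring
    rw [h2]
    refine (Finset.abs_sum_le_sum_abs _ _).trans ((Finset.sum_le_sum fun a _ => h1 a).trans ?_)
    rw [Finset.sum_const, Finset.card_univ, Fintype.card_fin, nsmul_eq_mul, hd]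
  rw [hint, ← hd]
  have h3 : (∫ y, dis L y ^ 2 * res L F y ∂μ) / Z - d * t =
      (∫ y, dis L y ^ 2 * res L F y ∂μ - d * t * Z) / Z := by
    field_simp
  rw [h3, abs_div, abs_of_pos hZ0, div_le_iff₀ hZ0]
  have h4 : |∫ y, dis L y ^ 2 * res L F y ∂μ - d * t * Z| ≤
      (2 + 1 / δ ^ 2) * (Cm * E) * t ^ 2 * Z + d * (C1 * (1 + A) * t ^ 2 * Z) := by
    have h5 := abs_add_le
      (∫ y, dis L y ^ 2 * res L F y ∂μ - ∑ a, ∫ y, ipr (X a) (L.rho y) ^ 2 * res L F y ∂μ)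
      (∑ a, ∫ y, ipr (X a) (L.rho y) ^ 2 * res L F y ∂μ - d * t * Z)
    rw [sub_add_sub_cancel] at h5
    linarith
  refine h4.trans ?_
  have h5 : t ^ 2 ≤ (1 + A) * t ^ 2 := by
    have : 0 ≤ A * t ^ 2 := by positivity
    nlinarith
  have h6 := mul_le_mul_of_nonneg_left h5 (show 0 ≤ (2 + 1 / δ ^ 2) * (Cm * E) * Z by positivity)
  nlinarith

end

end Pool.Agent.T2H04.HY
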