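import Mathlib
import Pool.Agent.T2H04.HY.Conv6
import Pool.Agent.T2H04.HY.TlB

/-!
# The quartic part of an action
-/

open MeasureTheory Matrix Filter
open scoped Matrix.Norms.Frobenius Topology

namespace Pool.Agent.T2H04.HY

set_option linter.unusedSectionVars false

noncomputable section

variable {G : Type} [Group G] [TopologicalSpace G] [IsTopologicalGroup G] [CompactSpace G]
  {m : Type} [Fintype m] [DecidableEq m] {L : RD G m}

/-- the quartic part of the action `U` -/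
def v4 (U : Mt m → ℂ) (X : Mt m) : ℂ :=
  limUnder (𝓝[≠] (0 : ℝ)) fun s : ℝ =>
    (U (NormedSpace.exp ((s : ℂ) • X)) - Qf ((s : ℂ) • X) / 2) / (s : ℂ) ^ 4

/-- its double Laplacian -/
def lamU {n : ℕ} (E : Fin n → Mt m) (U : Mt m → ℂ) : ℝ :=
  (∑ a, ∑ b, (v4 U (E a + E b) + v4 U (E a - E b) - 2 * v4 U (E a) - 2 * v4 U (E b))).re / n

section

variable {F : Mt m → ℂ} {t A r r0 : ℝ} {w : gC L → ℂ} (hw : SFw L F t A r (r0 / 4) w)
  (hr0 : 0 < r0) (hr : r0 ≤ r) (hA : 0 ≤ A) (ht : 0 < t) {U : Mt m → ℂ}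
  (hF : F 1 ≠ 0) {c : ℂ} (hU : ∀ x, F x = c * Complex.exp (-(U x / t)))
  (hU1 : U 1 = 0) (hUr : ∀ g, (U (L.rho g)).im = 0)

include hw hr0 hr hA ht hF hU hU1 hUr

theorem sfw_q4 {X : Mt m} (hX : X ∈ lieSet L) :
    Tendsto (fun s : ℝ => (U (NormedSpace.exp ((s : ℂ) • X)) - Qf ((s : ℂ) • X) / 2) / (s : ℂ) ^ 4)
      (𝓝[≠] 0) (𝓝 (t * q4 w (prj L X))) := by
  have h1 := (q4_tendsto hw hr0 hr hA (prj L X)).const_mul (t : ℂ)
  have hcoe : ((prj L X : gC L) : Mt m) = X := coe_prj L (gC_of_lie L hX)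
  refine h1.congr' ?_
  have hc : c ≠ 0 := by
    intro h0
    apply hF
    rw [hU, h0, zero_mul]
  have hF1 : F 1 = c := by rw [hU, hU1, zero_div, neg_zero, Complex.exp_zero, mul_one]
  have hcont : Tendsto (fun s : ℝ => ‖((s : ℂ) • prj L X : gC L)‖) (𝓝[≠] 0) (𝓝 0) := by
    have h2 : Continuous fun s : ℝ => ‖((s : ℂ) • prj L X : gC L)‖ := by fun_prop
    have h3 := h2.tendsto 0
    simp only [Complex.ofReal_zero, zero_smul, norm_zero] at h3
    exact h3.mono_left nhdsWithin_le_nhds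
  have hb : ∀ᶠ s : ℝ in 𝓝[≠] 0, ‖((s : ℂ) • prj L X : gC L)‖ < r0 / 4 :=
    hcont.eventually (gt_mem_nhds (by positivity))
  filter_upwards [hb, self_mem_nhdsWithin] with s hs hs0
  have hs0' : (s : ℂ) ≠ 0 := by exact_mod_cast hs0
  have hmem : (s : ℂ) • prj L X ∈ dom L r (r0 / 4) :=
    ball_sub_dom (show r0 / 4 ≤ r by linarith) le_rfl (mem_ball_zero_iff.2 hs)
  have hcs : (((s : ℂ) • prj L X : gC L) : Mt m) = (s : ℂ) • X := by
    rw [Submodule.coe_smul, hcoe]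
  have him : imP ((((s : ℂ) • prj L X : gC L)) : Mt m) = 0 := by
    rw [hcs, imP_smul, imP_of_skew (lie_skew L hX), smul_zero]
  have hwr : (w ((s : ℂ) • prj L X)).im = 0 := hw.real _ hmem him
  have hQr : (Qf ((s : ℂ) • X)).im = 0 := by
    rw [← hcs]; exact Qf_im_of_real him
  have hUr' : (U (NormedSpace.exp ((s : ℂ) • X))).im = 0 := by
    obtain ⟨g, hg⟩ := hX s
    have e : NormedSpace.exp ((s : ℂ) • X) = L.rho g := by
      rw [hg]
      congr 1
    rw [e]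
    exact hUr g
  have h3 := hw.eq _ hmem
  rw [hcs, hF1, hU] at h3
  have h4 := mul_left_cancel₀ hc h3
  set u := U (NormedSpace.exp ((s : ℂ) • X)) with hu
  set q := Qf ((s : ℂ) • X) with hq
  set v := w ((s : ℂ) • prj L X) with hv
  have eu : u = ((u.re : ℝ) : ℂ) := Complex.ext (by simp) (by simp [hUr'])
  have eq : q = ((q.re : ℝ) : ℂ) := Complex.ext (by simp) (by simp [hQr])
  have ev : v = ((v.re : ℝ) : ℂ) := Complex.ext (by simp) (by simp [hwr])
  have h5 : u.re / t = q.re / (2 * t) + v.re := by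
    rw [eu, eq, ev] at h4
    have e1 : (-(((u.re : ℝ) : ℂ) / (t : ℂ))) = ((-(u.re / t) : ℝ) : ℂ) := by push_cast; ring
    have e2 : (-(((q.re : ℝ) : ℂ) / (2 * (t : ℂ))) - ((v.re : ℝ) : ℂ)) =
        ((-(q.re / (2 * t)) - v.re : ℝ) : ℂ) := by push_cast; ring
    rw [e1, e2, ← Complex.ofReal_exp, ← Complex.ofReal_exp] at h4
    have h6 := Real.exp_injective (Complex.ofReal_injective h4)
    linarith
  have h7 : (t : ℂ) * v = u - q / 2 := by
    rw [eu, eq, ev]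
    have h8 : t * v.re = u.re - q.re / 2 := by
      field_simp at h5
      linarith
    exact_mod_cast congrArg (fun x : ℝ => (x : ℂ)) h8
  rw [← mul_div_assoc, h7]

theorem sfw_v4 {X : Mt m} (hX : X ∈ lieSet L) : v4 U X = t * q4 w (prj L X) :=
  (sfw_q4 hw hr0 hr hA ht hF hU hU1 hUr hX).limUnder_eq

theorem sfw_lam {n : ℕ} (E : Fin n → Mt m) (hE : ∀ a, E a ∈ lieSet L) :
    lam E w * t = lamU E U := by
  have h1 : ∀ a b, v4 U (E a + E b) + v4 U (E a - E b) - 2 * v4 U (E a) - 2 * v4 U (E b) =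
      (t : ℂ) * P4 w (prj L (E a)) (prj L (E b)) := by
    intro a b
    rw [sfw_v4 hw hr0 hr hA ht hF hU hU1 hUr (lie_add L (hE a) (hE b)),
      sfw_v4 hw hr0 hr hA ht hF hU hU1 hUr (lie_sub L (hE a) (hE b)),
      sfw_v4 hw hr0 hr hA ht hF hU hU1 hUr (hE a), sfw_v4 hw hr0 hr hA ht hF hU hU1 hUr (hE b)]
    unfold P4
    rw [map_add, map_sub]
    ring
  unfold lamU lam
  simp only [h1, ← Finset.mul_sum, Complex.re_ofReal_mul]
  ring

end

end

end Pool.Agent.T2H04.HY
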