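import Mathlib
import Pool.Agent.T2H04.HY.ActDefs
import Pool.Agent.T2H04.HY.Fin1
import Pool.Agent.T2H04.HY.Link3
import Pool.Agent.T2H04.HY.TlH

/-!
# The two loop asymptotics for two actions
-/

open MeasureTheory Matrix Filter
open scoped Matrix.Norms.Frobenius Topology

namespace Pool.Agent.T2H04.HY

set_option linter.unusedSectionVars false

noncomputable section

variable {G : Type} [Group G] [TopologicalSpace G] [IsTopologicalGroup G] [CompactSpace G]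
  {m : Type} [Fintype m] [DecidableEq m]

/-- Wilson's action -/
def wU (x : Mt m) : ℂ := trace (1 : Mt m) - trace x

theorem Wt_eq {t : ℝ} (x : Mt m) :
    Wt t x = Complex.exp (trace (1 : Mt m) / t) * Complex.exp (-(wU x / t)) := by
  unfold Wt wU
  rw [← Complex.exp_add]
  congr 1
  ring

theorem wU_one : wU (1 : Mt m) = 0 := sub_self _

theorem wU_real (L : RD G m) (g : G) : (wU (L.rho g)).im = 0 := by
  have h1 : trace (L.rho g⁻¹) = trace (L.rho g) := by rw [← L.sig_rho, L.sig_tr]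
  rw [rho_inv, trace_conjTranspose] at h1
  have h2 := congrArg Complex.im h1
  have h3 : (star (trace (L.rho g))).im = -(trace (L.rho g)).im := Complex.conj_im _
  rw [h3] at h2
  have h4 : (trace (L.rho g)).im = 0 := by linarith
  unfold wU
  rw [Complex.sub_im, h4, trace_one, Complex.natCast_im, sub_zero]

theorem At_eq {V : Mt m → ℂ} {t : ℝ} (x : Mt m) :
    At V t x = 1 * Complex.exp (-(V x / t)) := by
  unfold At
  rw [one_mul]

theorem At_one_ne {V : Mt m → ℂ} {t : ℝ} : At V t 1 ≠ 0 := Complex.exp_ne_zero _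

theorem Wt_one_ne {t : ℝ} : Wt t (1 : Mt m) ≠ 0 := Complex.exp_ne_zero _

/-- the quartic part of an action exists -/
theorem act_v4 {L : RD G m} {V : Mt m → ℂ} (hV : Act L V) (hI : InC L (At V)) {X : Mt m}
    (hX : X ∈ lieSet L) :
    Tendsto (fun s : ℝ => (V (NormedSpace.exp ((s : ℂ) • X)) - Qf ((s : ℂ) • X) / 2) / (s : ℂ) ^ 4)
      (𝓝[≠] 0) (𝓝 (v4 V X)) := by
  obtain ⟨r1, hr1, h⟩ := hI
  obtain ⟨w, hw⟩ := (h r1 hr1 le_rfl 1 one_pos).sf
  have h1 := sfw_q4 hw hr1 le_rfl (by norm_num) one_pos At_one_ne At_eq hV.one hV.real hX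
  have h2 := sfw_v4 hw hr1 le_rfl (by norm_num) one_pos At_one_ne At_eq hV.one hV.real hX
  rw [h2]
  exact h1

theorem wU_v4 (L : RD G m) {X : Mt m} (hX : X ∈ lieSet L) :
    Tendsto (fun s : ℝ => (wU (NormedSpace.exp ((s : ℂ) • X)) - Qf ((s : ℂ) • X) / 2) / (s : ℂ) ^ 4)
      (𝓝[≠] 0) (𝓝 (v4 wU X)) := by
  obtain ⟨D⟩ := exists_log (m := m)
  obtain ⟨r1, hr1, h⟩ := wilson_cls L D
  obtain ⟨w, hw⟩ := (h r1 hr1 le_rfl 1 one_pos).sf
  have h1 := sfw_q4 hw hr1 le_rfl (by norm_num) one_pos Wt_one_ne Wt_eq wU_one (wU_real L) hX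
  have h2 := sfw_v4 hw hr1 le_rfl (by norm_num) one_pos Wt_one_ne Wt_eq wU_one (wU_real L) hX
  rw [h2]
  exact h1

variable [MeasurableSpace G] [BorelSpace G] (μ : Measure G) [μ.IsHaarMeasure]
  [IsProbabilityMeasure μ] (L : RD G m)

theorem two_actions_tl (hs : Simple L) {n : ℕ} (hn : 0 < n) (E : Fin n → Mt m)
    (hE : ∀ a, E a ∈ lieSet L)
    (orth : ∀ a b, (trace ((E a)ᴴ * E b)).re = if a = b then 1 else 0)
    (full : ∀ Y ∈ lieSet L, Y ∈ Submodule.span ℝ (Set.range E))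
    (V : Mt m → ℂ) (hV : Act L V) (hI : InC L (At V)) :
    ∃ κ1 : ℝ, 0 < κ1 ∧ ∀ κ : ℝ, 0 < κ → κ ≤ κ1 → ∀ (t t' : ℕ → ℝ) (k k' : ℕ → ℕ),
      (∀ j, 0 < t j) → (∀ j, 0 < t' j) → Tendsto t atTop (𝓝 0) → Tendsto t' atTop (𝓝 0) →
      Tendsto (fun j => g2 μ L ((mk μ)^[k j] (wil μ L (t j)))) atTop (𝓝 κ) →
      Tendsto (fun j => g2 μ L ((mk μ)^[k' j] (nres μ L (At V (t' j))))) atTop (𝓝 κ) →
      Tendsto (fun j =>
        ((k j : ℝ) - Psi ((∑ a, ∑ b, ‖E a * E b - E b * E a‖ ^ 2) / n)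
          (1 / t j + 4 / 5 * lamU E wU)) -
        ((k' j : ℝ) - Psi ((∑ a, ∑ b, ‖E a * E b - E b * E a‖ ^ 2) / n)
          (1 / t' j + 4 / 5 * lamU E V))) atTop (𝓝 0) := by
  obtain ⟨cas, hcas0, hcas, hcasn⟩ := cas_exists hs E hE orth full
  have hn0 : (0 : ℝ) < n := by exact_mod_cast hn
  have hcn : (∑ a, ∑ b, ‖E a * E b - E b * E a‖ ^ 2) / n = cas := by
    rw [← hcasn]
    field_simp
  rw [hcn]
  obtain ⟨r0, Good, ts, C, ρs, c, ts3, C3, p, Ds, hr0, uv, uv2, uv3, hG, hW, hI', -⟩ :=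
    uv_both3 μ L hs hn E hE orth full (finrank_lieAlg E hE orth full) cas hcas0 hcas (At V) hI
  obtain ⟨κ1, hκ1, H⟩ := two_loop μ L hs.conn (hne_of_simple L hs) Good ts C ρs c cas n p uv
    (stp μ) (fun S : St L => nres μ L S.F) (fun S => S.t) (fun S => lam E S.w)
    (fun S A => GSt L r0 S A ∧ S.t ≤ 2 * ts) Ds ts C c uv2 ts3 C3 uv3 hG le_rfl
  have hts := uv2.ts_pos
  refine ⟨κ1, hκ1, fun κ hκ hκ1' t t' k k' ht ht' htt htt' hg hg' => ?_⟩
  -- the initial states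
  have : Nonempty (St L) := ⟨⟨0, 0, 0⟩⟩
  choose! SW hW1 hW2 hW3 using hW
  choose! SI hI1 hI2 hI3 using hI'
  set u : ℕ → ℝ := fun j => min (t j) ts with hu
  set u' : ℕ → ℝ := fun j => min (t' j) ts with hu'
  have hu0 : ∀ j, 0 < u j := fun j => lt_min (ht j) hts
  have hu1 : ∀ j, u j ≤ ts := fun j => min_le_right _ _
  have hu0' : ∀ j, 0 < u' j := fun j => lt_min (ht' j) hts
  have hu1' : ∀ j, u' j ≤ ts := fun j => min_le_right _ _
  have hev : ∀ᶠ j in atTop, u j = t j := by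
    filter_upwards [htt.eventually (gt_mem_nhds hts)] with j hj
    exact min_eq_left hj.le
  have hev' : ∀ᶠ j in atTop, u' j = t' j := by
    filter_upwards [htt'.eventually (gt_mem_nhds hts)] with j hj
    exact min_eq_left hj.le
  have hut : Tendsto u atTop (𝓝 0) := htt.congr' (hev.mono fun j hj => hj.symm)
  have hut' : Tendsto u' atTop (𝓝 0) := htt'.congr' (hev'.mono fun j hj => hj.symm)
  have key := H κ hκ hκ1' (fun j => SW (u j)) (fun j => SI (u' j)) (fun j => 1 / (20 * u j))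
    (fun j => 1 / (20 * u' j)) k k' (fun j => hW1 _ (hu0 j) (hu1 j))
    (fun j => hI1 _ (hu0' j) (hu1' j))
    (by
      refine hut.congr fun j => ?_
      exact (hW3 _ (hu0 j) (hu1 j)).symm)
    (by
      refine hut'.congr fun j => ?_
      exact (hI3 _ (hu0' j) (hu1' j)).symm)
    (by
      refine hg.congr' (hev.mono fun j hj => ?_)
      simp only
      rw [hW2 _ (hu0 j) (hu1 j), hj, nres_Wt])
    (by
      refine hg'.congr' (hev'.mono fun j hj => ?_)
      simp only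
      rw [hI2 _ (hu0' j) (hu1' j), hj])
  have hlW : ∀ j, lam E (SW (u j)).w * (SW (u j)).t = lamU E wU := by
    intro j
    obtain ⟨h1, -⟩ := hW1 _ (hu0 j) (hu1 j)
    have h2 := hW2 _ (hu0 j) (hu1 j)
    refine sfw_lam h1.sf hr0 le_rfl h1.A0 h1.p (F := (SW (u j)).F) (c := Complex.exp
      (trace (1 : Mt m) / ((SW (u j)).t : ℂ))) ?_ ?_ wU_one (wU_real L) E hE
    · rw [h2]; exact Wt_one_ne
    · intro x
      rw [h2, hW3 _ (hu0 j) (hu1 j)]
      exact Wt_eq x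
  have hlI : ∀ j, lam E (SI (u' j)).w * (SI (u' j)).t = lamU E V := by
    intro j
    obtain ⟨h1, -⟩ := hI1 _ (hu0' j) (hu1' j)
    have h2 := hI2 _ (hu0' j) (hu1' j)
    refine sfw_lam h1.sf hr0 le_rfl h1.A0 h1.p (F := (SI (u' j)).F) (c := 1) ?_ ?_ hV.one hV.real
      E hE
    · rw [h2]; exact At_one_ne
    · intro x
      rw [h2, hI3 _ (hu0' j) (hu1' j)]
      exact At_eq x
  refine key.congr' ?_
  filter_upwards [hev, hev'] with j hj hj'
  rw [hlW, hlI, hW3 _ (hu0 j) (hu1 j), hI3 _ (hu0' j) (hu1' j), hj, hj']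

end

end Pool.Agent.T2H04.HY
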