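import Mathlib
import Pool.Agent.T2H04.HY.Blk
import Pool.Agent.T2H04.HY.KSum
import Pool.Agent.T2H04.HY.TlH

/-!
# The two loop asymptotics in the notation of the main theorem
-/

open MeasureTheory Matrix Filter
open scoped Matrix.Norms.Frobenius Topology

namespace Pool.Agent.T2H04.HY

set_option linter.unusedSectionVars false

noncomputable section

variable {G : Type} [Group G] [TopologicalSpace G] [IsTopologicalGroup G] [CompactSpace G]
  {N : ℕ} (R : URep G N)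

namespace TlH

open KS Blk

variable (k : ℕ) [NeZero k]

/-- the embedding of the Lie algebra -/
def em (Y : Matrix (Fin N) (Fin N) ℂ) : Mt (Fin k × (Fin N ⊕ Fin N)) :=
  KR (Fin N ⊕ Fin N) k (PhiR N Y)

theorem em_add (Y Z : Matrix (Fin N) (Fin N) ℂ) : em k (Y + Z) = em k Y + em k Z := by
  unfold em; rw [map_add, map_add]

theorem em_sub (Y Z : Matrix (Fin N) (Fin N) ℂ) : em k (Y - Z) = em k Y - em k Z := by
  unfold em; rw [map_sub, map_sub]

theorem em_smul (r : ℝ) (Y : Matrix (Fin N) (Fin N) ℂ) : em k (r • Y) = r • em k Y := by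
  unfold em; rw [PhiR_smul, KR_rsmul]

theorem em_norm (Y : Matrix (Fin N) (Fin N) ℂ) : ‖em k Y‖ ^ 2 = 2 * k * ‖Y‖ ^ 2 := by
  unfold em
  rw [KR_norm, PhiR_norm]
  ring

theorem em_exp (Y : Matrix (Fin N) (Fin N) ℂ) :
    NormedSpace.exp (em k Y) = em k (NormedSpace.exp Y) := by
  unfold em
  rw [PhiR_exp, KR_exp]

theorem em_rho (g : G) : (ksum (blk R) k).rho g = em k (R.rho g) := rfl

theorem em_lie {Y : Matrix (Fin N) (Fin N) ℂ} (hY : Y ∈ lieN R) :
    em k Y ∈ lieSet (ksum (blk R) k) :=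
  (KS.mem_lie (blk R) k).2 ((mem_lie_phi R).2 hY)

variable {k}

theorem Qf_lie' {m : Type} [Fintype m] [DecidableEq m] {L : RD G m} {X : Mt m}
    (hX : X ∈ lieSet L) : Qf X = ((‖X‖ ^ 2 : ℝ) : ℂ) := by
  have h3 : imP X = 0 := imP_of_skew (lie_skew L hX)
  have h4 : Qf X = (((Qf X).re : ℝ) : ℂ) :=
    Complex.ext (by simp) (by rw [Complex.ofReal_im]; exact Qf_im_of_real h3)
  have h5 : (Qf X).re = ‖X‖ ^ 2 := by
    have h6 := norm_sq_gC (L := L) ⟨X, gC_of_lie L hX⟩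
    have h7 : ‖(⟨X, gC_of_lie L hX⟩ : gC L)‖ = ‖X‖ := rfl
    rw [h7] at h6
    rw [Qf_re, h6]
    simp only [h3, norm_zero]
    ring
  rw [h4, h5]

theorem ofReal_smul' {m : Type} [Fintype m] [DecidableEq m] (s : ℝ) (X : Mt m) :
    (s : ℂ) • X = s • X := rfl

variable {U : Mt (Fin k × (Fin N ⊕ Fin N)) → ℂ} {V : G → ℝ}
  (hU : ∀ g : G, U ((ksum (blk R) k).rho g) = ((2 * k * V g : ℝ) : ℂ))
  (hlim : ∀ X ∈ lieSet (ksum (blk R) k),
    Tendsto (fun s : ℝ => (U (NormedSpace.exp ((s : ℂ) • X)) - Qf ((s : ℂ) • X) / 2) / (s : ℂ) ^ 4)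
      (𝓝[≠] 0) (𝓝 (v4 U X)))

include hlim in
theorem v4_smul {c : ℝ} (hc : c ≠ 0) {X : Mt (Fin k × (Fin N ⊕ Fin N))}
    (hX : X ∈ lieSet (ksum (blk R) k)) : v4 U (c • X) = (c : ℂ) ^ 4 * v4 U X := by
  have h1 := hlim X hX
  have h2 := hlim (c • X) (lie_smul _ c hX)
  have h3 : Tendsto (fun s : ℝ => s * c) (𝓝[≠] 0) (𝓝[≠] 0) := by
    refine tendsto_nhdsWithin_iff.2 ⟨?_, ?_⟩
    · have : Continuous fun s : ℝ => s * c := by fun_prop
      have h4 := this.tendsto 0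
      rw [zero_mul] at h4
      exact h4.mono_left nhdsWithin_le_nhds
    · filter_upwards [self_mem_nhdsWithin] with s hs
      exact mul_ne_zero hs hc
  have h4 := (h1.comp h3).const_mul ((c : ℂ) ^ 4)
  refine tendsto_nhds_unique (h2.congr' ?_) h4
  filter_upwards [self_mem_nhdsWithin] with s hs
  have hs' : (s : ℂ) ≠ 0 := by exact_mod_cast hs
  have hc' : (c : ℂ) ≠ 0 := by exact_mod_cast hc
  have e : (s : ℂ) • (c • X) = ((s * c : ℝ) : ℂ) • X := by
    rw [ofReal_smul', ofReal_smul', smul_smul]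
  rw [e]
  simp only [Function.comp_apply]
  push_cast
  field_simp

include hU hlim in
theorem quart {Y : Matrix (Fin N) (Fin N) ℂ} (hY : Y ∈ lieN R) {γ : ℝ → G}
    (hγ : ∀ s, R.rho (γ s) = NormedSpace.exp (s • Y)) :
    Tendsto (fun s : ℝ => (V (γ s) - s ^ 2 * ‖Y‖ ^ 2 / 2) / s ^ 4) (𝓝[≠] 0)
      (𝓝 ((v4 U (em k Y)).re / (2 * k))) := by
  have hk : (0 : ℝ) < 2 * k := by
    have := Nat.pos_of_ne_zero (NeZero.ne k)
    have : (0 : ℝ) < k := by exact_mod_cast this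
    positivity
  have h1 := (Complex.continuous_re.tendsto _).comp (hlim _ (em_lie R k hY))
  have h2 := h1.div_const (2 * k)
  refine h2.congr fun s => ?_
  simp only [Function.comp_apply]
  have e1 : NormedSpace.exp ((s : ℂ) • em k Y) = (ksum (blk R) k).rho (γ s) := by
    rw [ofReal_smul', ← em_smul, em_exp, em_rho, hγ]
  have e2 : Qf ((s : ℂ) • em k Y) = ((s ^ 2 * (2 * k * ‖Y‖ ^ 2) : ℝ) : ℂ) := by
    rw [ofReal_smul', Qf_lie' (lie_smul _ s (em_lie R k hY)), norm_smul, mul_pow, em_norm,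
      Real.norm_eq_abs, sq_abs]
  rw [e1, e2, hU]
  have e3 : (((2 * k * V (γ s) : ℝ) : ℂ) - ((s ^ 2 * (2 * k * ‖Y‖ ^ 2) : ℝ) : ℂ) / 2) / (s : ℂ) ^ 4 =
      (((2 * k * V (γ s) - s ^ 2 * (2 * k * ‖Y‖ ^ 2) / 2) / s ^ 4 : ℝ) : ℂ) := by
    push_cast
    ring
  rw [e3, Complex.ofReal_re]
  have hk' : (k : ℝ) ≠ 0 := fun h0 => by rw [h0] at hk; norm_num at hk
  field_simp

variable (k) in
/-- the normalisation of the basis -/
def cn : ℝ := (Real.sqrt k)⁻¹ * (Real.sqrt 2)⁻¹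

variable (k) in
theorem cn_pos : 0 < cn k := by
  have := Nat.pos_of_ne_zero (NeZero.ne k)
  have hk : (0 : ℝ) < k := by exact_mod_cast this
  unfold cn
  positivity

variable (k) in
theorem cn_sq : cn k ^ 2 = 1 / (2 * k) := by
  have := Nat.pos_of_ne_zero (NeZero.ne k)
  have hk : (0 : ℝ) < k := by exact_mod_cast this
  unfold cn
  rw [mul_pow, inv_pow, inv_pow, Real.sq_sqrt hk.le, Real.sq_sqrt (by norm_num)]
  field_simp

include hlim in
theorem lamU_eq {n : ℕ} {X : Fin n → Matrix (Fin N) (Fin N) ℂ} (hX : ∀ a, X a ∈ lieN R) :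
    4 / 5 * lamU (fun a => cn k • em k (X a)) U =
      shift X (fun Y => (v4 U (em k Y)).re / (2 * k)) / (2 * k) := by
  have hk0 := Nat.pos_of_ne_zero (NeZero.ne k)
  have hk : (0 : ℝ) < k := by exact_mod_cast hk0
  have hc := cn_pos k
  have h4 : ((cn k : ℝ) : ℂ) ^ 4 = (((1 / (2 * k)) ^ 2 : ℝ) : ℂ) := by
    rw [← cn_sq]
    push_cast
    ring
  have hl : ∀ a, em k (X a) ∈ lieSet (ksum (blk R) k) := fun a => em_lie R k (hX a)
  have e1 : ∀ a b, v4 U (cn k • em k (X a) + cn k • em k (X b)) =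
      (((1 / (2 * k)) ^ 2 : ℝ) : ℂ) * v4 U (em k (X a + X b)) := by
    intro a b
    rw [← smul_add, ← em_add, v4_smul R hlim hc.ne', h4]
    rw [em_add]
    exact lie_add _ (hl a) (hl b)
  have e2 : ∀ a b, v4 U (cn k • em k (X a) - cn k • em k (X b)) =
      (((1 / (2 * k)) ^ 2 : ℝ) : ℂ) * v4 U (em k (X a - X b)) := by
    intro a b
    rw [← smul_sub, ← em_sub, v4_smul R hlim hc.ne', h4]
    rw [em_sub]
    exact lie_sub _ (hl a) (hl b)
  have e3 : ∀ a, v4 U (cn k • em k (X a)) =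
      (((1 / (2 * k)) ^ 2 : ℝ) : ℂ) * v4 U (em k (X a)) := by
    intro a
    rw [v4_smul R hlim hc.ne' (hl a), h4]
  unfold lamU shift
  simp only [e1, e2, e3]
  have e4 : ∀ a b : Fin n, (((1 / (2 * k)) ^ 2 : ℝ) : ℂ) * v4 U (em k (X a + X b)) +
      (((1 / (2 * k)) ^ 2 : ℝ) : ℂ) * v4 U (em k (X a - X b)) -
      2 * ((((1 / (2 * k)) ^ 2 : ℝ) : ℂ) * v4 U (em k (X a))) -
      2 * ((((1 / (2 * k)) ^ 2 : ℝ) : ℂ) * v4 U (em k (X b))) =
      (((1 / (2 * k)) ^ 2 : ℝ) : ℂ) * (v4 U (em k (X a + X b)) + v4 U (em k (X a - X b)) -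
        2 * v4 U (em k (X a)) - 2 * v4 U (em k (X b))) := fun a b => by ring
  simp only [e4, ← Finset.mul_sum, Complex.re_ofReal_mul]
  simp only [Complex.re_sum, Complex.sub_re, Complex.add_re, Complex.mul_re, Complex.re_ofNat,
    Complex.im_ofNat, zero_mul, sub_zero]
  have e5 : ∀ a b : Fin n, (v4 U (em k (X a + X b))).re / (2 * k) +
      (v4 U (em k (X a - X b))).re / (2 * k) - 2 * ((v4 U (em k (X a))).re / (2 * k)) -
      2 * ((v4 U (em k (X b))).re / (2 * k)) = 1 / (2 * k) * ((v4 U (em k (X a + X b))).re +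
      (v4 U (em k (X a - X b))).re - 2 * (v4 U (em k (X a))).re - 2 * (v4 U (em k (X b))).re) :=
    fun a b => by ring
  simp only [e5, ← Finset.mul_sum]
  ring

/-- the explicit orthonormal basis -/
theorem basis {n : ℕ} (X : Fin n → Matrix (Fin N) (Fin N) ℂ)
    (hX : ∀ a, X a ∈ lieN R) (orth : ∀ a b, (trace ((X a)ᴴ * X b)).re = if a = b then 1 else 0)
    (full : ∀ Y ∈ lieN R, Y ∈ Submodule.span ℝ (Set.range X)) :
    (∀ a, cn k • em k (X a) ∈ lieSet (ksum (blk R) k)) ∧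
    (∀ a b, (trace ((cn k • em k (X a))ᴴ * (cn k • em k (X b)))).re = if a = b then 1 else 0) ∧
    (∀ Y ∈ lieSet (ksum (blk R) k),
      Y ∈ Submodule.span ℝ (Set.range fun a => cn k • em k (X a))) ∧
    ∑ a, ∑ b, ‖(cn k • em k (X a)) * (cn k • em k (X b)) -
      (cn k • em k (X b)) * (cn k • em k (X a))‖ ^ 2 =
      1 / (2 * k) * ∑ a, ∑ b, ‖X a * X b - X b * X a‖ ^ 2 := by
  have hk0 := Nat.pos_of_ne_zero (NeZero.ne k)
  have hk : (0 : ℝ) < k := by exact_mod_cast hk0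
  have hc := cn_pos k
  have hcc : cn k * cn k = 1 / (2 * k) := by rw [← pow_two, cn_sq]
  have hmul : ∀ Y Z : Matrix (Fin N) (Fin N) ℂ, em k Y * em k Z = em k (Y * Z) := by
    intro Y Z
    unfold em
    rw [map_mul, map_mul]
  refine ⟨fun a => lie_smul _ _ (em_lie R k (hX a)), fun a b => ?_, fun Y hY => ?_, ?_⟩
  · have e1 : (em k (X a))ᴴ = em k (X a)ᴴ := by
      unfold em
      rw [KR_ct, PhiR_ct]
    rw [conjTranspose_smul, star_trivial, Matrix.smul_mul, Matrix.mul_smul, smul_smul, hcc,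
      trace_smul, Complex.smul_re, e1, hmul]
    have e2 : (trace (em k ((X a)ᴴ * X b))).re = 2 * k * (trace ((X a)ᴴ * X b)).re := by
      unfold em
      rw [KR_tr, ← Complex.ofReal_natCast, Complex.re_ofReal_mul, PhiR_tr]
      ring
    rw [e2, orth]
    split_ifs
    · rw [smul_eq_mul]; field_simp
    · simp
  · obtain ⟨Y1, hY1, rfl⟩ := (ks_lie (blk R) k Y).1 hY
    obtain ⟨Y2, hY2, rfl⟩ := (blk_lie R Y1).1 hY1
    have h1 : ∀ Z ∈ Submodule.span ℝ (Set.range X),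
        em k Z ∈ Submodule.span ℝ (Set.range fun a => cn k • em k (X a)) := by
      intro Z hZ
      induction hZ using Submodule.span_induction with
      | mem Z hZ =>
        obtain ⟨a, rfl⟩ := hZ
        have h2 : em k (X a) = (cn k)⁻¹ • (cn k • em k (X a)) := by
          rw [smul_smul, inv_mul_cancel₀ hc.ne', one_smul]
        rw [h2]
        exact Submodule.smul_mem _ _ (Submodule.subset_span ⟨a, rfl⟩)
      | zero =>
        have : em k (0 : Matrix (Fin N) (Fin N) ℂ) = 0 := by unfold em; rw [map_zero, map_zero]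
        rw [this]; exact Submodule.zero_mem _
      | add Z W _ _ hZ hW => rw [em_add]; exact Submodule.add_mem _ hZ hW
      | smul r Z _ hZ => rw [em_smul]; exact Submodule.smul_mem _ _ hZ
    exact h1 Y2 (full Y2 hY2)
  · rw [Finset.mul_sum]
    refine Finset.sum_congr rfl fun a _ => ?_
    rw [Finset.mul_sum]
    refine Finset.sum_congr rfl fun b _ => ?_
    have h1 : (cn k • em k (X a)) * (cn k • em k (X b)) -
        (cn k • em k (X b)) * (cn k • em k (X a)) =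
        (1 / (2 * k) : ℝ) • em k (X a * X b - X b * X a) := by
      rw [Matrix.smul_mul, Matrix.mul_smul, smul_smul, hcc, Matrix.smul_mul,
        Matrix.mul_smul, smul_smul, hcc, ← smul_sub, hmul, hmul, em_sub]
    rw [h1, norm_smul, mul_pow, em_norm, Real.norm_eq_abs, abs_of_pos (by positivity)]
    field_simp

end TlH

end

end Pool.Agent.T2H04.HY
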