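import Mathlib
import Pool.Agent.T2H04.HY.ActMain
import Pool.Agent.T2H04.HY.TlH2
import Pool.Agent.T2H04.HY.TlH3

/-!
# The two loop asymptotics in the notation of the main theorem, second part
-/

open MeasureTheory Matrix Filter
open scoped Matrix.Norms.Frobenius Topology

namespace Pool.Agent.T2H04.HY

set_option linter.unusedSectionVars false

noncomputable section

variable {G : Type} [Group G] [TopologicalSpace G] [IsTopologicalGroup G] [CompactSpace G]
  [MeasurableSpace G] [BorelSpace G] (μ : Measure G) [μ.IsHaarMeasure] [IsProbabilityMeasure μ]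
  {N : ℕ} {R : URep G N}

/-- the two loop counter -/
def cnt (ca δ β : ℝ) (k : ℕ) : ℝ := k - 8 / ca * (β + δ) + 4 / 15 * Real.log β

theorem log_shift {β : ℕ → ℝ} (hβ : Tendsto β atTop atTop) (δ : ℝ) {c : ℝ} (hc : 0 < c) :
    Tendsto (fun j => Real.log ((β j + δ) / c) - (Real.log (β j) - Real.log c)) atTop (𝓝 0) := by
  have h1 : Tendsto (fun j => 1 + δ / β j) atTop (𝓝 1) := by
    have := (Tendsto.const_div_atTop hβ δ).const_add 1
    simpa using this
  have h2 : Tendsto (fun j => Real.log (1 + δ / β j)) atTop (𝓝 (Real.log 1)) :=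
    (Real.continuousAt_log one_ne_zero).tendsto.comp h1
  rw [Real.log_one] at h2
  refine h2.congr' ?_
  filter_upwards [hβ.eventually_gt_atTop (|δ| + 1)] with j hj
  have hδ := neg_abs_le δ
  have h0 : 0 < β j := lt_of_le_of_lt (by positivity) hj
  have h3 : 0 < β j + δ := by linarith
  have e : 1 + δ / β j = (β j + δ) / β j := by field_simp
  rw [e, Real.log_div h3.ne' h0.ne', Real.log_div h3.ne' hc.ne']
  ring

theorem tl_act {n : ℕ} {X : Fin n → Matrix (Fin N) (Fin N) ℂ} (h : SG R n X) {V : G → ℝ}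
    (hV : PolAct R V) :
    ∃ V4 W4 : Matrix (Fin N) (Fin N) ℂ → ℝ, Quartic R V V4 ∧ Quartic R (wa R) W4 ∧
      ∃ κV : ℝ, 0 < κV ∧ ∀ κ : ℝ, 0 < κ → κ ≤ κV →
      ∀ (β β' : ℕ → ℝ) (k k' : ℕ → ℕ), (∀ j, 0 < β j) → (∀ j, 0 < β' j) →
        Tendsto β atTop atTop → Tendsto β' atTop atTop →
        Tendsto (fun j => gsq μ R n ((mk μ)^[k j] (bw μ (wa R) (β j)))) atTop (𝓝 κ) →
        Tendsto (fun j => gsq μ R n ((mk μ)^[k' j] (bw μ V (β' j)))) atTop (𝓝 κ) →
        Tendsto (fun j => cnt (CA X) (shift X W4) (β j) (k j) -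
          cnt (CA X) (shift X V4) (β' j) (k' j)) atTop (𝓝 0) := by
  have hn := h.npos
  have hn0 : (0 : ℝ) < n := by exact_mod_cast hn
  obtain ⟨V', hV', hVr⟩ := pol_act R μ V hV
  obtain ⟨C, δ, hC, hδ, hq⟩ := act_quart (blk R) hV'
  obtain ⟨k, hk0, hkC⟩ : ∃ k : ℕ, 0 < k ∧ 20 * C ≤ k := by
    obtain ⟨k, hk⟩ := exists_nat_ge (20 * C)
    exact ⟨k + 1, by omega, by push_cast; linarith⟩
  have : NeZero k := ⟨hk0.ne'⟩
  have hk : (0 : ℝ) < k := by exact_mod_cast hk0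
  have hV2 : Act (ksum (blk R) k) (kAct k V') := ks_act (blk R) k hV'
  obtain ⟨D⟩ := exists_log (m := Fin k × (Fin N ⊕ Fin N))
  obtain hI : InC (ksum (blk R) k) (At (kAct k V')) := by
    refine act_cls (ksum (blk R) k) D hV2 hδ fun Z hZ => ?_
    refine (ks_quart (blk R) k hq Z hZ).trans ?_
    refine mul_le_mul_of_nonneg_right ?_ (by positivity)
    rw [div_le_iff₀ hk]
    linarith
  have hs : Simple (ksum (blk R) k) := ks_simple (blk R) k (blk_simple R h.conn h.nonab h.irred)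
  obtain ⟨hE', oE', fE', sE'⟩ := TlH.basis R (k := k) X h.mem h.orth h.span
  obtain ⟨κ1, hκ1, H1⟩ := two_actions_tl μ (ksum (blk R) k) hs hn _ hE' oE' fE' _ hV2 hI
  have hUV : ∀ g : G, kAct k V' ((ksum (blk R) k).rho g) = ((2 * k * V g : ℝ) : ℂ) := by
    intro g
    have e : V' ((blk R).rho g) = ((2 * V g : ℝ) : ℂ) :=
      Complex.ext (by rw [hVr, Complex.ofReal_re]) (by rw [hV'.real, Complex.ofReal_im])
    rw [kAct_rho, e]
    push_cast
    ring
  have hUW : ∀ g : G, wU ((ksum (blk R) k).rho g) = ((2 * k * wa R g : ℝ) : ℂ) := by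
    intro g
    refine Complex.ext ?_ (by rw [wU_real, Complex.ofReal_im])
    unfold wU
    rw [Complex.ofReal_re, Complex.sub_re, ks_trace, ← Complex.ofReal_natCast,
      Complex.re_ofReal_mul, blk_trace, wa_eq, trace_one, Complex.natCast_re, Fintype.card_prod,
      Fintype.card_sum, Fintype.card_fin, Fintype.card_fin]
    push_cast
    ring
  have hlV : ∀ Y ∈ lieSet (ksum (blk R) k), Tendsto (fun s : ℝ =>
      (kAct k V' (NormedSpace.exp ((s : ℂ) • Y)) - Qf ((s : ℂ) • Y) / 2) / (s : ℂ) ^ 4)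
      (𝓝[≠] 0) (𝓝 (v4 (kAct k V') Y)) := fun Y hY => act_v4 hV2 hI hY
  have hlW : ∀ Y ∈ lieSet (ksum (blk R) k), Tendsto (fun s : ℝ =>
      (wU (NormedSpace.exp ((s : ℂ) • Y)) - Qf ((s : ℂ) • Y) / 2) / (s : ℂ) ^ 4)
      (𝓝[≠] 0) (𝓝 (v4 wU Y)) := fun Y hY => wU_v4 _ hY
  refine ⟨fun Y => (v4 (kAct k V') (TlH.em k Y)).re / (2 * k),
    fun Y => (v4 wU (TlH.em k Y)).re / (2 * k), fun Y hY γ hγ => TlH.quart R hUV hlV hY hγ,
    fun Y hY γ hγ => TlH.quart R hUW hlW hY hγ, κ1 / (2 * n * k), by positivity, ?_⟩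
  intro κ hκ hκle β β' q q' hβ hβ' hβt hβt' hg hg'
  have hc : 0 < 2 * (n : ℝ) * k := by positivity
  rw [le_div_iff₀ hc] at hκle
  have hnr : ∀ t, nres μ (ksum (blk R) k) (At (kAct k V') t) = bw μ V (2 * k / t) := fun t =>
    nres_ks μ R hV'.real hVr k t
  have hkk : (0 : ℝ) < 2 * k := by positivity
  have hinv : ∀ b : ℝ, 2 * (k : ℝ) / (2 * k / b) = b := fun b => by
    rw [div_div_cancel₀ hkk.ne']
  have h1 := H1 (2 * n * k * κ) (by positivity) (by linarith) (fun j => 2 * k / β j)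
    (fun j => 2 * k / β' j) q q' (fun j => div_pos hkk (hβ j)) (fun j => div_pos hkk (hβ' j))
    (Tendsto.const_div_atTop hβt _) (Tendsto.const_div_atTop hβt' _) (by
      simp only [g2_ks μ R hn, wil_ks, hinv]
      exact hg.const_mul _) (by
      simp only [g2_ks μ R hn, hnr, hinv]
      exact hg'.const_mul _)
  have hS : (∑ a, ∑ b, ‖(TlH.cn k • TlH.em k (X a)) * (TlH.cn k • TlH.em k (X b)) -
      (TlH.cn k • TlH.em k (X b)) * (TlH.cn k • TlH.em k (X a))‖ ^ 2) / n = CA X / (2 * k) := by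
    rw [sE']
    unfold CA
    ring
  rw [hS, TlH.lamU_eq R hlV h.mem, TlH.lamU_eq R hlW h.mem] at h1
  obtain ⟨dV, hdV⟩ : ∃ d, d = shift X (fun Y => (v4 (kAct k V') (TlH.em k Y)).re / (2 * k)) :=
    ⟨_, rfl⟩
  obtain ⟨dW, hdW⟩ : ∃ d, d = shift X (fun Y => (v4 wU (TlH.em k Y)).re / (2 * k)) := ⟨_, rfl⟩
  rw [← hdV, ← hdW] at h1 ⊢
  have h2 := (log_shift hβt dW hkk).const_mul (4 / 15)
  have h3 := (log_shift hβt' dV hkk).const_mul (4 / 15)
  have h4 := (h1.sub h2).add h3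
  rw [mul_zero, sub_zero, zero_add] at h4
  refine h4.congr fun j => ?_
  have hbj := hβ j
  have hbj' := hβ' j
  have e1 : 1 / (2 * (k : ℝ) / β j) + dW / (2 * k) = (β j + dW) / (2 * k) := by
    field_simp
  have e2 : 1 / (2 * (k : ℝ) / β' j) + dV / (2 * k) = (β' j + dV) / (2 * k) := by
    field_simp
  have e3 : ∀ b d : ℝ, 8 / (CA X / (2 * k)) * ((b + d) / (2 * k)) = 8 / CA X * (b + d) := by
    intro b d
    rcases eq_or_ne (CA X) 0 with h0 | h0
    · rw [h0]; simp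
    · field_simp
  unfold Psi cnt
  simp only [e1, e2, e3]
  ring

end

end Pool.Agent.T2H04.HY
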