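import Mathlib

/-!
# Package P3: pointwise arithmetic
-/

namespace Pool.Agent.T2H04.HY

noncomputable section

namespace Tlp

/-- the remainder of the exponential -/
theorem exp_rem {S : ℂ} {M : ℝ} (hS : ‖S‖ ≤ M) :
    ‖Complex.exp (-S) - 1 + S‖ ≤ Real.exp M * ‖S‖ ^ 2 := by
  have h1 := Complex.norm_exp_sub_sum_le_norm_mul_exp (-S) 2
  rw [Finset.sum_range_succ, Finset.sum_range_one] at h1
  simp only [pow_zero, Nat.factorial_zero, Nat.cast_one, div_one, pow_one, Nat.factorial_one,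
    norm_neg] at h1
  have e2 : Complex.exp (-S) - 1 + S = Complex.exp (-S) - (1 + -S) := by ring
  rw [e2, mul_comm]
  exact h1.trans (mul_le_mul_of_nonneg_left (Real.exp_le_exp.2 hS) (sq_nonneg _))

theorem exp_le {S : ℂ} {M : ℝ} (hS : ‖S‖ ≤ M) : ‖Complex.exp (-S)‖ ≤ Real.exp M := by
  rw [Complex.norm_exp]
  refine Real.exp_le_exp.2 ((Complex.re_le_norm _).trans ?_)
  rwa [norm_neg]

theorem exp_one {S : ℂ} {M : ℝ} (hS : ‖S‖ ≤ M) :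
    ‖1 - Complex.exp (-S)‖ ≤ Real.exp M * ‖S‖ := by
  have h1 := Complex.norm_exp_sub_sum_le_norm_mul_exp (-S) 1
  rw [Finset.sum_range_one] at h1
  simp only [pow_zero, Nat.factorial_zero, Nat.cast_one, div_one, pow_one, norm_neg] at h1
  rw [norm_sub_rev, mul_comm]
  exact h1.trans (mul_le_mul_of_nonneg_left (Real.exp_le_exp.2 hS) (norm_nonneg _))

theorem rem_diff {S S' : ℂ} {M : ℝ} (hS : ‖S‖ ≤ M) (hS' : ‖S'‖ ≤ M) :
    ‖(Complex.exp (-S') - 1 + S') - (Complex.exp (-S) - 1 + S)‖ ≤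
      2 * Real.exp (3 * M) * (‖S' - S‖ * (‖S‖ + ‖S'‖)) := by
  have hM : 0 ≤ M := (norm_nonneg _).trans hS
  set d := S' - S with hd
  have hdM : ‖d‖ ≤ 2 * M := (norm_sub_le _ _).trans (by linarith)
  have hdS : ‖d‖ ≤ ‖S‖ + ‖S'‖ := (norm_sub_le _ _).trans (by linarith)
  have e1 : (Complex.exp (-S') - 1 + S') - (Complex.exp (-S) - 1 + S) =
      Complex.exp (-S) * (Complex.exp (-d) - 1 + d) + (1 - Complex.exp (-S)) * d := by
    have e2 : -S' = -S + -d := by rw [hd]; ring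
    rw [e2, Complex.exp_add, hd]
    ring
  rw [e1]
  refine (norm_add_le _ _).trans ?_
  rw [norm_mul, norm_mul]
  have a1 := exp_le hS
  have a2 := exp_rem hdM
  have a3 := exp_one hS
  have hE : 0 < Real.exp M := Real.exp_pos _
  have hE2 : Real.exp (2 * M) * Real.exp M = Real.exp (3 * M) := by
    rw [← Real.exp_add]; ring_nf
  have hE3 : Real.exp M ≤ Real.exp (3 * M) := Real.exp_le_exp.2 (by linarith)
  have hd0 := norm_nonneg d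
  have hS0 := norm_nonneg S
  have hS'0 := norm_nonneg S'
  have b1 : ‖Complex.exp (-S)‖ * ‖Complex.exp (-d) - 1 + d‖ ≤
      Real.exp (3 * M) * (‖d‖ * (‖S‖ + ‖S'‖)) := by
    calc _ ≤ Real.exp M * (Real.exp (2 * M) * ‖d‖ ^ 2) :=
          mul_le_mul a1 a2 (norm_nonneg _) hE.le
      _ = Real.exp (3 * M) * (‖d‖ * ‖d‖) := by rw [← hE2]; ring
      _ ≤ _ := by gcongr
  have b2 : ‖1 - Complex.exp (-S)‖ * ‖d‖ ≤ Real.exp (3 * M) * (‖d‖ * (‖S‖ + ‖S'‖)) := by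
    calc _ ≤ (Real.exp M * ‖S‖) * ‖d‖ := mul_le_mul_of_nonneg_right a3 hd0
      _ ≤ (Real.exp (3 * M) * (‖S‖ + ‖S'‖)) * ‖d‖ := by
          gcongr
          linarith
      _ = _ := by ring
  linarith

/-- the constant -/
def Cpt (c6 cQ cw cv M : ℝ) : ℝ :=
  c6 + cv + cw + 4 * Real.exp (3 * M) * M * (cQ + cv) + Real.exp M * M ^ 2

theorem pt_arith {sQ s0 s1 : ℂ} {r0 r1 t t1 τ T Dd N p c6 cQ cw cv M : ℝ} (ht : 0 < t)
    (ht1 : 0 < t1) (hτ : τ = 1 / t1 - 1 / t) (hτT : |τ| ≤ T) (hr1 : 0 ≤ r1)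
    (hDd : 0 ≤ Dd) (hp : 0 ≤ p) (hp1 : p ≤ 1) (hc6 : 0 ≤ c6) (hcQ : 0 ≤ cQ) (hcw : 0 ≤ cw)
    (hcv : 0 ≤ cv) (hM : 0 ≤ M)
    (h6 : ‖sQ + ((N / 24 : ℝ) : ℂ)‖ ≤ c6 * p ^ 6) (hQ : ‖sQ‖ ≤ cQ * (t * p ^ 2))
    (hs0 : ‖s0‖ ≤ cw * (t * p ^ 2)) (hs1 : ‖s1 - s0‖ ≤ cv * (Dd * (t * p ^ 2)))
    (hS0 : ‖sQ / (2 * t) + s0‖ ≤ M * p ^ 2) (hS1 : ‖sQ / (2 * t1) + s1‖ ≤ M * p ^ 2) :
    ‖(r1 : ℂ) * (Complex.exp (-(sQ / (2 * t1) + s1)) - 1) -
      (r0 : ℂ) * (Complex.exp (-(sQ / (2 * t) + s0)) - 1) -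
      ((N / 48 * (r1 / t1 - r0 / t) : ℝ) : ℂ)‖ ≤
      Cpt c6 cQ cw cv M * (T * (p ^ 6 * r1) + p ^ 6 * |r1 - r0| / t + Dd * t * (p ^ 2 * r1) +
        t * (p ^ 2 * |r1 - r0|) + t * (T + Dd) * (p ^ 4 * r1) + p ^ 4 * |r1 - r0|) := by
  have hT : 0 ≤ T := (abs_nonneg _).trans hτT
  have hp2 : p ^ 2 ≤ 1 := pow_le_one₀ hp hp1
  set S0 := sQ / (2 * t) + s0 with hS0d
  set S1 := sQ / (2 * t1) + s1 with hS1d
  have hM0 : ‖S0‖ ≤ M := hS0.trans (by nlinarith)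
  have hM1 : ‖S1‖ ≤ M := hS1.trans (by nlinarith)
  have htc : (t : ℂ) ≠ 0 := Complex.ofReal_ne_zero.2 ht.ne'
  have ht1c : (t1 : ℂ) ≠ 0 := Complex.ofReal_ne_zero.2 ht1.ne'
  set D := r1 - r0 with hD
  have hdS : S1 - S0 = (τ : ℂ) * (sQ / 2) + (s1 - s0) := by
    rw [hS0d, hS1d, hτ]
    push_cast
    field_simp
    ring
  have key : (r1 : ℂ) * (Complex.exp (-S1) - 1) - (r0 : ℂ) * (Complex.exp (-S0) - 1) -
      ((N / 48 * (r1 / t1 - r0 / t) : ℝ) : ℂ) =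
      -((sQ + ((N / 24 : ℝ) : ℂ)) / 2 * ((τ * r1 + D / t : ℝ) : ℂ)) - (s1 - s0) * (r1 : ℂ) -
      s0 * (D : ℂ) +
      ((Complex.exp (-S1) - 1 + S1) - (Complex.exp (-S0) - 1 + S0)) * (r1 : ℂ) +
      (Complex.exp (-S0) - 1 + S0) * (D : ℂ) := by
    have e1 : (r1 / t1 - r0 / t : ℝ) = τ * r1 + D / t := by
      rw [hτ, hD]; field_simp; ring
    rw [e1]
    have e2 : S1 * (r1 : ℂ) - S0 * (r0 : ℂ) =
        sQ / 2 * ((τ * r1 + D / t : ℝ) : ℂ) + (s1 - s0) * (r1 : ℂ) + s0 * (D : ℂ) := by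
      rw [hS0d, hS1d, hτ, hD]
      push_cast
      field_simp
      ring
    have e3 : (D : ℂ) = (r1 : ℂ) - r0 := by rw [hD]; push_cast; ring
    have e4 : (Complex.exp (-S1) - 1 + S1 - (Complex.exp (-S0) - 1 + S0)) * (r1 : ℂ) +
      (Complex.exp (-S0) - 1 + S0) * (D : ℂ) = (r1 : ℂ) * (Complex.exp (-S1) - 1) -
        (r0 : ℂ) * (Complex.exp (-S0) - 1) + (S1 * (r1 : ℂ) - S0 * (r0 : ℂ)) := by
      rw [e3]; ring
    have e5 : (((N / 48 * (τ * r1 + D / t) : ℝ)) : ℂ) =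
        ((N / 24 : ℝ) : ℂ) / 2 * ((τ * r1 + D / t : ℝ) : ℂ) := by
      push_cast; ring
    rw [e5]
    linear_combination -e4 - e2
  rw [key]
  have hDn : ‖(D : ℂ)‖ = |D| := by rw [Complex.norm_real, Real.norm_eq_abs]
  have hrn : ‖(r1 : ℂ)‖ = r1 := by rw [Complex.norm_real, Real.norm_eq_abs, abs_of_nonneg hr1]
  have hD0 := abs_nonneg D
  -- the five terms
  have b1 : ‖(sQ + ((N / 24 : ℝ) : ℂ)) / 2 * ((τ * r1 + D / t : ℝ) : ℂ)‖ ≤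
      c6 * (T * (p ^ 6 * r1) + p ^ 6 * |D| / t) := by
    rw [norm_mul, norm_div, Complex.norm_real, Real.norm_eq_abs, Complex.norm_ofNat]
    have c1 : |τ * r1 + D / t| ≤ T * r1 + |D| / t := by
      refine (abs_add_le _ _).trans ?_
      rw [abs_mul, abs_div, abs_of_nonneg hr1, abs_of_pos ht]
      exact add_le_add (mul_le_mul_of_nonneg_right hτT hr1) le_rfl
    have c2 : 0 ≤ c6 * p ^ 6 := by positivity
    have c3 : 0 ≤ T * r1 + |D| / t := by positivity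
    calc ‖sQ + ((N / 24 : ℝ) : ℂ)‖ / 2 * |τ * r1 + D / t| ≤
          (c6 * p ^ 6) * (T * r1 + |D| / t) :=
          mul_le_mul (by linarith [norm_nonneg (sQ + ((N / 24 : ℝ) : ℂ))]) c1 (abs_nonneg _) c2
      _ = _ := by ring
  have b2 : ‖(s1 - s0) * (r1 : ℂ)‖ ≤ cv * (Dd * t * (p ^ 2 * r1)) := by
    rw [norm_mul, hrn]
    calc _ ≤ cv * (Dd * (t * p ^ 2)) * r1 := mul_le_mul_of_nonneg_right hs1 hr1
      _ = _ := by ring
  have b3 : ‖s0 * (D : ℂ)‖ ≤ cw * (t * (p ^ 2 * |D|)) := by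
    rw [norm_mul, hDn]
    calc _ ≤ cw * (t * p ^ 2) * |D| := mul_le_mul_of_nonneg_right hs0 hD0
      _ = _ := by ring
  have hE3 := Real.exp_pos (3 * M)
  have hE1 := Real.exp_pos M
  have b4 : ‖((Complex.exp (-S1) - 1 + S1) - (Complex.exp (-S0) - 1 + S0)) * (r1 : ℂ)‖ ≤
      4 * Real.exp (3 * M) * M * (cQ + cv) * (t * (T + Dd) * (p ^ 4 * r1)) := by
    rw [norm_mul, hrn]
    have c1 := rem_diff hM0 hM1
    have c2 : ‖S1 - S0‖ ≤ (cQ + cv) * (t * (T + Dd) * p ^ 2) := by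
      rw [hdS]
      refine (norm_add_le _ _).trans ?_
      rw [norm_mul, norm_div, Complex.norm_real, Real.norm_eq_abs, Complex.norm_ofNat]
      have d1 : |τ| * (‖sQ‖ / 2) ≤ T * (cQ * (t * p ^ 2)) :=
        mul_le_mul hτT (by linarith [norm_nonneg sQ]) (by positivity) hT
      have d2 : 0 ≤ cQ * (t * Dd * p ^ 2) + cv * (t * T * p ^ 2) := by positivity
      calc _ ≤ T * (cQ * (t * p ^ 2)) + cv * (Dd * (t * p ^ 2)) := add_le_add d1 hs1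
        _ ≤ T * (cQ * (t * p ^ 2)) + cv * (Dd * (t * p ^ 2)) +
            (cQ * (t * Dd * p ^ 2) + cv * (t * T * p ^ 2)) := by linarith
        _ = _ := by ring
    have c3 : ‖S0‖ + ‖S1‖ ≤ 2 * M * p ^ 2 := by linarith
    have c4 : 0 ≤ (cQ + cv) * (t * (T + Dd) * p ^ 2) := by positivity
    calc _ ≤ 2 * Real.exp (3 * M) * (‖S1 - S0‖ * (‖S0‖ + ‖S1‖)) * r1 :=
          mul_le_mul_of_nonneg_right c1 hr1
      _ ≤ 2 * Real.exp (3 * M) * (((cQ + cv) * (t * (T + Dd) * p ^ 2)) * (2 * M * p ^ 2)) * r1 := by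
          gcongr
      _ = _ := by ring
  have b5 : ‖(Complex.exp (-S0) - 1 + S0) * (D : ℂ)‖ ≤ Real.exp M * M ^ 2 * (p ^ 4 * |D|) := by
    rw [norm_mul, hDn]
    have c1 := exp_rem hM0
    have c2 : ‖S0‖ ^ 2 ≤ (M * p ^ 2) ^ 2 := pow_le_pow_left₀ (norm_nonneg _) hS0 2
    calc _ ≤ Real.exp M * ‖S0‖ ^ 2 * |D| := mul_le_mul_of_nonneg_right c1 hD0
      _ ≤ Real.exp M * (M * p ^ 2) ^ 2 * |D| := by gcongr
      _ = _ := by ring
  set E := 4 * Real.exp (3 * M) * M * (cQ + cv) with hEd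
  have hE0 : 0 ≤ E := by positivity
  set E' := Real.exp M * M ^ 2 with hE'd
  have hE'0 : 0 ≤ E' := by positivity
  set a1 := T * (p ^ 6 * r1)
  set a2 := p ^ 6 * |D| / t
  set a3 := Dd * t * (p ^ 2 * r1)
  set a4 := t * (p ^ 2 * |D|)
  set a5 := t * (T + Dd) * (p ^ 4 * r1)
  set a6 := p ^ 4 * |D|
  have n1 : 0 ≤ a1 := by positivity
  have n2 : 0 ≤ a2 := by positivity
  have n3 : 0 ≤ a3 := by positivity
  have n4 : 0 ≤ a4 := by positivity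
  have n5 : 0 ≤ a5 := by positivity
  have n6 : 0 ≤ a6 := by positivity
  have f1 := norm_add_le (-((sQ + ((N / 24 : ℝ) : ℂ)) / 2 * ((τ * r1 + D / t : ℝ) : ℂ)) -
      (s1 - s0) * (r1 : ℂ) - s0 * (D : ℂ) +
      ((Complex.exp (-S1) - 1 + S1) - (Complex.exp (-S0) - 1 + S0)) * (r1 : ℂ))
      ((Complex.exp (-S0) - 1 + S0) * (D : ℂ))
  have f2 := norm_add_le (-((sQ + ((N / 24 : ℝ) : ℂ)) / 2 * ((τ * r1 + D / t : ℝ) : ℂ)) -
      (s1 - s0) * (r1 : ℂ) - s0 * (D : ℂ))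
      (((Complex.exp (-S1) - 1 + S1) - (Complex.exp (-S0) - 1 + S0)) * (r1 : ℂ))
  have f3 := norm_sub_le (-((sQ + ((N / 24 : ℝ) : ℂ)) / 2 * ((τ * r1 + D / t : ℝ) : ℂ)) -
      (s1 - s0) * (r1 : ℂ)) (s0 * (D : ℂ))
  have f4 := norm_sub_le (-((sQ + ((N / 24 : ℝ) : ℂ)) / 2 * ((τ * r1 + D / t : ℝ) : ℂ)))
      ((s1 - s0) * (r1 : ℂ))
  rw [norm_neg] at f4
  have tot : c6 * (a1 + a2) + cv * a3 + cw * a4 + E * a5 + E' * a6 ≤
      Cpt c6 cQ cw cv M * (a1 + a2 + a3 + a4 + a5 + a6) := by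
    unfold Cpt
    rw [← hEd, ← hE'd]
    have g1 : 0 ≤ c6 * (a3 + a4 + a5 + a6) := by positivity
    have g2 : 0 ≤ cv * (a1 + a2 + a4 + a5 + a6) := by positivity
    have g3 : 0 ≤ cw * (a1 + a2 + a3 + a5 + a6) := by positivity
    have g4 : 0 ≤ E * (a1 + a2 + a3 + a4 + a6) := by positivity
    have g5 : 0 ≤ E' * (a1 + a2 + a3 + a4 + a5) := by positivity
    nlinarith
  linarith

end Tlp

end

end Pool.Agent.T2H04.HY
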