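import Mathlib
import Pool.Agent.T2H04.HY.Ccv

/-!
# Phase 3 (improved estimates for pairs of states): definitions
-/

open MeasureTheory Matrix Filter
open scoped Matrix.Norms.Frobenius Topology

namespace Pool.Agent.T2H04.HY

set_option linter.unusedSectionVars false

noncomputable section

variable {G : Type} [Group G] [TopologicalSpace G] [IsTopologicalGroup G] [CompactSpace G]
  [MeasurableSpace G] [BorelSpace G] {m : Type} [Fintype m] [DecidableEq m]

/-- the probability density proportional to the square of the plaquette function -/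
def rn (μ : Measure G) (L : RD G m) (F : Mt m → ℂ) (y : G) : ℝ :=
  res L F y ^ 2 / ∫ z, res L F z ^ 2 ∂μ

/-- the improved contraction of the inverse couplings of pairs -/
structure UV4 {Q : Type} (stp : Q → Q) (tt : Q → ℝ) (GS : Q → ℝ → Prop)
    (Ds : Q → Q → ℝ → Prop) : Prop where
  contr2 : ∀ K, 0 < K → ∃ C' t', 0 < C' ∧ 0 < t' ∧ ∀ S0 S1 A X, GS S0 A → GS S1 A → A ≤ K →
    0 ≤ X → tt S0 ≤ t' → tt S1 ≤ t' → |1 / tt S1 - 1 / tt S0| + X ≤ K → Ds S0 S1 X →
      |(1 / tt (stp S1) - 1 / tt (stp S0)) - (1 / tt S1 - 1 / tt S0)| ≤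
        C' * (tt S0 ^ 2 * |1 / tt S1 - 1 / tt S0| + tt S0 * X)

end

end Pool.Agent.T2H04.HY
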