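import Mathlib
import Pool.Agent.T2H04.HY.PairDefs
import Pool.Agent.T2H04.HY.TlDb
import Pool.Agent.T2H04.HY.TlDc
import Pool.Agent.T2H04.HY.TlP0

/-!
# Package P3: moments and the quadratic term
-/

open MeasureTheory Matrix Filter
open scoped Matrix.Norms.Frobenius Topology

namespace Pool.Agent.T2H04.HY

set_option linter.unusedSectionVars false

noncomputable section

namespace Tlp

section alg

variable {m : Type} [Fintype m] [DecidableEq m]
variable {G : Type} [Group G] [TopologicalSpace G] [IsTopologicalGroup G] [CompactSpace G]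
  {L : RD G m}

theorem ad_sq {n : ℕ} {E : Fin n → Mt m}
    (orth : ∀ a b, (trace ((E a)ᴴ * E b)).re = if a = b then 1 else 0)
    (full : ∀ Y ∈ lieSet L, Y ∈ Submodule.span ℝ (Set.range E)) {X η : Mt m} (hη : η ∈ lieSet L) :
    ‖ad X η‖ ^ 2 = ∑ a, ∑ b, ipr (ad X (E a)) (ad X (E b)) * (ipr (E a) η * ipr (E b) η) := by
  have hx := TAlg.expand orth full hη
  have e1 : ad X η = ∑ a, ipr (E a) η • ad X (E a) := by
    conv_lhs => rw [hx]
    rw [TAlg.ad_sum_right]
    exact Finset.sum_congr rfl fun a _ => TAlg.ad_smul_right _ _ _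
  rw [← Dri.ipr_self, e1, TAlg.ipr_sum_left]
  refine Finset.sum_congr rfl fun a _ => ?_
  rw [TAlg.ipr_smul_left, Dri.ipr_sum, Finset.mul_sum]
  refine Finset.sum_congr rfl fun b _ => ?_
  rw [Dri.ipr_smul]; ring

/-- uniform constants for finitely many statements -/
theorem unif {n : ℕ} {Φ : Fin n → Fin n → ℝ → ℝ → Prop}
    (h : ∀ a b, ∃ C ts : ℝ, 0 < C ∧ 0 < ts ∧ Φ a b C ts)
    (mono : ∀ a b C C' ts ts', C ≤ C' → ts' ≤ ts → Φ a b C ts → Φ a b C' ts') :
    ∃ C ts : ℝ, 0 < C ∧ 0 < ts ∧ ∀ a b, Φ a b C ts := by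
  choose C ts hC hts hΦ using h
  refine ⟨1 + ∑ a, ∑ b, C a b, 1 / (1 + ∑ a, ∑ b, 1 / ts a b), ?_, ?_, fun a b => ?_⟩
  · have : 0 ≤ ∑ a, ∑ b, C a b := Finset.sum_nonneg fun a _ => Finset.sum_nonneg fun b _ => (hC a b).le
    linarith
  · have : 0 ≤ ∑ a, ∑ b, 1 / ts a b := Finset.sum_nonneg fun a _ => Finset.sum_nonneg fun b _ => by
      have := hts a b
      positivity
    positivity
  · refine mono a b _ _ _ _ ?_ ?_ (hΦ a b)
    · have h1 : C a b ≤ ∑ b, C a b :=
        Finset.single_le_sum (f := fun b => C a b) (fun b _ => (hC a b).le) (Finset.mem_univ b)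
      have h2 : ∑ b, C a b ≤ ∑ a, ∑ b, C a b :=
        Finset.single_le_sum (f := fun a => ∑ b, C a b)
          (fun a _ => Finset.sum_nonneg fun b _ => (hC a b).le) (Finset.mem_univ a)
      linarith
    · have h1 : 1 / ts a b ≤ ∑ b, 1 / ts a b :=
        Finset.single_le_sum (f := fun b => 1 / ts a b) (fun b _ => by
          have := hts a b
          positivity) (Finset.mem_univ b)
      have h2 : ∑ b, 1 / ts a b ≤ ∑ a, ∑ b, 1 / ts a b :=
        Finset.single_le_sum (f := fun a => ∑ b, 1 / ts a b)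
          (fun a _ => Finset.sum_nonneg fun b _ => by
            have := hts a b
            positivity) (Finset.mem_univ a)
      have h3 := hts a b
      have h4 : 0 < 1 / ts a b := by positivity
      rw [div_le_iff₀ (by linarith), mul_comm]
      have h5 : 1 / ts a b * ts a b = 1 := by field_simp
      nlinarith

end alg

section mom

variable {G : Type} [Group G] [TopologicalSpace G] [IsTopologicalGroup G] [CompactSpace G]
  [MeasurableSpace G] [BorelSpace G] {μ : Measure G} [μ.IsHaarMeasure] [IsProbabilityMeasure μ]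
  {m : Type} [Fintype m] [DecidableEq m] {L : RD G m}
  {D : LogData m} {εg δ r0 r s b r' : ℝ} (P : Par L D εg δ r0 r s b r')
    {F : Mt m → ℂ} {t A : ℝ} (cl : Cls L F t A r (r0 / 4) s b (1 / 10000))
    (ht : 0 < t) (hA : 0 ≤ A) (hAt : A * t ≤ 1 / 10)

include cl in
theorem V_pos : 0 < ∫ y, res L F y ^ 2 ∂μ := by
  have := ccv_one_pos (μ := μ) cl
  rwa [Dri.ccv_one_int (μ := μ) cl, Complex.ofReal_re] at this

theorem rn_nonneg (F : Mt m → ℂ) (y : G) : 0 ≤ rn μ L F y :=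
  div_nonneg (sq_nonneg _) (integral_nonneg fun _ => sq_nonneg _)

include P cl ht hA hAt in
theorem intg_rn {Φ : gC L → ℝ} (hΦ : Continuous Φ) {ρ : ℝ} (hρ : ρ ≤ r0 / 20) :
    IntegrableOn (fun y => Φ (Dri.et L D y) * rn μ L F y) (bal L ρ) μ := by
  have h := (TlD.intg_et (μ := μ) P cl ht hA hAt hΦ hρ).div_const (∫ z, res L F z ^ 2 ∂μ)
  refine Integrable.congr h (Filter.Eventually.of_forall fun y => ?_)
  exact mul_div_assoc _ _ _

include P cl ht hA hAt in
theorem mom_rn {k : ℕ} {Ck ρ : ℝ} (hρ : ρ ≤ r0 / 20) (hCk : 0 ≤ Ck)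
    (hk : ∫ y in bal L ρ, ‖Dri.et L D y‖ ^ k * res L F y ^ 2 ∂μ ≤
      Ck * Real.sqrt t ^ k * ∫ y, res L F y ^ 2 ∂μ) {q : ℝ} (hq : 0 ≤ q)
    (hqt : Real.sqrt t ≤ 2 * q) :
    ∫ y in bal L ρ, (q + ‖Dri.et L D y‖) ^ k * rn μ L F y ∂μ ≤
      2 ^ (k - 1) * (1 + Ck * 2 ^ k) * q ^ k := by
  have hV := V_pos (μ := μ) cl
  have hB : MeasurableSet (bal L ρ : Set G) := (isOpen_bal L ρ).measurableSet
  have i0 := intg_rn (μ := μ) P cl ht hA hAt (Φ := fun _ => q ^ k) continuous_const hρ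
  have i1 := intg_rn (μ := μ) P cl ht hA hAt (Φ := fun η => ‖η‖ ^ k) (continuous_norm.pow k) hρ
  have i2 := intg_rn (μ := μ) P cl ht hA hAt (Φ := fun η => (q + ‖η‖) ^ k)
    ((continuous_const.add continuous_norm).pow k) hρ
  have e1 : ∫ y in bal L ρ, ‖Dri.et L D y‖ ^ k * rn μ L F y ∂μ ≤ Ck * Real.sqrt t ^ k := by
    have e2 : ∫ y in bal L ρ, ‖Dri.et L D y‖ ^ k * rn μ L F y ∂μ =
        (∫ y in bal L ρ, ‖Dri.et L D y‖ ^ k * res L F y ^ 2 ∂μ) / ∫ y, res L F y ^ 2 ∂μ := by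
      rw [← integral_div]
      refine integral_congr_ae (Filter.Eventually.of_forall fun y => ?_)
      exact (mul_div_assoc _ _ _).symm
    rw [e2, div_le_iff₀ hV]
    exact hk
  have e3 : ∫ y in bal L ρ, q ^ k * rn μ L F y ∂μ ≤ q ^ k := by
    rw [integral_const_mul]
    have e4 : ∫ y in bal L ρ, rn μ L F y ∂μ ≤ 1 := by
      have e5 : ∫ y, rn μ L F y ∂μ = 1 := by
        unfold rn
        rw [integral_div, div_self hV.ne']
      rw [← e5]
      refine setIntegral_le_integral ?_ (Filter.Eventually.of_forall fun y => rn_nonneg F y)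
      exact (intg μ ((res_cont L cl.diff).pow 2)).div_const _
    have := mul_le_mul_of_nonneg_left e4 (pow_nonneg hq k)
    rwa [mul_one] at this
  have e6 : ∫ y in bal L ρ, (q + ‖Dri.et L D y‖) ^ k * rn μ L F y ∂μ ≤
      ∫ y in bal L ρ, (2 : ℝ) ^ (k - 1) * (q ^ k * rn μ L F y +
        ‖Dri.et L D y‖ ^ k * rn μ L F y) ∂μ := by
    refine integral_mono i2 ((i0.add i1).const_mul _) fun y => ?_
    have h1 := add_pow_le hq (norm_nonneg (Dri.et L D y)) k
    calc (q + ‖Dri.et L D y‖) ^ k * rn μ L F y ≤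
          (2 ^ (k - 1) * (q ^ k + ‖Dri.et L D y‖ ^ k)) * rn μ L F y :=
          mul_le_mul_of_nonneg_right h1 (rn_nonneg F y)
      _ = _ := by ring
  rw [integral_const_mul, integral_add i0 i1] at e6
  have e7 : Real.sqrt t ^ k ≤ 2 ^ k * q ^ k := by
    have := pow_le_pow_left₀ (Real.sqrt_nonneg t) hqt k
    rwa [mul_pow] at this
  have h2 : (0 : ℝ) < 2 ^ (k - 1) := by positivity
  calc _ ≤ (2 : ℝ) ^ (k - 1) * (q ^ k + Ck * Real.sqrt t ^ k) :=
        e6.trans (mul_le_mul_of_nonneg_left (add_le_add e3 e1) h2.le)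
    _ ≤ (2 : ℝ) ^ (k - 1) * (q ^ k + Ck * (2 ^ k * q ^ k)) := by gcongr
    _ = _ := by ring

end mom

section pair

variable {G : Type} [Group G] [TopologicalSpace G] [IsTopologicalGroup G] [CompactSpace G]
  [MeasurableSpace G] [BorelSpace G] {μ : Measure G} [μ.IsHaarMeasure] [IsProbabilityMeasure μ]
  {m : Type} [Fintype m] [DecidableEq m] {L : RD G m}
  {D : LogData m} {εg δ r0 r s b r' : ℝ} (P : Par L D εg δ r0 r s b r')
  {S0 S1 : St L} {A T Dd E : ℝ} (H : PairH L r0 r s b S0 S1 A T Dd E)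

include P H in
theorem intg_d {Φ : gC L → ℝ} (hΦ : Continuous Φ) (hΦ0 : ∀ η, 0 ≤ Φ η) {ρ : ℝ}
    (hρ : ρ ≤ r0 / 20) :
    IntegrableOn (fun y => Φ (Dri.et L D y) * |rn μ L S1.F y - rn μ L S0.F y|) (bal L ρ) μ := by
  have h1 := intg_rn (μ := μ) P H.c1 H.p1 H.A0 H.At1 hΦ hρ
  have h0 := intg_rn (μ := μ) P H.c0 H.p0 H.A0 H.At0 hΦ hρ
  have h2 := (h1.sub h0).abs
  refine Integrable.congr h2 (Filter.Eventually.of_forall fun y => ?_)
  show |Φ (Dri.et L D y) * rn μ L S1.F y - Φ (Dri.et L D y) * rn μ L S0.F y| = _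
  rw [← mul_sub, abs_mul, abs_of_nonneg (hΦ0 _)]

/-- the quadratic term of the difference -/
def Nq (D : LogData m) (Z : gC L) (y : G) : ℝ := ‖ad (Z : Mt m) (Dri.et L D y : Mt m)‖ ^ 2

theorem Nq_cont (Z : gC L) : Continuous fun η : gC L => ‖ad (Z : Mt m) (η : Mt m)‖ ^ 2 :=
  (TlD.ad_cont (L := L) (f := fun _ => (Z : Mt m)) continuous_const TlD.coe_cont).norm.pow 2

include P H in
theorem quad {n : ℕ} {B : Fin n → Mt m}
    (orth : ∀ a b, (trace ((B a)ᴴ * B b)).re = if a = b then 1 else 0)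
    (full : ∀ Y ∈ lieSet L, Y ∈ Submodule.span ℝ (Set.range B)) {ρ : ℝ}
    (hρ : ρ ≤ r0 / 20) {ε : ℝ}
    (hcov : ∀ a b, |(∫ y in bal L ρ, crd L D (B a) y * crd L D (B b) y * rn μ L S1.F y ∂μ) / S1.t -
          (∫ y in bal L ρ, crd L D (B a) y * crd L D (B b) y * rn μ L S0.F y ∂μ) / S0.t| ≤ ε)
    {X : gC L} (hX1 : ‖X‖ ≤ 1) :
    |∫ y in bal L ρ, Nq D (((Real.sqrt S0.t : ℝ) : ℂ) • X) y / 48 *
      (rn μ L S1.F y / S1.t - rn μ L S0.F y / S0.t) ∂μ| ≤ n ^ 2 * (S0.t * ε) := by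
  have hB1 : ∀ a, ‖B a‖ = 1 := by
    intro a
    have h1 := norm_sq_eq (B a)
    have h3 := orth a a
    rw [if_pos rfl] at h3
    rw [h3] at h1
    have h5 : (‖B a‖ - 1) * (‖B a‖ + 1) = 0 := by ring_nf; linarith
    rcases mul_eq_zero.1 h5 with h | h
    · linarith
    · have := norm_nonneg (B a); linarith
  have hr0 := P.r0_pos
  have hδ := P.r0_δ
  have ht := H.p0
  set Z : gC L := ((Real.sqrt S0.t : ℝ) : ℂ) • X with hZ
  have hZn : ‖(Z : Mt m)‖ = Real.sqrt S0.t * ‖X‖ := TlD.norm_sqrt_smul S0.t X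
  have hB : MeasurableSet (bal L ρ : Set G) := (isOpen_bal L ρ).measurableSet
  set g : Fin n → Fin n → ℝ := fun a b => ipr (ad (Z : Mt m) (B a)) (ad (Z : Mt m) (B b)) with hg
  have hgb : ∀ a b, |g a b| ≤ 4 * S0.t := by
    intro a b
    have h1 : ∀ a, ‖ad (Z : Mt m) (B a)‖ ≤ 2 * Real.sqrt S0.t := by
      intro a
      refine (TlD.norm_ad_le _ _).trans ?_
      rw [hB1, hZn]
      have := Real.sqrt_nonneg S0.t
      nlinarith
    refine (Dri.abs_ipr_le _ _).trans ?_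
    calc _ ≤ (2 * Real.sqrt S0.t) * (2 * Real.sqrt S0.t) :=
          mul_le_mul (h1 a) (h1 b) (norm_nonneg _) (by positivity)
      _ = 4 * (Real.sqrt S0.t * Real.sqrt S0.t) := by ring
      _ = _ := by rw [Real.mul_self_sqrt ht.le]
  have i1 : ∀ a b, IntegrableOn (fun y => crd L D (B a) y * crd L D (B b) y * rn μ L S1.F y)
      (bal L ρ) μ := fun a b =>
    intg_rn (μ := μ) P H.c1 H.p1 H.A0 H.At1
      (Φ := fun η => ipr (B a) (η : Mt m) * ipr (B b) (η : Mt m))
      ((TlD.ipr_cont _).mul (TlD.ipr_cont _)) hρ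
  have i0 : ∀ a b, IntegrableOn (fun y => crd L D (B a) y * crd L D (B b) y * rn μ L S0.F y)
      (bal L ρ) μ := fun a b =>
    intg_rn (μ := μ) P H.c0 H.p0 H.A0 H.At0
      (Φ := fun η => ipr (B a) (η : Mt m) * ipr (B b) (η : Mt m))
      ((TlD.ipr_cont _).mul (TlD.ipr_cont _)) hρ
  have e1 : ∫ y in bal L ρ, Nq D Z y / 48 * (rn μ L S1.F y / S1.t - rn μ L S0.F y / S0.t) ∂μ =
      ∑ a, ∑ b, g a b / 48 *
        ((∫ y in bal L ρ, crd L D (B a) y * crd L D (B b) y * rn μ L S1.F y ∂μ) / S1.t -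
          (∫ y in bal L ρ, crd L D (B a) y * crd L D (B b) y * rn μ L S0.F y ∂μ) / S0.t) := by
    have e2 : ∀ y ∈ (bal L ρ : Set G),
        Nq D Z y / 48 * (rn μ L S1.F y / S1.t - rn μ L S0.F y / S0.t) =
        ∑ a, ∑ b, g a b / 48 * (crd L D (B a) y * crd L D (B b) y * rn μ L S1.F y / S1.t -
          crd L D (B a) y * crd L D (B b) y * rn μ L S0.F y / S0.t) := by
      intro y hy
      have hyd : dis L y < δ := by
        have : dis L y < ρ := hy
        linarith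
      have h3 := ad_sq (L := L) orth full (X := (Z : Mt m)) (Dri.et_lie P.ch hyd)
      have h4 : Nq D Z y = ∑ a, ∑ b, g a b * (crd L D (B a) y * crd L D (B b) y) := h3
      rw [h4, Finset.sum_div, Finset.sum_mul]
      refine Finset.sum_congr rfl fun a _ => ?_
      rw [Finset.sum_div, Finset.sum_mul]
      refine Finset.sum_congr rfl fun b _ => ?_
      ring
    rw [setIntegral_congr_fun hB e2, integral_finsetSum]
    · refine Finset.sum_congr rfl fun a _ => ?_
      rw [integral_finsetSum]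
      · refine Finset.sum_congr rfl fun b _ => ?_
        rw [integral_const_mul, integral_sub ((i1 a b).div_const _) ((i0 a b).div_const _),
          integral_div, integral_div]
      · exact fun b _ => (((i1 a b).div_const _).sub ((i0 a b).div_const _)).const_mul _
    · exact fun a _ => integrable_finsetSum _ fun b _ =>
        (((i1 a b).div_const _).sub ((i0 a b).div_const _)).const_mul _
  rw [e1]
  refine (TlD.sum2_le (M := S0.t * ε) fun a b => ?_).trans (le_of_eq (by ring))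
  rw [abs_mul, abs_div, abs_of_pos (by norm_num : (0 : ℝ) < 48)]
  have hε : 0 ≤ ε := (abs_nonneg _).trans (hcov a b)
  calc |g a b| / 48 * _ ≤ 4 * S0.t / 48 * ε :=
        mul_le_mul (div_le_div_of_nonneg_right (hgb a b) (by norm_num)) (hcov a b) (abs_nonneg _)
          (by positivity)
    _ = 1 / 12 * (S0.t * ε) := by ring
    _ ≤ 1 * (S0.t * ε) := by gcongr; norm_num
    _ = _ := one_mul _

end pair

end Tlp

end

end Pool.Agent.T2H04.HY
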