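import Mathlib
import Pool.Agent.T2H04.HY.Pd2
import Pool.Agent.T2H04.HY.TlP3a
import Pool.Agent.T2H04.HY.TlP3b

/-!
# Package P3: the difference near `1`
-/

open MeasureTheory Matrix Filter
open scoped Matrix.Norms.Frobenius Topology

namespace Pool.Agent.T2H04.HY

set_option linter.unusedSectionVars false

noncomputable section

namespace Tlp

variable {G : Type} [Group G] [TopologicalSpace G] [IsTopologicalGroup G] [CompactSpace G]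
  [MeasurableSpace G] [BorelSpace G] {μ : Measure G} [μ.IsHaarMeasure] [IsProbabilityMeasure μ]
  {m : Type} [Fintype m] [DecidableEq m] {L : RD G m}
  {D : LogData m} {εg δ r0 r s b r' : ℝ} (P : Par L D εg δ r0 r s b r')
  {S0 S1 : St L} {A T Dd E : ℝ} (H : PairH L r0 r s b S0 S1 A T Dd E)

/-- the constant of the near part -/
def Cnr (C6 δ K : ℝ) : ℝ :=
  Cpt (C6 + 1) (384 / δ ^ 2) (73728 * K) 73728 (2 * (192 / δ ^ 2 + 7400))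

theorem Cnr_nonneg {C6 δ K : ℝ} (hC6 : 0 ≤ C6) (hδ : 0 < δ) (hK : 0 ≤ K) : 0 ≤ Cnr C6 δ K := by
  unfold Cnr Cpt
  have := Real.exp_pos (3 * (2 * (192 / δ ^ 2 + 7400)))
  have := Real.exp_pos (2 * (192 / δ ^ 2 + 7400))
  positivity

include P H in
theorem near_pt {C6 δ6 K ρ : ℝ} (hC6 : 0 < C6)
    (h6 : ∀ X η : gC L, imP (X : Mt m) = 0 → imP (η : Mt m) = 0 → ‖X‖ ≤ δ6 → ‖η‖ ≤ δ6 →
      ‖sdf D (fun Z : gC L => Qf (Z : Mt m)) X η + ((T6 (X : Mt m) (η : Mt m) : ℝ) : ℂ)‖ ≤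
        C6 * (‖X‖ + ‖η‖) ^ 7) (hAK : A ≤ K) (ht2 : S0.t ≤ 2 * S1.t)
    {X : gC L} (hX : (X : Mt m) ∈ lieSet L) (hX1 : ‖X‖ ≤ 1)
    (hst0 : Real.sqrt S0.t ≤ 1 / 2) (hstr : Real.sqrt S0.t < r0 / 20)
    (hst6 : Real.sqrt S0.t ≤ δ6) (hρ1 : ρ ≤ r0 / 20) (hρ6 : 2 * ρ ≤ δ6)
    {y : G} (hy : dis L y < ρ) :
    ‖Dri.phi L S1.F S1.t S1.w (((Real.sqrt S0.t : ℝ) : ℂ) • X) y /
        ((∫ z, res L S1.F z ^ 2 ∂μ : ℝ) : ℂ) -
      Dri.phi L S0.F S0.t S0.w (((Real.sqrt S0.t : ℝ) : ℂ) • X) y /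
        ((∫ z, res L S0.F z ^ 2 ∂μ : ℝ) : ℂ) -
      ((Nq D (((Real.sqrt S0.t : ℝ) : ℂ) • X) y / 48 *
        (rn μ L S1.F y / S1.t - rn μ L S0.F y / S0.t) : ℝ) : ℂ)‖ ≤
      Cnr C6 δ K * (T * ((Real.sqrt S0.t + ‖Dri.et L D y‖) ^ 6 * rn μ L S1.F y) +
        (Real.sqrt S0.t + ‖Dri.et L D y‖) ^ 6 * |rn μ L S1.F y - rn μ L S0.F y| / S0.t +
        Dd * S0.t * ((Real.sqrt S0.t + ‖Dri.et L D y‖) ^ 2 * rn μ L S1.F y) +
        S0.t * ((Real.sqrt S0.t + ‖Dri.et L D y‖) ^ 2 * |rn μ L S1.F y - rn μ L S0.F y|) +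
        S0.t * (T + Dd) * ((Real.sqrt S0.t + ‖Dri.et L D y‖) ^ 4 * rn μ L S1.F y) +
        (Real.sqrt S0.t + ‖Dri.et L D y‖) ^ 4 * |rn μ L S1.F y - rn μ L S0.F y|) := by
  have hr0 := P.r0_pos
  have hr01 := P.r0_le
  have hrl' := P.r'_lo
  have hδ := P.r0_δ
  have he1 := P.e1
  have he0 := P.e0
  have hδ0 : 0 < δ := by linarith
  have ht := H.p0
  have ht1 := H.p1
  have hyr : dis L y < r0 / 20 := lt_of_lt_of_le hy hρ1
  have hyδ : dis L y < δ := by linarith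
  have hd0 : 0 ≤ dis L y := norm_nonneg _
  have hη16 : ‖Dri.et L D y‖ < r0 / 16 := Dri.et_lt P hyr
  have hηim : imP ((Dri.et L D y : gC L) : Mt m) = 0 := Dri.et_im P.ch hyδ
  have hηn := Dri.et_norm P.ch hyδ
  have hηρ : ‖Dri.et L D y‖ ≤ 2 * ρ := by nlinarith
  set η := Dri.et L D y with hηd
  have hη0 := norm_nonneg η
  have hX0 := norm_nonneg X
  have hst := Real.sqrt_pos.2 ht
  have hsq : Real.sqrt S0.t ^ 2 = S0.t := Real.sq_sqrt ht.le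
  set Z : gC L := ((Real.sqrt S0.t : ℝ) : ℂ) • X with hZd
  have hZc : (Z : Mt m) = ((Real.sqrt S0.t : ℝ) : ℂ) • (X : Mt m) := rfl
  have hZn : ‖Z‖ = Real.sqrt S0.t * ‖X‖ := TlD.norm_sqrt_smul S0.t X
  have hZq : ‖Z‖ ≤ Real.sqrt S0.t := by rw [hZn]; nlinarith
  have hZ0 := norm_nonneg Z
  have hZ2 : ‖Z‖ ^ 2 ≤ S0.t := by
    have := pow_le_pow_left₀ hZ0 hZq 2
    rwa [hsq] at this
  have hZim : imP (Z : Mt m) = 0 := by
    rw [hZc, imP_smul, imP_of_skew (lie_skew L hX), smul_zero]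
  have hZdom : Z ∈ dom L r' (r0 / 4) := by
    refine ball_sub_dom (ρ := r0 / 4) (by linarith) le_rfl ?_
    rw [mem_ball_zero_iff]
    linarith
  set p : ℝ := Real.sqrt S0.t + ‖η‖ with hpd
  have hp0 : 0 ≤ p := by positivity
  have hp1 : p ≤ 1 := by linarith
  have hηp : ‖η‖ ≤ p := by linarith
  have hZp : ‖Z‖ ≤ p := by linarith
  have hη2 : ‖η‖ ^ 2 ≤ p ^ 2 := pow_le_pow_left₀ hη0 hηp 2
  have hA0 := H.A0
  have hDd := H.D0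
  have hK : 0 ≤ K := hA0.trans hAK
  -- the second differences
  obtain ⟨sQ, hsQ⟩ : ∃ sQ, sQ = sdf D (fun Z : gC L => Qf (Z : Mt m)) Z η := ⟨_, rfl⟩
  obtain ⟨s0, hs0⟩ : ∃ s0, s0 = sdf D S0.w Z η := ⟨_, rfl⟩
  obtain ⟨s1, hs1⟩ : ∃ s1, s1 = sdf D S1.w Z η := ⟨_, rfl⟩
  have a1 := sdf_Q_le P.ch he0 he1 Z η (by linarith) hηim (by linarith)
  have a2 := sdf_w_le P H.s0 hA0 Z η hZdom hηim hη16
  have a3 := sdf_v_le P (A := Dd) (v := fun Z => S1.w Z - S0.w Z) hDd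
    (H.s1.diff.sub H.s0.diff) (fun Z hZ => by rw [H.s1.even Z hZ, H.s0.even Z hZ])
    (fun g Z hZ Z' h => by rw [H.s1.ad g Z hZ Z' h, H.s0.ad g Z hZ Z' h]) H.df.ww Z η hZdom
    hηim hη16
  rw [sdf_sub] at a3
  have a4 := h6 Z η hZim hηim (by linarith) (by linarith)
  have a5 := Dri.Sx_le P H.s0 ht hA0 H.At0 Z hZdom y hyr
  have a6 := Dri.Sx_le P H.s1 ht1 hA0 H.At1 Z hZdom y hyr
  have i0 := Dri.inner_eq P H.c0 H.s0 Z hZdom y hyr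
  have i1 := Dri.inner_eq P H.c1 H.s1 Z hZdom y hyr
  rw [Dri.FF_eq H.c0, ← hηd] at i0
  rw [Dri.FF_eq H.c1, ← hηd] at i1
  rw [← hηd] at a5 a6
  have x0 : Dri.Sx D S0.t S0.w Z η = sQ / (2 * S0.t) + s0 := by rw [hsQ, hs0]; rfl
  have x1 : Dri.Sx D S1.t S1.w Z η = sQ / (2 * S1.t) + s1 := by rw [hsQ, hs1]; rfl
  rw [x0] at a5 i0
  rw [x1] at a6 i1
  rw [← hsQ] at a1 a4
  rw [← hs0] at a2 a3
  rw [← hs1] at a3
  clear_value p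
  have v0 := V_pos (μ := μ) H.c0
  have v1 := V_pos (μ := μ) H.c1
  have j0 : Dri.phi L S0.F S0.t S0.w Z y / ((∫ z, res L S0.F z ^ 2 ∂μ : ℝ) : ℂ) =
      ((rn μ L S0.F y : ℝ) : ℂ) * (Complex.exp (-(sQ / (2 * S0.t) + s0)) - 1) := by
    rw [i0]
    unfold rn
    push_cast
    ring
  have j1 : Dri.phi L S1.F S1.t S1.w Z y / ((∫ z, res L S1.F z ^ 2 ∂μ : ℝ) : ℂ) =
      ((rn μ L S1.F y : ℝ) : ℂ) * (Complex.exp (-(sQ / (2 * S1.t) + s1)) - 1) := by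
    rw [i1]
    unfold rn
    push_cast
    ring
  rw [j0, j1]
  have hM0 : 0 ≤ 192 / δ ^ 2 + 7400 := by positivity
  refine pt_arith (N := Nq D Z y) (p := p) ht ht1 rfl H.tt (rn_nonneg _ _) hDd hp0 hp1
    (by positivity) (by positivity) (by positivity) (by norm_num) (by positivity)
    ?_ ?_ ?_ ?_ ?_ ?_
  · -- sixth order
    have c1 : ‖ad (η : Mt m) (ad (η : Mt m) (Z : Mt m))‖ ≤ 4 * p ^ 3 := by
      refine (TlD.norm_ad_le _ _).trans ?_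
      have c2 := TlD.norm_ad_le (η : Mt m) (Z : Mt m)
      have e1 : ‖(η : Mt m)‖ = ‖η‖ := rfl
      have e2 : ‖(Z : Mt m)‖ = ‖Z‖ := rfl
      rw [e1, e2] at c2
      rw [e1]
      calc 2 * (‖η‖ * ‖ad (η : Mt m) (Z : Mt m)‖) ≤ 2 * (p * (2 * (p * p))) := by
            refine mul_le_mul_of_nonneg_left (mul_le_mul hηp (c2.trans ?_) (norm_nonneg _) hp0)
              (by norm_num)
            exact mul_le_mul_of_nonneg_left (mul_le_mul hηp hZp hZ0 hp0) (by norm_num)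
        _ = _ := by ring
    have c3 : ‖ad (Z : Mt m) (ad (Z : Mt m) (η : Mt m))‖ ≤ 4 * p ^ 3 := by
      refine (TlD.norm_ad_le _ _).trans ?_
      have c2 := TlD.norm_ad_le (Z : Mt m) (η : Mt m)
      have e1 : ‖(η : Mt m)‖ = ‖η‖ := rfl
      have e2 : ‖(Z : Mt m)‖ = ‖Z‖ := rfl
      rw [e1, e2] at c2
      rw [e2]
      calc 2 * (‖Z‖ * ‖ad (Z : Mt m) (η : Mt m)‖) ≤ 2 * (p * (2 * (p * p))) := by
            refine mul_le_mul_of_nonneg_left (mul_le_mul hZp (c2.trans ?_) (norm_nonneg _) hp0)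
              (by norm_num)
            exact mul_le_mul_of_nonneg_left (mul_le_mul hZp hηp hη0 hp0) (by norm_num)
        _ = _ := by ring
    have d1 := pow_le_pow_left₀ (norm_nonneg _) c1 2
    have d3 := pow_le_pow_left₀ (norm_nonneg _) c3 2
    have e6 : (4 * p ^ 3) ^ 2 = 16 * p ^ 6 := by ring
    rw [e6] at d1 d3
    have e7 : (‖Z‖ + ‖η‖) ^ 7 ≤ p ^ 6 := by
      have f1 : ‖Z‖ + ‖η‖ ≤ p := by linarith
      have f2 := pow_le_pow_left₀ (by positivity) f1 7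
      refine f2.trans ?_
      calc p ^ 7 = p ^ 6 * p := by ring
        _ ≤ p ^ 6 * 1 := by gcongr
        _ = _ := mul_one _
    have e8 : sQ + ((Nq D Z y / 24 : ℝ) : ℂ) = (sQ + ((T6 (Z : Mt m) (η : Mt m) : ℝ) : ℂ)) -
        ((1 / 1440 * ‖ad (η : Mt m) (ad (η : Mt m) (Z : Mt m))‖ ^ 2 +
          1 / 5760 * ‖ad (Z : Mt m) (ad (Z : Mt m) (η : Mt m))‖ ^ 2 : ℝ) : ℂ) := by
      have : Nq D Z y = ‖ad (Z : Mt m) (η : Mt m)‖ ^ 2 := rfl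
      rw [this]
      unfold T6
      push_cast
      ring
    rw [e8]
    refine (norm_sub_le _ _).trans ?_
    rw [Complex.norm_real, Real.norm_eq_abs, abs_of_nonneg (by positivity)]
    have f3 : C6 * (‖Z‖ + ‖η‖) ^ 7 ≤ C6 * p ^ 6 := mul_le_mul_of_nonneg_left e7 hC6.le
    have f4 : 0 ≤ p ^ 6 := by positivity
    linarith
  · calc ‖sQ‖ ≤ 384 / δ ^ 2 * ‖Z‖ ^ 2 * ‖η‖ ^ 2 := a1
      _ ≤ 384 / δ ^ 2 * S0.t * p ^ 2 := by gcongr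
      _ = _ := by ring
  · calc ‖s0‖ ≤ 73728 * A * ‖Z‖ ^ 2 * ‖η‖ ^ 2 := a2
      _ ≤ 73728 * K * S0.t * p ^ 2 := by gcongr
      _ = _ := by ring
  · calc ‖s1 - s0‖ ≤ 73728 * Dd * ‖Z‖ ^ 2 * ‖η‖ ^ 2 := a3
      _ ≤ 73728 * Dd * S0.t * p ^ 2 := by gcongr
      _ = _ := by ring
  · calc _ ≤ (192 / δ ^ 2 + 7400) * ‖Z‖ ^ 2 * (‖η‖ ^ 2 / S0.t) := a5
      _ ≤ (192 / δ ^ 2 + 7400) * S0.t * (p ^ 2 / S0.t) := by gcongr
      _ = (192 / δ ^ 2 + 7400) * p ^ 2 := by field_simp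
      _ ≤ 2 * (192 / δ ^ 2 + 7400) * p ^ 2 := by
          have : 0 ≤ (192 / δ ^ 2 + 7400) * p ^ 2 := by positivity
          linarith
  · calc _ ≤ (192 / δ ^ 2 + 7400) * ‖Z‖ ^ 2 * (‖η‖ ^ 2 / S1.t) := a6
      _ ≤ (192 / δ ^ 2 + 7400) * (2 * S1.t) * (p ^ 2 / S1.t) := by
          have : ‖Z‖ ^ 2 ≤ 2 * S1.t := hZ2.trans ht2
          gcongr
      _ = _ := by field_simp

end Tlp

end

end Pool.Agent.T2H04.HY
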