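import Mathlib
import Pool.Agent.T2H04.HY.TlP3c

/-!
# Package P3: the integrated difference near `1`
-/

open MeasureTheory Matrix Filter
open scoped Matrix.Norms.Frobenius Topology

namespace Pool.Agent.T2H04.HY

set_option linter.unusedSectionVars false

noncomputable section

namespace Tlp

variable {G : Type} [Group G] [TopologicalSpace G] [IsTopologicalGroup G] [CompactSpace G]
  [MeasurableSpace G] [BorelSpace G] {μ : Measure G} [μ.IsHaarMeasure] [IsProbabilityMeasure μ]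
  {m : Type} [Fintype m] [DecidableEq m] {L : RD G m}
  {D : LogData m} {εg δ r0 r s b r' : ℝ} (P : Par L D εg δ r0 r s b r')
  {S0 S1 : St L} {A T Dd E : ℝ} (H : PairH L r0 r s b S0 S1 A T Dd E)

theorem int_six {B : Set G} {f1 f2 f3 f4 f5 f6 : G → ℝ} (h1 : Integrable f1 (μ.restrict B))
    (h2 : Integrable f2 (μ.restrict B)) (h3 : Integrable f3 (μ.restrict B))
    (h4 : Integrable f4 (μ.restrict B)) (h5 : Integrable f5 (μ.restrict B))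
    (h6 : Integrable f6 (μ.restrict B)) :
    Integrable (fun y => f1 y + f2 y + f3 y + f4 y + f5 y + f6 y) (μ.restrict B) ∧
    ∫ y in B, (f1 y + f2 y + f3 y + f4 y + f5 y + f6 y) ∂μ =
      (∫ y in B, f1 y ∂μ) + (∫ y in B, f2 y ∂μ) + (∫ y in B, f3 y ∂μ) + (∫ y in B, f4 y ∂μ) +
        (∫ y in B, f5 y ∂μ) + ∫ y in B, f6 y ∂μ := by
  have i2 : Integrable (fun y => f1 y + f2 y) (μ.restrict B) := h1.add h2
  have i3 : Integrable (fun y => f1 y + f2 y + f3 y) (μ.restrict B) := i2.add h3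
  have i4 : Integrable (fun y => f1 y + f2 y + f3 y + f4 y) (μ.restrict B) := i3.add h4
  have i5 : Integrable (fun y => f1 y + f2 y + f3 y + f4 y + f5 y) (μ.restrict B) := i4.add h5
  refine ⟨i5.add h6, ?_⟩
  rw [integral_add i5 h6, integral_add i4 h5, integral_add i3 h4, integral_add i2 h3,
    integral_add h1 h2]

theorem int_sub3 {B : Set G} {f g : G → ℂ} {h : G → ℝ} (h1 : Integrable f (μ.restrict B))
    (h2 : Integrable g (μ.restrict B)) (h3 : Integrable h (μ.restrict B)) :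
    (∫ y in B, f y ∂μ) - (∫ y in B, g y ∂μ) - ((∫ y in B, h y ∂μ : ℝ) : ℂ) =
      ∫ y in B, (f y - g y - ((h y : ℝ) : ℂ)) ∂μ := by
  have i2 : Integrable (fun y => f y - g y) (μ.restrict B) := h1.sub h2
  have i3 : Integrable (fun y => ((h y : ℝ) : ℂ)) (μ.restrict B) := h3.ofReal
  rw [integral_sub i2 i3, integral_sub h1 h2]
  congr 1
  exact (integral_ofReal (𝕜 := ℂ)).symm

include P H in
theorem near {C6 δ6 K ρ : ℝ} (hC6 : 0 < C6)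
    (h6 : ∀ X η : gC L, imP (X : Mt m) = 0 → imP (η : Mt m) = 0 → ‖X‖ ≤ δ6 → ‖η‖ ≤ δ6 →
      ‖sdf D (fun Z : gC L => Qf (Z : Mt m)) X η + ((T6 (X : Mt m) (η : Mt m) : ℝ) : ℂ)‖ ≤
        C6 * (‖X‖ + ‖η‖) ^ 7) (hAK : A ≤ K) (ht2 : S0.t ≤ 2 * S1.t)
    {X : gC L} (hX : (X : Mt m) ∈ lieSet L) (hX1 : ‖X‖ ≤ 1)
    (hst0 : Real.sqrt S0.t ≤ 1 / 2) (hstr : Real.sqrt S0.t < r0 / 20)
    (hst6 : Real.sqrt S0.t ≤ δ6) (hρ1 : ρ ≤ r0 / 20) (hρ6 : 2 * ρ ≤ δ6)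
    {Ca Cb x : ℝ} (hx : x = S0.t * T + S0.t ^ 2 * (Dd + E)) (hCa : 0 ≤ Ca) (hCb : 0 ≤ Cb)
    (ha : ∀ k ∈ ({2, 4, 6} : Finset ℕ), ∫ y in bal L ρ,
      (Real.sqrt S0.t + ‖Dri.et L D y‖) ^ k * rn μ L S1.F y ∂μ ≤ Ca * Real.sqrt S0.t ^ k)
    (hb : ∀ k ∈ ({2, 4, 6} : Finset ℕ), ∫ y in bal L ρ,
      (Real.sqrt S0.t + ‖Dri.et L D y‖) ^ k * |rn μ L S1.F y - rn μ L S0.F y| ∂μ ≤
        Cb * Real.sqrt S0.t ^ k * x) :
    ‖∫ y in bal L ρ, Dri.phi L S1.F S1.t S1.w (((Real.sqrt S0.t : ℝ) : ℂ) • X) y /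
        ((∫ z, res L S1.F z ^ 2 ∂μ : ℝ) : ℂ) ∂μ -
      ∫ y in bal L ρ, Dri.phi L S0.F S0.t S0.w (((Real.sqrt S0.t : ℝ) : ℂ) • X) y /
        ((∫ z, res L S0.F z ^ 2 ∂μ : ℝ) : ℂ) ∂μ -
      ((∫ y in bal L ρ, Nq D (((Real.sqrt S0.t : ℝ) : ℂ) • X) y / 48 *
        (rn μ L S1.F y / S1.t - rn μ L S0.F y / S0.t) ∂μ : ℝ) : ℂ)‖ ≤
      Cnr C6 δ K * (3 * (Ca + Cb)) * (S0.t ^ 3 * T + S0.t ^ 2 * (Dd + E)) := by
  have ht := H.p0
  have hT := H.T0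
  have hDd := H.D0
  have hE := H.E0
  have hr0 := P.r0_pos
  have hδ := P.r0_δ
  have hq0 := Real.sqrt_nonneg S0.t
  have hB : MeasurableSet (bal L ρ : Set G) := (isOpen_bal L ρ).measurableSet
  have p1 : Integrable (fun y => Dri.phi L S1.F S1.t S1.w (((Real.sqrt S0.t : ℝ) : ℂ) • X) y /
        ((∫ z, res L S1.F z ^ 2 ∂μ : ℝ) : ℂ)) (μ.restrict (bal L ρ)) :=
    ((intg μ (Dri.phi_cont H.c1.diff.continuous _ _ _)).div_const _).restrict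
  have p0 : Integrable (fun y => Dri.phi L S0.F S0.t S0.w (((Real.sqrt S0.t : ℝ) : ℂ) • X) y /
        ((∫ z, res L S0.F z ^ 2 ∂μ : ℝ) : ℂ)) (μ.restrict (bal L ρ)) :=
    ((intg μ (Dri.phi_cont H.c0.diff.continuous _ _ _)).div_const _).restrict
  have n1 := intg_rn (μ := μ) P H.c1 H.p1 H.A0 H.At1 (Nq_cont (((Real.sqrt S0.t : ℝ) : ℂ) • X)) hρ1
  have n0 := intg_rn (μ := μ) P H.c0 H.p0 H.A0 H.At0 (Nq_cont (((Real.sqrt S0.t : ℝ) : ℂ) • X)) hρ1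
  have nn : Integrable (fun y => Nq D (((Real.sqrt S0.t : ℝ) : ℂ) • X) y / 48 *
        (rn μ L S1.F y / S1.t - rn μ L S0.F y / S0.t)) (μ.restrict (bal L ρ)) := by
    refine Integrable.congr ((n1.div_const (48 * S1.t)).sub (n0.div_const (48 * S0.t)))
      (Filter.Eventually.of_forall fun y => ?_)
    show Nq D (((Real.sqrt S0.t : ℝ) : ℂ) • X) y * rn μ L S1.F y / (48 * S1.t) -
      Nq D (((Real.sqrt S0.t : ℝ) : ℂ) • X) y * rn μ L S0.F y / (48 * S0.t) = _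
    have := H.p1
    field_simp
  rw [int_sub3 p1 p0 nn]
  have A' : ∀ k : ℕ, Integrable (fun y => (Real.sqrt S0.t + ‖Dri.et L D y‖) ^ k *
      rn μ L S1.F y) (μ.restrict (bal L ρ)) := fun k =>
    intg_rn (μ := μ) P H.c1 H.p1 H.A0 H.At1 (Φ := fun η => (Real.sqrt S0.t + ‖η‖) ^ k)
      ((continuous_const.add continuous_norm).pow k) hρ1
  have B' : ∀ k : ℕ, Integrable (fun y => (Real.sqrt S0.t + ‖Dri.et L D y‖) ^ k *
      |rn μ L S1.F y - rn μ L S0.F y|) (μ.restrict (bal L ρ)) := fun k =>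
    intg_d (μ := μ) P H (Φ := fun η => (Real.sqrt S0.t + ‖η‖) ^ k)
      ((continuous_const.add continuous_norm).pow k) (fun η => by positivity) hρ1
  have hC0 : 0 ≤ Cnr C6 δ K := Cnr_nonneg hC6.le (by linarith) (H.A0.trans hAK)
  have hs := int_six ((A' 6).const_mul T) ((B' 6).div_const S0.t) ((A' 2).const_mul (Dd * S0.t))
    ((B' 2).const_mul S0.t) ((A' 4).const_mul (S0.t * (T + Dd))) (B' 4)
  have hI := hs.1.const_mul (Cnr C6 δ K)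
  refine (norm_integral_le_of_norm_le hI ((ae_restrict_iff' hB).2
    (Filter.Eventually.of_forall fun y hy => near_pt P H hC6 h6 hAK ht2 hX hX1 hst0 hstr hst6 hρ1
      hρ6 hy))).trans ?_
  rw [integral_const_mul, mul_assoc]
  refine mul_le_mul_of_nonneg_left ?_ hC0
  rw [hs.2, integral_const_mul, integral_div, integral_const_mul, integral_const_mul,
    integral_const_mul]
  have q2 : Real.sqrt S0.t ^ 2 = S0.t := Real.sq_sqrt ht.le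
  have q4 : Real.sqrt S0.t ^ 4 = S0.t ^ 2 := by
    calc Real.sqrt S0.t ^ 4 = (Real.sqrt S0.t ^ 2) ^ 2 := by ring
      _ = _ := by rw [q2]
  have q6 : Real.sqrt S0.t ^ 6 = S0.t ^ 3 := by
    calc Real.sqrt S0.t ^ 6 = (Real.sqrt S0.t ^ 2) ^ 3 := by ring
      _ = _ := by rw [q2]
  have a2 := ha 2 (by simp)
  have a4 := ha 4 (by simp)
  have a6 := ha 6 (by simp)
  have b2 := hb 2 (by simp)
  have b4 := hb 4 (by simp)
  have b6 := hb 6 (by simp)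
  rw [q2] at a2 b2
  rw [q4] at a4 b4
  rw [q6] at a6 b6
  have hx0 : 0 ≤ x := by rw [hx]; positivity
  have ht1 : S0.t ≤ 1 := by
    rw [← q2]
    nlinarith
  have c1 : T * ∫ y in bal L ρ, (Real.sqrt S0.t + ‖Dri.et L D y‖) ^ 6 * rn μ L S1.F y ∂μ ≤
      Ca * (S0.t ^ 3 * T) := by
    calc _ ≤ T * (Ca * S0.t ^ 3) := mul_le_mul_of_nonneg_left a6 hT
      _ = _ := by ring
  have c2 : (∫ y in bal L ρ, (Real.sqrt S0.t + ‖Dri.et L D y‖) ^ 6 *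
      |rn μ L S1.F y - rn μ L S0.F y| ∂μ) / S0.t ≤ Cb * (S0.t ^ 2 * x) := by
    rw [div_le_iff₀ ht]
    refine b6.trans (le_of_eq ?_)
    ring
  have c3 : Dd * S0.t * ∫ y in bal L ρ, (Real.sqrt S0.t + ‖Dri.et L D y‖) ^ 2 *
      rn μ L S1.F y ∂μ ≤ Ca * (S0.t ^ 2 * Dd) := by
    calc _ ≤ Dd * S0.t * (Ca * S0.t) := mul_le_mul_of_nonneg_left a2 (by positivity)
      _ = _ := by ring
  have c4 : S0.t * ∫ y in bal L ρ, (Real.sqrt S0.t + ‖Dri.et L D y‖) ^ 2 *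
      |rn μ L S1.F y - rn μ L S0.F y| ∂μ ≤ Cb * (S0.t ^ 2 * x) := by
    calc _ ≤ S0.t * (Cb * S0.t * x) := mul_le_mul_of_nonneg_left b2 ht.le
      _ = _ := by ring
  have c5 : S0.t * (T + Dd) * ∫ y in bal L ρ, (Real.sqrt S0.t + ‖Dri.et L D y‖) ^ 4 *
      rn μ L S1.F y ∂μ ≤ Ca * (S0.t ^ 3 * T + S0.t ^ 3 * Dd) := by
    calc _ ≤ S0.t * (T + Dd) * (Ca * S0.t ^ 2) := mul_le_mul_of_nonneg_left a4 (by positivity)
      _ = _ := by ring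
  have c6 : ∫ y in bal L ρ, (Real.sqrt S0.t + ‖Dri.et L D y‖) ^ 4 *
      |rn μ L S1.F y - rn μ L S0.F y| ∂μ ≤ Cb * (S0.t ^ 2 * x) := by
    refine b4.trans (le_of_eq ?_)
    ring
  have t3 : S0.t ^ 3 * Dd ≤ S0.t ^ 2 * Dd := by
    have : S0.t ^ 3 ≤ S0.t ^ 2 := by nlinarith [sq_nonneg S0.t]
    gcongr
  have tx : S0.t ^ 2 * x ≤ S0.t ^ 3 * T + S0.t ^ 2 * (Dd + E) := by
    rw [hx]
    have : S0.t ^ 2 * (S0.t ^ 2 * (Dd + E)) ≤ 1 * (S0.t ^ 2 * (Dd + E)) := by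
      have h1 : S0.t ^ 2 ≤ 1 := pow_le_one₀ ht.le ht1
      gcongr
    linarith
  have u1 : Ca * (S0.t ^ 3 * T) + Ca * (S0.t ^ 2 * Dd) + Ca * (S0.t ^ 3 * T + S0.t ^ 3 * Dd) ≤
      3 * Ca * (S0.t ^ 3 * T + S0.t ^ 2 * (Dd + E)) := by
    have h1 : S0.t ^ 3 * T + S0.t ^ 2 * Dd + (S0.t ^ 3 * T + S0.t ^ 3 * Dd) ≤
        3 * (S0.t ^ 3 * T + S0.t ^ 2 * (Dd + E)) := by
      have h2 : 0 ≤ S0.t ^ 3 * T := by positivity
      have h3 : 0 ≤ S0.t ^ 2 * Dd := by positivity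
      have h4 : 0 ≤ S0.t ^ 2 * E := by positivity
      nlinarith
    calc _ = Ca * (S0.t ^ 3 * T + S0.t ^ 2 * Dd + (S0.t ^ 3 * T + S0.t ^ 3 * Dd)) := by ring
      _ ≤ Ca * (3 * (S0.t ^ 3 * T + S0.t ^ 2 * (Dd + E))) := mul_le_mul_of_nonneg_left h1 hCa
      _ = _ := by ring
  have u2 : Cb * (S0.t ^ 2 * x) ≤ Cb * (S0.t ^ 3 * T + S0.t ^ 2 * (Dd + E)) :=
    mul_le_mul_of_nonneg_left tx hCb
  linarith

end Tlp

end

end Pool.Agent.T2H04.HY
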