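import Mathlib
import Pool.Agent.T2H04.HY.Pd4
import Pool.Agent.T2H04.HY.TlP3b

/-!
# Package P3: the difference far from `1`
-/

open MeasureTheory Matrix Filter
open scoped Matrix.Norms.Frobenius Topology

namespace Pool.Agent.T2H04.HY

set_option linter.unusedSectionVars false

noncomputable section

namespace Tlp

theorem quot_le {D1 D0 : ℂ} {J1 J0 M a d j : ℝ} (hM : 0 < M) (h0 : M / 3 ≤ J0) (h1 : M / 6 ≤ J1)
    (ha : ‖D1 - D0‖ ≤ a) (hd : ‖D0‖ ≤ d) (hj : |J1 - J0| ≤ j) :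
    ‖D1 / (J1 : ℂ) - D0 / (J0 : ℂ)‖ ≤ 6 * a / M + 18 * d * j / M ^ 2 := by
  have hJ0 : 0 < J0 := lt_of_lt_of_le (by positivity) h0
  have hJ1 : 0 < J1 := lt_of_lt_of_le (by positivity) h1
  have hd0 : 0 ≤ d := (norm_nonneg _).trans hd
  have ha0 : 0 ≤ a := (norm_nonneg _).trans ha
  have hj0 : 0 ≤ j := (abs_nonneg _).trans hj
  have e : D1 / (J1 : ℂ) - D0 / (J0 : ℂ) =
      (D1 - D0) / (J1 : ℂ) - D0 * ((J1 - J0 : ℝ) : ℂ) / ((J0 * J1 : ℝ) : ℂ) := by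
    have c0 : (J0 : ℂ) ≠ 0 := by exact_mod_cast hJ0.ne'
    have c1 : (J1 : ℂ) ≠ 0 := by exact_mod_cast hJ1.ne'
    push_cast
    field_simp
    ring
  rw [e]
  refine (norm_sub_le _ _).trans (add_le_add ?_ ?_)
  · rw [norm_div, Complex.norm_real, Real.norm_eq_abs, abs_of_pos hJ1]
    calc ‖D1 - D0‖ / J1 ≤ a / (M / 6) := by gcongr
      _ = 6 * a / M := by field_simp
  · rw [norm_div, norm_mul, Complex.norm_real, Complex.norm_real, Real.norm_eq_abs,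
      Real.norm_eq_abs, abs_of_pos (mul_pos hJ0 hJ1)]
    calc ‖D0‖ * |J1 - J0| / (J0 * J1) ≤ d * j / (M / 3 * (M / 6)) := by gcongr
      _ = 18 * d * j / M ^ 2 := by field_simp; ring

variable {G : Type} [Group G] [TopologicalSpace G] [IsTopologicalGroup G] [CompactSpace G]
  [MeasurableSpace G] [BorelSpace G] {μ : Measure G} [μ.IsHaarMeasure] [IsProbabilityMeasure μ]
  {m : Type} [Fintype m] [DecidableEq m] {L : RD G m}

theorem F_one {S : St L} {A r τ s b ε : ℝ} (cl : Cls L S.F S.t A r τ s b ε) :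
    S.F 1 = (((S.F 1).re : ℝ) : ℂ) ∧ 0 < (S.F 1).re := by
  have := cl.real 1
  rw [map_one] at this
  exact ⟨Complex.ext (by simp) (by simp [this]), cl.pos⟩

theorem phi_Ig {S : St L} {A r τ s b ε : ℝ} (cl : Cls L S.F S.t A r τ s b ε) (hw0 : S.w 0 = 0)
    (Z : gC L) (y : G) :
    Dri.phi L S.F S.t S.w Z y =
      (((S.F 1).re ^ 2 : ℝ) : ℂ) * (Ig L S Z y - Ig L S 0 y) := by
  obtain ⟨h1, h2⟩ := F_one cl
  have h3 : S.F (L.rho y⁻¹) = S.F (L.rho y) := by rw [← L.sig_rho, cl.inv]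
  have h4 : NormedSpace.exp ((1 / 2 : ℂ) • ((0 : gC L) : Mt m)) = 1 := by
    rw [show ((0 : gC L) : Mt m) = 0 from rfl, smul_zero, NormedSpace.exp_zero]
  have h5 : S.F 1 ≠ 0 := by
    rw [h1]
    exact_mod_cast h2.ne'
  have h6 : (((S.F 1).re ^ 2 : ℝ) : ℂ) = S.F 1 ^ 2 := by
    push_cast
    rw [← h1]
  unfold Dri.phi Ig
  rw [h4, ev_zero hw0, one_mul, one_mul, h3, h6]
  field_simp

theorem farp {D : LogData m} {εg δ r0 r s b r' : ℝ} (P : Par L D εg δ r0 r s b r') {Cm : ℝ}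
    (hCm : ∀ t : ℝ, 0 < t → ∫ y, (1 + dis L y ^ 2 / t + (dis L y ^ 2 / t) ^ 2) *
      Real.exp (-(1 / 2 * dis L y ^ 2 / t)) ∂μ ≤ Cm * μ.real (bal L (Real.sqrt t)))
    (hCm0 : 0 ≤ Cm) (hR : 32 * (192 / δ ^ 2 + 7400) * Cm * r0 ^ 2 ≤ 1) {ρ : ℝ}
    (hρ : 0 < ρ) (hρ1 : ρ ≤ r0 / 20) (K : ℝ) (hK : 0 < K) :
    ∃ C ts : ℝ, 0 < C ∧ 0 < ts ∧ ∀ (S0 S1 : St L) (A T Dd E : ℝ),
      PairH L r0 r s b S0 S1 A T Dd E → S0.t ≤ ts → S1.t ≤ ts → XX r0 T Dd E ≤ K →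
      ∀ Z : gC L, ‖Z‖ ≤ Real.sqrt S0.t →
        ‖(∫ y in (bal L ρ : Set G)ᶜ, Dri.phi L S1.F S1.t S1.w Z y /
          ((∫ z, res L S1.F z ^ 2 ∂μ : ℝ) : ℂ) ∂μ) -
          ∫ y in (bal L ρ : Set G)ᶜ, Dri.phi L S0.F S0.t S0.w Z y /
          ((∫ z, res L S0.F z ^ 2 ∂μ : ℝ) : ℂ) ∂μ‖ ≤ C * S0.t ^ 3 * XX r0 T Dd E := by
  have hr0 := P.r0_pos
  have hr01 := P.r0_le
  have hrl := P.r_lo
  have hrl' := P.r'_lo
  have hδ := P.r0_δ
  have hδ0 : 0 < δ := by linarith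
  obtain ⟨C1, t1, hC1, ht1, H1⟩ := inner_diff P K hK
  obtain ⟨C2, hC2, H2⟩ := outer_diff P K hK
  obtain ⟨C3, t3, hC3, ht3, H3⟩ := calE_lip μ P hCm hCm0 hR K hK
  obtain ⟨Ct, hCt, H4⟩ := Dri.tail_le μ L (ρ ^ 2 / 1000) (by positivity)
  set K' : ℝ := 32 / r0 ^ 2 + 5 * (192 / δ ^ 2 + 7400) with hK'
  have hK'0 : 0 < K' := by positivity
  refine ⟨(12 * (C1 + C2) + 18 * K' * C3) * Ct, min (min t1 t3) (min ((r0 / 100) ^ 2)
    (1 / (6 * C3 * K))), by positivity, by positivity, ?_⟩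
  intro S0 S1 A T Dd E H hts hts' hX Z hZ
  have a1 : S0.t ≤ t1 := hts.trans ((min_le_left _ _).trans (min_le_left _ _))
  have a3 : S0.t ≤ t3 := hts.trans ((min_le_left _ _).trans (min_le_right _ _))
  have a3' : S1.t ≤ t3 := hts'.trans ((min_le_left _ _).trans (min_le_right _ _))
  have a5 : S0.t ≤ (r0 / 100) ^ 2 := hts.trans ((min_le_right _ _).trans (min_le_left _ _))
  have a6 : S0.t ≤ 1 / (6 * C3 * K) := hts.trans ((min_le_right _ _).trans (min_le_right _ _))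
  have hp0 := H.p0
  have hp1 := H.p1
  have hs0 : Real.sqrt S0.t ≤ r0 / 100 := by
    rw [← Real.sqrt_sq (by positivity : (0 : ℝ) ≤ r0 / 100)]
    exact Real.sqrt_le_sqrt a5
  have hst : Real.sqrt S0.t < r0 / 20 := by linarith
  have hs1 : Real.sqrt S0.t ≤ 1 := by linarith
  have ht01 : S0.t ≤ 1 := by nlinarith
  have hsq : Real.sqrt S0.t ^ 2 = S0.t := Real.sq_sqrt hp0.le
  set X : ℝ := XX r0 T Dd E with hXdef
  have hX0 : 0 ≤ X := by
    rw [hXdef]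
    unfold XX
    have e1 := H.T0
    have e2 := H.D0
    have e3 := H.E0
    positivity
  set M : ℝ := μ.real (bal L (Real.sqrt S0.t)) with hM
  have hM0 : 0 < M := bal_pos μ L _ (Real.sqrt_pos.2 hp0)
  obtain ⟨f0e, f0p⟩ := F_one H.c0
  obtain ⟨f1e, f1p⟩ := F_one H.c1
  have hw0 : S0.w 0 = 0 := H.s0.zero (by linarith) (by positivity)
  have hw1 : S1.w 0 = 0 := H.s1.zero (by linarith) (by positivity)
  obtain ⟨V0, hV0⟩ : ∃ V, V = ∫ z, res L S0.F z ^ 2 ∂μ := ⟨_, rfl⟩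
  obtain ⟨V1, hV1⟩ : ∃ V, V = ∫ z, res L S1.F z ^ 2 ∂μ := ⟨_, rfl⟩
  have v0 := V_pos (μ := μ) H.c0
  have v1 := V_pos (μ := μ) H.c1
  rw [← hV0] at v0
  rw [← hV1] at v1
  have c0 := Dri.ccv_one_int (μ := μ) H.c0
  have c1 := Dri.ccv_one_int (μ := μ) H.c1
  rw [← hV0] at c0
  rw [← hV1] at c1
  -- the normalised integrals
  obtain ⟨J0, hJ0⟩ : ∃ J, J = V0 / (S0.F 1).re ^ 2 := ⟨_, rfl⟩
  obtain ⟨J1, hJ1⟩ : ∃ J, J = V1 / (S1.F 1).re ^ 2 := ⟨_, rfl⟩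
  have k0 : (V0 : ℂ) = (((S0.F 1).re ^ 2 : ℝ) : ℂ) * (J0 : ℂ) := by
    rw [hJ0, ← Complex.ofReal_mul, mul_div_cancel₀]
    positivity
  have k1 : (V1 : ℂ) = (((S1.F 1).re ^ 2 : ℝ) : ℂ) * (J1 : ℂ) := by
    rw [hJ1, ← Complex.ofReal_mul, mul_div_cancel₀]
    positivity
  have hJJ := (H3 S0 S1 A T Dd E H a3 a3' hX).2
  have l0 : ccv L μ S0.F 1 / S0.F 1 ^ 2 = (J0 : ℂ) := by
    rw [c0, hJ0, f0e]
    push_cast
    simp
  have l1 : ccv L μ S1.F 1 / S1.F 1 ^ 2 = (J1 : ℂ) := by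
    rw [c1, hJ1, f1e]
    push_cast
    simp
  rw [l0, l1, ← Complex.ofReal_sub, Complex.norm_real, Real.norm_eq_abs, ← hM] at hJJ
  have hfM := TlD.fM_le (μ := μ) P H.c0 H.s0 hp0 H.A0 H.At0 hst
  rw [← hV0, ← hM] at hfM
  have hJ0l : M / 3 ≤ J0 := by
    rw [hJ0, le_div_iff₀ (by positivity)]
    linarith
  have hsm : C3 * S0.t * X * M ≤ M / 6 := by
    have b1 : C3 * S0.t * X ≤ 1 / 6 := by
      calc C3 * S0.t * X ≤ C3 * (1 / (6 * C3 * K)) * K := by gcongr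
        _ = 1 / 6 := by field_simp
    nlinarith
  have hJ1l : M / 6 ≤ J1 := by
    have := (abs_le.1 (hJJ.trans hsm)).1
    linarith
  have hq : Real.exp (-(ρ ^ 2 / 1000 / S0.t)) ≤ Ct * S0.t ^ 3 * M := H4 S0.t hp0 ht01
  -- pointwise bound
  have hZdom : Z ∈ dom L r' (r0 / 4) := by
    refine ball_sub_dom (ρ := r0 / 4) (by linarith) le_rfl ?_
    rw [mem_ball_zero_iff]
    linarith
  have h0dom : (0 : gC L) ∈ dom L r' (r0 / 4) := zero_mem_dom (by linarith) (by positivity)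
  have key : ∀ Z ∈ dom L r' (r0 / 4), ∀ y : G, ρ ≤ dis L y →
      ‖Ig L S1 Z y - Ig L S0 Z y‖ ≤ (C1 + C2) * X * Real.exp (-(ρ ^ 2 / 1000 / S0.t)) := by
    intro Z hZ y hy
    have hE := Real.exp_pos (-(ρ ^ 2 / 1000 / S0.t))
    rcases lt_or_ge (dis L y) (r0 / 20) with h | h
    · refine (H1 S0 S1 A T Dd E H a1 hX Z hZ y h).trans ?_
      have d0 : 0 ≤ dis L y := norm_nonneg _
      have d1 : dis L y ^ 2 ≤ 1 := by nlinarith
      have d2 : Real.exp (-(3 / 8 * dis L y ^ 2 / S0.t)) ≤ Real.exp (-(ρ ^ 2 / 1000 / S0.t)) := by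
        apply Real.exp_le_exp.2
        have d3 : ρ ^ 2 ≤ dis L y ^ 2 := pow_le_pow_left₀ hρ.le hy 2
        have d4 : ρ ^ 2 / 1000 ≤ 3 / 8 * dis L y ^ 2 := by nlinarith [sq_nonneg ρ]
        have := div_le_div_of_nonneg_right d4 hp0.le
        linarith
      have d5 : dis L y ^ 2 * Real.exp (-(3 / 8 * dis L y ^ 2 / S0.t)) ≤
          1 * Real.exp (-(ρ ^ 2 / 1000 / S0.t)) := mul_le_mul d1 d2 (Real.exp_pos _).le one_pos.le
      calc C1 * X * (dis L y ^ 2 * Real.exp (-(3 / 8 * dis L y ^ 2 / S0.t)))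
          ≤ C1 * X * (1 * Real.exp (-(ρ ^ 2 / 1000 / S0.t))) := by gcongr
        _ ≤ _ := by
          have : 0 ≤ C2 * X * Real.exp (-(ρ ^ 2 / 1000 / S0.t)) := by positivity
          linarith
    · refine (H2 S0 S1 A T Dd E H hX Z hZ y h).trans ?_
      have d2 : Real.exp (-(r0 ^ 2 / (1000 * S0.t))) ≤ Real.exp (-(ρ ^ 2 / 1000 / S0.t)) := by
        apply Real.exp_le_exp.2
        rw [div_div]
        have d3 : ρ ^ 2 ≤ r0 ^ 2 := pow_le_pow_left₀ hρ.le (by linarith) 2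
        have := div_le_div_of_nonneg_right d3 (by positivity : 0 ≤ 1000 * S0.t)
        linarith
      calc C2 * X * Real.exp (-(r0 ^ 2 / (1000 * S0.t)))
          ≤ C2 * X * Real.exp (-(ρ ^ 2 / 1000 / S0.t)) := by gcongr
        _ ≤ _ := by
          have : 0 ≤ C1 * X * Real.exp (-(ρ ^ 2 / 1000 / S0.t)) := by positivity
          linarith
  have hpt : ∀ y : G, ρ ≤ dis L y →
      ‖Dri.phi L S1.F S1.t S1.w Z y / (V1 : ℂ) - Dri.phi L S0.F S0.t S0.w Z y / (V0 : ℂ)‖ ≤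
        (12 * (C1 + C2) + 18 * K' * C3) * Ct * S0.t ^ 3 * X := by
    intro y hy
    have e0 : Dri.phi L S0.F S0.t S0.w Z y / (V0 : ℂ) =
        (Ig L S0 Z y - Ig L S0 0 y) / (J0 : ℂ) := by
      rw [phi_Ig H.c0 hw0, k0, mul_div_mul_left]
      exact_mod_cast (by positivity : (S0.F 1).re ^ 2 ≠ 0)
    have e1 : Dri.phi L S1.F S1.t S1.w Z y / (V1 : ℂ) =
        (Ig L S1 Z y - Ig L S1 0 y) / (J1 : ℂ) := by
      rw [phi_Ig H.c1 hw1, k1, mul_div_mul_left]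
      exact_mod_cast (by positivity : (S1.F 1).re ^ 2 ≠ 0)
    rw [e0, e1]
    have g1 : ‖Ig L S1 Z y - Ig L S1 0 y - (Ig L S0 Z y - Ig L S0 0 y)‖ ≤
        2 * ((C1 + C2) * X * Real.exp (-(ρ ^ 2 / 1000 / S0.t))) := by
      have e2 : Ig L S1 Z y - Ig L S1 0 y - (Ig L S0 Z y - Ig L S0 0 y) =
          (Ig L S1 Z y - Ig L S0 Z y) - (Ig L S1 0 y - Ig L S0 0 y) := by ring
      rw [e2]
      refine (norm_sub_le _ _).trans ?_
      have := key Z hZdom y hy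
      have := key 0 h0dom y hy
      linarith
    have g2 : ‖Ig L S0 Z y - Ig L S0 0 y‖ ≤ K' * Real.exp (-(ρ ^ 2 / 1000 / S0.t)) := by
      have h1 := Dri.far P H.c0 H.s0 hp0 H.A0 H.At0 Z (by linarith) hρ hρ1 y hy
      rw [phi_Ig H.c0 hw0, norm_mul, Complex.norm_real, Real.norm_eq_abs,
        abs_of_nonneg (by positivity)] at h1
      have h2 := le_of_mul_le_mul_left h1 (by positivity)
      refine h2.trans ?_
      rw [← hK']
      have h3 : ‖Z‖ ^ 2 ≤ 1 := by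
        have := pow_le_pow_left₀ (norm_nonneg _) hZ 2
        rw [hsq] at this
        linarith
      have := Real.exp_pos (-(ρ ^ 2 / 1000 / S0.t))
      calc K' * ‖Z‖ ^ 2 * Real.exp (-(ρ ^ 2 / 1000 / S0.t)) ≤
            K' * 1 * Real.exp (-(ρ ^ 2 / 1000 / S0.t)) := by gcongr
        _ = _ := by ring
    refine (quot_le hM0 hJ0l hJ1l g1 g2 hJJ).trans ?_
    have hE := Real.exp_pos (-(ρ ^ 2 / 1000 / S0.t))
    have hqM : Real.exp (-(ρ ^ 2 / 1000 / S0.t)) / M ≤ Ct * S0.t ^ 3 := by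
      rw [div_le_iff₀ hM0]
      exact hq
    calc 6 * (2 * ((C1 + C2) * X * Real.exp (-(ρ ^ 2 / 1000 / S0.t)))) / M +
          18 * (K' * Real.exp (-(ρ ^ 2 / 1000 / S0.t))) * (C3 * S0.t * X * M) / M ^ 2
        = (12 * (C1 + C2) + 18 * K' * C3 * S0.t) * X *
          (Real.exp (-(ρ ^ 2 / 1000 / S0.t)) / M) := by
          field_simp
          ring
      _ ≤ (12 * (C1 + C2) + 18 * K' * C3 * 1) * X * (Ct * S0.t ^ 3) := by gcongr
      _ = _ := by ring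
  have hB : MeasurableSet ((bal L ρ : Set G)ᶜ) := (isOpen_bal L ρ).measurableSet.compl
  have p1 : Integrable (fun y => Dri.phi L S1.F S1.t S1.w Z y / (V1 : ℂ))
      (μ.restrict (bal L ρ)ᶜ) :=
    ((intg μ (Dri.phi_cont H.c1.diff.continuous _ _ _)).div_const _).restrict
  have p0 : Integrable (fun y => Dri.phi L S0.F S0.t S0.w Z y / (V0 : ℂ))
      (μ.restrict (bal L ρ)ᶜ) :=
    ((intg μ (Dri.phi_cont H.c0.diff.continuous _ _ _)).div_const _).restrict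
  rw [← hV0, ← hV1, ← integral_sub p1 p0]
  have hc0 : 0 ≤ (12 * (C1 + C2) + 18 * K' * C3) * Ct * S0.t ^ 3 * X := by positivity
  have hle := norm_setIntegral_le_of_norm_le_const (μ := μ) (s := (bal L ρ : Set G)ᶜ)
    (f := fun y => Dri.phi L S1.F S1.t S1.w Z y / (V1 : ℂ) -
      Dri.phi L S0.F S0.t S0.w Z y / (V0 : ℂ)) (measure_lt_top _ _)
    (C := (12 * (C1 + C2) + 18 * K' * C3) * Ct * S0.t ^ 3 * X) (fun y hy => hpt y (by
      have h1 : ¬ dis L y < ρ := hy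
      exact not_lt.1 h1))
  refine hle.trans ?_
  have hm1 : μ.real (bal L ρ : Set G)ᶜ ≤ 1 := measureReal_le_one
  nlinarith

end Tlp

end

end Pool.Agent.T2H04.HY
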