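import Mathlib
import Pool.Agent.T2H04.HY.Pd1
import Pool.Agent.T2H04.HY.TlC1a
import Pool.Agent.T2H04.HY.TlP0

/-!
# Difference of the normalised squares of a pair of states (package P1): preparations
-/

open MeasureTheory Matrix Filter
open scoped Matrix.Norms.Frobenius Topology

namespace Pool.Agent.T2H04.HY

set_option linter.unusedSectionVars false

noncomputable section

variable {G : Type} [Group G] [TopologicalSpace G] [IsTopologicalGroup G] [CompactSpace G]
  [MeasurableSpace G] [BorelSpace G] {μ : Measure G} [μ.IsHaarMeasure] [IsProbabilityMeasure μ]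
  {m : Type} [Fintype m] [DecidableEq m] {L : RD G m}

namespace Pq

/-- the normalised restriction to the group -/
def gg (L : RD G m) (F : Mt m → ℂ) (y : G) : ℝ := res L F y / (F 1).re

theorem gg_c {F : Mt m → ℂ} {t A r τ s b ε : ℝ} (cl : Cls L F t A r τ s b ε) (y : G) :
    F (L.rho y) / F 1 = ((gg L F y : ℝ) : ℂ) := by
  have h1 : F (L.rho y) = ((res L F y : ℝ) : ℂ) :=
    Complex.ext (by simp [res]) (by simp [cl.real])
  have h2 : F 1 = (((F 1).re : ℝ) : ℂ) := by
    refine Complex.ext (by simp) ?_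
    have := cl.real 1
    rw [map_one] at this
    simpa using this
  rw [h1, gg, Complex.ofReal_div, ← h2]

theorem abs_sq_diff {a b c : ℝ} (h : |a - b| ≤ c * (|a| + |b|)) (hc : 0 ≤ c) :
    |a ^ 2 - b ^ 2| ≤ 2 * c * (b ^ 2 + a ^ 2) := by
  have e1 : a ^ 2 - b ^ 2 = (a - b) * (a + b) := by ring
  rw [e1, abs_mul]
  have h2 : |a + b| ≤ |a| + |b| := abs_add_le a b
  have h3 : |a - b| * |a + b| ≤ (c * (|a| + |b|)) * (|a| + |b|) :=
    mul_le_mul h h2 (abs_nonneg _) (by positivity)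
  refine h3.trans ?_
  have h4 : (|a| + |b|) ^ 2 ≤ 2 * (b ^ 2 + a ^ 2) := by
    have := sq_abs a
    have := sq_abs b
    nlinarith [sq_nonneg (|a| - |b|)]
  have h5 := mul_le_mul_of_nonneg_left h4 hc
  calc c * (|a| + |b|) * (|a| + |b|) = c * (|a| + |b|) ^ 2 := by ring
    _ ≤ c * (2 * (b ^ 2 + a ^ 2)) := h5
    _ = _ := by ring

theorem intOn_add {S : Set G} {f g : G → ℝ} (hf : IntegrableOn f S μ)
    (hg : IntegrableOn g S μ) : IntegrableOn (fun y => f y + g y) S μ := hf.add hg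

theorem intOn_cm {S : Set G} {f : G → ℝ} (c : ℝ) (hf : IntegrableOn f S μ) :
    IntegrableOn (fun y => c * f y) S μ := hf.const_mul c

theorem lin2 {S : Set G} (hS : MeasurableSet S) {f u v : G → ℝ} (a b : ℝ)
    (hu : IntegrableOn u S μ) (hv : IntegrableOn v S μ)
    (hf : AEStronglyMeasurable f (μ.restrict S)) (hf0 : ∀ y ∈ S, 0 ≤ f y)
    (h : ∀ y ∈ S, f y ≤ a * u y + b * v y) :
    ∫ y in S, f y ∂μ ≤ a * (∫ y in S, u y ∂μ) + b * ∫ y in S, v y ∂μ := by
  have hi : IntegrableOn (fun y => a * u y + b * v y) S μ :=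
    intOn_add (intOn_cm a hu) (intOn_cm b hv)
  have hfi : IntegrableOn f S μ := by
    refine Integrable.mono' hi hf ((ae_restrict_iff' hS).2 (Filter.Eventually.of_forall ?_))
    intro y hy
    rw [Real.norm_of_nonneg (hf0 y hy)]
    exact h y hy
  refine (setIntegral_mono_on hfi hi hS h).trans (le_of_eq ?_)
  rw [integral_add (intOn_cm a hu) (intOn_cm b hv), integral_const_mul, integral_const_mul]

theorem gg_cont {F : Mt m → ℂ} {t A r τ s b ε : ℝ} (cl : Cls L F t A r τ s b ε) :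
    Continuous (gg L F) := (res_cont L cl.diff).div_const _

theorem gg_sq {F : Mt m → ℂ} (y : G) : gg L F y ^ 2 = res L F y ^ 2 / (F 1).re ^ 2 := by
  rw [gg, div_pow]

theorem gg_int (F : Mt m → ℂ) (S : Set G) :
    ∫ y in S, gg L F y ^ 2 ∂μ = (∫ y in S, res L F y ^ 2 ∂μ) / (F 1).re ^ 2 := by
  simp only [gg_sq]
  exact integral_div _ _

theorem gg_int' (F : Mt m → ℂ) :
    ∫ y, gg L F y ^ 2 ∂μ = (∫ y, res L F y ^ 2 ∂μ) / (F 1).re ^ 2 := by
  simp only [gg_sq]
  exact integral_div _ _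

theorem rn_eq {F : Mt m → ℂ} (hF : (F 1).re ≠ 0) (y : G) :
    rn μ L F y = gg L F y ^ 2 / ∫ z, gg L F z ^ 2 ∂μ := by
  rw [rn, gg_int', gg_sq]
  field_simp

end Pq

end

end Pool.Agent.T2H04.HY
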