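import Mathlib
import Pool.Agent.T2H04.HY.TlP1z

/-!
# Difference of the normalised squares of a pair of states (package P1): near part, pointwise
-/

open MeasureTheory Matrix Filter
open scoped Matrix.Norms.Frobenius Topology

namespace Pool.Agent.T2H04.HY

set_option linter.unusedSectionVars false

noncomputable section

variable {G : Type} [Group G] [TopologicalSpace G] [IsTopologicalGroup G] [CompactSpace G]
  [MeasurableSpace G] [BorelSpace G] {μ : Measure G} [μ.IsHaarMeasure] [IsProbabilityMeasure μ]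
  {m : Type} [Fintype m] [DecidableEq m] {L : RD G m}

namespace Pq

theorem near_diff {D : LogData m} {εg δ r0 r s b r' : ℝ} (P : Par L D εg δ r0 r s b r')
    {S0 S1 : St L} {A T Dd E : ℝ} (H : PairH L r0 r s b S0 S1 A T Dd E) {y : G}
    (hy : dis L y < r0 / 20) :
    |gg L S1.F y ^ 2 - gg L S0.F y ^ 2| ≤
      (T * ‖Dri.et L D y‖ ^ 2 + 2 * Dd * ‖Dri.et L D y‖ ^ 4) *
        (gg L S0.F y ^ 2 + gg L S1.F y ^ 2) := by
  have hr0 := P.r0_pos
  have hrl := P.r_lo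
  have hδ := P.r0_δ
  have he0 := P.e0
  have he1 := P.e1
  have hd0 : 0 ≤ dis L y := norm_nonneg _
  have hyδ : dis L y < δ := by linarith
  have hη1 := Dri.et_norm P.ch (y := y) hyδ
  have hηe := Dri.et_exp P.ch (y := y) hyδ
  set η := Dri.et L D y with hη
  have hη16 : ‖η‖ < r0 / 16 := by nlinarith
  have hηdom : η ∈ dom L r (r0 / 4) := ball_sub_dom (ρ := r0 / 16) (by linarith) (by linarith)
    (by rwa [mem_ball_zero_iff])
  have f0 : S0.F 1 ≠ 0 := by
    intro h0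
    have := H.c0.pos
    rw [h0] at this
    simp at this
  have f1 : S1.F 1 ≠ 0 := by
    intro h0
    have := H.c1.pos
    rw [h0] at this
    simp at this
  have g0 : ((gg L S0.F y : ℝ) : ℂ) =
      Complex.exp (-(Qf (η : Mt m) / (2 * S0.t)) - S0.w η) := by
    rw [← gg_c H.c0, ← hηe, H.s0.eq η hηdom, mul_div_cancel_left₀ _ f0]
  have g1 : ((gg L S1.F y : ℝ) : ℂ) =
      Complex.exp (-(Qf (η : Mt m) / (2 * S1.t)) - S1.w η) := by
    rw [← gg_c H.c1, ← hηe, H.s1.eq η hηdom, mul_div_cancel_left₀ _ f1]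
  have key := cexp_sub_le (-(Qf (η : Mt m) / (2 * S1.t)) - S1.w η)
    (-(Qf (η : Mt m) / (2 * S0.t)) - S0.w η)
  rw [← g0, ← g1, ← Complex.ofReal_sub, Complex.norm_real, Complex.norm_real, Complex.norm_real,
    Real.norm_eq_abs, Real.norm_eq_abs, Real.norm_eq_abs] at key
  have hww := H.df.ww η hηdom
  have hQ : ‖Qf (η : Mt m)‖ ≤ ‖η‖ ^ 2 := norm_Qf_le (η : Mt m)
  have hdiff : ‖(-(Qf (η : Mt m) / (2 * S1.t)) - S1.w η) -
      (-(Qf (η : Mt m) / (2 * S0.t)) - S0.w η)‖ ≤ T / 2 * ‖η‖ ^ 2 + Dd * ‖η‖ ^ 4 := by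
    have e1 : (-(Qf (η : Mt m) / (2 * S1.t)) - S1.w η) -
        (-(Qf (η : Mt m) / (2 * S0.t)) - S0.w η) =
        -(Qf (η : Mt m) * (((1 / S1.t - 1 / S0.t) / 2 : ℝ) : ℂ)) - (S1.w η - S0.w η) := by
      have ht0 : ((S0.t : ℝ) : ℂ) ≠ 0 := Complex.ofReal_ne_zero.2 H.p0.ne'
      have ht1 : ((S1.t : ℝ) : ℂ) ≠ 0 := Complex.ofReal_ne_zero.2 H.p1.ne'
      push_cast
      field_simp
      ring
    rw [e1]
    refine (norm_sub_le _ _).trans (add_le_add ?_ hww)
    rw [norm_neg, norm_mul, Complex.norm_real, Real.norm_eq_abs, abs_div, abs_two]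
    have htt := H.tt
    calc ‖Qf (η : Mt m)‖ * (|1 / S1.t - 1 / S0.t| / 2) ≤ ‖η‖ ^ 2 * (T / 2) :=
          mul_le_mul hQ (by linarith) (by positivity) (by positivity)
      _ = _ := by ring
  have hT0 := H.T0
  have hD0 := H.D0
  have hc : 0 ≤ T / 2 * ‖η‖ ^ 2 + Dd * ‖η‖ ^ 4 := by positivity
  have key2 : |gg L S1.F y - gg L S0.F y| ≤
      (T / 2 * ‖η‖ ^ 2 + Dd * ‖η‖ ^ 4) * (|gg L S1.F y| + |gg L S0.F y|) :=
    key.trans (mul_le_mul_of_nonneg_right hdiff (by positivity))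
  refine (abs_sq_diff key2 hc).trans (le_of_eq ?_)
  ring

end Pq

end

end Pool.Agent.T2H04.HY
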