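import Mathlib
import Pool.Agent.T2H04.HY.TlP1z

/-!
# Difference of the normalised squares of a pair of states (package P1): moments
-/

open MeasureTheory Matrix Filter
open scoped Matrix.Norms.Frobenius Topology

namespace Pool.Agent.T2H04.HY

set_option linter.unusedSectionVars false

noncomputable section

variable {G : Type} [Group G] [TopologicalSpace G] [IsTopologicalGroup G] [CompactSpace G]
  [MeasurableSpace G] [BorelSpace G] {μ : Measure G} [μ.IsHaarMeasure] [IsProbabilityMeasure μ]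
  {m : Type} [Fintype m] [DecidableEq m] {L : RD G m}

namespace Pq

section

variable {D : LogData m} {εg δ r0 r s b r' : ℝ} (P : Par L D εg δ r0 r s b r')
    {F : Mt m → ℂ} {t A : ℝ} (cl : Cls L F t A r (r0 / 4) s b (1 / 10000))
    (ht : 0 < t) (hA : 0 ≤ A) (hAt : A * t ≤ 1 / 10)

include P cl ht hA hAt in
theorem gg_le (y : G) : gg L F y ^ 2 ≤ 1 := by
  rw [gg_sq, div_le_one (pow_pos cl.pos 2)]
  exact Dri.res_le P cl ht hA hAt y

include P cl ht hA hAt in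
theorem gg_vol (ht3 : t ≤ r0 ^ 2 / 1000) :
    μ.real (bal L (Real.sqrt t)) ≤ 3 * ∫ y, gg L F y ^ 2 ∂μ := by
  have h := Tlc.f1_le (μ := μ) P cl ht hA hAt ht3
  have hp : 0 < (F 1).re ^ 2 := pow_pos cl.pos 2
  rw [gg_int', ← mul_div_assoc, le_div_iff₀ hp]
  linarith

include P cl ht hA hAt in
theorem gg_pos (ht3 : t ≤ r0 ^ 2 / 1000) : 0 < ∫ y, gg L F y ^ 2 ∂μ := by
  have h := gg_vol (μ := μ) P cl ht hA hAt ht3
  have hmu := bal_pos μ L (Real.sqrt t) (Real.sqrt_pos.2 ht)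
  linarith

include P cl ht hA hAt in
theorem gg_intOn {ρ : ℝ} (hρ : ρ ≤ r0 / 20) (t0 : ℝ) (k j : ℕ) :
    IntegrableOn (fun y => (Real.sqrt t0 + ‖Dri.et L D y‖) ^ k * ‖Dri.et L D y‖ ^ j *
      gg L F y ^ 2) (bal L ρ) μ := by
  have hB : MeasurableSet (bal L ρ : Set G) := (isOpen_bal L ρ).measurableSet
  have hlt : ∀ y ∈ (bal L ρ : Set G), dis L y < r0 / 20 := fun y hy => lt_of_lt_of_le hy hρ
  refine Dri.intg_on hB ?_ ((Real.sqrt t0 + 1) ^ k * 1 * 1) ?_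
  · exact (((continuousOn_const.add (Dri.et_contOn P hρ).norm).pow k).mul
      ((Dri.et_contOn P hρ).norm.pow j)).mul ((gg_cont cl).pow 2).continuousOn
  · intro y hy
    have h1 := Dri.et_le_one P (hlt y hy)
    have h2 := gg_le P cl ht hA hAt y
    have h3 : 0 ≤ Real.sqrt t0 := Real.sqrt_nonneg _
    rw [Real.norm_of_nonneg (by positivity)]
    refine mul_le_mul (mul_le_mul ?_ (pow_le_one₀ (norm_nonneg _) h1) (by positivity)
      (by positivity)) h2 (sq_nonneg _) (by positivity)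
    exact pow_le_pow_left₀ (by positivity) (by linarith) k

end

theorem momg {D : LogData m} {εg δ r0 r s b r' : ℝ} (P : Par L D εg δ r0 r s b r') (k j : ℕ) :
    ∃ C ts : ℝ, 0 < C ∧ 0 < ts ∧ ∀ (F : Mt m → ℂ) (t A : ℝ), 0 < t → t ≤ ts → 0 ≤ A →
      A * t ≤ 1 / 10 → Cls L F t A r (r0 / 4) s b (1 / 10000) → ∀ ρ ≤ r0 / 20,
      ∀ t0 : ℝ, 0 < t0 → t ≤ 2 * t0 →
        ∫ y in bal L ρ, (Real.sqrt t0 + ‖Dri.et L D y‖) ^ k * ‖Dri.et L D y‖ ^ j *
          gg L F y ^ 2 ∂μ ≤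
          C * Real.sqrt t0 ^ (k + j) * ∫ y, gg L F y ^ 2 ∂μ := by
  obtain ⟨C1, ts1, hC1, hts1, h1⟩ := momk (μ := μ) P j
  obtain ⟨C2, ts2, hC2, hts2, h2⟩ := momk (μ := μ) P (k + j)
  refine ⟨2 ^ k * (C1 * 2 ^ j + C2 * 2 ^ (k + j)), min ts1 ts2, by positivity,
    lt_min hts1 hts2, ?_⟩
  intro F t A ht hts hA hAt cl ρ hρ t0 ht0 htt
  have a1 := h1 F t A ht (hts.trans (min_le_left _ _)) hA hAt cl ρ hρ
  have a2 := h2 F t A ht (hts.trans (min_le_right _ _)) hA hAt cl ρ hρ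
  have hp : 0 < (F 1).re ^ 2 := pow_pos cl.pos 2
  have hV : 0 ≤ ∫ y, res L F y ^ 2 ∂μ := integral_nonneg fun _ => sq_nonneg _
  have hst : Real.sqrt t ≤ 2 * Real.sqrt t0 := by
    rw [Real.sqrt_le_left (by positivity), mul_pow, Real.sq_sqrt ht0.le]
    linarith
  have hs0 : 0 ≤ Real.sqrt t := Real.sqrt_nonneg _
  have hs1 : 0 ≤ Real.sqrt t0 := Real.sqrt_nonneg _
  have b1 : Real.sqrt t ^ j ≤ 2 ^ j * Real.sqrt t0 ^ j := by
    rw [← mul_pow]
    exact pow_le_pow_left₀ hs0 hst j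
  have b2 : Real.sqrt t ^ (k + j) ≤ 2 ^ (k + j) * Real.sqrt t0 ^ (k + j) := by
    rw [← mul_pow]
    exact pow_le_pow_left₀ hs0 hst (k + j)
  have hB : MeasurableSet (bal L ρ : Set G) := (isOpen_bal L ρ).measurableSet
  have hi := gg_intOn (μ := μ) P cl ht hA hAt hρ t0 k j
  have hi1 : IntegrableOn (fun y => ‖Dri.et L D y‖ ^ j * gg L F y ^ 2) (bal L ρ) μ := by
    have := gg_intOn (μ := μ) P cl ht hA hAt hρ t0 0 j
    simp only [pow_zero, one_mul] at this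
    exact this
  have hi2 : IntegrableOn (fun y => ‖Dri.et L D y‖ ^ (k + j) * gg L F y ^ 2) (bal L ρ) μ := by
    have := gg_intOn (μ := μ) P cl ht hA hAt hρ t0 0 (k + j)
    simp only [pow_zero, one_mul] at this
    exact this
  have hpt : ∀ y ∈ (bal L ρ : Set G),
      (Real.sqrt t0 + ‖Dri.et L D y‖) ^ k * ‖Dri.et L D y‖ ^ j * gg L F y ^ 2 ≤
      2 ^ k * Real.sqrt t0 ^ k * (‖Dri.et L D y‖ ^ j * gg L F y ^ 2) +
        2 ^ k * (‖Dri.et L D y‖ ^ (k + j) * gg L F y ^ 2) := by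
    intro y _
    have hx : 0 ≤ ‖Dri.et L D y‖ := norm_nonneg _
    have c1 : (Real.sqrt t0 + ‖Dri.et L D y‖) ^ k ≤
        2 ^ k * (Real.sqrt t0 ^ k + ‖Dri.et L D y‖ ^ k) := by
      have d1 : Real.sqrt t0 + ‖Dri.et L D y‖ ≤ 2 * max (Real.sqrt t0) ‖Dri.et L D y‖ := by
        have := le_max_left (Real.sqrt t0) ‖Dri.et L D y‖
        have := le_max_right (Real.sqrt t0) ‖Dri.et L D y‖
        linarith
      refine (pow_le_pow_left₀ (by positivity) d1 k).trans ?_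
      rw [mul_pow]
      refine mul_le_mul_of_nonneg_left ?_ (by positivity)
      rcases max_choice (Real.sqrt t0) ‖Dri.et L D y‖ with h | h
      · rw [h]
        have : 0 ≤ ‖Dri.et L D y‖ ^ k := by positivity
        linarith
      · rw [h]
        have : 0 ≤ Real.sqrt t0 ^ k := by positivity
        linarith
    calc (Real.sqrt t0 + ‖Dri.et L D y‖) ^ k * ‖Dri.et L D y‖ ^ j * gg L F y ^ 2
        = (Real.sqrt t0 + ‖Dri.et L D y‖) ^ k * (‖Dri.et L D y‖ ^ j * gg L F y ^ 2) := by ring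
      _ ≤ (2 ^ k * (Real.sqrt t0 ^ k + ‖Dri.et L D y‖ ^ k)) *
          (‖Dri.et L D y‖ ^ j * gg L F y ^ 2) := mul_le_mul_of_nonneg_right c1 (by positivity)
      _ = _ := by rw [pow_add]; ring
  have c1 : ∫ y in bal L ρ, ‖Dri.et L D y‖ ^ j * gg L F y ^ 2 ∂μ =
      (∫ y in bal L ρ, ‖Dri.et L D y‖ ^ j * res L F y ^ 2 ∂μ) / (F 1).re ^ 2 := by
    rw [← integral_div]
    refine integral_congr_ae (Filter.Eventually.of_forall fun y => ?_)
    simp only [gg_sq, mul_div_assoc]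
  have c2 : ∫ y in bal L ρ, ‖Dri.et L D y‖ ^ (k + j) * gg L F y ^ 2 ∂μ =
      (∫ y in bal L ρ, ‖Dri.et L D y‖ ^ (k + j) * res L F y ^ 2 ∂μ) / (F 1).re ^ 2 := by
    rw [← integral_div]
    refine integral_congr_ae (Filter.Eventually.of_forall fun y => ?_)
    simp only [gg_sq, mul_div_assoc]
  have c3 : ∫ y in bal L ρ, ‖Dri.et L D y‖ ^ j * gg L F y ^ 2 ∂μ ≤
      C1 * (2 ^ j * Real.sqrt t0 ^ j) * ∫ y, gg L F y ^ 2 ∂μ := by
    rw [c1, gg_int', ← mul_div_assoc]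
    refine div_le_div_of_nonneg_right (a1.trans ?_) hp.le
    exact mul_le_mul_of_nonneg_right (mul_le_mul_of_nonneg_left b1 hC1.le) hV
  have c4 : ∫ y in bal L ρ, ‖Dri.et L D y‖ ^ (k + j) * gg L F y ^ 2 ∂μ ≤
      C2 * (2 ^ (k + j) * Real.sqrt t0 ^ (k + j)) * ∫ y, gg L F y ^ 2 ∂μ := by
    rw [c2, gg_int', ← mul_div_assoc]
    refine div_le_div_of_nonneg_right (a2.trans ?_) hp.le
    exact mul_le_mul_of_nonneg_right (mul_le_mul_of_nonneg_left b2 hC2.le) hV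
  calc _ ≤ 2 ^ k * Real.sqrt t0 ^ k * (∫ y in bal L ρ, ‖Dri.et L D y‖ ^ j * gg L F y ^ 2 ∂μ) +
        2 ^ k * (∫ y in bal L ρ, ‖Dri.et L D y‖ ^ (k + j) * gg L F y ^ 2 ∂μ) :=
        lin2 hB _ _ hi1 hi2 hi.aestronglyMeasurable (fun y _ => by positivity) hpt
    _ ≤ 2 ^ k * Real.sqrt t0 ^ k *
          (C1 * (2 ^ j * Real.sqrt t0 ^ j) * ∫ y, gg L F y ^ 2 ∂μ) +
        2 ^ k * (C2 * (2 ^ (k + j) * Real.sqrt t0 ^ (k + j)) * ∫ y, gg L F y ^ 2 ∂μ) :=
        add_le_add (mul_le_mul_of_nonneg_left c3 (by positivity))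
          (mul_le_mul_of_nonneg_left c4 (by positivity))
    _ = _ := by rw [pow_add (Real.sqrt t0)]; ring

end Pq

end

end Pool.Agent.T2H04.HY
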