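import Mathlib
import Pool.Agent.T2H04.HY.TlP1c

/-!
# Difference of the normalised squares of a pair of states (package P1): integrability
-/

open MeasureTheory Matrix Filter
open scoped Matrix.Norms.Frobenius Topology

namespace Pool.Agent.T2H04.HY

set_option linter.unusedSectionVars false

noncomputable section

variable {G : Type} [Group G] [TopologicalSpace G] [IsTopologicalGroup G] [CompactSpace G]
  [MeasurableSpace G] [BorelSpace G] {μ : Measure G} [μ.IsHaarMeasure] [IsProbabilityMeasure μ]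
  {m : Type} [Fintype m] [DecidableEq m] {L : RD G m}

namespace Pq

theorem diff_intOn {D : LogData m} {εg δ r0 r s b r' : ℝ} (P : Par L D εg δ r0 r s b r')
    {S0 S1 : St L} {A T Dd E : ℝ} (H : PairH L r0 r s b S0 S1 A T Dd E) {ρ : ℝ}
    (hρ : ρ ≤ r0 / 20) (k : ℕ) :
    IntegrableOn (fun y => (Real.sqrt S0.t + ‖Dri.et L D y‖) ^ k *
          |gg L S1.F y ^ 2 - gg L S0.F y ^ 2|) (bal L ρ) μ := by
  have hlt : ∀ y ∈ (bal L ρ : Set G), dis L y < r0 / 20 := fun y hy => lt_of_lt_of_le hy hρ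
  have hB : MeasurableSet (bal L ρ : Set G) := (isOpen_bal L ρ).measurableSet
  refine Dri.intg_on hB ?_ ((Real.sqrt S0.t + 1) ^ k * 1) ?_
  · exact ((continuousOn_const.add (Dri.et_contOn P hρ).norm).pow k).mul
      (((gg_cont H.c1).pow 2).sub ((gg_cont H.c0).pow 2)).abs.continuousOn
  · intro y hy
    have b1 := Dri.et_le_one P (hlt y hy)
    have b2 := gg_le P H.c0 H.p0 H.A0 H.At0 y
    have b3 := gg_le P H.c1 H.p1 H.A0 H.At1 y
    have b4 : 0 ≤ Real.sqrt S0.t := Real.sqrt_nonneg _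
    rw [Real.norm_of_nonneg (by positivity)]
    refine mul_le_mul (pow_le_pow_left₀ (by positivity) (by linarith) k) ?_ (abs_nonneg _)
      (by positivity)
    rw [abs_le]
    constructor <;> nlinarith [sq_nonneg (gg L S0.F y), sq_nonneg (gg L S1.F y)]

theorem XX_le {r0 T Dd E : ℝ} (hr0 : 0 < r0) (hr1 : r0 ≤ 1 / 2000) (hT : 0 ≤ T) (hD : 0 ≤ Dd) :
    XX r0 T Dd E ≤ T + Dd + E := by
  unfold XX
  have h1 : r0 ^ 2 ≤ 1 := pow_le_one₀ hr0.le (by linarith)
  have h2 : 3 * r0 ^ 4 ≤ 1 := by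
    have : r0 ^ 4 ≤ (1 / 2000) ^ 4 := pow_le_pow_left₀ hr0.le hr1 4
    norm_num at this
    linarith
  have := mul_le_mul_of_nonneg_right h1 hT
  have := mul_le_mul_of_nonneg_right h2 hD
  linarith

end Pq

end

end Pool.Agent.T2H04.HY
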