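import Mathlib
import Pool.Agent.T2H04.HY.TlP1a
import Pool.Agent.T2H04.HY.TlP1d

/-!
# Difference of the normalised squares of a pair of states (package P1): near part
-/

open MeasureTheory Matrix Filter
open scoped Matrix.Norms.Frobenius Topology

namespace Pool.Agent.T2H04.HY

set_option linter.unusedSectionVars false

noncomputable section

variable {G : Type} [Group G] [TopologicalSpace G] [IsTopologicalGroup G] [CompactSpace G]
  [MeasurableSpace G] [BorelSpace G] {μ : Measure G} [μ.IsHaarMeasure] [IsProbabilityMeasure μ]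
  {m : Type} [Fintype m] [DecidableEq m] {L : RD G m}

namespace Pq

/-- the near part of the difference with a weight -/
theorem nearI {D : LogData m} {εg δ r0 r s b r' : ℝ} (P : Par L D εg δ r0 r s b r') (k : ℕ) :
    ∃ C ts : ℝ, 0 < C ∧ 0 < ts ∧ ∀ (S0 S1 : St L) (A T Dd E : ℝ),
      PairH L r0 r s b S0 S1 A T Dd E → S0.t ≤ ts → S1.t ≤ 2 * S0.t →
      ∀ ρ ≤ r0 / 20,
        ∫ y in bal L ρ, (Real.sqrt S0.t + ‖Dri.et L D y‖) ^ k *
          |gg L S1.F y ^ 2 - gg L S0.F y ^ 2| ∂μ ≤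
          C * Real.sqrt S0.t ^ k * (S0.t * T + S0.t ^ 2 * Dd) *
            ((∫ y, gg L S0.F y ^ 2 ∂μ) + ∫ y, gg L S1.F y ^ 2 ∂μ) := by
  obtain ⟨C1, ts1, hC1, hts1, h1⟩ := momg (μ := μ) P k 2
  obtain ⟨C2, ts2, hC2, hts2, h2⟩ := momg (μ := μ) P k 4
  refine ⟨C1 + 2 * C2, min ts1 ts2 / 2, by positivity, by positivity, ?_⟩
  intro S0 S1 A T Dd E H hts ht12 ρ hρ
  have hT0 := H.T0
  have hD0 := H.D0
  have p0 := H.p0
  have p1 := H.p1
  have hm1 := min_le_left ts1 ts2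
  have hm2 := min_le_right ts1 ts2
  have hm0 : 0 < min ts1 ts2 := lt_min hts1 hts2
  have hlt : ∀ y ∈ (bal L ρ : Set G), dis L y < r0 / 20 := fun y hy => lt_of_lt_of_le hy hρ
  have hB : MeasurableSet (bal L ρ : Set G) := (isOpen_bal L ρ).measurableSet
  have a01 := h1 S0.F S0.t A p0 (by linarith) H.A0 H.At0 H.c0 ρ hρ S0.t p0 (by linarith)
  have a02 := h2 S0.F S0.t A p0 (by linarith) H.A0 H.At0 H.c0 ρ hρ S0.t p0 (by linarith)
  have a11 := h1 S1.F S1.t A p1 (by linarith) H.A0 H.At1 H.c1 ρ hρ S0.t p0 ht12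
  have a12 := h2 S1.F S1.t A p1 (by linarith) H.A0 H.At1 H.c1 ρ hρ S0.t p0 ht12
  have i01 := gg_intOn (μ := μ) P H.c0 p0 H.A0 H.At0 hρ S0.t k 2
  have i02 := gg_intOn (μ := μ) P H.c0 p0 H.A0 H.At0 hρ S0.t k 4
  have i11 := gg_intOn (μ := μ) P H.c1 p1 H.A0 H.At1 hρ S0.t k 2
  have i12 := gg_intOn (μ := μ) P H.c1 p1 H.A0 H.At1 hρ S0.t k 4
  set I0 := ∫ y, gg L S0.F y ^ 2 ∂μ with hI0
  set I1 := ∫ y, gg L S1.F y ^ 2 ∂μ with hI1
  have hI0' : 0 ≤ I0 := integral_nonneg fun _ => sq_nonneg _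
  have hI1' : 0 ≤ I1 := integral_nonneg fun _ => sq_nonneg _
  have hint := diff_intOn (μ := μ) P H hρ k
  have hpt : ∀ y ∈ (bal L ρ : Set G), (Real.sqrt S0.t + ‖Dri.et L D y‖) ^ k *
          |gg L S1.F y ^ 2 - gg L S0.F y ^ 2| ≤
      T * ((Real.sqrt S0.t + ‖Dri.et L D y‖) ^ k * ‖Dri.et L D y‖ ^ 2 * gg L S0.F y ^ 2) +
      T * ((Real.sqrt S0.t + ‖Dri.et L D y‖) ^ k * ‖Dri.et L D y‖ ^ 2 * gg L S1.F y ^ 2) +
      (2 * Dd * ((Real.sqrt S0.t + ‖Dri.et L D y‖) ^ k * ‖Dri.et L D y‖ ^ 4 *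
        gg L S0.F y ^ 2) +
      2 * Dd * ((Real.sqrt S0.t + ‖Dri.et L D y‖) ^ k * ‖Dri.et L D y‖ ^ 4 *
        gg L S1.F y ^ 2)) := by
    intro y hy
    have := near_diff P H (hlt y hy)
    refine (mul_le_mul_of_nonneg_left this (by positivity)).trans (le_of_eq ?_)
    ring
  calc _ ≤ T * (∫ y in bal L ρ, ((Real.sqrt S0.t + ‖Dri.et L D y‖) ^ k *
          ‖Dri.et L D y‖ ^ 2 * gg L S0.F y ^ 2 + (Real.sqrt S0.t + ‖Dri.et L D y‖) ^ k *
          ‖Dri.et L D y‖ ^ 2 * gg L S1.F y ^ 2) ∂μ) +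
        2 * Dd * (∫ y in bal L ρ, ((Real.sqrt S0.t + ‖Dri.et L D y‖) ^ k *
          ‖Dri.et L D y‖ ^ 4 * gg L S0.F y ^ 2 + (Real.sqrt S0.t + ‖Dri.et L D y‖) ^ k *
          ‖Dri.et L D y‖ ^ 4 * gg L S1.F y ^ 2) ∂μ) := by
        refine lin2 hB _ _ (intOn_add i01 i11) (intOn_add i02 i12) hint.aestronglyMeasurable
          (fun y _ => by positivity) (fun y hy => (hpt y hy).trans (le_of_eq ?_))
        ring
    _ = T * (∫ y in bal L ρ, (Real.sqrt S0.t + ‖Dri.et L D y‖) ^ k * ‖Dri.et L D y‖ ^ 2 *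
          gg L S0.F y ^ 2 ∂μ) +
        T * (∫ y in bal L ρ, (Real.sqrt S0.t + ‖Dri.et L D y‖) ^ k * ‖Dri.et L D y‖ ^ 2 *
          gg L S1.F y ^ 2 ∂μ) +
        (2 * Dd * (∫ y in bal L ρ, (Real.sqrt S0.t + ‖Dri.et L D y‖) ^ k *
          ‖Dri.et L D y‖ ^ 4 * gg L S0.F y ^ 2 ∂μ) +
        2 * Dd * (∫ y in bal L ρ, (Real.sqrt S0.t + ‖Dri.et L D y‖) ^ k *
          ‖Dri.et L D y‖ ^ 4 * gg L S1.F y ^ 2 ∂μ)) := by
        rw [integral_add i01 i11, integral_add i02 i12]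
        ring
    _ ≤ T * (C1 * Real.sqrt S0.t ^ (k + 2) * I0) + T * (C1 * Real.sqrt S0.t ^ (k + 2) * I1) +
        (2 * Dd * (C2 * Real.sqrt S0.t ^ (k + 4) * I0) +
          2 * Dd * (C2 * Real.sqrt S0.t ^ (k + 4) * I1)) := by
        refine add_le_add (add_le_add ?_ ?_) (add_le_add ?_ ?_)
        · exact mul_le_mul_of_nonneg_left a01 hT0
        · exact mul_le_mul_of_nonneg_left a11 hT0
        · exact mul_le_mul_of_nonneg_left a02 (by positivity)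
        · exact mul_le_mul_of_nonneg_left a12 (by positivity)
    _ ≤ _ := by
        have e2 : Real.sqrt S0.t ^ (k + 2) = Real.sqrt S0.t ^ k * S0.t := by
          rw [pow_add, Real.sq_sqrt p0.le]
        have e4 : Real.sqrt S0.t ^ (k + 4) = Real.sqrt S0.t ^ k * S0.t ^ 2 := by
          have : Real.sqrt S0.t ^ 4 = (Real.sqrt S0.t ^ 2) ^ 2 := by ring
          rw [pow_add, this, Real.sq_sqrt p0.le]
        rw [e2, e4]
        have hsk : 0 ≤ Real.sqrt S0.t ^ k := by positivity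
        have f1 : 0 ≤ C2 * Real.sqrt S0.t ^ k * (S0.t * T) * (I0 + I1) := by positivity
        have f2 : 0 ≤ C1 * Real.sqrt S0.t ^ k * (S0.t ^ 2 * Dd) * (I0 + I1) := by positivity
        nlinarith

end Pq

end

end Pool.Agent.T2H04.HY
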