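import Mathlib
import Pool.Agent.T2H04.HY.TlP1z

/-!
# Difference of the normalised squares of a pair of states (package P1): far part, pointwise
-/

open MeasureTheory Matrix Filter
open scoped Matrix.Norms.Frobenius Topology

namespace Pool.Agent.T2H04.HY

set_option linter.unusedSectionVars false

noncomputable section

variable {G : Type} [Group G] [TopologicalSpace G] [IsTopologicalGroup G] [CompactSpace G]
  [MeasurableSpace G] [BorelSpace G] {μ : Measure G} [μ.IsHaarMeasure] [IsProbabilityMeasure μ]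
  {m : Type} [Fintype m] [DecidableEq m] {L : RD G m}

namespace Pq

theorem far_diff {D : LogData m} {εg δ r0 r s b r' : ℝ} (P : Par L D εg δ r0 r s b r')
    {S0 S1 : St L} {A T Dd E : ℝ} (H : PairH L r0 r s b S0 S1 A T Dd E) {ρ : ℝ} (hρ0 : 0 ≤ ρ)
    (hρ : ρ ≤ r0 / 20) {y : G} (hy : ρ ≤ dis L y) :
    |gg L S1.F y ^ 2 - gg L S0.F y ^ 2| ≤
      2 * XX r0 T Dd E * (Real.exp (-(ρ ^ 2 / 2 / S0.t)) + Real.exp (-(ρ ^ 2 / 2 / S1.t))) := by
  have hr0 := P.r0_pos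
  have hrl := P.r_lo
  have hrl' := P.r'_lo
  have h3 := P.h3
  have hz : ((0 : gC L) : Mt m) = 0 := rfl
  have hre : reP ((0 : gC L) : Mt m) = 0 := by rw [hz]; simp [reP]
  have him : imP ((0 : gC L) : Mt m) = 0 := by rw [hz]; simp [imP]
  have hre' : ‖reP ((0 : gC L) : Mt m)‖ < r := by rw [hre, norm_zero]; linarith
  have him' : ‖imP ((0 : gC L) : Mt m)‖ < r0 / 8 := by rw [him, norm_zero]; linarith
  have u := ud P H 0 hre' him' y
  have u0 := ub_one P H.c0 H.p0 H.A0 H.At0 0 hre' him' y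
  have u1 := ub_one P H.c1 H.p1 H.A0 H.At1 0 hre' him' y
  rw [hre, him, hz, NormedSpace.exp_zero, one_mul, norm_zero] at u u0 u1
  rw [gg_c H.c0, gg_c H.c1, ← Complex.ofReal_sub, Complex.norm_real, Real.norm_eq_abs] at u
  rw [gg_c H.c0, Complex.norm_real, Real.norm_eq_abs] at u0
  rw [gg_c H.c1, Complex.norm_real, Real.norm_eq_abs] at u1
  have hdis : ‖L.rho y - 1‖ = dis L y := rfl
  rw [hdis] at u u0 u1
  have hmin : ρ ^ 2 / 2 ≤ min b ((1 - 1 / 10000) * dis L y ^ 2) := by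
    have h4 := pow_le_pow_left₀ hρ0 hy 2
    have h5 := pow_le_pow_left₀ hρ0 hρ 2
    have h6 := pow_le_pow_left₀ hr0.le hrl' 2
    refine le_min ?_ ?_
    · nlinarith [sq_nonneg r']
    · nlinarith [sq_nonneg ρ]
  have hB : ∀ t : ℝ, 0 < t → Bf b t (dis L y) 0 ^ 2 ≤ Real.exp (-(ρ ^ 2 / 2 / t)) := by
    intro t ht
    unfold Bf
    rw [← Real.exp_nat_mul]
    apply Real.exp_le_exp.2
    have e1 : ((2 : ℕ) : ℝ) * -((min b ((1 - 1 / 10000) * dis L y ^ 2) -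
        (1 + 1 / 10000) * 0 ^ 2) / (2 * t)) =
        -(min b ((1 - 1 / 10000) * dis L y ^ 2) / t) := by
      push_cast
      field_simp
      ring
    rw [e1, neg_le_neg_iff]
    exact div_le_div_of_nonneg_right hmin ht.le
  have hB0 := hB S0.t H.p0
  have hB1 := hB S1.t H.p1
  have hX0 : 0 ≤ XX r0 T Dd E := by
    have hT0 := H.T0
    have hD0 := H.D0
    have hE0 := H.E0
    unfold XX
    positivity
  obtain ⟨B0, hB0d⟩ : ∃ B0, B0 = Bf b S0.t (dis L y) 0 := ⟨_, rfl⟩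
  obtain ⟨B1, hB1d⟩ : ∃ B1, B1 = Bf b S1.t (dis L y) 0 := ⟨_, rfl⟩
  rw [← hB0d] at u u0 hB0
  rw [← hB1d] at u u1 hB1
  have e1 : gg L S1.F y ^ 2 - gg L S0.F y ^ 2 =
      (gg L S1.F y - gg L S0.F y) * (gg L S1.F y + gg L S0.F y) := by ring
  rw [e1, abs_mul]
  have hs : |gg L S1.F y + gg L S0.F y| ≤ B0 + B1 := (abs_add_le _ _).trans (by linarith)
  have hb0 : 0 ≤ B0 := (abs_nonneg _).trans u0
  have hb1 : 0 ≤ B1 := (abs_nonneg _).trans u1
  calc |gg L S1.F y - gg L S0.F y| * |gg L S1.F y + gg L S0.F y|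
      ≤ (XX r0 T Dd E * (B0 + B1)) * (B0 + B1) :=
        mul_le_mul u hs (abs_nonneg _) (by positivity)
    _ = XX r0 T Dd E * (B0 + B1) ^ 2 := by ring
    _ ≤ XX r0 T Dd E * (2 * (B0 ^ 2 + B1 ^ 2)) :=
        mul_le_mul_of_nonneg_left (by nlinarith [sq_nonneg (B0 - B1)]) hX0
    _ ≤ XX r0 T Dd E * (2 * (Real.exp (-(ρ ^ 2 / 2 / S0.t)) +
          Real.exp (-(ρ ^ 2 / 2 / S1.t)))) :=
        mul_le_mul_of_nonneg_left (by linarith) hX0
    _ = _ := by ring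

end Pq

end

end Pool.Agent.T2H04.HY
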