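import Mathlib
import Pool.Agent.T2H04.HY.TlP1b
import Pool.Agent.T2H04.HY.TlP1d

/-!
# Difference of the normalised squares of a pair of states (package P1): far part
-/

open MeasureTheory Matrix Filter
open scoped Matrix.Norms.Frobenius Topology

namespace Pool.Agent.T2H04.HY

set_option linter.unusedSectionVars false

noncomputable section

variable {G : Type} [Group G] [TopologicalSpace G] [IsTopologicalGroup G] [CompactSpace G]
  [MeasurableSpace G] [BorelSpace G] {μ : Measure G} [μ.IsHaarMeasure] [IsProbabilityMeasure μ]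
  {m : Type} [Fintype m] [DecidableEq m] {L : RD G m}

namespace Pq

/-- the far part of the difference -/
theorem farI {D : LogData m} {εg δ r0 r s b r' : ℝ} (P : Par L D εg δ r0 r s b r') {ρ : ℝ}
    (hρ : 0 < ρ) (hρ1 : ρ ≤ r0 / 20) :
    ∃ C ts : ℝ, 0 < C ∧ 0 < ts ∧ ∀ (S0 S1 : St L) (A T Dd E : ℝ),
      PairH L r0 r s b S0 S1 A T Dd E → S0.t ≤ ts → S1.t ≤ 2 * S0.t →
        ∫ y in (bal L ρ : Set G)ᶜ, |gg L S1.F y ^ 2 - gg L S0.F y ^ 2| ∂μ ≤
          C * S0.t ^ 3 * (T + Dd + E) *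
            ((∫ y, gg L S0.F y ^ 2 ∂μ) + ∫ y, gg L S1.F y ^ 2 ∂μ) := by
  have hr0 := P.r0_pos
  have hr1 := P.r0_le
  obtain ⟨Ct, hCt, htail⟩ := Dri.tail_le μ L (ρ ^ 2 / 2) (by positivity)
  refine ⟨48 * Ct, min 1 (r0 ^ 2 / 1000) / 2, by positivity, by positivity, ?_⟩
  intro S0 S1 A T Dd E H hts ht12
  have hT0 := H.T0
  have hD0 := H.D0
  have hE0 := H.E0
  have p0 := H.p0
  have p1 := H.p1
  have hm1 := min_le_left (1 : ℝ) (r0 ^ 2 / 1000)
  have hm2 := min_le_right (1 : ℝ) (r0 ^ 2 / 1000)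
  have v0 := gg_vol (μ := μ) P H.c0 p0 H.A0 H.At0 (by linarith)
  have v1 := gg_vol (μ := μ) P H.c1 p1 H.A0 H.At1 (by linarith)
  have t0 := htail S0.t p0 (by linarith)
  have t1 := htail S1.t p1 (by linarith)
  set I0 := ∫ y, gg L S0.F y ^ 2 ∂μ with hI0
  set I1 := ∫ y, gg L S1.F y ^ 2 ∂μ with hI1
  have hI0' : 0 ≤ I0 := integral_nonneg fun _ => sq_nonneg _
  have hI1' : 0 ≤ I1 := integral_nonneg fun _ => sq_nonneg _
  have hB : MeasurableSet ((bal L ρ : Set G)ᶜ) := (isOpen_bal L ρ).measurableSet.compl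
  have hc : Continuous fun y => |gg L S1.F y ^ 2 - gg L S0.F y ^ 2| :=
    (((gg_cont H.c1).pow 2).sub ((gg_cont H.c0).pow 2)).abs
  have hXX := XX_le (E := E) hr0 hr1 hT0 hD0
  have hX0 : 0 ≤ XX r0 T Dd E := by unfold XX; positivity
  have e0 : Real.exp (-(ρ ^ 2 / 2 / S0.t)) ≤ Ct * S0.t ^ 3 * (3 * I0) :=
    t0.trans (mul_le_mul_of_nonneg_left v0 (by positivity))
  have e1 : Real.exp (-(ρ ^ 2 / 2 / S1.t)) ≤ 8 * Ct * S0.t ^ 3 * (3 * I1) := by
    refine t1.trans ((mul_le_mul_of_nonneg_left v1 (by positivity)).trans ?_)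
    have : S1.t ^ 3 ≤ (2 * S0.t) ^ 3 := pow_le_pow_left₀ p1.le ht12 3
    calc Ct * S1.t ^ 3 * (3 * I1) ≤ Ct * (2 * S0.t) ^ 3 * (3 * I1) :=
          mul_le_mul_of_nonneg_right (mul_le_mul_of_nonneg_left this hCt.le) (by positivity)
      _ = _ := by ring
  calc _ ≤ ∫ y in (bal L ρ : Set G)ᶜ, (2 * XX r0 T Dd E *
        (Real.exp (-(ρ ^ 2 / 2 / S0.t)) + Real.exp (-(ρ ^ 2 / 2 / S1.t)))) ∂μ := by
        refine setIntegral_mono_on (intg μ hc).integrableOn (integrable_const _).integrableOn hB ?_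
        intro y hy
        exact far_diff P H hρ.le hρ1 (not_lt.1 hy)
    _ ≤ 2 * XX r0 T Dd E *
        (Real.exp (-(ρ ^ 2 / 2 / S0.t)) + Real.exp (-(ρ ^ 2 / 2 / S1.t))) := by
        rw [setIntegral_const, smul_eq_mul]
        exact mul_le_of_le_one_left (by positivity) (measureReal_le_one)
    _ ≤ 2 * (T + Dd + E) * (Ct * S0.t ^ 3 * (3 * I0) + 8 * Ct * S0.t ^ 3 * (3 * I1)) := by
        refine mul_le_mul (by linarith) (add_le_add e0 e1) (by positivity) (by positivity)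
    _ ≤ _ := by
        have f1 : 0 ≤ Ct * S0.t ^ 3 * (T + Dd + E) * I0 := by positivity
        have f2 : 0 ≤ Ct * S0.t ^ 3 * (T + Dd + E) * I1 := by positivity
        nlinarith

end Pq

end

end Pool.Agent.T2H04.HY
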