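import Mathlib
import Pool.Agent.T2H04.HY.Pd1
import Pool.Agent.T2H04.HY.TlC1a
import Pool.Agent.T2H04.HY.TlP0

/-!
# Difference of the normalised squares of a pair of states (package P1): times
-/

open MeasureTheory Matrix Filter
open scoped Matrix.Norms.Frobenius Topology

namespace Pool.Agent.T2H04.HY

set_option linter.unusedSectionVars false

noncomputable section

variable {G : Type} [Group G] [TopologicalSpace G] [IsTopologicalGroup G] [CompactSpace G]
  [MeasurableSpace G] [BorelSpace G] {μ : Measure G} [μ.IsHaarMeasure] [IsProbabilityMeasure μ]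
  {m : Type} [Fintype m] [DecidableEq m] {L : RD G m}

theorem pair_t {r0 r s b : ℝ} (hr0 : 0 < r0) (K : ℝ) (hK : 0 < K) :
    ∃ ts : ℝ, 0 < ts ∧ ∀ (S0 S1 : St L) (A T Dd E : ℝ), PairH L r0 r s b S0 S1 A T Dd E →
      S0.t ≤ ts → XX r0 T Dd E ≤ K →
        S1.t ≤ 2 * S0.t ∧ S0.t ≤ 2 * S1.t ∧ |S1.t - S0.t| ≤ 2 * S0.t ^ 2 * T := by
  refine ⟨r0 ^ 2 / (2 * K), by positivity, ?_⟩
  intro S0 S1 A T Dd E H hts hX
  have h0 := H.p0
  have h1 := H.p1
  have hT0 := H.T0
  have hD0 := H.D0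
  have hE0 := H.E0
  have htt := H.tt
  have hTt : T * S0.t ≤ 1 / 2 := by
    have e1 : r0 ^ 2 * T ≤ K := by
      unfold XX at hX
      have : 0 ≤ 3 * r0 ^ 4 * Dd := by positivity
      linarith
    have e2 : S0.t * (2 * K) ≤ r0 ^ 2 := by rwa [le_div_iff₀ (by positivity)] at hts
    have e3 : T * (S0.t * (2 * K)) ≤ T * r0 ^ 2 := mul_le_mul_of_nonneg_left e2 hT0
    by_contra h
    push Not at h
    nlinarith
  have e5 : 1 / S1.t - 1 / S0.t = (S0.t - S1.t) / (S0.t * S1.t) := by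
    field_simp
  rw [e5, abs_div, abs_of_pos (mul_pos h0 h1), div_le_iff₀ (mul_pos h0 h1)] at htt
  have e7 : T * (S0.t * S1.t) ≤ 1 / 2 * S1.t := by
    have : T * (S0.t * S1.t) = (T * S0.t) * S1.t := by ring
    rw [this]
    exact mul_le_mul_of_nonneg_right hTt h1.le
  have e6 := abs_le.1 (htt.trans e7)
  have a1 : S1.t ≤ 2 * S0.t := by linarith [e6.1]
  refine ⟨a1, by linarith [e6.2], ?_⟩
  rw [abs_sub_comm]
  refine htt.trans ?_
  have : T * (S0.t * S1.t) ≤ T * (S0.t * (2 * S0.t)) :=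
    mul_le_mul_of_nonneg_left (mul_le_mul_of_nonneg_left a1 h0.le) hT0
  refine this.trans (le_of_eq ?_)
  ring

end

end Pool.Agent.T2H04.HY
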