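import Mathlib
import Pool.Agent.T2H04.HY.TlP1e
import Pool.Agent.T2H04.HY.TlP1f
import Pool.Agent.T2H04.HY.TlP1h

/-!
# Difference of the normalised squares of a pair of states (package P1): normalisations
-/

open MeasureTheory Matrix Filter
open scoped Matrix.Norms.Frobenius Topology

namespace Pool.Agent.T2H04.HY

set_option linter.unusedSectionVars false

noncomputable section

variable {G : Type} [Group G] [TopologicalSpace G] [IsTopologicalGroup G] [CompactSpace G]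
  [MeasurableSpace G] [BorelSpace G] {μ : Measure G} [μ.IsHaarMeasure] [IsProbabilityMeasure μ]
  {m : Type} [Fintype m] [DecidableEq m] {L : RD G m}

namespace Pq

/-- the difference of the normalisations -/
theorem dif {D : LogData m} {εg δ r0 r s b r' : ℝ} (P : Par L D εg δ r0 r s b r') (K : ℝ)
    (hK : 0 < K) :
    ∃ C ts : ℝ, 0 < C ∧ 0 < ts ∧ ∀ (S0 S1 : St L) (A T Dd E : ℝ),
      PairH L r0 r s b S0 S1 A T Dd E → S0.t ≤ ts → XX r0 T Dd E ≤ K →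
        S1.t ≤ 2 * S0.t ∧ 0 < (∫ y, gg L S0.F y ^ 2 ∂μ) ∧ 0 < (∫ y, gg L S1.F y ^ 2 ∂μ) ∧
        (∫ y, gg L S0.F y ^ 2 ∂μ) ≤ 2 * (∫ y, gg L S1.F y ^ 2 ∂μ) ∧
        |(∫ y, gg L S1.F y ^ 2 ∂μ) - ∫ y, gg L S0.F y ^ 2 ∂μ| ≤
          C * (S0.t * T + S0.t ^ 2 * (Dd + E)) * ∫ y, gg L S1.F y ^ 2 ∂μ := by
  have hr0 := P.r0_pos
  have hr1 := P.r0_le
  obtain ⟨tp, htp, hpair⟩ := pair_t (L := L) (r := r) (s := s) (b := b) hr0 K hK
  obtain ⟨C1, ts1, hC1, hts1, h1⟩ := nearI (μ := μ) P 0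
  obtain ⟨C2, ts2, hC2, hts2, h2⟩ := farI (μ := μ) P (ρ := r0 / 20) (by positivity) le_rfl
  -- `T, Dd, E ≤ K1`
  obtain ⟨K1, hK1, hK1d⟩ : ∃ K1 : ℝ, 0 < K1 ∧ ∀ T Dd E : ℝ, 0 ≤ T → 0 ≤ Dd → 0 ≤ E →
      XX r0 T Dd E ≤ K → T ≤ K1 ∧ Dd ≤ K1 ∧ E ≤ K1 := by
    refine ⟨K / r0 ^ 2 + K / (3 * r0 ^ 4) + K, by positivity, ?_⟩
    intro T Dd E hT hD hE hX
    unfold XX at hX
    have a1 : 0 ≤ r0 ^ 2 * T := by positivity
    have a2 : 0 ≤ 3 * r0 ^ 4 * Dd := by positivity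
    have b1 : T ≤ K / r0 ^ 2 := by rw [le_div_iff₀ (by positivity)]; linarith
    have b2 : Dd ≤ K / (3 * r0 ^ 4) := by rw [le_div_iff₀ (by positivity)]; linarith
    have c1 : 0 ≤ K / r0 ^ 2 := by positivity
    have c2 : 0 ≤ K / (3 * r0 ^ 4) := by positivity
    exact ⟨by linarith, by linarith, by linarith⟩
  set C := C1 + C2 with hC
  have hC0 : 0 < C := by positivity
  refine ⟨3 * C, min (min tp (min ts1 ts2)) (min (min 1 (r0 ^ 2 / 1000) / 2)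
    (1 / (9 * (C * K1 + 1)))), by positivity, by positivity, ?_⟩
  intro S0 S1 A T Dd E H hts hX
  have hT0 := H.T0
  have hD0 := H.D0
  have hE0 := H.E0
  have p0 := H.p0
  have p1 := H.p1
  have k1 : S0.t ≤ tp := hts.trans ((min_le_left _ _).trans (min_le_left _ _))
  have k2 : S0.t ≤ ts1 :=
    hts.trans ((min_le_left _ _).trans ((min_le_right _ _).trans (min_le_left _ _)))
  have k3 : S0.t ≤ ts2 :=
    hts.trans ((min_le_left _ _).trans ((min_le_right _ _).trans (min_le_right _ _)))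
  have k4 : S0.t ≤ min 1 (r0 ^ 2 / 1000) / 2 :=
    hts.trans ((min_le_right _ _).trans (min_le_left _ _))
  have k5 : S0.t ≤ 1 / (9 * (C * K1 + 1)) :=
    hts.trans ((min_le_right _ _).trans (min_le_right _ _))
  have hm1 := min_le_left (1 : ℝ) (r0 ^ 2 / 1000)
  have hm2 := min_le_right (1 : ℝ) (r0 ^ 2 / 1000)
  obtain ⟨q1, q2, _⟩ := hpair S0 S1 A T Dd E H k1 hX
  have a1 := h1 S0 S1 A T Dd E H k2 q1 (r0 / 20) le_rfl
  have a2 := h2 S0 S1 A T Dd E H k3 q1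
  have P0 := gg_pos (μ := μ) P H.c0 p0 H.A0 H.At0 (by linarith)
  have P1 := gg_pos (μ := μ) P H.c1 p1 H.A0 H.At1 (by linarith)
  obtain ⟨b1, b2, b3⟩ := hK1d T Dd E hT0 hD0 hE0 hX
  have hB : MeasurableSet (bal L (r0 / 20) : Set G) := (isOpen_bal L _).measurableSet
  have hc0 : Integrable (fun y => gg L S0.F y ^ 2) μ := intg μ ((gg_cont H.c0).pow 2)
  have hc1 : Integrable (fun y => gg L S1.F y ^ 2) μ := intg μ ((gg_cont H.c1).pow 2)
  have hcd : Integrable (fun y => |gg L S1.F y ^ 2 - gg L S0.F y ^ 2|) μ := (hc1.sub hc0).abs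
  have hdiff : |(∫ y, gg L S1.F y ^ 2 ∂μ) - ∫ y, gg L S0.F y ^ 2 ∂μ| ≤
      ∫ y, |gg L S1.F y ^ 2 - gg L S0.F y ^ 2| ∂μ := by
    rw [← integral_sub hc1 hc0]
    exact abs_integral_le_integral_abs
  rw [← integral_add_compl hB hcd] at hdiff
  simp only [pow_zero, one_mul, mul_one] at a1
  set I0 := ∫ y, gg L S0.F y ^ 2 ∂μ with hI0
  set I1 := ∫ y, gg L S1.F y ^ 2 ∂μ with hI1
  set Nn := ∫ y in bal L (r0 / 20), |gg L S1.F y ^ 2 - gg L S0.F y ^ 2| ∂μ with hNn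
  set Ff := ∫ y in (bal L (r0 / 20) : Set G)ᶜ, |gg L S1.F y ^ 2 - gg L S0.F y ^ 2| ∂μ with hFf
  have ht1 : S0.t ≤ 1 := by linarith
  have ht2 : S0.t ^ 2 ≤ S0.t := by nlinarith
  have ht3 : S0.t ^ 3 ≤ S0.t ^ 2 := by
    have : S0.t ^ 3 = S0.t ^ 2 * S0.t := by ring
    nlinarith [sq_nonneg S0.t]
  set q := S0.t * T + S0.t ^ 2 * (Dd + E) with hq
  have hq0 : 0 ≤ q := by positivity
  have c1 : S0.t * T + S0.t ^ 2 * Dd ≤ q := by
    rw [hq]
    have : 0 ≤ S0.t ^ 2 * E := by positivity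
    linarith
  have c2 : S0.t ^ 3 * (T + Dd + E) ≤ q := by
    rw [hq]
    have e1 : S0.t ^ 3 * T ≤ S0.t * T := mul_le_mul_of_nonneg_right (ht3.trans ht2) hT0
    have e2 : S0.t ^ 3 * (Dd + E) ≤ S0.t ^ 2 * (Dd + E) :=
      mul_le_mul_of_nonneg_right ht3 (by positivity)
    linarith
  have hsum : |I1 - I0| ≤ C * q * (I0 + I1) := by
    have d1 : C1 * (S0.t * T + S0.t ^ 2 * Dd) * (I0 + I1) ≤ C1 * q * (I0 + I1) :=
      mul_le_mul_of_nonneg_right (mul_le_mul_of_nonneg_left c1 hC1.le) (by positivity)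
    have d2 : C2 * S0.t ^ 3 * (T + Dd + E) * (I0 + I1) ≤ C2 * q * (I0 + I1) := by
      rw [mul_assoc C2]
      exact mul_le_mul_of_nonneg_right (mul_le_mul_of_nonneg_left c2 hC2.le) (by positivity)
    calc |I1 - I0| ≤ Nn + Ff := hdiff
      _ ≤ C1 * (S0.t * T + S0.t ^ 2 * Dd) * (I0 + I1) +
          C2 * S0.t ^ 3 * (T + Dd + E) * (I0 + I1) := add_le_add a1 a2
      _ ≤ C1 * q * (I0 + I1) + C2 * q * (I0 + I1) := add_le_add d1 d2
      _ = _ := by rw [hC]; ring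
  have hqs : C * q ≤ 1 / 3 := by
    have e1 : q ≤ S0.t * (3 * K1) := by
      rw [hq]
      have f1 : S0.t * T ≤ S0.t * K1 := mul_le_mul_of_nonneg_left b1 p0.le
      have f2 : S0.t ^ 2 * (Dd + E) ≤ S0.t * (2 * K1) :=
        mul_le_mul ht2 (by linarith) (by positivity) p0.le
      linarith
    have e2 : S0.t * (9 * (C * K1 + 1)) ≤ 1 := by rwa [le_div_iff₀ (by positivity)] at k5
    have e3 : C * q ≤ C * (S0.t * (3 * K1)) := mul_le_mul_of_nonneg_left e1 hC0.le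
    nlinarith
  have hI0p : 0 < I0 + I1 := by positivity
  have g1 : |I1 - I0| ≤ 1 / 3 * (I0 + I1) :=
    hsum.trans (mul_le_mul_of_nonneg_right hqs hI0p.le)
  have g2 := abs_le.1 g1
  have g3 : I0 ≤ 2 * I1 := by linarith [g2.1]
  refine ⟨q1, P0, P1, g3, hsum.trans ?_⟩
  have g4 : C * q * (I0 + I1) ≤ C * q * (3 * I1) :=
    mul_le_mul_of_nonneg_left (by linarith) (by positivity)
  refine g4.trans (le_of_eq ?_)
  ring

theorem quot {a0 a1 n0 n1 : ℝ} (h0 : 0 < n0) (h1 : 0 < n1) (ha : 0 ≤ a0) :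
    |a1 / n1 - a0 / n0| ≤ |a1 - a0| / n1 + |n1 - n0| / n1 * (a0 / n0) := by
  have e : a1 / n1 - a0 / n0 = (a1 - a0) / n1 - (n1 - n0) / n1 * (a0 / n0) := by
    field_simp
    ring
  rw [e]
  refine (abs_sub _ _).trans ?_
  rw [abs_div, abs_mul, abs_div, abs_div, abs_of_pos h0, abs_of_pos h1, abs_of_nonneg ha]

end Pq

end

end Pool.Agent.T2H04.HY
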