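import Mathlib
import Pool.Agent.T2H04.HY.TlP1g
import Pool.Agent.T2H04.HY.TlP1h

/-!
# Difference of the normalised squares of a pair of states (package P1): moments of the difference
-/

open MeasureTheory Matrix Filter
open scoped Matrix.Norms.Frobenius Topology

namespace Pool.Agent.T2H04.HY

set_option linter.unusedSectionVars false

noncomputable section

variable {G : Type} [Group G] [TopologicalSpace G] [IsTopologicalGroup G] [CompactSpace G]
  [MeasurableSpace G] [BorelSpace G] {μ : Measure G} [μ.IsHaarMeasure] [IsProbabilityMeasure μ]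
  {m : Type} [Fintype m] [DecidableEq m] {L : RD G m}

theorem pmom {D : LogData m} {εg δ r0 r s b r' : ℝ} (P : Par L D εg δ r0 r s b r') (k : ℕ)
    (K : ℝ) (hK : 0 < K) :
    ∃ C ts : ℝ, 0 < C ∧ 0 < ts ∧ ∀ (S0 S1 : St L) (A T Dd E : ℝ),
      PairH L r0 r s b S0 S1 A T Dd E → S0.t ≤ ts → S1.t ≤ ts → XX r0 T Dd E ≤ K →
      ∀ ρ ≤ r0 / 20,
        ∫ y in bal L ρ, (Real.sqrt S0.t + ‖Dri.et L D y‖) ^ k *
          |rn μ L S1.F y - rn μ L S0.F y| ∂μ ≤
          C * Real.sqrt S0.t ^ k * (S0.t * T + S0.t ^ 2 * (Dd + E)) := by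
  obtain ⟨C0, ts0, hC0, hts0, h0⟩ := Pq.dif (μ := μ) P K hK
  obtain ⟨C1, ts1, hC1, hts1, h1⟩ := Pq.nearI (μ := μ) P k
  obtain ⟨C2, ts2, hC2, hts2, h2⟩ := Pq.momg (μ := μ) P k 0
  refine ⟨3 * C1 + C0 * C2, min ts0 (min ts1 ts2), by positivity, by positivity, ?_⟩
  intro S0 S1 A T Dd E H hts _ hX ρ hρ
  have hT0 := H.T0
  have hD0 := H.D0
  have hE0 := H.E0
  have p0 := H.p0
  have p1 := H.p1
  have k0 : S0.t ≤ ts0 := hts.trans (min_le_left _ _)
  have k1 : S0.t ≤ ts1 := hts.trans ((min_le_right _ _).trans (min_le_left _ _))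
  have k2 : S0.t ≤ ts2 := hts.trans ((min_le_right _ _).trans (min_le_right _ _))
  obtain ⟨q1, P0, P1, hI, hd⟩ := h0 S0 S1 A T Dd E H k0 hX
  have a1 := h1 S0 S1 A T Dd E H k1 q1 ρ hρ
  have a2 := h2 S0.F S0.t A p0 k2 H.A0 H.At0 H.c0 ρ hρ S0.t p0 (by linarith)
  have hB : MeasurableSet (bal L ρ : Set G) := (isOpen_bal L ρ).measurableSet
  have hlt : ∀ y ∈ (bal L ρ : Set G), dis L y < r0 / 20 := fun y hy => lt_of_lt_of_le hy hρ
  simp only [pow_zero] at a2
  simp only [mul_one] at a2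
  simp only [add_zero] at a2
  have i0 : IntegrableOn (fun y => (Real.sqrt S0.t + ‖Dri.et L D y‖) ^ k *
      Pq.gg L S0.F y ^ 2) (bal L ρ) μ := by
    have := Pq.gg_intOn (μ := μ) P H.c0 p0 H.A0 H.At0 hρ S0.t k 0
    simp only [pow_zero] at this
    simp only [mul_one] at this
    exact this
  have i1 : IntegrableOn (fun y => (Real.sqrt S0.t + ‖Dri.et L D y‖) ^ k *
          |Pq.gg L S1.F y ^ 2 - Pq.gg L S0.F y ^ 2|) (bal L ρ) μ :=
    Pq.diff_intOn P H hρ k
  have hn0 : (S0.F 1).re ≠ 0 := H.c0.pos.ne'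
  have hn1 : (S1.F 1).re ≠ 0 := H.c1.pos.ne'
  set I0 := ∫ y, Pq.gg L S0.F y ^ 2 ∂μ with hI0
  set I1 := ∫ y, Pq.gg L S1.F y ^ 2 ∂μ with hI1
  set q := S0.t * T + S0.t ^ 2 * (Dd + E) with hq
  have hq0 : 0 ≤ q := by positivity
  have hW : ContinuousOn (fun y => (Real.sqrt S0.t + ‖Dri.et L D y‖) ^ k) (bal L ρ : Set G) :=
    (continuousOn_const.add (Dri.et_contOn P hρ).norm).pow k
  have hpt : ∀ y ∈ (bal L ρ : Set G), (Real.sqrt S0.t + ‖Dri.et L D y‖) ^ k *
          |rn μ L S1.F y - rn μ L S0.F y| ≤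
      1 / I1 * ((Real.sqrt S0.t + ‖Dri.et L D y‖) ^ k *
          |Pq.gg L S1.F y ^ 2 - Pq.gg L S0.F y ^ 2|) +
      |I1 - I0| / I1 / I0 * ((Real.sqrt S0.t + ‖Dri.et L D y‖) ^ k *
      Pq.gg L S0.F y ^ 2) := by
    intro y _
    rw [Pq.rn_eq hn1, Pq.rn_eq hn0]
    have := Pq.quot (a1 := Pq.gg L S1.F y ^ 2) P0 P1 (sq_nonneg (Pq.gg L S0.F y))
    refine (mul_le_mul_of_nonneg_left this (by positivity)).trans (le_of_eq ?_)
    ring
  calc _ ≤ 1 / I1 * (∫ y in bal L ρ, (Real.sqrt S0.t + ‖Dri.et L D y‖) ^ k *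
          |Pq.gg L S1.F y ^ 2 - Pq.gg L S0.F y ^ 2| ∂μ) +
        |I1 - I0| / I1 / I0 * (∫ y in bal L ρ, (Real.sqrt S0.t + ‖Dri.et L D y‖) ^ k *
          Pq.gg L S0.F y ^ 2 ∂μ) := by
        refine Pq.lin2 hB _ _ i1 i0 (ContinuousOn.aestronglyMeasurable (hW.mul ?_) hB)
          (fun y _ => by positivity) hpt
        exact ((((res_cont L H.c1.diff).pow 2).div_const _).sub
          (((res_cont L H.c0.diff).pow 2).div_const _)).abs.continuousOn
    _ ≤ 1 / I1 * (C1 * Real.sqrt S0.t ^ k * q * (3 * I1)) +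
        (C0 * q * I1) / I1 / I0 * (C2 * Real.sqrt S0.t ^ k * I0) := by
        have hqq : S0.t * T + S0.t ^ 2 * Dd ≤ q := by
          rw [hq]
          have : 0 ≤ S0.t ^ 2 * E := by positivity
          linarith
        refine add_le_add (mul_le_mul_of_nonneg_left (a1.trans ?_) (by positivity)) ?_
        · refine mul_le_mul (mul_le_mul_of_nonneg_left hqq (by positivity)) (by linarith)
            (by positivity) (by positivity)
        · refine mul_le_mul ?_ a2 ?_ (by positivity)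
          · exact div_le_div_of_nonneg_right (div_le_div_of_nonneg_right hd P1.le) P0.le
          · exact setIntegral_nonneg hB fun y _ => by positivity
    _ = _ := by
        field_simp

end

end Pool.Agent.T2H04.HY
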