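import Mathlib
import Pool.Agent.T2H04.HY.TlP1g
import Pool.Agent.T2H04.HY.TlP1h

/-!
# Difference of the normalised squares of a pair of states (package P1): tails of the difference
-/

open MeasureTheory Matrix Filter
open scoped Matrix.Norms.Frobenius Topology

namespace Pool.Agent.T2H04.HY

set_option linter.unusedSectionVars false

noncomputable section

variable {G : Type} [Group G] [TopologicalSpace G] [IsTopologicalGroup G] [CompactSpace G]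
  [MeasurableSpace G] [BorelSpace G] {μ : Measure G} [μ.IsHaarMeasure] [IsProbabilityMeasure μ]
  {m : Type} [Fintype m] [DecidableEq m] {L : RD G m}

theorem ptail {D : LogData m} {εg δ r0 r s b r' : ℝ} (P : Par L D εg δ r0 r s b r') {ρ : ℝ}
    (hρ : 0 < ρ) (hρ1 : ρ ≤ r0 / 20) (K : ℝ) (hK : 0 < K) :
    ∃ C ts : ℝ, 0 < C ∧ 0 < ts ∧ ∀ (S0 S1 : St L) (A T Dd E : ℝ),
      PairH L r0 r s b S0 S1 A T Dd E → S0.t ≤ ts → S1.t ≤ ts → XX r0 T Dd E ≤ K →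
        ∫ y in (bal L ρ : Set G)ᶜ, |rn μ L S1.F y - rn μ L S0.F y| ∂μ ≤
          C * S0.t ^ 3 * (T + Dd + E) := by
  obtain ⟨C0, ts0, hC0, hts0, h0⟩ := Pq.dif (μ := μ) P K hK
  obtain ⟨C1, ts1, hC1, hts1, h1⟩ := Pq.farI (μ := μ) P hρ hρ1
  obtain ⟨C2, ts2, hC2, hts2, h2⟩ := tail2 (μ := μ) P hρ hρ1
  refine ⟨3 * C1 + C0 * C2, min 1 (min ts0 (min ts1 ts2)), by positivity, by positivity, ?_⟩
  intro S0 S1 A T Dd E H hts _ hX
  have hT0 := H.T0
  have hD0 := H.D0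
  have hE0 := H.E0
  have p0 := H.p0
  have p1 := H.p1
  have k3 : S0.t ≤ 1 := hts.trans (min_le_left _ _)
  have hts' := hts.trans (min_le_right _ _)
  have k0 : S0.t ≤ ts0 := hts'.trans (min_le_left _ _)
  have k1 : S0.t ≤ ts1 := hts'.trans ((min_le_right _ _).trans (min_le_left _ _))
  have k2 : S0.t ≤ ts2 := hts'.trans ((min_le_right _ _).trans (min_le_right _ _))
  obtain ⟨q1, P0, P1, hI, hd⟩ := h0 S0 S1 A T Dd E H k0 hX
  have a1 := h1 S0 S1 A T Dd E H k1 q1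
  have a2' := h2 S0.F S0.t A p0 k2 H.A0 H.At0 H.c0
  have hp0 : 0 < (S0.F 1).re ^ 2 := pow_pos H.c0.pos 2
  have a2 : ∫ y in (bal L ρ : Set G)ᶜ, Pq.gg L S0.F y ^ 2 ∂μ ≤
      C2 * S0.t ^ 3 * ∫ y, Pq.gg L S0.F y ^ 2 ∂μ := by
    rw [Pq.gg_int, Pq.gg_int', ← mul_div_assoc]
    exact div_le_div_of_nonneg_right a2' hp0.le
  have hB : MeasurableSet ((bal L ρ : Set G)ᶜ) := (isOpen_bal L ρ).measurableSet.compl
  have hc0 : Integrable (fun y => Pq.gg L S0.F y ^ 2) μ := intg μ ((Pq.gg_cont H.c0).pow 2)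
  have hc1 : Integrable (fun y => Pq.gg L S1.F y ^ 2) μ := intg μ ((Pq.gg_cont H.c1).pow 2)
  have i1 : IntegrableOn (fun y => |Pq.gg L S1.F y ^ 2 - Pq.gg L S0.F y ^ 2|)
      ((bal L ρ : Set G)ᶜ) μ := (hc1.sub hc0).abs.integrableOn
  have i0 : IntegrableOn (fun y => Pq.gg L S0.F y ^ 2) ((bal L ρ : Set G)ᶜ) μ :=
    hc0.integrableOn
  have hn0 : (S0.F 1).re ≠ 0 := H.c0.pos.ne'
  have hn1 : (S1.F 1).re ≠ 0 := H.c1.pos.ne'
  have hint : IntegrableOn (fun y => |rn μ L S1.F y - rn μ L S0.F y|)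
      ((bal L ρ : Set G)ᶜ) μ := by
    refine (intg μ ?_).integrableOn
    exact ((((res_cont L H.c1.diff).pow 2).div_const _).sub
        (((res_cont L H.c0.diff).pow 2).div_const _)).abs
  set I0 := ∫ y, Pq.gg L S0.F y ^ 2 ∂μ with hI0
  set I1 := ∫ y, Pq.gg L S1.F y ^ 2 ∂μ with hI1
  set q := S0.t * T + S0.t ^ 2 * (Dd + E) with hq
  have hq0 : 0 ≤ q := by positivity
  have hqX : q ≤ T + Dd + E := by
    rw [hq]
    have e1 : S0.t * T ≤ 1 * T := mul_le_mul_of_nonneg_right k3 hT0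
    have e2 : S0.t ^ 2 ≤ 1 := pow_le_one₀ p0.le k3
    have e3 : S0.t ^ 2 * (Dd + E) ≤ 1 * (Dd + E) := mul_le_mul_of_nonneg_right e2 (by positivity)
    linarith
  have hpt : ∀ y ∈ ((bal L ρ : Set G)ᶜ), |rn μ L S1.F y - rn μ L S0.F y| ≤
      1 / I1 * |Pq.gg L S1.F y ^ 2 - Pq.gg L S0.F y ^ 2| +
      |I1 - I0| / I1 / I0 * Pq.gg L S0.F y ^ 2 := by
    intro y _
    rw [Pq.rn_eq hn1, Pq.rn_eq hn0]
    have := Pq.quot (a1 := Pq.gg L S1.F y ^ 2) P0 P1 (sq_nonneg (Pq.gg L S0.F y))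
    refine this.trans (le_of_eq ?_)
    ring
  calc _ ≤ 1 / I1 * (∫ y in (bal L ρ : Set G)ᶜ,
          |Pq.gg L S1.F y ^ 2 - Pq.gg L S0.F y ^ 2| ∂μ) +
        |I1 - I0| / I1 / I0 * (∫ y in (bal L ρ : Set G)ᶜ, Pq.gg L S0.F y ^ 2 ∂μ) :=
        Pq.lin2 hB _ _ i1 i0 hint.aestronglyMeasurable (fun y _ => abs_nonneg _) hpt
    _ ≤ 1 / I1 * (C1 * S0.t ^ 3 * (T + Dd + E) * (3 * I1)) +
        (C0 * (T + Dd + E) * I1) / I1 / I0 * (C2 * S0.t ^ 3 * I0) := by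
        refine add_le_add (mul_le_mul_of_nonneg_left (a1.trans ?_) (by positivity)) ?_
        · exact mul_le_mul_of_nonneg_left (by linarith) (by positivity)
        · refine mul_le_mul ?_ a2 ?_ (by positivity)
          · refine div_le_div_of_nonneg_right (div_le_div_of_nonneg_right (hd.trans ?_) P1.le)
              P0.le
            exact mul_le_mul_of_nonneg_right (mul_le_mul_of_nonneg_left hqX hC0.le) P1.le
          · exact setIntegral_nonneg hB fun y _ => sq_nonneg _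
    _ = _ := by
        field_simp

end

end Pool.Agent.T2H04.HY
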