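import Mathlib
import Pool.Agent.T2H04.HY.TlP1i
import Pool.Agent.T2H04.HY.TlP1j

/-!
# Difference of the normalised squares of a pair of states (package P1)

The parts are in `TlP1z`, `TlP1a` to `TlP1j`.
-/
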