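import Mathlib
import Pool.Agent.T2H04.HY.TlC
import Pool.Agent.T2H04.HY.TlP1

/-!
# Difference of the covariances of a pair of states (package P2)

Notation of `TlP1.lean`; `rn_i` has integral `1`; `V(η) X = ∂_X η` is the derivative of `log (exp (sX) y)`
(see `TlC1.lean`). Integration by parts (`Tlc.ibp_gen`, `Tlc.tst`, `Tlc.tst_deriv`, `Tlc.dfy_eq`; exact,
before the terms are estimated) with the test function `cut ρ (dis y ²) * crd Y y * rn_i y` gives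
`(2 / t_i) ∫ cut ⟨Y,η⟩⟨X,η⟩ rn_i = ∫ cut ⟨Y, ∂_X η⟩ rn_i - 2 ∫ cut ⟨Y,η⟩ (∂_X (w_i η)) rn_i
  + ∫ (∂_X cut) ⟨Y,η⟩ rn_i`.
Subtract the two identities.
* `cut = 1` for `dis ≤ ρ/2` and `0` outside `bal ρ`; the terms where `cut ≠ 1` or `∂_X cut ≠ 0` contribute
  `O(t³ (T + Dd + E))` (`ptail` with `ρ/2`; and for `cut`-terms multiplied by `1/t_1 - 1/t_0` the tails
  of `rn_i`, `tail2`).
* `⟨Y, ∂_X η⟩ = ⟨Y, X⟩ - 1/2 ⟨Y, [η, X]⟩ + O(‖η‖²)`: the constant gives `⟨Y,X⟩ ∫ cut (rn_1 - rn_0) =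
  -⟨Y,X⟩ ∫ (1 - cut) (rn_1 - rn_0) = O(t³ (T+Dd+E))`, the linear term vanishes by `y → y⁻¹`
  (`TlM.oddM`, `TlM.et_inv`, `TlM.res_inv`, `TlM.dis_inv`), the rest is `O(t (t T + t² (Dd+E)))` by
  `pmom` with `k = 2`.
* `∫ cut ⟨Y,η⟩ (∂_X (w_1 η) - ∂_X (w_0 η)) rn_1 = O(Dd t²)` (`‖∂_X ((w_1 - w_0) η)‖ ≤ C Dd ‖X‖ ‖η‖³`:
  the lemma `curve_w` for the differentiable function `w_1 - w_0` with `H.df.ww`; `momk` with `k = 4`) and
  `∫ cut ⟨Y,η⟩ ∂_X (w_0 η) (rn_1 - rn_0) = O(A t² (t T + t² (Dd+E)))` (`pmom` with `k = 4`), `A ≤ K`.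
-/

open MeasureTheory Matrix Filter
open scoped Matrix.Norms.Frobenius Topology

namespace Pool.Agent.T2H04.HY

set_option linter.unusedSectionVars false

noncomputable section

variable {G : Type} [Group G] [TopologicalSpace G] [IsTopologicalGroup G] [CompactSpace G]
  [MeasurableSpace G] [BorelSpace G] {μ : Measure G} [μ.IsHaarMeasure] [IsProbabilityMeasure μ]
  {m : Type} [Fintype m] [DecidableEq m] {L : RD G m}

namespace TlQ

open Tlc

/-- the logarithmic derivatives of a pair -/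
theorem dfy_pair {D : LogData m} {εg δ r0 r s b r' : ℝ} (P : Par L D εg δ r0 r s b r')
    {S0 S1 : St L} {A T Dd E : ℝ} (H : PairH L r0 r s b S0 S1 A T Dd E)
    {X : Mt m} (hX : X ∈ lieSet L) {y : G} (hy : dis L y < r0 / 20) (hne : Dri.et L D y ≠ 0) :
    ∃ W0 W1 : ℝ, |W0| ≤ 16 * A * ‖Dri.et L D y‖ ^ 3 * ‖X‖ ∧
      |W1 - W0| ≤ 16 * Dd * ‖Dri.et L D y‖ ^ 3 * ‖X‖ ∧
      S0.t * dfy L S0.F X y = res L S0.F y *
        (-ipr X ((Dri.et L D y : gC L) : Mt m) - S0.t * W0) ∧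
      S1.t * dfy L S1.F X y = res L S1.F y *
        (-ipr X ((Dri.et L D y : gC L) : Mt m) - S1.t * W1) := by
  have hr0 := P.r0_pos
  have hr01 := P.r0_le
  have hδ := P.r0_δ
  have hrl := P.r_lo
  have hA := H.A0
  have hDd := H.D0
  have hyδ : dis L y < δ := by linarith
  by_cases hX0 : X = 0
  · have h1 : ipr (0 : Mt m) ((Dri.et L D y : gC L) : Mt m) = 0 := by simp [ipr]
    have h2 : ∀ F : Mt m → ℂ, dfy L F 0 y = 0 := by
      intro F
      unfold dfy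
      rw [zero_mul, map_zero]
      simp
    subst hX0
    refine ⟨0, 0, ?_, ?_, ?_, ?_⟩
    · rw [abs_zero]; positivity
    · rw [sub_zero, abs_zero]; positivity
    · rw [h1, h2]; ring
    · rw [h1, h2]; ring
  have hXp : 0 < ‖X‖ := norm_pos_iff.2 hX0
  set η := Dri.et L D y with hηd
  have hη16 : ‖η‖ < r0 / 16 := Dri.et_lt P hy
  have hηp : 0 < ‖η‖ := norm_pos_iff.2 hne
  have hηs : ((η : gC L) : Mt m)ᴴ = -(η : Mt m) := lie_skew L (Dri.et_lie P.ch hyδ)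
  have himη : imP (η : Mt m) = 0 := Dri.et_im P.ch hyδ
  obtain ⟨Xc, hXc⟩ : ∃ Xc : gC L, (Xc : Mt m) = X := ⟨⟨X, gC_of_lie L hX⟩, rfl⟩
  have hnX : ‖Xc‖ = ‖X‖ := by rw [← hXc]; rfl
  obtain ⟨Y, V, hYdiff, hYdom, hYn, hY0, hV, hVn, hYe⟩ := curve_log P.ch P.e0 P.e1 hr0
    (by linarith) (X := Xc) (η := η) (by rwa [hnX]) hηp (by linarith) himη rfl
  have hsub : dom L r0 (r0 / 4) ⊆ dom L r (r0 / 4) := fun Z hZ => ⟨hZ.1.trans_le hrl, hZ.2⟩
  have hR : 0 < 2 * (‖η‖ / (10 * ‖Xc‖)) := by rw [hnX]; positivity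
  -- the Gauss lemma
  have hfd : fderiv ℂ (NormedSpace.exp : Mt m → Mt m) (η : Mt m) (V : Mt m) =
      X * NormedSpace.exp (η : Mt m) := by
    have h1 : HasDerivAt (fun s => NormedSpace.exp ((Y s : gC L) : Mt m))
        (fderiv ℂ (NormedSpace.exp : Mt m → Mt m) ((Y 0 : gC L) : Mt m) (V : Mt m)) 0 :=
      (exp_diff _).hasFDerivAt.comp_hasDerivAt 0 (coe_deriv hV)
    have h2 : HasDerivAt (fun s : ℂ => NormedSpace.exp (s • (Xc : Mt m)) *
        NormedSpace.exp (η : Mt m))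
        ((Xc : Mt m) * NormedSpace.exp ((0 : ℂ) • (Xc : Mt m)) * NormedSpace.exp (η : Mt m)) 0 :=
      (hasDerivAt_exp_smul_const' (𝕂 := ℂ) (Xc : Mt m) 0).mul_const _
    have h3 := h1.unique (h2.congr_of_eventuallyEq (by
      filter_upwards [Metric.ball_mem_nhds (0 : ℂ) hR] with s hs
      exact hYe s hs))
    rw [hY0, zero_smul, NormedSpace.exp_zero, mul_one, hXc] at h3
    exact h3
  have hga := gauss_ipr hηs hfd
  obtain ⟨W0, hW0, hW0n⟩ := curve_w hA (by rwa [hnX]) hηp rfl hYdiff hYdom hYn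
    (H.s0.diff.mono hsub) (fun Z hZ => H.s0.le Z (hsub hZ))
  obtain ⟨W1, hW1, -⟩ := curve_w hA (by rwa [hnX]) hηp rfl hYdiff hYdom hYn
    (H.s1.diff.mono hsub) (fun Z hZ => H.s1.le Z (hsub hZ))
  obtain ⟨Wd, hWd, hWdn⟩ := curve_w (w := fun Z => S1.w Z - S0.w Z) hDd (by rwa [hnX]) hηp rfl
    hYdiff hYdom hYn ((H.s1.diff.mono hsub).sub (H.s0.diff.mono hsub))
    (fun Z hZ => H.df.ww Z (hsub hZ))
  have hWe : Wd = W1 - W0 := hWd.unique (hW1.sub hW0)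
  have key : ∀ (S : St L) (W : ℂ), Cls L S.F S.t A r (r0 / 4) s b (1 / 10000) →
      SFw L S.F S.t A r (r0 / 4) S.w → 0 < S.t → HasDerivAt (fun s => S.w (Y s)) W 0 →
      S.t * dfy L S.F X y = res L S.F y * (-ipr X (η : Mt m) - S.t * W.re) := by
    intro S W cl hw ht hW
    have hid := curve_id cl.diff ht (X := Xc) (η := η) (x := L.rho y) (c := S.F 1) hR hY0 hV hW (by
      intro s hs
      rw [← hw.eq _ (hsub (hYdom s hs)), hYe s hs, Dri.et_exp P.ch hyδ])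
    rw [res_coe cl.real, hXc] at hid
    have e1 : ipr X (η : Mt m) = ipr (η : Mt m) X := ipr_comm _ _
    rw [e1, ← hga]
    unfold dfy
    rw [hid, Complex.re_ofReal_mul, Complex.sub_re, Complex.div_ofReal_re, ipr_trace hηs]
    field_simp
  rw [hnX] at hW0n hWdn
  refine ⟨W0.re, W1.re, (Complex.abs_re_le_norm _).trans hW0n, ?_, key S0 W0 H.c0 H.s0 H.p0 hW0,
    key S1 W1 H.c1 H.s1 H.p1 hW1⟩
  rw [← Complex.sub_re, ← hWe]
  exact (Complex.abs_re_le_norm _).trans hWdn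

/-- the derivative of the test function -/
def dd (L : RD G m) (D : LogData m) (ρ : ℝ) (c' : ℝ → ℝ) (X Y : Mt m) (V : G → Mt m)
    (F : Mt m → ℂ) (y : G) : ℝ :=
  (c' (dis L y ^ 2) * -(2 * ipr 1 (X * L.rho y)) * crd L D Y y +
        cut ρ (dis L y ^ 2) * ipr Y (V y)) * res L F y ^ 2 +
        cut ρ (dis L y ^ 2) * crd L D Y y * (2 * res L F y * dfy L F X y)

theorem d_int {D : LogData m} {εg δ r0 r s b r' : ℝ} (P : Par L D εg δ r0 r s b r') {ρ : ℝ}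
    (hρ : 0 < ρ) (hρ1 : ρ ≤ r0 / 20) {F : Mt m → ℂ} {t A : ℝ}
    (cl : Cls L F t A r (r0 / 4) s b (1 / 10000)) (ht : 0 < t) (hA : 0 ≤ A) (hAt : A * t ≤ 1 / 10)
    {Xc : gC L} {g : ℝ → G} (hg : ∀ s, L.rho (g s) = NormedSpace.exp (s • (Xc : Mt m)))
    (Y : Mt m) {c' : ℝ → ℝ} {K : ℝ} (hK : ∀ u, |c' u| ≤ K)
    (hc' : ∀ u, HasDerivAt (cut ρ) (c' u) u) {V : G → Mt m}
    (hV : ∀ y, dis L y < r0 / 20 →
      HasDerivAt (fun s : ℝ => ((Dri.et L D (g s * y) : gC L) : Mt m)) (V y) 0)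
    {x : ℝ} (hVx : ∀ y ∈ (bal L ρ : Set G), ‖V y‖ ≤ x) :
    IntegrableOn (dd L D ρ c' (Xc : Mt m) Y V F) (bal L ρ) μ ∧
      ∫ y in bal L ρ, dd L D ρ c' (Xc : Mt m) Y V F y ∂μ = 0 := by
  have hB : MeasurableSet (bal L ρ : Set G) := (isOpen_bal L ρ).measurableSet
  have hlt : ∀ y ∈ (bal L ρ : Set G), dis L y < r0 / 20 := fun y hy => lt_of_lt_of_le hy hρ1
  set d : G → ℝ := (bal L ρ : Set G).indicator (dd L D ρ c' (Xc : Mt m) Y V F) with hd
  have hdd : ∀ y, HasDerivAt (fun s => tst L D ρ (fun _ : Fin 1 => Y) F (g s * y)) (d y) 0 := by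
    intro y
    by_cases hy : y ∈ (bal L ρ : Set G)
    · rw [hd, Set.indicator_of_mem hy]
      have h := tst_deriv (L := L) P hρ hρ1 (fun _ : Fin 1 => Y) cl.diff hg (hc' _)
        (hV y (hlt y hy))
      refine h.congr_deriv ?_
      unfold dd dsum
      simp
    · rw [hd, Set.indicator_of_notMem hy]
      have hy' : ρ ≤ dis L y := not_lt.1 hy
      have h1 : (fun s => tst L D ρ (fun _ : Fin 1 => Y) F (g s * y)) =ᶠ[𝓝 0] fun _ => 0 := by
        have h2 := (dis_curve hg y).continuousAt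
        have h3 : ρ ^ 2 / 2 < dis L (g 0 * y) ^ 2 := by
          rw [g_zero hg, one_mul]
          nlinarith
        filter_upwards [h2.eventually_const_lt h3] with z hz
        unfold tst
        rw [cut_zero hρ hz.le, zero_mul, zero_mul]
      exact (hasDerivAt_const (0 : ℝ) (0 : ℝ)).congr_of_eventuallyEq h1
  have hη1 : ∀ y ∈ (bal L ρ : Set G), ‖Dri.et L D y‖ ≤ 1 := fun y hy =>
    Dri.et_le_one P (hlt y hy)
  have hK0 : 0 ≤ K := (abs_nonneg _).trans (hK 0)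
  have hx0 : 0 ≤ x := (norm_nonneg _).trans (hVx 1 (by
    show dis L 1 < ρ
    have : dis L (1 : G) = 0 := by unfold dis; rw [map_one, sub_self, norm_zero]
    rw [this]
    exact hρ))
  obtain ⟨Md, hMd⟩ : ∃ Md, ∀ y, |dfy L F (Xc : Mt m) y| ≤ Md := by
    obtain ⟨M, hM⟩ := isCompact_univ.exists_bound_of_continuousOn
      (dfy_cont L cl.diff (Xc : Mt m)).continuousOn
    exact ⟨M, fun y => hM y (Set.mem_univ y)⟩
  have hbd : ∀ y, |d y| ≤ (K * (2 * ‖(1 : Mt m)‖ * ‖(Xc : Mt m)‖) * ‖Y‖ + ‖Y‖ * x) *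
      (F 1).re ^ 2 + ‖Y‖ * (2 * (F 1).re * Md) := by
    intro y
    have hMd0 : 0 ≤ Md := (abs_nonneg _).trans (hMd y)
    have hF0 := cl.pos.le
    by_cases hy : y ∈ (bal L ρ : Set G)
    · rw [hd, Set.indicator_of_mem hy]
      unfold dd
      refine d_bound (hK _) ?_ ?_ (cut_nonneg _ _) (cut_le_one _ _) ?_
        (Dri.res_le P cl ht hA hAt y) hF0 (hMd y)
      · rw [abs_neg, abs_mul, abs_two]
        have h1 := ipr_abs_le 1 ((Xc : Mt m) * L.rho y)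
        rw [norm_mul_rho] at h1
        linarith
      · exact (ipr_abs_le _ _).trans (mul_le_of_le_one_right (norm_nonneg _) (hη1 y hy))
      · exact (ipr_abs_le _ _).trans (mul_le_mul_of_nonneg_left (hVx y hy) (norm_nonneg _))
    · rw [hd, Set.indicator_of_notMem hy, abs_zero]
      positivity
  obtain ⟨hdm, hd0⟩ := ibp_gen (μ := μ) hg (tst_cont P hρ hρ1 (fun _ : Fin 1 => Y) cl.diff) hbd hdd
  have hdi : Integrable d μ := Integrable.mono' (integrable_const _) hdm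
    (Filter.Eventually.of_forall fun y => by rw [Real.norm_eq_abs]; exact hbd y)
  refine ⟨(integrable_indicator_iff hB).1 hdi, ?_⟩
  rw [← integral_indicator hB]
  exact hd0

theorem d_alg {R V t c c' q' cY cX SV df W : ℝ} (ht : t ≠ 0)
    (h : cY * (t * df) = cY * (R * (-cX - t * W))) :
    ((c' * q' * cY + c * SV) * R ^ 2 + c * cY * (2 * R * df)) / V =
      (c' * q' * cY + c * SV) * (R ^ 2 / V) - 2 * (c * (cX * cY)) * (R ^ 2 / V / t) -
        2 * (c * cY) * (W * (R ^ 2 / V)) := by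
  have h1 : cY * df = cY * R * (-(cX / t) - W) := by
    have h2 : t * (cY * df) = t * (cY * R * (-(cX / t) - W)) := by
      have h3 : t * (cX / t) = cX := mul_div_cancel₀ _ ht |>.symm ▸ by field_simp
      linear_combination h + cY * R * h3
    exact mul_left_cancel₀ ht h2
  have h2 : c * cY * (2 * R * df) = 2 * c * R ^ 2 * cY * (-(cX / t) - W) := by
    linear_combination 2 * c * R * h1
  rw [h2]
  ring

theorem J_alg {n0 n1 t0 t1 c k cY cX SV W0 W1 XY a d0 d1 : ℝ}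
    (h0 : d0 = (k * cY + c * SV) * n0 - 2 * (c * (cX * cY)) * (n0 / t0) -
        2 * (c * cY) * (W0 * n0))
    (h1 : d1 = (k * cY + c * SV) * n1 - 2 * (c * (cX * cY)) * (n1 / t1) -
        2 * (c * cY) * (W1 * n1)) :
    cX * cY * n1 / t1 - cX * cY * n0 / t0 + 1 / 2 * (d1 - d0) - 1 / 2 * XY * (c * (n1 - n0)) +
      1 / 4 * (c * a * n1 - c * a * n0) =
    (1 - c) * (cX * cY) * ((n1 - n0) / t1 + n0 * (1 / t1 - 1 / t0)) + 1 / 2 * (k * cY) * (n1 - n0) +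
      1 / 2 * (c * (SV - XY + 1 / 2 * a)) * (n1 - n0) -
      c * cY * ((W1 - W0) * n1 + W0 * (n1 - n0)) := by
  rw [h0, h1]
  ring

theorem J_bd {n0 n1 t1 c c' q' cY cX SVd W0 Wd A T τ Dd n x y0 K k1 fr C3 : ℝ}
    (ht1 : 0 < t1) (hn0 : 0 ≤ n0) (hn1 : 0 ≤ n1) (_hn : 0 ≤ n) (hn1' : n ≤ 1)
    (hx : 0 ≤ x) (hy : 0 ≤ y0) (hT : |τ| ≤ T) (_hA : 0 ≤ A) (_hD : 0 ≤ Dd) (hK : 0 ≤ K)
    (hk : 0 ≤ k1)
    (hc0 : 0 ≤ c) (hc1 : c ≤ 1) (hfr : 0 ≤ fr) (hcf : |1 - c| ≤ fr) (hcf' : |c'| ≤ K * fr)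
    (hq : |q'| ≤ k1) (hcX : |cX| ≤ x * n) (hcY : |cY| ≤ y0 * n) (hC3 : 0 ≤ C3)
    (hSV : |SVd| ≤ C3 * n ^ 2) (hW0 : |cY| * |W0| ≤ y0 * n * (16 * A * n ^ 3 * x))
    (hWd : |cY| * |Wd| ≤ y0 * n * (16 * Dd * n ^ 3 * x)) :
    |(1 - c) * (cX * cY) * ((n1 - n0) / t1 + n0 * τ) + 1 / 2 * (c' * q' * cY) * (n1 - n0) +
      1 / 2 * (c * SVd) * (n1 - n0) - c * cY * (Wd * n1 + W0 * (n1 - n0))| ≤
    (x * y0 / t1 + K * k1 * y0) * (fr * |n1 - n0|) + x * y0 * T * (fr * n0) +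
      C3 * (n ^ 2 * |n1 - n0|) + 16 * x * y0 * Dd * (n ^ 4 * n1) +
      16 * x * y0 * A * (n ^ 4 * |n1 - n0|) := by
  have hca : |c| ≤ 1 := by rw [abs_of_nonneg hc0]; exact hc1
  have hcX1 : |cX| ≤ x := hcX.trans (mul_le_of_le_one_right hx hn1')
  have hcY1 : |cY| ≤ y0 := hcY.trans (mul_le_of_le_one_right hy hn1')
  have hXY : |cX * cY| ≤ x * y0 := by
    rw [abs_mul]; exact mul_le_mul hcX1 hcY1 (abs_nonneg _) hx
  have hΔ := abs_nonneg (n1 - n0)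
  have b1 : |(1 - c) * (cX * cY) * ((n1 - n0) / t1 + n0 * τ)| ≤
      fr * (x * y0) * (|n1 - n0| / t1 + n0 * T) := by
    rw [abs_mul, abs_mul]
    refine mul_le_mul (mul_le_mul hcf hXY (abs_nonneg _) hfr) ?_ (abs_nonneg _) (by positivity)
    refine (abs_add_le _ _).trans (add_le_add ?_ ?_)
    · rw [abs_div, abs_of_pos ht1]
    · rw [abs_mul, abs_of_nonneg hn0]
      exact mul_le_mul_of_nonneg_left hT hn0
  have b2 : |1 / 2 * (c' * q' * cY) * (n1 - n0)| ≤ 1 / 2 * ((K * fr) * k1 * y0) * |n1 - n0| := by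
    rw [abs_mul, abs_mul, abs_mul, abs_mul, abs_of_pos (by norm_num : (0 : ℝ) < 1 / 2)]
    refine mul_le_mul_of_nonneg_right (mul_le_mul_of_nonneg_left ?_ (by norm_num)) hΔ
    exact mul_le_mul (mul_le_mul hcf' hq (abs_nonneg _) (by positivity)) hcY1 (abs_nonneg _)
      (by positivity)
  have b3 : |1 / 2 * (c * SVd) * (n1 - n0)| ≤ 1 / 2 * (1 * (C3 * n ^ 2)) * |n1 - n0| := by
    rw [abs_mul, abs_mul, abs_mul, abs_of_pos (by norm_num : (0 : ℝ) < 1 / 2)]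
    refine mul_le_mul_of_nonneg_right (mul_le_mul_of_nonneg_left ?_ (by norm_num)) hΔ
    exact mul_le_mul hca hSV (abs_nonneg _) zero_le_one
  have b4 : |c * cY * (Wd * n1 + W0 * (n1 - n0))| ≤
      y0 * n * (16 * Dd * n ^ 3 * x) * n1 + y0 * n * (16 * A * n ^ 3 * x) * |n1 - n0| := by
    have e : c * cY * (Wd * n1 + W0 * (n1 - n0)) =
        c * ((cY * Wd) * n1 + (cY * W0) * (n1 - n0)) := by ring
    rw [e, abs_mul]
    refine (mul_le_of_le_one_left (abs_nonneg _) hca).trans ?_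
    refine (abs_add_le _ _).trans (add_le_add ?_ ?_)
    · rw [abs_mul, abs_mul, abs_of_nonneg hn1]
      exact mul_le_mul_of_nonneg_right hWd hn1
    · rw [abs_mul, abs_mul]
      exact mul_le_mul_of_nonneg_right hW0 hΔ
  refine (abs_sub _ _).trans ((add_le_add ((abs_add_le _ _).trans (add_le_add
    ((abs_add_le _ _).trans (add_le_add b1 b2)) b3)) b4).trans ?_)
  have p1 : 0 ≤ K * k1 * y0 * (fr * |n1 - n0|) := by positivity
  have p2 : 0 ≤ C3 * (n ^ 2 * |n1 - n0|) := by positivity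
  have e : (x * y0 / t1 + K * k1 * y0) * (fr * |n1 - n0|) + x * y0 * T * (fr * n0) +
      C3 * (n ^ 2 * |n1 - n0|) + 16 * x * y0 * Dd * (n ^ 4 * n1) +
      16 * x * y0 * A * (n ^ 4 * |n1 - n0|) =
      fr * (x * y0) * (|n1 - n0| / t1 + n0 * T) + 1 / 2 * ((K * fr) * k1 * y0) * |n1 - n0| +
      1 / 2 * (1 * (C3 * n ^ 2)) * |n1 - n0| +
      (y0 * n * (16 * Dd * n ^ 3 * x) * n1 + y0 * n * (16 * A * n ^ 3 * x) * |n1 - n0|) +
      (1 / 2 * (K * k1 * y0 * (fr * |n1 - n0|)) + 1 / 2 * (C3 * (n ^ 2 * |n1 - n0|))) := by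
    ring
  rw [e]
  linarith

/-- the final arithmetic -/
theorem p2_arith {t0 t1 T Dd E A K x y0 K1 C3 Ct CT C2 C4 Cm τ σ I2 J4 I4 XY : ℝ}
    (ht0 : 0 < t0) (ht01 : t0 ≤ 1) (ht1 : 0 < t1) (h01 : t0 ≤ 2 * t1) (h10 : t1 ≤ 2 * t0)
    (hT : 0 ≤ T) (hD : 0 ≤ Dd) (hE : 0 ≤ E) (hA : 0 ≤ A) (hAK : A ≤ K)
    (hx : 0 ≤ x) (hy : 0 ≤ y0) (hK1 : 0 ≤ K1) (hC3 : 0 ≤ C3) (hCt : 0 ≤ Ct) (hCT : 0 ≤ CT)
    (hC2 : 0 ≤ C2) (hC4 : 0 ≤ C4) (hCm : 0 ≤ Cm) (hτ0 : 0 ≤ τ) (hI4p : 0 ≤ I4)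
    (hτ : τ ≤ Ct * t0 ^ 3 * (T + Dd + E)) (hσ : σ ≤ CT * t0 ^ 3)
    (hI2 : I2 ≤ C2 * t0 * (t0 * T + t0 ^ 2 * (Dd + E)))
    (hI4 : I4 ≤ C4 * t0 ^ 2 * (t0 * T + t0 ^ 2 * (Dd + E)))
    (hJ4 : J4 ≤ Cm * t1 ^ 2) (hXY : |XY| ≤ x * y0) :
    (x * y0 / t1 + K1) * τ + x * y0 * T * σ + C3 * I2 + 16 * x * y0 * Dd * J4 +
      16 * x * y0 * A * I4 + 1 / 2 * |XY| * τ ≤
    (x * y0 * 2 * Ct + K1 * Ct + x * y0 * CT + C3 * C2 + 64 * x * y0 * Cm + 16 * x * y0 * K * C4 +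
      x * y0 * Ct + 1) * t0 ^ 2 * (T + Dd + E) := by
  have hS : 0 ≤ T + Dd + E := by positivity
  have hK : 0 ≤ K := hA.trans hAK
  have hi : 1 / t1 ≤ 2 / t0 := by
    rw [div_le_div_iff₀ ht1 ht0]; linarith
  have ht3 : t0 ^ 3 ≤ t0 ^ 2 := pow_le_pow_of_le_one ht0.le ht01 (by norm_num)
  have hZ : 0 ≤ t0 ^ 2 * (T + Dd + E) := by positivity
  have hτ' : τ ≤ Ct * (t0 ^ 2 * (T + Dd + E)) := by
    refine hτ.trans ?_
    rw [mul_assoc]
    exact mul_le_mul_of_nonneg_left (mul_le_mul_of_nonneg_right ht3 hS) hCt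
  have c1 : x * y0 / t1 * τ ≤ x * y0 * 2 * Ct * (t0 ^ 2 * (T + Dd + E)) := by
    calc x * y0 / t1 * τ = x * y0 * ((1 / t1) * τ) := by ring
      _ ≤ x * y0 * ((2 / t0) * (Ct * t0 ^ 3 * (T + Dd + E))) := by
          refine mul_le_mul_of_nonneg_left ?_ (by positivity)
          exact mul_le_mul hi hτ hτ0 (by positivity)
      _ = _ := by field_simp
  have c2 : K1 * τ ≤ K1 * Ct * (t0 ^ 2 * (T + Dd + E)) := by
    rw [mul_assoc]
    exact mul_le_mul_of_nonneg_left hτ' hK1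
  have c3 : x * y0 * T * σ ≤ x * y0 * CT * (t0 ^ 2 * (T + Dd + E)) := by
    calc x * y0 * T * σ ≤ x * y0 * T * (CT * t0 ^ 2) :=
          mul_le_mul_of_nonneg_left (hσ.trans (mul_le_mul_of_nonneg_left ht3 hCT)) (by positivity)
      _ = x * y0 * CT * (t0 ^ 2 * T) := by ring
      _ ≤ _ := by
          refine mul_le_mul_of_nonneg_left (mul_le_mul_of_nonneg_left ?_ (sq_nonneg _))
            (by positivity)
          linarith
  have hin : t0 * T + t0 ^ 2 * (Dd + E) ≤ t0 * (T + Dd + E) := by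
    have : t0 ^ 2 * (Dd + E) ≤ t0 * (Dd + E) :=
      mul_le_mul_of_nonneg_right (by nlinarith) (by positivity)
    linarith
  have c4 : C3 * I2 ≤ C3 * C2 * (t0 ^ 2 * (T + Dd + E)) := by
    calc C3 * I2 ≤ C3 * (C2 * t0 * (t0 * (T + Dd + E))) :=
          mul_le_mul_of_nonneg_left (hI2.trans (mul_le_mul_of_nonneg_left hin (by positivity))) hC3
      _ = _ := by ring
  have hJ : J4 ≤ 4 * Cm * t0 ^ 2 := by
    have : t1 ^ 2 ≤ (2 * t0) ^ 2 := pow_le_pow_left₀ ht1.le h10 2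
    calc J4 ≤ Cm * t1 ^ 2 := hJ4
      _ ≤ Cm * (2 * t0) ^ 2 := mul_le_mul_of_nonneg_left this hCm
      _ = _ := by ring
  have c5 : 16 * x * y0 * Dd * J4 ≤ 64 * x * y0 * Cm * (t0 ^ 2 * (T + Dd + E)) := by
    calc 16 * x * y0 * Dd * J4 ≤ 16 * x * y0 * Dd * (4 * Cm * t0 ^ 2) :=
          mul_le_mul_of_nonneg_left hJ (by positivity)
      _ = 64 * x * y0 * Cm * (t0 ^ 2 * Dd) := by ring
      _ ≤ _ := by
          refine mul_le_mul_of_nonneg_left (mul_le_mul_of_nonneg_left ?_ (sq_nonneg _))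
            (by positivity)
          linarith
  have c6 : 16 * x * y0 * A * I4 ≤ 16 * x * y0 * K * C4 * (t0 ^ 2 * (T + Dd + E)) := by
    calc 16 * x * y0 * A * I4 ≤ 16 * x * y0 * K * (C4 * t0 ^ 2 * (t0 * (T + Dd + E))) := by
          refine mul_le_mul (mul_le_mul_of_nonneg_left hAK (by positivity))
            (hI4.trans (mul_le_mul_of_nonneg_left hin (by positivity))) hI4p (by positivity)
      _ = 16 * x * y0 * K * C4 * (t0 ^ 3 * (T + Dd + E)) := by ring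
      _ ≤ _ := mul_le_mul_of_nonneg_left (mul_le_mul_of_nonneg_right ht3 hS) (by positivity)
  have c7 : 1 / 2 * |XY| * τ ≤ x * y0 * Ct * (t0 ^ 2 * (T + Dd + E)) := by
    calc 1 / 2 * |XY| * τ ≤ (x * y0) * (Ct * (t0 ^ 2 * (T + Dd + E))) := by
          refine mul_le_mul ?_ hτ' hτ0 (by positivity)
          have := abs_nonneg XY
          linarith
      _ = _ := by ring
  have e : (x * y0 * 2 * Ct + K1 * Ct + x * y0 * CT + C3 * C2 + 64 * x * y0 * Cm +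
      16 * x * y0 * K * C4 + x * y0 * Ct + 1) * t0 ^ 2 * (T + Dd + E) =
      x * y0 * 2 * Ct * (t0 ^ 2 * (T + Dd + E)) + K1 * Ct * (t0 ^ 2 * (T + Dd + E)) +
      x * y0 * CT * (t0 ^ 2 * (T + Dd + E)) + C3 * C2 * (t0 ^ 2 * (T + Dd + E)) +
      64 * x * y0 * Cm * (t0 ^ 2 * (T + Dd + E)) +
      16 * x * y0 * K * C4 * (t0 ^ 2 * (T + Dd + E)) + x * y0 * Ct * (t0 ^ 2 * (T + Dd + E)) +
      t0 ^ 2 * (T + Dd + E) := by ring
  rw [e, add_mul]
  linarith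

/-! ### the densities -/

theorem rn_cont {F : Mt m → ℂ} (hF : ContDiff ℂ 1 F) : Continuous (rn μ L F) :=
  ((res_cont L hF).pow 2).div_const _

theorem rn_nonneg (F : Mt m → ℂ) (y : G) : 0 ≤ rn μ L F y :=
  div_nonneg (sq_nonneg _) (TlM.V_nonneg F)

theorem rn_one {F : Mt m → ℂ} (hV : 0 < ∫ y, res L F y ^ 2 ∂μ) : ∫ y, rn μ L F y ∂μ = 1 := by
  unfold rn
  rw [integral_div, div_self hV.ne']

theorem V_pos {D : LogData m} {εg δ r0 r s b r' : ℝ} (P : Par L D εg δ r0 r s b r')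
    {F : Mt m → ℂ} {t A : ℝ} (cl : Cls L F t A r (r0 / 4) s b (1 / 10000)) (ht : 0 < t)
    (hA : 0 ≤ A) (hAt : A * t ≤ 1 / 10) (ht3 : t ≤ r0 ^ 2 / 1000) :
    0 < ∫ y, res L F y ^ 2 ∂μ := by
  have h := f1_le (μ := μ) P cl ht hA hAt ht3
  have h1 := bal_pos μ L (Real.sqrt t) (Real.sqrt_pos.2 ht)
  have h2 := cl.pos
  have : 0 < (F 1).re ^ 2 * μ.real (bal L (Real.sqrt t)) := by positivity
  linarith

/-- continuous on the ball and bounded, times the density -/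
theorem int_rn {ρ : ℝ} {F : Mt m → ℂ} (hF : ContDiff ℂ 1 F) {f : G → ℝ}
    (hf : ContinuousOn f (bal L ρ : Set G)) {K : ℝ} (hK : ∀ y ∈ (bal L ρ : Set G), |f y| ≤ K) :
    IntegrableOn (fun y : G => f y * rn μ L F y) (bal L ρ) μ := by
  have hB : MeasurableSet (bal L ρ : Set G) := (isOpen_bal L ρ).measurableSet
  obtain ⟨M, hM⟩ := isCompact_univ.exists_bound_of_continuousOn
    (rn_cont (μ := μ) (L := L) hF).continuousOn
  refine Dri.intg_on hB (hf.mul (rn_cont hF).continuousOn) (K * M) ?_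
  intro y hy
  rw [norm_mul, Real.norm_eq_abs]
  exact mul_le_mul (hK y hy) (hM y (Set.mem_univ y)) (norm_nonneg _)
    ((abs_nonneg _).trans (hK y hy))

/-- continuous on the ball and bounded, times a continuous function -/
theorem int_c {ρ : ℝ} {h : G → ℝ} (hh : Continuous h) {f : G → ℝ}
    (hf : ContinuousOn f (bal L ρ : Set G)) {K : ℝ} (hK : ∀ y ∈ (bal L ρ : Set G), |f y| ≤ K) :
    IntegrableOn (fun y : G => f y * h y) (bal L ρ) μ := by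
  have hB : MeasurableSet (bal L ρ : Set G) := (isOpen_bal L ρ).measurableSet
  obtain ⟨M, hM⟩ := isCompact_univ.exists_bound_of_continuousOn hh.continuousOn
  refine Dri.intg_on hB (hf.mul hh.continuousOn) (K * M) ?_
  intro y hy
  rw [norm_mul, Real.norm_eq_abs]
  exact mul_le_mul (hK y hy) (hM y (Set.mem_univ y)) (norm_nonneg _)
    ((abs_nonneg _).trans (hK y hy))

/-- the far part -/
theorem fr_int {S : Set G} (hS : MeasurableSet S) {f : G → ℝ} (hf : Integrable f μ)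
    (hf0 : ∀ y, 0 ≤ f y) (B : Set G) :
    Integrable (fun y => S.indicator (fun _ => (1 : ℝ)) y * f y) μ ∧
      ∫ y, S.indicator (fun _ => (1 : ℝ)) y * f y ∂μ = ∫ y in S, f y ∂μ ∧
      ∫ y in B, S.indicator (fun _ => (1 : ℝ)) y * f y ∂μ ≤ ∫ y in S, f y ∂μ := by
  have e : (fun y => S.indicator (fun _ => (1 : ℝ)) y * f y) = S.indicator f := by
    funext y
    by_cases hy : y ∈ S
    · rw [Set.indicator_of_mem hy, Set.indicator_of_mem hy, one_mul]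
    · rw [Set.indicator_of_notMem hy, Set.indicator_of_notMem hy, zero_mul]
  have hi : Integrable (S.indicator f) μ := hf.indicator hS
  refine ⟨by rw [e]; exact hi, by rw [e, integral_indicator hS], ?_⟩
  rw [e, ← integral_indicator hS]
  exact setIntegral_le_integral hi (Filter.Eventually.of_forall fun y =>
    Set.indicator_nonneg (fun y _ => hf0 y) y)

theorem lin7 {ν : Measure G} {f1 f0 d1 d0 e o1 o0 : G → ℝ} (h1 : Integrable f1 ν)
    (h2 : Integrable f0 ν) (h3 : Integrable d1 ν) (h4 : Integrable d0 ν) (h5 : Integrable e ν)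
    (h6 : Integrable o1 ν) (h7 : Integrable o0 ν) (t1 t0 V1 V0 XY : ℝ) :
    ∫ y, (f1 y / t1 - f0 y / t0 + 1 / 2 * (d1 y / V1 - d0 y / V0) - 1 / 2 * XY * e y +
      1 / 4 * (o1 y - o0 y)) ∂ν =
    (∫ y, f1 y ∂ν) / t1 - (∫ y, f0 y ∂ν) / t0 +
      1 / 2 * ((∫ y, d1 y ∂ν) / V1 - (∫ y, d0 y ∂ν) / V0) - 1 / 2 * XY * ∫ y, e y ∂ν +
      1 / 4 * (∫ y, o1 y ∂ν - ∫ y, o0 y ∂ν) := by
  have a1 : Integrable (fun y => f1 y / t1) ν := h1.div_const _
  have a2 : Integrable (fun y => f0 y / t0) ν := h2.div_const _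
  have a3 : Integrable (fun y => d1 y / V1) ν := h3.div_const _
  have a4 : Integrable (fun y => d0 y / V0) ν := h4.div_const _
  have a5 : Integrable (fun y => 1 / 2 * XY * e y) ν := h5.const_mul _
  have b1 : Integrable (fun y => f1 y / t1 - f0 y / t0) ν := a1.sub a2
  have b2 : Integrable (fun y => d1 y / V1 - d0 y / V0) ν := a3.sub a4
  have b3 : Integrable (fun y => o1 y - o0 y) ν := h6.sub h7
  have b4 : Integrable (fun y => f1 y / t1 - f0 y / t0 + 1 / 2 * (d1 y / V1 - d0 y / V0)) ν :=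
    b1.add (b2.const_mul _)
  have b5 : Integrable (fun y => f1 y / t1 - f0 y / t0 + 1 / 2 * (d1 y / V1 - d0 y / V0) -
    1 / 2 * XY * e y) ν := b4.sub a5
  rw [integral_add b5 (b3.const_mul _), integral_sub b4 a5, integral_add b1 (b2.const_mul _),
    integral_sub a1 a2, integral_const_mul, integral_sub a3 a4, integral_const_mul,
    integral_const_mul, integral_sub h6 h7, integral_div, integral_div, integral_div, integral_div]

theorem lin5 {ν : Measure G} {f1 f2 f3 f4 f5 : G → ℝ} (h1 : Integrable f1 ν)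
    (h2 : Integrable f2 ν) (h3 : Integrable f3 ν) (h4 : Integrable f4 ν) (h5 : Integrable f5 ν)
    (a1 a2 a3 a4 a5 : ℝ) :
    Integrable (fun y => a1 * f1 y + a2 * f2 y + a3 * f3 y + a4 * f4 y + a5 * f5 y) ν ∧
    ∫ y, (a1 * f1 y + a2 * f2 y + a3 * f3 y + a4 * f4 y + a5 * f5 y) ∂ν =
      a1 * ∫ y, f1 y ∂ν + a2 * ∫ y, f2 y ∂ν + a3 * ∫ y, f3 y ∂ν + a4 * ∫ y, f4 y ∂ν +
      a5 * ∫ y, f5 y ∂ν := by
  have c1 : Integrable (fun y => a1 * f1 y) ν := h1.const_mul _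
  have c2 : Integrable (fun y => a2 * f2 y) ν := h2.const_mul _
  have c3 : Integrable (fun y => a3 * f3 y) ν := h3.const_mul _
  have c4 : Integrable (fun y => a4 * f4 y) ν := h4.const_mul _
  have c5 : Integrable (fun y => a5 * f5 y) ν := h5.const_mul _
  have d1 : Integrable (fun y => a1 * f1 y + a2 * f2 y) ν := c1.add c2
  have d2 : Integrable (fun y => a1 * f1 y + a2 * f2 y + a3 * f3 y) ν := d1.add c3
  have d3 : Integrable (fun y => a1 * f1 y + a2 * f2 y + a3 * f3 y + a4 * f4 y) ν := d2.add c4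
  refine ⟨d3.add c5, ?_⟩
  rw [integral_add d3 c5, integral_add d2 c4, integral_add d1 c3, integral_add c1 c2,
    integral_const_mul, integral_const_mul, integral_const_mul, integral_const_mul,
    integral_const_mul]

theorem SV_bd {X Y V η : Mt m} {x y0 n : ℝ} (hx : x = ‖X‖) (hy0 : y0 = ‖Y‖) (hn : ‖η‖ = n)
    (hn1 : n ≤ 1) (hV : ‖V - V0 η X‖ ≤ 160 * n ^ 3 * x) :
    |ipr Y V - ipr Y X + 1 / 2 * ipr Y (ad η X)| ≤ 161 * x * y0 * n ^ 2 := by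
  have hn0 : 0 ≤ n := by rw [← hn]; exact norm_nonneg _
  have hx0 : 0 ≤ x := by rw [hx]; exact norm_nonneg _
  have hy00 : 0 ≤ y0 := by rw [hy0]; exact norm_nonneg _
  have g1 : ipr Y V - ipr Y X + 1 / 2 * ipr Y (ad η X) =
      ipr Y (V - V0 η X) + 1 / 12 * ipr Y (ad η (ad η X)) := by
    rw [ipr_sub]
    unfold V0
    rw [Dri.ipr_add, ipr_sub, Dri.ipr_smul, Dri.ipr_smul]
    ring
  have g2 : |ipr Y (V - V0 η X)| ≤ y0 * (160 * n ^ 3 * x) := by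
    refine (ipr_abs_le _ _).trans ?_
    rw [← hy0]
    exact mul_le_mul_of_nonneg_left hV hy00
  have g3 : |ipr Y (ad η (ad η X))| ≤ y0 * (2 * n * (2 * n * x)) := by
    refine (ipr_abs_le _ _).trans ?_
    rw [← hy0]
    refine mul_le_mul_of_nonneg_left ?_ hy00
    have h1 := TlM.norm_ad_le η (ad η X)
    have h2 := TlM.norm_ad_le η X
    rw [hn] at h1 h2
    rw [← hx] at h2
    exact h1.trans (mul_le_mul_of_nonneg_left h2 (by positivity))
  have g4 : n ^ 3 ≤ n ^ 2 := pow_le_pow_of_le_one hn0 hn1 (by norm_num)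
  have g5 : y0 * (160 * n ^ 3 * x) ≤ 160 * (x * y0 * n ^ 2) := by
    calc _ = 160 * (x * y0) * n ^ 3 := by ring
      _ ≤ 160 * (x * y0) * n ^ 2 := mul_le_mul_of_nonneg_left g4 (by positivity)
      _ = _ := by ring
  have g6 : 0 ≤ x * y0 * n ^ 2 := by positivity
  have g7 : y0 * (2 * n * (2 * n * x)) = 4 * (x * y0 * n ^ 2) := by ring
  have g8 : 161 * x * y0 * n ^ 2 = 161 * (x * y0 * n ^ 2) := by ring
  rw [g1, g8]
  rw [g7] at g3
  refine (abs_add_le _ _).trans ?_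
  rw [abs_mul, abs_of_pos (by norm_num : (0 : ℝ) < 1 / 12)]
  linarith

theorem sq_lt_quarter {d ρ : ℝ} (hd : 0 ≤ d) (h : d < ρ / 2) : d ^ 2 < ρ ^ 2 / 4 := by
  nlinarith

theorem half_le_sq {d ρ : ℝ} (hρ : 0 < ρ) (h : ρ ≤ d) : ρ ^ 2 / 2 ≤ d ^ 2 := by
  nlinarith

theorem abs_le_of_sub_le {u v p q : ℝ} (h : |u - v| ≤ p) (h2 : |v| ≤ q) : |u| ≤ p + q := by
  have h3 := abs_add_le (u - v) v
  rw [sub_add_cancel] at h3
  linarith

end TlQ

open Tlc TlQ in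
theorem pcov {D : LogData m} {εg δ r0 r s b r' : ℝ} (P : Par L D εg δ r0 r s b r') {ρ : ℝ}
    (hρ : 0 < ρ) (hρ1 : ρ ≤ r0 / 20) {X Y : Mt m} (hX : X ∈ lieSet L) (hY : Y ∈ lieSet L)
    (K : ℝ) (hK : 0 < K) :
    ∃ C ts : ℝ, 0 < C ∧ 0 < ts ∧ ∀ (S0 S1 : St L) (A T Dd E : ℝ),
      PairH L r0 r s b S0 S1 A T Dd E → S0.t ≤ ts → S1.t ≤ ts → XX r0 T Dd E ≤ K → A ≤ K →
        |(∫ y in bal L ρ, crd L D X y * crd L D Y y * rn μ L S1.F y ∂μ) / S1.t -
          (∫ y in bal L ρ, crd L D X y * crd L D Y y * rn μ L S0.F y ∂μ) / S0.t| ≤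
          C * S0.t ^ 2 * (T + Dd + E) := by
  have hr0 := P.r0_pos
  have hr01 := P.r0_le
  have hδ := P.r0_δ
  obtain ⟨Kc, hKc, hcut⟩ := cut_deriv hρ
  choose c' hc'1 hc'2 hc'3 using hcut
  obtain ⟨x, hx⟩ : ∃ x : ℝ, x = ‖X‖ := ⟨_, rfl⟩
  obtain ⟨y0, hy0⟩ : ∃ x : ℝ, x = ‖Y‖ := ⟨_, rfl⟩
  have hx0 : 0 ≤ x := by rw [hx]; exact norm_nonneg _
  have hy00 : 0 ≤ y0 := by rw [hy0]; exact norm_nonneg _
  obtain ⟨k1, hk1⟩ : ∃ k1 : ℝ, k1 = 2 * ‖(1 : Mt m)‖ * x := ⟨_, rfl⟩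
  have hk10 : 0 ≤ k1 := by rw [hk1]; positivity
  have hρ2 : ρ / 2 ≤ r0 / 20 := by linarith
  obtain ⟨Ct, s1, hCt, hs1, hptl⟩ := ptail (μ := μ) P (ρ := ρ / 2) (by positivity) hρ2 K hK
  obtain ⟨CT, s2, hCT, hs2, htl⟩ := tail2 (μ := μ) P (ρ := ρ / 2) (by positivity) hρ2
  obtain ⟨C2, s3, hC2, hs3, hpm2⟩ := pmom (μ := μ) P 2 K hK
  obtain ⟨C4, s4, hC4, hs4, hpm4⟩ := pmom (μ := μ) P 4 K hK
  obtain ⟨Cm, s5, hCm, hs5, hmk⟩ := momk (μ := μ) P 4
  obtain ⟨s6, hs6, hpt⟩ := pair_t (L := L) (r := r) (s := s) (b := b) hr0 K hK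
  refine ⟨x * y0 * 2 * Ct + Kc * k1 * y0 * Ct + x * y0 * CT + 161 * x * y0 * C2 +
    64 * x * y0 * Cm + 16 * x * y0 * K * C4 + x * y0 * Ct + 1,
    min 1 (min s1 (min s2 (min s3 (min s4 (min s5 (min s6 (r0 ^ 2 / 1000))))))),
    by positivity, by positivity, ?_⟩
  intro S0 S1 A T Dd E H hts0 hts1 hXX hAK
  simp only [le_min_iff] at hts0 hts1
  obtain ⟨a0, a1, a2, a3, a4, a5, a6, a7⟩ := hts0
  obtain ⟨b0, b1, b2, b3, b4, b5, b6, b7⟩ := hts1
  have p0 := H.p0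
  have p1 := H.p1
  have hA := H.A0
  have hT := H.T0
  have hDd := H.D0
  have hE := H.E0
  obtain ⟨h10, h01, -⟩ := hpt S0 S1 A T Dd E H a6 hXX
  have hV0 := V_pos (μ := μ) P H.c0 p0 hA H.At0 a7
  have hV1 := V_pos (μ := μ) P H.c1 p1 hA H.At1 b7
  have hτ := hptl S0 S1 A T Dd E H a1 b1 hXX
  have hσ := htl S0.F S0.t A p0 a2 hA H.At0 H.c0
  have hI2 := hpm2 S0 S1 A T Dd E H a3 b3 hXX ρ hρ1
  have hI4 := hpm4 S0 S1 A T Dd E H a4 b4 hXX ρ hρ1
  have hJ4 := hmk S1.F S1.t A p1 b5 hA H.At1 H.c1 ρ hρ1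
  have hB : MeasurableSet (bal L ρ : Set G) := (isOpen_bal L ρ).measurableSet
  have hB2 : MeasurableSet ((bal L (ρ / 2) : Set G)ᶜ) := (isOpen_bal L _).measurableSet.compl
  have hlt : ∀ y ∈ (bal L ρ : Set G), dis L y < r0 / 20 := fun y hy => lt_of_lt_of_le hy hρ1
  obtain ⟨Xc, hXc⟩ : ∃ Xc : gC L, (Xc : Mt m) = X := ⟨⟨X, gC_of_lie L hX⟩, rfl⟩
  have hXl := hX
  choose g hg using hX
  have hgc : ∀ s, L.rho (g s) = NormedSpace.exp (s • (Xc : Mt m)) := by rw [hXc]; exact hg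
  choose! V hVd1 hVd2 using fun y (hy : dis L y < r0 / 20) => et_curve P hgc hy
  have hη1 : ∀ y ∈ (bal L ρ : Set G), ‖Dri.et L D y‖ ≤ 1 := fun y hy =>
    Dri.et_le_one P (hlt y hy)
  have hη8 : ∀ y ∈ (bal L ρ : Set G), 8 * ‖((Dri.et L D y : gC L) : Mt m)‖ ≤ 1 := fun y hy => by
    have h1 := Dri.et_lt P (hlt y hy)
    have h2 : ‖((Dri.et L D y : gC L) : Mt m)‖ = ‖Dri.et L D y‖ := rfl
    rw [h2]
    linarith
  have hVx : ∀ y ∈ (bal L ρ : Set G), ‖V y‖ ≤ 2 * x := fun y hy => by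
    have h1 := exp_deriv_inv (hη8 y hy) (V y)
    rw [hVd2 y (hlt y hy), Dri.et_exp P.ch (by have := hlt y hy; linarith), norm_mul_rho, hXc,
      ← hx] at h1
    exact h1
  have hV0x : ∀ y ∈ (bal L ρ : Set G), ‖V y - V0 ((Dri.et L D y : gC L) : Mt m) X‖ ≤
      160 * ‖Dri.et L D y‖ ^ 3 * x := fun y hy => by
    have h1 := V0_le (hη8 y hy) (hVd2 y (hlt y hy))
    rw [hXc, ← hx] at h1
    exact h1
  obtain ⟨i0, z0⟩ := d_int (μ := μ) P hρ hρ1 H.c0 p0 hA H.At0 hgc Y hc'1 hc'3 hVd1 hVx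
  obtain ⟨i1, z1⟩ := d_int (μ := μ) P hρ hρ1 H.c1 p1 hA H.At1 hgc Y hc'1 hc'3 hVd1 hVx
  -- continuity and integrability
  have hn0c : Continuous (rn μ L S0.F) := rn_cont H.c0.diff
  have hn1c : Continuous (rn μ L S1.F) := rn_cont H.c1.diff
  have hn0p : ∀ y, 0 ≤ rn μ L S0.F y := rn_nonneg S0.F
  have hn1p : ∀ y, 0 ≤ rn μ L S1.F y := rn_nonneg S1.F
  have hΔc : Continuous fun y => rn μ L S1.F y - rn μ L S0.F y := hn1c.sub hn0c
  have hΔa : Continuous fun y => |rn μ L S1.F y - rn μ L S0.F y| := hΔc.abs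
  have hcc : Continuous fun y : G => cut ρ (dis L y ^ 2) := (cut_cont ρ).comp (dis_cont'.pow 2)
  have hcX := TlM.crd_cont P hρ1 X
  have hcY := TlM.crd_cont P hρ1 Y
  have had := TlM.ad1_cont P hρ1 Y X
  have hetc : ContinuousOn (fun y : G => ‖Dri.et L D y‖) (bal L ρ : Set G) :=
    (Dri.et_contOn P hρ1).norm
  have hcXb : ∀ y ∈ (bal L ρ : Set G), |crd L D X y| ≤ x := fun y hy => by
    rw [hx]
    exact (TlM.crd_le X y).trans (mul_le_of_le_one_right (norm_nonneg _) (hη1 y hy))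
  have hcYb : ∀ y ∈ (bal L ρ : Set G), |crd L D Y y| ≤ y0 := fun y hy => by
    rw [hy0]
    exact (TlM.crd_le Y y).trans (mul_le_of_le_one_right (norm_nonneg _) (hη1 y hy))
  have hXYb : ∀ y ∈ (bal L ρ : Set G), |crd L D X y * crd L D Y y| ≤ x * y0 := fun y hy => by
    rw [abs_mul]
    exact mul_le_mul (hcXb y hy) (hcYb y hy) (abs_nonneg _) hx0
  have j1 : IntegrableOn (fun y => crd L D X y * crd L D Y y * rn μ L S1.F y) (bal L ρ) μ :=
    int_c (μ := μ) hn1c (hcX.mul hcY) hXYb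
  have j0 : IntegrableOn (fun y => crd L D X y * crd L D Y y * rn μ L S0.F y) (bal L ρ) μ :=
    int_c (μ := μ) hn0c (hcX.mul hcY) hXYb
  have hca : ∀ y : G, |cut ρ (dis L y ^ 2)| ≤ 1 := fun y => by
    rw [abs_of_nonneg (cut_nonneg _ _)]
    exact cut_le_one _ _
  have je : Integrable (fun y => cut ρ (dis L y ^ 2) * (rn μ L S1.F y - rn μ L S0.F y)) μ :=
    intg μ (hcc.mul hΔc)
  have hab : ∀ y ∈ (bal L ρ : Set G), |cut ρ (dis L y ^ 2) *
      ipr Y (ad ((Dri.et L D y : gC L) : Mt m) X)| ≤ 2 * y0 * x := fun y hy => by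
    rw [abs_mul]
    have h1 := TlM.ad1_le (L := L) (D := D) Y X y
    rw [← hx, ← hy0] at h1
    calc _ ≤ 1 * (2 * y0 * x * ‖Dri.et L D y‖) :=
          mul_le_mul (hca y) h1 (abs_nonneg _) zero_le_one
      _ ≤ 2 * y0 * x := by
          rw [one_mul]
          exact mul_le_of_le_one_right (by positivity) (hη1 y hy)
  have k1i : IntegrableOn (fun y => cut ρ (dis L y ^ 2) *
      ipr Y (ad ((Dri.et L D y : gC L) : Mt m) X) * rn μ L S1.F y) (bal L ρ) μ :=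
    int_c (μ := μ) hn1c (hcc.continuousOn.mul had) hab
  have k0i : IntegrableOn (fun y => cut ρ (dis L y ^ 2) *
      ipr Y (ad ((Dri.et L D y : gC L) : Mt m) X) * rn μ L S0.F y) (bal L ρ) μ :=
    int_c (μ := μ) hn0c (hcc.continuousOn.mul had) hab
  have odd : ∀ (S : St L), Cls L S.F S.t A r (r0 / 4) s b (1 / 10000) →
      ∫ y in bal L ρ, cut ρ (dis L y ^ 2) * ipr Y (ad ((Dri.et L D y : gC L) : Mt m) X) *
        rn μ L S.F y ∂μ = 0 := by
    intro S cl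
    have h1 := TlM.oddM (μ := μ) cl (ρ := ρ) (f := fun y => cut ρ (dis L y ^ 2) *
      ipr Y (ad ((Dri.et L D y : gC L) : Mt m) X) / ∫ z, res L S.F z ^ 2 ∂μ) (by
        intro y hy
        show cut ρ (dis L y⁻¹ ^ 2) * ipr Y (ad ((Dri.et L D y⁻¹ : gC L) : Mt m) X) / _ = _
        rw [TlM.dis_inv, TlM.et_inv_coe P (hlt y hy), TlM.ad_neg_left, Dri.ipr_neg]
        ring)
    rw [← h1]
    refine integral_congr_ae (Filter.Eventually.of_forall fun y => ?_)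
    show _ * (res L S.F y ^ 2 / _) = _ / _ * _
    ring
  -- the integral of the cutoff
  set fr : G → ℝ := ((bal L (ρ / 2) : Set G)ᶜ).indicator (fun _ => 1) with hfr
  have hfr0 : ∀ y, 0 ≤ fr y := fun y => Set.indicator_nonneg (fun _ _ => zero_le_one) y
  obtain ⟨q1, q2, q3⟩ := fr_int (μ := μ) hB2 (intg μ hΔa) (fun y => abs_nonneg _) (bal L ρ)
  obtain ⟨q4, q5, q6⟩ := fr_int (μ := μ) hB2 (intg μ hn0c) hn0p (bal L ρ)
  have hcf : ∀ y, |1 - cut ρ (dis L y ^ 2)| ≤ fr y := by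
    intro y
    by_cases h1 : y ∈ (bal L (ρ / 2) : Set G)ᶜ
    · rw [hfr, Set.indicator_of_mem h1]
      have h2 := cut_nonneg ρ (dis L y ^ 2)
      have h3 := cut_le_one ρ (dis L y ^ 2)
      rw [abs_le]
      constructor <;> linarith
    · rw [hfr, Set.indicator_of_notMem h1]
      have h2 : dis L y < ρ / 2 := not_not.1 h1
      have h3 : dis L y ^ 2 ≤ ρ ^ 2 / 4 := (sq_lt_quarter (norm_nonneg _) h2).le
      rw [cut_one hρ h3, sub_self, abs_zero]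
  have hcf' : ∀ y, |c' (dis L y ^ 2)| ≤ Kc * fr y := by
    intro y
    by_cases h1 : y ∈ (bal L (ρ / 2) : Set G)ᶜ
    · rw [hfr, Set.indicator_of_mem h1, mul_one]
      exact hc'1 _
    · rw [hfr, Set.indicator_of_notMem h1, mul_zero]
      have h2 : dis L y < ρ / 2 := not_not.1 h1
      have h3 : dis L y ^ 2 < ρ ^ 2 / 4 := sq_lt_quarter (norm_nonneg _) h2
      rw [hc'2 _ h3, abs_zero]
  have hce : |∫ y in bal L ρ, cut ρ (dis L y ^ 2) * (rn μ L S1.F y - rn μ L S0.F y) ∂μ| ≤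
      ∫ y in (bal L (ρ / 2) : Set G)ᶜ, |rn μ L S1.F y - rn μ L S0.F y| ∂μ := by
    have h1 : ∫ y in bal L ρ, cut ρ (dis L y ^ 2) * (rn μ L S1.F y - rn μ L S0.F y) ∂μ =
        ∫ y, cut ρ (dis L y ^ 2) * (rn μ L S1.F y - rn μ L S0.F y) ∂μ := by
      refine setIntegral_eq_integral_of_forall_compl_eq_zero fun y hy => ?_
      have h2 : ρ ≤ dis L y := not_lt.1 hy
      rw [cut_zero hρ (half_le_sq hρ h2), zero_mul]
    have h2 : ∫ y, (rn μ L S1.F y - rn μ L S0.F y) ∂μ = 0 := by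
      rw [integral_sub (intg μ hn1c) (intg μ hn0c), rn_one hV1, rn_one hV0, sub_self]
    have h3 : ∫ y, cut ρ (dis L y ^ 2) * (rn μ L S1.F y - rn μ L S0.F y) ∂μ =
        -∫ y, (1 - cut ρ (dis L y ^ 2)) * (rn μ L S1.F y - rn μ L S0.F y) ∂μ := by
      have h4 : ∫ y, (1 - cut ρ (dis L y ^ 2)) * (rn μ L S1.F y - rn μ L S0.F y) ∂μ =
          ∫ y, (rn μ L S1.F y - rn μ L S0.F y) ∂μ -
          ∫ y, cut ρ (dis L y ^ 2) * (rn μ L S1.F y - rn μ L S0.F y) ∂μ := by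
        rw [← integral_sub (intg μ hΔc) je]
        refine integral_congr_ae (Filter.Eventually.of_forall fun y => ?_)
        show _ = _ - _
        ring
      rw [h4, h2]
      ring
    rw [h1, h3, abs_neg, ← q2]
    have h5 := norm_integral_le_of_norm_le (μ := μ)
      (f := fun y => (1 - cut ρ (dis L y ^ 2)) * (rn μ L S1.F y - rn μ L S0.F y)) q1
      (Filter.Eventually.of_forall fun y => by
        rw [norm_mul, Real.norm_eq_abs, Real.norm_eq_abs]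
        exact mul_le_mul_of_nonneg_right (hcf y) (abs_nonneg _))
    rwa [Real.norm_eq_abs] at h5
  -- the moments
  have hm : ∀ k : ℕ, ∀ y ∈ (bal L ρ : Set G), |‖Dri.et L D y‖ ^ k| ≤ 1 := fun k y hy => by
    rw [abs_of_nonneg (by positivity)]
    exact pow_le_one₀ (norm_nonneg _) (hη1 y hy)
  have mk : ∀ k : ℕ, IntegrableOn (fun y => ‖Dri.et L D y‖ ^ k *
      |rn μ L S1.F y - rn μ L S0.F y|) (bal L ρ) μ := fun k =>
    int_c (μ := μ) hΔa (hetc.pow k) (hm k)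
  have mk1 : ∀ k : ℕ, IntegrableOn (fun y => ‖Dri.et L D y‖ ^ k * rn μ L S1.F y)
      (bal L ρ) μ := fun k => int_c (μ := μ) hn1c (hetc.pow k) (hm k)
  have mle : ∀ k : ℕ, ∫ y in bal L ρ, ‖Dri.et L D y‖ ^ k * |rn μ L S1.F y - rn μ L S0.F y| ∂μ ≤
      ∫ y in bal L ρ, (Real.sqrt S0.t + ‖Dri.et L D y‖) ^ k *
        |rn μ L S1.F y - rn μ L S0.F y| ∂μ := by
    intro k
    have hs0 := Real.sqrt_nonneg S0.t
    refine setIntegral_mono_on (mk k) ?_ hB ?_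
    · refine int_c (μ := μ) hΔa (f := fun y => (Real.sqrt S0.t + ‖Dri.et L D y‖) ^ k)
        ((continuousOn_const.add hetc).pow k) (K := (Real.sqrt S0.t + 1) ^ k) ?_
      intro y hy
      rw [abs_of_nonneg (by positivity)]
      exact pow_le_pow_left₀ (by positivity) (by linarith [hη1 y hy]) k
    · intro y _
      refine mul_le_mul_of_nonneg_right ?_ (abs_nonneg _)
      exact pow_le_pow_left₀ (norm_nonneg _) (by linarith) k
  have hs2 : Real.sqrt S0.t ^ 2 = S0.t := Real.sq_sqrt p0.le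
  have hs4 : Real.sqrt S0.t ^ 4 = S0.t ^ 2 := by
    calc Real.sqrt S0.t ^ 4 = (Real.sqrt S0.t ^ 2) ^ 2 := by ring
      _ = _ := by rw [hs2]
  have hs4' : Real.sqrt S1.t ^ 4 = S1.t ^ 2 := by
    calc Real.sqrt S1.t ^ 4 = (Real.sqrt S1.t ^ 2) ^ 2 := by ring
      _ = _ := by rw [Real.sq_sqrt p1.le]
  rw [hs2] at hI2
  rw [hs4] at hI4
  rw [hs4'] at hJ4
  have hI2' := (mle 2).trans hI2
  have hI4' := (mle 4).trans hI4
  have hJ4' : ∫ y in bal L ρ, ‖Dri.et L D y‖ ^ 4 * rn μ L S1.F y ∂μ ≤ Cm * S1.t ^ 2 := by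
    have h1 : ∫ y in bal L ρ, ‖Dri.et L D y‖ ^ 4 * rn μ L S1.F y ∂μ =
        (∫ y in bal L ρ, ‖Dri.et L D y‖ ^ 4 * res L S1.F y ^ 2 ∂μ) /
          ∫ z, res L S1.F z ^ 2 ∂μ := by
      rw [← integral_div]
      refine integral_congr_ae (Filter.Eventually.of_forall fun y => ?_)
      show _ * (_ / _) = _ * _ / _
      ring
    rw [h1, div_le_iff₀ hV1]
    exact hJ4
  have hσ' : ∫ y in (bal L (ρ / 2) : Set G)ᶜ, rn μ L S0.F y ∂μ ≤ CT * S0.t ^ 3 := by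
    unfold rn
    rw [integral_div, div_le_iff₀ hV0]
    exact hσ
  -- the pointwise bound
  have hpt : ∀ y ∈ (bal L ρ : Set G),
      ‖crd L D X y * crd L D Y y * rn μ L S1.F y / S1.t -
        crd L D X y * crd L D Y y * rn μ L S0.F y / S0.t +
        1 / 2 * (dd L D ρ c' (Xc : Mt m) Y V S1.F y / (∫ z, res L S1.F z ^ 2 ∂μ) -
          dd L D ρ c' (Xc : Mt m) Y V S0.F y / (∫ z, res L S0.F z ^ 2 ∂μ)) -
        1 / 2 * ipr Y X * (cut ρ (dis L y ^ 2) * (rn μ L S1.F y - rn μ L S0.F y)) +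
        1 / 4 * (cut ρ (dis L y ^ 2) * ipr Y (ad ((Dri.et L D y : gC L) : Mt m) X) *
          rn μ L S1.F y - cut ρ (dis L y ^ 2) * ipr Y (ad ((Dri.et L D y : gC L) : Mt m) X) *
          rn μ L S0.F y)‖ ≤
      (x * y0 / S1.t + Kc * k1 * y0) * (fr y * |rn μ L S1.F y - rn μ L S0.F y|) +
        x * y0 * T * (fr y * rn μ L S0.F y) +
        161 * x * y0 * (‖Dri.et L D y‖ ^ 2 * |rn μ L S1.F y - rn μ L S0.F y|) +
        16 * x * y0 * Dd * (‖Dri.et L D y‖ ^ 4 * rn μ L S1.F y) +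
        16 * x * y0 * A * (‖Dri.et L D y‖ ^ 4 * |rn μ L S1.F y - rn μ L S0.F y|) := by
    intro y hy
    have hn1 := hη1 y hy
    have hn0 : 0 ≤ ‖Dri.et L D y‖ := norm_nonneg _
    have hPX := TlM.crd_le (L := L) (D := D) X y
    have hPY := TlM.crd_le (L := L) (D := D) Y y
    rw [← hx] at hPX
    rw [← hy0] at hPY
    obtain ⟨W0, W1, hW0, hWd, hd0, hd1⟩ : ∃ W0 W1 : ℝ,
        |crd L D Y y| * |W0| ≤ y0 * ‖Dri.et L D y‖ * (16 * A * ‖Dri.et L D y‖ ^ 3 * x) ∧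
        |crd L D Y y| * |W1 - W0| ≤ y0 * ‖Dri.et L D y‖ * (16 * Dd * ‖Dri.et L D y‖ ^ 3 * x) ∧
        crd L D Y y * (S0.t * dfy L S0.F (Xc : Mt m) y) =
          crd L D Y y * (res L S0.F y * (-crd L D X y - S0.t * W0)) ∧
        crd L D Y y * (S1.t * dfy L S1.F (Xc : Mt m) y) =
          crd L D Y y * (res L S1.F y * (-crd L D X y - S1.t * W1)) := by
      by_cases h0 : Dri.et L D y = 0
      · have h1 := hPY
        rw [h0, norm_zero, mul_zero] at h1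
        refine ⟨0, 0, ?_, ?_, ?_, ?_⟩
        · rw [abs_zero, mul_zero]; positivity
        · rw [sub_zero, abs_zero, mul_zero]; positivity
        · rw [abs_nonpos_iff.1 h1, zero_mul, zero_mul]
        · rw [abs_nonpos_iff.1 h1, zero_mul, zero_mul]
      · obtain ⟨W0, W1, g1, g2, g3, g4⟩ := dfy_pair P H hXl (hlt y hy) h0
        rw [← hx] at g1 g2
        refine ⟨W0, W1, mul_le_mul hPY g1 (abs_nonneg _) (by positivity),
          mul_le_mul hPY g2 (abs_nonneg _) (by positivity), ?_, ?_⟩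
        · rw [hXc, g3]; rfl
        · rw [hXc, g4]; rfl
    have e0 := d_alg (V := ∫ z, res L S0.F z ^ 2 ∂μ) (c := cut ρ (dis L y ^ 2))
      (c' := c' (dis L y ^ 2)) (q' := -(2 * ipr 1 ((Xc : Mt m) * L.rho y)))
      (SV := ipr Y (V y)) p0.ne' hd0
    have e1 := d_alg (V := ∫ z, res L S1.F z ^ 2 ∂μ) (c := cut ρ (dis L y ^ 2))
      (c' := c' (dis L y ^ 2)) (q' := -(2 * ipr 1 ((Xc : Mt m) * L.rho y)))
      (SV := ipr Y (V y)) p1.ne' hd1
    have e := TlQ.J_alg (n0 := rn μ L S0.F y) (n1 := rn μ L S1.F y) (XY := ipr Y X)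
      (a := ipr Y (ad ((Dri.et L D y : gC L) : Mt m) X))
      (d0 := dd L D ρ c' (Xc : Mt m) Y V S0.F y / (∫ z, res L S0.F z ^ 2 ∂μ))
      (d1 := dd L D ρ c' (Xc : Mt m) Y V S1.F y / (∫ z, res L S1.F z ^ 2 ∂μ)) e0 e1
    rw [Real.norm_eq_abs, e]
    have hSV := SV_bd hx hy0 (n := ‖Dri.et L D y‖) rfl hn1 (hV0x y hy)
    exact J_bd p1 (hn0p y) (hn1p y) hn0 hn1 hx0 hy00 H.tt hA hDd hKc.le hk10
      (cut_nonneg _ _) (cut_le_one _ _) (hfr0 y) (hcf y) (hcf' y) (by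
        rw [abs_neg, abs_mul, abs_two, hXc, hk1]
        have h1 := ipr_abs_le 1 (X * L.rho y)
        rw [norm_mul_rho, ← hx] at h1
        linarith) hPX hPY (by positivity) hSV hW0 hWd
  -- the integral
  have hl5 := lin5 (ν := μ.restrict (bal L ρ)) q1.integrableOn q4.integrableOn (mk 2) (mk1 4)
    (mk 4) (x * y0 / S1.t + Kc * k1 * y0) (x * y0 * T) (161 * x * y0) (16 * x * y0 * Dd)
    (16 * x * y0 * A)
  have hfin := norm_integral_le_of_norm_le hl5.1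
    ((ae_restrict_iff' hB).2 (Filter.Eventually.of_forall hpt))
  have hl7 := lin7 (ν := μ.restrict (bal L ρ)) j1 j0 i1 i0 je.integrableOn k1i k0i S1.t S0.t
    (∫ z, res L S1.F z ^ 2 ∂μ) (∫ z, res L S0.F z ^ 2 ∂μ) (ipr Y X)
  rw [hl7, hl5.2, z0, z1, odd S0 H.c0, odd S1 H.c1, Real.norm_eq_abs, zero_div, zero_div,
    sub_self, mul_zero, mul_zero, add_zero, add_zero] at hfin
  have hτ0 : 0 ≤ ∫ y in (bal L (ρ / 2) : Set G)ᶜ, |rn μ L S1.F y - rn μ L S0.F y| ∂μ :=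
    integral_nonneg fun y => abs_nonneg _
  have hI40 : 0 ≤ ∫ y in bal L ρ, ‖Dri.et L D y‖ ^ 4 * |rn μ L S1.F y - rn μ L S0.F y| ∂μ :=
    integral_nonneg fun y => by positivity
  have har := p2_arith (XY := ipr Y X) (K1 := Kc * k1 * y0) (C3 := 161 * x * y0) p0 a0 p1 h01 h10
    hT hDd hE hA hAK hx0 hy00 (by positivity) (by positivity) hCt.le hCT.le hC2.le hC4.le hCm.le
    hτ0 hI40 hτ hσ' hI2' hI4' hJ4' (by
      rw [hx, hy0, mul_comm]
      exact ipr_abs_le _ _)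
  refine le_trans ?_ har
  have w1 : (x * y0 / S1.t + Kc * k1 * y0) * ∫ y in bal L ρ,
      fr y * |rn μ L S1.F y - rn μ L S0.F y| ∂μ ≤ (x * y0 / S1.t + Kc * k1 * y0) *
      ∫ y in (bal L (ρ / 2) : Set G)ᶜ, |rn μ L S1.F y - rn μ L S0.F y| ∂μ :=
    mul_le_mul_of_nonneg_left q3 (by positivity)
  have w2 : x * y0 * T * ∫ y in bal L ρ, fr y * rn μ L S0.F y ∂μ ≤ x * y0 * T *
      ∫ y in (bal L (ρ / 2) : Set G)ᶜ, rn μ L S0.F y ∂μ :=
    mul_le_mul_of_nonneg_left q6 (by positivity)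
  have w3 : |1 / 2 * ipr Y X *
      ∫ y in bal L ρ, cut ρ (dis L y ^ 2) * (rn μ L S1.F y - rn μ L S0.F y) ∂μ| ≤
      1 / 2 * |ipr Y X| *
      ∫ y in (bal L (ρ / 2) : Set G)ᶜ, |rn μ L S1.F y - rn μ L S0.F y| ∂μ := by
    rw [abs_mul, abs_mul, abs_of_pos (by norm_num : (0 : ℝ) < 1 / 2)]
    exact mul_le_mul_of_nonneg_left hce (by positivity)
  have hfin2 := hfin.trans (add_le_add (add_le_add (add_le_add (add_le_add w1 w2) le_rfl) le_rfl)
    le_rfl)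
  have w4 := abs_le_of_sub_le hfin2 w3
  linarith only [w4]

end

end Pool.Agent.T2H04.HY
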