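import Mathlib
import Pool.Agent.T2H04.HY.TlP2
import Pool.Agent.T2H04.HY.TlP3b

/-!
# Package P3: the pieces of the final sum
-/

open MeasureTheory Matrix Filter
open scoped Matrix.Norms.Frobenius Topology

namespace Pool.Agent.T2H04.HY

set_option linter.unusedSectionVars false

noncomputable section

namespace Tlp

theorem XX_le {r0 T Dd E : ℝ} (hr0 : 0 < r0) (hr01 : r0 ≤ 1 / 2000) (hT : 0 ≤ T) (hD : 0 ≤ Dd) :
    XX r0 T Dd E ≤ T + Dd + E := by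
  unfold XX
  have w0 : r0 ^ 2 ≤ 1 / 2 := by nlinarith
  have w1 : r0 ^ 2 * T ≤ 1 * T := mul_le_mul_of_nonneg_right (by linarith) hT
  have w2 : 3 * r0 ^ 4 * Dd ≤ 1 * Dd := by
    refine mul_le_mul_of_nonneg_right ?_ hD
    have h2 : r0 ^ 4 = r0 ^ 2 * r0 ^ 2 := by ring
    have h3 : 0 ≤ r0 ^ 2 := by positivity
    nlinarith
  linarith

theorem dif_arith {e1 e0 x1 x0 y1 y0 : ℂ} {N t T Dd E X a n2 Cc Cf : ℝ}
    (h1 : e1 - 1 = x1 + y1) (h0 : e0 - 1 = x0 + y0) (ht : 0 < t) (ht1 : t ≤ 1) (hT : 0 ≤ T)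
    (hD : 0 ≤ Dd) (hE : 0 ≤ E) (hn2 : 0 ≤ n2) (hCc : 0 ≤ Cc) (hCf : 0 ≤ Cf)
    (hX : X ≤ T + Dd + E)
    (N1 : ‖x1 - x0 - (N : ℂ)‖ ≤ a * (t ^ 3 * T + t ^ 2 * (Dd + E)))
    (N2 : |N| ≤ n2 * (t * (Cc * t ^ 2 * (T + Dd + E))))
    (N3 : ‖y1 - y0‖ ≤ Cf * t ^ 3 * X) :
    ‖e1 - e0‖ ≤ (a + n2 * Cc + Cf) * (t ^ 3 * T + t ^ 2 * (Dd + E)) := by
  have e : e1 - e0 = (x1 - x0 - (N : ℂ)) + (N : ℂ) + (y1 - y0) := by
    linear_combination h1 - h0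
  rw [e]
  have m1 := norm_add_le ((x1 - x0 - (N : ℂ)) + (N : ℂ)) (y1 - y0)
  have m2 := norm_add_le (x1 - x0 - (N : ℂ)) (N : ℂ)
  have m3 : ‖(N : ℂ)‖ = |N| := by rw [Complex.norm_real, Real.norm_eq_abs]
  rw [m3] at m2
  have o1 : t ^ 3 * (T + Dd + E) ≤ t ^ 3 * T + t ^ 2 * (Dd + E) := by
    have h3 : t ^ 3 ≤ t ^ 2 := by nlinarith [sq_nonneg t]
    have h4 : t ^ 3 * (Dd + E) ≤ t ^ 2 * (Dd + E) :=
      mul_le_mul_of_nonneg_right h3 (by linarith)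
    linarith
  have o2 : n2 * (t * (Cc * t ^ 2 * (T + Dd + E))) ≤
      n2 * Cc * (t ^ 3 * T + t ^ 2 * (Dd + E)) := by
    calc n2 * (t * (Cc * t ^ 2 * (T + Dd + E))) = n2 * Cc * (t ^ 3 * (T + Dd + E)) := by ring
      _ ≤ _ := mul_le_mul_of_nonneg_left o1 (by positivity)
  have o3 : Cf * t ^ 3 * X ≤ Cf * (t ^ 3 * T + t ^ 2 * (Dd + E)) := by
    calc Cf * t ^ 3 * X ≤ Cf * t ^ 3 * (T + Dd + E) := by gcongr
      _ = Cf * (t ^ 3 * (T + Dd + E)) := by ring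
      _ ≤ _ := mul_le_mul_of_nonneg_left o1 hCf
  have := m1.trans (add_le_add (m2.trans (add_le_add N1 (N2.trans o2))) (N3.trans o3))
  refine this.trans (le_of_eq ?_)
  ring

variable {G : Type} [Group G] [TopologicalSpace G] [IsTopologicalGroup G] [CompactSpace G]
  [MeasurableSpace G] [BorelSpace G] {μ : Measure G} [μ.IsHaarMeasure] [IsProbabilityMeasure μ]
  {m : Type} [Fintype m] [DecidableEq m] {L : RD G m}
  {D : LogData m} {εg δ r0 r s b r' : ℝ}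

theorem calE_split {F : Mt m → ℂ} {t A : ℝ} {w : gC L → ℂ}
    (cl : Cls L F t A r (r0 / 4) s b (1 / 10000)) (Z : gC L) (ρ : ℝ) :
    calE μ F t w Z - 1 = (∫ y in bal L ρ, Dri.phi L F t w Z y /
        ((∫ z, res L F z ^ 2 ∂μ : ℝ) : ℂ) ∂μ) +
      ∫ y in (bal L ρ : Set G)ᶜ, Dri.phi L F t w Z y /
        ((∫ z, res L F z ^ 2 ∂μ : ℝ) : ℂ) ∂μ := by
  have v0 := V_pos (μ := μ) cl
  have c0 := Dri.ccv_one_int (μ := μ) cl
  have q0 := Dri.calE_int (μ := μ) cl (w := w) Z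
  rw [c0] at q0
  generalize hV : (∫ z, res L F z ^ 2 ∂μ : ℝ) = V at v0 q0 ⊢
  have hB' : MeasurableSet (bal L ρ : Set G) := (isOpen_bal L ρ).measurableSet
  have i0 : Integrable (fun y => Dri.phi L F t w Z y / (V : ℂ)) μ :=
    (intg μ (Dri.phi_cont cl.diff.continuous _ _ _)).div_const _
  have n0 : (V : ℂ) ≠ 0 := by exact_mod_cast v0.ne'
  rw [integral_add_compl hB' i0, integral_div, ← q0, mul_div_cancel_right₀ _ n0]

theorem ha_all (P : Par L D εg δ r0 r s b r') : ∃ Ca ts : ℝ, 0 ≤ Ca ∧ 0 < ts ∧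
    ∀ (F : Mt m → ℂ) (t A : ℝ), 0 < t → t ≤ ts → 0 ≤ A →
      A * t ≤ 1 / 10 → Cls L F t A r (r0 / 4) s b (1 / 10000) → ∀ ρ ≤ r0 / 20,
      ∀ q : ℝ, 0 ≤ q → Real.sqrt t ≤ 2 * q →
      ∀ k ∈ ({2, 4, 6} : Finset ℕ), ∫ y in bal L ρ,
      (q + ‖Dri.et L D y‖) ^ k * rn μ L F y ∂μ ≤ Ca * q ^ k := by
  obtain ⟨k2, u2, hk2, hu2, K2⟩ := momk (μ := μ) P 2
  obtain ⟨k4, u4, hk4, hu4, K4⟩ := momk (μ := μ) P 4
  obtain ⟨k6, u6, hk6, hu6, K6⟩ := momk (μ := μ) P 6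
  have w2 : 0 ≤ (2 : ℝ) ^ (2 - 1) * (1 + k2 * 2 ^ 2) := by positivity
  have w4 : 0 ≤ (2 : ℝ) ^ (4 - 1) * (1 + k4 * 2 ^ 4) := by positivity
  have w6 : 0 ≤ (2 : ℝ) ^ (6 - 1) * (1 + k6 * 2 ^ 6) := by positivity
  refine ⟨2 ^ (2 - 1) * (1 + k2 * 2 ^ 2) + 2 ^ (4 - 1) * (1 + k4 * 2 ^ 4) +
    2 ^ (6 - 1) * (1 + k6 * 2 ^ 6), min u2 (min u4 u6), by positivity, by positivity, ?_⟩
  intro F t A ht hts hA hAt cl ρ hρ q hq hqt k hk
  simp only [le_min_iff] at hts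
  obtain ⟨t2, t4, t6⟩ := hts
  simp only [Finset.mem_insert, Finset.mem_singleton] at hk
  rcases hk with rfl | rfl | rfl
  · refine (mom_rn (μ := μ) P cl ht hA hAt hρ hk2.le (K2 F t A ht t2 hA hAt cl ρ hρ) hq
      hqt).trans ?_
    exact mul_le_mul_of_nonneg_right (by linarith) (by positivity)
  · refine (mom_rn (μ := μ) P cl ht hA hAt hρ hk4.le (K4 F t A ht t4 hA hAt cl ρ hρ) hq
      hqt).trans ?_
    exact mul_le_mul_of_nonneg_right (by linarith) (by positivity)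
  · refine (mom_rn (μ := μ) P cl ht hA hAt hρ hk6.le (K6 F t A ht t6 hA hAt cl ρ hρ) hq
      hqt).trans ?_
    exact mul_le_mul_of_nonneg_right (by linarith) (by positivity)

theorem hb_all (P : Par L D εg δ r0 r s b r') (K : ℝ) (hK : 0 < K) : ∃ Cb ts : ℝ, 0 ≤ Cb ∧
    0 < ts ∧ ∀ (S0 S1 : St L) (A T Dd E : ℝ),
      PairH L r0 r s b S0 S1 A T Dd E → S0.t ≤ ts → S1.t ≤ ts → XX r0 T Dd E ≤ K →
      ∀ ρ ≤ r0 / 20, ∀ k ∈ ({2, 4, 6} : Finset ℕ), ∫ y in bal L ρ,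
      (Real.sqrt S0.t + ‖Dri.et L D y‖) ^ k * |rn μ L S1.F y - rn μ L S0.F y| ∂μ ≤
        Cb * Real.sqrt S0.t ^ k * (S0.t * T + S0.t ^ 2 * (Dd + E)) := by
  obtain ⟨p2, v2, hp2, hv2, P2⟩ := pmom (μ := μ) P 2 K hK
  obtain ⟨p4, v4, hp4, hv4, P4⟩ := pmom (μ := μ) P 4 K hK
  obtain ⟨p6, v6, hp6, hv6, P6⟩ := pmom (μ := μ) P 6 K hK
  refine ⟨p2 + p4 + p6, min v2 (min v4 v6), by positivity, by positivity, ?_⟩
  intro S0 S1 A T Dd E H hts hts' hX ρ hρ k hk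
  simp only [le_min_iff] at hts hts'
  obtain ⟨t2, t4, t6⟩ := hts
  obtain ⟨s2, s4, s6⟩ := hts'
  have ht := H.p0
  have hT := H.T0
  have hDd := H.D0
  have hE := H.E0
  simp only [Finset.mem_insert, Finset.mem_singleton] at hk
  have hx0 : 0 ≤ S0.t * T + S0.t ^ 2 * (Dd + E) := by positivity
  rcases hk with rfl | rfl | rfl
  · refine (P2 S0 S1 A T Dd E H t2 s2 hX ρ hρ).trans ?_
    exact mul_le_mul_of_nonneg_right (mul_le_mul_of_nonneg_right (by linarith)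
      (by positivity)) hx0
  · refine (P4 S0 S1 A T Dd E H t4 s4 hX ρ hρ).trans ?_
    exact mul_le_mul_of_nonneg_right (mul_le_mul_of_nonneg_right (by linarith)
      (by positivity)) hx0
  · refine (P6 S0 S1 A T Dd E H t6 s6 hX ρ hρ).trans ?_
    exact mul_le_mul_of_nonneg_right (mul_le_mul_of_nonneg_right (by linarith)
      (by positivity)) hx0

theorem quad_all (P : Par L D εg δ r0 r s b r') {n : ℕ} (B : Fin n → Mt m)
    (hB : ∀ a, B a ∈ lieSet L)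
    (orth : ∀ a b, (trace ((B a)ᴴ * B b)).re = if a = b then 1 else 0)
    (full : ∀ Y ∈ lieSet L, Y ∈ Submodule.span ℝ (Set.range B)) {ρ : ℝ}
    (hρ : 0 < ρ) (hρ1 : ρ ≤ r0 / 20) (K : ℝ) (hK : 0 < K) :
    ∃ C ts : ℝ, 0 < C ∧ 0 < ts ∧ ∀ (S0 S1 : St L) (A T Dd E : ℝ),
      PairH L r0 r s b S0 S1 A T Dd E → S0.t ≤ ts → S1.t ≤ ts → XX r0 T Dd E ≤ K → A ≤ K →
      ∀ X : gC L, ‖X‖ ≤ 1 →
      |∫ y in bal L ρ, Nq D (((Real.sqrt S0.t : ℝ) : ℂ) • X) y / 48 *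
        (rn μ L S1.F y / S1.t - rn μ L S0.F y / S0.t) ∂μ| ≤
        n ^ 2 * (S0.t * (C * S0.t ^ 2 * (T + Dd + E))) := by
  obtain ⟨Cc, tc, hCc, htc, hcov⟩ := Tlp.unif (n := n)
    (Φ := fun a b' C ts => ∀ (S0 S1 : St L) (A T Dd E : ℝ),
      PairH L r0 r s b S0 S1 A T Dd E → S0.t ≤ ts → S1.t ≤ ts → XX r0 T Dd E ≤ K → A ≤ K →
        |(∫ y in bal L ρ, crd L D (B a) y * crd L D (B b') y * rn μ L S1.F y ∂μ) / S1.t -
          (∫ y in bal L ρ, crd L D (B a) y * crd L D (B b') y * rn μ L S0.F y ∂μ) / S0.t| ≤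
          C * S0.t ^ 2 * (T + Dd + E))
    (fun a b' => pcov (μ := μ) P hρ hρ1 (hB a) (hB b') K hK)
    (fun a b' C C' ts ts' hC ht h S0 S1 A T Dd E H h0 h1 hX hA =>
      (h S0 S1 A T Dd E H (h0.trans ht) (h1.trans ht) hX hA).trans (by
        have := H.T0
        have := H.D0
        have := H.E0
        gcongr))
  exact ⟨Cc, tc, hCc, htc, fun S0 S1 A T Dd E H h0 h1 hX hA X hX1 =>
    quad P H orth full hρ1 (fun a b' => hcov a b' S0 S1 A T Dd E H h0 h1 hX hA) hX1⟩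

end Tlp

end

end Pool.Agent.T2H04.HY
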