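import Mathlib
import Pool.Agent.T2H04.HY.Pd6
import Pool.Agent.T2H04.HY.TlA
import Pool.Agent.T2H04.HY.TlP3d
import Pool.Agent.T2H04.HY.TlP3e
import Pool.Agent.T2H04.HY.TlP3f

/-!
# Difference of the logarithms of the normalised convolutions (package P3)

`t = S0.t`, `Z = √t X`, `‖X‖ ≤ 1`. `calE_i Z = ∫ Ig_i(Z, y) dy / ∫ Ig_i(0, y) dy`, and on `bal ρ`
(`ρ` small) `Ig_i(Z, y) / ∫ Ig_i(0, ·) = exp (u_i) rn_i y` with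
`u_i = -(sdfQ(Z, η) / (2 t_i) + sdf w_i(Z, η))` (`Ig_eq` in `Pd2.lean`; compare `TlDb.lean`, `TlDc.lean`).
Sizes (`sdf_Q_le`, `sdf_w_le`, `sdf_v_le` for `w_1 - w_0`, `A ≤ K`):
`‖u_i‖ ≤ C ‖η‖²`, `‖u_1 - u_0‖ ≤ C t ‖η‖² (T + Dd)`.
* `∫_{bal ρ} (rn_1 - rn_0) = -∫_{far} (rn_1 - rn_0) = O(t³ (T+Dd+E))` (`ptail`; `∫ rn_i = 1`).
* linear term: `sdfQ(Z, η) = -1/24 ‖[Z, η]‖² + O((√t + ‖η‖)⁶)` (`sdf_Q6` and the bound of the sixth order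
  terms of `T6`); `∫ ‖[Z,η]‖² rn_i / t_i = ∑_{ab} ⟨[Z,E_a],[Z,E_b]⟩ (∫ e_a e_b rn_i) / t_i`
  (`η = ∑ e_a E_a`, compare `TlC.lean`/`TlDc.lean`), so the difference is `O(t · t² (T+Dd+E))` by `pcov`.
  Error terms: `(1/t_1 - 1/t_0) ∫ O((√t+‖η‖)⁶) rn_1 = O(T t³)` (`momk`),
  `1/t_0 ∫ O((√t+‖η‖)⁶) |rn_1 - rn_0| = O(t² (t T + t² (Dd+E)))` (`pmom`, `k = 6`).
  `∫ (sdf w_1 - sdf w_0) rn_1 = O(Dd t²)`, `∫ ‖sdf w_0‖ |rn_1 - rn_0| = O(A t · t (t T + t² (Dd+E)))`.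
* `‖exp u - 1 - u‖ ≤ ‖u‖²` for `‖u‖ ≤ 1`: `∫ ‖exp u_0 - 1 - u_0‖ |rn_1 - rn_0| = O(t² (t T + t² (Dd+E)))`,
  `‖(exp u_1 - 1 - u_1) - (exp u_0 - 1 - u_0)‖ ≤ C ‖u_1 - u_0‖ (‖u_0‖ + ‖u_1‖) ≤ C t (T+Dd) ‖η‖⁴`,
  integral `O(t³ (T + Dd))`.
* far part `dis y ≥ ρ`: `‖Ig_1(Z,y) - Ig_0(Z,y)‖ ≤ C XX exp (-c/t)` (`inner_diff` for
  `ρ ≤ dis y < r0/20`, `outer_diff` for `dis y ≥ r0/20`), `‖Ig_i(Z,y)‖ ≤ exp (-c/t)`,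
  `∫ Ig_i(0,·) ≥ μ(bal √t)/C`, `|∫ Ig_1(0,·) - ∫ Ig_0(0,·)| ≤ C t XX μ(bal √t)` (see the proof of
  `calE_lip` in `Pd4.lean`): altogether `O(t³ (T + Dd + E))`.
Finally `log_lip` (`Pd6.lean`) and `calE_le`.
-/

open MeasureTheory Matrix Filter
open scoped Matrix.Norms.Frobenius Topology

namespace Pool.Agent.T2H04.HY

set_option linter.unusedSectionVars false

noncomputable section

variable {G : Type} [Group G] [TopologicalSpace G] [IsTopologicalGroup G] [CompactSpace G]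
  [MeasurableSpace G] [BorelSpace G] {μ : Measure G} [μ.IsHaarMeasure] [IsProbabilityMeasure μ]
  {m : Type} [Fintype m] [DecidableEq m] {L : RD G m}

/-- the difference of the normalised convolutions -/
theorem Tlp.dif {D : LogData m} {εg δ r0 r s b r' : ℝ} (P : Par L D εg δ r0 r s b r') {Cm : ℝ}
    (hCm : ∀ t : ℝ, 0 < t → ∫ y, (1 + dis L y ^ 2 / t + (dis L y ^ 2 / t) ^ 2) *
      Real.exp (-(1 / 2 * dis L y ^ 2 / t)) ∂μ ≤ Cm * μ.real (bal L (Real.sqrt t)))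
    (hCm0 : 0 ≤ Cm) (hR : 32 * (192 / δ ^ 2 + 7400) * Cm * r0 ^ 2 ≤ 1)
    {n : ℕ} (B : Fin n → Mt m) (hB : ∀ a, B a ∈ lieSet L)
    (orth : ∀ a b, (trace ((B a)ᴴ * B b)).re = if a = b then 1 else 0)
    (full : ∀ Y ∈ lieSet L, Y ∈ Submodule.span ℝ (Set.range B)) (K : ℝ) (hK : 0 < K) :
    ∃ C ts : ℝ, 0 ≤ C ∧ 0 < ts ∧ ∀ (S0 S1 : St L) (A T Dd E : ℝ),
      PairH L r0 r s b S0 S1 A T Dd E → S0.t ≤ ts → S1.t ≤ ts → XX r0 T Dd E ≤ K → A ≤ K →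
      ∀ X : gC L, (X : Mt m) ∈ lieSet L → ‖X‖ ≤ 1 →
        ‖calE μ S1.F S1.t S1.w (((Real.sqrt S0.t : ℝ) : ℂ) • X) -
          calE μ S0.F S0.t S0.w (((Real.sqrt S0.t : ℝ) : ℂ) • X)‖ ≤
          C * (S0.t ^ 3 * T + S0.t ^ 2 * (Dd + E)) := by
  have hr0 := P.r0_pos
  have hr01 := P.r0_le
  have hδ := P.r0_δ
  have hδ0 : 0 < δ := by linarith
  obtain ⟨C6, δ6, hC6, hδ6, h6⟩ := sdf_Q6 P.ch
  obtain ⟨ρ, hρ, hρ1, hρ6⟩ : ∃ ρ : ℝ, 0 < ρ ∧ ρ ≤ r0 / 20 ∧ 2 * ρ ≤ δ6 := by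
    refine ⟨min (r0 / 20) (δ6 / 2), by positivity, min_le_left _ _, ?_⟩
    have := min_le_right (r0 / 20) (δ6 / 2)
    linarith
  obtain ⟨Ca, ta, hCa, hta, Ha⟩ := Tlp.ha_all (μ := μ) P
  obtain ⟨Cb, tb, hCb, htb, Hb⟩ := Tlp.hb_all (μ := μ) P K hK
  obtain ⟨Cc, tc, hCc, htc, Hc⟩ := Tlp.quad_all (μ := μ) P B hB orth full hρ hρ1 K hK
  obtain ⟨tp, htp, hpt⟩ := pair_t (L := L) (r := r) (s := s) (b := b) hr0 K hK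
  obtain ⟨Cf, tf, hCf, htf, hfar⟩ := Tlp.farp (μ := μ) P hCm hCm0 hR hρ hρ1 K hK
  have hCn : 0 ≤ Tlp.Cnr C6 δ K := Tlp.Cnr_nonneg hC6.le hδ0 hK.le
  obtain ⟨tz, htz, hz1, hz2, hz3⟩ : ∃ tz : ℝ, 0 < tz ∧ tz ≤ (r0 / 40) ^ 2 ∧ tz ≤ δ6 ^ 2 ∧
      tz ≤ 1 / 4 :=
    ⟨min ((r0 / 40) ^ 2) (min (δ6 ^ 2) (1 / 4)), by positivity, min_le_left _ _,
      (min_le_right _ _).trans (min_le_left _ _), (min_le_right _ _).trans (min_le_right _ _)⟩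
  refine ⟨Tlp.Cnr C6 δ K * (3 * (Ca + Cb)) + n ^ 2 * Cc + Cf,
    min (min (min ta tb) (min tc tp)) (min tf tz), by positivity, by positivity, ?_⟩
  intro S0 S1 A T Dd E H hts hts' hX hAK X hXl hX1
  simp only [le_min_iff] at hts hts'
  obtain ⟨⟨⟨-, b2⟩, bc, bp⟩, bf, bz⟩ := hts
  obtain ⟨⟨⟨d1, d2⟩, dc, -⟩, df, -⟩ := hts'
  have ht := H.p0
  have hq0 := Real.sqrt_nonneg S0.t
  have hq2 : Real.sqrt S0.t ^ 2 = S0.t := Real.sq_sqrt ht.le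
  have hqr : Real.sqrt S0.t ≤ r0 / 40 :=
    (Real.sqrt_le_left (by positivity)).2 (bz.trans hz1)
  have hqd : Real.sqrt S0.t ≤ δ6 := (Real.sqrt_le_left (by positivity)).2 (bz.trans hz2)
  have hq12 : Real.sqrt S0.t ≤ 1 / 2 := by
    rw [Real.sqrt_le_left (by norm_num)]
    norm_num
    linarith
  have ht01 : S0.t ≤ 1 := by linarith
  obtain ⟨g1, g2, -⟩ := hpt S0 S1 A T Dd E H bp hX
  have hq1 : Real.sqrt S1.t ≤ 2 * Real.sqrt S0.t := by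
    rw [Real.sqrt_le_left (by positivity), mul_pow, hq2]
    linarith
  have hZn : ‖((Real.sqrt S0.t : ℝ) : ℂ) • X‖ = Real.sqrt S0.t * ‖X‖ :=
    TlD.norm_sqrt_smul S0.t X
  have hX0 := norm_nonneg X
  have hZq : ‖((Real.sqrt S0.t : ℝ) : ℂ) • X‖ ≤ Real.sqrt S0.t := by rw [hZn]; nlinarith
  have N1 := Tlp.near (μ := μ) P H hC6 h6 hAK g2 hXl hX1 hq12 (by linarith) hqd hρ1 hρ6 rfl
    hCa hCb (Ha S1.F S1.t A H.p1 d1 H.A0 H.At1 H.c1 ρ hρ1 _ hq0 hq1)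
    (Hb S0 S1 A T Dd E H b2 d2 hX ρ hρ1)
  exact Tlp.dif_arith (Tlp.calE_split H.c1 _ ρ) (Tlp.calE_split H.c0 _ ρ) ht ht01 H.T0 H.D0 H.E0
    (by positivity) hCc.le hCf.le (Tlp.XX_le hr0 hr01 H.T0 H.D0) N1
    (Hc S0 S1 A T Dd E H bc dc hX hAK X hX1) (hfar S0 S1 A T Dd E H bf df hX _ hZq)

theorem pexpn {D : LogData m} {εg δ r0 r s b r' : ℝ} (P : Par L D εg δ r0 r s b r') {Cm : ℝ}
    (hCm : ∀ t : ℝ, 0 < t → ∫ y, (1 + dis L y ^ 2 / t + (dis L y ^ 2 / t) ^ 2) *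
      Real.exp (-(1 / 2 * dis L y ^ 2 / t)) ∂μ ≤ Cm * μ.real (bal L (Real.sqrt t)))
    (hCm0 : 0 ≤ Cm) (hR : 32 * (192 / δ ^ 2 + 7400) * Cm * r0 ^ 2 ≤ 1)
    {n : ℕ} (B : Fin n → Mt m) (hB : ∀ a, B a ∈ lieSet L)
    (orth : ∀ a b, (trace ((B a)ᴴ * B b)).re = if a = b then 1 else 0)
    (full : ∀ Y ∈ lieSet L, Y ∈ Submodule.span ℝ (Set.range B)) (K : ℝ) (hK : 0 < K) :
    ∃ C ts : ℝ, 0 < C ∧ 0 < ts ∧ ∀ (S0 S1 : St L) (A T Dd E : ℝ),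
      PairH L r0 r s b S0 S1 A T Dd E → S0.t ≤ ts → S1.t ≤ ts → XX r0 T Dd E ≤ K → A ≤ K →
      ∀ X : gC L, (X : Mt m) ∈ lieSet L → ‖X‖ ≤ 1 →
        ‖Complex.log (calE μ S1.F S1.t S1.w (((Real.sqrt S0.t : ℝ) : ℂ) • X)) -
          Complex.log (calE μ S0.F S0.t S0.w (((Real.sqrt S0.t : ℝ) : ℂ) • X))‖ ≤
          C * (S0.t ^ 3 * T + S0.t ^ 2 * (Dd + E)) := by
  have hr0 := P.r0_pos
  have hrl' := P.r'_lo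
  obtain ⟨C, td, hC, htd, Hd⟩ := Tlp.dif (μ := μ) P hCm hCm0 hR B hB orth full K hK
  obtain ⟨tt, htt, hTC⟩ := exists_TC μ L r0 hr0
  refine ⟨2 * C + 1, min td (min tt ((r0 / 40) ^ 2)), by positivity, by positivity, ?_⟩
  intro S0 S1 A T Dd E H hts hts' hX hAK X hXl hX1
  simp only [le_min_iff] at hts hts'
  obtain ⟨bd, bt, br⟩ := hts
  obtain ⟨dd, dt, -⟩ := hts'
  have ht := H.p0
  have hT := H.T0
  have hDd := H.D0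
  have hE := H.E0
  have hq0 := Real.sqrt_nonneg S0.t
  have hqr : Real.sqrt S0.t ≤ r0 / 40 := (Real.sqrt_le_left (by positivity)).2 br
  have hZn : ‖((Real.sqrt S0.t : ℝ) : ℂ) • X‖ = Real.sqrt S0.t * ‖X‖ :=
    TlD.norm_sqrt_smul S0.t X
  have hX0 := norm_nonneg X
  have hZdom : ((Real.sqrt S0.t : ℝ) : ℂ) • X ∈ dom L r' (r0 / 4) := by
    refine ball_sub_dom (ρ := r0 / 4) (by linarith) le_rfl ?_
    rw [mem_ball_zero_iff, hZn]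
    nlinarith
  have z0 := calE_le P hCm hCm0 hR H.c0 H.s0 (hTC S0.t ht bt) H.A0 H.At0 _ hZdom
  have z1 := calE_le P hCm hCm0 hR H.c1 H.s1 (hTC S1.t H.p1 dt) H.A0 H.At1 _ hZdom
  have hdif := Hd S0 S1 A T Dd E H bd dd hX hAK X hXl hX1
  refine (log_lip z0 z1).trans ?_
  have hx0 : 0 ≤ S0.t ^ 3 * T + S0.t ^ 2 * (Dd + E) := by positivity
  calc _ ≤ 2 * (C * (S0.t ^ 3 * T + S0.t ^ 2 * (Dd + E))) :=
        mul_le_mul_of_nonneg_left hdif (by norm_num)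
    _ ≤ _ := by linarith

end

end Pool.Agent.T2H04.HY
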