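import Mathlib
import Pool.Agent.T2H04.HY.TlP3
import Pool.Agent.T2H04.HY.Pd7

/-!
# The improved step for pairs of states (package P4)

`aCo_pair`: `f Z = log calE_1 Z - log calE_0 Z` is even and holomorphic on the domain, `‖f‖ ≤ 2 C1 t XX`
(`calE_lip`), and `schwarz_dom` gives `‖f Z - (a_1 - a_0) Qf Z‖ ≤ 512 / r0⁴ · 2 C1 t XX ‖Z‖⁴` (see the
proof of `conv_pair` in `Pd6.lean`). Put `Z = √t X`, `X ∈ lieSet L`, `‖X‖ = 1` (`exists_Qf_pos`, scaled;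
`Qf X = 1`): `t |a_1 - a_0| ≤ C (t³ T + t² (Dd + E)) + C t · XX · t²` by `pexpn`.

`stp_pair2`: as `stp_pair` in `Pd7.lean`: the difference of the inverse couplings changes by
`-4 (a_1 - a_0) - 8 (a'_1 - a'_0)`, `a'_i` the coefficient for `cS S_i`, and for the pair
`(cS S0, cS S1)`: `T' ≤ T/2 + 2 |a_1 - a_0|`, `Dd' = X/8 + C t XX`, `E' = C t XX` (`conv_pair`), `A' =
A/8 + 512/r0⁴ ≤ K'`; `t'² T' + t' (Dd' + E') ≤ C (t² T + t X)` (here `T = |1/S1.t - 1/S0.t|`,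
`XX ≤ 2 (T + X)`).
-/

open MeasureTheory Matrix Filter
open scoped Matrix.Norms.Frobenius Topology

namespace Pool.Agent.T2H04.HY

set_option linter.unusedSectionVars false

noncomputable section

variable {G : Type} [Group G] [TopologicalSpace G] [IsTopologicalGroup G] [CompactSpace G]
  [MeasurableSpace G] [BorelSpace G] {μ : Measure G} [μ.IsHaarMeasure] [IsProbabilityMeasure μ]
  {m : Type} [Fintype m] [DecidableEq m] {L : RD G m}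

/-- scaled unit vector of the Lie algebra -/
theorem exists_unit (hs : Simple L) : ∃ X : gC L, (X : Mt m) ∈ lieSet L ∧ ‖X‖ = 1 ∧
    Qf (X : Mt m) = 1 := by
  obtain ⟨X, hX, Y, -, hXY⟩ := hs.nonab
  have hX0 : X ≠ 0 := by
    rintro rfl
    simp at hXY
  have hX' := lie_smul (L := L) (‖X‖⁻¹) hX
  obtain ⟨Z, hZ⟩ : ∃ Z : gC L, (Z : Mt m) = ‖X‖⁻¹ • X := ⟨⟨_, gC_of_lie L hX'⟩, rfl⟩
  have h1 : ‖Z‖ = 1 := by
    show ‖(Z : Mt m)‖ = 1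
    rw [hZ, norm_smul, norm_inv, norm_norm, inv_mul_cancel₀ (norm_ne_zero_iff.2 hX0)]
  have h3 : imP (Z : Mt m) = 0 := by rw [hZ]; exact imP_of_skew (lie_skew L hX')
  have h4 : Qf (Z : Mt m) = (((Qf (Z : Mt m)).re : ℝ) : ℂ) :=
    Complex.ext (by simp) (by rw [Complex.ofReal_im]; exact Qf_im_of_real h3)
  have h5 : (Qf (Z : Mt m)).re = 1 := by
    have e : (Qf (Z : Mt m)).re = ‖Z‖ ^ 2 := by
      rw [Qf_re, h3, norm_zero, norm_sq_gC Z, h3, norm_zero]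
      ring
    rw [e, h1, one_pow]
  exact ⟨Z, by rw [hZ]; exact hX', h1, by rw [h4, h5, Complex.ofReal_one]⟩

theorem aCo_pair (hs : Simple L) {D : LogData m} {εg δ r0 r s b r' : ℝ}
    (P : Par L D εg δ r0 r s b r') {Cm : ℝ}
    (hCm : ∀ t : ℝ, 0 < t → ∫ y, (1 + dis L y ^ 2 / t + (dis L y ^ 2 / t) ^ 2) *
      Real.exp (-(1 / 2 * dis L y ^ 2 / t)) ∂μ ≤ Cm * μ.real (bal L (Real.sqrt t)))
    (hCm0 : 0 ≤ Cm) (hR : 32 * (192 / δ ^ 2 + 7400) * Cm * r0 ^ 2 ≤ 1)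
    {n : ℕ} (B : Fin n → Mt m) (hB : ∀ a, B a ∈ lieSet L)
    (orth : ∀ a b, (trace ((B a)ᴴ * B b)).re = if a = b then 1 else 0)
    (full : ∀ Y ∈ lieSet L, Y ∈ Submodule.span ℝ (Set.range B))
    {s' b' : ℝ} (hs'0 : 0 ≤ s') (hb'0 : 0 ≤ b') (h4 : b' + r0 ^ 2 / 100 ≤ 2 * b)
    (h5 : b' + r0 ^ 2 / 100 ≤ (1 - 1 / 10000) * s' ^ 2) (h6 : b' ≤ 2 * r0 ^ 2)
    (K : ℝ) (hK : 0 < K) :
    ∃ C ts : ℝ, 0 < C ∧ 0 < ts ∧ ∀ (S0 S1 : St L) (A T Dd E : ℝ),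
      PairH L r0 r s b S0 S1 A T Dd E → S0.t ≤ ts → S1.t ≤ ts → XX r0 T Dd E ≤ K → A ≤ K →
      |aCo μ S1 - aCo μ S0| ≤ C * (S0.t ^ 2 * T + S0.t * (Dd + E)) := by
  have hr0 := P.r0_pos
  have hr01 := P.r0_le
  have hrl := P.r_lo
  have hrh := P.r_hi
  have hrl' := P.r'_lo
  have hrh' := P.r'_hi
  have hr2 : r' / 2 ≤ r := by linarith
  have hr'0 : 0 < r' := by linarith
  obtain ⟨C1, ts1, hC1, hts1, H1⟩ := calE_lip μ P hCm hCm0 hR K hK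
  obtain ⟨C2, ts2, hC2, hts2, H2⟩ := pexpn P hCm hCm0 hR B hB orth full K hK
  obtain ⟨ts0, hts0, TCs⟩ := exists_TC μ L r0 hr0
  obtain ⟨V, hVl, hV1, hVQ⟩ := exists_unit hs
  refine ⟨C2 + 512 / r0 ^ 4 * (2 * C1), min (min ts1 ts0) (min ts2 (min (r0 ^ 2 / 1000) 1)),
    by positivity, by positivity, fun S0 S1 A T Dd E H ht0 ht1 hX hA => ?_⟩
  have a1 : S0.t ≤ ts1 := ht0.trans ((min_le_left _ _).trans (min_le_left _ _))
  have a2 : S1.t ≤ ts1 := ht1.trans ((min_le_left _ _).trans (min_le_left _ _))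
  have a3 : S0.t ≤ ts0 := ht0.trans ((min_le_left _ _).trans (min_le_right _ _))
  have a4 : S1.t ≤ ts0 := ht1.trans ((min_le_left _ _).trans (min_le_right _ _))
  have a5 : S0.t ≤ ts2 := ht0.trans ((min_le_right _ _).trans (min_le_left _ _))
  have a6 : S1.t ≤ ts2 := ht1.trans ((min_le_right _ _).trans (min_le_left _ _))
  have a7 : S0.t ≤ r0 ^ 2 / 1000 :=
    ht0.trans ((min_le_right _ _).trans ((min_le_right _ _).trans (min_le_left _ _)))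
  have a8 : S0.t ≤ 1 :=
    ht0.trans ((min_le_right _ _).trans ((min_le_right _ _).trans (min_le_right _ _)))
  have hp0 := H.p0
  have hp1 := H.p1
  have hT0 := H.T0
  have hD0 := H.D0
  have hE0' := H.E0
  have hXX : XX r0 T Dd E ≤ T + Dd + E := by
    have h2 : r0 ^ 2 ≤ 1 := by nlinarith
    have h3 : 3 * r0 ^ 4 ≤ 1 := by
      have e : r0 ^ 4 = r0 ^ 2 * r0 ^ 2 := by ring
      have h5 : r0 ^ 2 ≤ 1 / 4000000 := by nlinarith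
      rw [e]
      nlinarith [sq_nonneg r0]
    unfold XX
    nlinarith [mul_le_mul_of_nonneg_right h2 hT0, mul_le_mul_of_nonneg_right h3 hD0]
  set X := XX r0 T Dd E with hXd
  have hX0 : 0 ≤ X := by
    rw [hXd]
    unfold XX
    positivity
  have T0 := TCs S0.t hp0 a3
  have T1 := TCs S1.t hp1 a4
  obtain ⟨E1, E2⟩ := H1 S0 S1 A T Dd E H a1 a2 hX
  obtain ⟨b1, b2, b3, b4⟩ := cS_spec hs P hCm hCm0 hR H.c0 H.s0 T0 H.A0 H.At0 hs'0 hb'0 h4 h5 h6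
  obtain ⟨d1, d2, d3, d4⟩ := cS_spec hs P hCm hCm0 hR H.c1 H.s1 T1 H.A0 H.At1 hs'0 hb'0 h4 h5 h6
  have hE0 := fun Z hZ => calE_le P hCm hCm0 hR H.c0 H.s0 T0 H.A0 H.At0 Z hZ
  have hE1 := fun Z hZ => calE_le P hCm hCm0 hR H.c1 H.s1 T1 H.A0 H.At1 Z hZ
  set M : ℝ := 2 * (C1 * S0.t * X) with hM
  have hsch := schwarz_dom hs (r' := r') (M := M) (a := aCo μ S1 - aCo μ S0) hr0 hrl'
    (f := fun Z => Complex.log (calE μ S1.F S1.t S1.w Z) - Complex.log (calE μ S0.F S0.t S0.w Z))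
    (((calE_diff H.c1 H.s1 hr2 hr0).clog fun Z hZ => slit_of_near (hE1 Z hZ)).sub
      ((calE_diff H.c0 H.s0 hr2 hr0).clog fun Z hZ => slit_of_near (hE0 Z hZ)))
    (fun Z hZ => (log_lip (hE0 Z hZ) (hE1 Z hZ)).trans
      (mul_le_mul_of_nonneg_left (E1 Z hZ) (by norm_num)))
    (by rw [calE_zero H.c1 H.s1 hr2 hr0 hr'0, calE_zero H.c0 H.s0 hr2 hr0 hr'0, sub_self])
    (fun Z hZ => by rw [calE_neg H.c1 H.s1 hr2 hr0 hZ, calE_neg H.c0 H.s0 hr2 hr0 hZ])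
    (fun Z => by
      have h := (d2 Z).sub (b2 Z)
      rw [← sub_mul] at h
      push_cast
      refine h.congr fun s => ?_
      rw [sub_div])
  obtain ⟨k1, k2⟩ := hsch
  have hst : Real.sqrt S0.t < r0 / 20 := by
    rw [Real.sqrt_lt' (by positivity)]
    have h2 : 0 < r0 ^ 2 := by positivity
    nlinarith
  have hst0 : 0 ≤ Real.sqrt S0.t := Real.sqrt_nonneg _
  obtain ⟨Z, hZ⟩ : ∃ Z : gC L, Z = ((Real.sqrt S0.t : ℝ) : ℂ) • V := ⟨_, rfl⟩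
  have hZn : ‖Z‖ = Real.sqrt S0.t := by
    rw [hZ, norm_smul, hV1, mul_one, Complex.norm_real, Real.norm_eq_abs, abs_of_nonneg hst0]
  have hZd : Z ∈ dom L r' (r0 / 4) := by
    refine ball_sub_dom (ρ := r0 / 4) (by linarith) le_rfl ?_
    rw [mem_ball_zero_iff, hZn]
    linarith
  have hZQ : Qf (Z : Mt m) = ((S0.t : ℝ) : ℂ) := by
    have e1 : (Z : Mt m) = ((Real.sqrt S0.t : ℝ) : ℂ) • (V : Mt m) := by rw [hZ]; rfl
    have e2 : Qf (((Real.sqrt S0.t : ℝ) : ℂ) • (V : Mt m)) =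
        ((Real.sqrt S0.t : ℝ) : ℂ) ^ 2 * Qf (V : Mt m) := coef_Qf_smul _ _
    rw [e1, e2, hVQ, mul_one, ← Complex.ofReal_pow, Real.sq_sqrt hp0.le]
  have m1 := H2 S0 S1 A T Dd E H a5 a6 hX hA V hVl hV1.le
  rw [← hZ] at m1
  have m2 := k2 Z hZd
  rw [hZn, hZQ] at m2
  have e4 : Real.sqrt S0.t ^ 4 = S0.t ^ 2 := by
    have : Real.sqrt S0.t ^ 4 = (Real.sqrt S0.t ^ 2) ^ 2 := by ring
    rw [this, Real.sq_sqrt hp0.le]
  rw [e4] at m2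
  obtain ⟨u, hu⟩ : ∃ u : ℂ, u = Complex.log (calE μ S1.F S1.t S1.w Z) -
    Complex.log (calE μ S0.F S0.t S0.w Z) := ⟨_, rfl⟩
  have m2' : ‖u - ((aCo μ S1 - aCo μ S0 : ℝ) : ℂ) * ((S0.t : ℝ) : ℂ)‖ ≤
      512 / r0 ^ 4 * M * S0.t ^ 2 := by rw [hu]; exact m2
  rw [← hu] at m1
  have m3 : |aCo μ S1 - aCo μ S0| * S0.t ≤ ‖u‖ +
      ‖u - ((aCo μ S1 - aCo μ S0 : ℝ) : ℂ) * ((S0.t : ℝ) : ℂ)‖ := by
    have e5 : ‖((aCo μ S1 - aCo μ S0 : ℝ) : ℂ) * ((S0.t : ℝ) : ℂ)‖ =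
        |aCo μ S1 - aCo μ S0| * S0.t := by
      rw [norm_mul, Complex.norm_real, Complex.norm_real, Real.norm_eq_abs, Real.norm_eq_abs,
        abs_of_pos hp0]
    rw [← e5]
    have := norm_sub_le u (u - ((aCo μ S1 - aCo μ S0 : ℝ) : ℂ) * ((S0.t : ℝ) : ℂ))
    rwa [sub_sub_cancel] at this
  have m4 : |aCo μ S1 - aCo μ S0| * S0.t ≤
      (C2 + 512 / r0 ^ 4 * (2 * C1)) * (S0.t ^ 2 * T + S0.t * (Dd + E)) * S0.t := by
    have f1 : 512 / r0 ^ 4 * M * S0.t ^ 2 = 512 / r0 ^ 4 * (2 * C1) * (S0.t ^ 3 * X) := by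
      rw [hM]; ring
    have f2 : S0.t ^ 3 * X ≤ S0.t ^ 3 * T + S0.t ^ 2 * (Dd + E) := by
      have g1 : S0.t ^ 3 * X ≤ S0.t ^ 3 * (T + Dd + E) :=
        mul_le_mul_of_nonneg_left hXX (by positivity)
      have g2 : S0.t ^ 3 * (Dd + E) ≤ S0.t ^ 2 * (Dd + E) := by
        refine mul_le_mul_of_nonneg_right ?_ (by positivity)
        have : S0.t ^ 3 = S0.t ^ 2 * S0.t := by ring
        rw [this]
        exact mul_le_of_le_one_right (by positivity) a8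
      nlinarith
    have f3 : 512 / r0 ^ 4 * (2 * C1) * (S0.t ^ 3 * X) ≤
        512 / r0 ^ 4 * (2 * C1) * (S0.t ^ 3 * T + S0.t ^ 2 * (Dd + E)) :=
      mul_le_mul_of_nonneg_left f2 (by positivity)
    have f4 : (C2 + 512 / r0 ^ 4 * (2 * C1)) * (S0.t ^ 2 * T + S0.t * (Dd + E)) * S0.t =
        C2 * (S0.t ^ 3 * T + S0.t ^ 2 * (Dd + E)) +
          512 / r0 ^ 4 * (2 * C1) * (S0.t ^ 3 * T + S0.t ^ 2 * (Dd + E)) := by ring
    rw [f4]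
    linarith
  exact le_of_mul_le_mul_right m4 hp0

/-- the arithmetic of the improved pair step -/
theorem pair_arith2 {dl X t0 t1 C1 C2 C3 X1 T2 x y : ℝ} (hdl : 0 ≤ dl) (hX : 0 ≤ X)
    (ht0 : 0 < t0) (ht01 : t0 ≤ 1) (ht1 : 0 < t1) (ht : t1 ≤ 21 / 10 * t0) (hC1 : 0 < C1)
    (hC2 : 0 ≤ C2) (hC3 : 0 ≤ C3) (hts : C1 * t0 ≤ 1 / 8) (hX1 : 0 ≤ X1)
    (hX1' : X1 ≤ 2 * (dl + X)) (hT2 : T2 = dl / 2 + 2 * (C1 * t0 * X1))
    (hx : x ≤ C2 * (t0 ^ 2 * dl + t0 * (X + X)))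
    (hy : y ≤ C3 * (t1 ^ 2 * T2 + t1 * (X / 8 + C1 * t0 * X1 + C1 * t0 * X1))) :
    4 * x + 8 * y ≤ (8 * C2 + 8 * C3 * (5 + 9 * C1)) * (t0 ^ 2 * dl + t0 * X) := by
  have hT20 : 0 ≤ T2 := by rw [hT2]; positivity
  have b0 : 0 ≤ t0 ^ 2 * dl := by positivity
  have b1 : 0 ≤ t0 * X := by positivity
  have b2 : t0 ^ 2 * X ≤ t0 * X := by
    refine mul_le_mul_of_nonneg_right ?_ hX
    rw [sq]
    exact mul_le_of_le_one_right ht0.le ht01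
  have c1 : C1 * t0 * X1 ≤ C1 * t0 * (2 * (dl + X)) := mul_le_mul_of_nonneg_left hX1' (by positivity)
  have c2 : C1 * t0 * (2 * (dl + X)) ≤ 1 / 8 * (2 * (dl + X)) :=
    mul_le_mul_of_nonneg_right hts (by positivity)
  have c3 : T2 ≤ dl + X / 2 := by rw [hT2]; linarith
  have d1 : t1 ^ 2 ≤ 5 * t0 ^ 2 := by
    have := pow_le_pow_left₀ ht1.le ht 2
    nlinarith [sq_nonneg t0]
  have d2 : t1 ^ 2 * T2 ≤ 5 * t0 ^ 2 * (dl + X / 2) := mul_le_mul d1 c3 hT20 (by positivity)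
  have d3 : t1 * (X / 8 + C1 * t0 * X1 + C1 * t0 * X1) ≤
      21 / 10 * t0 * (X / 8 + 2 * (C1 * t0 * (2 * (dl + X)))) :=
    mul_le_mul ht (by linarith) (by positivity) (by positivity)
  have d4 : 21 / 10 * t0 * (X / 8 + 2 * (C1 * t0 * (2 * (dl + X)))) ≤
      21 / 10 * (t0 * X) / 8 + 9 * C1 * (t0 ^ 2 * dl) + 21 / 20 * (t0 * X) := by
    have g1 : t0 * X * (C1 * t0) ≤ t0 * X * (1 / 8) := mul_le_mul_of_nonneg_left hts b1
    have g2 : 0 ≤ C1 * (t0 ^ 2 * dl) := by positivity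
    nlinarith
  have d5 : t1 ^ 2 * T2 + t1 * (X / 8 + C1 * t0 * X1 + C1 * t0 * X1) ≤
      (5 + 9 * C1) * (t0 ^ 2 * dl + t0 * X) := by
    have g3 : 0 ≤ C1 * (t0 * X) := by positivity
    nlinarith
  have d6 := mul_le_mul_of_nonneg_left d5 hC3
  have d7 : C2 * (t0 ^ 2 * dl + t0 * (X + X)) ≤ 2 * C2 * (t0 ^ 2 * dl + t0 * X) := by
    have g4 : 0 ≤ C2 * (t0 ^ 2 * dl) := by positivity
    nlinarith
  nlinarith

theorem stp_pair2 (hs : Simple L) {D : LogData m} {δ r0 Cm : ℝ} (R : RGp μ L D δ r0 Cm)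
    {n : ℕ} (B : Fin n → Mt m) (hB : ∀ a, B a ∈ lieSet L)
    (orth : ∀ a b, (trace ((B a)ᴴ * B b)).re = if a = b then 1 else 0)
    (full : ∀ Y ∈ lieSet L, Y ∈ Submodule.span ℝ (Set.range B)) (K : ℝ) (hK : 0 < K) :
    ∃ C ts : ℝ, 0 < C ∧ 0 < ts ∧ ∀ (S0 S1 : St L) (A X : ℝ), GSt L r0 S0 A → GSt L r0 S1 A →
      A ≤ K → 0 ≤ X → S0.t ≤ ts → S1.t ≤ ts → |1 / S1.t - 1 / S0.t| + X ≤ K →
      DF0 L r0 S0 S1 X X →
      |(1 / (stp μ S1).t - 1 / (stp μ S0).t) - (1 / S1.t - 1 / S0.t)| ≤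
        C * (S0.t ^ 2 * |1 / S1.t - 1 / S0.t| + S0.t * X) := by
  have hr0 := R.p1.r0_pos
  have hr01 := R.p1.r0_le
  obtain ⟨C1, ts1, hC1, hts1, H1⟩ := conv_pair hs R.p1 R.hCm R.Cm0 R.hR (s' := 114 / 100 * r0)
    (b' := 124 / 100 * r0 ^ 2) (by positivity) (by positivity) (by nlinarith) (by nlinarith)
    (by nlinarith) (2 * K) (by positivity)
  obtain ⟨C2, ts2, hC2, hts2, H2⟩ := aCo_pair hs R.p1 R.hCm R.Cm0 R.hR B hB orth full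
    (s' := 114 / 100 * r0)
    (b' := 124 / 100 * r0 ^ 2) (by positivity) (by positivity) (by nlinarith) (by nlinarith)
    (by nlinarith) (2 * K) (by positivity)
  obtain ⟨C3, ts3, hC3, hts3, H3⟩ := aCo_pair hs R.p2 R.hCm R.Cm0 R.hR B hB orth full
    (s' := 95 / 100 * r0)
    (b' := 84 / 100 * r0 ^ 2) (by positivity) (by positivity) (by nlinarith) (by nlinarith)
    (by nlinarith) (2 * K + 512 / r0 ^ 4) (by positivity)
  obtain ⟨ts0, hts0, hts01, T⟩ := two_spec hs R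
  refine ⟨8 * C2 + 8 * C3 * (5 + 9 * C1), min (min ts1 (min ts2 (ts3 / 3)))
    (min ts0 (1 / (8 * C1))), by positivity,
    by positivity, fun S0 S1 A X h0 h1 hAK hX ht0 ht1 hKX df => ?_⟩
  have a1 : S0.t ≤ ts1 := ht0.trans ((min_le_left _ _).trans (min_le_left _ _))
  have a1' : S1.t ≤ ts1 := ht1.trans ((min_le_left _ _).trans (min_le_left _ _))
  have a2 : S0.t ≤ ts2 := ht0.trans ((min_le_left _ _).trans ((min_le_right _ _).trans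
    (min_le_left _ _)))
  have a2' : S1.t ≤ ts2 := ht1.trans ((min_le_left _ _).trans ((min_le_right _ _).trans
    (min_le_left _ _)))
  have a6 : S0.t ≤ ts3 / 3 := ht0.trans ((min_le_left _ _).trans ((min_le_right _ _).trans
    (min_le_right _ _)))
  have a6' : S1.t ≤ ts3 / 3 := ht1.trans ((min_le_left _ _).trans ((min_le_right _ _).trans
    (min_le_right _ _)))
  have a3 : S0.t ≤ ts0 := ht0.trans ((min_le_right _ _).trans (min_le_left _ _))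
  have a3' : S1.t ≤ ts0 := ht1.trans ((min_le_right _ _).trans (min_le_left _ _))
  have a4 : S0.t ≤ 1 / (8 * C1) := ht0.trans ((min_le_right _ _).trans (min_le_right _ _))
  have a5 : C1 * S0.t ≤ 1 / 8 := by
    rw [le_div_iff₀ (by positivity)] at a4
    linarith
  have W0 := T S0 A h0 a3
  have W1 := T S1 A h1 a3'
  have hp0 := h0.p
  have hp1 := h1.p
  have q0 := W0.q1
  have q1 := W1.q1
  obtain ⟨dl, hdl⟩ : ∃ dl : ℝ, dl = |1 / S1.t - 1 / S0.t| := ⟨_, rfl⟩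
  have hdl0 : 0 ≤ dl := by rw [hdl]; exact abs_nonneg _
  rw [← hdl] at hKX ⊢
  obtain ⟨X1, hX1⟩ : ∃ X1 : ℝ, X1 = XX r0 dl X X := ⟨_, rfl⟩
  obtain ⟨T2, hT2⟩ : ∃ T2 : ℝ, T2 = dl / 2 + 2 * (C1 * S0.t * X1) := ⟨_, rfl⟩
  obtain ⟨X2, hX2⟩ : ∃ X2 : ℝ, X2 = XX r0 T2 (X / 8 + C1 * S0.t * X1) (C1 * S0.t * X1) := ⟨_, rfl⟩
  obtain ⟨z0, z1, z2, z3, z4, z5, z6⟩ := pair_arith (t0 := S0.t) (t1 := (cS μ S0).t) hr0 hr01 hdl0
    hX hKX hp0 W0.p1 q0 hC1 hC2 hX1 hT2 hX2 a5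
  have hr4 : 0 < 512 / r0 ^ 4 := by positivity
  -- the first convolution
  have P1 : PairH L r0 r0 (95 / 100 * r0) (84 / 100 * r0 ^ 2) S0 S1 A dl X X :=
    ⟨h0.c, h1.c, h0.sf, h1.sf, hp0, hp1, h0.A0, h0.At, h1.At, hdl0, hX, hX, hdl.ge, df⟩
  obtain ⟨u1, u2⟩ := H1 S0 S1 A dl X X P1 a1 a1' (by rw [← hX1]; exact z4)
  rw [← hX1] at u1 u2
  have u3 := H2 S0 S1 A dl X X P1 a2 a2' (by rw [← hX1]; exact z4) (by linarith)
  -- the second convolution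
  have hA2 : 0 ≤ A / 8 + 512 / r0 ^ 4 := by
    have := h0.A0
    positivity
  have hT2' : |1 / (cS μ S1).t - 1 / (cS μ S0).t| ≤ T2 := by
    have e1 : 1 / (cS μ S1).t - 1 / (cS μ S0).t = (1 / S1.t - 1 / S0.t) / 2 -
        2 * (aCo μ S1 - aCo μ S0) := by
      rw [W1.e1, W0.e1]
      have f1 : 1 / (2 * S1.t) = 1 / 2 * (1 / S1.t) := by field_simp
      have f0 : 1 / (2 * S0.t) = 1 / 2 * (1 / S0.t) := by field_simp
      rw [f1, f0]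
      ring
    rw [e1, hT2]
    refine (abs_sub _ _).trans ?_
    rw [abs_div, abs_mul, abs_of_pos (by norm_num : (0 : ℝ) < 2), ← hdl]
    linarith
  have P2 : PairH L r0 (6 / 5 * r0) (114 / 100 * r0) (124 / 100 * r0 ^ 2) (cS μ S0) (cS μ S1)
      (A / 8 + 512 / r0 ^ 4) T2 (X / 8 + C1 * S0.t * X1) (C1 * S0.t * X1) :=
    ⟨W0.c1, W1.c1, W0.s1, W1.s1, W0.p1, W1.p1, hA2, W0.A1, W1.A1, (abs_nonneg _).trans hT2',
      by positivity, by positivity, hT2', u2⟩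
  have v1 := H3 (cS μ S0) (cS μ S1) (A / 8 + 512 / r0 ^ 4) T2 (X / 8 + C1 * S0.t * X1)
    (C1 * S0.t * X1) P2 (by linarith) (by linarith) (by rw [← hX2]; linarith)
    (by have := h0.A0; linarith)
  have e1 : (1 / (stp μ S1).t - 1 / (stp μ S0).t) - (1 / S1.t - 1 / S0.t) =
      -(4 * (aCo μ S1 - aCo μ S0)) - 8 * (aCo μ (cS μ S1) - aCo μ (cS μ S0)) := by
    rw [W1.inv, W0.inv]
    ring
  rw [e1]
  refine (abs_sub _ _).trans ?_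
  rw [abs_neg, abs_mul, abs_mul, abs_of_pos (by norm_num : (0 : ℝ) < 4),
    abs_of_pos (by norm_num : (0 : ℝ) < 8)]
  exact pair_arith2 hdl0 hX hp0 (ht0.trans ((min_le_right _ _).trans ((min_le_left _ _).trans
    hts01))) W0.p1 q0 hC1 hC2.le hC3.le a5 z0 z1 hT2 u3 v1

end

end Pool.Agent.T2H04.HY
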