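import Mathlib
import Pool.Agent.T2H04.HY.Link3
import Pool.Agent.T2H04.HY.TlP4

/-!
# The ultraviolet analysis for pairs of states, with the improved contraction
-/

open MeasureTheory Matrix Filter
open scoped Matrix.Norms.Frobenius Topology

namespace Pool.Agent.T2H04.HY

set_option linter.unusedSectionVars false

noncomputable section

variable {G : Type} [Group G] [TopologicalSpace G] [IsTopologicalGroup G] [CompactSpace G]
  [MeasurableSpace G] [BorelSpace G] (μ : Measure G) [μ.IsHaarMeasure] [IsProbabilityMeasure μ]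
  {m : Type} [Fintype m] [DecidableEq m] (L : RD G m)

/-- **The ultraviolet analysis**, with the two loop recursion and the improved contraction. -/
theorem uv_both4 (hs : Simple L) {n : ℕ} (hn : 0 < n) (E : Fin n → Mt m)
    (hE : ∀ a, E a ∈ lieSet L)
    (orth : ∀ a b, (trace ((E a)ᴴ * E b)).re = if a = b then 1 else 0)
    (full : ∀ Y ∈ lieSet L, Y ∈ Submodule.span ℝ (Set.range E))
    (hfin : Module.finrank ℝ (lieAlg L) = n)
    (cas : ℝ) (hcas0 : 0 < cas)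
    (hcas : ∀ X ∈ lieSet L, ∑ a, ‖E a * X - X * E a‖ ^ 2 = cas * ‖X‖ ^ 2)
    (I : ℝ → Mt m → ℂ) (hI : InC L I) :
    ∃ (r0 : ℝ) (Good : (G → ℝ) → ℝ → ℝ → Prop) (ts C ρs c ts3 C3 : ℝ) (p : ℕ)
      (Ds : St L → St L → ℝ → Prop), 0 < r0 ∧
      UV μ L Good ts C ρs c (cas / 8) n p ∧
      UV2 μ L (stp μ) (fun S : St L => nres μ L S.F) (fun S => S.t)
        (fun S A => GSt L r0 S A ∧ S.t ≤ 2 * ts) Ds ts C c (cas / 8) n ∧
      UV3 (stp μ) (fun S : St L => S.t) (fun S => lam E S.w)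
        (fun S A => GSt L r0 S A ∧ S.t ≤ 2 * ts) ts3 C3 cas ∧
      UV4 (stp μ) (fun S : St L => S.t) (fun S A => GSt L r0 S A ∧ S.t ≤ 2 * ts) Ds ∧
      (∀ S A, (GSt L r0 S A ∧ S.t ≤ 2 * ts) → Good (nres μ L S.F) S.t A) ∧
      (∀ t, 0 < t → t ≤ ts → ∃ S : St L, (GSt L r0 S (1 / (20 * t)) ∧ S.t ≤ 2 * ts) ∧
        S.F = Wt t ∧ S.t = t) ∧
      (∀ t, 0 < t → t ≤ ts → ∃ S : St L, (GSt L r0 S (1 / (20 * t)) ∧ S.t ≤ 2 * ts) ∧
        S.F = I t ∧ S.t = t) ∧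
      ∃ C4 ts4 : ℝ, 0 < ts4 ∧ ∀ S A, (GSt L r0 S A ∧ S.t ≤ 2 * ts) → S.t ≤ ts4 →
        |g2 μ L (nres μ L S.F) - n * S.t| ≤ C4 * (1 + A) * S.t ^ 2 := by
  obtain ⟨D⟩ := exists_log (m := m)
  obtain ⟨r1, hr1, hW⟩ := wilson_cls L D
  obtain ⟨r2, hr2, hW'⟩ := hI
  obtain ⟨δ, r0, Cm, hr01, R⟩ := exists_RGp μ L D (min r1 r2) (by positivity)
  have hr0 := R.p1.r0_pos
  obtain ⟨Good, ts, C, ρs, c, p, h1, h2, h3, h4, h5⟩ := uv_both_R μ L hs hn E hE orth full hfin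
    cas hcas0 hcas I R (hW r0 hr0 (hr01.trans (min_le_left _ _)))
    (hW' r0 hr0 (hr01.trans (min_le_right _ _)))
  obtain ⟨C3, ts3, hC3, hts3, h6⟩ := stp_two (μ := μ) hs R hn E hE orth full cas hcas
  obtain ⟨C4, hC4, h7⟩ := P4_form hs hn E hE orth full
  obtain ⟨C5, ts5, hC5, hts5, h8⟩ := obs_as2 μ L R.p1
  refine ⟨r0, Good, ts, C, ρs, c, ts3, C3 + C4, p, fun S0 S1 X => DF0 L r0 S0 S1 X X, hr0, h1,
    h2, ?_, ?_, h3, h4, h5, C5, ts5, hts5, ?_⟩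
  · refine ⟨hts3, by positivity, hcas0, ?_, ?_⟩
    · rintro S A ⟨h, -⟩
      refine (h7 S.F S.t A r0 r0 S.w h.A0 hr0 le_rfl h.sf).1.trans ?_
      exact mul_le_mul_of_nonneg_right (by linarith) h.A0
    · rintro S A ⟨h, -⟩ ht
      obtain ⟨-, k1, k2⟩ := h6 S A h ht
      have hA0 := h.A0
      have hp := h.p
      have hle : C3 * (1 + A) ≤ (C3 + C4) * (1 + A) :=
        mul_le_mul_of_nonneg_right (by linarith) (by linarith)
      exact ⟨k1.trans (mul_le_mul_of_nonneg_right hle (by positivity)),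
        k2.trans (mul_le_mul_of_nonneg_right hle (Real.sqrt_nonneg _))⟩
  · refine ⟨fun K hK => ?_⟩
    obtain ⟨C6, ts6, hC6, hts6, h9⟩ := stp_pair2 (μ := μ) hs R E hE orth full K hK
    refine ⟨C6, ts6, hC6, hts6, ?_⟩
    rintro S0 S1 A X ⟨h0, -⟩ ⟨h1, -⟩ hA hX ht0 ht1 hKX hD
    exact h9 S0 S1 A X h0 h1 hA hX ht0 ht1 hKX hD
  · rintro S A ⟨h, -⟩ ht
    have h9 := h8 S.F S.t A h.p ht h.A0 h.At h.c
    rw [hfin] at h9
    exact h9

end

end Pool.Agent.T2H04.HY
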