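import Mathlib
import Pool.Agent.T2H04.HY.TlG

/-!
# The running coupling at two loops (package RC)

With the notation of `TlG.lean`: for a run from `S j` with `n j` steps and the coupling `→ κ` at the end,
`Psi v_{n-l} = l + O(1)` uniformly in `j ≥ j0(l)` (`flow_run`/`flow_abs` between the times `n - l` and
`n - l0`; `v_{n - l0}` is bounded, `crude`), so `v_{n-l} = cas/8 l + cas/30 log l + O(1)`
(`Psi v = 8/cas v - 4/15 log v`; `v ≤ C l`, `v ≥ l/C` give `log v = log l + O(1)`), `u = v + O(1)` and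
`1 / g2 = u / d0 + O(1)` by `has2` (`A_{n-l} ≤ 2 C + 1` for `j ≥ j0(l)`).
-/

open MeasureTheory Matrix Filter
open scoped Matrix.Norms.Frobenius Topology

namespace Pool.Agent.T2H04.HY

set_option linter.unusedSectionVars false

noncomputable section

variable {G : Type} [Group G] [TopologicalSpace G] [IsTopologicalGroup G] [CompactSpace G]
  [MeasurableSpace G] [BorelSpace G] (μ : Measure G) [μ.IsHaarMeasure] [IsProbabilityMeasure μ]
  {m : Type} [Fintype m] [DecidableEq m] (L : RD G m)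

namespace TlR

/-- the inversion of the two loop time -/
theorem inv_arith {cas v l K1 K2 x : ℝ} (hcas : 0 < cas) (h1 : |Psi cas v - x - l| ≤ K1)
    (h2 : |Real.log v - Real.log l| ≤ K2) :
    |v - (cas / 8 * l + cas / 30 * Real.log l)| ≤ cas / 8 * (K1 + |x|) + cas / 30 * K2 := by
  have e : v - (cas / 8 * l + cas / 30 * Real.log l) =
      cas / 8 * ((Psi cas v - x - l) + x) + cas / 30 * (Real.log v - Real.log l) := by
    unfold Psi
    field_simp
    ring
  rw [e]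
  refine (abs_add_le _ _).trans (add_le_add ?_ ?_)
  · rw [abs_mul, abs_of_pos (by positivity : 0 < cas / 8)]
    exact mul_le_mul_of_nonneg_left ((abs_add_le _ _).trans (by linarith)) (by positivity)
  · rw [abs_mul, abs_of_pos (by positivity : 0 < cas / 30)]
    exact mul_le_mul_of_nonneg_left h2 (by positivity)

theorem psi_abs {cas v M : ℝ} (hcas : 0 < cas) (hv : 1 ≤ v) (hM : v ≤ M) :
    |Psi cas v| ≤ (8 / cas + 1) * M := by
  have h0 : 0 ≤ Real.log v := Real.log_nonneg hv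
  have h1 : Real.log v ≤ v - 1 := Real.log_le_sub_one_of_pos (by linarith)
  have h2 : 0 < 8 / cas := by positivity
  have h3 : 0 ≤ 8 / cas * v := by positivity
  have h4 : (8 / cas + 1) * v ≤ (8 / cas + 1) * M := mul_le_mul_of_nonneg_left hM (by positivity)
  have h5 : (8 / cas + 1) * v = 8 / cas * v + v := by ring
  unfold Psi
  rw [abs_le]
  constructor <;> linarith

theorem log_arith {v l P Q : ℝ} (hv : 1 ≤ v) (hl : 1 ≤ l) (hP : 0 < P) (hQ : 0 < Q)
    (h1 : v ≤ P * l) (h2 : l ≤ Q * v) : |Real.log v - Real.log l| ≤ |Real.log P| + |Real.log Q| := by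
  have hv0 : 0 < v := by linarith
  have hl0 : 0 < l := by linarith
  have e1 := Real.log_le_log hv0 h1
  rw [Real.log_mul hP.ne' hl0.ne'] at e1
  have e2 := Real.log_le_log hl0 h2
  rw [Real.log_mul hQ.ne' hv0.ne'] at e2
  have a1 := le_abs_self (Real.log P)
  have a2 := le_abs_self (Real.log Q)
  have a3 := abs_nonneg (Real.log P)
  have a4 := abs_nonneg (Real.log Q)
  rw [abs_le]
  constructor <;> linarith

theorem inv_g {g t c d0 M : ℝ} (ht : 0 < t) (hc : 0 < c) (hd0 : 0 < d0) (h1 : c * t ≤ g)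
    (h2 : |g - d0 * t| ≤ M * t ^ 2) : |1 / g - 1 / t / d0| ≤ M / (c * d0) := by
  have hg : 0 < g := lt_of_lt_of_le (by positivity) h1
  have hM : 0 ≤ M := by
    have := (abs_nonneg _).trans h2
    have h3 : 0 < t ^ 2 := by positivity
    exact nonneg_of_mul_nonneg_left this h3
  have e : 1 / g - 1 / t / d0 = -(g - d0 * t) / (g * (t * d0)) := by
    field_simp
    ring
  rw [e, abs_div, abs_neg, abs_of_pos (by positivity : 0 < g * (t * d0)),
    div_le_div_iff₀ (by positivity) (by positivity)]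
  calc |g - d0 * t| * (c * d0) ≤ M * t ^ 2 * (c * d0) :=
        mul_le_mul_of_nonneg_right h2 (by positivity)
    _ = M * (c * t * (t * d0)) := by ring
    _ ≤ M * (g * (t * d0)) :=
        mul_le_mul_of_nonneg_left (mul_le_mul_of_nonneg_right h1 (by positivity)) hM

end TlR

theorem running (hconn : IsConnected (Set.univ : Set G)) (hne : ∃ X ∈ lieSet L, X ≠ 0)
    (Good : (G → ℝ) → ℝ → ℝ → Prop) (ts0 C0 ρs c0 cas d0 : ℝ) (p : ℕ)
    (uv : UV μ L Good ts0 C0 ρs c0 (cas / 8) d0 p)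
    {Q : Type} (stp : Q → Q) (den : Q → G → ℝ) (tt lm : Q → ℝ) (GS : Q → ℝ → Prop)
    (Ds : Q → Q → ℝ → Prop) (ts C c : ℝ) (uv2 : UV2 μ L stp den tt GS Ds ts C c (cas / 8) d0)
    (ts3 C3 : ℝ) (uv3 : UV3 stp tt lm GS ts3 C3 cas)
    (hG : ∀ S A, GS S A → Good (den S) (tt S) A) (hts : ts ≤ ts0) (C4 ts4 : ℝ) (hts4 : 0 < ts4)
    (has2 : ∀ S A, GS S A → tt S ≤ ts4 → |g2 μ L (den S) - d0 * tt S| ≤ C4 * (1 + A) * tt S ^ 2) :
    ∃ κ1 : ℝ, 0 < κ1 ∧ ∀ κ : ℝ, 0 < κ → κ ≤ κ1 →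
      ∀ (S : ℕ → Q) (A : ℕ → ℝ) (n : ℕ → ℕ), (∀ j, GS (S j) (A j)) →
        Tendsto (fun j => tt (S j)) atTop (𝓝 0) →
        Tendsto (fun j => g2 μ L ((mk μ)^[n j] (den (S j)))) atTop (𝓝 κ) →
        ∃ K : ℝ, ∀ l : ℕ, 1 ≤ l → ∀ᶠ j in atTop,
          |1 / g2 μ L ((mk μ)^[n j - l] (den (S j))) -
            (cas / 8 * l + cas / 30 * Real.log l) / d0| ≤ K := by
  have hC := uv2.C_pos
  have hC3 := uv3.C_pos
  have hcas := uv3.cas_pos
  have hts3 := uv3.ts_pos
  have hc := uv2.c_pos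
  have hd0 := uv2.d0_pos
  obtain ⟨α, tf, hα, htf, hflow⟩ := Tg.flow_abs (C := C) (C3 := C3) hcas hC hC3
  obtain ⟨t1, ht1, h1td, h1ts, hδ, κ1, hκ1, hu⟩ := uniq' μ L hconn hne Good ts0 C0 ρs c0 (cas / 8)
    d0 p uv stp den tt GS Ds ts C c uv2 hG hts
    (show 0 < min (min (min tf ts3) (min (1 / C3) (1 / 2))) ts4 by positivity)
  have q0 := h1td.trans (min_le_left _ _)
  have q5 : t1 ≤ ts4 := h1td.trans (min_le_right _ _)
  have q1 : t1 ≤ tf := q0.trans ((min_le_left _ _).trans (min_le_left _ _))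
  have q2 : t1 ≤ ts3 := q0.trans ((min_le_left _ _).trans (min_le_right _ _))
  have q3 : C3 * t1 ≤ 1 := by
    have := q0.trans ((min_le_right _ _).trans (min_le_left _ _))
    rw [le_div_iff₀ hC3] at this
    linarith
  have q4 : t1 ≤ 1 / 2 := q0.trans ((min_le_right _ _).trans (min_le_right _ _))
  refine ⟨κ1, hκ1, fun κ hκ hκle S A n hS h0 hg => ?_⟩
  obtain ⟨hRE, -, hrun, -, -⟩ := hu κ hκ hκle S S A A n n hS hS h0 h0 hg hg
  have hCd : 0 ≤ Uq.Ck ts C (cas / 8) := by unfold Uq.Ck; positivity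
  set Cd := Uq.Ck ts C (cas / 8) with hCdd
  set B := 2 * C / κ with hBd
  have hB : 0 < B := by positivity
  set P := B + Cd + 2 * C with hP
  have hP0 : 0 < P := by positivity
  set Q' := 16 / cas * (1 + 2 * C) with hQ
  have hQ0 : 0 < Q' := by positivity
  set K1 := 2 * α * Real.sqrt t1 with hK1
  set K2 := |Real.log P| + |Real.log Q'| with hK2
  refine ⟨C4 * (1 + 2 * C) / (c * d0) + (2 * C + (cas / 8 * (K1 + (8 / cas + 1) * P) +
    cas / 30 * K2)) / d0, fun l hl1 => ?_⟩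
  filter_upwards [hRE l, hrun] with j r1 r3
  have hl0 : (1 : ℝ) ≤ l := by exact_mod_cast hl1
  have f1 := Tg.flow_run uv2 uv3 hflow q1 h1ts q2 r3 (Nat.sub_le (n j) l)
  have f2 := Tg.flow_run uv2 uv3 hflow q1 h1ts q2 r3 (le_refl (n j))
  rw [Nat.cast_sub r1.le] at f1
  have g1 := r1.gs l le_rfl
  have g0 := r1.gs 0 (Nat.zero_le _)
  have s1 := r1.small l le_rfl
  have s0 := r1.small 0 (Nat.zero_le _)
  have p1 := (uv2.pos _ _ g1).1
  have p0 := (uv2.pos _ _ g0).1
  have w1 := Tg.W_ge uv2 uv3 q3 q4 g1 s1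
  have w0 := Tg.W_ge uv2 uv3 q3 q4 g0 s0
  have v1 := Tg.end_small r1 (fun S A h => (uv2.pos S A h).1) hδ l le_rfl
  have i1 := r1.inv l le_rfl
  have i0 := r1.inv 0 (Nat.zero_le _)
  have l1 := uv3.lam_le _ _ g1
  have l0 := uv3.lam_le _ _ g0
  have d1 := r1.dn l le_rfl
  have lo := uv2.g2_lo _ _ g1
  have h2 := has2 _ _ g1 (s1.trans q5)
  rw [Nat.sub_zero] at g0 s0 p0 w0 i0 l0
  rw [Nat.cast_zero, mul_zero, add_zero] at i0
  rw [← d1]
  set T := stp^[n j - l] (S j) with hT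
  set T0 := stp^[n j] (S j) with hT0
  have small : ∀ x y : ℝ, |x| ≤ C3 * (2 * C) → 0 < y → y ≤ t1 → |4 / 5 * (x * y)| ≤ 2 * C := by
    intro x y hx hy hy1
    rw [abs_mul, abs_mul, abs_of_pos hy, abs_of_pos (by norm_num : (0 : ℝ) < 4 / 5)]
    have e1 : |x| * y ≤ C3 * (2 * C) * t1 := mul_le_mul hx hy1 hy.le (by positivity)
    have e2 : C3 * (2 * C) * t1 ≤ 2 * C := by
      calc C3 * (2 * C) * t1 = (C3 * t1) * (2 * C) := by ring
        _ ≤ 1 * (2 * C) := mul_le_mul_of_nonneg_right q3 (by positivity)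
        _ = _ := one_mul _
    have e3 : 0 ≤ |x| * y := mul_nonneg (abs_nonneg _) hy.le
    linarith
  have c1 := small _ _ l1 p1 s1
  have c0' := small _ _ l0 p0 s0
  set v := 1 / tt T + 4 / 5 * (lm T * tt T) with hv
  set v0 := 1 / tt T0 + 4 / 5 * (lm T0 * tt T0) with hv0
  obtain ⟨c2, c3⟩ := abs_le.1 c1
  obtain ⟨c4, c5⟩ := abs_le.1 c0'
  have hPsi0 : |Psi cas v0| ≤ (8 / cas + 1) * P := by
    refine TlR.psi_abs hcas w0 ?_
    rw [hP]
    linarith
  have n1 : α * Real.sqrt (tt T) ≤ α * Real.sqrt t1 :=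
    mul_le_mul_of_nonneg_left (Real.sqrt_le_sqrt s1) hα.le
  have n0 : α * Real.sqrt (tt T0) ≤ α * Real.sqrt t1 :=
    mul_le_mul_of_nonneg_left (Real.sqrt_le_sqrt s0) hα.le
  have k1 : |Psi cas v - Psi cas v0 - l| ≤ K1 := by
    have a1 := abs_le.1 (f1.trans n1)
    have a2 := abs_le.1 (f2.trans n0)
    rw [abs_le, hK1]
    constructor <;> linarith [a1.1, a1.2, a2.1, a2.2]
  have k2 : |Real.log v - Real.log l| ≤ K2 := by
    refine TlR.log_arith w1 hl0 hP0 hQ0 ?_ ?_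
    · have b1 : v ≤ B + Cd * l + 2 * C := by linarith
      have b2 : B + 2 * C ≤ (B + 2 * C) * l := le_mul_of_one_le_right (by positivity) hl0
      rw [hP]
      linarith
    · have b1 : cas / 8 / 2 * l ≤ v + 2 * C := by linarith
      have b2 : v + 2 * C ≤ (1 + 2 * C) * v := by
        have : 2 * C ≤ 2 * C * v := le_mul_of_one_le_right (by positivity) w1
        linarith
      have b3 : (l : ℝ) = 16 / cas * (cas / 8 / 2 * l) := by field_simp; ring
      rw [hQ, b3]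
      calc 16 / cas * (cas / 8 / 2 * l) ≤ 16 / cas * ((1 + 2 * C) * v) :=
            mul_le_mul_of_nonneg_left (b1.trans b2) (by positivity)
        _ = _ := by ring
  have k3 := TlR.inv_arith hcas k1 k2
  have k4 : |1 / tt T - (cas / 8 * l + cas / 30 * Real.log l)| ≤
      2 * C + (cas / 8 * (K1 + (8 / cas + 1) * P) + cas / 30 * K2) := by
    have b1 : cas / 8 * (K1 + |Psi cas v0|) ≤ cas / 8 * (K1 + (8 / cas + 1) * P) :=
      mul_le_mul_of_nonneg_left (by linarith) (by positivity)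
    have b2 := abs_le.1 k3
    rw [abs_le]
    constructor <;> linarith [b2.1, b2.2]
  have k5 := TlR.inv_g p1 hc hd0 lo h2
  have e : 1 / g2 μ L (den T) - (cas / 8 * l + cas / 30 * Real.log l) / d0 =
      (1 / g2 μ L (den T) - 1 / tt T / d0) +
        (1 / tt T - (cas / 8 * l + cas / 30 * Real.log l)) / d0 := by
    field_simp
    ring
  rw [e]
  refine (abs_add_le _ _).trans (add_le_add k5 ?_)
  rw [abs_div, abs_of_pos hd0]
  exact div_le_div_of_nonneg_right k4 hd0.le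

end

end Pool.Agent.T2H04.HY
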