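import Mathlib
import Pool.Agent.T2H04.HY.Fin1
import Pool.Agent.T2H04.HY.Link3
import Pool.Agent.T2H04.HY.TlR

/-!
# The running coupling of Wilson's action at two loops
-/

open MeasureTheory Matrix Filter
open scoped Matrix.Norms.Frobenius Topology

namespace Pool.Agent.T2H04.HY

set_option linter.unusedSectionVars false

noncomputable section

variable {G : Type} [Group G] [TopologicalSpace G] [IsTopologicalGroup G] [CompactSpace G]
  [MeasurableSpace G] [BorelSpace G] (μ : Measure G) [μ.IsHaarMeasure] [IsProbabilityMeasure μ]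
  {m : Type} [Fintype m] [DecidableEq m] (L : RD G m)

theorem wilson_inC : InC L (Wt (m := m)) := by
  obtain ⟨D⟩ := exists_log (m := m)
  obtain ⟨r1, hr1, h⟩ := wilson_cls L D
  exact ⟨r1, hr1, h⟩

theorem wilson_run (hs : Simple L) {n : ℕ} (hn : 0 < n) (E : Fin n → Mt m)
    (hE : ∀ a, E a ∈ lieSet L)
    (orth : ∀ a b, (trace ((E a)ᴴ * E b)).re = if a = b then 1 else 0)
    (full : ∀ Y ∈ lieSet L, Y ∈ Submodule.span ℝ (Set.range E)) (cas : ℝ)
    (hcasn : cas * n = ∑ a, ∑ b, ‖E a * E b - E b * E a‖ ^ 2) :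
    ∃ κ1 : ℝ, 0 < κ1 ∧ ∀ κ : ℝ, 0 < κ → κ ≤ κ1 → ∀ (t : ℕ → ℝ) (k : ℕ → ℕ),
      (∀ j, 0 < t j) → Tendsto t atTop (𝓝 0) →
      Tendsto (fun j => g2 μ L ((mk μ)^[k j] (wil μ L (t j)))) atTop (𝓝 κ) →
      ∃ K : ℝ, ∀ l : ℕ, 1 ≤ l → ∀ᶠ j in atTop,
        |1 / g2 μ L ((mk μ)^[k j - l] (wil μ L (t j))) -
          (cas / 8 * l + cas / 30 * Real.log l) / n| ≤ K := by
  obtain ⟨cas', hcas0, hcas, hcasn'⟩ := cas_exists hs E hE orth full
  have hn0 : (0 : ℝ) < n := by exact_mod_cast hn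
  have hcc : cas' = cas := by
    have : cas' * n = cas * n := by rw [hcasn, hcasn']
    exact mul_right_cancel₀ hn0.ne' this
  subst hcc
  obtain ⟨r0, Good, ts, C, ρs, c, ts3, C3, p, Ds, hr0, uv, uv2, uv3, hG, hW, -, C4, ts4, hts4,
    h4⟩ := uv_both3 μ L hs hn E hE orth full (finrank_lieAlg E hE orth full) cas' hcas0 hcas Wt
      (wilson_inC L)
  obtain ⟨κ1, hκ1, H⟩ := running μ L hs.conn (hne_of_simple L hs) Good ts C ρs c cas' n p uv
    (stp μ) (fun S : St L => nres μ L S.F) (fun S => S.t) (fun S => lam E S.w)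
    (fun S A => GSt L r0 S A ∧ S.t ≤ 2 * ts) Ds ts C c uv2 ts3 C3 uv3 hG le_rfl C4 ts4 hts4 h4
  have hts := uv2.ts_pos
  refine ⟨κ1, hκ1, fun κ hκ hκ1' t k ht htt hg => ?_⟩
  have : Nonempty (St L) := ⟨⟨0, 0, 0⟩⟩
  choose! SW hW1 hW2 hW3 using hW
  set u : ℕ → ℝ := fun j => min (t j) ts with hu
  have hu0 : ∀ j, 0 < u j := fun j => lt_min (ht j) hts
  have hu1 : ∀ j, u j ≤ ts := fun j => min_le_right _ _
  have hev : ∀ᶠ j in atTop, u j = t j := by
    filter_upwards [htt.eventually (gt_mem_nhds hts)] with j hj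
    exact min_eq_left hj.le
  have hut : Tendsto u atTop (𝓝 0) := htt.congr' (hev.mono fun j hj => hj.symm)
  obtain ⟨K, hK⟩ := H κ hκ hκ1' (fun j => SW (u j)) (fun j => 1 / (20 * u j)) k
    (fun j => hW1 _ (hu0 j) (hu1 j))
    (by
      refine hut.congr fun j => ?_
      exact (hW3 _ (hu0 j) (hu1 j)).symm)
    (by
      refine hg.congr' (hev.mono fun j hj => ?_)
      simp only
      rw [hW2 _ (hu0 j) (hu1 j), hj, nres_Wt])
  refine ⟨K, fun l hl => ?_⟩
  filter_upwards [hK l hl, hev] with j h1 hj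
  rw [hW2 _ (hu0 j) (hu1 j), hj, nres_Wt] at h1
  exact h1

end

end Pool.Agent.T2H04.HY
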