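import Mathlib
import Pool.Agent.T2H04.HY.TlP0
import Pool.Agent.T2H04.HY.TlG

/-!
# The two loop time determines the running coupling (package P6)

Notation: `u_l = 1 / tt (stp^[n j - l] (S j))`, `u'_l` the same for `S'`, `y_l = |u_l - u'_l|` (`Uq.yy`),
`t_l = 1/u_l`, `X_l` a bound of the distance (`Ds`) of the two states.

`Uq.exists_RE`, `Uq.run` (with `exit_lower`, as in the proofs of `uniq'` and `two_loop` in `TlG.lean`; they
only use that the couplings converge to small numbers `κ`, `κ'`) give the runs. By `Tg.flow_run`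
`|Psi v_l - (Psi v_0j - (n j - l))| ≤ α √t_l`, `v = u + 4/5 lm t`, `|v_l - u_l| ≤ C t_l` and `t_l ≤ 16/(cas l)`
(`Tg.end_small`), so `|Psi v_l - Psi v'_l| ≤ ε_j + C/√l` where `ε_j → 0` by hypothesis. `Psi` is increasing
with `|Psi x - Psi y| ≥ (4/cas) |x - y|` for large `x, y` (choose `t1` small), hence
`y_l ≤ C (ε_j + 1/√l)` for `l ≤ J` (`j` large depending on `J`).
Fix a large `J` (with `C(ε_j + 1/√J) ≤ 1` etc.). `X_J ≤ X0` (`triv`, at `A = 2C`). For `l = J, J-1, ..`
(`contr`, `contr2`, `K = X0 + 2`):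
`X_{l-1} ≤ X_l/16 + C t_l (y_l + X_l)`, `y_{l-1} ≤ y_l + C (t_l² y_l + t_l X_l)`.
As long as `y ≤ 1`: `X_{J-i} ≤ X0/8^i + C t_{J-i} sup y` (roughly; `t_l ≤ t1` and `t_l ≤ 16/(cas l)`, so
`t_{l+1} ≤ t_l ≤ 2 t_{l+1}` up to constants), so `∑ t_l X_l ≤ C X0/J + C (∑ t_l²) sup y`, and a discrete
Gronwall argument gives `sup_{l ≤ J} y_l ≤ C (y_J + X0/J)` and `X_0 ≤ X0/8^J + C sup y`. A simple way:
the potential `y_l + 2 C t_l X_l` (with `t1` small) satisfies
`y_{l-1} + 2 C t_{l-1} X_{l-1} ≤ (1 + C' / (l+1)²) (y_l + 2 C t_l X_l)`, and `∏ (1 + C'/(l+1)²) ≤ exp (2C')`.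
So `y_0 + t_0 X_0 → 0` as `j → ∞`, then `J → ∞`, and `X_0 → 0` too; `t_0 ≥ 1/B` is bounded below, `dlip` gives
`den (stp^[n j] (S j)) - den (stp^[n' j] (S' j)) → 0` uniformly, so the difference of the `g2`'s tends to
`0` (`g2` is an integral against `dis²`, bounded by `uB`-type constants), hence `κ = κ'`.
-/

open MeasureTheory Matrix Filter
open scoped Matrix.Norms.Frobenius Topology

namespace Pool.Agent.T2H04.HY

set_option linter.unusedSectionVars false

noncomputable section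

variable {G : Type} [Group G] [TopologicalSpace G] [IsTopologicalGroup G] [CompactSpace G]
  [MeasurableSpace G] [BorelSpace G] (μ : Measure G) [μ.IsHaarMeasure] [IsProbabilityMeasure μ]
  {m : Type} [Fintype m] [DecidableEq m] (L : RD G m)

namespace P6

theorem psi_lower {cas x y : ℝ} (hcas : 0 < cas) (hx : cas / 15 ≤ x) (hy : cas / 15 ≤ y) :
    4 / cas * |x - y| ≤ |Psi cas x - Psi cas y| := by
  have key : ∀ x y : ℝ, cas / 15 ≤ x → cas / 15 ≤ y → y ≤ x →
      4 / cas * (x - y) ≤ Psi cas x - Psi cas y := by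
    intro x y hx hy hxy
    have hy0 : 0 < y := lt_of_lt_of_le (by positivity) hy
    have hx0 : 0 < x := lt_of_lt_of_le (by positivity) hx
    have h1 : Real.log x - Real.log y ≤ (x - y) / y := by
      rw [← Real.log_div hx0.ne' hy0.ne']
      have h1 := Real.log_le_sub_one_of_pos (div_pos hx0 hy0)
      have h2 : x / y - 1 = (x - y) / y := by field_simp
      rwa [h2] at h1
    have h2 : (x - y) / y ≤ 15 / cas * (x - y) := by
      rw [div_eq_mul_inv, mul_comm]
      refine mul_le_mul_of_nonneg_right ?_ (by linarith)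
      rw [← one_div, div_le_div_iff₀ hy0 hcas]
      linarith
    have e : Psi cas x - Psi cas y = 8 / cas * (x - y) - 4 / 15 * (Real.log x - Real.log y) := by
      unfold Psi; ring
    rw [e]
    have h3 : 8 / cas * (x - y) = 4 / cas * (x - y) + 4 / 15 * (15 / cas * (x - y)) := by
      field_simp; ring
    linarith
  rcases le_total y x with h | h
  · rw [abs_of_nonneg (by linarith : 0 ≤ x - y)]
    exact (key x y hx hy h).trans (le_abs_self _)
  · rw [abs_sub_comm x y, abs_sub_comm (Psi cas x), abs_of_nonneg (by linarith : 0 ≤ y - x)]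
    exact (key y x hy hx h).trans (le_abs_self _)

/-- the recursion backwards from `J` to `0` -/
theorem back {J : ℕ} {y t : ℕ → ℝ} {D : ℕ → ℝ → Prop} {c t1 b X0 : ℝ} (hc : 0 < c)
    (hX0 : 0 ≤ X0) (hc1 : c * t1 ≤ 1 / 16)
    (hy0 : ∀ l, 0 ≤ y l) (ht0 : ∀ l ≤ J, 0 < t l) (ht1 : ∀ l ≤ J, t l ≤ t1)
    (ht2 : ∀ l < J, t l ≤ 2 * t (l + 1)) (htb : ∀ l < J, t (l + 1) ≤ b / (l + 1)) (hJ : D J X0)
    (hstep : ∀ l < J, ∀ X, 0 ≤ X → y (l + 1) + X ≤ X0 + 2 → D (l + 1) X → ∃ X', 0 ≤ X' ∧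
      X' ≤ X / 16 + c * t (l + 1) * (y (l + 1) + X) ∧ D l X' ∧
      y l ≤ y (l + 1) + c * (t (l + 1) ^ 2 * y (l + 1) + t (l + 1) * X))
    (hY : Real.exp (2 * ((c + 4 * c ^ 2) * b ^ 2)) * (y J + 2 * c * t J * X0) ≤ 1) :
    ∃ X, 0 ≤ X ∧ D 0 X ∧
      X ≤ X0 / 8 ^ J + Real.exp (2 * ((c + 4 * c ^ 2) * b ^ 2)) * (y J + 2 * c * t J * X0) ∧
      y 0 ≤ Real.exp (2 * ((c + 4 * c ^ 2) * b ^ 2)) * (y J + 2 * c * t J * X0) := by
  have hE0 : 0 ≤ (c + 4 * c ^ 2) * b ^ 2 := by positivity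
  have htJ := ht0 J le_rfl
  have hyJ := hy0 J
  have hP0 : 0 ≤ y J + 2 * c * t J * X0 := by positivity
  obtain ⟨E, hE⟩ : ∃ E, E = (c + 4 * c ^ 2) * b ^ 2 := ⟨_, rfl⟩
  obtain ⟨P, hP⟩ : ∃ P, P = y J + 2 * c * t J * X0 := ⟨_, rfl⟩
  obtain ⟨Y, hYd⟩ : ∃ Y, Y = Real.exp (2 * E) * P := ⟨_, rfl⟩
  rw [← hE] at hE0
  rw [← hP] at hP0
  rw [← hE, ← hP, ← hYd] at hY ⊢
  have hY0 : 0 ≤ Y := by rw [hYd]; positivity
  have fac : ∀ l : ℕ, Real.exp (E * (2 / ((l : ℝ) + 1) - 2 / ((J : ℝ) + 1))) * P ≤ Y := by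
    intro l
    rw [hYd]
    refine mul_le_mul_of_nonneg_right (Real.exp_le_exp.2 ?_) hP0
    have h0 : (0 : ℝ) ≤ l := Nat.cast_nonneg l
    have h1 : (2 : ℝ) / (l + 1) ≤ 2 := div_le_self (by norm_num) (by linarith)
    have h2 : (0 : ℝ) ≤ 2 / (J + 1) := by positivity
    nlinarith
  have main : ∀ i ≤ J, ∃ X, 0 ≤ X ∧ D (J - i) X ∧ X ≤ X0 / 8 ^ i + Y ∧
      y (J - i) + 2 * c * t (J - i) * X ≤
        Real.exp (E * (2 / (((J - i : ℕ) : ℝ) + 1) - 2 / ((J : ℝ) + 1))) * P := by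
    intro i
    induction i with
    | zero =>
      intro _
      refine ⟨X0, hX0, by simpa using hJ, by simp [hY0], ?_⟩
      rw [Nat.sub_zero, sub_self, mul_zero, Real.exp_zero, one_mul, hP]
    | succ i ih =>
      intro hi
      obtain ⟨X, hX, hD, hXle, hΦ⟩ := ih (by omega)
      obtain ⟨l, hl⟩ : ∃ l, l = J - (i + 1) := ⟨_, rfl⟩
      have hl1 : J - i = l + 1 := by omega
      rw [hl1] at hD hΦ
      rw [← hl]
      have hlJ : l < J := by omega
      have s0 := ht0 (l + 1) (by omega)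
      have s1 := ht1 (l + 1) (by omega)
      have s2 := ht2 l hlJ
      have s3 := htb l hlJ
      have hy := hy0 (l + 1)
      have hf := fac (l + 1)
      have hyY : y (l + 1) ≤ Y := by
        have h0 : 0 ≤ 2 * c * t (l + 1) * X := by positivity
        linarith
      have hq : X0 / 8 ^ i ≤ X0 := div_le_self hX0 (one_le_pow₀ (by norm_num))
      obtain ⟨X', hX', h1, h2, h3⟩ := hstep l hlJ X hX (by linarith) hD
      have hct : c * t (l + 1) ≤ 1 / 16 := (mul_le_mul_of_nonneg_left s1 hc.le).trans hc1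
      refine ⟨X', hX', h2, ?_, ?_⟩
      · have h4 : c * t (l + 1) * (y (l + 1) + X) ≤ 1 / 16 * (y (l + 1) + X) :=
          mul_le_mul_of_nonneg_right hct (by positivity)
        have h5 : X0 / 8 ^ (i + 1) = X0 / 8 ^ i / 8 := by rw [pow_succ]; field_simp
        rw [h5]
        linarith
      · obtain ⟨T, hT⟩ : ∃ T, T = t (l + 1) := ⟨_, rfl⟩
        obtain ⟨w, hw⟩ : ∃ w, w = y (l + 1) := ⟨_, rfl⟩
        rw [← hT] at s0 s1 s2 s3 hct h1 h3 hΦ
        rw [← hw] at hy h1 h3 hΦ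
        have hΦ' : y l + 2 * c * t l * X' ≤
            (1 + (c + 4 * c ^ 2) * T ^ 2) * (w + 2 * c * T * X) := by
          have e1 : 2 * c * t l * X' ≤ 2 * c * (2 * T) * (X / 16 + c * T * (w + X)) :=
            mul_le_mul (mul_le_mul_of_nonneg_left s2 (by positivity)) h1 hX' (by positivity)
          have e2 : 0 ≤ (c + 4 * c ^ 2) * T ^ 2 * (2 * c * T * X) := by positivity
          have e3 : (c * T) * (4 * (c * T * X)) ≤ (1 / 16) * (4 * (c * T * X)) :=
            mul_le_mul_of_nonneg_right hct (by positivity)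
          have e4 : 0 ≤ c * T * X := by positivity
          nlinarith
        have h6 : (c + 4 * c ^ 2) * T ^ 2 ≤ E * (2 / ((l : ℝ) + 1) - 2 / ((l : ℝ) + 1 + 1)) := by
          have e1 : T ^ 2 ≤ (b / (l + 1)) ^ 2 := pow_le_pow_left₀ s0.le s3 2
          have e2 : (b / ((l : ℝ) + 1)) ^ 2 ≤
              b ^ 2 * (2 / ((l : ℝ) + 1) - 2 / ((l : ℝ) + 1 + 1)) := by
            rw [div_pow, div_eq_mul_inv]
            refine mul_le_mul_of_nonneg_left ?_ (sq_nonneg b)
            have h0 : (0 : ℝ) ≤ l := Nat.cast_nonneg l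
            have : (2 : ℝ) / (l + 1) - 2 / (l + 1 + 1) = 2 / ((l + 1) * (l + 2)) := by
              field_simp; ring
            rw [this, ← one_div, div_le_div_iff₀ (by positivity) (by positivity)]
            nlinarith
          rw [hE, mul_assoc]
          exact mul_le_mul_of_nonneg_left (e1.trans e2) (by positivity)
        have h7 : 1 + (c + 4 * c ^ 2) * T ^ 2 ≤
            Real.exp (E * (2 / ((l : ℝ) + 1) - 2 / ((l : ℝ) + 1 + 1))) := by
          have := Real.add_one_le_exp (E * (2 / ((l : ℝ) + 1) - 2 / ((l : ℝ) + 1 + 1)))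
          linarith
        refine hΦ'.trans ((mul_le_mul h7 hΦ (by positivity) (Real.exp_pos _).le).trans (le_of_eq ?_))
        rw [← mul_assoc, ← Real.exp_add]
        congr 2
        push_cast
        ring
  obtain ⟨X, hX, hD, hXle, hΦ⟩ := main J le_rfl
  rw [Nat.sub_self] at hD hΦ
  refine ⟨X, hX, hD, hXle, ?_⟩
  have h1 := fac 0
  have h0 := ht0 0 (Nat.zero_le _)
  have h2 : 0 ≤ 2 * c * t 0 * X := by positivity
  linarith

end P6

namespace P6

theorem g2_lip {f g : G → ℝ} (hf : Continuous f) (hg : Continuous g) {M : ℝ}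
    (h : ∀ x, |g x - f x| ≤ M) :
    |g2 μ L g - g2 μ L f| ≤ M * ∫ y, dis L y ^ 2 ∂μ := by
  have hd : Continuous fun y => dis L y ^ 2 := (L.cont.sub continuous_const).norm.pow 2
  have i1 : Integrable (fun y => dis L y ^ 2 * f y) μ :=
    (hd.mul hf).integrable_of_hasCompactSupport (HasCompactSupport.of_compactSpace _)
  have i2 : Integrable (fun y => dis L y ^ 2 * g y) μ :=
    (hd.mul hg).integrable_of_hasCompactSupport (HasCompactSupport.of_compactSpace _)
  have i3 : Integrable (fun y => dis L y ^ 2) μ :=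
    hd.integrable_of_hasCompactSupport (HasCompactSupport.of_compactSpace _)
  unfold g2
  rw [← integral_sub i2 i1, ← integral_const_mul]
  refine (abs_integral_le_integral_abs).trans (integral_mono (i2.sub i1).abs (i3.const_mul M)
    fun y => ?_)
  show |dis L y ^ 2 * g y - dis L y ^ 2 * f y| ≤ M * dis L y ^ 2
  rw [← mul_sub, abs_mul, abs_of_nonneg (sq_nonneg (dis L y)), mul_comm]
  exact mul_le_mul_of_nonneg_right (h y) (sq_nonneg _)

section run

variable {μ L} {Q : Type} {stp : Q → Q} {den : Q → G → ℝ} {tt lm : Q → ℝ} {GS : Q → ℝ → Prop}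
    {Ds : Q → Q → ℝ → Prop} {ts C c d0 ts3 C3 cas t1 : ℝ}

/-- the corrected inverse coupling is large -/
theorem W_ge' (uv2 : UV2 μ L stp den tt GS Ds ts C c (cas / 8) d0)
    (uv3 : UV3 stp tt lm GS ts3 C3 cas) (h1 : (C3 + cas) * t1 ≤ 1) {S : Q} {A : ℝ}
    (hS : GS S A) (hs : tt S ≤ t1) : cas / 15 ≤ 1 / tt S + 4 / 5 * (lm S * tt S) := by
  obtain ⟨p1, p2, p3, p4⟩ := uv2.pos _ _ hS
  have hC3 := uv3.C_pos
  have hcas := uv3.cas_pos
  have e1 : |lm S * tt S| ≤ C3 / 10 := by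
    rw [abs_mul, abs_of_pos p1]
    calc |lm S| * tt S ≤ C3 * A * tt S := mul_le_mul_of_nonneg_right (uv3.lam_le _ _ hS) p1.le
      _ = C3 * (A * tt S) := by ring
      _ ≤ C3 * (1 / 10) := mul_le_mul_of_nonneg_left p4 hC3.le
      _ = C3 / 10 := by ring
  have e2 : C3 + cas ≤ 1 / tt S := by
    rw [le_div_iff₀ p1]
    have : (C3 + cas) * tt S ≤ (C3 + cas) * t1 := mul_le_mul_of_nonneg_left hs (by positivity)
    linarith
  have := (abs_le.1 e1).1
  linarith

end run

end P6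

theorem psi_inj (hconn : IsConnected (Set.univ : Set G)) (hne : ∃ X ∈ lieSet L, X ≠ 0)
    (Good : (G → ℝ) → ℝ → ℝ → Prop) (ts0 C0 ρs c0 cas d0 : ℝ) (p : ℕ)
    (uv : UV μ L Good ts0 C0 ρs c0 (cas / 8) d0 p)
    {Q : Type} (stp : Q → Q) (den : Q → G → ℝ) (tt lm : Q → ℝ) (GS : Q → ℝ → Prop)
    (Ds : Q → Q → ℝ → Prop) (ts C c : ℝ) (uv2 : UV2 μ L stp den tt GS Ds ts C c (cas / 8) d0)
    (ts3 C3 : ℝ) (uv3 : UV3 stp tt lm GS ts3 C3 cas) (uv4 : UV4 stp tt GS Ds)
    (hG : ∀ S A, GS S A → Good (den S) (tt S) A) (hts : ts ≤ ts0) :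
    ∃ κ1 : ℝ, 0 < κ1 ∧ ∀ κ κ' : ℝ, 0 < κ → κ ≤ κ1 → 0 < κ' → κ' ≤ κ1 →
      ∀ (S S' : ℕ → Q) (A A' : ℕ → ℝ) (n n' : ℕ → ℕ), (∀ j, GS (S j) (A j)) →
        (∀ j, GS (S' j) (A' j)) → Tendsto (fun j => tt (S j)) atTop (𝓝 0) →
        Tendsto (fun j => tt (S' j)) atTop (𝓝 0) →
        Tendsto (fun j => g2 μ L ((mk μ)^[n j] (den (S j)))) atTop (𝓝 κ) →
        Tendsto (fun j => g2 μ L ((mk μ)^[n' j] (den (S' j)))) atTop (𝓝 κ') →
        Tendsto (fun j => ((n j : ℝ) - Psi cas (1 / tt (S j) + 4 / 5 * (lm (S j) * tt (S j)))) -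
          ((n' j : ℝ) - Psi cas (1 / tt (S' j) + 4 / 5 * (lm (S' j) * tt (S' j))))) atTop (𝓝 0) →
        κ = κ' := by
  have hC := uv2.C_pos
  have ha0 := uv2.a0_pos
  have hts0 := uv2.ts_pos
  have hC3 := uv3.C_pos
  have hcas := uv3.cas_pos
  have hts3 := uv3.ts_pos
  obtain ⟨α, tf, hα, htf, hflow⟩ := Tg.flow_abs (C := C) (C3 := C3) hcas hC hC3
  obtain ⟨X0, hX0, htr⟩ := uv2.triv (2 * C) (by positivity)
  obtain ⟨Cc, tc, hCc, htc, hc⟩ := uv2.contr (X0 + 2) (by positivity)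
  obtain ⟨Ce, te, hCe, hte, he⟩ := uv4.contr2 (X0 + 2 + 2 * C) (by positivity)
  obtain ⟨Cl, td, pl, hCl, htd, hl⟩ := uv2.dlip (X0 + 2) (by positivity)
  obtain ⟨cm, hcm⟩ : ∃ cm, cm = max Cc Ce := ⟨_, rfl⟩
  have hcm1 : Cc ≤ cm := by rw [hcm]; exact le_max_left _ _
  have hcm2 : Ce ≤ cm := by rw [hcm]; exact le_max_right _ _
  have hcm0 : 0 < cm := hCc.trans_le hcm1
  -- the smallness of the coupling
  obtain ⟨t1, ht1, hW, hV⟩ := Uq.exists_t1 (C := C) hC
    (W := 1 / ts + 20 * C + 1 / tc + 1 / te + 1 / td + 1 / tf + 1 / ts3 + 16 * cm + (C3 + cas))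
    (V := 2 / (cas / 8)) (by positivity) (by positivity)
  set δ := C * (Real.sqrt t1 + 2 * C * t1) with hδ
  have hδ0 : 0 ≤ δ := by positivity
  have hz1 : 0 < 1 / ts := by positivity
  have hz2 : 0 < 20 * C := by positivity
  have hz3 : 0 < 1 / tc := by positivity
  have hz4 : 0 < 1 / te := by positivity
  have hz5 : 0 < 1 / td := by positivity
  have hz6 : 0 < 1 / tf := by positivity
  have hz7 : 0 < 1 / ts3 := by positivity
  have hz8 : 0 < 16 * cm := by positivity
  have hz9 : 0 < C3 + cas := by positivity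
  have kW : ∀ a : ℝ, a ≤ 1 / ts + 20 * C + 1 / tc + 1 / te + 1 / td + 1 / tf + 1 / ts3 +
      16 * cm + (C3 + cas) → t1 * a ≤ 1 := fun a h =>
    (mul_le_mul_of_nonneg_left h ht1.le).trans hW
  have k1 : ∀ a : ℝ, 0 < a → t1 * (1 / a) ≤ 1 → t1 ≤ a := by
    intro a ha h
    rw [mul_one_div, div_le_one ha] at h
    exact h
  have w1 : t1 ≤ ts := k1 _ hts0 (kW _ (by linarith))
  have w2 : 2 * C * t1 ≤ 1 / 10 := by have := kW (20 * C) (by linarith); linarith
  have w3 : t1 ≤ tc := k1 _ htc (kW _ (by linarith))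
  have w4 : t1 ≤ te := k1 _ hte (kW _ (by linarith))
  have w5 : t1 ≤ td := k1 _ htd (kW _ (by linarith))
  have w6 : t1 ≤ tf := k1 _ htf (kW _ (by linarith))
  have w7 : t1 ≤ ts3 := k1 _ hts3 (kW _ (by linarith))
  have w8 : cm * t1 ≤ 1 / 16 := by have := kW (16 * cm) (by linarith); linarith
  have w9 : (C3 + cas) * t1 ≤ 1 := by have := kW (C3 + cas) (by linarith); linarith
  have v1 : δ ≤ cas / 8 / 2 := by
    have h2 : δ * (2 / (cas / 8)) = δ * 2 / (cas / 8) := by ring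
    rw [h2, div_le_one ha0] at hV
    linarith
  obtain ⟨κ2, hκ2, hex⟩ := exit_lower μ L hconn hne Good ts0 C0 ρs c0 (cas / 8) d0 p uv t1 ht1
  refine ⟨κ2 / 2, by positivity,
    fun κ κ' hκ hκle hκ' hκle' S S' A A' n n' hS hS' h0 h0' hg hg' hpsi => ?_⟩
  have hRE := Uq.exists_RE uv2 hG hts w1 w2 hex hκ (by linarith) hS h0 hg
  have hRE' := Uq.exists_RE uv2 hG hts w1 w2 hex hκ' (by linarith) hS' h0' hg'
  have hrun : ∀ᶠ j in atTop, ∀ i ≤ n j, GS (stp^[i] (S j)) (Uq.AA C (A j) i) ∧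
      tt (stp^[i] (S j)) < t1 := by
    filter_upwards [hg.eventually (gt_mem_nhds (show κ < κ2 by linarith))] with j h1 i hi
    obtain ⟨h2, h3, -⟩ := Uq.run uv2 hG hts w1 hex (hS j) h1 i hi
    exact ⟨h2, h3⟩
  have hrun' : ∀ᶠ j in atTop, ∀ i ≤ n' j, GS (stp^[i] (S' j)) (Uq.AA C (A' j) i) ∧
      tt (stp^[i] (S' j)) < t1 := by
    filter_upwards [hg'.eventually (gt_mem_nhds (show κ' < κ2 by linarith))] with j h1 i hi
    obtain ⟨h2, h3, -⟩ := Uq.run uv2 hG hts w1 hex (hS' j) h1 i hi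
    exact ⟨h2, h3⟩
  obtain ⟨b, hb⟩ : ∃ b, b = 16 / cas := ⟨_, rfl⟩
  have hb0 : 0 < b := by rw [hb]; positivity
  obtain ⟨B, hB⟩ : ∃ B, B = 2 * C / κ := ⟨_, rfl⟩
  have hB0 : 0 < B := by rw [hB]; positivity
  rw [← hB] at hRE
  obtain ⟨F, hF⟩ : ∃ F, F = Real.exp (2 * ((cm + 4 * cm ^ 2) * b ^ 2)) := ⟨_, rfl⟩
  have hF0 : 0 < F := by rw [hF]; exact Real.exp_pos _
  obtain ⟨I2, hI2⟩ : ∃ I2, I2 = ∫ y, dis L y ^ 2 ∂μ := ⟨_, rfl⟩
  have hI20 : 0 ≤ I2 := by rw [hI2]; exact integral_nonneg fun y => sq_nonneg _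
  obtain ⟨M, hM⟩ : ∃ M, M = Cl * B ^ pl := ⟨_, rfl⟩
  have hM0 : 0 < M := by rw [hM]; positivity
  set ep : ℕ → ℝ := fun j => ((n j : ℝ) - Psi cas (1 / tt (S j) + 4 / 5 * (lm (S j) * tt (S j)))) -
          ((n' j : ℝ) - Psi cas (1 / tt (S' j) + 4 / 5 * (lm (S' j) * tt (S' j)))) with hep
  -- the remainder from the distance from the end
  set R : ℕ → ℝ := fun J => cas / 4 * (2 * α * Real.sqrt (b / J)) + 4 * C3 * C * (b / J) +
    2 * cm * X0 * (b / J) with hR
  have hRlim : Tendsto R atTop (𝓝 0) := by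
    have e1 : Tendsto (fun l : ℕ => b / (l : ℝ)) atTop (𝓝 0) :=
      tendsto_const_div_atTop_nhds_zero_nat _
    have e2 : Tendsto R atTop
        (𝓝 (cas / 4 * (2 * α * Real.sqrt 0) + 4 * C3 * C * 0 + 2 * cm * X0 * 0)) :=
      ((((Real.continuous_sqrt.tendsto 0).comp e1).const_mul (2 * α)).const_mul (cas / 4) |>.add
        (e1.const_mul _)).add (e1.const_mul _)
    rw [Real.sqrt_zero, mul_zero, mul_zero, mul_zero, mul_zero, add_zero, add_zero] at e2
    exact e2
  -- the main claim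
  have claim : Tendsto (fun j => g2 μ L ((mk μ)^[n' j] (den (S' j))) -
      g2 μ L ((mk μ)^[n j] (den (S j)))) atTop (𝓝 0) := by
    rw [Metric.tendsto_nhds]
    intro e he0
    obtain ⟨J, hJ1, hJ2, hJ3⟩ : ∃ J : ℕ, 1 ≤ J ∧ F * R J < 1 / 2 ∧
        M * (2 * (F * R J) + X0 * (1 / 8) ^ J) * I2 < e / 2 := by
      have e1 : Tendsto (fun J => F * R J) atTop (𝓝 (F * 0)) := hRlim.const_mul F
      have e2 : Tendsto (fun J => M * (2 * (F * R J) + X0 * (1 / 8 : ℝ) ^ J) * I2) atTop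
          (𝓝 (M * (2 * (F * 0) + X0 * 0) * I2)) :=
        (((e1.const_mul 2).add ((tendsto_pow_atTop_nhds_zero_of_lt_one (by norm_num)
          (by norm_num)).const_mul X0)).const_mul M).mul_const I2
      rw [mul_zero] at e1
      rw [mul_zero, mul_zero, mul_zero, add_zero, mul_zero, zero_mul] at e2
      obtain ⟨J, h1, h2, h3⟩ := ((e1.eventually (gt_mem_nhds (show (0 : ℝ) < 1 / 2 by
        norm_num))).and ((e2.eventually (gt_mem_nhds (show 0 < e / 2 by positivity))).and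
        (eventually_ge_atTop 1))).exists
      exact ⟨J, h3, h1, h2⟩
    have hJ0 : (0 : ℝ) < J := by exact_mod_cast hJ1
    have hbJ : 0 < b / J := by positivity
    have hep1 : Tendsto (fun j => F * (cas / 4 * |ep j|)) atTop (𝓝 0) := by
      have h1 := ((hpsi.abs).const_mul (cas / 4)).const_mul F
      rw [abs_zero, mul_zero, mul_zero] at h1
      exact h1
    have hep2 : Tendsto (fun j => M * (2 * (F * (cas / 4 * |ep j|))) * I2) atTop (𝓝 0) := by
      have h1 := ((hep1.const_mul 2).const_mul M).mul_const I2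
      rw [mul_zero, mul_zero, zero_mul] at h1
      exact h1
    filter_upwards [hRE J, hRE' J, hrun, hrun',
      hep1.eventually (gt_mem_nhds (show (0 : ℝ) < 1 / 2 by norm_num)),
      hep2.eventually (gt_mem_nhds (show 0 < e / 2 by positivity))] with j r1 r2 r3 r4 r5 r6
    -- the flow
    have f1 := Tg.flow_run uv2 uv3 hflow w6 w1 w7 r3 (Nat.sub_le (n j) J)
    have f2 := Tg.flow_run uv2 uv3 hflow w6 w1 w7 r4 (Nat.sub_le (n' j) J)
    rw [Nat.cast_sub r1.le] at f1
    rw [Nat.cast_sub r2.le] at f2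
    have es1 := Tg.end_small r1 (fun S A h => (uv2.pos S A h).1) v1
    have es2 := Tg.end_small r2 (fun S A h => (uv2.pos S A h).1) v1
    -- the couplings before the end
    have m1 : ∀ l ≤ J, 1 ≤ l → tt (stp^[n j - l] (S j)) ≤ b / l := by
      intro l hl hl1
      have hl0 : (0 : ℝ) < l := by exact_mod_cast hl1
      have h1 := es1 l hl
      have p1 := (uv2.pos _ _ (r1.gs l hl)).1
      rw [le_div_iff₀ p1] at h1
      rw [hb, div_div, le_div_iff₀ (by positivity)]
      linarith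
    have m2 : tt (stp^[n' j - J] (S' j)) ≤ b / J := by
      have h1 := es2 J le_rfl
      have p1 := (uv2.pos _ _ (r2.gs J le_rfl)).1
      rw [le_div_iff₀ p1] at h1
      rw [hb, div_div, le_div_iff₀ (by positivity)]
      linarith
    have m1J := m1 J le_rfl hJ1
    -- the distance at `J`
    have yJ : Uq.yy stp tt (S j) (S' j) (n j) (n' j) J ≤
        cas / 4 * |ep j| + cas / 4 * (2 * α * Real.sqrt (b / J)) + 4 * C3 * C * (b / J) := by
      have g1 := r1.gs J le_rfl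
      have g2' := r2.gs J le_rfl
      have s1 := r1.small J le_rfl
      have s2 := r2.small J le_rfl
      have p1 := (uv2.pos _ _ g1).1
      have p2 := (uv2.pos _ _ g2').1
      have x1 := P6.W_ge' uv2 uv3 w9 g1 s1
      have x2 := P6.W_ge' uv2 uv3 w9 g2' s2
      have l1 := uv3.lam_le _ _ g1
      have l2 := uv3.lam_le _ _ g2'
      unfold Uq.yy
      have hepj : ep j = ((n j : ℝ) - Psi cas (1 / tt (S j) + 4 / 5 * (lm (S j) * tt (S j)))) -
          ((n' j : ℝ) - Psi cas (1 / tt (S' j) + 4 / 5 * (lm (S' j) * tt (S' j)))) := rfl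
      set T := stp^[n j - J] (S j) with hT
      set T' := stp^[n' j - J] (S' j) with hT'
      have n1 : α * Real.sqrt (tt T) ≤ α * Real.sqrt (b / J) :=
        mul_le_mul_of_nonneg_left (Real.sqrt_le_sqrt m1J) hα.le
      have n2 : α * Real.sqrt (tt T') ≤ α * Real.sqrt (b / J) :=
        mul_le_mul_of_nonneg_left (Real.sqrt_le_sqrt m2) hα.le
      have k1 : |lm T * tt T| ≤ 2 * C3 * C * (b / J) := by
        rw [abs_mul, abs_of_pos p1]
        calc |lm T| * tt T ≤ C3 * (2 * C) * (b / J) := mul_le_mul l1 m1J p1.le (by positivity)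
          _ = _ := by ring
      have k2 : |lm T' * tt T'| ≤ 2 * C3 * C * (b / J) := by
        rw [abs_mul, abs_of_pos p2]
        calc |lm T'| * tt T' ≤ C3 * (2 * C) * (b / J) := mul_le_mul l2 m2 p2.le (by positivity)
          _ = _ := by ring
      have k3 := P6.psi_lower hcas x2 x1
      set V1 := 1 / tt T + 4 / 5 * (lm T * tt T) with hV1
      set V2 := 1 / tt T' + 4 / 5 * (lm T' * tt T') with hV2
      have k4 : |Psi cas V2 - Psi cas V1| ≤ |ep j| + 2 * α * Real.sqrt (b / J) := by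
        have q1 := abs_le.1 (f1.trans n1)
        have q2 := abs_le.1 (f2.trans n2)
        have q3 := le_abs_self (ep j)
        have q4 := neg_abs_le (ep j)
        rw [hepj] at q3 q4
        rw [← hepj] at q3 q4
        rw [abs_le]
        constructor <;> linarith [q1.1, q1.2, q2.1, q2.2]
      have k5 : |V2 - V1| ≤ cas / 4 * (|ep j| + 2 * α * Real.sqrt (b / J)) := by
        have h1 : |V2 - V1| = cas / 4 * (4 / cas * |V2 - V1|) := by field_simp
        rw [h1]
        exact mul_le_mul_of_nonneg_left (k3.trans k4) (by positivity)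
      have e1 := abs_le.1 k5
      have e2 : 0 ≤ 2 * C3 * C * (b / J) := by positivity
      rw [mul_add] at e1
      rw [abs_le] at k1 k2 ⊢
      constructor <;> linarith [k1.1, k1.2, k2.1, k2.2, e1.1, e1.2]
    have hPle : F * (Uq.yy stp tt (S j) (S' j) (n j) (n' j) J +
        2 * cm * tt (stp^[n j - J] (S j)) * X0) ≤ F * (cas / 4 * |ep j|) + F * R J := by
      rw [← mul_add]
      refine mul_le_mul_of_nonneg_left ?_ hF0.le
      have h1 : 2 * cm * tt (stp^[n j - J] (S j)) * X0 ≤ 2 * cm * X0 * (b / J) := by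
        calc 2 * cm * tt (stp^[n j - J] (S j)) * X0 = 2 * cm * X0 * tt (stp^[n j - J] (S j)) := by
              ring
          _ ≤ _ := mul_le_mul_of_nonneg_left m1J (by positivity)
      have h2 : R J = cas / 4 * (2 * α * Real.sqrt (b / J)) + 4 * C3 * C * (b / J) +
        2 * cm * X0 * (b / J) := rfl
      rw [h2]
      linarith
    obtain ⟨X, hX, hD, hXle, hy0⟩ := P6.back (J := J)
      (y := fun l => Uq.yy stp tt (S j) (S' j) (n j) (n' j) l)
      (t := fun l => tt (stp^[n j - l] (S j)))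
      (D := fun l X => Ds (stp^[n j - l] (S j)) (stp^[n' j - l] (S' j)) X)
      (c := cm) (t1 := t1) (b := b) (X0 := X0) hcm0 hX0 w8 (fun l => abs_nonneg _)
      (fun l hl => (uv2.pos _ _ (r1.gs l hl)).1) (fun l hl => r1.small l hl) (by
        intro l hl
        have p1 := (uv2.pos _ _ (r1.gs (l + 1) hl)).1
        have p0 := (uv2.pos _ _ (r1.gs l hl.le)).1
        have s1 := r1.small (l + 1) hl
        have h1 := (abs_le.1 ((r1.dr l hl).trans v1)).1
        show tt (stp^[n j - l] (S j)) ≤ 2 * tt (stp^[n j - (l + 1)] (S j))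
        set t := tt (stp^[n j - (l + 1)] (S j)) with ht
        set t' := tt (stp^[n j - l] (S j)) with ht'
        have h2 : cas * t ≤ 1 := by nlinarith
        have h3 : cas ≤ 1 / t := by rw [le_div_iff₀ p1]; exact h2
        have h4 : 1 / (2 * t) ≤ 1 / t' := by
          have h5 : 1 / t = 1 / (2 * t) + 1 / (2 * t) := by field_simp; norm_num
          linarith
        exact (one_div_le_one_div (by positivity) p0).1 h4) (by
        intro l hl
        have h1 := m1 (l + 1) hl (by omega)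
        push_cast at h1
        exact h1) (htr _ _ (r1.gs J le_rfl) (r2.gs J le_rfl)) (by
        intro l hlJ X hX hK hD
        have g1 := r1.gs (l + 1) hlJ
        have g1' := r2.gs (l + 1) hlJ
        have s1 := r1.small (l + 1) hlJ
        have s1' := r2.small (l + 1) hlJ
        have p1 := (uv2.pos _ _ g1).1
        obtain ⟨h1, -⟩ := hc _ _ _ X g1 g1' hX (s1.trans w3) (s1'.trans w3) hK hD
        have h2 := he _ _ _ X g1 g1' (by linarith) hX (s1.trans w4) (s1'.trans w4) (by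
          have hK' : |1 / tt (stp^[n' j - (l + 1)] (S' j)) - 1 / tt (stp^[n j - (l + 1)] (S j))| +
            X ≤ X0 + 2 := hK
          linarith) hD
        have hn := r1.le
        have hn' := r2.le
        rw [← Function.iterate_succ_apply' stp, ← Function.iterate_succ_apply' stp,
          show (n j - (l + 1)).succ = n j - l by omega,
          show (n' j - (l + 1)).succ = n' j - l by omega] at h1 h2
        show ∃ X', 0 ≤ X' ∧ X' ≤ X / 16 + cm * tt (stp^[n j - (l + 1)] (S j)) *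
          (|1 / tt (stp^[n' j - (l + 1)] (S' j)) - 1 / tt (stp^[n j - (l + 1)] (S j))| + X) ∧
          Ds (stp^[n j - l] (S j)) (stp^[n' j - l] (S' j)) X' ∧
          |1 / tt (stp^[n' j - l] (S' j)) - 1 / tt (stp^[n j - l] (S j))| ≤
            |1 / tt (stp^[n' j - (l + 1)] (S' j)) - 1 / tt (stp^[n j - (l + 1)] (S j))| +
            cm * (tt (stp^[n j - (l + 1)] (S j)) ^ 2 *
              |1 / tt (stp^[n' j - (l + 1)] (S' j)) - 1 / tt (stp^[n j - (l + 1)] (S j))| +
              tt (stp^[n j - (l + 1)] (S j)) * X)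
        have hyl : 0 ≤ |1 / tt (stp^[n' j - (l + 1)] (S' j)) -
          1 / tt (stp^[n j - (l + 1)] (S j))| := abs_nonneg _
        set t := tt (stp^[n j - (l + 1)] (S j)) with ht
        set w := |1 / tt (stp^[n' j - (l + 1)] (S' j)) - 1 / t| with hw
        refine ⟨_, ?_, ?_, h1, ?_⟩
        · positivity
        · have h3 : Cc * t * (w + X) ≤ cm * t * (w + X) :=
            mul_le_mul_of_nonneg_right (mul_le_mul_of_nonneg_right hcm1 p1.le) (by positivity)
          linarith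
        · have h3 := (abs_abs_sub_abs_le_abs_sub _ _).trans h2
          have h4 := (abs_le.1 h3).2
          have h5 : Ce * (t ^ 2 * w + t * X) ≤ cm * (t ^ 2 * w + t * X) :=
            mul_le_mul_of_nonneg_right hcm2 (by positivity)
          linarith) (by
        rw [← hF]
        refine hPle.trans ?_
        linarith)
    rw [← hF] at hXle hy0
    have hXle' : X ≤ X0 / 8 ^ J + (F * (cas / 4 * |ep j|) + F * R J) :=
      hXle.trans (by linarith)
    have hy0' : Uq.yy stp tt (S j) (S' j) (n j) (n' j) 0 ≤ F * (cas / 4 * |ep j|) + F * R J :=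
      hy0.trans hPle
    have hq : X0 / 8 ^ J ≤ X0 := div_le_self hX0 (one_le_pow₀ (by norm_num))
    have G0 := r1.gs 0 (Nat.zero_le _)
    have G0' := r2.gs 0 (Nat.zero_le _)
    have h9 := hl _ _ _ X G0 G0' hX ((r1.small 0 (Nat.zero_le _)).trans w5)
      ((r2.small 0 (Nat.zero_le _)).trans w5) (by
        have h1 : Uq.yy stp tt (S j) (S' j) (n j) (n' j) 0 + X ≤ X0 + 2 := by linarith
        exact h1) hD
    have h10 : Cl / tt (stp^[n j - 0] (S j)) ^ pl ≤ M := by
      have e1 := r1.inv 0 (Nat.zero_le _)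
      rw [Nat.cast_zero, mul_zero, add_zero] at e1
      have e2 := (uv2.pos _ _ G0).1
      have e3 : Cl / tt (stp^[n j - 0] (S j)) ^ pl =
          Cl * (1 / tt (stp^[n j - 0] (S j))) ^ pl := by
        rw [one_div, inv_pow, div_eq_mul_inv]
      rw [e3, hM]
      exact mul_le_mul_of_nonneg_left (pow_le_pow_left₀ (by positivity) e1 pl) hCl.le
    have h11 : ∀ x, |den (stp^[n' j - 0] (S' j)) x - den (stp^[n j - 0] (S j)) x| ≤
        M * (2 * (F * (cas / 4 * |ep j|) + F * R J) + X0 / 8 ^ J) := by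
      intro x
      refine (h9 x).trans ?_
      refine mul_le_mul h10 ?_ (by positivity) hM0.le
      have h1 : Uq.yy stp tt (S j) (S' j) (n j) (n' j) 0 + X ≤
        2 * (F * (cas / 4 * |ep j|) + F * R J) + X0 / 8 ^ J := by linarith
      exact h1
    have c1 : Continuous (den (stp^[n j - 0] (S j))) := (uv.pd _ _ _ (hG _ _ G0)).cont
    have c2 : Continuous (den (stp^[n' j - 0] (S' j))) := (uv.pd _ _ _ (hG _ _ G0')).cont
    have h12 := P6.g2_lip μ L c1 c2 h11
    rw [r1.dn 0 (Nat.zero_le _), r2.dn 0 (Nat.zero_le _), Nat.sub_zero, Nat.sub_zero,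
      ← hI2] at h12
    rw [Real.dist_eq, sub_zero]
    refine lt_of_le_of_lt h12 ?_
    have h13 : M * (2 * (F * (cas / 4 * |ep j|) + F * R J) + X0 / 8 ^ J) * I2 =
        M * (2 * (F * (cas / 4 * |ep j|))) * I2 +
          M * (2 * (F * R J) + X0 * (1 / 8) ^ J) * I2 := by
      rw [one_div, inv_pow, ← div_eq_mul_inv]
      ring
    rw [h13]
    linarith
  have h1 := tendsto_nhds_unique claim (hg'.sub hg)
  linarith

end

end Pool.Agent.T2H04.HY
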