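import Mathlib
import Pool.Agent.T2H04.HY.TlG

/-!
# Forward control of the running coupling (package P7)

(`tt S ≤ t2` small is needed for `Psi` at the start.) Let `P0 = Psi cas (1 / tt S + 4/5 * (lm S * tt S))`. As long as all `tt (stp^[i] S) ≤ t1` (`i ≤ N`),
`Tg.flow_run` (from `Tg.flow_abs`, see the proof of `two_loop`) gives
`|P0 - N - Psi cas (v_N)| ≤ α √t1`, `v_N = 1 / tt_N + 4/5 lm_N tt_N`, `|v_N - 1/tt_N| ≤ C/10` (`lam_le`,
`A tt ≤ 1/10`). If `P0 - N ≥ M` (`M` large) this gives `1/tt_N ≥ 4/t1`, so `tt (stp^[N+1] S) ≤ t1`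
(`uv2.step`: `1/tt_{N+1} ≥ 1/tt_N - a0 - C (√ts + 1/10)`): induction over `N`. Finally
`c' / (P0 - N) ≤ tt_N ≤ C' / (P0 - N)` (`Psi v` is between `v · 4/cas` and `v · 8/cas` for large `v`) and
`c tt_N ≤ g2 (den (stp^[N] S)) ≤ C tt_N`, `den (stp^[N] S) = (mk μ)^[N] (den S)`.
-/

open MeasureTheory Matrix Filter
open scoped Matrix.Norms.Frobenius Topology

namespace Pool.Agent.T2H04.HY

set_option linter.unusedSectionVars false

noncomputable section

variable {G : Type} [Group G] [TopologicalSpace G] [IsTopologicalGroup G] [CompactSpace G]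
  [MeasurableSpace G] [BorelSpace G] (μ : Measure G) [μ.IsHaarMeasure] [IsProbabilityMeasure μ]
  {m : Type} [Fintype m] [DecidableEq m] (L : RD G m)

namespace Tg7

theorem psi_le {cas v : ℝ} (hv : 1 ≤ v) : Psi cas v ≤ 8 / cas * v := by
  unfold Psi
  have := Real.log_nonneg hv
  linarith

/-- lower bound of the two loop time by a tangent line of the logarithm -/
theorem psi_ge {cas v : ℝ} (hcas : 0 < cas) (hv : 1 ≤ v) :
    4 / cas * v - |4 / 15 * (1 + Real.log (15 / cas))| ≤ Psi cas v := by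
  have hv0 : 0 < v := by linarith
  have h1 := Real.log_le_sub_one_of_pos (show 0 < 15 / cas * v by positivity)
  rw [Real.log_mul (by positivity) hv0.ne'] at h1
  have h2 := neg_abs_le (4 / 15 * (1 + Real.log (15 / cas)))
  have e : Psi cas v = 4 / cas * v + 4 / 15 * (15 / cas * v - Real.log v) := by
    unfold Psi
    field_simp
    ring
  rw [e]
  nlinarith

section run

variable {μ L} {Q : Type} {stp : Q → Q} {den : Q → G → ℝ} {tt lm : Q → ℝ} {GS : Q → ℝ → Prop}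
    {Ds : Q → Q → ℝ → Prop} {ts C c d0 ts3 C3 cas t1 : ℝ}

theorem lam_tt (uv2 : UV2 μ L stp den tt GS Ds ts C c (cas / 8) d0)
    (uv3 : UV3 stp tt lm GS ts3 C3 cas) {S : Q} {A : ℝ} (hS : GS S A) :
    |lm S * tt S| ≤ C3 / 10 := by
  obtain ⟨p1, p2, p3, p4⟩ := uv2.pos _ _ hS
  have hC3 := uv3.C_pos
  rw [abs_mul, abs_of_pos p1]
  calc |lm S| * tt S ≤ C3 * A * tt S := mul_le_mul_of_nonneg_right (uv3.lam_le _ _ hS) p1.le
    _ = C3 * (A * tt S) := by ring
    _ ≤ C3 * (1 / 10) := mul_le_mul_of_nonneg_left p4 hC3.le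
    _ = C3 / 10 := by ring

end run

end Tg7

/-- forward control of the run -/
theorem fwd_run {Q : Type} (stp : Q → Q) (den : Q → G → ℝ) (tt lm : Q → ℝ) (GS : Q → ℝ → Prop)
    (Ds : Q → Q → ℝ → Prop) (ts C c cas d0 : ℝ)
    (uv2 : UV2 μ L stp den tt GS Ds ts C c (cas / 8) d0)
    (ts3 C3 : ℝ) (uv3 : UV3 stp tt lm GS ts3 C3 cas) :
    ∃ α : ℝ, 0 < α ∧ ∀ t1 : ℝ, 0 < t1 → ∃ M t2 : ℝ, 1 ≤ M ∧ 0 < t2 ∧
      ∀ (S : Q) (A : ℝ) (N : ℕ), GS S A → tt S ≤ t2 →
      N + M ≤ Psi cas (1 / tt S + 4 / 5 * (lm S * tt S)) →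
        (∀ i ≤ N, GS (stp^[i] S) (Uq.AA C A i) ∧ tt (stp^[i] S) < t1 ∧
          den (stp^[i] S) = (mk μ)^[i] (den S)) ∧
        |Psi cas (1 / tt S + 4 / 5 * (lm S * tt S)) - N -
          Psi cas (1 / tt (stp^[N] S) + 4 / 5 * (lm (stp^[N] S) * tt (stp^[N] S)))| ≤
          α * Real.sqrt (tt (stp^[N] S)) := by
  have hC := uv2.C_pos
  have hC3 := uv3.C_pos
  have hcas := uv3.cas_pos
  have hts := uv2.ts_pos
  have hts3 := uv3.ts_pos
  obtain ⟨α, tf, hα, htf, hflow⟩ := Tg.flow_abs (C := C) (C3 := C3) hcas hC hC3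
  refine ⟨α, hα, fun t1 ht1 => ?_⟩
  obtain ⟨r, hr⟩ : ∃ r, r = min (min t1 (min tf ts)) (min ts3 (min (1 / C3) (1 / 2))) := ⟨_, rfl⟩
  have hr0 : 0 < r := by rw [hr]; positivity
  have r1 : r ≤ t1 := by rw [hr]; exact (min_le_left _ _).trans (min_le_left _ _)
  have r2 : r ≤ tf := by
    rw [hr]; exact (min_le_left _ _).trans ((min_le_right _ _).trans (min_le_left _ _))
  have r3 : r ≤ ts := by
    rw [hr]; exact (min_le_left _ _).trans ((min_le_right _ _).trans (min_le_right _ _))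
  have r4 : r ≤ ts3 := by rw [hr]; exact (min_le_right _ _).trans (min_le_left _ _)
  have r5 : C3 * r ≤ 1 := by
    have : r ≤ 1 / C3 := by
      rw [hr]; exact (min_le_right _ _).trans ((min_le_right _ _).trans (min_le_left _ _))
    rw [le_div_iff₀ hC3] at this
    linarith
  have r6 : r ≤ 1 / 2 := by
    rw [hr]; exact (min_le_right _ _).trans ((min_le_right _ _).trans (min_le_right _ _))
  obtain ⟨R, hR⟩ : ∃ R, R = 1 / r + 1 + cas / 8 + 2 * C + C3 / 10 := ⟨_, rfl⟩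
  have hR0 : 0 < R := by rw [hR]; positivity
  refine ⟨1 + α + 8 / cas * R, r / 2, ?_, by positivity, fun S A N hS hSt hP => ?_⟩
  · have : 0 < 8 / cas * R := by positivity
    linarith
  have key : ∀ i ≤ N, GS (stp^[i] S) (Uq.AA C A i) ∧ tt (stp^[i] S) < r ∧
      den (stp^[i] S) = (mk μ)^[i] (den S) := by
    intro i
    induction i using Nat.strong_induction_on with
    | _ i ih =>
      intro hi
      rcases Nat.eq_zero_or_pos i with h0 | h0
      · subst h0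
        refine ⟨hS, ?_, rfl⟩
        show tt S < r
        linarith
      · obtain ⟨j, rfl⟩ : ∃ j, i = j + 1 := ⟨i - 1, by omega⟩
        obtain ⟨h1, h2, h3⟩ := ih j (by omega) (by omega)
        have hrun : ∀ i ≤ j, GS (stp^[i] S) (Uq.AA C A i) ∧ tt (stp^[i] S) < r := fun i hij => by
          obtain ⟨a, b, _⟩ := ih i (by omega) (by omega)
          exact ⟨a, b⟩
        have hf := Tg.flow_run uv2 uv3 hflow r2 r3 r4 hrun le_rfl
        obtain ⟨p1, p2, p3, p4⟩ := uv2.pos _ _ h1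
        have hlt := Tg7.lam_tt uv2 uv3 h1
        have hW := Tg.W_ge uv2 uv3 r5 r6 h1 h2.le
        have hsq : Real.sqrt (tt (stp^[j] S)) ≤ 1 := by
          rw [Real.sqrt_le_one]; linarith
        have hψ := Tg7.psi_le (cas := cas) hW
        have hf1 := (abs_le.1 hf).2
        have hα1 : α * Real.sqrt (tt (stp^[j] S)) ≤ α := by nlinarith
        have hjN : (j : ℝ) + 1 ≤ N := by exact_mod_cast hi
        have h4 : 8 / cas * R ≤ 8 / cas * (1 / tt (stp^[j] S) + 4 / 5 * (lm (stp^[j] S) * tt (stp^[j] S))) := by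
          linarith
        have h5 : R ≤ 1 / tt (stp^[j] S) + 4 / 5 * (lm (stp^[j] S) * tt (stp^[j] S)) :=
          le_of_mul_le_mul_left h4 (by positivity)
        have h6 := (abs_le.1 hlt).2
        have h7 : 1 / r + 1 + cas / 8 + 2 * C ≤ 1 / tt (stp^[j] S) := by
          rw [hR] at h5
          linarith
        obtain ⟨s1, s2, s3⟩ := uv2.step _ _ h1 (by linarith)
        have h8 : C * (Real.sqrt (tt (stp^[j] S)) + Uq.AA C A j * tt (stp^[j] S)) ≤ C * (1 + 1) :=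
          mul_le_mul_of_nonneg_left (by linarith) hC.le
        have h9 := (abs_le.1 (s3.trans h8)).1
        have e6 : stp^[j + 1] S = stp (stp^[j] S) := Function.iterate_succ_apply' _ _ _
        have h10 : GS (stp^[j + 1] S) (Uq.AA C A (j + 1)) := by rw [e6, Uq.AA_succ]; exact s1
        refine ⟨h10, ?_, ?_⟩
        · rw [e6]
          have h11 : 1 / r < 1 / tt (stp (stp^[j] S)) := by linarith
          have h12 : 0 < tt (stp (stp^[j] S)) := by
            rw [← e6]; exact (uv2.pos _ _ h10).1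
          exact (one_div_lt_one_div hr0 h12).1 h11
        · rw [e6, s2, h3, Function.iterate_succ_apply']
  refine ⟨fun i hi => ?_, ?_⟩
  · obtain ⟨h1, h2, h3⟩ := key i hi
    exact ⟨h1, lt_of_lt_of_le h2 r1, h3⟩
  · exact Tg.flow_run uv2 uv3 hflow r2 r3 r4 (fun i hi => ⟨(key i hi).1, (key i hi).2.1⟩) le_rfl

theorem fwd_g2 {Q : Type} (stp : Q → Q) (den : Q → G → ℝ) (tt lm : Q → ℝ) (GS : Q → ℝ → Prop)
    (Ds : Q → Q → ℝ → Prop) (ts C c cas d0 : ℝ)
    (uv2 : UV2 μ L stp den tt GS Ds ts C c (cas / 8) d0)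
    (ts3 C3 : ℝ) (uv3 : UV3 stp tt lm GS ts3 C3 cas) :
    ∃ M t2 c' C' : ℝ, 1 ≤ M ∧ 0 < t2 ∧ 0 < c' ∧ 0 < C' ∧ ∀ (S : Q) (A : ℝ) (N : ℕ), GS S A →
      tt S ≤ t2 → N + M ≤ Psi cas (1 / tt S + 4 / 5 * (lm S * tt S)) →
        c' / (Psi cas (1 / tt S + 4 / 5 * (lm S * tt S)) - N) ≤ g2 μ L ((mk μ)^[N] (den S)) ∧
        g2 μ L ((mk μ)^[N] (den S)) ≤
          C' / (Psi cas (1 / tt S + 4 / 5 * (lm S * tt S)) - N) := by
  have hC := uv2.C_pos
  have hc := uv2.c_pos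
  have hC3 := uv3.C_pos
  have hcas := uv3.cas_pos
  obtain ⟨α, hα, hrun⟩ := fwd_run μ L stp den tt lm GS Ds ts C c cas d0 uv2 ts3 C3 uv3
  obtain ⟨r, hr⟩ : ∃ r, r = min (1 / C3) (1 / 2) := ⟨_, rfl⟩
  have hr0 : 0 < r := by rw [hr]; positivity
  have r5 : C3 * r ≤ 1 := by
    have : r ≤ 1 / C3 := by rw [hr]; exact min_le_left _ _
    rw [le_div_iff₀ hC3] at this
    linarith
  have r6 : r ≤ 1 / 2 := by rw [hr]; exact min_le_right _ _
  obtain ⟨M, t2, hM, ht2, hrun⟩ := hrun r hr0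
  obtain ⟨B, hB⟩ : ∃ B, B = |4 / 15 * (1 + Real.log (15 / cas))| := ⟨_, rfl⟩
  have hB0 : 0 ≤ B := by rw [hB]; exact abs_nonneg _
  refine ⟨M, t2, c * (2 / (cas * (1 + B + α))), C * (16 / cas + α), hM, ht2, by positivity, by positivity,
    fun S A N hS hSt hP => ?_⟩
  obtain ⟨h1, h2⟩ := hrun S A N hS hSt hP
  obtain ⟨g1, g2', g3⟩ := h1 N le_rfl
  obtain ⟨p1, p2, p3, p4⟩ := uv2.pos _ _ g1
  obtain ⟨P, hPd⟩ : ∃ P, P = Psi cas (1 / tt S + 4 / 5 * (lm S * tt S)) - N := ⟨_, rfl⟩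
  rw [← hPd] at h2 ⊢
  have hP1 : 1 ≤ P := by linarith
  have hP0 : 0 < P := by linarith
  rw [← g3]
  have hlt := Tg7.lam_tt uv2 uv3 g1
  have hW := Tg.W_ge uv2 uv3 r5 r6 g1 g2'.le
  have hsq : Real.sqrt (tt (stp^[N] S)) ≤ 1 := by
    rw [Real.sqrt_le_one]; linarith
  have hα1 : α * Real.sqrt (tt (stp^[N] S)) ≤ α := by nlinarith
  have h3 := abs_le.1 (h2.trans hα1)
  have hlo := uv2.g2_lo _ _ g1
  have hhi := uv2.g2_hi _ _ g1
  have hψ1 := Tg7.psi_le (cas := cas) hW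
  have hψ2 := Tg7.psi_ge hcas hW
  rw [← hB] at hψ2
  obtain ⟨t, ht⟩ : ∃ t, t = tt (stp^[N] S) := ⟨_, rfl⟩
  obtain ⟨w, hw⟩ : ∃ w, w = 1 / tt (stp^[N] S) + 4 / 5 * (lm (stp^[N] S) * tt (stp^[N] S)) := ⟨_, rfl⟩
  rw [← hw] at h3 hψ1 hψ2 hW
  have hu : C3 ≤ 1 / t := by
    rw [ht, le_div_iff₀ p1]
    nlinarith
  have hl := abs_le.1 hlt
  have hw1 : w ≤ 2 * (1 / t) := by
    rw [ht] at hu ⊢
    rw [hw]
    linarith [hl.2]
  have hw2 : 1 / 2 * (1 / t) ≤ w := by
    rw [ht] at hu ⊢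
    rw [hw]
    linarith [hl.1]
  rw [← ht] at hlo hhi p1 g2'
  constructor
  · -- lower bound
    refine le_trans ?_ hlo
    have e1 : 4 / cas * (1 / 2 * (1 / t)) ≤ 4 / cas * w := mul_le_mul_of_nonneg_left hw2 (by positivity)
    have e2 : 2 / cas * (1 / t) ≤ (1 + B + α) * P := by
      have e3 : 4 / cas * (1 / 2 * (1 / t)) = 2 / cas * (1 / t) := by ring
      rw [e3] at e1
      nlinarith [h3.1]
    have e4 : 2 / (cas * (1 + B + α)) / P ≤ t := by
      rw [div_div, div_le_iff₀ (by positivity)]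
      have e5 : 2 / cas * (1 / t) = 2 / (cas * t) := by field_simp
      rw [e5, div_le_iff₀ (by positivity)] at e2
      linarith
    calc c * (2 / (cas * (1 + B + α))) / P = c * (2 / (cas * (1 + B + α)) / P) := by ring
      _ ≤ c * t := mul_le_mul_of_nonneg_left e4 hc.le
  · -- upper bound
    refine hhi.trans ?_
    rw [le_div_iff₀ hP0, mul_assoc]
    apply mul_le_mul_of_nonneg_left _ hC.le
    have e1 : 8 / cas * w ≤ 8 / cas * (2 * (1 / t)) := mul_le_mul_of_nonneg_left hw1 (by positivity)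
    have e2 : P ≤ 16 / cas * (1 / t) + α := by
      have e3 : 8 / cas * (2 * (1 / t)) = 16 / cas * (1 / t) := by ring
      linarith [h3.2]
    calc t * P ≤ t * (16 / cas * (1 / t) + α) := mul_le_mul_of_nonneg_left e2 p1.le
      _ = 16 / cas + t * α := by field_simp
      _ ≤ 16 / cas + α := by
        have : t * α ≤ 1 * α := mul_le_mul_of_nonneg_right (by linarith) hα.le
        linarith

end

end Pool.Agent.T2H04.HY
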