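import Mathlib
import Pool.Agent.T2H04.HY.TlP7
import Pool.Agent.T2H04.HY.TlR

/-!
# The running coupling at two loops, uniformly (package P8)

`P_j = Psi cas (1 / tt (S j) + 4/5 (lm (S j) * tt (S j)))`, `P_j - N j → x ≥ M`. `fwd_run` (given, with a
small `t1`, as in the proof of `running` in `TlR.lean`) gives the runs up to `N j` and
`|P_j - N j - Psi v_N| ≤ α √t1`. The error `Uq.AA C (A j) (N j) ≤ 2 C` for large `j`: `A j ≤ 1/(10 tt (S j))`
(`uv2.pos`), `N j ≥ P_j - x - 1 ≥ c / tt (S j)`, and `16 ^ (-N) / tt → 0` (`Uq.AA_le`). Then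
`v_N = cas/8 x + cas/30 log x + O(1)` (`TlR.inv_arith`, `TlR.log_arith`, `v ≤ C x`, `x ≤ C v`),
`|v_N - 1/tt_N| ≤ 2 C`, and `1/g2 = 1/(d0 tt_N) + O(1)` (`TlR.inv_g`, `has2`): see the proof of `running`.
All constants are independent of `x` and of the sequences.
-/

open MeasureTheory Matrix Filter
open scoped Matrix.Norms.Frobenius Topology

namespace Pool.Agent.T2H04.HY

set_option linter.unusedSectionVars false

noncomputable section

variable {G : Type} [Group G] [TopologicalSpace G] [IsTopologicalGroup G] [CompactSpace G]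
  [MeasurableSpace G] [BorelSpace G] (μ : Measure G) [μ.IsHaarMeasure] [IsProbabilityMeasure μ]
  {m : Type} [Fintype m] [DecidableEq m] (L : RD G m)

namespace P8

/-- `Psi` is at least linear -/
theorem psi_ge {cas v : ℝ} (hcas : 0 < cas) (hv : 1 ≤ v) :
    4 / cas * v - |Real.log (cas / 15)| ≤ Psi cas v := by
  have hv0 : 0 < v := by linarith
  have h1 := Real.log_le_sub_one_of_pos (show 0 < v * (15 / cas) by positivity)
  rw [Real.log_mul hv0.ne' (by positivity)] at h1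
  have h2 : Real.log (15 / cas) = -Real.log (cas / 15) := by
    rw [← Real.log_inv, inv_div]
  rw [h2] at h1
  have h3 := le_abs_self (Real.log (cas / 15))
  have h4 := abs_nonneg (Real.log (cas / 15))
  have h5 : 4 / 15 * (v * (15 / cas)) = 4 / cas * v := by field_simp; try ring
  have h6 : 8 / cas * v = 4 / cas * v + 4 / cas * v := by ring
  unfold Psi
  linarith

/-- `Psi` is at most linear -/
theorem psi_le {cas v : ℝ} (hv : 1 ≤ v) : Psi cas v ≤ 8 / cas * v := by
  have := Real.log_nonneg hv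
  unfold Psi
  linarith

/-- the initial error is forgotten -/
theorem forget {C q K : ℝ} (hC : 0 < C) {A u : ℕ → ℝ} {N : ℕ → ℕ}
    (h1 : ∀ᶠ j in atTop, A j ≤ u j) (hu : Tendsto u atTop atTop) (hq : 0 < q)
    (h2 : ∀ᶠ j in atTop, q * u j ≤ N j + K) :
    ∀ᶠ j in atTop, Uq.AA C (A j) (N j) ≤ 2 * C := by
  have hN : Tendsto N atTop atTop := by
    have e1 : Tendsto (fun j => (N j : ℝ)) atTop atTop := by
      have e2 : Tendsto (fun j => q * u j - K) atTop atTop :=
        tendsto_atTop_add_const_right _ _ (hu.const_mul_atTop hq)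
      refine tendsto_atTop_mono' _ ?_ e2
      filter_upwards [h2] with j hj
      linarith
    exact tendsto_natCast_atTop_iff.1 e1
  have h3 : Tendsto (fun n : ℕ => ((n : ℝ) + K) / q * (1 / 16) ^ n) atTop (𝓝 0) := by
    have e1 := tendsto_self_mul_const_pow_of_lt_one (show (0 : ℝ) ≤ 1 / 16 by norm_num)
      (by norm_num)
    have e2 := tendsto_pow_atTop_nhds_zero_of_lt_one (show (0 : ℝ) ≤ 1 / 16 by norm_num)
      (by norm_num)
    have e3 := ((e1.add (e2.const_mul K)).const_mul (1 / q))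
    rw [mul_zero, add_zero, mul_zero] at e3
    refine e3.congr fun n => ?_
    ring
  have h4 := (h3.comp hN).eventually (gt_mem_nhds (show (0 : ℝ) < C / 2 by positivity))
  filter_upwards [h1, h2, h4] with j j1 j2 j3
  have e1 := Uq.AA_le (C := C) (A j) (N j)
  have hp : (0 : ℝ) < 16 ^ N j := by positivity
  have e2 : A j / 16 ^ N j ≤ C / 2 := by
    have e3 : A j ≤ ((N j : ℝ) + K) / q := by
      rw [le_div_iff₀ hq]
      nlinarith
    have e4 : A j / 16 ^ N j ≤ ((N j : ℝ) + K) / q * (1 / 16) ^ N j := by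
      rw [div_eq_mul_inv, one_div, inv_pow]
      exact mul_le_mul_of_nonneg_right e3 (by positivity)
    exact e4.trans j3.le
  have e5 : 0 ≤ C / 15 / 16 ^ N j := by positivity
  have e6 : (-C) / 16 ^ N j ≤ 0 := by
    rw [neg_div]
    have : 0 ≤ C / 16 ^ N j := by positivity
    linarith
  linarith

end P8

theorem run_unif {Q : Type} (stp : Q → Q) (den : Q → G → ℝ) (tt lm : Q → ℝ) (GS : Q → ℝ → Prop)
    (Ds : Q → Q → ℝ → Prop) (ts C c cas d0 : ℝ)
    (uv2 : UV2 μ L stp den tt GS Ds ts C c (cas / 8) d0)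
    (ts3 C3 : ℝ) (uv3 : UV3 stp tt lm GS ts3 C3 cas) (C4 ts4 : ℝ) (hts4 : 0 < ts4)
    (has2 : ∀ S A, GS S A → tt S ≤ ts4 → |g2 μ L (den S) - d0 * tt S| ≤ C4 * (1 + A) * tt S ^ 2) :
    ∃ M K : ℝ, 1 ≤ M ∧ ∀ (S : ℕ → Q) (A : ℕ → ℝ) (N : ℕ → ℕ) (x : ℝ), M ≤ x →
      (∀ j, GS (S j) (A j)) → Tendsto (fun j => tt (S j)) atTop (𝓝 0) →
      Tendsto (fun j => Psi cas (1 / tt (S j) + 4 / 5 * (lm (S j) * tt (S j))) - N j) atTop
        (𝓝 x) →
      ∀ᶠ j in atTop, |1 / g2 μ L ((mk μ)^[N j] (den (S j))) -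
        (cas / 8 * x + cas / 30 * Real.log x) / d0| ≤ K := by
  have hC := uv2.C_pos
  have hC3 := uv3.C_pos
  have hcas := uv3.cas_pos
  have hts := uv2.ts_pos
  have hts3 := uv3.ts_pos
  have hc := uv2.c_pos
  have hd0 := uv2.d0_pos
  obtain ⟨α, hα, hrun⟩ := fwd_run μ L stp den tt lm GS Ds ts C c cas d0 uv2 ts3 C3 uv3
  obtain ⟨t1, ht1, h1ts, h1ts4, q3, q4, q5⟩ : ∃ t1 : ℝ, 0 < t1 ∧ t1 ≤ ts ∧ t1 ≤ ts4 ∧
      C3 * t1 ≤ 1 ∧ t1 ≤ 1 / 2 ∧ 2 * C * t1 ≤ 1 / 10 := by
    refine ⟨min (min ts ts4) (min (1 / C3) (min (1 / 2) (1 / (20 * C)))), by positivity,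
      (min_le_left _ _).trans (min_le_left _ _), (min_le_left _ _).trans (min_le_right _ _), ?_,
      (min_le_right _ _).trans ((min_le_right _ _).trans (min_le_left _ _)), ?_⟩
    · have h : min (min ts ts4) (min (1 / C3) (min (1 / 2) (1 / (20 * C)))) ≤ 1 / C3 :=
        (min_le_right _ _).trans (min_le_left _ _)
      rw [le_div_iff₀ hC3] at h
      linarith
    · have h : min (min ts ts4) (min (1 / C3) (min (1 / 2) (1 / (20 * C)))) ≤ 1 / (20 * C) :=
        (min_le_right _ _).trans ((min_le_right _ _).trans (min_le_right _ _))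
      rw [le_div_iff₀ (by positivity)] at h
      linarith
  obtain ⟨M0, t2, hM0, ht2, hfw⟩ := hrun t1 ht1
  set lc := |Real.log (cas / 15)| with hlc
  have hlc0 : 0 ≤ lc := abs_nonneg _
  set K1 := α * Real.sqrt t1 + 1 with hK1
  have hsq : 0 ≤ Real.sqrt t1 := Real.sqrt_nonneg _
  have hK10 : 0 < K1 := by positivity
  set P := cas / 4 * (1 + K1 + lc) with hP
  have hP0 : 0 < P := by positivity
  set Q' := 8 / cas + K1 with hQ
  have hQ0 : 0 < Q' := by positivity
  set K2 := |Real.log P| + |Real.log Q'| with hK2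
  refine ⟨M0 + 1, C4 * (1 + 2 * C) / (c * d0) + (2 * C + (cas / 8 * K1 +
    cas / 30 * K2)) / d0, by linarith, fun S A N x hx hS h0 hPx => ?_⟩
  have hx1 : 1 ≤ x := by linarith
  -- the inverse coupling at the start
  have hu : Tendsto (fun j => 1 / tt (S j)) atTop atTop := by
    have e1 : Tendsto (fun j => tt (S j)) atTop (𝓝[>] 0) :=
      tendsto_nhdsWithin_iff.2 ⟨h0, Eventually.of_forall fun j => (uv2.pos _ _ (hS j)).1⟩
    refine (tendsto_inv_nhdsGT_zero.comp e1).congr fun j => ?_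
    simp
  have hlmt : ∀ j, |lm (S j) * tt (S j)| ≤ C3 / 10 := by
    intro j
    obtain ⟨p1, p2, p3, p4⟩ := uv2.pos _ _ (hS j)
    rw [abs_mul, abs_of_pos p1]
    calc |lm (S j)| * tt (S j) ≤ C3 * A j * tt (S j) :=
          mul_le_mul_of_nonneg_right (uv3.lam_le _ _ (hS j)) p1.le
      _ = C3 * (A j * tt (S j)) := by ring
      _ ≤ C3 * (1 / 10) := mul_le_mul_of_nonneg_left p4 hC3.le
      _ = C3 / 10 := by ring
  have hclose : ∀ᶠ j in atTop,
      |Psi cas (1 / tt (S j) + 4 / 5 * (lm (S j) * tt (S j))) - N j - x| ≤ 1 := by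
    have e1 := (hPx.sub_const x).abs
    rw [sub_self, abs_zero] at e1
    exact (e1.eventually (gt_mem_nhds one_pos)).mono fun j hj => hj.le
  have hA2 : ∀ᶠ j in atTop, Uq.AA C (A j) (N j) ≤ 2 * C := by
    refine P8.forget (q := 2 / cas) (K := x + 1 + lc) hC (u := fun j => 1 / tt (S j)) ?_ hu
      (by positivity) ?_
    · refine Eventually.of_forall fun j => ?_
      obtain ⟨p1, p2, p3, p4⟩ := uv2.pos _ _ (hS j)
      rw [le_div_iff₀ p1]
      linarith
    · filter_upwards [hclose, hu.eventually_ge_atTop (C3 + 2)] with j j1 j2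
      have e1 := abs_le.1 (hlmt j)
      have e2 : 1 / 2 * (1 / tt (S j)) ≤ 1 / tt (S j) + 4 / 5 * (lm (S j) * tt (S j)) := by
        linarith [e1.1]
      have e3 : 1 ≤ 1 / tt (S j) + 4 / 5 * (lm (S j) * tt (S j)) := by linarith [e1.1]
      have e4 := P8.psi_ge hcas e3
      have e5 : 4 / cas * (1 / 2 * (1 / tt (S j))) ≤
          4 / cas * (1 / tt (S j) + 4 / 5 * (lm (S j) * tt (S j))) :=
        mul_le_mul_of_nonneg_left e2 (by positivity)
      have e6 : 2 / cas * (1 / tt (S j)) = 4 / cas * (1 / 2 * (1 / tt (S j))) := by ring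
      have e7 := (abs_le.1 j1).2
      show 2 / cas * (1 / tt (S j)) ≤ N j + (x + 1 + lc)
      rw [e6]
      linarith
  filter_upwards [hclose, hA2, h0.eventually (gt_mem_nhds ht2)] with j j1 j2 j3
  obtain ⟨r1, r2⟩ := hfw (S j) (A j) (N j) (hS j) j3.le (by
    have := (abs_le.1 j1).1
    linarith)
  obtain ⟨g0, s0, d1⟩ := r1 (N j) le_rfl
  have p1 := (uv2.pos _ _ g0).1
  have g1 : GS (stp^[N j] (S j)) (2 * C) := by
    refine uv2.mono _ _ _ g0 j2 ?_
    calc 2 * C * tt (stp^[N j] (S j)) ≤ 2 * C * t1 :=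
          mul_le_mul_of_nonneg_left s0.le (by positivity)
      _ ≤ 1 / 10 := q5
  have w1 := Tg.W_ge uv2 uv3 q3 q4 g1 s0.le
  have l1 := uv3.lam_le _ _ g1
  have lo := uv2.g2_lo _ _ g1
  have h2 := has2 _ _ g1 (s0.le.trans h1ts4)
  rw [← d1]
  set T := stp^[N j] (S j) with hT
  set v := 1 / tt T + 4 / 5 * (lm T * tt T) with hv
  have c1 : |4 / 5 * (lm T * tt T)| ≤ 2 * C := by
    rw [abs_mul, abs_mul, abs_of_pos p1, abs_of_pos (by norm_num : (0 : ℝ) < 4 / 5)]
    have e1 : |lm T| * tt T ≤ C3 * (2 * C) * t1 := mul_le_mul l1 s0.le p1.le (by positivity)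
    have e2 : C3 * (2 * C) * t1 ≤ 2 * C := by
      calc C3 * (2 * C) * t1 = (C3 * t1) * (2 * C) := by ring
        _ ≤ 1 * (2 * C) := mul_le_mul_of_nonneg_right q3 (by positivity)
        _ = _ := one_mul _
    have e3 : 0 ≤ |lm T| * tt T := mul_nonneg (abs_nonneg _) p1.le
    linarith
  obtain ⟨c2, c3⟩ := abs_le.1 c1
  have n1 : α * Real.sqrt (tt T) ≤ α * Real.sqrt t1 :=
    mul_le_mul_of_nonneg_left (Real.sqrt_le_sqrt s0.le) hα.le
  have k1 : |Psi cas v - 0 - x| ≤ K1 := by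
    have a1 := abs_le.1 (r2.trans n1)
    have a2 := abs_le.1 j1
    rw [abs_le, hK1]
    constructor <;> linarith [a1.1, a1.2, a2.1, a2.2]
  have k1' := abs_le.1 k1
  have k2 : |Real.log v - Real.log x| ≤ K2 := by
    refine TlR.log_arith w1 hx1 hP0 hQ0 ?_ ?_
    · have b1 := P8.psi_ge hcas w1
      have b2 : 4 / cas * v ≤ (1 + K1 + lc) * x := by
        have b3 : K1 + lc ≤ (K1 + lc) * x := le_mul_of_one_le_right (by positivity) hx1
        linarith [k1'.2]
      have b4 : v = cas / 4 * (4 / cas * v) := by field_simp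
      rw [b4, hP]
      calc cas / 4 * (4 / cas * v) ≤ cas / 4 * ((1 + K1 + lc) * x) :=
            mul_le_mul_of_nonneg_left b2 (by positivity)
        _ = _ := by ring
    · have b1 := P8.psi_le (cas := cas) w1
      have b2 : K1 ≤ K1 * v := le_mul_of_one_le_right hK10.le w1
      rw [hQ]
      linarith [k1'.1]
  have k3 := TlR.inv_arith hcas k1 k2
  rw [abs_zero, add_zero] at k3
  have k4 : |1 / tt T - (cas / 8 * x + cas / 30 * Real.log x)| ≤
      2 * C + (cas / 8 * K1 + cas / 30 * K2) := by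
    have b2 := abs_le.1 k3
    rw [abs_le]
    constructor <;> linarith [b2.1, b2.2]
  have k5 := TlR.inv_g p1 hc hd0 lo h2
  have e : 1 / g2 μ L (den T) - (cas / 8 * x + cas / 30 * Real.log x) / d0 =
      (1 / g2 μ L (den T) - 1 / tt T / d0) +
        (1 / tt T - (cas / 8 * x + cas / 30 * Real.log x)) / d0 := by
    field_simp
    ring
  rw [e]
  refine (abs_add_le _ _).trans (add_le_add k5 ?_)
  rw [abs_div, abs_of_pos hd0]
  exact div_le_div_of_nonneg_right k4 hd0.le

end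

end Pool.Agent.T2H04.HY
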