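import Mathlib
import Pool.Agent.T2H04.HY.Link4
import Pool.Agent.T2H04.HY.TlH2
import Pool.Agent.T2H04.HY.TlH5
import Pool.Agent.T2H04.HY.TlP6
import Pool.Agent.T2H04.HY.TlP8

/-!
# Consequences of the improved contraction for the lattice actions
-/

open MeasureTheory Matrix Filter
open scoped Matrix.Norms.Frobenius Topology

namespace Pool.Agent.T2H04.HY

set_option linter.unusedSectionVars false

noncomputable section

variable {G : Type} [Group G] [TopologicalSpace G] [IsTopologicalGroup G] [CompactSpace G]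
  [MeasurableSpace G] [BorelSpace G] (μ : Measure G) [μ.IsHaarMeasure] [IsProbabilityMeasure μ]
  {m : Type} [Fintype m] [DecidableEq m] (L : RD G m)

theorem wilson_inj (hs : Simple L) {n : ℕ} (hn : 0 < n) (E : Fin n → Mt m)
    (hE : ∀ a, E a ∈ lieSet L)
    (orth : ∀ a b, (trace ((E a)ᴴ * E b)).re = if a = b then 1 else 0)
    (full : ∀ Y ∈ lieSet L, Y ∈ Submodule.span ℝ (Set.range E)) :
    ∃ κ1 : ℝ, 0 < κ1 ∧ ∀ κ κ' : ℝ, 0 < κ → κ ≤ κ1 → 0 < κ' → κ' ≤ κ1 →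
      ∀ (t t' : ℕ → ℝ) (k k' : ℕ → ℕ),
      (∀ j, 0 < t j) → (∀ j, 0 < t' j) → Tendsto t atTop (𝓝 0) → Tendsto t' atTop (𝓝 0) →
      Tendsto (fun j => g2 μ L ((mk μ)^[k j] (wil μ L (t j)))) atTop (𝓝 κ) →
      Tendsto (fun j => g2 μ L ((mk μ)^[k' j] (wil μ L (t' j)))) atTop (𝓝 κ') →
      Tendsto (fun j =>
        ((k j : ℝ) - Psi ((∑ a, ∑ b, ‖E a * E b - E b * E a‖ ^ 2) / n)
          (1 / t j + 4 / 5 * lamU E wU)) -
        ((k' j : ℝ) - Psi ((∑ a, ∑ b, ‖E a * E b - E b * E a‖ ^ 2) / n)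
          (1 / t' j + 4 / 5 * lamU E wU))) atTop (𝓝 0) → κ = κ' := by
  obtain ⟨cas, hcas0, hcas, hcasn⟩ := cas_exists hs E hE orth full
  have hn0 : (0 : ℝ) < n := by exact_mod_cast hn
  have hcn : (∑ a, ∑ b, ‖E a * E b - E b * E a‖ ^ 2) / n = cas := by
    rw [← hcasn]
    field_simp
  rw [hcn]
  obtain ⟨r0, Good, ts, C, ρs, c, ts3, C3, p, Ds, hr0, uv, uv2, uv3, uv4, hG, hW, -, -⟩ :=
    uv_both4 μ L hs hn E hE orth full (finrank_lieAlg E hE orth full) cas hcas0 hcas Wt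
      (wilson_inC L)
  obtain ⟨κ1, hκ1, H⟩ := psi_inj μ L hs.conn (hne_of_simple L hs) Good ts C ρs c cas n p uv
    (stp μ) (fun S : St L => nres μ L S.F) (fun S => S.t) (fun S => lam E S.w)
    (fun S A => GSt L r0 S A ∧ S.t ≤ 2 * ts) Ds ts C c uv2 ts3 C3 uv3 uv4 hG le_rfl
  have hts := uv2.ts_pos
  refine ⟨κ1, hκ1, fun κ κ' hκ hκ1' hκ' hκ1'' t t' k k' ht ht' htt htt' hg hg' hd => ?_⟩
  have : Nonempty (St L) := ⟨⟨0, 0, 0⟩⟩
  choose! SW hW1 hW2 hW3 using hW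
  set u : ℕ → ℝ := fun j => min (t j) ts with hu
  set u' : ℕ → ℝ := fun j => min (t' j) ts with hu'
  have hu0 : ∀ j, 0 < u j := fun j => lt_min (ht j) hts
  have hu1 : ∀ j, u j ≤ ts := fun j => min_le_right _ _
  have hu0' : ∀ j, 0 < u' j := fun j => lt_min (ht' j) hts
  have hu1' : ∀ j, u' j ≤ ts := fun j => min_le_right _ _
  have hev : ∀ᶠ j in atTop, u j = t j := by
    filter_upwards [htt.eventually (gt_mem_nhds hts)] with j hj
    exact min_eq_left hj.le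
  have hev' : ∀ᶠ j in atTop, u' j = t' j := by
    filter_upwards [htt'.eventually (gt_mem_nhds hts)] with j hj
    exact min_eq_left hj.le
  have hut : Tendsto u atTop (𝓝 0) := htt.congr' (hev.mono fun j hj => hj.symm)
  have hut' : Tendsto u' atTop (𝓝 0) := htt'.congr' (hev'.mono fun j hj => hj.symm)
  have hlW : ∀ x, 0 < x → x ≤ ts → lam E (SW x).w * (SW x).t = lamU E wU := by
    intro x hx0 hx1
    obtain ⟨h1, -⟩ := hW1 _ hx0 hx1
    have h2 := hW2 _ hx0 hx1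
    refine sfw_lam h1.sf hr0 le_rfl h1.A0 h1.p (F := (SW x).F) (c := Complex.exp
      (trace (1 : Mt m) / ((SW x).t : ℂ))) ?_ ?_ wU_one (wU_real L) E hE
    · rw [h2]; exact Wt_one_ne
    · intro y
      rw [h2, hW3 _ hx0 hx1]
      exact Wt_eq y
  refine H κ κ' hκ hκ1' hκ' hκ1'' (fun j => SW (u j)) (fun j => SW (u' j))
    (fun j => 1 / (20 * u j)) (fun j => 1 / (20 * u' j)) k k' (fun j => hW1 _ (hu0 j) (hu1 j))
    (fun j => hW1 _ (hu0' j) (hu1' j)) ?_ ?_ ?_ ?_ ?_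
  · refine hut.congr fun j => ?_
    exact (hW3 _ (hu0 j) (hu1 j)).symm
  · refine hut'.congr fun j => ?_
    exact (hW3 _ (hu0' j) (hu1' j)).symm
  · refine hg.congr' (hev.mono fun j hj => ?_)
    simp only
    rw [hW2 _ (hu0 j) (hu1 j), hj, nres_Wt]
  · refine hg'.congr' (hev'.mono fun j hj => ?_)
    simp only
    rw [hW2 _ (hu0' j) (hu1' j), hj, nres_Wt]
  · refine hd.congr' ?_
    filter_upwards [hev, hev'] with j hj hj'
    rw [hlW _ (hu0 j) (hu1 j), hlW _ (hu0' j) (hu1' j), hW3 _ (hu0 j) (hu1 j),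
      hW3 _ (hu0' j) (hu1' j), hj, hj']

theorem act_fwd (hs : Simple L) {n : ℕ} (hn : 0 < n) (E : Fin n → Mt m)
    (hE : ∀ a, E a ∈ lieSet L)
    (orth : ∀ a b, (trace ((E a)ᴴ * E b)).re = if a = b then 1 else 0)
    (full : ∀ Y ∈ lieSet L, Y ∈ Submodule.span ℝ (Set.range E))
    (V : Mt m → ℂ) (hV : Act L V) (hI : InC L (At V)) :
    ∃ M t2 c' C' : ℝ, 1 ≤ M ∧ 0 < t2 ∧ 0 < c' ∧ 0 < C' ∧ ∀ (t : ℝ) (N : ℕ), 0 < t → t ≤ t2 →
      N + M ≤ Psi ((∑ a, ∑ b, ‖E a * E b - E b * E a‖ ^ 2) / n) (1 / t + 4 / 5 * lamU E V) →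
        c' / (Psi ((∑ a, ∑ b, ‖E a * E b - E b * E a‖ ^ 2) / n) (1 / t + 4 / 5 * lamU E V) - N) ≤
          g2 μ L ((mk μ)^[N] (nres μ L (At V t))) ∧
        g2 μ L ((mk μ)^[N] (nres μ L (At V t))) ≤
          C' / (Psi ((∑ a, ∑ b, ‖E a * E b - E b * E a‖ ^ 2) / n) (1 / t + 4 / 5 * lamU E V) -
            N) := by
  obtain ⟨cas, hcas0, hcas, hcasn⟩ := cas_exists hs E hE orth full
  have hn0 : (0 : ℝ) < n := by exact_mod_cast hn
  have hcn : (∑ a, ∑ b, ‖E a * E b - E b * E a‖ ^ 2) / n = cas := by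
    rw [← hcasn]
    field_simp
  rw [hcn]
  obtain ⟨r0, Good, ts, C, ρs, c, ts3, C3, p, Ds, hr0, uv, uv2, uv3, uv4, hG, -, hW, -⟩ :=
    uv_both4 μ L hs hn E hE orth full (finrank_lieAlg E hE orth full) cas hcas0 hcas (At V) hI
  obtain ⟨M, t2, c', C', hM, ht2, hc', hC', H⟩ := fwd_g2 μ L
    (stp μ) (fun S : St L => nres μ L S.F) (fun S => S.t) (fun S => lam E S.w)
    (fun S A => GSt L r0 S A ∧ S.t ≤ 2 * ts) Ds ts C c cas n uv2 ts3 C3 uv3
  have hts := uv2.ts_pos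
  refine ⟨M, min t2 ts, c', C', hM, lt_min ht2 hts, hc', hC', fun t N ht htl hN => ?_⟩
  obtain ⟨S, hS1, hS2, hS3⟩ := hW t ht (htl.trans (min_le_right _ _))
  have hl : lam E S.w * S.t = lamU E V := by
    obtain ⟨h1, -⟩ := hS1
    refine sfw_lam h1.sf hr0 le_rfl h1.A0 h1.p (F := S.F) (c := 1) ?_ ?_ hV.one hV.real
      E hE
    · rw [hS2]; exact At_one_ne
    · intro x
      rw [hS2, hS3]
      exact At_eq x
  have key := H S (1 / (20 * t)) N hS1 (by rw [hS3]; exact htl.trans (min_le_left _ _))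
  rw [hl, hS3, hS2] at key
  exact key hN

theorem wilson_unif (hs : Simple L) {n : ℕ} (hn : 0 < n) (E : Fin n → Mt m)
    (hE : ∀ a, E a ∈ lieSet L)
    (orth : ∀ a b, (trace ((E a)ᴴ * E b)).re = if a = b then 1 else 0)
    (full : ∀ Y ∈ lieSet L, Y ∈ Submodule.span ℝ (Set.range E)) (cas : ℝ)
    (hcasn : cas * n = ∑ a, ∑ b, ‖E a * E b - E b * E a‖ ^ 2) :
    ∃ M K : ℝ, 1 ≤ M ∧ ∀ (t : ℕ → ℝ) (k : ℕ → ℕ) (x : ℝ), M ≤ x →
      (∀ j, 0 < t j) → Tendsto t atTop (𝓝 0) →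
      Tendsto (fun j => Psi cas (1 / t j + 4 / 5 * lamU E wU) - k j) atTop (𝓝 x) →
      ∀ᶠ j in atTop, |1 / g2 μ L ((mk μ)^[k j] (wil μ L (t j))) -
          (cas / 8 * x + cas / 30 * Real.log x) / n| ≤ K := by
  obtain ⟨cas', hcas0, hcas, hcasn'⟩ := cas_exists hs E hE orth full
  have hn0 : (0 : ℝ) < n := by exact_mod_cast hn
  have hcc : cas' = cas := by
    have : cas' * n = cas * n := by rw [hcasn, hcasn']
    exact mul_right_cancel₀ hn0.ne' this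
  subst hcc
  obtain ⟨r0, Good, ts, C, ρs, c, ts3, C3, p, Ds, hr0, uv, uv2, uv3, uv4, hG, hW, -, C4, ts4,
    hts4, h4⟩ := uv_both4 μ L hs hn E hE orth full (finrank_lieAlg E hE orth full) cas' hcas0
      hcas Wt (wilson_inC L)
  obtain ⟨M, K, hM, H⟩ := run_unif μ L
    (stp μ) (fun S : St L => nres μ L S.F) (fun S => S.t) (fun S => lam E S.w)
    (fun S A => GSt L r0 S A ∧ S.t ≤ 2 * ts) Ds ts C c cas' n uv2 ts3 C3 uv3 C4 ts4 hts4 h4
  have hts := uv2.ts_pos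
  refine ⟨M, K, hM, fun t k x hx ht htt hd => ?_⟩
  have : Nonempty (St L) := ⟨⟨0, 0, 0⟩⟩
  choose! SW hW1 hW2 hW3 using hW
  set u : ℕ → ℝ := fun j => min (t j) ts with hu
  have hu0 : ∀ j, 0 < u j := fun j => lt_min (ht j) hts
  have hu1 : ∀ j, u j ≤ ts := fun j => min_le_right _ _
  have hev : ∀ᶠ j in atTop, u j = t j := by
    filter_upwards [htt.eventually (gt_mem_nhds hts)] with j hj
    exact min_eq_left hj.le
  have hut : Tendsto u atTop (𝓝 0) := htt.congr' (hev.mono fun j hj => hj.symm)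
  have hlW : ∀ x, 0 < x → x ≤ ts → lam E (SW x).w * (SW x).t = lamU E wU := by
    intro x hx0 hx1
    obtain ⟨h1, -⟩ := hW1 _ hx0 hx1
    have h2 := hW2 _ hx0 hx1
    refine sfw_lam h1.sf hr0 le_rfl h1.A0 h1.p (F := (SW x).F) (c := Complex.exp
      (trace (1 : Mt m) / ((SW x).t : ℂ))) ?_ ?_ wU_one (wU_real L) E hE
    · rw [h2]; exact Wt_one_ne
    · intro y
      rw [h2, hW3 _ hx0 hx1]
      exact Wt_eq y
  have key := H (fun j => SW (u j)) (fun j => 1 / (20 * u j)) k x hx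
    (fun j => hW1 _ (hu0 j) (hu1 j)) (by
      refine hut.congr fun j => ?_
      exact (hW3 _ (hu0 j) (hu1 j)).symm) (by
      refine hd.congr' ?_
      filter_upwards [hev] with j hj
      rw [hlW _ (hu0 j) (hu1 j), hW3 _ (hu0 j) (hu1 j), hj])
  filter_upwards [key, hev] with j h1 hj
  rw [hW2 _ (hu0 j) (hu1 j), hj, nres_Wt] at h1
  exact h1

end

end Pool.Agent.T2H04.HY
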