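import Mathlib
import Pool.Agent.T2H04.HY.RgMain
import Pool.Agent.T2H04.HY.TlH4
import Pool.Agent.T2H04.HY.TlI

/-!
# Consequences of the improved contraction in the notation of the main theorem
-/

open MeasureTheory Matrix Filter
open scoped Matrix.Norms.Frobenius Topology

namespace Pool.Agent.T2H04.HY

set_option linter.unusedSectionVars false

noncomputable section

variable {G : Type} [Group G] [TopologicalSpace G] [IsTopologicalGroup G] [CompactSpace G]
  [MeasurableSpace G] [BorelSpace G] (μ : Measure G) [μ.IsHaarMeasure] [IsProbabilityMeasure μ]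
  {N : ℕ} {R : URep G N}

/-- the difference of the two loop time and the counter -/
def psiD (ca δ q c β : ℝ) : ℝ :=
  8 / ca * (q * c - δ) - 4 / 15 * (Real.log (β / q + c) - Real.log β)

theorem psi_cnt {ca δ q c β : ℝ} (hq : 0 < q) (k : ℕ) :
    Psi (ca / q) (β / q + c) - k = -cnt ca δ β k + psiD ca δ q c β := by
  unfold Psi cnt psiD
  rcases eq_or_ne ca 0 with h0 | h0
  · rw [h0]
    simp
    ring
  · field_simp
    ring

theorem psiD_tendsto (ca δ : ℝ) {q : ℝ} (c : ℝ) (hq : 0 < q) :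
    Tendsto (psiD ca δ q c) atTop (𝓝 (8 / ca * (q * c - δ) + 4 / 15 * Real.log q)) := by
  have h1 : Tendsto (fun β : ℝ => 1 / q + c / β) atTop (𝓝 (1 / q)) := by
    have := (tendsto_const_nhds (x := c)).div_atTop (tendsto_id (α := ℝ) (x := atTop))
    have h2 := this.const_add (1 / q)
    simpa using h2
  have h2 : Tendsto (fun β : ℝ => Real.log (1 / q + c / β)) atTop (𝓝 (Real.log (1 / q))) :=
    (Real.continuousAt_log (by positivity)).tendsto.comp h1
  have h3 : Tendsto (fun β : ℝ => Real.log (β / q + c) - Real.log β) atTop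
      (𝓝 (Real.log (1 / q))) := by
    refine h2.congr' ?_
    filter_upwards [eventually_gt_atTop 0, h1.eventually (lt_mem_nhds (show 0 < 1 / q by
      positivity))] with β hβ h4
    rw [← Real.log_div _ hβ.ne']
    · congr 1
      field_simp
    · have e : β / q + c = (1 / q + c / β) * β := by field_simp
      rw [e]
      positivity
  have h4 := (h3.const_mul (4 / 15)).const_sub (8 / ca * (q * c - δ))
  refine (h4.congr fun β => rfl).trans (le_of_eq ?_)
  rw [one_div, Real.log_inv]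
  congr 1
  ring

/-- the counter determines the running coupling of Wilson's action -/
theorem inj_W {n : ℕ} {X : Fin n → Matrix (Fin N) (Fin N) ℂ} (h : SG R n X) (δ : ℝ) :
    ∃ κ1 : ℝ, 0 < κ1 ∧ ∀ κ κ' : ℝ, 0 < κ → κ ≤ κ1 → 0 < κ' → κ' ≤ κ1 →
      ∀ (β β' : ℕ → ℝ) (k k' : ℕ → ℕ), (∀ j, 0 < β j) → (∀ j, 0 < β' j) →
        Tendsto β atTop atTop → Tendsto β' atTop atTop →
        Tendsto (fun j => gsq μ R n ((mk μ)^[k j] (bw μ (wa R) (β j)))) atTop (𝓝 κ) →
        Tendsto (fun j => gsq μ R n ((mk μ)^[k' j] (bw μ (wa R) (β' j)))) atTop (𝓝 κ') →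
        Tendsto (fun j => cnt (CA X) δ (β j) (k j) - cnt (CA X) δ (β' j) (k' j)) atTop (𝓝 0) →
        κ = κ' := by
  have hn := h.npos
  have hn0 : (0 : ℝ) < n := by exact_mod_cast hn
  have hs := blk_simple R h.conn h.nonab h.irred
  obtain ⟨hfin, E, hE, oE, fE, sE⟩ := blk_basis R X h.mem h.orth h.span
  obtain ⟨κ1, hκ1, H⟩ := wilson_inj μ (blk R) hs hn E hE oE fE
  have hcs : (∑ a, ∑ b, ‖E a * E b - E b * E a‖ ^ 2) / n = CA X / 2 := by
    rw [sE]
    unfold CA
    field_simp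
  rw [hcs] at H
  refine ⟨κ1 / (2 * n), by positivity,
    fun κ κ' hκ hκ1' hκ' hκ1'' β β' k k' hβ hβ' hβt hβt' hg hg' hd => ?_⟩
  rw [le_div_iff₀ (by positivity)] at hκ1' hκ1''
  have hinv : ∀ b : ℝ, 2 / (2 / b) = b := fun b => by rw [div_div_cancel₀ two_ne_zero]
  obtain ⟨c, hc⟩ : ∃ c, c = 4 / 5 * lamU E wU := ⟨_, rfl⟩
  rw [← hc] at H
  have e1 := (psiD_tendsto (CA X) δ c two_pos).comp hβt
  have e2 := (psiD_tendsto (CA X) δ c two_pos).comp hβt'
  have e3 := (hd.sub (e1.sub e2))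
  rw [sub_self, sub_zero] at e3
  have key := H (2 * n * κ) (2 * n * κ') (by positivity) (by linarith) (by positivity)
    (by linarith) (fun j => 2 / β j) (fun j => 2 / β' j) k k' (fun j => div_pos two_pos (hβ j))
    (fun j => div_pos two_pos (hβ' j)) (Tendsto.const_div_atTop hβt _)
    (Tendsto.const_div_atTop hβt' _) (by
      simp only [wil_blk, g2_blk μ R hn, hinv]
      exact hg.const_mul _) (by
      simp only [wil_blk, g2_blk μ R hn, hinv]
      exact hg'.const_mul _) (by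
      refine e3.congr fun j => ?_
      simp only [Function.comp_apply]
      have f1 := psi_cnt (ca := CA X) (δ := δ) (c := c) (β := β j) two_pos (k j)
      have f2 := psi_cnt (ca := CA X) (δ := δ) (c := c) (β := β' j) two_pos (k' j)
      rw [one_div_div, one_div_div]
      linarith)
  exact mul_left_cancel₀ (by positivity) key

/-- forward control of the running coupling -/
theorem fwd_V {n : ℕ} {X : Fin n → Matrix (Fin N) (Fin N) ℂ} (h : SG R n X) {V : G → ℝ}
    (hV : PolAct R V) (δ : ℝ) :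
    ∃ M B c' C' : ℝ, 1 ≤ M ∧ 0 < B ∧ 0 < c' ∧ 0 < C' ∧ ∀ (β : ℝ) (k : ℕ), B ≤ β →
      cnt (CA X) δ β k ≤ -M →
        c' / (-cnt (CA X) δ β k) ≤ gsq μ R n ((mk μ)^[k] (bw μ V β)) ∧
        gsq μ R n ((mk μ)^[k] (bw μ V β)) ≤ C' / (-cnt (CA X) δ β k) := by
  have hn := h.npos
  have hn0 : (0 : ℝ) < n := by exact_mod_cast hn
  obtain ⟨V', hV', hVr⟩ := pol_act R μ V hV
  obtain ⟨C, δ0, hC, hδ0, hq⟩ := act_quart (blk R) hV'
  obtain ⟨q, hq0, hqC⟩ : ∃ k : ℕ, 0 < k ∧ 20 * C ≤ k := by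
    obtain ⟨k, hk⟩ := exists_nat_ge (20 * C)
    exact ⟨k + 1, by omega, by push_cast; linarith⟩
  have : NeZero q := ⟨hq0.ne'⟩
  have hk : (0 : ℝ) < q := by exact_mod_cast hq0
  have hV2 : Act (ksum (blk R) q) (kAct q V') := ks_act (blk R) q hV'
  obtain ⟨D⟩ := exists_log (m := Fin q × (Fin N ⊕ Fin N))
  obtain hI : InC (ksum (blk R) q) (At (kAct q V')) := by
    refine act_cls (ksum (blk R) q) D hV2 hδ0 fun Z hZ => ?_
    refine (ks_quart (blk R) q hq Z hZ).trans ?_
    refine mul_le_mul_of_nonneg_right ?_ (by positivity)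
    rw [div_le_iff₀ hk]
    linarith
  have hs : Simple (ksum (blk R) q) := ks_simple (blk R) q (blk_simple R h.conn h.nonab h.irred)
  obtain ⟨hE', oE', fE', sE'⟩ := TlH.basis R (k := q) X h.mem h.orth h.span
  obtain ⟨M, t2, c', C', hM, ht2, hc', hC', H⟩ := act_fwd μ (ksum (blk R) q) hs hn _ hE' oE' fE' _
    hV2 hI
  have hS : (∑ a, ∑ b, ‖(TlH.cn q • TlH.em q (X a)) * (TlH.cn q • TlH.em q (X b)) -
      (TlH.cn q • TlH.em q (X b)) * (TlH.cn q • TlH.em q (X a))‖ ^ 2) / n = CA X / (2 * q) := by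
    rw [sE']
    unfold CA
    ring
  rw [hS] at H
  obtain ⟨c, hc⟩ : ∃ c, c = 4 / 5 * lamU (fun a => TlH.cn q • TlH.em q (X a)) (kAct q V') :=
    ⟨_, rfl⟩
  rw [← hc] at H
  have hnr : ∀ t, nres μ (ksum (blk R) q) (At (kAct q V') t) = bw μ V (2 * q / t) := fun t =>
    nres_ks μ R hV'.real hVr q t
  have hkk : (0 : ℝ) < 2 * q := by positivity
  have hD := psiD_tendsto (CA X) δ c hkk
  obtain ⟨e0, he0⟩ : ∃ e0, e0 = 8 / CA X * (2 * q * c - δ) + 4 / 15 * Real.log (2 * q) := ⟨_, rfl⟩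
  rw [← he0] at hD
  obtain ⟨B0, hB0⟩ := eventually_atTop.1 (hD.eventually (Metric.ball_mem_nhds e0 one_pos))
  obtain ⟨e, hed⟩ : ∃ e, e = |e0| + 1 := ⟨_, rfl⟩
  have he : 0 < e := by rw [hed]; positivity
  refine ⟨M + 2 * e, max (max B0 1) (2 * q / t2), c' / (2 * n * q) / 2,
    C' / (2 * n * q) * 2, by linarith, lt_max_of_lt_left (lt_max_of_lt_right one_pos),
    by positivity, by positivity, fun β k hβ hcnt => ?_⟩
  have hβ0 : B0 ≤ β := ((le_max_left _ _).trans (le_max_left _ _)).trans hβ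
  have hβ1 : 1 ≤ β := ((le_max_right _ _).trans (le_max_left _ _)).trans hβ
  have hβp : 0 < β := by linarith
  have hβ2 : 2 * q / t2 ≤ β := (le_max_right _ _).trans hβ
  have ht : 2 * q / β ≤ t2 := by
    rw [div_le_iff₀ ht2] at hβ2
    rw [div_le_iff₀ hβp]
    linarith
  have hD1 : |psiD (CA X) δ (2 * q) c β| ≤ e := by
    have h1 := hB0 β hβ0
    rw [Real.dist_eq, abs_lt] at h1
    have h2 := neg_abs_le e0
    have h3 := le_abs_self e0
    rw [hed, abs_le]
    constructor <;> linarith [h1.1, h1.2]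
  have hpc := psi_cnt (ca := CA X) (δ := δ) (c := c) (β := β) hkk k
  obtain ⟨x, hx⟩ : ∃ x, x = -cnt (CA X) δ β k := ⟨_, rfl⟩
  obtain ⟨y, hy⟩ : ∃ y, y = Psi (CA X / (2 * q)) (β / (2 * q) + c) - k := ⟨_, rfl⟩
  rw [← hx] at hpc ⊢
  rw [← hy] at hpc
  have hD2 := abs_le.1 hD1
  have hMx : M + 2 * e ≤ x := by rw [hx]; linarith
  have hy1 : M ≤ y := by linarith [hD2.1]
  have hy2 : y ≤ 2 * x := by linarith [hD2.2]
  have hy3 : x ≤ 2 * y := by linarith [hD2.1]
  have hinv : 2 * (q : ℝ) / (2 * q / β) = β := by rw [div_div_cancel₀ hkk.ne']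
  have key := H (2 * q / β) k (by positivity) ht (by
    rw [one_div_div]
    linarith)
  rw [one_div_div, ← hy, hnr, hinv, g2_ks μ R hn] at key
  obtain ⟨k1, k2⟩ := key
  have hx0 : 0 < x := by linarith
  have hy0 : 0 < y := by linarith
  rw [div_le_iff₀ hy0] at k1
  rw [le_div_iff₀ hy0] at k2
  obtain ⟨g, hg⟩ : ∃ g, g = gsq μ R n ((mk μ)^[k] (bw μ V β)) := ⟨_, rfl⟩
  rw [← hg] at k1 k2 ⊢
  have hg0 : 0 < g := by
    by_contra hcon
    rw [not_lt] at hcon
    have : 2 * n * q * g * y ≤ 0 := by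
      have h1 : 0 ≤ 2 * (n : ℝ) * q * y := by positivity
      nlinarith
    linarith
  constructor
  · rw [div_div, div_div, div_le_iff₀ (by positivity)]
    have h1 : 2 * n * q * g * y ≤ 2 * n * q * g * (2 * x) :=
      mul_le_mul_of_nonneg_left hy2 (by positivity)
    calc c' ≤ 2 * n * q * g * y := k1
      _ ≤ 2 * n * q * g * (2 * x) := h1
      _ = g * (2 * n * q * (2 * x)) := by ring
  · rw [le_div_iff₀ hx0]
    have h1 : 2 * n * q * g * x ≤ 2 * n * q * g * (2 * y) :=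
      mul_le_mul_of_nonneg_left hy3 (by positivity)
    have h2 : g * x * (2 * n * q) ≤ C' * 2 := by
      calc g * x * (2 * n * q) = 2 * n * q * g * x := by ring
        _ ≤ 2 * n * q * g * (2 * y) := h1
        _ = 2 * (2 * n * q * g * y) := by ring
        _ ≤ 2 * C' := by linarith
        _ = C' * 2 := by ring
    rw [← le_div_iff₀ (by positivity)] at h2
    refine h2.trans (le_of_eq ?_)
    ring

/-- the running coupling at two loops -/
theorem run_W {n : ℕ} {X : Fin n → Matrix (Fin N) (Fin N) ℂ} (h : SG R n X) (δ : ℝ) :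
    ∃ M K : ℝ, 1 ≤ M ∧ ∀ (β : ℕ → ℝ) (k : ℕ → ℕ) (x : ℝ), M ≤ x → (∀ j, 0 < β j) →
      Tendsto β atTop atTop → Tendsto (fun j => cnt (CA X) δ (β j) (k j)) atTop (𝓝 (-x)) →
      ∀ᶠ j in atTop, |1 / gsq μ R n ((mk μ)^[k j] (bw μ (wa R) (β j))) -
        (CA X / 8 * x + CA X / 30 * Real.log x)| ≤ K := by
  have hn := h.npos
  have hn0 : (0 : ℝ) < n := by exact_mod_cast hn
  have hca := h.ca_pos
  have hs := blk_simple R h.conn h.nonab h.irred
  obtain ⟨hfin, E, hE, oE, fE, sE⟩ := blk_basis R X h.mem h.orth h.span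
  have hcs : CA X / 2 * n = ∑ a, ∑ b, ‖E a * E b - E b * E a‖ ^ 2 := by
    rw [sE]
    unfold CA
    field_simp
  obtain ⟨M, K, hM, H⟩ := wilson_unif μ (blk R) hs hn E hE oE fE (CA X / 2) hcs
  obtain ⟨c, hc⟩ : ∃ c, c = 4 / 5 * lamU E wU := ⟨_, rfl⟩
  rw [← hc] at H
  obtain ⟨e0, he0⟩ : ∃ e0, e0 = 8 / CA X * (2 * c - δ) + 4 / 15 * Real.log 2 := ⟨_, rfl⟩
  have hinv : ∀ b : ℝ, 2 / (2 / b) = b := fun b => by rw [div_div_cancel₀ two_ne_zero]
  refine ⟨M + 2 * |e0|, 2 * n * K + (CA X / 8 * |e0| + CA X / 30 * Real.log 2),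
    by have := abs_nonneg e0; linarith, fun β k x hx hβ hβt hcnt => ?_⟩
  have h1 := abs_nonneg e0
  have h2 := neg_abs_le e0
  have h3 := le_abs_self e0
  have e1 := (psiD_tendsto (CA X) δ c two_pos).comp hβt
  rw [← he0] at e1
  have e2 := hcnt.neg.add e1
  rw [neg_neg] at e2
  have key := H (fun j => 2 / β j) k (x + e0) (by linarith) (fun j => div_pos two_pos (hβ j))
    (Tendsto.const_div_atTop hβt _) (by
      refine e2.congr fun j => ?_
      simp only [Function.comp_apply]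
      rw [one_div_div, psi_cnt two_pos])
  filter_upwards [key] with j hj
  rw [wil_blk, hinv, g2_blk μ R hn] at hj
  obtain ⟨g, hg⟩ : ∃ g, g = gsq μ R n ((mk μ)^[k j] (bw μ (wa R) (β j))) := ⟨_, rfl⟩
  rw [← hg] at hj ⊢
  have hx0 : 0 < x := by linarith
  have hx1 : 0 < x + e0 := by linarith
  have hl : |Real.log (x + e0) - Real.log x| ≤ Real.log 2 := by
    have f1 : Real.log (x + e0) ≤ Real.log (2 * x) := Real.log_le_log hx1 (by linarith)
    have f2 : Real.log x ≤ Real.log (2 * (x + e0)) := Real.log_le_log hx0 (by linarith)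
    rw [Real.log_mul two_ne_zero hx0.ne'] at f1
    rw [Real.log_mul two_ne_zero hx1.ne'] at f2
    rw [abs_le]
    constructor <;> linarith
  have e : 1 / g - (CA X / 8 * x + CA X / 30 * Real.log x) =
      2 * n * (1 / (2 * n * g) - (CA X / 2 / 8 * (x + e0) + CA X / 2 / 30 * Real.log (x + e0)) / n)
      + (CA X / 8 * e0 + CA X / 30 * (Real.log (x + e0) - Real.log x)) := by
    field_simp
    ring
  rw [e]
  refine (abs_add_le _ _).trans (add_le_add ?_ ((abs_add_le _ _).trans (add_le_add ?_ ?_)))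
  · rw [abs_mul, abs_of_pos (by positivity : (0 : ℝ) < 2 * n)]
    exact mul_le_mul_of_nonneg_left hj (by positivity)
  · rw [abs_mul, abs_of_pos (by positivity : (0 : ℝ) < CA X / 8)]
  · rw [abs_mul, abs_of_pos (by positivity : (0 : ℝ) < CA X / 30)]
    exact mul_le_mul_of_nonneg_left hl (by positivity)

end

end Pool.Agent.T2H04.HY
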