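import Mathlib
import Pool.Agent.T2H04.HY.TlP7

/-!
# Asymptotics of the running coupling in the whole weak coupling region (package P9)

Let `y j = P0 j - N j → ∞`, `P0 j = Psi cas (1 / tt (S j) + 4/5 * (lm (S j) * tt (S j)))`, and
`S' j = stp^[N j] (S j)`. For every `t1 > 0`, `fwd_run` (TlP7) gives for large `j`: `GS (S' j) (A' j)` with
`A' j = Uq.AA C (A j) (N j)`, `tt (S' j) < t1`, `den (S' j) = (mk μ)^[N j] (den (S j))` and
`|y j - Psi cas (v j)| ≤ α √t1`, `v j = 1 / tt (S' j) + 4/5 * (lm (S' j) * tt (S' j))`, where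
`|lm (S' j) * tt (S' j)| ≤ C3 / 10` (`Tg7.lam_tt`). Hence `tt (S' j) → 0`, `v j * tt (S' j) → 1`,
`Psi cas (v j) / v j → 8 / cas` and `y j * tt (S' j) → 8 / cas`.
`A' j * tt (S' j) → 0`: `Uq.AA C A N ≤ A / 16 ^ N + 2 * C`, `A j * tt (S j) ≤ 1 / 10` (`uv2.pos`) and
`tt (S' j) / tt (S j) ≤ 1 + D * N j` (from `1 / tt (S j) ≤ 1 / tt (S' j) + D * N j`, `D = cas / 8 + 2 * C`,
as in TlP8 and `Tg`), so `A j / 16 ^ N j * tt (S' j) ≤ (1 + D * N j) / (10 * 16 ^ N j) → 0` because
`N j → ∞`.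
Finally `uv2.g2_as`: `|g2 (den (S' j)) - d0 * tt (S' j)| ≤ C * tt (S' j) * (√(tt (S' j)) + A' j * tt (S' j))`.
-/

open MeasureTheory Matrix Filter
open scoped Matrix.Norms.Frobenius Topology

namespace Pool.Agent.T2H04.HY

set_option linter.unusedSectionVars false

noncomputable section

variable {G : Type} [Group G] [TopologicalSpace G] [IsTopologicalGroup G] [CompactSpace G]
  [MeasurableSpace G] [BorelSpace G] (μ : Measure G) [μ.IsHaarMeasure] [IsProbabilityMeasure μ]
  {m : Type} [Fintype m] [DecidableEq m] (L : RD G m)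

namespace P9

/-- `log x / x → 0` -/
theorem log_div : Tendsto (fun x : ℝ => Real.log x / x) atTop (𝓝 0) := by
  have := Real.tendsto_pow_log_div_mul_add_atTop 1 0 1 one_ne_zero
  simpa using this

/-- the purely real part: `v * t → 1`, `t → 0+`, `|y - Psi v| ≤ α √t` -/
theorem core {cas α : ℝ} {y v t : ℕ → ℝ} (ht : Tendsto t atTop (𝓝[>] 0))
    (hv : Tendsto (fun j => v j * t j) atTop (𝓝 1))
    (hy : ∀ᶠ j in atTop, |y j - Psi cas (v j)| ≤ α * Real.sqrt (t j)) :
    Tendsto (fun j => y j * t j) atTop (𝓝 (8 / cas)) := by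
  have ht0 : Tendsto t atTop (𝓝 0) := ht.mono_right nhdsWithin_le_nhds
  have htp : ∀ᶠ j in atTop, 0 < t j := ht.eventually self_mem_nhdsWithin
  have hu : Tendsto (fun j => (t j)⁻¹) atTop atTop := tendsto_inv_nhdsGT_zero.comp ht
  have hvt : Tendsto v atTop atTop := by
    have e1 := hv.pos_mul_atTop one_pos hu
    refine e1.congr' ?_
    filter_upwards [htp] with j hj
    field_simp
  have hlog : Tendsto (fun j => Real.log (v j) / v j * (v j * t j)) atTop (𝓝 (0 * 1)) :=
    (log_div.comp hvt).mul hv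
  have hpsi : Tendsto (fun j => Psi cas (v j) * t j) atTop (𝓝 (8 / cas)) := by
    have e1 := (hv.const_mul (8 / cas)).sub (hlog.const_mul (4 / 15))
    rw [zero_mul, mul_zero, sub_zero, mul_one] at e1
    refine e1.congr' ?_
    filter_upwards [hvt.eventually_gt_atTop 0] with j hj
    unfold Psi
    field_simp
  have hsq : Tendsto (fun j => α * Real.sqrt (t j) * t j) atTop (𝓝 0) := by
    have e1 : Tendsto (fun j => Real.sqrt (t j)) atTop (𝓝 (Real.sqrt 0)) := ht0.sqrt
    rw [Real.sqrt_zero] at e1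
    have e2 := (e1.const_mul α).mul ht0
    rwa [mul_zero] at e2
  have hdiff : Tendsto (fun j => (y j - Psi cas (v j)) * t j) atTop (𝓝 0) := by
    refine squeeze_zero_norm' ?_ hsq
    filter_upwards [hy, htp] with j h1 h2
    rw [Real.norm_eq_abs, abs_mul, abs_of_pos h2]
    exact mul_le_mul_of_nonneg_right h1 h2.le
  have e := hdiff.add hpsi
  rw [zero_add] at e
  refine e.congr fun j => ?_
  ring

/-- growth of the inverse coupling along a run -/
theorem lin_run {t : ℕ → ℝ} {D : ℝ} {N : ℕ} (h : ∀ i < N, 1 / t i ≤ 1 / t (i + 1) + D) :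
    1 / t 0 ≤ 1 / t N + D * N := by
  induction N with
  | zero => simp
  | succ n ih =>
    have h1 := ih fun i hi => h i (by omega)
    have h2 := h n (by omega)
    push_cast
    linarith

/-- `(1 + D n) / 16 ^ n → 0` -/
theorem geo_lin (D : ℝ) : Tendsto (fun n : ℕ => (1 + D * n) / (10 * 16 ^ n)) atTop (𝓝 0) := by
  have e1 := tendsto_self_mul_const_pow_of_lt_one (show (0 : ℝ) ≤ 1 / 16 by norm_num)
    (by norm_num)
  have e2 := tendsto_pow_atTop_nhds_zero_of_lt_one (show (0 : ℝ) ≤ 1 / 16 by norm_num)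
    (by norm_num)
  have e3 := ((e2.add (e1.const_mul D)).const_mul (1 / 10))
  rw [mul_zero, add_zero, mul_zero] at e3
  refine e3.congr fun n => ?_
  rw [one_div, one_div, inv_pow]
  field_simp

end P9

/-- the running coupling in the whole weak coupling region -/
theorem fwd_as {Q : Type} (stp : Q → Q) (den : Q → G → ℝ) (tt lm : Q → ℝ) (GS : Q → ℝ → Prop)
    (Ds : Q → Q → ℝ → Prop) (ts C c cas d0 : ℝ)
    (uv2 : UV2 μ L stp den tt GS Ds ts C c (cas / 8) d0)
    (ts3 C3 : ℝ) (uv3 : UV3 stp tt lm GS ts3 C3 cas) (S : ℕ → Q) (A : ℕ → ℝ) (N : ℕ → ℕ)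
    (hS : ∀ j, GS (S j) (A j)) (ht : Tendsto (fun j => tt (S j)) atTop (𝓝 0))
    (hN : Tendsto N atTop atTop)
    (hP : Tendsto (fun j => Psi cas (1 / tt (S j) + 4 / 5 * (lm (S j) * tt (S j))) - N j) atTop
      atTop) :
    Tendsto (fun j => (Psi cas (1 / tt (S j) + 4 / 5 * (lm (S j) * tt (S j))) - N j) *
      g2 μ L ((mk μ)^[N j] (den (S j)))) atTop (𝓝 (8 * d0 / cas)) := by
  have hC := uv2.C_pos
  have hC3 := uv3.C_pos
  have hcas := uv3.cas_pos
  have hts := uv2.ts_pos
  obtain ⟨α, hα, hrun⟩ := fwd_run μ L stp den tt lm GS Ds ts C c cas d0 uv2 ts3 C3 uv3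
  -- the run
  have hev : ∀ t1 : ℝ, 0 < t1 → ∀ᶠ j in atTop,
      (∀ i ≤ N j, GS (stp^[i] (S j)) (Uq.AA C (A j) i) ∧ tt (stp^[i] (S j)) < t1 ∧
          den (stp^[i] (S j)) = (mk μ)^[i] (den (S j))) ∧
        |Psi cas (1 / tt (S j) + 4 / 5 * (lm (S j) * tt (S j))) - N j -
          Psi cas (1 / tt (stp^[N j] (S j)) +
            4 / 5 * (lm (stp^[N j] (S j)) * tt (stp^[N j] (S j))))| ≤
          α * Real.sqrt (tt (stp^[N j] (S j))) := by
    intro t1 ht1
    obtain ⟨M, t2, hM, ht2, hfw⟩ := hrun t1 ht1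
    filter_upwards [ht.eventually (gt_mem_nhds ht2), hP.eventually_ge_atTop M] with j j1 j2
    exact hfw (S j) (A j) (N j) (hS j) j1.le (by linarith)
  -- the final coupling tends to zero
  have hpos : ∀ᶠ j in atTop, 0 < tt (stp^[N j] (S j)) := by
    filter_upwards [hev 1 one_pos] with j j1
    exact (uv2.pos _ _ (j1.1 (N j) le_rfl).1).1
  have hT0 : Tendsto (fun j => tt (stp^[N j] (S j))) atTop (𝓝 0) := by
    refine tendsto_order.2 ⟨fun a ha => ?_, fun a ha => ?_⟩
    · filter_upwards [hpos] with j j1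
      linarith
    · filter_upwards [hev a ha] with j j1
      exact (j1.1 (N j) le_rfl).2.1
  have hT1 : Tendsto (fun j => tt (stp^[N j] (S j))) atTop (𝓝[>] 0) :=
    tendsto_nhdsWithin_iff.2 ⟨hT0, hpos⟩
  -- the corrected inverse coupling
  have hvt : Tendsto (fun j => (1 / tt (stp^[N j] (S j)) +
      4 / 5 * (lm (stp^[N j] (S j)) * tt (stp^[N j] (S j)))) * tt (stp^[N j] (S j))) atTop
      (𝓝 1) := by
    have e1 : Tendsto (fun j => 4 / 5 * (lm (stp^[N j] (S j)) * tt (stp^[N j] (S j))) *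
        tt (stp^[N j] (S j))) atTop (𝓝 0) := by
      have e2 := hT0.const_mul (4 / 5 * (C3 / 10))
      rw [mul_zero] at e2
      refine squeeze_zero_norm' ?_ e2
      filter_upwards [hev 1 one_pos, hpos] with j j1 j2
      have e3 := Tg7.lam_tt uv2 uv3 (j1.1 (N j) le_rfl).1
      rw [Real.norm_eq_abs, abs_mul, abs_mul, abs_of_pos j2,
        abs_of_pos (by norm_num : (0 : ℝ) < 4 / 5)]
      exact mul_le_mul_of_nonneg_right (mul_le_mul_of_nonneg_left e3 (by norm_num)) j2.le
    have e4 := e1.const_add 1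
    rw [add_zero] at e4
    refine e4.congr' ?_
    filter_upwards [hpos] with j j1
    field_simp
  have hyt := P9.core (cas := cas) (α := α)
    (y := fun j => Psi cas (1 / tt (S j) + 4 / 5 * (lm (S j) * tt (S j))) - N j)
    (v := fun j => 1 / tt (stp^[N j] (S j)) +
      4 / 5 * (lm (stp^[N j] (S j)) * tt (stp^[N j] (S j)))) hT1 hvt
    ((hev 1 one_pos).mono fun j j1 => j1.2)
  -- the error is forgotten
  obtain ⟨D, hD⟩ : ∃ D, D = cas / 8 + C * (1 + 1 / 10) := ⟨_, rfl⟩
  have hD0 : 0 ≤ D := by rw [hD]; positivity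
  have hAt : Tendsto (fun j => Uq.AA C (A j) (N j) * tt (stp^[N j] (S j))) atTop (𝓝 0) := by
    have e1 := ((P9.geo_lin D).comp hN).add (hT0.const_mul (2 * C))
    rw [mul_zero, add_zero] at e1
    refine squeeze_zero_norm' ?_ e1
    filter_upwards [hev (min 1 ts) (lt_min one_pos hts), hpos] with j j1 j2
    obtain ⟨r1, -⟩ := j1
    have hlast := r1 (N j) le_rfl
    obtain ⟨p1, p2, p3, p4⟩ := uv2.pos _ _ (hS j)
    obtain ⟨q1, q2, q3, q4⟩ := uv2.pos _ _ hlast.1
    rw [Real.norm_eq_abs, abs_of_nonneg (mul_nonneg q3 q1.le)]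
    have hst : ∀ i < N j, 1 / tt (stp^[i] (S j)) ≤ 1 / tt (stp^[i + 1] (S j)) + D := by
      intro i hi
      obtain ⟨g1, g2', -⟩ := r1 i hi.le
      obtain ⟨a1, a2, a3, a4⟩ := uv2.pos _ _ g1
      have b1 : tt (stp^[i] (S j)) ≤ ts := g2'.le.trans (min_le_right _ _)
      have b2 : tt (stp^[i] (S j)) ≤ 1 := g2'.le.trans (min_le_left _ _)
      obtain ⟨-, -, s3⟩ := uv2.step _ _ g1 b1
      have b3 : Real.sqrt (tt (stp^[i] (S j))) ≤ 1 := by rw [Real.sqrt_le_one]; exact b2
      have b4 : C * (Real.sqrt (tt (stp^[i] (S j))) + Uq.AA C (A j) i * tt (stp^[i] (S j))) ≤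
          C * (1 + 1 / 10) := mul_le_mul_of_nonneg_left (by linarith) hC.le
      have b5 := (abs_le.1 (s3.trans b4)).1
      rw [Function.iterate_succ_apply', hD]
      linarith
    have hlin := P9.lin_run (t := fun i => tt (stp^[i] (S j))) hst
    have hlin' : 1 / tt (S j) ≤ 1 / tt (stp^[N j] (S j)) + D * N j := hlin
    have c1 : 1 / tt (S j) * tt (stp^[N j] (S j)) ≤ 1 + D * N j := by
      have c2 : 1 / tt (S j) * tt (stp^[N j] (S j)) ≤
          (1 / tt (stp^[N j] (S j)) + D * N j) * tt (stp^[N j] (S j)) :=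
        mul_le_mul_of_nonneg_right hlin' q1.le
      have c3 : (1 / tt (stp^[N j] (S j)) + D * N j) * tt (stp^[N j] (S j)) =
          1 + D * N j * tt (stp^[N j] (S j)) := by field_simp
      have c4 : D * N j * tt (stp^[N j] (S j)) ≤ D * N j * 1 :=
        mul_le_mul_of_nonneg_left (hlast.2.1.le.trans (min_le_left _ _)) (by positivity)
      linarith
    have c5 : A j ≤ 1 / 10 * (1 / tt (S j)) := by
      have : A j ≤ 1 / 10 / tt (S j) := by
        rw [le_div_iff₀ p1]; exact p4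
      linarith [show 1 / 10 / tt (S j) = 1 / 10 * (1 / tt (S j)) by ring]
    have c6 : Uq.AA C (A j) (N j) ≤ A j / 16 ^ N j + 2 * C := by
      have d1 := Uq.AA_le (C := C) (A j) (N j)
      have hp : (0 : ℝ) < 16 ^ N j := by positivity
      have d2 : 0 ≤ C / 15 / 16 ^ N j := by positivity
      have d3 : (-C) / 16 ^ N j ≤ 0 := by
        rw [neg_div]
        have : 0 ≤ C / 16 ^ N j := by positivity
        linarith
      linarith
    have c7 : A j * tt (stp^[N j] (S j)) ≤ (1 + D * N j) / 10 := by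
      calc A j * tt (stp^[N j] (S j)) ≤ 1 / 10 * (1 / tt (S j)) * tt (stp^[N j] (S j)) :=
            mul_le_mul_of_nonneg_right c5 q1.le
        _ = 1 / 10 * (1 / tt (S j) * tt (stp^[N j] (S j))) := by ring
        _ ≤ 1 / 10 * (1 + D * N j) := mul_le_mul_of_nonneg_left c1 (by norm_num)
        _ = _ := by ring
    calc Uq.AA C (A j) (N j) * tt (stp^[N j] (S j)) ≤
        (A j / 16 ^ N j + 2 * C) * tt (stp^[N j] (S j)) := mul_le_mul_of_nonneg_right c6 q1.le
      _ = A j * tt (stp^[N j] (S j)) / 16 ^ N j + 2 * C * tt (stp^[N j] (S j)) := by ring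
      _ ≤ (1 + D * N j) / 10 / 16 ^ N j + 2 * C * tt (stp^[N j] (S j)) := by gcongr
      _ = (1 + D * N j) / (10 * 16 ^ N j) + 2 * C * tt (stp^[N j] (S j)) := by
          rw [div_div]
  -- the coupling
  have hg : Tendsto (fun j => g2 μ L ((mk μ)^[N j] (den (S j))) / tt (stp^[N j] (S j))) atTop
      (𝓝 d0) := by
    have e0 : Tendsto (fun j => C * (Real.sqrt (tt (stp^[N j] (S j))) +
        Uq.AA C (A j) (N j) * tt (stp^[N j] (S j)))) atTop (𝓝 0) := by
      have e1 : Tendsto (fun j => Real.sqrt (tt (stp^[N j] (S j)))) atTop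
          (𝓝 (Real.sqrt 0)) := hT0.sqrt
      rw [Real.sqrt_zero] at e1
      have e2 := (e1.add hAt).const_mul C
      rwa [add_zero, mul_zero] at e2
    have e3 : Tendsto (fun j => g2 μ L ((mk μ)^[N j] (den (S j))) / tt (stp^[N j] (S j)) - d0)
        atTop (𝓝 0) := by
      refine squeeze_zero_norm' ?_ e0
      filter_upwards [hev 1 one_pos, hpos] with j j1 j2
      obtain ⟨g0, -, d1⟩ := j1.1 (N j) le_rfl
      have h2 := uv2.g2_as _ _ g0
      rw [← d1, Real.norm_eq_abs]
      have e4 : g2 μ L (den (stp^[N j] (S j))) / tt (stp^[N j] (S j)) - d0 =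
          (g2 μ L (den (stp^[N j] (S j))) - d0 * tt (stp^[N j] (S j))) /
            tt (stp^[N j] (S j)) := by
        field_simp
      rw [e4, abs_div, abs_of_pos j2, div_le_iff₀ j2]
      refine h2.trans (le_of_eq ?_)
      ring
    have e5 := e3.add_const d0
    rw [zero_add] at e5
    refine e5.congr fun j => ?_
    ring
  have hfin := hyt.mul hg
  have e8 : 8 / cas * d0 = 8 * d0 / cas := by ring
  rw [e8] at hfin
  refine hfin.congr' ?_
  filter_upwards [hpos] with j j1
  field_simp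

end

end Pool.Agent.T2H04.HY
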