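import Mathlib
import Pool.Agent.T2H04.HY.TlJ
import Pool.Agent.T2H04.HY.TlP9

/-!
# The running coupling in the whole weak coupling region
-/

open MeasureTheory Matrix Filter
open scoped Matrix.Norms.Frobenius Topology

namespace Pool.Agent.T2H04.HY

set_option linter.unusedSectionVars false

noncomputable section

section lat

variable {G : Type} [Group G] [TopologicalSpace G] [IsTopologicalGroup G] [CompactSpace G]
  [MeasurableSpace G] [BorelSpace G] (μ : Measure G) [μ.IsHaarMeasure] [IsProbabilityMeasure μ]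
  {m : Type} [Fintype m] [DecidableEq m] (L : RD G m)

theorem act_as (hs : Simple L) {n : ℕ} (hn : 0 < n) (E : Fin n → Mt m)
    (hE : ∀ a, E a ∈ lieSet L)
    (orth : ∀ a b, (trace ((E a)ᴴ * E b)).re = if a = b then 1 else 0)
    (full : ∀ Y ∈ lieSet L, Y ∈ Submodule.span ℝ (Set.range E))
    (V : Mt m → ℂ) (hV : Act L V) (hI : InC L (At V)) (t : ℕ → ℝ) (k : ℕ → ℕ)
    (ht : ∀ j, 0 < t j) (htt : Tendsto t atTop (𝓝 0)) (hk : Tendsto k atTop atTop)
    (hP : Tendsto (fun j => Psi ((∑ a, ∑ b, ‖E a * E b - E b * E a‖ ^ 2) / n)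
      (1 / t j + 4 / 5 * lamU E V) - k j) atTop atTop) :
    Tendsto (fun j => (Psi ((∑ a, ∑ b, ‖E a * E b - E b * E a‖ ^ 2) / n)
      (1 / t j + 4 / 5 * lamU E V) - k j) * g2 μ L ((mk μ)^[k j] (nres μ L (At V (t j))))) atTop
      (𝓝 (8 * n / ((∑ a, ∑ b, ‖E a * E b - E b * E a‖ ^ 2) / n))) := by
  obtain ⟨cas, hcas0, hcas, hcasn⟩ := cas_exists hs E hE orth full
  have hn0 : (0 : ℝ) < n := by exact_mod_cast hn
  have hcn : (∑ a, ∑ b, ‖E a * E b - E b * E a‖ ^ 2) / n = cas := by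
    rw [← hcasn]
    field_simp
  rw [hcn] at hP ⊢
  obtain ⟨r0, Good, ts, C, ρs, c, ts3, C3, p, Ds, hr0, uv, uv2, uv3, uv4, hG, -, hW, -⟩ :=
    uv_both4 μ L hs hn E hE orth full (finrank_lieAlg E hE orth full) cas hcas0 hcas (At V) hI
  have hts := uv2.ts_pos
  have : Nonempty (St L) := ⟨⟨0, 0, 0⟩⟩
  choose! SW hW1 hW2 hW3 using hW
  set u : ℕ → ℝ := fun j => min (t j) ts with hu
  have hu0 : ∀ j, 0 < u j := fun j => lt_min (ht j) hts
  have hu1 : ∀ j, u j ≤ ts := fun j => min_le_right _ _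
  have hev : ∀ᶠ j in atTop, u j = t j := by
    filter_upwards [htt.eventually (gt_mem_nhds hts)] with j hj
    exact min_eq_left hj.le
  have hut : Tendsto u atTop (𝓝 0) := htt.congr' (hev.mono fun j hj => hj.symm)
  have hlW : ∀ x, 0 < x → x ≤ ts → lam E (SW x).w * (SW x).t = lamU E V := by
    intro x hx0 hx1
    obtain ⟨h1, -⟩ := hW1 _ hx0 hx1
    have h2 := hW2 _ hx0 hx1
    refine sfw_lam h1.sf hr0 le_rfl h1.A0 h1.p (F := (SW x).F) (c := 1) ?_ ?_ hV.one hV.real
      E hE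
    · rw [h2]; exact At_one_ne
    · intro y
      rw [h2, hW3 _ hx0 hx1]
      exact At_eq y
  have key := fwd_as μ L (stp μ) (fun S : St L => nres μ L S.F) (fun S => S.t)
    (fun S => lam E S.w) (fun S A => GSt L r0 S A ∧ S.t ≤ 2 * ts) Ds ts C c cas n uv2 ts3 C3 uv3
    (fun j => SW (u j)) (fun j => 1 / (20 * u j)) k (fun j => hW1 _ (hu0 j) (hu1 j)) (by
      refine hut.congr fun j => ?_
      exact (hW3 _ (hu0 j) (hu1 j)).symm) hk (by
      refine hP.congr' ?_
      filter_upwards [hev] with j hj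
      rw [hlW _ (hu0 j) (hu1 j), hW3 _ (hu0 j) (hu1 j), hj])
  refine key.congr' ?_
  filter_upwards [hev] with j hj
  rw [hlW _ (hu0 j) (hu1 j), hW3 _ (hu0 j) (hu1 j), hW2 _ (hu0 j) (hu1 j), hj]

end lat

variable {G : Type} [Group G] [TopologicalSpace G] [IsTopologicalGroup G] [CompactSpace G]
  [MeasurableSpace G] [BorelSpace G] (μ : Measure G) [μ.IsHaarMeasure] [IsProbabilityMeasure μ]
  {N : ℕ} {R : URep G N}

/-- the running coupling in the whole weak coupling region -/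
theorem as_V {n : ℕ} {X : Fin n → Matrix (Fin N) (Fin N) ℂ} (h : SG R n X) {V : G → ℝ}
    (hV : PolAct R V) (δ : ℝ) {β : ℕ → ℝ} {k : ℕ → ℕ} (hβ : ∀ j, 0 < β j)
    (hβt : Tendsto β atTop atTop) (hkt : Tendsto k atTop atTop)
    (hc : Tendsto (fun j => cnt (CA X) δ (β j) (k j)) atTop atBot) :
    Tendsto (fun j => -cnt (CA X) δ (β j) (k j) * gsq μ R n ((mk μ)^[k j] (bw μ V (β j)))) atTop
      (𝓝 (8 / CA X)) := by
  have hn := h.npos
  have hca := h.ca_pos
  have hn0 : (0 : ℝ) < n := by exact_mod_cast hn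
  obtain ⟨V', hV', hVr⟩ := pol_act R μ V hV
  obtain ⟨C, δ0, hC, hδ0, hq⟩ := act_quart (blk R) hV'
  obtain ⟨q, hq0, hqC⟩ : ∃ k : ℕ, 0 < k ∧ 20 * C ≤ k := by
    obtain ⟨k, hk⟩ := exists_nat_ge (20 * C)
    exact ⟨k + 1, by omega, by push_cast; linarith⟩
  have : NeZero q := ⟨hq0.ne'⟩
  have hk : (0 : ℝ) < q := by exact_mod_cast hq0
  have hV2 : Act (ksum (blk R) q) (kAct q V') := ks_act (blk R) q hV'
  obtain ⟨D⟩ := exists_log (m := Fin q × (Fin N ⊕ Fin N))
  obtain hI : InC (ksum (blk R) q) (At (kAct q V')) := by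
    refine act_cls (ksum (blk R) q) D hV2 hδ0 fun Z hZ => ?_
    refine (ks_quart (blk R) q hq Z hZ).trans ?_
    refine mul_le_mul_of_nonneg_right ?_ (by positivity)
    rw [div_le_iff₀ hk]
    linarith
  have hs : Simple (ksum (blk R) q) := ks_simple (blk R) q (blk_simple R h.conn h.nonab h.irred)
  obtain ⟨hE', oE', fE', sE'⟩ := TlH.basis R (k := q) X h.mem h.orth h.span
  have hS : (∑ a, ∑ b, ‖(TlH.cn q • TlH.em q (X a)) * (TlH.cn q • TlH.em q (X b)) -
      (TlH.cn q • TlH.em q (X b)) * (TlH.cn q • TlH.em q (X a))‖ ^ 2) / n = CA X / (2 * q) := by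
    rw [sE']
    unfold CA
    ring
  obtain ⟨c, hcd⟩ : ∃ c, c = 4 / 5 * lamU (fun a => TlH.cn q • TlH.em q (X a)) (kAct q V') :=
    ⟨_, rfl⟩
  have hnr : ∀ t, nres μ (ksum (blk R) q) (At (kAct q V') t) = bw μ V (2 * q / t) := fun t =>
    nres_ks μ R hV'.real hVr q t
  have hkk : (0 : ℝ) < 2 * q := by positivity
  have hD := (psiD_tendsto (CA X) δ c hkk).comp hβt
  have hpc : ∀ j, Psi (CA X / (2 * q)) (β j / (2 * q) + c) - k j =
      -cnt (CA X) δ (β j) (k j) + psiD (CA X) δ (2 * q) c (β j) := fun j =>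
    psi_cnt (ca := CA X) (δ := δ) (c := c) (β := β j) hkk (k j)
  have hx : Tendsto (fun j => -cnt (CA X) δ (β j) (k j)) atTop atTop :=
    tendsto_neg_atBot_atTop.comp hc
  have hy : Tendsto (fun j => Psi (CA X / (2 * q)) (β j / (2 * q) + c) - k j) atTop atTop := by
    refine (hx.atTop_add hD).congr fun j => ?_
    rw [hpc]
    rfl
  have hinv : ∀ b : ℝ, 2 * (q : ℝ) / (2 * q / b) = b := fun b => by
    rw [div_div_cancel₀ hkk.ne']
  have key := act_as μ (ksum (blk R) q) hs hn _ hE' oE' fE' _ hV2 hI (fun j => 2 * q / β j) k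
    (fun j => div_pos hkk (hβ j)) (Tendsto.const_div_atTop hβt _) hkt (by
      rw [hS, ← hcd]
      refine hy.congr fun j => ?_
      rw [one_div_div])
  rw [hS, ← hcd] at key
  have key2 : Tendsto (fun j => (Psi (CA X / (2 * q)) (β j / (2 * q) + c) - k j) *
      gsq μ R n ((mk μ)^[k j] (bw μ V (β j)))) atTop (𝓝 (8 / CA X)) := by
    have h1 := key.const_mul (1 / (2 * n * q) : ℝ)
    have e : 1 / (2 * n * q) * (8 * n / (CA X / (2 * q))) = 8 / CA X := by
      field_simp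
      try ring
    rw [e] at h1
    refine h1.congr fun j => ?_
    rw [one_div_div, hnr, hinv, g2_ks μ R hn]
    field_simp
  have hr : Tendsto (fun j => -cnt (CA X) δ (β j) (k j) /
      (Psi (CA X / (2 * q)) (β j / (2 * q) + c) - k j)) atTop (𝓝 1) := by
    have h1 : Tendsto (fun j => psiD (CA X) δ (2 * q) c (β j) /
        (Psi (CA X / (2 * q)) (β j / (2 * q) + c) - k j)) atTop (𝓝 0) := hD.div_atTop hy
    have h2 := h1.const_sub 1
    rw [sub_zero] at h2
    refine h2.congr' ?_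
    filter_upwards [hy.eventually_gt_atTop 0] with j hj
    rw [eq_div_iff hj.ne', sub_mul, div_mul_cancel₀ _ hj.ne', one_mul, hpc]
    ring
  have h3 := hr.mul key2
  rw [one_mul] at h3
  refine h3.congr' ?_
  filter_upwards [hy.eventually_gt_atTop 0] with j hj
  rw [← mul_assoc, div_mul_cancel₀ _ hj.ne']

end

end Pool.Agent.T2H04.HY
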