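import Mathlib
import Pool.Agent.T2H04.HY.RgMain
import Pool.Agent.T2H04.HY.TlH4
import Pool.Agent.T2H04.HY.TlH5

/-!
# The main theorem on the level of the renormalisation group, with the two loop asymptotics
-/

open MeasureTheory Matrix Filter
open scoped Matrix.Norms.Frobenius Topology

namespace Pool.Agent.T2H04.HY

set_option linter.unusedSectionVars false

noncomputable section

variable {G : Type} [Group G] [TopologicalSpace G] [IsTopologicalGroup G] [CompactSpace G]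
  [MeasurableSpace G] [BorelSpace G] (μ : Measure G) [μ.IsHaarMeasure] [IsProbabilityMeasure μ]
  {N : ℕ} (R : URep G N)

/-- the ultraviolet limit of the lattice theories with the action `V`, with the two loop
asymptotics; `δ` is the shift of the bare coupling -/
structure UVT (n : ℕ) (ca : ℝ) (V : G → ℝ) (δ κ : ℝ) (f : ℤ → G → ℝ) (σ ψ : ℝ) (σV : ℝ → ℝ) :
    Prop where
  ex : ∃ (β : ℕ → ℝ) (k : ℕ → ℕ), (∀ j, 0 < β j) ∧ Tendsto β atTop atTop ∧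
    ∀ j, gsq μ R n ((mk μ)^[k j] (bw μ V (β j))) = κ
  lim : ∀ (β : ℕ → ℝ) (k : ℕ → ℕ), (∀ j, 0 < β j) → Tendsto β atTop atTop →
    Tendsto (fun j => gsq μ R n ((mk μ)^[k j] (bw μ V (β j)))) atTop (𝓝 κ) →
    Tendsto (fun j => cnt ca δ (β j) (k j)) atTop (𝓝 ψ) ∧
    (∀ l : ℤ, TendstoUniformly (fun j => (mk μ)^[((k j : ℤ) + l).toNat] (bw μ V (β j)))
      (f l) atTop) ∧ Tendsto (fun j => 4 ^ k j * σV (β j)) atTop (𝓝 σ)

variable {R}

theorem lieN_add {X Y : Matrix (Fin N) (Fin N) ℂ} (hX : X ∈ lieN R) (hY : Y ∈ lieN R) :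
    X + Y ∈ lieN R := by
  rw [← mem_lie_phi] at *
  rw [map_add]
  exact lie_add _ hX hY

theorem lieN_sub {X Y : Matrix (Fin N) (Fin N) ℂ} (hX : X ∈ lieN R) (hY : Y ∈ lieN R) :
    X - Y ∈ lieN R := by
  rw [← mem_lie_phi] at *
  rw [map_sub]
  exact lie_sub _ hX hY

theorem Quartic.eq {V : G → ℝ} {V4 V4' : Matrix (Fin N) (Fin N) ℂ → ℝ} (h : Quartic R V V4)
    (h' : Quartic R V V4') {Y : Matrix (Fin N) (Fin N) ℂ} (hY : Y ∈ lieN R) : V4 Y = V4' Y := by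
  choose γ hγ using hY
  have hY : Y ∈ lieN R := fun t => ⟨γ t, hγ t⟩
  exact tendsto_nhds_unique (h Y hY γ hγ) (h' Y hY γ hγ)

theorem Quartic.shift_eq {V : G → ℝ} {V4 V4' : Matrix (Fin N) (Fin N) ℂ → ℝ}
    (h : Quartic R V V4) (h' : Quartic R V V4') {n : ℕ} {X : Fin n → Matrix (Fin N) (Fin N) ℂ}
    (hX : ∀ a, X a ∈ lieN R) : shift X V4 = shift X V4' := by
  unfold shift
  congr 1
  refine Finset.sum_congr rfl fun a _ => Finset.sum_congr rfl fun b _ => ?_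
  rw [h.eq h' (lieN_add (hX a) (hX b)), h.eq h' (lieN_sub (hX a) (hX b)), h.eq h' (hX a),
    h.eq h' (hX b)]

theorem lim_of_diff {a : ℕ → ℝ} (h : ∀ φ φ' : ℕ → ℕ, Tendsto φ atTop atTop →
    Tendsto φ' atTop atTop → Tendsto (fun j => a (φ j) - a (φ' j)) atTop (𝓝 0)) :
    ∃ x, Tendsto a atTop (𝓝 x) := by
  refine cauchySeq_tendsto_of_complete ?_
  rw [Metric.cauchySeq_iff]
  by_contra hcon
  push Not at hcon
  obtain ⟨ε, hε, hcon⟩ := hcon
  choose φ hφ φ' hφ' hd using hcon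
  have h1 : Tendsto φ atTop atTop := tendsto_atTop_mono hφ tendsto_id
  have h2 : Tendsto φ' atTop atTop := tendsto_atTop_mono hφ' tendsto_id
  have h3 := (h φ φ' h1 h2).norm
  rw [norm_zero] at h3
  obtain ⟨j, hj⟩ := (h3.eventually (gt_mem_nhds hε)).exists
  have := hd j
  rw [Real.dist_eq] at this
  rw [Real.norm_eq_abs] at hj
  linarith

theorem k_atTop {β : ℕ → ℝ} {k : ℕ → ℕ} {c : ℝ} (hc : 0 < c) (hβ : Tendsto β atTop atTop)
    (h : Tendsto (fun j => (k j : ℝ) / β j) atTop (𝓝 c)) : Tendsto k atTop atTop := by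
  have h1 : Tendsto (fun j => (k j : ℝ) / β j * β j) atTop atTop := h.pos_mul_atTop hc hβ
  have h2 : Tendsto (fun j => (k j : ℝ)) atTop atTop := by
    refine h1.congr' ?_
    filter_upwards [hβ.eventually_gt_atTop 0] with j hj
    exact div_mul_cancel₀ _ hj.ne'
  exact tendsto_natCast_atTop_iff.1 h2

/-- Asymptotic scaling of the string tension at two loops. -/
theorem theta_of {n : ℕ} {X : Fin n → Matrix (Fin N) (Fin N) ℂ} (h : SG R n X) {V : G → ℝ}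
    (hV : PolAct R V) {σV : ℝ → ℝ} (hσV : ∀ β, 0 < β → 0 < σV β) {κ1 δ : ℝ} (hκ1 : 0 < κ1)
    {f : ℝ → ℤ → G → ℝ} {σ ψ : ℝ → ℝ} (hσ : ∀ κ, 0 < κ → κ ≤ κ1 → 0 < σ κ)
    (hU : ∀ κ, 0 < κ → κ ≤ κ1 → UVT μ R n (CA X) V δ κ (f κ) (σ κ) (ψ κ) σV) :
    ∃ K : ℝ, ∀ᶠ β in atTop, |Real.log (σV β) -
      (8 / 15 * Real.log 2 * Real.log β - 16 * Real.log 2 / CA X * β)| ≤ K := by
  obtain ⟨κ2, hκ2, H⟩ := act_main μ h hV
  obtain ⟨-, ⟨κ0, hκ0, hκ0', hex⟩, -⟩ := H (min κ1 κ2) (lt_min hκ1 hκ2) (min_le_right _ _)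
  by_contra hcon
  push Not at hcon
  set Θ : ℝ → ℝ := fun β => Real.log (σV β) -
    (8 / 15 * Real.log 2 * Real.log β - 16 * Real.log 2 / CA X * β) with hΘ
  have hb : ∀ j : ℕ, ∃ b : ℝ, (j : ℝ) + 1 ≤ b ∧ (j : ℝ) < |Θ b| := by
    intro j
    have h1 := hcon j
    have h2 : ∃ᶠ β in atTop, (j : ℝ) < |Θ β| := by
      refine h1.mono fun β hβ => ?_
      exact hβ
    obtain ⟨b, h3, h4⟩ := (h2.and_eventually (eventually_ge_atTop ((j : ℝ) + 1))).exists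
    exact ⟨b, h4, h3⟩
  choose b hb1 hb2 using hb
  have hb0 : ∀ j, 0 < b j := fun j => lt_of_lt_of_le (by positivity) (hb1 j)
  have hbt : Tendsto b atTop atTop := by
    refine tendsto_atTop_mono (f := fun j : ℕ => (j : ℝ)) (fun j => ?_) tendsto_natCast_atTop_atTop
    linarith [hb1 j]
  obtain ⟨k, hk⟩ := hex b hb0 hbt
  have hk' : ∃ᶠ j in atTop, gsq μ R n ((mk μ)^[k j] (bw μ V (b j))) ∈ Set.Icc κ0 (min κ1 κ2) :=
    (hk.mono fun j hj => ⟨hj.1, hj.2⟩).frequently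
  obtain ⟨κ, hκm, φ, hφ, hlim⟩ := isCompact_Icc.tendsto_subseq' hk'
  have hκ0p : 0 < κ := hκ0.trans_le hκm.1
  have hκle : κ ≤ κ1 := hκm.2.trans (min_le_left _ _)
  have hφt := hφ.tendsto_atTop
  have hbφ : Tendsto (fun j => b (φ j)) atTop atTop := hbt.comp hφt
  obtain ⟨hc, -, hs⟩ := (hU κ hκ0p hκle).lim (fun j => b (φ j)) (fun j => k (φ j))
    (fun j => hb0 _) hbφ hlim
  have h1 : Tendsto (fun j => Real.log (4 ^ k (φ j) * σV (b (φ j)))) atTop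
      (𝓝 (Real.log (σ κ))) := hs.log (hσ κ hκ0p hκle).ne'
  have h2 := (h1.sub (hc.const_mul (Real.log 4))).sub_const (16 * Real.log 2 / CA X * δ)
  have h3 : Tendsto (fun j => |Θ (b (φ j))|) atTop (𝓝 |Real.log (σ κ) - Real.log 4 * ψ κ -
      16 * Real.log 2 / CA X * δ|) := by
    refine (h2.congr fun j => ?_).abs
    have h4 : 0 < σV (b (φ j)) := hσV _ (hb0 _)
    rw [Real.log_mul (by positivity) h4.ne', Real.log_pow, hΘ]
    have e : Real.log 4 = 2 * Real.log 2 := by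
      rw [show (4 : ℝ) = 2 ^ 2 by norm_num, Real.log_pow]
      push_cast
      ring
    unfold cnt
    simp only [e]
    ring
  have h4 : Tendsto (fun j => |Θ (b (φ j))|) atTop atTop := by
    refine tendsto_atTop_mono (f := fun j : ℕ => ((φ j : ℕ) : ℝ)) (fun j => (hb2 _).le) ?_
    exact tendsto_natCast_atTop_atTop.comp hφt
  exact not_tendsto_nhds_of_tendsto_atTop h4 _ h3

/-- **The main theorem on the level of the renormalisation group**, with the two loop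
asymptotics. -/
theorem rg_main2 {n : ℕ} {X : Fin n → Matrix (Fin N) (Fin N) ℂ} (h : SG R n X) :
    ∃ κ1 : ℝ, 0 < κ1 ∧ ∃ (f : ℝ → ℤ → G → ℝ) (σ ψ : ℝ → ℝ),
      (∀ κ, 0 < κ → κ ≤ κ1 → Cont μ R n (CA X) κ (f κ) ∧ 0 < σ κ ∧ Ten μ (f κ 0) (σ κ) ∧
        (∃ s : ℝ, 0 < s ∧ Tendsto (fun q : ℕ => -(Real.log (wlp μ R (f κ q))) / 4 ^ q) atTop
          (𝓝 s)) ∧
        ∃ K : ℝ, ∀ k : ℕ, 1 ≤ k → |1 / gsq μ R n (f κ (-(k : ℤ))) -
          (CA X / 8 * k + CA X / 30 * Real.log k)| ≤ K) ∧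
      (∀ V : G → ℝ, PolAct R V → ∃ V4, Quartic R V V4 ∧ ∃ σV : ℝ → ℝ, (∀ β, 0 < β → 0 < σV β ∧
        (∀ q, 0 < e2 μ ((mk μ)^[q] (bw μ V β))) ∧ Ten μ (bw μ V β) (σV β)) ∧
        (∃ K : ℝ, ∀ᶠ β in atTop, |Real.log (σV β) -
          (8 / 15 * Real.log 2 * Real.log β - 16 * Real.log 2 / CA X * β)| ≤ K) ∧
        ∃ κV : ℝ, 0 < κV ∧ (V = wa R → κV = κ1) ∧
          ∀ κ, 0 < κ → κ ≤ κ1 → κ ≤ κV →
            UVT μ R n (CA X) V (shift X V4) κ (f κ) (σ κ) (ψ κ) σV) ∧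
      (∀ κ, 0 < κ → κ ≤ κ1 → ∀ m : ℕ, gsq μ R n (f κ (-(m : ℤ))) ≤ κ1 →
        (∀ l : ℤ, f (gsq μ R n (f κ (-(m : ℤ)))) l = f κ (l - m)) ∧
        ψ (gsq μ R n (f κ (-(m : ℤ)))) = ψ κ - m ∧
        σ (gsq μ R n (f κ (-(m : ℤ)))) = σ κ / 4 ^ m) ∧
      (∀ (κ : ℝ) (κs : ℕ → ℝ), 0 < κ → κ ≤ κ1 → (∀ i, 0 < κs i ∧ κs i ≤ κ1) →
        Tendsto κs atTop (𝓝 κ) →
          (∀ l : ℤ, TendstoUniformly (fun i => f (κs i) l) (f κ l) atTop) ∧
          Tendsto (fun i => ψ (κs i)) atTop (𝓝 (ψ κ)) ∧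
          Tendsto (fun i => σ (κs i)) atTop (𝓝 (σ κ))) := by
  have hn := h.npos
  have hn0 : (0 : ℝ) < n := by exact_mod_cast hn
  have hca := h.ca_pos
  have hs := blk_simple R h.conn h.nonab h.irred
  obtain ⟨κ1, hκ1, f, σ, H1, H2, ⟨σW, hW1, hW2⟩, H4, H5⟩ := rg_main μ h
  -- two loops for Wilson's action
  obtain ⟨Wa, W4, hWa, hW4, κ2, hκ2, T1⟩ := tl_act μ h (wilson_polAct R)
  have hsh : shift X Wa = shift X W4 := hWa.shift_eq hW4 h.mem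
  obtain ⟨δ, hδ⟩ : ∃ δ, δ = shift X W4 := ⟨_, rfl⟩
  -- the running coupling
  obtain ⟨hfin, E, hE, oE, fE, sE⟩ := blk_basis R X h.mem h.orth h.span
  have hcs : CA X / 2 * n = ∑ a, ∑ b, ‖E a * E b - E b * E a‖ ^ 2 := by
    rw [sE]
    unfold CA
    field_simp
  obtain ⟨κ3, hκ3, T3⟩ := wilson_run μ (blk R) hs hn E hE oE fE (CA X / 2) hcs
  obtain ⟨κ', hκ'd⟩ : ∃ κ', κ' = min κ1 (min κ2 (κ3 / (2 * n))) := ⟨_, rfl⟩
  have hκ' : 0 < κ' := by rw [hκ'd]; positivity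
  have le1 : κ' ≤ κ1 := by rw [hκ'd]; exact min_le_left _ _
  have le2 : κ' ≤ κ2 := by rw [hκ'd]; exact (min_le_right _ _).trans (min_le_left _ _)
  have le3 : κ' ≤ κ3 / (2 * n) := by rw [hκ'd]; exact (min_le_right _ _).trans (min_le_right _ _)
  -- sequences for Wilson's action
  have hex : ∀ κ, 0 < κ → κ ≤ κ' → ∃ (β : ℕ → ℝ) (k : ℕ → ℕ), (∀ j, 0 < β j) ∧
      Tendsto β atTop atTop ∧ ∀ j, gsq μ R n ((mk μ)^[k j] (bw μ (wa R) (β j))) = κ :=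
    fun κ h1 h2 => (hW2 κ h1 (h2.trans le1)).ex
  choose! β0 k0 hβ0 hβt0 hg0 using hex
  have hgl : ∀ κ, 0 < κ → κ ≤ κ' → Tendsto (fun j => gsq μ R n ((mk μ)^[k0 κ j]
      (bw μ (wa R) (β0 κ j)))) atTop (𝓝 κ) := fun κ h1 h2 => by
    simp only [hg0 κ h1 h2]
    exact tendsto_const_nhds
  have hWW : ∀ κ, 0 < κ → κ ≤ κ' → ∀ (β β' : ℕ → ℝ) (k k' : ℕ → ℕ), (∀ j, 0 < β j) →
      (∀ j, 0 < β' j) → Tendsto β atTop atTop → Tendsto β' atTop atTop →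
      Tendsto (fun j => gsq μ R n ((mk μ)^[k j] (bw μ (wa R) (β j)))) atTop (𝓝 κ) →
      Tendsto (fun j => gsq μ R n ((mk μ)^[k' j] (bw μ (wa R) (β' j)))) atTop (𝓝 κ) →
      Tendsto (fun j => cnt (CA X) δ (β j) (k j) - cnt (CA X) δ (β' j) (k' j)) atTop (𝓝 0) := by
    intro κ h1 h2 β β' k k' a1 a2 a3 a4 a5 a6
    have h3 := T1 κ h1 (h2.trans le2) β β' k k' a1 a2 a3 a4 a5 a6
    rwa [hsh, ← hδ] at h3
  have hψ : ∀ κ, ∃ x : ℝ, 0 < κ → κ ≤ κ' →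
      Tendsto (fun j => cnt (CA X) δ (β0 κ j) (k0 κ j)) atTop (𝓝 x) := by
    intro κ
    by_cases hk : 0 < κ ∧ κ ≤ κ'
    · obtain ⟨h1, h2⟩ := hk
      obtain ⟨x, hx⟩ := lim_of_diff (a := fun j => cnt (CA X) δ (β0 κ j) (k0 κ j))
        fun φ φ' hφ hφ' => hWW κ h1 h2 (fun j => β0 κ (φ j)) (fun j => β0 κ (φ' j))
          (fun j => k0 κ (φ j)) (fun j => k0 κ (φ' j)) (fun j => hβ0 κ h1 h2 _)
          (fun j => hβ0 κ h1 h2 _) ((hβt0 κ h1 h2).comp hφ) ((hβt0 κ h1 h2).comp hφ')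
          ((hgl κ h1 h2).comp hφ) ((hgl κ h1 h2).comp hφ')
      exact ⟨x, fun _ _ => hx⟩
    · exact ⟨0, fun h1 h2 => absurd ⟨h1, h2⟩ hk⟩
  choose ψ hψ using hψ
  have hpdW : ∀ b, PD μ (bw μ (wa R) b) := bw_pd μ (wa_cont R)
  -- the limits for Wilson's action
  have hUW : ∀ κ, 0 < κ → κ ≤ κ' →
      UVT μ R n (CA X) (wa R) δ κ (f κ) (σ κ) (ψ κ) σW := by
    intro κ h1 h2
    have hu := hW2 κ h1 (h2.trans le1)
    refine ⟨hu.ex, fun β k hβ hβt hg => ?_⟩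
    obtain ⟨-, k2, k3⟩ := hu.lim β k hβ hβt hg
    refine ⟨?_, k2, k3⟩
    have h3 := hWW κ h1 h2 β (β0 κ) k (k0 κ) hβ (hβ0 κ h1 h2) hβt (hβt0 κ h1 h2) hg (hgl κ h1 h2)
    have h4 := h3.add (hψ κ h1 h2)
    simpa using h4
  refine ⟨κ', hκ', f, σ, ψ, ?_, ?_, ?_, ?_⟩
  · intro κ h1 h2
    obtain ⟨a1, a2, a3, a4⟩ := H1 κ h1 (h2.trans le1)
    refine ⟨a1, a2, a3, a4, ?_⟩
    have h3 := h2.trans le3
    rw [le_div_iff₀ (by positivity)] at h3
    have hβ := hβ0 κ h1 h2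
    have hβt := hβt0 κ h1 h2
    have e1 : ∀ j, wil μ (blk R) (2 / β0 κ j) = bw μ (wa R) (β0 κ j) := by
      intro j
      rw [wil_blk]
      congr 1
      have := hβ j
      field_simp
    obtain ⟨K, hK⟩ := T3 (2 * n * κ) (by positivity) (by linarith) (fun j => 2 / β0 κ j) (k0 κ)
      (fun j => div_pos two_pos (hβ j)) (Tendsto.const_div_atTop hβt _) (by
        simp only [e1, g2_blk μ R hn, hg0 κ h1 h2]
        exact tendsto_const_nhds)
    refine ⟨2 * n * K, fun l hl => ?_⟩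
    have h4 := hK l hl
    simp only [e1, g2_blk μ R hn] at h4
    have hpos : 0 < gsq μ R n (f κ (-(l : ℤ))) := gsq_pos μ h (a1.pd _).cont (a1.pos _)
    have h5 : Tendsto (fun j => gsq μ R n ((mk μ)^[k0 κ j - l] (bw μ (wa R) (β0 κ j)))) atTop
        (𝓝 (gsq μ R n (f κ (-(l : ℤ))))) := by
      have h6 := ((hUW κ h1 h2).lim (β0 κ) (k0 κ) hβ hβt (hgl κ h1 h2)).2.1 (-(l : ℤ))
      have e : ∀ j, ((k0 κ j : ℤ) + -(l : ℤ)).toNat = k0 κ j - l := fun j => by omega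
      simp only [e] at h6
      exact gsq_tendsto μ (R := R) hn (fun j => (Asm.iter_pd μ (hpdW _) _).cont) (a1.pd _).cont h6
    have h7 : Tendsto (fun j => |1 / (2 * n * gsq μ R n ((mk μ)^[k0 κ j - l]
        (bw μ (wa R) (β0 κ j)))) - (CA X / 2 / 8 * l + CA X / 2 / 30 * Real.log l) / n|) atTop
        (𝓝 |1 / (2 * n * gsq μ R n (f κ (-(l : ℤ)))) -
          (CA X / 2 / 8 * l + CA X / 2 / 30 * Real.log l) / n|) :=
      ((Tendsto.div tendsto_const_nhds (h5.const_mul _) (by positivity)).sub_const _).abs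
    have h8 := le_of_tendsto h7 h4
    have e2 : 1 / gsq μ R n (f κ (-(l : ℤ))) - (CA X / 8 * l + CA X / 30 * Real.log l) =
        2 * n * (1 / (2 * n * gsq μ R n (f κ (-(l : ℤ)))) -
          (CA X / 2 / 8 * l + CA X / 2 / 30 * Real.log l) / n) := by
      field_simp
    rw [e2, abs_mul, abs_of_pos (by positivity : (0 : ℝ) < 2 * n)]
    exact mul_le_mul_of_nonneg_left h8 (by positivity)
  · intro V hV
    obtain ⟨σV, b1, -, κV, hκV, b3⟩ := H2 V hV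
    obtain ⟨V4, W4', hV4, hW4', κV2, hκV2, T2⟩ := tl_act μ h hV
    have hsW : shift X W4' = δ := by rw [hδ]; exact hW4'.shift_eq hW4 h.mem
    have hUV : ∀ κ, 0 < κ → κ ≤ κ' → κ ≤ min κV κV2 →
        UVT μ R n (CA X) V (shift X V4) κ (f κ) (σ κ) (ψ κ) σV := by
      intro κ h1 h2 h3
      have hu := b3 κ h1 (h2.trans le1) (h3.trans (min_le_left _ _))
      refine ⟨hu.ex, fun β k hβ hβt hg => ?_⟩
      obtain ⟨-, c2, c3⟩ := hu.lim β k hβ hβt hg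
      refine ⟨?_, c2, c3⟩
      have h4 := T2 κ h1 (h3.trans (min_le_right _ _)) (β0 κ) β (k0 κ) k (hβ0 κ h1 h2) hβ
        (hβt0 κ h1 h2) hβt (hgl κ h1 h2) hg
      rw [hsW] at h4
      have h5 := (hψ κ h1 h2).sub h4
      simpa using h5
    refine ⟨V4, hV4, σV, b1, ?_, ?_⟩
    · exact theta_of μ h hV (fun β hβ => (b1 β hβ).1) (κ1 := min κ' (min κV κV2))
        (by positivity) (f := f) (σ := σ) (ψ := ψ)
        (fun κ h1 h2 => (H1 κ h1 ((h2.trans (min_le_left _ _)).trans le1)).2.1)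
        (fun κ h1 h2 => hUV κ h1 (h2.trans (min_le_left _ _)) (h2.trans (min_le_right _ _)))
    · by_cases hVw : V = wa R
      · subst hVw
        refine ⟨κ', hκ', fun _ => rfl, fun κ h1 h2 _ => ?_⟩
        have e1 : shift X V4 = δ := by rw [hδ]; exact hV4.shift_eq hW4 h.mem
        have e2 : ∀ β, 0 < β → σV β = σW β := fun β hβ =>
          ((b1 β hβ).2.2).unique μ (hW1 β hβ).2
        have hu := hUW κ h1 h2
        rw [e1]
        refine ⟨hu.ex, fun β k hβ hβt hg => ?_⟩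
        obtain ⟨c1, c2, c3⟩ := hu.lim β k hβ hβt hg
        refine ⟨c1, c2, c3.congr fun j => ?_⟩
        rw [e2 _ (hβ j)]
      · exact ⟨min κV κV2, lt_min hκV hκV2, fun h0 => absurd h0 hVw, hUV⟩
  · intro κ h1 h2 m hm
    have hc := (H1 κ h1 (h2.trans le1)).1
    have hT := (H1 κ h1 (h2.trans le1)).2.2.1
    have hκm : 0 < gsq μ R n (f κ (-(m : ℤ))) := gsq_pos μ h (hc.pd _).cont (hc.pos _)
    have hf := H4 κ h1 (h2.trans le1) m (hm.trans le1)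
    obtain ⟨κ'', hκ''⟩ : ∃ κ'', κ'' = gsq μ R n (f κ (-(m : ℤ))) := ⟨_, rfl⟩
    rw [← hκ''] at hf hm hκm ⊢
    refine ⟨hf, ?_, ?_⟩
    · have hu := (hUW κ h1 h2).lim (β0 κ) (k0 κ) (hβ0 κ h1 h2) (hβt0 κ h1 h2) (hgl κ h1 h2)
      have h5 : Tendsto (fun j => gsq μ R n ((mk μ)^[k0 κ j - m] (bw μ (wa R) (β0 κ j)))) atTop
          (𝓝 κ'') := by
        have h6 := hu.2.1 (-(m : ℤ))
        have e : ∀ j, ((k0 κ j : ℤ) + -(m : ℤ)).toNat = k0 κ j - m := fun j => by omega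
        simp only [e] at h6
        rw [hκ'']
        exact gsq_tendsto μ (R := R) hn (fun j => (Asm.iter_pd μ (hpdW _) _).cont) (hc.pd _).cont h6
      have h6 := ((hUW κ'' hκm hm).lim (β0 κ) (fun j => k0 κ j - m) (hβ0 κ h1 h2) (hβt0 κ h1 h2)
        h5).1
      have h7 := ((hW2 κ h1 (h2.trans le1)).lim (β0 κ) (k0 κ) (hβ0 κ h1 h2) (hβt0 κ h1 h2)
        (hgl κ h1 h2)).1
      have hkt : Tendsto (k0 κ) atTop atTop := k_atTop (by positivity) (hβt0 κ h1 h2) h7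
      have h8 := hu.1.sub_const (m : ℝ)
      refine tendsto_nhds_unique h6 (h8.congr' ?_)
      filter_upwards [hkt.eventually_ge_atTop m] with j hj
      unfold cnt
      rw [Nat.cast_sub hj]
      ring
    · have hT' := (H1 κ'' hκm (hm.trans le1)).2.2.1
      have h5 := hT'.iter μ m
      have h6 : (mk μ)^[m] (f κ'' 0) = f κ 0 := by
        rw [hf 0, hc.iter μ]
        congr 1
        ring
      rw [h6] at h5
      have h7 := h5.unique μ hT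
      rw [← h7]
      field_simp
  · intro κ κs h1 h2 hs hst
    refine ⟨fun l => H5 κ κs h1 (h2.trans le1) (fun i => ⟨(hs i).1, (hs i).2.trans le1⟩) hst l, ?_⟩
    have hj : ∀ i : ℕ, ∃ j : ℕ, (i : ℝ) ≤ β0 (κs i) j ∧
        |cnt (CA X) δ (β0 (κs i) j) (k0 (κs i) j) - ψ (κs i)| ≤ 1 / (i + 1) ∧
        |4 ^ k0 (κs i) j * σW (β0 (κs i) j) - σ (κs i)| ≤ 1 / (i + 1) := by
      intro i
      obtain ⟨a1, a2⟩ := hs i
      have hpos : (0 : ℝ) < 1 / (i + 1) := by positivity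
      have hu := (hUW _ a1 a2).lim (β0 (κs i)) (k0 (κs i)) (hβ0 _ a1 a2) (hβt0 _ a1 a2)
        (hgl _ a1 a2)
      have e1 := (hβt0 _ a1 a2).eventually_ge_atTop (i : ℝ)
      have e2 := hu.1.eventually (Metric.closedBall_mem_nhds _ hpos)
      have e3 := hu.2.2.eventually (Metric.closedBall_mem_nhds _ hpos)
      obtain ⟨j, b1, b2, b3⟩ := (e1.and (e2.and e3)).exists
      refine ⟨j, b1, ?_, ?_⟩
      · rw [← Real.dist_eq]; exact b2
      · rw [← Real.dist_eq]; exact b3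
    choose J hJ1 hJ2 hJ3 using hj
    have hto0 : Tendsto (fun i : ℕ => (1 : ℝ) / (i + 1)) atTop (𝓝 0) :=
      tendsto_one_div_add_atTop_nhds_zero_nat
    have hu := (hUW κ h1 h2).lim (fun i => β0 (κs i) (J i)) (fun i => k0 (κs i) (J i))
      (fun i => hβ0 _ (hs i).1 (hs i).2 _)
      (tendsto_atTop_mono hJ1 tendsto_natCast_atTop_atTop) (by
        refine hst.congr fun i => ?_
        rw [hg0 _ (hs i).1 (hs i).2])
    constructor
    · have h3 : Tendsto (fun i => cnt (CA X) δ (β0 (κs i) (J i)) (k0 (κs i) (J i)) - ψ (κs i))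
          atTop (𝓝 0) := squeeze_zero_norm (fun i => hJ2 i) hto0
      have h4 := hu.1.sub h3
      simpa using h4
    · have h3 : Tendsto (fun i => 4 ^ k0 (κs i) (J i) * σW (β0 (κs i) (J i)) - σ (κs i))
          atTop (𝓝 0) := squeeze_zero_norm (fun i => hJ3 i) hto0
      have h4 := hu.2.2.sub h3
      simpa using h4

end

end Pool.Agent.T2H04.HY
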