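import Mathlib
import Pool.Agent.T2H04.HY.RgMain2

/-!
# The continuum theories parametrised by the two loop time, first part
-/

open MeasureTheory Matrix Filter
open scoped Matrix.Norms.Frobenius Topology

namespace Pool.Agent.T2H04.HY

set_option linter.unusedSectionVars false

noncomputable section

variable {G : Type} [Group G] [TopologicalSpace G] [IsTopologicalGroup G] [CompactSpace G]
  [MeasurableSpace G] [BorelSpace G] (μ : Measure G) [μ.IsHaarMeasure] [IsProbabilityMeasure μ]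
  {N : ℕ} (R : URep G N)

/-- forward control of the running coupling of the action `V` -/
structure Fwd (n : ℕ) (ca δ : ℝ) (V : G → ℝ) (M B c' C' : ℝ) : Prop where
  M1 : 1 ≤ M
  B0 : 0 < B
  c0 : 0 < c'
  C0 : 0 < C'
  bd : ∀ (β : ℝ) (k : ℕ), B ≤ β → cnt ca δ β k ≤ -M →
    c' / (-cnt ca δ β k) ≤ gsq μ R n ((mk μ)^[k] (bw μ V β)) ∧
    gsq μ R n ((mk μ)^[k] (bw μ V β)) ≤ C' / (-cnt ca δ β k)

/-- the family of continuum theories of Wilson's action -/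
structure Fam (n : ℕ) (ca δ κ1 : ℝ) (f : ℝ → ℤ → G → ℝ) (σ ψ σW : ℝ → ℝ) : Prop where
  κpos : 0 < κ1
  capos : 0 < ca
  cont : ∀ κ, 0 < κ → κ ≤ κ1 → Cont μ R n ca κ (f κ)
  uv : ∀ κ, 0 < κ → κ ≤ κ1 → UVT μ R n ca (wa R) δ κ (f κ) (σ κ) (ψ κ) σW
  res : ∀ κ, 0 < κ → κ ≤ κ1 → ∀ m : ℕ, gsq μ R n (f κ (-(m : ℤ))) ≤ κ1 →
    (∀ l : ℤ, f (gsq μ R n (f κ (-(m : ℤ)))) l = f κ (l - m)) ∧
    ψ (gsq μ R n (f κ (-(m : ℤ)))) = ψ κ - m ∧
    σ (gsq μ R n (f κ (-(m : ℤ)))) = σ κ / 4 ^ m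
  lim : ∀ (κ : ℝ) (κs : ℕ → ℝ), 0 < κ → κ ≤ κ1 → (∀ i, 0 < κs i ∧ κs i ≤ κ1) →
    Tendsto κs atTop (𝓝 κ) →
      (∀ l : ℤ, TendstoUniformly (fun i => f (κs i) l) (f κ l) atTop) ∧
      Tendsto (fun i => ψ (κs i)) atTop (𝓝 (ψ κ)) ∧ Tendsto (fun i => σ (κs i)) atTop (𝓝 (σ κ))
  inj : ∀ κ κ' : ℝ, 0 < κ → κ ≤ κ1 → 0 < κ' → κ' ≤ κ1 → ψ κ = ψ κ' → κ = κ'

/-- the coupling as a function of the two loop time -/
structure Tim (f : ℝ → ℤ → G → ℝ) (σ ψ : ℝ → ℝ) (κ1 c' C' s0 : ℝ) (g : ℝ → ℝ) : Prop where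
  neg : s0 < 0
  mem : ∀ s ≤ s0, 0 < g s ∧ g s ≤ κ1
  psi : ∀ s ≤ s0, ψ (g s) = s
  back : ∀ s ≤ s0, ∀ d : ℕ, (∀ l : ℤ, f (g (s - d)) l = f (g s) (l - d)) ∧
    σ (g (s - d)) = σ (g s) / 4 ^ d
  lo : ∀ s ≤ s0, c' / (-s) ≤ g s
  hi : ∀ s ≤ s0, g s ≤ C' / (-s)

variable {R}

theorem cnt_sub (ca δ β : ℝ) {k d : ℕ} (h : d ≤ k) : cnt ca δ β (k - d) = cnt ca δ β k - d := by
  unfold cnt
  rw [Nat.cast_sub h]
  ring

/-- if the counter is bounded, the number of steps tends to infinity -/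
theorem k_inf {ca δ : ℝ} (hca : 0 < ca) {β : ℕ → ℝ} {k : ℕ → ℕ} (hβ : Tendsto β atTop atTop)
    {s : ℝ} (h : Tendsto (fun j => cnt ca δ (β j) (k j)) atTop (𝓝 s)) : Tendsto k atTop atTop := by
  have h1 : Tendsto (fun x : ℝ => 8 / ca * (x + δ) - 4 / 15 * Real.log x) atTop atTop := by
    have h2 : Tendsto (fun x : ℝ => 4 / 15 * (Real.log x / x)) atTop (𝓝 (4 / 15 * 0)) :=
      (Real.isLittleO_log_id_atTop.tendsto_div_nhds_zero).const_mul _
    rw [mul_zero] at h2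
    have h3 : Tendsto (fun x : ℝ => 8 / ca - 4 / 15 * (Real.log x / x)) atTop (𝓝 (8 / ca)) := by
      have := h2.const_sub (8 / ca)
      rwa [sub_zero] at this
    have h4 : Tendsto (fun x : ℝ => (8 / ca - 4 / 15 * (Real.log x / x)) * x) atTop atTop :=
      h3.pos_mul_atTop (by positivity) tendsto_id
    have h5 := tendsto_atTop_add_const_right _ (8 / ca * δ) h4
    refine h5.congr' ?_
    filter_upwards [eventually_gt_atTop 0] with x hx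
    field_simp
    ring
  have h2 := (h1.comp hβ)
  have h3 : Tendsto (fun j => (k j : ℝ)) atTop atTop := by
    have h4 := h.add_atTop h2
    refine h4.congr fun j => ?_
    simp only [Function.comp_apply]
    unfold cnt
    ring
  exact tendsto_natCast_atTop_iff.1 h3

/-- the bounds of the running coupling of the continuum theories -/
theorem bnd {n : ℕ} {X : Fin n → Matrix (Fin N) (Fin N) ℂ} (h : SG R n X)
    {δ κ σ ψ M B c' C' : ℝ} {f : ℤ → G → ℝ} {σW : ℝ → ℝ}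
    (hf : Cont μ R n (CA X) κ f) (hu : UVT μ R n (CA X) (wa R) δ κ f σ ψ σW)
    (hfw : Fwd μ R n (CA X) δ (wa R) M B c' C') {d : ℕ} (hd : ψ - d < -M) :
    c' / (d - ψ) ≤ gsq μ R n (f (-(d : ℤ))) ∧ gsq μ R n (f (-(d : ℤ))) ≤ C' / (d - ψ) := by
  have hn := h.npos
  have hca := h.ca_pos
  obtain ⟨β, k, hβ, hβt, hg⟩ := hu.ex
  have hgl : Tendsto (fun j => gsq μ R n ((mk μ)^[k j] (bw μ (wa R) (β j)))) atTop (𝓝 κ) := by
    simp only [hg]
    exact tendsto_const_nhds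
  obtain ⟨hc, hl, -⟩ := hu.lim β k hβ hβt hgl
  have hkt := k_inf hca hβt hc
  have h5 : Tendsto (fun j => gsq μ R n ((mk μ)^[k j - d] (bw μ (wa R) (β j)))) atTop
      (𝓝 (gsq μ R n (f (-(d : ℤ))))) := by
    have h6 := hl (-(d : ℤ))
    have e : ∀ j, ((k j : ℤ) + -(d : ℤ)).toNat = k j - d := fun j => by omega
    simp only [e] at h6
    exact gsq_tendsto μ (R := R) hn (fun j => (Asm.iter_pd μ (bw_pd μ (wa_cont R) _) _).cont)
      (hf.pd _).cont h6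
  have h7 : Tendsto (fun j => -cnt (CA X) δ (β j) (k j - d)) atTop (𝓝 (d - ψ)) := by
    have h8 := (hc.sub_const (d : ℝ)).neg
    rw [neg_sub] at h8
    refine h8.congr' ?_
    filter_upwards [hkt.eventually_ge_atTop d] with j hj
    rw [cnt_sub _ _ _ hj]
  have hM := hfw.M1
  have hpos : 0 < d - ψ := by linarith
  have hev : ∀ᶠ j in atTop, c' / (-cnt (CA X) δ (β j) (k j - d)) ≤
      gsq μ R n ((mk μ)^[k j - d] (bw μ (wa R) (β j))) ∧
      gsq μ R n ((mk μ)^[k j - d] (bw μ (wa R) (β j))) ≤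
        C' / (-cnt (CA X) δ (β j) (k j - d)) := by
    filter_upwards [hβt.eventually_ge_atTop B, h7.eventually (lt_mem_nhds (show M < d - ψ by
      linarith))] with j h8 h9
    exact hfw.bd _ _ h8 (by linarith)
  exact ⟨le_of_tendsto_of_tendsto (tendsto_const_nhds.div h7 hpos.ne') h5
    (hev.mono fun j hj => hj.1), le_of_tendsto_of_tendsto h5
    (tendsto_const_nhds.div h7 hpos.ne') (hev.mono fun j hj => hj.2)⟩

/-- **The two loop time is a coordinate of the family of the continuum theories.** -/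
theorem exists_tim {n : ℕ} {X : Fin n → Matrix (Fin N) (Fin N) ℂ} (h : SG R n X)
    {δ κ1 M B c' C' : ℝ} {f : ℝ → ℤ → G → ℝ} {σ ψ σW : ℝ → ℝ}
    (F : Fam μ R n (CA X) δ κ1 f σ ψ σW) (hfw : Fwd μ R n (CA X) δ (wa R) M B c' C') :
    ∃ (s0 : ℝ) (g : ℝ → ℝ), Tim f σ ψ κ1 c' C' s0 g := by
  have hM := hfw.M1
  have hC' := hfw.C0
  have hκ1 := F.κpos
  have hbnd := fun κ (h1 : 0 < κ) (h2 : κ ≤ κ1) d (h3 : ψ κ - (d : ℕ) < -M) =>
    bnd μ h (F.cont κ h1 h2) (F.uv κ h1 h2) hfw h3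
  have hcon : ContinuousOn ψ (Set.Ioc 0 κ1) := by
    intro κ hκ
    rw [ContinuousWithinAt, tendsto_iff_seq_tendsto]
    intro x hx
    rw [tendsto_nhdsWithin_iff] at hx
    obtain ⟨hx1, hx2⟩ := hx
    -- make all members belong to the interval
    obtain ⟨J, hJ⟩ := eventually_atTop.1 hx2
    have h1 := F.lim κ (fun i => x (i + J)) hκ.1 hκ.2 (fun i => hJ (i + J) (by omega))
      (hx1.comp (tendsto_add_atTop_nat J))
    exact (tendsto_add_atTop_iff_nat J).1 h1.2.1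
  obtain ⟨s0, hs0⟩ : ∃ s0, s0 = min (ψ κ1) (-(M + 1 + C' / κ1)) := ⟨_, rfl⟩
  have hs1 : s0 ≤ ψ κ1 := by rw [hs0]; exact min_le_left _ _
  have hs2 : s0 ≤ -(M + 1 + C' / κ1) := by rw [hs0]; exact min_le_right _ _
  have hCκ : 0 < C' / κ1 := by positivity
  have hle : ∀ s ≤ s0, C' / (-s) ≤ κ1 := by
    intro s hs
    have h1 : C' / κ1 ≤ -s := by linarith
    rw [div_le_iff₀ hκ1] at h1
    rw [div_le_iff₀ (by linarith)]
    linarith
  have hex : ∀ s ≤ s0, ∃ κ, κ ∈ Set.Ioc 0 κ1 ∧ ψ κ = s := by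
    intro s hs
    obtain ⟨d, hd⟩ := exists_nat_gt (ψ κ1 - s)
    have hd1 : ψ κ1 - d < s := by linarith
    have hd2 : ψ κ1 - (d : ℕ) ≤ s0 := by linarith
    obtain ⟨b1, b2⟩ := hbnd κ1 hκ1 le_rfl d (by linarith)
    have b3 := hle _ hd2
    rw [neg_sub] at b3
    have hκa : 0 < gsq μ R n (f κ1 (-(d : ℤ))) :=
      gsq_pos μ h ((F.cont κ1 hκ1 le_rfl).pd _).cont ((F.cont κ1 hκ1 le_rfl).pos _)
    obtain ⟨-, r2, -⟩ := F.res κ1 hκ1 le_rfl d (b2.trans b3)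
    have hpc : IsPreconnected (Set.Ioc (0 : ℝ) κ1) := isPreconnected_Ioc
    have := hpc.intermediate_value (a := gsq μ R n (f κ1 (-(d : ℤ)))) (b := κ1)
      ⟨hκa, b2.trans b3⟩ ⟨hκ1, le_rfl⟩ hcon
    have hmem : s ∈ Set.Icc (ψ (gsq μ R n (f κ1 (-(d : ℤ))))) (ψ κ1) :=
      ⟨by rw [r2]; exact hd1.le, hs.trans hs1⟩
    obtain ⟨κ, hκ, hκs⟩ := this hmem
    exact ⟨κ, hκ, hκs⟩
  choose! g hg1 hg2 using hex
  have hback : ∀ s ≤ s0, ∀ d : ℕ, gsq μ R n (f (g s) (-(d : ℤ))) = g (s - d) ∧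
      (∀ l : ℤ, f (g (s - d)) l = f (g s) (l - d)) ∧ σ (g (s - d)) = σ (g s) / 4 ^ d ∧
      c' / (d - s) ≤ gsq μ R n (f (g s) (-(d : ℤ))) ∧
      gsq μ R n (f (g s) (-(d : ℤ))) ≤ C' / (d - s) := by
    intro s hs d
    obtain ⟨g1, g1'⟩ := hg1 s hs
    have g2' := hg2 s hs
    have hd0 : (0 : ℝ) ≤ d := by positivity
    have hsd : s - d ≤ s0 := by linarith
    obtain ⟨b1, b2⟩ := hbnd (g s) g1 g1' d (by rw [g2']; linarith)
    rw [g2'] at b1 b2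
    have b3 := hle _ hsd
    rw [neg_sub] at b3
    have hκa : 0 < gsq μ R n (f (g s) (-(d : ℤ))) :=
      gsq_pos μ h ((F.cont _ g1 g1').pd _).cont ((F.cont _ g1 g1').pos _)
    obtain ⟨r1, r2, r3⟩ := F.res (g s) g1 g1' d (b2.trans b3)
    rw [g2', ← hg2 _ hsd] at r2
    have e := F.inj _ _ hκa (b2.trans b3) (hg1 _ hsd).1 (hg1 _ hsd).2 r2
    refine ⟨e, ?_, ?_, b1, b2⟩
    · rw [← e]; exact r1
    · rw [← e]; exact r3
  have hself : ∀ s ≤ s0, gsq μ R n (f (g s) (-((0 : ℕ) : ℤ))) = g s := by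
    intro s hs
    have := (hback s hs 0).1
    rw [this]
    congr 1
    push_cast
    ring
  refine ⟨s0, g, ⟨by linarith, fun s hs => hg1 s hs, hg2, fun s hs d =>
    ⟨(hback s hs d).2.1, (hback s hs d).2.2.1⟩, fun s hs => ?_, fun s hs => ?_⟩⟩
  · have h1 := (hback s hs 0).2.2.2.1
    rw [hself s hs] at h1
    simpa using h1
  · have h1 := (hback s hs 0).2.2.2.2
    rw [hself s hs] at h1
    simpa using h1

section fam

variable {f : ℝ → ℤ → G → ℝ} {σ ψ : ℝ → ℝ} {κ1 c' C' s0 : ℝ} {g : ℝ → ℝ}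

/-- the number of steps from the weak coupling region -/
def stn (s0 s : ℝ) : ℕ := ⌈s - s0⌉₊

theorem stn_le (s0 s : ℝ) : s - stn s0 s ≤ s0 := by
  have := Nat.le_ceil (s - s0)
  unfold stn
  linarith

/-- the plaquette density at the time `s` -/
def FF (f : ℝ → ℤ → G → ℝ) (g : ℝ → ℝ) (s0 s : ℝ) : G → ℝ := f (g (s - stn s0 s)) (stn s0 s)

/-- the string tension at the time `s` -/
def SS (σ : ℝ → ℝ) (g : ℝ → ℝ) (s0 s : ℝ) : ℝ := 4 ^ stn s0 s * σ (g (s - stn s0 s))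

theorem Tim.cons (T : Tim f σ ψ κ1 c' C' s0 g) {s : ℝ} {a b : ℕ} (ha : s - a ≤ s0) (hab : a ≤ b) :
    f (g (s - b)) b = f (g (s - a)) a ∧ 4 ^ b * σ (g (s - b)) = 4 ^ a * σ (g (s - a)) := by
  obtain ⟨d, rfl⟩ := Nat.exists_eq_add_of_le hab
  obtain ⟨h1, h2⟩ := T.back (s - a) ha d
  have e : s - ((a + d : ℕ) : ℝ) = s - a - d := by push_cast; ring
  rw [e, h1, h2]
  constructor
  · congr 1
    push_cast
    ring
  · rw [pow_add]
    field_simp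

theorem Tim.FF_eq (T : Tim f σ ψ κ1 c' C' s0 g) {s : ℝ} {m : ℕ} (hm : s - m ≤ s0) :
    FF f g s0 s = f (g (s - m)) m ∧ SS σ g s0 s = 4 ^ m * σ (g (s - m)) := by
  rcases le_total (stn s0 s) m with h | h
  · have := T.cons (stn_le s0 s) h
    exact ⟨this.1.symm, this.2.symm⟩
  · exact T.cons hm h

end fam

end

end Pool.Agent.T2H04.HY
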