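import Mathlib
import Pool.Agent.T2H04.HY.RgT1
import Pool.Agent.T2H04.HY.TlJ

/-!
# The continuum theories parametrised by the two loop time, second part
-/

open MeasureTheory Matrix Filter
open scoped Matrix.Norms.Frobenius Topology

namespace Pool.Agent.T2H04.HY

set_option linter.unusedSectionVars false

noncomputable section

variable {G : Type} [Group G] [TopologicalSpace G] [IsTopologicalGroup G] [CompactSpace G]
  [MeasurableSpace G] [BorelSpace G] (μ : Measure G) [μ.IsHaarMeasure] [IsProbabilityMeasure μ]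
  {N : ℕ} {R : URep G N} {n : ℕ} {X : Fin n → Matrix (Fin N) (Fin N) ℂ}
  {δ κ1 c' C' s0 : ℝ} {f : ℝ → ℤ → G → ℝ} {σ ψ σW : ℝ → ℝ} {g : ℝ → ℝ}

theorem Tim.cnt_of (h : SG R n X) (F : Fam μ R n (CA X) δ κ1 f σ ψ σW)
    (T : Tim f σ ψ κ1 c' C' s0 g) (s : ℝ) :
    Cont μ R n (CA X) (g (s - stn s0 s)) (f (g (s - stn s0 s))) :=
  F.cont _ (T.mem _ (stn_le s0 s)).1 (T.mem _ (stn_le s0 s)).2

theorem Tim.step (h : SG R n X) (F : Fam μ R n (CA X) δ κ1 f σ ψ σW)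
    (T : Tim f σ ψ κ1 c' C' s0 g) (s : ℝ) : HY.mk μ (FF f g s0 s) = FF f g s0 (s + 1) := by
  have h1 := (T.FF_eq (s := s + 1) (m := stn s0 s + 1) (by
    have := stn_le s0 s
    push_cast
    linarith)).1
  have e : s + 1 - ((stn s0 s + 1 : ℕ) : ℝ) = s - stn s0 s := by push_cast; ring
  rw [h1, e]
  show HY.mk μ (f (g (s - stn s0 s)) (stn s0 s)) = _
  rw [(T.cnt_of μ h F s).step]
  congr 1

theorem Tim.iter (h : SG R n X) (F : Fam μ R n (CA X) δ κ1 f σ ψ σW)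
    (T : Tim f σ ψ κ1 c' C' s0 g) (s : ℝ) (k : ℕ) :
    (HY.mk μ)^[k] (FF f g s0 s) = FF f g s0 (s + k) := by
  induction k with
  | zero => simp
  | succ k ih =>
    rw [Function.iterate_succ_apply', ih, T.step μ h F]
    congr 1
    push_cast
    ring

theorem Tim.FF_add (T : Tim f σ ψ κ1 c' C' s0 g) (s : ℝ) (k : ℕ) :
    FF f g s0 (s + k) = f (g (s - stn s0 s)) (stn s0 s + k : ℕ) ∧
      SS σ g s0 (s + k) = 4 ^ k * SS σ g s0 s := by
  have h1 := T.FF_eq (s := s + k) (m := stn s0 s + k) (by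
    have := stn_le s0 s
    push_cast
    linarith)
  have e : s + k - ((stn s0 s + k : ℕ) : ℝ) = s - stn s0 s := by push_cast; ring
  rw [e] at h1
  refine ⟨h1.1, h1.2.trans ?_⟩
  unfold SS
  rw [pow_add]
  ring

theorem Tim.up (h : SG R n X) (F : Fam μ R n (CA X) δ κ1 f σ ψ σW)
    (T : Tim f σ ψ κ1 c' C' s0 g) (s : ℝ) : ∃ C c : ℝ, 0 < C ∧ 0 < c ∧ ∀ (k : ℕ) (x : G),
      |FF f g s0 (s + k) x - 1| ≤ C * Real.exp (-(c * 4 ^ k)) := by
  obtain ⟨C, c, hC, hc, hup⟩ := (T.cnt_of μ h F s).up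
  refine ⟨C, c * 4 ^ stn s0 s, hC, by positivity, fun k x => ?_⟩
  rw [(T.FF_add s k).1]
  refine (hup (stn s0 s + k) x).trans (le_of_eq ?_)
  rw [pow_add]
  ring_nf

theorem Tim.ten (h : SG R n X) (F : Fam μ R n (CA X) δ κ1 f σ ψ σW)
    (T : Tim f σ ψ κ1 c' C' s0 g) (hσ : ∀ κ, 0 < κ → κ ≤ κ1 → 0 < σ κ ∧ Ten μ (f κ 0) (σ κ))
    (s : ℝ) : 0 < SS σ g s0 s ∧ Ten μ (FF f g s0 s) (SS σ g s0 s) := by
  obtain ⟨h1, h2⟩ := T.mem _ (stn_le s0 s)
  obtain ⟨h3, h4⟩ := hσ _ h1 h2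
  refine ⟨by unfold SS; positivity, ?_⟩
  have h5 := h4.iter μ (stn s0 s)
  rw [(T.cnt_of μ h F s).iter μ, zero_add] at h5
  exact h5

theorem Tim.wl (T : Tim f σ ψ κ1 c' C' s0 g)
    (hw : ∀ κ, 0 < κ → κ ≤ κ1 → ∃ t : ℝ, 0 < t ∧
      Tendsto (fun q : ℕ => -(Real.log (wlp μ R (f κ q))) / 4 ^ q) atTop (𝓝 t)) (s : ℝ) :
    ∃ t : ℝ, 0 < t ∧ Tendsto (fun q : ℕ => -(Real.log (wlp μ R (FF f g s0 (s + q)))) / 4 ^ q)
      atTop (𝓝 t) := by
  obtain ⟨h1, h2⟩ := T.mem _ (stn_le s0 s)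
  obtain ⟨t, ht, hl⟩ := hw _ h1 h2
  refine ⟨4 ^ stn s0 s * t, by positivity, ?_⟩
  have h3 := ((hl.comp (tendsto_add_atTop_nat (stn s0 s))).const_mul ((4 : ℝ) ^ stn s0 s))
  refine h3.congr fun q => ?_
  simp only [Function.comp_apply]
  rw [(T.FF_add s q).1, add_comm q, pow_add]
  field_simp

theorem Tim.FF_low (T : Tim f σ ψ κ1 c' C' s0 g) {s : ℝ} (hs : s ≤ s0) :
    FF f g s0 s = f (g s) 0 := by
  have := (T.FF_eq (s := s) (m := 0) (by push_cast; linarith)).1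
  rw [this]
  congr 1
  push_cast
  rw [sub_zero]

theorem Tim.gsq_low (h : SG R n X) (F : Fam μ R n (CA X) δ κ1 f σ ψ σW)
    (T : Tim f σ ψ κ1 c' C' s0 g) {s : ℝ} (hs : s ≤ s0) : gsq μ R n (FF f g s0 s) = g s := by
  rw [T.FF_low hs]
  exact (F.cont _ (T.mem s hs).1 (T.mem s hs).2).g

/-- asymptotic freedom at two loops -/
theorem Tim.run (h : SG R n X) (F : Fam μ R n (CA X) δ κ1 f σ ψ σW)
    (T : Tim f σ ψ κ1 c' C' s0 g) : ∃ K : ℝ, ∀ x : ℝ, K ≤ x →
      |1 / gsq μ R n (FF f g s0 (-x)) - (CA X / 8 * x + CA X / 30 * Real.log x)| ≤ K := by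
  obtain ⟨M, K, hM, H⟩ := run_W μ h δ
  refine ⟨max (max M K) (-s0), fun x hx => ?_⟩
  have hx1 : M ≤ x := ((le_max_left _ _).trans (le_max_left _ _)).trans hx
  have hx2 : -x ≤ s0 := by have := (le_max_right (max M K) (-s0)).trans hx; linarith
  obtain ⟨g1, g2⟩ := T.mem _ hx2
  have hu := F.uv _ g1 g2
  obtain ⟨β, k, hβ, hβt, hg⟩ := hu.ex
  obtain ⟨hc, -, -⟩ := hu.lim β k hβ hβt (by simp only [hg]; exact tendsto_const_nhds)
  rw [T.psi _ hx2] at hc
  obtain ⟨j, hj⟩ := (H β k x hx1 hβ hβt hc).exists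
  rw [hg] at hj
  rw [T.gsq_low μ h F hx2]
  exact hj.trans ((le_max_right _ _).trans (le_max_left _ _))

/-- the coupling is a continuous function of the time -/
theorem Tim.g_cont (F : Fam μ R n (CA X) δ κ1 f σ ψ σW) (hc' : 0 < c')
    (T : Tim f σ ψ κ1 c' C' s0 g) {s : ℝ} (hs : s ≤ s0) {ss : ℕ → ℝ} (hss : ∀ i, ss i ≤ s0)
    (hst : Tendsto ss atTop (𝓝 s)) : Tendsto (fun i => g (ss i)) atTop (𝓝 (g s)) := by
  refine tendsto_of_subseq_tendsto fun ns hns => ?_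
  have hst' : Tendsto (fun i => ss (ns i)) atTop (𝓝 s) := hst.comp hns
  -- a lower bound
  have hneg := T.neg
  obtain ⟨L, hL⟩ : ∃ L, L = -s + 1 := ⟨_, rfl⟩
  have hL0 : 0 < L := by rw [hL]; linarith
  have hev : ∀ᶠ i in atTop, g (ss (ns i)) ∈ Set.Icc (c' / L) κ1 := by
    filter_upwards [hst'.eventually (lt_mem_nhds (show s - 1 < s by linarith))] with i hi
    refine ⟨?_, (T.mem _ (hss _)).2⟩
    refine le_trans ?_ (T.lo _ (hss _))
    have h1 : 0 < -ss (ns i) := by have := hss (ns i); linarith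
    exact div_le_div_of_nonneg_left hc'.le h1 (by rw [hL]; linarith)
  obtain ⟨κ, hκ, φ, hφ, hlim⟩ := isCompact_Icc.tendsto_subseq' hev.frequently
  have hφt := hφ.tendsto_atTop
  have hκ0 : 0 < κ := lt_of_lt_of_le (by positivity) hκ.1
  refine ⟨φ, ?_⟩
  have h1 := (F.lim κ (fun i => g (ss (ns (φ i)))) hκ0 hκ.2 (fun i => T.mem _ (hss _)) hlim).2.1
  simp only [T.psi _ (hss _)] at h1
  have h2 := tendsto_nhds_unique h1 (hst'.comp hφt)
  have h3 : κ = g s := F.inj _ _ hκ0 hκ.2 (T.mem s hs).1 (T.mem s hs).2 (by rw [h2, T.psi s hs])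
  rw [← h3]
  exact hlim

/-- continuity of the family -/
theorem Tim.cont_FF (F : Fam μ R n (CA X) δ κ1 f σ ψ σW) (hc' : 0 < c')
    (T : Tim f σ ψ κ1 c' C' s0 g) {s : ℝ} {ss : ℕ → ℝ} (hst : Tendsto ss atTop (𝓝 s)) :
    TendstoUniformly (fun i => FF f g s0 (ss i)) (FF f g s0 s) atTop ∧
      Tendsto (fun i => SS σ g s0 (ss i)) atTop (𝓝 (SS σ g s0 s)) := by
  obtain ⟨m, hm⟩ := exists_nat_gt (s - s0)
  have hs : s - m ≤ s0 := by linarith
  have hev : ∀ᶠ i in atTop, ss i < s0 + m := hst.eventually (gt_mem_nhds (by linarith))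
  obtain ⟨J, hJ⟩ := eventually_atTop.1 hev
  have hss : ∀ i, ss (i + J) - m ≤ s0 := fun i => by
    have := hJ (i + J) (by omega)
    linarith
  have h1 : Tendsto (fun i => ss (i + J) - m) atTop (𝓝 (s - m)) :=
    (hst.comp (tendsto_add_atTop_nat J)).sub_const _
  have h2 := T.g_cont μ F hc' hs hss h1
  have h3 := F.lim _ _ (T.mem _ hs).1 (T.mem _ hs).2 (fun i => T.mem _ (hss i)) h2
  obtain ⟨e1, e2⟩ := T.FF_eq hs
  have e3 := fun i => T.FF_eq (hss i)
  constructor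
  · rw [e1]
    have h4 := h3.1 (m : ℤ)
    have h5 : (fun i => f (g (ss (i + J) - m)) (m : ℤ)) = fun i => FF f g s0 (ss (i + J)) :=
      funext fun i => (e3 i).1.symm
    rw [h5] at h4
    rw [Metric.tendstoUniformly_iff] at h4 ⊢
    intro ε hε
    obtain ⟨I, hI⟩ := eventually_atTop.1 (h4 ε hε)
    filter_upwards [eventually_ge_atTop (I + J)] with i hi x
    have := hI (i - J) (by omega) x
    rwa [show i - J + J = i by omega] at this
  · rw [e2]
    have h4 := h3.2.2.const_mul ((4 : ℝ) ^ m)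
    refine (tendsto_add_atTop_iff_nat J).1 (h4.congr fun i => ?_)
    exact (e3 i).2.symm

/-- **Universality.** -/
theorem Tim.univ (h : SG R n X) (F : Fam μ R n (CA X) δ κ1 f σ ψ σW)
    (T : Tim f σ ψ κ1 c' C' s0 g) {V : G → ℝ} (hV : PolAct R V) {δV κV MV BV cV CV : ℝ}
    (hκV : 0 < κV) {σV : ℝ → ℝ} (hfw : Fwd μ R n (CA X) δV V MV BV cV CV)
    (hU : ∀ κ, 0 < κ → κ ≤ κ1 → κ ≤ κV → UVT μ R n (CA X) V δV κ (f κ) (σ κ) (ψ κ) σV)
    {β : ℕ → ℝ} {k : ℕ → ℕ} {s : ℝ} (hβ : ∀ j, 0 < β j) (hβt : Tendsto β atTop atTop)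
    (hc : Tendsto (fun j => cnt (CA X) δV (β j) (k j)) atTop (𝓝 s)) :
    TendstoUniformly (fun j => (HY.mk μ)^[k j] (bw μ V (β j))) (FF f g s0 s) atTop ∧
      Tendsto (fun j => 4 ^ k j * σV (β j)) atTop (𝓝 (SS σ g s0 s)) := by
  have hca := h.ca_pos
  have hkt := k_inf hca hβt hc
  have hM1 := hfw.M1
  have hc0 := hfw.c0
  have hC0 := hfw.C0
  have hκ1 := F.κpos
  obtain ⟨κm, hκm⟩ : ∃ κm, κm = min κ1 κV := ⟨_, rfl⟩
  have hκm0 : 0 < κm := by rw [hκm]; exact lt_min hκ1 hκV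
  obtain ⟨m, hm⟩ := exists_nat_gt (s - min s0 (-(MV + CV / κm + 1)))
  have hm1 : s - m < min s0 (-(MV + CV / κm + 1)) := by linarith
  have hm2 : s - m < s0 := hm1.trans_le (min_le_left _ _)
  have hm3 : s - m < -(MV + CV / κm + 1) := hm1.trans_le (min_le_right _ _)
  have hCm : 0 < CV / κm := by positivity
  obtain ⟨x, hx⟩ : ∃ x, x = m - s := ⟨_, rfl⟩
  have hx0 : 0 < x := by rw [hx]; linarith
  have hcm : Tendsto (fun j => cnt (CA X) δV (β j) (k j - m)) atTop (𝓝 (s - m)) := by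
    refine (hc.sub_const (m : ℝ)).congr' ?_
    filter_upwards [hkt.eventually_ge_atTop m] with j hj
    rw [cnt_sub _ _ _ hj]
  -- the couplings belong to a compact set
  have hev : ∀ᶠ j in atTop, gsq μ R n ((HY.mk μ)^[k j - m] (bw μ V (β j))) ∈
      Set.Icc (cV / (x + 1)) κm := by
    filter_upwards [hβt.eventually_ge_atTop BV, hcm.eventually (gt_mem_nhds hm3),
      hcm.eventually (lt_mem_nhds (show s - m - 1 < s - m by linarith))] with j h1 h2 h3
    obtain ⟨h4, h5⟩ := hfw.bd _ _ h1 (by linarith : cnt (CA X) δV (β j) (k j - m) ≤ -MV)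
    have h6 : 0 < -cnt (CA X) δV (β j) (k j - m) := by linarith
    refine ⟨le_trans ?_ h4, h5.trans ?_⟩
    · exact div_le_div_of_nonneg_left hc0.le h6 (by rw [hx]; linarith)
    · rw [div_le_iff₀ h6]
      have h7 : CV / κm ≤ -cnt (CA X) δV (β j) (k j - m) := by linarith
      rw [div_le_iff₀ hκm0] at h7
      linarith
  have hgt : Tendsto (fun j => gsq μ R n ((HY.mk μ)^[k j - m] (bw μ V (β j)))) atTop
      (𝓝 (g (s - m))) := by
    refine tendsto_of_subseq_tendsto fun ns hns => ?_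
    have hev' : ∀ᶠ j in atTop, gsq μ R n ((HY.mk μ)^[k (ns j) - m] (bw μ V (β (ns j)))) ∈
      Set.Icc (cV / (x + 1)) κm := hns.eventually hev
    obtain ⟨κ, hκ, φ, hφ, hlim⟩ := isCompact_Icc.tendsto_subseq' hev'.frequently
    have hφt := hφ.tendsto_atTop
    have hκ0 : 0 < κ := lt_of_lt_of_le (by positivity) hκ.1
    have hκ1' : κ ≤ κ1 := hκ.2.trans (by rw [hκm]; exact min_le_left _ _)
    have hκV' : κ ≤ κV := hκ.2.trans (by rw [hκm]; exact min_le_right _ _)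
    refine ⟨φ, ?_⟩
    have h1 := ((hU κ hκ0 hκ1' hκV').lim (fun j => β (ns (φ j))) (fun j => k (ns (φ j)) - m)
      (fun j => hβ _) (hβt.comp (hns.comp hφt)) hlim).1
    have h2 := tendsto_nhds_unique h1 (hcm.comp (hns.comp hφt))
    have h3 : κ = g (s - m) := F.inj _ _ hκ0 hκ1' (T.mem _ hm2.le).1 (T.mem _ hm2.le).2
      (by rw [h2, T.psi _ hm2.le])
    rw [← h3]
    exact hlim
  have hgV : g (s - m) ≤ κV := by
    have h1 : g (s - m) ≤ κm := le_of_tendsto hgt (hev.mono fun j hj => hj.2)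
    exact h1.trans (by rw [hκm]; exact min_le_right _ _)
  obtain ⟨-, l2, l3⟩ := (hU _ (T.mem _ hm2.le).1 (T.mem _ hm2.le).2 hgV).lim β
    (fun j => k j - m) hβ hβt hgt
  obtain ⟨e1, e2⟩ := T.FF_eq hm2.le
  constructor
  · rw [e1]
    refine Asm.unif_congr (l2 (m : ℤ)) ?_
    filter_upwards [hkt.eventually_ge_atTop m] with j hj x
    have e : (((k j - m : ℕ) : ℤ) + (m : ℤ)).toNat = k j := by omega
    rw [e]
  · rw [e2]
    refine (l3.const_mul ((4 : ℝ) ^ m)).congr' ?_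
    filter_upwards [hkt.eventually_ge_atTop m] with j hj
    rw [← mul_assoc, ← pow_add, show m + (k j - m) = k j by omega]

/-- **Asymptotic scaling.** -/
theorem Tim.scaling (h : SG R n X) (F : Fam μ R n (CA X) δ κ1 f σ ψ σW) (hc' : 0 < c')
    (T : Tim f σ ψ κ1 c' C' s0 g) (hσ : ∀ κ, 0 < κ → κ ≤ κ1 → 0 < σ κ ∧ Ten μ (f κ 0) (σ κ))
    {V : G → ℝ} {δV : ℝ} {σV : ℝ → ℝ}
    (hU : ∀ (β : ℕ → ℝ) (k : ℕ → ℕ) (s : ℝ), (∀ j, 0 < β j) → Tendsto β atTop atTop →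
      Tendsto (fun j => cnt (CA X) δV (β j) (k j)) atTop (𝓝 s) →
      Tendsto (fun j => 4 ^ k j * σV (β j)) atTop (𝓝 (SS σ g s0 s))) :
    Tendsto (fun β => σV β / SS σ g s0 (cnt (CA X) δV β 0)) atTop (𝓝 1) := by
  have hca := h.ca_pos
  have hSp := fun s => (T.ten μ h F hσ s).1
  refine tendsto_of_seq_tendsto fun b hb => ?_
  refine tendsto_of_subseq_tendsto fun ns hns => ?_
  have hb' : Tendsto (fun j => b (ns j)) atTop atTop := hb.comp hns
  -- the two loop time tends to infinity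
  have ht : Tendsto (fun j => -cnt (CA X) δV (b (ns j)) 0) atTop atTop := by
    have h1 : Tendsto (fun x : ℝ => 8 / CA X * (x + δV) - 4 / 15 * Real.log x) atTop atTop := by
      have h2 : Tendsto (fun x : ℝ => 4 / 15 * (Real.log x / x)) atTop (𝓝 (4 / 15 * 0)) :=
        (Real.isLittleO_log_id_atTop.tendsto_div_nhds_zero).const_mul _
      rw [mul_zero] at h2
      have h3 : Tendsto (fun x : ℝ => 8 / CA X - 4 / 15 * (Real.log x / x)) atTop
          (𝓝 (8 / CA X)) := by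
        have := h2.const_sub (8 / CA X)
        rwa [sub_zero] at this
      have h4 : Tendsto (fun x : ℝ => (8 / CA X - 4 / 15 * (Real.log x / x)) * x) atTop atTop :=
        h3.pos_mul_atTop (by positivity) tendsto_id
      have h5 := tendsto_atTop_add_const_right _ (8 / CA X * δV) h4
      refine h5.congr' ?_
      filter_upwards [eventually_gt_atTop 0] with x hx
      field_simp
      ring
    refine (h1.comp hb').congr fun j => ?_
    simp only [Function.comp_apply]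
    unfold cnt
    push_cast
    ring
  obtain ⟨k, hk⟩ : ∃ k : ℕ → ℕ, k = fun j => ⌊-cnt (CA X) δV (b (ns j)) 0⌋₊ := ⟨_, rfl⟩
  have hcnt : ∀ j, cnt (CA X) δV (b (ns j)) (k j) = k j + cnt (CA X) δV (b (ns j)) 0 := by
    intro j
    unfold cnt
    push_cast
    ring
  have hev : ∀ᶠ j in atTop, cnt (CA X) δV (b (ns j)) (k j) ∈ Set.Icc (-1 : ℝ) 0 := by
    filter_upwards [ht.eventually_ge_atTop 0] with j hj
    have h1 := Nat.floor_le hj
    have h2 := Nat.lt_floor_add_one (-cnt (CA X) δV (b (ns j)) 0)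
    have h3 : (k j : ℝ) = (⌊-cnt (CA X) δV (b (ns j)) 0⌋₊ : ℝ) := by rw [hk]
    rw [hcnt, h3]
    constructor <;> linarith
  obtain ⟨s, hs, φ, hφ, hlim⟩ := isCompact_Icc.tendsto_subseq' hev.frequently
  have hφt := hφ.tendsto_atTop
  refine ⟨φ, ?_⟩
  -- make the couplings positive
  have hb1 : Tendsto (fun j => max (b (ns (φ j))) 1) atTop atTop :=
    tendsto_atTop_mono (fun j => le_max_left _ _) (hb'.comp hφt)
  have he : ∀ᶠ j in atTop, max (b (ns (φ j))) 1 = b (ns (φ j)) := by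
    filter_upwards [(hb'.comp hφt).eventually_ge_atTop 1] with j hj
    exact max_eq_left hj
  have h1 := hU (fun j => max (b (ns (φ j))) 1) (fun j => k (φ j)) s
    (fun j => lt_max_of_lt_right one_pos) hb1 (hlim.congr' (by
      filter_upwards [he] with j hj
      simp only [Function.comp_apply]
      rw [hj]))
  have h2 := (T.cont_FF μ F hc' hlim).2
  have h3 := h1.div h2 (hSp s).ne'
  rw [div_self (hSp s).ne'] at h3
  refine h3.congr' ?_
  filter_upwards [he] with j hj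
  simp only [Function.comp_apply, Pi.div_apply]
  rw [hj, hcnt, add_comm, (T.FF_add _ _).2]
  have h4 := (hSp (cnt (CA X) δV (b (ns (φ j))) 0)).ne'
  field_simp

end

end Pool.Agent.T2H04.HY
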