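import Mathlib
import Pool.Agent.T2H04.HY.RgT2

/-!
# The continuum theories parametrised by the two loop time, third part
-/

open MeasureTheory Matrix Filter
open scoped Matrix.Norms.Frobenius Topology

namespace Pool.Agent.T2H04.HY

set_option linter.unusedSectionVars false

noncomputable section

variable {G : Type} [Group G] [TopologicalSpace G] [IsTopologicalGroup G] [CompactSpace G]
  [MeasurableSpace G] [BorelSpace G] (μ : Measure G) [μ.IsHaarMeasure] [IsProbabilityMeasure μ]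
  {N : ℕ} {R : URep G N} {n : ℕ} {X : Fin n → Matrix (Fin N) (Fin N) ℂ}

/-! ### the basin of the strong coupling fixed point -/

section basin

open TenLim

theorem half_step {f : G → ℝ} (hf : PD μ f) (hs : ∀ x, f x⁻¹ = f x)
    (hm : M2 μ (dh f) ≤ 1 / 32) : M2 μ (dh (mk μ f)) ≤ 1 / 2 * M2 μ (dh f) := by
  rcases (M2_nonneg μ (dh f)).eq_or_lt with h0 | h0
  · -- the constant density
    have hone : f = fun _ => 1 := by
      have hc : Continuous fun x => dh f x ^ 2 := by
        have := hf.cont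
        unfold dh
        fun_prop
      have h1 : (fun x => dh f x ^ 2) = fun _ => 0 := by
        have h2 := (integral_eq_zero_iff_of_nonneg (μ := μ) (f := fun x => dh f x ^ 2)
          (fun _ => sq_nonneg _) (integrable_cont μ hc)).1 h0.symm
        exact (Continuous.ae_eq_iff_eq μ hc continuous_const).1 h2
      funext x
      have h2 := congrFun h1 x
      have h3 := pow_eq_zero_iff two_ne_zero |>.1 h2
      unfold dh at h3
      linarith
    have hfix : mk μ f = fun _ => 1 := by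
      rw [hone]
      funext x
      unfold mk cnv4 cnv
      simp
    rw [hfix, ← h0, mul_zero]
    unfold M2 dh
    simp
  · have h1 := (step_all hf hm hs h0).2.2.2.1
    refine h1.trans ?_
    have h2 : M2 μ (dh f) ^ 3 ≤ (1 / 32) ^ 3 := pow_le_pow_left₀ h0.le hm 3
    have e : 17 * M2 μ (dh f) ^ 4 = 17 * M2 μ (dh f) ^ 3 * M2 μ (dh f) := by ring
    rw [e]
    exact mul_le_mul_of_nonneg_right (by norm_num at h2 ⊢; linarith) h0.le

theorem half_iter {f : G → ℝ} (hf : PD μ f) (hs : ∀ x, f x⁻¹ = f x)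
    (hm : M2 μ (dh f) ≤ 1 / 32) (i : ℕ) :
    M2 μ (dh ((mk μ)^[i] f)) ≤ (1 / 2) ^ i * (1 / 32) := by
  have key : ∀ i, M2 μ (dh ((mk μ)^[i] f)) ≤ (1 / 2) ^ i * (1 / 32) ∧
      M2 μ (dh ((mk μ)^[i] f)) ≤ 1 / 32 := by
    intro i
    induction i with
    | zero => simpa using hm
    | succ i ih =>
      rw [Function.iterate_succ_apply']
      have h1 := half_step μ (Asm.iter_pd μ hf i) (iter_inv μ hs i) ih.2
      have h2 := M2_nonneg μ (dh ((mk μ)^[i] f))
      refine ⟨h1.trans ?_, by linarith [ih.2]⟩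
      rw [pow_succ]
      linarith [ih.1]
  exact (key i).1

theorem gsq_near {n : ℕ} {f : G → ℝ} (hf : PD μ f) :
    |gsq μ R n f - gsq μ R n (fun _ => 1)| ≤ 2 / n * nn μ (wa R) * nn μ (dh f) := by
  have hwc := wa_cont R
  have hc := hf.cont
  have hdc : Continuous (dh f) := by unfold dh; fun_prop
  have e : gsq μ R n f - gsq μ R n (fun _ => 1) = 2 / n * ∫ x, wa R x * dh f x ∂μ := by
    unfold gsq dh
    rw [← mul_sub, ← integral_sub (integrable_cont μ (by fun_prop))
      (integrable_cont μ (by fun_prop))]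
    congr 1
    refine integral_congr_ae (Eventually.of_forall fun x => ?_)
    simp only
    ring
  rw [e, abs_mul, abs_of_nonneg (by positivity : (0 : ℝ) ≤ 2 / n), mul_assoc]
  exact mul_le_mul_of_nonneg_left (cs' μ hwc hdc) (by positivity)

/-- **The basin of the strong coupling fixed point is open**, in a uniform sense. -/
theorem basin {n : ℕ} {f : ℕ → G → ℝ} {f0 : G → ℝ} (hf : ∀ j, PD μ (f j))
    (hs : ∀ j x, f j x⁻¹ = f j x) (hf0 : PD μ f0)
    (h1 : TendstoUniformly (fun k => (mk μ)^[k] f0) (fun _ => 1) atTop)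
    (h : TendstoUniformly f f0 atTop) {q : ℕ → ℕ} (hq : Tendsto q atTop atTop) :
    Tendsto (fun j => gsq μ R n ((mk μ)^[q j] (f j))) atTop (𝓝 (gsq μ R n fun _ => 1)) := by
  have hz : M2 μ (dh (fun _ : G => (1 : ℝ))) = 0 := by unfold M2 dh; simp
  obtain ⟨i0, hi0⟩ : ∃ i0, M2 μ (dh ((mk μ)^[i0] f0)) < 1 / 32 := by
    have h2 := (M2_tendsto (μ := μ) (fun k => (Asm.iter_pd μ hf0 k).cont) continuous_const h1).1
    rw [hz] at h2
    exact (h2.eventually (gt_mem_nhds (by norm_num))).exists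
  have h2 := (M2_tendsto (μ := μ) (fun j => (Asm.iter_pd μ (hf j) i0).cont)
    (Asm.iter_pd μ hf0 i0).cont (Asm.iter_tendsto μ hf hf0 h i0)).1
  have h3 : Tendsto (fun j => (1 / 2 : ℝ) ^ (q j - i0) * (1 / 32)) atTop (𝓝 0) := by
    have h4 : Tendsto (fun j => q j - i0) atTop atTop :=
      (tendsto_sub_atTop_nat i0).comp hq
    have h5 := ((tendsto_pow_atTop_nhds_zero_of_lt_one (r := (1 / 2 : ℝ)) (by norm_num)
      (by norm_num)).comp h4).mul_const (1 / 32)
    rwa [zero_mul] at h5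
  have h4 : Tendsto (fun j => 2 / (n : ℝ) * nn μ (wa R) *
      Real.sqrt ((1 / 2 : ℝ) ^ (q j - i0) * (1 / 32))) atTop (𝓝 0) := by
    have h5 := ((Real.continuous_sqrt.tendsto 0).comp h3).const_mul (2 / (n : ℝ) * nn μ (wa R))
    rw [Real.sqrt_zero, mul_zero] at h5
    exact h5
  rw [tendsto_iff_norm_sub_tendsto_zero]
  refine squeeze_zero' (Eventually.of_forall fun j => norm_nonneg _) ?_ h4
  filter_upwards [h2.eventually (gt_mem_nhds hi0), hq.eventually_ge_atTop i0] with j a1 a2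
  rw [Real.norm_eq_abs]
  refine (gsq_near μ (Asm.iter_pd μ (hf j) _)).trans ?_
  have hnn := nn_nonneg μ (wa R)
  refine mul_le_mul_of_nonneg_left ?_ (by positivity)
  refine Real.sqrt_le_sqrt ?_
  have h5 := half_iter μ (Asm.iter_pd μ (hf j) i0) (iter_inv μ (hs j) i0) a1.le (q j - i0)
  rwa [← Function.iterate_add_apply, Nat.sub_add_cancel a2] at h5

end basin

variable {δ κ1 c' C' s0 : ℝ} {f : ℝ → ℤ → G → ℝ} {σ ψ σW : ℝ → ℝ} {g : ℝ → ℝ}

theorem Tim.pd (h : SG R n X) (F : Fam μ R n (CA X) δ κ1 f σ ψ σW)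
    (T : Tim f σ ψ κ1 c' C' s0 g) (s : ℝ) : PD μ (FF f g s0 s) := (T.cnt_of μ h F s).pd _

theorem Tim.pos (h : SG R n X) (F : Fam μ R n (CA X) δ κ1 f σ ψ σW)
    (T : Tim f σ ψ κ1 c' C' s0 g) (s : ℝ) (x : G) : 0 < FF f g s0 s x :=
  (T.cnt_of μ h F s).pos _ x

theorem Tim.inv (h : SG R n X) (F : Fam μ R n (CA X) δ κ1 f σ ψ σW)
    (T : Tim f σ ψ κ1 c' C' s0 g) (s : ℝ) (x : G) : FF f g s0 s x⁻¹ = FF f g s0 s x :=
  (T.cnt_of μ h F s).inv _ x

theorem Tim.cls (h : SG R n X) (F : Fam μ R n (CA X) δ κ1 f σ ψ σW)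
    (T : Tim f σ ψ κ1 c' C' s0 g) (s : ℝ) (x y : G) :
    FF f g s0 s (y * x * y⁻¹) = FF f g s0 s x := (T.cnt_of μ h F s).cls _ x y

theorem Tim.one (h : SG R n X) (F : Fam μ R n (CA X) δ κ1 f σ ψ σW)
    (T : Tim f σ ψ κ1 c' C' s0 g) (s : ℝ) :
    TendstoUniformly (fun k => (HY.mk μ)^[k] (FF f g s0 s)) (fun _ => 1) atTop := by
  obtain ⟨C, c, hC, hc, hup⟩ := T.up μ h F s
  refine to_one_of (C := C) hc fun k x => ?_
  rw [T.iter μ h F]
  exact hup k x

theorem Tim.h_cont (h : SG R n X) (F : Fam μ R n (CA X) δ κ1 f σ ψ σW) (hc' : 0 < c')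
    (T : Tim f σ ψ κ1 c' C' s0 g) : Continuous fun s => gsq μ R n (FF f g s0 s) := by
  rw [continuous_iff_continuousAt]
  intro s
  rw [ContinuousAt, tendsto_iff_seq_tendsto]
  intro ss hss
  exact gsq_tendsto μ (R := R) h.npos (fun j => (T.pd μ h F _).cont) (T.pd μ h F _).cont
    (T.cont_FF μ F hc' hss).1

/-- every value of the coupling is taken -/
theorem Tim.onto (h : SG R n X) (F : Fam μ R n (CA X) δ κ1 f σ ψ σW) (hc' : 0 < c')
    (hC' : 0 < C') (T : Tim f σ ψ κ1 c' C' s0 g) {κ : ℝ} (hκ : 0 < κ)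
    (hκ1 : κ < gsq μ R n fun _ => 1) : ∃ s, gsq μ R n (FF f g s0 s) = κ := by
  have hcon := T.h_cont μ h F hc'
  refine mem_range_of_exists_le_of_exists_ge hcon ?_ ?_
  · refine ⟨min s0 (-(C' / κ)), ?_⟩
    have h1 : min s0 (-(C' / κ)) ≤ s0 := min_le_left _ _
    have h2 : min s0 (-(C' / κ)) ≤ -(C' / κ) := min_le_right _ _
    have hCκ : 0 < C' / κ := by positivity
    rw [T.gsq_low μ h F h1]
    refine (T.hi _ h1).trans ?_
    have h3 : C' / κ ≤ -min s0 (-(C' / κ)) := by linarith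
    rw [div_le_iff₀ hκ] at h3
    rw [div_le_iff₀ (by linarith)]
    linarith
  · have h1 := gsq_tendsto μ (R := R) h.npos (fun k => (Asm.iter_pd μ (T.pd μ h F 0) k).cont)
      continuous_const (T.one μ h F 0)
    obtain ⟨k, hk⟩ := (h1.eventually (lt_mem_nhds hκ1)).exists
    rw [T.iter μ h F] at hk
    exact ⟨_, hk.le⟩

/-- the coupling is bounded below at strong coupling -/
theorem Tim.strong (h : SG R n X) (F : Fam μ R n (CA X) δ κ1 f σ ψ σW) (hc' : 0 < c')
    (T : Tim f σ ψ κ1 c' C' s0 g) : ∃ κ : ℝ, 0 < κ ∧ κ < gsq μ R n (fun _ => 1) ∧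
      ∀ s, s0 ≤ s → κ < gsq μ R n (FF f g s0 s) := by
  have hn := h.npos
  have hcon := T.h_cont μ h F hc'
  have hg1 : 0 < gsq μ R n (fun _ : G => 1) :=
    gsq_pos μ h continuous_const fun _ => one_pos
  have hpos : ∀ s, 0 < gsq μ R n (FF f g s0 s) := fun s =>
    gsq_pos μ h (T.pd μ h F s).cont (T.pos μ h F s)
  obtain ⟨Q, hQ⟩ : ∃ Q : ℕ, ∀ x ∈ Set.Icc s0 (s0 + 1), ∀ q : ℕ, Q ≤ q →
      gsq μ R n (fun _ => 1) / 2 ≤ gsq μ R n (FF f g s0 (x + q)) := by
    by_contra hcon'
    push Not at hcon'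
    choose x hx q hq hlt using hcon'
    obtain ⟨x0, -, φ, hφ, hlim⟩ := isCompact_Icc.tendsto_subseq hx
    have hφt := hφ.tendsto_atTop
    have h1 := basin μ (R := R) (n := n) (f := fun i => FF f g s0 (x (φ i)))
      (f0 := FF f g s0 x0) (fun i => T.pd μ h F _) (fun i => T.inv μ h F _) (T.pd μ h F _)
      (T.one μ h F x0) (T.cont_FF μ F hc' hlim).1 (q := fun i => q (φ i))
      ((tendsto_atTop_mono hq tendsto_id).comp hφt)
    obtain ⟨i, hi⟩ := (h1.eventually (lt_mem_nhds (show gsq μ R n (fun _ => 1) / 2 <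
      gsq μ R n (fun _ => 1) by linarith))).exists
    rw [T.iter μ h F] at hi
    exact absurd (hlt (φ i)) (not_lt.2 hi.le)
  obtain ⟨x1, -, hx1⟩ := (isCompact_Icc (a := s0) (b := s0 + Q + 1)).exists_isMinOn
    ⟨s0, by constructor <;> linarith [(Nat.cast_nonneg Q : (0 : ℝ) ≤ Q)]⟩ hcon.continuousOn
  refine ⟨min (gsq μ R n (FF f g s0 x1)) (gsq μ R n (fun _ => 1)) / 4, by
    have := hpos x1
    positivity, ?_, fun s hs => ?_⟩
  · have h2 := min_le_right (gsq μ R n (FF f g s0 x1)) (gsq μ R n (fun _ => 1))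
    linarith
  · have h2 := min_le_right (gsq μ R n (FF f g s0 x1)) (gsq μ R n (fun _ => 1))
    have h3 := min_le_left (gsq μ R n (FF f g s0 x1)) (gsq μ R n (fun _ => 1))
    rcases le_total s (s0 + Q + 1) with h4 | h4
    · have h5 := hx1 ⟨hs, h4⟩
      have h6 : gsq μ R n (FF f g s0 x1) ≤ gsq μ R n (FF f g s0 s) := h5
      have := hpos x1
      linarith
    · have h5 : 0 ≤ s - s0 := by linarith
      have h6 := Nat.floor_le h5
      have h7 := Nat.lt_floor_add_one (s - s0)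
      have h8 : Q ≤ ⌊s - s0⌋₊ := Nat.le_floor (by linarith)
      have h9 := hQ (s - ⌊s - s0⌋₊) ⟨by linarith, by linarith⟩ ⌊s - s0⌋₊ h8
      rw [sub_add_cancel] at h9
      linarith

/-- **The renormalised coupling determines the theory**, for every action. -/
theorem Tim.tune (h : SG R n X) (F : Fam μ R n (CA X) δ κ1 f σ ψ σW) (hc' : 0 < c')
    (T : Tim f σ ψ κ1 c' C' s0 g) {κ₁ : ℝ} (hκ₁ : κ₁ < gsq μ R n (fun _ => 1))
    (hstr : ∀ s, s0 ≤ s → κ₁ < gsq μ R n (FF f g s0 s)) {V : G → ℝ} (hV : PolAct R V)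
    {δV MV BV cV CV : ℝ} (hfw : Fwd μ R n (CA X) δV V MV BV cV CV)
    (hU : ∀ (β : ℕ → ℝ) (k : ℕ → ℕ) (s : ℝ), (∀ j, 0 < β j) → Tendsto β atTop atTop →
      Tendsto (fun j => cnt (CA X) δV (β j) (k j)) atTop (𝓝 s) →
      TendstoUniformly (fun j => (HY.mk μ)^[k j] (bw μ V (β j))) (FF f g s0 s) atTop)
    {κ s : ℝ} (hκ : 0 < κ) (hκle : κ ≤ κ₁) (hs : gsq μ R n (FF f g s0 s) = κ)
    {β : ℕ → ℝ} {k : ℕ → ℕ} (hβ : ∀ j, 0 < β j) (hβt : Tendsto β atTop atTop)
    (hg : Tendsto (fun j => gsq μ R n ((HY.mk μ)^[k j] (bw μ V (β j)))) atTop (𝓝 κ)) :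
    Tendsto (fun j => cnt (CA X) δV (β j) (k j)) atTop (𝓝 s) := by
  have hn := h.npos
  have hca := h.ca_pos
  have hC0 := hfw.C0
  have hVc := hV.cont'
  have hpdV : ∀ b, PD μ (bw μ V b) := bw_pd μ hVc
  -- uniqueness of the time
  have huniq : ∀ s, gsq μ R n (FF f g s0 s) = κ → s = ψ κ := by
    intro s h1
    have h2 : s ≤ s0 := by
      by_contra h3
      have := hstr s (not_le.1 h3).le
      linarith
    rw [T.gsq_low μ h F h2] at h1
    rw [← h1, T.psi s h2]
  -- a lower bound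
  obtain ⟨L, hL⟩ : ∃ L, L = max MV (2 * CV / κ) := ⟨_, rfl⟩
  have hL0 : 0 < L := by rw [hL]; exact lt_max_of_lt_right (by positivity)
  have hlow : ∀ᶠ j in atTop, -L ≤ cnt (CA X) δV (β j) (k j) := by
    filter_upwards [hβt.eventually_ge_atTop BV, hg.eventually (lt_mem_nhds
      (show κ / 2 < κ by linarith))] with j h1 h2
    by_contra h3
    rw [not_le] at h3
    have h4 : MV ≤ L := by rw [hL]; exact le_max_left _ _
    have h5 : 2 * CV / κ ≤ L := by rw [hL]; exact le_max_right _ _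
    have h6 := (hfw.bd _ _ h1 (by linarith : cnt (CA X) δV (β j) (k j) ≤ -MV)).2
    have h7 : 0 < -cnt (CA X) δV (β j) (k j) := by linarith
    have h8 : CV / (-cnt (CA X) δV (β j) (k j)) ≤ κ / 2 := by
      rw [div_le_iff₀ hκ] at h5
      rw [div_le_iff₀ h7]
      nlinarith
    linarith
  -- an upper bound
  have hup : ∃ L' : ℝ, ∀ᶠ j in atTop, cnt (CA X) δV (β j) (k j) ≤ L' := by
    by_contra hcon
    push Not at hcon
    have hneg := T.neg
    have hex : ∀ i : ℕ, ∃ j, i ≤ j ∧ (i : ℝ) ≤ cnt (CA X) δV (β j) (k j) := by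
      intro i
      obtain ⟨j, h1, h2⟩ := ((hcon i).and_eventually (eventually_ge_atTop i)).exists
      exact ⟨j, h2, h1.le⟩
    choose φ hφ hφ2 using hex
    have hφt : Tendsto φ atTop atTop := tendsto_atTop_mono hφ tendsto_id
    obtain ⟨q, hq⟩ : ∃ q : ℕ → ℕ, q = fun i => ⌊cnt (CA X) δV (β (φ i)) (k (φ i)) - s0⌋₊ :=
      ⟨_, rfl⟩
    have hq1 : ∀ i, i ≤ q i := fun i => by
      rw [hq]
      exact Nat.le_floor (by have := hφ2 i; linarith)
    have hqt : Tendsto q atTop atTop := tendsto_atTop_mono hq1 tendsto_id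
    have hqb : ∀ i, cnt (CA X) δV (β (φ i)) (k (φ i)) - q i ∈ Set.Icc s0 (s0 + 1) := by
      intro i
      have h1 : 0 ≤ cnt (CA X) δV (β (φ i)) (k (φ i)) - s0 := by
        have := hφ2 i
        have h2 : (0 : ℝ) ≤ i := by positivity
        linarith
      have h2 := Nat.floor_le h1
      have h3 := Nat.lt_floor_add_one (cnt (CA X) δV (β (φ i)) (k (φ i)) - s0)
      have h4 : (q i : ℝ) = (⌊cnt (CA X) δV (β (φ i)) (k (φ i)) - s0⌋₊ : ℝ) := by rw [hq]
      rw [h4]
      constructor <;> linarith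
    obtain ⟨x0, -, χ, hχ, hlim⟩ := isCompact_Icc.tendsto_subseq hqb
    have hχt := hχ.tendsto_atTop
    have hβχ : Tendsto (fun i => β (φ (χ i))) atTop atTop := hβt.comp (hφt.comp hχt)
    -- the number of steps
    have hle : ∀ᶠ i in atTop, q (χ i) ≤ k (φ (χ i)) := by
      have h1 : Tendsto (fun i => cnt (CA X) δV (β (φ (χ i))) (q (χ i)) - (q (χ i) : ℝ))
          atTop atBot := by
        have h2 : Tendsto (fun x : ℝ => -cnt (CA X) δV x 0) atTop atTop := by
          have h3 : Tendsto (fun x : ℝ => 8 / CA X * (x + δV) - 4 / 15 * Real.log x) atTop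
              atTop := by
            have h2 : Tendsto (fun x : ℝ => 4 / 15 * (Real.log x / x)) atTop
                (𝓝 (4 / 15 * 0)) :=
              (Real.isLittleO_log_id_atTop.tendsto_div_nhds_zero).const_mul _
            rw [mul_zero] at h2
            have h3 : Tendsto (fun x : ℝ => 8 / CA X - 4 / 15 * (Real.log x / x)) atTop
                (𝓝 (8 / CA X)) := by
              have := h2.const_sub (8 / CA X)
              rwa [sub_zero] at this
            have h4 : Tendsto (fun x : ℝ => (8 / CA X - 4 / 15 * (Real.log x / x)) * x) atTop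
                atTop := h3.pos_mul_atTop (by positivity) tendsto_id
            have h5 := tendsto_atTop_add_const_right _ (8 / CA X * δV) h4
            refine h5.congr' ?_
            filter_upwards [eventually_gt_atTop 0] with x hx
            field_simp
            ring
          refine h3.congr fun x => ?_
          unfold cnt
          push_cast
          ring
        have h4 := tendsto_neg_atTop_atBot.comp (h2.comp hβχ)
        refine h4.congr fun i => ?_
        simp only [Function.comp_apply]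
        unfold cnt
        push_cast
        ring
      filter_upwards [h1.eventually_le_atBot s0] with i hi
      have h2 := (hqb (χ i)).1
      have h3 : (q (χ i) : ℝ) ≤ k (φ (χ i)) := by
        unfold cnt at hi h2
        linarith
      exact_mod_cast h3
    have hcm : Tendsto (fun i => cnt (CA X) δV (β (φ (χ i))) (k (φ (χ i)) - q (χ i))) atTop
        (𝓝 x0) := by
      refine hlim.congr' ?_
      filter_upwards [hle] with i hi
      simp only [Function.comp_apply]
      rw [cnt_sub _ _ _ hi]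
    have h1 := hU (fun i => β (φ (χ i))) (fun i => k (φ (χ i)) - q (χ i)) x0 (fun i => hβ _)
      hβχ hcm
    have h2 := basin μ (R := R) (n := n) (fun i => Asm.iter_pd μ (hpdV _) _)
      (fun i => iter_inv μ (bw_inv μ hV.inv _) _) (T.pd μ h F x0) (T.one μ h F x0) h1
      (hqt.comp hχt)
    have h3 : Tendsto (fun i => gsq μ R n ((HY.mk μ)^[k (φ (χ i))] (bw μ V (β (φ (χ i))))))
        atTop (𝓝 (gsq μ R n fun _ => 1)) := by
      refine h2.congr' ?_
      filter_upwards [hle] with i hi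
      simp only [Function.comp_apply]
      rw [← Function.iterate_add_apply, show q (χ i) + (k (φ (χ i)) - q (χ i)) = k (φ (χ i)) by
        omega]
    have h4 := tendsto_nhds_unique h3 (hg.comp (hφt.comp hχt))
    linarith
  obtain ⟨L', hL'⟩ := hup
  refine tendsto_of_subseq_tendsto fun ns hns => ?_
  have hev : ∀ᶠ j in atTop, cnt (CA X) δV (β (ns j)) (k (ns j)) ∈ Set.Icc (-L) L' := by
    filter_upwards [hns.eventually hlow, hns.eventually hL'] with j h1 h2
    exact ⟨h1, h2⟩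
  obtain ⟨s', -, φ, hφ, hlim⟩ := isCompact_Icc.tendsto_subseq' hev.frequently
  have hφt := hφ.tendsto_atTop
  refine ⟨φ, ?_⟩
  have h1 := hU (fun i => β (ns (φ i))) (fun i => k (ns (φ i))) s' (fun i => hβ _)
    (hβt.comp (hns.comp hφt)) hlim
  have h2 := gsq_tendsto μ (R := R) hn (fun i => (Asm.iter_pd μ (hpdV _) _).cont)
    (T.pd μ h F s').cont h1
  have h3 := tendsto_nhds_unique h2 (hg.comp (hns.comp hφt))
  have h4 : s' = s := by rw [huniq s' h3, huniq s hs]
  rw [← h4]
  exact hlim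

end

end Pool.Agent.T2H04.HY
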