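import Mathlib
import Pool.Agent.T2H04.HY.RgT3

/-!
# The main theorem on the level of the renormalisation group, in the parametrisation by the time
-/

open MeasureTheory Matrix Filter
open scoped Matrix.Norms.Frobenius Topology

namespace Pool.Agent.T2H04.HY

set_option linter.unusedSectionVars false

noncomputable section

variable {G : Type} [Group G] [TopologicalSpace G] [IsTopologicalGroup G] [CompactSpace G]
  [MeasurableSpace G] [BorelSpace G] (μ : Measure G) [μ.IsHaarMeasure] [IsProbabilityMeasure μ]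
  {N : ℕ} (R : URep G N)

theorem cnt_tau (ca δ β : ℝ) (k : ℕ) : cnt ca δ β k = k - tau ca δ β := by
  unfold cnt tau
  ring

/-- the family of the continuum theories -/
structure CT (n : ℕ) (ca : ℝ) (F : ℝ → G → ℝ) (σ : ℝ → ℝ) : Prop where
  pd : ∀ s, PD μ (F s)
  pos : ∀ s x, 0 < F s x
  cls : ∀ s x y, F s (y * x * y⁻¹) = F s x
  inv : ∀ s x, F s x⁻¹ = F s x
  step : ∀ s, mk μ (F s) = F (s + 1)
  up : ∀ s, ∃ C c : ℝ, 0 < C ∧ 0 < c ∧ ∀ (k : ℕ) (x : G),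
    |F (s + k) x - 1| ≤ C * Real.exp (-(c * 4 ^ k))
  lim : ∀ (s : ℝ) (ss : ℕ → ℝ), Tendsto ss atTop (𝓝 s) →
    TendstoUniformly (fun i => F (ss i)) (F s) atTop
  run : ∃ K : ℝ, ∀ x : ℝ, K ≤ x →
    |1 / gsq μ R n (F (-x)) - (ca / 8 * x + ca / 30 * Real.log x)| ≤ K
  spos : ∀ s, 0 < σ s
  ten : ∀ s, Ten μ (F s) (σ s)
  scont : Continuous σ
  sstep : ∀ s, σ (s + 1) = 4 * σ s
  wl : ∀ s, ∃ t : ℝ, 0 < t ∧
    Tendsto (fun q : ℕ => -(Real.log (wlp μ R (F (s + q)))) / 4 ^ q) atTop (𝓝 t)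
  onto : ∀ κ, 0 < κ → κ < gsq μ R n (fun _ => 1) → ∃ s, gsq μ R n (F s) = κ

/-- the family is the ultraviolet limit of the lattice theories with the action `V` -/
structure UVS (n : ℕ) (ca κ₁ : ℝ) (F : ℝ → G → ℝ) (σ : ℝ → ℝ) (V : G → ℝ) (δ : ℝ)
    (σV : ℝ → ℝ) : Prop where
  lim : ∀ (β : ℕ → ℝ) (k : ℕ → ℕ) (s : ℝ), (∀ j, 0 < β j) → Tendsto β atTop atTop →
    Tendsto (fun j => (k j : ℝ) - tau ca δ (β j)) atTop (𝓝 s) →
    TendstoUniformly (fun j => (mk μ)^[k j] (bw μ V (β j))) (F s) atTop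
  sc : Tendsto (fun β => σV β / σ (-tau ca δ β)) atTop (𝓝 1)
  tune : ∀ (κ s : ℝ), 0 < κ → κ ≤ κ₁ → gsq μ R n (F s) = κ → ∀ (β : ℕ → ℝ) (k : ℕ → ℕ),
    (∀ j, 0 < β j) → Tendsto β atTop atTop →
    Tendsto (fun j => gsq μ R n ((mk μ)^[k j] (bw μ V (β j)))) atTop (𝓝 κ) →
    Tendsto (fun j => (k j : ℝ) - tau ca δ (β j)) atTop (𝓝 s)

variable {R}

/-- **The main theorem on the level of the renormalisation group.** -/
theorem rg_main3 {n : ℕ} {X : Fin n → Matrix (Fin N) (Fin N) ℂ} (h : SG R n X) :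
    ∃ (F : ℝ → G → ℝ) (σ : ℝ → ℝ) (κ₁ : ℝ), 0 < κ₁ ∧ κ₁ < gsq μ R n (fun _ => 1) ∧
      CT μ R n (CA X) F σ ∧
      ∀ V : G → ℝ, PolAct R V → ∃ V4, Quartic R V V4 ∧ ∃ σV : ℝ → ℝ, (∀ β, 0 < β → 0 < σV β ∧
        (∀ q, 0 < e2 μ ((mk μ)^[q] (bw μ V β))) ∧ Ten μ (bw μ V β) (σV β)) ∧
        UVS μ R n (CA X) κ₁ F σ V (shift X V4) σV := by
  have hn := h.npos
  have hca := h.ca_pos
  obtain ⟨κa, hκa, f, σ, ψ, H1, H2, H3, H4⟩ := rg_main2 μ h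
  -- Wilson's action
  obtain ⟨W4, hW4, σW, hσW, -, κW, -, hκW, hUW⟩ := H2 (wa R) (wilson_polAct R)
  rw [hκW rfl] at hUW
  obtain ⟨δ, hδ⟩ : ∃ δ, δ = shift X W4 := ⟨_, rfl⟩
  rw [← hδ] at hUW
  obtain ⟨κb, hκb, hinj⟩ := inj_W μ h δ
  obtain ⟨M, B, c', C', hM, hB, hc', hC', hfw⟩ := fwd_V μ h (wilson_polAct R) δ
  obtain ⟨κ1, hκ1d⟩ : ∃ κ1, κ1 = min κa κb := ⟨_, rfl⟩
  have hκ1 : 0 < κ1 := by rw [hκ1d]; exact lt_min hκa hκb
  have ha : κ1 ≤ κa := by rw [hκ1d]; exact min_le_left _ _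
  have hb : κ1 ≤ κb := by rw [hκ1d]; exact min_le_right _ _
  have hF : Fam μ R n (CA X) δ κ1 f σ ψ σW := by
    refine ⟨hκ1, hca, fun κ h1 h2 => (H1 κ h1 (h2.trans ha)).1,
      fun κ h1 h2 => hUW κ h1 (h2.trans ha) (h2.trans ha),
      fun κ h1 h2 m h3 => H3 κ h1 (h2.trans ha) m (h3.trans ha),
      fun κ κs h1 h2 h3 h4 => H4 κ κs h1 (h2.trans ha)
        (fun i => ⟨(h3 i).1, (h3 i).2.trans ha⟩) h4, ?_⟩
    intro κ κ' h1 h2 h1' h2' he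
    have u := hUW κ h1 (h2.trans ha) (h2.trans ha)
    have u' := hUW κ' h1' (h2'.trans ha) (h2'.trans ha)
    obtain ⟨β, k, b1, b2, b3⟩ := u.ex
    obtain ⟨β', k', b1', b2', b3'⟩ := u'.ex
    have l : Tendsto (fun j => gsq μ R n ((mk μ)^[k j] (bw μ (wa R) (β j)))) atTop (𝓝 κ) := by
      simp only [b3]; exact tendsto_const_nhds
    have l' : Tendsto (fun j => gsq μ R n ((mk μ)^[k' j] (bw μ (wa R) (β' j)))) atTop
        (𝓝 κ') := by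
      simp only [b3']; exact tendsto_const_nhds
    have d := (u.lim β k b1 b2 l).1.sub (u'.lim β' k' b1' b2' l').1
    rw [he, sub_self] at d
    exact hinj κ κ' h1 (h2.trans hb) h1' (h2'.trans hb) β β' k k' b1 b1' b2 b2' l l' d
  have hfW : Fwd μ R n (CA X) δ (wa R) M B c' C' := ⟨hM, hB, hc', hC', hfw⟩
  obtain ⟨s0, g, T⟩ := exists_tim μ h hF hfW
  obtain ⟨κ₁, hκ₁, hκ₁1, hstr⟩ := T.strong μ h hF hc'
  have hσ : ∀ κ, 0 < κ → κ ≤ κ1 → 0 < σ κ ∧ Ten μ (f κ 0) (σ κ) := fun κ h1 h2 =>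
    ⟨(H1 κ h1 (h2.trans ha)).2.1, (H1 κ h1 (h2.trans ha)).2.2.1⟩
  refine ⟨FF f g s0, SS σ g s0, κ₁, hκ₁, hκ₁1, ?_, ?_⟩
  · refine ⟨T.pd μ h hF, T.pos μ h hF, T.cls μ h hF, T.inv μ h hF, T.step μ h hF, T.up μ h hF,
      fun s ss hss => (T.cont_FF μ hF hc' hss).1, T.run μ h hF,
      fun s => (T.ten μ h hF hσ s).1, fun s => (T.ten μ h hF hσ s).2, ?_, ?_,
      T.wl μ fun κ h1 h2 => (H1 κ h1 (h2.trans ha)).2.2.2.1,
      fun κ h1 h2 => T.onto μ h hF hc' hC' h1 h2⟩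
    · rw [continuous_iff_continuousAt]
      intro s
      rw [ContinuousAt, tendsto_iff_seq_tendsto]
      intro ss hss
      exact (T.cont_FF μ hF hc' hss).2
    · intro s
      have := (T.FF_add s 1).2
      rw [pow_one, Nat.cast_one] at this
      exact this
  · intro V hV
    obtain ⟨V4, hV4, σV, hσV, -, κV, hκV, -, hUV⟩ := H2 V hV
    obtain ⟨MV, BV, cV, CV, hMV, hBV, hcV, hCV, hfwV⟩ := fwd_V μ h hV (shift X V4)
    have hfV : Fwd μ R n (CA X) (shift X V4) V MV BV cV CV := ⟨hMV, hBV, hcV, hCV, hfwV⟩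
    have huniv : ∀ (β : ℕ → ℝ) (k : ℕ → ℕ) (s : ℝ), (∀ j, 0 < β j) → Tendsto β atTop atTop →
        Tendsto (fun j => cnt (CA X) (shift X V4) (β j) (k j)) atTop (𝓝 s) →
        TendstoUniformly (fun j => (mk μ)^[k j] (bw μ V (β j))) (FF f g s0 s) atTop ∧
          Tendsto (fun j => 4 ^ k j * σV (β j)) atTop (𝓝 (SS σ g s0 s)) := by
      intro β k s b1 b2 b3
      exact T.univ μ h hF hV hκV hfV (fun κ h1 h2 h3 => hUV κ h1 (h2.trans ha) h3) b1 b2 b3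
    refine ⟨V4, hV4, σV, hσV, ⟨?_, ?_, ?_⟩⟩
    · intro β k s b1 b2 b3
      simp only [← cnt_tau] at b3
      exact (huniv β k s b1 b2 b3).1
    · have h1 := T.scaling μ h hF hc' hσ (V := V) (δV := shift X V4) (σV := σV)
        fun β k s b1 b2 b3 => (huniv β k s b1 b2 b3).2
      refine h1.congr fun β => ?_
      rw [cnt_tau, Nat.cast_zero, zero_sub]
    · intro κ s h1 h2 h3 β k b1 b2 b3
      have h4 := T.tune μ h hF hc' hκ₁1 hstr hV hfV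
        (fun β k s b1 b2 b3 => (huniv β k s b1 b2 b3).1) h1 h2 h3 b1 b2 b3
      simp only [cnt_tau] at h4
      exact h4

end

end Pool.Agent.T2H04.HY
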