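import Mathlib
import Pool.Agent.T2H04.HY.RgT4

/-!
# Uniform bounds for the family of the continuum theories
-/

open MeasureTheory Matrix Filter
open scoped Matrix.Norms.Frobenius Topology

namespace Pool.Agent.T2H04.HY

set_option linter.unusedSectionVars false

noncomputable section

variable {G : Type} [Group G] [TopologicalSpace G] [IsTopologicalGroup G] [CompactSpace G]
  [MeasurableSpace G] [BorelSpace G] (μ : Measure G) [μ.IsHaarMeasure] [IsProbabilityMeasure μ]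

namespace UpU

open TenLim

/-- the bound for the maximum after one step -/
theorem sup_step {f : G → ℝ} (hf : PD μ f) (hs : ∀ x, f x⁻¹ = f x)
    (hm : M2 μ (dh f) ≤ 1 / 32) (x : G) : |mk μ f x - 1| ≤ 5 * M2 μ (dh f) ^ 2 := by
  have hPc := dP_cont hf
  have h0 := M2_nonneg μ (dh f)
  obtain ⟨u, hu⟩ : ∃ u, u = M2 μ (dh f) ^ 2 := ⟨_, rfl⟩
  have hu0 : 0 ≤ u := by rw [hu]; positivity
  have hu1 : u ≤ 1 / 1024 := by
    rw [hu]
    have := pow_le_pow_left₀ h0 hm 2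
    norm_num at this ⊢
    linarith
  have hH : ∀ y, |dH μ f y| ≤ u := fun y => by
    rw [hu]; exact (dH_le hf y).trans (eta_le hf)
  have hP0 : ∀ y, 0 ≤ dP (μ := μ) f y := fun y => dP_ge y
  have hP : ∀ y, dP (μ := μ) f y ≤ u / 20 := by
    intro y
    have h1 := hH y
    have h2 : |dH μ f y| ^ 2 ≤ u * (1 / 1024) := by
      have h3 : |dH μ f y| ^ 2 ≤ u ^ 2 := pow_le_pow_left₀ (abs_nonneg _) h1 2
      nlinarith
    have h3 : dP (μ := μ) f y = dH μ f y ^ 2 * (2 + (2 + dH μ f y) ^ 2) := by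
      unfold dP
      ring
    rw [sq_abs] at h2
    have h4 := abs_le.1 h1
    have h5 : (2 + (2 + dH μ f y) ^ 2) ≤ 7 := by nlinarith [h4.1, h4.2]
    have h6 : 0 ≤ (2 + (2 + dH μ f y) ^ 2) := by positivity
    rw [h3]
    calc dH μ f y ^ 2 * (2 + (2 + dH μ f y) ^ 2) ≤ u * (1 / 1024) * 7 :=
          mul_le_mul h2 h5 h6 (by positivity)
      _ ≤ u / 20 := by linarith
  have hI0 : 0 ≤ ∫ y, dP (μ := μ) f y ∂μ := integral_nonneg fun y => hP0 y
  have hI : ∫ y, dP (μ := μ) f y ∂μ ≤ u / 20 := by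
    have := integral_mono (μ := μ) (integrable_cont μ hPc) (integrable_const (u / 20)) hP
    rwa [integral_const, probReal_univ, one_smul] at this
  have e := mk_eq hf hs x
  have e' : mk μ f x - 1 = dh (mk μ f) x := rfl
  rw [e', e, abs_mul, abs_of_pos (by positivity)]
  have h1 : (1 + ∫ y, dP (μ := μ) f y ∂μ)⁻¹ ≤ 1 := by
    rw [inv_le_one₀ (by positivity)]
    linarith
  have h2 : |dk (μ := μ) f x| ≤ 5 * u := by
    unfold dk
    rw [abs_le]
    have a1 := abs_le.1 (hH x)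
    have a2 := hP x
    have a3 := hP0 x
    constructor <;> linarith [a1.1, a1.2]
  calc (1 + ∫ y, dP (μ := μ) f y ∂μ)⁻¹ * |dk (μ := μ) f x| ≤ 1 * (5 * u) :=
        mul_le_mul h1 h2 (abs_nonneg _) (by norm_num)
    _ = _ := by rw [hu, one_mul]

theorem M2_step {f : G → ℝ} (hf : PD μ f) (hs : ∀ x, f x⁻¹ = f x)
    (hm : M2 μ (dh f) ≤ 1 / 32) : M2 μ (dh (mk μ f)) ≤ 25 * M2 μ (dh f) ^ 4 := by
  have h0 := M2_nonneg μ (dh f)
  have hpd : PD μ (mk μ f) := pd_mk μ _ hf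
  have h1 := nn_le_sup μ (dh_cont hpd) (by positivity) (sup_step μ hf hs hm)
  have h2 := pow_le_pow_left₀ (nn_nonneg μ _) h1 2
  rw [nn_sq] at h2
  calc M2 μ (dh (mk μ f)) ≤ (5 * M2 μ (dh f) ^ 2) ^ 2 := h2
    _ = _ := by ring

theorem M2_iter {f : G → ℝ} (hf : PD μ f) (hs : ∀ x, f x⁻¹ = f x)
    (hm : M2 μ (dh f) ≤ 1 / 32) (i : ℕ) :
    3 * M2 μ (dh ((mk μ)^[i] f)) ≤ (3 / 32) ^ 4 ^ i ∧ M2 μ (dh ((mk μ)^[i] f)) ≤ 1 / 32 := by
  induction i with
  | zero =>
    simp only [Function.iterate_zero, id_eq, pow_zero, pow_one]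
    exact ⟨by linarith, hm⟩
  | succ i ih =>
    rw [Function.iterate_succ_apply']
    have h0 := M2_nonneg μ (dh ((mk μ)^[i] f))
    have h1 := M2_step μ (Asm.iter_pd μ hf i) (iter_inv μ hs i) ih.2
    have h2 := pow_le_pow_left₀ (by positivity) ih.1 4
    have h3 : 3 * M2 μ (dh (mk μ ((mk μ)^[i] f))) ≤ (3 / 32) ^ 4 ^ (i + 1) := by
      rw [pow_succ 4 i, pow_mul]
      refine le_trans ?_ h2
      have : 0 ≤ M2 μ (dh ((mk μ)^[i] f)) ^ 4 := by positivity
      nlinarith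
    refine ⟨h3, ?_⟩
    have h4 : ((3 : ℝ) / 32) ^ 4 ^ (i + 1) ≤ (3 / 32) ^ 1 :=
      pow_le_pow_of_le_one (by norm_num) (by norm_num) (Nat.one_le_pow _ _ (by norm_num))
    rw [pow_one] at h4
    linarith

theorem near {f : G → ℝ} (hf : PD μ f) (hs : ∀ x, f x⁻¹ = f x)
    (hm : M2 μ (dh f) ≤ 1 / 32) (i : ℕ) (x : G) :
    |(mk μ)^[i + 1] f x - 1| ≤ Real.exp (-4 ^ (i + 1)) := by
  rw [Function.iterate_succ_apply']
  obtain ⟨h1, h2⟩ := M2_iter μ hf hs hm i
  have h0 := M2_nonneg μ (dh ((mk μ)^[i] f))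
  refine (sup_step μ (Asm.iter_pd μ hf i) (iter_inv μ hs i) h2 x).trans ?_
  have h3 : ((3 : ℝ) / 32) ≤ Real.exp (-2) := by
    have h4 : Real.exp 2 ≤ 32 / 3 := by
      have h5 := Real.exp_one_lt_d9
      have h6 : Real.exp 2 = Real.exp 1 * Real.exp 1 := by rw [← Real.exp_add]; norm_num
      rw [h6]
      have h7 := Real.exp_pos 1
      nlinarith
    rw [Real.exp_neg, le_inv_comm₀ (by norm_num) (Real.exp_pos _)]
    norm_num
    linarith
  have h4 : ((3 : ℝ) / 32) ^ 4 ^ i ≤ Real.exp (-2 * 4 ^ i) := by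
    have h5 := pow_le_pow_left₀ (by norm_num) h3 (4 ^ i)
    rw [← Real.exp_nat_mul] at h5
    refine h5.trans (le_of_eq ?_)
    congr 1
    push_cast
    ring
  have h5 : (3 * M2 μ (dh ((mk μ)^[i] f))) ^ 2 ≤ Real.exp (-2 * 4 ^ i) ^ 2 :=
    pow_le_pow_left₀ (by positivity) (h1.trans h4) 2
  have h6 : Real.exp (-2 * 4 ^ i) ^ 2 = Real.exp (-4 ^ (i + 1)) := by
    rw [← Real.exp_nat_mul]
    congr 1
    push_cast
    ring
  rw [h6] at h5
  nlinarith [Real.exp_pos (-4 ^ (i + 1) : ℝ)]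

variable {N : ℕ} {R : URep G N}

/-- **The theories of the family are uniformly close to the strong coupling fixed point.** -/
theorem up_unif {n : ℕ} {ca : ℝ} {F : ℝ → G → ℝ} {σ : ℝ → ℝ} (H : CT μ R n ca F σ) :
    ∃ C c : ℝ, 0 < C ∧ 0 < c ∧ ∀ s : ℝ, 0 ≤ s → ∀ x,
      |F s x - 1| ≤ C * Real.exp (-(c * 4 ^ s)) := by
  have hiter : ∀ (k : ℕ) (s : ℝ), (mk μ)^[k] (F s) = F (s + k) := by
    intro k
    induction k with
    | zero => intro s; simp
    | succ k ih =>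
      intro s
      rw [Function.iterate_succ_apply', ih, H.step]
      congr 1
      push_cast
      ring
  have hz : M2 μ (dh (fun _ : G => (1 : ℝ))) = 0 := by unfold M2 dh; simp
  have hone : ∀ s, TendstoUniformly (fun k : ℕ => (mk μ)^[k] (F s)) (fun _ => 1) atTop := by
    intro s
    obtain ⟨C, c, hC, hc, hup⟩ := H.up s
    refine to_one_of (C := C) hc fun k x => ?_
    rw [hiter]
    exact hup k x
  -- the number of steps to the basin
  obtain ⟨Q, hQ⟩ : ∃ Q : ℕ, ∀ r ∈ Set.Icc (0 : ℝ) 1, M2 μ (dh (F (r + Q))) ≤ 1 / 32 := by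
    by_contra hcon
    push Not at hcon
    choose r hr hlt using hcon
    obtain ⟨r0, -, φ, hφ, hlim⟩ := isCompact_Icc.tendsto_subseq hr
    have hφt := hφ.tendsto_atTop
    obtain ⟨i0, hi0⟩ : ∃ i0, M2 μ (dh ((mk μ)^[i0] (F r0))) < 1 / 32 := by
      have h2 := (M2_tendsto (μ := μ) (fun k => (Asm.iter_pd μ (H.pd r0) k).cont)
        continuous_const (hone r0)).1
      rw [hz] at h2
      exact (h2.eventually (gt_mem_nhds (by norm_num))).exists
    have h1 := Asm.iter_tendsto μ (fun j => H.pd _) (H.pd r0) (H.lim r0 _ hlim) i0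
    have h2 := (M2_tendsto (μ := μ) (fun j => (Asm.iter_pd μ (H.pd _) i0).cont)
      (Asm.iter_pd μ (H.pd r0) i0).cont h1).1
    obtain ⟨j, hj1, hj2⟩ := ((h2.eventually (gt_mem_nhds hi0)).and
      (hφt.eventually_ge_atTop i0)).exists
    have h3 := (M2_iter μ (Asm.iter_pd μ (H.pd _) i0) (iter_inv μ (H.inv _) i0) hj1.le
      (φ j - i0)).2
    rw [← Function.iterate_add_apply, Nat.sub_add_cancel hj2, hiter] at h3
    exact absurd (hlt (φ j)) (not_lt.2 h3)
  -- the bound before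
  obtain ⟨B, hB0, hB⟩ : ∃ B : ℝ, 0 < B ∧ ∀ s ∈ Set.Icc (0 : ℝ) (Q + 1), ∀ x,
      |F s x - 1| ≤ B := by
    by_contra hcon
    push Not at hcon
    choose s hs x hx using fun j : ℕ => hcon (j + 1) (by positivity)
    obtain ⟨s0, -, φ, hφ, hlim⟩ := isCompact_Icc.tendsto_subseq hs
    have hφt := hφ.tendsto_atTop
    have h1 := H.lim s0 _ hlim
    rw [Metric.tendstoUniformly_iff] at h1
    obtain ⟨M, hM⟩ : ∃ M, ∀ y, |F s0 y| ≤ M := by
      obtain ⟨M, hM⟩ := (isCompact_univ (X := G)).exists_bound_of_continuousOn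
        (H.pd s0).cont.continuousOn
      exact ⟨M, fun y => hM y (Set.mem_univ y)⟩
    obtain ⟨j, hj1, hj2⟩ := ((h1 1 one_pos).and
      ((tendsto_natCast_atTop_atTop.comp hφt).eventually_ge_atTop (M + 2))).exists
    have h2 := hj1 (x (φ j))
    rw [Real.dist_eq] at h2
    have h3 := hx (φ j)
    have h4 := hM (x (φ j))
    have h5 : M + 2 ≤ ((φ j : ℕ) : ℝ) := hj2
    have h6 : |F (s (φ j)) (x (φ j)) - 1| ≤ |F s0 (x (φ j)) - F (s (φ j)) (x (φ j))| +
        |F s0 (x (φ j))| + 1 := by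
      have e : F (s (φ j)) (x (φ j)) - 1 = -(F s0 (x (φ j)) - F (s (φ j)) (x (φ j))) +
        F s0 (x (φ j)) - 1 := by ring
      rw [e]
      refine (abs_sub _ _).trans ?_
      rw [abs_one]
      refine add_le_add ((abs_add_le _ _).trans ?_) le_rfl
      rw [abs_neg]
    simp only [Function.comp_apply] at h2
    linarith
  obtain ⟨c, hc⟩ : ∃ c : ℝ, c = (4 : ℝ) ^ (-((Q : ℝ) + 1)) := ⟨_, rfl⟩
  have hc0 : 0 < c := by rw [hc]; positivity
  have hcs : ∀ s : ℝ, c * 4 ^ s = (4 : ℝ) ^ (s - (Q + 1)) := fun s => by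
    rw [hc, ← Real.rpow_add (by norm_num)]
    congr 1
    ring
  refine ⟨B * Real.exp 1 + 1, c, by positivity, hc0, fun s hs x => ?_⟩
  have hE := Real.exp_pos (-(c * 4 ^ s))
  rcases le_total s (Q + 1) with h | h
  · have h1 := hB s ⟨hs, h⟩ x
    have h2 : c * 4 ^ s ≤ 1 := by
      rw [hcs]
      exact Real.rpow_le_one_of_one_le_of_nonpos (by norm_num) (by linarith)
    have h3 : 1 ≤ Real.exp 1 * Real.exp (-(c * 4 ^ s)) := by
      rw [← Real.exp_add]
      exact Real.one_le_exp (by linarith)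
    calc |F s x - 1| ≤ B := h1
      _ ≤ B * (Real.exp 1 * Real.exp (-(c * 4 ^ s))) := le_mul_of_one_le_right hB0.le h3
      _ ≤ _ := by nlinarith
  · obtain ⟨i, hi⟩ : ∃ i : ℕ, i = ⌊s - (Q + 1)⌋₊ := ⟨_, rfl⟩
    have h1 : (i : ℝ) ≤ s - (Q + 1) := by rw [hi]; exact Nat.floor_le (by linarith)
    have h2 : s - (Q + 1) < i + 1 := by rw [hi]; exact Nat.lt_floor_add_one _
    have h3 := near μ (H.pd _) (H.inv _) (hQ (s - (Q + 1) - i) ⟨by linarith, by linarith⟩) i x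
    rw [hiter] at h3
    have e : s - (Q + 1) - i + Q + ((i + 1 : ℕ) : ℝ) = s := by push_cast; ring
    rw [e] at h3
    have h4 : c * 4 ^ s ≤ 4 ^ (i + 1) := by
      rw [hcs, ← Real.rpow_natCast]
      refine Real.rpow_le_rpow_of_exponent_le (by norm_num) ?_
      push_cast
      linarith
    calc |F s x - 1| ≤ Real.exp (-4 ^ (i + 1)) := h3
      _ ≤ Real.exp (-(c * 4 ^ s)) := Real.exp_le_exp.2 (neg_le_neg h4)
      _ ≤ _ := by
          have : 0 < Real.exp 1 := Real.exp_pos 1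
          nlinarith [mul_pos (mul_pos hB0 this) hE]

end UpU

end

end Pool.Agent.T2H04.HY
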