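import Mathlib
import Pool.Agent.T2H04.HY.UpU
import Pool.Agent.T2H04.HY.TlK

/-!
# The renormalised coupling at all scales
-/

open MeasureTheory Matrix Filter
open scoped Matrix.Norms.Frobenius Topology

namespace Pool.Agent.T2H04.HY

set_option linter.unusedSectionVars false

noncomputable section

variable {G : Type} [Group G] [TopologicalSpace G] [IsTopologicalGroup G] [CompactSpace G]
  [MeasurableSpace G] [BorelSpace G] (μ : Measure G) [μ.IsHaarMeasure] [IsProbabilityMeasure μ]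
  {N : ℕ} {R : URep G N}

namespace UpU

/-- a sequence of real numbers has a subsequence with a limit, finite or infinite -/
theorem trich (s : ℕ → ℝ) : ∃ φ : ℕ → ℕ, StrictMono φ ∧ (Tendsto (fun i => s (φ i)) atTop atBot ∨
    (∃ x, Tendsto (fun i => s (φ i)) atTop (𝓝 x)) ∨ Tendsto (fun i => s (φ i)) atTop atTop) := by
  obtain ⟨e, φ, hφ, h⟩ := CompactSpace.tendsto_subseq fun j => ((s j : ℝ) : EReal)
  refine ⟨φ, hφ, ?_⟩
  induction e with
  | bot => exact Or.inl (EReal.tendsto_coe_nhds_bot_iff.1 h)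
  | coe x => exact Or.inr (Or.inl ⟨x, EReal.tendsto_coe.1 h⟩)
  | top => exact Or.inr (Or.inr (EReal.tendsto_coe_nhds_top_iff.1 h))

theorem tau_top {ca : ℝ} (hca : 0 < ca) (δ : ℝ) : Tendsto (tau ca δ) atTop atTop := by
  have h2 : Tendsto (fun x : ℝ => 4 / 15 * (Real.log x / x)) atTop (𝓝 (4 / 15 * 0)) :=
    (Real.isLittleO_log_id_atTop.tendsto_div_nhds_zero).const_mul _
  rw [mul_zero] at h2
  have h3 : Tendsto (fun x : ℝ => 8 / ca - 4 / 15 * (Real.log x / x)) atTop (𝓝 (8 / ca)) := by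
    have := h2.const_sub (8 / ca)
    rwa [sub_zero] at this
  have h4 : Tendsto (fun x : ℝ => (8 / ca - 4 / 15 * (Real.log x / x)) * x) atTop atTop :=
    h3.pos_mul_atTop (by positivity) tendsto_id
  have h5 := tendsto_atTop_add_const_right _ (8 / ca * δ) h4
  refine h5.congr' ?_
  filter_upwards [eventually_gt_atTop 0] with x hx
  unfold tau
  field_simp
  ring

theorem H_iter {n : ℕ} {ca : ℝ} {F : ℝ → G → ℝ} {σ : ℝ → ℝ} (H : CT μ R n ca F σ) (k : ℕ) (s : ℝ) :
    (mk μ)^[k] (F s) = F (s + k) := by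
  induction k generalizing s with
  | zero => simp
  | succ k ih =>
    rw [Function.iterate_succ_apply', ih, H.step]
    congr 1
    push_cast
    ring

theorem H_one {n : ℕ} {ca : ℝ} {F : ℝ → G → ℝ} {σ : ℝ → ℝ} (H : CT μ R n ca F σ) (s : ℝ) :
    TendstoUniformly (fun k : ℕ => (mk μ)^[k] (F s)) (fun _ => 1) atTop := by
  obtain ⟨C, c, hC, hc, hup⟩ := H.up s
  refine to_one_of (C := C) hc fun k x => ?_
  rw [H_iter μ H]
  exact hup k x

/-- the renormalised coupling at large scales, for the continuum theory -/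
theorem F_top {n : ℕ} (hn : 0 < n) {ca : ℝ} {F : ℝ → G → ℝ} {σ : ℝ → ℝ} (H : CT μ R n ca F σ)
    {s : ℕ → ℝ} (hs : Tendsto s atTop atTop) :
    Tendsto (fun j => gsq μ R n (F (s j))) atTop (𝓝 (gsq μ R n fun _ => 1)) := by
  obtain ⟨C, c, hC, hc, hup⟩ := up_unif μ H
  refine gsq_tendsto μ (R := R) hn (fun j => (H.pd _).cont) continuous_const ?_
  rw [Metric.tendstoUniformly_iff]
  intro ε hε
  have h1 : Tendsto (fun j => C * Real.exp (-(c * (4 : ℝ) ^ s j))) atTop (𝓝 0) := by
    have h2 : Tendsto (fun j => (4 : ℝ) ^ s j) atTop atTop :=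
      (tendsto_rpow_atTop_of_base_gt_one _ (by norm_num)).comp hs
    have h3 := Real.tendsto_exp_neg_atTop_nhds_zero.comp (h2.const_mul_atTop hc)
    have h4 := h3.const_mul C
    rw [mul_zero] at h4
    exact h4
  filter_upwards [h1.eventually (gt_mem_nhds hε), hs.eventually_ge_atTop 0] with j h2 h3 x
  rw [dist_comm, Real.dist_eq]
  exact (hup _ h3 x).trans_lt h2

/-- the renormalised coupling at large scales, for the lattice theories -/
theorem V_top {n : ℕ} {X : Fin n → Matrix (Fin N) (Fin N) ℂ} (h : SG R n X)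
    {F : ℝ → G → ℝ} {σ : ℝ → ℝ} (H : CT μ R n (CA X) F σ) {V : G → ℝ} (hV : PolAct R V)
    {δ κ₁ : ℝ} {σV : ℝ → ℝ} (U : UVS μ R n (CA X) κ₁ F σ V δ σV)
    {β : ℕ → ℝ} {k : ℕ → ℕ} (hβ : ∀ j, 0 < β j) (hβt : Tendsto β atTop atTop)
    (hs : Tendsto (fun j => (k j : ℝ) - tau (CA X) δ (β j)) atTop atTop) :
    Tendsto (fun j => gsq μ R n ((mk μ)^[k j] (bw μ V (β j)))) atTop
      (𝓝 (gsq μ R n fun _ => 1)) := by
  have hpdV : ∀ b, PD μ (bw μ V b) := bw_pd μ hV.cont'
  refine tendsto_of_subseq_tendsto fun ns hns => ?_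
  obtain ⟨q, hq⟩ : ∃ q : ℕ → ℕ, q = fun i => ⌊(k (ns i) : ℝ) - tau (CA X) δ (β (ns i))⌋₊ :=
    ⟨_, rfl⟩
  have hs' := hs.comp hns
  have hqt : Tendsto q atTop atTop := by
    rw [hq]
    exact tendsto_nat_floor_atTop.comp hs'
  have hev : ∀ᶠ i in atTop, (k (ns i) : ℝ) - tau (CA X) δ (β (ns i)) - q i ∈
      Set.Icc (0 : ℝ) 1 := by
    filter_upwards [hs'.eventually_ge_atTop 0] with i hi
    have h1 := Nat.floor_le hi
    have h2 := Nat.lt_floor_add_one ((k (ns i) : ℝ) - tau (CA X) δ (β (ns i)))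
    simp only [Function.comp_apply] at h1 hi
    have h3 : (q i : ℝ) = (⌊(k (ns i) : ℝ) - tau (CA X) δ (β (ns i))⌋₊ : ℝ) := by rw [hq]
    rw [h3]
    constructor <;> linarith
  obtain ⟨x0, -, φ, hφ, hlim⟩ := isCompact_Icc.tendsto_subseq' hev.frequently
  have hφt := hφ.tendsto_atTop
  refine ⟨φ, ?_⟩
  have hβφ : Tendsto (fun i => β (ns (φ i))) atTop atTop := hβt.comp (hns.comp hφt)
  have hle : ∀ᶠ i in atTop, q (φ i) ≤ k (ns (φ i)) := by
    have h1 := ((tau_top h.ca_pos δ).comp hβφ)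
    filter_upwards [h1.eventually_ge_atTop 0, hφt.eventually hev] with i h2 h3
    have h4 : (q (φ i) : ℝ) ≤ k (ns (φ i)) := by
      simp only [Function.comp_apply] at h2
      linarith [h3.1]
    exact_mod_cast h4
  have hcm : Tendsto (fun i => ((k (ns (φ i)) - q (φ i) : ℕ) : ℝ) -
      tau (CA X) δ (β (ns (φ i)))) atTop (𝓝 x0) := by
    refine hlim.congr' ?_
    filter_upwards [hle] with i hi
    simp only [Function.comp_apply]
    rw [Nat.cast_sub hi]
    ring
  have h1 := U.lim (fun i => β (ns (φ i))) (fun i => k (ns (φ i)) - q (φ i)) x0 (fun i => hβ _)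
    hβφ hcm
  have h2 := basin μ (R := R) (n := n) (fun i => Asm.iter_pd μ (hpdV _) _)
    (fun i => iter_inv μ (bw_inv μ hV.inv _) _) (H.pd x0) (H_one μ H x0) h1
    (hqt.comp hφt)
  refine h2.congr' ?_
  filter_upwards [hle] with i hi
  simp only [Function.comp_apply]
  rw [← Function.iterate_add_apply, show q (φ i) + (k (ns (φ i)) - q (φ i)) = k (ns (φ i)) by
    omega]

/-- the renormalised coupling at small scales, for the continuum theory -/
theorem F_bot {n : ℕ} {X : Fin n → Matrix (Fin N) (Fin N) ℂ} (h : SG R n X)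
    {F : ℝ → G → ℝ} {σ : ℝ → ℝ} (H : CT μ R n (CA X) F σ)
    {s : ℕ → ℝ} (hs : Tendsto s atTop atBot) :
    Tendsto (fun j => -s j * gsq μ R n (F (s j))) atTop (𝓝 (8 / CA X)) := by
  have hca := h.ca_pos
  obtain ⟨K, hK⟩ := H.run
  have hx : Tendsto (fun j => -s j) atTop atTop := tendsto_neg_atBot_atTop.comp hs
  have hr : Tendsto (fun j => 1 / gsq μ R n (F (s j)) / -s j) atTop (𝓝 (CA X / 8)) := by
    have h1 : Tendsto (fun x : ℝ => CA X / 8 + CA X / 30 * (Real.log x / x)) atTop
        (𝓝 (CA X / 8)) := by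
      have h2 := ((Real.isLittleO_log_id_atTop.tendsto_div_nhds_zero).const_mul
        (CA X / 30)).const_add (CA X / 8)
      rw [mul_zero, add_zero] at h2
      exact h2
    have h2 := h1.comp hx
    have h3 : Tendsto (fun j => |K| / -s j) atTop (𝓝 0) := tendsto_const_nhds.div_atTop hx
    have h4 : Tendsto (fun j => 1 / gsq μ R n (F (s j)) / -s j -
        (CA X / 8 + CA X / 30 * (Real.log (-s j) / -s j))) atTop (𝓝 0) := by
      refine squeeze_zero_norm' ?_ h3
      filter_upwards [hx.eventually_ge_atTop (max K 1)] with j hj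
      have hj1 : K ≤ -s j := (le_max_left _ _).trans hj
      have hj2 : 0 < -s j := lt_of_lt_of_le one_pos ((le_max_right _ _).trans hj)
      have h5 := hK _ hj1
      rw [neg_neg] at h5
      have e : 1 / gsq μ R n (F (s j)) / -s j - (CA X / 8 + CA X / 30 * (Real.log (-s j) / -s j)) =
          (1 / gsq μ R n (F (s j)) - (CA X / 8 * -s j + CA X / 30 * Real.log (-s j))) / -s j := by
        rw [sub_div, add_div, mul_div_cancel_right₀ _ hj2.ne', mul_div_assoc (CA X / 30)]
      rw [e, Real.norm_eq_abs, abs_div, abs_of_pos hj2]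
      exact div_le_div_of_nonneg_right (h5.trans (le_abs_self K)) hj2.le
    have h5 := h4.add h2
    rw [zero_add] at h5
    refine h5.congr fun j => ?_
    simp only [Function.comp_apply]
    ring
  have h1 := hr.inv₀ (by positivity)
  rw [inv_div] at h1
  refine h1.congr' ?_
  filter_upwards [hx.eventually_gt_atTop 0] with j hj
  have hg : 0 < gsq μ R n (F (s j)) := gsq_pos μ h (H.pd _).cont (H.pos _)
  field_simp

/-- **The renormalised coupling at all scales.** -/
theorem all_scales {n : ℕ} {X : Fin n → Matrix (Fin N) (Fin N) ℂ} (h : SG R n X)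
    {F : ℝ → G → ℝ} {σ : ℝ → ℝ} (H : CT μ R n (CA X) F σ) {V : G → ℝ} (hV : PolAct R V)
    {δ κ₁ : ℝ} {σV : ℝ → ℝ} (U : UVS μ R n (CA X) κ₁ F σ V δ σV) :
    Tendsto (fun p : ℝ × ℕ => gsq μ R n ((mk μ)^[p.2] (bw μ V p.1)) /
      gsq μ R n (F (p.2 - tau (CA X) δ p.1))) (atTop ×ˢ atTop) (𝓝 1) := by
  have hn := h.npos
  have hpdV : ∀ b, PD μ (bw μ V b) := bw_pd μ hV.cont'
  have hgF : ∀ s, 0 < gsq μ R n (F s) := fun s => gsq_pos μ h (H.pd s).cont (H.pos s)
  have hg1 : 0 < gsq μ R n (fun _ : G => 1) := gsq_pos μ h continuous_const fun _ => one_pos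
  -- for sequences of positive numbers
  have core : ∀ (β : ℕ → ℝ) (k : ℕ → ℕ), (∀ j, 0 < β j) → Tendsto β atTop atTop →
      Tendsto k atTop atTop → Tendsto (fun j => gsq μ R n ((mk μ)^[k j] (bw μ V (β j))) /
        gsq μ R n (F (k j - tau (CA X) δ (β j)))) atTop (𝓝 1) := by
    intro β k hβ hβt hkt
    refine tendsto_of_subseq_tendsto fun ns hns => ?_
    obtain ⟨φ, hφ, h3⟩ := trich fun i => (k (ns i) : ℝ) - tau (CA X) δ (β (ns i))
    have hφt := hφ.tendsto_atTop
    have hβ' : Tendsto (fun i => β (ns (φ i))) atTop atTop := hβt.comp (hns.comp hφt)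
    have hk' : Tendsto (fun i => k (ns (φ i))) atTop atTop := hkt.comp (hns.comp hφt)
    refine ⟨φ, ?_⟩
    rcases h3 with h3 | ⟨x, h3⟩ | h3
    · have a1 := as_V μ h hV δ (fun i => hβ _) hβ' hk' (by
        simp only [cnt_tau]
        exact h3)
      simp only [cnt_tau] at a1
      have a2 := F_bot μ h H h3
      have h4 := a1.div a2 (by have := h.ca_pos; positivity)
      rw [div_self (by have := h.ca_pos; positivity)] at h4
      refine h4.congr' ?_
      filter_upwards [h3.eventually_lt_atBot 0] with i hi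
      simp only [Pi.div_apply]
      rw [mul_div_mul_left _ _ (by linarith)]
    · have a1 := gsq_tendsto μ (R := R) hn (fun i => (Asm.iter_pd μ (hpdV _) _).cont)
        (H.pd x).cont (U.lim _ _ x (fun i => hβ _) hβ' h3)
      have a2 := gsq_tendsto μ (R := R) hn (fun i => (H.pd _).cont) (H.pd x).cont
        (H.lim x _ h3)
      have h4 := a1.div a2 (hgF x).ne'
      rw [div_self (hgF x).ne'] at h4
      exact h4
    · have a1 := V_top μ h H hV U (fun i => hβ _) hβ' h3
      have a2 := F_top μ hn H h3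
      have h4 := a1.div a2 hg1.ne'
      rw [div_self hg1.ne'] at h4
      exact h4
  rw [tendsto_iff_seq_tendsto]
  intro p hp
  rw [tendsto_prod_iff'] at hp
  obtain ⟨hp1, hp2⟩ := hp
  have h1 := core (fun j => max (p j).1 1) (fun j => (p j).2)
    (fun j => lt_of_lt_of_le one_pos (le_max_right _ _))
    (tendsto_atTop_mono (fun j => le_max_left _ _) hp1) hp2
  refine h1.congr' ?_
  filter_upwards [hp1.eventually_ge_atTop 1] with j hj
  simp only [Function.comp_apply]
  rw [max_eq_left hj]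

end UpU

end

end Pool.Agent.T2H04.HY
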